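import Mathlib
import Pool.Graph.R_pool_sql_team_seeded_5cf16337.K3h2.LA.Cnt
import Pool.Graph.R_pool_sql_team_seeded_5cf16337.K3h2.LA.Core
import Pool.Graph.R_seed8.Y724.T4.ABQ

set_option autoImplicit false

/-!
# The abc inequality for triples which become sparse after multiplication by a small integer
-/

open Finset NumberField

namespace Pool.Agent.H455.AB

open Pool.Agent.Y724.T4 Pool.Agent.K3h2.LA

/-- `y` is a sum of `l` `S`-units with integer coefficients of absolute value at most `M` -/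
def Sh (S : Finset ℕ) (l : ℕ) (M : ℝ) (y : ℚ) : Prop :=
  ∃ (u : Fin l → ℚ) (k : Fin l → ℤ), (∀ j, R7.IsSUnit S (u j)) ∧ (∀ j, |(k j : ℝ)| ≤ M) ∧
    y = ∑ j, u j * k j

theorem short_of_sh {ι : Type} [Fintype ι] (S : Finset ℕ) (l : ℕ) (z y : ι → ℚ) (f : ι → ℤ)
    (M N B δ : ℝ) (hM : 0 ≤ M) (hy : ∀ i, Sh S l M (y i)) (hz : ∀ i, z i = f i * y i)
    (hf : ∀ i, |(f i : ℝ)| ≤ N) (hB : N * M ≤ B * (R7.size z : ℝ) ^ δ) :
    R7.IsShortSum S (Fintype.card (ι × Fin l)) B δ z := by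
  classical
  choose u c hu hc hy' using hy
  let e := (Fintype.equivFin (ι × Fin l)).symm
  refine ⟨fun j => u (e j).1 (e j).2,
    fun j i => if i = (e j).1 then f i * c i (e j).2 else 0, fun j => hu _ _, ?_, ?_⟩
  · intro j i
    refine le_trans ?_ hB
    by_cases h : i = (e j).1
    · simp only [h, if_true]
      push_cast
      rw [abs_mul]
      exact mul_le_mul (hf _) (hc _ _) (abs_nonneg _) ((abs_nonneg _).trans (hf (e j).1))
    · simp only [h, if_false]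
      rw [Int.cast_zero, abs_zero]
      exact mul_nonneg ((abs_nonneg _).trans (hf i)) hM
  · intro i
    rw [hz i, hy' i]
    have h1 : ∑ j, u (e j).1 (e j).2 *
        ((if i = (e j).1 then f i * c i (e j).2 else 0 : ℤ) : ℚ) =
        ∑ q : ι × Fin l, u q.1 q.2 *
          ((if i = q.1 then f i * c i q.2 else 0 : ℤ) : ℚ) :=
      Equiv.sum_comp e (fun q : ι × Fin l => u q.1 q.2 *
          ((if i = q.1 then f i * c i q.2 else 0 : ℤ) : ℚ))
    rw [h1, Fintype.sum_prod_type, Finset.sum_eq_single i]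
    · rw [Finset.mul_sum]
      refine Finset.sum_congr rfl fun j _ => ?_
      rw [if_pos rfl]
      push_cast
      ring
    · intro b _ hb
      refine Finset.sum_eq_zero fun j _ => ?_
      rw [if_neg (Ne.symm hb)]
      simp
    · intro h
      exact absurd (Finset.mem_univ i) h

/-- the height of a triple of integers of which two are coprime -/
theorem log_le_height' (z : Fin 3 → ℤ) (hcop : IsCoprime (z 0) (z 1)) (i : Fin 3) (hi : z i ≠ 0) :
    Real.log |(z i : ℝ)| ≤ Height.logHeight (fun j => (z j : ℚ)) := by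
  have h1 : Module.finrank ℚ ℚ = 1 := Module.finrank_self ℚ
  have hx : (fun j => (z j : ℚ)) ≠ 0 := by
    intro h
    have h3 := congrFun h i
    simp only [Pi.zero_apply, Int.cast_eq_zero] at h3
    exact hi h3
  have hle : ∀ (v : AbsoluteValue ℚ ℝ) (j : Fin 3), v ((z j : ℚ)) ≤ ⨆ j, v ((z j : ℚ)) :=
    fun v j => le_ciSup (f := fun j => v ((z j : ℚ))) (Finite.bddAbove_range _) j
  rw [logHeight_sum hx]
  have hmult : ∑ v : InfinitePlace ℚ, (v.mult : ℝ) = 1 := by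
    rw [← Nat.cast_one, ← h1, ← InfinitePlace.sum_mult_eq]
    push_cast
    rfl
  have h3 : Real.log |(z i : ℝ)| ≤
      ∑ v : InfinitePlace ℚ, (v.mult : ℝ) * Real.log (⨆ j, v ((z j : ℚ))) := by
    have h4 : ∑ v : InfinitePlace ℚ, (v.mult : ℝ) * Real.log |(z i : ℝ)| ≤
        ∑ v : InfinitePlace ℚ, (v.mult : ℝ) * Real.log (⨆ j, v ((z j : ℚ))) := by
      refine Finset.sum_le_sum fun v _ => mul_le_mul_of_nonneg_left ?_ (Nat.cast_nonneg _)
      refine Real.log_le_log (by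
        have : (z i : ℝ) ≠ 0 := by exact_mod_cast hi
        positivity) ?_
      have h5 := hle v.1 i
      have h6 := RTHaux.inf_int v (z i)
      rw [← h6]
      exact h5
    rwa [← Finset.sum_mul, hmult, one_mul] at h4
  have h4 : 0 ≤ ∑ᶠ v : FinitePlace ℚ, Real.log (⨆ j, v ((z j : ℚ))) := by
    refine finsum_nonneg fun v => Real.log_nonneg ?_
    obtain ⟨p, q, hpq⟩ := hcop
    have h5 : (1 : ℚ) = (p : ℚ) * (z 0 : ℚ) + (q : ℚ) * (z 1 : ℚ) := by
      have := congrArg (fun z : ℤ => (z : ℚ)) hpq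
      push_cast at this
      exact this.symm
    have h6 : v (1 : ℚ) ≤ max (v ((p : ℚ) * (z 0 : ℚ))) (v ((q : ℚ) * (z 1 : ℚ))) := by
      conv_lhs => rw [h5]
      exact FinitePlace.add_le v _ _
    rw [map_one, map_mul, map_mul] at h6
    have e0 := hle v.1 0
    have e1 := hle v.1 1
    have h7 : v (p : ℚ) * v (z 0 : ℚ) ≤ 1 * ⨆ j, v ((z j : ℚ)) :=
      mul_le_mul (PLCaux.int_le_one v p) e0 (apply_nonneg v _) zero_le_one
    have h8 : v (q : ℚ) * v (z 1 : ℚ) ≤ 1 * ⨆ j, v ((z j : ℚ)) :=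
      mul_le_mul (PLCaux.int_le_one v q) e1 (apply_nonneg v _) zero_le_one
    rw [one_mul] at h7 h8
    exact h6.trans (max_le h7 h8)
  linarith

theorem size_le_quot {ι : Type} [Fintype ι] (z : ι → ℚ) (E : ℕ)
    (h : ∀ i, ∃ n d : ℤ, d ≠ 0 ∧ z i = n / d ∧ n.natAbs ≤ E ∧ d.natAbs ≤ E) :
    R7.size z ≤ E := by
  refine Finset.sup_le fun i _ => ?_
  obtain ⟨n, d, hd, he, hn, hdE⟩ := h i
  have h1 : z i = Rat.divInt n d := by rw [he, Rat.divInt_eq_div]
  have hE : 0 < E := lt_of_lt_of_le (Int.natAbs_pos.2 hd) hdE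
  refine max_le ?_ ?_
  · by_cases hn0 : n = 0
    · rw [he, hn0]
      simp
    · have h2 : (z i).num ∣ n := by rw [h1]; exact Rat.num_dvd n hd
      exact (Nat.le_of_dvd (Int.natAbs_pos.2 hn0) (Int.natAbs_dvd_natAbs.2 h2)).trans hn
  · have h2 : ((z i).den : ℤ) ∣ d := by rw [h1]; exact Rat.den_dvd n d
    have h3 := Nat.le_of_dvd (Int.natAbs_pos.2 hd) (Int.natAbs_dvd_natAbs.2 h2)
    rw [Int.natAbs_natCast] at h3
    exact h3.trans hdE

/-- **The abc inequality with small denominators.** -/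
theorem abc_den (S : Finset ℕ) (hS : ∀ p ∈ S, p.Prime) (l m : ℕ) (hm : 1 ≤ m) (ε : ℝ)
    (hε : 0 < ε) : ∃ δ C : ℝ, 0 < δ ∧ 0 ≤ C ∧
    ∀ (a : Fin 3 → ℤ) (ρ X : ℕ) (t : Fin 3 → Fin 3 → ℚ) (Δ : ℕ) (M : ℝ),
      (∀ i, a i ≠ 0) → a 0 + a 1 + a 2 = 0 → IsCoprime (a 0) (a 1) → 0 < ρ →
      (∀ i j, (ρ : ℚ) ^ m * a j = a i * t i j) → (∀ i, (a i).natAbs ≤ X) →
      (∃ i, (a i).natAbs = X) → 0 < Δ → (Δ : ℝ) ≤ M → Real.log M ≤ δ * (1 + Real.log X) →
      (∀ i, Sh S l M ((Δ : ℚ) * a i)) → (∀ i j, Sh S l M ((Δ : ℚ) * t i j)) →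
      Sh S l M ((Δ : ℚ) * ρ) → Sh S l M (Δ : ℚ) →
      Real.log X ≤ (1 + ε) * Real.log ρ + C := by
  classical
  obtain ⟨μ, hμ⟩ : ∃ μ : ℝ, μ = ((2 * m - 1 : ℕ) : ℝ) := ⟨_, rfl⟩
  have hμ1 : 1 ≤ μ := by
    rw [hμ]
    have : 1 ≤ 2 * m - 1 := by omega
    exact_mod_cast this
  have hμ0 : 0 < μ := by linarith
  obtain ⟨δ0, C0, hδ0, hC0, hcore⟩ := abk_core S hS 1 (Fintype.card (Ix 1 × Fin l)) m
    (m + 2) (Real.exp 1) (ε / 2) (by positivity)
  obtain ⟨η, hη⟩ : ∃ η : ℝ, η = ε / 2 / (1 + ε) := ⟨_, rfl⟩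
  have hη0 : 0 < η := by
    rw [hη]
    positivity
  obtain ⟨δ, hδ⟩ : ∃ δ : ℝ, δ = min (1 / μ) (min (δ0 / μ) (η / (4 * (1 + ε / 2)))) := ⟨_, rfl⟩
  have hδ00 : 0 < δ := by
    rw [hδ]
    exact lt_min (by positivity) (lt_min (by positivity) (by positivity))
  have hδ1 : μ * δ ≤ 1 := by
    have h1 : δ ≤ 1 / μ := by
      rw [hδ]
      exact min_le_left _ _
    calc μ * δ ≤ μ * (1 / μ) := mul_le_mul_of_nonneg_left h1 hμ0.le
      _ = 1 := by field_simp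
  have hδ2 : μ * δ ≤ δ0 := by
    have h1 : δ ≤ δ0 / μ := by
      rw [hδ]
      exact (min_le_right _ _).trans (min_le_left _ _)
    calc μ * δ ≤ μ * (δ0 / μ) := mul_le_mul_of_nonneg_left h1 hμ0.le
      _ = δ0 := by field_simp
  have hδ3 : 4 * (1 + ε / 2) * δ ≤ η := by
    have h1 : δ ≤ η / (4 * (1 + ε / 2)) := by
      rw [hδ]
      exact (min_le_right _ _).trans (min_le_right _ _)
    calc 4 * (1 + ε / 2) * δ ≤ 4 * (1 + ε / 2) * (η / (4 * (1 + ε / 2))) :=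
          mul_le_mul_of_nonneg_left h1 (by positivity)
      _ = η := by field_simp
  have hfin : 0 ≤ (η + C0) * ((1 + ε) / (1 + ε / 2)) := by positivity
  refine ⟨δ, (η + C0) * ((1 + ε) / (1 + ε / 2)), hδ00, hfin, ?_⟩
  intro a ρ X t Δ M ha hsum hcop hρ ht hX hX' hΔ hΔM hlM h1 h2 h3 h4
  obtain ⟨i0, hi0⟩ := hX'
  have hX1 : 1 ≤ X := by
    rw [← hi0]
    exact Int.natAbs_pos.2 (ha i0)
  have hXR : (1 : ℝ) ≤ X := by exact_mod_cast hX1
  obtain ⟨H, hH⟩ : ∃ H : ℝ, H = Real.log X := ⟨_, rfl⟩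
  have hH0 : 0 ≤ H := by rw [hH]; exact Real.log_nonneg hXR
  have hρR : (1 : ℝ) ≤ ρ := by exact_mod_cast hρ
  have hlρ : 0 ≤ Real.log ρ := Real.log_nonneg hρR
  rw [← hH] at hlM ⊢
  by_cases hρX : X < ρ
  · have h5 : H ≤ Real.log ρ := by
      rw [hH]
      exact Real.log_le_log (by linarith) (by exact_mod_cast hρX.le)
    nlinarith
  have hρX' : ρ ≤ X := not_lt.1 hρX
  have hΔ1 : (1 : ℝ) ≤ Δ := by exact_mod_cast hΔ
  have hM1 : 1 ≤ M := hΔ1.trans hΔM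
  have hM0 : (0 : ℝ) < M := by linarith
  have hΔQ : (Δ : ℚ) ≠ 0 := by exact_mod_cast hΔ.ne'
  have hf1 : Module.finrank ℚ ℚ = 1 := Module.finrank_self ℚ
  -- the data
  obtain ⟨ω, hω⟩ : ∃ ω : Module.Basis (Fin 1) ℚ ℚ, ω = omK hf1 := ⟨_, rfl⟩
  obtain ⟨α, hα⟩ : ∃ α : Fin 3 → ℚ, α = fun i => (a i : ℚ) := ⟨_, rfl⟩
  obtain ⟨P, hP⟩ : ∃ P : Ix 1 → ℚ, P = R7.params ω (data3 α t (ρ : ℚ)) := ⟨_, rfl⟩
  obtain ⟨P', hP'⟩ : ∃ P' : Ix 1 → ℚ, P' = R7.params (scale ω Δ hΔ)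
    (data3 (fun i => (Δ : ℚ) * ((Δ : ℚ) * α i))
      (fun i j => (Δ : ℚ) * (((Δ ^ (2 * m - 1) : ℕ) : ℚ) * t i j))
      ((Δ : ℚ) * ((Δ : ℚ) * (ρ : ℚ)))) := ⟨_, rfl⟩
  have hPP : ∀ s, P' s = (((Δ ^ ex m 1 s : ℕ) : ℤ) : ℚ) * (Δ * P s) := by
    intro s
    rw [hP', hP]
    exact params_scale ω Δ hΔ m hm α t (ρ : ℚ) s
  have hrep : ∀ (q : ℚ) (i : Fin 1), ω.repr q i = q := by
    intro q i
    rw [hω]
    have := omK_repr hf1 q i
    simpa using this
  have hωa : ∀ i, ω i = 1 := fun i => by rw [hω]; exact omK_apply hf1 i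
  have hPs : ∀ s, (P s = 1 ∨ (∃ i, P s = α i) ∨ (∃ i j, P s = t i j) ∨ P s = ρ) := by
    intro s
    rw [hP]
    rcases s with ⟨i, j, k⟩ | ⟨i | ⟨i, j⟩ | u, k⟩
    · left
      change ω.repr (ω i * ω j) k = 1
      rw [hωa, hωa, hrep, mul_one]
    · right; left
      exact ⟨i, hrep _ _⟩
    · right; right; left
      exact ⟨i, j, hrep _ _⟩
    · right; right; right
      exact hrep _ _
  have hPsh : ∀ s, Sh S l M (Δ * P s) := by
    intro s
    rcases hPs s with h | ⟨i, h⟩ | ⟨i, j, h⟩ | h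
    · rw [h, mul_one]; exact h4
    · rw [h, hα]; exact h1 i
    · rw [h]; exact h2 i j
    · rw [h]; exact h3
  -- the upper bound for the size
  have hE1 : 1 ≤ ρ ^ m * X := Nat.mul_pos (pow_pos hρ m) hX1
  have hsize : R7.size P ≤ ρ ^ m * X := by
    refine size_le_quot P _ fun s => ?_
    have hρm : 1 ≤ ρ ^ m := pow_pos hρ m
    rcases hPs s with h | ⟨i, h⟩ | ⟨i, j, h⟩ | h
    · exact ⟨1, 1, one_ne_zero, by rw [h]; simp, hE1, hE1⟩
    · refine ⟨a i, 1, one_ne_zero, by rw [h, hα]; simp, ?_, hE1⟩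
      exact (hX i).trans (Nat.le_mul_of_pos_left _ hρm)
    · refine ⟨(ρ : ℤ) ^ m * a j, a i, ha i, ?_, ?_, ?_⟩
      · rw [h]
        have h5 : (a i : ℚ) ≠ 0 := by exact_mod_cast ha i
        rw [eq_div_iff h5]
        push_cast
        rw [ht i j]
        ring
      · rw [Int.natAbs_mul, Int.natAbs_pow, Int.natAbs_natCast]
        exact Nat.mul_le_mul_left _ (hX j)
      · exact (hX i).trans (Nat.le_mul_of_pos_left _ hρm)
    · refine ⟨ρ, 1, one_ne_zero, by rw [h]; simp, ?_, hE1⟩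
      rw [Int.natAbs_natCast]
      calc ρ = ρ ^ 1 := (pow_one ρ).symm
        _ ≤ ρ ^ m := Nat.pow_le_pow_right hρ hm
        _ ≤ _ := Nat.le_mul_of_pos_right _ hX1
  have hsize' : R7.size P' ≤ Δ ^ (2 * m - 1) * R7.size P := by
    refine sz_mul_le P P' (fun s => Δ ^ (ex m 1 s + 1)) (Δ ^ (2 * m - 1))
      (fun s => Nat.pow_le_pow_right hΔ ?_) (Nat.one_le_pow _ _ hΔ) (fun s => ?_)
    · have := ex_le m 1 s
      omega
    · rw [hPP s]
      push_cast
      rw [pow_succ]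
      ring
  have hlow : X ≤ R7.size P' := by
    have h5 : P' (Sum.inr (Sum.inl i0, 0)) = ((Δ * a i0 : ℤ) : ℚ) := by
      rw [hPP]
      have h6 : P (Sum.inr (Sum.inl i0, 0)) = α i0 := by
        rw [hP]
        exact hrep _ _
      rw [h6, hα]
      change (((Δ ^ 0 : ℕ) : ℤ) : ℚ) * _ = _
      push_cast
      ring
    have h6 : max (P' (Sum.inr (Sum.inl i0, 0))).num.natAbs (P' (Sum.inr (Sum.inl i0, 0))).den ≤
        R7.size P' := Finset.le_sup (f := fun i => max (P' i).num.natAbs (P' i).den)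
          (Finset.mem_univ _)
    rw [h5, Rat.num_intCast] at h6
    refine le_trans ?_ ((le_max_left _ _).trans h6)
    rw [Int.natAbs_mul, Int.natAbs_natCast, hi0]
    exact Nat.le_mul_of_pos_left _ hΔ
  -- the short sum
  have hMpow : M ^ (2 * m - 1) ≤ Real.exp 1 * (R7.size P' : ℝ) ^ δ0 := by
    have h5 : M ^ (2 * m - 1) = Real.exp (μ * Real.log M) := by
      rw [hμ, Real.exp_nat_mul, Real.exp_log hM0]
    have h6 : (X : ℝ) ^ δ0 ≤ (R7.size P' : ℝ) ^ δ0 :=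
      Real.rpow_le_rpow (by linarith) (by exact_mod_cast hlow) hδ0.le
    have h7 : (X : ℝ) ^ δ0 = Real.exp (δ0 * H) := by
      rw [hH, Real.rpow_def_of_pos (by linarith), mul_comm]
    calc M ^ (2 * m - 1) = Real.exp (μ * Real.log M) := h5
      _ ≤ Real.exp (1 + δ0 * H) := by
          apply Real.exp_le_exp.2
          have h8 := mul_le_mul_of_nonneg_left hlM hμ0.le
          nlinarith
      _ = Real.exp 1 * (X : ℝ) ^ δ0 := by rw [Real.exp_add, h7]
      _ ≤ _ := mul_le_mul_of_nonneg_left h6 (Real.exp_pos _).le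
  have hshort : R7.IsShortSum S (Fintype.card (Ix 1 × Fin l)) (Real.exp 1) δ0 P' := by
    refine short_of_sh S l P' (fun s => Δ * P s) (fun s => ((Δ ^ ex m 1 s : ℕ) : ℤ)) M
      (M ^ (2 * m - 2)) _ _ hM0.le hPsh hPP (fun s => ?_) ?_
    · push_cast
      rw [abs_of_nonneg (by positivity)]
      calc (Δ : ℝ) ^ ex m 1 s ≤ (Δ : ℝ) ^ (2 * m - 2) := pow_le_pow_right₀ hΔ1 (ex_le m 1 s)
        _ ≤ M ^ (2 * m - 2) := pow_le_pow_left₀ (by linarith) hΔM _
    · have h5 : M ^ (2 * m - 2) * M = M ^ (2 * m - 1) := by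
        rw [← pow_succ]
        congr 1
        omega
      rw [h5]
      exact hMpow
  -- the relation
  obtain ⟨a', ha'⟩ : ∃ a' : Fin 3 → ℚ, a' = fun i => (Δ : ℚ) * ((Δ : ℚ) * α i) := ⟨_, rfl⟩
  have hheight : R7.height a' = R7.height α := by
    unfold R7.height
    have h5 : a' = ((Δ : ℚ) * (Δ : ℚ)) • α := by
      rw [ha']
      funext i
      rw [Pi.smul_apply, smul_eq_mul]
      ring
    rw [h5, Height.logHeight_smul_eq_logHeight _ (mul_ne_zero hΔQ hΔQ)]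
  have hHh : H ≤ R7.height α := by
    unfold R7.height
    rw [hf1, Nat.cast_one, div_one, hα]
    have h5 := log_le_height' a hcop i0 (ha i0)
    have h6 : |(a i0 : ℝ)| = X := by
      rw [← hi0, Nat.cast_natAbs, Int.cast_abs]
    rw [h6, ← hH] at h5
    exact h5
  have hα0 : ∀ i, α i ≠ 0 := fun i => by
    rw [hα]
    exact Int.cast_ne_zero.2 (ha i)
  have hρQ : (ρ : ℚ) ≠ 0 := by exact_mod_cast hρ.ne'
  have key := hcore 1 le_rfl ℚ (scale ω Δ hΔ) a'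
    (fun i j => (Δ : ℚ) * (((Δ ^ (2 * m - 1) : ℕ) : ℚ) * t i j)) ((Δ : ℚ) * ((Δ : ℚ) * (ρ : ℚ)))
    (fun i => by
      rw [ha']
      exact mul_ne_zero hΔQ (mul_ne_zero hΔQ (hα0 i)))
    (by
      rw [ha']
      change (Δ : ℚ) * ((Δ : ℚ) * α 0) + (Δ : ℚ) * ((Δ : ℚ) * α 1) +
        (Δ : ℚ) * ((Δ : ℚ) * α 2) = 0
      have h5 : α 0 + α 1 + α 2 = 0 := by
        rw [hα]
        show (a 0 : ℚ) + (a 1 : ℚ) + (a 2 : ℚ) = 0
        exact_mod_cast hsum
      linear_combination (Δ : ℚ) * (Δ : ℚ) * h5)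
    (mul_ne_zero hΔQ (mul_ne_zero hΔQ hρQ))
    (by
      intro i j
      rw [ha']
      change ((Δ : ℚ) * ((Δ : ℚ) * (ρ : ℚ))) ^ m * ((Δ : ℚ) * ((Δ : ℚ) * α j)) =
        (Δ : ℚ) * ((Δ : ℚ) * α i) * ((Δ : ℚ) * (((Δ ^ (2 * m - 1) : ℕ) : ℚ) * t i j))
      have h5 : (((Δ ^ (2 * m - 1) : ℕ) : ℚ)) * Δ = (Δ : ℚ) ^ (2 * m) := by
        push_cast
        rw [← pow_succ]
        congr 1
        omega
      have h6 : ((Δ : ℚ) * ((Δ : ℚ) * (ρ : ℚ))) ^ m = (Δ : ℚ) ^ (2 * m) * (ρ : ℚ) ^ m := by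
        rw [← mul_assoc, mul_pow, ← pow_two, ← pow_mul]
      have h7 : (ρ : ℚ) ^ m * α j = α i * t i j := by
        rw [hα]
        exact ht i j
      rw [h6, ← h5]
      linear_combination (((Δ ^ (2 * m - 1) : ℕ) : ℚ)) * Δ * (Δ * Δ) * h7)
    (by rw [ha', ← hP']; exact hshort)
    (by
      rw [hheight, ha', ← hP']
      have h5 : (R7.size P' : ℝ) ≤ (Δ : ℝ) ^ (2 * m - 1) * ((ρ : ℝ) ^ m * X) := by
        have h6 : R7.size P' ≤ Δ ^ (2 * m - 1) * (ρ ^ m * X) :=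
          hsize'.trans (Nat.mul_le_mul_left _ hsize)
        exact_mod_cast h6
      have hs0 : (1 : ℝ) ≤ R7.size P' := by exact_mod_cast hX1.trans hlow
      have h6 := Real.log_le_log (by linarith) h5
      rw [Real.log_mul (by positivity) (by positivity), Real.log_mul (by positivity)
        (by positivity), Real.log_pow, Real.log_pow, ← hμ, ← hH] at h6
      have h7 : Real.log ρ ≤ H := by
        rw [hH]
        exact Real.log_le_log (by linarith) (by exact_mod_cast hρX')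
      have h8 : Real.log Δ ≤ Real.log M := Real.log_le_log (by linarith) hΔM
      have h9 : μ * Real.log Δ ≤ 1 + H := by
        calc μ * Real.log Δ ≤ μ * (δ * (1 + H)) :=
              mul_le_mul_of_nonneg_left (h8.trans hlM) hμ0.le
          _ = μ * δ * (1 + H) := by ring
          _ ≤ 1 * (1 + H) := mul_le_mul_of_nonneg_right hδ1 (by linarith)
          _ = 1 + H := one_mul _
      have h10 : (m : ℝ) * Real.log ρ ≤ m * H := mul_le_mul_of_nonneg_left h7 (Nat.cast_nonneg _)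
      have h11 : ((m : ℝ) + 2) * (H + 1) ≤ (m + 2) * (R7.height α + 1) :=
        mul_le_mul_of_nonneg_left (by linarith) (by positivity)
      have h12 : (0 : ℝ) ≤ m := Nat.cast_nonneg _
      nlinarith)
  obtain ⟨key1, -⟩ := key
  rw [hheight] at key1
  have k1 : R7.counting S ((Δ : ℚ) * ((Δ : ℚ) * (ρ : ℚ))) ≤ Real.log ρ + 2 * Real.log Δ := by
    have h5 := counting_natMul S Δ hΔ ((Δ : ℚ) * (ρ : ℚ)) (mul_ne_zero hΔQ hρQ)
    have h6 := counting_natMul S Δ hΔ (ρ : ℚ) hρQ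
    have h7 := counting_le (K := ℚ) hf1 S ρ hρ
    linarith
  have k2 : R7.logDiscBasis S (scale ω Δ hΔ) ≤ 2 * Real.log Δ := by
    have h5 := logDiscBasis_scale S hS ω Δ hΔ
    have h6 : R7.logDiscBasis S ω = 0 := by rw [hω]; exact omK_logDisc hf1 S
    linarith
  have hlΔ : Real.log Δ ≤ δ * (1 + H) := (Real.log_le_log (by linarith) hΔM).trans hlM
  have k3 : H ≤ (1 + ε / 2) * Real.log ρ + (1 + ε / 2) * (4 * Real.log Δ) + C0 := by
    have h5 := mul_le_mul_of_nonneg_left (add_le_add k1 k2) (by positivity : 0 ≤ 1 + ε / 2)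
    linarith
  have k4 : (1 + ε / 2) * (4 * Real.log Δ) ≤ η * (1 + H) := by
    calc (1 + ε / 2) * (4 * Real.log Δ) ≤ (1 + ε / 2) * (4 * (δ * (1 + H))) :=
          mul_le_mul_of_nonneg_left (by linarith) (by positivity)
      _ = 4 * (1 + ε / 2) * δ * (1 + H) := by ring
      _ ≤ η * (1 + H) := mul_le_mul_of_nonneg_right hδ3 (by linarith)
  have k5 : (1 - η) * H ≤ (1 + ε / 2) * Real.log ρ + (η + C0) := by linarith
  have k6 : (1 - η) * ((1 + ε) / (1 + ε / 2)) = 1 := by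
    rw [hη]
    field_simp
    ring
  have k7 : 0 ≤ (1 + ε) / (1 + ε / 2) := by positivity
  have k8 := mul_le_mul_of_nonneg_right k5 k7
  have k9 : (1 + ε / 2) * ((1 + ε) / (1 + ε / 2)) = 1 + ε := by field_simp
  calc H = (1 - η) * ((1 + ε) / (1 + ε / 2)) * H := by rw [k6, one_mul]
    _ = (1 - η) * H * ((1 + ε) / (1 + ε / 2)) := by ring
    _ ≤ _ := k8
    _ = (1 + ε / 2) * ((1 + ε) / (1 + ε / 2)) * Real.log ρ +
        (η + C0) * ((1 + ε) / (1 + ε / 2)) := by ring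
    _ = _ := by rw [k9]

end Pool.Agent.H455.AB
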