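import Mathlib
import Pool.Graph.R_seed8.TH419.HX.Near

set_option autoImplicit false

/-!
# Sequences which decay exponentially, and the Newton iteration for them
-/

open Finset Filter Topology

namespace Pool.Agent.H455.VC

open Pool.Agent.TH419.WI Pool.Agent.TH419.HX

/-- `f` is at most `exp (-δ' L)` for all `δ' < δ` -/
def Dec (L : ℕ → ℝ) (δ : ℝ) (f : ℕ → ℝ) : Prop :=
  ∀ δ' : ℝ, δ' < δ → ∀ᶠ t in atTop, |f t| ≤ Real.exp (-(δ' * L t))

theorem dec_zero_iff {L f : ℕ → ℝ} : Dec L 0 f ↔ Sub L f := by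
  constructor
  · intro h ε hε
    filter_upwards [h (-ε) (by linarith)] with t ht
    rwa [neg_mul, neg_neg] at ht
  · intro h δ' hδ'
    filter_upwards [h (-δ') (by linarith)] with t ht
    rwa [neg_mul] at ht

theorem Dec.mul {L f g : ℕ → ℝ} {a b : ℝ} (hf : Dec L a f) (hg : Dec L b g) :
    Dec L (a + b) fun t => f t * g t := by
  intro δ' hδ'
  obtain ⟨e, he⟩ : ∃ e : ℝ, e = (a + b - δ') / 2 := ⟨_, rfl⟩
  have hpos : 0 < e := by rw [he]; linarith
  filter_upwards [hf (a - e) (by linarith), hg (b - e) (by linarith)] with t h1 h2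
  rw [abs_mul]
  calc |f t| * |g t| ≤ Real.exp (-((a - e) * L t)) * Real.exp (-((b - e) * L t)) :=
        mul_le_mul h1 h2 (abs_nonneg _) (Real.exp_pos _).le
    _ = Real.exp (-(δ' * L t)) := by
        rw [← Real.exp_add]
        congr 1
        rw [he]
        ring

theorem Dec.add {L f g : ℕ → ℝ} (hL : Tendsto L atTop atTop) {a : ℝ} (hf : Dec L a f)
    (hg : Dec L a g) : Dec L a fun t => f t + g t := by
  intro δ' hδ'
  obtain ⟨e, he⟩ : ∃ e : ℝ, e = (a - δ') / 2 := ⟨_, rfl⟩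
  have hpos : 0 < e := by rw [he]; linarith
  filter_upwards [hf (a - e) (by linarith), hg (a - e) (by linarith),
    ev_const_le hL 2 e hpos] with t h1 h2 h3
  calc |f t + g t| ≤ |f t| + |g t| := abs_add_le _ _
    _ ≤ 2 * Real.exp (-((a - e) * L t)) := by linarith
    _ ≤ Real.exp (e * L t) * Real.exp (-((a - e) * L t)) :=
        mul_le_mul_of_nonneg_right h3 (Real.exp_pos _).le
    _ = Real.exp (-(δ' * L t)) := by
        rw [← Real.exp_add]
        congr 1
        rw [he]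
        ring

theorem Dec.neg {L f : ℕ → ℝ} {a : ℝ} (hf : Dec L a f) : Dec L a fun t => -f t := by
  intro δ' hδ'
  filter_upwards [hf δ' hδ'] with t ht
  rwa [abs_neg]

theorem Dec.mono_exp {L f : ℕ → ℝ} {a b : ℝ} (hf : Dec L a f) (hab : b ≤ a) : Dec L b f :=
  fun δ' hδ' => hf δ' (lt_of_lt_of_le hδ' hab)

theorem Dec.mono {L f g : ℕ → ℝ} {a : ℝ} (hf : Dec L a f) (h : ∀ᶠ t in atTop, |g t| ≤ |f t|) :
    Dec L a g := by
  intro δ' hδ'
  filter_upwards [hf δ' hδ', h] with t h1 h2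
  exact h2.trans h1

theorem Dec.comp {L f : ℕ → ℝ} {a : ℝ} (hf : Dec L a f) {ψ : ℕ → ℕ}
    (hψ : Tendsto ψ atTop atTop) : Dec (L ∘ ψ) a (f ∘ ψ) :=
  fun δ' hδ' => hψ.eventually (hf δ' hδ')

theorem Dec.tendsto {L f : ℕ → ℝ} (hL : Tendsto L atTop atTop) {a : ℝ} (ha : 0 < a)
    (hf : Dec L a f) : Tendsto f atTop (𝓝 0) := by
  have h1 : Tendsto (fun t => Real.exp (-(a / 2 * L t))) atTop (𝓝 0) := by
    refine Real.tendsto_exp_atBot.comp ?_
    exact tendsto_neg_atTop_atBot.comp (hL.const_mul_atTop (by positivity))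
  rw [tendsto_zero_iff_abs_tendsto_zero]
  refine squeeze_zero' (Eventually.of_forall fun t => abs_nonneg _) (hf (a / 2) (by linarith)) h1

theorem dec_const_eq_zero {L : ℕ → ℝ} (hL : Tendsto L atTop atTop) {a : ℝ} (ha : 0 < a) {c : ℝ}
    (h : Dec L a fun _ => c) : c = 0 :=
  tendsto_nhds_unique tendsto_const_nhds (h.tendsto hL ha)

/-- the ring of subexponential sequences -/
def SR (L : ℕ → ℝ) (hL : Tendsto L atTop atTop) : Subring (ℕ → ℝ) where
  carrier := {f | Dec L 0 f}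
  mul_mem' := by
    intro f g hf hg
    have h := Dec.mul hf hg
    rw [add_zero] at h
    exact h
  one_mem' := dec_zero_iff.2 (Sub.const hL 1)
  add_mem' := fun hf hg => Dec.add hL hf hg
  zero_mem' := dec_zero_iff.2 (Sub.const hL 0)
  neg_mem' := fun hf => Dec.neg hf

/-- the ideal of the sequences which decay with the exponent `δ` -/
def SI (L : ℕ → ℝ) (hL : Tendsto L atTop atTop) (δ : ℝ) : Ideal (SR L hL) where
  carrier := {f | Dec L δ (f : ℕ → ℝ)}
  add_mem' := fun hf hg => Dec.add hL hf hg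
  zero_mem' := by
    intro δ' _
    refine Eventually.of_forall fun t => ?_
    show |((0 : ℕ → ℝ) t)| ≤ _
    rw [Pi.zero_apply, abs_zero]
    exact (Real.exp_pos _).le
  smul_mem' := by
    intro c f hf
    have h := Dec.mul c.2 hf
    rw [zero_add] at h
    exact h

variable {L : ℕ → ℝ} (hL : Tendsto L atTop atTop)

theorem mem_SI {δ : ℝ} {f : SR L hL} : f ∈ SI L hL δ ↔ Dec L δ (f : ℕ → ℝ) := Iff.rfl

/-- constant sequences -/
def cst : ℝ →+* SR L hL where
  toFun c := ⟨fun _ => c, dec_zero_iff.2 (Sub.const hL c)⟩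
  map_one' := rfl
  map_mul' _ _ := rfl
  map_zero' := rfl
  map_add' _ _ := rfl

/-- the value at one place of a sequence -/
def atp (t : ℕ) : SR L hL →+* ℝ := (Pi.evalRingHom (fun _ : ℕ => ℝ) t).comp (SR L hL).subtype

theorem atp_cst (t : ℕ) (c : ℝ) : atp hL t (cst hL c) = c := rfl

theorem atp_apply (t : ℕ) (f : SR L hL) : atp hL t f = (f : ℕ → ℝ) t := rfl

section newton

variable {K : Type} [Field K] (φ : K →+* ℝ) {σ : Type} (z : σ → SR L hL)

/-- the evaluation of polynomials at a family of sequences -/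
noncomputable def evh : MvPolynomial σ K →+* SR L hL :=
  MvPolynomial.eval₂Hom ((cst hL).comp φ) z

theorem atp_evh (t : ℕ) (P : MvPolynomial σ K) :
    atp hL t (evh hL φ z P) = MvPolynomial.eval₂ φ (fun i => (z i : ℕ → ℝ) t) P := by
  rw [evh, MvPolynomial.coe_eval₂Hom, MvPolynomial.eval₂_comp_left]
  rfl

theorem mk_evh {δ : ℝ} (hz : ∀ i, z i ∈ SI L hL δ) :
    (Ideal.Quotient.mk (SI L hL δ)).comp (evh hL φ z) =
      ((Ideal.Quotient.mk (SI L hL δ)).comp ((cst hL).comp φ)).comp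
        MvPolynomial.constantCoeff := by
  apply MvPolynomial.ringHom_ext
  · intro r
    simp [evh]
  · intro i
    simp only [evh, RingHom.comp_apply, MvPolynomial.coe_eval₂Hom, MvPolynomial.eval₂_X,
      MvPolynomial.constantCoeff_X, map_zero]
    exact Ideal.Quotient.eq_zero_iff_mem.2 (hz i)

/-- **The Newton iteration**: polynomial approximations to a zero, of any order. -/
theorem newton {δ : ℝ} (hδ : 0 < δ) (hz : ∀ i, z i ∈ SI L hL δ)
    (Φ : Polynomial (MvPolynomial σ K)) (W : SR L hL) (ω : K)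
    (hΦ : (Φ.map (evh hL φ z)).eval W = 0)
    (hW : W - cst hL (φ ω) ∈ SI L hL δ)
    (hd : ((Φ.map MvPolynomial.constantCoeff).derivative.eval ω) ≠ 0) (n : ℕ) :
    ∃ P : MvPolynomial σ K, Dec L (n * δ) ((W - evh hL φ z P : SR L hL) : ℕ → ℝ) := by
  obtain ⟨mk, hmk⟩ : ∃ mk, mk = Ideal.Quotient.mk (SI L hL δ) := ⟨_, rfl⟩
  have hmk0 : ∀ f : SR L hL, mk f = 0 ↔ f ∈ SI L hL δ := fun f => by
    rw [hmk]; exact Ideal.Quotient.eq_zero_iff_mem
  have hcomp : mk.comp (evh hL φ z) =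
      (mk.comp ((cst hL).comp φ)).comp MvPolynomial.constantCoeff := by
    rw [hmk]; exact mk_evh hL φ z hz
  obtain ⟨c0, hc0⟩ : ∃ c0 : K →+* _, c0 = mk.comp ((cst hL).comp φ) := ⟨_, rfl⟩
  rw [← hc0] at hcomp
  have hWm : mk W = c0 ω := by
    have h1 := (hmk0 _).2 hW
    rw [map_sub, sub_eq_zero] at h1
    rw [h1, hc0]
    rfl
  obtain ⟨D, hD⟩ : ∃ D, D = (Φ.map MvPolynomial.constantCoeff).derivative.eval ω := ⟨_, rfl⟩
  rw [← hD] at hd
  -- values of polynomials modulo the ideal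
  have hval : ∀ (Ψ : Polynomial (MvPolynomial σ K)) (V : SR L hL), mk V = c0 ω →
      mk ((Ψ.map (evh hL φ z)).eval V) = c0 ((Ψ.map MvPolynomial.constantCoeff).eval ω) := by
    intro Ψ V hV
    rw [← Polynomial.eval₂_hom, Polynomial.eval₂_map, hV, hcomp, ← Polynomial.eval₂_map]
    rw [Polynomial.eval₂_hom]
  have hmain : ∀ n : ℕ, ∃ P : MvPolynomial σ K,
      Dec L (n * δ) ((W - evh hL φ z P : SR L hL) : ℕ → ℝ) ∧ mk (evh hL φ z P) = c0 ω := by
    intro n
    induction n with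
    | zero =>
      refine ⟨MvPolynomial.C ω, ?_, ?_⟩
      · rw [Nat.cast_zero, zero_mul]
        exact (W - evh hL φ z (MvPolynomial.C ω) : SR L hL).2
      · rw [evh, MvPolynomial.coe_eval₂Hom, MvPolynomial.eval₂_C, hc0]
        rfl
    | succ n ih =>
      obtain ⟨P, hP, hPm⟩ := ih
      obtain ⟨V, hV⟩ : ∃ V, V = evh hL φ z P := ⟨_, rfl⟩
      rw [← hV] at hP hPm
      obtain ⟨Ψ, hΨ⟩ : ∃ Ψ, Ψ = Φ.map (evh hL φ z) := ⟨_, rfl⟩
      have hevP : evh hL φ z (Φ.eval P) = Ψ.eval V := by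
        rw [hΨ, hV, Polynomial.eval_map, ← Polynomial.eval₂_hom]
      obtain ⟨k, hk⟩ := Polynomial.binomExpansion Ψ V (W - V)
      rw [add_sub_cancel, hΨ, hΦ, ← hΨ] at hk
      -- the new approximation
      obtain ⟨f, hf⟩ : ∃ f : SR L hL, f = 1 - cst hL (φ D⁻¹) * Ψ.derivative.eval V -
        cst hL (φ D⁻¹) * k * (W - V) := ⟨_, rfl⟩
      have hVal : W - evh hL φ z (P - MvPolynomial.C D⁻¹ * Φ.eval P) = (W - V) * f := by
        have h1 : evh hL φ z (MvPolynomial.C D⁻¹) = cst hL (φ D⁻¹) := by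
          rw [evh, MvPolynomial.coe_eval₂Hom, MvPolynomial.eval₂_C]
          rfl
        rw [map_sub, map_mul, h1, hevP, ← hV, hf]
        have h2 : Ψ.eval V = -(Ψ.derivative.eval V * (W - V) + k * (W - V) ^ 2) := by
          rw [eq_neg_iff_add_eq_zero, hk]
          ring
        rw [h2]
        ring
      have hWV : mk (W - V) = 0 := by rw [map_sub, hWm, hPm, sub_self]
      have hfm : mk f = 0 := by
        have h1 : mk (Ψ.derivative.eval V) = c0 D := by
          rw [hΨ, Polynomial.derivative_map, hval _ V hPm, ← Polynomial.derivative_map, hD]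
        have h2 : mk (cst hL (φ D⁻¹)) = c0 D⁻¹ := by rw [hc0]; rfl
        rw [hf, map_sub, map_sub, map_one, map_mul, map_mul, hWV, h1, h2, ← map_mul,
          inv_mul_cancel₀ hd, map_one]
        ring
      refine ⟨P - MvPolynomial.C D⁻¹ * Φ.eval P, ?_, ?_⟩
      · rw [hVal]
        have h1 := Dec.mul hP ((hmk0 f).1 hfm)
        have h2 : ((n + 1 : ℕ) : ℝ) * δ = n * δ + δ := by push_cast; ring
        rw [h2]
        exact h1
      · have h1 : evh hL φ z (P - MvPolynomial.C D⁻¹ * Φ.eval P) = W - (W - V) * f := by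
          rw [← hVal]; ring
        rw [h1, map_sub, map_mul, hWV, zero_mul, sub_zero, hWm]
  obtain ⟨P, hP, -⟩ := hmain n
  exact ⟨P, hP⟩

end newton

end Pool.Agent.H455.VC
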