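import Mathlib
import Pool.Agent.H455.VC1
import Pool.Graph.R_pool_sql_team_seeded_3997aac3.Results.MP_821da1_nt.LaurentDichotomy

set_option autoImplicit false

/-!
# Integers close to polynomials in quotients of almost units
-/

open Finset Filter Topology

namespace Pool.Agent.H455.VC

open Pool.Agent.TH419.WI Pool.Agent.TH419.HX
open Pool.Agent.Results.MP_821da1_nt.LaurentDichotomy (UnitOf)

theorem unitOf_smooth {S : Finset ℕ} {r : ℕ} (hr : Smooth S r) : UnitOf S (r : ℚ) := by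
  refine ⟨fun p => (r.factorization p : ℤ), ?_⟩
  have h1 := smooth_eq_prod hr
  rw [abs_of_nonneg (Nat.cast_nonneg r)]
  conv_lhs => rw [h1]
  push_cast
  refine Finset.prod_congr rfl fun p _ => ?_
  rw [zpow_natCast]

theorem unitOf_div {S : Finset ℕ} (hS : ∀ p ∈ S, p ≠ 0) {a b : ℚ} (ha : UnitOf S a)
    (hb : UnitOf S b) : UnitOf S (a / b) := by
  obtain ⟨e, he⟩ := ha
  obtain ⟨f, hf⟩ := hb
  refine ⟨fun p => e p - f p, ?_⟩
  rw [abs_div, he, hf, ← Finset.prod_div_distrib]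
  refine Finset.prod_congr rfl fun p hp => ?_
  rw [zpow_sub₀ (Nat.cast_ne_zero.2 (hS p hp))]

section
variable {K : Type} [Field K] (φ : K →+* ℝ) {σ : Type} [Fintype σ]

/-- the expansion of the values of a polynomial at quotients -/
theorem expand (P : MvPolynomial σ K) (ξ : σ → ℝ) (ξ0 lam0 r0 mu w : ℝ) (lam r : σ → ℝ)
    (hmu : mu ≠ 0) (hw : w ≠ 0) :
    ∑ ν : P.support, (ξ0 * φ (P.coeff ν) * ∏ i, ξ i ^ (ν : σ →₀ ℕ) i) *
      ((r0 * (∏ i, r i ^ (ν : σ →₀ ℕ) i) * w ^ (P.totalDegree - (ν : σ →₀ ℕ).degree)) *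
        (lam0 * (∏ i, lam i ^ (ν : σ →₀ ℕ) i) * mu ^ (P.totalDegree - (ν : σ →₀ ℕ).degree))) =
    (mu * w) ^ P.totalDegree * (ξ0 * lam0 * r0 *
      MvPolynomial.eval₂ φ (fun i => ξ i * (lam i * r i / (mu * w))) P) := by
  rw [MvPolynomial.eval₂_eq', Finset.mul_sum, Finset.mul_sum, ← Finset.sum_coe_sort P.support]
  refine Finset.sum_congr rfl fun ν _ => ?_
  have hdeg : (ν : σ →₀ ℕ).degree ≤ P.totalDegree := MvPolynomial.le_totalDegree ν.2
  have h1 : ∏ i, (ξ i * (lam i * r i / (mu * w))) ^ (ν : σ →₀ ℕ) i =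
      (∏ i, ξ i ^ (ν : σ →₀ ℕ) i) * (∏ i, lam i ^ (ν : σ →₀ ℕ) i) * (∏ i, r i ^ (ν : σ →₀ ℕ) i) /
        (mu * w) ^ (ν : σ →₀ ℕ).degree := by
    have h2 : (ν : σ →₀ ℕ).degree = ∑ i, (ν : σ →₀ ℕ) i := by
      rw [Finsupp.degree_apply]
      exact Finset.sum_subset (Finset.subset_univ _) fun i _ h => Finsupp.notMem_support_iff.1 h
    rw [h2, ← Finset.prod_pow_eq_pow_sum, ← Finset.prod_mul_distrib, ← Finset.prod_mul_distrib,
      ← Finset.prod_div_distrib]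
    refine Finset.prod_congr rfl fun i _ => ?_
    rw [mul_pow, div_pow, mul_pow]
    ring
  rw [h1]
  have h3 : (mu * w) ^ P.totalDegree = (mu * w) ^ (P.totalDegree - (ν : σ →₀ ℕ).degree) *
      (mu * w) ^ (ν : σ →₀ ℕ).degree := by
    rw [← pow_add]; congr 1; omega
  have h4 : (mu * w) ^ (ν : σ →₀ ℕ).degree ≠ 0 := pow_ne_zero _ (mul_ne_zero hmu hw)
  rw [h3, mul_pow mu w (P.totalDegree - (ν : σ →₀ ℕ).degree)]
  field_simp

/-- **Integers close to polynomials in quotients of almost units** are, up to small multiples,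
sums of almost units, infinitely often. -/
theorem polyUnits (halg : ∀ x : K, IsAlgebraic ℚ (φ x)) (S : Finset ℕ) (hS : ∀ p ∈ S, p.Prime)
    (C δ : ℝ) (hC : 0 ≤ C) (hδ : 0 < δ) (L : ℕ → ℝ) (hL : Tendsto L atTop atTop)
    (P : MvPolynomial σ K) (ξ : σ → ℝ) (hξ : ∀ i, IsAlgebraic ℚ (ξ i)) (ξ0 : ℝ)
    (hξ0 : IsAlgebraic ℚ ξ0) (lam : ℕ → σ → ℤ) (mu lam0 : ℕ → ℤ) (r : ℕ → σ → ℕ) (w r0 : ℕ → ℕ)
    (Y : ℕ → ℤ) (hmu : ∀ t, mu t ≠ 0) (hmuS : Sub L fun t => (mu t : ℝ))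
    (hlam : ∀ i, Sub L fun t => (lam t i : ℝ)) (hlam0 : Sub L fun t => (lam0 t : ℝ))
    (hr : ∀ t i, Smooth S (r t i)) (hw : ∀ t, Smooth S (w t)) (hr0 : ∀ t, Smooth S (r0 t))
    (hrC : ∀ᶠ t in atTop, ∀ i, (r t i : ℝ) ≤ Real.exp (C * L t))
    (hwC : ∀ᶠ t in atTop, (w t : ℝ) ≤ Real.exp (C * L t))
    (hr0C : ∀ᶠ t in atTop, (r0 t : ℝ) ≤ Real.exp (C * L t))
    (hY : ∀ᶠ t in atTop, |(ξ0 * lam0 t * r0 t *
      MvPolynomial.eval₂ φ (fun i => ξ i * (lam t i * r t i / (mu t * w t))) P) - Y t| ≤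
        Real.exp (-(δ * L t))) :
    ∃ N : ℕ, ∀ ε : ℝ, 0 < ε → ∃ᶠ t in atTop, ∃ (E : ℤ) (v : Fin N → ℚ) (c : Fin N → ℤ),
      E ≠ 0 ∧ |(E : ℝ)| ≤ Real.exp (ε * L t) ∧ (∀ j, UnitOf S (v j)) ∧
      (∀ j, |(c j : ℝ)| ≤ Real.exp (ε * L t)) ∧ (E : ℚ) * Y t = ∑ j, (c j : ℚ) * v j := by
  classical
  obtain ⟨T, hT⟩ : ∃ T, T = P.totalDegree := ⟨_, rfl⟩
  have hL0 : ∀ᶠ t in atTop, 0 ≤ L t := hL.eventually_ge_atTop 0
  let R : ℕ → P.support → ℕ := fun t ν =>
    r0 t * (∏ i, r t i ^ (ν : σ →₀ ℕ) i) * w t ^ (T - (ν : σ →₀ ℕ).degree)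
  let Lm : ℕ → P.support → ℤ := fun t ν =>
    lam0 t * (∏ i, lam t i ^ (ν : σ →₀ ℕ) i) * mu t ^ (T - (ν : σ →₀ ℕ).degree)
  have hw1 : ∀ t, (1 : ℝ) ≤ w t := fun t => by
    have : 1 ≤ w t := Nat.one_le_iff_ne_zero.2 (hw t).1
    exact_mod_cast this
  have hLmS : ∀ ν, Sub L fun t => (Lm t ν : ℝ) := by
    intro ν
    have h3 : Sub L fun t => ((lam0 t : ℝ) * ∏ i, (lam t i : ℝ) ^ (ν : σ →₀ ℕ) i) *
        (mu t : ℝ) ^ (T - (ν : σ →₀ ℕ).degree) :=
      (hlam0.mul (Sub.prod hL Finset.univ fun i _ => (hlam i).pow hL _)).mul (hmuS.pow hL _)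
    intro ε hε
    filter_upwards [h3 ε hε] with t ht
    simp only [Lm]
    push_cast
    exact ht
  have hLmS' : ∀ ε : ℝ, 0 < ε → ∀ᶠ t in atTop, ∀ ν, |(Lm t ν : ℝ)| ≤ Real.exp (ε * L t) :=
    fun ε hε => Filter.eventually_all.2 fun ν => hLmS ν ε hε
  have hRsm : ∀ t ν, Smooth S (R t ν) := fun t ν =>
    smooth_mul (smooth_mul (hr0 t) (smooth_prod _ fun i _ => smooth_pow (hr t i) _))
      (smooth_pow (hw t) _)
  have hRC : ∀ᶠ t in atTop, ∀ ν, (R t ν : ℝ) ≤ Real.exp ((T + 1) * C * L t) := by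
    filter_upwards [hrC, hwC, hr0C] with t h1 h2 h3 ν
    have hdeg : (ν : σ →₀ ℕ).degree ≤ T := by
      rw [hT]; exact MvPolynomial.le_totalDegree ν.2
    have hsum : (ν : σ →₀ ℕ).degree = ∑ i, (ν : σ →₀ ℕ) i := by
      rw [Finsupp.degree_apply]
      exact Finset.sum_subset (Finset.subset_univ _) fun i _ h => Finsupp.notMem_support_iff.1 h
    have he : 0 ≤ Real.exp (C * L t) := (Real.exp_pos _).le
    calc (R t ν : ℝ) = (r0 t : ℝ) * (∏ i, (r t i : ℝ) ^ (ν : σ →₀ ℕ) i) *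
          (w t : ℝ) ^ (T - (ν : σ →₀ ℕ).degree) := by
          simp only [R]; push_cast; rfl
      _ ≤ Real.exp (C * L t) * (∏ i, Real.exp (C * L t) ^ (ν : σ →₀ ℕ) i) *
          Real.exp (C * L t) ^ (T - (ν : σ →₀ ℕ).degree) := by
          have h4 : ∏ i, (r t i : ℝ) ^ (ν : σ →₀ ℕ) i ≤
              ∏ i, Real.exp (C * L t) ^ (ν : σ →₀ ℕ) i :=
            Finset.prod_le_prod (fun i _ => by positivity) fun i _ =>
              pow_le_pow_left₀ (by positivity) (h1 i) _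
          have h5 : (w t : ℝ) ^ (T - (ν : σ →₀ ℕ).degree) ≤
              Real.exp (C * L t) ^ (T - (ν : σ →₀ ℕ).degree) :=
            pow_le_pow_left₀ (by positivity) h2 _
          exact mul_le_mul (mul_le_mul h3 h4 (by positivity) he) h5 (by positivity)
            (by positivity)
      _ = Real.exp ((T + 1) * C * L t) := by
          rw [Finset.prod_pow_eq_pow_sum, ← hsum, mul_assoc, ← pow_add,
            show (ν : σ →₀ ℕ).degree + (T - (ν : σ →₀ ℕ).degree) = T by omega, ← pow_succ',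
            ← Real.exp_nat_mul]
          congr 1
          push_cast
          ring
  obtain ⟨D, b, hD, hfr⟩ := seqLem (ι := P.support)
    (fun ν => ξ0 * φ (P.coeff ν) * ∏ i, ξ i ^ (ν : σ →₀ ℕ) i)
    (fun ν => (hξ0.mul (halg _)).mul (by
      refine Finset.prod_induction _ (fun x : ℝ => IsAlgebraic ℚ x) (fun a b ha hb => ha.mul hb)
        isAlgebraic_one fun i _ => (hξ i).pow _)) S hS
    ((T + 1) * C) (δ / 2) (by positivity) (by positivity) L hL
    (fun t => w t ^ T) R Lm (fun t => mu t ^ T * Y t) (fun t => smooth_pow (hw t) _) hRsm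
    (by
      filter_upwards [hwC, hL0] with t h1 h2
      push_cast
      calc (w t : ℝ) ^ T ≤ Real.exp (C * L t) ^ T := pow_le_pow_left₀ (by positivity) h1 _
        _ = Real.exp (T * C * L t) := by rw [← Real.exp_nat_mul]; congr 1; ring
        _ ≤ Real.exp ((T + 1) * C * L t) := by
            apply Real.exp_le_exp.2
            have h5 : 0 ≤ C * L t := mul_nonneg hC h2
            nlinarith)
    hRC hLmS'
    (by
      filter_upwards [hY, (hmuS.pow hL T) (δ / 2) (by positivity)] with t h1 h2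
      have hmu' : (mu t : ℝ) ≠ 0 := by exact_mod_cast hmu t
      have hw' : (w t : ℝ) ≠ 0 := by have := hw1 t; positivity
      have hexp := expand φ P ξ ξ0 (lam0 t) (r0 t) (mu t) (w t) (fun i => (lam t i : ℝ))
        (fun i => (r t i : ℝ)) hmu' hw'
      have h3 : ∑ ν : P.support, (ξ0 * φ (P.coeff ν) * ∏ i, ξ i ^ (ν : σ →₀ ℕ) i) *
          ((R t ν : ℝ) * Lm t ν) = (mu t * w t) ^ T * (ξ0 * lam0 t * r0 t *
            MvPolynomial.eval₂ φ (fun i => ξ i * (lam t i * r t i / (mu t * w t))) P) := by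
        rw [hT, ← hexp]
        refine Finset.sum_congr rfl fun ν _ => ?_
        simp only [R, Lm, hT]
        push_cast
        rfl
      rw [h3]
      have h4 : (mu t * w t : ℝ) ^ T * (ξ0 * lam0 t * r0 t *
            MvPolynomial.eval₂ φ (fun i => ξ i * (lam t i * r t i / (mu t * w t))) P) -
          ((w t ^ T : ℕ) : ℝ) * ((mu t ^ T * Y t : ℤ) : ℝ) =
          (w t : ℝ) ^ T * ((mu t : ℝ) ^ T * ((ξ0 * lam0 t * r0 t *
            MvPolynomial.eval₂ φ (fun i => ξ i * (lam t i * r t i / (mu t * w t))) P) - Y t)) := by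
        push_cast
        rw [mul_pow]
        ring
      rw [h4, abs_mul, abs_mul]
      push_cast
      rw [abs_of_nonneg (by positivity : (0 : ℝ) ≤ (w t : ℝ) ^ T)]
      refine mul_le_mul_of_nonneg_left ?_ (by positivity)
      calc |(mu t : ℝ) ^ T| * |(ξ0 * lam0 t * r0 t *
            MvPolynomial.eval₂ φ (fun i => ξ i * (lam t i * r t i / (mu t * w t))) P) - Y t|
          ≤ Real.exp (δ / 2 * L t) * Real.exp (-(δ * L t)) :=
            mul_le_mul h2 h1 (abs_nonneg _) (Real.exp_pos _).le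
        _ = Real.exp (-(δ / 2 * L t)) := by
            rw [← Real.exp_add]; congr 1; ring)
  refine ⟨Fintype.card P.support, fun ε hε => ?_⟩
  have hES : Sub L fun t => (D : ℝ) * (mu t : ℝ) ^ T := (Sub.const hL (D : ℝ)).mul (hmuS.pow hL T)
  have hcS : ∀ᶠ t in atTop, ∀ ν : P.support, |(b ν : ℝ) * (Lm t ν : ℝ)| ≤ Real.exp (ε * L t) :=
    Filter.eventually_all.2 fun ν => ((Sub.const hL (b ν : ℝ)).mul (hLmS ν)) ε hε
  refine (hfr.and_eventually (hcS.and (hES ε hε))).mono ?_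
  rintro t ⟨hrel, hc, hE⟩
  let f : Fin (Fintype.card P.support) ≃ P.support := (Fintype.equivFin P.support).symm
  have hwne : ((w t ^ T : ℕ) : ℚ) ≠ 0 := by exact_mod_cast (smooth_pow (hw t) T).1
  refine ⟨D * mu t ^ T, fun j => (R t (f j) : ℚ) / ((w t ^ T : ℕ) : ℚ),
    fun j => b (f j) * Lm t (f j), mul_ne_zero hD (pow_ne_zero _ (hmu t)), ?_, ?_, ?_, ?_⟩
  · push_cast
    exact hE
  · intro j
    exact unitOf_div (fun p hp => (hS p hp).ne_zero) (unitOf_smooth (hRsm t _))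
      (unitOf_smooth (smooth_pow (hw t) T))
  · intro j
    push_cast
    exact hc (f j)
  · have h3 : ∑ j, ((b (f j) * Lm t (f j) : ℤ) : ℚ) * ((R t (f j) : ℚ) / ((w t ^ T : ℕ) : ℚ)) =
        (∑ ν : P.support, (b ν : ℚ) * ((R t ν : ℚ) * Lm t ν)) / ((w t ^ T : ℕ) : ℚ) := by
      rw [Finset.sum_div, ← Equiv.sum_comp f]
      refine Finset.sum_congr rfl fun j _ => ?_
      push_cast
      ring
    rw [h3, eq_div_iff hwne]
    have h4 : ((D * (((w t ^ T : ℕ) : ℤ) * (mu t ^ T * Y t)) : ℤ) : ℚ) =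
        ((∑ ν : P.support, b ν * ((R t ν : ℤ) * Lm t ν) : ℤ) : ℚ) := by rw [hrel]
    push_cast at h4 ⊢
    rw [← h4]
    ring

end

end Pool.Agent.H455.VC
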