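import Mathlib
import Pool.Agent.H455.VC2
import Pool.Graph.R_seed8.TH419.HX.Setup

set_option autoImplicit false

/-!
# Integral points with one sparse coordinate: the data, and their sizes
-/

open Finset Filter Topology

namespace Pool.Agent.H455.VC

open Pool.Agent.TH419.WI Pool.Agent.TH419.HX
open Pool.Agent.Results.MP_821da1_nt.LaurentDichotomy (UnitOf NoLaurentCurve Qbar)

/-! ### integral roots of integral polynomials -/

theorem int_root_dvd (y : ℤ) (hy : y ≠ 0) : ∀ (n : ℕ) (p : Polynomial ℤ), p.natDegree ≤ n →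
    p ≠ 0 → p.eval y = 0 → ∃ j, p.coeff j ≠ 0 ∧ y ∣ p.coeff j := by
  intro n
  induction n with
  | zero =>
    intro p hp hp0 hroot
    rw [Polynomial.eq_C_of_natDegree_le_zero hp] at hroot hp0 ⊢
    rw [Polynomial.eval_C] at hroot
    rw [hroot, Polynomial.C_0] at hp0
    exact absurd rfl hp0
  | succ n ih =>
    intro p hp hp0 hroot
    have hdiv := Polynomial.divX_mul_X_add p
    have hev : p.divX.eval y * y + p.coeff 0 = 0 := by
      have h1 := congrArg (Polynomial.eval y) hdiv
      rw [hroot] at h1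
      simpa using h1
    by_cases h0 : p.coeff 0 = 0
    · rw [h0, add_zero] at hev
      have h1 : p.divX.eval y = 0 := (mul_eq_zero.1 hev).resolve_right hy
      have h2 : p.divX ≠ 0 := by
        intro h3
        rw [h3, h0, zero_mul, Polynomial.C_0, zero_add] at hdiv
        exact hp0 hdiv.symm
      have h3 : p.divX.natDegree ≤ n := by
        rw [Polynomial.natDegree_divX_eq_natDegree_tsub_one]
        omega
      obtain ⟨j, hj1, hj2⟩ := ih p.divX h3 h2 h1
      rw [Polynomial.coeff_divX] at hj1 hj2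
      exact ⟨j + 1, hj1, hj2⟩
    · exact ⟨0, h0, ⟨-p.divX.eval y, by linarith⟩⟩

/-- the number of the monomials of degree at most `d` -/
noncomputable def nmon (d : ℕ) : ℕ := (Finsupp.finite_of_degree_le (σ := Fin 2) d).toFinset.card

theorem card_support_le {F : MvPolynomial (Fin 2) ℤ} {d : ℕ} (hF : F.totalDegree ≤ d) :
    F.support.card ≤ nmon d := by
  refine Finset.card_le_card fun m hm => ?_
  rw [Set.Finite.mem_toFinset]
  exact (MvPolynomial.le_totalDegree hm).trans hF

theorem prod_two (i j : Fin 2) (hij : i ≠ j) {A : Type} [CommMonoid A] (f : Fin 2 → A) :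
    ∏ k, f k = f i * f j := by
  rw [Fin.prod_univ_two]
  fin_cases i <;> fin_cases j <;> first | exact absurd rfl hij | rfl | exact mul_comm _ _

theorem exp_le_totalDegree {F : MvPolynomial (Fin 2) ℤ} {d : ℕ} (hF : F.totalDegree ≤ d)
    {m : Fin 2 →₀ ℕ} (hm : m ∈ F.support) (i : Fin 2) : m i ≤ d :=
  (Finsupp.le_degree i m).trans ((MvPolynomial.le_totalDegree hm).trans hF)

/-- one coordinate is bounded in terms of the other one -/
theorem coord_bound {d : ℕ} (F : MvPolynomial (Fin 2) ℤ) (hF : F.totalDegree ≤ d) (M : ℝ)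
    (hM : 1 ≤ M) (hcoef : ∀ m, |((F.coeff m : ℤ) : ℝ)| ≤ M)
    (hno : NoLaurentCurve (MvPolynomial.map (algebraMap ℤ Qbar) F)) (P : Fin 2 → ℤ)
    (hP : MvPolynomial.eval P F = 0) (i j : Fin 2) (hij : i ≠ j) :
    |(P i : ℝ)| ≤ nmon d * M * max |(P j : ℝ)| 1 ^ d := by
  classical
  have hn1 : (1 : ℝ) ≤ nmon d := by
    have : 0 < nmon d := Finset.card_pos.2 ⟨0, by
      rw [Set.Finite.mem_toFinset]
      show (0 : Fin 2 →₀ ℕ).degree ≤ d
      simp⟩
    exact_mod_cast this
  have hmax1 : (1 : ℝ) ≤ max |(P j : ℝ)| 1 := le_max_right _ _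
  have hR1 : (1 : ℝ) ≤ nmon d * M * max |(P j : ℝ)| 1 ^ d :=
    one_le_mul_of_one_le_of_one_le (one_le_mul_of_one_le_of_one_le hn1 hM) (one_le_pow₀ hmax1)
  by_cases h0 : P i = 0
  · rw [h0]
    simp only [Int.cast_zero, abs_zero]
    linarith
  obtain ⟨p, hp⟩ : ∃ p : Polynomial ℤ, p = ∑ m ∈ F.support,
      Polynomial.C (F.coeff m * P j ^ m j) * Polynomial.X ^ m i := ⟨_, rfl⟩
  have hpe : p.eval (P i) = 0 := by
    rw [← hP, MvPolynomial.eval_eq', hp, Polynomial.eval_finsetSum]
    refine Finset.sum_congr rfl fun m _ => ?_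
    rw [prod_two i j hij, Polynomial.eval_mul, Polynomial.eval_C, Polynomial.eval_pow,
      Polynomial.eval_X]
    ring
  have hp0 : p ≠ 0 := by
    intro h
    have h1 := hno 1 (fun k a => if a = i then (if k = 1 then 1 else 0) else
      (if k = 0 then ((P j : ℤ) : Qbar) else 0)) ?_ 2 two_ne_zero i
    · simp [Finset.sum_ite_eq] at h1
    · intro t ht
      have h2 : ∀ a : Fin 2, ∑ k ∈ Finset.Icc (-((1 : ℕ) : ℤ)) ((1 : ℕ) : ℤ),
          t ^ k * (if a = i then (if k = 1 then (1 : Qbar) else 0) else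
          (if k = 0 then ((P j : ℤ) : Qbar) else 0)) =
          if a = i then t else ((P j : ℤ) : Qbar) := by
        intro a
        by_cases ha : a = i
        · simp only [if_pos ha, mul_ite, mul_one, mul_zero]
          rw [Finset.sum_ite_eq']
          simp
        · simp only [if_neg ha, mul_ite, mul_zero]
          rw [Finset.sum_ite_eq']
          simp
      simp only [h2]
      rw [MvPolynomial.aeval_map_algebraMap, MvPolynomial.aeval_def, MvPolynomial.eval₂_eq']
      have h3 := congrArg (Polynomial.eval₂ (algebraMap ℤ Qbar) t) h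
      rw [Polynomial.eval₂_zero, hp, Polynomial.eval₂_finsetSum] at h3
      rw [← h3]
      refine Finset.sum_congr rfl fun m _ => ?_
      rw [prod_two i j hij, Polynomial.eval₂_mul, Polynomial.eval₂_C, Polynomial.eval₂_pow,
        Polynomial.eval₂_X, if_pos rfl, if_neg (Ne.symm hij), map_mul, map_pow, eq_intCast,
        eq_intCast]
      ring
  obtain ⟨k, hk1, hk2⟩ := int_root_dvd (P i) h0 p.natDegree p le_rfl hp0 hpe
  have hk3 : |(P i : ℝ)| ≤ |(p.coeff k : ℝ)| := by
    have h4 := Int.le_of_dvd (abs_pos.2 hk1) ((dvd_abs _ _).2 hk2)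
    have h5 : |P i| ≤ |p.coeff k| := by
      rcases abs_choice (P i) with h | h
      · rw [h]; exact h4
      · rw [h]
        exact Int.le_of_dvd (abs_pos.2 hk1) ((dvd_abs _ _).2 ((neg_dvd).2 hk2))
    exact_mod_cast h5
  refine hk3.trans ?_
  rw [hp, Polynomial.finsetSum_coeff]
  push_cast
  have hM0 : 0 ≤ M := by linarith
  calc |∑ m ∈ F.support, ((Polynomial.C (F.coeff m * P j ^ m j) * Polynomial.X ^ m i :
        Polynomial ℤ).coeff k : ℝ)|
      ≤ ∑ m ∈ F.support, |((Polynomial.C (F.coeff m * P j ^ m j) * Polynomial.X ^ m i :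
        Polynomial ℤ).coeff k : ℝ)| := Finset.abs_sum_le_sum_abs _ _
    _ ≤ ∑ m ∈ F.support, M * max |(P j : ℝ)| 1 ^ d := by
        refine Finset.sum_le_sum fun m hm => ?_
        rw [Polynomial.coeff_C_mul, Polynomial.coeff_X_pow]
        split_ifs with h
        · rw [mul_one]
          push_cast
          rw [abs_mul, abs_pow]
          refine mul_le_mul (hcoef m) ?_ (by positivity) hM0
          calc |(P j : ℝ)| ^ m j ≤ max |(P j : ℝ)| 1 ^ m j :=
                pow_le_pow_left₀ (abs_nonneg _) (le_max_left _ _) _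
            _ ≤ max |(P j : ℝ)| 1 ^ d := pow_le_pow_right₀ hmax1 (exp_le_totalDegree hF hm j)
        · rw [mul_zero, Int.cast_zero, abs_zero]
          positivity
    _ = F.support.card * (M * max |(P j : ℝ)| 1 ^ d) := by
        rw [Finset.sum_const, nsmul_eq_mul]
    _ ≤ nmon d * (M * max |(P j : ℝ)| 1 ^ d) := by
        refine mul_le_mul_of_nonneg_right ?_ (by positivity)
        exact_mod_cast card_support_le hF
    _ = nmon d * M * max |(P j : ℝ)| 1 ^ d := by ring

end Pool.Agent.H455.VC
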