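import Mathlib
import Pool.Agent.H455.VC3

set_option autoImplicit false

/-!
# Integral points with one sparse coordinate: the sizes
-/

open Finset Filter Topology

namespace Pool.Agent.H455.VC

open Pool.Agent.TH419.WI Pool.Agent.TH419.HX
open Pool.Agent.Results.MP_821da1_nt.LaurentDichotomy (UnitOf NoLaurentCurve Qbar)

/-- the weight of a monomial -/
def wt (p q : ℕ) (m : Fin 2 →₀ ℕ) : ℕ := p * m 0 + q * m 1

/-- the highest weight of a monomial of `F` -/
def topw (p q : ℕ) (F : MvPolynomial (Fin 2) ℤ) : ℕ := F.support.sup (wt p q)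

/-- the value at `(ρ, τ T)` of the part of `F` of highest weight -/
noncomputable def edgePoly (p q : ℕ) (F : MvPolynomial (Fin 2) ℤ) (ρ τ : ℚ) : Polynomial ℚ :=
  ∑ m ∈ F.support with wt p q m = topw p q F,
    Polynomial.C (((F.coeff m : ℤ) : ℚ) * ρ ^ m 0 * τ ^ m 1) * Polynomial.X ^ m 1

/-- the condition on the parts of highest weight -/
def Tame (F : MvPolynomial (Fin 2) ℤ) (H : ℕ) (M : ℝ) (ρ : ℚ) : Prop :=
  ∀ p q : ℕ, 1 ≤ p → 1 ≤ q → ∃ (g h : ℤ) (c : ℚ) (l : ℕ) (E : Polynomial ℤ),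
    g ≠ 0 ∧ h ≠ 0 ∧ c ≠ 0 ∧ |(g : ℝ)| ≤ M ∧ |(h : ℝ)| ≤ M ∧
    Squarefree (E.map (Int.castRingHom ℚ)) ∧ (∀ i, |E.coeff i| ≤ H) ∧
    edgePoly p q F ρ (h / g) = Polynomial.C c * Polynomial.X ^ l * E.map (Int.castRingHom ℚ)

/-- a point with sparse abscissa on a plane curve -/
structure Datum (d r H : ℕ) (S : Finset ℕ) (η : ℝ) where
  F : MvPolynomial (Fin 2) ℤ
  M : ℝ
  a : Fin (r + 1) → ℤ
  b : ℤ
  u : Fin (r + 1) → ℕ
  x : ℤ
  y : ℤ
  hF : F.totalDegree ≤ d
  hno : NoLaurentCurve (MvPolynomial.map (algebraMap ℤ Qbar) F)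
  hM : 1 ≤ M
  hcoef : ∀ m, |((F.coeff m : ℤ) : ℝ)| ≤ M
  hu : ∀ i, Smooth S (u i)
  hdom : ∀ i, i ≠ 0 → (u i : ℝ) ≤ (u 0 : ℝ) ^ (1 - η)
  ha : ∀ i, |(a i : ℝ)| ≤ M
  ha0 : a 0 ≠ 0
  hb : |(b : ℝ)| ≤ M
  hb0 : b ≠ 0
  hx : b * x = ∑ i, a i * (u i : ℤ)
  hxy : MvPolynomial.eval ![x, y] F = 0
  tame : Tame F H M (a 0 / b)

variable {d r H : ℕ} {S : Finset ℕ} {η : ℝ}

/-- the size compared with the data -/
noncomputable def Datum.ratio (D : Datum d r H S η) : ℝ :=
  Real.log (max |(D.x : ℝ)| |(D.y : ℝ)|) / (1 + Real.log D.M)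

theorem y_le (D : Datum d r H S η) :
    |(D.y : ℝ)| ≤ nmon d * D.M * max |(D.x : ℝ)| 1 ^ d :=
  coord_bound D.F D.hF D.M D.hM D.hcoef D.hno ![D.x, D.y] D.hxy 1 0 (by decide)

theorem x_le (D : Datum d r H S η) :
    |(D.x : ℝ)| ≤ nmon d * D.M * max |(D.y : ℝ)| 1 ^ d :=
  coord_bound D.F D.hF D.M D.hM D.hcoef D.hno ![D.x, D.y] D.hxy 0 1 (by decide)

theorem nmon_pos (d : ℕ) : (1 : ℝ) ≤ nmon d := by
  have : 0 < nmon d := Finset.card_pos.2 ⟨0, by
    rw [Set.Finite.mem_toFinset]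
    show (0 : Fin 2 →₀ ℕ).degree ≤ d
    simp⟩
  exact_mod_cast this

/-- the abscissa is large -/
theorem ratio_x (D : Datum d r H S η) :
    D.ratio ≤ Real.log (nmon d) + 1 +
      ((d : ℝ) + 1) * (Real.log (max |(D.x : ℝ)| 1) / (1 + Real.log D.M)) := by
  have hM := D.hM
  have hlM : 0 ≤ Real.log D.M := Real.log_nonneg hM
  have hn := nmon_pos d
  have hln : 0 ≤ Real.log (nmon d) := Real.log_nonneg hn
  have hX : (1 : ℝ) ≤ max |(D.x : ℝ)| 1 := le_max_right _ _
  have hlX : 0 ≤ Real.log (max |(D.x : ℝ)| 1) := Real.log_nonneg hX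
  have hpos : 0 < 1 + Real.log D.M := by linarith
  have h1 : max |(D.x : ℝ)| |(D.y : ℝ)| ≤ nmon d * D.M * max |(D.x : ℝ)| 1 ^ (d + 1) := by
    refine max_le ?_ ?_
    · calc |(D.x : ℝ)| ≤ max |(D.x : ℝ)| 1 := le_max_left _ _
        _ ≤ max |(D.x : ℝ)| 1 ^ (d + 1) := le_self_pow₀ hX (by omega)
        _ ≤ nmon d * D.M * max |(D.x : ℝ)| 1 ^ (d + 1) :=
            le_mul_of_one_le_left (by positivity) (one_le_mul_of_one_le_of_one_le hn hM)
    · refine (y_le D).trans ?_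
      exact mul_le_mul_of_nonneg_left (pow_le_pow_right₀ hX (by omega)) (by positivity)
  have h2 : Real.log (max |(D.x : ℝ)| |(D.y : ℝ)|) ≤
      Real.log (nmon d) + Real.log D.M + (d + 1) * Real.log (max |(D.x : ℝ)| 1) := by
    by_cases h0 : max |(D.x : ℝ)| |(D.y : ℝ)| = 0
    · rw [h0, Real.log_zero]
      positivity
    · have h3 : 0 < max |(D.x : ℝ)| |(D.y : ℝ)| :=
        lt_of_le_of_ne (le_max_of_le_left (abs_nonneg _)) (Ne.symm h0)
      refine (Real.log_le_log h3 h1).trans ?_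
      rw [Real.log_mul (by positivity) (by positivity), Real.log_mul (by positivity)
        (by positivity), Real.log_pow]
      push_cast
      exact le_rfl
  unfold Datum.ratio
  rw [div_le_iff₀ hpos]
  refine h2.trans ?_
  have h3 : (Real.log (nmon d) + 1 + ((d : ℝ) + 1) *
      (Real.log (max |(D.x : ℝ)| 1) / (1 + Real.log D.M))) * (1 + Real.log D.M) =
      (Real.log (nmon d) + 1) * (1 + Real.log D.M) +
        (d + 1) * Real.log (max |(D.x : ℝ)| 1) := by
    field_simp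
  rw [h3]
  nlinarith

theorem bx_eq (D : Datum d r H S η) :
    |(D.b : ℝ) * D.x| = |∑ i, (D.a i : ℝ) * (D.u i : ℝ)| := by
  have h := D.hx
  have h2 : (D.b : ℝ) * D.x = ∑ i, (D.a i : ℝ) * (D.u i : ℝ) := by exact_mod_cast h
  rw [h2]

theorem b_ge (D : Datum d r H S η) : (1 : ℝ) ≤ |(D.b : ℝ)| := by
  have : 1 ≤ |D.b| := Int.one_le_abs D.hb0
  exact_mod_cast this

theorem u_ge (D : Datum d r H S η) (i : Fin (r + 1)) : 1 ≤ D.u i :=
  Nat.one_le_iff_ne_zero.2 (D.hu i).1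

/-- the sizes -/
theorem sizes' (hη : 0 < η) (D : ℕ → Datum d r H S η)
    (hbig : Tendsto (fun t => (D t).ratio) atTop atTop) :
    Tendsto (fun t => Real.log ((D t).u 0)) atTop atTop ∧
    Sub (fun t => Real.log ((D t).u 0)) (fun t => (D t).M) ∧
    (∀ᶠ t in atTop, Real.exp (1 / 2 * Real.log ((D t).u 0)) ≤ |((D t).b : ℝ) * (D t).x|) := by
  have hq : Tendsto (fun t => Real.log (max |((D t).x : ℝ)| 1) / (1 + Real.log (D t).M))
      atTop atTop := by
    have h1 : Tendsto (fun t => ((D t).ratio - (Real.log (nmon d) + 1)) / ((d : ℝ) + 1))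
        atTop atTop := (tendsto_atTop_add_const_right atTop (-(Real.log (nmon d) + 1)) hbig).atTop_div_const
      (by positivity)
    refine tendsto_atTop_mono (fun t => ?_) h1
    rw [div_le_iff₀ (by positivity)]
    have := ratio_x (D t)
    linarith
  have hlM : ∀ t, 0 ≤ Real.log (D t).M := fun t => Real.log_nonneg (D t).hM
  obtain ⟨X, hX⟩ : ∃ X : ℕ → ℝ, X = fun t => |∑ i, ((D t).a i : ℝ) * ((D t).u i : ℝ)| := ⟨_, rfl⟩
  have hXb : ∀ t, X t = |((D t).b : ℝ) * (D t).x| := fun t => by rw [hX, bx_eq]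
  have hXge : ∀ t, |((D t).x : ℝ)| ≤ X t := fun t => by
    rw [hXb, abs_mul]
    exact le_mul_of_one_le_left (abs_nonneg _) (b_ge _)
  have hkey : ∀ k : ℝ, 0 < k → ∀ᶠ t in atTop, 1 < X t ∧
      k * (1 + Real.log (D t).M) ≤ Real.log (X t) := by
    intro k hk
    filter_upwards [hq.eventually_ge_atTop k] with t ht
    have h1 := hlM t
    have h2 : k * (1 + Real.log (D t).M) ≤ Real.log (max |((D t).x : ℝ)| 1) := by
      rwa [le_div_iff₀ (by linarith)] at ht
    have h3 : 0 < Real.log (max |((D t).x : ℝ)| 1) := lt_of_lt_of_le (by positivity) h2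
    have h4 : 1 < max |((D t).x : ℝ)| 1 := by
      by_contra h5
      push Not at h5
      have h6 : max |((D t).x : ℝ)| 1 = 1 := le_antisymm h5 (le_max_right _ _)
      rw [h6, Real.log_one] at h3
      exact lt_irrefl _ h3
    have h5 : max |((D t).x : ℝ)| 1 = |((D t).x : ℝ)| := by
      rcases max_choice |((D t).x : ℝ)| 1 with h | h
      · exact h
      · rw [h] at h4; exact absurd h4 (lt_irrefl _)
    rw [h5] at h2 h4
    have h6 := hXge t
    exact ⟨lt_of_lt_of_le h4 h6, h2.trans (Real.log_le_log (by linarith) h6)⟩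
  have hXt : Tendsto X atTop atTop := by
    rw [tendsto_atTop]
    intro k
    filter_upwards [hkey (max k 1) (by positivity)] with t ht
    obtain ⟨h1, h2⟩ := ht
    have h3 : Real.log (X t) ≤ X t := Real.log_le_self (by linarith)
    have h4 := hlM t
    have h5 : max k 1 ≤ max k 1 * (1 + Real.log (D t).M) :=
      le_mul_of_one_le_right (by positivity) (by linarith)
    exact (le_max_left k 1).trans (h5.trans (h2.trans h3))
  have hMX : ∀ ε : ℝ, 0 < ε → ∀ᶠ t in atTop, (D t).M ≤ X t ^ ε := by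
    intro ε hε
    filter_upwards [hkey (1 / ε) (by positivity)] with t ht
    obtain ⟨h1, h2⟩ := ht
    have hM := (D t).hM
    have h3 : Real.log (D t).M ≤ ε * Real.log (X t) := by
      have h4 : 1 + Real.log (D t).M ≤ ε * Real.log (X t) := by
        have h5 := mul_le_mul_of_nonneg_left h2 hε.le
        have h6 : ε * (1 / ε * (1 + Real.log (D t).M)) = 1 + Real.log (D t).M := by
          field_simp
        linarith
      linarith
    calc (D t).M = Real.exp (Real.log (D t).M) := (Real.exp_log (by linarith)).symm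
      _ ≤ Real.exp (ε * Real.log (X t)) := Real.exp_le_exp.2 h3
      _ = X t ^ ε := by rw [Real.rpow_def_of_pos (by linarith)]; congr 1; ring
  obtain ⟨h1, h2, -, h3, -⟩ := sizes hη (fun t => (D t).u) (fun t => (D t).a)
    (fun t => (D t).M) X (fun t => (D t).hM) (fun t i => u_ge (D t) i) (fun t i hi => (D t).hdom i hi)
    (fun t i => (D t).ha i) (fun t => (D t).ha0) (fun t => by rw [hX]) hXt hMX
  refine ⟨h1, h2, ?_⟩
  filter_upwards [h3] with t ht
  rwa [← hXb]

end Pool.Agent.H455.VC
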