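import Mathlib
import Pool.Agent.H455.VC4

set_option autoImplicit false

/-!
# Integral points with one sparse coordinate: the slope
-/

open Finset Filter Topology

namespace Pool.Agent.H455.VC

open Pool.Agent.TH419.WI Pool.Agent.TH419.HX
open Pool.Agent.Results.MP_821da1_nt.LaurentDichotomy (UnitOf NoLaurentCurve Qbar)

theorem freq_exists {α : Type} {s : Set α} (hs : s.Finite) (R : ℕ → α → Prop)
    (h : ∀ᶠ t in atTop, ∃ a ∈ s, R t a) : ∃ a ∈ s, ∃ᶠ t in atTop, R t a := by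
  by_contra hcon
  push Not at hcon
  have h1 : ∀ᶠ t in atTop, ∀ a ∈ s, ¬ R t a := (Filter.eventually_all_finite hs).2 hcon
  obtain ⟨t, ⟨a, ha, hR⟩, ht⟩ := (h.and h1).exists
  exact ht a ha hR

variable {d r H : ℕ} {S : Finset ℕ} {η : ℝ}

/-- the quotients of the small terms by the dominating one -/
noncomputable def Datum.z (D : Datum d r H S η) (i : Fin r) : ℝ :=
  (D.a i.succ : ℝ) * D.u i.succ / (D.a 0 * D.u 0)

theorem u0_pos (D : Datum d r H S η) : (0 : ℝ) < D.u 0 := by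
  have := u_ge D 0
  exact_mod_cast this

theorem a0_ne (D : Datum d r H S η) : (D.a 0 : ℝ) ≠ 0 := by exact_mod_cast D.ha0

theorem b_ne (D : Datum d r H S η) : (D.b : ℝ) ≠ 0 := by exact_mod_cast D.hb0

theorem x_eq (D : Datum d r H S η) :
    (D.x : ℝ) = (D.a 0 : ℝ) / D.b * D.u 0 * (1 + ∑ i, D.z i) := by
  have h := D.hx
  have h2 : (D.b : ℝ) * D.x = ∑ i, (D.a i : ℝ) * (D.u i : ℝ) := by exact_mod_cast h
  rw [Fin.sum_univ_succ] at h2
  have h3 : (D.a 0 : ℝ) * D.u 0 * (1 + ∑ i, D.z i) =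
      (D.a 0 : ℝ) * D.u 0 + ∑ i : Fin r, (D.a i.succ : ℝ) * D.u i.succ := by
    rw [mul_add, mul_one, Finset.mul_sum]
    congr 1
    refine Finset.sum_congr rfl fun i _ => ?_
    unfold Datum.z
    rw [mul_div_cancel₀]
    exact mul_ne_zero (a0_ne D) (u0_pos D).ne'
  have h4 := b_ne D
  rw [← h2] at h3
  field_simp
  linear_combination -h3

theorem dec_exp {L : ℕ → ℝ} (hL : Tendsto L atTop atTop) (a : ℝ) :
    Dec L a fun t => Real.exp (-(a * L t)) := by
  intro δ' hδ'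
  filter_upwards [hL.eventually_ge_atTop 0] with t ht
  rw [abs_of_pos (Real.exp_pos _)]
  apply Real.exp_le_exp.2
  nlinarith

theorem z_dec (D : ℕ → Datum d r H S η)
    (hL : Tendsto (fun t => Real.log ((D t).u 0)) atTop atTop)
    (hMS : Sub (fun t => Real.log ((D t).u 0)) (fun t => (D t).M)) (i : Fin r) :
    Dec (fun t => Real.log ((D t).u 0)) η fun t => (D t).z i := by
  have h1 := Dec.mul (dec_zero_iff.2 hMS) (dec_exp hL η)
  rw [zero_add] at h1
  refine h1.mono (Eventually.of_forall fun t => ?_)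
  have hu := u0_pos (D t)
  have h2 := (D t).hdom i.succ (Fin.succ_ne_zero i)
  have h3 : (1 : ℝ) ≤ |((D t).a 0 : ℝ)| := by
    have : 1 ≤ |(D t).a 0| := Int.one_le_abs (D t).ha0
    exact_mod_cast this
  have hM := (D t).hM
  unfold Datum.z
  rw [abs_div, abs_mul, abs_mul, abs_of_pos hu,
    abs_of_nonneg (by positivity : (0 : ℝ) ≤ ((D t).u i.succ : ℝ)),
    abs_of_nonneg (by positivity : (0 : ℝ) ≤ (D t).M * Real.exp (-(η * Real.log ((D t).u 0)))),
    div_le_iff₀ (by positivity)]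
  have h4 : Real.exp (-(η * Real.log ((D t).u 0))) * (D t).u 0 = ((D t).u 0 : ℝ) ^ (1 - η) := by
    rw [sub_eq_add_neg, Real.rpow_add hu, Real.rpow_one, Real.rpow_def_of_pos hu (-η)]
    rw [mul_comm]
    congr 2
    ring
  calc |((D t).a i.succ : ℝ)| * (D t).u i.succ ≤ (D t).M * ((D t).u 0 : ℝ) ^ (1 - η) :=
        mul_le_mul ((D t).ha _) h2 (by positivity) (by linarith)
    _ = (D t).M * (Real.exp (-(η * Real.log ((D t).u 0))) * (D t).u 0) := by rw [h4]
    _ = 1 * ((D t).M * Real.exp (-(η * Real.log ((D t).u 0))) * (D t).u 0) := by ring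
    _ ≤ |((D t).a 0 : ℝ)| * ((D t).M * Real.exp (-(η * Real.log ((D t).u 0))) * (D t).u 0) :=
        mul_le_mul_of_nonneg_right h3 (by positivity)
    _ = (D t).M * Real.exp (-(η * Real.log ((D t).u 0))) * (|((D t).a 0 : ℝ)| * (D t).u 0) := by
        ring

theorem Dec.sum {ι : Type} {L : ℕ → ℝ} (hL : Tendsto L atTop atTop) {a : ℝ} (s : Finset ι)
    {f : ι → ℕ → ℝ} (hf : ∀ i ∈ s, Dec L a (f i)) : Dec L a fun t => ∑ i ∈ s, f i t := by
  classical
  induction s using Finset.induction_on with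
  | empty =>
    intro δ' _
    refine Eventually.of_forall fun t => ?_
    simp only [Finset.sum_empty, abs_zero]
    exact (Real.exp_pos _).le
  | insert i s hi ih =>
    have h1 := Dec.add hL (hf i (Finset.mem_insert_self i s))
      (ih fun j hj => hf j (Finset.mem_insert_of_mem hj))
    refine h1.mono (Eventually.of_forall fun t => ?_)
    rw [Finset.sum_insert hi]

/-- the size of the abscissa, precisely -/
theorem x_size (hη : 0 < η) (D : ℕ → Datum d r H S η)
    (hL : Tendsto (fun t => Real.log ((D t).u 0)) atTop atTop)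
    (hMS : Sub (fun t => Real.log ((D t).u 0)) (fun t => (D t).M)) :
    ∀ᶠ t in atTop, (D t).x ≠ 0 ∧
      |Real.log |((D t).x : ℝ)| - Real.log ((D t).u 0)| ≤ Real.log (2 * (D t).M) := by
  have h1 : Dec (fun t => Real.log ((D t).u 0)) η fun t => ∑ i, (D t).z i :=
    Dec.sum hL Finset.univ fun i _ => z_dec D hL hMS i
  have h2 := h1.tendsto hL hη
  have h3 : ∀ᶠ t in atTop, |∑ i, (D t).z i| < 1 / 2 := by
    have := Metric.tendsto_nhds.1 h2 (1 / 2) (by norm_num)
    filter_upwards [this] with t ht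
    rwa [Real.dist_eq, sub_zero] at ht
  filter_upwards [h3] with t ht
  obtain ⟨ht1, ht2⟩ := abs_lt.1 ht
  have hu := u0_pos (D t)
  have ha : (1 : ℝ) ≤ |((D t).a 0 : ℝ)| := by
    have : 1 ≤ |(D t).a 0| := Int.one_le_abs (D t).ha0
    exact_mod_cast this
  have hb := b_ge (D t)
  have hM := (D t).hM
  have hx := x_eq (D t)
  have hz : 0 < 1 + ∑ i, (D t).z i := by linarith
  have habs : |((D t).x : ℝ)| = |((D t).a 0 : ℝ)| / |((D t).b : ℝ)| * (D t).u 0 *
      (1 + ∑ i, (D t).z i) := by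
    rw [hx, abs_mul, abs_mul, abs_div, abs_of_pos hu, abs_of_pos hz]
  have hapos : 0 < |((D t).a 0 : ℝ)| := by linarith
  have hbpos : 0 < |((D t).b : ℝ)| := by linarith
  refine ⟨?_, ?_⟩
  · intro h0
    rw [h0, Int.cast_zero, abs_zero] at habs
    have : 0 < |((D t).a 0 : ℝ)| / |((D t).b : ℝ)| * (D t).u 0 * (1 + ∑ i, (D t).z i) := by
      positivity
    linarith
  · have h4 : Real.log |((D t).x : ℝ)| - Real.log ((D t).u 0) =
        Real.log (|((D t).a 0 : ℝ)| / |((D t).b : ℝ)| * (1 + ∑ i, (D t).z i)) := by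
      rw [habs, ← Real.log_div (by positivity) hu.ne']
      congr 1
      field_simp
    rw [h4, abs_le]
    constructor
    · rw [← Real.log_inv]
      apply Real.log_le_log (by positivity)
      have h5 : 1 / (D t).M ≤ |((D t).a 0 : ℝ)| / |((D t).b : ℝ)| := by
        rw [div_le_div_iff₀ (by linarith) hbpos]
        have := (D t).hb
        nlinarith
      have h6 : (2 * (D t).M)⁻¹ = 1 / (D t).M * (1 / 2) := by
        rw [mul_inv]; ring
      rw [h6]
      exact mul_le_mul h5 (by linarith) (by norm_num) (by positivity)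
    · apply Real.log_le_log (by positivity)
      have h5 : |((D t).a 0 : ℝ)| / |((D t).b : ℝ)| ≤ (D t).M :=
        (div_le_self hapos.le hb).trans ((D t).ha 0)
      calc |((D t).a 0 : ℝ)| / |((D t).b : ℝ)| * (1 + ∑ i, (D t).z i) ≤ (D t).M * 2 :=
            mul_le_mul h5 (by linarith) hz.le (by linarith)
        _ = 2 * (D t).M := by ring

/-- two terms of the equation are of comparable size -/
theorem pair (D : Datum d r H S η) (hx : D.x ≠ 0) (hy : D.y ≠ 0) :
    ∃ m ∈ {m : Fin 2 →₀ ℕ | m.degree ≤ d}, ∃ m' ∈ {m : Fin 2 →₀ ℕ | m.degree ≤ d}, m ≠ m' ∧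
      |(((m 0 : ℝ) - m' 0) * Real.log |(D.x : ℝ)| + ((m 1 : ℝ) - m' 1) * Real.log |(D.y : ℝ)|)| ≤
        Real.log (nmon d) + Real.log D.M := by
  classical
  obtain ⟨T, hT⟩ : ∃ T : (Fin 2 →₀ ℕ) → ℝ, T = fun m =>
    ((D.F.coeff m : ℤ) : ℝ) * ((D.x : ℝ) ^ m 0 * (D.y : ℝ) ^ m 1) := ⟨_, rfl⟩
  have hsum : ∑ m ∈ D.F.support, T m = 0 := by
    have h1 := D.hxy
    rw [MvPolynomial.eval_eq'] at h1
    have h2 : ((∑ m ∈ D.F.support, D.F.coeff m * ∏ i, (![D.x, D.y] : Fin 2 → ℤ) i ^ m i : ℤ) : ℝ)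
        = 0 := by rw [h1]; simp
    rw [← h2, hT]
    push_cast
    refine Finset.sum_congr rfl fun m _ => ?_
    rw [Fin.prod_univ_two]
    rfl
  have hx' : (D.x : ℝ) ≠ 0 := by exact_mod_cast hx
  have hy' : (D.y : ℝ) ≠ 0 := by exact_mod_cast hy
  have hc : ∀ m ∈ D.F.support, (1 : ℝ) ≤ |((D.F.coeff m : ℤ) : ℝ)| := by
    intro m hm
    have : 1 ≤ |D.F.coeff m| := Int.one_le_abs (MvPolynomial.mem_support_iff.1 hm)
    exact_mod_cast this
  have hT0 : ∀ m ∈ D.F.support, 0 < |T m| := by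
    intro m hm
    rw [hT]
    have h1 := hc m hm
    rw [abs_pos]
    refine mul_ne_zero ?_ (mul_ne_zero (pow_ne_zero _ hx') (pow_ne_zero _ hy'))
    intro h0
    rw [h0, abs_zero] at h1
    linarith
  have hlog : ∀ m ∈ D.F.support, Real.log |T m| = Real.log |((D.F.coeff m : ℤ) : ℝ)| +
      ((m 0 : ℝ) * Real.log |(D.x : ℝ)| + (m 1 : ℝ) * Real.log |(D.y : ℝ)|) := by
    intro m hm
    have h1 := hc m hm
    have hxp : 0 < |(D.x : ℝ)| := abs_pos.2 hx'
    have hyp : 0 < |(D.y : ℝ)| := abs_pos.2 hy'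
    rw [hT]
    simp only
    rw [abs_mul, abs_mul, abs_pow, abs_pow, Real.log_mul (by positivity) (by positivity),
      Real.log_mul (by positivity) (by positivity), Real.log_pow, Real.log_pow]
  have hne : D.F.support.Nonempty := by
    rw [Finset.nonempty_iff_ne_empty]
    intro h0
    have hF0 : D.F = 0 := MvPolynomial.support_eq_empty.1 h0
    have h1 := D.hno 1 (fun k _ => if k = 1 then 1 else 0) (by
      intro t _
      rw [hF0]
      simp) 2 two_ne_zero 0
    simp at h1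
  obtain ⟨m, hm, hmax⟩ := Finset.exists_max_image D.F.support (fun m => |T m|) hne
  -- another term of comparable size
  have hex : ∃ m' ∈ D.F.support.erase m, |T m| ≤ nmon d * |T m'| := by
    by_contra hcon
    push Not at hcon
    have hn := nmon_pos d
    have h1 : |T m| ≤ ∑ m' ∈ D.F.support.erase m, |T m'| := by
      have h2 : T m = -∑ m' ∈ D.F.support.erase m, T m' := by
        rw [← Finset.add_sum_erase _ _ hm] at hsum
        linarith
      rw [h2, abs_neg]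
      exact Finset.abs_sum_le_sum_abs _ _
    by_cases hem : (D.F.support.erase m).Nonempty
    · have h2 : ∑ m' ∈ D.F.support.erase m, |T m'| < ∑ _m' ∈ D.F.support.erase m,
          |T m| / nmon d := by
        refine Finset.sum_lt_sum_of_nonempty hem fun m' hm' => ?_
        rw [lt_div_iff₀ (by linarith)]
        have := hcon m' hm'
        linarith
      rw [Finset.sum_const, nsmul_eq_mul] at h2
      have h3 : ((D.F.support.erase m).card : ℝ) ≤ nmon d := by
        exact_mod_cast (Finset.card_le_card (Finset.erase_subset _ _)).trans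
          (card_support_le D.hF)
      have h4 : ((D.F.support.erase m).card : ℝ) * (|T m| / nmon d) ≤ |T m| := by
        rw [mul_div_assoc', div_le_iff₀ (by linarith), mul_comm]
        exact mul_le_mul_of_nonneg_left h3 (abs_nonneg _)
      linarith
    · rw [Finset.not_nonempty_iff_eq_empty] at hem
      rw [hem, Finset.sum_empty] at h1
      have := hT0 m hm
      linarith
  obtain ⟨m', hm', hle⟩ := hex
  have hm's := Finset.mem_of_mem_erase hm'
  refine ⟨m, (MvPolynomial.le_totalDegree hm).trans D.hF, m',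
    (MvPolynomial.le_totalDegree hm's).trans D.hF, (Finset.ne_of_mem_erase hm').symm, ?_⟩
  have hn := nmon_pos d
  have hl1 : Real.log |T m'| ≤ Real.log |T m| := Real.log_le_log (hT0 m' hm's) (hmax m' hm's)
  have hl2 : Real.log |T m| ≤ Real.log (nmon d) + Real.log |T m'| := by
    have h1 := hT0 m' hm's
    rw [← Real.log_mul (by positivity) (by positivity)]
    exact Real.log_le_log (hT0 m hm) hle
  rw [hlog m hm, hlog m' hm's] at hl1 hl2
  have hb1 : Real.log |((D.F.coeff m : ℤ) : ℝ)| ≤ Real.log D.M :=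
    Real.log_le_log (by have := hc m hm; linarith) (D.hcoef m)
  have hb2 : Real.log |((D.F.coeff m' : ℤ) : ℝ)| ≤ Real.log D.M :=
    Real.log_le_log (by have := hc m' hm's; linarith) (D.hcoef m')
  have hb3 : 0 ≤ Real.log |((D.F.coeff m : ℤ) : ℝ)| := Real.log_nonneg (hc m hm)
  have hb4 : 0 ≤ Real.log |((D.F.coeff m' : ℤ) : ℝ)| := Real.log_nonneg (hc m' hm's)
  have hb5 : 0 ≤ Real.log (nmon d) := Real.log_nonneg hn
  rw [abs_le]
  constructor <;> nlinarith

/-- the two coordinates are of polynomially comparable size, along a subsequence -/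
theorem slope (hη : 0 < η) (D : ℕ → Datum d r H S η)
    (hbig : Tendsto (fun t => (D t).ratio) atTop atTop) :
    ∃ (ψ : ℕ → ℕ) (p q : ℕ), StrictMono ψ ∧ 1 ≤ p ∧ 1 ≤ q ∧
      (∀ t, (D (ψ t)).x ≠ 0 ∧ (D (ψ t)).y ≠ 0) ∧
      Sub (fun t => Real.log ((D (ψ t)).u 0))
        (fun t => |((D (ψ t)).y : ℝ)| ^ p / ((D (ψ t)).u 0 : ℝ) ^ q) ∧
      Sub (fun t => Real.log ((D (ψ t)).u 0))
        (fun t => ((D (ψ t)).u 0 : ℝ) ^ q / |((D (ψ t)).y : ℝ)| ^ p) := by
  obtain ⟨hL, hMS, -⟩ := sizes' hη D hbig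
  obtain ⟨L, hLd⟩ : ∃ L : ℕ → ℝ, L = fun t => Real.log ((D t).u 0) := ⟨_, rfl⟩
  rw [← hLd] at hL hMS
  obtain ⟨κ, hκd⟩ : ∃ κ : ℕ → ℝ, κ = fun t => Real.log 2 + Real.log (nmon d) +
    2 * Real.log (D t).M := ⟨_, rfl⟩
  have hn := nmon_pos d
  have hln : 0 ≤ Real.log (nmon d) := Real.log_nonneg hn
  have hl2 : 0 ≤ Real.log 2 := Real.log_nonneg (by norm_num)
  have hlM : ∀ t, 0 ≤ Real.log (D t).M := fun t => Real.log_nonneg (D t).hM
  have hκ : ∀ ε : ℝ, 0 < ε → ∀ᶠ t in atTop, κ t ≤ ε * L t := by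
    intro ε hε
    filter_upwards [hMS (ε / 4) (by positivity),
      (hL.const_mul_atTop (by positivity : 0 < ε / 2)).eventually_ge_atTop
        (Real.log 2 + Real.log (nmon d))] with t h1 h2
    have hM := (D t).hM
    rw [abs_of_nonneg (by linarith : 0 ≤ (D t).M)] at h1
    have h3 := Real.log_le_log (by linarith : 0 < (D t).M) h1
    rw [Real.log_exp] at h3
    rw [hκd]
    simp only
    linarith
  have hxs := x_size hη D (by rw [← hLd]; exact hL) (by rw [← hLd]; exact hMS)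
  have hev : ∀ᶠ t in atTop, (D t).x ≠ 0 ∧ (D t).y ≠ 0 ∧
      |(Real.log |((D t).x : ℝ)| - L t)| ≤ κ t ∧ Real.log |((D t).x : ℝ)| ≤
        κ t + d * Real.log |((D t).y : ℝ)| := by
    filter_upwards [hxs, hκ (1 / 4) (by norm_num), hL.eventually_gt_atTop 0] with t h1 h2 h3
    obtain ⟨hx0, hx1⟩ := h1
    have hM := (D t).hM
    have hlm := hlM t
    have hxκ : |(Real.log |((D t).x : ℝ)| - L t)| ≤ κ t := by
      rw [hLd, hκd]
      simp only
      refine hx1.trans ?_
      rw [Real.log_mul (by norm_num) (by linarith)]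
      linarith
    have hxle := x_le (D t)
    have hxpos : 0 < |((D t).x : ℝ)| := abs_pos.2 (by exact_mod_cast hx0)
    have hlx : Real.log |((D t).x : ℝ)| ≤ κ t + d * Real.log (max |((D t).y : ℝ)| 1) := by
      have h4 := Real.log_le_log hxpos hxle
      have h5 : (1 : ℝ) ≤ max |((D t).y : ℝ)| 1 := le_max_right _ _
      rw [Real.log_mul (by positivity) (by positivity), Real.log_mul (by positivity)
        (by positivity), Real.log_pow] at h4
      rw [hκd]
      simp only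
      linarith
    have hy0 : (D t).y ≠ 0 := by
      intro h0
      rw [h0, Int.cast_zero, abs_zero, max_eq_right zero_le_one, Real.log_one, mul_zero,
        add_zero] at hlx
      have := (abs_le.1 hxκ).1
      linarith
    refine ⟨hx0, hy0, hxκ, ?_⟩
    have h6 : (1 : ℝ) ≤ |((D t).y : ℝ)| := by
      have : 1 ≤ |(D t).y| := Int.one_le_abs hy0
      exact_mod_cast this
    rwa [max_eq_left h6] at hlx
  -- the pair of monomials
  obtain ⟨m, hm, hfr⟩ := freq_exists (Finsupp.finite_of_degree_le (σ := Fin 2) d)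
    (fun t m => ((D t).x ≠ 0 ∧ (D t).y ≠ 0 ∧ |(Real.log |((D t).x : ℝ)| - L t)| ≤ κ t ∧
      Real.log |((D t).x : ℝ)| ≤ κ t + d * Real.log |((D t).y : ℝ)|) ∧
      ∃ m' ∈ {m : Fin 2 →₀ ℕ | m.degree ≤ d}, m ≠ m' ∧
      |(((m 0 : ℝ) - m' 0) * Real.log |((D t).x : ℝ)| +
        ((m 1 : ℝ) - m' 1) * Real.log |((D t).y : ℝ)|)| ≤
        Real.log (nmon d) + Real.log (D t).M) (by
    filter_upwards [hev] with t ht
    obtain ⟨m, hm, m', hm', h1, h2⟩ := pair (D t) ht.1 ht.2.1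
    exact ⟨m, hm, ht, m', hm', h1, h2⟩)
  obtain ⟨ψ1, hψ1, hψ1'⟩ := Filter.extraction_of_frequently_atTop hfr
  obtain ⟨m', hm', hfr'⟩ := freq_exists (Finsupp.finite_of_degree_le (σ := Fin 2) d)
    (fun t m' => m ≠ m' ∧
      |(((m 0 : ℝ) - m' 0) * Real.log |((D (ψ1 t)).x : ℝ)| +
        ((m 1 : ℝ) - m' 1) * Real.log |((D (ψ1 t)).y : ℝ)|)| ≤
        Real.log (nmon d) + Real.log (D (ψ1 t)).M)
    (Eventually.of_forall fun t => (hψ1' t).2)
  obtain ⟨ψ2, hψ2, hψ2'⟩ := Filter.extraction_of_frequently_atTop hfr'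
  obtain ⟨ψ, hψd⟩ : ∃ ψ : ℕ → ℕ, ψ = ψ1 ∘ ψ2 := ⟨_, rfl⟩
  have hψ : StrictMono ψ := by rw [hψd]; exact hψ1.comp hψ2
  have hψt := hψ.tendsto_atTop
  have hA : ∀ t, (D (ψ t)).x ≠ 0 ∧ (D (ψ t)).y ≠ 0 ∧
      |(Real.log |((D (ψ t)).x : ℝ)| - L (ψ t))| ≤ κ (ψ t) ∧
      Real.log |((D (ψ t)).x : ℝ)| ≤ κ (ψ t) + d * Real.log |((D (ψ t)).y : ℝ)| := by
    intro t
    rw [hψd]
    exact (hψ1' (ψ2 t)).1
  have hB : ∀ t, |(((m 0 : ℝ) - m' 0) * Real.log |((D (ψ t)).x : ℝ)| +
        ((m 1 : ℝ) - m' 1) * Real.log |((D (ψ t)).y : ℝ)|)| ≤ κ (ψ t) := by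
    intro t
    have h1 := (hψ2' t).2
    have h2 := hlM (ψ t)
    rw [hψd, hκd]
    simp only [Function.comp]
    rw [hψd] at h2
    simp only [Function.comp] at h2
    linarith
  have hne : m ≠ m' := (hψ2' 0).1
  have hLψ : Tendsto (fun t => L (ψ t)) atTop atTop := hL.comp hψt
  have hκψ : ∀ ε : ℝ, 0 < ε → ∀ᶠ t in atTop, κ (ψ t) ≤ ε * L (ψ t) := fun ε hε =>
    hψt.eventually (hκ ε hε)
  -- the slope
  obtain ⟨i, hi⟩ : ∃ i : ℤ, i = (m 0 : ℤ) - m' 0 := ⟨_, rfl⟩
  obtain ⟨j, hj⟩ : ∃ j : ℤ, j = (m 1 : ℤ) - m' 1 := ⟨_, rfl⟩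
  have hir : (i : ℝ) = (m 0 : ℝ) - m' 0 := by rw [hi]; push_cast; rfl
  have hjr : (j : ℝ) = (m 1 : ℝ) - m' 1 := by rw [hj]; push_cast; rfl
  have hij : ¬ (i = 0 ∧ j = 0) := by
    rintro ⟨h1, h2⟩
    apply hne
    ext k
    fin_cases k
    · show m 0 = m' 0
      omega
    · show m 1 = m' 1
      omega
  rw [← hir, ← hjr] at hB
  obtain ⟨A, hAd⟩ : ∃ A : ℕ → ℝ, A = fun t => Real.log |((D (ψ t)).x : ℝ)| := ⟨_, rfl⟩
  obtain ⟨B, hBd⟩ : ∃ B : ℕ → ℝ, B = fun t => Real.log |((D (ψ t)).y : ℝ)| := ⟨_, rfl⟩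
  have hB0 : ∀ t, 0 ≤ B t := by
    intro t
    rw [hBd]
    apply Real.log_nonneg
    have : 1 ≤ |(D (ψ t)).y| := Int.one_le_abs (hA t).2.1
    exact_mod_cast this
  have hB' : ∀ t, |(i * A t + j * B t)| ≤ κ (ψ t) := by
    intro t
    rw [hAd, hBd]
    exact hB t
  have hAL : ∀ t, |(A t - L (ψ t))| ≤ κ (ψ t) := by
    intro t
    rw [hAd]
    exact (hA t).2.2.1
  have hAB : ∀ t, A t ≤ κ (ψ t) + d * B t := by
    intro t
    rw [hAd, hBd]
    exact (hA t).2.2.2
  -- there are integers `p ≥ 1`, `q ≥ 1`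
  obtain ⟨p, q, hp, hq, hpq⟩ : ∃ p q : ℕ, 1 ≤ p ∧ 1 ≤ q ∧
      ∀ t, |(p * B t - q * A t)| ≤ κ (ψ t) := by
    obtain ⟨t, h1, h2, h3⟩ := ((hκψ (1 / (4 * ((d : ℝ) + 1))) (by positivity)).and
      ((hκψ (1 / 4) (by norm_num)).and (hLψ.eventually_gt_atTop 0))).exists
    have hABt := hAB t
    have hALt := abs_le.1 (hAL t)
    have hB't := abs_le.1 (hB' t)
    have hB0t := hB0 t
    have hκ4 : κ (ψ t) * (4 * ((d : ℝ) + 1)) ≤ L (ψ t) := by
      have h4 := mul_le_mul_of_nonneg_right h1 (by positivity : 0 ≤ 4 * ((d : ℝ) + 1))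
      have h5 : 1 / (4 * ((d : ℝ) + 1)) * L (ψ t) * (4 * ((d : ℝ) + 1)) = L (ψ t) := by
        field_simp
      linarith
    have hApos : 3 / 4 * L (ψ t) ≤ A t := by linarith [hALt.1]
    have hκ0 : 0 ≤ κ (ψ t) := (abs_nonneg _).trans (hAL t)
    have hj0 : j ≠ 0 := by
      intro h0
      rw [h0, Int.cast_zero, zero_mul, add_zero] at hB't
      have hi0 : i ≠ 0 := fun h => hij ⟨h, h0⟩
      rcases lt_or_gt_of_ne hi0 with h | h
      · have h4 : (i : ℝ) ≤ -1 := by exact_mod_cast (by omega : i ≤ -1)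
        nlinarith [hB't.1]
      · have h4 : (1 : ℝ) ≤ i := by exact_mod_cast (by omega : 1 ≤ i)
        nlinarith [hB't.2]
    -- a bound for the ordinate from below
    have hBlow : L (ψ t) ≤ 2 * ((d : ℝ) + 1) * B t := by
      have hd : (d : ℝ) * B t ≤ ((d : ℝ) + 1) * B t := by nlinarith
      nlinarith
    rcases lt_or_gt_of_ne hj0 with hjneg | hjpos
    · -- `j < 0`
      have hj1 : (j : ℝ) ≤ -1 := by exact_mod_cast (by omega : j ≤ -1)
      have hi1 : 1 ≤ i := by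
        by_contra hcon
        have h4 : (i : ℝ) ≤ 0 := by exact_mod_cast (by omega : i ≤ 0)
        have h5 : (i : ℝ) * A t ≤ 0 := by nlinarith
        have h6 : (j : ℝ) * B t ≤ -B t := by nlinarith
        have h7 : B t ≤ κ (ψ t) := by linarith [hB't.1]
        nlinarith
      refine ⟨j.natAbs, i.natAbs, by omega, by omega, fun s => ?_⟩
      have h4 : ((j.natAbs : ℕ) : ℝ) = -(j : ℝ) := by
        rw [Nat.cast_natAbs, abs_of_neg hjneg]
        push_cast
        rfl
      have h5 : ((i.natAbs : ℕ) : ℝ) = (i : ℝ) := by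
        rw [Nat.cast_natAbs, abs_of_pos (by omega)]
      rw [h4, h5]
      have h6 := hB' s
      rw [← abs_neg] at h6
      refine le_trans (le_of_eq ?_) h6
      congr 1
      ring
    · have hj1 : (1 : ℝ) ≤ j := by exact_mod_cast (by omega : 1 ≤ j)
      have hi1 : i ≤ -1 := by
        by_contra hcon
        have h4 : (0 : ℝ) ≤ i := by exact_mod_cast (by omega : 0 ≤ i)
        have h5 : 0 ≤ (i : ℝ) * A t := by
          apply mul_nonneg h4
          linarith
        have h6 : B t ≤ (j : ℝ) * B t := by nlinarith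
        have h7 : B t ≤ κ (ψ t) := by linarith [hB't.2]
        nlinarith
      refine ⟨j.natAbs, i.natAbs, by omega, by omega, fun s => ?_⟩
      have h4 : ((j.natAbs : ℕ) : ℝ) = (j : ℝ) := by
        rw [Nat.cast_natAbs, abs_of_pos hjpos]
      have h5 : ((i.natAbs : ℕ) : ℝ) = -(i : ℝ) := by
        rw [Nat.cast_natAbs, abs_of_neg (by omega)]
        push_cast
        rfl
      rw [h4, h5]
      have h6 := hB' s
      refine le_trans (le_of_eq ?_) h6
      congr 1
      ring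
  -- the comparison
  have hcmp : ∀ t, |(p * B t - q * L (ψ t))| ≤ (1 + q) * κ (ψ t) := by
    intro t
    have h1 := hpq t
    have h2 := hAL t
    have h3 : p * B t - q * L (ψ t) = (p * B t - q * A t) + q * (A t - L (ψ t)) := by ring
    rw [h3]
    refine (abs_add_le _ _).trans ?_
    rw [abs_mul, abs_of_nonneg (by positivity : (0 : ℝ) ≤ q)]
    have h4 : (q : ℝ) * |(A t - L (ψ t))| ≤ q * κ (ψ t) :=
      mul_le_mul_of_nonneg_left h2 (by positivity)
    linarith
  have hval1 : ∀ t, |((D (ψ t)).y : ℝ)| ^ p / ((D (ψ t)).u 0 : ℝ) ^ q =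
      Real.exp (p * B t - q * L (ψ t)) := by
    intro t
    have hu := u0_pos (D (ψ t))
    have hy : 0 < |((D (ψ t)).y : ℝ)| := abs_pos.2 (by exact_mod_cast (hA t).2.1)
    rw [Real.exp_sub, Real.exp_nat_mul, Real.exp_nat_mul, hBd, hLd]
    simp only
    rw [Real.exp_log hy, Real.exp_log hu]
  have hval2 : ∀ t, ((D (ψ t)).u 0 : ℝ) ^ q / |((D (ψ t)).y : ℝ)| ^ p =
      Real.exp (-(p * B t - q * L (ψ t))) := by
    intro t
    rw [Real.exp_neg, ← hval1, inv_div]
  refine ⟨ψ, p, q, hψ, hp, hq, fun t => ⟨(hA t).1, (hA t).2.1⟩, ?_, ?_⟩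
  · intro ε hε
    filter_upwards [hκψ (ε / (1 + q)) (by positivity)] with t ht
    rw [hval1, abs_of_pos (Real.exp_pos _)]
    apply Real.exp_le_exp.2
    have h1 := (abs_le.1 (hcmp t)).2
    have h2 : (1 + (q : ℝ)) * κ (ψ t) ≤ ε * L (ψ t) := by
      have h3 := mul_le_mul_of_nonneg_left ht (by positivity : 0 ≤ 1 + (q : ℝ))
      have h4 : (1 + (q : ℝ)) * (ε / (1 + q) * L (ψ t)) = ε * L (ψ t) := by field_simp
      linarith
    rw [hLd] at h1 h2 ⊢
    linarith
  · intro ε hε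
    filter_upwards [hκψ (ε / (1 + q)) (by positivity)] with t ht
    rw [hval2, abs_of_pos (Real.exp_pos _)]
    apply Real.exp_le_exp.2
    have h1 := (abs_le.1 (hcmp t)).1
    have h2 : (1 + (q : ℝ)) * κ (ψ t) ≤ ε * L (ψ t) := by
      have h3 := mul_le_mul_of_nonneg_left ht (by positivity : 0 ≤ 1 + (q : ℝ))
      have h4 : (1 + (q : ℝ)) * (ε / (1 + q) * L (ψ t)) = ε * L (ψ t) := by field_simp
      linarith
    rw [hLd] at h1 h2 ⊢
    linarith

end Pool.Agent.H455.VC
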