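import Mathlib
import Pool.Agent.H455.VC5

set_option autoImplicit false

/-!
# Integral points with one sparse coordinate: the end of the proof
-/

open Finset Filter Topology

namespace Pool.Agent.H455.VC

open Pool.Agent.TH419.WI Pool.Agent.TH419.HX
open Pool.Agent.Results.MP_821da1_nt.LaurentDichotomy (UnitOf NoLaurentCurve Qbar)

/-- the equation of the points `(b x, g y)` -/
noncomputable def scale (d : ℕ) (b g : ℤ) (F : MvPolynomial (Fin 2) ℤ) : MvPolynomial (Fin 2) ℤ :=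
  ∑ m ∈ F.support, MvPolynomial.monomial m (F.coeff m * b ^ (d - m 0) * g ^ (d - m 1))

theorem coeff_scale (d : ℕ) (b g : ℤ) (F : MvPolynomial (Fin 2) ℤ) (m : Fin 2 →₀ ℕ) :
    (scale d b g F).coeff m = F.coeff m * b ^ (d - m 0) * g ^ (d - m 1) := by
  classical
  rw [scale, MvPolynomial.coeff_sum]
  simp only [MvPolynomial.coeff_monomial]
  rw [Finset.sum_ite_eq']
  split_ifs with h
  · rfl
  · rw [MvPolynomial.notMem_support_iff.1 h]
    ring

theorem support_scale (d : ℕ) (b g : ℤ) (F : MvPolynomial (Fin 2) ℤ) :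
    (scale d b g F).support ⊆ F.support := by
  intro m hm
  rw [MvPolynomial.mem_support_iff, coeff_scale] at hm
  rw [MvPolynomial.mem_support_iff]
  intro h0
  rw [h0, zero_mul, zero_mul] at hm
  exact hm rfl

theorem totalDegree_scale (d : ℕ) (b g : ℤ) (F : MvPolynomial (Fin 2) ℤ) :
    (scale d b g F).totalDegree ≤ F.totalDegree := Finset.sup_mono (support_scale d b g F)

/-- values of the scaled equation, in a field -/
theorem eval₂_scale {A : Type} [Field A] (f : ℤ →+* A) {d : ℕ} (b g : ℤ)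
    (F : MvPolynomial (Fin 2) ℤ)
    (hF : F.totalDegree ≤ d) (v : Fin 2 → A) (hb : (b : A) ≠ 0) (hg : (g : A) ≠ 0) :
    MvPolynomial.eval₂ f v (scale d b g F) = (b : A) ^ d * (g : A) ^ d *
      MvPolynomial.eval₂ f (fun i => v i / (![(b : A), (g : A)] i)) F := by
  have h1 : MvPolynomial.eval₂ f v (scale d b g F) = ∑ m ∈ F.support,
      (((F.coeff m * b ^ (d - m 0) * g ^ (d - m 1) : ℤ) : A) * ∏ i, v i ^ m i) := by
    rw [scale, MvPolynomial.eval₂_sum]
    refine Finset.sum_congr rfl fun m _ => ?_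
    rw [MvPolynomial.eval₂_monomial, eq_intCast, Finsupp.prod_fintype _ _ (fun i => pow_zero _)]
  rw [h1, MvPolynomial.eval₂_eq', Finset.mul_sum]
  refine Finset.sum_congr rfl fun m hm => ?_
  rw [Fin.prod_univ_two, Fin.prod_univ_two]
  simp only [Matrix.cons_val_zero, Matrix.cons_val_one, Matrix.cons_val_fin_one, div_pow,
    eq_intCast]
  have h2 : (b : A) ^ d = (b : A) ^ (d - m 0) * (b : A) ^ m 0 := by
    rw [← pow_add]; congr 1; have := exp_le_totalDegree hF hm 0; omega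
  have h3 : (g : A) ^ d = (g : A) ^ (d - m 1) * (g : A) ^ m 1 := by
    rw [← pow_add]; congr 1; have := exp_le_totalDegree hF hm 1; omega
  rw [h2, h3]
  push_cast
  have h4 : (b : A) ^ m 0 ≠ 0 := pow_ne_zero _ hb
  have h5 : (g : A) ^ m 1 ≠ 0 := pow_ne_zero _ hg
  field_simp

theorem eval_scale {d : ℕ} (b g : ℤ) (F : MvPolynomial (Fin 2) ℤ) (hF : F.totalDegree ≤ d)
    (x y : ℤ) (hb : b ≠ 0) (hg : g ≠ 0) (h : MvPolynomial.eval ![x, y] F = 0) :
    MvPolynomial.aeval ![b * x, g * y] (scale d b g F) = 0 := by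
  have hb' : (b : ℚ) ≠ 0 := by exact_mod_cast hb
  have hg' : (g : ℚ) ≠ 0 := by exact_mod_cast hg
  have h1 := eval₂_scale (Int.castRingHom ℚ) b g F hF (fun i => ((![b * x, g * y] i : ℤ) : ℚ)) hb' hg'
  have h2 : (fun i => ((![b * x, g * y] i : ℤ) : ℚ) / (![(b : ℚ), (g : ℚ)] i)) =
      fun i => ((![x, y] i : ℤ) : ℚ) := by
    funext i
    fin_cases i
    · show ((b * x : ℤ) : ℚ) / b = x
      push_cast
      field_simp
    · show ((g * y : ℤ) : ℚ) / g = y
      push_cast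
      field_simp
  rw [h2] at h1
  have h3 : ∀ (v : Fin 2 → ℤ) (G : MvPolynomial (Fin 2) ℤ),
      MvPolynomial.eval₂ (Int.castRingHom ℚ) (fun i => ((v i : ℤ) : ℚ)) G =
        ((MvPolynomial.eval v G : ℤ) : ℚ) := by
    intro v G
    have h4 := MvPolynomial.eval₂_comp_left (Int.castRingHom ℚ) (RingHom.id ℤ) v G
    exact h4.symm
  rw [h3, h3, h, Int.cast_zero, mul_zero] at h1
  rw [MvPolynomial.aeval_eq_eval]
  exact_mod_cast h1

theorem noLaurent_scale {d : ℕ} (b g : ℤ) (F : MvPolynomial (Fin 2) ℤ)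
    (hF : F.totalDegree ≤ d) (hb : b ≠ 0) (hg : g ≠ 0)
    (h : NoLaurentCurve (MvPolynomial.map (algebraMap ℤ Qbar) F)) :
    NoLaurentCurve (MvPolynomial.map (algebraMap ℤ Qbar) (scale d b g F)) := by
  intro N c hc t ht a
  have hb' : (b : Qbar) ≠ 0 := by exact_mod_cast hb
  have hg' : (g : Qbar) ≠ 0 := by exact_mod_cast hg
  have hbg : ∀ a : Fin 2, (![(b : Qbar), (g : Qbar)] a) ≠ 0 := by
    intro a
    fin_cases a
    · exact hb'
    · exact hg'
  have h1 := h N (fun k a => c k a / (![(b : Qbar), (g : Qbar)] a)) (by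
    intro s hs
    have h2 := hc s hs
    rw [MvPolynomial.aeval_map_algebraMap, MvPolynomial.aeval_def,
      eval₂_scale _ b g F hF _ hb' hg'] at h2
    rw [MvPolynomial.aeval_map_algebraMap, MvPolynomial.aeval_def]
    have h3 := (mul_eq_zero.1 h2).resolve_left
      (mul_ne_zero (pow_ne_zero _ hb') (pow_ne_zero _ hg'))
    rw [← h3]
    congr 2
    funext a
    rw [Finset.sum_div]
    refine Finset.sum_congr rfl fun k _ => ?_
    rw [mul_div_assoc]) t ht a
  have h2 := congrArg (fun w => w * (![(b : Qbar), (g : Qbar)] a)) h1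
  simp only [Finset.sum_mul] at h2
  have h3 := hbg a
  have h4 : ∀ k, t ^ k * (c k a / (![(b : Qbar), (g : Qbar)] a)) * (![(b : Qbar), (g : Qbar)] a) =
      t ^ k * c k a := by
    intro k
    rw [mul_assoc, div_mul_cancel₀ _ h3]
  have h5 : ∀ k, (c k a / (![(b : Qbar), (g : Qbar)] a)) * (![(b : Qbar), (g : Qbar)] a) =
      c k a := by
    intro k
    rw [div_mul_cancel₀ _ h3]
  simp only [h4, h5] at h2
  exact h2

variable {d r H : ℕ} {S : Finset ℕ} {η : ℝ}

/-- **The end of the proof**: small multiples of the ordinates are not sums of boundedly many almost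
units. -/
theorem finish (hη : 0 < η) (hS : ∀ p ∈ S, p.Prime) (D : ℕ → Datum d r H S η)
    (hbig : Tendsto (fun t => (D t).ratio) atTop atTop) (N : ℕ)
    (h : ∀ ε : ℝ, 0 < ε → ∃ᶠ t in atTop, ∃ (G : ℤ) (v : Fin N → ℚ) (c : Fin N → ℤ), G ≠ 0 ∧
      |(G : ℝ)| ≤ Real.exp (ε * Real.log ((D t).u 0)) ∧ (∀ j, UnitOf S (v j)) ∧
      (∀ j, |(c j : ℝ)| ≤ Real.exp (ε * Real.log ((D t).u 0))) ∧
      (G : ℚ) * (D t).y = ∑ j, (c j : ℚ) * v j) : False := by
  obtain ⟨hL, hMS, hXge⟩ := sizes' hη D hbig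
  obtain ⟨C, hC⟩ := (Pool.Agent.Results.MP_821da1_nt.LaurentDichotomy.result (d + 1) (by omega)
    ((r + 1) + N)).2 S (fun p hp => (hS p hp).ne_zero)
  obtain ⟨ε, hε⟩ : ∃ ε : ℝ, ε = 1 / (4 * ((C : ℝ) + 1) * (2 * d + 2)) := ⟨_, rfl⟩
  have hεpos : 0 < ε := by rw [hε]; positivity
  have hεC : (C : ℝ) * ((2 * d + 2) * ε) ≤ 1 / 4 := by
    rw [hε]
    have h1 : (C : ℝ) * ((2 * d + 2) * (1 / (4 * ((C : ℝ) + 1) * (2 * d + 2)))) =
        C / (4 * (C + 1)) := by
      field_simp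
    rw [h1, div_le_div_iff₀ (by positivity) (by norm_num)]
    linarith
  obtain ⟨t, ⟨G, v, c, hG0, hGb, hv, hc, hGy⟩, hMt, hXt, hLbig, hLpos⟩ :=
    ((h ε hεpos).and_eventually ((hMS ε hεpos).and (hXge.and
      ((hL.eventually_gt_atTop (4 * C * Real.log 12)).and (hL.eventually_gt_atTop 0))))).exists
  obtain ⟨L, hLd⟩ : ∃ L : ℝ, L = Real.log ((D t).u 0) := ⟨_, rfl⟩
  simp only at hMt
  rw [← hLd] at hGb hc hMt hXt hLbig hLpos
  have hM := (D t).hM
  rw [abs_of_nonneg (by linarith : (0 : ℝ) ≤ (D t).M)] at hMt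
  have he1 : 1 ≤ Real.exp (ε * L) := Real.one_le_exp (by positivity)
  obtain ⟨M', hM'⟩ : ∃ M' : ℕ, M' = ⌈Real.exp (ε * L) ^ (2 * d + 1)⌉₊ := ⟨_, rfl⟩
  obtain ⟨H', hH'⟩ : ∃ H' : ℕ, H' = ⌈Real.exp (ε * L)⌉₊ := ⟨_, rfl⟩
  have hM'1 : 1 ≤ M' := by
    rw [hM']
    exact Nat.one_le_ceil_iff.2 (by positivity)
  have hH'1 : 1 ≤ H' := by
    rw [hH']
    exact Nat.one_le_ceil_iff.2 (by positivity)
  have hceil : ∀ x : ℝ, 1 ≤ x → (⌈x⌉₊ : ℝ) ≤ 2 * x := by
    intro x hx
    have := Nat.ceil_lt_add_one (by linarith : (0 : ℝ) ≤ x)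
    linarith
  have hM'2 : (M' : ℝ) ≤ 2 * Real.exp (ε * L) ^ (2 * d + 1) := by
    rw [hM']; exact hceil _ (one_le_pow₀ he1)
  have hH'2 : (H' : ℝ) ≤ 2 * Real.exp (ε * L) := by
    rw [hH']; exact hceil _ he1
  have hint : ∀ (n : ℤ), |(n : ℝ)| ≤ Real.exp (ε * L) → |n| ≤ (H' : ℤ) := by
    intro n hn
    have h1 : |(n : ℝ)| ≤ (H' : ℝ) := by
      rw [hH']; exact hn.trans (Nat.le_ceil _)
    exact_mod_cast h1
  have hbound := hC (scale d (D t).b G (D t).F) M' H'
    (Fin.append (D t).a (fun _ => 0)) (Fin.append (fun _ => 0) c)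
    (Fin.append (fun i => ((D t).u i : ℚ)) v) ((D t).b * (D t).x) (G * (D t).y)
    ((totalDegree_scale _ _ _ _).trans ((D t).hF.trans (by omega))) hM'1
    (by
      intro m
      rw [coeff_scale]
      by_cases hm : m ∈ (D t).F.support
      swap
      · rw [MvPolynomial.notMem_support_iff.1 hm, zero_mul, zero_mul, abs_zero]
        positivity
      have h1 : |(((D t).F.coeff m * (D t).b ^ (d - m 0) * G ^ (d - m 1) : ℤ) : ℝ)| ≤
          Real.exp (ε * L) ^ (2 * d + 1) := by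
        push_cast
        rw [abs_mul, abs_mul, abs_pow, abs_pow]
        have h2 : |((D t).b : ℝ)| ^ (d - m 0) ≤ Real.exp (ε * L) ^ (d - m 0) :=
          pow_le_pow_left₀ (abs_nonneg _) ((D t).hb.trans hMt) _
        have h3 : |(G : ℝ)| ^ (d - m 1) ≤ Real.exp (ε * L) ^ (d - m 1) :=
          pow_le_pow_left₀ (abs_nonneg _) hGb _
        calc |(((D t).F.coeff m : ℤ) : ℝ)| * |((D t).b : ℝ)| ^ (d - m 0) * |(G : ℝ)| ^ (d - m 1)
            ≤ Real.exp (ε * L) * Real.exp (ε * L) ^ (d - m 0) * Real.exp (ε * L) ^ (d - m 1) :=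
              mul_le_mul (mul_le_mul (((D t).hcoef m).trans hMt) h2 (by positivity)
                (by positivity)) h3 (by positivity) (by positivity)
          _ = Real.exp (ε * L) ^ (1 + (d - m 0) + (d - m 1)) := by
              rw [pow_add, pow_add, pow_one]
          _ ≤ Real.exp (ε * L) ^ (2 * d + 1) := pow_le_pow_right₀ he1 (by omega)
      have h2 := h1.trans (Nat.le_ceil _)
      rw [← hM'] at h2
      exact_mod_cast h2)
    (noLaurent_scale _ _ _ (D t).hF (D t).hb0 hG0 (D t).hno) hH'1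
    (by
      intro j
      refine Fin.addCases (fun i => ?_) (fun i => ?_) j
      · simp only [Fin.append_left, abs_zero]
        exact ⟨hint _ (((D t).ha i).trans hMt), by positivity, unitOf_smooth ((D t).hu i)⟩
      · simp only [Fin.append_right, abs_zero]
        exact ⟨by positivity, hint _ (hc i), hv i⟩)
    (by
      rw [Fin.sum_univ_add]
      simp only [Fin.append_left, Fin.append_right, Int.cast_zero, zero_mul,
        Finset.sum_const_zero, add_zero]
      have h1 := (D t).hx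
      exact_mod_cast h1)
    (by
      rw [Fin.sum_univ_add]
      simp only [Fin.append_left, Fin.append_right, Int.cast_zero, zero_mul,
        Finset.sum_const_zero, zero_add]
      push_cast
      exact hGy)
    (eval_scale _ _ _ (D t).hF _ _ (D t).hb0 hG0 (D t).hxy)
  have h1 : |((D t).b : ℝ) * (D t).x| ≤ (3 * M' * H' : ℝ) ^ C := by
    have h2 := hbound.1
    have h3 : ((|(D t).b * (D t).x| : ℤ) : ℝ) ≤ (((3 * M' * H') ^ C : ℤ) : ℝ) := by
      exact_mod_cast h2
    push_cast at h3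
    exact h3
  have h2 : (3 * M' * H' : ℝ) ≤ 12 * Real.exp (ε * L) ^ (2 * d + 2) := by
    calc (3 * M' * H' : ℝ) ≤ 3 * (2 * Real.exp (ε * L) ^ (2 * d + 1)) * (2 * Real.exp (ε * L)) :=
          mul_le_mul (by linarith) hH'2 (by positivity) (by positivity)
      _ = 12 * Real.exp (ε * L) ^ (2 * d + 2) := by ring
  have h3 : Real.exp (1 / 2 * L) ≤ (12 * Real.exp (ε * L) ^ (2 * d + 2)) ^ C :=
    hXt.trans (h1.trans (pow_le_pow_left₀ (by positivity) h2 _))
  have h4 := Real.log_le_log (Real.exp_pos _) h3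
  rw [Real.log_exp, Real.log_pow, Real.log_mul (by norm_num) (by positivity), Real.log_pow,
    Real.log_exp] at h4
  push_cast at h4
  have h5 : (C : ℝ) * (Real.log 12 + (2 * d + 2) * (ε * L)) =
      C * Real.log 12 + (C * ((2 * d + 2) * ε)) * L := by ring
  rw [h5] at h4
  have h6 : (C * ((2 * d + 2) * ε)) * L ≤ 1 / 4 * L := mul_le_mul_of_nonneg_right hεC hLpos.le
  linarith

end Pool.Agent.H455.VC
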