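import Mathlib
import Pool.Agent.H455.VC6

set_option autoImplicit false

/-!
# Integral points with one sparse coordinate: the core of the proof
-/

open Finset Filter Topology

namespace Pool.Agent.H455.VC

open Pool.Agent.TH419.WI Pool.Agent.TH419.HX
open Pool.Agent.Results.MP_821da1_nt.LaurentDichotomy (UnitOf NoLaurentCurve Qbar)

variable {d r H : ℕ} {S : Finset ℕ} {η : ℝ}

/-- a point together with the edge to which it belongs -/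
structure Inst (d r H : ℕ) (S : Finset ℕ) (η : ℝ) (p q Dw : ℕ) (supp : Finset (Fin 2 →₀ ℕ))
    (G : Polynomial ℤ) (δ : ℕ) extends Datum d r H S η where
  α : ℕ
  g : ℤ
  h : ℤ
  c : ℚ
  hα : Smooth S α
  hαδ : u 0 = δ * α ^ p
  hg : g ≠ 0
  hh : h ≠ 0
  hc : c ≠ 0
  hgM : |(g : ℝ)| ≤ M
  hhM : |(h : ℝ)| ≤ M
  hsupp : F.support = supp
  hedge : ∀ m ∈ supp, wt p q m = Dw →
    ((F.coeff m : ℤ) : ℚ) * ((a 0 : ℚ) / b) ^ m 0 * ((h : ℚ) / g) ^ m 1 =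
      c * ((G.coeff (m 1) : ℤ) : ℚ)

theorem Sub.of_pow {L f : ℕ → ℝ} (hL : Tendsto L atTop atTop) {p : ℕ} (hp : 1 ≤ p)
    (h : Sub L fun t => |f t| ^ p) : Sub L f := by
  have h1 : Dec L 0 fun t => 1 + |f t| ^ p :=
    Dec.add hL (dec_zero_iff.2 (Sub.const hL 1)) (dec_zero_iff.2 h)
  refine dec_zero_iff.1 (h1.mono (Eventually.of_forall fun t => ?_))
  rw [abs_of_nonneg (by positivity : (0 : ℝ) ≤ 1 + |f t| ^ p)]
  rcases le_or_gt 1 |f t| with h2 | h2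
  · have := le_self_pow₀ h2 (by omega : p ≠ 0)
    linarith
  · have : 0 ≤ |f t| ^ p := by positivity
    linarith

section params

variable {p q Dw : ℕ} {supp : Finset (Fin 2 →₀ ℕ)} {G : Polynomial ℤ} {δ : ℕ}

theorem δ_pos (I : Inst d r H S η p q Dw supp G δ) : 0 < δ := by
  rcases Nat.eq_zero_or_pos δ with h | h
  · exact absurd (I.hαδ.trans (mul_eq_zero_of_left h _)) (I.hu 0).1
  · exact h

/-- the `p`-th root of `δ` -/
noncomputable def θ (p δ : ℕ) : ℝ := (δ : ℝ) ^ ((1 : ℝ) / p)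

theorem θ_pos (p : ℕ) {δ : ℕ} (hδ : 0 < δ) : 0 < θ p δ := by
  unfold θ
  have : (0 : ℝ) < δ := by exact_mod_cast hδ
  positivity

theorem θ_pow {p : ℕ} (hp : 1 ≤ p) (δ : ℕ) : θ p δ ^ p = δ := by
  unfold θ
  rw [← Real.rpow_natCast, ← Real.rpow_mul (Nat.cast_nonneg _), one_div, inv_mul_cancel₀,
    Real.rpow_one]
  have : p ≠ 0 := by omega
  exact_mod_cast this

theorem θ_alg {p : ℕ} (hp : 1 ≤ p) (δ : ℕ) : IsAlgebraic ℚ (θ p δ) := by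
  apply IsAlgebraic.of_pow (n := p) (by omega)
  rw [θ_pow hp]
  exact_mod_cast isAlgebraic_natCast (R := ℚ) (A := ℝ) δ

theorem α_ge (I : Inst d r H S η p q Dw supp G δ) : (1 : ℝ) ≤ I.α := by
  have : 1 ≤ I.α := Nat.one_le_iff_ne_zero.2 I.hα.1
  exact_mod_cast this

theorem u0_eq (hp : 1 ≤ p) (I : Inst d r H S η p q Dw supp G δ) :
    (θ p δ * I.α) ^ p = I.u 0 := by
  rw [mul_pow, θ_pow hp, I.hαδ]
  push_cast
  rfl

theorem α_le (hp : 1 ≤ p) (I : Inst d r H S η p q Dw supp G δ) : (I.α : ℝ) ≤ I.u 0 := by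
  have h1 : I.α ≤ I.u 0 := by
    rw [I.hαδ]
    calc I.α ≤ I.α ^ p := Nat.le_self_pow (by omega) _
      _ ≤ δ * I.α ^ p := Nat.le_mul_of_pos_left _ (δ_pos I)
  exact_mod_cast h1

/-- the reduced ordinate -/
noncomputable def Inst.W (I : Inst d r H S η p q Dw supp G δ) : ℝ :=
  (I.g : ℝ) * I.y / (I.h * (θ p δ * I.α) ^ q)

theorem g_ne (I : Inst d r H S η p q Dw supp G δ) : (I.g : ℝ) ≠ 0 := by exact_mod_cast I.hg
theorem h_ne (I : Inst d r H S η p q Dw supp G δ) : (I.h : ℝ) ≠ 0 := by exact_mod_cast I.hh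
theorem c_ne (I : Inst d r H S η p q Dw supp G δ) : (I.c : ℝ) ≠ 0 := by exact_mod_cast I.hc

theorem θα_pos (I : Inst d r H S η p q Dw supp G δ) : 0 < θ p δ * I.α :=
  mul_pos (θ_pos p (δ_pos I)) (by have := α_ge I; linarith)

theorem y_eq (I : Inst d r H S η p q Dw supp G δ) :
    (I.y : ℝ) = (I.h : ℝ) / I.g * (θ p δ * I.α) ^ q * I.W := by
  unfold Inst.W
  have h1 := g_ne I
  have h2 := h_ne I
  have h3 := (θα_pos I).ne'
  have h4 : (θ p δ * (I.α : ℝ)) ^ q ≠ 0 := pow_ne_zero _ h3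
  field_simp

/-- the small quantities -/
noncomputable def Inst.zz (I : Inst d r H S η p q Dw supp G δ) : Fin r ⊕ supp → ℝ
  | .inl i => I.z i
  | .inr m => if wt p q m = Dw then 0 else
      ((I.F.coeff m : ℤ) : ℝ) * ((I.a 0 : ℝ) / I.b) ^ (m : Fin 2 →₀ ℕ) 0 *
        ((I.h : ℝ) / I.g) ^ (m : Fin 2 →₀ ℕ) 1 / I.c *
        ((θ p δ * I.α) ^ wt p q m / (θ p δ * I.α) ^ Dw)

/-- the equation for the reduced ordinate -/
theorem equation (hp : 1 ≤ p) (I : Inst d r H S η p q Dw supp G δ) :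
    ∑ m : supp, (if wt p q m = Dw then ((G.coeff ((m : Fin 2 →₀ ℕ) 1) : ℤ) : ℝ) else
      I.zz (Sum.inr m)) * (1 + ∑ i, I.zz (Sum.inl i)) ^ (m : Fin 2 →₀ ℕ) 0 *
        I.W ^ (m : Fin 2 →₀ ℕ) 1 = 0 := by
  have h0 : ∑ m ∈ I.F.support, ((I.F.coeff m : ℤ) : ℝ) * ((I.x : ℝ) ^ m 0 * (I.y : ℝ) ^ m 1) = 0 := by
    have h1 := I.hxy
    rw [MvPolynomial.eval_eq'] at h1
    have h2 : ((∑ m ∈ I.F.support, I.F.coeff m * ∏ i, (![I.x, I.y] : Fin 2 → ℤ) i ^ m i : ℤ) : ℝ)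
        = 0 := by rw [h1]; simp
    rw [← h2]
    push_cast
    refine Finset.sum_congr rfl fun m _ => ?_
    rw [Fin.prod_univ_two]
    rfl
  rw [I.hsupp, ← Finset.sum_coe_sort] at h0
  have hθ := θα_pos I
  have hc := c_ne I
  have hN : (I.c : ℝ) * (θ p δ * I.α) ^ Dw ≠ 0 := mul_ne_zero hc (pow_ne_zero _ hθ.ne')
  apply mul_left_cancel₀ hN
  rw [mul_zero, Finset.mul_sum, ← h0]
  refine Finset.sum_congr rfl fun m _ => ?_
  have hx : (I.x : ℝ) = (I.a 0 : ℝ) / I.b * (θ p δ * I.α) ^ p * (1 + ∑ i, I.zz (Sum.inl i)) := by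
    rw [u0_eq hp I]
    exact x_eq I.toDatum
  have e1 : ∀ (A B C : ℝ) (n k : ℕ), (A * B ^ n * C) ^ k = A ^ k * B ^ (n * k) * C ^ k := by
    intro A B C n k
    rw [mul_pow, mul_pow, ← pow_mul]
  rw [hx, y_eq I, e1, e1]
  by_cases hm : wt p q m = Dw
  · rw [if_pos hm]
    have h1 := I.hedge m m.2 hm
    have h2 : ((I.F.coeff m : ℤ) : ℝ) * ((I.a 0 : ℝ) / I.b) ^ (m : Fin 2 →₀ ℕ) 0 *
        ((I.h : ℝ) / I.g) ^ (m : Fin 2 →₀ ℕ) 1 =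
        I.c * ((G.coeff ((m : Fin 2 →₀ ℕ) 1) : ℤ) : ℝ) := by exact_mod_cast h1
    have h3 : (θ p δ * (I.α : ℝ)) ^ Dw = (θ p δ * I.α) ^ (p * (m : Fin 2 →₀ ℕ) 0) *
        (θ p δ * I.α) ^ (q * (m : Fin 2 →₀ ℕ) 1) := by
      rw [← pow_add]
      exact (congrArg (fun n : ℕ => (θ p δ * (I.α : ℝ)) ^ n) hm).symm
    rw [h3]
    linear_combination (-(θ p δ * (I.α : ℝ)) ^ (p * (m : Fin 2 →₀ ℕ) 0) *
        (θ p δ * I.α) ^ (q * (m : Fin 2 →₀ ℕ) 1) * (1 + ∑ i, I.zz (Sum.inl i)) ^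
        (m : Fin 2 →₀ ℕ) 0 * I.W ^ (m : Fin 2 →₀ ℕ) 1) * h2
  · rw [if_neg hm]
    have h3 : (θ p δ * (I.α : ℝ)) ^ wt p q m = (θ p δ * I.α) ^ (p * (m : Fin 2 →₀ ℕ) 0) *
        (θ p δ * I.α) ^ (q * (m : Fin 2 →₀ ℕ) 1) := by
      rw [← pow_add]
      rfl
    have h4 : I.zz (Sum.inr m) = ((I.F.coeff m : ℤ) : ℝ) * ((I.a 0 : ℝ) / I.b) ^
        (m : Fin 2 →₀ ℕ) 0 * ((I.h : ℝ) / I.g) ^ (m : Fin 2 →₀ ℕ) 1 / I.c *
        ((θ p δ * I.α) ^ wt p q m / (θ p δ * I.α) ^ Dw) := by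
      show (if wt p q m = Dw then (0 : ℝ) else _) = _
      rw [if_neg hm]
    rw [h4, h3]
    have h5 : (θ p δ * (I.α : ℝ)) ^ Dw ≠ 0 := pow_ne_zero _ hθ.ne'
    field_simp

end params

end Pool.Agent.H455.VC
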