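import Mathlib
import Pool.Agent.H455.VC7

set_option autoImplicit false

/-!
# Integral points with one sparse coordinate: sequences of points on one edge
-/

open Finset Filter Topology

namespace Pool.Agent.H455.VC

open Pool.Agent.TH419.WI Pool.Agent.TH419.HX
open Pool.Agent.Results.MP_821da1_nt.LaurentDichotomy (UnitOf NoLaurentCurve Qbar)

/-- the limit of a sequence at which a squarefree polynomial is small -/
theorem root_lim {L : ℕ → ℝ} (hL : Tendsto L atTop atTop) {δ0 : ℝ} (hδ0 : 0 < δ0)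
    (E : Polynomial ℤ) (hsq : Squarefree (E.map (Int.castRingHom ℚ))) (W : ℕ → ℝ) (ω : ℝ)
    (hω : Tendsto W atTop (𝓝 ω)) (hE : Dec L δ0 fun t => Polynomial.aeval (W t) E) :
    Polynomial.aeval ω E = 0 ∧ Dec L δ0 (fun t => W t - ω) ∧
      Polynomial.aeval ω (Polynomial.derivative E) ≠ 0 ∧ IsAlgebraic ℚ ω := by
  have hcont : Continuous fun x : ℝ => (Polynomial.aeval x E : ℝ) := Polynomial.continuous_aeval E
  have h0 : Polynomial.aeval ω E = 0 :=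
    tendsto_nhds_unique ((hcont.tendsto ω).comp hω) (hE.tendsto hL hδ0)
  have hsep : (E.map (Int.castRingHom ℚ)).Separable :=
    PerfectField.separable_iff_squarefree.2 hsq
  have haev : ∀ (x : ℝ) (P : Polynomial ℤ),
      Polynomial.aeval x (P.map (Int.castRingHom ℚ)) = Polynomial.aeval x P := by
    intro x P
    exact Polynomial.aeval_map_algebraMap ℚ x P
  have h0' : Polynomial.aeval ω (E.map (Int.castRingHom ℚ)) = 0 := by rw [haev, h0]
  have hd : Polynomial.aeval ω (Polynomial.derivative E) ≠ 0 := by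
    have h1 := hsep.aeval_derivative_ne_zero h0'
    rwa [Polynomial.derivative_map, haev] at h1
  have hne : E.map (Int.castRingHom ℚ) ≠ 0 := hsq.ne_zero
  obtain ⟨ER, hER⟩ : ∃ ER : Polynomial ℝ, ER = E.map (Int.castRingHom ℝ) := ⟨_, rfl⟩
  have hev : ∀ (x : ℝ) (P : Polynomial ℤ), (P.map (Int.castRingHom ℝ)).eval x =
      Polynomial.aeval x P := by
    intro x P
    rw [Polynomial.eval_map, Polynomial.aeval_def]
    rfl
  have hroot : ER.IsRoot ω := by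
    rw [Polynomial.IsRoot, hER, hev, h0]
  obtain ⟨Gq, hGq⟩ : ∃ Gq, Gq = ER /ₘ (Polynomial.X - Polynomial.C ω) := ⟨_, rfl⟩
  have hfac : (Polynomial.X - Polynomial.C ω) * Gq = ER := by
    rw [hGq]
    exact Polynomial.mul_divByMonic_eq_iff_isRoot.2 hroot
  have hGω : Gq.eval ω ≠ 0 := by
    have h1 := congrArg (fun P => (Polynomial.derivative P).eval ω) hfac
    simp only [Polynomial.derivative_mul, Polynomial.derivative_sub, Polynomial.derivative_X,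
      Polynomial.derivative_C, sub_zero, one_mul, Polynomial.eval_add, Polynomial.eval_mul,
      Polynomial.eval_sub, Polynomial.eval_X, Polynomial.eval_C, sub_self, zero_mul,
      add_zero] at h1
    rw [h1, hER, Polynomial.derivative_map, hev]
    exact hd
  refine ⟨h0, ?_, hd, ⟨_, hne, h0'⟩⟩
  have h1 : Tendsto (fun t => Gq.eval (W t)) atTop (𝓝 (Gq.eval ω)) :=
    (Gq.continuous.tendsto ω).comp hω
  have h2 : ∀ᶠ t in atTop, |Gq.eval ω| / 2 ≤ |Gq.eval (W t)| := by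
    have h3 := h1.abs
    exact h3.eventually_const_le (by have := abs_pos.2 hGω; linarith)
  have h4 := Dec.mul (dec_zero_iff.2 (Sub.const hL (2 / |Gq.eval ω|))) hE
  rw [zero_add] at h4
  refine h4.mono ?_
  filter_upwards [h2] with t ht
  have hG0 : 0 < |Gq.eval ω| := abs_pos.2 hGω
  have h5 : Polynomial.aeval (W t) E = (W t - ω) * Gq.eval (W t) := by
    rw [← hev, ← hER, ← hfac]
    simp
  rw [h5, abs_mul, abs_mul, abs_of_pos (by positivity : 0 < 2 / |Gq.eval ω|)]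
  calc |W t - ω| = 2 / |Gq.eval ω| * (|W t - ω| * (|Gq.eval ω| / 2)) := by field_simp
    _ ≤ 2 / |Gq.eval ω| * (|W t - ω| * |Gq.eval (W t)|) := by
        apply mul_le_mul_of_nonneg_left _ (by positivity)
        exact mul_le_mul_of_nonneg_left ht (abs_nonneg _)

variable {d r H : ℕ} {S : Finset ℕ} {η : ℝ}
variable {p q Dw : ℕ} {supp : Finset (Fin 2 →₀ ℕ)} {G : Polynomial ℤ} {δ : ℕ}

theorem c_inv (I : Inst d r H S η p q Dw supp G δ) (m : Fin 2 →₀ ℕ) (hm : m ∈ supp)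
    (hw : wt p q m = Dw) :
    (I.F.coeff m * I.a 0 ^ m 0 * I.h ^ m 1) ≠ 0 ∧ (I.c : ℝ)⁻¹ =
      ((G.coeff (m 1) * I.b ^ m 0 * I.g ^ m 1 : ℤ) : ℝ) /
        ((I.F.coeff m * I.a 0 ^ m 0 * I.h ^ m 1 : ℤ) : ℝ) := by
  have h1 : I.F.coeff m ≠ 0 := by
    rw [← MvPolynomial.mem_support_iff, I.hsupp]
    exact hm
  have h2 : I.F.coeff m * I.a 0 ^ m 0 * I.h ^ m 1 ≠ 0 :=
    mul_ne_zero (mul_ne_zero h1 (pow_ne_zero _ I.ha0)) (pow_ne_zero _ I.hh)
  refine ⟨h2, ?_⟩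
  have h3 := I.hedge m hm hw
  have h4 : ((I.F.coeff m : ℤ) : ℝ) * ((I.a 0 : ℝ) / I.b) ^ m 0 * ((I.h : ℝ) / I.g) ^ m 1 =
      I.c * ((G.coeff (m 1) : ℤ) : ℝ) := by exact_mod_cast h3
  have h5 : ((I.F.coeff m * I.a 0 ^ m 0 * I.h ^ m 1 : ℤ) : ℝ) ≠ 0 := by exact_mod_cast h2
  have h6 := c_ne I
  have h7 := g_ne I
  have h8 := b_ne I.toDatum
  rw [eq_div_iff h5, inv_mul_eq_div, div_eq_iff h6]
  push_cast
  rw [div_pow, div_pow] at h4
  field_simp at h4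
  linear_combination h4

theorem θα_ge (hp : 1 ≤ p) (I : Inst d r H S η p q Dw supp G δ) : 1 ≤ θ p δ * I.α := by
  have h1 := u0_eq hp I
  have h2 : (1 : ℝ) ≤ I.u 0 := by exact_mod_cast u_ge I.toDatum 0
  rw [← h1] at h2
  exact (one_le_pow_iff_of_nonneg (θα_pos I).le (by omega)).1 h2

theorem θα_exp (hp : 1 ≤ p) (I : Inst d r H S η p q Dw supp G δ) :
    θ p δ * I.α = Real.exp (1 / p * Real.log (I.u 0)) := by
  rw [← u0_eq hp I, Real.log_pow, ← mul_assoc]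
  have : (p : ℝ) ≠ 0 := by
    have : p ≠ 0 := by omega
    exact_mod_cast this
  rw [one_div, inv_mul_cancel₀ this, one_mul, Real.exp_log (θα_pos I)]

/-- the integral numerators of the small quantities -/
noncomputable def Inst.lam (d : ℕ) {d' : ℕ} (I : Inst d' r H S η p q Dw supp G δ) (N1 N2 : ℤ) :
    Fin r ⊕ supp → ℤ
  | .inl i => I.a i.succ * (N1 * I.b ^ d * I.g ^ d)
  | .inr m => if wt p q m = Dw then 0 else
      I.a 0 * N2 * (I.F.coeff m * I.a 0 ^ (m : Fin 2 →₀ ℕ) 0 * I.b ^ (d - (m : Fin 2 →₀ ℕ) 0) *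
        I.h ^ (m : Fin 2 →₀ ℕ) 1 * I.g ^ (d - (m : Fin 2 →₀ ℕ) 1))

/-- the smooth numerators of the small quantities -/
def Inst.rr (I : Inst d r H S η p q Dw supp G δ) : Fin r ⊕ supp → ℕ
  | .inl i => I.u i.succ * I.α ^ Dw
  | .inr m => I.u 0 * I.α ^ wt p q m

/-- the constant factors of the small quantities -/
noncomputable def ξξ (r p q Dw δ : ℕ) (supp : Finset (Fin 2 →₀ ℕ)) : Fin r ⊕ supp → ℝ
  | .inl _ => 1
  | .inr m => θ p δ ^ wt p q m / θ p δ ^ Dw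

theorem zz_eq (I : Inst d r H S η p q Dw supp G δ) (N1 N2 : ℤ) (hN1 : N1 ≠ 0)
    (hc : (I.c : ℝ)⁻¹ = (N2 : ℝ) / N1) (s : Fin r ⊕ supp) :
    I.zz s = ξξ r p q Dw δ supp s * (((I.lam d N1 N2 s : ℤ) : ℝ) * (I.rr s : ℝ) /
      (((N1 * I.b ^ d * I.g ^ d * I.a 0 : ℤ) : ℝ) * ((I.u 0 * I.α ^ Dw : ℕ) : ℝ))) := by
  have hN1' : (N1 : ℝ) ≠ 0 := by exact_mod_cast hN1
  have hb := b_ne I.toDatum
  have hg := g_ne I
  have ha := a0_ne I.toDatum
  have hu := (u0_pos I.toDatum).ne'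
  have hα : (I.α : ℝ) ≠ 0 := by have := α_ge I; linarith
  have hθ : θ p δ ≠ 0 := (θ_pos p (δ_pos I)).ne'
  rcases s with i | m
  · show I.z i = 1 * ((((I.a i.succ * (N1 * I.b ^ d * I.g ^ d) : ℤ)) : ℝ) *
      ((I.u i.succ * I.α ^ Dw : ℕ) : ℝ) / _)
    unfold Datum.z
    push_cast
    field_simp
  · by_cases hm : wt p q m = Dw
    · have h1 : I.zz (Sum.inr m) = 0 := if_pos hm
      have h2 : I.lam d N1 N2 (Sum.inr m) = 0 := if_pos hm
      rw [h1, h2, Int.cast_zero, zero_mul, zero_div, mul_zero]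
    · have h1 : I.zz (Sum.inr m) = ((I.F.coeff m : ℤ) : ℝ) * ((I.a 0 : ℝ) / I.b) ^
          (m : Fin 2 →₀ ℕ) 0 * ((I.h : ℝ) / I.g) ^ (m : Fin 2 →₀ ℕ) 1 / I.c *
          ((θ p δ * I.α) ^ wt p q m / (θ p δ * I.α) ^ Dw) := if_neg hm
      have h2 : I.lam d N1 N2 (Sum.inr m) = I.a 0 * N2 * (I.F.coeff m *
          I.a 0 ^ (m : Fin 2 →₀ ℕ) 0 * I.b ^ (d - (m : Fin 2 →₀ ℕ) 0) *
          I.h ^ (m : Fin 2 →₀ ℕ) 1 * I.g ^ (d - (m : Fin 2 →₀ ℕ) 1)) := if_neg hm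
      have h3 : I.rr (Sum.inr m) = I.u 0 * I.α ^ wt p q m := rfl
      have h4 : ξξ r p q Dw δ supp (Sum.inr m) = θ p δ ^ wt p q m / θ p δ ^ Dw := rfl
      have hms : (m : Fin 2 →₀ ℕ) ∈ I.F.support := by rw [I.hsupp]; exact m.2
      have hb2 : (I.b : ℝ) ^ d = (I.b : ℝ) ^ (d - (m : Fin 2 →₀ ℕ) 0) *
          (I.b : ℝ) ^ (m : Fin 2 →₀ ℕ) 0 := by
        rw [← pow_add]; congr 1; have := exp_le_totalDegree I.hF hms 0; omega
      have hg2 : (I.g : ℝ) ^ d = (I.g : ℝ) ^ (d - (m : Fin 2 →₀ ℕ) 1) *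
          (I.g : ℝ) ^ (m : Fin 2 →₀ ℕ) 1 := by
        rw [← pow_add]; congr 1; have := exp_le_totalDegree I.hF hms 1; omega
      rw [h1, h2, h3, h4, div_eq_mul_inv _ (I.c : ℝ), hc]
      push_cast
      rw [hb2, hg2, mul_pow, mul_pow, div_pow, div_pow]
      field_simp

end Pool.Agent.H455.VC
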