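import Mathlib
import Pool.Agent.H455.VC8

set_option autoImplicit false

/-!
# Roots of sparse polynomials: sequences of rational numbers of slow growth
-/

open Finset Filter Topology

namespace Pool.Agent.H455.RT

open Pool.Agent.TH419.WI Pool.Agent.TH419.HX Pool.Agent.H455.VC
open Pool.Agent.Results.MP_821da1_nt.LaurentDichotomy (UnitOf NoLaurentCurve Qbar)

/-- rational numbers whose numerators and denominators grow slowly -/
def SlowQ (L : ℕ → ℝ) (c : ℕ → ℚ) : Prop :=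
  ∃ N D : ℕ → ℤ, Sub L (fun t => (N t : ℝ)) ∧ Sub L (fun t => (D t : ℝ)) ∧
    ∀ t, D t ≠ 0 ∧ c t = (N t : ℚ) / (D t : ℚ)

variable {L : ℕ → ℝ}

theorem SlowQ.int (hL : Tendsto L atTop atTop) {N : ℕ → ℤ} (hN : Sub L fun t => (N t : ℝ)) :
    SlowQ L fun t => (N t : ℚ) :=
  ⟨N, fun _ => 1, hN, by simpa using Sub.const hL 1, fun t => ⟨one_ne_zero, by simp⟩⟩

theorem SlowQ.const (hL : Tendsto L atTop atTop) (c : ℚ) : SlowQ L fun _ => c :=
  ⟨fun _ => c.num, fun _ => c.den, Sub.const hL _, Sub.const hL _, fun t =>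
    ⟨Int.natCast_ne_zero.2 c.den_nz, by
      have := Rat.num_div_den c
      exact_mod_cast this.symm⟩⟩

theorem SlowQ.mul {a b : ℕ → ℚ} (ha : SlowQ L a) (hb : SlowQ L b) :
    SlowQ L fun t => a t * b t := by
  obtain ⟨N, D, h1, h2, h3⟩ := ha
  obtain ⟨N', D', h1', h2', h3'⟩ := hb
  refine ⟨fun t => N t * N' t, fun t => D t * D' t, ?_, ?_, fun t => ⟨?_, ?_⟩⟩
  · refine (h1.mul h1').mono (Eventually.of_forall fun t => ?_)
    push_cast
    exact le_rfl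
  · refine (h2.mul h2').mono (Eventually.of_forall fun t => ?_)
    push_cast
    exact le_rfl
  · exact mul_ne_zero (h3 t).1 (h3' t).1
  · beta_reduce
    rw [(h3 t).2, (h3' t).2]
    push_cast
    rw [div_mul_div_comm]

theorem Sub.add' (hL : Tendsto L atTop atTop) {f g : ℕ → ℝ} (hf : Sub L f) (hg : Sub L g) :
    Sub L fun t => f t + g t :=
  dec_zero_iff.1 (Dec.add hL (dec_zero_iff.2 hf) (dec_zero_iff.2 hg))

theorem SlowQ.add (hL : Tendsto L atTop atTop) {a b : ℕ → ℚ} (ha : SlowQ L a)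
    (hb : SlowQ L b) : SlowQ L fun t => a t + b t := by
  obtain ⟨N, D, h1, h2, h3⟩ := ha
  obtain ⟨N', D', h1', h2', h3'⟩ := hb
  refine ⟨fun t => N t * D' t + D t * N' t, fun t => D t * D' t, ?_, ?_, fun t => ⟨?_, ?_⟩⟩
  · refine (Sub.add' hL (h1.mul h2') (h2.mul h1')).mono (Eventually.of_forall fun t => ?_)
    push_cast
    exact le_rfl
  · refine (h2.mul h2').mono (Eventually.of_forall fun t => ?_)
    push_cast
    exact le_rfl
  · exact mul_ne_zero (h3 t).1 (h3' t).1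
  · beta_reduce
    rw [(h3 t).2, (h3' t).2]
    have h4 : (D t : ℚ) ≠ 0 := by exact_mod_cast (h3 t).1
    have h5 : (D' t : ℚ) ≠ 0 := by exact_mod_cast (h3' t).1
    push_cast
    rw [div_add_div _ _ h4 h5]

theorem SlowQ.inv (hL : Tendsto L atTop atTop) {a : ℕ → ℚ} (ha : SlowQ L a) :
    SlowQ L fun t => (a t)⁻¹ := by
  obtain ⟨N, D, h1, h2, h3⟩ := ha
  refine ⟨fun t => if N t = 0 then 0 else D t, fun t => if N t = 0 then 1 else N t, ?_, ?_,
    fun t => ⟨?_, ?_⟩⟩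
  · refine h2.mono (Eventually.of_forall fun t => ?_)
    beta_reduce
    split_ifs
    · simp
    · exact le_rfl
  · refine (Sub.add' hL (Sub.const hL 1) (h1.mul h1)).mono (Eventually.of_forall fun t => ?_)
    beta_reduce
    have hnn : (0 : ℝ) ≤ (N t : ℝ) * N t := mul_self_nonneg _
    rw [abs_of_nonneg (by linarith : (0 : ℝ) ≤ 1 + (N t : ℝ) * N t)]
    split_ifs with h
    · simp only [Int.cast_one, abs_one]
      linarith
    · rw [← sq, ← sq_abs]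
      nlinarith [sq_nonneg (|(N t : ℝ)| - 1), abs_nonneg (N t : ℝ)]
  · beta_reduce
    split_ifs with h
    · exact one_ne_zero
    · exact h
  · beta_reduce
    rw [(h3 t).2]
    split_ifs with h
    · rw [h]
      simp
    · rw [inv_div]

theorem SlowQ.div (hL : Tendsto L atTop atTop) {a b : ℕ → ℚ} (ha : SlowQ L a)
    (hb : SlowQ L b) : SlowQ L fun t => a t / b t := by
  have h := ha.mul (hb.inv hL)
  simpa only [div_eq_mul_inv] using h

theorem SlowQ.pow (hL : Tendsto L atTop atTop) {a : ℕ → ℚ} (ha : SlowQ L a) (n : ℕ) :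
    SlowQ L fun t => a t ^ n := by
  induction n with
  | zero => simpa using SlowQ.const hL 1
  | succ n ih =>
    have := ih.mul ha
    simpa only [← pow_succ] using this

theorem SlowQ.sum (hL : Tendsto L atTop atTop) {ι : Type} (s : Finset ι) {a : ι → ℕ → ℚ}
    (h : ∀ i ∈ s, SlowQ L (a i)) : SlowQ L fun t => ∑ i ∈ s, a i t := by
  classical
  induction s using Finset.induction_on with
  | empty => simpa using SlowQ.const hL 0
  | insert i s hi ih =>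
    have h1 := SlowQ.add hL (h i (Finset.mem_insert_self i s))
      (ih fun j hj => h j (Finset.mem_insert_of_mem hj))
    simpa only [Finset.sum_insert hi] using h1

theorem SlowQ.prod (hL : Tendsto L atTop atTop) {ι : Type} (s : Finset ι) {a : ι → ℕ → ℚ}
    (h : ∀ i ∈ s, SlowQ L (a i)) : SlowQ L fun t => ∏ i ∈ s, a i t := by
  classical
  induction s using Finset.induction_on with
  | empty => simpa using SlowQ.const hL 1
  | insert i s hi ih =>
    have h1 := (h i (Finset.mem_insert_self i s)).mul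
      (ih fun j hj => h j (Finset.mem_insert_of_mem hj))
    simpa only [Finset.prod_insert hi] using h1

theorem SlowQ.congr {a b : ℕ → ℚ} (ha : SlowQ L a) (h : ∀ t, b t = a t) : SlowQ L b := by
  obtain ⟨N, D, h1, h2, h3⟩ := ha
  exact ⟨N, D, h1, h2, fun t => ⟨(h3 t).1, (h t).trans (h3 t).2⟩⟩

theorem SlowQ.comp {a : ℕ → ℚ} (ha : SlowQ L a) {ψ : ℕ → ℕ} (hψ : Tendsto ψ atTop atTop) :
    SlowQ (L ∘ ψ) (a ∘ ψ) := by
  obtain ⟨N, D, h1, h2, h3⟩ := ha
  exact ⟨N ∘ ψ, D ∘ ψ, h1.comp hψ, h2.comp hψ, fun t => h3 (ψ t)⟩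

theorem SlowQ.sub {a : ℕ → ℚ} (ha : SlowQ L a) : Sub L fun t => (a t : ℝ) := by
  obtain ⟨N, D, h1, h2, h3⟩ := ha
  refine h1.mono (Eventually.of_forall fun t => ?_)
  rw [(h3 t).2]
  push_cast
  rw [abs_div]
  have h4 : (1 : ℝ) ≤ |(D t : ℝ)| := by
    have : 1 ≤ |D t| := Int.one_le_abs (h3 t).1
    exact_mod_cast this
  exact div_le_self (abs_nonneg _) h4

/-- the integers `y t` are sums of almost units -/
def Rel (S : Finset ℕ) (L : ℕ → ℝ) (y : ℕ → ℤ) : Prop :=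
  ∃ (N : ℕ) (v : ℕ → Fin N → ℚ) (c : ℕ → Fin N → ℚ), (∀ t j, UnitOf S (v t j)) ∧
    (∀ j, SlowQ L fun t => c t j) ∧ ∀ t, (y t : ℚ) = ∑ j, c t j * v t j

theorem Rel.comp {S : Finset ℕ} {y : ℕ → ℤ} (h : Rel S L y) {ψ : ℕ → ℕ}
    (hψ : Tendsto ψ atTop atTop) : Rel S (L ∘ ψ) (y ∘ ψ) := by
  obtain ⟨N, v, c, h1, h2, h3⟩ := h
  exact ⟨N, fun t => v (ψ t), fun t => c (ψ t), fun t j => h1 _ j, fun j => (h2 j).comp hψ,
    fun t => h3 _⟩

theorem unitOf_one (S : Finset ℕ) : UnitOf S 1 := ⟨fun _ => 0, by simp⟩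

/-- small integers -/
theorem Rel.of_sub (hL : Tendsto L atTop atTop) {S : Finset ℕ} {y : ℕ → ℤ}
    (h : Sub L fun t => (y t : ℝ)) : Rel S L y :=
  ⟨1, fun _ _ => 1, fun t _ => y t, fun _ _ => unitOf_one S, fun _ => SlowQ.int hL h,
    fun t => by simp⟩

/-- sequences from frequent relations -/
theorem rel_of_freq {S : Finset ℕ} (hS : ∀ p ∈ S, p.Prime)
    (hL : Tendsto L atTop atTop) (y : ℕ → ℤ) (Y : ℕ → ℤ) (D0 : ℕ → ℤ) (s0 : ℕ → ℕ)
    (hD0 : ∀ t, D0 t ≠ 0) (hD0S : Sub L fun t => (D0 t : ℝ)) (hs0 : ∀ t, Smooth S (s0 t))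
    (hY : ∀ t, Y t = D0 t * (s0 t : ℤ) * y t) (N : ℕ)
    (h : ∀ ε : ℝ, 0 < ε → ∃ᶠ t in atTop, ∃ (E : ℤ) (v : Fin N → ℚ) (c : Fin N → ℤ),
      E ≠ 0 ∧ |(E : ℝ)| ≤ Real.exp (ε * L t) ∧ (∀ j, UnitOf S (v j)) ∧
      (∀ j, |(c j : ℝ)| ≤ Real.exp (ε * L t)) ∧ (E : ℚ) * Y t = ∑ j, (c j : ℚ) * v j) :
    ∃ ψ : ℕ → ℕ, StrictMono ψ ∧ Rel S (L ∘ ψ) (y ∘ ψ) := by
  obtain ⟨ψ, hψ, hψ'⟩ := Filter.extraction_forall_of_frequently
    (P := fun n t => ∃ (E : ℤ) (v : Fin N → ℚ) (c : Fin N → ℤ),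
      E ≠ 0 ∧ |(E : ℝ)| ≤ Real.exp (1 / ((n : ℝ) + 1) * L t) ∧ (∀ j, UnitOf S (v j)) ∧
      (∀ j, |(c j : ℝ)| ≤ Real.exp (1 / ((n : ℝ) + 1) * L t)) ∧
        (E : ℚ) * Y t = ∑ j, (c j : ℚ) * v j)
    (fun n => h (1 / ((n : ℝ) + 1)) (by positivity))
  choose E v c hE hEb hv hcb hrel using hψ'
  have hψt := hψ.tendsto_atTop
  have hLψ : Tendsto (L ∘ ψ) atTop atTop := hL.comp hψt
  have hsub : ∀ f : ℕ → ℝ, (∀ n, |f n| ≤ Real.exp (1 / ((n : ℝ) + 1) * L (ψ n))) →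
      Sub (L ∘ ψ) f := by
    intro f hf ε hε
    obtain ⟨k, hk⟩ := exists_nat_one_div_lt hε
    filter_upwards [eventually_ge_atTop k, hLψ.eventually_ge_atTop 0] with n hn hn2
    refine (hf n).trans (Real.exp_le_exp.2 (mul_le_mul_of_nonneg_right ?_ hn2))
    refine le_trans ?_ hk.le
    apply one_div_le_one_div_of_le (by positivity)
    have : (k : ℝ) ≤ n := by exact_mod_cast hn
    linarith
  have hES : Sub (L ∘ ψ) fun n => (E n : ℝ) := hsub _ hEb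
  have hcS : ∀ j, Sub (L ∘ ψ) fun n => (c n j : ℝ) := fun j => hsub _ fun n => hcb n j
  have hDS : Sub (L ∘ ψ) fun n => (D0 (ψ n) : ℝ) := hD0S.comp hψt
  refine ⟨ψ, hψ, N, fun n j => v n j / (s0 (ψ n) : ℚ), fun n j => (c n j : ℚ) / (E n * D0 (ψ n)),
    fun n j => unitOf_div (fun p hp => (hS p hp).ne_zero) (hv n j) (unitOf_smooth (hs0 _)),
    fun j => ?_, fun n => ?_⟩
  · exact SlowQ.div hLψ (SlowQ.int hLψ (hcS j)) ((SlowQ.int hLψ hES).mul (SlowQ.int hLψ hDS))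
  · have h1 := hrel n
    rw [hY] at h1
    have h2 : (E n : ℚ) ≠ 0 := by exact_mod_cast hE n
    have h3 : (D0 (ψ n) : ℚ) ≠ 0 := by exact_mod_cast hD0 _
    have h4 : (s0 (ψ n) : ℚ) ≠ 0 := by exact_mod_cast (hs0 _).1
    have h5 : ∑ j, (c n j : ℚ) / (E n * D0 (ψ n)) * (v n j / (s0 (ψ n) : ℚ)) =
        (∑ j, (c n j : ℚ) * v n j) / (E n * D0 (ψ n) * s0 (ψ n)) := by
      rw [Finset.sum_div]
      refine Finset.sum_congr rfl fun j _ => ?_
      field_simp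
    rw [h5, ← h1, Function.comp_apply]
    push_cast
    field_simp

end Pool.Agent.H455.RT
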