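import Mathlib
import Pool.Agent.H455.VC8

set_option autoImplicit false

/-!
# Integral points with one sparse coordinate: sequences of points on one edge, the theorem
-/

open Finset Filter Topology

namespace Pool.Agent.H455.VC

open Pool.Agent.TH419.WI Pool.Agent.TH419.HX
open Pool.Agent.Results.MP_821da1_nt.LaurentDichotomy (UnitOf NoLaurentCurve Qbar)

variable {d r H : ℕ} {S : Finset ℕ} {η : ℝ}
variable {p q Dw : ℕ} {supp : Finset (Fin 2 →₀ ℕ)} {G : Polynomial ℤ} {δ : ℕ}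

/-- the field of the real algebraic numbers -/
abbrev KA : Type := algebraicClosure ℚ ℝ

/-- the equation of the reduced ordinate -/
noncomputable def PhiPoly (r p q Dw : ℕ) (supp : Finset (Fin 2 →₀ ℕ)) (G : Polynomial ℤ) :
    Polynomial (MvPolynomial (Fin r ⊕ supp) KA) :=
  ∑ m : supp, Polynomial.C ((if wt p q m = Dw then
      MvPolynomial.C ((G.coeff ((m : Fin 2 →₀ ℕ) 1) : ℤ) : KA) else MvPolynomial.X (Sum.inr m)) *
      (1 + ∑ i, MvPolynomial.X (Sum.inl i)) ^ (m : Fin 2 →₀ ℕ) 0) *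
    Polynomial.X ^ (m : Fin 2 →₀ ℕ) 1

theorem phi_const (hp : 1 ≤ p)
    (hcover : ∀ k, G.coeff k ≠ 0 → ∃ m ∈ supp, wt p q m = Dw ∧ m 1 = k) :
    (PhiPoly r p q Dw supp G).map MvPolynomial.constantCoeff = G.map (Int.castRingHom KA) := by
  classical
  have h1 : (PhiPoly r p q Dw supp G).map MvPolynomial.constantCoeff = ∑ m : supp,
      Polynomial.C (if wt p q m = Dw then ((G.coeff ((m : Fin 2 →₀ ℕ) 1) : ℤ) : KA) else 0) *
        Polynomial.X ^ (m : Fin 2 →₀ ℕ) 1 := by
    rw [PhiPoly, Polynomial.map_sum]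
    refine Finset.sum_congr rfl fun m _ => ?_
    rw [Polynomial.map_mul, Polynomial.map_pow, Polynomial.map_X, Polynomial.map_C]
    congr 2
    rw [RingHom.map_mul, RingHom.map_pow, RingHom.map_add, RingHom.map_one, map_sum]
    simp only [MvPolynomial.constantCoeff_X, Finset.sum_const_zero, add_zero, one_pow, mul_one]
    split_ifs
    · rw [MvPolynomial.constantCoeff_C]
    · rw [MvPolynomial.constantCoeff_X]
  rw [h1]
  ext k
  rw [Polynomial.finsetSum_coeff, Polynomial.coeff_map, eq_intCast]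
  simp only [Polynomial.coeff_C_mul, Polynomial.coeff_X_pow]
  by_cases hk : G.coeff k = 0
  · rw [hk, Int.cast_zero]
    refine congrArg _ (Finset.sum_eq_zero fun m _ => ?_)
    split_ifs with h2 h3
    · rw [← h3, hk]; simp
    · simp
    · simp
    · simp
  · obtain ⟨m, hm, hw, hmk⟩ := hcover k hk
    refine congrArg _ ?_
    rw [Finset.sum_eq_single (⟨m, hm⟩ : supp)]
    · rw [if_pos hw, hmk, if_pos rfl, mul_one]
    · intro m' _ hne
      by_cases h2 : wt p q m' = Dw
      · rw [if_pos h2, if_neg, mul_zero]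
        intro h3
        apply hne
        apply Subtype.ext
        have h4 : p * (m' : Fin 2 →₀ ℕ) 0 + q * (m' : Fin 2 →₀ ℕ) 1 = p * m 0 + q * m 1 :=
          h2.trans hw.symm
        rw [← h3, hmk] at h4
        have h5 : (m' : Fin 2 →₀ ℕ) 0 = m 0 := by
          have h6 : p * (m' : Fin 2 →₀ ℕ) 0 = p * m 0 := by omega
          exact Nat.eq_of_mul_eq_mul_left (by omega) h6
        ext j
        fin_cases j
        · exact h5
        · show (m' : Fin 2 →₀ ℕ) 1 = m 1
          rw [hmk, ← h3]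
      · rw [if_neg h2, zero_mul]
    · intro h2
      exact absurd (Finset.mem_univ _) h2

/-- the values of the equation of the reduced ordinate -/
theorem phi_eval (f : MvPolynomial (Fin r ⊕ supp) KA →+* ℝ) (z : Fin r ⊕ supp → ℝ)
    (hfC : ∀ n : ℤ, f (MvPolynomial.C (n : KA)) = n) (hfX : ∀ s, f (MvPolynomial.X s) = z s)
    (W : ℝ) : Polynomial.eval₂ f W (PhiPoly r p q Dw supp G) =
      ∑ m : supp, (if wt p q m = Dw then ((G.coeff ((m : Fin 2 →₀ ℕ) 1) : ℤ) : ℝ) else
        z (Sum.inr m)) * (1 + ∑ i, z (Sum.inl i)) ^ (m : Fin 2 →₀ ℕ) 0 *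
        W ^ (m : Fin 2 →₀ ℕ) 1 := by
  rw [PhiPoly, Polynomial.eval₂_finsetSum]
  refine Finset.sum_congr rfl fun m _ => ?_
  rw [Polynomial.eval₂_mul, Polynomial.eval₂_C, Polynomial.eval₂_pow, Polynomial.eval₂_X,
    RingHom.map_mul, RingHom.map_pow, RingHom.map_add, RingHom.map_one, map_sum]
  congr 2
  · split_ifs
    · exact hfC _
    · exact hfX _
  · congr 2
    exact Finset.sum_congr rfl fun i _ => hfX _

theorem θα_powq (hp : 1 ≤ p) (I : Inst d r H S η p q Dw supp G δ) :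
    ((θ p δ * I.α) ^ q) ^ p = (I.u 0 : ℝ) ^ q := by
  rw [← pow_mul, mul_comm q p, pow_mul, u0_eq hp I]

/-- **The core of the proof.** -/
theorem core (hη : 0 < η) (hS : ∀ p ∈ S, p.Prime) (hp : 1 ≤ p)
    (hDw : ∀ m ∈ supp, wt p q m ≤ Dw) (l : ℕ) (E : Polynomial ℤ)
    (hG : G = Polynomial.X ^ l * E) (hsq : Squarefree (E.map (Int.castRingHom ℚ)))
    (hcover : ∀ k, G.coeff k ≠ 0 → ∃ m ∈ supp, wt p q m = Dw ∧ m 1 = k)
    (I : ℕ → Inst d r H S η p q Dw supp G δ)
    (hbig : Tendsto (fun t => (I t).toDatum.ratio) atTop atTop) (hy0 : ∀ t, (I t).y ≠ 0)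
    (hy1 : Sub (fun t => Real.log ((I t).u 0))
      (fun t => |((I t).y : ℝ)| ^ p / ((I t).u 0 : ℝ) ^ q))
    (hy2 : Sub (fun t => Real.log ((I t).u 0))
      (fun t => ((I t).u 0 : ℝ) ^ q / |((I t).y : ℝ)| ^ p))
    (hlim : Tendsto (fun t => Polynomial.aeval ((I t).W) E) atTop (𝓝 (0 : ℝ)) →
      ∃ ω : ℝ, Tendsto (fun t => (I t).W) atTop (𝓝 ω)) : False := by
  classical
  obtain ⟨hL, hMS, -⟩ := sizes' hη (fun t => (I t).toDatum) hbig
  obtain ⟨L, hLd⟩ : ∃ L : ℕ → ℝ, L = fun t => Real.log ((I t).u 0) := ⟨_, rfl⟩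
  have hzdec := z_dec (fun t => (I t).toDatum) hL hMS
  rw [← hLd] at hL hMS hy1 hy2
  have hLt : ∀ t, Real.log ((I t).u 0) = L t := fun t => by rw [hLd]
  -- subexponential sequences
  have bd : ∀ f : ℕ → ℤ, (∀ t, |(f t : ℝ)| ≤ (I t).M) → Sub L fun t => (f t : ℝ) := by
    intro f hf
    refine hMS.mono (Eventually.of_forall fun t => ?_)
    have := (I t).hM
    rw [abs_of_nonneg (by linarith : (0 : ℝ) ≤ (I t).M)]
    exact hf t
  have haS : ∀ i, Sub L fun t => ((I t).a i : ℝ) := fun i => bd _ fun t => (I t).ha i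
  have hbS : Sub L fun t => ((I t).b : ℝ) := bd _ fun t => (I t).hb
  have hgS : Sub L fun t => ((I t).g : ℝ) := bd _ fun t => (I t).hgM
  have hhS : Sub L fun t => ((I t).h : ℝ) := bd _ fun t => (I t).hhM
  have hFS : ∀ m, Sub L fun t => (((I t).F.coeff m : ℤ) : ℝ) := fun m =>
    bd (fun t => (I t).F.coeff m) fun t => (I t).hcoef m
  -- a monomial on the edge
  have hE0 : E ≠ 0 := by
    rintro rfl
    rw [Polynomial.map_zero] at hsq
    exact hsq.ne_zero rfl
  have hG0 : G ≠ 0 := by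
    rw [hG]
    exact mul_ne_zero (pow_ne_zero _ Polynomial.X_ne_zero) hE0
  obtain ⟨k, hk⟩ : ∃ k, G.coeff k ≠ 0 := by
    by_contra hcon
    push Not at hcon
    exact hG0 (Polynomial.ext fun n => by rw [hcon n, Polynomial.coeff_zero])
  obtain ⟨ms, hms, hmw, -⟩ := hcover k hk
  obtain ⟨N1, hN1⟩ : ∃ N1 : ℕ → ℤ, N1 = fun t => (I t).F.coeff ms * (I t).a 0 ^ ms 0 *
    (I t).h ^ ms 1 := ⟨_, rfl⟩
  obtain ⟨N2, hN2⟩ : ∃ N2 : ℕ → ℤ, N2 = fun t => G.coeff (ms 1) * (I t).b ^ ms 0 *
    (I t).g ^ ms 1 := ⟨_, rfl⟩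
  have hc : ∀ t, N1 t ≠ 0 ∧ ((I t).c : ℝ)⁻¹ = (N2 t : ℝ) / N1 t := by
    intro t
    rw [hN1, hN2]
    exact c_inv (I t) ms hms hmw
  have hN1S : Sub L fun t => (N1 t : ℝ) := by
    rw [hN1]
    have h1 := ((hFS ms).mul ((haS 0).pow hL (ms 0))).mul (hhS.pow hL (ms 1))
    refine h1.mono (Eventually.of_forall fun t => ?_)
    push_cast
    exact le_rfl
  have hN2S : Sub L fun t => (N2 t : ℝ) := by
    rw [hN2]
    have h1 := ((Sub.const hL ((G.coeff (ms 1) : ℤ) : ℝ)).mul (hbS.pow hL (ms 0))).mul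
      (hgS.pow hL (ms 1))
    refine h1.mono (Eventually.of_forall fun t => ?_)
    push_cast
    exact le_rfl
  -- the rate of decay
  have hp0 : (0 : ℝ) < p := by exact_mod_cast (by omega : 0 < p)
  obtain ⟨δ0, hδ0d⟩ : ∃ δ0 : ℝ, δ0 = min η (1 / p) := ⟨_, rfl⟩
  have hδ0 : 0 < δ0 := by rw [hδ0d]; exact lt_min hη (by positivity)
  have hzz : ∀ s : Fin r ⊕ supp, Dec L δ0 fun t => (I t).zz s := by
    intro s
    rcases s with i | m
    · have h1 := hzdec i
      rw [← hLd] at h1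
      exact h1.mono_exp (by rw [hδ0d]; exact min_le_left _ _)
    · by_cases hm : wt p q m = Dw
      · intro δ' _
        refine Eventually.of_forall fun t => ?_
        have h1 : (I t).zz (Sum.inr m) = 0 := if_pos hm
        simp only [h1, abs_zero]
        exact (Real.exp_pos _).le
      · have hlt : wt p q m + 1 ≤ Dw := by
          have := hDw m m.2
          omega
        have h1 : Dec L (0 + 1 / p) fun t => ((((I t).F.coeff m : ℤ) : ℝ) * ((I t).a 0 : ℝ) ^
            (m : Fin 2 →₀ ℕ) 0 * ((I t).h : ℝ) ^ (m : Fin 2 →₀ ℕ) 1 * (N2 t : ℝ)) *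
            Real.exp (-(1 / p * L t)) :=
          Dec.mul (dec_zero_iff.2 ((((hFS m).mul ((haS 0).pow hL _)).mul (hhS.pow hL _)).mul
            hN2S)) (dec_exp hL _)
        rw [zero_add] at h1
        refine (h1.mono (Eventually.of_forall fun t => ?_)).mono_exp (by
          rw [hδ0d]; exact min_le_right _ _)
        have h2 : (I t).zz (Sum.inr m) = (((I t).F.coeff m : ℤ) : ℝ) * (((I t).a 0 : ℝ) /
            (I t).b) ^ (m : Fin 2 →₀ ℕ) 0 * (((I t).h : ℝ) / (I t).g) ^ (m : Fin 2 →₀ ℕ) 1 /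
            (I t).c * ((θ p δ * (I t).α) ^ wt p q m / (θ p δ * (I t).α) ^ Dw) := if_neg hm
        have hθ1 := θα_ge hp (I t)
        have hθ := θα_pos (I t)
        have h3 : (θ p δ * ((I t).α : ℝ)) ^ wt p q m / (θ p δ * (I t).α) ^ Dw ≤
            Real.exp (-(1 / p * L t)) := by
          rw [Real.exp_neg, div_le_iff₀ (by positivity), ← hLt t, ← θα_exp hp (I t),
            inv_mul_eq_div, le_div_iff₀ hθ, ← pow_succ]
          exact pow_le_pow_right₀ hθ1 hlt
        have hb1 := b_ge (I t).toDatum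
        have hg1 : (1 : ℝ) ≤ |((I t).g : ℝ)| := by
          have : 1 ≤ |(I t).g| := Int.one_le_abs (I t).hg
          exact_mod_cast this
        have hN11 : (1 : ℝ) ≤ |(N1 t : ℝ)| := by
          have : 1 ≤ |N1 t| := Int.one_le_abs (hc t).1
          exact_mod_cast this
        have h4 : |((((I t).F.coeff m : ℤ) : ℝ) * (((I t).a 0 : ℝ) /
            (I t).b) ^ (m : Fin 2 →₀ ℕ) 0 * (((I t).h : ℝ) / (I t).g) ^ (m : Fin 2 →₀ ℕ) 1 /
            (I t).c)| ≤ |((((I t).F.coeff m : ℤ) : ℝ) * ((I t).a 0 : ℝ) ^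
            (m : Fin 2 →₀ ℕ) 0 * ((I t).h : ℝ) ^ (m : Fin 2 →₀ ℕ) 1 * (N2 t : ℝ))| := by
          rw [div_eq_mul_inv, (hc t).2]
          simp only [abs_mul, abs_div, abs_pow]
          have e1 : |((I t).a 0 : ℝ)| / |((I t).b : ℝ)| ≤ |((I t).a 0 : ℝ)| :=
            div_le_self (abs_nonneg _) hb1
          have e2 : |((I t).h : ℝ)| / |((I t).g : ℝ)| ≤ |((I t).h : ℝ)| :=
            div_le_self (abs_nonneg _) hg1
          have e3 : |(N2 t : ℝ)| / |(N1 t : ℝ)| ≤ |(N2 t : ℝ)| :=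
            div_le_self (abs_nonneg _) hN11
          gcongr
        rw [h2, abs_mul, abs_mul]
        refine mul_le_mul h4 ?_ (abs_nonneg _) (abs_nonneg _)
        rw [abs_of_nonneg (by positivity), abs_of_pos (Real.exp_pos _)]
        exact h3
  let z : Fin r ⊕ supp → SR L hL := fun s =>
    ⟨fun t => (I t).zz s, (hzz s).mono_exp hδ0.le⟩
  have hz : ∀ s, z s ∈ SI L hL δ0 := fun s => hzz s
  -- the reduced ordinate
  have hWS : Sub L fun t => (I t).W := by
    refine Sub.of_pow hL hp ?_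
    refine ((hgS.pow hL p).mul hy1).mono (Eventually.of_forall fun t => ?_)
    have hh1 : (1 : ℝ) ≤ |((I t).h : ℝ)| := by
      have : 1 ≤ |(I t).h| := Int.one_le_abs (I t).hh
      exact_mod_cast this
    have hθ := θα_pos (I t)
    have hu := u0_pos (I t).toDatum
    have h1 : |(I t).W| ^ p = |((I t).g : ℝ)| ^ p * |((I t).y : ℝ)| ^ p /
        (|((I t).h : ℝ)| ^ p * ((I t).u 0 : ℝ) ^ q) := by
      unfold Inst.W
      rw [abs_div, abs_mul, abs_mul, abs_of_pos (pow_pos hθ q), div_pow, mul_pow, mul_pow,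
        θα_powq hp]
    rw [h1, abs_of_nonneg (by positivity), abs_mul, abs_pow,
      abs_of_nonneg (by positivity : (0 : ℝ) ≤ |((I t).y : ℝ)| ^ p / ((I t).u 0 : ℝ) ^ q)]
    rw [← mul_div_assoc]
    apply div_le_div_of_nonneg_left (by positivity) (by positivity)
    exact le_mul_of_one_le_left (by positivity) (one_le_pow₀ hh1)
  have hVS : Sub L fun t => ((I t).W)⁻¹ := by
    refine Sub.of_pow hL hp ?_
    refine ((hhS.pow hL p).mul hy2).mono (Eventually.of_forall fun t => ?_)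
    have hg1 : (1 : ℝ) ≤ |((I t).g : ℝ)| := by
      have : 1 ≤ |(I t).g| := Int.one_le_abs (I t).hg
      exact_mod_cast this
    have hθ := θα_pos (I t)
    have hu := u0_pos (I t).toDatum
    have hy : 0 < |((I t).y : ℝ)| := abs_pos.2 (by exact_mod_cast hy0 t)
    have h1 : |((I t).W)⁻¹| ^ p = |((I t).h : ℝ)| ^ p * ((I t).u 0 : ℝ) ^ q /
        (|((I t).g : ℝ)| ^ p * |((I t).y : ℝ)| ^ p) := by
      unfold Inst.W
      rw [inv_div, abs_div, abs_mul, abs_mul, abs_of_pos (pow_pos hθ q), div_pow,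
        mul_pow (|((I t).h : ℝ)|), mul_pow (|((I t).g : ℝ)|), θα_powq hp]
    rw [h1, abs_of_nonneg (by positivity), abs_mul, abs_pow,
      abs_of_nonneg (by positivity : (0 : ℝ) ≤ ((I t).u 0 : ℝ) ^ q / |((I t).y : ℝ)| ^ p)]
    rw [← mul_div_assoc]
    apply div_le_div_of_nonneg_left (by positivity) (by positivity)
    exact le_mul_of_one_le_left (by positivity) (one_le_pow₀ hg1)
  have hW0 : ∀ t, (I t).W ≠ 0 := by
    intro t
    unfold Inst.W
    exact div_ne_zero (mul_ne_zero (g_ne _) (by exact_mod_cast hy0 t))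
      (mul_ne_zero (h_ne _) (pow_ne_zero _ (θα_pos (I t)).ne'))
  let W : SR L hL := ⟨fun t => (I t).W, dec_zero_iff.2 hWS⟩
  let V : SR L hL := ⟨fun t => ((I t).W)⁻¹, dec_zero_iff.2 hVS⟩
  have hWV : V * W = 1 := by
    apply Subtype.ext
    funext t
    show ((I t).W)⁻¹ * (I t).W = 1
    exact inv_mul_cancel₀ (hW0 t)
  -- the equation
  obtain ⟨φ, hφ⟩ : ∃ φ : KA →+* ℝ, φ = algebraMap KA ℝ := ⟨_, rfl⟩
  have hatp : ∀ t, Polynomial.eval₂ ((atp hL t).comp (evh hL φ z)) ((I t).W)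
      (PhiPoly r p q Dw supp G) = 0 := by
    intro t
    rw [phi_eval _ (fun s => (I t).zz s)]
    · exact equation hp (I t)
    · intro n
      rw [RingHom.comp_apply, atp_evh, MvPolynomial.eval₂_C, map_intCast]
    · intro s
      rw [RingHom.comp_apply, atp_evh, MvPolynomial.eval₂_X]
  have hΦ : ((PhiPoly r p q Dw supp G).map (evh hL φ z)).eval W = 0 := by
    apply Subtype.ext
    funext t
    show atp hL t _ = 0
    rw [Polynomial.eval_map, Polynomial.hom_eval₂]
    exact hatp t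
  have hconst := phi_const (r := r) hp hcover
  -- the polynomial `E` is small at the reduced ordinate
  have hGW : Polynomial.eval₂ (Int.castRingHom (SR L hL)) W G ∈ SI L hL δ0 := by
    rw [← Ideal.Quotient.eq_zero_iff_mem]
    have h1 := congrArg (Ideal.Quotient.mk (SI L hL δ0)) hΦ
    rw [map_zero, Polynomial.eval_map, Polynomial.hom_eval₂, mk_evh hL φ z hz,
      ← Polynomial.eval₂_map, hconst, Polynomial.eval₂_map] at h1
    rw [Polynomial.hom_eval₂, ← h1]
    congr 1
    exact RingHom.ext_int _ _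
  have hEW : Polynomial.eval₂ (Int.castRingHom (SR L hL)) W E ∈ SI L hL δ0 := by
    have h1 := (SI L hL δ0).mul_mem_left (V ^ l) hGW
    rw [hG, Polynomial.eval₂_mul, Polynomial.eval₂_pow, Polynomial.eval₂_X, ← mul_assoc,
      ← mul_pow, hWV, one_pow, one_mul] at h1
    exact h1
  have hEdec : Dec L δ0 fun t => Polynomial.aeval ((I t).W) E := by
    have h1 := mem_SI hL |>.1 hEW
    refine h1.mono (Eventually.of_forall fun t => ?_)
    have h2 : ((Polynomial.eval₂ (Int.castRingHom (SR L hL)) W E : SR L hL) : ℕ → ℝ) t =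
        Polynomial.aeval ((I t).W) E := by
      rw [← atp_apply, Polynomial.hom_eval₂, Polynomial.aeval_def]
      congr 1
    rw [h2]
  obtain ⟨ω, hω⟩ := hlim (hEdec.tendsto hL hδ0)
  obtain ⟨hω0, hωdec, hωd, hωalg⟩ := root_lim hL hδ0 E hsq _ ω hω hEdec
  have hωne : ω ≠ 0 := by
    intro h0
    have h1 : Dec L (0 + δ0) fun t => ((I t).W)⁻¹ * ((I t).W - ω) :=
      Dec.mul (dec_zero_iff.2 hVS) hωdec
    rw [zero_add, h0] at h1
    have h2 : (fun t => ((I t).W)⁻¹ * ((I t).W - 0)) = fun _ => (1 : ℝ) := by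
      funext t
      rw [sub_zero, inv_mul_cancel₀ (hW0 t)]
    rw [h2] at h1
    exact one_ne_zero (dec_const_eq_zero hL hδ0 h1)
  obtain ⟨ωK, hωK⟩ : ∃ ωK : KA, φ ωK = ω := by
    rw [hφ]
    exact ⟨⟨ω, mem_algebraicClosure_iff.2 hωalg⟩, rfl⟩
  have hd : (((PhiPoly r p q Dw supp G).map MvPolynomial.constantCoeff).derivative.eval ωK) ≠ 0 := by
    rw [hconst, Polynomial.derivative_map]
    intro h0
    have h1 := congrArg φ h0
    rw [map_zero, Polynomial.eval_map, Polynomial.hom_eval₂, hωK] at h1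
    have h2 : Polynomial.eval₂ (φ.comp (Int.castRingHom KA)) ω (Polynomial.derivative G) =
        Polynomial.aeval ω (Polynomial.derivative G) := by
      rw [Polynomial.aeval_def]
      congr 1
      exact RingHom.ext_int _ _
    rw [h2, hG, Polynomial.derivative_mul, map_add, map_mul, map_mul, hω0, mul_zero, zero_add,
      map_pow, Polynomial.aeval_X] at h1
    exact (mul_ne_zero (pow_ne_zero _ hωne) hωd) h1
  -- the approximation
  obtain ⟨n, hn⟩ := exists_nat_ge (((q : ℝ) / p + 2) / δ0)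
  rw [div_le_iff₀ hδ0] at hn
  obtain ⟨P, hP⟩ := newton hL φ z hδ0 hz (PhiPoly r p q Dw supp G) W ωK hΦ
    (by rw [hωK]; exact hωdec) hd n
  have hC0 : (0 : ℝ) ≤ 1 + Dw + q := by positivity
  have hu1 : ∀ t, (1 : ℝ) ≤ (I t).u 0 := fun t => by exact_mod_cast u_ge (I t).toDatum 0
  have hL0 : ∀ t, 0 ≤ L t := fun t => by rw [← hLt t]; exact Real.log_nonneg (hu1 t)
  have huL : ∀ t, ((I t).u 0 : ℝ) = Real.exp (L t) := fun t => by
    rw [← hLt t, Real.exp_log (u0_pos (I t).toDatum)]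
  have hui : ∀ t (i : Fin r), ((I t).u i.succ : ℝ) ≤ (I t).u 0 := by
    intro t i
    refine ((I t).hdom _ (Fin.succ_ne_zero i)).trans ?_
    calc ((I t).u 0 : ℝ) ^ (1 - η) ≤ ((I t).u 0 : ℝ) ^ (1 : ℝ) :=
          Real.rpow_le_rpow_of_exponent_le (hu1 t) (by linarith)
      _ = (I t).u 0 := Real.rpow_one _
  have hpow : ∀ t (k : ℕ), k ≤ Dw → ((I t).u 0 : ℝ) * ((I t).α : ℝ) ^ k ≤
      Real.exp ((1 + Dw + q) * L t) := by
    intro t k hk
    have h1 := α_le hp (I t)
    have h2 := α_ge (I t)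
    calc ((I t).u 0 : ℝ) * ((I t).α : ℝ) ^ k ≤ (I t).u 0 * ((I t).u 0 : ℝ) ^ k :=
          mul_le_mul_of_nonneg_left (pow_le_pow_left₀ (by positivity) h1 _) (by positivity)
      _ = ((I t).u 0 : ℝ) ^ (k + 1) := by rw [pow_succ']
      _ = Real.exp ((k + 1) * L t) := by
          rw [huL t, ← Real.exp_nat_mul]; push_cast; rfl
      _ ≤ Real.exp ((1 + Dw + q) * L t) := by
          apply Real.exp_le_exp.2
          apply mul_le_mul_of_nonneg_right _ (hL0 t)
          have h3 : (k : ℝ) ≤ Dw := by exact_mod_cast hk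
          have h4 : (0 : ℝ) ≤ q := by positivity
          linarith
  obtain ⟨N, hN⟩ := polyUnits φ (fun x => by rw [hφ]; exact mem_algebraicClosure_iff.1 x.2) S hS
    (1 + Dw + q) 1 hC0 one_pos L hL P (ξξ r p q Dw δ supp)
    (by
      intro s
      rcases s with i | m
      · exact isAlgebraic_one
      · exact ((θ_alg hp δ).pow _).mul ((θ_alg hp δ).pow _).inv)
    (θ p δ ^ q) ((θ_alg hp δ).pow _)
    (fun t s => (I t).lam d (N1 t) (N2 t) s)
    (fun t => N1 t * (I t).b ^ d * (I t).g ^ d * (I t).a 0) (fun t => (I t).h)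
    (fun t s => (I t).rr s) (fun t => (I t).u 0 * (I t).α ^ Dw) (fun t => (I t).α ^ q)
    (fun t => (I t).g * (I t).y)
    (fun t => mul_ne_zero (mul_ne_zero (mul_ne_zero (hc t).1 (pow_ne_zero _ (I t).hb0))
      (pow_ne_zero _ (I t).hg)) (I t).ha0)
    (by
      have h1 := ((hN1S.mul (hbS.pow hL d)).mul (hgS.pow hL d)).mul (haS 0)
      refine h1.mono (Eventually.of_forall fun t => ?_)
      push_cast
      exact le_rfl)
    (by
      intro s
      rcases s with i | m
      · have h1 := (haS i.succ).mul ((hN1S.mul (hbS.pow hL d)).mul (hgS.pow hL d))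
        refine h1.mono (Eventually.of_forall fun t => ?_)
        show |(((I t).a i.succ * (N1 t * (I t).b ^ d * (I t).g ^ d) : ℤ) : ℝ)| ≤ _
        push_cast
        exact le_rfl
      · by_cases hm : wt p q m = Dw
        · refine (Sub.const hL 0).mono (Eventually.of_forall fun t => ?_)
          have h1 : (I t).lam d (N1 t) (N2 t) (Sum.inr m) = 0 := if_pos hm
          rw [h1, Int.cast_zero]
        · have h1 := ((haS 0).mul hN2S).mul (((((hFS m).mul ((haS 0).pow hL
            ((m : Fin 2 →₀ ℕ) 0))).mul (hbS.pow hL (d - (m : Fin 2 →₀ ℕ) 0))).mul (hhS.pow hL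
            ((m : Fin 2 →₀ ℕ) 1))).mul (hgS.pow hL (d - (m : Fin 2 →₀ ℕ) 1)))
          refine h1.mono (Eventually.of_forall fun t => ?_)
          have h2 : (I t).lam d (N1 t) (N2 t) (Sum.inr m) = (I t).a 0 * N2 t *
              ((I t).F.coeff m * (I t).a 0 ^ (m : Fin 2 →₀ ℕ) 0 *
              (I t).b ^ (d - (m : Fin 2 →₀ ℕ) 0) * (I t).h ^ (m : Fin 2 →₀ ℕ) 1 *
              (I t).g ^ (d - (m : Fin 2 →₀ ℕ) 1)) := if_neg hm
          rw [h2]
          push_cast
          exact le_rfl)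
    hhS
    (by
      intro t s
      rcases s with i | m
      · exact smooth_mul ((I t).hu _) (smooth_pow (I t).hα _)
      · exact smooth_mul ((I t).hu _) (smooth_pow (I t).hα _))
    (fun t => smooth_mul ((I t).hu _) (smooth_pow (I t).hα _))
    (fun t => smooth_pow (I t).hα _)
    (by
      refine Eventually.of_forall fun t s => ?_
      rcases s with i | m
      · show (((I t).u i.succ * (I t).α ^ Dw : ℕ) : ℝ) ≤ _
        push_cast
        exact (mul_le_mul_of_nonneg_right (hui t i) (by positivity)).trans (hpow t Dw le_rfl)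
      · show (((I t).u 0 * (I t).α ^ wt p q m : ℕ) : ℝ) ≤ _
        push_cast
        exact hpow t _ (hDw m m.2))
    (by
      refine Eventually.of_forall fun t => ?_
      push_cast
      exact hpow t Dw le_rfl)
    (by
      refine Eventually.of_forall fun t => ?_
      push_cast
      have h1 := α_le hp (I t)
      calc ((I t).α : ℝ) ^ q ≤ ((I t).u 0 : ℝ) ^ q := pow_le_pow_left₀ (by positivity) h1 _
        _ = Real.exp (q * L t) := by rw [huL t, ← Real.exp_nat_mul]
        _ ≤ Real.exp ((1 + Dw + q) * L t) := by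
            apply Real.exp_le_exp.2
            apply mul_le_mul_of_nonneg_right _ (hL0 t)
            have h4 : (0 : ℝ) ≤ Dw := by positivity
            linarith)
    (by
      have h1 : Dec L (0 + -(q / p : ℝ) + n * δ0) fun t => ((I t).h : ℝ) *
          Real.exp (-(-(q / p : ℝ) * L t)) *
          ((W - evh hL φ z P : SR L hL) : ℕ → ℝ) t :=
        Dec.mul (Dec.mul (dec_zero_iff.2 hhS) (dec_exp hL _)) hP
      filter_upwards [h1 1 (by linarith)] with t ht
      refine le_trans (le_of_eq ?_) ht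
      have h2 : (θ p δ * ((I t).α : ℝ)) ^ q = Real.exp (-(-(q / p : ℝ) * L t)) := by
        rw [θα_exp hp (I t), ← Real.exp_nat_mul, hLt t]
        congr 1
        ring
      have h3 : ((W - evh hL φ z P : SR L hL) : ℕ → ℝ) t = (I t).W -
          MvPolynomial.eval₂ φ (fun s => ξξ r p q Dw δ supp s * (((I t).lam d (N1 t) (N2 t) s : ℤ) *
            ((I t).rr s : ℝ) / (((N1 t * (I t).b ^ d * (I t).g ^ d * (I t).a 0 : ℤ) : ℝ) *
            (((I t).u 0 * (I t).α ^ Dw : ℕ) : ℝ)))) P := by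
        rw [← atp_apply, map_sub, atp_evh]
        have h4 : (fun s => ((z s : SR L hL) : ℕ → ℝ) t) = fun s => ξξ r p q Dw δ supp s *
            (((I t).lam d (N1 t) (N2 t) s : ℤ) *
            ((I t).rr s : ℝ) / (((N1 t * (I t).b ^ d * (I t).g ^ d * (I t).a 0 : ℤ) : ℝ) *
            (((I t).u 0 * (I t).α ^ Dw : ℕ) : ℝ))) := by
          funext s
          exact zz_eq (I t) (N1 t) (N2 t) (hc t).1 (hc t).2 s
        rw [h4]
        rfl
      have h5 : (((I t).g * (I t).y : ℤ) : ℝ) = (I t).h * (θ p δ * (I t).α) ^ q * (I t).W := by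
        have h6 := y_eq (I t)
        have h7 := g_ne (I t)
        push_cast
        rw [h6]
        field_simp
      rw [h3, ← h2, h5, ← abs_neg]
      congr 1
      push_cast
      rw [mul_pow]
      ring)
  refine finish hη hS (fun t => (I t).toDatum) hbig N fun ε hε => ?_
  refine ((hN (ε / 2) (by positivity)).and_eventually (hgS (ε / 2) (by positivity))).mono ?_
  rintro t ⟨⟨E', v, c, hE', hE'b, hv, hcb, hrel⟩, hgt⟩
  refine ⟨E' * (I t).g, v, c, mul_ne_zero hE' (I t).hg, ?_, hv, ?_, ?_⟩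
  · push_cast
    rw [abs_mul]
    calc |(E' : ℝ)| * |((I t).g : ℝ)| ≤ Real.exp (ε / 2 * L t) * Real.exp (ε / 2 * L t) :=
          mul_le_mul hE'b hgt (abs_nonneg _) (Real.exp_pos _).le
      _ = Real.exp (ε * Real.log ((I t).u 0)) := by
          rw [← Real.exp_add, hLt t]; congr 1; ring
  · intro j
    refine (hcb j).trans ?_
    apply Real.exp_le_exp.2
    rw [hLt t]
    have := hL0 t
    nlinarith
  · rw [← hrel]
    push_cast
    ring

end Pool.Agent.H455.VC
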