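import Mathlib
import Pool.Agent.H455.RT1
import Pool.Agent.H455.VC9

set_option autoImplicit false

/-!
# Roots of sparse polynomials: small perturbations of squarefree polynomials
-/

open Finset Filter Topology

namespace Pool.Agent.H455.RT

open Pool.Agent.TH419.WI Pool.Agent.TH419.HX Pool.Agent.H455.VC
open Pool.Agent.Results.MP_821da1_nt.LaurentDichotomy (UnitOf NoLaurentCurve Qbar)

theorem Dec.sum {L : ℕ → ℝ} (hL : Tendsto L atTop atTop) {δ : ℝ} {ι : Type} (s : Finset ι)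
    {f : ι → ℕ → ℝ} (h : ∀ i ∈ s, Dec L δ (f i)) : Dec L δ fun t => ∑ i ∈ s, f i t := by
  classical
  induction s using Finset.induction_on with
  | empty =>
    intro δ' _
    refine Eventually.of_forall fun t => ?_
    simp only [Finset.sum_empty, abs_zero]
    exact (Real.exp_pos _).le
  | insert i s hi ih =>
    have h1 := Dec.add hL (h i (Finset.mem_insert_self i s))
      (ih fun j hj => h j (Finset.mem_insert_of_mem hj))
    simpa only [Finset.sum_insert hi] using h1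

/-- sequences at which a nonzero polynomial tends to zero have convergent subsequences -/
theorem exists_limit (E : Polynomial ℤ) (hE : E ≠ 0) (W : ℕ → ℝ)
    (h : Tendsto (fun t => (Polynomial.aeval (W t) E : ℝ)) atTop (𝓝 0)) :
    ∃ (χ : ℕ → ℕ) (ω : ℝ), StrictMono χ ∧ Tendsto (W ∘ χ) atTop (𝓝 ω) := by
  by_cases hW : Tendsto (fun t => ‖W t‖) atTop atTop
  · exfalso
    by_cases hdeg0 : E.natDegree = 0
    · have hC := Polynomial.eq_C_of_natDegree_eq_zero hdeg0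
      have h00 : Tendsto (fun _ : ℕ => ((E.coeff 0 : ℤ) : ℝ)) atTop (𝓝 0) := by
        refine h.congr fun t => ?_
        have h5 := congrArg (fun P => (Polynomial.aeval (W t) P : ℝ)) hC
        simp only [Polynomial.aeval_C] at h5
        exact h5
      have h1 := tendsto_nhds_unique h00 tendsto_const_nhds
      have h2 : E.coeff 0 = 0 := by
        have h3 : ((E.coeff 0 : ℤ) : ℝ) = 0 := h1.symm
        exact_mod_cast h3
      apply hE
      rw [h2, Polynomial.C_0] at hC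
      exact hC
    · have h1 : 0 < (E.map (Int.castRingHom ℝ)).degree := by
        rw [Polynomial.degree_map_eq_of_injective (by exact (Int.castRingHom ℝ).injective_int)]
        exact Polynomial.natDegree_pos_iff_degree_pos.1 (Nat.pos_of_ne_zero hdeg0)
      have h2 := Polynomial.tendsto_norm_atTop _ h1 hW
      have h3 : Tendsto (fun t => ‖Polynomial.eval (W t) (E.map (Int.castRingHom ℝ))‖) atTop
          (𝓝 0) := by
        have h4 := h.norm
        rw [norm_zero] at h4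
        refine h4.congr fun t => ?_
        rw [Polynomial.eval_map, Polynomial.aeval_def]
        rfl
      exact not_tendsto_atTop_of_tendsto_nhds h3 h2
  · rw [tendsto_atTop] at hW
    push Not at hW
    obtain ⟨R, hR⟩ := hW
    obtain ⟨χ, hχ, hχR⟩ := Filter.extraction_of_frequently_atTop hR
    obtain ⟨ω, -, κ, hκ, hκω⟩ := tendsto_subseq_of_bounded (Metric.isBounded_closedBall
      (x := (0 : ℝ)) (r := R)) (x := fun t => W (χ t)) (fun t => by
        rw [mem_closedBall_zero_iff]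
        exact (not_le.1 (by simpa using hχR t)).le)
    exact ⟨χ ∘ κ, ω, hχ.comp hκ, hκω⟩

section
variable {Λ : Type} [Fintype Λ]

/-- the perturbed polynomial -/
noncomputable def PhiR (l0 : ℕ) (E : Polynomial ℤ) (e : Λ → ℕ) :
    Polynomial (MvPolynomial Λ KA) :=
  (Polynomial.X ^ l0 * E).map ((Int.castRingHom (MvPolynomial Λ KA))) +
    ∑ i, Polynomial.C (MvPolynomial.X i) * Polynomial.X ^ e i

theorem phiR_const (l0 : ℕ) (E : Polynomial ℤ) (e : Λ → ℕ) :
    (PhiR l0 E e).map MvPolynomial.constantCoeff =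
      (Polynomial.X ^ l0 * E).map (Int.castRingHom KA) := by
  rw [PhiR, Polynomial.map_add, Polynomial.map_map, Polynomial.map_sum]
  have h1 : ∑ i : Λ, Polynomial.map MvPolynomial.constantCoeff
      (Polynomial.C (MvPolynomial.X i : MvPolynomial Λ KA) * Polynomial.X ^ e i) = 0 := by
    refine Finset.sum_eq_zero fun i _ => ?_
    rw [Polynomial.map_mul, Polynomial.map_C, MvPolynomial.constantCoeff_X, Polynomial.C_0,
      zero_mul]
  rw [h1, add_zero]
  congr 1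
  exact RingHom.ext_int _ _

theorem phiR_eval (l0 : ℕ) (E : Polynomial ℤ) (e : Λ → ℕ) (f : MvPolynomial Λ KA →+* ℝ)
    (z : Λ → ℝ) (hfX : ∀ s, f (MvPolynomial.X s) = z s) (W : ℝ) :
    Polynomial.eval₂ f W (PhiR l0 E e) =
      W ^ l0 * Polynomial.aeval W E + ∑ i, z i * W ^ e i := by
  rw [PhiR, Polynomial.eval₂_add, Polynomial.eval₂_map, Polynomial.eval₂_finsetSum]
  congr 1
  · rw [Polynomial.eval₂_mul, Polynomial.eval₂_pow, Polynomial.eval₂_X, Polynomial.aeval_def]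
    congr 2
    exact RingHom.ext_int _ _
  · refine Finset.sum_congr rfl fun i _ => ?_
    rw [Polynomial.eval₂_mul, Polynomial.eval₂_C, Polynomial.eval₂_pow, Polynomial.eval₂_X, hfX]

/-- **Integers given by a root of an exponentially small perturbation of a squarefree
polynomial** are sums of almost units, on a subsequence. -/
theorem rel_of_root {S : Finset ℕ} (hS : ∀ p ∈ S, p.Prime) {L : ℕ → ℝ}
    (hL : Tendsto L atTop atTop) (hLnn : ∀ t, 0 ≤ L t) (l0 : ℕ) (E : Polynomial ℤ)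
    (hsq : Squarefree (E.map (Int.castRingHom ℚ)))
    (W : ℕ → ℝ) (hW0 : ∀ t, W t ≠ 0) (hW1 : Sub L W) (hW2 : Sub L fun t => (W t)⁻¹)
    (e : Λ → ℕ) (ξ : Λ → ℝ) (hξ : ∀ i, IsAlgebraic ℚ (ξ i)) (κ : ℕ → Λ → ℚ)
    (hκ : ∀ i, SlowQ L fun t => κ t i) (r s : ℕ → Λ → ℕ) (hr : ∀ t i, Smooth S (r t i))
    (hs : ∀ t i, Smooth S (s t i)) (C : ℝ) (hC : 0 ≤ C)
    (hrC : ∀ t i, (r t i : ℝ) ≤ Real.exp (C * L t))
    (hsC : ∀ t i, (s t i : ℝ) ≤ Real.exp (C * L t))
    {δ0 : ℝ} (hδ0 : 0 < δ0)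
    (hdec : ∀ i, Dec L δ0 fun t => ξ i * (κ t i : ℝ) * ((r t i : ℝ) / (s t i : ℝ)))
    (heq : ∀ t, W t ^ l0 * (Polynomial.aeval (W t) E : ℝ) +
      ∑ i, (ξ i * (κ t i : ℝ) * ((r t i : ℝ) / (s t i : ℝ))) * W t ^ e i = 0)
    (ζ : ℝ) (hζ : IsAlgebraic ℚ ζ) (γ : ℕ → ℚ) (hγ : SlowQ L γ) (r0 s0 : ℕ → ℕ)
    (hr0 : ∀ t, Smooth S (r0 t)) (hs0 : ∀ t, Smooth S (s0 t))
    (hr0C : ∀ t, (r0 t : ℝ) ≤ Real.exp (C * L t)) (y : ℕ → ℤ)
    (hy : ∀ t, (y t : ℝ) = ζ * (γ t : ℝ) * ((r0 t : ℝ) / (s0 t : ℝ)) * W t) :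
    ∃ ψ : ℕ → ℕ, StrictMono ψ ∧ Rel S (L ∘ ψ) (y ∘ ψ) := by
  classical
  have hE0 : E ≠ 0 := by
    rintro rfl
    rw [Polynomial.map_zero] at hsq
    exact hsq.ne_zero rfl
  -- the polynomial `E` is small
  have hEdec : Dec L δ0 fun t => (Polynomial.aeval (W t) E : ℝ) := by
    have h1 : Dec L δ0 fun t => ∑ i, (ξ i * (κ t i : ℝ) * ((r t i : ℝ) / (s t i : ℝ))) *
        W t ^ e i := Dec.sum hL _ fun i _ => by
      have h2 := Dec.mul (hdec i) (dec_zero_iff.2 (hW1.pow hL (e i)))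
      rwa [add_zero] at h2
    have h3 := Dec.mul (dec_zero_iff.2 (hW2.pow hL l0)) h1
    rw [zero_add] at h3
    refine h3.mono (Eventually.of_forall fun t => ?_)
    have h4 := heq t
    have h5 : (Polynomial.aeval (W t) E : ℝ) = -((W t)⁻¹ ^ l0 *
        ∑ i, (ξ i * (κ t i : ℝ) * ((r t i : ℝ) / (s t i : ℝ))) * W t ^ e i) := by
      have h6 : ∑ i, (ξ i * (κ t i : ℝ) * ((r t i : ℝ) / (s t i : ℝ))) * W t ^ e i =
          -(W t ^ l0 * (Polynomial.aeval (W t) E : ℝ)) := by linarith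
      rw [h6, inv_pow]
      have h7 : W t ^ l0 ≠ 0 := pow_ne_zero _ (hW0 t)
      field_simp
    rw [h5, abs_neg]
  obtain ⟨χ, ω, hχ, hω⟩ := exists_limit E hE0 W (hEdec.tendsto hL hδ0)
  have hχt := hχ.tendsto_atTop
  obtain ⟨L', hL'⟩ : ∃ L' : ℕ → ℝ, L' = L ∘ χ := ⟨_, rfl⟩
  have hLχ : Tendsto L' atTop atTop := by rw [hL']; exact hL.comp hχt
  have hE' : Dec L' δ0 fun t => (Polynomial.aeval ((W ∘ χ) t) E : ℝ) := by
    rw [hL']; exact hEdec.comp hχt
  obtain ⟨hω0, hωdec, hωd, hωalg⟩ := root_lim hLχ hδ0 E hsq _ ω hω hE'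
  have hWS : Sub L' (W ∘ χ) := by rw [hL']; exact hW1.comp hχt
  have hVS : Sub L' (fun t => (W (χ t))⁻¹) := by rw [hL']; exact hW2.comp hχt
  have hωne : ω ≠ 0 := by
    intro h0
    have h1 : Dec L' (0 + δ0) fun t => (W (χ t))⁻¹ * ((W ∘ χ) t - ω) :=
      Dec.mul (dec_zero_iff.2 hVS) hωdec
    rw [zero_add, h0] at h1
    have h2 : (fun t => (W (χ t))⁻¹ * ((W ∘ χ) t - 0)) = fun _ => (1 : ℝ) := by
      funext t
      rw [sub_zero, Function.comp_apply, inv_mul_cancel₀ (hW0 _)]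
    rw [h2] at h1
    exact one_ne_zero (dec_const_eq_zero hLχ hδ0 h1)
  -- the elements of the ring of sequences
  have hzdec : ∀ i, Dec L' δ0 fun t => ξ i * (κ (χ t) i : ℝ) *
      ((r (χ t) i : ℝ) / (s (χ t) i : ℝ)) := fun i => by rw [hL']; exact (hdec i).comp hχt
  let z : Λ → SR L' hLχ := fun i => ⟨fun t => ξ i * (κ (χ t) i : ℝ) *
      ((r (χ t) i : ℝ) / (s (χ t) i : ℝ)), (hzdec i).mono_exp hδ0.le⟩
  have hz : ∀ i, z i ∈ SI L' hLχ δ0 := fun i => hzdec i
  let Wr : SR L' hLχ := ⟨W ∘ χ, dec_zero_iff.2 hWS⟩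
  obtain ⟨φ, hφ⟩ : ∃ φ : KA →+* ℝ, φ = algebraMap KA ℝ := ⟨_, rfl⟩
  have hΦ : ((PhiR l0 E e).map (evh hLχ φ z)).eval Wr = 0 := by
    apply Subtype.ext
    funext t
    show atp hLχ t _ = 0
    rw [Polynomial.eval_map, Polynomial.hom_eval₂]
    show Polynomial.eval₂ ((atp hLχ t).comp (evh hLχ φ z)) (W (χ t)) (PhiR l0 E e) = 0
    rw [phiR_eval l0 E e _ (fun i => ξ i * (κ (χ t) i : ℝ) *
      ((r (χ t) i : ℝ) / (s (χ t) i : ℝ)))]
    · exact heq (χ t)
    · intro i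
      rw [RingHom.comp_apply, atp_evh, MvPolynomial.eval₂_X]
  obtain ⟨ωK, hωK⟩ : ∃ ωK : KA, φ ωK = ω := by
    rw [hφ]
    exact ⟨⟨ω, mem_algebraicClosure_iff.2 hωalg⟩, rfl⟩
  have hd : (((PhiR l0 E e).map MvPolynomial.constantCoeff).derivative.eval ωK) ≠ 0 := by
    rw [phiR_const, Polynomial.derivative_map]
    intro h0
    have h1 := congrArg φ h0
    rw [map_zero, Polynomial.eval_map, Polynomial.hom_eval₂, hωK] at h1
    have h2 : Polynomial.eval₂ (φ.comp (Int.castRingHom KA)) ω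
        (Polynomial.derivative (Polynomial.X ^ l0 * E)) =
        Polynomial.aeval ω (Polynomial.derivative (Polynomial.X ^ l0 * E)) := by
      rw [Polynomial.aeval_def]
      congr 1
      exact RingHom.ext_int _ _
    rw [h2, Polynomial.derivative_mul, map_add, map_mul, map_mul, hω0, mul_zero, zero_add,
      map_pow, Polynomial.aeval_X] at h1
    exact (mul_ne_zero (pow_ne_zero _ hωne) hωd) h1
  -- the approximation
  obtain ⟨n, hn⟩ := exists_nat_ge ((C + 2) / δ0)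
  rw [div_le_iff₀ hδ0] at hn
  obtain ⟨P, hP⟩ := newton hLχ φ z hδ0 hz (PhiR l0 E e) Wr ωK hΦ
    (by rw [hωK]; exact hωdec) hd n
  -- the common denominators
  choose Nκ Dκ hNκ hDκ hκ' using hκ
  obtain ⟨Nγ, Dγ, hNγ, hDγ, hγ'⟩ := hγ
  have hL'nn : ∀ t, 0 ≤ L' t := fun t => by rw [hL']; exact hLnn _
  have hNS : ∀ i, Sub L' fun t => (Nκ i (χ t) : ℝ) := fun i => by
    rw [hL']; exact (hNκ i).comp hχt
  have hDS : ∀ i, Sub L' fun t => (Dκ i (χ t) : ℝ) := fun i => by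
    rw [hL']; exact (hDκ i).comp hχt
  have hNγS : Sub L' fun t => (Nγ (χ t) : ℝ) := by rw [hL']; exact hNγ.comp hχt
  have hDγS : Sub L' fun t => (Dγ (χ t) : ℝ) := by rw [hL']; exact hDγ.comp hχt
  have hsplitZ : ∀ (f : Λ → ℤ) (i : Λ), ∏ j, f j = f i * ∏ j ∈ Finset.univ.erase i, f j :=
    fun f i => (Finset.mul_prod_erase _ f (Finset.mem_univ i)).symm
  have hsplitN : ∀ (f : Λ → ℕ) (i : Λ), ∏ j, f j = f i * ∏ j ∈ Finset.univ.erase i, f j :=
    fun f i => (Finset.mul_prod_erase _ f (Finset.mem_univ i)).symm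
  obtain ⟨Q, hQ⟩ : ∃ Q : ℕ, Q = Fintype.card Λ + 1 := ⟨_, rfl⟩
  have hCL : ∀ t, 1 ≤ Real.exp (C * L' t) := fun t =>
    Real.one_le_exp (mul_nonneg hC (hL'nn t))
  have hLχt : ∀ t, L' t = L (χ t) := fun t => by rw [hL']; rfl
  have hprodS : ∀ (t : ℕ) (T : Finset Λ), ((∏ j ∈ T, s (χ t) j : ℕ) : ℝ) ≤
      Real.exp (C * L' t) ^ T.card := by
    intro t T
    push_cast
    calc ∏ j ∈ T, (s (χ t) j : ℝ) ≤ ∏ _j ∈ T, Real.exp (C * L' t) :=
          Finset.prod_le_prod (fun _ _ => by positivity) fun j _ => by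
            rw [hLχt]; exact hsC _ _
      _ = Real.exp (C * L' t) ^ T.card := by rw [Finset.prod_const]
  obtain ⟨N, hN⟩ := polyUnits φ (fun x => by rw [hφ]; exact mem_algebraicClosure_iff.1 x.2) S hS
    ((Q : ℝ) * C) 1 (by positivity) one_pos L' hLχ P ξ hξ ζ hζ
    (fun t i => Nκ i (χ t) * ∏ j ∈ Finset.univ.erase i, Dκ j (χ t))
    (fun t => ∏ j, Dκ j (χ t)) (fun t => Nγ (χ t))
    (fun t i => r (χ t) i * ∏ j ∈ Finset.univ.erase i, s (χ t) j)
    (fun t => ∏ j, s (χ t) j) (fun t => r0 (χ t))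
    (fun t => Dγ (χ t) * (s0 (χ t) : ℤ) * y (χ t))
    (fun t => Finset.prod_ne_zero_iff.2 fun j _ => (hκ' j _).1)
    (by
      refine (Sub.prod hLχ Finset.univ fun j _ => hDS j).mono (Eventually.of_forall fun t => ?_)
      push_cast
      exact le_rfl)
    (by
      intro i
      refine ((hNS i).mul (Sub.prod hLχ (Finset.univ.erase i) fun j _ => hDS j)).mono
        (Eventually.of_forall fun t => ?_)
      push_cast
      exact le_rfl)
    hNγS
    (fun t i => smooth_mul (hr _ _) (smooth_prod _ fun j _ => hs _ _))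
    (fun t => smooth_prod _ fun j _ => hs _ _) (fun t => hr0 _)
    (by
      refine Eventually.of_forall fun t i => ?_
      have h1 := hprodS t (Finset.univ.erase i)
      have h2 : (r (χ t) i : ℝ) ≤ Real.exp (C * L' t) := by rw [hLχt]; exact hrC _ _
      have h3 : (Finset.univ.erase i).card ≤ Fintype.card Λ :=
        (Finset.card_le_card (Finset.erase_subset _ _)).trans (le_of_eq Finset.card_univ)
      calc ((r (χ t) i * ∏ j ∈ Finset.univ.erase i, s (χ t) j : ℕ) : ℝ)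
          = (r (χ t) i : ℝ) * ((∏ j ∈ Finset.univ.erase i, s (χ t) j : ℕ) : ℝ) := by push_cast; rfl
        _ ≤ Real.exp (C * L' t) * Real.exp (C * L' t) ^ (Finset.univ.erase i).card :=
            mul_le_mul h2 h1 (by positivity) (by positivity)
        _ ≤ Real.exp (C * L' t) * Real.exp (C * L' t) ^ Fintype.card Λ :=
            mul_le_mul_of_nonneg_left (pow_le_pow_right₀ (hCL t) h3) (by positivity)
        _ = Real.exp (Q * C * L' t) := by
            rw [← pow_succ', ← hQ, ← Real.exp_nat_mul]; congr 1; ring)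
    (by
      refine Eventually.of_forall fun t => ?_
      calc ((∏ j, s (χ t) j : ℕ) : ℝ) ≤ Real.exp (C * L' t) ^ (Finset.univ : Finset Λ).card :=
            hprodS t _
        _ ≤ Real.exp (C * L' t) ^ Q := pow_le_pow_right₀ (hCL t) (by
            rw [hQ, Finset.card_univ]; omega)
        _ = Real.exp (Q * C * L' t) := by rw [← Real.exp_nat_mul]; congr 1; ring)
    (by
      refine Eventually.of_forall fun t => ?_
      have h2 : (r0 (χ t) : ℝ) ≤ Real.exp (C * L' t) := by rw [hLχt]; exact hr0C _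
      calc (r0 (χ t) : ℝ) ≤ Real.exp (C * L' t) ^ 1 := by rw [pow_one]; exact h2
        _ ≤ Real.exp (C * L' t) ^ Q := pow_le_pow_right₀ (hCL t) (by omega)
        _ = Real.exp (Q * C * L' t) := by rw [← Real.exp_nat_mul]; congr 1; ring)
    (by
      have h1 : Dec L' (0 + -C + n * δ0) fun t => (ζ * (Nγ (χ t) : ℝ)) *
          Real.exp (-(-C * L' t)) *
          ((Wr - evh hLχ φ z P : SR L' hLχ) : ℕ → ℝ) t :=
        Dec.mul (Dec.mul (dec_zero_iff.2 ((Sub.const hLχ ζ).mul hNγS)) (dec_exp hLχ _)) hP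
      filter_upwards [h1 1 (by linarith)] with t ht
      refine le_trans ?_ ht
      have h3 : ((Wr - evh hLχ φ z P : SR L' hLχ) : ℕ → ℝ) t = W (χ t) -
          MvPolynomial.eval₂ φ (fun i => ξ i * (((Nκ i (χ t) *
            ∏ j ∈ Finset.univ.erase i, Dκ j (χ t) : ℤ) : ℝ) *
            ((r (χ t) i * ∏ j ∈ Finset.univ.erase i, s (χ t) j : ℕ) : ℝ) /
            (((∏ j, Dκ j (χ t) : ℤ) : ℝ) * ((∏ j, s (χ t) j : ℕ) : ℝ)))) P := by
        rw [← atp_apply, map_sub, atp_evh]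
        have h4 : (fun i => ((z i : SR L' hLχ) : ℕ → ℝ) t) = fun i => ξ i * (((Nκ i (χ t) *
            ∏ j ∈ Finset.univ.erase i, Dκ j (χ t) : ℤ) : ℝ) *
            ((r (χ t) i * ∏ j ∈ Finset.univ.erase i, s (χ t) j : ℕ) : ℝ) /
            (((∏ j, Dκ j (χ t) : ℤ) : ℝ) * ((∏ j, s (χ t) j : ℕ) : ℝ))) := by
          funext i
          show ξ i * (κ (χ t) i : ℝ) * ((r (χ t) i : ℝ) / (s (χ t) i : ℝ)) = _
          have e1 : (κ (χ t) i : ℝ) = (Nκ i (χ t) : ℝ) / (Dκ i (χ t) : ℝ) := by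
            have := (hκ' i (χ t)).2
            exact_mod_cast congrArg (fun x : ℚ => (x : ℝ)) this
          have e2 : (Dκ i (χ t) : ℝ) ≠ 0 := by exact_mod_cast (hκ' i (χ t)).1
          have e3 : ((∏ j ∈ Finset.univ.erase i, Dκ j (χ t) : ℤ) : ℝ) ≠ 0 := by
            exact_mod_cast Finset.prod_ne_zero_iff.2 fun j _ => (hκ' j (χ t)).1
          have e4 : (s (χ t) i : ℝ) ≠ 0 := by exact_mod_cast (hs (χ t) i).1
          have e5 : ((∏ j ∈ Finset.univ.erase i, s (χ t) j : ℕ) : ℝ) ≠ 0 := by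
            exact_mod_cast Finset.prod_ne_zero_iff.2 fun j _ => (hs (χ t) j).1
          rw [e1, hsplitZ (fun j => Dκ j (χ t)) i, hsplitN (fun j => s (χ t) j) i]
          rw [Int.cast_mul, Int.cast_mul, Nat.cast_mul, Nat.cast_mul]
          field_simp
        rw [h4]
        rfl
      have h5 : (((Dγ (χ t) * (s0 (χ t) : ℤ) * y (χ t) : ℤ)) : ℝ) =
          ζ * (Nγ (χ t) : ℝ) * (r0 (χ t) : ℝ) * W (χ t) := by
        have e1 : (γ (χ t) : ℝ) = (Nγ (χ t) : ℝ) / (Dγ (χ t) : ℝ) := by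
          have := (hγ' (χ t)).2
          exact_mod_cast congrArg (fun x : ℚ => (x : ℝ)) this
        have e2 : (Dγ (χ t) : ℝ) ≠ 0 := by exact_mod_cast (hγ' (χ t)).1
        have e4 : (s0 (χ t) : ℝ) ≠ 0 := by exact_mod_cast (hs0 (χ t)).1
        push_cast
        rw [hy (χ t), e1]
        field_simp
      rw [h3, h5, ← abs_neg]
      have h6 : (r0 (χ t) : ℝ) ≤ Real.exp (-(-C * L' t)) := by
        rw [neg_mul, neg_neg, hLχt]; exact hr0C _
      rw [neg_sub]
      have h7 : ∀ A : ℝ, ζ * (Nγ (χ t) : ℝ) * (r0 (χ t) : ℝ) * W (χ t) -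
          ζ * (Nγ (χ t) : ℝ) * (r0 (χ t) : ℝ) * A =
          (r0 (χ t) : ℝ) * (ζ * (Nγ (χ t) : ℝ) * (W (χ t) - A)) := fun A => by ring
      have h8 : ∀ A : ℝ, ζ * (Nγ (χ t) : ℝ) * Real.exp (-(-C * L' t)) * A =
          Real.exp (-(-C * L' t)) * (ζ * (Nγ (χ t) : ℝ) * A) := fun A => by ring
      rw [h7, h8, abs_mul, abs_mul (Real.exp _), abs_of_nonneg (Nat.cast_nonneg _),
        abs_of_pos (Real.exp_pos _)]
      exact mul_le_mul_of_nonneg_right h6 (abs_nonneg _))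
  obtain ⟨ψ, hψ, hrel⟩ := rel_of_freq hS hLχ (fun t => y (χ t))
    (fun t => Dγ (χ t) * (s0 (χ t) : ℤ) * y (χ t)) (fun t => Dγ (χ t)) (fun t => s0 (χ t))
    (fun t => (hγ' _).1) hDγS (fun t => hs0 _) (fun t => rfl) N hN
  refine ⟨χ ∘ ψ, hχ.comp hψ, ?_⟩
  rw [hL'] at hrel
  exact hrel

end

end Pool.Agent.H455.RT
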