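import Mathlib
import Pool.Agent.H455.RT2

set_option autoImplicit false

/-!
# Sums of few powers of one base with small coefficients: the leading block
-/

open Finset Filter Topology

namespace Pool.Agent.H455.CB

open Pool.Agent.TH419.WI Pool.Agent.TH419.HX Pool.Agent.H455.VC Pool.Agent.H455.RT

/-- the sum over `s` -/
def ss {T : ℕ} (g : ℕ) (s : Finset (Fin T)) (v : Fin T → ℤ) (l : Fin T → ℕ) : ℤ :=
  ∑ j ∈ s, v j * (g : ℤ) ^ l j

theorem ss_split {T : ℕ} (g : ℕ) {s J : Finset (Fin T)} (hJ : J ⊆ s) (v : Fin T → ℤ)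
    (l : Fin T → ℕ) : ss g s v l = ss g J v l + ss g (s \ J) v l := by
  unfold ss
  rw [add_comm, Finset.sum_sdiff hJ]

/-- a maximal index which is the same infinitely often -/
theorem freq_max {T : ℕ} (s : Finset (Fin T)) (hs : s.Nonempty) (l : ℕ → Fin T → ℕ) :
    ∃ j0 ∈ s, ∃ ψ : ℕ → ℕ, StrictMono ψ ∧ ∀ t, ∀ j ∈ s, l (ψ t) j ≤ l (ψ t) j0 := by
  obtain ⟨j0, hj0, hfr⟩ := freq_exists (s := (s : Set (Fin T))) s.finite_toSet
    (fun t j0 => ∀ j ∈ s, l t j ≤ l t j0) (Eventually.of_forall fun t => by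
      obtain ⟨j, hj, hj'⟩ := Finset.exists_max_image s (l t) hs
      exact ⟨j, hj, hj'⟩)
  obtain ⟨ψ, hψ, hψ'⟩ := Filter.extraction_of_frequently_atTop hfr
  exact ⟨j0, hj0, ψ, hψ, hψ'⟩

theorem freq_min {T : ℕ} (s : Finset (Fin T)) (hs : s.Nonempty) (l : ℕ → Fin T → ℕ) :
    ∃ j0 ∈ s, ∃ ψ : ℕ → ℕ, StrictMono ψ ∧ ∀ t, ∀ j ∈ s, l (ψ t) j0 ≤ l (ψ t) j := by
  obtain ⟨j0, hj0, hfr⟩ := freq_exists (s := (s : Set (Fin T))) s.finite_toSet
    (fun t j0 => ∀ j ∈ s, l t j0 ≤ l t j) (Eventually.of_forall fun t => by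
      obtain ⟨j, hj, hj'⟩ := Finset.exists_min_image s (l t) hs
      exact ⟨j, hj, hj'⟩)
  obtain ⟨ψ, hψ, hψ'⟩ := Filter.extraction_of_frequently_atTop hfr
  exact ⟨j0, hj0, ψ, hψ, hψ'⟩

/-- **The leading block.** On a subsequence a nonzero sum of at most `T` powers of `g` with slowly
growing coefficients is a slowly growing integer times a power of `g` plus much smaller terms. -/
theorem blocks {g : ℕ} (hg : 2 ≤ g) {T : ℕ} : ∀ (k : ℕ) (s : Finset (Fin T)), s.card ≤ k →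
    ∀ (L : ℕ → ℝ), Tendsto L atTop atTop → ∀ (v : ℕ → Fin T → ℤ) (l : ℕ → Fin T → ℕ),
    (∀ j, Sub L fun t => (v t j : ℝ)) → (∀ t, ss g s (v t) (l t) ≠ 0) →
    ∃ ψ : ℕ → ℕ, StrictMono ψ ∧ ∃ (η : ℝ) (s' : Finset (Fin T)) (f : ℕ → ℕ) (A : ℕ → ℤ),
      0 < η ∧ (∀ t, A t ≠ 0) ∧ Sub (L ∘ ψ) (fun t => (A t : ℝ)) ∧
      (∀ t, ss g s (v (ψ t)) (l (ψ t)) = A t * (g : ℤ) ^ f t + ss g s' (v (ψ t)) (l (ψ t))) ∧
      ∀ t, ∀ j ∈ s', (l (ψ t) j : ℝ) * Real.log g + η * L (ψ t) ≤ f t * Real.log g := by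
  classical
  have hg1 : (1 : ℝ) < g := by exact_mod_cast (by omega : 1 < g)
  have hlg : 0 < Real.log g := Real.log_pos hg1
  have hg0 : (0 : ℝ) < g := by linarith
  intro k
  induction k with
  | zero =>
    intro s hs L _ v l _ hne
    exfalso
    have h0 : s = ∅ := Finset.card_eq_zero.1 (by omega)
    apply hne 0
    rw [h0]
    rfl
  | succ k ih =>
    intro s hs L hL v l hv hne
    have hsne : s.Nonempty := by
      rw [Finset.nonempty_iff_ne_empty]
      intro h0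
      apply hne 0
      rw [h0]
      rfl
    obtain ⟨j0, hj0, ψ1, hψ1, hmax⟩ := freq_max s hsne l
    obtain ⟨ρ, hρ⟩ : ∃ ρ : ℕ → Fin T → ℝ, ρ = fun t j => max 0 (min
      (((l (ψ1 t) j0 : ℝ) - l (ψ1 t) j) * Real.log g / L (ψ1 t)) 1) := ⟨_, rfl⟩
    have hρm : ∀ t, ρ t ∈ Set.pi Set.univ fun _ : Fin T => Set.Icc (0 : ℝ) 1 := by
      intro t j _
      rw [hρ]
      exact ⟨le_max_left _ _, max_le zero_le_one (min_le_right _ _)⟩
    obtain ⟨lam, -, φ, hφ, hlam⟩ := (isCompact_univ_pi fun _ : Fin T =>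
      (isCompact_Icc : IsCompact (Set.Icc (0 : ℝ) 1))).tendsto_subseq hρm
    rw [tendsto_pi_nhds] at hlam
    obtain ⟨J, hJ⟩ : ∃ J : Finset (Fin T), J = s.filter fun j => lam j = 0 := ⟨_, rfl⟩
    have hJs : J ⊆ s := by rw [hJ]; exact Finset.filter_subset _ _
    have hlam0 : lam j0 = 0 := by
      have h1 : Tendsto (fun _ : ℕ => (0 : ℝ)) atTop (𝓝 (lam j0)) := by
        refine (hlam j0).congr fun t => ?_
        simp [hρ]
      exact (tendsto_nhds_unique h1 tendsto_const_nhds)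
    have hj0J : j0 ∈ J := by rw [hJ]; exact Finset.mem_filter.2 ⟨hj0, hlam0⟩
    obtain ⟨j1, hj1, ψ2, hψ2, hmin⟩ := freq_min J ⟨j0, hj0J⟩ fun t => l (ψ1 (φ t))
    obtain ⟨χ, hχ⟩ : ∃ χ : ℕ → ℕ, χ = fun t => ψ1 (φ (ψ2 t)) := ⟨_, rfl⟩
    have hχm : StrictMono χ := by rw [hχ]; exact hψ1.comp (hφ.comp hψ2)
    have hχt := hχm.tendsto_atTop
    have hLχ : Tendsto (L ∘ χ) atTop atTop := hL.comp hχt
    have hlam' : ∀ j, Tendsto (fun t => max 0 (min
        (((l (χ t) j0 : ℝ) - l (χ t) j) * Real.log g / L (χ t)) 1)) atTop (𝓝 (lam j)) := by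
      intro j
      have h1 := (hlam j).comp hψ2.tendsto_atTop
      refine h1.congr fun t => ?_
      simp only [Function.comp_apply, hρ, hχ]
    have hmax' : ∀ t, ∀ j ∈ s, l (χ t) j ≤ l (χ t) j0 := fun t j hj => by
      rw [hχ]; exact hmax _ j hj
    have hmin' : ∀ t, ∀ j ∈ J, l (χ t) j1 ≤ l (χ t) j := fun t j hj => by
      rw [hχ]; exact hmin _ j hj
    -- small gaps
    have hsmall : ∀ j ∈ J, ∀ ε : ℝ, 0 < ε → ∀ᶠ t in atTop,
        ((l (χ t) j0 : ℝ) - l (χ t) j) * Real.log g ≤ ε * L (χ t) := by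
      intro j hj ε hε
      have h0 : lam j = 0 := by rw [hJ] at hj; exact (Finset.mem_filter.1 hj).2
      have h1 := hlam' j
      rw [h0] at h1
      filter_upwards [h1.eventually_lt_const (lt_min hε one_pos),
        hLχ.eventually_gt_atTop 0] with t h2 h3
      have h3' : 0 < L (χ t) := h3
      have h4 := (le_max_right 0 _).trans_lt h2
      have h5 : ((l (χ t) j0 : ℝ) - l (χ t) j) * Real.log g / L (χ t) < ε := by
        rcases min_lt_iff.1 h4 with h | h
        · exact h.trans_le (min_le_left _ _)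
        · exact absurd (h.trans_le (min_le_right _ _)) (lt_irrefl _)
      exact ((div_lt_iff₀ h3').1 h5).le
    -- large gaps
    obtain ⟨η, hη, hlarge⟩ : ∃ η : ℝ, 0 < η ∧ ∀ᶠ t in atTop, ∀ j ∈ s \ J,
        2 * η * L (χ t) ≤ ((l (χ t) j0 : ℝ) - l (χ t) j) * Real.log g := by
      have hpos : ∀ j ∈ s \ J, 0 < lam j := by
        intro j hj
        obtain ⟨h1, h2⟩ := Finset.mem_sdiff.1 hj
        have h3 : 0 ≤ lam j := ge_of_tendsto' (hlam' j) fun t => le_max_left _ _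
        refine lt_of_le_of_ne h3 fun h4 => h2 ?_
        rw [hJ]
        exact Finset.mem_filter.2 ⟨h1, h4.symm⟩
      obtain ⟨μ, hμ, hμ'⟩ : ∃ μ : ℝ, 0 < μ ∧ ∀ j ∈ s \ J, μ < lam j := by
        by_cases hne' : (s \ J).Nonempty
        · obtain ⟨j2, hj2, hj2'⟩ := Finset.exists_min_image (s \ J) lam hne'
          have h1 := hpos j2 hj2
          refine ⟨lam j2 / 2, by linarith, fun j hj => ?_⟩
          have := hj2' j hj
          linarith
        · exact ⟨1, one_pos, fun j hj => absurd ⟨j, hj⟩ hne'⟩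
      refine ⟨μ / 2, by linarith, ?_⟩
      rw [Finset.eventually_all]
      intro j hj
      filter_upwards [(hlam' j).eventually_const_lt (hμ' j hj),
        hLχ.eventually_gt_atTop 0] with t h2 h3
      have h3' : 0 < L (χ t) := h3
      have h4 : μ < min (((l (χ t) j0 : ℝ) - l (χ t) j) * Real.log g / L (χ t)) 1 := by
        rcases lt_max_iff.1 h2 with h | h
        · linarith
        · exact h
      have h5 := h4.trans_le (min_le_left _ _)
      rw [lt_div_iff₀ h3'] at h5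
      linarith
    -- the leading coefficient
    obtain ⟨A, hA⟩ : ∃ A : ℕ → ℤ, A = fun t => ∑ j ∈ J, v (χ t) j *
      (g : ℤ) ^ (l (χ t) j - l (χ t) j1) := ⟨_, rfl⟩
    have hAS : Sub (L ∘ χ) fun t => (A t : ℝ) := by
      have h1 : ∀ j ∈ J, Dec (L ∘ χ) 0 fun t => (v (χ t) j : ℝ) *
          (g : ℝ) ^ (l (χ t) j - l (χ t) j1) := by
        intro j hj
        refine dec_zero_iff.2 (((hv j).comp hχt).mul ?_)
        intro ε hε
        filter_upwards [hsmall j1 hj1 ε hε] with t h2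
        rw [abs_of_nonneg (by positivity), ← Real.exp_log hg0, ← Real.exp_nat_mul]
        apply Real.exp_le_exp.2
        refine le_trans ?_ h2
        apply mul_le_mul_of_nonneg_right _ hlg.le
        have h3 := hmax' t j (hJs hj)
        have h4 := hmin' t j hj
        rw [Nat.cast_sub h4]
        have h5 : (l (χ t) j : ℝ) ≤ l (χ t) j0 := by exact_mod_cast h3
        linarith
      refine dec_zero_iff.1 ((RT.Dec.sum hLχ J h1).mono (Eventually.of_forall fun t => ?_))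
      rw [hA]
      push_cast
      exact le_rfl
    have hAe : ∀ t, ss g s (v (χ t)) (l (χ t)) = A t * (g : ℤ) ^ l (χ t) j1 +
        ss g (s \ J) (v (χ t)) (l (χ t)) := by
      intro t
      rw [ss_split g hJs]
      congr 1
      rw [hA]
      unfold ss
      simp only
      rw [Finset.sum_mul]
      refine Finset.sum_congr rfl fun j hj => ?_
      rw [mul_assoc, ← pow_add, Nat.sub_add_cancel (hmin' t j hj)]
    have hgap : ∀ᶠ t in atTop, ∀ j ∈ s \ J, (l (χ t) j : ℝ) * Real.log g + η * L (χ t) ≤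
        l (χ t) j1 * Real.log g := by
      filter_upwards [hlarge, hsmall j1 hj1 η hη] with t h1 h2 j hj
      have h3 := h1 j hj
      linarith
    by_cases hfr : ∃ᶠ t in atTop, A t ≠ 0
    · obtain ⟨ψ3, hψ3, hψ3'⟩ := Filter.extraction_of_frequently_atTop (hfr.and_eventually hgap)
      refine ⟨χ ∘ ψ3, hχm.comp hψ3, η, s \ J, fun t => l (χ (ψ3 t)) j1, fun t => A (ψ3 t), hη,
        fun t => (hψ3' t).1, ?_, fun t => hAe _, fun t => (hψ3' t).2⟩
      exact hAS.comp hψ3.tendsto_atTop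
    · rw [not_frequently] at hfr
      obtain ⟨t0, ht0⟩ := eventually_atTop.1 hfr
      obtain ⟨ψ3, hψ3⟩ : ∃ ψ3 : ℕ → ℕ, ψ3 = fun t => t + t0 := ⟨_, rfl⟩
      have hψ3m : StrictMono ψ3 := by
        rw [hψ3]
        intro a b hab
        simpa using hab
      have hψ3t := hψ3m.tendsto_atTop
      have hzero : ∀ t, A (ψ3 t) = 0 := fun t => by
        have := ht0 (ψ3 t) (by rw [hψ3]; simp)
        simpa using this
      have hcard : (s \ J).card ≤ k := by
        have h1 : (s \ J).card < s.card := Finset.card_lt_card (by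
          rw [Finset.ssubset_iff_of_subset Finset.sdiff_subset]
          exact ⟨j0, hj0, fun h => (Finset.mem_sdiff.1 h).2 hj0J⟩)
        omega
      obtain ⟨ψ4, hψ4, η', s', f, A', h1, h2, h3, h4, h5⟩ := ih (s \ J) hcard
        (fun t => L (χ (ψ3 t))) (hLχ.comp hψ3t) (fun t => v (χ (ψ3 t))) (fun t => l (χ (ψ3 t)))
        (fun j => (hv j).comp (hχt.comp hψ3t)) (fun t => by
          have e1 := hAe (ψ3 t)
          rw [hzero, zero_mul, zero_add] at e1
          rw [← e1]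
          exact hne _)
      refine ⟨fun t => χ (ψ3 (ψ4 t)), hχm.comp (hψ3m.comp hψ4), η', s', f, A', h1, h2, h3,
        fun t => ?_, h5⟩
      rw [← h4 t, hAe, hzero, zero_mul, zero_add]

end Pool.Agent.H455.CB
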