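import Mathlib
import Pool.Agent.H455.VC9

set_option autoImplicit false

/-!
# Integral points with one sparse coordinate: the uniform bound
-/

open Finset Filter Topology

namespace Pool.Agent.H455.VC

open Pool.Agent.TH419.WI Pool.Agent.TH419.HX
open Pool.Agent.Results.MP_821da1_nt.LaurentDichotomy (UnitOf NoLaurentCurve Qbar)

variable {d r H : ℕ} {S : Finset ℕ} {η : ℝ}

theorem finite_polys (d H : ℕ) :
    {E : Polynomial ℤ | E.natDegree ≤ d ∧ ∀ i, |E.coeff i| ≤ H}.Finite := by
  classical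
  have h1 : (Set.pi Set.univ fun _ : Fin (d + 1) => (Set.Icc (-(H : ℤ)) H)).Finite :=
    Set.Finite.pi fun _ => Set.finite_Icc _ _
  refine (h1.image fun f => ∑ i : Fin (d + 1), Polynomial.C (f i) * Polynomial.X ^ (i : ℕ)).subset ?_
  rintro E ⟨hE1, hE2⟩
  refine ⟨fun i => E.coeff i, ?_, ?_⟩
  · intro i _
    exact abs_le.1 (hE2 i)
  · simp only
    rw [Finset.sum_range (n := d + 1) (fun i => Polynomial.C (E.coeff i) * Polynomial.X ^ i) |>.symm]
    exact (E.as_sum_range_C_mul_X_pow' (by omega)).symm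

/-- the coefficients of the edge polynomial -/
theorem coeff_edge {p q : ℕ} (hp : 1 ≤ p) (F : MvPolynomial (Fin 2) ℤ) (ρ τ : ℚ)
    (m : Fin 2 →₀ ℕ) (hm : m ∈ F.support) (hw : wt p q m = topw p q F) :
    (edgePoly p q F ρ τ).coeff (m 1) = ((F.coeff m : ℤ) : ℚ) * ρ ^ m 0 * τ ^ m 1 := by
  classical
  rw [edgePoly, Polynomial.finsetSum_coeff]
  simp only [Polynomial.coeff_C_mul, Polynomial.coeff_X_pow]
  rw [Finset.sum_eq_single m]
  · rw [if_pos rfl, mul_one]
  · intro m' hm' hne
    rw [if_neg, mul_zero]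
    intro h1
    apply hne
    have h2 : p * m' 0 + q * m' 1 = p * m 0 + q * m 1 :=
      (Finset.mem_filter.1 hm').2.trans hw.symm
    rw [← h1] at h2
    have h3 : m' 0 = m 0 := by
      have h4 : p * m' 0 = p * m 0 := by omega
      exact Nat.eq_of_mul_eq_mul_left (by omega) h4
    ext j
    fin_cases j
    · exact h3
    · exact h1.symm
  · intro h
    exact absurd (Finset.mem_filter.2 ⟨hm, hw⟩) h

theorem coeff_edge_ne {p q : ℕ} (F : MvPolynomial (Fin 2) ℤ) (ρ τ : ℚ) (k : ℕ)
    (hk : (edgePoly p q F ρ τ).coeff k ≠ 0) : ∃ m ∈ F.support, wt p q m = topw p q F ∧ m 1 = k := by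
  classical
  by_contra hcon
  push Not at hcon
  apply hk
  rw [edgePoly, Polynomial.finsetSum_coeff]
  refine Finset.sum_eq_zero fun m hm => ?_
  obtain ⟨h1, h2⟩ := Finset.mem_filter.1 hm
  rw [Polynomial.coeff_C_mul, Polynomial.coeff_X_pow, if_neg (Ne.symm (hcon m h1 h2)), mul_zero]

theorem natDegree_edge {p q d : ℕ} (F : MvPolynomial (Fin 2) ℤ) (hF : F.totalDegree ≤ d)
    (ρ τ : ℚ) : (edgePoly p q F ρ τ).natDegree ≤ d := by
  rw [Polynomial.natDegree_le_iff_coeff_eq_zero]
  intro k hk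
  by_contra h0
  obtain ⟨m, hm, -, hmk⟩ := coeff_edge_ne F ρ τ k h0
  have := exp_le_totalDegree hF hm 1
  omega

/-- **There are no sequences of large points.** -/
theorem noseq (hη : 0 < η) (hS : ∀ p ∈ S, p.Prime) (D : ℕ → Datum d r H S η)
    (hbig : Tendsto (fun t => (D t).ratio) atTop atTop) : False := by
  classical
  obtain ⟨ψ, p, q, hψ, hp, hq, hxy, hy1, hy2⟩ := slope hη D hbig
  have hψt := hψ.tendsto_atTop
  choose g h c l E hg hh hc hgM hhM hsq hE hedge using fun t => (D (ψ t)).tame p q hp hq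
  obtain ⟨B, hB⟩ := smooth_root S hS p hp
  choose α δ hα hαδ hδB hδ1 hαu using fun t => hB ((D (ψ t)).u 0) ((D (ψ t)).hu 0)
  -- degrees
  have hE0 : ∀ t, E t ≠ 0 := by
    intro t h0
    have h1 := hsq t
    rw [h0, Polynomial.map_zero] at h1
    exact h1.ne_zero rfl
  have hEQ : ∀ t, (E t).map (Int.castRingHom ℚ) ≠ 0 := fun t => (hsq t).ne_zero
  have hdeg : ∀ t, l t + (E t).natDegree ≤ d := by
    intro t
    have h1 := natDegree_edge (p := p) (q := q) (D (ψ t)).F (D (ψ t)).hF ((D (ψ t)).a 0 / (D (ψ t)).b)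
      (h t / g t)
    rw [hedge t, Polynomial.natDegree_mul (mul_ne_zero (Polynomial.C_ne_zero.2 (hc t))
      (pow_ne_zero _ Polynomial.X_ne_zero)) (hEQ t), Polynomial.natDegree_C_mul (hc t),
      Polynomial.natDegree_X_pow, Polynomial.natDegree_map_eq_of_injective
        (by exact (Int.castRingHom ℚ).injective_int)] at h1
    exact h1
  -- the finite data are constant on a subsequence
  have hfin : ({s : Finset (Fin 2 →₀ ℕ) | s ⊆ (Finsupp.finite_of_degree_le (σ := Fin 2) d).toFinset} ×ˢ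
      (Set.Iic B ×ˢ (Set.Iic d ×ˢ {E : Polynomial ℤ | E.natDegree ≤ d ∧ ∀ i, |E.coeff i| ≤ H}))).Finite := by
    refine Set.Finite.prod ?_ ((Set.finite_Iic _).prod ((Set.finite_Iic _).prod (finite_polys d H)))
    have h1 := (Finset.powerset (Finsupp.finite_of_degree_le (σ := Fin 2) d).toFinset).finite_toSet
    refine h1.subset fun s hs => ?_
    exact Finset.mem_coe.2 (Finset.mem_powerset.2 hs)
  obtain ⟨⟨supp, δc, lc, Ec⟩, -, hfr⟩ := freq_exists hfin
    (fun t a => (D (ψ t)).F.support = a.1 ∧ δ t = a.2.1 ∧ l t = a.2.2.1 ∧ E t = a.2.2.2)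
    (Eventually.of_forall fun t => ⟨((D (ψ t)).F.support, δ t, l t, E t), by
      refine ⟨?_, ?_, ?_, ?_, ?_⟩
      · intro m hm
        rw [Set.Finite.mem_toFinset]
        exact (MvPolynomial.le_totalDegree hm).trans (D (ψ t)).hF
      · exact hδB t
      · show l t ≤ d
        have := hdeg t
        omega
      · show (E t).natDegree ≤ d
        have := hdeg t
        omega
      · exact hE t, rfl, rfl, rfl, rfl⟩)
  obtain ⟨φ, hφ, hφc⟩ := Filter.extraction_of_frequently_atTop hfr
  simp only at hφc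
  have hφt := hφ.tendsto_atTop
  have hsup : ∀ t, topw p q (D (ψ (φ t))).F = supp.sup (wt p q) := fun t => by
    rw [topw, (hφc t).1]
  -- the instances
  let I : ℕ → Inst d r H S η p q (supp.sup (wt p q)) supp (Polynomial.X ^ lc * Ec) δc := fun t =>
    { toDatum := D (ψ (φ t))
      α := α (φ t)
      g := g (φ t)
      h := h (φ t)
      c := c (φ t)
      hα := hα (φ t)
      hαδ := by rw [← (hφc t).2.1]; exact hαδ (φ t)
      hg := hg (φ t)
      hh := hh (φ t)
      hc := hc (φ t)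
      hgM := hgM (φ t)
      hhM := hhM (φ t)
      hsupp := (hφc t).1
      hedge := by
        intro m hm hw
        have h1 := coeff_edge (q := q) hp (D (ψ (φ t))).F
          ((D (ψ (φ t))).a 0 / (D (ψ (φ t))).b) (h (φ t) / g (φ t)) m
          (by rw [(hφc t).1]; exact hm) (by rw [hsup]; exact hw)
        rw [← h1, hedge (φ t), mul_assoc, Polynomial.coeff_C_mul, (hφc t).2.2.1, (hφc t).2.2.2]
        congr 1
        have h2 : (Polynomial.X ^ lc * Ec.map (Int.castRingHom ℚ) : Polynomial ℚ) =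
            (Polynomial.X ^ lc * Ec).map (Int.castRingHom ℚ) := by
          rw [Polynomial.map_mul, Polynomial.map_pow, Polynomial.map_X]
        rw [h2, Polynomial.coeff_map]
        rfl }
  have hbigI : Tendsto (fun t => (I t).toDatum.ratio) atTop atTop := hbig.comp (hψt.comp hφt)
  have hcover : ∀ k, (Polynomial.X ^ lc * Ec).coeff k ≠ 0 →
      ∃ m ∈ supp, wt p q m = supp.sup (wt p q) ∧ m 1 = k := by
    intro k hk
    have h1 : (edgePoly p q (D (ψ (φ 0))).F ((D (ψ (φ 0))).a 0 / (D (ψ (φ 0))).b)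
        (h (φ 0) / g (φ 0))).coeff k ≠ 0 := by
      rw [hedge (φ 0), mul_assoc, Polynomial.coeff_C_mul, (hφc 0).2.2.1, (hφc 0).2.2.2]
      have h2 : (Polynomial.X ^ lc * Ec.map (Int.castRingHom ℚ) : Polynomial ℚ) =
          (Polynomial.X ^ lc * Ec).map (Int.castRingHom ℚ) := by
        rw [Polynomial.map_mul, Polynomial.map_pow, Polynomial.map_X]
      rw [h2, Polynomial.coeff_map]
      refine mul_ne_zero (hc _) ?_
      rw [eq_intCast]
      exact_mod_cast hk
    obtain ⟨m, hm, hw, hmk⟩ := coeff_edge_ne _ _ _ k h1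
    rw [(hφc 0).1] at hm
    rw [hsup] at hw
    exact ⟨m, hm, hw, hmk⟩
  have hsqc : Squarefree (Ec.map (Int.castRingHom ℚ)) := by
    have := hsq (φ 0)
    rwa [(hφc 0).2.2.2] at this
  have hDw : ∀ m ∈ supp, wt p q m ≤ supp.sup (wt p q) := fun m hm => Finset.le_sup hm
  have hy1' : Sub (fun t => Real.log ((I t).u 0))
      (fun t => |((I t).y : ℝ)| ^ p / ((I t).u 0 : ℝ) ^ q) := hy1.comp hφt
  have hy2' : Sub (fun t => Real.log ((I t).u 0))
      (fun t => ((I t).u 0 : ℝ) ^ q / |((I t).y : ℝ)| ^ p) := hy2.comp hφt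
  by_cases hW : Tendsto (fun t => ‖(I t).W‖) atTop atTop
  · refine core hη hS hp hDw lc Ec rfl hsqc hcover I hbigI (fun t => (hxy (φ t)).2) hy1' hy2' ?_
    intro h0
    exfalso
    by_cases hdeg0 : Ec.natDegree = 0
    · have hC := Polynomial.eq_C_of_natDegree_eq_zero hdeg0
      have h00 : Tendsto (fun _ : ℕ => ((Ec.coeff 0 : ℤ) : ℝ)) atTop (𝓝 0) := by
        refine h0.congr fun t => ?_
        have h5 := congrArg (fun P => (Polynomial.aeval ((I t).W) P : ℝ)) hC
        simp only [Polynomial.aeval_C] at h5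
        exact h5
      have h1 := tendsto_nhds_unique h00 tendsto_const_nhds
      have h2 : Ec.coeff 0 = 0 := by
        have h3 : ((Ec.coeff 0 : ℤ) : ℝ) = 0 := h1.symm
        exact_mod_cast h3
      apply hsqc.ne_zero
      rw [h2, Polynomial.C_0] at hC
      rw [hC, Polynomial.map_zero]
    · have h1 : 0 < (Ec.map (Int.castRingHom ℝ)).degree := by
        rw [Polynomial.degree_map_eq_of_injective (by exact (Int.castRingHom ℝ).injective_int)]
        exact Polynomial.natDegree_pos_iff_degree_pos.1 (Nat.pos_of_ne_zero hdeg0)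
      have h2 := Polynomial.tendsto_norm_atTop _ h1 hW
      have h3 : Tendsto (fun t => ‖Polynomial.eval ((I t).W) (Ec.map (Int.castRingHom ℝ))‖) atTop
          (𝓝 0) := by
        have h4 := h0.norm
        rw [norm_zero] at h4
        refine h4.congr fun t => ?_
        rw [Polynomial.eval_map, Polynomial.aeval_def]
        rfl
      exact not_tendsto_atTop_of_tendsto_nhds h3 h2
  · rw [tendsto_atTop] at hW
    push Not at hW
    obtain ⟨R, hR⟩ := hW
    obtain ⟨χ, hχ, hχR⟩ := Filter.extraction_of_frequently_atTop hR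
    obtain ⟨ω, -, κ, hκ, hκω⟩ := tendsto_subseq_of_bounded (Metric.isBounded_closedBall
      (x := (0 : ℝ)) (r := R)) (x := fun t => (I (χ t)).W) (fun t => by
        rw [mem_closedBall_zero_iff]
        exact (not_le.1 (by simpa using hχR t)).le)
    have hχt := hχ.tendsto_atTop
    have hκt := hκ.tendsto_atTop
    exact core hη hS hp hDw lc Ec rfl hsqc hcover (fun t => I (χ (κ t)))
      (hbigI.comp (hχt.comp hκt)) (fun t => (hxy _).2) (hy1'.comp (hχt.comp hκt))
      (hy2'.comp (hχt.comp hκt)) (fun _ => ⟨ω, hκω⟩)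

end Pool.Agent.H455.VC
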