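import Mathlib
import Pool.Agent.H455.VC10

set_option autoImplicit false

/-!
# Integral points with one sparse coordinate: auxiliary facts for the final statement
-/

open Finset Filter Topology

namespace Pool.Agent.H455.VC

open Pool.Agent.TH419.WI Pool.Agent.TH419.HX
open Pool.Agent.Results.MP_821da1_nt.LaurentDichotomy (UnitOf NoLaurentCurve Qbar)

/-! ### Laurent polynomials -/

open LaurentPolynomial in
theorem laurent_eq_zero (f : LaurentPolynomial Qbar)
    (h : ∀ t : Qbarˣ, LaurentPolynomial.eval₂ (RingHom.id Qbar) t f = 0) : f = 0 := by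
  obtain ⟨n, f', hf'⟩ := LaurentPolynomial.exists_T_pow f
  have h1 : f' = 0 := by
    have h2 : f' * Polynomial.X = 0 := by
      refine Polynomial.funext fun t => ?_
      rw [Polynomial.eval_mul, Polynomial.eval_X, Polynomial.eval_zero]
      by_cases ht : t = 0
      · rw [ht, mul_zero]
      · have h3 := congrArg (LaurentPolynomial.eval₂ (RingHom.id Qbar) (Units.mk0 t ht)) hf'
        rw [LaurentPolynomial.eval₂_toLaurent, map_mul, h, zero_mul, Polynomial.eval₂_id] at h3
        rw [Units.val_mk0] at h3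
        rw [h3, zero_mul]
    exact (mul_eq_zero.1 h2).resolve_right Polynomial.X_ne_zero
  rw [h1, map_zero] at hf'
  have h4 := congrArg (fun g => g * LaurentPolynomial.T (-(n : ℤ))) hf'
  simp only [zero_mul, mul_assoc, ← LaurentPolynomial.T_add, add_neg_cancel,
    LaurentPolynomial.T_zero, mul_one] at h4
  exact h4.symm

theorem noLaurent_of (F : MvPolynomial (Fin 2) ℤ)
    (h : ∀ p : Fin 2 → LaurentPolynomial Qbar, MvPolynomial.aeval p F = 0 →
      ∀ i, ∃ c, p i = LaurentPolynomial.C c) :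
    NoLaurentCurve (MvPolynomial.map (algebraMap ℤ Qbar) F) := by
  intro N c hc t ht a
  obtain ⟨p, hp⟩ : ∃ p : Fin 2 → LaurentPolynomial Qbar, p = fun a =>
    ∑ k ∈ Finset.Icc (-(N : ℤ)) N, LaurentPolynomial.C (c k a) * LaurentPolynomial.T k := ⟨_, rfl⟩
  have hev : ∀ (t : Qbarˣ) (a : Fin 2), LaurentPolynomial.eval₂ (RingHom.id Qbar) t (p a) =
      ∑ k ∈ Finset.Icc (-(N : ℤ)) N, (t : Qbar) ^ k * c k a := by
    intro t a
    rw [hp, map_sum]
    refine Finset.sum_congr rfl fun k _ => ?_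
    rw [map_mul, LaurentPolynomial.eval₂_C, LaurentPolynomial.eval₂_T, RingHom.id_apply,
      mul_comm, Units.val_zpow_eq_zpow_val]
  have h0 : MvPolynomial.aeval p F = 0 := by
    apply laurent_eq_zero
    intro t
    have h1 := hc t t.ne_zero
    rw [MvPolynomial.aeval_map_algebraMap] at h1
    rw [MvPolynomial.aeval_def, MvPolynomial.eval₂_comp_left]
    rw [MvPolynomial.aeval_def] at h1
    have h2 : (LaurentPolynomial.eval₂ (RingHom.id Qbar) t ∘ p : Fin 2 → Qbar) =
        fun a => ∑ k ∈ Finset.Icc (-(N : ℤ)) N, (t : Qbar) ^ k * c k a := funext fun a => hev t a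
    rw [h2, ← h1]
    congr 1
    exact RingHom.ext_int _ _
  obtain ⟨e, he⟩ := h p h0 a
  have h3 : ∀ t : Qbarˣ, ∑ k ∈ Finset.Icc (-(N : ℤ)) N, (t : Qbar) ^ k * c k a = e := by
    intro t
    rw [← hev, he, LaurentPolynomial.eval₂_C, RingHom.id_apply]
  have h4 := h3 (Units.mk0 t ht)
  have h5 := h3 1
  rw [Units.val_mk0] at h4
  simp only [Units.val_one, one_zpow, one_mul] at h5
  rw [h4, h5]

/-! ### the case of bounded leading coefficients -/

/-- separability under scaling -/
theorem separable_scale (G A : Polynomial ℂ) (s c : ℂ) (hs : s ≠ 0) (hc : c ≠ 0)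
    (hG : G.Separable) (h : A.comp (Polynomial.C s * Polynomial.X) = Polynomial.C c * G) :
    A.Separable := by
  have h1 : Polynomial.C s * (Polynomial.derivative A).comp (Polynomial.C s * Polynomial.X) =
      Polynomial.C c * Polynomial.derivative G := by
    have h2 := congrArg Polynomial.derivative h
    rw [Polynomial.derivative_comp, Polynomial.derivative_C_mul, Polynomial.derivative_C_mul,
      Polynomial.derivative_X, mul_one] at h2
    rw [← h2, mul_comm]
  have hus : IsUnit (Polynomial.C s) := Polynomial.isUnit_C.2 (isUnit_iff_ne_zero.2 hs)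
  have huc : IsUnit (Polynomial.C c) := Polynomial.isUnit_C.2 (isUnit_iff_ne_zero.2 hc)
  have h2 : IsCoprime (A.comp (Polynomial.C s * Polynomial.X))
      ((Polynomial.derivative A).comp (Polynomial.C s * Polynomial.X)) := by
    have h3 : IsCoprime (Polynomial.C c * G) (Polynomial.C c * Polynomial.derivative G) :=
      (isCoprime_mul_unit_left_left huc _ _).2 ((isCoprime_mul_unit_left_right huc _ _).2 hG)
    rw [← h, ← h1] at h3
    exact (isCoprime_mul_unit_left_right hus _ _).1 h3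
  have h3 := h2.map (Polynomial.compRingHom (Polynomial.C s⁻¹ * Polynomial.X))
  rw [Polynomial.coe_compRingHom_apply, Polynomial.coe_compRingHom_apply, Polynomial.comp_assoc,
    Polynomial.comp_assoc] at h3
  have h4 : (Polynomial.C s * Polynomial.X : Polynomial ℂ).comp
      (Polynomial.C s⁻¹ * Polynomial.X) = Polynomial.X := by
    rw [Polynomial.mul_comp, Polynomial.C_comp, Polynomial.X_comp, ← mul_assoc,
      ← Polynomial.C_mul, mul_inv_cancel₀ hs, Polynomial.C_1, one_mul]
  rw [h4, Polynomial.comp_X, Polynomial.comp_X] at h3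
  exact h3

/-- bounded leading coefficients without multiple roots -/
theorem tame_of_bounded {d H : ℕ} (F : MvPolynomial (Fin 2) ℤ) (hF : F.totalDegree ≤ d)
    (a b : ℤ) (ha0 : a ≠ 0) (hb0 : b ≠ 0) (ha : |a| ≤ H) (hb : |b| ≤ H) (M : ℝ) (hM : 1 ≤ M)
    (hbd : ∀ p q : ℕ, 1 ≤ p → 1 ≤ q →
      (∀ m ∈ F.support, wt p q m = topw p q F → |F.coeff m| ≤ H) ∧
        ∃ (l : ℕ) (G : Polynomial ℚ), Squarefree G ∧ edgePoly p q F 1 1 = Polynomial.X ^ l * G) :
    Tame F (H ^ (d + 1)) M (a / b) := by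
  classical
  intro p q hp hq
  obtain ⟨hcf, l, G, hG, hGe⟩ := hbd p q hp hq
  obtain ⟨edge, hedge⟩ : ∃ edge, edge = F.support.filter fun m => wt p q m = topw p q F := ⟨_, rfl⟩
  have hb' : (b : ℚ) ≠ 0 := by exact_mod_cast hb0
  have ha' : (a : ℚ) ≠ 0 := by exact_mod_cast ha0
  have hl : ∀ m ∈ edge, l ≤ m 1 := by
    intro m hm
    rw [hedge] at hm
    obtain ⟨h1, h2⟩ := Finset.mem_filter.1 hm
    have h3 := coeff_edge hp F 1 1 m h1 h2
    rw [one_pow, one_pow, mul_one, mul_one, hGe] at h3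
    by_contra hcon
    rw [Polynomial.coeff_X_pow_mul', if_neg hcon] at h3
    have h4 : F.coeff m = 0 := by exact_mod_cast h3.symm
    exact MvPolynomial.mem_support_iff.1 h1 h4
  obtain ⟨E, hE⟩ : ∃ E : Polynomial ℤ, E = ∑ m ∈ edge,
      Polynomial.C (F.coeff m * a ^ m 0 * b ^ (d - m 0)) * Polynomial.X ^ (m 1 - l) := ⟨_, rfl⟩
  have hmain : edgePoly p q F (a / b) 1 = Polynomial.C (1 / (b : ℚ) ^ d) * Polynomial.X ^ l *
      E.map (Int.castRingHom ℚ) := by
    rw [edgePoly, ← hedge, hE, Polynomial.map_sum, Finset.mul_sum]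
    refine Finset.sum_congr rfl fun m hm => ?_
    rw [Polynomial.map_mul, Polynomial.map_C, Polynomial.map_pow, Polynomial.map_X]
    have hm' : m ∈ F.support := by
      rw [hedge] at hm
      exact (Finset.mem_filter.1 hm).1
    have h1 : (Polynomial.X : Polynomial ℚ) ^ m 1 = Polynomial.X ^ l * Polynomial.X ^ (m 1 - l) := by
      rw [← pow_add]; congr 1; have := hl m hm; omega
    have h2 : (b : ℚ) ^ d = (b : ℚ) ^ (d - m 0) * (b : ℚ) ^ m 0 := by
      rw [← pow_add]; congr 1; have := exp_le_totalDegree hF hm' 0; omega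
    have h3 : ((F.coeff m : ℤ) : ℚ) * ((a : ℚ) / b) ^ m 0 * 1 ^ m 1 = 1 / (b : ℚ) ^ d *
        (Int.castRingHom ℚ) (F.coeff m * a ^ m 0 * b ^ (d - m 0)) := by
      rw [eq_intCast, h2, div_pow, one_pow, mul_one]
      push_cast
      field_simp
    rw [h3, h1, Polynomial.C_mul]
    ring
  refine ⟨1, 1, 1 / (b : ℚ) ^ d, l, E, one_ne_zero, one_ne_zero,
    div_ne_zero one_ne_zero (pow_ne_zero _ hb'), by simpa using hM, by simpa using hM, ?_, ?_, ?_⟩
  · -- squarefree
    rw [← PerfectField.separable_iff_squarefree] at hG ⊢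
    obtain ⟨κ, hκ⟩ : ∃ κ : ℚ →+* ℂ, κ = algebraMap ℚ ℂ := ⟨_, rfl⟩
    have hGC : (G.map κ).Separable := hG.map
    rw [← Polynomial.separable_map κ]
    have hp0 : p ≠ 0 := by omega
    obtain ⟨lam, hlam⟩ := IsAlgClosed.exists_pow_nat_eq (κ ((a : ℚ) / b)) (Nat.pos_of_ne_zero hp0)
    have hρ : κ ((a : ℚ) / b) ≠ 0 := (map_ne_zero κ).2 (div_ne_zero ha' hb')
    have hlam0 : lam ≠ 0 := by
      rintro rfl
      rw [zero_pow hp0] at hlam
      exact hρ hlam.symm
    obtain ⟨A, hA⟩ : ∃ A, A = (E.map (Int.castRingHom ℚ)).map κ := ⟨_, rfl⟩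
    rw [← hA]
    have hbκ : κ (1 / (b : ℚ) ^ d) ≠ 0 := (map_ne_zero κ).2 (div_ne_zero one_ne_zero
      (pow_ne_zero _ hb'))
    have h1 : (edgePoly p q F (a / b) 1).map κ = Polynomial.C (κ (1 / (b : ℚ) ^ d)) *
        Polynomial.X ^ l * A := by
      rw [hmain, Polynomial.map_mul, Polynomial.map_mul, Polynomial.map_C, Polynomial.map_pow,
        Polynomial.map_X, hA]
    have h2 : ((edgePoly p q F (a / b) 1).map κ).comp (Polynomial.C (lam ^ q) * Polynomial.X) =
        Polynomial.C (lam ^ topw p q F) * (edgePoly p q F 1 1).map κ := by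
      rw [edgePoly, edgePoly, Polynomial.map_sum, Polynomial.map_sum, Polynomial.sum_comp,
        Finset.mul_sum]
      refine Finset.sum_congr rfl fun m hm => ?_
      have hm' := (Finset.mem_filter.1 hm).2
      rw [Polynomial.map_mul, Polynomial.map_C, Polynomial.map_pow, Polynomial.map_X,
        Polynomial.map_mul, Polynomial.map_C, Polynomial.map_pow, Polynomial.map_X,
        Polynomial.mul_comp, Polynomial.C_comp, Polynomial.X_pow_comp, mul_pow,
        ← Polynomial.C_pow, ← mul_assoc, ← mul_assoc, ← Polynomial.C_mul, ← Polynomial.C_mul]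
      congr 2
      rw [← hm', wt, pow_add, pow_mul, pow_mul, hlam]
      simp only [one_pow, mul_one, map_mul, map_pow]
      ring
    rw [h1, hGe, Polynomial.map_mul, Polynomial.map_pow, Polynomial.map_X, Polynomial.mul_comp,
      Polynomial.mul_comp, Polynomial.C_comp, Polynomial.X_pow_comp, mul_pow,
      ← Polynomial.C_pow] at h2
    have h3 : (Polynomial.X : Polynomial ℂ) ^ l *
        (Polynomial.C (κ (1 / (b : ℚ) ^ d) * (lam ^ q) ^ l) *
          A.comp (Polynomial.C (lam ^ q) * Polynomial.X)) =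
        Polynomial.X ^ l * (Polynomial.C (lam ^ topw p q F) * G.map κ) := by
      rw [Polynomial.C_mul]
      linear_combination h2
    have h4 := mul_left_cancel₀ (pow_ne_zero l Polynomial.X_ne_zero) h3
    obtain ⟨e, he⟩ : ∃ e, e = κ (1 / (b : ℚ) ^ d) * (lam ^ q) ^ l := ⟨_, rfl⟩
    have he0 : e ≠ 0 := by
      rw [he]; exact mul_ne_zero hbκ (pow_ne_zero _ (pow_ne_zero _ hlam0))
    rw [← he] at h4
    refine separable_scale (G.map κ) A (lam ^ q) (e⁻¹ * lam ^ topw p q F)
      (pow_ne_zero _ hlam0) (mul_ne_zero (inv_ne_zero he0) (pow_ne_zero _ hlam0)) hGC ?_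
    have h5 := congrArg (fun P => Polynomial.C e⁻¹ * P) h4
    simp only [← mul_assoc, ← Polynomial.C_mul, inv_mul_cancel₀ he0, Polynomial.C_1,
      one_mul] at h5
    exact h5
  · -- the coefficients
    intro i
    by_cases hi : E.coeff i = 0
    · rw [hi, abs_zero]
      positivity
    have h1 : (edgePoly p q F (a / b) 1).coeff (i + l) = 1 / (b : ℚ) ^ d * ((E.coeff i : ℤ) : ℚ) := by
      rw [hmain, mul_assoc, Polynomial.coeff_C_mul, Polynomial.coeff_X_pow_mul,
        Polynomial.coeff_map, eq_intCast]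
    have h2 : (edgePoly p q F (a / b) 1).coeff (i + l) ≠ 0 := by
      rw [h1]
      exact mul_ne_zero (div_ne_zero one_ne_zero (pow_ne_zero _ hb')) (by exact_mod_cast hi)
    obtain ⟨m, hm, hw, hmk⟩ := coeff_edge_ne F _ _ _ h2
    have h3 := coeff_edge hp F ((a : ℚ) / b) 1 m hm hw
    rw [hmk, h1, one_pow, mul_one, div_pow] at h3
    have hb2 : (b : ℚ) ^ d = (b : ℚ) ^ (d - m 0) * (b : ℚ) ^ m 0 := by
      rw [← pow_add]; congr 1; have := exp_le_totalDegree hF hm 0; omega
    have h4 : ((E.coeff i : ℤ) : ℚ) = F.coeff m * a ^ m 0 * b ^ (d - m 0) := by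
      rw [hb2] at h3
      field_simp at h3
      linear_combination h3
    have h5 : E.coeff i = F.coeff m * a ^ m 0 * b ^ (d - m 0) := by exact_mod_cast h4
    rw [h5, abs_mul, abs_mul, abs_pow, abs_pow]
    have hH : (1 : ℤ) ≤ H := (Int.one_le_abs ha0).trans ha
    have hm0 := exp_le_totalDegree hF hm 0
    calc |F.coeff m| * |a| ^ m 0 * |b| ^ (d - m 0) ≤ (H : ℤ) * (H : ℤ) ^ m 0 * (H : ℤ) ^ (d - m 0) :=
          mul_le_mul (mul_le_mul (hcf m hm hw) (pow_le_pow_left₀ (abs_nonneg _) ha _)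
            (by positivity) (by positivity)) (pow_le_pow_left₀ (abs_nonneg _) hb _)
            (by positivity) (by positivity)
      _ = (H : ℤ) ^ (d + 1) := by
          rw [mul_assoc, ← pow_add, ← pow_succ']
          congr 1
          omega
      _ = ((H ^ (d + 1) : ℕ) : ℤ) := by push_cast; rfl
  · rw [Int.cast_one, div_one]
    exact hmain

end Pool.Agent.H455.VC
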