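import Mathlib
import Pool.Agent.H455.CB1
import Pool.Agent.H455.VC11
import Pool.Graph.R_seed8.R343.LT4

set_option autoImplicit false

/-!
# Curves with unramified places at infinity, and integers with few powers of one base
-/

open Finset Filter Topology

namespace Pool.Agent.H455.CB

open Pool.Agent.TH419.WI Pool.Agent.TH419.HX Pool.Agent.H455.VC Pool.Agent.H455.RT
open Pool.Agent.R343.LT

/-- an integer which is a sum of integral powers of `b` is a sum of such powers with nonnegative
exponents -/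
theorem spq_nat {b : ℕ} (hb : 2 ≤ b) {T : ℕ} {B : ℤ} (hB : 0 ≤ B) {X : ℤ} (h : SpQ b T B X) :
    ∃ (l : Fin (T + 1) → ℕ) (v : Fin (T + 1) → ℤ), (∀ j, |v j| ≤ (T + 1) * B) ∧
      X = ∑ j, v j * (b : ℤ) ^ l j := by
  obtain ⟨l, v, hv, he⟩ := h
  have hb1 : (1 : ℚ) ≤ b := by exact_mod_cast (by omega : 1 ≤ b)
  have hTB : (0 : ℤ) ≤ T * B := mul_nonneg (Int.natCast_nonneg _) hB
  obtain ⟨n, hn⟩ : ∃ n : ℤ, n = X - ∑ j, (if 0 ≤ l j then v j else 0) * (b : ℤ) ^ (l j).toNat :=
    ⟨_, rfl⟩
  have hn' : (n : ℚ) = ∑ j, if 0 ≤ l j then 0 else (v j : ℚ) * (b : ℚ) ^ l j := by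
    rw [hn]
    push_cast
    rw [he, ← Finset.sum_sub_distrib]
    refine Finset.sum_congr rfl fun j _ => ?_
    split_ifs with h1
    · have h2 : (b : ℚ) ^ l j = (b : ℚ) ^ (l j).toNat := by
        rw [← zpow_natCast, Int.toNat_of_nonneg h1]
      rw [h2]
      ring
    · ring
  have hnb : |n| ≤ T * B := by
    have h1 : |(n : ℚ)| ≤ T * B := by
      rw [hn']
      refine (Finset.abs_sum_le_sum_abs _ _).trans ?_
      calc ∑ j, |if 0 ≤ l j then 0 else (v j : ℚ) * (b : ℚ) ^ l j| ≤ ∑ _j : Fin T, (B : ℚ) := by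
            refine Finset.sum_le_sum fun j _ => ?_
            split_ifs with h1
            · rw [abs_zero]; exact_mod_cast hB
            · rw [abs_mul]
              have h2 : |(b : ℚ) ^ l j| ≤ 1 := by
                rw [abs_of_nonneg (by positivity)]
                exact zpow_le_one_of_nonpos₀ hb1 (by omega)
              have h3 : |(v j : ℚ)| ≤ B := by exact_mod_cast hv j
              calc |(v j : ℚ)| * |(b : ℚ) ^ l j| ≤ B * 1 :=
                    mul_le_mul h3 h2 (abs_nonneg _) (by exact_mod_cast hB)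
                _ = B := mul_one _
        _ = T * B := by rw [Finset.sum_const, Finset.card_univ, Fintype.card_fin, nsmul_eq_mul]
    exact_mod_cast h1
  refine ⟨Fin.cons 0 fun j => (l j).toNat, Fin.cons n fun j => if 0 ≤ l j then v j else 0,
    fun j => ?_, ?_⟩
  · refine Fin.cases ?_ (fun j => ?_) j
    · rw [Fin.cons_zero]
      refine hnb.trans ?_
      linarith
    · rw [Fin.cons_succ]
      split_ifs
      · refine (hv j).trans ?_
        linarith
      · rw [abs_zero]
        linarith
  · rw [Fin.sum_univ_succ]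
    simp only [Fin.cons_zero, Fin.cons_succ, pow_zero, mul_one]
    rw [hn]
    ring

/-- for all weights the part of highest weight is a monomial, or the slope is integral and, up to a
constant factor and a power of `T`, the part is squarefree with coefficients bounded by `H` -/
def Unr (F : MvPolynomial (Fin 2) ℤ) (H : ℕ) : Prop :=
  ∀ p q : ℕ, 1 ≤ p → 1 ≤ q →
    (∃ m, ∀ m' ∈ F.support, wt p q m' = topw p q F → m' = m) ∨
    (p ∣ q ∧ ∃ (c : ℚ) (l : ℕ) (E : Polynomial ℤ), c ≠ 0 ∧
      Squarefree (E.map (Int.castRingHom ℚ)) ∧ (∀ i, |E.coeff i| ≤ H) ∧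
      edgePoly p q F 1 1 = Polynomial.C c * Polynomial.X ^ l * E.map (Int.castRingHom ℚ))

theorem exists_top (p q : ℕ) {F : MvPolynomial (Fin 2) ℤ} (hF : F ≠ 0) :
    ∃ m ∈ F.support, wt p q m = topw p q F := by
  have h1 : F.support.Nonempty := by
    rw [Finset.nonempty_iff_ne_empty]
    intro h
    exact hF (MvPolynomial.support_eq_empty.1 h)
  obtain ⟨m, hm, hm'⟩ := Finset.exists_mem_eq_sup F.support h1 (wt p q)
  exact ⟨m, hm, hm'.symm⟩

theorem tame_mono {p q : ℕ} {F : MvPolynomial (Fin 2) ℤ} (hF : F ≠ 0) (H : ℕ) {M : ℝ} (hM : 1 ≤ M)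
    {ρ : ℚ} (hρ : ρ ≠ 0) (h : ∃ m, ∀ m' ∈ F.support, wt p q m' = topw p q F → m' = m) :
    ∃ (g h : ℤ) (c : ℚ) (l : ℕ) (E : Polynomial ℤ),
    g ≠ 0 ∧ h ≠ 0 ∧ c ≠ 0 ∧ |(g : ℝ)| ≤ M ∧ |(h : ℝ)| ≤ M ∧
    Squarefree (E.map (Int.castRingHom ℚ)) ∧ (∀ i, |E.coeff i| ≤ (H + 1 : ℕ)) ∧
    edgePoly p q F ρ (h / g) = Polynomial.C c * Polynomial.X ^ l * E.map (Int.castRingHom ℚ) := by
  obtain ⟨m, hm⟩ := h
  obtain ⟨m1, hm1, hm1'⟩ := exists_top p q hF
  have e1 := hm m1 hm1 hm1'
  rw [e1] at hm1 hm1'
  refine ⟨1, 1, ((F.coeff m : ℤ) : ℚ) * ρ ^ m 0, m 1, 1, one_ne_zero, one_ne_zero, ?_,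
    by simpa using hM, by simpa using hM, ?_, ?_, ?_⟩
  · exact mul_ne_zero (by exact_mod_cast MvPolynomial.mem_support_iff.1 hm1) (pow_ne_zero _ hρ)
  · rw [Polynomial.map_one]
    exact squarefree_one
  · intro i
    rw [Polynomial.coeff_one]
    split_ifs
    · simp
    · simp
      positivity
  · have h1 : F.support.filter (fun m => wt p q m = topw p q F) = {m} := by
      ext m'
      rw [Finset.mem_filter, Finset.mem_singleton]
      constructor
      · rintro ⟨h2, h3⟩
        exact hm m' h2 h3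
      · rintro rfl
        exact ⟨hm1, hm1'⟩
    rw [edgePoly, h1, Finset.sum_singleton]
    simp

/-- unramified curves are tame -/
theorem tame_of_unr {d H : ℕ} {F : MvPolynomial (Fin 2) ℤ} (hF0 : F ≠ 0)
    (hF : F.totalDegree ≤ d) (hU : Unr F H) {A D : ℤ} (hA : A ≠ 0) (hD : D ≠ 0) {M : ℝ}
    (hM : 1 ≤ M) (hAM : ∀ k ≤ d, |(A : ℝ)| ^ k ≤ M) (hDM : ∀ k ≤ d, |(D : ℝ)| ^ k ≤ M) :
    Tame F (H + 1) M (A / D) := by
  intro p q hp hq
  have hA' : (A : ℚ) ≠ 0 := by exact_mod_cast hA
  have hD' : (D : ℚ) ≠ 0 := by exact_mod_cast hD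
  have hρ : (A : ℚ) / D ≠ 0 := div_ne_zero hA' hD'
  rcases hU p q hp hq with h | ⟨⟨k, hk⟩, c, l, E, hc, hsq, hE, he⟩
  · exact tame_mono hF0 H hM hρ h
  have hw : ∀ m : Fin 2 →₀ ℕ, wt p q m = p * (m 0 + k * m 1) := by
    intro m
    unfold wt
    rw [hk]
    ring
  by_cases hkd : k ≤ d
  · refine ⟨D ^ k, A ^ k, c * ((A : ℚ) / D) ^ (topw p q F / p), l, E, pow_ne_zero _ hD,
      pow_ne_zero _ hA, mul_ne_zero hc (pow_ne_zero _ hρ), ?_, ?_, hsq, fun i => ?_, ?_⟩
    · push_cast
      rw [abs_pow]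
      exact hDM k hkd
    · push_cast
      rw [abs_pow]
      exact hAM k hkd
    · refine (hE i).trans ?_
      push_cast
      linarith
    · have h1 : edgePoly p q F (A / D) ((A ^ k : ℤ) / (D ^ k : ℤ)) =
          Polynomial.C (((A : ℚ) / D) ^ (topw p q F / p)) * edgePoly p q F 1 1 := by
        rw [edgePoly, edgePoly, Finset.mul_sum]
        refine Finset.sum_congr rfl fun m hm => ?_
        have h2 := (Finset.mem_filter.1 hm).2
        rw [hw] at h2
        have h3 : topw p q F / p = m 0 + k * m 1 := by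
          rw [← h2]
          exact Nat.mul_div_cancel_left _ (by omega)
        rw [h3, ← mul_assoc, ← Polynomial.C_mul]
        congr 2
        push_cast
        rw [← div_pow, one_pow, one_pow, mul_one, mul_one, ← pow_mul, pow_add]
        ring
      rw [h1, he, Polynomial.C_mul]
      ring
  · refine tame_mono hF0 H hM hρ ?_
    obtain ⟨m, hm, hm'⟩ := exists_top p q hF0
    refine ⟨m, fun m' hm1 hm2 => ?_⟩
    have h1 : m 0 + k * m 1 = m' 0 + k * m' 1 := by
      have h2 : p * (m 0 + k * m 1) = p * (m' 0 + k * m' 1) := by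
        rw [← hw, ← hw, hm', hm2]
      exact Nat.eq_of_mul_eq_mul_left (by omega) h2
    have h2 : m 0 < k := by
      have := exp_le_totalDegree hF hm 0
      omega
    have h3 : m' 0 < k := by
      have := exp_le_totalDegree hF hm1 0
      omega
    have h4 : m 0 = m' 0 := by
      have e1 := congrArg (fun n => n % k) h1
      simp only [Nat.add_mul_mod_self_left, Nat.mod_eq_of_lt h2, Nat.mod_eq_of_lt h3] at e1
      exact e1
    have h5 : m 1 = m' 1 := by
      rw [h4] at h1
      have h6 : k * m 1 = k * m' 1 := by omega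
      exact Nat.eq_of_mul_eq_mul_left (by omega) h6
    ext i
    fin_cases i
    · exact h4.symm
    · exact h5.symm

/-- the part of the highest degree, as a polynomial in `T = y / x` -/
noncomputable def topForm (F : MvPolynomial (Fin 2) ℤ) : Polynomial ℤ :=
  ∑ m ∈ F.support with m 0 + m 1 = F.totalDegree, Polynomial.C (F.coeff m) * Polynomial.X ^ m 1

/-- the part of the highest degree has no multiple factors, and its coefficients are bounded -/
def Dist (F : MvPolynomial (Fin 2) ℤ) (H : ℕ) : Prop :=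
  Squarefree ((topForm F).map (Int.castRingHom ℚ)) ∧ F.totalDegree ≤ (topForm F).natDegree + 1 ∧
    ∀ i, |(topForm F).coeff i| ≤ H

theorem deg_le {F : MvPolynomial (Fin 2) ℤ} {m : Fin 2 →₀ ℕ} (hm : m ∈ F.support) :
    m 0 + m 1 ≤ F.totalDegree := by
  have h1 := MvPolynomial.le_totalDegree hm
  rw [Finsupp.sum_fintype _ _ fun _ => rfl, Fin.sum_univ_two] at h1
  exact h1

theorem coeff_topForm {F : MvPolynomial (Fin 2) ℤ} {m : Fin 2 →₀ ℕ}
    (hm : m 0 + m 1 = F.totalDegree) : (topForm F).coeff (m 1) = F.coeff m := by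
  classical
  rw [topForm, Polynomial.finsetSum_coeff]
  simp only [Polynomial.coeff_C_mul, Polynomial.coeff_X_pow]
  by_cases h : m ∈ F.support
  · rw [Finset.sum_eq_single m]
    · rw [if_pos rfl, mul_one]
    · intro m' hm' hne
      rw [if_neg, mul_zero]
      intro h1
      apply hne
      have h2 := (Finset.mem_filter.1 hm').2
      ext i
      fin_cases i
      · show m' 0 = m 0
        omega
      · exact h1.symm
    · intro h1
      exact absurd (Finset.mem_filter.2 ⟨h, hm⟩) h1
  · rw [MvPolynomial.notMem_support_iff.1 h]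
    refine Finset.sum_eq_zero fun m' hm' => ?_
    rw [if_neg, mul_zero]
    intro h1
    apply h
    have h2 := (Finset.mem_filter.1 hm').2
    have h3 : m = m' := by
      ext i
      fin_cases i
      · show m 0 = m' 0
        omega
      · exact h1
    rw [h3]
    exact (Finset.mem_filter.1 hm').1

theorem topForm_ne {F : MvPolynomial (Fin 2) ℤ} {k : ℕ} (hk : (topForm F).coeff k ≠ 0) :
    ∃ m ∈ F.support, m 0 + m 1 = F.totalDegree ∧ m 1 = k := by
  classical
  by_contra hcon
  push Not at hcon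
  apply hk
  rw [topForm, Polynomial.finsetSum_coeff]
  refine Finset.sum_eq_zero fun m hm => ?_
  obtain ⟨h1, h2⟩ := Finset.mem_filter.1 hm
  rw [Polynomial.coeff_C_mul, Polynomial.coeff_X_pow, if_neg (Ne.symm (hcon m h1 h2)), mul_zero]

theorem top_unique {p q : ℕ} {F : MvPolynomial (Fin 2) ℤ} {m : Fin 2 →₀ ℕ} (hm : m ∈ F.support)
    (h : ∀ m' ∈ F.support, m' ≠ m → wt p q m' < wt p q m) :
    ∃ m, ∀ m' ∈ F.support, wt p q m' = topw p q F → m' = m := by
  refine ⟨m, fun m' hm' h1 => ?_⟩
  by_contra hne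
  have h2 := h m' hm' hne
  have h3 : wt p q m ≤ topw p q F := Finset.le_sup hm
  omega

theorem unr_of_dist {F : MvPolynomial (Fin 2) ℤ} {H : ℕ} (h : Dist F H) : Unr F H := by
  classical
  obtain ⟨hsq, hdeg, hH⟩ := h
  have hne : topForm F ≠ 0 := by
    intro h0
    rw [h0, Polynomial.map_zero] at hsq
    exact hsq.ne_zero rfl
  have hext : ∀ m m' : Fin 2 →₀ ℕ, m 0 = m' 0 → m 1 = m' 1 → m = m' := by
    intro m m' h0 h1
    ext i
    fin_cases i
    · exact h0
    · exact h1
  have hcf : ∀ m' ∈ F.support, m' 0 + m' 1 = F.totalDegree → (topForm F).coeff (m' 1) ≠ 0 := by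
    intro m' hm' h1
    rw [coeff_topForm h1]
    exact MvPolynomial.mem_support_iff.1 hm'
  intro p q hp hq
  rcases lt_trichotomy p q with hpq | hpq | hpq
  · left
    obtain ⟨m, hm, hm1, hm2⟩ := topForm_ne (Polynomial.leadingCoeff_ne_zero.2 hne)
    refine top_unique hm fun m' hm' hne' => ?_
    have hd' := deg_le hm'
    have hJ : m' 1 ≤ m 1 := by
      by_contra hcon
      have h1 : m' 0 + m' 1 = F.totalDegree := by omega
      have h2 := Polynomial.le_natDegree_of_ne_zero (hcf m' hm' h1)
      omega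
    show p * m' 0 + q * m' 1 < p * m 0 + q * m 1
    rcases Nat.lt_or_ge (m' 1) (m 1) with h1 | h1
    · obtain ⟨e, he⟩ := Nat.exists_eq_add_of_lt h1
      have h2 : m' 0 ≤ m 0 + e + 1 := by omega
      rw [he]
      have h3 : p * m' 0 ≤ p * (m 0 + e + 1) := Nat.mul_le_mul_left _ h2
      nlinarith
    · have h2 : m' 1 = m 1 := by omega
      have h3 : m' 0 < m 0 := by
        have h4 : m' 0 ≠ m 0 := fun h4 => hne' (hext _ _ h4 h2)
        omega
      rw [h2]
      nlinarith
  · right
    refine ⟨⟨1, by rw [mul_one, hpq]⟩, 1, 0, topForm F, one_ne_zero, hsq, hH, ?_⟩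
    subst hpq
    obtain ⟨m, hm, hm1, -⟩ := topForm_ne (Polynomial.leadingCoeff_ne_zero.2 hne)
    have hw : ∀ m' : Fin 2 →₀ ℕ, wt p p m' = p * (m' 0 + m' 1) := fun m' => by
      unfold wt
      ring
    have htop : topw p p F = p * F.totalDegree := by
      apply le_antisymm
      · refine Finset.sup_le fun m' hm' => ?_
        rw [hw]
        exact Nat.mul_le_mul_left _ (deg_le hm')
      · rw [← hm1, ← hw]
        exact Finset.le_sup hm
    rw [edgePoly, topForm, Polynomial.map_sum, Polynomial.C_1, pow_zero, one_mul, one_mul]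
    have hfil : F.support.filter (fun m => wt p p m = topw p p F) =
        F.support.filter (fun m => m 0 + m 1 = F.totalDegree) := by
      refine Finset.filter_congr fun m' _ => ?_
      rw [hw, htop]
      constructor
      · intro h1
        exact Nat.eq_of_mul_eq_mul_left (by omega) h1
      · intro h1
        rw [h1]
    rw [hfil]
    refine Finset.sum_congr rfl fun m' _ => ?_
    rw [Polynomial.map_mul, Polynomial.map_C, Polynomial.map_pow, Polynomial.map_X]
    simp
  · left
    have htr : (topForm F).natTrailingDegree ≤ 1 := by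
      by_contra hcon
      have h1 : (Polynomial.X : Polynomial ℤ) ^ 2 ∣ topForm F := by
        rw [Polynomial.X_pow_dvd_iff]
        intro j hj
        exact Polynomial.coeff_eq_zero_of_lt_natTrailingDegree (by omega)
      have h2 : (Polynomial.X : Polynomial ℚ) * Polynomial.X ∣
          (topForm F).map (Int.castRingHom ℚ) := by
        have h3 := Polynomial.map_dvd (Int.castRingHom ℚ) h1
        rwa [Polynomial.map_pow, Polynomial.map_X, sq] at h3
      exact Polynomial.not_isUnit_X (hsq _ h2)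
    obtain ⟨m, hm, hm1, hm2⟩ := topForm_ne (F := F) (k := (topForm F).natTrailingDegree)
      (by
        have := Polynomial.trailingCoeff_nonzero_iff_nonzero.2 hne
        exact this)
    refine top_unique hm fun m' hm' hne' => ?_
    have hd' := deg_le hm'
    show p * m' 0 + q * m' 1 < p * m 0 + q * m 1
    rcases Nat.lt_or_ge (m' 1) (m 1) with h1 | h1
    · have h2 : m 1 = 1 := by omega
      have h3 : m' 1 = 0 := by omega
      have h4 : m' 0 ≤ m 0 := by
        by_contra hcon
        have h5 : m' 0 + m' 1 = F.totalDegree := by omega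
        have h6 := Polynomial.natTrailingDegree_le_of_ne_zero (hcf m' hm' h5)
        omega
      rw [h2, h3]
      have h5 : p * m' 0 ≤ p * m 0 := Nat.mul_le_mul_left _ h4
      omega
    · rcases Nat.lt_or_ge (m 1) (m' 1) with h2 | h2
      · obtain ⟨e, he⟩ := Nat.exists_eq_add_of_lt h2
        have h3 : m' 0 + e + 1 ≤ m 0 := by omega
        rw [he]
        have h4 : p * (m' 0 + e + 1) ≤ p * m 0 := Nat.mul_le_mul_left _ h3
        nlinarith
      · have h3 : m' 1 = m 1 := by omega
        have h4 : m' 0 < m 0 := by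
          have h5 : m' 0 ≠ m 0 := fun h5 => hne' (hext _ _ h5 h3)
          omega
        rw [h3]
        nlinarith

end Pool.Agent.H455.CB
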