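import Mathlib
import Pool.Agent.H455.CB2

set_option autoImplicit false

/-!
# Integral points whose abscissa has few powers of one base: sequences
-/

open Finset Filter Topology

namespace Pool.Agent.H455.CB

open Pool.Agent.TH419.WI Pool.Agent.TH419.HX Pool.Agent.H455.VC Pool.Agent.H455.RT
open Pool.Agent.R343.LT
open Pool.Agent.Results.MP_821da1_nt.LaurentDichotomy (UnitOf NoLaurentCurve Qbar)

theorem smooth_base {b : ℕ} (hb : 2 ≤ b) (k : ℕ) : Smooth b.primeFactors (b ^ k) := by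
  refine ⟨pow_ne_zero _ (by omega), ?_⟩
  rcases Nat.eq_zero_or_pos k with rfl | hk
  · simp
  · rw [Nat.primeFactors_pow _ hk.ne']

theorem four {a b c e : ℝ} (ha : 1 ≤ a) (hb : 1 ≤ b) (hc : 1 ≤ c) (he : 1 ≤ e) :
    a ≤ (a * b) * (c * e) ∧ b ≤ (a * b) * (c * e) ∧ c ≤ (a * b) * (c * e) ∧
      e ≤ (a * b) * (c * e) := by
  have h1 : 1 ≤ a * b := one_le_mul_of_one_le_of_one_le ha hb
  have h2 : 1 ≤ c * e := one_le_mul_of_one_le_of_one_le hc he
  have h3 : a * b ≤ (a * b) * (c * e) := le_mul_of_one_le_right (by linarith) h2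
  have h4 : c * e ≤ (a * b) * (c * e) := le_mul_of_one_le_left (by linarith) h1
  refine ⟨?_, ?_, ?_, ?_⟩
  · exact (le_mul_of_one_le_right (by linarith) hb).trans h3
  · exact (le_mul_of_one_le_left (by linarith) ha).trans h3
  · exact (le_mul_of_one_le_right (by linarith) he).trans h4
  · exact (le_mul_of_one_le_left (by linarith) hc).trans h4

/-- **There are no sequences of large points.** -/
theorem seq_false {d H T b : ℕ} (hb : 2 ≤ b)
    (F : ℕ → MvPolynomial (Fin 2) ℤ) (M : ℕ → ℝ) (x y : ℕ → ℤ) (D : ℕ → ℕ)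
    (hF : ∀ t, (F t).totalDegree ≤ d)
    (hno : ∀ t, NoLaurentCurve (MvPolynomial.map (algebraMap ℤ Qbar) (F t)))
    (hM : ∀ t, 1 ≤ M t) (hcoef : ∀ t m, |(((F t).coeff m : ℤ) : ℝ)| ≤ M t)
    (hU : ∀ t, Unr (F t) H) (hxy : ∀ t, MvPolynomial.eval ![x t, y t] (F t) = 0)
    (Λ : ℕ → ℝ) (hΛ : ∀ t, Λ t = Real.log (max (max |(x t : ℝ)| |(y t : ℝ)|) 1))
    (hΛt : Tendsto Λ atTop atTop) (hMS : Sub Λ M) (hD0 : ∀ t, 0 < D t)
    (hDS : Sub Λ fun t => (D t : ℝ)) (B : ℕ → ℝ) (hB1 : ∀ t, 1 ≤ B t) (hBS : Sub Λ B)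
    (l : ℕ → Fin T → ℕ) (v : ℕ → Fin T → ℤ) (hv : ∀ t j, |(v t j : ℝ)| ≤ B t)
    (hlv : ∀ t, (D t : ℤ) * x t = ∑ j, v t j * (b : ℤ) ^ l t j) : False := by
  classical
  have hb1 : (1 : ℝ) < b := by exact_mod_cast (by omega : 1 < b)
  have hlb : 0 < Real.log b := Real.log_pos hb1
  have hb0 : (0 : ℝ) < b := by linarith
  -- the abscissa is not zero
  have hx0 : ∀ᶠ t in atTop, x t ≠ 0 := by
    filter_upwards [((Sub.const hΛt (nmon d : ℝ)).mul hMS) (1 / 2) (by norm_num),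
      hΛt.eventually_gt_atTop 0] with t h1 h2 h3
    have h4 := coord_bound (F t) (hF t) (M t) (hM t) (hcoef t) (hno t) ![x t, y t] (hxy t) 1 0
      (by decide)
    simp only [Matrix.cons_val_one, Matrix.cons_val_zero, h3, Int.cast_zero, abs_zero] at h4
    rw [max_eq_right zero_le_one, one_pow, mul_one] at h4
    have hn := nmon_pos d
    have hM1 := hM t
    rw [abs_of_nonneg (by positivity : (0 : ℝ) ≤ nmon d * M t)] at h1
    have h5 : max (max |(x t : ℝ)| |(y t : ℝ)|) 1 ≤ nmon d * M t := by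
      refine max_le (max_le ?_ h4) (one_le_mul_of_one_le_of_one_le hn hM1)
      rw [h3, Int.cast_zero, abs_zero]
      positivity
    have h6 := Real.log_le_log (by positivity) (h5.trans h1)
    rw [Real.log_exp, ← hΛ] at h6
    linarith
  obtain ⟨t0, ht0⟩ := eventually_atTop.1 hx0
  obtain ⟨ψ0, hψ0⟩ : ∃ ψ0 : ℕ → ℕ, ψ0 = fun t => t + t0 := ⟨_, rfl⟩
  have hψ0m : StrictMono ψ0 := by
    rw [hψ0]
    intro a c hac
    simpa using hac
  have hψ0t := hψ0m.tendsto_atTop
  have hxne : ∀ t, x (ψ0 t) ≠ 0 := fun t => ht0 _ (by rw [hψ0]; simp)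
  -- the leading block
  obtain ⟨ψ1, hψ1, η, s', f, A, hη, hA0, hAS, hAe, hgap⟩ := blocks hb T Finset.univ
    (by simp) (Λ ∘ ψ0) (hΛt.comp hψ0t) (fun t => v (ψ0 t)) (fun t => l (ψ0 t))
    (fun j => (hBS.comp hψ0t).mono
      (Eventually.of_forall fun t => (hv _ j).trans (le_abs_self _)))
    (fun t => by
      have h1 : ss b Finset.univ (v (ψ0 t)) (l (ψ0 t)) = D (ψ0 t) * x (ψ0 t) := by
        rw [hlv]
        rfl
      rw [h1]
      exact mul_ne_zero (by exact_mod_cast (hD0 _).ne') (hxne t))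
  obtain ⟨χ, hχ⟩ : ∃ χ : ℕ → ℕ, χ = ψ0 ∘ ψ1 := ⟨_, rfl⟩
  have hχm : StrictMono χ := by rw [hχ]; exact hψ0m.comp hψ1
  have hχt := hχm.tendsto_atTop
  obtain ⟨L, hL⟩ : ∃ L : ℕ → ℝ, L = Λ ∘ χ := ⟨_, rfl⟩
  have hLt : Tendsto L atTop atTop := by rw [hL]; exact hΛt.comp hχt
  have hMS' : Sub L (M ∘ χ) := by rw [hL]; exact hMS.comp hχt
  have hDS' : Sub L fun t => (D (χ t) : ℝ) := by rw [hL]; exact hDS.comp hχt
  have hAS' : Sub L fun t => (A t : ℝ) := by rw [hL, hχ]; exact hAS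
  have hBS' : Sub L fun t => B (χ t) := by rw [hL]; exact hBS.comp hχt
  obtain ⟨w, hw⟩ : ∃ w : ℕ → Fin T → ℤ, w = fun t => v (ψ0 (ψ1 t)) := ⟨_, rfl⟩
  obtain ⟨e, he⟩ : ∃ e : ℕ → Fin T → ℕ, e = fun t => l (ψ0 (ψ1 t)) := ⟨_, rfl⟩
  have hwb : ∀ t j, |(w t j : ℝ)| ≤ B (χ t) := fun t j => by rw [hw, hχ]; exact hv _ j
  have hxe : ∀ t, (D (χ t) : ℤ) * x (χ t) = A t * (b : ℤ) ^ f t + ∑ j ∈ s', w t j *
      (b : ℤ) ^ e t j := by
    intro t
    have h1 := hAe t
    have h2 : ss b Finset.univ (v (ψ0 (ψ1 t))) (l (ψ0 (ψ1 t))) = D (χ t) * x (χ t) := by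
      rw [hχ]
      show _ = (D (ψ0 (ψ1 t)) : ℤ) * x (ψ0 (ψ1 t))
      rw [hlv]
      rfl
    rw [h2] at h1
    rw [h1, hw, he]
    rfl
  have hgap' : ∀ t, ∀ j ∈ s', (e t j : ℝ) * Real.log b + η * L t ≤ f t * Real.log b := by
    intro t j hj
    rw [he, hL, hχ]
    exact hgap t j hj
  have hpow : ∀ k : ℕ, (b : ℝ) ^ k = Real.exp (k * Real.log b) := fun k => by
    rw [Real.exp_nat_mul, Real.exp_log hb0]
  -- the size of the leading power
  have hsize : ∀ᶠ t in atTop, (f t : ℝ) * Real.log b ≤ 2 * L t := by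
    filter_upwards [hDS' (1 / 2) (by norm_num), ev_const_le hLt 2 (1 / 2) (by norm_num),
      ev_const_le hLt (2 * ((T : ℝ) + 1)) (η / 2) (by positivity),
      hBS' (η / 2) (by positivity)] with t h1 h2 h3 h4
    have hB' : 1 ≤ B (χ t) := hB1 _
    rw [abs_of_nonneg (by linarith : (0 : ℝ) ≤ B (χ t))] at h4
    have hxL : |(x (χ t) : ℝ)| ≤ Real.exp (L t) := by
      have h5 : L t = Real.log (max (max |(x (χ t) : ℝ)| |(y (χ t) : ℝ)|) 1) := by
        rw [hL]; exact hΛ _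
      rw [h5, Real.exp_log (by positivity)]
      exact (le_max_left _ _).trans (le_max_left _ _)
    have hbf : (0 : ℝ) < (b : ℝ) ^ f t := by positivity
    have h6 : (b : ℝ) ^ f t ≤ |(D (χ t) : ℝ) * x (χ t)| + ∑ j ∈ s', |(w t j : ℝ)| *
        (b : ℝ) ^ e t j := by
      have h7 : (A t : ℝ) * (b : ℝ) ^ f t = (D (χ t) : ℝ) * x (χ t) -
          ∑ j ∈ s', (w t j : ℝ) * (b : ℝ) ^ e t j := by
        have h8 : ((D (χ t) : ℝ)) * x (χ t) = (A t : ℝ) * (b : ℝ) ^ f t + ∑ j ∈ s', (w t j : ℝ) *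
            (b : ℝ) ^ e t j := by exact_mod_cast hxe t
        rw [h8]
        ring
      have h9 : (1 : ℝ) ≤ |(A t : ℝ)| := by
        have : 1 ≤ |A t| := Int.one_le_abs (hA0 t)
        exact_mod_cast this
      calc (b : ℝ) ^ f t ≤ |(A t : ℝ)| * (b : ℝ) ^ f t := le_mul_of_one_le_left hbf.le h9
        _ = |(A t : ℝ) * (b : ℝ) ^ f t| := by rw [abs_mul, abs_of_pos hbf]
        _ ≤ |(D (χ t) : ℝ) * x (χ t)| + |∑ j ∈ s', (w t j : ℝ) * (b : ℝ) ^ e t j| := by
            rw [h7]; exact abs_sub _ _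
        _ ≤ _ := by
            refine add_le_add le_rfl ((Finset.abs_sum_le_sum_abs _ _).trans (le_of_eq ?_))
            refine Finset.sum_congr rfl fun j _ => ?_
            rw [abs_mul, abs_of_pos (by positivity : (0 : ℝ) < (b : ℝ) ^ e t j)]
    have h7 : ∑ j ∈ s', |(w t j : ℝ)| * (b : ℝ) ^ e t j ≤ (b : ℝ) ^ f t / 2 := by
      calc ∑ j ∈ s', |(w t j : ℝ)| * (b : ℝ) ^ e t j ≤
            ∑ _j ∈ s', B (χ t) * ((b : ℝ) ^ f t * Real.exp (-(η * L t))) := by
            refine Finset.sum_le_sum fun j hj => ?_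
            refine mul_le_mul (hwb t j) ?_ (by positivity) (by linarith)
            rw [hpow, hpow, ← Real.exp_add]
            apply Real.exp_le_exp.2
            have := hgap' t j hj
            linarith
        _ = (s'.card : ℝ) * (B (χ t) * ((b : ℝ) ^ f t * Real.exp (-(η * L t)))) := by
            rw [Finset.sum_const, nsmul_eq_mul]
        _ ≤ ((T : ℝ) + 1) * (B (χ t) * ((b : ℝ) ^ f t * Real.exp (-(η * L t)))) := by
            refine mul_le_mul_of_nonneg_right ?_ (by positivity)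
            have h8 := Finset.card_le_univ s'
            rw [Fintype.card_fin] at h8
            have h9 : (s'.card : ℝ) ≤ T := by exact_mod_cast h8
            linarith
        _ = (2 * ((T : ℝ) + 1)) * B (χ t) * Real.exp (-(η * L t)) *
              ((b : ℝ) ^ f t / 2) := by ring
        _ ≤ Real.exp (η / 2 * L t) * Real.exp (η / 2 * L t) * Real.exp (-(η * L t)) *
              ((b : ℝ) ^ f t / 2) := by
            refine mul_le_mul_of_nonneg_right ?_ (by positivity)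
            refine mul_le_mul_of_nonneg_right ?_ (Real.exp_pos _).le
            exact mul_le_mul h3 h4 (by linarith) (Real.exp_pos _).le
        _ = (b : ℝ) ^ f t / 2 := by
            rw [← Real.exp_add, ← Real.exp_add]
            have h9 : η / 2 * L t + η / 2 * L t + -(η * L t) = 0 := by ring
            rw [h9, Real.exp_zero, one_mul]
    have h8 : (b : ℝ) ^ f t ≤ Real.exp (2 * L t) := by
      rw [abs_mul] at h6
      have h9 : |((D (χ t) : ℕ) : ℝ)| * |(x (χ t) : ℝ)| ≤ Real.exp (1 / 2 * L t) * Real.exp (L t) :=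
        mul_le_mul h1 hxL (abs_nonneg _) (Real.exp_pos _).le
      have h10 : (b : ℝ) ^ f t ≤ 2 * (Real.exp (1 / 2 * L t) * Real.exp (L t)) := by linarith
      refine h10.trans ?_
      calc 2 * (Real.exp (1 / 2 * L t) * Real.exp (L t)) ≤
            Real.exp (1 / 2 * L t) * (Real.exp (1 / 2 * L t) * Real.exp (L t)) :=
            mul_le_mul_of_nonneg_right h2 (by positivity)
        _ = Real.exp (2 * L t) := by
            rw [← Real.exp_add, ← Real.exp_add]
            congr 1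
            ring
    rw [hpow] at h8
    exact Real.exp_le_exp.1 h8
  obtain ⟨t1, ht1⟩ := eventually_atTop.1 hsize
  obtain ⟨ψ2, hψ2⟩ : ∃ ψ2 : ℕ → ℕ, ψ2 = fun t => t + t1 := ⟨_, rfl⟩
  have hψ2m : StrictMono ψ2 := by
    rw [hψ2]
    intro a c hac
    simpa using hac
  have hψ2t := hψ2m.tendsto_atTop
  have hsz : ∀ t, (f (ψ2 t) : ℝ) * Real.log b ≤ 2 * L (ψ2 t) := fun t =>
    ht1 _ (by rw [hψ2]; simp)
  obtain ⟨η', hη'd⟩ : ∃ η' : ℝ, η' = min (η / 2) 1 := ⟨_, rfl⟩
  have hη' : 0 < η' := by rw [hη'd]; exact lt_min (by linarith) one_pos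
  have hη'1 : η' ≤ 1 := by rw [hη'd]; exact min_le_right _ _
  have hη'2 : η' ≤ η / 2 := by rw [hη'd]; exact min_le_left _ _
  -- the bound for the data
  obtain ⟨M', hM'⟩ : ∃ M' : ℕ → ℝ, M' = fun t => (M (χ t) * B (χ t)) *
      ((1 + |(A t : ℝ)|) ^ (d + 1) * (1 + (D (χ t) : ℝ)) ^ (d + 1)) := ⟨_, rfl⟩
  have hP2 : ∀ t, (1 : ℝ) ≤ (1 + |(A t : ℝ)|) ^ (d + 1) := fun t =>
    one_le_pow₀ (by have := abs_nonneg (A t : ℝ); linarith)
  have hP3 : ∀ t, (1 : ℝ) ≤ (1 + (D (χ t) : ℝ)) ^ (d + 1) := fun t =>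
    one_le_pow₀ (by have : (0 : ℝ) ≤ D (χ t) := Nat.cast_nonneg _; linarith)
  have hM'S : Sub L M' := by
    have h1 : Sub L fun t => 1 + |(A t : ℝ)| := RT.Sub.add' hLt (Sub.const hLt 1)
      (hAS'.mono (Eventually.of_forall fun t => by rw [abs_abs]))
    have h2 : Sub L fun t => 1 + (D (χ t) : ℝ) := RT.Sub.add' hLt (Sub.const hLt 1) hDS'
    rw [hM']
    exact (hMS'.mul hBS').mul ((h1.pow hLt _).mul (h2.pow hLt _))
  have hbig : ∀ t (a : ℝ), a ≤ M (χ t) ∨ a ≤ B (χ t) ∨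
      a ≤ (1 + |(A t : ℝ)|) ^ (d + 1) ∨ a ≤ (1 + (D (χ t) : ℝ)) ^ (d + 1) → a ≤ M' t := by
    intro t a h
    obtain ⟨k1, k2, k3, k4⟩ := four (hM (χ t)) (hB1 (χ t)) (hP2 t) (hP3 t)
    have hM't : M' t = (M (χ t) * B (χ t)) *
      ((1 + |(A t : ℝ)|) ^ (d + 1) * (1 + (D (χ t) : ℝ)) ^ (d + 1)) := by rw [hM']
    rw [hM't]
    rcases h with h | h | h | h
    · exact h.trans k1
    · exact h.trans k2
    · exact h.trans k3
    · exact h.trans k4
  have hM'1 : ∀ t, 1 ≤ M' t := fun t => hbig t 1 (Or.inl (hM _))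
  have hApow : ∀ t, ∀ k ≤ d, |(A t : ℝ)| ^ k ≤ M' t := by
    intro t k hk
    refine hbig t _ (Or.inr (Or.inr (Or.inl ?_)))
    calc |(A t : ℝ)| ^ k ≤ (1 + |(A t : ℝ)|) ^ k :=
          pow_le_pow_left₀ (abs_nonneg _) (by linarith) _
      _ ≤ (1 + |(A t : ℝ)|) ^ (d + 1) := pow_le_pow_right₀
          (by have := abs_nonneg (A t : ℝ); linarith) (by omega)
  have hDpow : ∀ t, ∀ k ≤ d, |(((D (χ t) : ℕ) : ℤ) : ℝ)| ^ k ≤ M' t := by
    intro t k hk
    refine hbig t _ (Or.inr (Or.inr (Or.inr ?_)))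
    have h0 : (0 : ℝ) ≤ D (χ t) := Nat.cast_nonneg _
    rw [Int.cast_natCast, abs_of_nonneg h0]
    calc (D (χ t) : ℝ) ^ k ≤ (1 + (D (χ t) : ℝ)) ^ k :=
          pow_le_pow_left₀ h0 (by linarith) _
      _ ≤ (1 + (D (χ t) : ℝ)) ^ (d + 1) := pow_le_pow_right₀ (by linarith) (by omega)
  have hF0 : ∀ t, F t ≠ 0 := by
    intro t h0
    have h1 := hno t 1 (fun k a => if a = 0 ∧ k = 1 then 1 else 0) (by
      intro s _
      rw [h0]
      simp) 2 two_ne_zero 0
    simp at h1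
  -- the data
  let I : ℕ → Datum d T (H + 1) b.primeFactors η' := fun t =>
    { F := F (χ (ψ2 t))
      M := M' (ψ2 t)
      a := Fin.cons (A (ψ2 t)) fun j => if j ∈ s' then w (ψ2 t) j else 0
      b := D (χ (ψ2 t))
      u := Fin.cons (b ^ f (ψ2 t)) fun j => if j ∈ s' then b ^ e (ψ2 t) j else 1
      x := x (χ (ψ2 t))
      y := y (χ (ψ2 t))
      hF := hF _
      hno := hno _
      hM := hM'1 _
      hcoef := fun m => hbig _ _ (Or.inl (hcoef _ m))
      hu := by
        intro i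
        refine Fin.cases ?_ (fun j => ?_) i
        · rw [Fin.cons_zero]
          exact smooth_base hb _
        · rw [Fin.cons_succ]
          split_ifs
          · exact smooth_base hb _
          · exact smooth_one _
      hdom := by
        intro i hi
        have h1 : (1 : ℝ) ≤ (b : ℝ) ^ f (ψ2 t) := one_le_pow₀ hb1.le
        have h2 : (((b ^ f (ψ2 t) : ℕ) : ℝ)) ^ (1 - η') =
            Real.exp ((1 - η') * (f (ψ2 t) * Real.log b)) := by
          push_cast
          rw [Real.rpow_def_of_pos (by positivity), hpow, Real.log_exp, mul_comm]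
        revert hi
        refine Fin.cases ?_ (fun j => ?_) i
        · intro hi
          exact absurd rfl hi
        · intro _
          rw [Fin.cons_succ, Fin.cons_zero, h2]
          have h3 : 0 ≤ (f (ψ2 t) : ℝ) * Real.log b := by positivity
          split_ifs with h
          · push_cast
            rw [hpow]
            apply Real.exp_le_exp.2
            have h4 := hgap' (ψ2 t) j h
            have h5 := hsz t
            have h6 : η' * (f (ψ2 t) * Real.log b) ≤ η / 2 * (f (ψ2 t) * Real.log b) :=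
              mul_le_mul_of_nonneg_right hη'2 h3
            have h7 : η / 2 * (f (ψ2 t) * Real.log b) ≤ η / 2 * (2 * L (ψ2 t)) :=
              mul_le_mul_of_nonneg_left h5 (by linarith)
            nlinarith
          · rw [Nat.cast_one]
            apply Real.one_le_exp
            exact mul_nonneg (by linarith) h3
      ha := by
        intro i
        refine Fin.cases ?_ (fun j => ?_) i
        · rw [Fin.cons_zero]
          refine hbig _ _ (Or.inr (Or.inr (Or.inl ?_)))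
          have h0 := abs_nonneg (A (ψ2 t) : ℝ)
          calc |(A (ψ2 t) : ℝ)| ≤ 1 + |(A (ψ2 t) : ℝ)| := by linarith
            _ ≤ (1 + |(A (ψ2 t) : ℝ)|) ^ (d + 1) := le_self_pow₀ (by linarith) (by omega)
        · rw [Fin.cons_succ]
          refine hbig _ _ (Or.inr (Or.inl ?_))
          split_ifs
          · exact hwb (ψ2 t) j
          · rw [Int.cast_zero, abs_zero]
            have := hB1 (χ (ψ2 t))
            linarith
      ha0 := by
        rw [Fin.cons_zero]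
        exact hA0 _
      hb := by
        have h1 := hDpow (ψ2 t)
        refine hbig _ _ (Or.inr (Or.inr (Or.inr ?_)))
        have h0 : (0 : ℝ) ≤ D (χ (ψ2 t)) := Nat.cast_nonneg _
        rw [Int.cast_natCast, abs_of_nonneg h0]
        calc (D (χ (ψ2 t)) : ℝ) ≤ 1 + (D (χ (ψ2 t)) : ℝ) := by linarith
          _ ≤ _ := le_self_pow₀ (by linarith) (by omega)
      hb0 := by exact_mod_cast (hD0 _).ne'
      hx := by
        rw [hxe, Fin.sum_univ_succ]
        simp only [Fin.cons_zero, Fin.cons_succ]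
        push_cast
        congr 1
        rw [← Finset.sum_subset (Finset.subset_univ s')]
        · refine Finset.sum_congr rfl fun j hj => ?_
          rw [if_pos hj, if_pos hj]
        · intro j _ hj
          rw [if_neg hj, zero_mul]
      hxy := hxy _
      tame := by
        rw [Fin.cons_zero]
        exact tame_of_unr (hF0 _) (hF _) (hU _) (hA0 _) (by exact_mod_cast (hD0 _).ne')
          (hM'1 _) (hApow _) (hDpow _) }
  have hSp : ∀ p ∈ b.primeFactors, p.Prime := fun p hp => Nat.prime_of_mem_primeFactors hp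
  refine noseq hη' hSp I ?_
  rw [tendsto_atTop]
  intro K
  obtain ⟨K', hK'⟩ : ∃ K' : ℝ, K' = max K 1 := ⟨_, rfl⟩
  have hK1 : 1 ≤ K' := by rw [hK']; exact le_max_right _ _
  have hKK : K ≤ K' := by rw [hK']; exact le_max_left _ _
  filter_upwards [hψ2t.eventually (hM'S (1 / (2 * K')) (by positivity)),
    hψ2t.eventually (hLt.eventually_ge_atTop (2 * K'))] with t h1 h2
  refine hKK.trans ?_
  have h3 : (I t).ratio = Real.log (max |(x (χ (ψ2 t)) : ℝ)| |(y (χ (ψ2 t)) : ℝ)|) /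
      (1 + Real.log (M' (ψ2 t))) := rfl
  have hMp := hM'1 (ψ2 t)
  have hlM : 0 ≤ Real.log (M' (ψ2 t)) := Real.log_nonneg hMp
  rw [h3, le_div_iff₀ (by linarith)]
  rw [abs_of_nonneg (by linarith)] at h1
  have h4 := Real.log_le_log (by linarith) h1
  rw [Real.log_exp] at h4
  have h5 : L (ψ2 t) = Real.log (max |(x (χ (ψ2 t)) : ℝ)| |(y (χ (ψ2 t)) : ℝ)|) := by
    have h6 : L (ψ2 t) = Real.log (max (max |(x (χ (ψ2 t)) : ℝ)| |(y (χ (ψ2 t)) : ℝ)|) 1) := by
      rw [hL]; exact hΛ _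
    rw [h6]
    congr 1
    apply max_eq_left
    by_contra hcon
    have h7 : max (max |(x (χ (ψ2 t)) : ℝ)| |(y (χ (ψ2 t)) : ℝ)|) 1 = 1 :=
      max_eq_right (not_le.1 hcon).le
    rw [h7, Real.log_one] at h6
    linarith
  rw [← h5]
  have h6 : K' * (1 / (2 * K') * L (ψ2 t)) = L (ψ2 t) / 2 := by
    have : K' ≠ 0 := by linarith
    field_simp
  calc K' * (1 + Real.log (M' (ψ2 t))) ≤ K' * (1 + 1 / (2 * K') * L (ψ2 t)) :=
        mul_le_mul_of_nonneg_left (by linarith) (by linarith)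
    _ = K' + L (ψ2 t) / 2 := by rw [mul_add, mul_one, h6]
    _ ≤ L (ψ2 t) := by linarith

end Pool.Agent.H455.CB
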