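import Mathlib
import Pool.Agent.H455.CB3

set_option autoImplicit false

/-!
# Products and quotients of sums with few terms one of which is dominant
-/

open Finset Filter Topology

namespace Pool.Agent.H455.AB

open Pool.Agent.TH419.WI Pool.Agent.TH419.HX Pool.Agent.H455.VC Pool.Agent.H455.RT
open Pool.Agent.H455.CB
open Pool.Agent.Results.MP_821da1_nt.LaurentDichotomy (UnitOf NoLaurentCurve Qbar)

/-- `1` plus few exponentially small terms -/
def One (S : Finset ℕ) (L : ℕ → ℝ) (W : ℕ → ℚ) : Prop :=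
  ∃ (Λ : Type) (_ : Fintype Λ) (κ : ℕ → Λ → ℚ) (r s : ℕ → Λ → ℕ) (C η : ℝ), 0 ≤ C ∧ 0 < η ∧
    (∀ i, SlowQ L fun t => κ t i) ∧ (∀ t i, Smooth S (r t i)) ∧ (∀ t i, Smooth S (s t i)) ∧
    (∀ t i, (r t i : ℝ) ≤ Real.exp (C * L t)) ∧ (∀ t i, (s t i : ℝ) ≤ Real.exp (C * L t)) ∧
    (∀ t i, (r t i : ℝ) * Real.exp (η * L t) ≤ s t i) ∧
    ∀ t, W t = 1 + ∑ i, κ t i * ((r t i : ℚ) / s t i)

theorem One.one {S : Finset ℕ} {L : ℕ → ℝ} : One S L fun _ => 1 :=
  ⟨Empty, inferInstance, fun _ i => i.elim, fun _ i => i.elim, fun _ i => i.elim, 0, 1, le_rfl,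
    one_pos, fun i => i.elim, fun _ i => i.elim, fun _ i => i.elim, fun _ i => i.elim,
    fun _ i => i.elim, fun _ i => i.elim, fun _ => by simp⟩

theorem One.comp {S : Finset ℕ} {L : ℕ → ℝ} {W : ℕ → ℚ} (h : One S L W) {ψ : ℕ → ℕ}
    (hψ : Tendsto ψ atTop atTop) : One S (L ∘ ψ) (W ∘ ψ) := by
  obtain ⟨Λ, i1, κ, r, s, C, η, hC, hη, h1, h2, h3, h4, h5, h6, h7⟩ := h
  exact ⟨Λ, i1, fun t => κ (ψ t), fun t => r (ψ t), fun t => s (ψ t), C, η, hC, hη,
    fun i => (h1 i).comp hψ, fun t i => h2 _ i, fun t i => h3 _ i, fun t i => h4 _ i,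
    fun t i => h5 _ i, fun t i => h6 _ i, fun t => h7 _⟩

theorem exp_le_of {C C' x : ℝ} (h : C ≤ C') (hx : 0 ≤ x) : Real.exp (C * x) ≤ Real.exp (C' * x) :=
  Real.exp_le_exp.2 (mul_le_mul_of_nonneg_right h hx)

theorem One.mul {S : Finset ℕ} {L : ℕ → ℝ} (hLnn : ∀ t, 0 ≤ L t) {W V : ℕ → ℚ}
    (hW : One S L W) (hV : One S L V) : One S L fun t => W t * V t := by
  obtain ⟨Λ, i1, κ, r, s, C, η, hC, hη, h1, h2, h3, h4, h5, h6, h7⟩ := hW
  obtain ⟨Λ', i1', κ', r', s', C', η', hC', hη', h1', h2', h3', h4', h5', h6', h7'⟩ := hV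
  have hmm : 0 < min η η' := lt_min hη hη'
  have e1 : ∀ t, 1 ≤ Real.exp (min η η' * L t) := fun t =>
    Real.one_le_exp (mul_nonneg hmm.le (hLnn t))
  have e2 : ∀ t i, (r t i : ℝ) * Real.exp (min η η' * L t) ≤ s t i := fun t i =>
    (mul_le_mul_of_nonneg_left (exp_le_of (min_le_left _ _) (hLnn t)) (Nat.cast_nonneg _)).trans
      (h6 t i)
  have e2' : ∀ t i, (r' t i : ℝ) * Real.exp (min η η' * L t) ≤ s' t i := fun t i =>
    (mul_le_mul_of_nonneg_left (exp_le_of (min_le_right _ _) (hLnn t)) (Nat.cast_nonneg _)).trans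
      (h6' t i)
  have e3' : ∀ t i, (r' t i : ℝ) ≤ s' t i := fun t i =>
    (le_mul_of_one_le_right (Nat.cast_nonneg _) (e1 t)).trans (e2' t i)
  refine ⟨Λ ⊕ Λ' ⊕ (Λ × Λ'), inferInstance,
    fun t => Sum.elim (κ t) (Sum.elim (κ' t) fun p => κ t p.1 * κ' t p.2),
    fun t => Sum.elim (r t) (Sum.elim (r' t) fun p => r t p.1 * r' t p.2),
    fun t => Sum.elim (s t) (Sum.elim (s' t) fun p => s t p.1 * s' t p.2), C + C', min η η',
    by positivity, hmm, ?_, ?_, ?_, ?_, ?_, ?_, fun t => ?_⟩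
  · rintro (i | i | i)
    · exact h1 i
    · exact h1' i
    · exact (h1 i.1).mul (h1' i.2)
  · rintro t (i | i | i)
    · exact h2 t i
    · exact h2' t i
    · exact smooth_mul (h2 t _) (h2' t _)
  · rintro t (i | i | i)
    · exact h3 t i
    · exact h3' t i
    · exact smooth_mul (h3 t _) (h3' t _)
  · rintro t (i | i | i)
    · exact (h4 t i).trans (exp_le_of (by linarith) (hLnn t))
    · exact (h4' t i).trans (exp_le_of (by linarith) (hLnn t))
    · show ((r t i.1 * r' t i.2 : ℕ) : ℝ) ≤ _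
      push_cast
      rw [add_mul, Real.exp_add]
      exact mul_le_mul (h4 t _) (h4' t _) (Nat.cast_nonneg _) (Real.exp_pos _).le
  · rintro t (i | i | i)
    · exact (h5 t i).trans (exp_le_of (by linarith) (hLnn t))
    · exact (h5' t i).trans (exp_le_of (by linarith) (hLnn t))
    · show ((s t i.1 * s' t i.2 : ℕ) : ℝ) ≤ _
      push_cast
      rw [add_mul, Real.exp_add]
      exact mul_le_mul (h5 t _) (h5' t _) (Nat.cast_nonneg _) (Real.exp_pos _).le
  · rintro t (i | i | i)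
    · exact e2 t i
    · exact e2' t i
    · show ((r t i.1 * r' t i.2 : ℕ) : ℝ) * _ ≤ ((s t i.1 * s' t i.2 : ℕ) : ℝ)
      push_cast
      calc (r t i.1 : ℝ) * r' t i.2 * Real.exp (min η η' * L t) =
            ((r t i.1 : ℝ) * Real.exp (min η η' * L t)) * r' t i.2 := by ring
        _ ≤ s t i.1 * s' t i.2 := mul_le_mul (e2 t _) (e3' t _) (Nat.cast_nonneg _)
            (Nat.cast_nonneg _)
  · beta_reduce
    rw [h7, h7', Fintype.sum_sum_type, Fintype.sum_sum_type, Fintype.sum_prod_type]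
    simp only [Sum.elim_inl, Sum.elim_inr]
    have e4 : ∑ x, ∑ y, κ t x * κ' t y * (((r t x * r' t y : ℕ) : ℚ) / ((s t x * s' t y : ℕ) : ℚ)) =
        (∑ x, κ t x * ((r t x : ℚ) / s t x)) * ∑ y, κ' t y * ((r' t y : ℚ) / s' t y) := by
      rw [Finset.sum_mul_sum]
      refine Finset.sum_congr rfl fun x _ => Finset.sum_congr rfl fun y _ => ?_
      push_cast
      rw [mul_div_mul_comm]
      ring
    rw [e4]
    ring

/-- the terms are small -/
theorem One.tendsto {S : Finset ℕ} {L : ℕ → ℝ} (hL : Tendsto L atTop atTop) {W : ℕ → ℚ}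
    (h : One S L W) : Tendsto (fun t => (W t : ℝ)) atTop (𝓝 1) := by
  obtain ⟨Λ, i1, κ, r, s, C, η, hC, hη, h1, h2, h3, h4, h5, h6, h7⟩ := h
  have h8 : ∀ i, Dec L η fun t => (κ t i : ℝ) * ((r t i : ℝ) / s t i) := by
    intro i
    have e1 : Dec L η fun t => Real.exp (-(η * L t)) := dec_exp hL η
    have e2 := Dec.mul (dec_zero_iff.2 (h1 i).sub) e1
    rw [zero_add] at e2
    refine e2.mono (Eventually.of_forall fun t => ?_)
    rw [abs_mul, abs_mul]
    refine mul_le_mul_of_nonneg_left ?_ (abs_nonneg _)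
    have e3 : (0 : ℝ) < s t i := by
      have := Nat.pos_of_ne_zero (h3 t i).1
      exact_mod_cast this
    rw [abs_of_nonneg (by positivity), abs_of_nonneg (Real.exp_pos _).le, div_le_iff₀ e3,
      Real.exp_neg, ← div_eq_inv_mul, le_div_iff₀ (Real.exp_pos _)]
    exact h6 t i
  have h9 : Dec L η fun t => ∑ i, (κ t i : ℝ) * ((r t i : ℝ) / s t i) :=
    RT.Dec.sum hL Finset.univ fun i _ => h8 i
  have h10 := (h9.tendsto hL hη).const_add (1 : ℝ)
  rw [add_zero] at h10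
  refine h10.congr fun t => ?_
  rw [h7]
  push_cast
  rfl

/-- a rational number of slow growth times a quotient of units times a quotient of two numbers with
exponentially small terms -/
def Ld (S : Finset ℕ) (L : ℕ → ℝ) (x : ℕ → ℚ) : Prop :=
  ∃ (γ : ℕ → ℚ) (r s : ℕ → ℕ) (C : ℝ) (W V : ℕ → ℚ), 0 ≤ C ∧ SlowQ L γ ∧
    (∀ t, Smooth S (r t)) ∧ (∀ t, Smooth S (s t)) ∧ (∀ t, (r t : ℝ) ≤ Real.exp (C * L t)) ∧
    (∀ t, (s t : ℝ) ≤ Real.exp (C * L t)) ∧ One S L W ∧ One S L V ∧ (∀ t, W t ≠ 0) ∧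
    (∀ t, V t ≠ 0) ∧ ∀ t, x t = γ t * ((r t : ℚ) / s t) * (W t / V t)

theorem Ld.comp {S : Finset ℕ} {L : ℕ → ℝ} {x : ℕ → ℚ} (h : Ld S L x) {ψ : ℕ → ℕ}
    (hψ : Tendsto ψ atTop atTop) : Ld S (L ∘ ψ) (x ∘ ψ) := by
  obtain ⟨γ, r, s, C, W, V, hC, h1, h2, h3, h4, h5, h6, h7, h8, h9, h10⟩ := h
  exact ⟨γ ∘ ψ, fun t => r (ψ t), fun t => s (ψ t), C, W ∘ ψ, V ∘ ψ, hC, h1.comp hψ,
    fun t => h2 _, fun t => h3 _, fun t => h4 _, fun t => h5 _, h6.comp hψ, h7.comp hψ,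
    fun t => h8 _, fun t => h9 _, fun t => h10 _⟩

theorem Ld.mul {S : Finset ℕ} {L : ℕ → ℝ} (hLnn : ∀ t, 0 ≤ L t) {x y : ℕ → ℚ} (hx : Ld S L x)
    (hy : Ld S L y) : Ld S L fun t => x t * y t := by
  obtain ⟨γ, r, s, C, W, V, hC, h1, h2, h3, h4, h5, h6, h7, h8, h9, h10⟩ := hx
  obtain ⟨γ', r', s', C', W', V', hC', h1', h2', h3', h4', h5', h6', h7', h8', h9', h10'⟩ := hy
  refine ⟨fun t => γ t * γ' t, fun t => r t * r' t, fun t => s t * s' t, C + C',
    fun t => W t * W' t, fun t => V t * V' t, by positivity, h1.mul h1',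
    fun t => smooth_mul (h2 t) (h2' t), fun t => smooth_mul (h3 t) (h3' t), fun t => ?_,
    fun t => ?_, h6.mul hLnn h6', h7.mul hLnn h7', fun t => mul_ne_zero (h8 t) (h8' t),
    fun t => mul_ne_zero (h9 t) (h9' t), fun t => ?_⟩
  · push_cast
    rw [add_mul, Real.exp_add]
    exact mul_le_mul (h4 t) (h4' t) (Nat.cast_nonneg _) (Real.exp_pos _).le
  · push_cast
    rw [add_mul, Real.exp_add]
    exact mul_le_mul (h5 t) (h5' t) (Nat.cast_nonneg _) (Real.exp_pos _).le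
  · beta_reduce
    rw [h10, h10']
    push_cast
    rw [mul_div_mul_comm, mul_div_mul_comm]
    ring

theorem Ld.inv {S : Finset ℕ} {L : ℕ → ℝ} (hL : Tendsto L atTop atTop) {x : ℕ → ℚ}
    (hx : Ld S L x) : Ld S L fun t => (x t)⁻¹ := by
  obtain ⟨γ, r, s, C, W, V, hC, h1, h2, h3, h4, h5, h6, h7, h8, h9, h10⟩ := hx
  refine ⟨fun t => (γ t)⁻¹, s, r, C, V, W, hC, h1.inv hL, h3, h2, h5, h4, h7, h6, h9, h8,
    fun t => ?_⟩
  beta_reduce
  rw [h10, mul_inv, mul_inv, inv_div, inv_div]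

theorem Ld.div {S : Finset ℕ} {L : ℕ → ℝ} (hL : Tendsto L atTop atTop) (hLnn : ∀ t, 0 ≤ L t)
    {x y : ℕ → ℚ} (hx : Ld S L x) (hy : Ld S L y) : Ld S L fun t => x t / y t := by
  have h := hx.mul hLnn (hy.inv hL)
  simpa only [div_eq_mul_inv] using h

theorem Ld.slow {S : Finset ℕ} {L : ℕ → ℝ} (hLnn : ∀ t, 0 ≤ L t) {x : ℕ → ℚ} (hx : SlowQ L x) :
    Ld S L x :=
  ⟨x, fun _ => 1, fun _ => 1, 0, fun _ => 1, fun _ => 1, le_rfl, hx, fun _ => smooth_one _,
    fun _ => smooth_one _, fun t => by simp, fun t => by simp, One.one, One.one,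
    fun _ => one_ne_zero, fun _ => one_ne_zero, fun t => by simp⟩

theorem Ld.smooth {S : Finset ℕ} {L : ℕ → ℝ} (hL : Tendsto L atTop atTop) (hLnn : ∀ t, 0 ≤ L t)
    {w : ℕ → ℕ} (hw : ∀ t, Smooth S (w t)) {C : ℝ} (hC : 0 ≤ C)
    (hwC : ∀ t, (w t : ℝ) ≤ Real.exp (C * L t)) : Ld S L fun t => (w t : ℚ) :=
  ⟨fun _ => 1, w, fun _ => 1, C, fun _ => 1, fun _ => 1, hC, SlowQ.const hL 1, hw,
    fun _ => smooth_one _, hwC, fun t => by
      simpa using Real.one_le_exp (mul_nonneg hC (hLnn t)), One.one, One.one,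
    fun _ => one_ne_zero, fun _ => one_ne_zero, fun t => by simp⟩

theorem Ld.pow {S : Finset ℕ} {L : ℕ → ℝ} (hL : Tendsto L atTop atTop) (hLnn : ∀ t, 0 ≤ L t)
    {x : ℕ → ℚ} (hx : Ld S L x) (n : ℕ) : Ld S L fun t => x t ^ n := by
  induction n with
  | zero =>
    have := Ld.slow (S := S) hLnn (SlowQ.const hL 1)
    simpa using this
  | succ n ih =>
    have := ih.mul hLnn hx
    simpa only [← pow_succ] using this

theorem Ld.congr {S : Finset ℕ} {L : ℕ → ℝ} {x y : ℕ → ℚ} (hx : Ld S L x) (h : ∀ t, y t = x t) :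
    Ld S L y := by
  have : y = x := funext h
  rwa [this]

theorem sub_of_tendsto {L : ℕ → ℝ} (hL : Tendsto L atTop atTop) {f : ℕ → ℝ} {c : ℝ}
    (h : Tendsto f atTop (𝓝 c)) : Sub L f := by
  intro ε hε
  have h1 : ∀ᶠ t in atTop, |f t| < |c| + 1 := (h.abs).eventually_lt_const (by linarith)
  filter_upwards [h1, ev_const_le hL (|c| + 1) ε hε] with t h2 h3
  exact h2.le.trans h3

theorem squarefree_X_sub_one : Squarefree ((Polynomial.X - 1 : Polynomial ℤ).map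
    (Int.castRingHom ℚ)) := by
  rw [Polynomial.map_sub, Polynomial.map_X, Polynomial.map_one]
  exact (Polynomial.irreducible_of_degree_eq_one (by
    have := Polynomial.degree_X_sub_C (1 : ℚ)
    rwa [Polynomial.C_1] at this)).squarefree

/-- **Integers which are products and quotients of such numbers** are sums of few almost units. -/
theorem Ld.rel {S : Finset ℕ} (hS : ∀ p ∈ S, p.Prime) {L : ℕ → ℝ} (hL : Tendsto L atTop atTop)
    (hLnn : ∀ t, 0 ≤ L t) {y : ℕ → ℤ} (h : Ld S L fun t => (y t : ℚ)) :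
    ∃ ψ : ℕ → ℕ, StrictMono ψ ∧ Rel S (L ∘ ψ) (y ∘ ψ) := by
  classical
  obtain ⟨γ, r, s, C, W, V, hC, h1, h2, h3, h4, h5, h6, h7, h8, h9, h10⟩ := h
  have hWt := h6.tendsto hL
  have hVt := h7.tendsto hL
  obtain ⟨Λ, i1, κ, r1, s1, C1, η1, hC1, hη1, k1, k2, k3, k4, k5, k6, k7⟩ := h6
  obtain ⟨Λ', i1', κ', r2, s2, C2, η2, hC2, hη2, j1, j2, j3, j4, j5, j6, j7⟩ := h7
  have hW0 : ∀ t, (W t : ℝ) ≠ 0 := fun t => by exact_mod_cast h8 t
  have hV0 : ∀ t, (V t : ℝ) ≠ 0 := fun t => by exact_mod_cast h9 t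
  have hmm : 0 < min η1 η2 := lt_min hη1 hη2
  have hlim : Tendsto (fun t => (W t : ℝ) / V t) atTop (𝓝 (1 / 1)) := hWt.div hVt one_ne_zero
  have hlim' : Tendsto (fun t => ((W t : ℝ) / V t)⁻¹) atTop (𝓝 (1 / 1)) := by
    have := hVt.div hWt one_ne_zero
    refine this.congr fun t => ?_
    rw [inv_div]
    rfl
  refine rel_of_root (Λ := Λ' ⊕ Λ) hS hL hLnn 0 (Polynomial.X - 1) squarefree_X_sub_one
    (fun t => (W t : ℝ) / V t) (fun t => div_ne_zero (hW0 t) (hV0 t)) (sub_of_tendsto hL hlim)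
    (sub_of_tendsto hL hlim') (Sum.elim (fun _ => 1) fun _ => 0)
    (Sum.elim (fun _ => 1) fun _ => -1) ?_ (fun t => Sum.elim (κ' t) (κ t)) ?_
    (fun t => Sum.elim (r2 t) (r1 t)) (fun t => Sum.elim (s2 t) (s1 t)) ?_ ?_ (C + C1 + C2)
    (by positivity) ?_ ?_ hmm ?_ ?_ 1 isAlgebraic_one γ h1 r s h2 h3 ?_ y ?_
  · rintro (i | i)
    · exact isAlgebraic_one
    · exact isAlgebraic_one.neg
  · rintro (i | i)
    · exact j1 i
    · exact k1 i
  · rintro t (i | i)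
    · exact j2 t i
    · exact k2 t i
  · rintro t (i | i)
    · exact j3 t i
    · exact k3 t i
  · rintro t (i | i)
    · exact (j4 t i).trans (exp_le_of (by linarith) (hLnn t))
    · exact (k4 t i).trans (exp_le_of (by linarith) (hLnn t))
  · rintro t (i | i)
    · exact (j5 t i).trans (exp_le_of (by linarith) (hLnn t))
    · exact (k5 t i).trans (exp_le_of (by linarith) (hLnn t))
  · have key : ∀ (c : ℕ → ℚ) (a b : ℕ → ℕ) (η : ℝ), min η1 η2 ≤ η → SlowQ L c →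
        (∀ t, b t ≠ 0) → (∀ t, (a t : ℝ) * Real.exp (η * L t) ≤ b t) → ∀ x : ℝ,
        Dec L (min η1 η2) fun t => x * (c t : ℝ) * ((a t : ℝ) / b t) := by
      intro c a b η hη hc hb hab x
      have e1 : Dec L (min η1 η2) fun t => Real.exp (-(min η1 η2 * L t)) := dec_exp hL _
      have e2 := Dec.mul (dec_zero_iff.2 ((Sub.const hL x).mul hc.sub)) e1
      rw [zero_add] at e2
      refine e2.mono (Eventually.of_forall fun t => ?_)
      rw [abs_mul, abs_mul (x * (c t : ℝ))]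
      refine mul_le_mul_of_nonneg_left ?_ (abs_nonneg _)
      have e3 : (0 : ℝ) < b t := by
        have := Nat.pos_of_ne_zero (hb t)
        exact_mod_cast this
      rw [abs_of_nonneg (by positivity), abs_of_nonneg (Real.exp_pos _).le, div_le_iff₀ e3,
        Real.exp_neg, ← div_eq_inv_mul, le_div_iff₀ (Real.exp_pos _)]
      exact (mul_le_mul_of_nonneg_left (exp_le_of hη (hLnn t)) (Nat.cast_nonneg _)).trans (hab t)
    rintro (i | i)
    · exact key (fun t => κ' t i) (fun t => r2 t i) (fun t => s2 t i) η2 (min_le_right _ _)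
        (j1 i) (fun t => (j3 t i).1) (fun t => j6 t i) 1
    · exact key (fun t => κ t i) (fun t => r1 t i) (fun t => s1 t i) η1 (min_le_left _ _)
        (k1 i) (fun t => (k3 t i).1) (fun t => k6 t i) (-1)
  · intro t
    have e1 : (W t : ℝ) = 1 + ∑ i, (κ t i : ℝ) * ((r1 t i : ℝ) / s1 t i) := by
      rw [k7]
      push_cast
      rfl
    have e2 : (V t : ℝ) = 1 + ∑ i, (κ' t i : ℝ) * ((r2 t i : ℝ) / s2 t i) := by
      rw [j7]
      push_cast
      rfl
    rw [Fintype.sum_sum_type]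
    simp only [Sum.elim_inl, Sum.elim_inr, pow_one, pow_zero, mul_one, one_mul, map_sub, map_one,
      Polynomial.aeval_X, neg_mul, Finset.sum_neg_distrib]
    rw [← Finset.sum_mul]
    have e3 : ∑ i, (κ t i : ℝ) * ((r1 t i : ℝ) / s1 t i) = W t - 1 := by rw [e1]; ring
    have e4 : ∑ i, (κ' t i : ℝ) * ((r2 t i : ℝ) / s2 t i) = V t - 1 := by rw [e2]; ring
    rw [e3, e4]
    have := hV0 t
    field_simp
    ring
  · intro t
    exact (h4 t).trans (exp_le_of (by linarith) (hLnn t))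
  · intro t
    have := h10 t
    beta_reduce at this
    rw [one_mul]
    have e2 : (y t : ℝ) = (((y t : ℤ) : ℚ) : ℝ) := (Rat.cast_intCast _).symm
    rw [e2, this]
    push_cast
    rfl

end Pool.Agent.H455.AB
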