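import Mathlib
import Pool.Agent.H455.AB1

set_option autoImplicit false

/-!
# Integers with few powers of one base: sums, products, dominant terms
-/

open Finset Filter Topology

namespace Pool.Agent.H455.AB

open Pool.Agent.TH419.WI Pool.Agent.TH419.HX Pool.Agent.H455.VC Pool.Agent.H455.RT
open Pool.Agent.H455.CB
open Pool.Agent.Results.MP_821da1_nt.LaurentDichotomy (UnitOf NoLaurentCurve Qbar)

/-- up to a denominator of slow growth, a sum of few powers of `g` with slowly growing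
coefficients -/
def Spr (g : ℕ) (L : ℕ → ℝ) (x : ℕ → ℤ) : Prop :=
  ∃ (T : ℕ) (D : ℕ → ℤ) (v : ℕ → Fin T → ℤ) (l : ℕ → Fin T → ℕ), (∀ t, D t ≠ 0) ∧
    (Sub L fun t => (D t : ℝ)) ∧ (∀ j, Sub L fun t => (v t j : ℝ)) ∧
    ∀ t, D t * x t = ∑ j, v t j * (g : ℤ) ^ l t j

variable {g : ℕ} {L : ℕ → ℝ}

theorem Spr.of {ι : Type} [Fintype ι] {x : ℕ → ℤ} (D : ℕ → ℤ) (v : ℕ → ι → ℤ) (l : ℕ → ι → ℕ)
    (h1 : ∀ t, D t ≠ 0) (h2 : Sub L fun t => (D t : ℝ)) (h3 : ∀ j, Sub L fun t => (v t j : ℝ))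
    (h4 : ∀ t, D t * x t = ∑ j, v t j * (g : ℤ) ^ l t j) : Spr g L x := by
  let e := (Fintype.equivFin ι).symm
  refine ⟨Fintype.card ι, D, fun t j => v t (e j), fun t j => l t (e j), h1, h2,
    fun j => h3 (e j), fun t => ?_⟩
  rw [h4]
  exact (Equiv.sum_comp e (fun j => v t j * (g : ℤ) ^ l t j)).symm

theorem Spr.comp {x : ℕ → ℤ} (h : Spr g L x) {ψ : ℕ → ℕ} (hψ : Tendsto ψ atTop atTop) :
    Spr g (L ∘ ψ) (x ∘ ψ) := by
  obtain ⟨T, D, v, l, h1, h2, h3, h4⟩ := h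
  exact ⟨T, fun t => D (ψ t), fun t => v (ψ t), fun t => l (ψ t), fun t => h1 _, h2.comp hψ,
    fun j => (h3 j).comp hψ, fun t => h4 _⟩

theorem Spr.slow (hL : Tendsto L atTop atTop) {x : ℕ → ℤ} (h : Sub L fun t => (x t : ℝ)) :
    Spr g L x :=
  Spr.of (ι := Unit) (fun _ => 1) (fun t _ => x t) (fun _ _ => 0) (fun _ => one_ne_zero)
    (by simpa using Sub.const hL 1) (fun _ => h) (fun t => by simp)

theorem Spr.add {x y : ℕ → ℤ} (hx : Spr g L x) (hy : Spr g L y) :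
    Spr g L fun t => x t + y t := by
  obtain ⟨T, D, v, l, h1, h2, h3, h4⟩ := hx
  obtain ⟨T', D', v', l', h1', h2', h3', h4'⟩ := hy
  have k : ∀ a b : ℕ → ℤ, (Sub L fun t => (a t : ℝ)) → (Sub L fun t => (b t : ℝ)) →
      Sub L fun t => ((a t * b t : ℤ) : ℝ) := fun a b ha hb =>
    (ha.mul hb).mono (Eventually.of_forall fun t => by push_cast; exact le_rfl)
  refine Spr.of (ι := Fin T ⊕ Fin T') (fun t => D t * D' t)
    (fun t => Sum.elim (fun j => D' t * v t j) fun j => D t * v' t j)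
    (fun t => Sum.elim (l t) (l' t)) (fun t => mul_ne_zero (h1 t) (h1' t)) (k _ _ h2 h2') ?_
    (fun t => ?_)
  · rintro (j | j)
    · exact k _ _ h2' (h3 j)
    · exact k _ _ h2 (h3' j)
  · rw [Fintype.sum_sum_type]
    simp only [Sum.elim_inl, Sum.elim_inr, mul_assoc]
    rw [← Finset.mul_sum, ← Finset.mul_sum, ← h4, ← h4']
    ring

theorem Spr.mul {x y : ℕ → ℤ} (hx : Spr g L x) (hy : Spr g L y) :
    Spr g L fun t => x t * y t := by
  obtain ⟨T, D, v, l, h1, h2, h3, h4⟩ := hx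
  obtain ⟨T', D', v', l', h1', h2', h3', h4'⟩ := hy
  have k : ∀ a b : ℕ → ℤ, (Sub L fun t => (a t : ℝ)) → (Sub L fun t => (b t : ℝ)) →
      Sub L fun t => ((a t * b t : ℤ) : ℝ) := fun a b ha hb =>
    (ha.mul hb).mono (Eventually.of_forall fun t => by push_cast; exact le_rfl)
  refine Spr.of (ι := Fin T × Fin T') (fun t => D t * D' t) (fun t p => v t p.1 * v' t p.2)
    (fun t p => l t p.1 + l' t p.2) (fun t => mul_ne_zero (h1 t) (h1' t)) (k _ _ h2 h2')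
    (fun p => k _ _ (h3 p.1) (h3' p.2)) (fun t => ?_)
  have e1 : D t * D' t * (x t * y t) = (D t * x t) * (D' t * y t) := by ring
  rw [e1, h4, h4', Finset.sum_mul_sum, Fintype.sum_prod_type]
  refine Finset.sum_congr rfl fun i _ => Finset.sum_congr rfl fun j _ => ?_
  simp only
  rw [pow_add]
  ring

theorem Spr.const (hL : Tendsto L atTop atTop) (c : ℤ) : Spr g L fun _ => c :=
  Spr.slow hL (Sub.const hL c)

theorem Spr.pow (hL : Tendsto L atTop atTop) {x : ℕ → ℤ} (hx : Spr g L x) (n : ℕ) :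
    Spr g L fun t => x t ^ n := by
  induction n with
  | zero => simpa using Spr.const hL 1
  | succ n ih =>
    have := ih.mul hx
    simpa only [← pow_succ] using this

/-- the dominant term -/
theorem Spr.ld {S : Finset ℕ} (hg : 2 ≤ g) (hgS : g.primeFactors ⊆ S)
    (hL : Tendsto L atTop atTop) (hLnn : ∀ t, 0 ≤ L t) {x : ℕ → ℤ} (h : Spr g L x)
    (hx0 : ∀ t, x t ≠ 0) {C : ℝ} (hC : 0 ≤ C) (hxC : ∀ t, |(x t : ℝ)| ≤ Real.exp (C * L t)) :
    ∃ ψ : ℕ → ℕ, StrictMono ψ ∧ Ld S (L ∘ ψ) fun t => (x (ψ t) : ℚ) := by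
  classical
  obtain ⟨T, D, v, l, hD0, hDS, hvS, hDx⟩ := h
  have hb1 : (1 : ℝ) < g := by exact_mod_cast (by omega : 1 < g)
  have hlb : 0 < Real.log g := Real.log_pos hb1
  have hb0 : (0 : ℝ) < g := by linarith
  obtain ⟨χ, hχm, η, s', f, A, hη, hA0, hAS, hAe, hgap⟩ := blocks hg T Finset.univ
    (by simp) L hL v l hvS (fun t => by
      have h1 : ss g Finset.univ (v t) (l t) = D t * x t := by
        rw [hDx]
        rfl
      rw [h1]
      exact mul_ne_zero (hD0 t) (hx0 t))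
  have hχt := hχm.tendsto_atTop
  obtain ⟨L', hL'⟩ : ∃ L' : ℕ → ℝ, L' = L ∘ χ := ⟨_, rfl⟩
  have hLt : Tendsto L' atTop atTop := by rw [hL']; exact hL.comp hχt
  have hLnn' : ∀ t, 0 ≤ L' t := fun t => by rw [hL']; exact hLnn _
  have hDS' : Sub L' fun t => (D (χ t) : ℝ) := by rw [hL']; exact hDS.comp hχt
  have hvS' : ∀ j, Sub L' fun t => (v (χ t) j : ℝ) := fun j => by
    rw [hL']; exact (hvS j).comp hχt
  have hAS' : Sub L' fun t => (A t : ℝ) := by rw [hL']; exact hAS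
  have hxe : ∀ t, D (χ t) * x (χ t) = A t * (g : ℤ) ^ f t + ∑ j ∈ s', v (χ t) j *
      (g : ℤ) ^ l (χ t) j := by
    intro t
    have h1 := hAe t
    have h2 : ss g Finset.univ (v (χ t)) (l (χ t)) = D (χ t) * x (χ t) := by
      rw [hDx]
      rfl
    rw [h2] at h1
    exact h1
  have hgap' : ∀ t, ∀ j ∈ s', (l (χ t) j : ℝ) * Real.log g + η * L' t ≤ f t * Real.log g := by
    intro t j hj
    rw [hL']
    exact hgap t j hj
  have hpow : ∀ k : ℕ, (g : ℝ) ^ k = Real.exp (k * Real.log g) := fun k => by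
    rw [Real.exp_nat_mul, Real.exp_log hb0]
  have hA1 : ∀ t, (1 : ℝ) ≤ |(A t : ℝ)| := fun t => by
    have : 1 ≤ |A t| := Int.one_le_abs (hA0 t)
    exact_mod_cast this
  -- the small terms
  have hsmall : ∀ᶠ t in atTop, ∑ j ∈ s', |(v (χ t) j : ℝ)| * (g : ℝ) ^ l (χ t) j ≤
      (g : ℝ) ^ f t / 2 := by
    have h1 : Dec L' η fun t => ∑ j ∈ s', |(v (χ t) j : ℝ)| * Real.exp (-(η * L' t)) := by
      refine RT.Dec.sum hLt s' fun j _ => ?_
      have h2 := Dec.mul (dec_zero_iff.2 ((hvS' j).mono (g := fun t => |(v (χ t) j : ℝ)|)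
        (Eventually.of_forall fun t => by rw [abs_abs]))) (dec_exp hLt η)
      rwa [zero_add] at h2
    have h2 := (h1.tendsto hLt hη).eventually_lt_const (by norm_num : (0 : ℝ) < 1 / 2)
    filter_upwards [h2] with t ht
    calc ∑ j ∈ s', |(v (χ t) j : ℝ)| * (g : ℝ) ^ l (χ t) j ≤
          ∑ j ∈ s', |(v (χ t) j : ℝ)| * (Real.exp (-(η * L' t)) * (g : ℝ) ^ f t) := by
          refine Finset.sum_le_sum fun j hj => mul_le_mul_of_nonneg_left ?_ (abs_nonneg _)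
          rw [hpow, hpow, ← Real.exp_add]
          apply Real.exp_le_exp.2
          have := hgap' t j hj
          linarith
      _ = (∑ j ∈ s', |(v (χ t) j : ℝ)| * Real.exp (-(η * L' t))) * (g : ℝ) ^ f t := by
          rw [Finset.sum_mul]
          refine Finset.sum_congr rfl fun j _ => ?_
          ring
      _ ≤ 1 / 2 * (g : ℝ) ^ f t := mul_le_mul_of_nonneg_right ht.le (by positivity)
      _ = (g : ℝ) ^ f t / 2 := by ring
  have hsize : ∀ᶠ t in atTop, (g : ℝ) ^ f t ≤ Real.exp ((C + 1) * L' t) := by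
    filter_upwards [hsmall, hDS' (1 / 2) (by norm_num), ev_const_le hLt 2 (1 / 2) (by norm_num)]
      with t h1 h2 h3
    have h4 : (g : ℝ) ^ f t ≤ |(D (χ t) : ℝ) * x (χ t)| + (g : ℝ) ^ f t / 2 := by
      have h5 : (A t : ℝ) * (g : ℝ) ^ f t = (D (χ t) : ℝ) * x (χ t) -
          ∑ j ∈ s', (v (χ t) j : ℝ) * (g : ℝ) ^ l (χ t) j := by
        have h6 : ((D (χ t) : ℝ)) * x (χ t) = (A t : ℝ) * (g : ℝ) ^ f t +
            ∑ j ∈ s', (v (χ t) j : ℝ) * (g : ℝ) ^ l (χ t) j := by exact_mod_cast hxe t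
        rw [h6]
        ring
      have hbf : (0 : ℝ) < (g : ℝ) ^ f t := by positivity
      calc (g : ℝ) ^ f t ≤ |(A t : ℝ)| * (g : ℝ) ^ f t := le_mul_of_one_le_left hbf.le (hA1 t)
        _ = |(A t : ℝ) * (g : ℝ) ^ f t| := by rw [abs_mul, abs_of_pos hbf]
        _ ≤ |(D (χ t) : ℝ) * x (χ t)| + |∑ j ∈ s', (v (χ t) j : ℝ) * (g : ℝ) ^ l (χ t) j| := by
            rw [h5]; exact abs_sub _ _
        _ ≤ _ := by
            refine add_le_add le_rfl (((Finset.abs_sum_le_sum_abs _ _).trans (le_of_eq ?_)).trans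
              h1)
            refine Finset.sum_congr rfl fun j _ => ?_
            rw [abs_mul, abs_of_pos (by positivity : (0 : ℝ) < (g : ℝ) ^ l (χ t) j)]
    have h7 : |(x (χ t) : ℝ)| ≤ Real.exp (C * L' t) := by
      rw [hL']; exact hxC _
    have h8 : (g : ℝ) ^ f t ≤ 2 * (Real.exp (1 / 2 * L' t) * Real.exp (C * L' t)) := by
      rw [abs_mul] at h4
      have h9 := mul_le_mul h2 h7 (abs_nonneg _) (Real.exp_pos _).le
      linarith
    refine h8.trans ?_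
    calc 2 * (Real.exp (1 / 2 * L' t) * Real.exp (C * L' t)) ≤
          Real.exp (1 / 2 * L' t) * (Real.exp (1 / 2 * L' t) * Real.exp (C * L' t)) :=
          mul_le_mul_of_nonneg_right h3 (by positivity)
      _ = Real.exp ((C + 1) * L' t) := by
          rw [← Real.exp_add, ← Real.exp_add]
          congr 1
          ring
  obtain ⟨t1, ht1⟩ := eventually_atTop.1 hsize
  obtain ⟨ψ2, hψ2⟩ : ∃ ψ2 : ℕ → ℕ, ψ2 = fun t => t + t1 := ⟨_, rfl⟩
  have hψ2m : StrictMono ψ2 := by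
    rw [hψ2]
    intro a c hac
    simpa using hac
  have hψ2t := hψ2m.tendsto_atTop
  have hsz : ∀ t, (g : ℝ) ^ f (ψ2 t) ≤ Real.exp ((C + 1) * L' (ψ2 t)) := fun t =>
    ht1 _ (by rw [hψ2]; simp)
  have hsm : ∀ k, Smooth S (g ^ k) := fun k => by
    have h1 := smooth_base hg k
    exact ⟨h1.1, h1.2.trans hgS⟩
  have hLL : L ∘ (χ ∘ ψ2) = L' ∘ ψ2 := by rw [hL']; rfl
  refine ⟨χ ∘ ψ2, hχm.comp hψ2m, ?_⟩
  rw [hLL]
  have hAQ : ∀ t, (A t : ℚ) ≠ 0 := fun t => by exact_mod_cast hA0 t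
  have hDQ : ∀ t, (D (χ t) : ℚ) ≠ 0 := fun t => by exact_mod_cast hD0 _
  have hgQ : (g : ℚ) ≠ 0 := by
    have : g ≠ 0 := by omega
    exact_mod_cast this
  obtain ⟨W, hW⟩ : ∃ W : ℕ → ℚ, W = fun t => 1 + ∑ j : {j // j ∈ s'},
      ((v (χ (ψ2 t)) j : ℚ) / A (ψ2 t)) * (((g ^ l (χ (ψ2 t)) j : ℕ) : ℚ) /
        ((g ^ f (ψ2 t) : ℕ) : ℚ)) := ⟨_, rfl⟩
  have hxW : ∀ t, (x (χ (ψ2 t)) : ℚ) = ((A (ψ2 t) : ℚ) / D (χ (ψ2 t))) *
      (((g ^ f (ψ2 t) : ℕ) : ℚ) / ((1 : ℕ) : ℚ)) * (W t / 1) := by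
    intro t
    have h1 : (D (χ (ψ2 t)) : ℚ) * x (χ (ψ2 t)) = (A (ψ2 t) : ℚ) * (g : ℚ) ^ f (ψ2 t) +
        ∑ j ∈ s', (v (χ (ψ2 t)) j : ℚ) * (g : ℚ) ^ l (χ (ψ2 t)) j := by
      exact_mod_cast hxe (ψ2 t)
    have h2 : W t = 1 + (∑ j ∈ s', (v (χ (ψ2 t)) j : ℚ) * (g : ℚ) ^ l (χ (ψ2 t)) j) /
        (A (ψ2 t) * (g : ℚ) ^ f (ψ2 t)) := by
      rw [hW]
      simp only
      congr 1
      rw [Finset.sum_div, ← Finset.sum_coe_sort s']
      refine Finset.sum_congr rfl fun j _ => ?_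
      push_cast
      rw [div_mul_div_comm]
    have h3 := hAQ (ψ2 t)
    have h4 := hDQ (ψ2 t)
    have h5 : (g : ℚ) ^ f (ψ2 t) ≠ 0 := pow_ne_zero _ hgQ
    have h6 : (x (χ (ψ2 t)) : ℚ) = ((A (ψ2 t) : ℚ) * (g : ℚ) ^ f (ψ2 t) +
        ∑ j ∈ s', (v (χ (ψ2 t)) j : ℚ) * (g : ℚ) ^ l (χ (ψ2 t)) j) / D (χ (ψ2 t)) := by
      rw [← h1]
      field_simp
    rw [h6, h2]
    push_cast
    field_simp
  have hxQ : ∀ t, (x (χ (ψ2 t)) : ℚ) ≠ 0 := fun t => by exact_mod_cast hx0 _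
  refine ⟨fun t => (A (ψ2 t) : ℚ) / D (χ (ψ2 t)), fun t => g ^ f (ψ2 t), fun _ => 1, C + 1, W,
    fun _ => 1, by linarith, ?_, fun t => hsm _, fun _ => smooth_one _, fun t => ?_,
    fun t => ?_, ?_, One.one, fun t h0 => ?_, fun _ => one_ne_zero, hxW⟩
  · exact SlowQ.div (hLt.comp hψ2t) (SlowQ.int (hLt.comp hψ2t) (hAS'.comp hψ2t))
      (SlowQ.int (hLt.comp hψ2t) (hDS'.comp hψ2t))
  · push_cast
    exact hsz t
  · rw [Nat.cast_one]
    exact Real.one_le_exp (mul_nonneg (by linarith) (hLnn' _))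
  · refine ⟨{j // j ∈ s'}, inferInstance, fun t j => (v (χ (ψ2 t)) j : ℚ) / A (ψ2 t),
      fun t j => g ^ l (χ (ψ2 t)) j, fun t _ => g ^ f (ψ2 t), C + 1, η, by linarith, hη,
      fun j => ?_, fun t j => hsm _, fun t _ => hsm _, fun t j => ?_, fun t _ => ?_,
      fun t j => ?_, fun t => by rw [hW]⟩
    · exact SlowQ.div (hLt.comp hψ2t) (SlowQ.int (hLt.comp hψ2t) ((hvS' j).comp hψ2t))
        (SlowQ.int (hLt.comp hψ2t) (hAS'.comp hψ2t))
    · refine le_trans ?_ (hsz t)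
      push_cast
      rw [hpow, hpow]
      apply Real.exp_le_exp.2
      have h1 := hgap' (ψ2 t) j j.2
      have h2 := mul_nonneg hη.le (hLnn' (ψ2 t))
      linarith
    · push_cast
      exact hsz t
    · push_cast
      rw [hpow, hpow, ← Real.exp_add]
      apply Real.exp_le_exp.2
      exact hgap' (ψ2 t) j j.2
  · apply hxQ t
    rw [hxW t, h0]
    simp

end Pool.Agent.H455.AB
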