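import Mathlib
import Pool.Agent.H455.AB0
import Pool.Agent.H455.AB2

set_option autoImplicit false

/-!
# The abc inequality for sequences with an arbitrary cofactor
-/

open Finset Filter Topology

namespace Pool.Agent.H455.AB

open Pool.Agent.TH419.WI Pool.Agent.TH419.HX Pool.Agent.H455.VC Pool.Agent.H455.RT
open Pool.Agent.H455.CB
open Pool.Agent.Results.MP_821da1_nt.LaurentDichotomy (UnitOf NoLaurentCurve Qbar)

variable {S : Finset ℕ} {L : ℕ → ℝ}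

/-- the rational numbers `y t` are sums of almost units -/
def RelQ (S : Finset ℕ) (L : ℕ → ℝ) (y : ℕ → ℚ) : Prop :=
  ∃ (N : ℕ) (v : ℕ → Fin N → ℚ) (c : ℕ → Fin N → ℚ), (∀ t j, UnitOf S (v t j)) ∧
    (∀ j, SlowQ L fun t => c t j) ∧ ∀ t, y t = ∑ j, c t j * v t j

theorem RelQ.of {ι : Type} [Fintype ι] {y : ℕ → ℚ} (v c : ℕ → ι → ℚ)
    (h1 : ∀ t j, UnitOf S (v t j)) (h2 : ∀ j, SlowQ L fun t => c t j)
    (h3 : ∀ t, y t = ∑ j, c t j * v t j) : RelQ S L y := by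
  let e := (Fintype.equivFin ι).symm
  refine ⟨Fintype.card ι, fun t j => v t (e j), fun t j => c t (e j), fun t j => h1 t (e j),
    fun j => h2 (e j), fun t => ?_⟩
  rw [h3]
  exact (Equiv.sum_comp e (fun j => c t j * v t j)).symm

theorem unitOf_mul (hS : ∀ p ∈ S, p.Prime) {a b : ℚ} (ha : UnitOf S a) (hb : UnitOf S b) :
    UnitOf S (a * b) := by
  obtain ⟨e, he⟩ := ha
  obtain ⟨f, hf⟩ := hb
  refine ⟨fun p => e p + f p, ?_⟩
  rw [abs_mul, he, hf, ← Finset.prod_mul_distrib]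
  refine Finset.prod_congr rfl fun p hp => ?_
  rw [zpow_add₀]
  exact_mod_cast (hS p hp).ne_zero

theorem RelQ.mul (hS : ∀ p ∈ S, p.Prime) {x y : ℕ → ℚ} (hx : RelQ S L x) (hy : RelQ S L y) :
    RelQ S L fun t => x t * y t := by
  obtain ⟨N, v, c, h1, h2, h3⟩ := hx
  obtain ⟨N', v', c', h1', h2', h3'⟩ := hy
  refine RelQ.of (ι := Fin N × Fin N') (fun t p => v t p.1 * v' t p.2)
    (fun t p => c t p.1 * c' t p.2) (fun t p => unitOf_mul hS (h1 _ _) (h1' _ _))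
    (fun p => (h2 p.1).mul (h2' p.2)) (fun t => ?_)
  rw [h3, h3', Finset.sum_mul_sum, Fintype.sum_prod_type]
  refine Finset.sum_congr rfl fun i _ => Finset.sum_congr rfl fun j _ => ?_
  simp only
  ring

theorem RelQ.unit {u : ℕ → ℚ} (hL : Tendsto L atTop atTop) (hu : ∀ t, UnitOf S (u t)) :
    RelQ S L u :=
  RelQ.of (ι := Unit) (fun t _ => u t) (fun _ _ => 1) (fun t _ => hu t)
    (fun _ => SlowQ.const hL 1) (fun t => by simp)

theorem RelQ.congr {x y : ℕ → ℚ} (hx : RelQ S L x) (h : ∀ t, y t = x t) : RelQ S L y := by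
  have : y = x := funext h
  rwa [this]

theorem Rel.toQ {y : ℕ → ℤ} (h : Rel S L y) : RelQ S L fun t => (y t : ℚ) := h

theorem Rel.comp' {y : ℕ → ℤ} (h : Rel S L y) {ψ : ℕ → ℕ} (hψ : Tendsto ψ atTop atTop) :
    Rel S (L ∘ ψ) (y ∘ ψ) := Rel.comp h hψ

/-- several sequences -/
theorem rel_fin (hS : ∀ p ∈ S, p.Prime) : ∀ (n : ℕ) (L : ℕ → ℝ), Tendsto L atTop atTop →
    (∀ t, 0 ≤ L t) → ∀ y : Fin n → ℕ → ℤ, (∀ i, Ld S L fun t => (y i t : ℚ)) →
    ∃ ψ : ℕ → ℕ, StrictMono ψ ∧ ∀ i, Rel S (L ∘ ψ) (y i ∘ ψ) := by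
  intro n
  induction n with
  | zero => exact fun L _ _ y _ => ⟨id, strictMono_id, fun i => i.elim0⟩
  | succ n ih =>
    intro L hL hLnn y hy
    obtain ⟨ψ, hψ, h1⟩ := Ld.rel hS hL hLnn (hy 0)
    have hψt := hψ.tendsto_atTop
    obtain ⟨χ, hχ, h2⟩ := ih (L ∘ ψ) (hL.comp hψt) (fun t => hLnn _)
      (fun i t => y i.succ (ψ t)) (fun i => (hy i.succ).comp hψt)
    refine ⟨ψ ∘ χ, hψ.comp hχ, fun i => ?_⟩
    refine Fin.cases ?_ (fun i => ?_) i
    · exact Rel.comp h1 hχ.tendsto_atTop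
    · exact h2 i

theorem isSUnit_of {u : ℚ} (h : UnitOf S u) : Pool.Agent.Y724.T4.R7.IsSUnit S u := by
  obtain ⟨e, he⟩ := h
  rcases abs_choice u with h1 | h1
  · exact ⟨1, e, Or.inl rfl, by rw [← he, h1]; simp⟩
  · refine ⟨-1, e, Or.inr rfl, ?_⟩
    rw [← he, h1]
    simp

theorem Sh.mono {l l' : ℕ} (hl : l ≤ l') {M M' : ℝ} (hM : M ≤ M') (hM0 : 0 ≤ M') {y : ℚ}
    (h : Sh S l M y) : Sh S l' M' y := by
  classical
  obtain ⟨u, k, h1, h2, h3⟩ := h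
  refine ⟨fun j => if hj : j.1 < l then u ⟨j.1, hj⟩ else 1,
    fun j => if hj : j.1 < l then k ⟨j.1, hj⟩ else 0, fun j => ?_, fun j => ?_, ?_⟩
  · beta_reduce
    split_ifs with hj
    · exact h1 _
    · exact ⟨1, fun _ => 0, Or.inl rfl, by simp⟩
  · beta_reduce
    split_ifs with hj
    · exact (h2 _).trans hM
    · rw [Int.cast_zero, abs_zero]
      exact hM0
  · rw [h3]
    have h4 : ∑ j : Fin l', (if hj : j.1 < l then u ⟨j.1, hj⟩ else 1) *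
        ((if hj : j.1 < l then k ⟨j.1, hj⟩ else 0 : ℤ) : ℚ) =
        ∑ j ∈ Finset.range l', (if hj : j < l then u ⟨j, hj⟩ * (k ⟨j, hj⟩ : ℚ) else 0) := by
      rw [Finset.sum_range]
      refine Finset.sum_congr rfl fun j _ => ?_
      by_cases hj : j.1 < l
      · simp [hj]
      · simp [hj]
    rw [h4, ← Finset.sum_subset (Finset.range_subset_range.2 hl), Finset.sum_range]
    · refine Finset.sum_congr rfl fun j _ => ?_
      simp
    · intro j _ hj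
      rw [dif_neg]
      simpa using hj

/-- a common denominator -/
theorem clear (hL : Tendsto L atTop atTop) {κ : Type} [Fintype κ] (y : κ → ℕ → ℚ)
    (h : ∀ k, RelQ S L (y k)) :
    ∃ (l : ℕ) (Δ : ℕ → ℕ) (M : ℕ → ℝ), (∀ t, 0 < Δ t) ∧ (∀ t, (Δ t : ℝ) ≤ M t) ∧ Sub L M ∧
      ∀ t k, Sh S l (M t) ((Δ t : ℚ) * y k t) := by
  classical
  choose N v c hv hc hy using h
  choose A D hA hD hcD using fun k j => hc k j
  obtain ⟨Δ, hΔ⟩ : ∃ Δ : ℕ → ℕ, Δ = fun t => ∏ p : (Σ k, Fin (N k)), (D p.1 p.2 t).natAbs :=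
    ⟨_, rfl⟩
  obtain ⟨Z, hZ⟩ : ∃ Z : ℕ → ℝ, Z = fun t => 1 + ∑ p : (Σ k, Fin (N k)), |(A p.1 p.2 t : ℝ)| :=
    ⟨_, rfl⟩
  have hΔ0 : ∀ t, 0 < Δ t := fun t => by
    rw [hΔ]
    exact Finset.prod_pos fun p _ => Int.natAbs_pos.2 (hcD p.1 p.2 t).1
  have hΔS : Sub L fun t => (Δ t : ℝ) := by
    have h1 := Sub.prod hL (Finset.univ : Finset (Σ k, Fin (N k)))
      (f := fun p t => (D p.1 p.2 t : ℝ)) (fun p _ => hD p.1 p.2)
    refine h1.mono (Eventually.of_forall fun t => ?_)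
    rw [hΔ]
    push_cast
    rw [Finset.abs_prod, Finset.abs_prod]
    refine le_of_eq (Finset.prod_congr rfl fun p _ => ?_)
    rw [Nat.cast_natAbs, Int.cast_abs, abs_abs]
  have hZS : Sub L Z := by
    have h1 : Dec L 0 fun t => ∑ p : (Σ k, Fin (N k)), |(A p.1 p.2 t : ℝ)| :=
      RT.Dec.sum hL Finset.univ fun p _ => dec_zero_iff.2 ((hA p.1 p.2).mono
        (Eventually.of_forall fun t => by rw [abs_abs]))
    rw [hZ]
    exact RT.Sub.add' hL (Sub.const hL 1) (dec_zero_iff.1 h1)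
  have hZ1 : ∀ t, 1 ≤ Z t := fun t => by
    rw [hZ]
    have : 0 ≤ ∑ p : (Σ k, Fin (N k)), |(A p.1 p.2 t : ℝ)| :=
      Finset.sum_nonneg fun _ _ => abs_nonneg _
    linarith
  refine ⟨Finset.univ.sup N, Δ, fun t => (Δ t : ℝ) * Z t, hΔ0, fun t => ?_, hΔS.mul hZS,
    fun t k => ?_⟩
  · have h1 := hZ1 t
    have h2 : (0 : ℝ) ≤ Δ t := Nat.cast_nonneg _
    nlinarith
  · have h0 : (0 : ℝ) ≤ (Δ t : ℝ) * Z t := mul_nonneg (Nat.cast_nonneg _) (by linarith [hZ1 t])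
    refine Sh.mono (Finset.le_sup (Finset.mem_univ k)) le_rfl h0 ?_
    -- the quotients
    have hdv : ∀ j : Fin (N k), ∃ e : ℤ, (Δ t : ℤ) = D k j t * e ∧ |(e : ℝ)| ≤ Δ t := by
      intro j
      have h1 : (D k j t).natAbs ∣ Δ t := by
        rw [hΔ]
        exact Finset.dvd_prod_of_mem (fun p : (Σ k, Fin (N k)) => (D p.1 p.2 t).natAbs)
          (Finset.mem_univ ⟨k, j⟩)
      have h2 : D k j t ∣ (Δ t : ℤ) := by
        rw [← Int.natAbs_dvd]
        exact_mod_cast h1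
      obtain ⟨e, he⟩ := h2
      refine ⟨e, he, ?_⟩
      have h3 : (Δ t : ℝ) = |(D k j t : ℝ)| * |(e : ℝ)| := by
        rw [← abs_mul]
        have h4 : (Δ t : ℝ) = (D k j t : ℝ) * e := by exact_mod_cast he
        rw [← h4, Nat.abs_cast]
      have h5 : (1 : ℝ) ≤ |(D k j t : ℝ)| := by
        have : 1 ≤ |D k j t| := Int.one_le_abs (hcD k j t).1
        exact_mod_cast this
      rw [h3]
      exact le_mul_of_one_le_left (abs_nonneg _) h5
    choose e he heb using hdv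
    refine ⟨fun j => v k t j, fun j => A k j t * e j, fun j => isSUnit_of (hv k t j),
      fun j => ?_, ?_⟩
    · push_cast
      rw [abs_mul, mul_comm]
      refine mul_le_mul (heb j) ?_ (abs_nonneg _) (Nat.cast_nonneg _)
      rw [hZ]
      have h1 : |(A k j t : ℝ)| ≤ ∑ p : (Σ k, Fin (N k)), |(A p.1 p.2 t : ℝ)| :=
        Finset.single_le_sum (f := fun p : (Σ k, Fin (N k)) => |(A p.1 p.2 t : ℝ)|)
          (fun _ _ => abs_nonneg _) (Finset.mem_univ ⟨k, j⟩)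
      linarith
    · rw [hy k t, Finset.mul_sum]
      refine Finset.sum_congr rfl fun j _ => ?_
      have h0' : c k t j = (A k j t : ℚ) / (D k j t : ℚ) := (hcD k j t).2
      rw [h0']
      have h1 : (D k j t : ℚ) ≠ 0 := by exact_mod_cast (hcD k j t).1
      have h2 : (Δ t : ℚ) = (D k j t : ℚ) * e j := by exact_mod_cast he j
      rw [h2]
      push_cast
      field_simp

/-- a divisor of a smooth number -/
theorem smooth_of_dvd {a b : ℕ} (hb : Smooth S b) (h : a ∣ b) : Smooth S a :=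
  ⟨fun h0 => hb.1 (by rw [h0] at h; exact Nat.eq_zero_of_zero_dvd h),
    (Nat.primeFactors_mono h hb.1).trans hb.2⟩

/-- **The abc inequality for sequences, with an arbitrary cofactor.** -/
theorem abc_seq (hS : ∀ p ∈ S, p.Prime) (m : ℕ) (ε : ℝ) (hε : 0 < ε) (a : Fin 3 → ℕ → ℤ)
    (ρ X w : ℕ → ℕ) (hLX : ∀ t, L t = Real.log (X t)) (hL : Tendsto L atTop atTop)
    (ha0 : ∀ i t, a i t ≠ 0) (hsum : ∀ t, a 0 t + a 1 t + a 2 t = 0)
    (hcop : ∀ t, IsCoprime (a 0 t) (a 1 t)) (hρ : ∀ t, 0 < ρ t)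
    (hX : ∀ i t, (a i t).natAbs ≤ X t) (hX' : ∀ t, ∃ i, (a i t).natAbs = X t)
    (hw : ∀ t, Smooth S (w t))
    (hdvd : ∀ t, (a 0 t * a 1 t * a 2 t).natAbs ∣ w t * ρ t ^ m)
    (La : ∀ i, Ld S L fun t => (a i t : ℚ)) (Lρ : Ld S L fun t => (ρ t : ℚ))
    (hbad : ∀ K : ℝ, ∀ᶠ t in atTop, (1 + ε) * Real.log (ρ t) + K < Real.log (X t)) : False := by
  classical
  have hX1 : ∀ t, 1 ≤ X t := fun t => by
    obtain ⟨i, hi⟩ := hX' t
    rw [← hi]
    exact Int.natAbs_pos.2 (ha0 i t)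
  have hLnn : ∀ t, 0 ≤ L t := fun t => by
    rw [hLX]
    exact Real.log_nonneg (by exact_mod_cast hX1 t)
  obtain ⟨m', hm'⟩ : ∃ m' : ℕ, m' = m + 1 := ⟨_, rfl⟩
  obtain ⟨P, hP⟩ : ∃ P : ℕ → ℕ, P = fun t => (a 0 t * a 1 t * a 2 t).natAbs := ⟨_, rfl⟩
  have hP0 : ∀ t, P t ≠ 0 := fun t => by
    rw [hP]
    exact Int.natAbs_ne_zero.2 (mul_ne_zero (mul_ne_zero (ha0 0 t) (ha0 1 t)) (ha0 2 t))
  have hdvd' : ∀ t, P t ∣ w t * ρ t ^ m' := fun t => by
    rw [hP, hm', pow_succ, ← mul_assoc]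
    exact (hdvd t).mul_right _
  obtain ⟨G, hG⟩ : ∃ G : ℕ → ℕ, G = fun t => Nat.gcd (P t) (ρ t ^ m') := ⟨_, rfl⟩
  have hG0 : ∀ t, 0 < G t := fun t => by
    rw [hG]
    exact Nat.gcd_pos_of_pos_left _ (Nat.pos_of_ne_zero (hP0 t))
  have hGP : ∀ t, ∃ n, P t = G t * n := fun t => by
    rw [hG]; exact Nat.gcd_dvd_left _ _
  have hGρ : ∀ t, ∃ y, ρ t ^ m' = G t * y := fun t => by
    rw [hG]; exact Nat.gcd_dvd_right _ _
  choose n hn using hGP
  choose y hy using hGρ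
  have hcop2 : ∀ t, Nat.Coprime (n t) (y t) := fun t => by
    have h1 := Nat.coprime_div_gcd_div_gcd (m := P t) (n := ρ t ^ m') (by
      have := hG0 t
      rwa [hG] at this)
    have h2 : Nat.gcd (P t) (ρ t ^ m') = G t := by rw [hG]
    rw [h2, hn t, hy t, Nat.mul_div_cancel_left _ (hG0 t), Nat.mul_div_cancel_left _ (hG0 t)] at h1
    exact h1
  have hnw : ∀ t, n t ∣ w t := fun t => by
    have h1 := hdvd' t
    rw [hn t, hy t, ← mul_assoc, mul_comm (w t), mul_assoc] at h1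
    have h2 : n t ∣ w t * y t := Nat.dvd_of_mul_dvd_mul_left (hG0 t) h1
    exact (hcop2 t).dvd_of_dvd_mul_right h2
  have hns : ∀ t, Smooth S (n t) := fun t => smooth_of_dvd (hw t) (hnw t)
  have hnP : ∀ t, n t ≤ P t := fun t => by
    rw [hn t]
    exact Nat.le_mul_of_pos_left _ (hG0 t)
  have hPX : ∀ t, P t ≤ X t ^ 3 := fun t => by
    rw [hP]
    beta_reduce
    rw [Int.natAbs_mul, Int.natAbs_mul]
    calc (a 0 t).natAbs * (a 1 t).natAbs * (a 2 t).natAbs ≤ X t * X t * X t :=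
          Nat.mul_le_mul (Nat.mul_le_mul (hX 0 t) (hX 1 t)) (hX 2 t)
      _ = X t ^ 3 := by ring
  have hnC : ∀ t, (n t : ℝ) ≤ Real.exp (3 * L t) := fun t => by
    have h1 : (n t : ℝ) ≤ (X t : ℝ) ^ 3 := by exact_mod_cast (hnP t).trans (hPX t)
    have h2 : (0 : ℝ) < X t := by
      have := hX1 t
      exact_mod_cast this
    rw [hLX, show (3 : ℝ) * Real.log (X t) = ((3 : ℕ) : ℝ) * Real.log (X t) by norm_num,
      Real.exp_nat_mul, Real.exp_log h2]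
    exact h1
  -- the sign
  obtain ⟨σ, hσ⟩ : ∃ σ : ℕ → ℤ, σ = fun t => if 0 ≤ a 0 t * a 1 t * a 2 t then 1 else -1 :=
    ⟨_, rfl⟩
  have hσ1 : ∀ t, σ t = 1 ∨ σ t = -1 := fun t => by
    rw [hσ]
    beta_reduce
    split_ifs
    · exact Or.inl rfl
    · exact Or.inr rfl
  have hσP : ∀ t, (P t : ℤ) = σ t * (a 0 t * a 1 t * a 2 t) := fun t => by
    rw [hP, hσ]
    beta_reduce
    split_ifs with h
    · rw [one_mul, Int.natAbs_of_nonneg h]
    · rw [Int.ofNat_natAbs_of_nonpos (by omega)]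
      ring
  have hσS : Sub L fun t => (σ t : ℝ) := (Sub.const hL 1).mono (Eventually.of_forall fun t => by
    rcases hσ1 t with h | h <;> rw [h] <;> simp)
  have hσσ : ∀ t, (σ t : ℚ) * σ t = 1 := fun t => by
    rcases hσ1 t with h | h <;> rw [h] <;> norm_num
  -- the cofactor
  have LP : Ld S L fun t => (P t : ℚ) := by
    have h1 := (Ld.slow (S := S) hLnn (SlowQ.int hL hσS)).mul hLnn
      (((La 0).mul hLnn (La 1)).mul hLnn (La 2))
    refine h1.congr fun t => ?_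
    have := hσP t
    exact_mod_cast this
  have Ln : Ld S L fun t => (n t : ℚ) := Ld.smooth hL hLnn hns (by norm_num : (0 : ℝ) ≤ 3) hnC
  have hyq : ∀ t, (y t : ℚ) = n t * (ρ t : ℚ) ^ m' / P t := fun t => by
    have h1 : (P t : ℚ) = G t * n t := by exact_mod_cast hn t
    have h2 : (ρ t : ℚ) ^ m' = G t * y t := by exact_mod_cast hy t
    have h3 : (G t : ℚ) ≠ 0 := by
      have := (hG0 t).ne'
      exact_mod_cast this
    have h4 : (n t : ℚ) ≠ 0 := by exact_mod_cast (hns t).1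
    rw [h1, h2]
    field_simp
  have Ly : Ld S L fun t => (((y t : ℕ) : ℤ) : ℚ) := by
    have h1 := (Ln.mul hLnn (Lρ.pow hL hLnn m')).div hL hLnn LP
    refine h1.congr fun t => ?_
    rw [Int.cast_natCast]
    exact hyq t
  -- the relations
  obtain ⟨ψ, hψ, hrel⟩ := rel_fin hS 5 L hL hLnn
    ![a 0, a 1, a 2, fun t => (ρ t : ℤ), fun t => (y t : ℤ)] (fun i => by
      fin_cases i
      · exact La 0
      · exact La 1
      · exact La 2
      · show Ld S L fun t => (((ρ t : ℕ) : ℤ) : ℚ)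
        refine Lρ.congr fun t => ?_
        rw [Int.cast_natCast]
      · exact Ly)
  have hψt := hψ.tendsto_atTop
  obtain ⟨L', hL'⟩ : ∃ L' : ℕ → ℝ, L' = L ∘ ψ := ⟨_, rfl⟩
  have hLt : Tendsto L' atTop atTop := by rw [hL']; exact hL.comp hψt
  have Ra : ∀ i : Fin 3, RelQ S L' fun t => (a i (ψ t) : ℚ) := fun i => by
    rw [hL']
    fin_cases i
    · exact hrel 0
    · exact hrel 1
    · exact hrel 2
  have Rρ : RelQ S L' fun t => (ρ (ψ t) : ℚ) := by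
    rw [hL']
    have h1 : RelQ S (L ∘ ψ) fun t => (((ρ (ψ t) : ℕ) : ℤ) : ℚ) := hrel 3
    refine h1.congr fun t => ?_
    rw [Int.cast_natCast]
  have Ry : RelQ S L' fun t => (y (ψ t) : ℚ) := by
    rw [hL']
    have h1 : RelQ S (L ∘ ψ) fun t => (((y (ψ t) : ℕ) : ℤ) : ℚ) := hrel 4
    refine h1.congr fun t => ?_
    rw [Int.cast_natCast]
  have Rn : RelQ S L' fun t => ((n (ψ t) : ℚ))⁻¹ := by
    refine RelQ.unit hLt fun t => ?_
    have h1 := unitOf_div (fun p hp => (hS p hp).ne_zero) (unitOf_one S)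
      (unitOf_smooth (hns (ψ t)))
    rwa [one_div] at h1
  have Rσ : RelQ S L' fun t => (σ (ψ t) : ℚ) := by
    refine RelQ.unit hLt fun t => ?_
    rcases hσ1 (ψ t) with h | h
    · rw [h, Int.cast_one]; exact unitOf_one S
    · refine ⟨fun _ => 0, ?_⟩
      rw [h]
      simp
  obtain ⟨τ, hτ⟩ : ∃ τ : ℕ → ℚ, τ = fun t => (σ (ψ t) : ℚ) * ((y (ψ t) : ℚ) * (n (ψ t) : ℚ)⁻¹) :=
    ⟨_, rfl⟩
  have Rτ : RelQ S L' τ := by
    rw [hτ]
    exact Rσ.mul hS (Ry.mul hS Rn)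
  have hτe : ∀ t, (ρ (ψ t) : ℚ) ^ m' = a 0 (ψ t) * a 1 (ψ t) * a 2 (ψ t) * τ t := fun t => by
    have h1 := hyq (ψ t)
    have h2 : (P (ψ t) : ℚ) = σ (ψ t) * (a 0 (ψ t) * a 1 (ψ t) * a 2 (ψ t)) := by
      exact_mod_cast hσP (ψ t)
    have h3 : (P (ψ t) : ℚ) ≠ 0 := by exact_mod_cast hP0 _
    have h4 : (n (ψ t) : ℚ) ≠ 0 := by exact_mod_cast (hns (ψ t)).1
    rw [hτ]
    beta_reduce
    rw [h1]
    have h5 := hσσ (ψ t)
    have h6 : (a 0 (ψ t) : ℚ) * a 1 (ψ t) * a 2 (ψ t) = σ (ψ t) * P (ψ t) := by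
      rw [h2]
      linear_combination (-((a 0 (ψ t) : ℚ) * a 1 (ψ t) * a 2 (ψ t))) * h5
    rw [h6]
    field_simp
    linear_combination (-(ρ (ψ t) : ℚ) ^ m') * h5
  obtain ⟨q, hq⟩ : ∃ q : Fin 3 → ℕ → ℚ, q = ![fun t => (a 1 (ψ t) : ℚ) * a 2 (ψ t),
    fun t => (a 0 (ψ t) : ℚ) * a 2 (ψ t), fun t => (a 0 (ψ t) : ℚ) * a 1 (ψ t)] := ⟨_, rfl⟩
  have Rq : ∀ i, RelQ S L' (q i) := fun i => by
    rw [hq]
    fin_cases i
    · exact (Ra 1).mul hS (Ra 2)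
    · exact (Ra 0).mul hS (Ra 2)
    · exact (Ra 0).mul hS (Ra 1)
  have hqe : ∀ i t, (a 0 (ψ t) : ℚ) * a 1 (ψ t) * a 2 (ψ t) = a i (ψ t) * q i t := fun i t => by
    rw [hq]
    fin_cases i
    · show _ = (a 0 (ψ t) : ℚ) * ((a 1 (ψ t) : ℚ) * a 2 (ψ t))
      ring
    · show _ = (a 1 (ψ t) : ℚ) * ((a 0 (ψ t) : ℚ) * a 2 (ψ t))
      ring
    · show _ = (a 2 (ψ t) : ℚ) * ((a 0 (ψ t) : ℚ) * a 1 (ψ t))
      ring
  -- the common denominator
  obtain ⟨l, Δ, M, hΔ, hΔM, hMS, hsh⟩ := clear hLt (S := S)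
    (κ := Fin 3 ⊕ (Fin 3 × Fin 3) ⊕ Unit ⊕ Unit)
    (Sum.elim (fun i t => (a i (ψ t) : ℚ)) (Sum.elim (fun p t => q p.1 t * τ t * a p.2 (ψ t))
      (Sum.elim (fun _ t => (ρ (ψ t) : ℚ)) fun _ _ => 1)))
    (by
      rintro (i | p | u | u)
      · exact Ra i
      · exact ((Rq p.1).mul hS Rτ).mul hS (Ra p.2)
      · exact Rρ
      · exact RelQ.unit hLt fun t => unitOf_one S)
  obtain ⟨δ, C, hδ, hC, habc⟩ := abc_den S hS l m' (by omega) ε hε
  obtain ⟨t, ht1, ht2⟩ := ((hMS δ hδ).and (hψt.eventually (hbad C))).exists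
  have hM1 : 1 ≤ M t := by
    have h1 := hΔM t
    have h2 : (1 : ℝ) ≤ Δ t := by exact_mod_cast hΔ t
    linarith
  have h1 := habc (fun i => a i (ψ t)) (ρ (ψ t)) (X (ψ t)) (fun i j => q i t * τ t * a j (ψ t))
    (Δ t) (M t) (fun i => ha0 i _) (hsum _) (hcop _) (hρ _) (fun i j => by
      rw [hτe, hqe i t]
      ring) (fun i => hX i _) (hX' _) (hΔ t) (hΔM t) (by
      rw [abs_of_nonneg (by linarith)] at ht1
      have h2 := Real.log_le_log (by linarith) ht1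
      rw [Real.log_exp] at h2
      have h3 : L' t = Real.log (X (ψ t)) := by rw [hL']; exact hLX _
      rw [h3] at h2
      linarith) (fun i => hsh t (Sum.inl i)) (fun i j => hsh t (Sum.inr (Sum.inl (i, j))))
    (hsh t (Sum.inr (Sum.inr (Sum.inl ())))) (by
      have := hsh t (Sum.inr (Sum.inr (Sum.inr ())))
      simp only [Sum.elim_inr, mul_one] at this
      exact this)
  linarith

/-- several sequences -/
theorem ld_fin (hS : ∀ p ∈ S, p.Prime) : ∀ (n : ℕ) (L : ℕ → ℝ), Tendsto L atTop atTop →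
    (∀ t, 0 ≤ L t) → ∀ (g : Fin n → ℕ), (∀ i, 2 ≤ g i) → (∀ i, (g i).primeFactors ⊆ S) →
    ∀ (y : Fin n → ℕ → ℤ), (∀ i, Spr (g i) L (y i)) → (∀ i t, y i t ≠ 0) → ∀ C : ℝ, 0 ≤ C →
    (∀ i t, |(y i t : ℝ)| ≤ Real.exp (C * L t)) →
    ∃ ψ : ℕ → ℕ, StrictMono ψ ∧ ∀ i, Ld S (L ∘ ψ) fun t => (y i (ψ t) : ℚ) := by
  intro n
  induction n with
  | zero => exact fun L _ _ _ _ _ _ _ _ _ _ _ => ⟨id, strictMono_id, fun i => i.elim0⟩
  | succ n ih =>
    intro L hL hLnn g hg hgS y hy hy0 C hC hyC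
    obtain ⟨ψ, hψ, h1⟩ := (hy 0).ld (hg 0) (hgS 0) hL hLnn (hy0 0) hC (hyC 0)
    have hψt := hψ.tendsto_atTop
    obtain ⟨χ, hχ, h2⟩ := ih (L ∘ ψ) (hL.comp hψt) (fun t => hLnn _) (fun i => g i.succ)
      (fun i => hg _) (fun i => hgS _) (fun i t => y i.succ (ψ t))
      (fun i => (hy i.succ).comp hψt) (fun i t => hy0 _ _) C hC (fun i t => hyC _ _)
    refine ⟨ψ ∘ χ, hψ.comp hχ, fun i => ?_⟩
    refine Fin.cases ?_ (fun i => ?_) i
    · exact h1.comp hχ.tendsto_atTop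
    · exact h2 i

theorem sub_scale {L L' : ℕ → ℝ} {K : ℝ} (hK : 0 < K) (h : ∀ t, L t ≤ K * L' t) {f : ℕ → ℝ}
    (hf : Sub L f) : Sub L' f := by
  intro ε hε
  filter_upwards [hf (ε / K) (by positivity)] with t ht
  refine ht.trans (Real.exp_le_exp.2 ?_)
  calc ε / K * L t ≤ ε / K * (K * L' t) := mul_le_mul_of_nonneg_left (h t) (by positivity)
    _ = ε * L' t := by field_simp

theorem Spr.scale {g : ℕ} {L L' : ℕ → ℝ} {K : ℝ} (hK : 0 < K) (h : ∀ t, L t ≤ K * L' t)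
    {x : ℕ → ℤ} (hx : Spr g L x) : Spr g L' x := by
  obtain ⟨T, D, v, l, h1, h2, h3, h4⟩ := hx
  exact ⟨T, D, v, l, h1, sub_scale hK h h2, fun j => sub_scale hK h (h3 j), h4⟩

/-- the absolute value -/
theorem Ld.natAbs (hL : Tendsto L atTop atTop) (hLnn : ∀ t, 0 ≤ L t) {x : ℕ → ℤ}
    (h : Ld S L fun t => (x t : ℚ)) : Ld S L fun t => ((x t).natAbs : ℚ) := by
  obtain ⟨σ, hσ⟩ : ∃ σ : ℕ → ℤ, σ = fun t => if 0 ≤ x t then 1 else -1 := ⟨_, rfl⟩
  have hσ1 : ∀ t, σ t = 1 ∨ σ t = -1 := fun t => by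
    rw [hσ]
    beta_reduce
    split_ifs
    · exact Or.inl rfl
    · exact Or.inr rfl
  have hσP : ∀ t, ((x t).natAbs : ℤ) = σ t * x t := fun t => by
    rw [hσ]
    beta_reduce
    split_ifs with h
    · rw [one_mul, Int.natAbs_of_nonneg h]
    · rw [Int.ofNat_natAbs_of_nonpos (by omega)]
      ring
  have hσS : Sub L fun t => (σ t : ℝ) := (Sub.const hL 1).mono (Eventually.of_forall fun t => by
    rcases hσ1 t with h | h <;> rw [h] <;> simp)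
  refine ((Ld.slow (S := S) hLnn (SlowQ.int hL hσS)).mul hLnn h).congr fun t => ?_
  have h1 := hσP t
  rw [← Int.cast_natCast, h1, Int.cast_mul]

end Pool.Agent.H455.AB
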