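import Mathlib
import Pool.Graph.R_pool_sql_team_seeded_843ab51a.V11288.SZ.Glob
import Pool.Graph.R_seed8.TH419.HX.Root

set_option autoImplicit false

/-!
# Arithmetic of the pairs `(x, y)` with `x ^ 3 ≠ y ^ 2`
-/

open Finset

namespace Pool.Agent.H455.SZ

open Pool.Agent.V11288.SZ (N6 N6_pos N6_fac natAbs_pow_dvd)
open Pool.Agent.TH419.WI Pool.Agent.TH419.HX

/-- the part of `n` prime to `S` -/
def prt (S : Finset ℕ) (n : ℕ) : ℕ := ∏ p ∈ n.primeFactors with p ∉ S, p ^ n.factorization p

/-- the part of `n` composed of the primes of `S` -/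
def spt (S : Finset ℕ) (n : ℕ) : ℕ := ∏ p ∈ n.primeFactors with p ∈ S, p ^ n.factorization p

variable {S : Finset ℕ}

theorem spt_mul_prt {n : ℕ} (hn : n ≠ 0) : n = spt S n * prt S n := by
  unfold spt prt
  rw [Finset.prod_filter_mul_prod_filter_not]
  conv_lhs => rw [← Nat.prod_factorization_pow_eq_self hn]
  rw [Finsupp.prod, Nat.support_factorization]

theorem prt_pos (n : ℕ) : 0 < prt S n :=
  Finset.prod_pos fun p hp => pow_pos
    (Nat.prime_of_mem_primeFactors (Finset.mem_filter.1 hp).1).pos _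

theorem spt_pos (n : ℕ) : 0 < spt S n :=
  Finset.prod_pos fun p hp => pow_pos
    (Nat.prime_of_mem_primeFactors (Finset.mem_filter.1 hp).1).pos _

theorem prod_fac (n : ℕ) (T : Finset ℕ) (hT : T ⊆ n.primeFactors) {p : ℕ} (hp : p.Prime) :
    (∏ q ∈ T, q ^ n.factorization q).factorization p = if p ∈ T then n.factorization p else 0 := by
  classical
  have hTp : ∀ q ∈ T, q.Prime := fun q hq => Nat.prime_of_mem_primeFactors (hT hq)
  rw [Nat.factorization_prod_apply fun q hq => pow_ne_zero _ (hTp q hq).ne_zero]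
  have h1 : ∀ q ∈ T, (q ^ n.factorization q).factorization p =
      if q = p then n.factorization p else 0 := by
    intro q hq
    rw [(hTp q hq).factorization_pow, Finsupp.single_apply]
    split_ifs with h
    · rw [h]
    · rfl
  rw [Finset.sum_congr rfl h1, Finset.sum_ite_eq']

theorem prt_fac (n : ℕ) {p : ℕ} (hp : p.Prime) :
    (prt S n).factorization p = if p ∈ S then 0 else n.factorization p := by
  classical
  unfold prt
  rw [prod_fac n _ (Finset.filter_subset _ _) hp]
  by_cases h1 : p ∈ S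
  · rw [if_pos h1, if_neg]
    intro h
    exact (Finset.mem_filter.1 h).2 h1
  · rw [if_neg h1]
    split_ifs with h
    · rfl
    · symm
      by_contra h2
      apply h
      rw [Finset.mem_filter]
      refine ⟨?_, h1⟩
      rw [← Nat.support_factorization]
      exact Finsupp.mem_support_iff.2 h2

theorem spt_smooth (n : ℕ) : Smooth S (spt S n) := by
  refine ⟨(spt_pos n).ne', fun p hp => ?_⟩
  have hpp := Nat.prime_of_mem_primeFactors hp
  have hd := Nat.dvd_of_mem_primeFactors hp
  unfold spt at hd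
  rw [hpp.prime.dvd_finsetProd_iff] at hd
  obtain ⟨q, hq, hpq⟩ := hd
  rw [Finset.mem_filter] at hq
  have hqp := Nat.prime_of_mem_primeFactors hq.1
  rw [(Nat.prime_dvd_prime_iff_eq hpp hqp).1 (hpp.dvd_of_dvd_pow hpq)]
  exact hq.2

theorem spt_fac {n : ℕ} (hn : n ≠ 0) {p : ℕ} (hp : p.Prime) :
    (spt S n).factorization p = if p ∈ S then n.factorization p else 0 := by
  have h1 : n.factorization p = (spt S n).factorization p + (prt S n).factorization p := by
    conv_lhs => rw [spt_mul_prt (S := S) hn]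
    rw [Nat.factorization_mul (spt_pos n).ne' (prt_pos n).ne', Finsupp.add_apply]
  rw [prt_fac n hp] at h1
  split_ifs at h1 ⊢ <;> omega

theorem prt_le {n : ℕ} (hn : n ≠ 0) : prt S n ≤ n := by
  conv_rhs => rw [spt_mul_prt (S := S) hn]
  exact Nat.le_mul_of_pos_left _ (spt_pos n)

theorem spt_le {n : ℕ} (hn : n ≠ 0) : spt S n ≤ n := by
  conv_rhs => rw [spt_mul_prt (S := S) hn]
  exact Nat.le_mul_of_pos_right _ (prt_pos n)

/-- the local conditions -/
structure Pair (S : Finset ℕ) (G : ℕ) (x y : ℤ) : Prop where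
  hx : x ≠ 0
  hy : y ≠ 0
  hn : x ^ 3 - y ^ 2 ≠ 0
  hmin : ∀ p : ℕ, p.Prime → 5 ≤ p → ¬ ((p : ℤ) ^ 4 ∣ x ∧ (p : ℤ) ^ 6 ∣ y)
  hmin2 : ¬ ((2 : ℤ) ^ G ∣ x ∧ (2 : ℤ) ^ G ∣ y)
  hmin3 : ¬ ((3 : ℤ) ^ G ∣ x ∧ (3 : ℤ) ^ G ∣ y)
  h2S : 2 ∈ S
  h3S : 3 ∈ S

/-- the conditions at one prime -/
theorem Pair.loc {G : ℕ} {x y : ℤ} (P : Pair S G x y) {p : ℕ} (hp : p.Prime) (α β δ e γ : ℕ)
    (hα : α = x.natAbs.factorization p) (hβ : β = y.natAbs.factorization p)
    (hδ : δ = (x ^ 3 - y ^ 2).natAbs.factorization p) (he : e = (N6 x y).factorization p)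
    (hγ : γ = ((x ^ 3).gcd (y ^ 2)).factorization p) :
    γ = min (3 * α) (2 * β) ∧
    (p ∈ S → γ ≤ 3 * G + 10) ∧
    (p ∉ S → (γ = 0 ∧ e = 0 ∧ δ = 0) ∨ (α = 0 ∧ β = 0 ∧ e = 1) ∨
      (1 ≤ α ∧ 1 ≤ β ∧ e = 2 ∧ (α ≤ 3 ∨ β ≤ 5))) := by
  obtain ⟨hx, hy, hn, hmin, hmin2, hmin3, h2S, h3S⟩ := P
  have hX0 : x.natAbs ≠ 0 := by simpa using hx
  have hY0 : y.natAbs ≠ 0 := by simpa using hy
  have hn0 : (x ^ 3 - y ^ 2).natAbs ≠ 0 := by simpa using hn
  have hXd : ∀ k, (p : ℤ) ^ k ∣ x ↔ k ≤ α := by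
    intro k
    rw [natAbs_pow_dvd, hp.pow_dvd_iff_le_factorization hX0, hα]
  have hYd : ∀ k, (p : ℤ) ^ k ∣ y ↔ k ≤ β := by
    intro k
    rw [natAbs_pow_dvd, hp.pow_dvd_iff_le_factorization hY0, hβ]
  have hpZ : Prime (p : ℤ) := Nat.prime_iff_prime_int.mp hp
  have hγe : γ = min (3 * α) (2 * β) := by
    rw [hγ, Int.gcd_eq_natAbs, Int.natAbs_pow, Int.natAbs_pow,
      Nat.factorization_gcd (pow_ne_zero _ hX0) (pow_ne_zero _ hY0), Finsupp.inf_apply,
      Nat.factorization_pow, Nat.factorization_pow, Finsupp.smul_apply, Finsupp.smul_apply,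
      ← hα, ← hβ]
    rfl
  refine ⟨hγe, fun hpS => ?_, fun hpS => ?_⟩
  · by_cases h5 : 5 ≤ p
    · have h1 := hmin p hp h5
      rw [hXd, hYd] at h1
      omega
    · have h23 : p = 2 ∨ p = 3 := by
        have := hp.two_le
        have h4 : p ≠ 4 := by
          rintro rfl
          exact absurd hp (by norm_num)
        omega
      rcases h23 with h | h
      · have h1 := hmin2
        have hX2 := hXd G
        have hY2 := hYd G
        rw [h] at hX2 hY2
        push_cast at hX2 hY2
        rw [hX2, hY2] at h1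
        omega
      · have h1 := hmin3
        have hX2 := hXd G
        have hY2 := hYd G
        rw [h] at hX2 hY2
        push_cast at hX2 hY2
        rw [hX2, hY2] at h1
        omega
  · have h5 : 5 ≤ p := by
      have := hp.two_le
      have h2 : p ≠ 2 := fun h => hpS (h ▸ h2S)
      have h3 : p ≠ 3 := fun h => hpS (h ▸ h3S)
      have h4 : p ≠ 4 := by
        rintro rfl
        exact absurd hp (by norm_num)
      omega
    by_cases hd : (p : ℤ) ∣ x ^ 3 - y ^ 2
    · right
      have hNf := N6_fac x y hp h5 hd hn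
      rw [← he] at hNf
      by_cases hpx : (p : ℤ) ∣ x
      · right
        have hpy : (p : ℤ) ∣ y := by
          have h1 : (p : ℤ) ∣ y ^ 2 := by
            have h2 : (p : ℤ) ∣ x ^ 3 := hpx.trans (dvd_pow_self x (by norm_num))
            have := dvd_sub h2 hd
            simpa using this
          exact hpZ.dvd_of_dvd_pow h1
        rw [if_pos hpx] at hNf
        have ha : 1 ≤ α := (hXd 1).1 (by simpa using hpx)
        have hb : 1 ≤ β := (hYd 1).1 (by simpa using hpy)
        have h1 := hmin p hp h5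
        rw [hXd, hYd] at h1
        omega
      · left
        rw [if_neg hpx] at hNf
        have hpy : ¬ (p : ℤ) ∣ y := by
          intro hpy
          apply hpx
          have h1 : (p : ℤ) ∣ x ^ 3 := by
            have h2 : (p : ℤ) ∣ y ^ 2 := hpy.trans (dvd_pow_self y (by norm_num))
            have := dvd_add hd h2
            simpa using this
          exact hpZ.dvd_of_dvd_pow h1
        have ha : α = 0 := by
          by_contra h
          exact hpx (by simpa using (hXd 1).2 (by omega))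
        have hb : β = 0 := by
          by_contra h
          exact hpy (by simpa using (hYd 1).2 (by omega))
        exact ⟨ha, hb, hNf⟩
    · left
      have h1 : δ = 0 := by
        rw [hδ]
        exact Nat.factorization_eq_zero_of_not_dvd (fun h => hd (Int.natCast_dvd.2 h))
      have h2 : e = 0 := by
        rw [he]
        refine Nat.factorization_eq_zero_of_not_dvd fun h => hd ?_
        unfold N6 at h
        rw [hp.prime.dvd_finsetProd_iff] at h
        obtain ⟨q, hq, hpq⟩ := h
        rw [Finset.mem_filter] at hq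
        have hqp := Nat.prime_of_mem_primeFactors hq.1
        have h3 : p = q := by
          split_ifs at hpq
          · exact (Nat.prime_dvd_prime_iff_eq hp hqp).1 (hp.dvd_of_dvd_pow hpq)
          · exact (Nat.prime_dvd_prime_iff_eq hp hqp).1 hpq
        rw [h3]
        exact Int.natCast_dvd.2 (Nat.dvd_of_mem_primeFactors hq.1)
      have h3 : γ = 0 := by
        rw [hγe]
        by_contra h
        have ha : 1 ≤ α := by omega
        have hb : 1 ≤ β := by omega
        apply hd
        have k1 : (p : ℤ) ∣ x := by simpa using (hXd 1).2 ha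
        have k2 : (p : ℤ) ∣ y := by simpa using (hYd 1).2 hb
        exact dvd_sub (k1.trans (dvd_pow_self x (by norm_num)))
          (k2.trans (dvd_pow_self y (by norm_num)))
      exact ⟨h3, h2, h1⟩

/-- the data of the triple -/
theorem Pair.triple {G m : ℕ} {x y : ℤ} (P : Pair S G x y) (hS : ∀ p ∈ S, p.Prime)
    (hm : ∀ p : ℕ, p.Prime → p ∉ S → (x ^ 3 - y ^ 2).natAbs.factorization p ≤ m) :
    ∃ (a : Fin 3 → ℤ) (ρ : ℕ), (∀ i, a i ≠ 0) ∧ a 0 + a 1 + a 2 = 0 ∧ IsCoprime (a 0) (a 1) ∧
      x ^ 3 = (x ^ 3).gcd (y ^ 2) * a 0 ∧ y ^ 2 = -((x ^ 3).gcd (y ^ 2) * a 1) ∧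
      x ^ 3 - y ^ 2 = -((x ^ 3).gcd (y ^ 2) * a 2) ∧ 0 < ρ ∧
      ρ * prt S ((x ^ 3).gcd (y ^ 2)) = prt S (x * y).natAbs * prt S (N6 x y) ∧
      (a 0 * a 1 * a 2).natAbs ∣ spt S (a 0 * a 1 * a 2).natAbs * ρ ^ (3 + m) ∧
      spt S ((x ^ 3).gcd (y ^ 2)) ∣ (∏ p ∈ S, p) ^ (3 * G + 10) ∧
      prt S ((x ^ 3).gcd (y ^ 2)) ∣ N6 x y ^ 5 := by
  classical
  obtain ⟨hx, hy, hn, -, -, -, -, -⟩ := id P
  obtain ⟨g, hg⟩ : ∃ g : ℕ, g = (x ^ 3).gcd (y ^ 2) := ⟨_, rfl⟩
  have hg0 : 0 < g := by
    rw [hg]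
    exact Int.gcd_pos_iff.2 (Or.inl (pow_ne_zero _ hx))
  have hgZ : (g : ℤ) ≠ 0 := by exact_mod_cast hg0.ne'
  obtain ⟨a0, ha0⟩ : (g : ℤ) ∣ x ^ 3 := by rw [hg]; exact Int.gcd_dvd_left _ _
  obtain ⟨b, hb⟩ : (g : ℤ) ∣ y ^ 2 := by rw [hg]; exact Int.gcd_dvd_right _ _
  have hcop : IsCoprime a0 b := by
    have h1 : (x ^ 3).gcd (y ^ 2) = g * a0.gcd b := by
      rw [ha0, hb, Int.gcd_mul_left, Int.natAbs_natCast]
    rw [← hg] at h1
    have h2 : a0.gcd b = 1 := by
      have : g * a0.gcd b = g * 1 := by rw [← h1, mul_one]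
      exact Nat.eq_of_mul_eq_mul_left hg0 this
    exact Int.isCoprime_iff_gcd_eq_one.2 h2
  have ha00 : a0 ≠ 0 := by
    rintro rfl
    rw [mul_zero] at ha0
    exact pow_ne_zero _ hx ha0
  have hb0 : b ≠ 0 := by
    rintro rfl
    rw [mul_zero] at hb
    exact pow_ne_zero _ hy hb
  have hab : a0 - b ≠ 0 := by
    intro h
    apply hn
    rw [ha0, hb]
    linear_combination (g : ℤ) * h
  have hX0 : x.natAbs ≠ 0 := by simpa using hx
  have hY0 : y.natAbs ≠ 0 := by simpa using hy
  have hN0 : N6 x y ≠ 0 := (N6_pos x y).ne'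
  have hxy0 : (x * y).natAbs ≠ 0 := by simpa using ⟨hx, hy⟩
  -- the divisibility that defines `ρ`
  have hd : prt S g ∣ prt S (x * y).natAbs * prt S (N6 x y) := by
    rw [← Nat.factorization_prime_le_iff_dvd (prt_pos _).ne'
      (mul_ne_zero (prt_pos _).ne' (prt_pos _).ne')]
    intro p hp
    rw [Nat.factorization_mul (prt_pos _).ne' (prt_pos _).ne', Finsupp.add_apply, prt_fac _ hp,
      prt_fac _ hp, prt_fac _ hp]
    by_cases hpS : p ∈ S
    · rw [if_pos hpS]; exact Nat.zero_le _
    · rw [if_neg hpS, if_neg hpS, if_neg hpS, Int.natAbs_mul, Nat.factorization_mul hX0 hY0,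
        Finsupp.add_apply]
      obtain ⟨h1, -, h3⟩ := P.loc hp _ _ _ _ _ rfl rfl rfl rfl rfl
      rw [← hg] at h1 h3
      have h4 := h3 hpS
      omega
  obtain ⟨ρ, hρ⟩ := hd
  have hρ0 : ρ ≠ 0 := by
    rintro rfl
    rw [mul_zero] at hρ
    exact (mul_pos (prt_pos _) (prt_pos _)).ne' hρ
  refine ⟨![a0, -b, b - a0], ρ, ?_, by
    show a0 + -b + (b - a0) = 0
    ring, ?_, by rw [← hg]; exact ha0, ?_, ?_,
    Nat.pos_of_ne_zero hρ0, by rw [← hg, mul_comm, hρ], ?_, ?_, ?_⟩
  · intro i
    fin_cases i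
    · exact ha00
    · exact neg_ne_zero.2 hb0
    · show b - a0 ≠ 0
      intro h
      apply hab
      linear_combination -h
  · exact hcop.neg_right
  · rw [← hg]
    show y ^ 2 = -((g : ℤ) * -b)
    rw [hb]; ring
  · rw [← hg]
    show x ^ 3 - y ^ 2 = -((g : ℤ) * (b - a0))
    rw [ha0, hb]; ring
  · show (a0 * -b * (b - a0)).natAbs ∣ spt S (a0 * -b * (b - a0)).natAbs * ρ ^ (3 + m)
    have hP0 : (a0 * -b * (b - a0)).natAbs ≠ 0 := by
      rw [Int.natAbs_ne_zero]
      exact mul_ne_zero (mul_ne_zero ha00 (neg_ne_zero.2 hb0)) (by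
        intro h
        apply hab
        linear_combination -h)
    rw [← Nat.factorization_prime_le_iff_dvd hP0
      (mul_ne_zero (spt_pos _).ne' (pow_ne_zero _ hρ0))]
    intro p hp
    rw [Nat.factorization_mul (spt_pos _).ne' (pow_ne_zero _ hρ0), Finsupp.add_apply,
      spt_fac hP0 hp, Nat.factorization_pow, Finsupp.smul_apply, smul_eq_mul]
    by_cases hpS : p ∈ S
    · rw [if_pos hpS]
      exact Nat.le_add_right _ _
    · rw [if_neg hpS, zero_add]
      obtain ⟨h1, -, h3⟩ := P.loc hp _ _ _ _ _ rfl rfl rfl rfl rfl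
      rw [← hg] at h1 h3
      have h4 := h3 hpS
      have h5 := hm p hp hpS
      -- the factorizations
      have e1 : 3 * x.natAbs.factorization p = g.factorization p + a0.natAbs.factorization p := by
        have h6 : (x ^ 3).natAbs.factorization p = ((g : ℤ) * a0).natAbs.factorization p := by
          rw [ha0]
        rw [Int.natAbs_pow, Nat.factorization_pow, Finsupp.smul_apply, smul_eq_mul,
          Int.natAbs_mul, Int.natAbs_natCast, Nat.factorization_mul hg0.ne'
          (Int.natAbs_ne_zero.2 ha00), Finsupp.add_apply] at h6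
        exact h6
      have e2 : 2 * y.natAbs.factorization p = g.factorization p + b.natAbs.factorization p := by
        have h6 : (y ^ 2).natAbs.factorization p = ((g : ℤ) * b).natAbs.factorization p := by
          rw [hb]
        rw [Int.natAbs_pow, Nat.factorization_pow, Finsupp.smul_apply, smul_eq_mul,
          Int.natAbs_mul, Int.natAbs_natCast, Nat.factorization_mul hg0.ne'
          (Int.natAbs_ne_zero.2 hb0), Finsupp.add_apply] at h6
        exact h6
      have e3 : (x ^ 3 - y ^ 2).natAbs.factorization p = g.factorization p +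
          (b - a0).natAbs.factorization p := by
        have h7 : x ^ 3 - y ^ 2 = g * (a0 - b) := by rw [ha0, hb]; ring
        rw [h7, Int.natAbs_mul, Int.natAbs_natCast, Nat.factorization_mul hg0.ne'
          (Int.natAbs_ne_zero.2 hab), Finsupp.add_apply, ← Int.natAbs_neg (a0 - b), neg_sub]
      have e4 : (a0 * -b * (b - a0)).natAbs.factorization p = a0.natAbs.factorization p +
          b.natAbs.factorization p + (b - a0).natAbs.factorization p := by
        have hba : (b - a0).natAbs ≠ 0 := by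
          rw [Int.natAbs_ne_zero]
          intro h
          apply hab
          linear_combination -h
        rw [Int.natAbs_mul, Int.natAbs_mul, Int.natAbs_neg, Nat.factorization_mul
          (mul_ne_zero (Int.natAbs_ne_zero.2 ha00) (Int.natAbs_ne_zero.2 hb0)) hba,
          Nat.factorization_mul (Int.natAbs_ne_zero.2 ha00) (Int.natAbs_ne_zero.2 hb0),
          Finsupp.add_apply, Finsupp.add_apply]
      have e5 : x.natAbs.factorization p + y.natAbs.factorization p +
          (N6 x y).factorization p = g.factorization p + ρ.factorization p := by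
        have h6 : (prt S (x * y).natAbs * prt S (N6 x y)).factorization p =
            (prt S g * ρ).factorization p := by rw [hρ]
        rw [Nat.factorization_mul (prt_pos _).ne' (prt_pos _).ne', Finsupp.add_apply,
          prt_fac _ hp, prt_fac _ hp, Nat.factorization_mul (prt_pos _).ne' hρ0,
          Finsupp.add_apply, prt_fac _ hp, if_neg hpS, if_neg hpS, if_neg hpS, Int.natAbs_mul,
          Nat.factorization_mul hX0 hY0, Finsupp.add_apply] at h6
        exact h6
      rw [e4]
      obtain ⟨v, hv⟩ : ∃ v, v = ρ.factorization p := ⟨_, rfl⟩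
      rw [← hv] at e5 ⊢
      have h8 : (3 + m) * v = 3 * v + m * v := by ring
      rw [h8]
      rcases h4 with ⟨k1, k2, k3⟩ | ⟨k1, k2, k3⟩ | ⟨k1, k2, k3, k4⟩
      · have : 0 ≤ m * v := Nat.zero_le _
        omega
      · have hv1 : 1 ≤ v := by omega
        have : m * 1 ≤ m * v := Nat.mul_le_mul_left m hv1
        omega
      · have hv1 : 1 ≤ v := by omega
        have : m * 1 ≤ m * v := Nat.mul_le_mul_left m hv1
        omega
  · have hP0 : (∏ p ∈ S, p) ≠ 0 := Finset.prod_ne_zero_iff.2 fun p hp => (hS p hp).ne_zero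
    have hPf : ∀ p ∈ S, (∏ q ∈ S, q).factorization p = 1 := by
      intro p hp
      rw [Nat.factorization_prod_apply (fun q hq => (hS q hq).ne_zero), Finset.sum_eq_single p]
      · rw [(hS p hp).factorization]; simp
      · intro q hq hqp
        rw [(hS q hq).factorization, Finsupp.single_apply, if_neg hqp]
      · intro h; exact absurd hp h
    rw [← hg, ← Nat.factorization_prime_le_iff_dvd (spt_pos _).ne' (pow_ne_zero _ hP0)]
    intro p hp
    rw [spt_fac hg0.ne' hp, Nat.factorization_pow, Finsupp.smul_apply, smul_eq_mul]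
    split_ifs with hpS
    · rw [hPf p hpS, mul_one]
      obtain ⟨-, h2, -⟩ := P.loc hp _ _ _ _ _ rfl rfl rfl rfl rfl
      rw [← hg] at h2
      exact h2 hpS
    · exact Nat.zero_le _
  · rw [← hg, ← Nat.factorization_prime_le_iff_dvd (prt_pos _).ne' (pow_ne_zero _ hN0)]
    intro p hp
    rw [prt_fac _ hp, Nat.factorization_pow, Finsupp.smul_apply, smul_eq_mul]
    split_ifs with hpS
    · exact Nat.zero_le _
    · obtain ⟨h1, -, h3⟩ := P.loc hp _ _ _ _ _ rfl rfl rfl rfl rfl
      rw [← hg] at h1 h3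
      have h4 := h3 hpS
      omega

end Pool.Agent.H455.SZ
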