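import Mathlib
import Pool.Agent.H455.AB3
import Pool.Agent.H455.SZ1

set_option autoImplicit false

/-!
# Szpiro's inequality for sequences of sparse pairs with an arbitrary cofactor
-/

open Finset Filter Topology

namespace Pool.Agent.H455.SZ

open Pool.Agent.TH419.WI Pool.Agent.TH419.HX Pool.Agent.H455.VC Pool.Agent.H455.RT
open Pool.Agent.H455.CB Pool.Agent.H455.AB
open Pool.Agent.V11288.SZ (N6 N6_pos)

variable {S : Finset ℕ}

theorem natAbs_le_exp {z : ℤ} {Y : ℕ} (hY : 1 ≤ Y) {K L : ℝ} (hL : Real.log Y ≤ K * L)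
    (h : z.natAbs ≤ Y) : |(z : ℝ)| ≤ Real.exp (K * L) := by
  have h1 : |(z : ℝ)| = (z.natAbs : ℝ) := by rw [Nat.cast_natAbs, Int.cast_abs]
  have h2 : (0 : ℝ) < Y := by exact_mod_cast hY
  rw [h1]
  calc (z.natAbs : ℝ) ≤ Y := by exact_mod_cast h
    _ = Real.exp (Real.log Y) := (Real.exp_log h2).symm
    _ ≤ _ := Real.exp_le_exp.2 hL

theorem nat_le_exp {n Y : ℕ} (hY : 1 ≤ Y) {K L : ℝ} (hL : Real.log Y ≤ K * L)
    (h : n ≤ Y) : (n : ℝ) ≤ Real.exp (K * L) := by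
  have h2 : (0 : ℝ) < Y := by exact_mod_cast hY
  calc (n : ℝ) ≤ Y := by exact_mod_cast h
    _ = Real.exp (Real.log Y) := (Real.exp_log h2).symm
    _ ≤ _ := Real.exp_le_exp.2 hL

/-- the main step -/
theorem sz_seq1 (hS : ∀ p ∈ S, p.Prime) (m : ℕ) (ε : ℝ) (hε : 0 < ε) {g h : ℕ}
    (hg : 2 ≤ g) (hgS : g.primeFactors ⊆ S) (hh : 2 ≤ h) (hhS : h.primeFactors ⊆ S)
    (x y : ℕ → ℤ) (a : ℕ → Fin 3 → ℤ) (ρ Γ X Y : ℕ → ℕ) (hx : ∀ t, x t ≠ 0) (hy : ∀ t, y t ≠ 0)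
    (hn : ∀ t, x t ^ 3 - y t ^ 2 ≠ 0)
    (ha0 : ∀ t i, a t i ≠ 0) (hsum : ∀ t, a t 0 + a t 1 + a t 2 = 0)
    (hcop : ∀ t, IsCoprime (a t 0) (a t 1)) (hΓ : ∀ t, 0 < Γ t)
    (hxa : ∀ t, x t ^ 3 = Γ t * a t 0) (hya : ∀ t, y t ^ 2 = -(Γ t * a t 1))
    (hna : ∀ t, x t ^ 3 - y t ^ 2 = -(Γ t * a t 2)) (hρ : ∀ t, 0 < ρ t)
    (hρe : ∀ t, ρ t * prt S (Γ t) = prt S (x t * y t).natAbs * prt S (N6 (x t) (y t)))
    (hdvd : ∀ t, (a t 0 * a t 1 * a t 2).natAbs ∣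
      spt S (a t 0 * a t 1 * a t 2).natAbs * ρ t ^ m)
    (hX : ∀ t i, (a t i).natAbs ≤ X t) (hX' : ∀ t, ∃ i, (a t i).natAbs = X t)
    (hY : ∀ t, Y t = max ((x t).natAbs ^ 3) ((y t).natAbs ^ 2))
    (hYX : ∀ t, Real.log (Y t) ≤ 6 * Real.log (X t))
    (hXt : Tendsto (fun t => Real.log (X t)) atTop atTop)
    (sx : Spr g (fun t => Real.log (X t)) x) (sy : Spr g (fun t => Real.log (X t)) y)
    (sΓ : Spr g (fun t => Real.log (X t)) fun t => (prt S (Γ t) : ℤ)) (Z : ℕ → ℤ)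
    (hZ : (∀ t, Z t = prt S (N6 (x t) (y t))) ∨
      ∀ t, Z t * prt S (N6 (x t) (y t)) = prt S (x t ^ 3 - y t ^ 2).natAbs)
    (sZ : Spr h (fun t => Real.log (X t)) Z)
    (hbad : ∀ K : ℝ, ∀ᶠ t in atTop, (1 + ε) * Real.log (ρ t) + K < Real.log (X t)) : False := by
  classical
  obtain ⟨L, hL⟩ : ∃ L : ℕ → ℝ, L = fun t => Real.log (X t) := ⟨_, rfl⟩
  rw [← hL] at hXt sx sy sΓ sZ
  have hLe : ∀ t, L t = Real.log (X t) := fun t => by rw [hL]
  have hX1 : ∀ t, 1 ≤ X t := fun t => by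
    obtain ⟨i, hi⟩ := hX' t
    rw [← hi]
    exact Int.natAbs_pos.2 (ha0 t i)
  have hLnn : ∀ t, 0 ≤ L t := fun t => by
    rw [hLe]
    exact Real.log_nonneg (by exact_mod_cast hX1 t)
  have hY1 : ∀ t, 1 ≤ Y t := fun t => by
    rw [hY]
    exact le_max_of_le_left (Nat.one_le_pow _ _ (Int.natAbs_pos.2 (hx t)))
  have hYL : ∀ t, Real.log (Y t) ≤ 6 * L t := fun t => by rw [hLe]; exact hYX t
  have hxY : ∀ t, (x t).natAbs ≤ Y t := fun t => by
    rw [hY]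
    exact (Nat.le_self_pow (by norm_num) _).trans (le_max_left _ _)
  have hyY : ∀ t, (y t).natAbs ≤ Y t := fun t => by
    rw [hY]
    exact (Nat.le_self_pow (by norm_num) _).trans (le_max_right _ _)
  have hnY : ∀ t, (x t ^ 3 - y t ^ 2).natAbs ≤ Y t ^ 2 * 2 := fun t => by
    have h1 : (x t ^ 3 - y t ^ 2).natAbs ≤ (x t ^ 3).natAbs + (y t ^ 2).natAbs :=
      Int.natAbs_sub_le _ _
    rw [Int.natAbs_pow, Int.natAbs_pow] at h1
    have h2 : (x t).natAbs ^ 3 ≤ Y t := by rw [hY]; exact le_max_left _ _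
    have h3 : (y t).natAbs ^ 2 ≤ Y t := by rw [hY]; exact le_max_right _ _
    have h4 : Y t ≤ Y t ^ 2 := Nat.le_self_pow (by norm_num) _
    omega
  -- everything is at most `Y ^ 3`
  obtain ⟨U, hU⟩ : ∃ U : ℕ → ℕ, U = fun t => 2 * Y t ^ 2 := ⟨_, rfl⟩
  have hU1 : ∀ t, 1 ≤ U t := fun t => by
    rw [hU]
    have := Nat.one_le_pow 2 _ (hY1 t)
    show 1 ≤ 2 * Y t ^ 2
    omega
  have hUe : ∀ t, Y t ≤ U t ∧ Y t ^ 2 ≤ U t := fun t => by
    rw [hU]
    have : Y t ≤ Y t ^ 2 := Nat.le_self_pow (by norm_num) _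
    constructor
    · show Y t ≤ 2 * Y t ^ 2
      omega
    · show Y t ^ 2 ≤ 2 * Y t ^ 2
      omega
  -- a shift
  have hev : ∀ᶠ t in atTop, Real.log (U t) ≤ 13 * L t := by
    filter_upwards [hXt.eventually_ge_atTop (Real.log 2)] with t ht
    have h1 : (0 : ℝ) < Y t := by exact_mod_cast hY1 t
    rw [hU]
    push_cast
    rw [Real.log_mul (by norm_num) (by positivity), Real.log_pow]
    have := hYL t
    push_cast
    linarith
  obtain ⟨t0, ht0⟩ := eventually_atTop.1 hev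
  obtain ⟨ψ0, hψ0⟩ : ∃ ψ0 : ℕ → ℕ, ψ0 = fun t => t + t0 := ⟨_, rfl⟩
  have hψ0m : StrictMono ψ0 := by
    rw [hψ0]
    intro a c hac
    simpa using hac
  have hψ0t := hψ0m.tendsto_atTop
  have hUL : ∀ t, Real.log (U (ψ0 t)) ≤ 13 * L (ψ0 t) := fun t =>
    ht0 _ (by rw [hψ0]; simp)
  -- dominant terms
  have hZ0 : ∀ t, Z t ≠ 0 := by
    intro t h0
    rcases hZ with h1 | h1
    · have h2 := h1 t
      rw [h0] at h2
      have h3 := prt_pos (S := S) (N6 (x t) (y t))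
      omega
    · have h2 := h1 t
      rw [h0, zero_mul] at h2
      have h3 := prt_pos (S := S) (x t ^ 3 - y t ^ 2).natAbs
      omega
  have hΓY : ∀ t, Γ t ≤ Y t := fun t => by
    have h1 : (x t).natAbs ^ 3 = Γ t * (a t 0).natAbs := by
      have h2 : (x t ^ 3).natAbs = (Γ t * a t 0 : ℤ).natAbs := by rw [hxa]
      rw [Int.natAbs_pow, Int.natAbs_mul, Int.natAbs_natCast] at h2
      exact h2
    calc Γ t ≤ Γ t * (a t 0).natAbs := Nat.le_mul_of_pos_right _ (Int.natAbs_pos.2 (ha0 t 0))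
      _ = (x t).natAbs ^ 3 := h1.symm
      _ ≤ Y t := by rw [hY]; exact le_max_left _ _
  have hnU : ∀ t, (x t ^ 3 - y t ^ 2).natAbs ≤ U t := fun t => by
    rw [hU]
    show _ ≤ 2 * Y t ^ 2
    rw [mul_comm]
    exact hnY t
  have hN0 : ∀ t, N6 (x t) (y t) ≠ 0 := fun t => (N6_pos _ _).ne'
  have hn0 : ∀ t, (x t ^ 3 - y t ^ 2).natAbs ≠ 0 := fun t => by simpa using hn t
  have hNU : ∀ t, N6 (x t) (y t) ≤ U t ^ 2 := fun t => by
    have h1 : N6 (x t) (y t) ∣ (x t ^ 3 - y t ^ 2).natAbs ^ 2 := by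
      unfold N6
      have h2 : (∏ p ∈ (x t ^ 3 - y t ^ 2).natAbs.primeFactors.filter (fun p => 5 ≤ p),
          if (p : ℤ) ∣ x t then p ^ 2 else p) ∣
          ∏ p ∈ (x t ^ 3 - y t ^ 2).natAbs.primeFactors.filter (fun p => 5 ≤ p), p ^ 2 := by
        refine Finset.prod_dvd_prod_of_dvd _ _ fun p _ => ?_
        split_ifs
        · exact dvd_rfl
        · exact dvd_pow_self p (by norm_num)
      refine h2.trans ?_
      rw [Finset.prod_pow]
      refine pow_dvd_pow_of_dvd ?_ 2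
      refine (Finset.prod_dvd_prod_of_subset _ _ _ (Finset.filter_subset _ _)).trans ?_
      exact Nat.prod_primeFactors_dvd _
    calc N6 (x t) (y t) ≤ (x t ^ 3 - y t ^ 2).natAbs ^ 2 :=
          Nat.le_of_dvd (pow_pos (Nat.pos_of_ne_zero (hn0 t)) 2) h1
      _ ≤ U t ^ 2 := Nat.pow_le_pow_left (hnU t) 2
  have hZU : ∀ t, (Z t).natAbs ≤ U t ^ 2 := by
    intro t
    rcases hZ with h1 | h1
    · rw [h1 t, Int.natAbs_natCast]
      exact (prt_le (hN0 t)).trans (hNU t)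
    · have h2 : (Z t).natAbs * prt S (N6 (x t) (y t)) = prt S (x t ^ 3 - y t ^ 2).natAbs := by
        have h3 := congrArg Int.natAbs (h1 t)
        rwa [Int.natAbs_mul, Int.natAbs_natCast, Int.natAbs_natCast] at h3
      calc (Z t).natAbs ≤ (Z t).natAbs * prt S (N6 (x t) (y t)) :=
            Nat.le_mul_of_pos_right _ (prt_pos _)
        _ = prt S (x t ^ 3 - y t ^ 2).natAbs := h2
        _ ≤ (x t ^ 3 - y t ^ 2).natAbs := prt_le (hn0 t)
        _ ≤ U t := hnU t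
        _ ≤ U t ^ 2 := Nat.le_self_pow (by norm_num) _
  have hL0 : Tendsto (L ∘ ψ0) atTop atTop := hXt.comp hψ0t
  have hU2 : ∀ t, Real.log ((U (ψ0 t) ^ 2 : ℕ) : ℝ) ≤ 26 * (L ∘ ψ0) t := fun t => by
    push_cast
    rw [Real.log_pow]
    have := hUL t
    push_cast
    show 2 * Real.log (U (ψ0 t)) ≤ 26 * L (ψ0 t)
    linarith
  have hU21 : ∀ t, 1 ≤ U t ^ 2 := fun t => Nat.one_le_pow _ _ (hU1 t)
  have hUU : ∀ t, U t ≤ U t ^ 2 := fun t => Nat.le_self_pow (by norm_num) _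
  obtain ⟨ψ1, hψ1m, hld⟩ := ld_fin hS 5 (L ∘ ψ0) hL0 (fun t => hLnn _)
    ![g, g, g, h, g] (by
      intro i
      fin_cases i
      · exact hg
      · exact hg
      · exact hg
      · exact hh
      · exact hg) (by
      intro i
      fin_cases i
      · exact hgS
      · exact hgS
      · exact hgS
      · exact hhS
      · exact hgS)
    ![fun t => x (ψ0 t), fun t => y (ψ0 t), fun t => (prt S (Γ (ψ0 t)) : ℤ), fun t => Z (ψ0 t),
      fun t => x (ψ0 t) ^ 3 - y (ψ0 t) ^ 2] (by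
      intro i
      fin_cases i
      · exact sx.comp hψ0t
      · exact sy.comp hψ0t
      · exact sΓ.comp hψ0t
      · exact sZ.comp hψ0t
      · have h1 := ((sx.comp hψ0t).pow hL0 3).add
          ((Spr.const hL0 (-1)).mul ((sy.comp hψ0t).pow hL0 2))
        have h2 : (fun t => x (ψ0 t) ^ 3 - y (ψ0 t) ^ 2) =
            fun t => (x ∘ ψ0) t ^ 3 + -1 * (y ∘ ψ0) t ^ 2 := by
          funext t
          show _ = x (ψ0 t) ^ 3 + -1 * y (ψ0 t) ^ 2
          ring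
        show Spr g (L ∘ ψ0) fun t => x (ψ0 t) ^ 3 - y (ψ0 t) ^ 2
        rw [h2]
        exact h1) (by
      intro i t
      fin_cases i
      · exact hx _
      · exact hy _
      · show (prt S (Γ (ψ0 t)) : ℤ) ≠ 0
        have := (prt_pos (S := S) (Γ (ψ0 t))).ne'
        exact_mod_cast this
      · exact hZ0 _
      · exact hn _) 26 (by norm_num) (by
      intro i t
      fin_cases i
      · exact natAbs_le_exp (hU21 _) (hU2 t) (((hxY _).trans (hUe _).1).trans (hUU _))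
      · exact natAbs_le_exp (hU21 _) (hU2 t) (((hyY _).trans (hUe _).1).trans (hUU _))
      · refine natAbs_le_exp (z := (prt S (Γ (ψ0 t)) : ℤ)) (hU21 _) (hU2 t) ?_
        rw [Int.natAbs_natCast]
        exact (((prt_le (hΓ _).ne').trans (hΓY _)).trans (hUe _).1).trans (hUU _)
      · exact natAbs_le_exp (hU21 _) (hU2 t) (hZU _)
      · exact natAbs_le_exp (z := x (ψ0 t) ^ 3 - y (ψ0 t) ^ 2) (hU21 _) (hU2 t)
          ((hnU _).trans (hUU _)))
  obtain ⟨χ, hχ⟩ : ∃ χ : ℕ → ℕ, χ = ψ0 ∘ ψ1 := ⟨_, rfl⟩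
  have hχm : StrictMono χ := by rw [hχ]; exact hψ0m.comp hψ1m
  have hχt := hχm.tendsto_atTop
  obtain ⟨L', hL'⟩ : ∃ L' : ℕ → ℝ, L' = L ∘ χ := ⟨_, rfl⟩
  have hLL : (L ∘ ψ0) ∘ ψ1 = L' := by rw [hL', hχ]; rfl
  rw [hLL] at hld
  have hLt : Tendsto L' atTop atTop := by rw [hL']; exact hXt.comp hχt
  have hLnn' : ∀ t, 0 ≤ L' t := fun t => by rw [hL']; exact hLnn _
  have Lx : Ld S L' fun t => (x (χ t) : ℚ) := by rw [hχ]; exact hld 0
  have Ly : Ld S L' fun t => (y (χ t) : ℚ) := by rw [hχ]; exact hld 1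
  have LG : Ld S L' fun t => (prt S (Γ (χ t)) : ℚ) := by
    rw [hχ]
    have h1 : Ld S L' fun t => (((prt S (Γ (ψ0 (ψ1 t))) : ℕ) : ℤ) : ℚ) := hld 2
    refine h1.congr fun t => ?_
    rw [Int.cast_natCast]
    rfl
  have LZ : Ld S L' fun t => (Z (χ t) : ℚ) := by rw [hχ]; exact hld 3
  have Ln : Ld S L' fun t => ((x (χ t) ^ 3 - y (χ t) ^ 2 : ℤ) : ℚ) := by rw [hχ]; exact hld 4
  have hUχ : ∀ t, Real.log ((U (χ t) ^ 2 : ℕ) : ℝ) ≤ 26 * L' t := fun t => by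
    rw [hL', hχ]
    exact hU2 (ψ1 t)
  -- the smooth parts
  have Lspt : ∀ n : ℕ → ℕ, (∀ t, n t ≠ 0) → (∀ t, n t ≤ U (χ t) ^ 2) →
      Ld S L' fun t => (spt S (n t) : ℚ) := fun n hn hnU =>
    Ld.smooth hLt hLnn' (fun t => spt_smooth _) (by norm_num : (0 : ℝ) ≤ 26) fun t =>
      nat_le_exp (hU21 _) (hUχ t) ((spt_le (hn t)).trans (hnU t))
  have hxy0 : ∀ t, (x t * y t).natAbs ≠ 0 := fun t => by simpa using ⟨hx t, hy t⟩
  have LΓ : Ld S L' fun t => (Γ (χ t) : ℚ) := by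
    refine ((Lspt (fun t => Γ (χ t)) (fun t => (hΓ _).ne') fun t =>
      ((hΓY _).trans (hUe _).1).trans (hUU _)).mul hLnn' LG).congr fun t => ?_
    have h1 := spt_mul_prt (S := S) (hΓ (χ t)).ne'
    exact_mod_cast h1
  have Lxy : Ld S L' fun t => (prt S (x (χ t) * y (χ t)).natAbs : ℚ) := by
    have h1 : Ld S L' fun t => ((x (χ t) * y (χ t)).natAbs : ℚ) := by
      refine Ld.natAbs hLt hLnn' (x := fun t => x (χ t) * y (χ t)) ?_
      refine (Lx.mul hLnn' Ly).congr fun t => ?_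
      push_cast
      rfl
    refine (h1.div hLt hLnn' (Lspt (fun t => (x (χ t) * y (χ t)).natAbs) (fun t => hxy0 _)
      fun t => ?_)).congr fun t => ?_
    · rw [Int.natAbs_mul]
      calc (x (χ t)).natAbs * (y (χ t)).natAbs ≤ Y (χ t) * Y (χ t) :=
            Nat.mul_le_mul (hxY _) (hyY _)
        _ = Y (χ t) ^ 2 := by ring
        _ ≤ U (χ t) := (hUe _).2
        _ ≤ U (χ t) ^ 2 := hUU _
    · have h2 := spt_mul_prt (S := S) (hxy0 (χ t))
      have h3 : ((spt S (x (χ t) * y (χ t)).natAbs : ℕ) : ℚ) ≠ 0 :=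
        Nat.cast_ne_zero.2 (spt_pos _).ne'
      rw [eq_div_iff h3, mul_comm]
      exact_mod_cast h2.symm
  have LN : Ld S L' fun t => (prt S (N6 (x (χ t)) (y (χ t))) : ℚ) := by
    rcases hZ with h1 | h1
    · refine LZ.congr fun t => ?_
      rw [h1 (χ t), Int.cast_natCast]
    · have h2 : Ld S L' fun t => ((x (χ t) ^ 3 - y (χ t) ^ 2).natAbs : ℚ) :=
        Ld.natAbs hLt hLnn' Ln
      have h3 : Ld S L' fun t => (prt S (x (χ t) ^ 3 - y (χ t) ^ 2).natAbs : ℚ) := by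
        refine (h2.div hLt hLnn' (Lspt (fun t => (x (χ t) ^ 3 - y (χ t) ^ 2).natAbs)
          (fun t => hn0 _) fun t => (hnU _).trans (hUU _))).congr fun t => ?_
        have h2 := spt_mul_prt (S := S) (hn0 (χ t))
        have h3 : ((spt S (x (χ t) ^ 3 - y (χ t) ^ 2).natAbs : ℕ) : ℚ) ≠ 0 :=
          Nat.cast_ne_zero.2 (spt_pos _).ne'
        rw [eq_div_iff h3, mul_comm]
        exact_mod_cast h2.symm
      refine (h3.div hLt hLnn' LZ).congr fun t => ?_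
      have h4 : (Z (χ t) : ℚ) ≠ 0 := by exact_mod_cast hZ0 (χ t)
      rw [eq_div_iff h4, mul_comm]
      exact_mod_cast h1 (χ t)
  have Lρ : Ld S L' fun t => (ρ (χ t) : ℚ) := by
    refine ((Lxy.mul hLnn' LN).div hLt hLnn' LG).congr fun t => ?_
    have h4 : (prt S (Γ (χ t)) : ℚ) ≠ 0 := by
      exact_mod_cast (prt_pos (S := S) (Γ (χ t))).ne'
    rw [eq_div_iff h4]
    exact_mod_cast hρe (χ t)
  have hΓQ : ∀ t, (Γ (χ t) : ℚ) ≠ 0 := fun t => by exact_mod_cast (hΓ (χ t)).ne'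
  have hm1 : SlowQ L' fun _ => (-1 : ℚ) := SlowQ.const hLt (-1)
  have La : ∀ i, Ld S L' fun t => (a (χ t) i : ℚ) := by
    intro i
    fin_cases i
    · refine ((Lx.pow hLt hLnn' 3).div hLt hLnn' LΓ).congr fun t => ?_
      rw [eq_div_iff (hΓQ t)]
      have h1 := hxa (χ t)
      have h2 : (x (χ t) : ℚ) ^ 3 = Γ (χ t) * a (χ t) 0 := by exact_mod_cast h1
      show (a (χ t) 0 : ℚ) * Γ (χ t) = (x (χ t) : ℚ) ^ 3
      rw [h2]; ring
    · refine ((Ld.slow (S := S) hLnn' hm1).mul hLnn'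
        ((Ly.pow hLt hLnn' 2).div hLt hLnn' LΓ)).congr fun t => ?_
      have h1 := hya (χ t)
      have h2 : (y (χ t) : ℚ) ^ 2 = -(Γ (χ t) * a (χ t) 1) := by exact_mod_cast h1
      show (a (χ t) 1 : ℚ) = -1 * ((y (χ t) : ℚ) ^ 2 / Γ (χ t))
      rw [h2]
      have := hΓQ t
      field_simp
    · refine ((Ld.slow (S := S) hLnn' hm1).mul hLnn' (Ln.div hLt hLnn' LΓ)).congr fun t => ?_
      have h1 := hna (χ t)
      show (a (χ t) 2 : ℚ) = -1 * (((x (χ t) ^ 3 - y (χ t) ^ 2 : ℤ) : ℚ) / Γ (χ t))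
      rw [h1]
      push_cast
      have := hΓQ t
      field_simp
  exact abc_seq hS m ε hε (fun i t => a (χ t) i) (fun t => ρ (χ t)) (fun t => X (χ t))
    (fun t => spt S (a (χ t) 0 * a (χ t) 1 * a (χ t) 2).natAbs) (fun t => by
      rw [hL']; exact hLe _) hLt (fun i t => ha0 _ i) (fun t => hsum _) (fun t => hcop _)
    (fun t => hρ _) (fun i t => hX _ i) (fun t => hX' _) (fun t => spt_smooth _)
    (fun t => hdvd _) La Lρ (fun K => hχt.eventually (hbad K))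

end Pool.Agent.H455.SZ
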