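import Mathlib
import Pool.Agent.H455.SZ2
import Pool.Graph.R_seed8.R343.LT4

set_option autoImplicit false

/-!
# Szpiro's inequality for sparse pairs with an arbitrary cofactor: the uniform bound
-/

open Finset Filter Topology

namespace Pool.Agent.H455.SZ

open Pool.Agent.TH419.WI Pool.Agent.TH419.HX Pool.Agent.H455.VC Pool.Agent.H455.RT
open Pool.Agent.H455.CB Pool.Agent.H455.AB
open Pool.Agent.V11288.SZ (N6 N6_pos)

variable {S : Finset ℕ}

/-- **There are no bad sequences.** -/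
theorem sz_seq (hS : ∀ p ∈ S, p.Prime) (G m : ℕ) (ε : ℝ) (hε : 0 < ε) {g h : ℕ}
    (hg : 2 ≤ g) (hgS : g.primeFactors ⊆ S) (hh : 2 ≤ h) (hhS : h.primeFactors ⊆ S)
    (x y : ℕ → ℤ) (P : ∀ t, Pair S G (x t) (y t))
    (hm : ∀ t (p : ℕ), p.Prime → p ∉ S → (x t ^ 3 - y t ^ 2).natAbs.factorization p ≤ m)
    (Y : ℕ → ℕ) (hY : ∀ t, Y t = max ((x t).natAbs ^ 3) ((y t).natAbs ^ 2))
    (sx : Spr g (fun t => Real.log (Y t)) x) (sy : Spr g (fun t => Real.log (Y t)) y)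
    (sΓ : Spr g (fun t => Real.log (Y t)) fun t => (prt S ((x t ^ 3).gcd (y t ^ 2)) : ℤ))
    (Z : ℕ → ℤ) (hZ : (∀ t, Z t = prt S (N6 (x t) (y t))) ∨
      ∀ t, Z t * prt S (N6 (x t) (y t)) = prt S (x t ^ 3 - y t ^ 2).natAbs)
    (sZ : Spr h (fun t => Real.log (Y t)) Z)
    (hbad : ∀ K : ℝ, ∀ᶠ t in atTop, (6 + ε) * Real.log (N6 (x t) (y t)) + K < Real.log (Y t)) :
    False := by
  classical
  choose a ρ ha0 hsum hcop hxa hya hna hρ hρe hdvd hsp hpr using fun t => (P t).triple hS (hm t)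
  obtain ⟨Γ, hΓe⟩ : ∃ Γ : ℕ → ℕ, Γ = fun t => (x t ^ 3).gcd (y t ^ 2) := ⟨_, rfl⟩
  have hΓt : ∀ t, (x t ^ 3).gcd (y t ^ 2) = Γ t := fun t => by rw [hΓe]
  simp only [hΓt] at hxa hya hna hρe hsp hpr sΓ
  have hΓ : ∀ t, 0 < Γ t := fun t => by
    rw [hΓe]
    exact Int.gcd_pos_iff.2 (Or.inl (pow_ne_zero _ (P t).hx))
  obtain ⟨X, hX⟩ : ∃ X : ℕ → ℕ, X = fun t => Finset.univ.sup fun i => (a t i).natAbs := ⟨_, rfl⟩
  have hX1 : ∀ t i, (a t i).natAbs ≤ X t := fun t i => by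
    rw [hX]
    exact Finset.le_sup (f := fun i => (a t i).natAbs) (Finset.mem_univ i)
  have hX2 : ∀ t, ∃ i, (a t i).natAbs = X t := fun t => by
    obtain ⟨i, -, hi⟩ := Finset.exists_mem_eq_sup (Finset.univ : Finset (Fin 3))
      ⟨0, Finset.mem_univ 0⟩ fun i => (a t i).natAbs
    exact ⟨i, by rw [hX]; exact hi.symm⟩
  have hXpos : ∀ t, 1 ≤ X t := fun t =>
    (Int.natAbs_pos.2 (ha0 t 0)).trans_le (hX1 t 0)
  obtain ⟨LP, hLP⟩ : ∃ LP : ℝ, LP = Real.log (((∏ p ∈ S, p) ^ (3 * G + 10) : ℕ) : ℝ) :=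
    ⟨_, rfl⟩
  have hPS : 0 < ∏ p ∈ S, p := Finset.prod_pos fun p hp => (hS p hp).pos
  have hLP0 : 0 ≤ LP := by rw [hLP]; exact Real.log_natCast_nonneg _
  have hspt : ∀ t, Real.log (spt S (Γ t)) ≤ LP := fun t => by
    rw [hLP]
    refine Real.log_le_log (by exact_mod_cast spt_pos (S := S) (Γ t)) ?_
    exact_mod_cast Nat.le_of_dvd (pow_pos hPS _) (hsp t)
  have hN1 : ∀ t, 0 < N6 (x t) (y t) := fun t => N6_pos _ _
  have hlN : ∀ t, 0 ≤ Real.log (N6 (x t) (y t)) := fun t => Real.log_natCast_nonneg _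
  have hΓR : ∀ t, (0 : ℝ) < Γ t := fun t => by exact_mod_cast hΓ t
  have hρR : ∀ t, (0 : ℝ) < ρ t := fun t => by exact_mod_cast hρ t
  have hΓN : ∀ t, Real.log (Γ t) ≤ LP + 5 * Real.log (N6 (x t) (y t)) := fun t => by
    have h1 : Real.log (Γ t) = Real.log (spt S (Γ t)) + Real.log (prt S (Γ t)) := by
      have h2 : (Γ t : ℝ) = (spt S (Γ t) : ℝ) * (prt S (Γ t) : ℝ) := by
        exact_mod_cast spt_mul_prt (S := S) (hΓ t).ne'
      rw [h2, Real.log_mul (by exact_mod_cast (spt_pos (S := S) (Γ t)).ne')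
        (by exact_mod_cast (prt_pos (S := S) (Γ t)).ne')]
    have h3 : Real.log (prt S (Γ t)) ≤ 5 * Real.log (N6 (x t) (y t)) := by
      have h4 : prt S (Γ t) ≤ N6 (x t) (y t) ^ 5 := Nat.le_of_dvd (pow_pos (hN1 t) 5) (hpr t)
      have h5 := Real.log_le_log (by exact_mod_cast prt_pos (S := S) (Γ t))
        (by exact_mod_cast h4 : (prt S (Γ t) : ℝ) ≤ ((N6 (x t) (y t) ^ 5 : ℕ) : ℝ))
      push_cast at h5
      rw [Real.log_pow] at h5
      push_cast at h5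
      exact h5
    have h4 := hspt t
    linarith
  have hxa' : ∀ t, (x t).natAbs ^ 3 = Γ t * (a t 0).natAbs := fun t => by
    have h2 : (x t ^ 3).natAbs = (Γ t * a t 0 : ℤ).natAbs := by rw [hxa]
    rwa [Int.natAbs_pow, Int.natAbs_mul, Int.natAbs_natCast] at h2
  have hya' : ∀ t, (y t).natAbs ^ 2 = Γ t * (a t 1).natAbs := fun t => by
    have h2 : (y t ^ 2).natAbs = (-(Γ t * a t 1) : ℤ).natAbs := by rw [hya]
    rwa [Int.natAbs_pow, Int.natAbs_neg, Int.natAbs_mul, Int.natAbs_natCast] at h2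
  have hYΓ : ∀ t, Y t ≤ Γ t * X t := fun t => by
    rw [hY, hxa', hya']
    exact max_le (Nat.mul_le_mul_left _ (hX1 t 0)) (Nat.mul_le_mul_left _ (hX1 t 1))
  have hY1 : ∀ t, 1 ≤ Y t := fun t => by
    rw [hY]
    exact le_max_of_le_left (Nat.one_le_pow _ _ (Int.natAbs_pos.2 (P t).hx))
  have hYR : ∀ t, (0 : ℝ) < Y t := fun t => by exact_mod_cast hY1 t
  have hXR : ∀ t, (0 : ℝ) < X t := fun t => by exact_mod_cast hXpos t
  have hlX : ∀ t, 0 ≤ Real.log (X t) := fun t => Real.log_natCast_nonneg _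
  have hlY : ∀ t, Real.log (Y t) ≤ Real.log (Γ t) + Real.log (X t) := fun t => by
    rw [← Real.log_mul (hΓR t).ne' (hXR t).ne']
    refine Real.log_le_log (hYR t) ?_
    exact_mod_cast hYΓ t
  -- the two heights are comparable
  have hev : ∀ᶠ t in atTop, Real.log (Y t) ≤ 6 * Real.log (X t) := by
    filter_upwards [hbad (6 / 5 * LP)] with t ht
    by_contra hcon
    push Not at hcon
    have h1 := hlY t
    have h2 := hΓN t
    have h3 := mul_nonneg hε.le (hlN t)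
    nlinarith
  obtain ⟨t0, ht0⟩ := eventually_atTop.1 hev
  obtain ⟨ψ, hψ⟩ : ∃ ψ : ℕ → ℕ, ψ = fun t => t + t0 := ⟨_, rfl⟩
  have hψm : StrictMono ψ := by
    rw [hψ]
    intro b c hbc
    simpa using hbc
  have hψt := hψm.tendsto_atTop
  have hYX : ∀ t, Real.log (Y (ψ t)) ≤ 6 * Real.log (X (ψ t)) := fun t =>
    ht0 _ (by rw [hψ]; simp)
  have hXt : Tendsto (fun t => Real.log (X (ψ t))) atTop atTop := by
    rw [tendsto_atTop]
    intro K
    filter_upwards [hψt.eventually (hbad (6 * K))] with t ht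
    have h1 := hYX t
    have h2 := mul_nonneg (by linarith : 0 ≤ 6 + ε) (hlN (ψ t))
    linarith
  -- the inequality for `ρ`
  have hxR : ∀ t, (0 : ℝ) < ((x t).natAbs : ℝ) := fun t => by
    exact_mod_cast Int.natAbs_pos.2 (P t).hx
  have hyR : ∀ t, (0 : ℝ) < ((y t).natAbs : ℝ) := fun t => by
    exact_mod_cast Int.natAbs_pos.2 (P t).hy
  have hΓρ : ∀ t, Real.log (Γ t) + Real.log (ρ t) ≤
      LP + (5 / 6 * Real.log (Y t) + Real.log (N6 (x t) (y t))) := fun t => by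
    have h1 : Γ t * ρ t ≤ spt S (Γ t) * ((x t * y t).natAbs * N6 (x t) (y t)) := by
      calc Γ t * ρ t = spt S (Γ t) * (ρ t * prt S (Γ t)) := by
            conv_lhs => rw [spt_mul_prt (S := S) (hΓ t).ne']
            ring
        _ = spt S (Γ t) * (prt S (x t * y t).natAbs * prt S (N6 (x t) (y t))) := by rw [hρe]
        _ ≤ _ := Nat.mul_le_mul_left _ (Nat.mul_le_mul (prt_le (by simpa using
            ⟨(P t).hx, (P t).hy⟩)) (prt_le (hN1 t).ne'))
    have h2 : (Γ t : ℝ) * ρ t ≤ (spt S (Γ t) : ℝ) * ((((x t).natAbs : ℕ) : ℝ) *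
        (((y t).natAbs : ℕ) : ℝ) * N6 (x t) (y t)) := by
      rw [Int.natAbs_mul] at h1
      exact_mod_cast h1
    have hs : (0 : ℝ) < spt S (Γ t) := by exact_mod_cast spt_pos (S := S) (Γ t)
    have hNR : (0 : ℝ) < N6 (x t) (y t) := by exact_mod_cast hN1 t
    have h3 := Real.log_le_log (mul_pos (hΓR t) (hρR t)) h2
    rw [Real.log_mul (hΓR t).ne' (hρR t).ne', Real.log_mul hs.ne' (by
        have := hxR t
        have := hyR t
        positivity), Real.log_mul (mul_pos (hxR t) (hyR t)).ne' hNR.ne',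
      Real.log_mul (hxR t).ne' (hyR t).ne'] at h3
    have h4 : 3 * Real.log (((x t).natAbs : ℕ) : ℝ) ≤ Real.log (Y t) := by
      have h5 : ((((x t).natAbs : ℕ) : ℝ)) ^ 3 ≤ Y t := by
        have : (x t).natAbs ^ 3 ≤ Y t := by rw [hY]; exact le_max_left _ _
        exact_mod_cast this
      have h6 := Real.log_le_log (by have := hxR t; positivity) h5
      rw [Real.log_pow] at h6
      exact_mod_cast h6
    have h5 : 2 * Real.log (((y t).natAbs : ℕ) : ℝ) ≤ Real.log (Y t) := by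
      have h5 : ((((y t).natAbs : ℕ) : ℝ)) ^ 2 ≤ Y t := by
        have : (y t).natAbs ^ 2 ≤ Y t := by rw [hY]; exact le_max_right _ _
        exact_mod_cast this
      have h6 := Real.log_le_log (by have := hyR t; positivity) h5
      rw [Real.log_pow] at h6
      exact_mod_cast h6
    have h6 := hspt t
    linarith
  obtain ⟨ε1, hε1⟩ : ∃ ε1 : ℝ, ε1 = ε / (36 + 5 * ε) := ⟨_, rfl⟩
  have hε10 : 0 < ε1 := by rw [hε1]; positivity
  obtain ⟨q, hq⟩ : ∃ q : ℝ, q = 1 / 6 - 5 / 6 * ε1 := ⟨_, rfl⟩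
  have hq0 : 0 < q := by
    have : ε1 < 1 / 5 := by
      rw [hε1, div_lt_div_iff₀ (by positivity) (by norm_num)]
      linarith
    rw [hq]
    linarith
  have hqe : 1 + ε1 = (6 + ε) * q := by
    rw [hq, hε1]
    field_simp
    ring
  have hbad' : ∀ K : ℝ, ∀ᶠ t in atTop, (1 + ε1) * Real.log (ρ (ψ t)) + K <
      Real.log (X (ψ t)) := by
    intro K
    filter_upwards [hψt.eventually (hbad (((1 + ε1) * LP + K) / q))] with t ht
    by_contra hcon
    push Not at hcon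
    have h1 := hlY (ψ t)
    have h2 := hΓρ (ψ t)
    have h3 : 0 ≤ Real.log (Γ (ψ t)) := Real.log_natCast_nonneg _
    have h4 : Real.log (Y (ψ t)) ≤ (1 + ε1) * (LP + (5 / 6 * Real.log (Y (ψ t)) +
        Real.log (N6 (x (ψ t)) (y (ψ t))))) + K := by
      have h5 := mul_le_mul_of_nonneg_left h2 (by linarith : 0 ≤ 1 + ε1)
      have h6 := mul_nonneg hε10.le h3
      nlinarith
    have h5 : q * Real.log (Y (ψ t)) ≤ (1 + ε1) * Real.log (N6 (x (ψ t)) (y (ψ t))) +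
        ((1 + ε1) * LP + K) := by
      rw [hq]
      nlinarith
    have h6 := mul_lt_mul_of_pos_left ht hq0
    rw [mul_add, mul_div_cancel₀ _ hq0.ne', ← mul_assoc, mul_comm q, ← hqe] at h6
    linarith
  have hK6 : (0 : ℝ) < 6 := by norm_num
  exact sz_seq1 hS (3 + m) ε1 hε10 hg hgS hh hhS (fun t => x (ψ t)) (fun t => y (ψ t))
    (fun t => a (ψ t)) (fun t => ρ (ψ t)) (fun t => Γ (ψ t)) (fun t => X (ψ t))
    (fun t => Y (ψ t)) (fun t => (P _).hx) (fun t => (P _).hy) (fun t => (P _).hn)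
    (fun t => ha0 _) (fun t => hsum _) (fun t => hcop _) (fun t => hΓ _) (fun t => hxa _)
    (fun t => hya _) (fun t => hna _) (fun t => hρ _) (fun t => hρe _) (fun t => hdvd _)
    (fun t => hX1 _) (fun t => hX2 _) (fun t => hY _) hYX hXt
    ((sx.comp hψt).scale hK6 hYX) ((sy.comp hψt).scale hK6 hYX)
    ((sΓ.comp hψt).scale hK6 hYX) (Z ∘ ψ) (by
      rcases hZ with h1 | h1
      · exact Or.inl fun t => h1 _
      · exact Or.inr fun t => h1 _) ((sZ.comp hψt).scale hK6 hYX) hbad'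

/-- a small multiple is a sum of `T` powers with small coefficients -/
def Rep (g T : ℕ) (B : ℝ) (x : ℤ) : Prop :=
  ∃ (D : ℕ) (l : Fin T → ℕ) (v : Fin T → ℤ), 0 < D ∧ (D : ℝ) ≤ B ∧ (∀ j, |(v j : ℝ)| ≤ B) ∧
    (D : ℤ) * x = ∑ j, v j * (g : ℤ) ^ l j

theorem Rep.mono {g T T' : ℕ} {B B' : ℝ} {x : ℤ} (hT : T ≤ T') (hB : B ≤ B')
    (h : Rep g T B x) : Rep g T' B' x := by
  classical
  obtain ⟨D, l, v, h0, h1, h2, h3⟩ := h
  have hB0 : 0 ≤ B' := by
    have : (0 : ℝ) ≤ D := Nat.cast_nonneg _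
    linarith
  refine ⟨D, fun j => if hj : j.1 < T then l ⟨j.1, hj⟩ else 0,
    fun j => if hj : j.1 < T then v ⟨j.1, hj⟩ else 0, h0, h1.trans hB, fun j => ?_, ?_⟩
  · beta_reduce
    split_ifs with hj
    · exact (h2 _).trans hB
    · rw [Int.cast_zero, abs_zero]
      exact hB0
  · rw [h3]
    have h4 : ∑ j : Fin T', (if hj : j.1 < T then v ⟨j.1, hj⟩ else 0) *
        (g : ℤ) ^ (if hj : j.1 < T then l ⟨j.1, hj⟩ else 0) =
        ∑ j ∈ Finset.range T', (if hj : j < T then v ⟨j, hj⟩ * (g : ℤ) ^ l ⟨j, hj⟩ else 0) := by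
      rw [Finset.sum_range]
      refine Finset.sum_congr rfl fun j _ => ?_
      by_cases hj : j.1 < T
      · simp [hj]
      · simp [hj]
    rw [h4, ← Finset.sum_subset (Finset.range_subset_range.2 hT), Finset.sum_range]
    · refine Finset.sum_congr rfl fun j _ => ?_
      simp
    · intro j _ hj
      rw [dif_neg]
      simpa using hj

theorem Rep.smul {g T : ℕ} {B : ℝ} {x : ℤ} (c : ℤ) (h : Rep g T B x) :
    Rep g T ((1 + |(c : ℝ)|) * B) (c * x) := by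
  obtain ⟨D, l, v, h0, h1, h2, h3⟩ := h
  have hB0 : 0 ≤ B := by
    have : (0 : ℝ) ≤ D := Nat.cast_nonneg _
    linarith
  have hc := abs_nonneg (c : ℝ)
  refine ⟨D, l, fun j => c * v j, h0, ?_, fun j => ?_, ?_⟩
  · nlinarith
  · push_cast
    rw [abs_mul]
    have := h2 j
    have := abs_nonneg (v j : ℝ)
    nlinarith
  · rw [mul_left_comm, h3, Finset.mul_sum]
    refine Finset.sum_congr rfl fun j _ => ?_
    ring

theorem Rep.spr {g T : ℕ} {L : ℕ → ℝ} {B : ℕ → ℝ} {x : ℕ → ℤ} (h : ∀ t, Rep g T (B t) (x t))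
    (hB : Sub L B) : Spr g L x := by
  choose D l v h0 h1 h2 h3 using h
  refine ⟨T, fun t => (D t : ℤ), v, l, fun t => Int.natCast_ne_zero.2 (h0 t).ne', ?_,
    fun j => ?_, fun t => h3 t⟩
  · refine hB.mono (Eventually.of_forall fun t => ?_)
    have h4 := h1 t
    have h5 : (0 : ℝ) ≤ D t := Nat.cast_nonneg _
    rw [Int.cast_natCast, abs_of_nonneg h5, abs_of_nonneg (by linarith)]
    exact h4
  · exact hB.mono (Eventually.of_forall fun t => (h2 t j).trans (le_abs_self _))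

/-- small sequences -/
theorem sub_of_bad (K0 : ℝ) {H lM B : ℕ → ℝ} (hH : ∀ n, 0 ≤ H n) (hlM : ∀ n, 0 ≤ lM n)
    (hbad : ∀ n : ℕ, (n : ℝ) * (1 + lM n) < H n) (hB1 : ∀ n, 1 ≤ B n)
    (hB : ∀ n : ℕ, Real.log (B n) ≤ K0 + 1 / ((n : ℝ) + 1) * (1 + H n) + lM n) : Sub H B := by
  have hHt : Tendsto H atTop atTop := by
    refine tendsto_atTop_mono (fun n => ?_) tendsto_natCast_atTop_atTop
    refine le_trans ?_ (hbad n).le
    have := hlM n
    have h0 : (0 : ℝ) ≤ n := Nat.cast_nonneg n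
    nlinarith
  have hsm : ∀ ε : ℝ, 0 < ε → ∀ᶠ n in atTop, lM n ≤ ε * H n := by
    intro ε hε
    obtain ⟨k, hk⟩ := exists_nat_gt (1 / ε)
    filter_upwards [eventually_ge_atTop k] with n hn
    have h1 : (k : ℝ) ≤ n := by exact_mod_cast hn
    have h2 : 1 / ε < n := hk.trans_le h1
    rw [div_lt_iff₀ hε] at h2
    have h3 := hbad n
    have h4 := hlM n
    have h6 : lM n ≤ (n * ε) * lM n := by nlinarith
    have h7 : ε * ((n : ℝ) * (1 + lM n)) ≤ ε * H n := mul_le_mul_of_nonneg_left h3.le hε.le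
    have h8 : 0 ≤ ε * (n : ℝ) := by positivity
    nlinarith
  intro ε hε
  obtain ⟨k, hk⟩ := exists_nat_gt (4 / ε)
  filter_upwards [eventually_ge_atTop k, hsm (ε / 4) (by positivity),
    (hHt.const_mul_atTop (by positivity : 0 < ε / 4)).eventually_ge_atTop K0,
    hHt.eventually_ge_atTop 1] with n h1 h2 h3 h4
  have h5 : (k : ℝ) ≤ n := by exact_mod_cast h1
  have h6 : 1 / ((n : ℝ) + 1) ≤ ε / 4 * 1 := by
    rw [mul_one, div_le_iff₀ (by positivity)]
    have h7 : 4 / ε < n := hk.trans_le h5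
    rw [div_lt_iff₀ hε] at h7
    nlinarith
  have h8 := hB n
  have h9 : 1 / ((n : ℝ) + 1) * (1 + H n) ≤ ε / 4 * (1 + H n) := by
    apply mul_le_mul_of_nonneg_right _ (by linarith)
    linarith
  rw [abs_of_nonneg (by linarith [hB1 n]), ← Real.exp_log (by linarith [hB1 n] : 0 < B n)]
  apply Real.exp_le_exp.2
  have h10 : ε / 4 * (1 + H n) ≤ ε / 4 * (2 * H n) :=
    mul_le_mul_of_nonneg_left (by linarith) (by positivity)
  nlinarith

/-- a curve -/
structure Cur (S : Finset ℕ) (G m : ℕ) (c1 c2 : ℤ) (alt : Prop) where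
  a : ℤ
  b : ℤ
  Z : ℤ
  M : ℝ
  P : Pair S G (c1 * a) (c2 * b)
  hm : ∀ p : ℕ, p.Prime → p ∉ S → ((c1 * a) ^ 3 - (c2 * b) ^ 2).natAbs.factorization p ≤ m
  hZ : (alt ∧ Z = prt S (N6 (c1 * a) (c2 * b))) ∨
    (¬ alt ∧ Z * prt S (N6 (c1 * a) (c2 * b)) = prt S ((c1 * a) ^ 3 - (c2 * b) ^ 2).natAbs)
  hM : 1 ≤ M

variable {G m : ℕ} {c1 c2 : ℤ} {alt : Prop}

/-- the maximum of `|x| ^ 3` and `y ^ 2` -/
def Cur.Y (P : Cur S G m c1 c2 alt) : ℕ := max ((c1 * P.a).natAbs ^ 3) ((c2 * P.b).natAbs ^ 2)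

/-- its logarithm -/
noncomputable def Cur.H (P : Cur S G m c1 c2 alt) : ℝ := Real.log P.Y

/-- the conductor -/
def Cur.N (P : Cur S G m c1 c2 alt) : ℕ := N6 (c1 * P.a) (c2 * P.b)

/-- the compressible numbers -/
def Cur.z (P : Cur S G m c1 c2 alt) : Fin 4 → ℤ :=
  ![P.a, P.b, prt S (((c1 * P.a) ^ 3).gcd ((c2 * P.b) ^ 2)), P.Z]

theorem Cur.one_le_Y (P : Cur S G m c1 c2 alt) : 1 ≤ P.Y :=
  le_max_of_le_left (Nat.one_le_pow _ _ (Int.natAbs_pos.2 P.P.hx))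

theorem Cur.H_nonneg (P : Cur S G m c1 c2 alt) : 0 ≤ P.H := Real.log_natCast_nonneg _

theorem unif (hS : ∀ p ∈ S, p.Prime) (G m T : ℕ) (c1 c2 : ℤ) (alt : Prop) (ε : ℝ) (hε : 0 < ε)
    {g h : ℕ} (hg : 2 ≤ g) (hgS : g.primeFactors ⊆ S) (hh : 2 ≤ h) (hhS : h.primeFactors ⊆ S)
    (K : ℝ) : ∃ δ : ℝ, 0 < δ ∧ ∃ C : ℝ, ∀ (P : Cur S G m c1 c2 alt) (B : ℝ), 1 ≤ B →
      Real.log B ≤ K + δ * (1 + P.H) + Real.log P.M →
      (∀ i, Rep ((![g, g, g, h] : Fin 4 → ℕ) i) T B (P.z i)) →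
      P.H ≤ (6 + ε) * Real.log P.N + C * (1 + Real.log P.M) := by
  by_contra hcon
  push Not at hcon
  choose P B hB hBl hrep hlt using fun n : ℕ => hcon (1 / ((n : ℝ) + 1)) (by positivity) (n : ℝ)
  have hlM : ∀ n, 0 ≤ Real.log (P n).M := fun n => Real.log_nonneg (P n).hM
  have hlN : ∀ n, 0 ≤ Real.log (P n).N := fun n => Real.log_natCast_nonneg _
  have hbad : ∀ n : ℕ, (n : ℝ) * (1 + Real.log (P n).M) < (P n).H := fun n => by
    have h1 := hlt n
    have h2 := mul_nonneg (by linarith : 0 ≤ 6 + ε) (hlN n)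
    linarith
  have hsub : Sub (fun n => (P n).H) B := sub_of_bad K (fun n => (P n).H_nonneg) hlM hbad hB hBl
  have hHt : Tendsto (fun n => (P n).H) atTop atTop := by
    refine tendsto_atTop_mono (fun n => ?_) tendsto_natCast_atTop_atTop
    refine le_trans ?_ (hbad n).le
    have := hlM n
    have h0 : (0 : ℝ) ≤ n := Nat.cast_nonneg n
    nlinarith
  have hsmul : ∀ c : ℤ, Sub (fun n => (P n).H) fun n => (1 + |(c : ℝ)|) * B n := fun c =>
    (Sub.const hHt (1 + |(c : ℝ)|)).mul hsub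
  have hLe : (fun n => (P n).H) = fun n => Real.log ((P n).Y : ℝ) := rfl
  refine sz_seq hS G m ε hε hg hgS hh hhS (fun n => c1 * (P n).a) (fun n => c2 * (P n).b)
    (fun n => (P n).P) (fun n => (P n).hm) (fun n => (P n).Y) (fun n => rfl)
    (by rw [← hLe]; exact Rep.spr (fun n => (hrep n 0).smul c1) (hsmul c1))
    (by rw [← hLe]; exact Rep.spr (fun n => (hrep n 1).smul c2) (hsmul c2))
    (by rw [← hLe]; exact Rep.spr (fun n => hrep n 2) hsub) (fun n => (P n).Z) ?_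
    (by rw [← hLe]; exact Rep.spr (fun n => hrep n 3) hsub) ?_
  · by_cases ha : alt
    · refine Or.inl fun n => ?_
      rcases (P n).hZ with h1 | h1
      · exact h1.2
      · exact absurd ha h1.1
    · refine Or.inr fun n => ?_
      rcases (P n).hZ with h1 | h1
      · exact absurd h1.1 ha
      · exact h1.2
  · intro K
    filter_upwards [tendsto_natCast_atTop_atTop.eventually_ge_atTop (α := ℕ) K] with n hn
    have h1 := hlt n
    have h2 := hlM n
    have h3 : (0 : ℝ) ≤ n := Nat.cast_nonneg n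
    show (6 + ε) * Real.log ((P n).N : ℝ) + K < (P n).H
    nlinarith

end Pool.Agent.H455.SZ
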