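import Mathlib
import Pool.Agent.H455.SZ3

set_option autoImplicit false

/-!
# From sequences of sparse points to compressible points
-/

open Finset Filter Topology

namespace Pool.Agent.H455.TR

open Pool.Agent.H455.SZ Pool.Agent.H455.CB
open Pool.Agent.R343.LT

/-- **Transfer.** -/
theorem transfer_seq {ι X : Type} [Fintype ι] [DecidableEq ι] (b : ι → ℕ) (hb : ∀ i, 2 ≤ b i)
    (z0 : ℕ) (Φ : ℝ → X → Prop) (hmono : ∀ C C' P, C ≤ C' → Φ C P → Φ C' P) (H : X → ℝ)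
    (hH : ∀ P, 0 ≤ H P) (M : X → ℝ) (hM : ∀ P, 1 ≤ M P) (z : X → ι → ℤ) (A : ℝ) (hA : 0 ≤ A)
    (hz : ∀ P i, Real.log (max 1 |(z P i : ℝ)|) ≤ A * (1 + H P))
    (hseq : ∀ (T : ℕ) (K : ℝ) (P : ℕ → X) (B : ℕ → ℝ), (∀ n : ℕ, ¬ Φ n (P n)) →
      (∀ n, 1 ≤ B n) → (∀ n : ℕ, Real.log (B n) ≤ K + 1 / ((n : ℝ) + 1) * (1 + H (P n)) +
        Real.log (M (P n))) → (∀ n i, Rep (b i) T (B n) (z (P n) i)) → False) :
    ∃ C : ℝ, ∀ P : X, (∀ i, LZDigits (b i) z0 (z P i) ∨ Rep (b i) z0 (M P) (z P i)) → Φ C P := by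
  classical
  obtain ⟨g, hg⟩ : ∃ g : ℕ, g = 1 + ∑ i, b i := ⟨_, rfl⟩
  have hbg : ∀ i, b i ≤ g := fun i => by
    rw [hg]
    have := Finset.single_le_sum (f := b) (fun _ _ => Nat.zero_le _) (Finset.mem_univ i)
    omega
  have hg1 : 1 ≤ g := by rw [hg]; omega
  have hlg : 0 ≤ Real.log (g : ℝ) := Real.log_natCast_nonneg _
  have hgR : (1 : ℝ) ≤ g := by exact_mod_cast hg1
  -- the uniform statement
  have unif : ∀ (T : ℕ) (K : ℝ), ∃ δ : ℝ, 0 < δ ∧ ∃ C : ℝ, ∀ (P : X) (B : ℝ), 1 ≤ B →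
      Real.log B ≤ K + δ * (1 + H P) + Real.log (M P) → (∀ i, Rep (b i) T B (z P i)) → Φ C P := by
    intro T K
    by_contra hcon
    push Not at hcon
    choose P B hB hBl hrep hlt using fun n : ℕ => hcon (1 / ((n : ℝ) + 1)) (by positivity) (n : ℝ)
    exact hseq T K P B hlt hB hBl hrep
  let 𝒳 : Type := {P : X × (ι → Prop) // ∀ i, ¬ P.2 i → Rep (b i) z0 (M P.1) (z P.1 i)}
  obtain ⟨C1, hC1⟩ := transferQ (ι := ι) (X := 𝒳) b hb z0 (g : ℤ)
    (Int.natCast_nonneg _) (A + (z0 + 1) * Real.log (g : ℝ)) (by positivity)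
    (fun C P => Φ C P.1.1) (fun C C' P => hmono C C' P.1.1) (fun P => H P.1.1)
    (fun P => hH P.1.1) (fun P i => if P.1.2 i then z P.1.1 i else 0)
    (by
      intro T
      obtain ⟨δ, hδ, C, hC⟩ := unif (T + 1 + z0) (Real.log (((T : ℝ) + 1) * (g : ℝ)))
      refine ⟨δ, hδ, C, fun P D hD hDl hsp => ?_⟩
      have hM1 := hM P.1.1
      have hs := hH P.1.1
      have hTb : (1 : ℝ) ≤ ((T : ℝ) + 1) * (g : ℝ) := by
        have h2 : (0 : ℝ) ≤ T := Nat.cast_nonneg T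
        nlinarith
      have he1 : 1 ≤ Real.exp (δ * (1 + H P.1.1)) := Real.one_le_exp (by positivity)
      obtain ⟨R, hR⟩ : ∃ R : ℝ, R = ((T : ℝ) + 1) * (g : ℝ) *
        Real.exp (δ * (1 + H P.1.1)) * M P.1.1 := ⟨_, rfl⟩
      have hTe : 1 ≤ ((T : ℝ) + 1) * (g : ℝ) * Real.exp (δ * (1 + H P.1.1)) :=
        one_le_mul_of_one_le_of_one_le hTb he1
      have k1 : Real.exp (δ * (1 + H P.1.1)) ≤ R := by
        rw [hR]
        calc Real.exp (δ * (1 + H P.1.1)) ≤ ((T : ℝ) + 1) * (g : ℝ) *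
              Real.exp (δ * (1 + H P.1.1)) := le_mul_of_one_le_left (by linarith) hTb
          _ ≤ _ := le_mul_of_one_le_right (by linarith) hM1
      have k2 : ((T : ℝ) + 1) * (g : ℝ) ≤ R := by
        rw [hR]
        calc ((T : ℝ) + 1) * (g : ℝ) ≤ ((T : ℝ) + 1) * (g : ℝ) *
              Real.exp (δ * (1 + H P.1.1)) := le_mul_of_one_le_right (by linarith) he1
          _ ≤ _ := le_mul_of_one_le_right (by linarith) hM1
      have k3 : M P.1.1 ≤ R := by
        rw [hR]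
        exact le_mul_of_one_le_left (by linarith) hTe
      refine hC P.1.1 R (hM1.trans k3) ?_ ?_
      · rw [hR, Real.log_mul (by positivity) (by linarith), Real.log_mul (by positivity)
          (Real.exp_pos _).ne', Real.log_exp]
      · intro i
        by_cases hi : P.1.2 i
        · have h1 := hsp i
          simp only [hi, if_true] at h1
          obtain ⟨l, v, hv, hlv⟩ := spq_nat (hb i) (Int.natCast_nonneg _) h1
          refine Rep.mono (T := T + 1) (by omega) le_rfl ⟨D i, l, v, hD i, ?_, fun j => ?_, hlv⟩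
          · refine le_trans ?_ k1
            have h2 : (0 : ℝ) < D i := by exact_mod_cast hD i
            rw [← Real.log_le_iff_le_exp h2]
            exact hDl i
          · refine le_trans ?_ k2
            have h2 := hv j
            exact_mod_cast h2
        · exact (P.2 i hi).mono (by omega) k3)
  refine ⟨C1, fun P h1 => ?_⟩
  refine hC1 ⟨(P, fun i => LZDigits (b i) z0 (z P i)), fun i hi => (h1 i).resolve_left hi⟩
    fun i => ?_
  simp only
  have hHn := hH P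
  have hbi : Real.log (b i) ≤ Real.log (g : ℝ) :=
    Real.log_le_log (by have := hb i; exact_mod_cast (by omega : 0 < b i))
      (by exact_mod_cast hbg i)
  have key : ∀ x : ℤ, LZDigits (b i) z0 x → places (b i) x * Real.log (b i) ≤
      (A + (z0 + 1) * Real.log (g : ℝ)) * (1 + H P) →
      LZWd (b i) z0 (g : ℤ) ((A + (z0 + 1) * Real.log (g : ℝ)) * (1 + H P)) x := by
    intro x hx hpl
    obtain ⟨a, N, k1, k2, k3, k4⟩ := hx.toWd (hb i) hpl
    refine ⟨a, N, k1, fun j hj => (k2 j hj).trans ?_, k3, k4⟩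
    exact_mod_cast hbg i
  have hz00 : (0 : ℝ) ≤ z0 := Nat.cast_nonneg z0
  have hzl : 0 ≤ (z0 : ℝ) * Real.log (g : ℝ) := mul_nonneg hz00 hlg
  have hzH : 0 ≤ ((z0 : ℝ) + 1) * Real.log (g : ℝ) * H P := by positivity
  split_ifs with hi
  · refine key _ hi ((places_le (hb i) _).trans ?_)
    have h2 := hz P i
    nlinarith
  · refine ⟨fun _ => 0, z0, ⟨fun k => k, rfl, rfl, fun k _ => Or.inl rfl⟩, fun j _ => ?_, ?_,
      Or.inl (by simp)⟩
    · rw [abs_zero]
      exact Int.natCast_nonneg _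
    · have h2 : (z0 : ℝ) * Real.log (b i) ≤ z0 * Real.log (g : ℝ) :=
        mul_le_mul_of_nonneg_left hbi hz00
      have h3 : 0 ≤ A * (1 + H P) := by positivity
      nlinarith

open MvPolynomial

section generic

variable {m g : ℕ} (G : Fin g → MvPolynomial (Fin m) ℤ)

/-- a form which does not vanish on the variety -/
def Good (Φ : MvPolynomial (Fin m) ℚ) : Prop :=
  (∃ k, Φ.IsHomogeneous k) ∧ ∃ z : Fin m → ℂ, (∀ k, aeval z (G k) = 0) ∧ aeval z Φ ≠ 0

/-- the variety is irreducible -/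
def Irr : Prop :=
  ∀ Φ Ψ : MvPolynomial (Fin m) ℚ, Good G Φ → Good G Ψ →
    ∃ z : Fin m → ℂ, (∀ k, aeval z (G k) = 0) ∧ aeval z Φ ≠ 0 ∧ aeval z Ψ ≠ 0

variable {G}

theorem Good.mul (hI : Irr G) {Φ Ψ : MvPolynomial (Fin m) ℚ} (h1 : Good G Φ) (h2 : Good G Ψ) :
    Good G (Φ * Ψ) := by
  obtain ⟨z, hz, h3, h4⟩ := hI Φ Ψ h1 h2
  obtain ⟨⟨k, hk⟩, -⟩ := h1
  obtain ⟨⟨l, hl⟩, -⟩ := h2
  exact ⟨⟨k + l, hk.mul hl⟩, z, hz, by rw [map_mul]; exact mul_ne_zero h3 h4⟩

/-- an increasing family of forms -/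
theorem exists_family (hI : Irr G) (hne : ∃ z : Fin m → ℂ, ∀ k, aeval z (G k) = 0) :
    ∃ E : ℕ → MvPolynomial (Fin m) ℚ, (∀ n, Good G (E n)) ∧ (∀ n n', n ≤ n' → E n ∣ E n') ∧
      ∀ Φ, Good G Φ → ∃ n, Φ ∣ E n := by
  classical
  have hc : Countable (MvPolynomial (Fin m) ℚ) := by
    have h := MvPolynomial.cardinalMk_le_max (σ := Fin m) (R := ℚ)
    rw [← Cardinal.mk_le_aleph0_iff]
    refine h.trans ?_
    simp
  obtain ⟨e, he⟩ := exists_surjective_nat (MvPolynomial (Fin m) ℚ)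
  let f : ℕ → MvPolynomial (Fin m) ℚ := fun i => if Good G (e i) then e i else 1
  have h1 : Good G (1 : MvPolynomial (Fin m) ℚ) := by
    obtain ⟨z, hz⟩ := hne
    exact ⟨⟨0, isHomogeneous_one _ _⟩, z, hz, by rw [map_one]; exact one_ne_zero⟩
  have hf : ∀ i, Good G (f i) := fun i => by
    simp only [f]
    split_ifs with h
    · exact h
    · exact h1
  refine ⟨fun n => ∏ i ∈ range n, f i, fun n => ?_, fun n n' hn => ?_, fun Φ hΦ => ?_⟩
  · induction n with
    | zero => simpa using h1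
    | succ n ih =>
      beta_reduce at ih ⊢
      rw [Finset.prod_range_succ]
      exact ih.mul hI (hf n)
  · exact Finset.prod_dvd_prod_of_subset _ _ _ (Finset.range_subset_range.2 hn)
  · obtain ⟨n, hn⟩ := he Φ
    refine ⟨n + 1, ?_⟩
    have h2 : f n = Φ := by
      simp only [f]
      rw [hn, if_pos hΦ]
    rw [← h2]
    exact Finset.dvd_prod_of_mem f (Finset.mem_range.2 (by omega))

end generic

end Pool.Agent.H455.TR
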