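import Mathlib
import Pool.Agent.H455.AB3
import Pool.Agent.H455.VO0

set_option autoImplicit false

/-!
# Vojta's inequality for sequences, with an arbitrary cofactor
-/

open Finset Filter Topology MvPolynomial

namespace Pool.Agent.H455.VO

open Pool.Agent.TH419.WI Pool.Agent.TH419.HX Pool.Agent.H455.VC Pool.Agent.H455.RT
open Pool.Agent.H455.CB Pool.Agent.H455.AB Pool.Agent.Y724.T4
open Pool.Agent.Results.MP_821da1_nt.LaurentDichotomy (UnitOf NoLaurentCurve Qbar)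

variable {S : Finset ℕ} {L : ℕ → ℝ}

/-- the dominant term, zeros allowed -/
theorem ld0 {g : ℕ} (hg : 2 ≤ g) (hgS : g.primeFactors ⊆ S) (hL : Tendsto L atTop atTop)
    (hLnn : ∀ t, 0 ≤ L t) {x : ℕ → ℤ} (h : Spr g L x) {C : ℝ} (hC : 0 ≤ C)
    (hxC : ∀ t, |(x t : ℝ)| ≤ Real.exp (C * L t)) :
    ∃ ψ : ℕ → ℕ, StrictMono ψ ∧ Ld S (L ∘ ψ) fun t => (x (ψ t) : ℚ) := by
  by_cases h0 : ∃ᶠ t in atTop, x t ≠ 0
  · obtain ⟨ψ, hψ, hψ0⟩ := Filter.extraction_of_frequently_atTop h0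
    have hψt := hψ.tendsto_atTop
    obtain ⟨χ, hχ, h1⟩ := (h.comp hψt).ld (S := S) hg hgS (hL.comp hψt) (fun t => hLnn _)
      (fun t => hψ0 t) hC (fun t => hxC _)
    exact ⟨ψ ∘ χ, hψ.comp hχ, h1⟩
  · rw [not_frequently] at h0
    obtain ⟨t0, ht0⟩ := eventually_atTop.1 h0
    have hψ : StrictMono fun t : ℕ => t + t0 := fun a b hab => by simpa using hab
    refine ⟨fun t => t + t0, hψ, ?_⟩
    have h1 : SlowQ (L ∘ fun t => t + t0) fun _ => (0 : ℚ) :=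
      SlowQ.const (hL.comp hψ.tendsto_atTop) 0
    refine (Ld.slow (S := S) (fun t => hLnn _) h1).congr fun t => ?_
    have h2 := ht0 (t + t0) (by omega)
    rw [not_not] at h2
    rw [h2, Int.cast_zero]

theorem ld_fin0 : ∀ (n : ℕ) (L : ℕ → ℝ), Tendsto L atTop atTop →
    (∀ t, 0 ≤ L t) → ∀ (g : Fin n → ℕ), (∀ i, 2 ≤ g i) → (∀ i, (g i).primeFactors ⊆ S) →
    ∀ (y : Fin n → ℕ → ℤ), (∀ i, Spr (g i) L (y i)) → ∀ C : ℝ, 0 ≤ C →
    (∀ i t, |(y i t : ℝ)| ≤ Real.exp (C * L t)) →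
    ∃ ψ : ℕ → ℕ, StrictMono ψ ∧ ∀ i, Ld S (L ∘ ψ) fun t => (y i (ψ t) : ℚ) := by
  intro n
  induction n with
  | zero => exact fun L _ _ _ _ _ _ _ _ _ _ => ⟨id, strictMono_id, fun i => i.elim0⟩
  | succ n ih =>
    intro L hL hLnn g hg hgS y hy C hC hyC
    obtain ⟨ψ, hψ, h1⟩ := ld0 (hg 0) (hgS 0) hL hLnn (hy 0) hC (hyC 0)
    have hψt := hψ.tendsto_atTop
    obtain ⟨χ, hχ, h2⟩ := ih (L ∘ ψ) (hL.comp hψt) (fun t => hLnn _) (fun i => g i.succ)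
      (fun i => hg _) (fun i => hgS _) (fun i t => y i.succ (ψ t))
      (fun i => (hy i.succ).comp hψt) C hC (fun i t => hyC _ _)
    refine ⟨ψ ∘ χ, hψ.comp hχ, fun i => ?_⟩
    refine Fin.cases ?_ (fun i => ?_) i
    · exact h1.comp hχ.tendsto_atTop
    · exact h2 i

/-- several sequences with any index set -/
theorem ld_ft {ι : Type} [Fintype ι] (hL : Tendsto L atTop atTop) (hLnn : ∀ t, 0 ≤ L t)
    (g : ι → ℕ) (hg : ∀ i, 2 ≤ g i) (hgS : ∀ i, (g i).primeFactors ⊆ S) (y : ι → ℕ → ℤ)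
    (hy : ∀ i, Spr (g i) L (y i)) (C : ℝ) (hC : 0 ≤ C)
    (hyC : ∀ i t, |(y i t : ℝ)| ≤ Real.exp (C * L t)) :
    ∃ ψ : ℕ → ℕ, StrictMono ψ ∧ ∀ i, Ld S (L ∘ ψ) fun t => (y i (ψ t) : ℚ) := by
  let e := (Fintype.equivFin ι).symm
  obtain ⟨ψ, hψ, h1⟩ := ld_fin0 (S := S) (Fintype.card ι) L hL hLnn (fun i => g (e i))
    (fun i => hg _) (fun i => hgS _) (fun i => y (e i)) (fun i => hy _) C hC (fun i t => hyC _ t)
  refine ⟨ψ, hψ, fun i => ?_⟩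
  have h2 := h1 (e.symm i)
  beta_reduce at h2
  rwa [Equiv.apply_symm_apply] at h2

theorem rel_ft {ι : Type} [Fintype ι] (hS : ∀ p ∈ S, p.Prime) (hL : Tendsto L atTop atTop)
    (hLnn : ∀ t, 0 ≤ L t) (y : ι → ℕ → ℤ) (hy : ∀ i, Ld S L fun t => (y i t : ℚ)) :
    ∃ ψ : ℕ → ℕ, StrictMono ψ ∧ ∀ i, Rel S (L ∘ ψ) (y i ∘ ψ) := by
  let e := (Fintype.equivFin ι).symm
  obtain ⟨ψ, hψ, h1⟩ := rel_fin hS (Fintype.card ι) L hL hLnn (fun i => y (e i)) (fun i => hy _)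
  refine ⟨ψ, hψ, fun i => ?_⟩
  have h2 := h1 (e.symm i)
  beta_reduce at h2
  rwa [Equiv.apply_symm_apply] at h2

/-- the cofactor of a divisor of a power -/
theorem cofactor (hS : ∀ p ∈ S, p.Prime) (hL : Tendsto L atTop atTop) (hLnn : ∀ t, 0 ≤ L t)
    (m : ℕ) (f : ℕ → ℤ) (ρ w : ℕ → ℕ) (hf : ∀ t, f t ≠ 0) (hw : ∀ t, Smooth S (w t))
    (hdvd : ∀ t, (f t).natAbs ∣ w t * ρ t ^ m) (C : ℝ) (hC : 0 ≤ C)
    (hfC : ∀ t, |(f t : ℝ)| ≤ Real.exp (C * L t)) (Lf : Ld S L fun t => (f t : ℚ))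
    (Lρ : Ld S L fun t => (ρ t : ℚ)) :
    ∃ (y : ℕ → ℤ) (u : ℕ → ℚ), (Ld S L fun t => (y t : ℚ)) ∧ (∀ t, UnitOf S (u t)) ∧
      ∀ t, (ρ t : ℚ) ^ m = f t * (y t * u t) := by
  classical
  obtain ⟨P, hP⟩ : ∃ P : ℕ → ℕ, P = fun t => (f t).natAbs := ⟨_, rfl⟩
  have hP0 : ∀ t, P t ≠ 0 := fun t => by
    rw [hP]
    exact Int.natAbs_ne_zero.2 (hf t)
  have hdvd' : ∀ t, P t ∣ w t * ρ t ^ m := fun t => by
    rw [hP]
    exact hdvd t
  obtain ⟨G, hG⟩ : ∃ G : ℕ → ℕ, G = fun t => Nat.gcd (P t) (ρ t ^ m) := ⟨_, rfl⟩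
  have hG0 : ∀ t, 0 < G t := fun t => by
    rw [hG]
    exact Nat.gcd_pos_of_pos_left _ (Nat.pos_of_ne_zero (hP0 t))
  have hGP : ∀ t, ∃ n, P t = G t * n := fun t => by
    rw [hG]; exact Nat.gcd_dvd_left _ _
  have hGρ : ∀ t, ∃ y, ρ t ^ m = G t * y := fun t => by
    rw [hG]; exact Nat.gcd_dvd_right _ _
  choose n hn using hGP
  choose y hy using hGρ
  have hcop2 : ∀ t, Nat.Coprime (n t) (y t) := fun t => by
    have h1 := Nat.coprime_div_gcd_div_gcd (m := P t) (n := ρ t ^ m) (by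
      have := hG0 t
      rwa [hG] at this)
    have h2 : Nat.gcd (P t) (ρ t ^ m) = G t := by rw [hG]
    rw [h2, hn t, hy t, Nat.mul_div_cancel_left _ (hG0 t), Nat.mul_div_cancel_left _ (hG0 t)] at h1
    exact h1
  have hnw : ∀ t, n t ∣ w t := fun t => by
    have h1 := hdvd' t
    rw [hn t, hy t, ← mul_assoc, mul_comm (w t), mul_assoc] at h1
    have h2 : n t ∣ w t * y t := Nat.dvd_of_mul_dvd_mul_left (hG0 t) h1
    exact (hcop2 t).dvd_of_dvd_mul_right h2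
  have hns : ∀ t, Smooth S (n t) := fun t => smooth_of_dvd (hw t) (hnw t)
  have hnP : ∀ t, n t ≤ P t := fun t => by
    rw [hn t]
    exact Nat.le_mul_of_pos_left _ (hG0 t)
  have hnC : ∀ t, (n t : ℝ) ≤ Real.exp (C * L t) := fun t => by
    have h1 : (n t : ℝ) ≤ P t := by exact_mod_cast hnP t
    have h2 : (P t : ℝ) = |(f t : ℝ)| := by
      rw [hP]
      beta_reduce
      rw [Nat.cast_natAbs, Int.cast_abs]
    rw [h2] at h1
    exact h1.trans (hfC t)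
  -- the sign
  obtain ⟨σ, hσ⟩ : ∃ σ : ℕ → ℤ, σ = fun t => if 0 ≤ f t then 1 else -1 := ⟨_, rfl⟩
  have hσ1 : ∀ t, σ t = 1 ∨ σ t = -1 := fun t => by
    rw [hσ]
    beta_reduce
    split_ifs
    · exact Or.inl rfl
    · exact Or.inr rfl
  have hσP : ∀ t, f t = σ t * (P t : ℤ) := fun t => by
    rw [hP, hσ]
    beta_reduce
    split_ifs with h
    · rw [one_mul, Int.natAbs_of_nonneg h]
    · rw [Int.ofNat_natAbs_of_nonpos (by omega)]
      ring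
  have hσS : Sub L fun t => (σ t : ℝ) := (Sub.const hL 1).mono (Eventually.of_forall fun t => by
    rcases hσ1 t with h | h <;> rw [h] <;> simp)
  have hσσ : ∀ t, (σ t : ℚ) * σ t = 1 := fun t => by
    rcases hσ1 t with h | h <;> rw [h] <;> norm_num
  have Ln : Ld S L fun t => (n t : ℚ) := Ld.smooth hL hLnn hns hC hnC
  have hyq : ∀ t, ((σ t * (y t : ℤ) : ℤ) : ℚ) = n t * (ρ t : ℚ) ^ m / f t := fun t => by
    have h1 : (P t : ℚ) = G t * n t := by exact_mod_cast hn t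
    have h2 : (ρ t : ℚ) ^ m = G t * y t := by exact_mod_cast hy t
    have h3 : (G t : ℚ) ≠ 0 := by
      have := (hG0 t).ne'
      exact_mod_cast this
    have h4 : (n t : ℚ) ≠ 0 := by exact_mod_cast (hns t).1
    have h5 : (f t : ℚ) = σ t * P t := by exact_mod_cast hσP t
    have h6 : (σ t : ℚ) ≠ 0 := by
      intro h0
      have := hσσ t
      rw [h0] at this
      norm_num at this
    have h7 := hσσ t
    rw [h5, h1, h2, eq_div_iff (mul_ne_zero h6 (mul_ne_zero h3 h4))]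
    push_cast
    linear_combination (y t : ℚ) * G t * n t * h7
  have Ly : Ld S L fun t => ((σ t * (y t : ℤ) : ℤ) : ℚ) := by
    have h1 := (Ln.mul hLnn (Lρ.pow hL hLnn m)).div hL hLnn Lf
    exact h1.congr fun t => hyq t
  refine ⟨fun t => σ t * (y t : ℤ), fun t => ((n t : ℚ))⁻¹, Ly, fun t => ?_, fun t => ?_⟩
  · have h1 := unitOf_div (fun p hp => (hS p hp).ne_zero) (unitOf_one S)
      (unitOf_smooth (hns t))
    rwa [one_div] at h1
  · beta_reduce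
    rw [hyq]
    have h3 : (f t : ℚ) ≠ 0 := by exact_mod_cast hf t
    have h4 : (n t : ℚ) ≠ 0 := by exact_mod_cast (hns t).1
    field_simp

/-- **Vojta's inequality for sequences.** -/
theorem vo_seq (hS : ∀ p ∈ S, p.Prime) (N s g q : ℕ)
    (G : Fin g → MvPolynomial (Fin (N + s + 1)) ℤ) (e : Fin g → ℕ)
    (hG : ∀ k, (G k).IsHomogeneous (e k)) (F : Fin q → MvPolynomial (Fin (N + s + 1)) ℤ)
    (d : Fin q → ℕ) (hF : ∀ i, (F i).IsHomogeneous (d i)) (hdim : R7.DimGE N G)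
    (hsm : R7.SmoothPair s G (one F)) (m : ℕ) (ε : ℝ) (hε : 0 < ε)
    (x : ℕ → Fin (N + s + 1) → ℤ) (ρ X w : ℕ → ℕ) (hxG : ∀ t k, aeval (x t) (G k) = 0)
    (hLX : ∀ t, L t = Real.log (X t)) (hL : Tendsto L atTop atTop)
    (hF0 : ∀ t i, aeval (x t) (F i) ≠ 0) (hρ : ∀ t, 0 < ρ t)
    (hX : ∀ t i, (x t i).natAbs ≤ X t) (hX' : ∀ t, ∃ i, (x t i).natAbs = X t)
    (hX1 : ∀ t, 1 ≤ X t) (hw : ∀ t, Smooth S (w t))
    (hdvd : ∀ t i, (aeval (x t) (F i)).natAbs ∣ w t * ρ t ^ m) (C : ℝ) (hC : 0 ≤ C)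
    (hFC : ∀ i t, |((aeval (x t) (F i) : ℤ) : ℝ)| ≤ Real.exp (C * L t))
    (hρC : ∀ t, Real.log (ρ t) ≤ C * L t)
    (Lx : ∀ i, Ld S L fun t => (x t i : ℚ))
    (LF : ∀ i, Ld S L fun t => ((aeval (x t) (F i) : ℤ) : ℚ))
    (Lρ : Ld S L fun t => (ρ t : ℚ))
    (hgen : ∀ (Φ : MvPolynomial (Fin (N + s + 1)) ℚ) (k : ℕ), Φ.IsHomogeneous k →
      (∃ z : Fin (N + s + 1) → ℂ, (∀ k, aeval z (G k) = 0) ∧ aeval z Φ ≠ 0) →
      ∀ᶠ t in atTop, aeval (fun i => (x t i : ℚ)) Φ ≠ 0)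
    (T : ℕ → Matrix (Fin (N + s + 1)) (Fin (N + 1)) ℚ)
    (hT : ∀ t, R7.IsTangentBasis G (fun i => (x t i : ℚ)) (T t))
    (hbad : ∀ K : ℝ, ∀ᶠ t in atTop, Real.log (ρ t) + ε * L t + K <
      R7.canonicalHeight (fun i => (x t i : ℚ)) (T t) +
        (∑ i, (d i : ℝ)) * R7.height (fun i => (x t i : ℚ))) : False := by
  classical
  have hLnn : ∀ t, 0 ≤ L t := fun t => by
    rw [hLX]
    exact Real.log_nonneg (by exact_mod_cast hX1 t)
  obtain ⟨m', hm'⟩ : ∃ m' : ℕ, m' = m + (∑ i, d i) + 1 := ⟨_, rfl⟩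
  have hdvd' : ∀ i t, (aeval (x t) (F i)).natAbs ∣ w t * ρ t ^ m' := fun i t => by
    have h1 : ρ t ^ m' = ρ t ^ m * ρ t ^ ((∑ i, d i) + 1) := by
      rw [← pow_add, hm']
      rfl
    rw [h1, ← mul_assoc]
    exact (hdvd t i).mul_right _
  choose y u Ly hu hyu using fun i => cofactor hS hL hLnn m' (fun t => aeval (x t) (F i)) ρ w
    (fun t => hF0 t i) hw (hdvd' i) C hC (hFC i) (LF i) Lρ
  -- the relations
  obtain ⟨ψ, hψ, hrel⟩ := rel_ft (ι := Fin (N + s + 1) ⊕ (Fin q ⊕ Unit)) hS hL hLnn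
    (Sum.elim (fun i t => x t i) (Sum.elim y fun _ t => (ρ t : ℤ))) (fun i => by
      rcases i with i | i | i
      · exact Lx i
      · exact Ly i
      · show Ld S L fun t => (((ρ t : ℕ) : ℤ) : ℚ)
        refine Lρ.congr fun t => ?_
        rw [Int.cast_natCast])
  have hψt := hψ.tendsto_atTop
  obtain ⟨L', hL'⟩ : ∃ L' : ℕ → ℝ, L' = L ∘ ψ := ⟨_, rfl⟩
  rw [← hL'] at hrel
  have hLt : Tendsto L' atTop atTop := by rw [hL']; exact hL.comp hψt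
  have Rx : ∀ i, RelQ S L' fun t => (x (ψ t) i : ℚ) := fun i => hrel (Sum.inl i)
  have Rb : ∀ i, RelQ S L' fun t => (y i (ψ t) : ℚ) * u i (ψ t) := fun i => by
    have h1 : RelQ S L' fun t => (y i (ψ t) : ℚ) := hrel (Sum.inr (Sum.inl i))
    exact h1.mul hS (RelQ.unit hLt fun t => hu i _)
  have Rρ : RelQ S L' fun t => (ρ (ψ t) : ℚ) := by
    have h1 : RelQ S L' fun t => (((ρ (ψ t) : ℕ) : ℤ) : ℚ) := hrel (Sum.inr (Sum.inr ()))
    refine h1.congr fun t => ?_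
    rw [Int.cast_natCast]
  have R1 : RelQ S L' fun _ => (1 : ℚ) := RelQ.unit hLt fun t => unitOf_one S
  obtain ⟨l, Δ, M, hΔ, hΔM, hMS, hsh⟩ := clear hLt
    (κ := Fin (N + s + 1) ⊕ (Fin q ⊕ (Unit ⊕ Unit)))
    (Sum.elim (fun i t => (x (ψ t) i : ℚ)) (Sum.elim (fun i t => (y i (ψ t) : ℚ) * u i (ψ t))
      (Sum.elim (fun _ t => (ρ (ψ t) : ℚ)) fun _ _ => 1))) (fun i => by
      rcases i with i | i | i | i
      · exact Rx i
      · exact Rb i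
      · exact Rρ
      · exact R1)
  -- the inequality
  obtain ⟨ε', hε'⟩ : ∃ ε' : ℝ, ε' = ε / (1 + C) := ⟨_, rfl⟩
  have hε'0 : 0 < ε' := by rw [hε']; positivity
  have hε'e : ε' * (1 + C) = ε := by
    rw [hε']
    field_simp
  obtain ⟨δ, Φ, k, C0, hδ, hC0, hΦ, hΦz, hmain⟩ := vojta_den N s g q G e hG F d hF hdim hsm S hS l
    m' (by omega) (fun i => by
      have := Finset.single_le_sum (f := d) (fun _ _ => Nat.zero_le _) (Finset.mem_univ i)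
      omega) ε' hε'0
  have hev : ∀ᶠ _t : ℕ in atTop, False := by
    filter_upwards [hψt.eventually (hbad C0), hψt.eventually (hgen Φ k hΦ hΦz), hMS δ hδ]
      with t h1 h2 h3
    have hM1 : (1 : ℝ) ≤ M t := by
      have h4 : (1 : ℝ) ≤ Δ t := by exact_mod_cast hΔ t
      exact h4.trans (hΔM t)
    have h4 : Real.log (M t) ≤ δ * (1 + Real.log (X (ψ t))) := by
      have h5 := Real.log_le_log (by linarith) ((le_abs_self _).trans h3)
      rw [Real.log_exp, hL'] at h5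
      have h6 : (L ∘ ψ) t = Real.log (X (ψ t)) := hLX _
      rw [h6] at h5
      linarith
    have h5 := hmain (x (ψ t)) (ρ (ψ t)) (X (ψ t)) (fun i => (y i (ψ t) : ℚ) * u i (ψ t)) (Δ t)
      (M t) (hxG _) (hρ _) (fun i => hyu i (ψ t)) (hX _) (hX' _) (hX1 _) (hΔ t) (hΔM t) h4
      (fun i => hsh t (Sum.inl i)) (fun i => hsh t (Sum.inr (Sum.inl i)))
      (hsh t (Sum.inr (Sum.inr (Sum.inl ())))) (by
        have h6 := hsh t (Sum.inr (Sum.inr (Sum.inr ())))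
        simpa using h6) h2 (T (ψ t)) (hT _)
    have h6 := hρC (ψ t)
    have h7 : Real.log (X (ψ t)) = L (ψ t) := (hLX _).symm
    rw [h7] at h5
    have h8 : ε' * (L (ψ t) + Real.log (ρ (ψ t))) ≤ ε * L (ψ t) := by
      calc ε' * (L (ψ t) + Real.log (ρ (ψ t))) ≤ ε' * (L (ψ t) + C * L (ψ t)) :=
            mul_le_mul_of_nonneg_left (by linarith) hε'0.le
        _ = ε' * (1 + C) * L (ψ t) := by ring
        _ = ε * L (ψ t) := by rw [hε'e]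
    linarith
  obtain ⟨t, ht⟩ := hev.exists
  exact ht

end Pool.Agent.H455.VO
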