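import Mathlib
import Pool.Agent.H455.VO1
import Pool.Agent.H455.TR

set_option autoImplicit false

/-!
# The hyperplane `z_1 + … + z_n = 0` and the coordinate hyperplanes
-/

open Finset Filter Topology MvPolynomial NumberField

namespace Pool.Agent.H455.AD

open Pool.Agent.H455.VO Pool.Agent.H455.TR Pool.Agent.Y724.T4

variable {N : ℕ}

/-- no equation -/
noncomputable def noG (N : ℕ) : Fin 0 → MvPolynomial (Fin (N + 0 + 1)) ℤ := fun k => k.elim0

/-- the coordinates and minus their sum -/
noncomputable def FF (N : ℕ) : Fin (N + 0 + 1 + 1) → MvPolynomial (Fin (N + 0 + 1)) ℤ :=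
  Fin.snoc (α := fun _ => MvPolynomial (Fin (N + 0 + 1)) ℤ) (fun i => X i) (-∑ j, X j)

theorem FF_cast (i : Fin (N + 0 + 1)) : FF N i.castSucc = X i := by
  unfold FF
  rw [Fin.snoc_castSucc]

theorem FF_last : FF N (Fin.last _) = -∑ j, X j := by
  unfold FF
  rw [Fin.snoc_last]

theorem FF_hom (i : Fin (N + 0 + 1 + 1)) : (FF N i).IsHomogeneous 1 := by
  refine Fin.lastCases ?_ (fun i => ?_) i
  · rw [FF_last]
    exact (IsHomogeneous.sum _ _ _ fun j _ => isHomogeneous_X _ j).neg
  · rw [FF_cast]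
    exact isHomogeneous_X _ i

theorem dimN : R7.DimGE N (noG N) := by
  refine ⟨fun i => i, fun P hP => ?_⟩
  have h1 : ∀ z : Fin (N + 1) → ℚ, aeval z P = 0 := by
    intro z
    have h2 := hP (fun i => algebraMap ℚ ℂ (z i)) (fun k => k.elim0)
    have h4 := aeval_algebraMap_apply ℂ z P
    have h6 : algebraMap ℚ ℂ (aeval z P) = 0 := by
      rw [← h4]
      exact h2
    exact (map_eq_zero _).1 h6
  apply MvPolynomial.funext
  intro z
  rw [map_zero]
  have := h1 z
  rwa [aeval_eq_eval] at this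

theorem smooth : R7.SmoothPair 0 (noG N) (one (FF N)) := by
  classical
  intro z hz _
  refine ⟨fun a => a.elim0, fun _ => 0, ?_⟩
  rw [Fintype.linearIndependent_iff]
  intro c hc
  obtain ⟨j0, hj0⟩ := Function.ne_iff.1 hz
  -- the extension of the coefficients
  obtain ⟨c', hc'⟩ : ∃ c' : Fin (N + 0 + 1 + 1) → ℂ, c' = fun i =>
      if h : ∀ j, aeval z (one (FF N) i j) = 0 then c (Sum.inr ⟨i, h⟩) else 0 := ⟨_, rfl⟩
  have hrel : ∀ y : Fin (N + 0 + 1), c' y.castSucc - c' (Fin.last _) = 0 := by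
    intro y
    have h1 := congrFun hc y
    rw [Fintype.sum_sum_type, Fintype.sum_empty, zero_add, Finset.sum_apply] at h1
    have h2 : ∑ i : Fin (N + 0 + 1 + 1), c' i * aeval z (pderiv y (FF N i)) = 0 := by
      refine Eq.trans ?_ h1
      have h3 : ∀ i : Fin (N + 0 + 1 + 1), c' i * aeval z (pderiv y (FF N i)) =
          if h : ∀ j, aeval z (one (FF N) i j) = 0 then
            c (Sum.inr ⟨i, h⟩) * aeval z (pderiv y (FF N i)) else 0 := by
        intro i
        rw [hc']
        beta_reduce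
        split_ifs
        · rfl
        · rw [zero_mul]
      rw [Finset.sum_congr rfl fun i _ => h3 i]
      rw [Finset.sum_dite, Finset.sum_const_zero, add_zero]
      refine Finset.sum_bij' (fun i _ => ⟨i.1, (Finset.mem_filter.1 i.2).2⟩)
        (fun i _ => ⟨i.1, Finset.mem_filter.2 ⟨Finset.mem_univ _, i.2⟩⟩)
        (fun i _ => Finset.mem_univ _) (fun i _ => Finset.mem_attach _ _) (fun i _ => rfl)
        (fun i _ => rfl) (fun i _ => rfl)
    rw [Fin.sum_univ_castSucc, FF_last, Finset.sum_eq_single y] at h2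
    · rw [FF_cast, pderiv_X_self, map_neg, map_sum, Finset.sum_eq_single y, pderiv_X_self] at h2
      · simp only [map_one, map_neg] at h2
        linear_combination h2
      · intro b _ hb
        rw [pderiv_X_of_ne hb]
      · intro h
        exact absurd (Finset.mem_univ _) h
    · intro b _ hb
      rw [FF_cast, pderiv_X_of_ne hb, map_zero, mul_zero]
    · intro h
      exact absurd (Finset.mem_univ _) h
  have h0 : c' j0.castSucc = 0 := by
    rw [hc']
    beta_reduce
    rw [dif_neg]
    intro h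
    apply hj0
    have h1 := h 0
    change aeval z (FF N j0.castSucc) = 0 at h1
    rwa [FF_cast, aeval_X] at h1
  have hlast : c' (Fin.last _) = 0 := by
    have := hrel j0
    rw [h0] at this
    linear_combination -this
  have hall : ∀ i, c' i = 0 := by
    intro i
    refine Fin.lastCases hlast (fun i => ?_) i
    have := hrel i
    rw [hlast] at this
    linear_combination this
  rintro (i | i)
  · exact i.elim0
  · have h1 := hall i.1
    rw [hc'] at h1
    beta_reduce at h1
    rwa [dif_pos i.2] at h1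

theorem basis (x : Fin (N + 0 + 1) → ℚ) :
    R7.IsTangentBasis (noG N) x (1 : Matrix (Fin (N + 0 + 1)) (Fin (N + 1)) ℚ) := by
  constructor
  · rw [Fintype.linearIndependent_iff]
    intro c hc i
    have h1 := congrFun hc i
    rw [Finset.sum_apply, Finset.sum_eq_single i] at h1
    · have h2 : c i * (1 : Matrix (Fin (N + 0 + 1)) (Fin (N + 1)) ℚ) i i = 0 := h1
      rwa [Matrix.one_apply_eq, mul_one] at h2
    · intro j _ hj
      change c j * (1 : Matrix (Fin (N + 0 + 1)) (Fin (N + 1)) ℚ) i j = 0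
      rw [Matrix.one_apply_ne (Ne.symm hj), mul_zero]
    · intro h
      exact absurd (Finset.mem_univ i) h
  · intro k
    exact k.elim0

theorem canonical (x : Fin (N + 0 + 1) → ℚ) :
    R7.canonicalHeight x (1 : Matrix (Fin (N + 0 + 1)) (Fin (N + 1)) ℚ) =
      -((N : ℝ) + 1) * R7.height x := by
  classical
  unfold R7.canonicalHeight R7.height
  rw [height_signs]
  · ring
  · intro h
    have h1 : ((1 : Matrix (Fin (N + 0 + 1)) (Fin (N + 1)) ℚ).submatrix (fun i => i) id).det = 0 :=
      congrFun h (fun i => i)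
    have h2 : ((1 : Matrix (Fin (N + 0 + 1)) (Fin (N + 1)) ℚ).submatrix (fun i => i) id).det = 1 :=
      Matrix.det_one
    exact one_ne_zero (h2.symm.trans h1)
  · intro J
    by_cases hJ : Function.Injective J
    · have hb : Function.Bijective J := (Finite.injective_iff_bijective).1 hJ
      have h1 := Matrix.det_permute (Equiv.ofBijective J hb)
        (1 : Matrix (Fin (N + 1)) (Fin (N + 1)) ℚ)
      rw [Matrix.det_one, mul_one] at h1
      have h2 : ((1 : Matrix (Fin (N + 0 + 1)) (Fin (N + 1)) ℚ).submatrix J id).det =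
          ((Equiv.Perm.sign (Equiv.ofBijective J hb) : ℤ) : ℚ) := h1
      right
      rcases Int.units_eq_one_or (Equiv.Perm.sign (Equiv.ofBijective J hb)) with h3 | h3
      · left
        rw [h2, h3]
        simp
      · right
        rw [h2, h3]
        simp
    · left
      rw [Function.not_injective_iff] at hJ
      obtain ⟨a, b, hab, hne⟩ := hJ
      refine Matrix.det_zero_of_row_eq hne ?_
      funext k
      rw [Matrix.submatrix_apply, Matrix.submatrix_apply, hab]

/-- integers without a common prime divisor -/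
theorem bezout {n : ℕ} (z : Fin n → ℤ) (hz : ∀ p : ℕ, p.Prime → ∃ i, ¬ (p : ℤ) ∣ z i) :
    ∃ c : Fin n → ℤ, ∑ i, c i * z i = 1 := by
  obtain ⟨d, hd⟩ := (IsPrincipalIdealRing.principal (Ideal.span (Set.range z))).principal
  have hdv : ∀ i, d ∣ z i := fun i => by
    rw [← Ideal.mem_span_singleton, ← Ideal.submodule_span_eq, ← hd]
    exact Ideal.subset_span ⟨i, rfl⟩
  have hunit : d.natAbs = 1 := by
    by_contra hne
    obtain ⟨p, hp, hpd⟩ := Nat.exists_prime_and_dvd hne
    obtain ⟨i, hi⟩ := hz p hp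
    exact hi ((Int.natCast_dvd.2 hpd).trans (hdv i))
  have h1 : (1 : ℤ) ∈ Ideal.span (Set.range z) := by
    rw [hd, Ideal.submodule_span_eq, Ideal.mem_span_singleton]
    exact Int.natAbs_dvd.1 (by rw [hunit]; exact one_dvd _)
  rw [Ideal.mem_span_range_iff_exists_fun] at h1
  exact h1

/-- the height of a primitive vector -/
theorem log_le_height {n : ℕ} (z : Fin n → ℤ) (hz : ∀ p : ℕ, p.Prime → ∃ i, ¬ (p : ℤ) ∣ z i)
    (i : Fin n) (hi : z i ≠ 0) :
    Real.log |(z i : ℝ)| ≤ R7.height (fun j => (z j : ℚ)) := by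
  have h1 : Module.finrank ℚ ℚ = 1 := Module.finrank_self ℚ
  unfold R7.height
  rw [h1, Nat.cast_one, div_one]
  have hx : (fun j => (z j : ℚ)) ≠ 0 := by
    intro h
    have h3 := congrFun h i
    simp only [Pi.zero_apply, Int.cast_eq_zero] at h3
    exact hi h3
  have hle : ∀ (v : AbsoluteValue ℚ ℝ) (j : Fin n), v ((z j : ℚ)) ≤ ⨆ j, v ((z j : ℚ)) :=
    fun v j => le_ciSup (f := fun j => v ((z j : ℚ))) (Finite.bddAbove_range _) j
  rw [logHeight_sum hx]
  have hmult : ∑ v : InfinitePlace ℚ, (v.mult : ℝ) = 1 := by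
    rw [← Nat.cast_one, ← h1, ← InfinitePlace.sum_mult_eq]
    push_cast
    rfl
  have h3 : Real.log |(z i : ℝ)| ≤
      ∑ v : InfinitePlace ℚ, (v.mult : ℝ) * Real.log (⨆ j, v ((z j : ℚ))) := by
    have h4 : ∑ v : InfinitePlace ℚ, (v.mult : ℝ) * Real.log |(z i : ℝ)| ≤
        ∑ v : InfinitePlace ℚ, (v.mult : ℝ) * Real.log (⨆ j, v ((z j : ℚ))) := by
      refine Finset.sum_le_sum fun v _ => mul_le_mul_of_nonneg_left ?_ (Nat.cast_nonneg _)
      refine Real.log_le_log (by
        have : (z i : ℝ) ≠ 0 := by exact_mod_cast hi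
        positivity) ?_
      have h5 := hle v.1 i
      have h6 := RTHaux.inf_int v (z i)
      rw [← h6]
      exact h5
    rwa [← Finset.sum_mul, hmult, one_mul] at h4
  have h4 : 0 ≤ ∑ᶠ v : FinitePlace ℚ, Real.log (⨆ j, v ((z j : ℚ))) := by
    refine finsum_nonneg fun v => Real.log_nonneg ?_
    obtain ⟨c, hc⟩ := bezout z hz
    have hs0 : 0 ≤ ⨆ j, v.1 ((z j : ℚ)) := (apply_nonneg v.1 _).trans (hle v.1 i)
    have h5 : ∀ t : Finset (Fin n), v (∑ j ∈ t, (c j : ℚ) * (z j : ℚ)) ≤ ⨆ j, v.1 ((z j : ℚ)) := by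
      intro t
      classical
      induction t using Finset.induction_on with
      | empty =>
        rw [Finset.sum_empty, map_zero]
        exact hs0
      | insert a t ha ih =>
        rw [Finset.sum_insert ha]
        refine (FinitePlace.add_le v _ _).trans (max_le ?_ ih)
        rw [map_mul]
        calc v (c a : ℚ) * v (z a : ℚ) ≤ 1 * ⨆ j, v.1 ((z j : ℚ)) :=
              mul_le_mul (PLCaux.int_le_one v (c a)) (hle v.1 a) (apply_nonneg v _) zero_le_one
          _ = _ := one_mul _
    have h6 := h5 Finset.univ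
    have h7 : ∑ j, (c j : ℚ) * (z j : ℚ) = 1 := by exact_mod_cast hc
    rw [h7, map_one] at h6
    exact h6
  linarith

theorem irr : Irr (noG N) := by
  intro Φ Ψ hΦ hΨ
  obtain ⟨-, z, -, h1⟩ := hΦ
  obtain ⟨-, w, -, h2⟩ := hΨ
  have hΦ0 : Φ ≠ 0 := by
    rintro rfl
    simp at h1
  have hΨ0 : Ψ ≠ 0 := by
    rintro rfl
    simp at h2
  have h3 : Φ * Ψ ≠ 0 := mul_ne_zero hΦ0 hΨ0
  by_contra hcon
  push Not at hcon
  apply h3
  apply MvPolynomial.funext
  intro u
  rw [map_zero, map_mul]
  by_contra h4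
  have h5 : aeval u Φ ≠ 0 := by
    rw [aeval_eq_eval]
    exact left_ne_zero_of_mul h4
  have h6 : aeval u Ψ ≠ 0 := by
    rw [aeval_eq_eval]
    exact right_ne_zero_of_mul h4
  have e1 := aeval_algebraMap_apply ℂ u Φ
  have e2 := aeval_algebraMap_apply ℂ u Ψ
  have h7 := hcon ((algebraMap ℚ ℂ) ∘ u) (fun k => k.elim0) (by
    rw [e1]
    exact (map_ne_zero _).2 h5)
  rw [e2] at h7
  exact h6 ((map_eq_zero _).1 h7)

end Pool.Agent.H455.AD
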