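import Mathlib
import Pool.Agent.H455.AD1
import Pool.Agent.H455.SZ2

set_option autoImplicit false

/-!
# The n-term abc inequality for compressible terms
-/

open Finset Filter Topology MvPolynomial

namespace Pool.Agent.H455.AD

open Pool.Agent.TH419.WI Pool.Agent.TH419.HX Pool.Agent.H455.VC Pool.Agent.H455.RT
open Pool.Agent.H455.CB Pool.Agent.H455.AB Pool.Agent.Y724.T4 Pool.Agent.H455.SZ
open Pool.Agent.H455.VO Pool.Agent.H455.TR
open Pool.Agent.R343.LT

variable {S : Finset ℕ} {N : ℕ}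

/-- the product of the primes outside `S` which divide `n` -/
def rd (S : Finset ℕ) (n : ℕ) : ℕ := ∏ p ∈ n.primeFactors with p ∉ S, p

theorem rd_pos (n : ℕ) : 0 < rd S n :=
  Finset.prod_pos fun _ hp => (Nat.prime_of_mem_primeFactors (Finset.mem_filter.1 hp).1).pos

theorem rd_dvd_prt (n : ℕ) : rd S n ∣ prt S n := by
  unfold rd prt
  refine Finset.prod_dvd_prod_of_dvd _ _ fun p hp => ?_
  have h1 := (Finset.mem_filter.1 hp).1
  have h2 := Nat.prime_of_mem_primeFactors h1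
  refine dvd_pow_self p ?_
  rw [Nat.mem_primeFactors] at h1
  exact (h2.factorization_pos_of_dvd h1.2.2 h1.2.1).ne'

theorem rd_fac {n p : ℕ} (hp : p.Prime) (hn : n ≠ 0) (hpn : p ∣ n) (hpS : p ∉ S) : p ∣ rd S n :=
  Finset.dvd_prod_of_mem _ (Finset.mem_filter.2 ⟨Nat.mem_primeFactors.2 ⟨hp, hpn, hn⟩, hpS⟩)

/-- the divisibility -/
theorem dvd_rd {P a m : ℕ} (hP : P ≠ 0) (haP : a ∣ P)
    (hm : ∀ p : ℕ, p.Prime → p ∉ S → a.factorization p ≤ m) :
    a ∣ spt S P * rd S P ^ m := by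
  have ha : a ≠ 0 := fun h => hP (by rw [h] at haP; exact Nat.eq_zero_of_zero_dvd haP)
  rw [← Nat.factorization_prime_le_iff_dvd ha (mul_ne_zero (spt_pos P).ne'
    (pow_ne_zero _ (rd_pos P).ne'))]
  intro p hp
  rw [Nat.factorization_mul (spt_pos P).ne' (pow_ne_zero _ (rd_pos P).ne'), Finsupp.add_apply,
    Nat.factorization_pow, Finsupp.smul_apply, smul_eq_mul]
  by_cases hpa : p ∣ a
  · by_cases hpS : p ∈ S
    · have h1 := spt_fac (S := S) hP hp
      rw [if_pos hpS] at h1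
      have h2 : a.factorization p ≤ P.factorization p :=
        (Nat.factorization_le_iff_dvd ha hP).2 haP p
      omega
    · have h1 := hm p hp hpS
      have h2 : 1 ≤ (rd S P).factorization p :=
        hp.factorization_pos_of_dvd (rd_pos P).ne' (rd_fac hp hP (hpa.trans haP) hpS)
      calc a.factorization p ≤ m := h1
        _ ≤ m * (rd S P).factorization p := Nat.le_mul_of_pos_right _ h2
        _ ≤ _ := Nat.le_add_left _ _
  · rw [Nat.factorization_eq_zero_of_not_dvd hpa]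
    exact Nat.zero_le _

/-- a point -/
structure APt (S : Finset ℕ) (N m : ℕ) (alt : Prop) where
  x : Fin (N + 0 + 1 + 1) → ℤ
  Z : ℤ
  M : ℝ
  hx : ∀ i, x i ≠ 0
  hsum : ∑ i, x i = 0
  hcop : ∀ p : ℕ, p.Prime → ∃ i, ¬ (p : ℤ) ∣ x i
  hm : ∀ p : ℕ, p.Prime → p ∉ S → ∀ i, (x i).natAbs.factorization p ≤ m
  hZ : (alt ∧ Z = rd S (∏ i, x i).natAbs) ∨
    (¬ alt ∧ Z * rd S (∏ i, x i).natAbs = prt S (∏ i, x i).natAbs)
  hM : 1 ≤ M

variable {m : ℕ} {alt : Prop}

/-- the first coordinates -/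
def APt.y (P : APt S N m alt) (i : Fin (N + 0 + 1)) : ℤ := P.x i.castSucc

/-- their maximum -/
def APt.Y (P : APt S N m alt) : ℕ := Finset.univ.sup fun i => (P.y i).natAbs

/-- its logarithm -/
noncomputable def APt.H (P : APt S N m alt) : ℝ := Real.log P.Y

/-- the radical -/
def APt.ρ (P : APt S N m alt) : ℕ := rd S (∏ i, P.x i).natAbs

/-- the compressible numbers -/
def APt.z (P : APt S N m alt) : Fin (N + 0 + 1 + 1) ⊕ Unit → ℤ := Sum.elim P.x fun _ => P.Z

theorem APt.y_le (P : APt S N m alt) (i : Fin (N + 0 + 1)) : (P.y i).natAbs ≤ P.Y :=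
  Finset.le_sup (f := fun i => (P.y i).natAbs) (Finset.mem_univ i)

theorem APt.exists_Y (P : APt S N m alt) : ∃ i, (P.y i).natAbs = P.Y := by
  obtain ⟨i, -, hi⟩ := Finset.exists_mem_eq_sup (Finset.univ : Finset (Fin (N + 0 + 1)))
    ⟨0, Finset.mem_univ 0⟩ fun i => (P.y i).natAbs
  exact ⟨i, hi.symm⟩

theorem APt.one_le_Y (P : APt S N m alt) : 1 ≤ P.Y :=
  (Int.natAbs_pos.2 (P.hx _)).trans_le (P.y_le 0)

theorem APt.H_nonneg (P : APt S N m alt) : 0 ≤ P.H := Real.log_natCast_nonneg _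

theorem APt.last_eq (P : APt S N m alt) : P.x (Fin.last _) = -∑ i, P.y i := by
  have h1 := P.hsum
  rw [Fin.sum_univ_castSucc] at h1
  unfold APt.y
  linarith

theorem APt.last_le (P : APt S N m alt) : (P.x (Fin.last _)).natAbs ≤ (N + 1) * P.Y := by
  rw [P.last_eq, Int.natAbs_neg]
  refine (Int.natAbs_sum_le _ _).trans ?_
  refine (Finset.sum_le_sum fun i _ => P.y_le i).trans ?_
  rw [Finset.sum_const, Finset.card_univ, Fintype.card_fin, smul_eq_mul]

theorem APt.x_le (P : APt S N m alt) (i : Fin (N + 0 + 1 + 1)) :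
    (P.x i).natAbs ≤ (N + 1) * P.Y := by
  refine Fin.lastCases P.last_le (fun i => ?_) i
  exact (P.y_le i).trans (Nat.le_mul_of_pos_left _ (by omega))

theorem APt.prod_ne (P : APt S N m alt) : (∏ i, P.x i).natAbs ≠ 0 :=
  Int.natAbs_ne_zero.2 (Finset.prod_ne_zero_iff.2 fun i _ => P.hx i)

theorem APt.prod_le (P : APt S N m alt) :
    (∏ i, P.x i).natAbs ≤ ((N + 1) * P.Y) ^ (N + 2) := by
  have h2 : (∏ i, P.x i).natAbs = ∏ i, (P.x i).natAbs := by
    rw [← Int.natAbsHom_apply, map_prod]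
    rfl
  rw [h2]
  refine (Finset.prod_le_prod' fun i _ => P.x_le i).trans ?_
  rw [Finset.prod_const, Finset.card_univ, Fintype.card_fin]

theorem APt.Z_ne (P : APt S N m alt) : P.Z ≠ 0 := by
  intro h0
  rcases P.hZ with ⟨-, h1⟩ | ⟨-, h1⟩
  · rw [h0] at h1
    have := rd_pos (S := S) (∏ i, P.x i).natAbs
    omega
  · rw [h0, zero_mul] at h1
    have := prt_pos (S := S) (∏ i, P.x i).natAbs
    omega

theorem APt.Z_le (P : APt S N m alt) : P.Z.natAbs ≤ (∏ i, P.x i).natAbs := by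
  have h3 : prt S (∏ i, P.x i).natAbs ≤ (∏ i, P.x i).natAbs := prt_le P.prod_ne
  have h4 : rd S (∏ i, P.x i).natAbs ≤ prt S (∏ i, P.x i).natAbs :=
    Nat.le_of_dvd (prt_pos _) (rd_dvd_prt _)
  rcases P.hZ with ⟨-, h1⟩ | ⟨-, h1⟩
  · rw [h1, Int.natAbs_natCast]
    exact h4.trans h3
  · have h2 := congrArg Int.natAbs h1
    rw [Int.natAbs_mul, Int.natAbs_natCast, Int.natAbs_natCast] at h2
    calc P.Z.natAbs ≤ P.Z.natAbs * rd S (∏ i, P.x i).natAbs :=
          Nat.le_mul_of_pos_right _ (rd_pos _)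
      _ = prt S (∏ i, P.x i).natAbs := h2
      _ ≤ _ := h3

theorem log_bound (P : APt S N m alt) {n : ℕ} (hn : n ≤ ((N + 1) * P.Y) ^ (N + 2)) :
    Real.log (max 1 (n : ℝ)) ≤ (N + 2) * ((N + 1) + P.H) := by
  have hY : (0 : ℝ) < P.Y := by exact_mod_cast P.one_le_Y
  have hY1 : (1 : ℝ) ≤ P.Y := by exact_mod_cast P.one_le_Y
  have hN : (0 : ℝ) ≤ N := Nat.cast_nonneg N
  have h1 : max 1 (n : ℝ) ≤ (((N : ℝ) + 1) * P.Y) ^ (N + 2) := by
    refine max_le ?_ (by exact_mod_cast hn)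
    exact one_le_pow₀ (by nlinarith)
  have h2 := Real.log_le_log (by positivity) h1
  rw [Real.log_pow, Real.log_mul (by positivity) hY.ne'] at h2
  have h3 : Real.log ((N : ℝ) + 1) ≤ N + 1 := by
    have := Real.log_le_sub_one_of_pos (by positivity : (0 : ℝ) < (N : ℝ) + 1)
    linarith
  refine h2.trans ?_
  push_cast
  have h4 : Real.log (P.Y : ℝ) = P.H := rfl
  rw [h4]
  exact mul_le_mul_of_nonneg_left (by linarith) (by positivity)

theorem APt.x_le' (P : APt S N m alt) (i : Fin (N + 0 + 1 + 1)) :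
    (P.x i).natAbs ≤ ((N + 1) * P.Y) ^ (N + 2) :=
  (P.x_le i).trans (Nat.le_self_pow (by omega) _)

theorem APt.z_bound (P : APt S N m alt) (i : Fin (N + 0 + 1 + 1) ⊕ Unit) :
    Real.log (max 1 |(P.z i : ℝ)|) ≤ (N + 2) * ((N + 1) + P.H) := by
  have h4 : |(P.z i : ℝ)| = (((P.z i).natAbs : ℕ) : ℝ) := by
    rw [Nat.cast_natAbs, Int.cast_abs]
  rw [h4]
  refine log_bound P ?_
  rcases i with i | i
  · exact P.x_le' i
  · exact P.Z_le.trans P.prod_le

theorem Ld.prod {L : ℕ → ℝ} (hL : Tendsto L atTop atTop) (hLnn : ∀ t, 0 ≤ L t) {ι : Type}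
    (s : Finset ι) {x : ι → ℕ → ℚ} (hx : ∀ i, Ld S L (x i)) : Ld S L fun t => ∏ i ∈ s, x i t := by
  classical
  induction s using Finset.induction_on with
  | empty =>
    refine (Ld.slow (S := S) hLnn (SlowQ.const hL 1)).congr fun t => ?_
    rw [Finset.prod_empty]
  | insert a s ha ih =>
    refine ((hx a).mul hLnn ih).congr fun t => ?_
    rw [Finset.prod_insert ha]

/-- **There are no bad sequences.** -/
theorem ad_seq (hS : ∀ p ∈ S, p.Prime) (N m : ℕ) (alt : Prop) (ε : ℝ) (hε : 0 < ε)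
    (b : Fin (N + 0 + 1 + 1) ⊕ Unit → ℕ) (hb : ∀ i, 2 ≤ b i) (hbS : ∀ i, (b i).primeFactors ⊆ S)
    (P : ℕ → APt S N m alt) (hH1 : ∀ t, 1 ≤ (P t).H) (hHt : Tendsto (fun t => (P t).H) atTop atTop)
    (hsp : ∀ i, Spr (b i) (fun t => (P t).H) fun t => (P t).z i)
    (hgen : ∀ Φ, Good (noG N) Φ → ∀ᶠ t in atTop, aeval (fun i => ((P t).y i : ℚ)) Φ ≠ 0)
    (hbad : ∀ K : ℝ, ∀ᶠ t in atTop, (1 + ε) * Real.log (P t).ρ + K < (P t).H) : False := by
  classical
  obtain ⟨C, hC⟩ : ∃ C : ℝ, C = ((N : ℝ) + 2) * (N + 2) := ⟨_, rfl⟩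
  have hC0 : 0 ≤ C := by rw [hC]; positivity
  have hbnd : ∀ t, ((N : ℝ) + 2) * ((N + 1) + (P t).H) ≤ C * (P t).H := fun t => by
    have h1 := hH1 t
    have hN : (0 : ℝ) ≤ N := Nat.cast_nonneg N
    rw [hC, mul_assoc]
    refine mul_le_mul_of_nonneg_left ?_ (by positivity)
    nlinarith
  have hexp : ∀ t (n : ℕ), n ≤ ((N + 1) * (P t).Y) ^ (N + 2) →
      (n : ℝ) ≤ Real.exp (C * (P t).H) := fun t n hn => by
    have h1 := log_bound (P t) hn
    have h2 : (0 : ℝ) < max 1 (n : ℝ) := lt_max_of_lt_left one_pos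
    calc (n : ℝ) ≤ max 1 (n : ℝ) := le_max_right _ _
      _ = Real.exp (Real.log (max 1 (n : ℝ))) := (Real.exp_log h2).symm
      _ ≤ _ := Real.exp_le_exp.2 (h1.trans (hbnd t))
  have habs : ∀ z : ℤ, |(z : ℝ)| = ((z.natAbs : ℕ) : ℝ) := fun z => by
    rw [Nat.cast_natAbs, Int.cast_abs]
  -- dominant terms
  obtain ⟨ψ, hψ, hld⟩ := ld_ft (S := S) (L := fun t => (P t).H) hHt (fun t => (P t).H_nonneg) b
    hb hbS (fun i t => (P t).z i) hsp C hC0 (fun i t => by
      rw [habs]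
      apply hexp
      rcases i with i | i
      · exact (P t).x_le' i
      · exact (P t).Z_le.trans (P t).prod_le)
  have hψt := hψ.tendsto_atTop
  obtain ⟨L, hL⟩ : ∃ L : ℕ → ℝ, L = (fun t => (P t).H) ∘ ψ := ⟨_, rfl⟩
  rw [← hL] at hld
  have hLt : Tendsto L atTop atTop := by rw [hL]; exact hHt.comp hψt
  have hLnn : ∀ t, 0 ≤ L t := fun t => by rw [hL]; exact (P _).H_nonneg
  have hLe : ∀ t, L t = (P (ψ t)).H := fun t => by rw [hL]; rfl
  have Lx : ∀ i, Ld S L fun t => ((P (ψ t)).x i : ℚ) := fun i => hld (Sum.inl i)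
  have LZ : Ld S L fun t => ((P (ψ t)).Z : ℚ) := hld (Sum.inr ())
  have hle : ∀ t (n : ℕ), n ≤ ((N + 1) * (P (ψ t)).Y) ^ (N + 2) → (n : ℝ) ≤ Real.exp (C * L t) :=
    fun t n hn => by
      rw [hLe]
      exact hexp _ n hn
  have Lprod : Ld S L fun t => ((∏ i, (P (ψ t)).x i).natAbs : ℚ) := by
    refine Ld.natAbs hLt hLnn (x := fun t => ∏ i, (P (ψ t)).x i) ?_
    refine (Ld.prod hLt hLnn Finset.univ Lx).congr fun t => ?_
    push_cast
    rfl
  have Lρ : Ld S L fun t => ((P (ψ t)).ρ : ℚ) := by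
    have h0 : ∀ t, alt ∧ (P t).Z = (P t).ρ ∨
        ¬ alt ∧ (P t).Z * (P t).ρ = prt S (∏ i, (P t).x i).natAbs := fun t => (P t).hZ
    by_cases ha : alt
    · refine LZ.congr fun t => ?_
      rcases h0 (ψ t) with ⟨-, h1⟩ | ⟨h1, -⟩
      · rw [h1, Int.cast_natCast]
      · exact absurd ha h1
    · have h3 : Ld S L fun t => (prt S (∏ i, (P (ψ t)).x i).natAbs : ℚ) := by
        refine (Lprod.div hLt hLnn (Ld.smooth hLt hLnn
          (w := fun t => spt S (∏ i, (P (ψ t)).x i).natAbs) (fun t => spt_smooth _) hC0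
          fun t => hle t _ ((spt_le (P _).prod_ne).trans (P _).prod_le))).congr fun t => ?_
        have h2 := spt_mul_prt (S := S) (P (ψ t)).prod_ne
        have h3 : ((spt S (∏ i, (P (ψ t)).x i).natAbs : ℕ) : ℚ) ≠ 0 :=
          Nat.cast_ne_zero.2 (spt_pos _).ne'
        rw [eq_div_iff h3, mul_comm]
        exact_mod_cast h2.symm
      refine (h3.div hLt hLnn LZ).congr fun t => ?_
      have h4 : ((P (ψ t)).Z : ℚ) ≠ 0 := by exact_mod_cast (P (ψ t)).Z_ne
      rw [eq_div_iff h4, mul_comm]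
      rcases h0 (ψ t) with ⟨h1, -⟩ | ⟨-, h1⟩
      · exact absurd h1 ha
      · exact_mod_cast h1
  have hFx : ∀ (t : ℕ) (i : Fin (N + 0 + 1 + 1)), aeval (P t).y (FF N i) = (P t).x i := by
    intro t i
    refine Fin.lastCases ?_ (fun i => ?_) i
    · rw [FF_last, (P t).last_eq, map_neg, map_sum]
      congr 1
      refine Finset.sum_congr rfl fun j _ => ?_
      rw [aeval_X]
    · rw [FF_cast, aeval_X]
      rfl
  have hρle : ∀ t, (P t).ρ ≤ ((N + 1) * (P t).Y) ^ (N + 2) := fun t =>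
    ((Nat.le_of_dvd (prt_pos _) (rd_dvd_prt _)).trans (prt_le (P t).prod_ne)).trans (P t).prod_le
  obtain ⟨ε0, hε0⟩ : ∃ ε0 : ℝ, ε0 = ε / (1 + ε) := ⟨_, rfl⟩
  have hε00 : 0 < ε0 := by rw [hε0]; positivity
  have hε0e : (1 - ε0) * (1 + ε) = 1 := by
    rw [hε0]
    field_simp
    ring
  have h1e : 0 < 1 - ε0 := by
    have h1 : ε0 < 1 := by
      rw [hε0, div_lt_one (by linarith)]
      linarith
    linarith
  refine vo_seq hS N 0 0 (N + 0 + 1 + 1) (noG N) (fun k => k.elim0) (fun k => k.elim0) (FF N)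
    (fun _ => 1) FF_hom dimN smooth m ε0 hε00 (L := L) (fun t => (P (ψ t)).y)
    (fun t => (P (ψ t)).ρ) (fun t => (P (ψ t)).Y)
    (fun t => spt S (∏ i, (P (ψ t)).x i).natAbs) (fun _ k => k.elim0) hLe hLt
    (fun t i => by rw [hFx]; exact (P _).hx i) (fun t => rd_pos _) (fun t i => (P _).y_le i)
    (fun t => (P _).exists_Y) (fun t => (P _).one_le_Y) (fun t => spt_smooth _) (fun t i => ?_)
    C hC0 (fun i t => ?_) (fun t => ?_) (fun i => Lx _) (fun i => ?_) Lρ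
    (fun Φ k hΦ hz => hψt.eventually (hgen Φ ⟨⟨k, hΦ⟩, hz⟩)) (fun _ => 1) (fun t => basis _)
    (fun K => ?_)
  · rw [hFx]
    refine dvd_rd (P _).prod_ne ?_ fun p hp hpS => (P _).hm p hp hpS i
    exact Int.natAbs_dvd_natAbs.2 (Finset.dvd_prod_of_mem _ (Finset.mem_univ i))
  · rw [hFx, habs]
    exact hle t _ ((P _).x_le' i)
  · have h1 := hle t _ (hρle (ψ t))
    have h2 : (0 : ℝ) < ((P (ψ t)).ρ : ℝ) := by exact_mod_cast rd_pos (S := S) _
    have h3 := Real.log_le_log h2 h1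
    rwa [Real.log_exp] at h3
  · refine (Lx i).congr fun t => ?_
    rw [hFx]
  · filter_upwards [hψt.eventually (hbad (K * (1 + ε)))] with t ht
    rw [canonical]
    have hprim : ∀ p : ℕ, p.Prime → ∃ i, ¬ (p : ℤ) ∣ (P (ψ t)).y i := by
      intro p hp
      by_contra hcon
      push Not at hcon
      obtain ⟨i, hi⟩ := (P (ψ t)).hcop p hp
      apply hi
      refine Fin.lastCases ?_ (fun i => hcon i) i
      rw [(P (ψ t)).last_eq]
      exact (Finset.dvd_sum fun i _ => hcon i).neg_right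
    obtain ⟨i0, hi0⟩ := (P (ψ t)).exists_Y
    have h1 := log_le_height (P (ψ t)).y hprim i0 ((P (ψ t)).hx _)
    rw [habs, hi0] at h1
    have h2 : Real.log ((P (ψ t)).Y : ℝ) = L t := (hLe t).symm
    rw [h2] at h1
    rw [← hLe t] at ht
    rw [Finset.sum_const, Finset.card_univ, Fintype.card_fin]
    have h3 : (((N + 0 + 1 + 1 : ℕ) • ((1 : ℕ) : ℝ)) : ℝ) = N + 2 := by
      rw [nsmul_eq_mul]
      push_cast
      ring
    rw [h3]
    have h4 : (1 - ε0) * ((1 + ε) * Real.log ((P (ψ t)).ρ : ℝ) + K * (1 + ε)) < (1 - ε0) * L t :=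
      mul_lt_mul_of_pos_left ht h1e
    have h5 : (1 - ε0) * ((1 + ε) * Real.log ((P (ψ t)).ρ : ℝ) + K * (1 + ε)) =
        Real.log ((P (ψ t)).ρ : ℝ) + K := by
      linear_combination (Real.log ((P (ψ t)).ρ : ℝ) + K) * hε0e
    rw [h5] at h4
    linarith

/-- **The uniform bound.** -/
theorem main (hS : ∀ p ∈ S, p.Prime) (N m z0 : ℕ) (alt : Prop) (ε : ℝ) (hε : 0 < ε)
    (b : Fin (N + 0 + 1 + 1) ⊕ Unit → ℕ) (hb : ∀ i, 2 ≤ b i)
    (hbS : ∀ i, (b i).primeFactors ⊆ S) :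
    ∃ (Φ : MvPolynomial (Fin (N + 0 + 1)) ℚ) (C : ℝ), Good (noG N) Φ ∧ ∀ P : APt S N m alt,
      (∀ i, LZDigits (b i) z0 (P.z i) ∨ Rep (b i) z0 P.M (P.z i)) →
      aeval (fun i => (P.y i : ℚ)) Φ ≠ 0 →
      P.H ≤ (1 + ε) * Real.log P.ρ + C * (1 + Real.log P.M) := by
  classical
  obtain ⟨E, hE1, hE2, hE3⟩ := exists_family (G := noG N) irr ⟨fun _ => 0, fun k => k.elim0⟩
  obtain ⟨C, hC⟩ := transfer_seq (X := APt S N m alt) b hb z0
    (fun C P => aeval (fun i => (P.y i : ℚ)) (E ⌊C⌋₊) ≠ 0 →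
      P.H ≤ (1 + ε) * Real.log P.ρ + C * (1 + Real.log P.M))
    (by
      intro C C' P hCC h1 h2
      have h3 := h1 (fun h0 => h2 ?_)
      · refine h3.trans (add_le_add le_rfl (mul_le_mul_of_nonneg_right hCC ?_))
        have := Real.log_nonneg P.hM
        linarith
      · obtain ⟨Q, hQ⟩ := hE2 _ _ (Nat.floor_le_floor hCC)
        rw [hQ, map_mul, h0, zero_mul])
    (fun P => P.H) (fun P => P.H_nonneg) (fun P => P.M) (fun P => P.hM) (fun P => P.z)
    ((N + 2) * (N + 1)) (by positivity) (fun P i => by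
      refine (P.z_bound i).trans ?_
      rw [mul_assoc]
      refine mul_le_mul_of_nonneg_left ?_ (by positivity)
      have := P.H_nonneg
      have hN : (0 : ℝ) ≤ N := Nat.cast_nonneg N
      nlinarith)
    (by
      intro T K P B hlt hB hBl hrep
      have hlM : ∀ n, 0 ≤ Real.log (P n).M := fun n => Real.log_nonneg (P n).hM
      have hlρ : ∀ n, 0 ≤ Real.log (P n).ρ := fun n => Real.log_natCast_nonneg _
      push Not at hlt
      have hbad : ∀ n : ℕ, (n : ℝ) * (1 + Real.log (P n).M) < (P n).H := fun n => by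
        have h1 := (hlt n).2
        have h2 := mul_nonneg (by linarith : 0 ≤ 1 + ε) (hlρ n)
        linarith
      have hsub : Sub (fun n => (P n).H) B :=
        sub_of_bad K (fun n => (P n).H_nonneg) hlM hbad hB hBl
      have hn0 : ∀ n : ℕ, (n : ℝ) < (P n).H := fun n => by
        refine lt_of_le_of_lt ?_ (hbad n)
        have := hlM n
        have h0 : (0 : ℝ) ≤ n := Nat.cast_nonneg n
        nlinarith
      have hHt : Tendsto (fun n => (P n).H) atTop atTop :=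
        tendsto_atTop_mono (fun n => (hn0 n).le) tendsto_natCast_atTop_atTop
      have hψ : StrictMono fun t : ℕ => t + 1 := fun a b hab => by simpa using hab
      have hψt := hψ.tendsto_atTop
      refine ad_seq hS N m alt ε hε b hb hbS (fun t => P (t + 1)) (fun t => ?_) (hHt.comp hψt)
        (fun i => ?_) (fun Φ hΦ => ?_) (fun K => ?_)
      · have h1 := hn0 (t + 1)
        push_cast at h1
        have h0 : (0 : ℝ) ≤ t := Nat.cast_nonneg t
        linarith
      · exact (Rep.spr (fun n => hrep n i) hsub).comp hψt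
      · obtain ⟨n0, hn0'⟩ := hE3 Φ hΦ
        filter_upwards [eventually_ge_atTop n0] with t ht h0
        have h1 := (hlt (t + 1)).1
        rw [Nat.floor_natCast] at h1
        apply h1
        obtain ⟨Q, hQ⟩ := hn0'.trans (hE2 n0 (t + 1) (by omega))
        rw [hQ, map_mul, h0, zero_mul]
      · filter_upwards [tendsto_natCast_atTop_atTop.eventually_ge_atTop (α := ℕ) K] with t ht
        have h1 := (hlt (t + 1)).2
        have h2 := hlM (t + 1)
        have h3 : (0 : ℝ) ≤ t := Nat.cast_nonneg t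
        push_cast at h1
        have h4 : (t : ℝ) ≤ ((t : ℝ) + 1) * (1 + Real.log (P (t + 1)).M) := by nlinarith
        linarith)
  exact ⟨E ⌊C⌋₊, C, hE1 _, fun P h1 h2 => hC P h1 h2⟩

end Pool.Agent.H455.AD
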