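import Mathlib
import Pool.Agent.H455.CB3

set_option autoImplicit false

/-!
# Integral points whose abscissa has compressible digits: the uniform bound
-/

open Finset Filter Topology

namespace Pool.Agent.H455.CB

open Pool.Agent.TH419.WI Pool.Agent.TH419.HX Pool.Agent.H455.VC Pool.Agent.H455.RT
open Pool.Agent.R343.LT
open Pool.Agent.Results.MP_821da1_nt.LaurentDichotomy (UnitOf NoLaurentCurve Qbar)

/-- a point on a curve -/
structure Pnt (d H : ℕ) where
  F : MvPolynomial (Fin 2) ℤ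
  M : ℝ
  x : ℤ
  y : ℤ
  hF : F.totalDegree ≤ d
  hno : NoLaurentCurve (MvPolynomial.map (algebraMap ℤ Qbar) F)
  hM : 1 ≤ M
  hcoef : ∀ m, |((F.coeff m : ℤ) : ℝ)| ≤ M
  hU : Unr F H
  hxy : MvPolynomial.eval ![x, y] F = 0

/-- the size of a point -/
noncomputable def Pnt.size {d H : ℕ} (P : Pnt d H) : ℝ :=
  Real.log (max (max |(P.x : ℝ)| |(P.y : ℝ)|) 1)

theorem size_nonneg {d H : ℕ} (P : Pnt d H) : 0 ≤ P.size := Real.log_nonneg (le_max_right _ _)

/-- the uniform bound for sums of few powers -/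
theorem unif (d H T b : ℕ) (hb : 2 ≤ b) (K : ℝ) : ∃ δ : ℝ, 0 < δ ∧ ∃ C : ℝ, ∀ (P : Pnt d H) (D : ℕ)
    (B : ℝ) (l : Fin T → ℕ) (v : Fin T → ℤ), 0 < D → 1 ≤ B →
    Real.log D ≤ K + δ * (1 + P.size) + Real.log P.M →
    Real.log B ≤ K + δ * (1 + P.size) + Real.log P.M → (∀ j, |(v j : ℝ)| ≤ B) →
    (D : ℤ) * P.x = ∑ j, v j * (b : ℤ) ^ l j → P.size ≤ C * (1 + Real.log P.M) := by
  by_contra hcon
  push Not at hcon
  choose P D B l v hD hB hDl hBl hv hlv hlt using fun n : ℕ =>
    hcon (1 / ((n : ℝ) + 1)) (by positivity) (n : ℝ)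
  have hlM : ∀ n, 0 ≤ Real.log (P n).M := fun n => Real.log_nonneg (P n).hM
  have hΛt : Tendsto (fun n => (P n).size) atTop atTop := by
    refine tendsto_atTop_mono (fun n => ?_) tendsto_natCast_atTop_atTop
    refine le_trans ?_ (hlt n).le
    have := hlM n
    have h0 : (0 : ℝ) ≤ n := Nat.cast_nonneg n
    nlinarith
  -- small logarithms
  have hsm : ∀ ε : ℝ, 0 < ε → ∀ᶠ n in atTop, Real.log (P n).M ≤ ε * (P n).size := by
    intro ε hε
    obtain ⟨k, hk⟩ := exists_nat_gt (1 / ε)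
    filter_upwards [eventually_ge_atTop k] with n hn
    have h1 : (k : ℝ) ≤ n := by exact_mod_cast hn
    have h2 : 1 / ε < n := hk.trans_le h1
    rw [div_lt_iff₀ hε] at h2
    have h3 := hlt n
    have h4 := hlM n
    have h5 : 0 ≤ (P n).size := size_nonneg _
    have h6 : Real.log (P n).M ≤ (n * ε) * Real.log (P n).M := by nlinarith
    have h7 : ε * ((n : ℝ) * (1 + Real.log (P n).M)) ≤ ε * (P n).size :=
      mul_le_mul_of_nonneg_left h3.le hε.le
    have h8 : 0 ≤ ε * (n : ℝ) := by positivity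
    nlinarith
  have hsm' : ∀ f : ℕ → ℝ, (∀ n, 1 ≤ f n) →
      (∀ n, Real.log (f n) ≤ K + 1 / ((n : ℝ) + 1) * (1 + (P n).size) + Real.log (P n).M) →
      Sub (fun n => (P n).size) f := by
    intro f hf1 hf ε hε
    obtain ⟨k, hk⟩ := exists_nat_gt (4 / ε)
    filter_upwards [eventually_ge_atTop k, hsm (ε / 4) (by positivity),
      (hΛt.const_mul_atTop (by positivity : 0 < ε / 4)).eventually_ge_atTop K,
      hΛt.eventually_ge_atTop 1] with n h1 h2 h3 h4
    have h5 : (k : ℝ) ≤ n := by exact_mod_cast h1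
    have h6 : 1 / ((n : ℝ) + 1) ≤ ε / 4 * 1 := by
      rw [mul_one, div_le_iff₀ (by positivity)]
      have h7 : 4 / ε < n := hk.trans_le h5
      rw [div_lt_iff₀ hε] at h7
      nlinarith
    have h8 := hf n
    have h9 : 1 / ((n : ℝ) + 1) * (1 + (P n).size) ≤ ε / 8 * (1 + (P n).size) + ε / 8 * (1 + (P n).size) := by
      rw [← add_mul]
      apply mul_le_mul_of_nonneg_right _ (by linarith)
      linarith
    rw [abs_of_nonneg (by linarith [hf1 n])]
    rw [← Real.exp_log (by linarith [hf1 n] : 0 < f n)]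
    apply Real.exp_le_exp.2
    have h10 : ε / 4 * (1 + (P n).size) ≤ ε / 4 * (2 * (P n).size) :=
      mul_le_mul_of_nonneg_left (by linarith) (by positivity)
    nlinarith
  refine seq_false (d := d) (H := H) hb (fun n => (P n).F) (fun n => (P n).M) (fun n => (P n).x)
    (fun n => (P n).y) D (fun n => (P n).hF) (fun n => (P n).hno) (fun n => (P n).hM)
    (fun n => (P n).hcoef) (fun n => (P n).hU) (fun n => (P n).hxy) (fun n => (P n).size)
    (fun n => rfl) hΛt ?_ hD ?_ B hB ?_ l v hv hlv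
  · intro ε hε
    filter_upwards [hsm ε hε] with n h1
    have h2 := (P n).hM
    show |(P n).M| ≤ Real.exp (ε * (P n).size)
    rw [abs_of_nonneg (by linarith), ← Real.exp_log (by linarith : 0 < (P n).M)]
    exact Real.exp_le_exp.2 h1
  · exact hsm' _ (fun n => by exact_mod_cast hD n) hDl
  · exact hsm' _ hB hBl

/-- **The uniform bound for points with compressible abscissa.** -/
theorem main (d z H b : ℕ) (hb : 2 ≤ b) : ∃ C : ℝ, ∀ P : Pnt d H,
    (LZDigits b z P.x ∨ ∃ (k : ℕ) (l : Fin z → ℕ) (v : Fin z → ℤ), 0 < k ∧ (k : ℝ) ≤ P.M ∧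
      (∀ j, |(v j : ℝ)| ≤ P.M) ∧ (k : ℤ) * P.x = ∑ j, v j * (b : ℤ) ^ l j) →
    P.size ≤ C * (1 + Real.log P.M) := by
  have hlb : 0 ≤ Real.log b := Real.log_nonneg (by exact_mod_cast (by omega : 1 ≤ b))
  obtain ⟨C1, hC1⟩ := transferQ (ι := Unit) (X := Pnt d H) (fun _ => b) (fun _ => hb) z (b : ℤ)
    (Int.natCast_nonneg b) (1 + Real.log b) (by linarith)
    (fun C P => P.size ≤ C * (1 + Real.log P.M))
    (by
      intro C C' P hCC h
      refine h.trans (mul_le_mul_of_nonneg_right hCC ?_)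
      have := Real.log_nonneg P.hM
      linarith) (fun P => P.size) size_nonneg (fun P _ => P.x)
    (by
      intro T
      obtain ⟨δ, hδ, C, hC⟩ := unif d H (T + 1) b hb (Real.log (((T : ℝ) + 1) * b))
      refine ⟨δ, hδ, C, fun P D hD hDl hsp => ?_⟩
      obtain ⟨l, v, hv, hlv⟩ := spq_nat hb (Int.natCast_nonneg b) (hsp ())
      have hlM : 0 ≤ Real.log P.M := Real.log_nonneg P.hM
      have hs := size_nonneg P
      have hTb : (1 : ℝ) ≤ ((T : ℝ) + 1) * b := by
        have h1 : (1 : ℝ) ≤ b := by exact_mod_cast (by omega : 1 ≤ b)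
        have h2 : (0 : ℝ) ≤ T := Nat.cast_nonneg T
        nlinarith
      have hlTb : 0 ≤ Real.log (((T : ℝ) + 1) * b) := Real.log_nonneg hTb
      refine hC P (D ()) (((T : ℝ) + 1) * b) l v (hD ()) hTb ?_ ?_ (fun j => ?_) hlv
      · have := hDl ()
        linarith
      · have : 0 ≤ δ * (1 + P.size) := by positivity
        linarith
      · exact_mod_cast hv j)
  obtain ⟨δ, hδ, C2, hC2⟩ := unif d H z b hb 0
  refine ⟨max C1 C2, fun P h => ?_⟩
  have hlM : 0 ≤ Real.log P.M := Real.log_nonneg P.hM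
  have hs := size_nonneg P
  rcases h with h | ⟨k, l, v, hk, hkM, hv, hlv⟩
  · refine (hC1 P fun _ => h.toWd hb ?_).trans (mul_le_mul_of_nonneg_right (le_max_left _ _)
      (by linarith))
    refine (places_le hb P.x).trans ?_
    have h1 : Real.log (max 1 |(P.x : ℝ)|) ≤ P.size := by
      refine Real.log_le_log (by positivity) ?_
      rw [max_comm]
      exact max_le_max (le_max_left _ _) le_rfl
    nlinarith
  · refine (hC2 P k P.M l v hk P.hM ?_ ?_ hv hlv).trans (mul_le_mul_of_nonneg_right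
      (le_max_right _ _) (by linarith))
    · have h1 : Real.log k ≤ Real.log P.M := Real.log_le_log (by exact_mod_cast hk) hkM
      have : 0 ≤ δ * (1 + P.size) := by positivity
      linarith
    · have : 0 ≤ δ * (1 + P.size) := by positivity
      linarith

end Pool.Agent.H455.CB
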