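import Mathlib
import Pool.Agent.H505.VL.Defs

/-!
# Curves over a number field with a nonconstant function, heights and proximity functions

`k` is a number field, `X` a smooth projective curve over `k` and `t` a nonconstant rational function
on `X`. The ring `A` of the rational functions which are regular outside the poles of `t` is a
Dedekind domain, which is a finite torsion free `k[t]`-module; the points of `X` over `k^alg` which
are not poles of `t` are the homomorphisms `x : A → k^alg` of `k`-algebras.

`D` is the reduced divisor of all zeros and poles of `t`. By the formula of Riemann and Hurwitz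
`K_X + D = R + div (dt / t)` where `R` is the ramification divisor of `t` outside `D`. Outside the
zeros of `t` it is defined by the different `𝔡` of `A` over `k[t]`.

A finite family `f` of rational functions `a / t ^ j`, given by pairs `(a, j)`, defines the effective
divisor `E(f) = ∑_P max (0, min_i ord_P f_i) P`, with the Weil functions
`log⁺ (1 / max_i |f_i(x)|_w)`.
-/

set_option autoImplicit false

namespace Pool.Agent.H455.GC

open NumberField Real Polynomial Module
open Pool.Agent.H505.VL

/-- `log⁺ (1 / max_i |u_i|_w)` for a finite family `u` and an absolute value `w`. -/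
noncomputable def loc {L : Type} (w : L → ℝ) {ι : Type} (u : ι → L) : ℝ :=
  log⁺ (⨆ i, w (u i))⁻¹

section
variable (k : Type) [Field k] [NumberField k] {A : Type} [CommRing A] [Algebra k A]

/-- The residue field `k(x)` of the point `x`. -/
noncomputable def resK (x : A →ₐ[k] AlgebraicClosure k) :
    IntermediateField k (AlgebraicClosure k) :=
  IntermediateField.adjoin k (Set.range x)

omit [NumberField k] in
theorem mem_resK (x : A →ₐ[k] AlgebraicClosure k) (a : A) : x a ∈ resK k x :=
  IntermediateField.subset_adjoin k _ ⟨a, rfl⟩

variable [Algebra k[X] A] [IsScalarTower k k[X] A]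

instance resK_finite [Module.Finite k[X] A] (x : A →ₐ[k] AlgebraicClosure k) :
    FiniteDimensional k (resK k x) := by
  have : Algebra.FiniteType k A := Algebra.FiniteType.trans (S := k[X]) inferInstance inferInstance
  obtain ⟨G, hG⟩ := (inferInstance : Algebra.FiniteType k A).out
  have h1 : resK k x = IntermediateField.adjoin k (x '' (G : Set A)) := by
    apply le_antisymm
    · unfold resK
      rw [IntermediateField.adjoin_le_iff]
      rintro _ ⟨a, rfl⟩
      have ha : a ∈ Algebra.adjoin k (G : Set A) := by rw [hG]; trivial
      have h2 : x a ∈ (Algebra.adjoin k (G : Set A)).map x := ⟨a, ha, rfl⟩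
      rw [AlgHom.map_adjoin] at h2
      exact IntermediateField.algebra_adjoin_le_adjoin k _ h2
    · rw [IntermediateField.adjoin_le_iff]
      rintro _ ⟨a, _, rfl⟩
      exact mem_resK k x a
  rw [h1]
  have : Finite (x '' (G : Set A)) := (G.finite_toSet.image x)
  refine IntermediateField.finiteDimensional_adjoin ?_
  intro z _
  exact Algebra.IsIntegral.isIntegral z

instance resK_numberField [Module.Finite k[X] A] (x : A →ₐ[k] AlgebraicClosure k) :
    NumberField (resK k x) :=
  NumberField.of_module_finite k _

variable (A) in
/-- the function `t` -/
noncomputable def tt : A := algebraMap k[X] A X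

/-- The value at the point `x` of the function `a / t ^ j`, `f = (a, j)`. -/
noncomputable def val (x : A →ₐ[k] AlgebraicClosure k) (f : A × ℕ) : resK k x :=
  (⟨x f.1, mem_resK k x _⟩ : resK k x) / (⟨x (tt k A), mem_resK k x _⟩ : resK k x) ^ f.2

variable [Module.Finite k[X] A]

/-- The height `h_A(x)` for the ample sheaf `A = t^* O(1)`, relative to `k`. -/
noncomputable def heightA (x : A →ₐ[k] AlgebraicClosure k) : ℝ :=
  Height.logHeight₁ (val k x (tt k A, 0)) / finrank k (resK k x)

/-- The logarithmic discriminant `d(x) = log |Disc k(x)| / [k(x) : k]`. -/
noncomputable def logDisc (x : A →ₐ[k] AlgebraicClosure k) : ℝ :=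
  log |(discr (resK k x) : ℝ)| / finrank k (resK k x)

/-- The height of the point `x` for the divisor `E(f)`, relative to `k`: the sum of the Weil
functions over all places of `k(x)`. -/
noncomputable def height {ι : Type} (f : ι → A × ℕ) (x : A →ₐ[k] AlgebraicClosure k) : ℝ :=
  ((∑ w : InfinitePlace (resK k x), (w.mult : ℝ) * loc w (fun i => val k x (f i))) +
    ∑ᶠ w : FinitePlace (resK k x), loc w (fun i => val k x (f i))) / finrank k (resK k x)

/-- The proximity function `m_S(E(f), x)`, relative to `k`: the sum of the Weil functions over all
infinite places of `k(x)` and all places above the primes in `T`. -/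
noncomputable def mS (T : Finset ℕ) {ι : Type} (f : ι → A × ℕ)
    (x : A →ₐ[k] AlgebraicClosure k) : ℝ :=
  ((∑ w : InfinitePlace (resK k x), (w.mult : ℝ) * loc w (fun i => val k x (f i))) +
    ∑ w ∈ placesOver (resK k x) T, loc w (fun i => val k x (f i))) / finrank k (resK k x)

end

/-- the sum of `log⁺ (1 / max_i |u_i|_w)` over the finite places which do not lie above `T` -/
noncomputable def away (L : Type) [Field L] [NumberField L] (T : Finset ℕ) {ι : Type} (u : ι → L) :
    ℝ :=
  ∑ᶠ (w : FinitePlace L) (_ : w ∉ placesOver L T), loc w u

end Pool.Agent.H455.GC
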