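import Mathlib
import Pool.Agent.H455.GC

/-!
# Interfaces: the logarithmic error term on every curve, `D` the zeros and poles of a function `t`

Notation: `k` number field, `A` a Dedekind domain, a finite torsion free `k[X]`-algebra,
`tt k A = algebraMap k[X] A X` the function `t`, `n = finrank k[X] A`, `𝔡 = differentIdeal k[X] A`.
-/

set_option autoImplicit false

namespace Pool.Agent.H455.GC

open NumberField Real Polynomial Module
open Pool.Agent.H505.VL

/-- BAS: a basis of `A` over `k[X]` and its dual basis with respect to the trace.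
PROOF. `k[X]` is a principal ideal domain, so `A` is free: let `ω` be a basis. With
`K = FractionRing k[X]`, `M = FractionRing A` (separable over `K`, characteristic `0`) `ω` is a basis
of `M` over `K` (`Basis.localizationLocalization` or `IsLocalization` versions); let `ω'` be its dual
basis for the trace form (`LinearMap.BilinForm.dualBasis`, `traceForm_nondegenerate`), so
`Tr(ω_i ω'_j) = δ_ij` and `z = ∑ Tr(z ω_i) ω'_i` for all `z ∈ M`. `Tr(ω'_j a) ∈ k[X]` for all
`a ∈ A = ⊕ k[X] ω_i`, that is `ω'_j ∈ Submodule.traceDual k[X] K 1`. By definition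
(`coeSubmodule_differentIdeal : coeSubmodule L (differentIdeal A B) = 1 / traceDual A K 1`) for
`g ∈ 𝔡` the elements `g ω'_j` are in (the image of) `A`: `η_j`. For `a ∈ A`
`a g = ∑ Tr(a ω_i) ω'_i g = ∑ Tr(a ω_i) η_i`, and `Tr_{M/K}` of an element of `A` is the image of
`Algebra.trace k[X] A` (`Algebra.trace_localization`, `Algebra.algebraMap_intTrace_fractionRing`,
`Algebra.intTrace_eq_trace`). -/
def S_BAS : Prop :=
  ∀ (k : Type) [Field k] [NumberField k] (A : Type) [CommRing A] [IsDedekindDomain A]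
    [Algebra k A] [Algebra k[X] A] [IsScalarTower k k[X] A] [Module.Finite k[X] A]
    [Module.IsTorsionFree k[X] A],
    ∃ (n : ℕ) (ω : Basis (Fin n) k[X] A), ∀ g ∈ differentIdeal k[X] A, ∃ η : Fin n → A,
      ∀ a : A, a * g = ∑ i, algebraMap k[X] A (Algebra.trace k[X] A (a * ω i)) * η i

/-- RED: finite reduced algebras over an algebraically closed field.
PROOF. `B` is Artinian and reduced, so `B ≃ ∏_m B ⧸ m` over its (finitely many) maximal ideals
(`IsArtinianRing.equivPi` or the Chinese remainder theorem), and every `B ⧸ m` is a finite field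
extension of the algebraically closed field `Ω`, so `Ω`. So `B ≃ (Q → Ω)` as an `Ω`-algebra, the
homomorphisms `B → Ω` are the coordinate functions, and trace and norm of `b` are the trace and the
determinant of a diagonal matrix (in the basis `Pi.basisFun`). -/
def S_RED : Prop :=
  ∀ (Ω : Type) [Field Ω] [IsAlgClosed Ω] (B : Type) [CommRing B] [Algebra Ω B]
    [Module.Finite Ω B] [IsReduced B],
    ∃ Q : Finset (B →ₐ[Ω] Ω), (∀ φ, φ ∈ Q) ∧ Q.card = finrank Ω B ∧
      (∀ b : B, Algebra.trace Ω B b = ∑ φ ∈ Q, φ b) ∧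
      (∀ b : B, Algebra.norm Ω b = ∏ φ ∈ Q, φ b)

/-- PTS: the points above `s`, for all but finitely many `s`.
PROOF. (`S_RED` may be assumed.) `A` is free over `k[X]` with a basis `ω`; let
`E = Algebra.discr k[X] ω = det (Tr(ω_i ω_j))`. `E ≠ 0` as the fraction field of `A` is separable over
that of `k[X]` (`Algebra.discr_not_zero_of_basis` after localization, or
`Algebra.discr_localizationLocalization`). Let `Ω` be a `k[X]`-algebra by `X ↦ s`, and
`B = Ω ⊗_{k[X]} A`, with the basis `1 ⊗ ω_i`; `Algebra.trace Ω B (1 ⊗ a) = (Tr a)(s)`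
(`Algebra.trace_tensorProduct`/`Algebra.baseChange` lemmas, `LinearMap.trace_baseChange`,
`LinearMap.det_baseChange`), likewise for the norm. The matrix of the trace form of `B` in this basis
has determinant `E(s) ≠ 0`, so the trace form of `B` is nondegenerate; a nilpotent `b` has
`Tr(b c) = 0` for all `c`, so `b = 0`: `B` is reduced. Apply `S_RED` to `B`. The points `x : A → Ω`
with `x(t) = s` correspond to the homomorphisms `φ : B → Ω` by `x(a) = φ(1 ⊗ a)`. -/
def S_PTS : Prop :=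
  ∀ (k : Type) [Field k] [NumberField k] (A : Type) [CommRing A] [IsDedekindDomain A]
    [Algebra k A] [Algebra k[X] A] [IsScalarTower k k[X] A] [Module.Finite k[X] A]
    [Module.IsTorsionFree k[X] A],
    ∃ E : k[X], E ≠ 0 ∧ ∀ (Ω : Type) [Field Ω] [IsAlgClosed Ω] [Algebra k Ω] (s : Ω),
      aeval s E ≠ 0 → ∃ P : Finset (A →ₐ[k] Ω), (∀ x, x ∈ P ↔ x (tt k A) = s) ∧
        P.card = finrank k[X] A ∧
        (∀ a : A, aeval s (Algebra.trace k[X] A a) = ∑ x ∈ P, x a) ∧
        (∀ a : A, aeval s (Algebra.norm k[X] a) = ∏ x ∈ P, x a)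

/-- TRC: the trace recipe.
PROOF. (`S_BAS` and `S_PTS` may be assumed.) `E` from `S_PTS`, `n`, `ω` and `η` from `S_BAS`. Let
`Ω = AlgebraicClosure L`, `ι : L → Ω`, `x = ι ∘ y`, `P` the finite set of the points above
`ι(y(t)) = x(t)` (`aeval (x t) E = ι (aeval (y t) E) ≠ 0`). Apply `x` to
`a g = ∑ Tr(a ω_i) η_i`: `x(algebraMap k[X] A p) = aeval (x t) p`, so with
`c(x') = ∑_i x'(ω_i) x(η_i)` for `x' ∈ P` we have
`x(a) x(g) = ∑_i (∑_{x' ∈ P} x'(a) x'(ω_i)) x(η_i) = ∑_{x' ∈ P} c(x') x'(a)` for all `a ∈ A`.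
Distinct homomorphisms `A → Ω` are linearly independent (`linearIndependent_monoidHom`), so
`c(x) = x(g)` and `c(x') = 0` for `x' ∈ P`, `x' ≠ x`. For `γ ∈ L`, by
`trace_eq_sum_embeddings Ω : algebraMap K Ω (trace K L z) = ∑ σ : L →ₐ[K] Ω, σ z`,
`ι (∑_i Tr(γ y(ω_i)) y(η_i)) = ∑_σ σ(γ) ∑_i σ(y(ω_i)) x(η_i) = ∑_σ σ(γ) c(σ ∘ y)`; here `σ ∘ y ∈ P`
because `y(t) ∈ K`, and `σ ∘ y = x` only for `σ = ι` as `L = K(y(A))`. So this is `ι(γ) x(g)`. -/
def S_TRC : Prop :=
  ∀ (k : Type) [Field k] [NumberField k] (A : Type) [CommRing A] [IsDedekindDomain A]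
    [Algebra k A] [Algebra k[X] A] [IsScalarTower k k[X] A] [Module.Finite k[X] A]
    [Module.IsTorsionFree k[X] A],
    ∃ E : k[X], E ≠ 0 ∧ ∃ (n : ℕ) (ω : Fin n → A), ∀ g ∈ differentIdeal k[X] A,
      ∃ η : Fin n → A, ∀ (K L : Type) [Field K] [NumberField K] [Field L] [NumberField L]
        [Algebra k K] [Algebra k L] [Algebra K L] [IsScalarTower k K L] (y : A →ₐ[k] L) (s : K),
        y (tt k A) = algebraMap K L s → aeval (y (tt k A)) E ≠ 0 →
        IntermediateField.adjoin K (Set.range y) = ⊤ → ∀ γ : L,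
          y g * γ = ∑ i, algebraMap K L (Algebra.trace K L (γ * y (ω i))) * y (η i)

/-- DIF: a criterion for membership in the different.
PROOF. `coeSubmodule_differentIdeal : coeSubmodule L (differentIdeal A B) = 1 / traceDual A K 1`:
for `γ` in the trace dual of `𝓞 L`, all `Tr(γ u_i)` are in `𝓞 K`, so `δ γ ∈ 𝓞 L`. -/
def S_DIF : Prop :=
  ∀ (K L : Type) [Field K] [NumberField K] [Field L] [NumberField L] [Algebra K L] (n : ℕ)
    (u v : Fin n → 𝓞 L) (δ : 𝓞 L),
    (∀ γ : L, (δ : L) * γ =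
      ∑ i, algebraMap K L (Algebra.trace K L (γ * (u i : L))) * (v i : L)) →
    δ ∈ differentIdeal (𝓞 K) (𝓞 L)

/-- INTG: integrality of the values of `a ∈ A`.
PROOF. `a` is integral over `k[X]` (`Module.Finite`): `a ^ m + c_1(t) a ^ (m-1) + ⋯ + c_m(t) = 0` with
`c_i ∈ k[X]`; let `d` be the maximal degree of the `c_i`. Choose a natural number `N₀ > 0` such that
`N₀ t₀` and `N₀ c` (in `K`), for all the finitely many coefficients `c ∈ k` of the `c_i`, are
algebraic integers. Then `e = N₀ ^ (1 + d) q ^ d` satisfies: `e c_i(t₀ p / q)` is an algebraic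
integer for all `i`, so `e y(a)` is a zero of the monic polynomial
`Y ^ m + e c_1 Y ^ (m-1) + e ^ 2 c_2 Y ^ (m-2) + ⋯` with coefficients `e ^ i c_i(t₀ p / q)` which are
algebraic integers; so it is an algebraic integer. -/
def S_INTG : Prop :=
  ∀ (k : Type) [Field k] [NumberField k] (A : Type) [CommRing A]
    [Algebra k A] [Algebra k[X] A] [IsScalarTower k k[X] A] [Module.Finite k[X] A]
    (K : Type) [Field K] [NumberField K] [Algebra k K] (t₀ : K) (a : A),
    ∃ N M : ℕ, 0 < N ∧ ∀ (L : Type) [Field L] [NumberField L] [Algebra k L] [Algebra K L]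
      [IsScalarTower k K L] (p q : ℕ) (y : A →ₐ[k] L), 0 < q →
      y (tt k A) = algebraMap K L t₀ * ((p : L) / q) →
      IsIntegral ℤ ((N : L) * (q : L) ^ M * y a)

/-- DEG: the degree. PROOF. `A` is free over `k[X]` with a basis `ω_1, …, ω_n`, and the `K`-span of
the `y(ω_i)` contains `y(A)` (as `y(algebraMap k[X] A p) = aeval (y t) p ∈ K`), is closed under
multiplication and contains `1`: it is a finite dimensional `K`-subalgebra of `L`, so a field, so it
is `L`. -/
def S_DEG : Prop :=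
  ∀ (k : Type) [Field k] [NumberField k] (A : Type) [CommRing A] [IsDedekindDomain A]
    [Algebra k A] [Algebra k[X] A] [IsScalarTower k k[X] A] [Module.Finite k[X] A]
    [Module.IsTorsionFree k[X] A] (K L : Type) [Field K] [NumberField K] [Field L] [NumberField L]
    [Algebra k K] [Algebra k L] [Algebra K L] [IsScalarTower k K L] (y : A →ₐ[k] L) (s : K),
    y (tt k A) = algebraMap K L s → IntermediateField.adjoin K (Set.range y) = ⊤ →
    finrank K L ≤ finrank k[X] A

/-- NZ: a function `a ≠ 0` has finitely many zeros, and vanishing at `Q` of the norm of a function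
which vanishes at `Q`.
PROOF. `a` divides its norm `ν = algebraMap k[X] A (Algebra.norm k[X] a)` in `A` (Cayley-Hamilton:
the constant coefficient of the characteristic polynomial of multiplication by `a`, a zero of which
is `a`, is `±` the norm). `Algebra.norm k[X] a ≠ 0` (`Algebra.norm_ne_zero_iff`, `A` is a domain, free
over `k[X]`). If `y(a) = 0` then `aeval (y t) (Algebra.norm k[X] a) = y(ν) = 0`. -/
def S_NZ : Prop :=
  ∀ (k : Type) [Field k] [NumberField k] (A : Type) [CommRing A] [IsDedekindDomain A]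
    [Algebra k A] [Algebra k[X] A] [IsScalarTower k k[X] A] [Module.Finite k[X] A]
    [Module.IsTorsionFree k[X] A] (a : A),
    (a ≠ 0 → Algebra.norm k[X] a ≠ 0) ∧
    ∀ (L : Type) [Field L] [Algebra k L] (y : A →ₐ[k] L), y a = 0 →
      aeval (y (tt k A)) (Algebra.norm k[X] a) = 0

/-- TPA: an element with trace not divisible by `p ^ J`.
PROOF. Write `1 = α + ε`, `α ∈ a`, `ε ∈ b` (`IsCoprime`). Then `ε - ε² = ε α ∈ a b = (p ^ J)`. So the
image `e` of `ε` in `B = 𝓞 L ⧸ (p ^ J)`, a free module of rank `n = [L : ℚ]` over the local ring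
`R = ℤ/p^J`, is an idempotent, and `e ≠ 0` as otherwise `ε ∈ (p ^ J) ⊆ a`, `1 ∈ a`. Multiplication by
`e` is a projection of the free `R`-module `B` onto `e B ≠ 0`, whose image and kernel are projective,
so free (`R` is local: `Module.free_of_isLocalRing` …), and its trace is the rank `c` of `e B`
(`LinearMap.IsProj.trace`), `1 ≤ c ≤ n < p ^ J`. It is the class of `Tr(ε)` modulo `p ^ J`. So
`p ^ J` does not divide `Tr(ε)`.
(Alternative: let `N` be a Galois number field containing `L`, `𝔓` a prime of `N` above `p`, replace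
`a` by `P ^ m` etc.; for every embedding `σ : L → N`, `σ(ε)` is `0` or `1` modulo a high power of `𝔓`,
and `1` for at least one of them.) -/
def S_TPA : Prop :=
  ∀ (L : Type) [Field L] [NumberField L] (p J : ℕ), p.Prime → finrank ℚ L < p ^ J →
    ∀ a b : Ideal (𝓞 L), a * b = Ideal.span {((p ^ J : ℕ) : 𝓞 L)} → IsCoprime a b → a ≠ ⊤ →
      ∃ ε ∈ b, ¬ ((p ^ J : ℕ) : ℤ) ∣ Algebra.trace ℤ (𝓞 L) ε

/-- TP: the exponent of `p` in the discriminant is bounded in terms of the degree.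
PROOF. (`S_TPA` may be assumed.) Take `J = m` (`m < 2 ^ m ≤ p ^ m`; if `m = 0` there is no `L`), `L` of
degree `n ≤ m`, `D = differentIdeal ℤ (𝓞 L)`, `|disc L| = absNorm D`
(`NumberField.absNorm_differentIdeal`). Let `P ∣ p` be a prime of `𝓞 L` and `(p ^ J) = a b` with
`a = P ^ (J e_P)`, `b` coprime to `P`. CLAIM: `a` does not divide `D`. If `a ∣ D`, take `ε ∈ b` from
`S_TPA` and `z = ε / p ^ J`; `z D ⊆ z a ⊆ p^(-J) b a = 𝓞 L`, so `z` is in the trace dual of `𝓞 L` (the
inverse of `D`), so `Tr z = Tr(ε) / p ^ J ∈ ℤ` (take the trace of `z * 1`), a contradiction. So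
`ord_P(D) ≤ ord_P(p ^ J)` for all primes `P ∣ p`. Write `|disc L| = p ^ v c` with `p ∤ c`; for the
primes `P ∤ p`, `ord_P(D) ≤ ord_P(disc L) = ord_P(c)` since `disc L ∈ D`
(`NumberField.discr_mem_differentIdeal`). So `D ∣ (c p ^ J)`, so
`p ^ v c = absNorm D ∣ (c p ^ J) ^ n`, hence `v ≤ J n ≤ m ^ 2`. -/
def S_TP : Prop :=
  ∀ (p m : ℕ), p.Prime → ∃ E : ℕ, ∀ (L : Type) [Field L] [NumberField L], finrank ℚ L ≤ m →
    (discr L).natAbs.factorization p ≤ E

/-- DSC0: upper bound for the discriminant by elements of the different.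
PROOF. (`S_TP` may be assumed.) For `p ∈ T` let `E_p` be the bound of `S_TP` for the degree
`m [K : ℚ]`, `B = ∏_{p ∈ T} p ^ E_p`. Then `|disc L| = B' c` with `B' ∣ B` and `c` prime to all
`p ∈ T`. Let `D = differentIdeal ℤ (𝓞 L)`, `d = |disc K|`. `d δ_i ∈ D` because
`D = differentIdeal (𝓞 K) (𝓞 L) * map (differentIdeal ℤ (𝓞 K))`
(`differentIdeal_eq_differentIdeal_mul_differentIdeal`) and `disc K ∈ differentIdeal ℤ (𝓞 K)`
(`NumberField.discr_mem_differentIdeal`), and `B c ∈ D` as it is a multiple of `disc L`. So with the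
tuple `x = (δ_1, …, δ_l, c)` the ideal `(B d) span(x)` is contained in `D`, and
`|disc L| = absNorm D ≤ (B d) ^ [L : ℚ] absNorm (span x)` (`NumberField.absNorm_differentIdeal`;
`D ∣ I` implies `absNorm D ∣ absNorm I ≠ 0`). By `NumberField.absNorm_mul_finprod_finitePlace_eq_one`
(file Mathlib/NumberTheory/Height/NumberField.lean)
`log absNorm (span x) = ∑ᶠ_w log (⨆_i w(x_i))⁻¹`. At the places `w` above `T`, `w(c) = 1`
(`c` is prime to the residue characteristic), so the supremum is `1` (all `x_i` are integral). At the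
other places `0 < ⨆_i w(δ_i) ≤ ⨆_i w(x_i) ≤ 1`, so the term is
`≤ log⁺ (⨆_i w(δ_i))⁻¹ = loc w δ`. The sums have finite support. `[L : ℚ] ≤ m [K : ℚ]`. -/
def S_DSC0 : Prop :=
  ∀ (T : Finset ℕ), (∀ p ∈ T, p.Prime) → ∀ (K : Type) [Field K] [NumberField K] (m : ℕ),
    ∃ c : ℝ, ∀ (L : Type) [Field L] [NumberField L] [Algebra K L], finrank K L ≤ m →
      ∀ (l : ℕ) (δ : Fin l → 𝓞 L), (∃ i, δ i ≠ 0) →
        (∀ i, δ i ∈ differentIdeal (𝓞 K) (𝓞 L)) →
        log |(discr L : ℝ)| ≤ c + away L T (fun i => (δ i : L))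

/-- DSC: upper bound for the discriminant of the residue field of a point.
PROOF. (`S_TRC`, `S_DIF`, `S_INTG`, `S_DEG`, `S_DSC0` may be assumed.) `E`, `n`, `ω` from `S_TRC`, and
`η^(j)` for `g = ζ_j`. By `S_INTG`, applied to the finitely many elements `ω_i`, `η^(j)_i`, there are
`N > 0` and `M` (product of the `N`'s and sum of the `M`'s) not depending on `L, p, q, y` such that
`D₀ y(ω_i)` and `D₀ y(η^(j)_i)` are integral, `D₀ = N q ^ M`. By `S_TRC`,
`D₀² y(ζ_j) γ = ∑_i Tr(γ D₀ y(ω_i)) D₀ y(η^(j)_i)`; `γ = 1` shows that `δ_j = D₀² y(ζ_j)` is integral,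
and `S_DIF` shows that `δ_j ∈ differentIdeal (𝓞 K) (𝓞 L)`. `S_DSC0` (with `m = finrank k[X] A`, `S_DEG`)
gives `log |disc L| ≤ c + away L T δ`. For `w` not above `T`, `w(q) = 1` (all primes dividing `q` are in
`T` and have `w`-value `1`: `placesOver` is the finite set of all places where some `p ∈ T` does not
have value `1`), so `w(δ_j) = w(N)² w(y(ζ_j))` and `loc w δ ≤ 2 log (w N)⁻¹ + loc w (y ∘ ζ)`; the sum of
`log (w N)⁻¹ ≥ 0` over all finite places is `[L : ℚ] log N` (product formula;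
`Pool.Agent.Results.MP_e44225_nt.LogTermDependsOnS.product_formula_log`), `[L : ℚ] ≤ m [K : ℚ]`.
(All sums have finite support as some `y(ζ_j) ≠ 0`.) -/
def S_DSC : Prop :=
  ∀ (k : Type) [Field k] [NumberField k] (A : Type) [CommRing A] [IsDedekindDomain A]
    [Algebra k A] [Algebra k[X] A] [IsScalarTower k k[X] A] [Module.Finite k[X] A]
    [Module.IsTorsionFree k[X] A],
    ∃ E : k[X], E ≠ 0 ∧ ∀ (K : Type) [Field K] [NumberField K] [Algebra k K] (t₀ : K)
      (T : Finset ℕ), (∀ p ∈ T, p.Prime) → ∀ (l : ℕ) (ζ : Fin l → A),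
      (∀ i, ζ i ∈ differentIdeal k[X] A) → ∃ c : ℝ,
      ∀ (L : Type) [Field L] [NumberField L] [Algebra k L] [Algebra K L] [IsScalarTower k K L]
        (p q : ℕ) (y : A →ₐ[k] L), 0 < q → q.primeFactors ⊆ T →
        y (tt k A) = algebraMap K L t₀ * ((p : L) / q) → aeval (y (tt k A)) E ≠ 0 →
        IntermediateField.adjoin K (Set.range y) = ⊤ → (∃ i, y (ζ i) ≠ 0) →
        log |(discr L : ℝ)| ≤ c + away L T (fun i => y (ζ i))

/-- VAN: Vandermonde and the pigeonhole principle.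
PROOF. If `l = 0` or `n = 0` trivial. Take `M = n l + 1`. For every injective
`e : Fin l → Fin M` the Vandermonde matrix `V_e = (e(j)^i)` is invertible, so
`z_i = ∑_j (V_e⁻¹)_{ij} (∑_{i'} e(j)^{i'} z_{i'})`; let `κ₀ > 0` be at least `l` times the absolute
values of all entries of all `V_e⁻¹` (finitely many), and `κ = κ₀ + 1`. For `x ∈ P` with
`r_x = max_i ‖z x i‖ > 0` the set of the `τ < M` with `κ ‖∑_j τ^j z x j‖ < r_x` has at most `l - 1`
elements: otherwise it contains `l` distinct `τ`, and the inversion formula gives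
`r_x ≤ κ₀ max_j ‖…‖ < r_x`. Since `n l < M`, some `τ < M` is in none of these sets. -/
def S_VAN : Prop :=
  ∀ l n : ℕ, ∃ (M : ℕ) (κ : ℝ), 0 < κ ∧ ∀ (P : Type) [Fintype P], Fintype.card P ≤ n →
    ∀ z : P → Fin l → ℂ, ∃ τ < M, ∀ x i, ‖z x i‖ ≤ κ * ‖∑ j : Fin l, (τ : ℂ) ^ (j : ℕ) * z x j‖

/-- GAIN: a point above `s` where the functions `ζ_i` are small, `s` near `t(Q₀)`, `ζ_i(Q₀) = 0`.
PROOF. (`S_PTS`, `S_NZ` and `S_VAN` may be assumed.) `E` from `S_PTS`; `n = finrank k[X] A ≥ 1`. For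
`τ < M` (`M`, `κ` from `S_VAN` for `l`, `n`) let `G_τ = ∑_j τ^j ζ_j`, `G_τ(Q₀) = 0`, and
`h_τ = Algebra.norm k[X] G_τ ∈ k[X]`, `h_τ(t(Q₀)) = 0` by `S_NZ`. So
`‖σ(h_τ(s))‖ ≤ C_τ ‖σ s - σ t(Q₀)‖` for `‖σ s - σ t(Q₀)‖ ≤ 1` (a polynomial over `ℂ` with a zero at
`σ t(Q₀)`). For `s` let `P` be the set of the points above `s`, `S_VAN` for
`z x i = σ(x(ζ_i))` gives `τ` with `‖σ(x(ζ_i))‖ ≤ κ ‖σ(x(G_τ))‖` for all `x ∈ P`, `i`. As
`∏_{x ∈ P} ‖σ(x(G_τ))‖ = ‖σ(h_τ(s))‖ ≤ C_τ ‖σ s - σ t(Q₀)‖` there is `x ∈ P` with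
`‖σ(x(G_τ))‖ ^ n ≤ C_τ ‖σ s - σ t(Q₀)‖` (`P.card = n ≥ 1`). Take `C = 1 + κ ^ n ∑_τ C_τ`. -/
def S_GAIN : Prop :=
  ∀ (k : Type) [Field k] [NumberField k] (A : Type) [CommRing A] [IsDedekindDomain A]
    [Algebra k A] [Algebra k[X] A] [IsScalarTower k k[X] A] [Module.Finite k[X] A]
    [Module.IsTorsionFree k[X] A],
    ∃ E : k[X], E ≠ 0 ∧ ∀ (σ : AlgebraicClosure k →+* ℂ) (Q₀ : A →ₐ[k] AlgebraicClosure k)
      (l : ℕ) (ζ : Fin l → A), (∀ i, Q₀ (ζ i) = 0) → ∃ C : ℝ, 0 < C ∧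
      ∀ s : AlgebraicClosure k, aeval s E ≠ 0 → ‖σ s - σ (Q₀ (tt k A))‖ ≤ 1 →
        ∃ x : A →ₐ[k] AlgebraicClosure k, x (tt k A) = s ∧
          ∀ i, ‖σ (x (ζ i))‖ ^ (finrank k[X] A) ≤ C * ‖σ s - σ (Q₀ (tt k A))‖

/-- FS: the local terms of a family which is not zero are almost all zero. PROOF. `u i ≠ 0` has
`w(u i) = 1` for all but finitely many finite places `w`, and then `⨆ ≥ 1` and `loc w u = 0`. -/
def S_FS : Prop :=
  ∀ (L : Type) [Field L] [NumberField L] (l : ℕ) (u : Fin l → L), (∃ i, u i ≠ 0) →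
    (Function.support fun w : FinitePlace L => loc w u).Finite

/-- NS: the counting function of a family which contains `z p / q`.
PROOF. (`S_FS` may be assumed.) For `w` not above `T`, `w(p) = w(q) = 1` (`p`, `q` are composed of primes
in `T`; `placesOver` is the finite set of the places where some `p ∈ T` does not have value `1`), so
`⨆_i w(u i) ≥ w(z)` and `loc w u ≤ log⁺ (w z)⁻¹`. The sum of `log⁺ (w z)⁻¹ = log⁺ (w z⁻¹)` over all
finite places is at most `logHeight₁ z⁻¹ = logHeight₁ z` (`NumberField.logHeight₁_eq`,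
`Height.logHeight₁_inv`). -/
def S_NS : Prop :=
  ∀ (L : Type) [Field L] [NumberField L] (T : Finset ℕ), (∀ p ∈ T, p.Prime) → ∀ (p q : ℕ),
    0 < p → 0 < q → p.primeFactors ⊆ T → q.primeFactors ⊆ T → ∀ (z : L), z ≠ 0 →
    ∀ (l : ℕ) (u : Fin l → L), (∃ i, u i = z * ((p : L) / q)) →
      away L T u ≤ Height.logHeight₁ z

/-- CMP: comparison of the families `u_i` and `u_i / (z p / q) ^ j_i`.
PROOF. (`S_FS` may be assumed.) For `w` not above `T`, `w(z p / q) = w(z)` (see `S_NS`), so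
`w(u_i / (z p / q)^(j_i)) ≤ max(1, w(z⁻¹)) ^ J w(u_i)` and
`(⨆ w(u_i))⁻¹ ≤ max(1, w(z⁻¹)) ^ J (⨆ w(u_i / (z p/q)^(j_i)))⁻¹`, so
`loc w u ≤ J log⁺ w(z⁻¹) + loc w (u_i / (z p / q)^(j_i))`. Sum over the places not above `T` (finite
supports), see `S_NS`. -/
def S_CMP : Prop :=
  ∀ (L : Type) [Field L] [NumberField L] (T : Finset ℕ), (∀ p ∈ T, p.Prime) → ∀ (p q : ℕ),
    0 < p → 0 < q → p.primeFactors ⊆ T → q.primeFactors ⊆ T → ∀ (z : L), z ≠ 0 →
    ∀ (l : ℕ) (u : Fin l → L) (j : Fin l → ℕ) (J : ℕ), (∃ i, u i ≠ 0) → (∀ i, j i ≤ J) →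
      away L T u ≤ away L T (fun i => u i / (z * ((p : L) / q)) ^ j i) + J * Height.logHeight₁ z

/-- HA: the height of `t`. PROOF. `Height.logHeight₁_mul_le`, for `t₀ ∈ K`
`logHeight₁ (t₀ : L) = [L : K] logHeight₁ t₀` (`Pool.Agent.Helper259.HtExt.logHeight_ext`, see
`Pool.Agent.H505.VL.Pt.heightA_pt` and `Pool/Agent/H455/WPE_HTR.lean`), and
`logHeight₁ (p / q : L) ≤ [L : ℚ] log p` for natural numbers `0 < q ≤ p` (e.g. directly from
`NumberField.logHeight₁_eq`, or `HtExt.logHeight_ext` for `L / ℚ`; see `Pool/Agent/H455/WP_HT.lean`). -/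
def S_HA : Prop :=
  ∀ (K L : Type) [Field K] [NumberField K] [Field L] [NumberField L] [Algebra K L] (t₀ : K)
    (p q : ℕ), 0 < q → q ≤ p →
    Height.logHeight₁ (algebraMap K L t₀) = finrank K L * Height.logHeight₁ t₀ ∧
    Height.logHeight₁ (algebraMap K L t₀ * ((p : L) / q)) ≤
      finrank K L * Height.logHeight₁ t₀ + finrank ℚ L * log p

end Pool.Agent.H455.GC
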