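import Mathlib
import Pool.Graph.R_seed8.H686R3.SUnitPigeon

/-!
# Coprime integers composed of given primes with a small difference
-/

set_option autoImplicit false

open Finset

namespace Pool.Agent.H455.WP

open Pool.Agent.H686R3

theorem smooth_uval {T : Finset ℕ} (hT : ∀ p ∈ T, p.Prime) (e : ℕ → ℕ) :
    (uval T e).primeFactors ⊆ T := by
  intro p hp
  have hpp := Nat.prime_of_mem_primeFactors hp
  have hd := Nat.dvd_of_mem_primeFactors hp
  unfold uval at hd
  obtain ⟨q, hq, hd2⟩ := (hpp.prime.dvd_finset_prod_iff _).1 hd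
  have h3 := hpp.dvd_of_dvd_pow hd2
  rw [(Nat.prime_dvd_prime_iff_eq hpp (hT q hq)).1 h3]
  exact hq

/-- coprime integers `b < a ≤ 3 b` composed of the primes of `T` with a small difference -/
theorem exists_pair {T : Finset ℕ} (hT : ∀ p ∈ T, p.Prime) (hcard : 2 ≤ T.card) {A : ℕ}
    (hA : (∑ p ∈ T, Real.log p) + 1 ≤ A) :
    ∃ a b : ℕ, 0 < b ∧ b < a ∧ a ≤ 3 * b ∧ Nat.Coprime a b ∧ a.primeFactors ⊆ T ∧
      b.primeFactors ⊆ T ∧
      (a : ℝ) - b ≤ 2 * (((∑ p ∈ T, Real.log p) + 1) / (A : ℝ) ^ (T.card - 1)) * b ∧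
      Real.log a ≤ A * ∑ p ∈ T, Real.log p := by
  set M : ℝ := ∑ p ∈ T, Real.log p with hM
  have hM0 : 0 ≤ M := Finset.sum_nonneg fun p _ => Real.log_natCast_nonneg p
  have hA1r : (1 : ℝ) ≤ A := by linarith
  have hA1 : 1 ≤ A := by exact_mod_cast hA1r
  have hA0 : (0 : ℝ) < A := by linarith
  obtain ⟨e, e', he, he', hlt, hlog⟩ := pigeon hT (by omega) hA1
  rw [← hM] at hlog
  set u := uval T e with hu
  set w := uval T e' with hw
  have hu0 : 0 < u := uval_pos hT e
  have hw0 : 0 < w := uval_pos hT e'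
  have hu0r : (0 : ℝ) < u := by exact_mod_cast hu0
  have hw0r : (0 : ℝ) < w := by exact_mod_cast hw0
  have hltr : (w : ℝ) < u := by exact_mod_cast hlt
  obtain ⟨s, hs⟩ : ∃ s, T.card = s + 2 := ⟨T.card - 2, by omega⟩
  have hs1 : T.card - 1 = s + 1 := by omega
  have hpow : (A : ℝ) ^ T.card = A * A ^ (s + 1) := by rw [hs]; ring
  have hApow : (A : ℝ) ≤ A ^ (s + 1) := by
    calc (A : ℝ) = A ^ 1 := (pow_one _).symm
      _ ≤ A ^ (s + 1) := pow_le_pow_right₀ hA1r (by omega)
  have hAp0 : (0 : ℝ) < (A : ℝ) ^ (s + 1) := by positivity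
  rw [hs1]
  set δ : ℝ := (M + 1) / (A : ℝ) ^ (s + 1) with hδ
  have hδ0 : 0 < δ := by positivity
  have hδ1 : δ ≤ 1 := by
    rw [hδ, div_le_one hAp0]; linarith
  have hlog2 : Real.log (u : ℝ) - Real.log (w : ℝ) ≤ δ := by
    refine hlog.trans ?_
    rw [hpow, hδ, div_le_div_iff₀ (by positivity) hAp0]
    have : (A : ℝ) * M + 1 ≤ (M + 1) * A := by nlinarith
    calc ((A : ℝ) * M + 1) * A ^ (s + 1) ≤ ((M + 1) * A) * A ^ (s + 1) :=
          mul_le_mul_of_nonneg_right this hAp0.le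
      _ = (M + 1) * (A * A ^ (s + 1)) := by ring
  have hratio : (u : ℝ) / w ≤ 1 + 2 * δ := by
    have h1 : (u : ℝ) / w = Real.exp (Real.log u - Real.log w) := by
      rw [Real.exp_sub, Real.exp_log hu0r, Real.exp_log hw0r]
    have h2 : Real.exp (Real.log u - Real.log w) ≤ Real.exp δ := Real.exp_le_exp.mpr hlog2
    have h3 := Real.abs_exp_sub_one_le (x := δ) (by rw [abs_of_pos hδ0]; exact hδ1)
    rw [abs_of_pos hδ0] at h3
    have h4 := le_abs_self (Real.exp δ - 1)
    rw [h1]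
    linarith
  -- reduce the fraction
  set g := Nat.gcd u w with hg
  have hg0 : 0 < g := Nat.gcd_pos_of_pos_left _ hu0
  obtain ⟨a, ha⟩ : g ∣ u := Nat.gcd_dvd_left u w
  obtain ⟨b, hb⟩ : g ∣ w := Nat.gcd_dvd_right u w
  have hg0r : (0 : ℝ) < g := by exact_mod_cast hg0
  have hb0 : 0 < b := by
    rcases Nat.eq_zero_or_pos b with h | h
    · rw [h, mul_zero] at hb; omega
    · exact h
  have hb0r : (0 : ℝ) < b := by exact_mod_cast hb0
  have hab : b < a := by
    have : g * b < g * a := by rw [← ha, ← hb]; exact hlt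
    exact Nat.lt_of_mul_lt_mul_left this
  have ha0 : 0 < a := by omega
  have hr : (u : ℝ) / w = a / b := by
    rw [ha, hb]
    push_cast
    field_simp
  have hdiff : (a : ℝ) - b ≤ 2 * δ * b := by
    rw [hr, div_le_iff₀ hb0r] at hratio
    linarith
  have hcop : Nat.Coprime a b := by
    have h := Nat.coprime_div_gcd_div_gcd (m := u) (n := w) hg0
    have h1 : u / Nat.gcd u w = a := by
      rw [← hg]
      exact Nat.div_eq_of_eq_mul_right hg0 ha
    have h2 : w / Nat.gcd u w = b := by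
      rw [← hg]
      exact Nat.div_eq_of_eq_mul_right hg0 hb
    rwa [h1, h2] at h
  refine ⟨a, b, hb0, hab, ?_, hcop, ?_, ?_, hdiff, ?_⟩
  · have h1 : (a : ℝ) ≤ 3 * b := by nlinarith
    exact_mod_cast h1
  · exact (Nat.primeFactors_mono (Dvd.intro_left g ha.symm) hu0.ne').trans (smooth_uval hT e)
  · exact (Nat.primeFactors_mono (Dvd.intro_left g hb.symm) hw0.ne').trans (smooth_uval hT e')
  · have h1 := log_uval_le hT e he
    rw [← hu, ← hM] at h1
    refine le_trans ?_ h1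
    apply Real.log_le_log (by exact_mod_cast ha0)
    have h2 : a ≤ u := by
      rw [ha]
      exact Nat.le_mul_of_pos_left a hg0
    exact_mod_cast h2

end Pool.Agent.H455.WP
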