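import Mathlib
import Pool.Agent.H505.VL.Pt
import Pool.Agent.H505.VL.PRF
import Pool.Agent.H505.VL.PRI
import Pool.Agent.H505.VL.NRM
import Pool.Agent.H455.WP1

/-!
# Interfaces: the logarithmic error term on hyperelliptic curves, `D` the fibre over `∞`

`f` is a separable polynomial of degree `≥ 3` over a number field. Over a number field `K` which
contains three of its zeros, `f = (X - (β + 2α)) (X - (β - 2α)) (X - (β + α (t₀ + 1/t₀))) F`.
We use the points with `x = β + α (t + 1/t)`, `t = t₀ a / b`, for coprime natural numbers `a > b`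
composed of the primes in `T`, `a / b` near `1`, and `y ^ 2 = f(x)`.
-/

set_option autoImplicit false

namespace Pool.Agent.H455.WP

open NumberField Real Polynomial Module
open Pool.Agent.H505.VL Pool.Agent.H505.VL.Pt
open Pool.Agent.Results.MP_e44225_nt

/-- `x = β + α (t + 1/t)` for `t = t₀ a / b` -/
noncomputable def xx {K : Type} [Field K] (α β t₀ : K) (a b : ℕ) : K :=
  β + α * (t₀ * a / b + (t₀ * a / b)⁻¹)

/-- ALG: `f(x)` is a square times an integral element which is small at the infinite places.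
PROOF. Put `N = F.natDegree`, `t = t₀ a / b`. One has `x - (β + 2α) = α (t - 1)² / t`,
`x - (β - 2α) = α (t + 1)² / t`,
`x - (β + α (t₀ + 1/t₀)) = α (a - b) (t₀² a - b) / (t₀ a b)` and
`x = (β t₀ a b + α t₀² a² + α b²) / (t₀ a b)`, so `F(x) = Φ / (t₀ a b)^N` with
`Φ = ∑_{i ≤ N} F_i (β t₀ a b + α t₀² a² + α b²)^i (t₀ a b)^(N-i)`. Hence
`f(x) = (α (t² - 1) / t)² (a - b) P / (a b)^(N+1)` with `P = (α / t₀^(N+1)) (t₀² a - b) Φ`.
`P` is the value at `(a, b)` of a fixed polynomial over `K`; so there is `c ≠ 0` in `𝓞 K`, not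
depending on `a, b`, with `c P ∈ 𝓞 K` (for instance choose `c₀ ∈ 𝓞 K`, `c₀ ≠ 0`, such that `c₀`
times each of `β t₀, α t₀², α, t₀, t₀², 1, F_i, α / t₀^(N+1)` is integral,
`IsLocalization.exist_integer_multiples_of_finset`; every term of `P` is a product of `N + 3` such
elements and of natural numbers, so `c = c₀^(N+3)`).
Write `(a b)^(N+1) = r² s` with `s` squarefree (`Nat.sq_mul_squarefree`). The primes dividing `s`
are in `T`, so `s ≤ Q := ∏_{p ∈ T} p`. Then `1 / (r² s) = s / (r s)²` and `f(x) = ρ² m` with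
`ρ = α (t² - 1) / (t r s c)`, `m = c² s (a - b) P ∈ 𝓞 K`.
Finally for an infinite place `v`, with `B₁ = v(β t₀) + v(α t₀²) + v(α) + v(t₀)`:
`v(P) ≤ v(α / t₀^(N+1)) (v(t₀)² + 1) a ∑_i v(F_i) (B₁ a²)^N` as `b ≤ a`, so
`v(m) ≤ B (a - b) a^(2N+1)`; take the maximum (or the sum) over `v` of the constants, plus `1`. -/
def S_ALG : Prop :=
  ∀ (K : Type) [Field K] [NumberField K] (α β t₀ : K) (F f : K[X]), α ≠ 0 → t₀ ≠ 0 →
    f = (X - C (β + 2 * α)) * (X - C (β - 2 * α)) * (X - C (β + α * (t₀ + t₀⁻¹))) * F →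
    ∀ T : Finset ℕ, (∀ p ∈ T, p.Prime) →
    ∃ B : ℝ, 0 < B ∧ ∀ a b : ℕ, 0 < b → b < a → a.primeFactors ⊆ T → b.primeFactors ⊆ T →
      ∃ (ρ : K) (m : 𝓞 K), f.eval (xx α β t₀ a b) = ρ ^ 2 * (m : K) ∧
        ∀ v : InfinitePlace K, v (m : K) ≤ B * (((a : ℝ) - b) * (a : ℝ) ^ (2 * F.natDegree + 1))

/-- DQ: the discriminant of `K(√m)`.
PROOF. Apply `Pool.Agent.H505.VL.NRM.main : S_NRM` with `L = resField K (pt x y)`, `n = 2`,
`g = X ^ 2 - C m`, `β = ρ⁻¹ y` (`ρ ≠ 0`, `m ≠ 0` as `y ≠ 0`; `β ^ 2 = m`, so `β ∈ 𝓞 L` and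
`g'(β) = 2 β ≠ 0`), `A v = √B`. The proof of `Pool.Agent.H505.VL.Pt.disc_bound` is a model
for the steps `L = K(β)`, integrality, etc. `∑ v.mult = [K : ℚ]` is
`InfinitePlace.sum_mult_eq`. The degree: `resField_pt` and `IntermediateField.adjoin.finrank`,
`minpoly.dvd`. -/
def S_DQ : Prop :=
  ∀ (K : Type) [Field K] [NumberField K] (x : K) (y : AlgebraicClosure K) (ρ : K) (m : 𝓞 K),
    y ≠ 0 → y ^ 2 = algebraMap K (AlgebraicClosure K) (ρ ^ 2 * (m : K)) →
    finrank K (resField K (pt x y)) ≤ 2 ∧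
    ∀ B : ℝ, 0 < B → (∀ v : InfinitePlace K, v (m : K) ≤ B) →
      logDisc K (pt x y) ≤ log |(discr K : ℝ)| +
        (finrank ℚ K : ℝ) / 2 * log B + (finrank ℚ K : ℝ) * (4 * log 2)

/-- PROX: lower bound for the proximity function of `∞` at `x`.
PROOF. Let `t = t₀ a / b`, `q = a / b`. For every absolute value `v` (finite or infinite)
`max(v t, (v t)⁻¹) ≤ v(t + 1/t) + 1` (if `v t ≥ 1` then
`v t ≤ v(t + 1/t) + v(1/t) ≤ v(t + 1/t) + 1`; else the same for `1/t`), and
`v(t + 1/t) = v(x - β) / v α ≤ (v x + v β) / v α`. So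
`max(v q, (v q)⁻¹) ≤ max(v t₀, (v t₀)⁻¹) ((1 + v β) / v α + 1) max(v x, 1)`, and
`|log (v q)| ≤ c_v + log (max (v x) 1) = c_v + weil v none x`.
For a FINITE place `v` one has `v a ≤ 1`, `v b ≤ 1` and, as `a, b` are coprime, `v a = 1` or
`v b = 1`; so `|log (v q)| = - log (v a) - log (v b)`. By
`LogTermDependsOnS.product_formula_log` for `S = placesOver K T` (`v a = 1` for `v ∉ S`, as the
prime factors of `a` are in `T`) `∑_{v ∈ S} - log (v a) = ∑_{v | ∞} mult v log (v a) =
[K : ℚ] log a`, and the same for `b`, and `log b ≥ log a - log 3`. The infinite places contribute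
`≥ 0` to the proximity function. So
`proximity ≥ ∑_{v ∈ S} (|log (v q)| - c_v) ≥ 2 [K : ℚ] log a - [K : ℚ] log 3 - ∑_{v ∈ S} c_v`. -/
def S_PROX : Prop :=
  ∀ (K : Type) [Field K] [NumberField K] (α β t₀ : K), α ≠ 0 → t₀ ≠ 0 →
    ∀ T : Finset ℕ, (∀ p ∈ T, p.Prime) →
    ∃ c : ℝ, ∀ a b : ℕ, 0 < b → b < a → a ≤ 3 * b → Nat.Coprime a b →
      a.primeFactors ⊆ T → b.primeFactors ⊆ T →
      2 * (finrank ℚ K : ℝ) * log a - c ≤
        LogTermDependsOnS.proximity (LogTermDependsOnS.placesOver K T) {none} (xx α β t₀ a b)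

/-- HT: upper bound for the height of `x`; and the proximity function of `∞` is at most the
height.
PROOF. (1) `Height.logHeight₁_add_le`, `Height.logHeight₁_mul_le`, `Height.logHeight₁_inv`,
`Height.logHeight₁_div..` (or the corresponding statements for `mulHeight₁`), and for a natural
number `n ≥ 1`, `logHeight₁ (n : K) = [K : ℚ] log n` (only `≤` is needed: finite places give
`v n ≤ 1`, infinite places `v n = n`; see `LogTermDependsOnS.height_uval_le`,
`NumberField.logHeight₁_eq`), `b < a`.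
(2) `NumberField.logHeight₁_eq`; all terms `log⁺` are nonnegative, and
`LogTermDependsOnS.log_max_eq`. -/
def S_HT : Prop :=
  (∀ (K : Type) [Field K] [NumberField K] (α β t₀ : K),
    ∃ c : ℝ, 0 < c ∧ ∀ a b : ℕ, 0 < b → b < a →
      Height.logHeight₁ (xx α β t₀ a b) ≤ c * (1 + log a)) ∧
  (∀ (K : Type) [Field K] [NumberField K] (T : Finset ℕ) (x : K),
    LogTermDependsOnS.proximity (LogTermDependsOnS.placesOver K T) {none} x ≤
      Height.logHeight₁ x)

/-- BC: base change.
PROOF. Let `P' = (ι P.1, ι P.2)`, `L = resField K P = K(P.1, P.2)` and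
`L' = resField k P' = k(ι P.1, ι P.2)`. `ι` is injective and a `k`-embedding, so there is a
`k`-embedding `j : L' → L` with `ι (j z) = z` (the image of the field `k(P.1, P.2) ⊆ L` under
`ι` is `L'`), with `j (coordX k P') = coordX K P`. Make `L` an `L'`-algebra by `j`
(`letI := j.toAlgebra`). `[L : k] = [L : K] [K : k] = [L : L'] [L' : k]`, which gives the first
statement. With `Pool.Agent.Helper259.HtExt.logHeight_ext` (see
`Pool.Agent.H505.VL.Pt.heightA_pt`), `logHeight₁ (j z) = [L : L'] logHeight₁ z`: the second.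
`Pool.Agent.H505.VL.PRF.main : S_PRF` and `Pool.Agent.H505.VL.PRI.main : S_PRI` for `L' → L` and
`b = none`: the third. Mathlib's file `NumberTheory/NumberField/Discriminant/Different.lean`:
`discr L' ^ [L : L'] ∣ discr L` (look for `natAbs_discr_eq_absNorm_differentIdeal_mul_...` or
`discr_dvd_discr`): `[L : L'] log |discr L'| ≤ log |discr L|`: the fourth. -/
def S_BC : Prop :=
  ∀ (k : Type) [Field k] [NumberField k] (K : Type) [Field K] [NumberField K] [Algebra k K]
    (ι : AlgebraicClosure K →+* AlgebraicClosure k),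
    (∀ z : k, ι (algebraMap K (AlgebraicClosure K) (algebraMap k K z)) =
      algebraMap k (AlgebraicClosure k) z) →
    ∀ (T : Finset ℕ), (∀ p ∈ T, p.Prime) →
    ∀ (P : AlgebraicClosure K × AlgebraicClosure K),
    finrank k (resField k (ι P.1, ι P.2)) ≤ finrank k K * finrank K (resField K P) ∧
    heightA k (ι P.1, ι P.2) = heightA K P / finrank k K ∧
    prox k T {none} (ι P.1, ι P.2) = prox K T {none} P / finrank k K ∧
    logDisc k (ι P.1, ι P.2) ≤ logDisc K P / finrank k K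

/-- IOTA: the embedding exists.
PROOF. `AlgebraicClosure K` is algebraic over `k` (`Algebra.IsAlgebraic.trans`), `IsAlgClosed.lift`. -/
def S_IOTA : Prop :=
  ∀ (k : Type) [Field k] [NumberField k] (K : Type) [Field K] [NumberField K] [Algebra k K],
    ∃ ι : AlgebraicClosure K →+* AlgebraicClosure k,
      ∀ z : k, ι (algebraMap K (AlgebraicClosure K) (algebraMap k K z)) =
        algebraMap k (AlgebraicClosure k) z

/-- SPLIT: the number field `K`.
PROOF. `f` has `natDegree f ≥ 3` different zeros in `AlgebraicClosure k`; take three of them,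
`e₁, e₂, e₃`, `α = (e₁ - e₂) / 4 ≠ 0`, `β = (e₁ + e₂) / 2`, `t₀` a zero of
`T ^ 2 - ((e₃ - β) / α) T + 1` (so `t₀ ≠ 0` and `t₀ + 1/t₀ = (e₃ - β) / α`) and
`K = k(e₁, e₂, e₃, t₀)` (an intermediate field of `AlgebraicClosure k / k`, finite over `k`;
`NumberField.of_module_finite k _`). The three different linear factors are pairwise coprime. -/
def S_SPLIT : Prop :=
  ∀ (k : Type) [Field k] [NumberField k] (f : k[X]), f.Separable → 3 ≤ f.natDegree →
    ∃ (K : Type) (_ : Field K) (_ : NumberField K) (_ : Algebra k K) (α β t₀ : K) (F : K[X]),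
      α ≠ 0 ∧ t₀ ≠ 0 ∧ F.natDegree + 3 = f.natDegree ∧ f.map (algebraMap k K) =
        (X - C (β + 2 * α)) * (X - C (β - 2 * α)) * (X - C (β + α * (t₀ + t₀⁻¹))) * F

end Pool.Agent.H455.WP
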