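import Mathlib
import Pool.Agent.H455.WPS

/-!
# The failure over a number field which contains three zeros of `f`
-/

set_option autoImplicit false

namespace Pool.Agent.H455.WP

open NumberField Real Polynomial Module Filter
open Pool.Agent.H505.VL Pool.Agent.H505.VL.Pt
open Pool.Agent.Results.MP_e44225_nt

/-- the quadratic equation for `q` when `x` is given -/
theorem finite_q {K : Type} [Field K] [CharZero K] (α β t₀ z : K) (hα : α ≠ 0) :
    {q : ℚ | α * (t₀ * (q : K)) ^ 2 + (β - z) * (t₀ * (q : K)) + α = 0}.Finite := by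
  set P : K[X] := C (α * t₀ ^ 2) * X ^ 2 + C ((β - z) * t₀) * X + C α with hP
  have hP0 : P ≠ 0 := by
    intro h
    have h1 := congrArg (fun p : K[X] => p.coeff 0) h
    simp [hP] at h1
    exact hα h1
  have h1 : {r : K | P.IsRoot r}.Finite := Polynomial.finite_setOfPred_isRoot hP0
  refine (h1.preimage (f := fun q : ℚ => (q : K)) (Rat.cast_injective.injOn)).subset ?_
  intro q hq
  simp only [Set.mem_preimage, Set.mem_ofPred_eq, IsRoot.def, hP, eval_add, eval_mul, eval_C,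
    eval_pow, eval_X]
  have hq' : α * (t₀ * (q : K)) ^ 2 + (β - z) * (t₀ * (q : K)) + α = 0 := hq
  linear_combination hq'

theorem quad_of_xx {K : Type} [Field K] [CharZero K] {α β t₀ z : K} (ht₀ : t₀ ≠ 0) {a b : ℕ}
    (ha : 0 < a) (hb : 0 < b) (h : xx α β t₀ a b = z) :
    α * (t₀ * (((a : ℚ) / b : ℚ) : K)) ^ 2 + (β - z) * (t₀ * (((a : ℚ) / b : ℚ) : K)) + α = 0 := by
  have ha0 : (a : K) ≠ 0 := by exact_mod_cast ha.ne'
  have hb0 : (b : K) ≠ 0 := by exact_mod_cast hb.ne'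
  subst h
  unfold xx
  push_cast
  field_simp
  ring

/-- rationals `a / b > 1` near `1` avoid a given rational -/
theorem avoid (M : ℝ) (s : ℕ) (q : ℚ) :
    ∀ᶠ A : ℕ in atTop, ∀ a b : ℕ, 0 < b → b < a →
      (a : ℝ) - b ≤ 2 * (M / (A : ℝ) ^ (s + 1)) * b → (a : ℚ) / b ≠ q := by
  by_cases hq : q ≤ 1
  · refine Eventually.of_forall fun A a b hb hab _ h => ?_
    have h1 : (1 : ℚ) < (a : ℚ) / b := by
      rw [lt_div_iff₀ (by exact_mod_cast hb), one_mul]
      exact_mod_cast hab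
    rw [h] at h1
    linarith
  · have hq1 : (0 : ℝ) < (q : ℝ) - 1 := by
      have : (1 : ℝ) < q := by exact_mod_cast not_le.1 hq
      linarith
    have h1 : Tendsto (fun A : ℕ => 2 * (M / (A : ℝ) ^ (s + 1))) atTop (nhds (2 * 0)) := by
      refine Tendsto.const_mul _ ?_
      refine Tendsto.div_atTop tendsto_const_nhds ?_
      exact (tendsto_pow_atTop (by omega)).comp tendsto_natCast_atTop_atTop
    rw [mul_zero] at h1
    filter_upwards [h1.eventually (gt_mem_nhds hq1)] with A hA a b hb hab hd h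
    have hb0 : (0 : ℝ) < b := by exact_mod_cast hb
    have h2 : ((a : ℝ) / b) = q := by
      rw [← h]; push_cast; rfl
    have h3 : (a : ℝ) - b = (q - 1) * b := by
      rw [← h2]; field_simp
    rw [h3] at hd
    nlinarith

/-- the core inequality -/
theorem core (hALG : S_ALG) (hDQ : S_DQ) (hPROX : S_PROX) (hHT : S_HT)
    (K : Type) [Field K] [NumberField K] (α β t₀ : K) (F f : K[X]) (hα : α ≠ 0) (ht₀ : t₀ ≠ 0)
    (hf : f = (X - C (β + 2 * α)) * (X - C (β - 2 * α)) * (X - C (β + α * (t₀ + t₀⁻¹))) * F)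
    (T : Finset ℕ) (hT : ∀ p ∈ T, p.Prime) :
    ∃ c : ℝ, 0 < c ∧ ∀ a b : ℕ, 0 < b → b < a → a ≤ 3 * b → Nat.Coprime a b →
      a.primeFactors ⊆ T → b.primeFactors ⊆ T → f.eval (xx α β t₀ a b) ≠ 0 →
      ∀ y : AlgebraicClosure K,
        y ^ 2 = algebraMap K (AlgebraicClosure K) (f.eval (xx α β t₀ a b)) →
        finrank K (resField K (pt (xx α β t₀ a b) y)) ≤ 2 ∧
        (finrank ℚ K : ℝ) / 2 * (log a - log ((a : ℝ) - b)) - c ≤
          (((F.natDegree : ℝ) + 1) / 2) * prox K T {none} (pt (xx α β t₀ a b) y) -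
            logDisc K (pt (xx α β t₀ a b) y) ∧
        prox K T {none} (pt (xx α β t₀ a b) y) ≤ heightA K (pt (xx α β t₀ a b) y) ∧
        heightA K (pt (xx α β t₀ a b) y) ≤ c * (1 + log a) := by
  obtain ⟨B, hB0, hB⟩ := hALG K α β t₀ F f hα ht₀ hf T hT
  obtain ⟨c1, hc1⟩ := hPROX K α β t₀ hα ht₀ T hT
  obtain ⟨c2, hc20, hc2⟩ := hHT.1 K α β t₀
  set N : ℕ := F.natDegree with hN
  set c3 : ℝ := ((N : ℝ) + 1) / 2 * c1 + (log |(discr K : ℝ)| +
    (finrank ℚ K : ℝ) / 2 * log B + (finrank ℚ K : ℝ) * (4 * log 2)) with hc3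
  refine ⟨|c3| + c2, by positivity, ?_⟩
  intro a b hb hab hab3 hcop haT hbT hf0 y hy
  obtain ⟨ρ, m, hρ, hm⟩ := hB a b hb hab haT hbT
  have hy0 : y ≠ 0 := by
    rintro rfl
    rw [zero_pow two_ne_zero] at hy
    exact hf0 ((map_eq_zero _).1 hy.symm)
  rw [hρ] at hy
  obtain ⟨hdeg, hdisc⟩ := hDQ K (xx α β t₀ a b) y ρ m hy0 hy
  have ha0 : (0 : ℝ) < a := by exact_mod_cast (by omega : 0 < a)
  have hab0 : (0 : ℝ) < (a : ℝ) - b := by
    have : (b : ℝ) < a := by exact_mod_cast hab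
    linarith
  have hd := hdisc (B * (((a : ℝ) - b) * (a : ℝ) ^ (2 * N + 1))) (by positivity) hm
  have hlog : log (B * (((a : ℝ) - b) * (a : ℝ) ^ (2 * N + 1))) =
      log B + log ((a : ℝ) - b) + (2 * N + 1) * log a := by
    rw [log_mul hB0.ne' (by positivity), log_mul hab0.ne' (by positivity), log_pow]
    push_cast
    ring
  rw [hlog] at hd
  have hpx : prox K T {none} (pt (xx α β t₀ a b) y) =
      LogTermDependsOnS.proximity (LogTermDependsOnS.placesOver K T) {none} (xx α β t₀ a b) :=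
    prox_pt PRF.main PRI.main T hT {none} (xx α β t₀ a b) (by simp) y
  have hp := hc1 a b hb hab hab3 hcop haT hbT
  rw [← hpx] at hp
  have hht : heightA K (pt (xx α β t₀ a b) y) = Height.logHeight₁ (xx α β t₀ a b) :=
    heightA_pt _ _
  have hla : (0 : ℝ) ≤ log a := Real.log_natCast_nonneg a
  refine ⟨hdeg, ?_, ?_, ?_⟩
  · have hN1 : (0 : ℝ) ≤ ((N : ℝ) + 1) / 2 := by positivity
    have h1 := mul_le_mul_of_nonneg_left hp hN1
    have h2 : (finrank ℚ K : ℝ) / 2 * (log a - log ((a : ℝ) - b)) - c3 ≤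
        (((N : ℝ) + 1) / 2) * prox K T {none} (pt (xx α β t₀ a b) y) -
            logDisc K (pt (xx α β t₀ a b) y) := by
      rw [hc3]
      linarith
    have h3 := le_abs_self c3
    linarith
  · rw [hpx, hht]
    exact hHT.2 K T _
  · rw [hht]
    refine (hc2 a b hb hab).trans ?_
    refine mul_le_mul_of_nonneg_right ?_ (by linarith)
    have := abs_nonneg c3
    linarith

/-- failure over `K` -/
theorem mainK (hALG : S_ALG) (hDQ : S_DQ) (hPROX : S_PROX) (hHT : S_HT)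
    (K : Type) [Field K] [NumberField K] (α β t₀ : K) (F f : K[X]) (hα : α ≠ 0) (ht₀ : t₀ ≠ 0)
    (hf : f = (X - C (β + 2 * α)) * (X - C (β - 2 * α)) * (X - C (β + α * (t₀ + t₀⁻¹))) * F)
    (hf0 : f ≠ 0) (T : Finset ℕ) (hT : ∀ p ∈ T, p.Prime) (c₀ : ℝ) (hc₀ : 0 < c₀)
    (hc₀T : c₀ < (finrank ℚ K : ℝ) / 2 * ((T.card : ℝ) - 1)) (b₀ : ℝ) :
    {P : AlgebraicClosure K × AlgebraicClosure K | P.2 ^ 2 = aeval P.1 f ∧
      finrank K (resField K P) ≤ 2 ∧
      c₀ * log⁺ (heightA K P) + logDisc K P + b₀ ≤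
        (((F.natDegree : ℝ) + 1) / 2) * prox K T {none} P ∧
      prox K T {none} P ≤ heightA K P}.Infinite := by
  obtain ⟨c, hc0, hc⟩ := core hALG hDQ hPROX hHT K α β t₀ F f hα ht₀ hf T hT
  intro hfin
  have hn0 : (0 : ℝ) < finrank ℚ K := by exact_mod_cast finrank_pos
  have hTc : 2 ≤ T.card := by
    by_contra h
    have h1 : (T.card : ℝ) ≤ 1 := by exact_mod_cast (by omega : T.card ≤ 1)
    have h2 : (finrank ℚ K : ℝ) / 2 * ((T.card : ℝ) - 1) ≤ 0 :=
      mul_nonpos_of_nonneg_of_nonpos (by positivity) (by linarith)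
    linarith
  obtain ⟨s, hs⟩ : ∃ s, T.card = s + 2 := ⟨T.card - 2, by omega⟩
  have hs1 : T.card - 1 = s + 1 := by omega
  -- the finite set of values of `x` to be avoided
  set Z : Set K := {x | f.IsRoot x} ∪
    (algebraMap K (AlgebraicClosure K)) ⁻¹' (Prod.fst '' {P : AlgebraicClosure K × AlgebraicClosure K | P.2 ^ 2 = aeval P.1 f ∧
      finrank K (resField K P) ≤ 2 ∧
      c₀ * log⁺ (heightA K P) + logDisc K P + b₀ ≤
        (((F.natDegree : ℝ) + 1) / 2) * prox K T {none} P ∧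
      prox K T {none} P ≤ heightA K P}) with hZ
  have hZf : Z.Finite := by
    refine (Polynomial.finite_setOfPred_isRoot hf0).union ?_
    exact (hfin.image _).preimage (algebraMap K (AlgebraicClosure K)).injective.injOn
  set M : ℝ := ∑ p ∈ T, Real.log p with hM
  have hM0 : 0 ≤ M := Finset.sum_nonneg fun p _ => Real.log_natCast_nonneg p
  have hav : ∀ᶠ A : ℕ in atTop, ∀ z ∈ Z, ∀ a b : ℕ, 0 < b → b < a →
      (a : ℝ) - b ≤ 2 * ((M + 1) / (A : ℝ) ^ (s + 1)) * b → xx α β t₀ a b ≠ z := by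
    rw [Filter.eventually_all_finite hZf]
    intro z _
    have h1 : ∀ᶠ A : ℕ in atTop, ∀ q ∈ {q : ℚ | α * (t₀ * (q : K)) ^ 2 +
        (β - z) * (t₀ * (q : K)) + α = 0}, ∀ a b : ℕ, 0 < b → b < a →
        (a : ℝ) - b ≤ 2 * ((M + 1) / (A : ℝ) ^ (s + 1)) * b → (a : ℚ) / b ≠ q := by
      rw [Filter.eventually_all_finite (finite_q α β t₀ z hα)]
      intro q _
      exact avoid (M + 1) s q
    filter_upwards [h1] with A hA a b hb hab hd hx
    exact hA ((a : ℚ) / b) (quad_of_xx ht₀ (by omega) hb hx) a b hb hab hd rfl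
  set κ : ℝ := (finrank ℚ K : ℝ) / 2 * ((T.card : ℝ) - 1) - c₀ with hκ
  have hκ0 : 0 < κ := by rw [hκ]; linarith
  set D : ℝ := c₀ * log⁺ (c * (1 + M)) + b₀ + (finrank ℚ K : ℝ) / 2 * log (2 * (M + 1)) + c with hD
  have hlogA : ∀ᶠ A : ℕ in atTop, D ≤ κ * log (A : ℝ) := by
    have h1 : Tendsto (fun A : ℕ => κ * log (A : ℝ)) atTop atTop :=
      Tendsto.const_mul_atTop hκ0 (tendsto_log_atTop.comp tendsto_natCast_atTop_atTop)
    exact h1.eventually_ge_atTop D
  have hAM : ∀ᶠ A : ℕ in atTop, M + 1 ≤ (A : ℝ) :=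
    tendsto_natCast_atTop_atTop.eventually_ge_atTop (M + 1)
  obtain ⟨A, hA1, hA2, hA3⟩ := (hav.and (hlogA.and hAM)).exists
  obtain ⟨a, b, hb, hab, hab3, hcop, haT, hbT, hdiff, hloga⟩ := exists_pair hT hTc hA3
  rw [← hM] at hdiff hloga
  rw [hs1] at hdiff
  have hxZ : xx α β t₀ a b ∉ Z := fun h => hA1 _ h a b hb hab hdiff rfl
  have hfx : f.eval (xx α β t₀ a b) ≠ 0 := fun h => hxZ (Or.inl h)
  obtain ⟨y, hy⟩ := IsAlgClosed.exists_pow_nat_eq
    (algebraMap K (AlgebraicClosure K) (f.eval (xx α β t₀ a b))) (n := 2) (by norm_num)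
  obtain ⟨h1, h2, h3, h4⟩ := hc a b hb hab hab3 hcop haT hbT hfx y hy
  apply hxZ
  refine Or.inr ⟨pt (xx α β t₀ a b) y, ⟨?_, h1, ?_, h3⟩, rfl⟩
  · change y ^ 2 = aeval (algebraMap K (AlgebraicClosure K) (xx α β t₀ a b)) f
    rw [hy, Polynomial.aeval_algebraMap_apply_eq_algebraMap_eval]
  · have hA1' : (1 : ℝ) ≤ A := by linarith
    have hA0 : (0 : ℝ) < A := by linarith
    have hb0 : (0 : ℝ) < b := by exact_mod_cast hb
    have hbar : (b : ℝ) < a := by exact_mod_cast hab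
    have ha0 : (0 : ℝ) < a := by linarith
    -- the height
    have e1 : log⁺ (heightA K (pt (xx α β t₀ a b) y)) ≤ log⁺ (c * (1 + M)) + log (A : ℝ) := by
      have g0 : 0 ≤ heightA K (pt (xx α β t₀ a b) y) := by
        rw [heightA_pt]
        exact Height.zero_le_logHeight₁ _
      have g1 : heightA K (pt (xx α β t₀ a b) y) ≤ (c * (1 + M)) * A := by
        refine h4.trans ?_
        have : 1 + log a ≤ (1 + M) * A := by nlinarith
        calc c * (1 + log a) ≤ c * ((1 + M) * A) := mul_le_mul_of_nonneg_left this hc0.le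
          _ = (c * (1 + M)) * A := by ring
      calc log⁺ (heightA K (pt (xx α β t₀ a b) y)) ≤ log⁺ ((c * (1 + M)) * A) :=
            Real.posLog_le_posLog g0 g1
        _ ≤ log⁺ (c * (1 + M)) + log⁺ (A : ℝ) := Real.posLog_mul
        _ = log⁺ (c * (1 + M)) + log (A : ℝ) := by
            rw [Real.posLog_eq_log (x := (A : ℝ)) (by rw [abs_of_pos hA0]; exact hA1')]
    -- the difference
    have e2 : log ((a : ℝ) - b) ≤ log (2 * (M + 1)) - (s + 1) * log A + log a := by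
      have g1 : (a : ℝ) - b ≤ 2 * (M + 1) / (A : ℝ) ^ (s + 1) * a := by
        calc (a : ℝ) - b ≤ 2 * ((M + 1) / (A : ℝ) ^ (s + 1)) * b := hdiff
          _ ≤ 2 * ((M + 1) / (A : ℝ) ^ (s + 1)) * a :=
            mul_le_mul_of_nonneg_left hbar.le (by positivity)
          _ = _ := by ring
      have g2 := Real.log_le_log (by linarith) g1
      rw [Real.log_mul (by positivity) ha0.ne', Real.log_div (by positivity) (by positivity),
        Real.log_pow] at g2
      push_cast at g2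
      linarith
    have e3 : ((T.card : ℝ) - 1) = s + 1 := by
      rw [hs]; push_cast; ring
    have e4 := mul_le_mul_of_nonneg_left e1 hc₀.le
    have e5 : (finrank ℚ K : ℝ) / 2 * ((s + 1) * log A - log (2 * (M + 1))) ≤
        (finrank ℚ K : ℝ) / 2 * (log a - log ((a : ℝ) - b)) :=
      mul_le_mul_of_nonneg_left (by linarith) (by positivity)
    have e6 : κ * log (A : ℝ) = (finrank ℚ K : ℝ) / 2 * ((s + 1) * log A) - c₀ * log A := by
      rw [hκ, e3]; ring
    rw [e6, hD] at hA2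
    have e7 : (finrank ℚ K : ℝ) / 2 * ((s + 1) * log A - log (2 * (M + 1))) =
      (finrank ℚ K : ℝ) / 2 * ((s + 1) * log A) - (finrank ℚ K : ℝ) / 2 * log (2 * (M + 1)) := by
      ring
    rw [e7] at e5
    have e8 : c₀ * (log⁺ (c * (1 + M)) + log (A : ℝ)) = c₀ * log⁺ (c * (1 + M)) + c₀ * log A := by
      ring
    rw [e8] at e4
    linarith

end Pool.Agent.H455.WP
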