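import Mathlib
import Pool.Agent.H455.GCS
import Pool.Agent.H455.WP4
import Pool.Agent.H455.WP1

/-!
# Assembly: the logarithmic error term on every curve
-/

set_option autoImplicit false

namespace Pool.Agent.H455.GC

open NumberField Real Polynomial Module Filter
open Pool.Agent.H505.VL
open Pool.Agent.H455.WP (avoid exists_pair)

theorem loc_nonneg {L : Type} (w : L → ℝ) {ι : Type} (u : ι → L) : 0 ≤ loc w u :=
  Real.posLog_nonneg

/-- split the finite places -/
theorem split (L : Type) [Field L] [NumberField L] (T : Finset ℕ) {l : ℕ} (u : Fin l → L)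
    (hfs : (Function.support fun w : FinitePlace L => loc w u).Finite) :
    ∑ᶠ w : FinitePlace L, loc w u = ∑ w ∈ placesOver L T, loc w u + away L T u := by
  have h := finsum_mem_inter_add_sdiff' (s := Set.univ)
    (f := fun w : FinitePlace L => loc w u) (placesOver L T : Set (FinitePlace L))
    (by rw [Set.univ_inter]; exact hfs)
  rw [finsum_mem_univ, Set.univ_inter, finsum_mem_coe_finset] at h
  rw [← h]
  congr 1
  unfold away
  refine finsum_congr fun w => ?_
  have h1 : (w ∉ placesOver L T) = (w ∈ Set.univ \ (placesOver L T : Set (FinitePlace L))) := by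
    simp
  rw [h1]

/-- comparison in an extension field `L` of `K ∋ t₀` -/
theorem absIneq (hDSC : S_DSC) (hDEG : S_DEG) (hNS : S_NS) (hCMP : S_CMP) (hHA : S_HA)
    (k : Type) [Field k] [NumberField k] (A : Type) [CommRing A] [IsDedekindDomain A]
    [Algebra k A] [Algebra k[X] A] [IsScalarTower k k[X] A] [Module.Finite k[X] A]
    [Module.IsTorsionFree k[X] A] :
    ∃ E : k[X], E ≠ 0 ∧ ∀ (K : Type) [Field K] [NumberField K] [Algebra k K] (t₀ : K), t₀ ≠ 0 →
      ∀ (T : Finset ℕ), (∀ p ∈ T, p.Prime) → ∀ (l m n : ℕ) (f : Fin l → A × ℕ)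
        (g : Fin m → A × ℕ) (h : Fin n → A × ℕ), (∀ i, (f i).1 ∈ differentIdeal k[X] A) →
      (∃ i, g i = (tt k A, 0)) → (∃ i, h i = (1, 1)) → ∃ c : ℝ,
      ∀ (L : Type) [Field L] [NumberField L] [Algebra k L] [Algebra K L] [IsScalarTower k K L]
        (p q : ℕ) (y : A →ₐ[k] L), 0 < p → 0 < q → p.primeFactors ⊆ T → q.primeFactors ⊆ T →
        y (tt k A) = algebraMap K L t₀ * ((p : L) / q) → aeval (y (tt k A)) E ≠ 0 →
        IntermediateField.adjoin K (Set.range y) = ⊤ → (∃ i, y (f i).1 ≠ 0) →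
        log |(discr L : ℝ)| + away L T (fun i => y (g i).1 / y (tt k A) ^ (g i).2) +
          away L T (fun i => y (h i).1 / y (tt k A) ^ (h i).2) ≤
          c + away L T (fun i => y (f i).1 / y (tt k A) ^ (f i).2) := by
  obtain ⟨E, hE0, hE⟩ := hDSC k A
  refine ⟨E, hE0, ?_⟩
  intro K _ _ _ t₀ ht₀ T hT l m n f g h hf hg hh
  obtain ⟨c, hc⟩ := hE K t₀ T hT l (fun i => (f i).1) hf
  obtain ⟨J, hJ⟩ : ∃ J : ℕ, ∀ i, (f i).2 ≤ J :=
    ⟨∑ i, (f i).2, fun i => Finset.single_le_sum (f := fun i => (f i).2)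
      (fun _ _ => Nat.zero_le _) (Finset.mem_univ i)⟩
  refine ⟨c + (J + 2) * (finrank k[X] A * Height.logHeight₁ t₀), ?_⟩
  intro L _ _ _ _ _ p q y hp hq hpT hqT hyt hyE hadj hne
  have hz : algebraMap K L t₀ ≠ 0 := by rwa [Ne, map_eq_zero]
  have hp0 : (p : L) ≠ 0 := by exact_mod_cast hp.ne'
  have hq0 : (q : L) ≠ 0 := by exact_mod_cast hq.ne'
  have h1 := hc L p q y hq hqT hyt hyE hadj hne
  have h2 := hCMP L T hT p q hp hq hpT hqT (algebraMap K L t₀) hz l (fun i => y (f i).1)
    (fun i => (f i).2) J hne hJ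
  rw [← hyt] at h2
  have h3 : away L T (fun i => y (g i).1 / y (tt k A) ^ (g i).2) ≤
      Height.logHeight₁ (algebraMap K L t₀) := by
    refine hNS L T hT p q hp hq hpT hqT _ hz m _ ?_
    obtain ⟨i, hi⟩ := hg
    refine ⟨i, ?_⟩
    change y (g i).1 / y (tt k A) ^ (g i).2 = _
    rw [hi, pow_zero, div_one, hyt]
  have h4 : away L T (fun i => y (h i).1 / y (tt k A) ^ (h i).2) ≤
      Height.logHeight₁ (algebraMap K L t₀) := by
    rw [← Height.logHeight₁_inv]
    refine hNS L T hT q p hq hp hqT hpT _ (inv_ne_zero hz) n _ ?_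
    obtain ⟨i, hi⟩ := hh
    refine ⟨i, ?_⟩
    change y (h i).1 / y (tt k A) ^ (h i).2 = _
    rw [hi, map_one, pow_one, hyt]
    field_simp
  have h5 := (hHA K L t₀ 1 1 one_pos le_rfl).1
  have h6 : Height.logHeight₁ (algebraMap K L t₀) ≤ finrank k[X] A * Height.logHeight₁ t₀ := by
    rw [h5]
    refine mul_le_mul_of_nonneg_right ?_ (Height.zero_le_logHeight₁ _)
    have hyt' : y (tt k A) = algebraMap K L (t₀ * ((p : K) / q)) := by
      rw [hyt, map_mul, map_div₀, map_natCast, map_natCast]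
    exact_mod_cast hDEG k A K L y _ hyt' hadj
  have h7 : ((J : ℝ) + 2) * Height.logHeight₁ (algebraMap K L t₀) ≤
      (J + 2) * (finrank k[X] A * Height.logHeight₁ t₀) :=
    mul_le_mul_of_nonneg_left h6 (by positivity)
  have h8 : ((J : ℝ) + 2) * Height.logHeight₁ (algebraMap K L t₀) =
      J * Height.logHeight₁ (algebraMap K L t₀) + Height.logHeight₁ (algebraMap K L t₀) +
        Height.logHeight₁ (algebraMap K L t₀) := by ring
  rw [h8] at h7
  linarith


end Pool.Agent.H455.GC
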