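import Mathlib
import Pool.Agent.H455.GCA

/-!
# Assembly: the heights and proximity functions at a point
-/

set_option autoImplicit false

namespace Pool.Agent.H455.GC

open NumberField Real Polynomial Module Filter
open Pool.Agent.H505.VL

section
variable (k : Type) [Field k] [NumberField k] {A : Type} [CommRing A] [Algebra k A]

/-- the point `x` as a homomorphism to its residue field -/
noncomputable def yy (x : A →ₐ[k] AlgebraicClosure k) : A →ₐ[k] resK k x :=
  AlgHom.codRestrict x (resK k x).toSubalgebra (fun a => mem_resK k x a)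

omit [NumberField k] in
theorem yy_coe (x : A →ₐ[k] AlgebraicClosure k) (a : A) :
    ((yy k x a : resK k x) : AlgebraicClosure k) = x a := rfl

omit [NumberField k] in
theorem adjoin_top (x : A →ₐ[k] AlgebraicClosure k) (K : Type) [Field K] [Algebra k K]
    [Algebra K (resK k x)] [IsScalarTower k K (resK k x)] :
    IntermediateField.adjoin K (Set.range (yy k x)) = ⊤ := by
  rw [eq_top_iff]
  intro z _
  set M : IntermediateField K (resK k x) :=
    IntermediateField.adjoin K (Set.range (yy k x)) with hM
  have h0 : ∀ a, yy k x a ∈ M.restrictScalars k := by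
    intro a
    rw [IntermediateField.mem_restrictScalars, hM]
    exact IntermediateField.subset_adjoin K (Set.range (yy k x)) (Set.mem_range_self a)
  have h1 : IntermediateField.adjoin k (Set.range x) ≤
      (M.restrictScalars k).map (resK k x).val := by
    rw [IntermediateField.adjoin_le_iff]
    rintro _ ⟨a, rfl⟩
    rw [SetLike.mem_coe, IntermediateField.mem_map]
    exact ⟨yy k x a, h0 a, yy_coe k x a⟩
  have h2 := h1 z.2
  rw [IntermediateField.mem_map] at h2
  obtain ⟨w, hw, hwz⟩ := h2
  have h3 : w = z := Subtype.ext hwz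
  rw [IntermediateField.mem_restrictScalars, h3] at hw
  exact hw

variable [Algebra k[X] A] [IsScalarTower k k[X] A] [Module.Finite k[X] A]

theorem val_eq (x : A →ₐ[k] AlgebraicClosure k) (f : A × ℕ) :
    val k x f = yy k x f.1 / yy k x (tt k A) ^ f.2 := rfl

/-- the infinite place of `k(x)` given by a complex embedding of `k^alg` -/
theorem place_apply (σ : AlgebraicClosure k →+* ℂ) (x : A →ₐ[k] AlgebraicClosure k)
    (z : resK k x) :
    InfinitePlace.mk (σ.comp (algebraMap (resK k x) (AlgebraicClosure k))) z =
      ‖σ (z : AlgebraicClosure k)‖ := rfl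

theorem combine (hFS : S_FS) (T : Finset ℕ) {l m n : ℕ} (f : Fin l → A × ℕ)
    (g : Fin m → A × ℕ) (h : Fin n → A × ℕ) (x : A →ₐ[k] AlgebraicClosure k)
    (hf : ∃ i, val k x (f i) ≠ 0) (hg : ∃ i, val k x (g i) ≠ 0) (hh : ∃ i, val k x (h i) ≠ 0)
    (c : ℝ)
    (hc : log |(discr (resK k x) : ℝ)| + away (resK k x) T (fun i => val k x (g i)) +
      away (resK k x) T (fun i => val k x (h i)) ≤ c +
        away (resK k x) T (fun i => val k x (f i))) (w : InfinitePlace (resK k x)) :
    (loc w (fun i => val k x (f i)) - c) / finrank k (resK k x) ≤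
      (height k f x - height k g x - height k h x) + (mS k T g x + mS k T h x) -
        logDisc k x := by
  have h1 := split (resK k x) T _ (hFS _ l _ hf)
  have h2 := split (resK k x) T _ (hFS _ m _ hg)
  have h3 := split (resK k x) T _ (hFS _ n _ hh)
  have h4 : (height k f x - height k g x - height k h x) + (mS k T g x + mS k T h x) -
      logDisc k x = ((∑ w : InfinitePlace (resK k x), (w.mult : ℝ) *
        loc w (fun i => val k x (f i))) + ∑ w ∈ placesOver (resK k x) T,
          loc w (fun i => val k x (f i)) + (away (resK k x) T (fun i => val k x (f i)) -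
          away (resK k x) T (fun i => val k x (g i)) -
          away (resK k x) T (fun i => val k x (h i)) - log |(discr (resK k x) : ℝ)|)) /
        finrank k (resK k x) := by
    unfold height mS logDisc
    rw [h1, h2, h3]
    ring
  rw [h4]
  refine div_le_div_of_nonneg_right ?_ (Nat.cast_nonneg _)
  have h5 : (w.mult : ℝ) * loc w (fun i => val k x (f i)) ≤
      ∑ w : InfinitePlace (resK k x), (w.mult : ℝ) * loc w (fun i => val k x (f i)) :=
    Finset.single_le_sum (f := fun w : InfinitePlace (resK k x) => (w.mult : ℝ) *
      loc w (fun i => val k x (f i)))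
      (fun w _ => mul_nonneg (Nat.cast_nonneg _) (loc_nonneg _ _)) (Finset.mem_univ w)
  have h6 : (1 : ℝ) ≤ w.mult := by exact_mod_cast InfinitePlace.one_le_mult
  have h7 : loc w (fun i => val k x (f i)) ≤ (w.mult : ℝ) * loc w (fun i => val k x (f i)) :=
    le_mul_of_one_le_left (loc_nonneg _ _) h6
  have h8 : 0 ≤ ∑ w ∈ placesOver (resK k x) T, loc w (fun i => val k x (f i)) :=
    Finset.sum_nonneg fun w _ => loc_nonneg _ _
  linarith

end

end Pool.Agent.H455.GC
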