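import Mathlib
import Pool.Agent.H455.GCB

/-!
# Assembly: the core inequality
-/

set_option autoImplicit false

namespace Pool.Agent.H455.GC

open NumberField Real Polynomial Module Filter
open Pool.Agent.H505.VL
open Pool.Agent.H455.WP (avoid exists_pair)

/-- lower bound for the local term at an infinite place -/
theorem loc_lower {l : ℕ} (f : Fin l → ℝ) (n : ℕ) (hn : 0 < n) (B δ : ℝ) (hB : 0 < B)
    (hδ : 0 < δ) (hf : ∀ i, 0 ≤ f i) (hpos : ∃ i, 0 < f i) (hle : ∀ i, f i ^ n ≤ B * δ) :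
    (-log δ - log B) / n ≤ log⁺ (⨆ i, f i)⁻¹ := by
  obtain ⟨i₀, hi₀⟩ := hpos
  haveI : Nonempty (Fin l) := ⟨i₀⟩
  obtain ⟨j, hj⟩ := exists_eq_ciSup_of_finite (f := f)
  have h1 : 0 < ⨆ i, f i := lt_of_lt_of_le hi₀ (le_ciSup (Set.finite_range f).bddAbove i₀)
  have h2 : (⨆ i, f i) ^ n ≤ B * δ := by rw [← hj]; exact hle j
  have h3 : n * log (⨆ i, f i) ≤ log B + log δ := by
    rw [← Real.log_pow, ← Real.log_mul hB.ne' hδ.ne']
    exact Real.log_le_log (pow_pos h1 n) h2
  have hn0 : (0 : ℝ) < n := by exact_mod_cast hn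
  calc (-log δ - log B) / n ≤ log (⨆ i, f i)⁻¹ := by
        rw [div_le_iff₀ hn0, Real.log_inv]
        linarith
    _ ≤ log⁺ (⨆ i, f i)⁻¹ := by
        rw [Real.posLog]
        exact le_max_right _ _

/-- the core inequality -/
theorem core (hDSC : S_DSC) (hDEG : S_DEG) (hNS : S_NS) (hCMP : S_CMP) (hHA : S_HA)
    (hFS : S_FS) (hGAIN : S_GAIN) (hNZ : S_NZ)
    (k : Type) [Field k] [NumberField k] (A : Type) [CommRing A] [IsDedekindDomain A]
    [Algebra k A] [Algebra k[X] A] [IsScalarTower k k[X] A] [Module.Finite k[X] A]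
    [Module.IsTorsionFree k[X] A] (σ : AlgebraicClosure k →+* ℂ)
    (Q₀ : A →ₐ[k] AlgebraicClosure k) (hQ : Q₀ (tt k A) ≠ 0)
    (hR : ∀ a ∈ differentIdeal k[X] A, Q₀ a = 0) :
    ∀ (T : Finset ℕ), (∀ p ∈ T, p.Prime) → ∀ (l m n : ℕ) (f : Fin l → A × ℕ)
      (g : Fin m → A × ℕ) (h : Fin n → A × ℕ), (∀ i, (f i).1 ∈ differentIdeal k[X] A) →
      (∃ i, (f i).1 ≠ 0) → (∃ i, g i = (tt k A, 0)) → (∃ i, h i = (1, 1)) →
      ∃ (E : k[X]) (c : ℝ), E ≠ 0 ∧ 0 < c ∧ ∀ p q : ℕ, 0 < q → q < p → p ≤ 3 * q →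
        p.primeFactors ⊆ T → q.primeFactors ⊆ T → ∀ s : AlgebraicClosure k,
        s = Q₀ (tt k A) * ((p : AlgebraicClosure k) / q) → aeval s E ≠ 0 →
        ‖σ s - σ (Q₀ (tt k A))‖ ≤ 1 →
        ∃ x : A →ₐ[k] AlgebraicClosure k, x (tt k A) = s ∧
          finrank k (resK k x) ≤ finrank k[X] A *
            finrank k (IntermediateField.adjoin k {Q₀ (tt k A)}) ∧
          heightA k x ≤ c * (1 + log p) ∧
          ((-log ‖σ s - σ (Q₀ (tt k A))‖) / finrank k[X] A - c) / finrank k (resK k x) ≤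
            (height k f x - height k g x - height k h x) + (mS k T g x + mS k T h x) -
              logDisc k x := by
  intro T hT l m n f g h hf hf0 hg hh
  obtain ⟨E1, hE1, hAI⟩ := absIneq hDSC hDEG hNS hCMP hHA k A
  obtain ⟨E2, hE2, hG⟩ := hGAIN k A
  obtain ⟨i₀, hi₀⟩ := hf0
  obtain ⟨hNz, hNy⟩ := hNZ k A (f i₀).1
  set t₀ : AlgebraicClosure k := Q₀ (tt k A) with ht₀
  set K : IntermediateField k (AlgebraicClosure k) := IntermediateField.adjoin k {t₀} with hK
  haveI hKfin : FiniteDimensional k K :=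
    IntermediateField.adjoin.finiteDimensional (Algebra.IsIntegral.isIntegral t₀)
  haveI : NumberField K := NumberField.of_module_finite k _
  have ht₀K : t₀ ∈ K := IntermediateField.subset_adjoin k _ (Set.mem_singleton t₀)
  set tK : K := ⟨t₀, ht₀K⟩ with htK
  have htK0 : tK ≠ 0 := by
    intro h0
    exact hQ (congrArg Subtype.val h0)
  obtain ⟨c1, hc1⟩ := hAI K tK htK0 T hT l m n f g h hf hg hh
  obtain ⟨c2, hc20, hc2⟩ := hG σ Q₀ l (fun i => (f i).1) (fun i => hR _ (hf i))
  have hn0 : 0 < finrank k[X] A := finrank_pos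
  obtain ⟨J, hJ⟩ : ∃ J : ℕ, ∀ i, (f i).2 ≤ J :=
    ⟨∑ i, (f i).2, fun i => Finset.single_le_sum (f := fun i => (f i).2)
      (fun _ _ => Nat.zero_le _) (Finset.mem_univ i)⟩
  set μ : ℝ := max 1 ‖σ t₀‖⁻¹ with hμ
  have hμ1 : 1 ≤ μ := le_max_left _ _
  have hμ0 : 0 < μ := by linarith
  set B : ℝ := c2 * μ ^ (J * finrank k[X] A) with hB
  have hB0 : 0 < B := by positivity
  refine ⟨E1 * E2 * Algebra.norm k[X] (f i₀).1,
    |log B / finrank k[X] A| + |c1| + Height.logHeight₁ tK + finrank ℚ k + 1,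
    mul_ne_zero (mul_ne_zero hE1 hE2) (hNz hi₀), ?_, ?_⟩
  · have := Height.zero_le_logHeight₁ tK
    positivity
  intro p q hq hqp hp3 hpT hqT s hs hEs hδ1
  have hp : 0 < p := by omega
  have hq0 : (0 : ℝ) < q := by exact_mod_cast hq
  have hp0 : (0 : ℝ) < p := by exact_mod_cast hp
  have hqpr : (q : ℝ) < p := by exact_mod_cast hqp
  rw [map_mul, map_mul] at hEs
  have hEs1 : aeval s E1 ≠ 0 := left_ne_zero_of_mul (left_ne_zero_of_mul hEs)
  have hEs2 : aeval s E2 ≠ 0 := right_ne_zero_of_mul (left_ne_zero_of_mul hEs)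
  have hEs3 : aeval s (Algebra.norm k[X] (f i₀).1) ≠ 0 := right_ne_zero_of_mul hEs
  obtain ⟨x, hxs, hxζ⟩ := hc2 s hEs2 hδ1
  have hpΩ : (p : AlgebraicClosure k) ≠ 0 := by exact_mod_cast hp.ne'
  have hqΩ : (q : AlgebraicClosure k) ≠ 0 := by exact_mod_cast hq.ne'
  have hs0 : s ≠ 0 := by
    rw [hs]; exact mul_ne_zero hQ (div_ne_zero hpΩ hqΩ)
  -- the field `K` is contained in `L = k(x)`
  have hKL : K ≤ resK k x := by
    rw [hK, IntermediateField.adjoin_le_iff, Set.singleton_subset_iff, SetLike.mem_coe]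
    have h1 : t₀ = x (tt k A) * ((q : AlgebraicClosure k) / p) := by
      rw [hxs, hs]
      field_simp
    rw [h1]
    exact mul_mem (mem_resK k x _) (div_mem (natCast_mem _ _) (natCast_mem _ _))
  letI : Algebra K (resK k x) := (IntermediateField.inclusion hKL).toRingHom.toAlgebra
  haveI : IsScalarTower k K (resK k x) := IsScalarTower.of_algebraMap_eq fun _ => rfl
  have hmap : ∀ z : K, ((algebraMap K (resK k x) z : resK k x) : AlgebraicClosure k) = z :=
    fun _ => rfl
  have hyt : yy k x (tt k A) = algebraMap K (resK k x) tK * ((p : resK k x) / q) := by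
    apply Subtype.ext
    rw [yy_coe, hxs, hs]
    push_cast
    rw [hmap]
  have hadj := adjoin_top k x K
  have hyE : aeval (yy k x (tt k A)) E1 ≠ 0 := by
    intro h0
    apply hEs1
    have h2 : ((aeval (yy k x (tt k A)) E1 : resK k x) : AlgebraicClosure k) =
        aeval ((yy k x (tt k A) : resK k x) : AlgebraicClosure k) E1 := by
      exact (aeval_algebraMap_apply (AlgebraicClosure k) (yy k x (tt k A)) E1).symm
    have h3 : ((aeval (yy k x (tt k A)) E1 : resK k x) : AlgebraicClosure k) = 0 := by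
      rw [h0]
      rfl
    rw [h2, yy_coe, hxs] at h3
    exact h3
  have hxi₀ : x (f i₀).1 ≠ 0 := by
    intro h0
    apply hEs3
    have := hNy _ x h0
    rwa [hxs] at this
  have hyi₀ : yy k x (f i₀).1 ≠ 0 := by
    intro h0
    exact hxi₀ (congrArg Subtype.val h0)
  have hyt0 : yy k x (tt k A) ≠ 0 := by
    intro h0
    have := congrArg Subtype.val h0
    rw [yy_coe, hxs] at this
    exact hs0 this
  have hI := hc1 (resK k x) p q (yy k x) hp hq hpT hqT hyt hyE hadj ⟨i₀, hyi₀⟩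
  have hfv : ∃ i, val k x (f i) ≠ 0 := ⟨i₀, div_ne_zero hyi₀ (pow_ne_zero _ hyt0)⟩
  have hgv : ∃ i, val k x (g i) ≠ 0 := by
    obtain ⟨i, hi⟩ := hg
    refine ⟨i, ?_⟩
    rw [val_eq, hi, pow_zero, div_one]
    exact hyt0
  have hhv : ∃ i, val k x (h i) ≠ 0 := by
    obtain ⟨i, hi⟩ := hh
    refine ⟨i, ?_⟩
    rw [val_eq, hi, map_one, pow_one]
    exact one_div_ne_zero hyt0
  set v₀ : InfinitePlace (resK k x) :=
    InfinitePlace.mk (σ.comp (algebraMap (resK k x) (AlgebraicClosure k))) with hv₀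
  have hcomb := combine k hFS T f g h x hfv hgv hhv c1 hI v₀
  -- degrees
  have hD0 : 0 < finrank k (resK k x) := finrank_pos
  have htower : finrank k (resK k x) = finrank k K * finrank K (resK k x) :=
    (finrank_mul_finrank k K (resK k x)).symm
  have hyt' : yy k x (tt k A) = algebraMap K (resK k x) (tK * ((p : K) / q)) := by
    rw [hyt, map_mul, map_div₀, map_natCast, map_natCast]
  have hdeg := hDEG k A K (resK k x) (yy k x) _ hyt' hadj
  refine ⟨x, hxs, ?_, ?_, ?_⟩
  · rw [htower, mul_comm]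
    exact Nat.mul_le_mul_right _ hdeg
  · -- the height
    have h1 := (hHA K (resK k x) tK p q hq hqp.le).2
    have h2 : val k x (tt k A, 0) = algebraMap K (resK k x) tK * ((p : resK k x) / q) := by
      rw [val_eq, pow_zero, div_one, hyt]
    unfold heightA
    rw [h2]
    have hDr : (0 : ℝ) < finrank k (resK k x) := by exact_mod_cast hD0
    rw [div_le_iff₀ hDr]
    refine h1.trans ?_
    have h3 : (finrank K (resK k x) : ℝ) ≤ finrank k (resK k x) := by
      rw [htower]
      exact_mod_cast Nat.le_mul_of_pos_left _ finrank_pos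
    have h4 : (finrank ℚ (resK k x) : ℝ) = finrank ℚ k * finrank k (resK k x) := by
      exact_mod_cast (finrank_mul_finrank ℚ k (resK k x)).symm
    have h5 : 0 ≤ Height.logHeight₁ tK := Height.zero_le_logHeight₁ tK
    have h6 : 0 ≤ log (p : ℝ) := Real.log_natCast_nonneg p
    have h7 := mul_le_mul_of_nonneg_right h3 h5
    rw [h4]
    have h8 : (0 : ℝ) ≤ |log B / finrank k[X] A| + |c1| + 1 := by positivity
    have h9 : (0 : ℝ) ≤ finrank ℚ k := Nat.cast_nonneg _
    have h10 : (finrank K (resK k x) : ℝ) * Height.logHeight₁ tK +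
        finrank ℚ k * finrank k (resK k x) * log p ≤
        (Height.logHeight₁ tK + finrank ℚ k * log p) * finrank k (resK k x) := by
      calc (finrank K (resK k x) : ℝ) * Height.logHeight₁ tK +
          finrank ℚ k * finrank k (resK k x) * log p ≤
          (finrank k (resK k x) : ℝ) * Height.logHeight₁ tK +
          finrank ℚ k * finrank k (resK k x) * log p := by linarith
        _ = _ := by ring
    refine h10.trans (mul_le_mul_of_nonneg_right ?_ hDr.le)
    nlinarith [mul_nonneg h8 h6, mul_nonneg h5 h6]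
  · -- the main term
    refine le_trans ?_ hcomb
    refine div_le_div_of_nonneg_right ?_ (Nat.cast_nonneg _)
    have hσt : ‖σ t₀‖ ≠ 0 := by
      rw [norm_ne_zero_iff, Ne, map_eq_zero]
      exact hQ
    have hσt0 : 0 < ‖σ t₀‖ := lt_of_le_of_ne (norm_nonneg _) hσt.symm
    have hσs : ‖σ t₀‖ ≤ ‖σ s‖ := by
      rw [hs, map_mul, map_div₀, map_natCast, map_natCast, norm_mul, norm_div,
        Complex.norm_natCast, Complex.norm_natCast]
      refine le_mul_of_one_le_right hσt0.le ?_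
      rw [one_le_div hq0]
      exact hqpr.le
    have hσs0 : 0 < ‖σ s‖ := lt_of_lt_of_le hσt0 hσs
    have hδ0 : 0 < ‖σ s - σ t₀‖ := by
      rw [norm_pos_iff, sub_ne_zero]
      intro h0
      have h1 := σ.injective h0
      rw [hs] at h1
      have h2 : ((p : AlgebraicClosure k) / q) = 1 := by
        have h3 : t₀ * ((p : AlgebraicClosure k) / q) = t₀ * 1 := by rw [h1, mul_one]
        exact mul_left_cancel₀ hQ h3
      rw [div_eq_one_iff_eq hqΩ] at h2
      have h3 : p = q := by exact_mod_cast h2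
      omega
    have hval : ∀ i, v₀ (val k x (f i)) = ‖σ (x (f i).1)‖ / ‖σ s‖ ^ (f i).2 := by
      intro i
      rw [hv₀, place_apply]
      have h1 : ((val k x (f i) : resK k x) : AlgebraicClosure k) =
          x (f i).1 / s ^ (f i).2 := by
        rw [val_eq]
        push_cast
        rw [yy_coe, yy_coe, hxs]
      rw [h1, map_div₀, map_pow, norm_div, norm_pow]
    have hinv : ‖σ s‖⁻¹ ≤ μ := by
      refine le_trans ?_ (le_max_right _ _)
      exact inv_anti₀ hσt0 hσs
    have hle : ∀ i, v₀ (val k x (f i)) ^ (finrank k[X] A) ≤ B * ‖σ s - σ t₀‖ := by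
      intro i
      rw [hval, div_eq_mul_inv, ← inv_pow, mul_pow]
      have h1 : (‖σ s‖⁻¹ ^ (f i).2) ^ (finrank k[X] A) ≤ μ ^ (J * finrank k[X] A) := by
        rw [pow_mul]
        refine pow_le_pow_left₀ (by positivity) ?_ _
        calc ‖σ s‖⁻¹ ^ (f i).2 ≤ μ ^ (f i).2 := pow_le_pow_left₀ (by positivity) hinv _
          _ ≤ μ ^ J := pow_le_pow_right₀ hμ1 (hJ i)
      calc ‖σ (x (f i).1)‖ ^ (finrank k[X] A) * (‖σ s‖⁻¹ ^ (f i).2) ^ (finrank k[X] A) ≤
          (c2 * ‖σ s - σ t₀‖) * μ ^ (J * finrank k[X] A) :=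
            mul_le_mul (hxζ i) h1 (by positivity) (by positivity)
        _ = _ := by rw [hB]; ring
    have hlow := loc_lower (fun i => v₀ (val k x (f i))) (finrank k[X] A) hn0 B _ hB0 hδ0
      (fun i => apply_nonneg _ _) (by
        refine ⟨i₀, ?_⟩
        change 0 < v₀ (val k x (f i₀))
        rw [hval]
        refine div_pos ?_ (by positivity)
        rw [norm_pos_iff, Ne, map_eq_zero]
        exact hxi₀) hle
    have h1 : loc v₀ (fun i => val k x (f i)) = log⁺ (⨆ i, v₀ (val k x (f i)))⁻¹ := rfl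
    rw [h1]
    have h2 : (-log ‖σ s - σ t₀‖ - log B) / (finrank k[X] A : ℝ) =
        (-log ‖σ s - σ t₀‖) / finrank k[X] A - log B / finrank k[X] A := by ring
    rw [h2] at hlow
    have h3 := le_abs_self (log B / (finrank k[X] A : ℝ))
    have h4 := le_abs_self c1
    have h5 : 0 ≤ Height.logHeight₁ tK := Height.zero_le_logHeight₁ tK
    have h6 : (0 : ℝ) ≤ finrank ℚ k := Nat.cast_nonneg _
    linarith

end Pool.Agent.H455.GC
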