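import Mathlib
import Pool.Agent.H455.GCC

/-!
# Assembly: infinitely many points on every curve
-/

set_option autoImplicit false

namespace Pool.Agent.H455.GC

open NumberField Real Polynomial Module Filter
open Pool.Agent.H505.VL
open Pool.Agent.H455.WP (avoid exists_pair)

/-- at most one rational number -/
theorem finite_ratio {K : Type} [Field K] [CharZero K] (t₀ z : K) (ht₀ : t₀ ≠ 0) :
    {q : ℚ | t₀ * (q : K) = z}.Finite := by
  apply Set.Subsingleton.finite
  intro q hq q' hq'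
  have h1 : t₀ * (q : K) = t₀ * (q' : K) := hq.trans hq'.symm
  exact_mod_cast mul_left_cancel₀ ht₀ h1

/-- **The logarithmic error term fails on every curve.** -/
theorem mainAllG (hDSC : S_DSC) (hDEG : S_DEG) (hNS : S_NS) (hCMP : S_CMP) (hHA : S_HA)
    (hFS : S_FS) (hGAIN : S_GAIN) (hNZ : S_NZ)
    (k : Type) [Field k] [NumberField k] (A : Type) [CommRing A] [IsDedekindDomain A]
    [Algebra k A] [Algebra k[X] A] [IsScalarTower k k[X] A] [Module.Finite k[X] A]
    [Module.IsTorsionFree k[X] A]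
    (Q₀ : A →ₐ[k] AlgebraicClosure k) (hQ : Q₀ (tt k A) ≠ 0)
    (hR : ∀ a ∈ differentIdeal k[X] A, Q₀ a = 0) :
    ∃ (r : ℕ) (c : ℝ), 0 < c ∧ ∀ (T : Finset ℕ), (∀ p ∈ T, p.Prime) → ∀ (l m n : ℕ)
      (f : Fin l → A × ℕ) (g : Fin m → A × ℕ) (h : Fin n → A × ℕ),
      (∀ i, (f i).1 ∈ differentIdeal k[X] A) → (∃ i, (f i).1 ≠ 0) →
      (∃ i, g i = (tt k A, 0)) → (∃ i, h i = (1, 1)) → ∀ C b : ℝ, 0 < C →
      C < c * ((T.card : ℝ) - 1) →
      {x : A →ₐ[k] AlgebraicClosure k | x (tt k A) ≠ 0 ∧ finrank k (resK k x) ≤ r ∧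
        C * log⁺ (heightA k x) + logDisc k x + b ≤
          (height k f x - height k g x - height k h x) + (mS k T g x + mS k T h x)}.Infinite := by
  obtain ⟨σ⟩ : Nonempty (AlgebraicClosure k →+* ℂ) := by
    let g : k →+* ℂ := (Classical.arbitrary (k →+* ℂ))
    letI : Algebra k ℂ := g.toAlgebra
    exact ⟨(IsAlgClosed.lift (R := k) (S := AlgebraicClosure k) (M := ℂ)).toRingHom⟩
  set t₀ : AlgebraicClosure k := Q₀ (tt k A) with ht₀
  have hKfin : FiniteDimensional k (IntermediateField.adjoin k {t₀}) :=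
    IntermediateField.adjoin.finiteDimensional (Algebra.IsIntegral.isIntegral t₀)
  have hn0 : 0 < finrank k[X] A := finrank_pos
  have hK0 : 0 < finrank k (IntermediateField.adjoin k {t₀}) := finrank_pos
  set ν : ℕ := finrank k[X] A with hν
  set r : ℕ := ν * finrank k (IntermediateField.adjoin k {t₀}) with hr
  have hr0 : 0 < r := Nat.mul_pos hn0 hK0
  have hνr : (0 : ℝ) < ν := by exact_mod_cast hn0
  have hrr : (0 : ℝ) < r := by exact_mod_cast hr0
  refine ⟨r, 1 / (ν * r), by positivity, ?_⟩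
  intro T hT l m n f g h hf hf0 hg hh C b hC hCT
  obtain ⟨E, c, hE0, hc0, hc⟩ := core hDSC hDEG hNS hCMP hHA hFS hGAIN hNZ k A σ Q₀ hQ hR T hT
    l m n f g h hf hf0 hg hh
  rw [← ht₀] at hc
  intro hfin
  have hTc : 2 ≤ T.card := by
    by_contra h
    have h1 : (T.card : ℝ) ≤ 1 := by exact_mod_cast (by omega : T.card ≤ 1)
    have h2 : 1 / ((ν : ℝ) * r) * ((T.card : ℝ) - 1) ≤ 0 :=
      mul_nonpos_of_nonneg_of_nonpos (by positivity) (by linarith)
    linarith
  obtain ⟨s, hs⟩ : ∃ s, T.card = s + 2 := ⟨T.card - 2, by omega⟩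
  have hs1 : T.card - 1 = s + 1 := by omega
  set G : Set (A →ₐ[k] AlgebraicClosure k) :=
    {x : A →ₐ[k] AlgebraicClosure k | x (tt k A) ≠ 0 ∧ finrank k (resK k x) ≤ r ∧
        C * log⁺ (heightA k x) + logDisc k x + b ≤
          (height k f x - height k g x - height k h x) + (mS k T g x + mS k T h x)} with hG
  -- values of `t` to be avoided
  set Z : Set (AlgebraicClosure k) :=
    {z | (E.map (algebraMap k (AlgebraicClosure k))).IsRoot z} ∪
      (fun x : A →ₐ[k] AlgebraicClosure k => x (tt k A)) '' G with hZ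
  have hZf : Z.Finite := by
    refine (Polynomial.finite_setOfPred_isRoot ?_).union (hfin.image _)
    rw [Polynomial.map_ne_zero_iff (algebraMap k (AlgebraicClosure k)).injective]
    exact hE0
  set M : ℝ := ∑ p ∈ T, Real.log p with hM
  have hM0 : 0 ≤ M := Finset.sum_nonneg fun p _ => Real.log_natCast_nonneg p
  have hav : ∀ᶠ A : ℕ in atTop, ∀ z ∈ Z, ∀ a b : ℕ, 0 < b → b < a →
      (a : ℝ) - b ≤ 2 * ((M + 1) / (A : ℝ) ^ (s + 1)) * b →
      t₀ * ((a : AlgebraicClosure k) / b) ≠ z := by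
    rw [Filter.eventually_all_finite hZf]
    intro z _
    have h1 : ∀ᶠ A : ℕ in atTop, ∀ q ∈ {q : ℚ | t₀ * (q : AlgebraicClosure k) = z},
        ∀ a b : ℕ, 0 < b → b < a →
        (a : ℝ) - b ≤ 2 * ((M + 1) / (A : ℝ) ^ (s + 1)) * b → (a : ℚ) / b ≠ q := by
      rw [Filter.eventually_all_finite (finite_ratio t₀ z hQ)]
      intro q _
      exact avoid (M + 1) s q
    filter_upwards [h1] with A hA a b hb hab hd hx
    refine hA ((a : ℚ) / b) ?_ a b hb hab hd rfl
    change t₀ * (((a : ℚ) / b : ℚ) : AlgebraicClosure k) = z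
    rw [← hx]
    push_cast
    rfl
  set ρ : ℝ := ‖σ t₀‖ with hρ
  have hρ0 : 0 < ρ := by
    rw [hρ, norm_pos_iff, Ne, map_eq_zero]
    exact hQ
  set κ : ℝ := 1 / ((ν : ℝ) * r) * ((T.card : ℝ) - 1) - C with hκ
  have hκ0 : 0 < κ := by rw [hκ]; linarith
  set D : ℝ := C * log⁺ (c * (1 + M)) + b +
    (log (ρ * (2 * (M + 1))) / ν + c) / r with hD
  have hlogA : ∀ᶠ A : ℕ in atTop, D ≤ κ * log (A : ℝ) := by
    have h1 : Tendsto (fun A : ℕ => κ * log (A : ℝ)) atTop atTop :=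
      Tendsto.const_mul_atTop hκ0 (tendsto_log_atTop.comp tendsto_natCast_atTop_atTop)
    exact h1.eventually_ge_atTop D
  have hs1r : (0 : ℝ) < (s : ℝ) + 1 := by positivity
  have hnum : ∀ᶠ A : ℕ in atTop, log (ρ * (2 * (M + 1))) / ν + c ≤
      ((s : ℝ) + 1) / ν * log (A : ℝ) := by
    have h1 : Tendsto (fun A : ℕ => ((s : ℝ) + 1) / ν * log (A : ℝ)) atTop atTop :=
      Tendsto.const_mul_atTop (by positivity)
        (tendsto_log_atTop.comp tendsto_natCast_atTop_atTop)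
    exact h1.eventually_ge_atTop _
  have hAM : ∀ᶠ A : ℕ in atTop, M + 1 ≤ (A : ℝ) :=
    tendsto_natCast_atTop_atTop.eventually_ge_atTop (M + 1)
  have hsm : ∀ᶠ A : ℕ in atTop, ρ * (2 * (M + 1)) ≤ (A : ℝ) ^ (s + 1) :=
    ((tendsto_pow_atTop (by omega)).comp tendsto_natCast_atTop_atTop).eventually_ge_atTop _
  obtain ⟨A', hA1, hA2, hA5, hA3, hA4⟩ :=
    (hav.and (hlogA.and (hnum.and (hAM.and hsm)))).exists
  obtain ⟨p, q, hq, hqp, hpq3, hcop, hpT, hqT, hdiff, hlogp⟩ := exists_pair hT hTc hA3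
  rw [← hM] at hdiff hlogp
  rw [hs1] at hdiff
  have hA1' : (1 : ℝ) ≤ A' := by linarith
  have hA0 : (0 : ℝ) < A' := by linarith
  have hq0 : (0 : ℝ) < q := by exact_mod_cast hq
  have hqpr : (q : ℝ) < p := by exact_mod_cast hqp
  have hp0 : (0 : ℝ) < p := by linarith
  have hAp : (0 : ℝ) < (A' : ℝ) ^ (s + 1) := by positivity
  set z : AlgebraicClosure k := t₀ * ((p : AlgebraicClosure k) / q) with hz
  have hzZ : z ∉ Z := fun hzZ => hA1 z hzZ p q hq hqp hdiff rfl
  have hEz : aeval z E ≠ 0 := by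
    intro h0
    apply hzZ
    refine Or.inl ?_
    change (E.map (algebraMap k (AlgebraicClosure k))).IsRoot _
    rw [IsRoot.def, eval_map, ← aeval_def]
    exact h0
  -- the distance
  have hdist : ‖σ z - σ t₀‖ = ρ * (((p : ℝ) - q) / q) := by
    have h1 : σ z - σ t₀ = σ t₀ * ((((p : ℝ) - q) / q : ℝ) : ℂ) := by
      rw [hz, map_mul, map_div₀, map_natCast, map_natCast]
      push_cast
      have : (q : ℂ) ≠ 0 := by exact_mod_cast hq.ne'
      field_simp
    rw [h1, norm_mul, Complex.norm_real, Real.norm_eq_abs, abs_of_pos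
      (div_pos (by linarith) hq0)]
  have hdist0 : 0 < ‖σ z - σ t₀‖ := by
    rw [hdist]
    exact mul_pos hρ0 (div_pos (by linarith) hq0)
  have hdle : ‖σ z - σ t₀‖ ≤ ρ * (2 * (M + 1)) / (A' : ℝ) ^ (s + 1) := by
    rw [hdist]
    have h1 : ((p : ℝ) - q) / q ≤ 2 * ((M + 1) / (A' : ℝ) ^ (s + 1)) := by
      rw [div_le_iff₀ hq0]
      exact hdiff
    calc ρ * (((p : ℝ) - q) / q) ≤ ρ * (2 * ((M + 1) / (A' : ℝ) ^ (s + 1))) :=
          mul_le_mul_of_nonneg_left h1 hρ0.le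
      _ = _ := by ring
  have hd1 : ‖σ z - σ t₀‖ ≤ 1 := hdle.trans ((div_le_one hAp).2 hA4)
  have hlogd : log ‖σ z - σ t₀‖ ≤ log (ρ * (2 * (M + 1))) - (s + 1) * log A' := by
    have h1 := Real.log_le_log hdist0 hdle
    rw [Real.log_div (by positivity) (by positivity), Real.log_pow] at h1
    push_cast at h1
    exact h1
  obtain ⟨x, hx1, hx2, hx3, hx4⟩ := hc p q hq hqp hpq3 hpT hqT z rfl hEz hd1
  have hz0 : z ≠ 0 := by
    have h1 : (p : AlgebraicClosure k) ≠ 0 := by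
      exact_mod_cast (by omega : p ≠ 0)
    have h2 : (q : AlgebraicClosure k) ≠ 0 := by exact_mod_cast hq.ne'
    exact mul_ne_zero hQ (div_ne_zero h1 h2)
  apply hzZ
  refine Or.inr ⟨x, ⟨by rw [hx1]; exact hz0, hx2, ?_⟩, hx1⟩
  have e1 : log⁺ (heightA k x) ≤ log⁺ (c * (1 + M)) + log (A' : ℝ) := by
    have g0 : 0 ≤ heightA k x := by
      unfold heightA
      exact div_nonneg (Height.zero_le_logHeight₁ _) (Nat.cast_nonneg _)
    have g1 : heightA k x ≤ (c * (1 + M)) * A' := by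
      refine hx3.trans ?_
      have : 1 + log p ≤ (1 + M) * A' := by nlinarith
      calc c * (1 + log p) ≤ c * ((1 + M) * A') := mul_le_mul_of_nonneg_left this hc0.le
        _ = (c * (1 + M)) * A' := by ring
    calc log⁺ (heightA k x) ≤ log⁺ ((c * (1 + M)) * A') :=
          Real.posLog_le_posLog g0 g1
      _ ≤ log⁺ (c * (1 + M)) + log⁺ (A' : ℝ) := Real.posLog_mul
      _ = log⁺ (c * (1 + M)) + log (A' : ℝ) := by
          rw [Real.posLog_eq_log (x := (A' : ℝ)) (by rw [abs_of_pos hA0]; exact hA1')]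
  have e3 : ((T.card : ℝ) - 1) = s + 1 := by
    rw [hs]; push_cast; ring
  have e4 := mul_le_mul_of_nonneg_left e1 hC.le
  -- the numerator
  have hDL : 0 < finrank k (resK k x) := finrank_pos
  have hDLr : (0 : ℝ) < finrank k (resK k x) := by exact_mod_cast hDL
  have hDLle : (finrank k (resK k x) : ℝ) ≤ r := by exact_mod_cast hx2
  have e5 : ((s : ℝ) + 1) / ν * log A' - (log (ρ * (2 * (M + 1))) / ν + c) ≤
      (-log ‖σ z - σ t₀‖) / ν - c := by
    have g1 : ((s + 1) * log A' - log (ρ * (2 * (M + 1)))) / ν ≤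
        (-log ‖σ z - σ t₀‖) / ν :=
      div_le_div_of_nonneg_right (by linarith) hνr.le
    have g2 : ((s + 1) * log A' - log (ρ * (2 * (M + 1)))) / (ν : ℝ) =
      ((s : ℝ) + 1) / ν * log A' - log (ρ * (2 * (M + 1))) / ν := by ring
    rw [g2] at g1
    linarith
  have e6 : 0 ≤ ((s : ℝ) + 1) / ν * log A' - (log (ρ * (2 * (M + 1))) / ν + c) := by linarith
  have e7 : (((s : ℝ) + 1) / ν * log A' - (log (ρ * (2 * (M + 1))) / ν + c)) / r ≤
      ((-log ‖σ z - σ t₀‖) / ν - c) / finrank k (resK k x) := by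
    calc (((s : ℝ) + 1) / ν * log A' - (log (ρ * (2 * (M + 1))) / ν + c)) / r ≤
        (((s : ℝ) + 1) / ν * log A' - (log (ρ * (2 * (M + 1))) / ν + c)) /
          finrank k (resK k x) := div_le_div_of_nonneg_left e6 hDLr hDLle
      _ ≤ _ := div_le_div_of_nonneg_right e5 hDLr.le
  have e8 := e7.trans hx4
  have e9 : (((s : ℝ) + 1) / ν * log A' - (log (ρ * (2 * (M + 1))) / ν + c)) / r =
      (s + 1) * log A' / (ν * r) - (log (ρ * (2 * (M + 1))) / ν + c) / r := by
    field_simp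
  rw [e9] at e8
  have e10 : κ * log (A' : ℝ) = (s + 1) * log A' / (ν * r) - C * log A' := by
    rw [hκ, e3]; ring
  rw [e10, hD] at hA2
  have e11 : C * (log⁺ (c * (1 + M)) + log (A' : ℝ)) =
      C * log⁺ (c * (1 + M)) + C * log A' := by ring
  rw [e11] at e4
  linarith

end Pool.Agent.H455.GC
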