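import Mathlib
import Pool.Agent.H455.GCB
import Pool.Graph.R_seed8.Y733.VR.Disc

/-!
# Discriminants of the subfields of the residue field
-/

set_option autoImplicit false

namespace Pool.Agent.H455.GC

open NumberField Real Polynomial Module
open Pool.Agent.Y733.VR (ld ld_mono)

/-- the logarithmic discriminant of a subfield -/
theorem sub_disc (k₀ k L : Type) [Field k₀] [NumberField k₀] [Field k] [NumberField k]
    [Field L] [NumberField L] [Algebra k₀ k] [Algebra k₀ L] [Algebra k L] [IsScalarTower k₀ k L]
    (F : IntermediateField k₀ L) :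
    log |(discr F : ℝ)| / finrank k₀ F ≤
      log |(discr L : ℝ)| / finrank k L / finrank k₀ k := by
  have h1 := ld_mono F L
  unfold ld at h1
  have hF : (finrank ℚ F : ℝ) = finrank ℚ k₀ * finrank k₀ F := by
    exact_mod_cast (finrank_mul_finrank ℚ k₀ F).symm
  have hk : (finrank ℚ k : ℝ) = finrank ℚ k₀ * finrank k₀ k := by
    exact_mod_cast (finrank_mul_finrank ℚ k₀ k).symm
  have hL : (finrank ℚ L : ℝ) = finrank ℚ k * finrank k L := by
    exact_mod_cast (finrank_mul_finrank ℚ k L).symm
  have a0 : (0 : ℝ) < finrank ℚ k₀ := by exact_mod_cast finrank_pos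
  have a1 : (0 : ℝ) < finrank k₀ F := by
    have : (0 : ℝ) < finrank ℚ F := by exact_mod_cast finrank_pos
    rw [hF] at this
    exact pos_of_mul_pos_right this a0.le
  have a2 : (0 : ℝ) < finrank k₀ k := by
    have : (0 : ℝ) < finrank ℚ k := by exact_mod_cast finrank_pos
    rw [hk] at this
    exact pos_of_mul_pos_right this a0.le
  have a3 : (0 : ℝ) < finrank k L := by
    have : (0 : ℝ) < finrank ℚ L := by exact_mod_cast finrank_pos
    rw [hL] at this
    exact pos_of_mul_pos_right this (by positivity)
  rw [hL, hk, hF] at h1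
  have h2 := mul_le_mul_of_nonneg_left h1 a0.le
  have h3 : (finrank ℚ k₀ : ℝ) * (log |(discr F : ℝ)| / (finrank ℚ k₀ * finrank k₀ F)) =
      log |(discr F : ℝ)| / finrank k₀ F := by
    field_simp
  have h4 : (finrank ℚ k₀ : ℝ) *
      (log |(discr L : ℝ)| / (finrank ℚ k₀ * finrank k₀ k * finrank k L)) =
      log |(discr L : ℝ)| / finrank k L / finrank k₀ k := by
    field_simp
  rwa [h3, h4] at h2

end Pool.Agent.H455.GC
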