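import Mathlib
import Pool.Agent.H455.GCS

/-!
# Interface: functions `t = 1 + c s²`
-/

set_option autoImplicit false

namespace Pool.Agent.H455.GC

open NumberField Real Polynomial Module
open Pool.Agent.H505.VL

/-- SQ: a function `t = 1 + c s²` is ramified at the zeros of `s`.
PROOF. (a) `s` is not a unit of `A`: otherwise `t - 1 = c s²` is a unit, `(t - 1) u = 1`, and the norm
to `k[X]` gives `(X - 1)^n N(u) = 1`, `n = finrank k[X] A ≥ 1` (`Algebra.norm_algebraMap`; `A` is free
over `k[X]`), impossible.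
(b) Let `m` be a maximal ideal of `A` which contains `s`. `A ⧸ m` is a field and a `k`-algebra of finite
type (`A` is finite over `k[X]`), so finite over `k` (`finite_of_finite_type_of_isJacobsonRing`), so
there is a homomorphism of `k`-algebras `A → A ⧸ m → AlgebraicClosure k` (`IsAlgClosed.lift`): `Q₀`.
`Q₀(s) = 0` and `Q₀(t) = 1`.
(c) Let `g ∈ 𝔡`; we show `s ∣ g`. For `b ∈ A`, `(s b)² = (t - 1) (c⁻¹ b²)`. With a basis `ω` of `A`
over `k[X]` and `M = Algebra.leftMulMatrix ω (s b)` we have `M² = (X - 1) M'`, so the matrix `M(1)` over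
`k` (evaluation at `X = 1`) has square `0`, its trace is nilpotent
(`Matrix.isNilpotent_trace_of_isNilpotent`), so `0`: `X - 1` divides `Algebra.trace k[X] A (s b)`
(`Algebra.trace_eq_matrix_trace`). In `FractionRing A` let `z = 1 / s`; then `z b = c s b / (t - 1)`, so
`Tr(z b) = c Tr(s b) / (X - 1) ∈ k[X]`
(`Algebra.trace_localization`, see `Pool/Agent/H455/GC_BAS.lean` = store
`helper455_GC_BAS.lean` for traces and for
`coeSubmodule_differentIdeal : coeSubmodule L (differentIdeal A B) = 1 / traceDual A K 1`). So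
`z ∈ traceDual` and `g z ∈ A` for `g ∈ 𝔡`: `g = s a'`, `Q₀(g) = 0`. -/
def S_SQ : Prop :=
  ∀ (k : Type) [Field k] [NumberField k] (A : Type) [CommRing A] [IsDedekindDomain A]
    [Algebra k A] [Algebra k[X] A] [IsScalarTower k k[X] A] [Module.Finite k[X] A]
    [Module.IsTorsionFree k[X] A] (c : k) (s : A), c ≠ 0 →
    tt k A = 1 + algebraMap k A c * s ^ 2 →
    ∃ Q₀ : A →ₐ[k] AlgebraicClosure k, Q₀ (tt k A) ≠ 0 ∧
      ∀ a ∈ differentIdeal k[X] A, Q₀ a = 0

end Pool.Agent.H455.GC
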