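import Mathlib
import Pool.Agent.H455.GCS

set_option autoImplicit false

namespace Pool.Agent.H455.GC_BAS

open Polynomial Module nonZeroDivisors

section
attribute [local instance] FractionRing.liftAlgebra FractionRing.isScalarTower_liftAlgebra

theorem gen {R B : Type} [CommRing R] [IsDomain R] [IsPrincipalIdealRing R] [CharZero R]
    [CommRing B] [IsDedekindDomain B] [Algebra R B] [Module.Finite R B] [Module.IsTorsionFree R B] :
    ∃ (n : ℕ) (ω : Basis (Fin n) R B), ∀ g ∈ differentIdeal R B, ∃ η : Fin n → B,
      ∀ a : B, a * g = ∑ i, algebraMap R B (Algebra.trace R B (a * ω i)) * η i := by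
  classical
  have : Module.Free R B := Module.free_of_finite_type_torsion_free'
  have : IsIntegralClosure B R (FractionRing B) :=
    IsIntegralClosure.of_isIntegrallyClosed _ _ _
  have : Algebra.IsAlgebraic (FractionRing R) (FractionRing B) :=
    isAlgebraic_of_isFractionRing R B ..
  have : IsLocalization (Algebra.algebraMapSubmonoid B R⁰) (FractionRing B) :=
    IsIntegralClosure.isLocalization _ (FractionRing R) _ _
  have : FiniteDimensional (FractionRing R) (FractionRing B) := .of_isLocalization R B R⁰
  have : CharZero (FractionRing R) :=
    charZero_of_injective_algebraMap (IsFractionRing.injective R (FractionRing R))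
  have : Algebra.IsSeparable (FractionRing R) (FractionRing B) := inferInstance
  let ω : Basis (Fin (finrank R B)) R B := Module.finBasis R B
  let b : Basis (Fin (finrank R B)) (FractionRing R) (FractionRing B) :=
    ω.localizationLocalization (FractionRing R) R⁰ (FractionRing B)
  refine ⟨finrank R B, ω, fun g hg => ?_⟩
  have hb : ∀ i, b i = algebraMap B (FractionRing B) (ω i) := fun i =>
    ω.localizationLocalization_apply (FractionRing R) R⁰ (FractionRing B) i
  have htr : ∀ a : B, Algebra.trace (FractionRing R) (FractionRing B)
      (algebraMap B (FractionRing B) a) = algebraMap R (FractionRing R) (Algebra.trace R B a) :=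
    fun a => Algebra.trace_localization R R⁰ a
  have hdual : ∀ j, b.traceDual j ∈
      Submodule.traceDual R (FractionRing R) (1 : Submodule B (FractionRing B)) := by
    intro j
    rw [Submodule.mem_traceDual]
    intro a ha
    rw [Submodule.mem_one] at ha
    obtain ⟨a, rfl⟩ := ha
    refine ⟨ω.repr a j, ?_⟩
    have h1 : algebraMap B (FractionRing B) a =
        ∑ i, algebraMap R (FractionRing R) (ω.repr a i) • b i := by
      conv_lhs => rw [← ω.sum_repr a]
      rw [map_sum]
      refine Finset.sum_congr rfl fun i _ => ?_
      rw [hb i, Algebra.smul_def, map_mul, ← IsScalarTower.algebraMap_apply,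
        Algebra.smul_def, ← IsScalarTower.algebraMap_apply]
    rw [Algebra.traceForm_apply, h1, Finset.mul_sum, map_sum]
    rw [Finset.sum_eq_single j]
    · rw [mul_smul_comm, map_smul, Basis.trace_traceDual_mul, if_pos rfl, smul_eq_mul, mul_one]
    · intro i _ hij
      rw [mul_smul_comm, map_smul, Basis.trace_traceDual_mul, if_neg hij, smul_zero]
    · intro h
      exact absurd (Finset.mem_univ j) h
  have hg' : algebraMap B (FractionRing B) g ∈
      (1 / Submodule.traceDual R (FractionRing R) 1 : Submodule B (FractionRing B)) := hg
  have hη : ∀ j, ∃ y : B, algebraMap B (FractionRing B) y =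
      algebraMap B (FractionRing B) g * b.traceDual j := by
    intro j
    have h2 := (Submodule.mem_div_iff_forall_mul_mem.1 hg') (b.traceDual j) (hdual j)
    rw [Submodule.mem_one] at h2
    exact h2
  choose η hη using hη
  refine ⟨η, fun a => ?_⟩
  apply IsFractionRing.injective B (FractionRing B)
  have h3 : algebraMap B (FractionRing B) a =
      ∑ i, algebraMap R (FractionRing R) (Algebra.trace R B (a * ω i)) • b.traceDual i := by
    conv_lhs => rw [← b.traceDual.sum_repr (algebraMap B (FractionRing B) a)]
    refine Finset.sum_congr rfl fun i _ => ?_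
    rw [Basis.traceDual_repr_apply, Algebra.traceForm_apply, hb i, ← map_mul, htr]
  rw [map_mul (algebraMap B (FractionRing B)), h3, Finset.sum_mul, map_sum]
  refine Finset.sum_congr rfl fun i _ => ?_
  rw [map_mul (algebraMap B (FractionRing B)), hη i, ← IsScalarTower.algebraMap_apply,
    Algebra.smul_def, ← IsScalarTower.algebraMap_apply]
  ring

end

theorem main : Pool.Agent.H455.GC.S_BAS := by
  intro k _ _ A _ _ _ _ _ _ _
  exact gen

end Pool.Agent.H455.GC_BAS
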