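import Mathlib
import Pool.Agent.H455.GCS

/-!
# Job GC-CMP: comparison of the families `u_i` and `u_i / (z p / q) ^ j_i` away from `T`
-/

set_option autoImplicit false

namespace Pool.Agent.H455.GC_CMP

open NumberField Real
open Pool.Agent.H505.VL
open Pool.Agent.H455.GC

section
variable {L : Type} [Field L] [NumberField L]

theorem mem_over {T : Finset ℕ} {w : FinitePlace L} :
    w ∈ placesOver L T ↔ ∃ p ∈ T, p ≠ 0 ∧ w (p : L) ≠ 1 := by
  simp [placesOver]

/-- a natural number composed of primes in `T` has value `1` away from `T` -/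
theorem one_of_away {T : Finset ℕ} {w : FinitePlace L} (hw : w ∉ placesOver L T) {p : ℕ}
    (hp : 0 < p) (hpT : p.primeFactors ⊆ T) : w (p : L) = 1 := by
  have h1 : ∀ r ∈ p.primeFactors, w (r : L) = 1 := by
    intro r hr
    by_contra h
    exact hw (mem_over.2 ⟨r, hpT hr, (Nat.prime_of_mem_primeFactors hr).ne_zero, h⟩)
  have h2 : (p : L) = ∏ r ∈ p.primeFactors, (r : L) ^ p.factorization r := by
    have h3 := Nat.prod_factorization_pow_eq_self hp.ne'
    have h4 : ((p.factorization.prod (· ^ ·) : ℕ) : L) = (p : L) := congrArg _ h3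
    rw [← h4]
    unfold Finsupp.prod
    rw [Nat.support_factorization]
    push_cast
    rfl
  rw [h2, map_prod]
  refine Finset.prod_eq_one fun r hr => ?_
  rw [map_pow, h1 r hr, one_pow]

theorem away_eq (T : Finset ℕ) {ι : Type} (u : ι → L) [DecidableEq (FinitePlace L)] :
    away L T u = ∑ᶠ w : FinitePlace L, if w ∉ placesOver L T then loc w u else 0 := by
  unfold away
  exact finsum_congr fun w => finsum_eq_if

theorem supp_if (T : Finset ℕ) {ι : Type} (u : ι → L) [DecidableEq (FinitePlace L)]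
    (h : (Function.support fun w : FinitePlace L => loc w u).Finite) :
    (Function.support fun w : FinitePlace L =>
      if w ∉ placesOver L T then loc w u else 0).Finite := by
  refine h.subset ?_
  intro w hw
  by_cases h1 : w ∉ placesOver L T
  · have h2 : (if w ∉ placesOver L T then loc w u else 0) ≠ 0 := hw
    rw [if_pos h1] at h2
    exact h2
  · have h2 : (if w ∉ placesOver L T then loc w u else 0) ≠ 0 := hw
    rw [if_neg h1] at h2
    exact absurd rfl h2

theorem supp_log {x : L} (hx : x ≠ 0) :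
    (Function.support fun w : FinitePlace L => log⁺ (w x)).Finite := by
  refine (FinitePlace.hasFiniteMulSupport hx).subset ?_
  intro v hv hv1
  apply hv
  have hv2 : v x = 1 := hv1
  show log⁺ (v x) = 0
  rw [hv2]
  simp

theorem finsum_le_height (z : L) :
    ∑ᶠ w : FinitePlace L, log⁺ (w z⁻¹) ≤ Height.logHeight₁ z := by
  rw [← Height.logHeight₁_inv, NumberField.logHeight₁_eq]
  refine le_add_of_nonneg_left (Finset.sum_nonneg fun w _ => ?_)
  exact mul_nonneg (Nat.cast_nonneg _) posLog_nonneg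

theorem sup_pos {l : ℕ} (w : FinitePlace L) (u : Fin l → L) (h : ∃ i, u i ≠ 0) :
    0 < ⨆ i, w (u i) := by
  obtain ⟨i, hi⟩ := h
  exact lt_of_lt_of_le (FinitePlace.pos_iff.mpr hi)
    (le_ciSup (f := fun i => w (u i)) (Set.finite_range _).bddAbove i)

/-- the local comparison -/
theorem local_le {l : ℕ} (w : FinitePlace L) (u : Fin l → L) (j : Fin l → ℕ) (J : ℕ) (s z : L)
    (hz : z ≠ 0) (hs : w s = w z) (hu : ∃ i, u i ≠ 0) (hj : ∀ i, j i ≤ J) :
    loc w u ≤ loc w (fun i => u i / s ^ j i) + J * log⁺ (w z⁻¹) := by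
  have hs0 : s ≠ 0 := by
    intro h
    rw [h, map_zero] at hs
    exact (FinitePlace.pos_iff.mpr hz).ne hs
  have hU := sup_pos w u hu
  have hV : 0 < ⨆ i, w (u i / s ^ j i) := by
    obtain ⟨i, hi⟩ := hu
    exact sup_pos w _ ⟨i, div_ne_zero hi (pow_ne_zero _ hs0)⟩
  obtain ⟨m, hm⟩ : ∃ m : ℝ, m = max 1 (w z⁻¹) := ⟨_, rfl⟩
  have hm1 : 1 ≤ m := by rw [hm]; exact le_max_left _ _
  have hm0 : 0 < m := lt_of_lt_of_le one_pos hm1
  have h1 : ⨆ i, w (u i / s ^ j i) ≤ m ^ J * ⨆ i, w (u i) := by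
    obtain ⟨i0, _⟩ := hu
    have : Nonempty (Fin l) := ⟨i0⟩
    refine ciSup_le fun i => ?_
    have h2 : w (u i / s ^ j i) = (w z⁻¹) ^ j i * w (u i) := by
      rw [map_div₀, map_pow, hs, map_inv₀, inv_pow, div_eq_mul_inv, mul_comm]
    rw [h2]
    have h3 : (w z⁻¹) ^ j i ≤ m ^ J := by
      have h6 : w z⁻¹ ≤ m := by rw [hm]; exact le_max_right _ _
      exact (pow_le_pow_left₀ (apply_nonneg w _) h6 _).trans (pow_le_pow_right₀ hm1 (hj i))
    exact mul_le_mul h3 (le_ciSup (f := fun i => w (u i)) (Set.finite_range _).bddAbove i)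
      (apply_nonneg w _) (by positivity)
  have h4 : (⨆ i, w (u i))⁻¹ ≤ m ^ J * (⨆ i, w (u i / s ^ j i))⁻¹ := by
    rw [← div_eq_mul_inv, le_div_iff₀ hV, inv_mul_le_iff₀ hU, mul_comm]
    exact h1
  have h5 : log⁺ m = log⁺ (w z⁻¹) := by
    rw [posLog_eq_log_max_one (apply_nonneg w z⁻¹), hm,
      posLog_eq_log_max_one (le_trans zero_le_one (le_max_left _ _)), max_eq_right (le_max_left _ _)]
  change log⁺ (⨆ i, w (u i))⁻¹ ≤ log⁺ (⨆ i, w (u i / s ^ j i))⁻¹ + _
  calc log⁺ (⨆ i, w (u i))⁻¹ ≤ log⁺ (m ^ J * (⨆ i, w (u i / s ^ j i))⁻¹) :=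
        posLog_le_posLog (by positivity) h4
    _ ≤ log⁺ (m ^ J) + log⁺ (⨆ i, w (u i / s ^ j i))⁻¹ := posLog_mul
    _ = log⁺ (⨆ i, w (u i / s ^ j i))⁻¹ + J * log⁺ (w z⁻¹) := by
        rw [posLog_pow, h5, add_comm]

end

/-- **CMP.** -/
theorem main : S_FS → S_CMP := by
  classical
  intro hFS L _ _ T _ p q hp hq hpT hqT z hz l u j J hu hj
  have hpq : ∀ w : FinitePlace L, w ∉ placesOver L T → w (z * ((p : L) / q)) = w z := by
    intro w hw
    rw [map_mul, map_div₀, one_of_away hw hp hpT, one_of_away hw hq hqT, div_one, mul_one]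
  have hs0 : z * ((p : L) / q) ≠ 0 :=
    mul_ne_zero hz (div_ne_zero (by exact_mod_cast hp.ne') (by exact_mod_cast hq.ne'))
  obtain ⟨s, hs⟩ : ∃ s, s = z * ((p : L) / q) := ⟨_, rfl⟩
  rw [← hs] at hs0 ⊢
  have hu' : ∃ i, u i / s ^ j i ≠ 0 := by
    obtain ⟨i, hi⟩ := hu
    exact ⟨i, div_ne_zero hi (pow_ne_zero _ hs0)⟩
  have f1 := supp_if T u (hFS L l u hu)
  have f2 := supp_if T (fun i => u i / s ^ j i) (hFS L l _ hu')
  have f3 : (Function.support fun w : FinitePlace L => (J : ℝ) * log⁺ (w z⁻¹)).Finite := by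
    refine (supp_log (inv_ne_zero hz)).subset ?_
    intro w hw h0
    apply hw
    have h0' : log⁺ (w z⁻¹) = 0 := h0
    show (J : ℝ) * log⁺ (w z⁻¹) = 0
    rw [h0', mul_zero]
  rw [away_eq, away_eq]
  have h1 : ∑ᶠ w : FinitePlace L, (if w ∉ placesOver L T then loc w u else 0) ≤
      ∑ᶠ w : FinitePlace L, ((if w ∉ placesOver L T then loc w (fun i => u i / s ^ j i) else 0) +
        J * log⁺ (w z⁻¹)) := by
    refine finsum_le_finsum' f1 ?_ ?_
    · refine (f2.union f3).subset ?_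
      exact Function.support_add _ _
    · intro w
      by_cases hw : w ∉ placesOver L T
      · simp only [if_pos hw]
        exact local_le w u j J s z hz (by rw [hs]; exact hpq w hw) hu hj
      · simp only [if_neg hw]
        rw [zero_add]
        exact mul_nonneg (Nat.cast_nonneg _) posLog_nonneg
  refine h1.trans ?_
  rw [finsum_add_distrib f2 f3, ← mul_finsum]
  exact add_le_add le_rfl (mul_le_mul_of_nonneg_left (finsum_le_height z) (Nat.cast_nonneg _))

end Pool.Agent.H455.GC_CMP
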