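import Mathlib
import Pool.Agent.H455.GCS

/-!
Project GC of helper455, part DEG: the degree of the residue field of a point.
-/

set_option autoImplicit false

namespace Pool.Agent.H455.GC_DEG

open NumberField Real Polynomial Module
open Pool.Agent.H455.GC

theorem val_poly {k : Type} [Field k] {A : Type} [CommRing A] [Algebra k A] [Algebra k[X] A]
    [IsScalarTower k k[X] A] {K L : Type} [Field K] [Field L] [Algebra k K] [Algebra k L]
    [Algebra K L] [IsScalarTower k K L] (y : A →ₐ[k] L) (s : K)
    (hs : y (algebraMap k[X] A X) = algebraMap K L s) (p : k[X]) :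
    y (algebraMap k[X] A p) = algebraMap K L (aeval s p) := by
  have h1 : y.comp (IsScalarTower.toAlgHom k k[X] A) = aeval (algebraMap K L s) := by
    apply Polynomial.algHom_ext
    rw [aeval_X, ← hs]
    rfl
  have h2 := congrArg (fun f : k[X] →ₐ[k] L => f p) h1
  have h3 : y (algebraMap k[X] A p) = aeval (algebraMap K L s) p := h2
  rw [h3, aeval_algebraMap_apply]

theorem main : Pool.Agent.H455.GC.S_DEG := by
  intro k _ _ A _ _ _ _ _ _ _ K L _ _ _ _ _ _ _ _ y s hs hadj
  have hs' : y (algebraMap k[X] A X) = algebraMap K L s := hs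
  have hfree : Module.Free k[X] A := inferInstance
  have hfin : Module.Finite K L := Module.Finite.right ℚ K L
  let ω := Module.finBasis k[X] A
  set V : Submodule K L := Submodule.span K (Set.range fun i => y (ω i)) with hV
  have h1 : ∀ a : A, y a ∈ V := by
    intro a
    have e : y a = ∑ i, (aeval s (ω.repr a i) : K) • y (ω i) := by
      conv_lhs => rw [← ω.sum_repr a]
      rw [map_sum]
      refine Finset.sum_congr rfl fun i _ => ?_
      rw [Algebra.smul_def, map_mul, val_poly y s hs', Algebra.smul_def]
    rw [e]
    exact Submodule.sum_mem _ fun i _ =>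
      Submodule.smul_mem _ _ (Submodule.subset_span ⟨i, rfl⟩)
  have h2 : (Algebra.adjoin K (Set.range y)).toSubmodule ≤ V := by
    rw [Algebra.adjoin_eq_span, Submodule.span_le]
    intro z hz
    have hcl : (Submonoid.closure (Set.range y) : Submonoid L) ≤ MonoidHom.mrange (y : A →* L) := by
      rw [Submonoid.closure_le]
      rintro _ ⟨a, rfl⟩
      exact ⟨a, rfl⟩
    obtain ⟨a, rfl⟩ := hcl hz
    exact h1 a
  have h3 : (IntermediateField.adjoin K (Set.range y)).toSubalgebra =
      Algebra.adjoin K (Set.range y) :=
    IntermediateField.adjoin_toSubalgebra_of_isAlgebraic fun z _ =>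
      Algebra.IsAlgebraic.isAlgebraic z
  have h4 : V = ⊤ := by
    rw [eq_top_iff]
    intro z _
    apply h2
    rw [← h3, hadj]
    trivial
  have h5 : finrank K (⊤ : Submodule K L) ≤ Fintype.card (Fin (finrank k[X] A)) := by
    rw [← h4, hV]
    exact finrank_range_le_card _
  rw [finrank_top, Fintype.card_fin] at h5
  exact h5

end Pool.Agent.H455.GC_DEG
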