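import Mathlib
import Pool.Agent.H455.GCS

/-!
# Leaf DIF: a criterion for membership in the different
-/

set_option autoImplicit false

namespace Pool.Agent.H455.GC_DIF

open NumberField

theorem main : Pool.Agent.H455.GC.S_DIF := by
  intro K L _ _ _ _ _ n u v δ h
  have h1 : (δ : L) ∈ IsLocalization.coeSubmodule L (differentIdeal (𝓞 K) (𝓞 L)) := by
    rw [coeSubmodule_differentIdeal (𝓞 K) K, Submodule.mem_div_iff_forall_mul_mem]
    intro γ hγ
    rw [Submodule.mem_traceDual] at hγ
    have h2 : ∀ i, ∃ a : 𝓞 K, algebraMap (𝓞 K) K a = Algebra.trace K L (γ * (u i : L)) := by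
      intro i
      exact hγ (u i : L) (Submodule.mem_one.2 ⟨u i, rfl⟩)
    choose a ha using h2
    rw [Submodule.mem_one]
    refine ⟨∑ i, algebraMap (𝓞 K) (𝓞 L) (a i) * v i, ?_⟩
    rw [h γ, map_sum]
    refine Finset.sum_congr rfl fun i _ => ?_
    rw [map_mul, ← ha i, ← IsScalarTower.algebraMap_apply, ← IsScalarTower.algebraMap_apply]
  rw [IsLocalization.mem_coeSubmodule] at h1
  obtain ⟨x, hx, hxδ⟩ := h1
  have h2 : x = δ := RingOfIntegers.coe_injective hxδ
  rwa [← h2]

end Pool.Agent.H455.GC_DIF
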