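import Mathlib
import Pool.Agent.H455.GCS

/-!
# Upper bound for the discriminant of the residue field of a point (S_DSC)
-/

set_option autoImplicit false

namespace Pool.Agent.H455.GC_DSC

open NumberField Real Polynomial Module
open Pool.Agent.H505.VL Pool.Agent.H455.GC

section places

variable {L : Type} [Field L] [NumberField L]

theorem w_list (w : FinitePlace L) (l : List ℕ)
    (h : ∀ p ∈ l, w ((p : ℕ) : L) = 1) : w ((l.prod : ℕ) : L) = 1 := by
  induction l with
  | nil => simp
  | cons a l ih =>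
    rw [List.prod_cons, Nat.cast_mul, map_mul, h a List.mem_cons_self,
      ih fun p hp => h p (List.mem_cons_of_mem a hp), one_mul]

theorem w_q {T : Finset ℕ} (hT : ∀ p ∈ T, p.Prime) {w : FinitePlace L}
    (hw : w ∉ placesOver L T) {q : ℕ} (hq : 0 < q) (hqT : q.primeFactors ⊆ T) :
    w (q : L) = 1 := by
  have h1 : ∀ p ∈ T, w ((p : ℕ) : L) = 1 := by
    intro p hp
    by_contra h
    apply hw
    unfold placesOver
    rw [Set.Finite.mem_toFinset]
    exact ⟨p, hp, (hT p hp).ne_zero, h⟩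
  rw [← Nat.prod_primeFactorsList hq.ne']
  exact w_list w _ fun p hp => h1 p (hqT (Nat.mem_primeFactors_iff_mem_primeFactorsList.2 hp))

theorem w_nat_le (w : FinitePlace L) (N : ℕ) : w (N : L) ≤ 1 := by
  induction N with
  | zero => rw [Nat.cast_zero, map_zero]; exact zero_le_one
  | succ n ih =>
    rw [Nat.cast_succ]
    refine (FinitePlace.add_le w _ _).trans (max_le ih ?_)
    rw [map_one]

theorem loc_support {l : ℕ} (u : Fin l → L) (h : ∃ i, u i ≠ 0) :
    (Function.support fun w : FinitePlace L => loc w u).Finite := by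
  obtain ⟨i, hi⟩ := h
  have hf : (Function.mulSupport fun w : FinitePlace L => w (u i)).Finite :=
    FinitePlace.hasFiniteMulSupport hi
  refine hf.subset fun w hw => ?_
  rw [Function.mem_mulSupport]
  intro h1
  apply hw
  unfold loc
  have h2 : 1 ≤ ⨆ i, w (u i) := by
    rw [← h1]
    exact le_ciSup (f := fun i => w (u i)) (Set.finite_range _).bddAbove i
  rw [posLog_eq_zero_iff, abs_of_nonneg (by positivity)]
  exact inv_le_one_of_one_le₀ h2

theorem loc_scale {l : ℕ} (w : FinitePlace L) (u : Fin l → L) {c : L} (h0 : 0 < w c)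
    (h1 : w c ≤ 1) : loc w (fun i => c * u i) ≤ -log (w c) + loc w u := by
  unfold loc
  have e1 : (⨆ i, w (c * u i)) = w c * ⨆ i, w (u i) := by
    rw [Real.mul_iSup_of_nonneg h0.le]
    simp only [map_mul]
  rw [e1, mul_inv]
  refine posLog_mul.trans ?_
  have h2 : 1 ≤ (w c)⁻¹ := (one_le_inv₀ h0).2 h1
  rw [posLog_eq_log (by rw [abs_of_pos (by positivity)]; exact h2), log_inv]

theorem away_eq (T : Finset ℕ) {l : ℕ} (u : Fin l → L) (S0 : Finset (FinitePlace L))
    (h : (Function.support fun w : FinitePlace L => loc w u) ⊆ S0) :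
    away L T u = ∑ w ∈ S0, (open Classical in if w ∉ placesOver L T then loc w u else 0) := by
  classical
  unfold away
  simp only [finsum_eq_if]
  refine finsum_eq_sum_of_support_subset _ fun w hw => h fun h0 => hw ?_
  simp only at h0
  simp only [h0, ite_self]

end places

theorem int_nat {L : Type} [Field L] (n : ℕ) : IsIntegral ℤ (n : L) := by
  have h := isIntegral_algebraMap (R := ℤ) (A := L) (x := (n : ℤ))
  simpa using h

theorem inf_nat {L : Type} [Field L] [NumberField L] (N : ℕ) :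
    ∑ v : InfinitePlace L, (v.mult : ℝ) * log (v (N : L)) = (finrank ℚ L : ℝ) * log N := by
  have h1 : ∀ v : InfinitePlace L, v (N : L) = N := by
    intro v
    rw [← InfinitePlace.norm_embedding_eq v (N : L), map_natCast, Complex.norm_natCast]
  simp only [h1]
  rw [← Finset.sum_mul, ← InfinitePlace.sum_mult_eq (K := L)]
  push_cast
  rfl

theorem main : S_TRC → S_DIF → S_INTG → S_DEG → S_DSC0 → S_DSC := by
  intro hTRC hDIF hINTG hDEG hDSC0 k _ _ A _ _ _ _ _ _ _
  obtain ⟨E, hE, n, ω, hη⟩ := hTRC k A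
  refine ⟨E, hE, fun K _ _ _ t₀ T hT l ζ hζ => ?_⟩
  choose η hη' using fun j : Fin l => hη (ζ j) (hζ j)
  choose Nf Mf hNf hI using fun a : A => hINTG k A K t₀ a
  obtain ⟨N, hN⟩ : ∃ N : ℕ, N = (∏ i, Nf (ω i)) * ∏ j, ∏ i, Nf (η j i) := ⟨_, rfl⟩
  obtain ⟨M, hM⟩ : ∃ M : ℕ, M = (∑ i, Mf (ω i)) + ∑ j, ∑ i, Mf (η j i) := ⟨_, rfl⟩
  have hN0 : 0 < N := by
    rw [hN]
    exact Nat.mul_pos (Finset.prod_pos fun i _ => hNf _)
      (Finset.prod_pos fun j _ => Finset.prod_pos fun i _ => hNf _)
  have hNω : ∀ i, Nf (ω i) ∣ N ∧ Mf (ω i) ≤ M := by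
    intro i
    constructor
    · rw [hN]
      exact Dvd.dvd.mul_right (Finset.dvd_prod_of_mem (fun i => Nf (ω i)) (Finset.mem_univ i)) _
    · rw [hM]
      have h1 := Finset.single_le_sum (f := fun i => Mf (ω i)) (fun _ _ => Nat.zero_le _)
        (Finset.mem_univ i)
      exact h1.trans (Nat.le_add_right _ _)
  have hNη : ∀ j i, Nf (η j i) ∣ N ∧ Mf (η j i) ≤ M := by
    intro j i
    constructor
    · rw [hN]
      refine Dvd.dvd.mul_left ?_ _
      exact (Finset.dvd_prod_of_mem (fun i => Nf (η j i)) (Finset.mem_univ i)).trans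
        (Finset.dvd_prod_of_mem (fun j => ∏ i, Nf (η j i)) (Finset.mem_univ j))
    · rw [hM]
      have h1 := Finset.single_le_sum (f := fun i => Mf (η j i)) (fun _ _ => Nat.zero_le _)
        (Finset.mem_univ i)
      have h2 := Finset.single_le_sum (f := fun j => ∑ i, Mf (η j i)) (fun _ _ => Nat.zero_le _)
        (Finset.mem_univ j)
      exact (h1.trans h2).trans (Nat.le_add_left _ _)
  obtain ⟨c0, hc0⟩ := hDSC0 T hT K (finrank k[X] A)
  refine ⟨c0 + 2 * (((finrank ℚ K * finrank k[X] A : ℕ) : ℝ) * log N), ?_⟩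
  intro L _ _ _ _ _ p q y hq hqT hy hyE hadj hζ0
  have hfin : FiniteDimensional K L := Module.Finite.of_restrictScalars_finite ℚ K L
  obtain ⟨D, hD⟩ : ∃ D : L, D = (N : L) * (q : L) ^ M := ⟨_, rfl⟩
  have hint : ∀ a : A, Nf a ∣ N → Mf a ≤ M → IsIntegral ℤ (D * y a) := by
    intro a h1 h2
    obtain ⟨N', hN'⟩ := h1
    obtain ⟨M', hM'⟩ := Nat.exists_eq_add_of_le h2
    have h3 := hI a L p q y hq hy
    have h4 : D * y a =
        (N' : L) * (q : L) ^ M' * ((Nf a : L) * (q : L) ^ (Mf a) * y a) := by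
      rw [hD, hN', hM', pow_add]
      push_cast
      ring
    rw [h4]
    exact ((int_nat N').mul ((int_nat q).pow _)).mul h3
  have hs : y (tt k A) = algebraMap K L (t₀ * ((p : K) / q)) := by
    rw [hy, map_mul, map_div₀, map_natCast, map_natCast]
  have htr : ∀ (j : Fin l) (γ : L), D * D * y (ζ j) * γ =
      ∑ i, algebraMap K L (Algebra.trace K L (γ * (D * y (ω i)))) * (D * y (η j i)) := by
    intro j γ
    have h1 := hη' j K L y (t₀ * ((p : K) / q)) hs hyE hadj (D * γ)
    have h2 : D * D * y (ζ j) * γ = D * (y (ζ j) * (D * γ)) := by ring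
    rw [h2, h1, Finset.mul_sum]
    refine Finset.sum_congr rfl fun i _ => ?_
    have h3 : D * γ * y (ω i) = γ * (D * y (ω i)) := by ring
    rw [h3]
    ring
  have hδint : ∀ j, IsIntegral ℤ (D * D * y (ζ j)) := by
    intro j
    have h1 := htr j 1
    rw [mul_one] at h1
    rw [h1]
    refine IsIntegral.sum _ fun i _ => ?_
    refine IsIntegral.mul ?_ (hint _ (hNη j i).1 (hNη j i).2)
    have h2 : IsIntegral ℤ (Algebra.trace K L (1 * (D * y (ω i)))) := by
      rw [one_mul]
      exact Algebra.isIntegral_trace (hint _ (hNω i).1 (hNω i).2)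
    exact h2.algebraMap
  obtain ⟨δ, hδ⟩ : ∃ δ : Fin l → 𝓞 L, ∀ j, (δ j : L) = D * D * y (ζ j) :=
    ⟨fun j => ⟨_, hδint j⟩, fun j => rfl⟩
  have hδD : ∀ j, δ j ∈ differentIdeal (𝓞 K) (𝓞 L) := by
    intro j
    refine hDIF K L n (fun i => ⟨D * y (ω i), hint _ (hNω i).1 (hNω i).2⟩)
      (fun i => ⟨D * y (η j i), hint _ (hNη j i).1 (hNη j i).2⟩) (δ j) fun γ => ?_
    rw [hδ]
    exact htr j γ
  have hNL : (N : L) ≠ 0 := by exact_mod_cast hN0.ne'
  have hD0 : D ≠ 0 := by
    rw [hD]
    exact mul_ne_zero hNL (pow_ne_zero _ (by exact_mod_cast hq.ne'))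
  have hDζ : ∃ i, D * D * y (ζ i) ≠ 0 := by
    obtain ⟨i, hi⟩ := hζ0
    exact ⟨i, mul_ne_zero (mul_ne_zero hD0 hD0) hi⟩
  have hδ0 : ∃ i, δ i ≠ 0 := by
    obtain ⟨i, hi⟩ := hDζ
    refine ⟨i, fun h => hi ?_⟩
    rw [← hδ i, h]
    exact map_zero (algebraMap (𝓞 L) L)
  have hdeg : finrank K L ≤ finrank k[X] A := hDEG k A K L y _ hs hadj
  have h5 := hc0 L hdeg l δ hδ0 hδD
  have hlogN : 0 ≤ log (N : ℝ) := Real.log_natCast_nonneg N
  have h6 : away L T (fun i => (δ i : L)) ≤
      2 * ((finrank ℚ L : ℝ) * log N) + away L T (fun i => y (ζ i)) := by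
    have e : (fun i => (δ i : L)) = fun i => (D * D) * y (ζ i) := funext hδ
    rw [e]
    have hfN : (Function.mulSupport fun w : FinitePlace L => w (N : L)).Finite :=
      FinitePlace.hasFiniteMulSupport hNL
    have hf1 := loc_support (fun i => (D * D) * y (ζ i)) hDζ
    have hf2 := loc_support (fun i => y (ζ i)) hζ0
    obtain ⟨S0, hS0⟩ : ∃ S0 : Finset (FinitePlace L), ∀ w, w ∈ S0 ↔
        (w ∈ (Function.mulSupport fun w : FinitePlace L => w (N : L)) ∪
          ((Function.support fun w : FinitePlace L => loc w fun i => (D * D) * y (ζ i)) ∪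
          (Function.support fun w : FinitePlace L => loc w fun i => y (ζ i)))) :=
      ⟨(hfN.union (hf1.union hf2)).toFinset, fun w => Set.Finite.mem_toFinset _⟩
    rw [away_eq T _ S0 (fun w hw => (hS0 w).2 (Or.inr (Or.inl hw))),
      away_eq T _ S0 (fun w hw => (hS0 w).2 (Or.inr (Or.inr hw)))]
    have hprod := Pool.Agent.Results.MP_e44225_nt.LogTermDependsOnS.product_formula_log S0
      (N : L) hNL (fun w hw => by
        by_contra h
        exact hw ((hS0 w).2 (Or.inl h)))
    rw [inf_nat] at hprod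
    have hw0 : ∀ w : FinitePlace L, 0 < w (N : L) := fun w => FinitePlace.pos_iff.2 hNL
    have hwl : ∀ w : FinitePlace L, log (w (N : L)) ≤ 0 := fun w =>
      Real.log_nonpos (hw0 w).le (w_nat_le w N)
    have hterm : ∀ w ∈ S0,
        (open Classical in if w ∉ placesOver L T then loc w (fun i => (D * D) * y (ζ i)) else 0) ≤
        -2 * log (w (N : L)) +
          (open Classical in if w ∉ placesOver L T then loc w (fun i => y (ζ i)) else 0) := by
      intro w _
      by_cases hw : w ∉ placesOver L T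
      · rw [if_pos hw, if_pos hw]
        have h7 : w (D * D) = w (N : L) ^ 2 := by
          rw [hD, map_mul, map_mul, map_pow, w_q hT hw hq hqT, one_pow, mul_one, sq]
        have h8 := loc_scale w (fun i => y (ζ i)) (c := D * D) (by rw [h7]; exact pow_pos (hw0 w) 2)
          (by rw [h7]; exact pow_le_one₀ (hw0 w).le (w_nat_le w N))
        rw [h7, Real.log_pow] at h8
        refine h8.trans (le_of_eq ?_)
        push_cast
        ring
      · rw [if_neg hw, if_neg hw]
        have := hwl w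
        linarith
    refine (Finset.sum_le_sum hterm).trans (le_of_eq ?_)
    rw [Finset.sum_add_distrib, ← Finset.mul_sum]
    linarith
  have h7 : (finrank ℚ L : ℝ) ≤ ((finrank ℚ K * finrank k[X] A : ℕ) : ℝ) := by
    have h8 : finrank ℚ K * finrank K L = finrank ℚ L := Module.finrank_mul_finrank ℚ K L
    rw [← h8]
    exact_mod_cast Nat.mul_le_mul_left _ hdeg
  have h8 := mul_le_mul_of_nonneg_right h7 hlogN
  linarith

end Pool.Agent.H455.GC_DSC
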