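import Mathlib
import Pool.Agent.H455.GCS

/-!
Upper bound for the discriminant by elements of the different.
-/

set_option autoImplicit false

namespace Pool.Agent.H455.GC_DSC0

open NumberField Real Module
open Pool.Agent.H505.VL Pool.Agent.H455.GC

theorem split (T : Finset ℕ) (E : ℕ → ℕ) (hT : ∀ p ∈ T, p.Prime) :
    ∀ n : ℕ, n ≠ 0 → (∀ p ∈ T, n.factorization p ≤ E p) →
    ∃ b c : ℕ, n = b * c ∧ (∀ p ∈ T, ¬ p ∣ c) ∧ b ∣ ∏ p ∈ T, p ^ E p := by
  classical
  induction T using Finset.induction_on with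
  | empty => exact fun n _ _ => ⟨1, n, (one_mul n).symm, by simp, one_dvd _⟩
  | insert q T hq ih =>
    intro n hn hE
    obtain ⟨b, c, h1, h2, h3⟩ := ih (fun p hp => hT p (Finset.mem_insert_of_mem hp)) n hn
      (fun p hp => hE p (Finset.mem_insert_of_mem hp))
    have hc : c ≠ 0 := by
      rintro rfl
      exact hn (by rw [h1, mul_zero])
    have hqp := hT q (Finset.mem_insert_self q T)
    obtain ⟨e, c', hc', hce⟩ := Nat.exists_eq_pow_mul_and_not_dvd hc q hqp.ne_one
    refine ⟨b * q ^ e, c', ?_, ?_, ?_⟩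
    · rw [h1, hce, mul_assoc]
    · intro p hp h
      rcases Finset.mem_insert.mp hp with rfl | hp
      · exact hc' h
      · exact h2 p hp (by rw [hce]; exact h.mul_left _)
    · rw [Finset.prod_insert hq, mul_comm b]
      refine mul_dvd_mul (pow_dvd_pow q ?_) h3
      have h4 : q ^ e ∣ n := by
        rw [h1, hce]
        exact (dvd_mul_right _ _).mul_left _
      exact ((hqp.pow_dvd_iff_le_factorization hn).mp h4).trans (hE q (Finset.mem_insert_self q T))

section place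

variable {L : Type} [Field L] [NumberField L]

theorem le_one (w : FinitePlace L) (x : 𝓞 L) : w (x : L) ≤ 1 := by
  rw [← FinitePlace.norm_embedding_eq w (x : L)]
  exact FinitePlace.norm_le_one L w.maximalIdeal x

theorem eq_one_of_not_dvd (w : FinitePlace L) {p c : ℕ} (hp : p.Prime) (hw : w (p : L) ≠ 1)
    (hc : ¬ p ∣ c) : w (c : L) = 1 := by
  have h1 : w (p : L) < 1 := lt_of_le_of_ne (by
    have := le_one w (p : 𝓞 L)
    simpa using this) hw
  have h2 : w (c : L) ≤ 1 := by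
    have := le_one w (c : 𝓞 L)
    simpa using this
  by_contra h3
  have h4 : w (c : L) < 1 := lt_of_le_of_ne h2 h3
  have h5 : IsCoprime (p : ℤ) (c : ℤ) :=
    Nat.isCoprime_iff_coprime.mpr ((Nat.Prime.coprime_iff_not_dvd hp).mpr hc)
  obtain ⟨a, b, hab⟩ := h5
  have h6 : (a : L) * (p : L) + (b : L) * (c : L) = 1 := by exact_mod_cast congrArg (Int.cast : ℤ → L) hab
  have ha : w (a : L) ≤ 1 := by
    have := le_one w (a : 𝓞 L)
    simpa using this
  have hb : w (b : L) ≤ 1 := by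
    have := le_one w (b : 𝓞 L)
    simpa using this
  have h7 : w ((a : L) * (p : L) + (b : L) * (c : L)) ≤ max (w ((a : L) * (p : L))) (w ((b : L) * (c : L))) :=
    FinitePlace.add_le w _ _
  rw [h6, map_one, map_mul, map_mul] at h7
  have h8 : w (a : L) * w (p : L) < 1 :=
    lt_of_le_of_lt (mul_le_of_le_one_left (apply_nonneg w _) ha) h1
  have h9 : w (b : L) * w (c : L) < 1 :=
    lt_of_le_of_lt (mul_le_of_le_one_left (apply_nonneg w _) hb) h4
  exact absurd h7 (not_le.mpr (max_lt h8 h9))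

variable {ι : Type} [Finite ι]

theorem le_sup (w : FinitePlace L) (x : ι → 𝓞 L) (i : ι) : w (x i : L) ≤ ⨆ i, w (x i : L) :=
  le_ciSup (f := fun i => w (x i : L)) (Set.finite_range _).bddAbove i

omit [Finite ι] in
theorem sup_le_one (w : FinitePlace L) (x : ι → 𝓞 L) : (⨆ i, w (x i : L)) ≤ 1 := by
  rcases isEmpty_or_nonempty ι with h | h
  · rw [Real.iSup_of_isEmpty]
    exact zero_le_one
  · exact ciSup_le fun i => le_one w (x i)

theorem sup_eq_one (w : FinitePlace L) (x : ι → 𝓞 L) (i : ι) (h : w (x i : L) = 1) :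
    (⨆ i, w (x i : L)) = 1 :=
  le_antisymm (sup_le_one w x) (h ▸ le_sup w x i)

theorem sup_pos (w : FinitePlace L) (x : ι → 𝓞 L) (i : ι) (h : x i ≠ 0) :
    0 < ⨆ i, w (x i : L) := by
  refine lt_of_lt_of_le ?_ (le_sup w x i)
  rw [FinitePlace.pos_iff]
  exact_mod_cast h

end place

/-- the sum over the places -/
theorem log_norm_le {L : Type} [Field L] [NumberField L] (T : Finset ℕ) (hT : ∀ p ∈ T, p.Prime)
    (l : ℕ) (δ : Fin l → 𝓞 L) (i₀ : Fin l) (hi : δ i₀ ≠ 0) (c : ℕ) (hc0 : c ≠ 0)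
    (hc : ∀ p ∈ T, ¬ p ∣ c) :
    log ((Ideal.span (Set.range (fun o : Option (Fin l) =>
      (o.elim (c : 𝓞 L) δ : 𝓞 L)))).absNorm : ℝ) ≤ away L T (fun i => (δ i : L)) := by
  classical
  set x : Option (Fin l) → 𝓞 L := fun o => o.elim (c : 𝓞 L) δ with hx
  have hcL : (c : 𝓞 L) ≠ 0 := by exact_mod_cast hc0
  have hcL' : (c : L) ≠ 0 := by exact_mod_cast hc0
  have hx0 : x ≠ 0 := fun h => hcL (congrFun h none)
  have hprod := absNorm_mul_finprod_finitePlace_eq_one (K := L) hx0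
  have hf1 : (Function.mulSupport fun w : FinitePlace L => w (c : L)).Finite :=
    FinitePlace.hasFiniteMulSupport hcL'
  have hδL : (δ i₀ : L) ≠ 0 := by exact_mod_cast hi
  have hf2 : (Function.mulSupport fun w : FinitePlace L => w (δ i₀ : L)).Finite :=
    FinitePlace.hasFiniteMulSupport hδL
  set S : Finset (FinitePlace L) := hf1.toFinset ∪ hf2.toFinset with hS
  have hS1 : ∀ w : FinitePlace L, w ∉ S → w (c : L) = 1 ∧ w (δ i₀ : L) = 1 := by
    intro w hw
    rw [hS, Finset.mem_union, not_or, Set.Finite.mem_toFinset, Set.Finite.mem_toFinset,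
      Function.notMem_mulSupport, Function.notMem_mulSupport] at hw
    exact hw
  have hxn : ∀ w : FinitePlace L, w (x none : L) = w (c : L) := by
    intro w
    show w (((c : 𝓞 L) : 𝓞 L) : L) = w (c : L)
    congr 1
  have h1 : (∏ᶠ w : FinitePlace L, ⨆ i, w (x i : L)) = ∏ w ∈ S, ⨆ i, w (x i : L) := by
    apply finprod_eq_prod_of_mulSupport_subset
    intro w hw
    by_contra h
    exact hw (sup_eq_one w x none ((hxn w).trans (hS1 w h).1))
  have h2 : away L T (fun i => (δ i : L)) =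
      ∑ w ∈ S, if w ∉ placesOver L T then loc w (fun i => (δ i : L)) else 0 := by
    unfold away
    rw [finsum_eq_sum_of_support_subset (s := S)]
    · exact Finset.sum_congr rfl fun w _ => finsum_eq_if
    · intro w hw
      by_contra h
      apply hw
      show (∑ᶠ (_ : w ∉ placesOver L T), loc w (fun i => (δ i : L))) = 0
      rw [finsum_eq_if]
      have h3 : loc w (fun i => (δ i : L)) = 0 := by
        unfold loc
        rw [sup_eq_one w δ i₀ (hS1 w h).2, inv_one, posLog_one]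
      rw [h3, ite_self]
  rw [h1] at hprod
  have hpos : ∀ w : FinitePlace L, 0 < ⨆ i, w (x i : L) := fun w => sup_pos w x none hcL
  have hP : 0 < ∏ w ∈ S, ⨆ i, w (x i : L) := Finset.prod_pos fun w _ => hpos w
  have h3 : ((Ideal.span (Set.range x)).absNorm : ℝ) = (∏ w ∈ S, ⨆ i, w (x i : L))⁻¹ :=
    eq_inv_of_mul_eq_one_left hprod
  rw [h3, Real.log_inv, Real.log_prod (fun w _ => (hpos w).ne'), ← Finset.sum_neg_distrib, h2]
  apply Finset.sum_le_sum
  intro w _
  by_cases hw : w ∈ placesOver L T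
  · rw [if_neg (not_not.mpr hw)]
    have h4 : ∃ p ∈ T, p ≠ 0 ∧ w (p : L) ≠ 1 :=
      Pool.Agent.Results.MP_e44225_nt.LogTermDependsOnS.mem_placesOver.mp hw
    obtain ⟨p, hp, _, hwp⟩ := h4
    rw [sup_eq_one w x none ((hxn w).trans (eq_one_of_not_dvd w (hT p hp) hwp (hc p hp))),
      Real.log_one, neg_zero]
  · rw [if_pos hw]
    unfold loc
    have h5 : (⨆ i, w (δ i : L)) ≤ ⨆ i, w (x i : L) := by
      have : Nonempty (Fin l) := ⟨i₀⟩
      exact ciSup_le fun i => le_sup w x (some i)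
    calc - Real.log (⨆ i, w (x i : L)) ≤ - Real.log (⨆ i, w (δ i : L)) :=
          neg_le_neg (Real.log_le_log (sup_pos w δ i₀ hi) h5)
      _ = Real.log (⨆ i, w (δ i : L))⁻¹ := (Real.log_inv _).symm
      _ ≤ log⁺ (⨆ i, w (δ i : L))⁻¹ := le_max_right _ _

theorem main : Pool.Agent.H455.GC.S_TP → Pool.Agent.H455.GC.S_DSC0 := by
  intro hTP T hT K _ _ m
  have hE0 : ∀ p : ℕ, ∃ E : ℕ, p ∈ T → ∀ (L : Type) [Field L] [NumberField L],
      finrank ℚ L ≤ m * finrank ℚ K → (discr L).natAbs.factorization p ≤ E := by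
    intro p
    by_cases hp : p ∈ T
    · obtain ⟨E, hE⟩ := hTP p (m * finrank ℚ K) (hT p hp)
      exact ⟨E, fun _ => hE⟩
    · exact ⟨0, fun h => absurd h hp⟩
  choose E hE using hE0
  set B : ℕ := ∏ p ∈ T, p ^ E p with hB
  have hB1 : 1 ≤ B := Finset.prod_pos fun p hp => pow_pos (hT p hp).pos _
  refine ⟨(m * finrank ℚ K : ℕ) * Real.log B + m * Real.log (discr K).natAbs, ?_⟩
  intro L _ _ _ hKL l δ hδ hmem
  obtain ⟨i₀, hi⟩ := hδ
  have : FiniteDimensional K L := Module.Finite.of_restrictScalars_finite ℚ K L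
  have hdeg : finrank ℚ L = finrank ℚ K * finrank K L := (Module.finrank_mul_finrank ℚ K L).symm
  have hdeg' : finrank ℚ L ≤ m * finrank ℚ K := by
    rw [hdeg, mul_comm]
    exact Nat.mul_le_mul_right _ hKL
  have hdisc := natAbs_discr_eq_absNorm_differentIdeal_mul_natAbs_discr_pow K (𝓞 K) L (𝓞 L)
  set D := differentIdeal (𝓞 K) (𝓞 L) with hD
  have hdL : (discr L).natAbs ≠ 0 := Int.natAbs_ne_zero.mpr (discr_ne_zero L)
  have hdK : (discr K).natAbs ≠ 0 := Int.natAbs_ne_zero.mpr (discr_ne_zero K)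
  have hn0 : D.absNorm ≠ 0 := by
    intro h
    rw [h, zero_mul] at hdisc
    exact hdL hdisc
  obtain ⟨b, c, hbc, hc, hb⟩ := split T E hT D.absNorm hn0 (fun p hp => by
    refine le_trans ?_ (hE p hp L hdeg')
    exact (Nat.factorization_le_iff_dvd hn0 hdL).mpr (by rw [hdisc]; exact dvd_mul_right _ _) p)
  have hc0 : c ≠ 0 := by
    rintro rfl
    exact hn0 (by rw [hbc, mul_zero])
  have hlog := log_norm_le T hT l δ i₀ hi c hc0 hc
  set I := Ideal.span (Set.range (fun o : Option (Fin l) => (o.elim (c : 𝓞 L) δ : 𝓞 L))) with hI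
  have hle : Ideal.span {((B : ℕ) : 𝓞 L)} * I ≤ D := by
    rw [hI, Ideal.span_mul_span', Ideal.span_le]
    rintro _ ⟨u, hu, v, ⟨o, rfl⟩, rfl⟩
    rw [Set.mem_singleton_iff] at hu
    subst hu
    rcases o with _ | i
    · show ((B : ℕ) : 𝓞 L) * (c : 𝓞 L) ∈ D
      obtain ⟨b', hb'⟩ := hb
      have h1 : ((B : ℕ) : 𝓞 L) * (c : 𝓞 L) = (b' : 𝓞 L) * ((D.absNorm : ℕ) : 𝓞 L) := by
        rw [hbc, hB, hb']
        push_cast
        ring
      rw [h1]
      exact D.mul_mem_left _ (Ideal.absNorm_mem D)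
    · exact D.mul_mem_left _ (hmem i)
  have hdvd := Ideal.absNorm_dvd_absNorm_of_le hle
  rw [map_mul, Ideal.absNorm_span_natCast, RingOfIntegers.rank] at hdvd
  have hI0 : I.absNorm ≠ 0 := by
    rw [Ne, Ideal.absNorm_eq_zero_iff, hI, Ideal.span_eq_bot]
    intro h
    have := h (c : 𝓞 L) ⟨none, rfl⟩
    exact hc0 (by exact_mod_cast this)
  have hBn : (B ^ finrank ℚ L * I.absNorm) ≠ 0 :=
    mul_ne_zero (pow_ne_zero _ (by omega)) hI0
  have h2 : D.absNorm ≤ B ^ finrank ℚ L * I.absNorm := Nat.le_of_dvd (Nat.pos_of_ne_zero hBn) hdvd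
  have h3 : Real.log (D.absNorm : ℝ) ≤ finrank ℚ L * Real.log B + Real.log (I.absNorm : ℝ) := by
    have h4 : ((D.absNorm : ℕ) : ℝ) ≤ (B : ℝ) ^ finrank ℚ L * (I.absNorm : ℝ) := by
      exact_mod_cast h2
    have h5 : (0 : ℝ) < (D.absNorm : ℝ) := by exact_mod_cast Nat.pos_of_ne_zero hn0
    have h6 := Real.log_le_log h5 h4
    rwa [Real.log_mul (by positivity) (by exact_mod_cast hI0), Real.log_pow] at h6
  have h7 : |(discr L : ℝ)| = (D.absNorm : ℝ) * ((discr K).natAbs : ℝ) ^ finrank K L := by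
    rw [← Int.cast_abs, Int.abs_eq_natAbs, hdisc, Int.cast_natCast, Nat.cast_mul, Nat.cast_pow]
  have h8 : Real.log |(discr L : ℝ)| =
      Real.log (D.absNorm : ℝ) + finrank K L * Real.log ((discr K).natAbs : ℝ) := by
    rw [h7, Real.log_mul (by exact_mod_cast hn0) (pow_ne_zero _ (by exact_mod_cast hdK)),
      Real.log_pow]
  have h9 : (finrank K L : ℝ) * Real.log ((discr K).natAbs : ℝ) ≤
      m * Real.log ((discr K).natAbs : ℝ) := by
    apply mul_le_mul_of_nonneg_right (by exact_mod_cast hKL)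
    exact Real.log_natCast_nonneg _
  have h10 : (finrank ℚ L : ℝ) * Real.log B ≤ (m * finrank ℚ K : ℕ) * Real.log B := by
    apply mul_le_mul_of_nonneg_right (by exact_mod_cast hdeg')
    exact Real.log_natCast_nonneg _
  rw [h8]
  linarith

end Pool.Agent.H455.GC_DSC0
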