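import Mathlib
import Pool.Agent.H455.GCS

set_option autoImplicit false

namespace Pool.Agent.H455.GC_FS

open NumberField Real
open Pool.Agent.H455.GC

/-- FS: the local terms of a family which is not zero are almost all zero. -/
theorem main : Pool.Agent.H455.GC.S_FS := by
  intro L _ _ l u hu
  obtain ⟨i, hi⟩ := hu
  have hfin : (Function.mulSupport fun w : FinitePlace L => w (u i)).Finite :=
    FinitePlace.hasFiniteMulSupport hi
  refine hfin.subset ?_
  intro w hw
  rw [Function.mem_mulSupport]
  intro h1
  rw [Function.mem_support] at hw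
  apply hw
  have hb : BddAbove (Set.range fun j => w (u j)) := (Set.finite_range _).bddAbove
  have h2 : 1 ≤ ⨆ j, w (u j) := by
    calc (1 : ℝ) = w (u i) := h1.symm
      _ ≤ ⨆ j, w (u j) := le_ciSup hb i
  unfold loc
  rw [Real.posLog_eq_zero_iff, abs_inv, abs_of_nonneg (zero_le_one.trans h2)]
  exact inv_le_one_of_one_le₀ h2

end Pool.Agent.H455.GC_FS
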