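import Mathlib
import Pool.Agent.H455.GCS

/-!
# GAIN: a point above `s` where the given functions are small
-/

set_option autoImplicit false

namespace Pool.Agent.H455.GC_GAIN

open NumberField Real Polynomial Module
open Pool.Agent.H505.VL Pool.Agent.H455.GC

/-- a polynomial with a zero at `c` is small near `c` -/
theorem poly_bound (H : ℂ[X]) (c : ℂ) (h0 : H.eval c = 0) :
    ∃ C : ℝ, 0 ≤ C ∧ ∀ z : ℂ, ‖z - c‖ ≤ 1 → ‖H.eval z‖ ≤ C * ‖z - c‖ := by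
  obtain ⟨H', hH'⟩ := dvd_iff_isRoot.2 h0
  obtain ⟨C, hC⟩ := (isCompact_closedBall c 1).exists_bound_of_continuousOn
    (f := fun z => H'.eval z) H'.continuous.continuousOn
  refine ⟨max C 0, le_max_right _ _, fun z hz => ?_⟩
  have h1 := hC z (by rw [Metric.mem_closedBall, dist_eq_norm]; exact hz)
  rw [hH', eval_mul, eval_sub, eval_X, eval_C, norm_mul, mul_comm]
  exact mul_le_mul_of_nonneg_right (h1.trans (le_max_left _ _)) (norm_nonneg _)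

theorem hom_aeval {k Ω : Type} [Field k] [Field Ω] [Algebra k Ω] (σ : Ω →+* ℂ) (s : Ω) (h : k[X]) :
    σ (aeval s h) = (h.map (σ.comp (algebraMap k Ω))).eval (σ s) := by
  rw [aeval_def, hom_eval₂, eval_map]

theorem main : Pool.Agent.H455.GC.S_PTS → Pool.Agent.H455.GC.S_NZ → Pool.Agent.H455.GC.S_VAN →
    Pool.Agent.H455.GC.S_GAIN := by
  classical
  intro hP hN hV k _ _ A _ _ _ _ _ _ _
  obtain ⟨E, hE, hE'⟩ := hP k A
  refine ⟨E, hE, ?_⟩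
  intro σ Q₀ l ζ hζ
  have hn1 : 0 < finrank k[X] A := finrank_pos
  obtain ⟨M, κ, hκ, hM⟩ := hV l (finrank k[X] A)
  obtain ⟨G, hG⟩ : ∃ G : ℕ → A, ∀ τ, G τ = ∑ j : Fin l, (τ : A) ^ (j : ℕ) * ζ j :=
    ⟨fun τ => ∑ j : Fin l, (τ : A) ^ (j : ℕ) * ζ j, fun _ => rfl⟩
  have hG0 : ∀ τ, Q₀ (G τ) = 0 := by
    intro τ
    rw [hG, map_sum]
    refine Finset.sum_eq_zero fun j _ => ?_
    rw [map_mul, hζ j, mul_zero]
  have hb : ∀ τ, ∃ C : ℝ, 0 ≤ C ∧ ∀ s : AlgebraicClosure k, ‖σ s - σ (Q₀ (tt k A))‖ ≤ 1 →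
      ‖σ (aeval s (Algebra.norm k[X] (G τ)))‖ ≤ C * ‖σ s - σ (Q₀ (tt k A))‖ := by
    intro τ
    have h0 := (hN k A (G τ)).2 _ Q₀ (hG0 τ)
    obtain ⟨C, hC0, hC⟩ := poly_bound
      ((Algebra.norm k[X] (G τ)).map (σ.comp (algebraMap k (AlgebraicClosure k))))
      (σ (Q₀ (tt k A))) (by rw [← hom_aeval, h0, map_zero])
    refine ⟨C, hC0, fun s hs => ?_⟩
    rw [hom_aeval]
    exact hC _ hs
  choose C hC0 hC using hb
  refine ⟨1 + κ ^ (finrank k[X] A) * ∑ τ ∈ Finset.range M, C τ, ?_, ?_⟩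
  · have h1 : 0 ≤ ∑ τ ∈ Finset.range M, C τ := Finset.sum_nonneg fun τ _ => hC0 τ
    positivity
  intro s hs hs1
  obtain ⟨P, hP1, hP2, -, hP4⟩ := hE' (AlgebraicClosure k) s hs
  obtain ⟨τ, hτ, hτ'⟩ := hM {x // x ∈ P} (by rw [Fintype.card_coe, hP2])
    (fun x i => σ (x.1 (ζ i)))
  have hsum : ∀ x : A →ₐ[k] AlgebraicClosure k,
      ∑ j : Fin l, (τ : ℂ) ^ (j : ℕ) * σ (x (ζ j)) = σ (x (G τ)) := by
    intro x
    rw [hG, map_sum, map_sum]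
    refine Finset.sum_congr rfl fun j _ => ?_
    rw [map_mul, map_mul, map_pow, map_pow, map_natCast, map_natCast]
  have hne : P.Nonempty := by
    rw [← Finset.card_pos, hP2]
    exact hn1
  obtain ⟨x, hxP, hx⟩ := Finset.exists_min_image P (fun x => ‖σ (x (G τ))‖) hne
  refine ⟨x, (hP1 x).1 hxP, fun i => ?_⟩
  have h1 : ‖σ (x (G τ))‖ ^ (finrank k[X] A) ≤ C τ * ‖σ s - σ (Q₀ (tt k A))‖ := by
    refine le_trans ?_ (hC τ s hs1)
    rw [hP4, map_prod, norm_prod, ← hP2, ← Finset.prod_const]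
    exact Finset.prod_le_prod (fun _ _ => norm_nonneg _) fun y hy => hx y hy
  have h2 : ‖σ (x (ζ i))‖ ≤ κ * ‖σ (x (G τ))‖ := by
    have := hτ' ⟨x, hxP⟩ i
    rw [hsum x] at this
    exact this
  have hε : 0 ≤ ‖σ s - σ (Q₀ (tt k A))‖ := norm_nonneg _
  have hCle : C τ ≤ ∑ τ ∈ Finset.range M, C τ :=
    Finset.single_le_sum (fun τ _ => hC0 τ) (Finset.mem_range.2 hτ)
  calc ‖σ (x (ζ i))‖ ^ (finrank k[X] A) ≤ (κ * ‖σ (x (G τ))‖) ^ (finrank k[X] A) :=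
        pow_le_pow_left₀ (norm_nonneg _) h2 _
    _ = κ ^ (finrank k[X] A) * ‖σ (x (G τ))‖ ^ (finrank k[X] A) := mul_pow _ _ _
    _ ≤ κ ^ (finrank k[X] A) * (C τ * ‖σ s - σ (Q₀ (tt k A))‖) :=
        mul_le_mul_of_nonneg_left h1 (by positivity)
    _ ≤ κ ^ (finrank k[X] A) * ((∑ τ ∈ Finset.range M, C τ) * ‖σ s - σ (Q₀ (tt k A))‖) :=
        mul_le_mul_of_nonneg_left (mul_le_mul_of_nonneg_right hCle hε) (by positivity)
    _ ≤ (1 + κ ^ (finrank k[X] A) * ∑ τ ∈ Finset.range M, C τ) *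
        ‖σ s - σ (Q₀ (tt k A))‖ := by nlinarith

end Pool.Agent.H455.GC_GAIN
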