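import Mathlib
import Pool.Agent.H455.GCS
import Pool.Graph.R_seed8.Helper259.HtExt

/-!
# GC-HA: the height of `t₀ p / q` in an extension (helper294)
-/

set_option autoImplicit false

namespace Pool.Agent.H455.GC_HA

open NumberField Real Module

theorem height_algebraMap (K L : Type) [Field K] [NumberField K] [Field L] [NumberField L]
    [Algebra K L] (a : K) :
    Height.logHeight₁ (algebraMap K L a) = finrank K L * Height.logHeight₁ a := by
  rw [Height.logHeight₁_eq_logHeight, Height.logHeight₁_eq_logHeight,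
    ← Pool.Agent.Helper259.HtExt.logHeight_ext (L := L)]
  congr 1
  funext i
  fin_cases i
  · rfl
  · simp

theorem fin_nat {L : Type} [Field L] [NumberField L] (v : FinitePlace L) (n : ℕ) :
    v (n : L) ≤ 1 := by
  induction n with
  | zero => simp
  | succ n ih =>
    push_cast
    refine (FinitePlace.add_le v _ _).trans ?_
    rw [map_one]
    exact max_le ih le_rfl

theorem ht_div (L : Type) [Field L] [NumberField L] (p q : ℕ) (hq : 0 < q) (hqp : q ≤ p) :
    Height.logHeight₁ ((p : L) / q) ≤ finrank ℚ L * log p := by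
  have hp : 0 < p := hq.trans_le hqp
  have hp1 : (1 : ℝ) ≤ p := by exact_mod_cast hp
  rw [Height.logHeight₁_eq_log_mulHeight₁, Height.mulHeight₁_div_eq_mulHeight]
  have hx : (![(p : L), (q : L)] : Fin 2 → L) ≠ 0 := by
    intro h
    have h1 := congrFun h 0
    simp only [Matrix.cons_val_zero, Pi.zero_apply] at h1
    exact absurd (Nat.cast_eq_zero.1 h1) hp.ne'
  rw [NumberField.mulHeight_eq hx]
  have e1 : ∀ v : InfinitePlace L, (⨆ i, v (![(p : L), (q : L)] i)) ≤ p := by
    intro v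
    refine ciSup_le fun i => ?_
    fin_cases i
    · show v (p : L) ≤ p
      rw [InfinitePlace.map_natCast]
    · show v (q : L) ≤ p
      rw [InfinitePlace.map_natCast]
      exact_mod_cast hqp
  have e0 : ∀ v : InfinitePlace L, 0 ≤ (⨆ i, v (![(p : L), (q : L)] i)) := fun v =>
    Real.iSup_nonneg fun i => apply_nonneg v _
  have e2 : ∏ v : InfinitePlace L, (⨆ i, v (![(p : L), (q : L)] i)) ^ v.mult ≤
      (p : ℝ) ^ finrank ℚ L := by
    rw [← InfinitePlace.sum_mult_eq (K := L), ← Finset.prod_pow_eq_pow_sum]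
    exact Finset.prod_le_prod (fun v _ => pow_nonneg (e0 v) _)
      fun v _ => pow_le_pow_left₀ (e0 v) (e1 v) _
  have e3 : 0 ≤ ∏ᶠ v : FinitePlace L, (⨆ i, v (![(p : L), (q : L)] i)) ∧
      ∏ᶠ v : FinitePlace L, (⨆ i, v (![(p : L), (q : L)] i)) ≤ 1 := by
    refine finprod_induction (fun x : ℝ => 0 ≤ x ∧ x ≤ 1) ⟨zero_le_one, le_rfl⟩
      (fun x y hx hy => ⟨mul_nonneg hx.1 hy.1, mul_le_one₀ hx.2 hy.1 hy.2⟩) fun v => ⟨?_, ?_⟩
    · exact Real.iSup_nonneg fun i => apply_nonneg v _
    · refine ciSup_le fun i => ?_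
      fin_cases i
      · exact fin_nat v p
      · exact fin_nat v q
  have hP : (1 : ℝ) ≤ (p : ℝ) ^ finrank ℚ L := one_le_pow₀ hp1
  have e4 : (∏ v : InfinitePlace L, (⨆ i, v (![(p : L), (q : L)] i)) ^ v.mult) *
      ∏ᶠ v : FinitePlace L, (⨆ i, v (![(p : L), (q : L)] i)) ≤ (p : ℝ) ^ finrank ℚ L := by
    calc _ ≤ (p : ℝ) ^ finrank ℚ L * 1 := mul_le_mul e2 e3.2 e3.1 (by positivity)
      _ = _ := mul_one _
  rw [← Real.log_pow]
  have e5 : 0 ≤ (∏ v : InfinitePlace L, (⨆ i, v (![(p : L), (q : L)] i)) ^ v.mult) *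
      ∏ᶠ v : FinitePlace L, (⨆ i, v (![(p : L), (q : L)] i)) :=
    mul_nonneg (Finset.prod_nonneg fun v _ => pow_nonneg (e0 v) _) e3.1
  rcases e5.eq_or_lt with h | h
  · rw [← h, Real.log_zero]
    exact Real.log_nonneg hP
  · exact Real.log_le_log h e4

theorem main : Pool.Agent.H455.GC.S_HA := by
  intro K L _ _ _ _ _ t₀ p q hq hqp
  refine ⟨height_algebraMap K L t₀, ?_⟩
  refine (Height.logHeight₁_mul_le _ _).trans ?_
  rw [height_algebraMap K L t₀]
  have := ht_div L p q hq hqp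
  linarith

end Pool.Agent.H455.GC_HA
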