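import Mathlib
import Pool.Agent.H455.GCS

/-! # Integrality of values (helper965) -/

set_option autoImplicit false

namespace Pool.Agent.H455.GC_INTG

open NumberField Polynomial Module
open Pool.Agent.H455.GC

/-- a root of a monic polynomial, multiplied by a common denominator of the coefficients, is integral -/
lemma root_integral {L : Type} [Field L] (Q : L[X]) (hQ : Q.Monic) (z e : L) (hz : Q.eval z = 0)
    (he : IsIntegral ℤ e) (hc : ∀ i < Q.natDegree, IsIntegral ℤ (e * Q.coeff i)) :
    IsIntegral ℤ (e * z) := by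
  have hcoef : ∀ i, IsIntegral ℤ ((Q.scaleRoots e).coeff i) := by
    intro i
    rw [Polynomial.coeff_scaleRoots]
    rcases lt_trichotomy i Q.natDegree with h | h | h
    · obtain ⟨r, hr⟩ : ∃ r, Q.natDegree - i = r + 1 := ⟨Q.natDegree - i - 1, by omega⟩
      rw [hr, pow_succ, show Q.coeff i * (e ^ r * e) = (e * Q.coeff i) * e ^ r by ring]
      exact (hc i h).mul (he.pow r)
    · rw [h, Nat.sub_self, pow_zero, mul_one, hQ.coeff_natDegree]
      exact isIntegral_one
    · rw [Polynomial.coeff_eq_zero_of_natDegree_lt h, zero_mul]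
      exact isIntegral_zero
  have hl : Q.scaleRoots e ∈ Polynomial.lifts (algebraMap (integralClosure ℤ L) L) := by
    rw [Polynomial.lifts_iff_coeff_lifts]
    intro n
    exact ⟨⟨_, hcoef n⟩, rfl⟩
  obtain ⟨R, hR1, -, hR2⟩ := Polynomial.lifts_and_natDegree_eq_and_monic hl
    ((Polynomial.monic_scaleRoots_iff e).mpr hQ)
  have hroot : (Q.scaleRoots e).eval (e * z) = 0 := by
    have h1 := Polynomial.scaleRoots_eval₂_eq_zero (RingHom.id L) (p := Q) (r := z) (s := e) (by
      rw [Polynomial.eval₂_id]
      exact hz)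
    rw [Polynomial.eval₂_id] at h1
    exact h1
  have h2 : IsIntegral (integralClosure ℤ L) (e * z) := by
    refine ⟨R, hR2, ?_⟩
    rw [← Polynomial.eval_map, hR1]
    exact hroot
  exact isIntegral_trans (R := ℤ) (A := integralClosure ℤ L) _ h2

/-- finitely many elements of a number field have a common denominator -/
lemma common_den (K : Type) [Field K] [NumberField K] (s : Finset K) :
    ∃ n : ℕ, 0 < n ∧ ∀ z ∈ s, IsIntegral ℤ ((n : K) * z) := by
  have hal : Algebra.IsAlgebraic ℤ K :=
    (IsFractionRing.comap_isAlgebraic_iff (A := ℤ) (K := ℚ) (C := K)).mpr inferInstance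
  obtain ⟨y, hy0, hy⟩ := Algebra.IsAlgebraic.exists_integral_multiples ℤ s
  refine ⟨y.natAbs, Int.natAbs_pos.mpr hy0, fun z hz => ?_⟩
  have h1 := hy z hz
  rw [zsmul_eq_mul] at h1
  rcases Int.natAbs_eq y with h | h
  · have h2 : ((y.natAbs : ℕ) : K) = (y : K) := by
      have h3 : ((y : ℤ) : K) = (((y.natAbs : ℕ) : ℤ) : K) := congrArg _ h
      rw [h3, Int.cast_natCast]
    rw [h2]
    exact h1
  · have h2 : ((y.natAbs : ℕ) : K) = -(y : K) := by
      have h3 : ((y : ℤ) : K) = ((-((y.natAbs : ℕ) : ℤ) : ℤ) : K) := congrArg _ h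
      rw [h3, Int.cast_neg, Int.cast_natCast, neg_neg]
    rw [h2, neg_mul]
    exact h1.neg

theorem main : S_INTG := by
  classical
  intro k _ _ A _ _ _ _ _ K _ _ _ t₀ a
  obtain ⟨P, hPm, hP⟩ := (Algebra.IsIntegral.isIntegral (R := k[X]) a : IsIntegral k[X] a)
  obtain ⟨n, hn0, hn⟩ := common_den K (insert t₀ (P.support.biUnion fun i =>
    (P.coeff i).support.image fun j => algebraMap k K ((P.coeff i).coeff j)))
  set d := P.support.sup (fun i => (P.coeff i).natDegree) with hd
  refine ⟨n ^ (1 + d), d, by positivity, ?_⟩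
  intro L _ _ _ _ _ p q y hq hyt
  have hq0 : (q : L) ≠ 0 := by
    have : q ≠ 0 := by omega
    exact_mod_cast this
  -- values of polynomials in `t`
  have hy : ∀ c : k[X], y (algebraMap k[X] A c) = aeval (y (tt k A)) c := by
    intro c
    have h1 : (y.comp (IsScalarTower.toAlgHom k k[X] A)) = aeval (y (tt k A)) := by
      apply Polynomial.algHom_ext
      rw [Polynomial.aeval_X]
      rfl
    exact DFunLike.congr_fun h1 c
  set f : k[X] →+* L := (y : A →+* L).comp (algebraMap k[X] A) with hf
  have hfc : ∀ c, f c = aeval (y (tt k A)) c := hy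
  have hQm : (P.map f).Monic := hPm.map f
  have hQz : (P.map f).eval (y a) = 0 := by
    rw [Polynomial.eval_map]
    have h1 := Polynomial.hom_eval₂ P (algebraMap k[X] A) (y : A →+* L) a
    rw [hP, map_zero] at h1
    exact h1.symm
  have hnat : ∀ m : ℕ, IsIntegral ℤ (m : L) := fun m => by
    have := isIntegral_algebraMap (R := ℤ) (A := L) (x := (m : ℤ))
    rwa [show algebraMap ℤ L (m : ℤ) = (m : L) by simp] at this
  have he : IsIntegral ℤ (((n : L) ^ (1 + d)) * (q : L) ^ d) :=
    ((hnat n).pow _).mul ((hnat q).pow _)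
  have hmapK : ∀ z : K, IsIntegral ℤ z → IsIntegral ℤ (algebraMap K L z) := fun z hz =>
    hz.map ((algebraMap K L).toIntAlgHom)
  have ht0 : IsIntegral ℤ ((n : L) * algebraMap K L t₀) := by
    have h1 := hmapK _ (hn t₀ (Finset.mem_insert_self _ _))
    rwa [map_mul, map_natCast] at h1
  have hcoef : ∀ i < (P.map f).natDegree,
      IsIntegral ℤ (((n : L) ^ (1 + d) * (q : L) ^ d) * (P.map f).coeff i) := by
    intro i _
    rw [Polynomial.coeff_map, hfc, Polynomial.aeval_def, Polynomial.eval₂_eq_sum,
      Polynomial.sum_def, Finset.mul_sum]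
    refine IsIntegral.sum _ fun j hj => ?_
    have hci : P.coeff i ≠ 0 := by
      intro h
      rw [h] at hj
      simp at hj
    have hi : i ∈ P.support := Polynomial.mem_support_iff.mpr hci
    have hjd : j ≤ d := by
      have h1 : j ≤ (P.coeff i).natDegree := Polynomial.le_natDegree_of_mem_supp j hj
      have h2 : (P.coeff i).natDegree ≤ d :=
        Finset.le_sup (f := fun i => (P.coeff i).natDegree) hi
      omega
    have hcij : IsIntegral ℤ ((n : L) * algebraMap k L ((P.coeff i).coeff j)) := by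
      have h1 := hmapK _ (hn (algebraMap k K ((P.coeff i).coeff j)) (by
        refine Finset.mem_insert_of_mem (Finset.mem_biUnion.mpr ⟨i, hi, ?_⟩)
        exact Finset.mem_image.mpr ⟨j, hj, rfl⟩))
      rwa [map_mul, map_natCast, ← IsScalarTower.algebraMap_apply k K L] at h1
    obtain ⟨r, hr⟩ : ∃ r, d = j + r := ⟨d - j, by omega⟩
    have key : ((n : L) ^ (1 + d) * (q : L) ^ d) *
        (algebraMap k L ((P.coeff i).coeff j) * (y (tt k A)) ^ j) =
        ((n : L) * algebraMap k L ((P.coeff i).coeff j)) *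
          ((n : L) * algebraMap K L t₀) ^ j * (p : L) ^ j * (q : L) ^ r * (n : L) ^ r := by
      rw [hyt, hr, pow_add, pow_add, pow_add, pow_one, mul_pow, mul_pow, div_pow]
      field_simp
    rw [key]
    exact ((((hcij.mul (ht0.pow j)).mul ((hnat p).pow j)).mul ((hnat q).pow r)).mul
      ((hnat n).pow r))
  have hfin := root_integral (P.map f) hQm (y a) _ hQz he hcoef
  push_cast
  exact hfin

end Pool.Agent.H455.GC_INTG
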