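import Mathlib
import Pool.Agent.H455.GCS

set_option autoImplicit false

namespace Pool.Agent.H455.GC_NS

open NumberField Real Pool.Agent.H455.GC
open Pool.Agent.H505.VL (placesOver)

theorem unit_of_primes (L : Type) [Field L] [NumberField L] (T : Finset ℕ) (w : FinitePlace L)
    (hw : ∀ p ∈ T, p ≠ 0 → w (p : L) = 1) :
    ∀ n : ℕ, 0 < n → n.primeFactors ⊆ T → w (n : L) = 1 := by
  intro n
  induction n using Nat.strong_induction_on with
  | _ n ih =>
    intro hn hT
    by_cases h1 : n = 1
    · subst h1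
      simp
    · have hp : n.minFac.Prime := Nat.minFac_prime h1
      have hd : n.minFac ∣ n := Nat.minFac_dvd n
      obtain ⟨m, hm⟩ := hd
      have hm0 : 0 < m := by
        rcases Nat.eq_zero_or_pos m with h | h
        · rw [h, mul_zero] at hm
          omega
        · exact h
      have hlt : m < n := by
        have h2 := hp.two_le
        nlinarith
      have hmT : m.primeFactors ⊆ T :=
        (Nat.primeFactors_mono ⟨n.minFac, by rw [mul_comm]; exact hm⟩ hn.ne').trans hT
      have hpT : n.minFac ∈ T :=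
        hT (Nat.mem_primeFactors.2 ⟨hp, Nat.minFac_dvd n, hn.ne'⟩)
      have e1 := ih m hlt hm0 hmT
      have e2 := hw _ hpT hp.ne_zero
      have e3 : (n : L) = ((n.minFac : ℕ) : L) * (m : L) := by
        rw [← Nat.cast_mul, ← hm]
      rw [e3, map_mul, e1, e2, one_mul]

theorem loc_le (L : Type) [Field L] [NumberField L] (T : Finset ℕ) (p q : ℕ) (hp : 0 < p)
    (hq : 0 < q) (hpT : p.primeFactors ⊆ T) (hqT : q.primeFactors ⊆ T) (z : L) (hz : z ≠ 0)
    (l : ℕ) (u : Fin l → L) (hu : ∃ i, u i = z * ((p : L) / q)) (w : FinitePlace L)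
    (hw : w ∉ placesOver L T) : loc w u ≤ log⁺ (w z⁻¹) := by
  have hw' : ∀ p ∈ T, p ≠ 0 → w (p : L) = 1 := by
    intro r hr hr0
    by_contra hne
    exact hw (Pool.Agent.Results.MP_e44225_nt.LogTermDependsOnS.mem_placesOver.2 ⟨r, hr, hr0, hne⟩)
  obtain ⟨i, hi⟩ := hu
  have e : w (u i) = w z := by
    rw [hi, map_mul, map_div₀, unit_of_primes L T w hw' p hp hpT,
      unit_of_primes L T w hw' q hq hqT, div_one, mul_one]
  have hwz : 0 < w z := by
    rw [FinitePlace.pos_iff]
    exact hz
  have hs : w z ≤ ⨆ i, w (u i) := by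
    rw [← e]
    exact le_ciSup (f := fun i => w (u i)) (Set.finite_range _).bddAbove i
  rw [map_inv₀]
  exact posLog_le_posLog (inv_nonneg.2 (hwz.le.trans hs)) (inv_anti₀ hwz hs)

theorem main : Pool.Agent.H455.GC.S_FS → Pool.Agent.H455.GC.S_NS := by
  intro hFS L _ _ T _ p q hp hq hpT hqT z hz l u hu
  have hu0 : ∃ i, u i ≠ 0 := by
    obtain ⟨i, hi⟩ := hu
    refine ⟨i, ?_⟩
    rw [hi]
    have h1 : (p : L) ≠ 0 := by exact_mod_cast hp.ne'
    have h2 : (q : L) ≠ 0 := by exact_mod_cast hq.ne'
    exact mul_ne_zero hz (div_ne_zero h1 h2)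
  have f1 := hFS L l u hu0
  have f2 := hFS L 1 (fun _ => z) ⟨0, hz⟩
  have eloc : ∀ w : FinitePlace L, loc w (fun _ : Fin 1 => z) = log⁺ (w z⁻¹) := by
    intro w
    unfold loc
    rw [ciSup_const, map_inv₀]
  classical
  set F : Finset (FinitePlace L) := f1.toFinset ∪ f2.toFinset with hF
  have hL : away L T u = ∑ w ∈ F, if w ∉ placesOver L T then loc w u else 0 := by
    unfold away
    have : (fun w : FinitePlace L => ∑ᶠ (_ : w ∉ placesOver L T), loc w u) =
        fun w => if w ∉ placesOver L T then loc w u else 0 := by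
      funext w
      rw [finsum_eq_if]
    rw [this]
    refine finsum_eq_sum_of_support_subset _ ?_
    intro w hw
    rw [Function.mem_support] at hw
    rw [hF, Finset.coe_union, Set.Finite.coe_toFinset, Set.Finite.coe_toFinset]
    left
    rw [Function.mem_support]
    intro h
    apply hw
    split_ifs
    · rfl
    · exact h
  have hR : ∑ᶠ w : FinitePlace L, log⁺ (w z⁻¹) = ∑ w ∈ F, log⁺ (w z⁻¹) := by
    refine finsum_eq_sum_of_support_subset _ ?_
    intro w hw
    rw [Function.mem_support] at hw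
    rw [hF, Finset.coe_union, Set.Finite.coe_toFinset, Set.Finite.coe_toFinset]
    right
    rw [Function.mem_support, eloc]
    exact hw
  have hH : ∑ᶠ w : FinitePlace L, log⁺ (w z⁻¹) ≤ Height.logHeight₁ z := by
    rw [← Height.logHeight₁_inv, NumberField.logHeight₁_eq]
    have : (0 : ℝ) ≤ ∑ v : InfinitePlace L, v.mult * log⁺ (v z⁻¹) :=
      Finset.sum_nonneg fun v _ => mul_nonneg (Nat.cast_nonneg _) posLog_nonneg
    linarith
  refine le_trans ?_ hH
  rw [hL, hR]
  refine Finset.sum_le_sum fun w _ => ?_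
  split_ifs with h
  · exact posLog_nonneg
  · exact loc_le L T p q hp hq hpT hqT z hz l u hu w h

end Pool.Agent.H455.GC_NS
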