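import Mathlib
import Pool.Agent.H455.GCS

set_option autoImplicit false

namespace Pool.Agent.H455.GC_NZ

open NumberField Real Polynomial Module
open Pool.Agent.H455.GC

/-- An element divides its norm (Cayley-Hamilton). -/
theorem dvd_norm {R A : Type} [CommRing R] [CommRing A] [Algebra R A] [Module.Free R A]
    [Module.Finite R A] [Nontrivial R] (a : A) : a ∣ algebraMap R A (Algebra.norm R a) := by
  have h1 : aeval a (LinearMap.charpoly (Algebra.lmul R A a)) = 0 := by
    have h2 : aeval (Algebra.lmul R A a) (LinearMap.charpoly (Algebra.lmul R A a)) = 0 :=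
      LinearMap.aeval_self_charpoly _
    have h3 : Algebra.lmul R A (aeval a (LinearMap.charpoly (Algebra.lmul R A a))) = 0 := by
      rw [← Polynomial.aeval_algHom_apply]
      exact h2
    have h4 := congrArg (fun f : A →ₗ[R] A => f 1) h3
    simpa using h4
  have h5 : (X : R[X]) ∣ LinearMap.charpoly (Algebra.lmul R A a) -
      C ((LinearMap.charpoly (Algebra.lmul R A a)).coeff 0) := by
    rw [X_dvd_iff]
    simp
  obtain ⟨g, hg⟩ := h5
  have h6 : a * aeval a g = - algebraMap R A ((LinearMap.charpoly (Algebra.lmul R A a)).coeff 0) := by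
    have h7 := congrArg (aeval a) hg
    rw [map_sub, map_mul, aeval_X, aeval_C, h1, zero_sub] at h7
    exact h7.symm
  have h8 : Algebra.norm R a = (-1) ^ (finrank R A) *
      (LinearMap.charpoly (Algebra.lmul R A a)).coeff 0 := by
    rw [Algebra.norm_apply]
    exact LinearMap.det_eq_sign_charpoly_coeff _
  rw [h8, map_mul]
  refine Dvd.dvd.mul_left ?_ _
  have h9 : algebraMap R A ((LinearMap.charpoly (Algebra.lmul R A a)).coeff 0) =
      a * (-aeval a g) := by
    rw [mul_neg, h6, neg_neg]
  rw [h9]
  exact dvd_mul_right _ _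

theorem main : S_NZ := by
  intro k _ _ A _ _ _ _ _ _ _ a
  have : Module.Free k[X] A := Module.free_of_finite_type_torsion_free'
  refine ⟨fun ha => ?_, fun L _ _ y hy => ?_⟩
  · exact Algebra.norm_ne_zero_iff.2 ha
  · obtain ⟨b, hb⟩ := dvd_norm (R := k[X]) a
    have h1 : y (algebraMap k[X] A (Algebra.norm k[X] a)) = 0 := by
      rw [hb, map_mul, hy, zero_mul]
    have h2 : ∀ p : k[X], y (algebraMap k[X] A p) = aeval (y (tt k A)) p := by
      intro p
      have h3 : algebraMap k[X] A p = aeval (tt k A) p := by
        have h4 := (Polynomial.aeval_algHom_apply (IsScalarTower.toAlgHom k k[X] A) (X : k[X]) p)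
        rw [Polynomial.aeval_X_left_apply] at h4
        exact h4.symm
      rw [h3, Polynomial.aeval_algHom_apply]
    rw [← h2]
    exact h1

end Pool.Agent.H455.GC_NZ
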