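import Mathlib
import Pool.Agent.H455.GCS

/-!
# PTS: the points above `s`, for all but finitely many `s` (helper738)
-/

set_option autoImplicit false
set_option linter.unusedSectionVars false

namespace Pool.Agent.H455.GC_PTS

open NumberField Real Polynomial Module
open Pool.Agent.H455.GC
open scoped nonZeroDivisors TensorProduct

/-- The discriminant of a basis of a finite extension of domains of characteristic zero is not
zero. -/
theorem discr_ne {R A : Type} [CommRing R] [IsDomain R] [CharZero R] [CommRing A] [IsDomain A]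
    [Algebra R A] [Module.Finite R A] [FaithfulSMul R A] {ι : Type} [Fintype ι] [DecidableEq ι]
    (ω : Basis ι R A) : Algebra.discr R ω ≠ 0 := by
  have hAlg : Algebra.IsAlgebraic R A := inferInstance
  have hfaith : FaithfulSMul R (FractionRing A) :=
    (faithfulSMul_iff_algebraMap_injective R (FractionRing A)).2 (by
      rw [IsScalarTower.algebraMap_eq R A (FractionRing A)]
      exact (IsFractionRing.injective A (FractionRing A)).comp
        (FaithfulSMul.algebraMap_injective R A))
  let _ : Algebra (FractionRing R) (FractionRing A) := FractionRing.liftAlgebra R (FractionRing A)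
  have : IsScalarTower R (FractionRing R) (FractionRing A) :=
    FractionRing.isScalarTower_liftAlgebra R (FractionRing A)
  have : CharZero (FractionRing R) := IsFractionRing.charZero_of_isFractionRing R
  have hloc : IsLocalization (Algebra.algebraMapSubmonoid A R⁰) (FractionRing A) := inferInstance
  have hfin : FiniteDimensional (FractionRing R) (FractionRing A) :=
    Module.Finite.of_basis (ω.localizationLocalization (FractionRing R) R⁰ (FractionRing A))
  have h1 := Algebra.discr_localizationLocalization R (Rₘ := FractionRing R) R⁰ (FractionRing A) ω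
  have h2 := Algebra.discr_not_zero_of_basis (FractionRing R)
    (ω.localizationLocalization (FractionRing R) R⁰ (FractionRing A))
  intro h0
  apply h2
  rw [h1, h0, map_zero]

section base

variable {R A : Type} [CommRing R] [CommRing A] [Algebra R A] [Module.Finite R A]
  [Module.Free R A] (Ω : Type) [Field Ω] [Algebra R Ω]

theorem lmul_base (a : A) : Algebra.lmul Ω (Ω ⊗[R] A) (1 ⊗ₜ a) =
    (Algebra.lmul R A a).baseChange Ω := by
  ext c
  simp

theorem trace_base (a : A) : Algebra.trace Ω (Ω ⊗[R] A) (1 ⊗ₜ a) =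
    algebraMap R Ω (Algebra.trace R A a) := by
  rw [Algebra.trace_apply, lmul_base, LinearMap.trace_baseChange, Algebra.trace_apply]

theorem norm_base (a : A) : Algebra.norm Ω (1 ⊗ₜ a : Ω ⊗[R] A) =
    algebraMap R Ω (Algebra.norm R a) := by
  rw [Algebra.norm_apply, lmul_base, LinearMap.det_baseChange, Algebra.norm_apply]

theorem discr_base {ι : Type} [Fintype ι] [DecidableEq ι] (ω : Basis ι R A) :
    Algebra.discr Ω (Algebra.TensorProduct.basis Ω ω) = algebraMap R Ω (Algebra.discr R ω) := by
  rw [Algebra.discr_def, Algebra.discr_def, RingHom.map_det]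
  congr 1
  ext i j
  rw [Algebra.traceMatrix_apply, Algebra.traceForm_apply, RingHom.mapMatrix_apply, Matrix.map_apply,
    Algebra.traceMatrix_apply, Algebra.traceForm_apply, Algebra.TensorProduct.basis_apply,
    Algebra.TensorProduct.basis_apply, Algebra.TensorProduct.tmul_mul_tmul, one_mul, trace_base]

theorem reduced_base {ι : Type} [Fintype ι] [DecidableEq ι] (ω : Basis ι R A)
    (h : algebraMap R Ω (Algebra.discr R ω) ≠ 0) : IsReduced (Ω ⊗[R] A) := by
  refine ⟨fun b hb => ?_⟩
  have h1 := Algebra.traceMatrix_of_basis_mulVec (Algebra.TensorProduct.basis Ω ω) b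
  have h2 : (fun i => Algebra.trace Ω (Ω ⊗[R] A) (b * Algebra.TensorProduct.basis Ω ω i)) = 0 := by
    funext i
    have h3 : IsNilpotent (b * Algebra.TensorProduct.basis Ω ω i) :=
      (Commute.all _ _).isNilpotent_mul_right hb
    have h4 : IsNilpotent (Algebra.lmul Ω (Ω ⊗[R] A)
        (b * Algebra.TensorProduct.basis Ω ω i)) := h3.map _
    rw [Algebra.trace_apply]
    exact (LinearMap.isNilpotent_trace_of_isNilpotent h4).eq_zero
  rw [h2] at h1
  have h5 : (Algebra.traceMatrix Ω (Algebra.TensorProduct.basis Ω ω)).det ≠ 0 := by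
    rw [← Algebra.discr_def, discr_base]
    exact h
  have h6 := Matrix.eq_zero_of_mulVec_eq_zero h5 h1
  exact (LinearEquiv.map_eq_zero_iff _).1 h6

theorem points_base (hRED : S_RED) [IsAlgClosed Ω] {ι : Type} [Fintype ι] [DecidableEq ι]
    (ω : Basis ι R A) (h : algebraMap R Ω (Algebra.discr R ω) ≠ 0) :
    ∃ P : Finset (A →ₐ[R] Ω), (∀ x, x ∈ P) ∧ P.card = finrank R A ∧
      (∀ a : A, algebraMap R Ω (Algebra.trace R A a) = ∑ x ∈ P, x a) ∧
      (∀ a : A, algebraMap R Ω (Algebra.norm R a) = ∏ x ∈ P, x a) := by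
  classical
  have hnon : Nontrivial R := (algebraMap R Ω).domain_nontrivial
  have hred := reduced_base Ω ω h
  obtain ⟨Q, hQ, hcard, htr, hno⟩ := hRED Ω (Ω ⊗[R] A)
  let F : (Ω ⊗[R] A →ₐ[Ω] Ω) → (A →ₐ[R] Ω) := fun φ =>
    (φ.restrictScalars R).comp (Algebra.TensorProduct.includeRight : A →ₐ[R] Ω ⊗[R] A)
  have hF : ∀ φ a, F φ a = φ (1 ⊗ₜ a) := fun φ a => rfl
  have hinj : Function.Injective F := by
    intro φ ψ hφψ
    have h1 : ∀ a, φ (1 ⊗ₜ a) = ψ (1 ⊗ₜ a) := fun a => by rw [← hF, ← hF, hφψ]
    apply Algebra.TensorProduct.ext'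
    intro c a
    have h2 : (c ⊗ₜ[R] a : Ω ⊗[R] A) = c • (1 ⊗ₜ a) := by
      rw [TensorProduct.smul_tmul', smul_eq_mul, mul_one]
    rw [h2, map_smul, map_smul, h1]
  refine ⟨Q.map ⟨F, hinj⟩, fun x => ?_, ?_, fun a => ?_, fun a => ?_⟩
  · rw [Finset.mem_map]
    refine ⟨Algebra.TensorProduct.lift (AlgHom.id Ω Ω) x (fun _ _ => Commute.all _ _), hQ _, ?_⟩
    apply AlgHom.ext
    intro a
    change (Algebra.TensorProduct.lift (AlgHom.id Ω Ω) x (fun _ _ => Commute.all _ _)) (1 ⊗ₜ a) = x a
    rw [Algebra.TensorProduct.lift_tmul, map_one, one_mul]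
  · rw [Finset.card_map, hcard, Module.finrank_baseChange]
  · rw [Finset.sum_map, ← trace_base, htr]
    rfl
  · rw [Finset.prod_map, ← norm_base, hno]
    rfl

end base

/-- PTS. -/
theorem main : Pool.Agent.H455.GC.S_RED → Pool.Agent.H455.GC.S_PTS := by
  intro hRED k _ _ A _ _ _ _ _ _ _
  classical
  have hfree : Module.Free k[X] A := inferInstance
  have hfaith : FaithfulSMul k[X] A := inferInstance
  have hchar : CharZero k[X] := inferInstance
  let ω := Module.Free.chooseBasis k[X] A
  refine ⟨Algebra.discr k[X] ω, discr_ne ω, ?_⟩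
  intro Ω _ _ _ s hs
  let _ : Algebra k[X] Ω := (aeval s : k[X] →ₐ[k] Ω).toRingHom.toAlgebra
  have hmap : ∀ p : k[X], algebraMap k[X] Ω p = aeval s p := fun p => rfl
  have : IsScalarTower k k[X] Ω := IsScalarTower.of_algebraMap_eq fun c => by
    rw [hmap, Polynomial.algebraMap_eq, aeval_C]
  obtain ⟨P, hP, hcard, htr, hno⟩ := points_base Ω hRED ω (by rw [hmap]; exact hs)
  have hinj : Function.Injective (AlgHom.restrictScalars k : (A →ₐ[k[X]] Ω) → (A →ₐ[k] Ω)) :=
    AlgHom.restrictScalars_injective k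
  refine ⟨P.map ⟨AlgHom.restrictScalars k, hinj⟩, fun x => ⟨fun hx => ?_, fun hx => ?_⟩, ?_,
    fun a => ?_, fun a => ?_⟩
  · rw [Finset.mem_map] at hx
    obtain ⟨y, -, rfl⟩ := hx
    change y (algebraMap k[X] A X) = s
    rw [AlgHom.commutes, hmap, aeval_X]
  · rw [Finset.mem_map]
    have h1 : x.comp (IsScalarTower.toAlgHom k k[X] A) = aeval s := by
      apply Polynomial.algHom_ext
      rw [aeval_X]
      exact hx
    let y : A →ₐ[k[X]] Ω :=
      { x.toRingHom with
        commutes' := fun p => by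
          have h2 := DFunLike.congr_fun h1 p
          exact h2 }
    refine ⟨y, hP y, ?_⟩
    apply AlgHom.ext
    intro a
    rfl
  · rw [Finset.card_map, hcard]
  · rw [Finset.sum_map, ← hmap, htr]
    rfl
  · rw [Finset.prod_map, ← hmap, hno]
    rfl

end Pool.Agent.H455.GC_PTS
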