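import Mathlib
import Pool.Agent.H455.GCS

/-!
# RED: finite reduced algebras over an algebraically closed field
-/

set_option autoImplicit false

namespace Pool.Agent.H455.GC_RED

open Module

theorem main : Pool.Agent.H455.GC.S_RED := by
  intro Ω _ _ B _ _ _ _
  classical
  have : IsArtinianRing B := IsArtinianRing.of_finite Ω B
  let _ : Fintype (MaximalSpectrum B) := Fintype.ofFinite _
  have hb : ∀ m : MaximalSpectrum B, Function.Bijective (algebraMap Ω (B ⧸ m.asIdeal)) := by
    intro m
    have := m.isMaximal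
    have : IsDomain (B ⧸ m.asIdeal) := Ideal.Quotient.isDomain _
    have : Module.Finite Ω (B ⧸ m.asIdeal) :=
      Module.Finite.of_surjective (Ideal.Quotient.mkₐ Ω m.asIdeal).toLinearMap
        (Ideal.Quotient.mkₐ_surjective Ω m.asIdeal)
    exact IsAlgClosed.algebraMap_bijective_of_isIntegral
  let e : ∀ m : MaximalSpectrum B, (B ⧸ m.asIdeal) ≃ₐ[Ω] Ω := fun m =>
    (AlgEquiv.ofBijective (Algebra.ofId Ω (B ⧸ m.asIdeal)) (hb m)).symm
  let φ : MaximalSpectrum B → (B →ₐ[Ω] Ω) := fun m =>
    (e m).toAlgHom.comp (Ideal.Quotient.mkₐ Ω m.asIdeal)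
  have hφ : ∀ m x, φ m x = e m (Ideal.Quotient.mk m.asIdeal x) := fun m x => rfl
  have hker : ∀ m x, φ m x = 0 ↔ x ∈ m.asIdeal := by
    intro m x
    rw [hφ, ← Ideal.Quotient.eq_zero_iff_mem]
    constructor
    · intro h
      exact (e m).injective (h.trans (map_zero _).symm)
    · intro h
      rw [h, map_zero]
  -- the product decomposition
  have hbij : Function.Bijective (fun (b : B) (m : MaximalSpectrum B) => φ m b) := by
    constructor
    · intro x y h
      apply (IsArtinianRing.equivPi B).injective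
      funext m
      rw [IsArtinianRing.equivPi_apply, IsArtinianRing.equivPi_apply]
      exact (e m).injective (congrFun h m)
    · intro f
      obtain ⟨b, hb'⟩ := (IsArtinianRing.equivPi B).surjective (fun m => (e m).symm (f m))
      refine ⟨b, ?_⟩
      funext m
      have h1 := congrFun hb' m
      rw [IsArtinianRing.equivPi_apply] at h1
      have h2 : Ideal.Quotient.mk m.asIdeal b = (e m).symm (f m) := h1
      show e m (Ideal.Quotient.mk m.asIdeal b) = f m
      rw [h2, AlgEquiv.apply_symm_apply]
  let E : B ≃ₗ[Ω] (MaximalSpectrum B → Ω) :=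
    LinearEquiv.ofBijective (LinearMap.pi fun m => (φ m).toLinearMap) hbij
  have hE : ∀ b m, E b m = φ m b := fun _ _ => rfl
  let bas : Basis (MaximalSpectrum B) Ω B := Basis.ofEquivFun E
  have hmat : ∀ x : B, Algebra.leftMulMatrix bas x = Matrix.diagonal (fun m => φ m x) := by
    intro x
    ext i j
    rw [Algebra.leftMulMatrix_eq_repr_mul, Basis.ofEquivFun_repr_apply, hE, map_mul,
      Basis.coe_ofEquivFun]
    have h1 : φ i (E.symm (Pi.single j 1)) = (Pi.single j 1 : MaximalSpectrum B → Ω) i := by
      rw [← hE, LinearEquiv.apply_symm_apply]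
    show φ i x * φ i (E.symm (Pi.single j 1)) = _
    rw [h1, Matrix.diagonal_apply, Pi.single_apply]
    by_cases hij : i = j
    · rw [if_pos hij, if_pos hij, mul_one]
    · rw [if_neg hij, if_neg hij, mul_zero]
  have hinj : Function.Injective φ := by
    intro m n h
    by_contra hne
    obtain ⟨b, hb1⟩ := hbij.2 (Pi.single m 1)
    have h1 : φ m b = 1 := by
      have := congrFun hb1 m
      rw [Pi.single_eq_same] at this
      exact this
    have h2 : φ n b = 0 := by
      have := congrFun hb1 n
      rw [Pi.single_eq_of_ne (Ne.symm hne)] at this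
      exact this
    rw [h, h2] at h1
    exact zero_ne_one h1
  refine ⟨Finset.univ.map ⟨φ, hinj⟩, ?_, ?_, ?_, ?_⟩
  · intro ψ
    have hsurj : Function.Surjective ψ.toRingHom := fun c => ⟨algebraMap Ω B c, ψ.commutes c⟩
    have hmax : (RingHom.ker ψ.toRingHom).IsMaximal := RingHom.ker_isMaximal_of_surjective _ hsurj
    rw [Finset.mem_map]
    refine ⟨⟨RingHom.ker ψ.toRingHom, hmax⟩, Finset.mem_univ _, ?_⟩
    show φ ⟨RingHom.ker ψ.toRingHom, hmax⟩ = ψ
    ext x
    set m : MaximalSpectrum B := ⟨RingHom.ker ψ.toRingHom, hmax⟩ with hm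
    have h1 : φ m (x - algebraMap Ω B (φ m x)) = 0 := by
      rw [map_sub, AlgHom.commutes]
      exact sub_self _
    have h2 := (hker m _).1 h1
    have h3 : ψ (x - algebraMap Ω B (φ m x)) = 0 := h2
    rw [map_sub, AlgHom.commutes, sub_eq_zero] at h3
    exact h3.symm
  · rw [Finset.card_map, Finset.card_univ, Module.finrank_eq_card_basis bas]
  · intro b
    rw [Finset.sum_map, Algebra.trace_eq_matrix_trace bas, hmat, Matrix.trace_diagonal]
    rfl
  · intro b
    rw [Finset.prod_map, Algebra.norm_eq_matrix_det bas, hmat, Matrix.det_diagonal]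
    rfl

end Pool.Agent.H455.GC_RED
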