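import Mathlib
import Pool.Agent.H455.GCS2

set_option autoImplicit false

namespace Pool.Agent.H455.GC_SQ

open Polynomial Module nonZeroDivisors

section
attribute [local instance] FractionRing.liftAlgebra FractionRing.isScalarTower_liftAlgebra

theorem dvd_trace {R B : Type} [CommRing R] [IsDomain R] [IsPrincipalIdealRing R]
    [CommRing B] [IsDomain B] [Algebra R B] [Module.Finite R B] [Module.IsTorsionFree R B]
    {w : R} (hw : Prime w) {y z : B} (h : y ^ 2 = algebraMap R B w * z) :
    w ∣ Algebra.trace R B y := by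
  classical
  have : Module.Free R B := Module.free_of_finite_type_torsion_free'
  let ω : Basis (Fin (finrank R B)) R B := Module.finBasis R B
  have : (Ideal.span {w}).IsPrime := (Ideal.span_singleton_prime hw.ne_zero).2 hw
  let φ : R →+* R ⧸ Ideal.span {w} := Ideal.Quotient.mk _
  have hφ : φ w = 0 := Ideal.Quotient.eq_zero_iff_mem.2 (Ideal.mem_span_singleton_self w)
  set M := Algebra.leftMulMatrix ω y with hM
  have h1 : M * M = w • Algebra.leftMulMatrix ω z := by
    rw [hM, ← map_mul, ← sq, h, ← Algebra.smul_def, map_smul]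
  have h2 : φ.mapMatrix M * φ.mapMatrix M = 0 := by
    rw [← map_mul, h1]
    ext i j
    rw [RingHom.mapMatrix_apply, Matrix.map_apply, Matrix.smul_apply, smul_eq_mul, map_mul, hφ,
      zero_mul, Matrix.zero_apply]
  have h3 : IsNilpotent (φ.mapMatrix M) := ⟨2, by rw [sq]; exact h2⟩
  have h4 : IsNilpotent (Matrix.trace (φ.mapMatrix M)) := Matrix.isNilpotent_trace_of_isNilpotent h3
  have h5 : Matrix.trace (φ.mapMatrix M) = 0 := h4.eq_zero
  have h6 : φ (Algebra.trace R B y) = 0 := by
    rw [Algebra.trace_eq_matrix_trace ω, ← hM, ← h5]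
    exact AddMonoidHom.map_trace φ.toAddMonoidHom M
  exact Ideal.mem_span_singleton.1 (Ideal.Quotient.eq_zero_iff_mem.1 h6)

theorem dvd_of_mem {R B : Type} [CommRing R] [IsDomain R] [IsPrincipalIdealRing R] [CharZero R]
    [CommRing B] [IsDedekindDomain B] [Algebra R B] [Module.Finite R B] [Module.IsTorsionFree R B]
    {w : R} (hw : Prime w) {c s : B} (h : algebraMap R B w = c * s ^ 2) {g : B}
    (hg : g ∈ differentIdeal R B) : s ∣ g := by
  classical
  have : Module.Free R B := Module.free_of_finite_type_torsion_free'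
  have : IsIntegralClosure B R (FractionRing B) :=
    IsIntegralClosure.of_isIntegrallyClosed _ _ _
  have : Algebra.IsAlgebraic (FractionRing R) (FractionRing B) :=
    isAlgebraic_of_isFractionRing R B ..
  have : IsLocalization (Algebra.algebraMapSubmonoid B R⁰) (FractionRing B) :=
    IsIntegralClosure.isLocalization _ (FractionRing R) _ _
  have : FiniteDimensional (FractionRing R) (FractionRing B) := .of_isLocalization R B R⁰
  have htr : ∀ a : B, Algebra.trace (FractionRing R) (FractionRing B)
      (algebraMap B (FractionRing B) a) = algebraMap R (FractionRing R) (Algebra.trace R B a) :=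
    fun a => Algebra.trace_localization R R⁰ a
  have hs : s ≠ 0 := by
    rintro rfl
    rw [zero_pow two_ne_zero, mul_zero] at h
    exact hw.ne_zero (FaithfulSMul.algebraMap_injective R B (h.trans (map_zero _).symm))
  set z : FractionRing B := (algebraMap B (FractionRing B) s)⁻¹ with hz
  have hs' : algebraMap B (FractionRing B) s ≠ 0 := by
    rwa [ne_eq, IsFractionRing.to_map_eq_zero_iff]
  have hw' : algebraMap R (FractionRing R) w ≠ 0 := by
    rw [ne_eq, IsFractionRing.to_map_eq_zero_iff]
    exact hw.ne_zero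
  have hdual : z ∈ Submodule.traceDual R (FractionRing R) (1 : Submodule B (FractionRing B)) := by
    rw [Submodule.mem_traceDual]
    intro b hb
    rw [Submodule.mem_one] at hb
    obtain ⟨b, rfl⟩ := hb
    obtain ⟨q, hq⟩ : w ∣ Algebra.trace R B (c * s * b) :=
      dvd_trace hw (z := c * b ^ 2) (by rw [h]; ring)
    refine ⟨q, ?_⟩
    rw [Algebra.traceForm_apply]
    have h1 : algebraMap R (FractionRing R) w • (z * algebraMap B (FractionRing B) b) =
        algebraMap B (FractionRing B) (c * s * b) := by
      rw [Algebra.smul_def, ← IsScalarTower.algebraMap_apply,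
        IsScalarTower.algebraMap_apply R B (FractionRing B), h, map_mul, map_mul, map_mul, map_pow,
        hz]
      field_simp
    have h2 := congrArg (Algebra.trace (FractionRing R) (FractionRing B)) h1
    rw [map_smul, htr, hq, map_mul (algebraMap R (FractionRing R)), smul_eq_mul] at h2
    exact (mul_left_cancel₀ hw' h2).symm
  have hg' : algebraMap B (FractionRing B) g ∈
      (1 / Submodule.traceDual R (FractionRing R) 1 : Submodule B (FractionRing B)) := hg
  have h2 := (Submodule.mem_div_iff_forall_mul_mem.1 hg') z hdual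
  rw [Submodule.mem_one] at h2
  obtain ⟨a, ha⟩ := h2
  refine ⟨a, ?_⟩
  apply IsFractionRing.injective B (FractionRing B)
  rw [map_mul, ha, hz]
  field_simp

end

theorem not_unit {R B : Type} [CommRing R] [IsDomain R] [IsPrincipalIdealRing R]
    [CommRing B] [IsDomain B] [Algebra R B] [Module.Finite R B] [Module.IsTorsionFree R B]
    {w : R} (hw : Prime w) : ¬ IsUnit (algebraMap R B w) := by
  intro h
  have : Module.Free R B := Module.free_of_finite_type_torsion_free'
  have h1 := h.map (Algebra.norm R (S := B))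
  rw [Algebra.norm_algebraMap] at h1
  exact hw.not_isUnit ((isUnit_pow_iff (Module.finrank_pos (R := R) (M := B)).ne').1 h1)

theorem main : Pool.Agent.H455.GC.S_SQ := by
  intro k _ _ A _ _ _ _ _ _ _ c s hc ht
  have hw : Prime (X - C (1 : k)) := prime_X_sub_C 1
  have hX : algebraMap k[X] A (X - C 1) = algebraMap k A c * s ^ 2 := by
    rw [map_sub, C_1, map_one]
    change Pool.Agent.H455.GC.tt k A - 1 = _
    rw [ht]
    ring
  have hs : ¬ IsUnit s := by
    intro h
    apply not_unit (B := A) hw
    rw [hX]
    exact ((isUnit_iff_ne_zero.2 hc).map (algebraMap k A)).mul (h.pow 2)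
  obtain ⟨m, hm, hsm⟩ := exists_max_ideal_of_mem_nonunits hs
  let _ : Field (A ⧸ m) := Ideal.Quotient.field m
  have hft : Algebra.FiniteType k A :=
    Algebra.FiniteType.trans (S := k[X]) inferInstance inferInstance
  have hft' : Algebra.FiniteType k (A ⧸ m) :=
    hft.of_surjective (Ideal.Quotient.mkₐ k m) (Ideal.Quotient.mkₐ_surjective k m)
  have hfin : Module.Finite k (A ⧸ m) := finite_of_finite_type_of_isJacobsonRing k (A ⧸ m)
  have halg : Algebra.IsAlgebraic k (A ⧸ m) := inferInstance
  let Q₀ : A →ₐ[k] AlgebraicClosure k :=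
    (IsAlgClosed.lift : (A ⧸ m) →ₐ[k] AlgebraicClosure k).comp (Ideal.Quotient.mkₐ k m)
  have hQs : Q₀ s = 0 := by
    change (IsAlgClosed.lift : (A ⧸ m) →ₐ[k] AlgebraicClosure k) (Ideal.Quotient.mk m s) = 0
    rw [Ideal.Quotient.eq_zero_iff_mem.2 hsm, map_zero]
  refine ⟨Q₀, ?_, fun a ha => ?_⟩
  · rw [ht, map_add, map_mul, map_pow, hQs, map_one, zero_pow two_ne_zero, mul_zero, add_zero]
    exact one_ne_zero
  · obtain ⟨b, rfl⟩ := dvd_of_mem hw hX ha
    rw [map_mul, hQs, zero_mul]

end Pool.Agent.H455.GC_SQ
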