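import Mathlib
import Pool.Agent.H455.GCS

/-!
# TP: the exponent of `p` in the discriminant is bounded in terms of the degree
-/

set_option autoImplicit false

namespace Pool.Agent.H455.GC_TP

open NumberField Module
open Pool.Agent.H455.GC

/-- the part of a prime in `p ^ J` does not divide the different -/
theorem key (hA : S_TPA) (L : Type) [Field L] [NumberField L] (p J : ℕ) (hp : p.Prime)
    (hJ : finrank ℚ L < p ^ J) (P b : Ideal (𝓞 L)) (hP : Prime P) (e : ℕ) (he : e ≠ 0)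
    (hb : ¬ P ∣ b) (hab : P ^ e * b = Ideal.span {((p ^ J : ℕ) : 𝓞 L)}) :
    ¬ P ^ e ∣ differentIdeal ℤ (𝓞 L) := by
  have hPp : P.IsPrime := Ideal.isPrime_of_prime hP
  have hPm : P.IsMaximal := hPp.isMaximal hP.ne_zero
  have hcop : IsCoprime P b := by
    rw [Ideal.isCoprime_iff_sup_eq]
    refine hPm.1.2 _ (lt_of_le_of_ne le_sup_left fun h => hb ?_)
    rw [Ideal.dvd_iff_le, h]
    exact le_sup_right
  have hcop' : IsCoprime (P ^ e) b := hcop.pow_left
  have htop : P ^ e ≠ ⊤ := by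
    intro h
    exact hPp.ne_top (top_le_iff.1 (h ▸ Ideal.pow_le_self he))
  obtain ⟨ε, hε, htr⟩ := hA L p J hp hJ (P ^ e) b hab hcop' htop
  have h1 : P ^ e * b = Ideal.map (algebraMap ℤ (𝓞 L)) (Ideal.span {((p ^ J : ℕ) : ℤ)}) := by
    rw [hab, Ideal.map_span, Set.image_singleton]
    simp
  refine not_dvd_differentIdeal_of_intTrace_not_mem ℤ (P ^ e) b h1 ε hε ?_
  rw [Algebra.intTrace_eq_trace, Ideal.mem_span_singleton]
  exact htr

theorem main : S_TPA → S_TP := by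
  intro hA p m hp
  refine ⟨m * m, fun L _ _ hm => ?_⟩
  have hn : 0 < finrank ℚ L := finrank_pos
  have hm0 : m ≠ 0 := by omega
  have hlt : finrank ℚ L < p ^ m := hm.trans_lt (Nat.lt_pow_self hp.one_lt)
  have hN : (discr L).natAbs ≠ 0 := Int.natAbs_ne_zero.2 (discr_ne_zero L)
  obtain ⟨N, hNd⟩ : ∃ N, N = (discr L).natAbs := ⟨_, rfl⟩
  rw [← hNd] at hN ⊢
  obtain ⟨v, c, hc, hvc⟩ := Nat.exists_eq_pow_mul_and_not_dvd hN p hp.ne_one
  have hc0 : c ≠ 0 := by
    rintro rfl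
    exact hc (dvd_zero p)
  have hD0 : differentIdeal ℤ (𝓞 L) ≠ ⊥ := differentIdeal_ne_bot
  have hp0 : Ideal.span {((p ^ m : ℕ) : 𝓞 L)} ≠ ⊥ := by
    rw [Ne, Ideal.span_singleton_eq_bot]
    exact_mod_cast pow_ne_zero m hp.ne_zero
  -- the different divides `N`
  have hDN : differentIdeal ℤ (𝓞 L) ∣ Ideal.span {((N : ℕ) : 𝓞 L)} := by
    rw [Ideal.dvd_span_singleton, hNd, ← absNorm_differentIdeal L (𝓞 L)]
    exact Ideal.absNorm_mem _
  -- the different divides `c p ^ m`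
  have hD : differentIdeal ℤ (𝓞 L) ∣ Ideal.span {((c * p ^ m : ℕ) : 𝓞 L)} := by
    have hsplit : Ideal.span {((c * p ^ m : ℕ) : 𝓞 L)} =
        Ideal.span {((c : ℕ) : 𝓞 L)} * Ideal.span {((p ^ m : ℕ) : 𝓞 L)} := by
      rw [Ideal.span_singleton_mul_span_singleton, ← Nat.cast_mul]
    have hsplit2 : Ideal.span {((N : ℕ) : 𝓞 L)} =
        Ideal.span {((p : ℕ) : 𝓞 L)} ^ v * Ideal.span {((c : ℕ) : 𝓞 L)} := by
      rw [Ideal.span_singleton_pow, Ideal.span_singleton_mul_span_singleton, ← Nat.cast_pow,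
        ← Nat.cast_mul, ← hvc]
    have hsplit3 : Ideal.span {((p ^ m : ℕ) : 𝓞 L)} = Ideal.span {((p : ℕ) : 𝓞 L)} ^ m := by
      rw [Ideal.span_singleton_pow, ← Nat.cast_pow]
    rw [UniqueFactorizationMonoid.dvd_iff_emultiplicity_le hD0]
    intro P hP
    rw [emultiplicity_le_emultiplicity_iff]
    intro k hk
    by_cases hPp : P ∣ Ideal.span {((p ^ m : ℕ) : 𝓞 L)}
    · obtain ⟨b, hb1, hb2⟩ :=
        (FiniteMultiplicity.of_prime_left hP hp0).exists_eq_pow_mul_and_not_dvd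
      have he : multiplicity P (Ideal.span {((p ^ m : ℕ) : 𝓞 L)}) ≠ 0 := by
        intro h0
        rw [h0, pow_zero, one_mul] at hb1
        rw [hb1] at hPp
        exact hb2 hPp
      have h1 := key hA L p m hp hlt P b hP _ he hb2 hb1.symm
      have h2 : k ≤ multiplicity P (Ideal.span {((p ^ m : ℕ) : 𝓞 L)}) := by
        by_contra h3
        exact h1 ((pow_dvd_pow P (not_le.1 h3).le).trans hk)
      rw [hsplit]
      exact ((pow_dvd_pow P h2).trans ⟨b, hb1⟩).mul_left _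
    · have h1 : ¬ P ∣ Ideal.span {((p : ℕ) : 𝓞 L)} ^ v := by
        intro h2
        apply hPp
        rw [hsplit3]
        exact dvd_pow (hP.dvd_of_dvd_pow h2) hm0
      have h2 : P ^ k ∣ Ideal.span {((p : ℕ) : 𝓞 L)} ^ v * Ideal.span {((c : ℕ) : 𝓞 L)} := by
        rw [← hsplit2]
        exact hk.trans hDN
      rw [hsplit]
      exact (hP.pow_dvd_of_dvd_mul_left k h1 h2).mul_right _
  have h1 := map_dvd Ideal.absNorm hD
  rw [absNorm_differentIdeal L (𝓞 L), ← hNd, Ideal.absNorm_span_natCast, RingOfIntegers.rank] at h1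
  have hne : (c * p ^ m) ^ finrank ℚ L ≠ 0 := pow_ne_zero _ (mul_ne_zero hc0 (pow_ne_zero _ hp.ne_zero))
  have h2 := (Nat.factorization_le_iff_dvd hN hne).2 h1 p
  rw [Nat.factorization_pow, Nat.factorization_mul hc0 (pow_ne_zero _ hp.ne_zero),
    Nat.factorization_pow] at h2
  simp only [Finsupp.smul_apply, Finsupp.add_apply, smul_eq_mul, hp.factorization_self, mul_one,
    Nat.factorization_eq_zero_of_not_dvd hc, zero_add] at h2
  exact h2.trans (Nat.mul_le_mul_right m hm)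

end Pool.Agent.H455.GC_TP
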