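import Mathlib
import Pool.Agent.H455.GCS

/-! Proof of `S_TPA`. -/

set_option autoImplicit false

namespace Pool.Agent.H455.GC_TPA

open NumberField Module

/-- the trace of an idempotent endomorphism of a free module of rank `n` over a local ring is the
image of a natural number `1 ≤ c ≤ n` -/
theorem trace_idem {R : Type} [CommRing R] [IsLocalRing R] [Finite R] {n : ℕ}
    (f : (Fin n → R) →ₗ[R] (Fin n → R)) (hf : f ∘ₗ f = f) (hf0 : f ≠ 0) :
    ∃ c : ℕ, 1 ≤ c ∧ c ≤ n ∧ LinearMap.trace R (Fin n → R) f = (c : R) := by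
  have hff : ∀ x, f (f x) = f x := fun x => by
    have := congrArg (fun g => g x) hf
    exact this
  have hproj : LinearMap.IsProj (LinearMap.range f) f :=
    ⟨fun x => ⟨x, rfl⟩, fun x hx => by
      obtain ⟨y, rfl⟩ := hx
      exact hff y⟩
  have : Finite (Fin n → R) := inferInstance
  have : Finite (LinearMap.range f) := inferInstance
  have : Finite (LinearMap.ker f) := inferInstance
  have h1 : Module.Finite R (LinearMap.range f) := inferInstance
  have h2 : Module.Finite R (LinearMap.ker f) := Module.Finite.of_finite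
  have p1 : Module.Projective R (LinearMap.range f) := by
    refine Module.Projective.of_split (LinearMap.range f).subtype f.rangeRestrict ?_
    refine LinearMap.ext fun x => Subtype.ext ?_
    obtain ⟨y, hy⟩ := x.2
    have h3 : f (x : Fin n → R) = x := by rw [← hy]; exact hff y
    exact h3
  have p2 : Module.Projective R (LinearMap.ker f) := by
    have hg : ∀ x, (LinearMap.id - f : (Fin n → R) →ₗ[R] (Fin n → R)) x ∈ LinearMap.ker f := by
      intro x
      rw [LinearMap.mem_ker, LinearMap.sub_apply, map_sub, LinearMap.id_apply, hff, sub_self]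
    refine Module.Projective.of_split (LinearMap.ker f).subtype
      ((LinearMap.id - f).codRestrict (LinearMap.ker f) hg) ?_
    refine LinearMap.ext fun x => Subtype.ext ?_
    have h3 : f (x : Fin n → R) = 0 := x.2
    have h4 : (x : Fin n → R) - f (x : Fin n → R) = x := by rw [h3, sub_zero]
    exact h4
  have f1 : Module.Free R (LinearMap.range f) := Module.free_of_flat_of_isLocalRing
  have f2 : Module.Free R (LinearMap.ker f) := Module.free_of_flat_of_isLocalRing
  refine ⟨finrank R (LinearMap.range f), ?_, ?_, hproj.trace⟩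
  · by_contra hcon
    have h0 : finrank R (LinearMap.range f) = 0 := by omega
    apply hf0
    have hs : Subsingleton (LinearMap.range f) := by
      rw [finrank_eq_card_chooseBasisIndex, Fintype.card_eq_zero_iff] at h0
      exact (Module.Free.chooseBasis R (LinearMap.range f)).repr.toEquiv.subsingleton
    ext1 i
    apply LinearMap.ext
    intro x
    have h3 : (⟨f (LinearMap.single R (fun _ => R) i x), ⟨_, rfl⟩⟩ : LinearMap.range f) = 0 :=
      Subsingleton.elim _ _
    have h4 := congrArg Subtype.val h3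
    simpa using h4
  · have := LinearMap.finrank_le_finrank_of_injective (R := R)
      (f := (LinearMap.range f).subtype) (Submodule.injective_subtype _)
    simpa using this

/-- the same over the integers modulo `q`, for a ring which is free over the integers -/
theorem core {O : Type} [CommRing O] {n : ℕ} (B : Basis (Fin n) ℤ O) (q : ℕ) [NeZero q]
    [IsLocalRing (ZMod q)] (hn : n < q) (ε y : O) (hε : ε * ε = ε - (q : O) * y)
    (hne : ¬ ∃ w : O, ε = (q : O) * w) : ¬ (q : ℤ) ∣ Algebra.trace ℤ O ε := by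
  classical
  intro hdvd
  have hq : (((q : ℕ) : ℤ) : ZMod q) = 0 := by
    rw [Int.cast_natCast]
    exact ZMod.natCast_self _
  have hNsq : Algebra.leftMulMatrix B ε * Algebra.leftMulMatrix B ε =
      Algebra.leftMulMatrix B ε - (q : ℤ) • Algebra.leftMulMatrix B y := by
    rw [← map_mul, ← map_zsmul, ← map_sub, hε]
    congr 2
    rw [zsmul_eq_mul, Int.cast_natCast]
  obtain ⟨N, hN⟩ : ∃ N, N = Algebra.leftMulMatrix B ε := ⟨_, rfl⟩
  obtain ⟨N', hN'⟩ : ∃ N, N = Algebra.leftMulMatrix B y := ⟨_, rfl⟩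
  rw [← hN, ← hN'] at hNsq
  obtain ⟨e, he⟩ : ∃ e : Matrix (Fin n) (Fin n) (ZMod q), e = N.map (Int.castRingHom (ZMod q)) :=
    ⟨_, rfl⟩
  have hee : e * e = e := by
    rw [he, ← Matrix.map_mul, hNsq]
    ext i j
    have h1 : (N - (q : ℤ) • N') i j = N i j - (q : ℤ) * N' i j := rfl
    rw [Matrix.map_apply, Matrix.map_apply, h1, map_sub, map_mul]
    have h2 : (Int.castRingHom (ZMod q)) (q : ℤ) = 0 := hq
    rw [h2, zero_mul, sub_zero]
  have he0 : e ≠ 0 := by
    intro h0
    apply hne
    have h3 : ∀ i j, (q : ℤ) ∣ N i j := by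
      intro i j
      have h4 : e i j = 0 := by rw [h0]; rfl
      rw [he, Matrix.map_apply, Int.coe_castRingHom] at h4
      exact (ZMod.intCast_zmod_eq_zero_iff_dvd _ _).1 h4
    have h5 : ∀ i, (q : ℤ) ∣ B.repr ε i := by
      intro i
      have h6 := Algebra.leftMulMatrix_mulVec_repr B ε 1
      rw [mul_one, ← hN] at h6
      rw [← h6]
      simp only [Matrix.mulVec, dotProduct]
      exact Finset.dvd_sum fun j _ => Dvd.dvd.mul_right (h3 i j) _
    choose w hw using h5
    refine ⟨∑ i, w i • B i, ?_⟩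
    conv_lhs => rw [← B.sum_repr ε]
    rw [Finset.mul_sum]
    refine Finset.sum_congr rfl fun i _ => ?_
    rw [hw, mul_smul, zsmul_eq_mul, Int.cast_natCast]
  obtain ⟨c, hc1, hc2, hc3⟩ := trace_idem (Matrix.toLin' e)
    (by rw [← Matrix.toLin'_mul, hee]) (by
      intro h0
      exact he0 ((Matrix.toLin'.map_eq_zero_iff).1 h0))
  rw [Matrix.trace_toLin'_eq] at hc3
  have htr : Matrix.trace e = ((Algebra.trace ℤ O ε : ℤ) : ZMod q) := by
    rw [Algebra.trace_eq_matrix_trace B, ← hN, he]
    simp [Matrix.trace]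
  rw [htr, (ZMod.intCast_zmod_eq_zero_iff_dvd _ _).2 hdvd] at hc3
  have h10 : q ∣ c := (ZMod.natCast_eq_zero_iff c q).1 hc3.symm
  have h11 := Nat.le_of_dvd (by omega) h10
  omega

theorem main : Pool.Agent.H455.GC.S_TPA := by
  classical
  intro L _ _ p J hp hJ a b hab hcop ha
  have : Fact p.Prime := ⟨hp⟩
  have hfin : 0 < finrank ℚ L := finrank_pos
  have hJ0 : J ≠ 0 := by
    rintro rfl
    simp at hJ
    omega
  have : NeZero (p ^ J) := ⟨pow_ne_zero _ hp.ne_zero⟩
  have : Nontrivial (ZMod (p ^ J)) := by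
    have : Fact (1 < p ^ J) := ⟨Nat.one_lt_pow hJ0 hp.one_lt⟩
    exact ZMod.nontrivial _
  have : IsLocalRing (ZMod (p ^ J)) :=
    IsLocalRing.of_surjective' (PadicInt.toZModPow (p := p) J)
      (ZMod.ringHom_surjective _)
  obtain ⟨α, hα, ε, hε, hαε⟩ := Submodule.mem_sup.1
    ((Ideal.isCoprime_iff_sup_eq.1 hcop).symm ▸ Submodule.mem_top : (1 : 𝓞 L) ∈ a ⊔ b)
  have h1 : ε * α ∈ a * b := by
    rw [mul_comm ε α]
    exact Ideal.mul_mem_mul hα hε
  rw [hab, Ideal.mem_span_singleton] at h1
  obtain ⟨y, hy⟩ := h1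
  refine ⟨ε, hε, ?_⟩
  refine core (Module.finBasis ℤ (𝓞 L)) (p ^ J) ?_ ε y ?_ ?_
  · rw [RingOfIntegers.rank L]
    exact hJ
  · have h2 : α = 1 - ε := by rw [← hαε]; ring
    rw [← hy, h2]
    ring
  · rintro ⟨w, hw⟩
    apply ha
    rw [Ideal.eq_top_iff_one, ← hαε]
    refine a.add_mem hα ?_
    have h9 : ε ∈ a * b := by
      rw [hab, Ideal.mem_span_singleton]
      exact ⟨w, hw⟩
    have h10 : a * b ≤ a := Ideal.mul_le_left
    exact h10 h9

end Pool.Agent.H455.GC_TPA
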