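import Mathlib
import Pool.Agent.H455.GCS

/-!
# The trace recipe for the residue field
-/

set_option autoImplicit false

namespace Pool.Agent.H455.GC_TRC

open NumberField Real Polynomial Module
open Pool.Agent.H505.VL Pool.Agent.H455.GC

/-- evaluation of functions of `t` -/
theorem algebraMap_eval {k A Ω : Type} [Field k] [CommRing A] [Field Ω] [Algebra k A]
    [Algebra k[X] A] [IsScalarTower k k[X] A] [Algebra k Ω] (x : A →ₐ[k] Ω) (p : k[X]) :
    x (algebraMap k[X] A p) = aeval (x (tt k A)) p := by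
  have h := aeval_algHom_apply (x.comp (IsScalarTower.toAlgHom k k[X] A)) (X : k[X]) p
  rw [aeval_X_left_apply] at h
  exact h.symm

/-- two homomorphisms which agree on generators are equal -/
theorem eq_of_adjoin {K L Ω : Type} [Field K] [Field L] [Field Ω] [Algebra K L] [Algebra K Ω]
    (S : Set L) (hS : IntermediateField.adjoin K S = ⊤) (σ τ : L →ₐ[K] Ω)
    (h : ∀ z ∈ S, σ z = τ z) : σ = τ := by
  refine AlgHom.ext fun z => ?_
  have hz : z ∈ IntermediateField.adjoin K S := by
    rw [hS]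
    exact IntermediateField.mem_top
  induction hz using IntermediateField.adjoin_induction with
  | mem z hz => exact h z hz
  | algebraMap z => rw [σ.commutes, τ.commutes]
  | add z w _ _ h1 h2 => rw [map_add, map_add, h1, h2]
  | inv z _ h1 => rw [map_inv₀, map_inv₀, h1]
  | mul z w _ _ h1 h2 => rw [map_mul, map_mul, h1, h2]

/-- independence of characters -/
theorem coeff_eq_zero {k A Ω : Type} [Field k] [CommRing A] [Field Ω] [Algebra k A]
    [Algebra k Ω] (P : Finset (A →ₐ[k] Ω)) (c : (A →ₐ[k] Ω) → Ω)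
    (h : ∀ a : A, ∑ x ∈ P, c x * x a = 0) : ∀ x ∈ P, c x = 0 := by
  have hli : LinearIndependent Ω (fun f : A →ₐ[k] Ω => (fun a => f a : A → Ω)) := by
    have h1 := (linearIndependent_monoidHom A Ω).comp
      (fun f : A →ₐ[k] Ω => ((f : A →+* Ω) : A →* Ω)) (by
        intro f g hfg
        refine AlgHom.ext fun a => ?_
        exact DFunLike.congr_fun hfg a)
    exact h1
  rw [linearIndependent_iff'] at hli
  refine hli P c ?_
  funext a
  rw [Finset.sum_apply]
  exact h a

theorem main (hBAS : S_BAS) (hPTS : S_PTS) : S_TRC := by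
  intro k _ _ A _ _ _ _ _ _ _
  obtain ⟨E, hE, hP⟩ := hPTS k A
  obtain ⟨n, ω, hη⟩ := hBAS k A
  refine ⟨E, hE, n, fun i => ω i, fun g hg => ?_⟩
  obtain ⟨η, hη⟩ := hη g hg
  refine ⟨η, ?_⟩
  intro K L _ _ _ _ _ _ _ _ y s hy hEy hadj γ
  classical
  -- the algebraic closure
  have hkL : ∀ c : k, algebraMap L (AlgebraicClosure L) (algebraMap k L c) =
      algebraMap k (AlgebraicClosure L) c := fun c =>
    (IsScalarTower.algebraMap_apply k L (AlgebraicClosure L) c).symm
  have hkK : IsScalarTower k K (AlgebraicClosure L) := by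
    refine IsScalarTower.of_algebraMap_eq fun c => ?_
    rw [← hkL, IsScalarTower.algebraMap_apply k K L,
      ← IsScalarTower.algebraMap_apply K L (AlgebraicClosure L)]
  let ι : L →ₐ[K] AlgebraicClosure L := IsScalarTower.toAlgHom K L (AlgebraicClosure L)
  have hinj : ∀ u v : L, ι u = ι v → u = v := fun u v h => ι.toRingHom.injective h
  let pt : (L →ₐ[K] AlgebraicClosure L) → (A →ₐ[k] AlgebraicClosure L) := fun σ =>
    (σ.restrictScalars k).comp y
  have hpt : ∀ σ a, pt σ a = σ (y a) := fun _ _ => rfl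
  have hptt : ∀ σ, pt σ (tt k A) = algebraMap K (AlgebraicClosure L) s := by
    intro σ
    rw [hpt, hy, σ.commutes]
  have hpE : aeval (pt ι (tt k A)) E ≠ 0 := by
    have h1 := aeval_algHom_apply (ι.restrictScalars k) (y (tt k A)) E
    have h2 : aeval (pt ι (tt k A)) E = ι (aeval (y (tt k A)) E) := h1
    rw [h2]
    exact fun h => hEy (hinj _ _ (by rw [h, map_zero]))
  obtain ⟨P, hPm, -, hPt, -⟩ := hP (AlgebraicClosure L) (pt ι (tt k A)) hpE
  have hmem : ∀ σ, pt σ ∈ P := fun σ => (hPm _).2 (by rw [hptt, hptt])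
  -- the coefficients
  let c : (A →ₐ[k] AlgebraicClosure L) → AlgebraicClosure L := fun x' =>
    ∑ i, x' (ω i) * pt ι (η i)
  have hc : ∀ x' ∈ P, c x' - (if x' = pt ι then pt ι g else 0) = 0 := by
    refine coeff_eq_zero P _ fun a => ?_
    have h1 := congrArg (pt ι) (hη a)
    rw [map_mul, map_sum] at h1
    have h2 : ∀ i, pt ι (algebraMap k[X] A (Algebra.trace k[X] A (a * ω i)) * η i) =
        (∑ x' ∈ P, x' a * x' (ω i)) * pt ι (η i) := by
      intro i
      rw [map_mul, algebraMap_eval, hPt]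
      simp only [map_mul]
    simp only [h2] at h1
    simp only [sub_mul, Finset.sum_sub_distrib, ite_mul, zero_mul]
    rw [Finset.sum_ite_eq' P (pt ι), if_pos (hmem ι), sub_eq_zero, mul_comm (pt ι g), h1]
    simp only [c, Finset.sum_mul]
    rw [Finset.sum_comm]
    refine Finset.sum_congr rfl fun i _ => Finset.sum_congr rfl fun x' _ => ?_
    ring
  -- the trace
  apply hinj
  rw [map_mul, map_sum]
  have h3 : ∀ i, ι (algebraMap K L (Algebra.trace K L (γ * y (ω i))) * y (η i)) =
      (∑ σ : L →ₐ[K] AlgebraicClosure L, σ γ * pt σ (ω i)) * pt ι (η i) := by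
    intro i
    rw [map_mul, ι.commutes, trace_eq_sum_embeddings (AlgebraicClosure L)]
    simp only [map_mul, hpt]
  simp only [h3]
  have h4 : ∑ i, (∑ σ : L →ₐ[K] AlgebraicClosure L, σ γ * pt σ (ω i)) * pt ι (η i) =
      ∑ σ : L →ₐ[K] AlgebraicClosure L, σ γ * c (pt σ) := by
    simp only [c, Finset.sum_mul, Finset.mul_sum]
    rw [Finset.sum_comm]
    refine Finset.sum_congr rfl fun σ _ => Finset.sum_congr rfl fun i _ => ?_
    ring
  rw [h4, Finset.sum_eq_single ι]
  · have h5 := hc (pt ι) (hmem ι)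
    rw [if_pos rfl, sub_eq_zero] at h5
    rw [h5, hpt, mul_comm]
  · intro σ _ hσ
    have h5 := hc (pt σ) (hmem σ)
    rw [if_neg, sub_zero] at h5
    · rw [h5, mul_zero]
    · intro h6
      apply hσ
      refine eq_of_adjoin (Set.range y) hadj σ ι ?_
      rintro _ ⟨a, rfl⟩
      exact DFunLike.congr_fun h6 a
  · intro h
    exact absurd (Finset.mem_univ ι) h

end Pool.Agent.H455.GC_TRC
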