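import Mathlib
import Pool.Agent.H455.GCS

/-!
# GC VAN: Vandermonde and the pigeonhole principle
-/

set_option autoImplicit false

namespace Pool.Agent.H455.GC_VAN

open Finset

/-- The inversion of the Vandermonde matrix. -/
theorem inv_bound {l M : ℕ} (e : Fin l → Fin M) (he : Function.Injective e) (z : Fin l → ℂ) (i : Fin l) :
    ‖z i‖ ≤ ∑ j, ‖(Matrix.vandermonde (fun j => ((e j : ℕ) : ℂ)))⁻¹ i j‖ *
      ‖∑ m : Fin l, ((e j : ℕ) : ℂ) ^ (m : ℕ) * z m‖ := by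
  have hinj : Function.Injective (fun j => ((e j : ℕ) : ℂ)) := by
    intro a b hab
    have h1 : ((e a : ℕ) : ℂ) = ((e b : ℕ) : ℂ) := hab
    exact he (Fin.ext (by exact_mod_cast h1))
  have hdet : IsUnit (Matrix.vandermonde (fun j => ((e j : ℕ) : ℂ))).det :=
    isUnit_iff_ne_zero.2 (Matrix.det_vandermonde_ne_zero_iff.2 hinj)
  have h2 : Matrix.mulVec (Matrix.vandermonde (fun j => ((e j : ℕ) : ℂ)))⁻¹
      (Matrix.mulVec (Matrix.vandermonde (fun j => ((e j : ℕ) : ℂ))) z) = z := by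
    rw [Matrix.mulVec_mulVec, Matrix.nonsing_inv_mul _ hdet, Matrix.one_mulVec]
  have h3 : z i = ∑ j, (Matrix.vandermonde (fun j => ((e j : ℕ) : ℂ)))⁻¹ i j *
      ∑ m : Fin l, ((e j : ℕ) : ℂ) ^ (m : ℕ) * z m := by
    have h4 := congrFun h2 i
    rw [← h4]
    rfl
  calc ‖z i‖ = ‖∑ j, (Matrix.vandermonde (fun j => ((e j : ℕ) : ℂ)))⁻¹ i j *
      ∑ m : Fin l, ((e j : ℕ) : ℂ) ^ (m : ℕ) * z m‖ := by rw [← h3]
    _ ≤ ∑ j, ‖(Matrix.vandermonde (fun j => ((e j : ℕ) : ℂ)))⁻¹ i j *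
      ∑ m : Fin l, ((e j : ℕ) : ℂ) ^ (m : ℕ) * z m‖ := norm_sum_le _ _
    _ = _ := sum_congr rfl fun j _ => norm_mul _ _

theorem main : Pool.Agent.H455.GC.S_VAN := by
  classical
  intro l n
  obtain ⟨M, hM⟩ : ∃ M : ℕ, M = n * l + 1 := ⟨_, rfl⟩
  obtain ⟨κ, hκ⟩ : ∃ κ : ℝ, κ = 1 + ∑ e : Fin l → Fin M, ∑ i, ∑ j,
      ‖(Matrix.vandermonde (fun j => ((e j : ℕ) : ℂ)))⁻¹ i j‖ := ⟨_, rfl⟩
  have hκ0 : 0 < κ := by
    rw [hκ]
    have : 0 ≤ ∑ e : Fin l → Fin M, ∑ i, ∑ j,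
      ‖(Matrix.vandermonde (fun j => ((e j : ℕ) : ℂ)))⁻¹ i j‖ :=
      sum_nonneg fun _ _ => sum_nonneg fun _ _ => sum_nonneg fun _ _ => norm_nonneg _
    linarith
  have hκe : ∀ (e : Fin l → Fin M) (i : Fin l), ∑ j,
      ‖(Matrix.vandermonde (fun j => ((e j : ℕ) : ℂ)))⁻¹ i j‖ ≤ κ - 1 := by
    intro e i
    have h1 : ∑ j, ‖(Matrix.vandermonde (fun j => ((e j : ℕ) : ℂ)))⁻¹ i j‖ ≤
        ∑ i, ∑ j, ‖(Matrix.vandermonde (fun j => ((e j : ℕ) : ℂ)))⁻¹ i j‖ :=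
      single_le_sum (f := fun i => ∑ j, ‖(Matrix.vandermonde (fun j => ((e j : ℕ) : ℂ)))⁻¹ i j‖)
        (fun _ _ => sum_nonneg fun _ _ => norm_nonneg _) (mem_univ i)
    have h2 : ∑ i, ∑ j, ‖(Matrix.vandermonde (fun j => ((e j : ℕ) : ℂ)))⁻¹ i j‖ ≤
        ∑ e : Fin l → Fin M, ∑ i, ∑ j, ‖(Matrix.vandermonde (fun j => ((e j : ℕ) : ℂ)))⁻¹ i j‖ :=
      single_le_sum (f := fun e : Fin l → Fin M => ∑ i, ∑ j,
        ‖(Matrix.vandermonde (fun j => ((e j : ℕ) : ℂ)))⁻¹ i j‖)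
        (fun _ _ => sum_nonneg fun _ _ => sum_nonneg fun _ _ => norm_nonneg _) (mem_univ e)
    rw [hκ]
    linarith
  refine ⟨M, κ, hκ0, fun P _ hP z => ?_⟩
  obtain ⟨B, hB⟩ : ∃ B : P → Finset ℕ, B = fun x => (range M).filter
      (fun τ : ℕ => ∃ i, κ * ‖∑ j : Fin l, (τ : ℂ) ^ (j : ℕ) * z x j‖ < ‖z x i‖) := ⟨_, rfl⟩
  have hBc : ∀ x, (B x).card ≤ l := by
    intro x
    by_contra hc
    rw [not_le] at hc
    obtain ⟨S, hS1, hS2⟩ := exists_subset_card_eq (le_of_lt hc)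
    have hmem : ∀ j : Fin l, (S.equivFin.symm (Fin.cast hS2.symm j) : ℕ) ∈ B x := fun j =>
      hS1 (S.equivFin.symm (Fin.cast hS2.symm j)).2
    have hmem2 : ∀ j : Fin l, (S.equivFin.symm (Fin.cast hS2.symm j) : ℕ) < M := by
      intro j
      have h1 := hmem j
      rw [hB] at h1
      exact mem_range.1 (mem_filter.1 h1).1
    obtain ⟨e, he⟩ : ∃ e : Fin l → Fin M, e = fun j => ⟨(S.equivFin.symm (Fin.cast hS2.symm j) : ℕ), hmem2 j⟩ :=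
      ⟨_, rfl⟩
    have hinj : Function.Injective e := by
      intro a b hab
      rw [he] at hab
      have h1 : (S.equivFin.symm (Fin.cast hS2.symm a) : ℕ) = (S.equivFin.symm (Fin.cast hS2.symm b) : ℕ) :=
        congrArg Fin.val hab
      have h2 := S.equivFin.symm.injective (Subtype.ext h1)
      exact Fin.cast_injective _ h2
    have hne : (B x).Nonempty := card_pos.1 (by omega)
    obtain ⟨τ, hτ⟩ := hne
    rw [hB] at hτ
    obtain ⟨-, i1, -⟩ := mem_filter.1 hτ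
    have : Nonempty (Fin l) := ⟨i1⟩
    obtain ⟨i₀, hi₀⟩ := Finite.exists_max (fun i => ‖z x i‖)
    have hlt : ∀ j : Fin l, κ * ‖∑ m : Fin l, ((e j : ℕ) : ℂ) ^ (m : ℕ) * z x m‖ < ‖z x i₀‖ := by
      intro j
      have h1 := hmem j
      rw [hB] at h1
      obtain ⟨-, i, hi⟩ := mem_filter.1 h1
      rw [he]
      exact lt_of_lt_of_le hi (hi₀ i)
    have hr : 0 < ‖z x i₀‖ := by
      refine lt_of_le_of_lt ?_ (hlt i1)
      positivity
    have h2 := inv_bound e hinj (z x) i₀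
    have h3 : κ * ‖z x i₀‖ ≤ (κ - 1) * ‖z x i₀‖ := by
      calc κ * ‖z x i₀‖ ≤ κ * ∑ j, ‖(Matrix.vandermonde (fun j => ((e j : ℕ) : ℂ)))⁻¹ i₀ j‖ *
            ‖∑ m : Fin l, ((e j : ℕ) : ℂ) ^ (m : ℕ) * z x m‖ := mul_le_mul_of_nonneg_left h2 hκ0.le
        _ = ∑ j, ‖(Matrix.vandermonde (fun j => ((e j : ℕ) : ℂ)))⁻¹ i₀ j‖ *
            (κ * ‖∑ m : Fin l, ((e j : ℕ) : ℂ) ^ (m : ℕ) * z x m‖) := by
            rw [mul_sum]
            exact sum_congr rfl fun j _ => by ring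
        _ ≤ ∑ j, ‖(Matrix.vandermonde (fun j => ((e j : ℕ) : ℂ)))⁻¹ i₀ j‖ * ‖z x i₀‖ :=
            sum_le_sum fun j _ => mul_le_mul_of_nonneg_left (hlt j).le (norm_nonneg _)
        _ = (∑ j, ‖(Matrix.vandermonde (fun j => ((e j : ℕ) : ℂ)))⁻¹ i₀ j‖) * ‖z x i₀‖ := by
            rw [sum_mul]
        _ ≤ (κ - 1) * ‖z x i₀‖ := mul_le_mul_of_nonneg_right (hκe e i₀) hr.le
    linarith
  by_contra hcon
  have hsub : range M ⊆ univ.biUnion B := by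
    intro τ hτ
    rw [mem_biUnion]
    by_contra hno
    apply hcon
    refine ⟨τ, mem_range.1 hτ, fun x i => ?_⟩
    by_contra hlt
    rw [not_le] at hlt
    refine hno ⟨x, mem_univ x, ?_⟩
    rw [hB, mem_filter]
    exact ⟨hτ, i, hlt⟩
  have h1 := card_le_card hsub
  rw [card_range] at h1
  have h2 : (univ.biUnion B).card ≤ Fintype.card P * l := by
    refine card_biUnion_le.trans ?_
    have h3 : ∑ x : P, (B x).card ≤ ∑ _x : P, l := sum_le_sum fun x _ => hBc x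
    rw [sum_const, card_univ, smul_eq_mul] at h3
    exact h3
  have h4 : Fintype.card P * l ≤ n * l := Nat.mul_le_mul_right _ hP
  omega

end Pool.Agent.H455.GC_VAN
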