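import Mathlib

/-!
# A combination of logarithms of order `t ^ (-13)`

`F t = (1001 t² - 59584) log ((t+8)/(t-8)) + (-1001 t² + 40425) log ((t+5)/(t-5))
  + (-1001 t² - 1911) log ((t+3)/(t-3)) + 22880 log ((t+7)/(t-7))`
is positive and at most `10 ^ 13 / t ^ 13`.  The points `8, 5, 3` satisfy `8 = 5 + 3` and
`7² = 5² + 5 * 3 + 3²`, i.e. `8, -5, -3` are the roots of `x³ - 49 x = 120`.
-/

set_option autoImplicit false

open Finset

namespace Pool.Agent.H455.LG

theorem ell_bound (x : ℝ) (h0 : 0 < x) (h1 : x ≤ 1/2) :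
    |Real.log (1+x) - Real.log (1-x)
      - 2 * (x + x^3/3 + x^5/5 + x^7/7 + x^9/9 + x^11/11 + x^13/13 + x^15/15)|
      ≤ 4 * x^17 := by
  have hx1 : |x| < 1 := by rw [abs_of_pos h0]; linarith
  have hx2 : |(-x)| < 1 := by rw [abs_neg]; exact hx1
  have e1 := Real.abs_log_sub_add_sum_range_le hx1 16
  have e2 := Real.abs_log_sub_add_sum_range_le hx2 16
  rw [abs_neg] at e2
  rw [abs_of_pos h0] at e1 e2
  have e3 : x ^ (16+1) / (1 - x) ≤ 2 * x^17 := by
    rw [div_le_iff₀ (by linarith)]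
    have h3 : 0 < x^17 := by positivity
    have h4 : x ^ (16+1) = x^17 := by norm_num
    rw [h4]
    nlinarith [mul_nonneg h3.le (by linarith : (0:ℝ) ≤ 1/2 - x)]
  simp only [Finset.sum_range_succ, Finset.sum_range_zero] at e1 e2
  rw [sub_neg_eq_add] at e2
  rw [abs_le] at e1 e2 ⊢
  push_cast at e1 e2
  norm_num at e1 e2
  norm_num at e3
  constructor
  · linarith [e1.1, e1.2, e2.1, e2.2]
  · linarith [e1.1, e1.2, e2.1, e2.2]

/-- the truncated series of `log ((t+s)/(t-s))` -/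
noncomputable def ser (t s : ℝ) : ℝ :=
  2 * ((s/t) + (s/t)^3/3 + (s/t)^5/5 + (s/t)^7/7 + (s/t)^9/9 + (s/t)^11/11
        + (s/t)^13/13 + (s/t)^15/15)

theorem log_quot (t s : ℝ) (hs : 0 < s) (hs8 : s ≤ 8) (ht : 16 ≤ t) :
    |Real.log ((t+s)/(t-s)) - ser t s| ≤ 4 * (8/t)^17 := by
  have ht0 : 0 < t := by linarith
  have hx : s / t ≤ 1/2 := by
    rw [div_le_iff₀ ht0]; linarith
  have e := ell_bound (s/t) (by positivity) hx
  have h1 : (t+s)/(t-s) = (1 + s/t) / (1 - s/t) := by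
    have : t - s ≠ 0 := by
      have : 0 < t - s := by linarith
      exact this.ne'
    field_simp
  rw [h1, Real.log_div (by positivity) (by
    have : s/t < 1 := by linarith
    linarith)]
  refine e.trans ?_
  gcongr

/-- the four coefficients -/
noncomputable def F (t : ℝ) : ℝ :=
  (1001 * t^2 - 59584) * Real.log ((t+8)/(t-8))
    + (-1001 * t^2 + 40425) * Real.log ((t+5)/(t-5))
    + (-1001 * t^2 - 1911) * Real.log ((t+3)/(t-3))
    + 22880 * Real.log ((t+7)/(t-7))

theorem main_identity (t : ℝ) (ht : t ≠ 0) :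
    (1001 * t^2 - 59584) * ser t 8 + (-1001 * t^2 + 40425) * ser t 5
      + (-1001 * t^2 - 1911) * ser t 3 + 22880 * ser t 7
    = 1021870080000 / t^13 + 2 * (-59584 * 8^15 + 40425 * 5^15 - 1911 * 3^15 + 22880 * 7^15) / 15 / t^15 := by
  unfold ser
  field_simp
  ring

theorem term_bound (c l p e K : ℝ) (h : |l - p| ≤ e) (hc : |c| ≤ K) (hK : 0 ≤ K) :
    |c * l - c * p| ≤ K * e := by
  rw [← mul_sub, abs_mul]
  exact mul_le_mul hc h (abs_nonneg _) hK

theorem F_est (t : ℝ) (ht : 10^5 ≤ t) :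
    |F t - 1021870080000 / t^13| ≤ 10^20 / t^15 := by
  have ht0 : 0 < t := lt_of_lt_of_le (by norm_num) ht
  have ht2 : (10:ℝ)^10 ≤ t^2 := by
    calc (10:ℝ)^10 = (10^5)^2 := by norm_num
      _ ≤ t^2 := by gcongr
  have hid := main_identity t ht0.ne'
  have e0 := term_bound (1001 * t^2 - 59584) _ _ (4 * (8/t)^17) (1002 * t^2)
    (log_quot t 8 (by norm_num) (by norm_num) (by linarith))
    (by rw [abs_le]; constructor <;> nlinarith) (by positivity)
  have e1 := term_bound (-1001 * t^2 + 40425) _ _ (4 * (8/t)^17) (1002 * t^2)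
    (log_quot t 5 (by norm_num) (by norm_num) (by linarith))
    (by rw [abs_le]; constructor <;> nlinarith) (by positivity)
  have e2 := term_bound (-1001 * t^2 - 1911) _ _ (4 * (8/t)^17) (1002 * t^2)
    (log_quot t 3 (by norm_num) (by norm_num) (by linarith))
    (by rw [abs_le]; constructor <;> nlinarith) (by positivity)
  have e3 := term_bound 22880 _ _ (4 * (8/t)^17) (1002 * t^2)
    (log_quot t 7 (by norm_num) (by norm_num) (by linarith))
    (by rw [abs_le]; constructor <;> nlinarith) (by positivity)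
  have h17 : 1002 * t^2 * (4 * (8/t)^17) = (4008 * 8^17) / t^15 := by
    field_simp
    ring
  rw [h17] at e0 e1 e2 e3
  have hc : |2 * (-59584 * 8^15 + 40425 * 5^15 - 1911 * 3^15 + 22880 * 7^15) / 15 / t^15|
      ≤ 10^19 / t^15 := by
    rw [abs_div, abs_of_pos (show (0:ℝ) < t^15 by positivity)]
    gcongr
    norm_num
  have hfin : 4 * ((4008 * 8^17) / t^15) + 10^19 / t^15 ≤ 10^20 / t^15 := by
    rw [← mul_div_assoc, ← add_div]
    gcongr
    norm_num
  unfold F
  rw [abs_le] at *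
  constructor
  · linarith [e0.1, e1.1, e2.1, e3.1, hc.1]
  · linarith [e0.2, e1.2, e2.2, e3.2, hc.2]

theorem F_pos (t : ℝ) (ht : 10^5 ≤ t) : 0 < F t ∧ F t ≤ 10^13 / t^13 := by
  have ht0 : 0 < t := lt_of_lt_of_le (by norm_num) ht
  have ht2 : (10:ℝ)^10 ≤ t^2 := by
    calc (10:ℝ)^10 = (10^5)^2 := by norm_num
      _ ≤ t^2 := by gcongr
  have h := F_est t ht
  have h1 : 10^20 / t^15 ≤ 10^11 / t^13 := by
    rw [div_le_div_iff₀ (by positivity) (by positivity)]
    have h13 : 0 < t^13 := by positivity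
    calc 10^20 * t^13 ≤ (10^11 * t^2) * t^13 := by
          apply mul_le_mul_of_nonneg_right _ h13.le
          nlinarith
      _ = 10^11 * t^15 := by ring
  have h2 : (10:ℝ)^11 / t^13 < 1021870080000 / t^13 := by
    gcongr
    norm_num
  have h3 : 1021870080000 / t^13 + 10^11 / t^13 ≤ 10^13 / t^13 := by
    rw [← add_div]
    gcongr
    norm_num
  rw [abs_le] at h
  constructor
  · linarith [h.1]
  · linarith [h.2]

/-- height of a quotient of two positive integers -/
theorem height_le (u v : ℕ) (hu : 0 < u) (hv : 0 < v) :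
    max ((u:ℚ) / v).num.natAbs ((u:ℚ) / v).den ≤ max u v := by
  have h1 : ((u:ℚ)) / v = Rat.divInt (u:ℤ) (v:ℤ) := by
    rw [Rat.divInt_eq_div]; push_cast; rfl
  rw [h1]
  have h2 := Rat.num_dvd (u:ℤ) (b := (v:ℤ)) (by omega)
  have h3 := Rat.den_dvd (u:ℤ) (v:ℤ)
  have h4 : (Rat.divInt (u:ℤ) (v:ℤ)).num.natAbs ∣ (u:ℤ).natAbs :=
    Int.natAbs_dvd_natAbs.2 h2
  have h5 := Nat.le_of_dvd (by omega) h4
  have h6 := Int.le_of_dvd (by omega) h3
  omega

end Pool.Agent.H455.LG
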