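import Pool.Agent.H455.LG1

/-!
# Two families of violations of Lang's lower bound
-/

set_option autoImplicit false

open Finset

namespace Pool.Agent.H455.LG

/-- `Λ = ∑ b_j log a_j` -/
noncomputable def Lam {n : ℕ} (a : Fin n → ℚ) (b : Fin n → ℤ) : ℝ :=
  ∑ j, (b j : ℝ) * Real.log (a j : ℝ)

/-- `B = max B_j`, `B_j = max (1, |b_j|)` -/
noncomputable def maxB {n : ℕ} (b : Fin n → ℤ) : ℝ :=
  ((Finset.univ.sup fun j => max (b j).natAbs 1 : ℕ) : ℝ)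

/-- `X = ∏ B_j A_j ^ 2`, `A_j = max (num a_j) (den a_j)` -/
noncomputable def size {n : ℕ} (a : Fin n → ℚ) (b : Fin n → ℤ) : ℝ :=
  (∏ j, ((max (b j).natAbs 1 : ℕ) : ℝ)) *
    ∏ j, ((max (a j).num.natAbs (a j).den : ℕ) : ℝ) ^ 2

theorem one_le_size {n : ℕ} (a : Fin n → ℚ) (b : Fin n → ℤ) : 1 ≤ size a b := by
  have h1 : (1:ℝ) ≤ ∏ j, ((max (b j).natAbs 1 : ℕ) : ℝ) := by
    calc (1:ℝ) = ∏ j : Fin n, (1:ℝ) := by simp
      _ ≤ _ := by
        apply Finset.prod_le_prod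
        · intro j _; norm_num
        · intro j _
          exact_mod_cast le_max_right _ _
  have h2 : (1:ℝ) ≤ ∏ j, ((max (a j).num.natAbs (a j).den : ℕ) : ℝ) ^ 2 := by
    calc (1:ℝ) = ∏ j : Fin n, (1:ℝ) := by simp
      _ ≤ _ := by
        apply Finset.prod_le_prod
        · intro j _; norm_num
        · intro j _
          have h2 : 1 ≤ max (a j).num.natAbs (a j).den :=
            le_trans (a j).pos (le_max_right _ _)
          exact one_le_pow₀ (by exact_mod_cast h2)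
  unfold size
  nlinarith

theorem size_le {n : ℕ} (u v : Fin n → ℕ) (hu : ∀ j, 0 < u j) (hv : ∀ j, 0 < v j)
    (b : Fin n → ℤ) (β α : Fin n → ℝ) (hβ : ∀ j, ((max (b j).natAbs 1 : ℕ) : ℝ) ≤ β j)
    (hα : ∀ j, ((max (u j) (v j) : ℕ) : ℝ) ^ 2 ≤ α j) :
    size (fun j => (u j : ℚ) / (v j : ℚ)) b ≤ (∏ j, β j) * ∏ j, α j := by
  unfold size
  apply mul_le_mul
  · exact Finset.prod_le_prod (fun j _ => by positivity) (fun j _ => hβ j)
  · apply Finset.prod_le_prod (fun j _ => by positivity)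
    intro j _
    refine le_trans ?_ (hα j)
    have h := height_le (u j) (v j) (hu j) (hv j)
    gcongr
  · positivity
  · exact Finset.prod_nonneg fun j _ => le_trans (by positivity) (hβ j)

theorem fin_ineq (d : ℕ) (K C θ ε : ℝ) (hK : 1 ≤ K) (hC : 0 < C) (hθ : 0 ≤ θ) (hε : 0 ≤ ε)
    (hd : (d : ℝ) * (1 + ε) < 13 + 2 * θ) :
    ∃ T : ℕ, 10 ^ 5 ≤ T ∧ ∀ t : ℕ, T ≤ t → ∀ L X B : ℝ, |L| ≤ 10 ^ 13 / (t:ℝ) ^ 13 → 0 < X →
      X ≤ K * (t:ℝ) ^ d → (t:ℝ) ^ 2 ≤ B → |L| < C * B ^ θ / X ^ (1 + ε) := by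
  have hδ : 0 < 13 + 2 * θ - d * (1 + ε) := by linarith
  have hev := ((tendsto_rpow_atTop hδ).comp
    (tendsto_natCast_atTop_atTop (R := ℝ))).eventually_gt_atTop (10 ^ 13 * K ^ (1 + ε) / C)
  obtain ⟨T, hT⟩ := Filter.eventually_atTop.1 hev
  refine ⟨max T (10 ^ 5), le_max_right _ _, ?_⟩
  intro t ht L X B hL hX hXK hB
  have ht5 : 10 ^ 5 ≤ t := le_trans (le_max_right _ _) ht
  have ht0 : (0:ℝ) < t := by
    have : 0 < t := lt_of_lt_of_le (by norm_num) ht5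
    exact_mod_cast this
  have h1 : 10 ^ 13 * K ^ (1 + ε) / C < (t:ℝ) ^ (13 + 2 * θ - d * (1 + ε)) :=
    hT t (le_trans (le_max_left _ _) ht)
  have hK0 : 0 < K := by linarith
  have hX1 : X ^ (1 + ε) ≤ K ^ (1 + ε) * (t:ℝ) ^ ((d:ℝ) * (1 + ε)) := by
    calc X ^ (1 + ε) ≤ (K * (t:ℝ) ^ d) ^ (1 + ε) :=
          Real.rpow_le_rpow hX.le hXK (by linarith)
      _ = K ^ (1 + ε) * ((t:ℝ) ^ d) ^ (1 + ε) := Real.mul_rpow hK0.le (by positivity)
      _ = K ^ (1 + ε) * (t:ℝ) ^ ((d:ℝ) * (1 + ε)) := by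
          rw [← Real.rpow_natCast (t:ℝ) d, ← Real.rpow_mul ht0.le]
  have hB1 : (t:ℝ) ^ (2 * θ) ≤ B ^ θ := by
    calc (t:ℝ) ^ (2 * θ) = ((t:ℝ) ^ 2) ^ θ := by
          rw [← Real.rpow_natCast (t:ℝ) 2, ← Real.rpow_mul ht0.le]
          norm_num
      _ ≤ B ^ θ := Real.rpow_le_rpow (by positivity) hB hθ
  refine lt_of_le_of_lt hL ?_
  have hXp : 0 < X ^ (1 + ε) := Real.rpow_pos_of_pos hX _
  have hKp : 0 < K ^ (1 + ε) := Real.rpow_pos_of_pos hK0 _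
  rw [div_lt_iff₀ hC] at h1
  rw [div_lt_div_iff₀ (by positivity) hXp]
  have e1 : (t:ℝ) ^ (2 * θ) * (t:ℝ) ^ 13
      = (t:ℝ) ^ (13 + 2 * θ - d * (1 + ε)) * (t:ℝ) ^ ((d:ℝ) * (1 + ε)) := by
    rw [← Real.rpow_add ht0, ← Real.rpow_natCast (t:ℝ) 13, ← Real.rpow_add ht0]
    congr 1
    push_cast
    ring
  have hq : 0 < (t:ℝ) ^ ((d:ℝ) * (1 + ε)) := Real.rpow_pos_of_pos ht0 _
  calc 10 ^ 13 * X ^ (1 + ε) ≤ 10 ^ 13 * (K ^ (1 + ε) * (t:ℝ) ^ ((d:ℝ) * (1 + ε))) := by gcongr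
    _ = (10 ^ 13 * K ^ (1 + ε)) * (t:ℝ) ^ ((d:ℝ) * (1 + ε)) := by ring
    _ < ((t:ℝ) ^ (13 + 2 * θ - d * (1 + ε)) * C) * (t:ℝ) ^ ((d:ℝ) * (1 + ε)) :=
        mul_lt_mul_of_pos_right h1 hq
    _ = C * ((t:ℝ) ^ (2 * θ) * (t:ℝ) ^ 13) := by rw [e1]; ring
    _ ≤ C * (B ^ θ * (t:ℝ) ^ 13) := by gcongr
    _ = C * B ^ θ * (t:ℝ) ^ 13 := by ring

/-! ## The family of four rationals -/

/-- numerators -/
def uA (t : ℕ) : Fin 4 → ℕ := ![t + 8, t + 5, t + 3, t + 7]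
/-- denominators -/
def vA (t : ℕ) : Fin 4 → ℕ := ![t - 8, t - 5, t - 3, t - 7]
/-- coefficients -/
def bA (t : ℕ) : Fin 4 → ℤ :=
  ![1001 * (t:ℤ)^2 - 59584, -1001 * (t:ℤ)^2 + 40425, -1001 * (t:ℤ)^2 - 1911, 22880]

theorem uA_pos (t : ℕ) (j : Fin 4) : 0 < uA t j := by
  fin_cases j <;> simp [uA]

theorem vA_pos (t : ℕ) (ht : 10 ^ 5 ≤ t) (j : Fin 4) : 0 < vA t j := by
  have : (10:ℕ) ^ 5 = 100000 := by norm_num
  fin_cases j <;> simp [vA] <;> omega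

theorem tsqZ (t : ℕ) (ht : 10 ^ 5 ≤ t) : (10:ℤ) ^ 10 ≤ (t:ℤ) ^ 2 := by
  have h : (10:ℤ) ^ 5 ≤ t := by exact_mod_cast ht
  calc (10:ℤ) ^ 10 = (10 ^ 5) ^ 2 := by norm_num
    _ ≤ (t:ℤ) ^ 2 := pow_le_pow_left₀ (by norm_num) h 2

theorem bA_ne (t : ℕ) (ht : 10 ^ 5 ≤ t) (j : Fin 4) : bA t j ≠ 0 := by
  have h := tsqZ t ht
  fin_cases j <;> simp [bA] <;> omega

theorem cast_quot (t s : ℕ) (hs : s ≤ t) :
    ((((t + s : ℕ) : ℚ) / ((t - s : ℕ) : ℚ) : ℚ) : ℝ) = ((t:ℝ) + s) / ((t:ℝ) - s) := by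
  push_cast [Nat.cast_sub hs]
  rfl

theorem Lam_A (t : ℕ) (ht : 10 ^ 5 ≤ t) :
    Lam (fun j => (uA t j : ℚ) / (vA t j : ℚ)) (bA t) = F t := by
  have h : (10:ℕ) ^ 5 = 100000 := by norm_num
  have c8 := cast_quot t 8 (by omega)
  have c5 := cast_quot t 5 (by omega)
  have c3 := cast_quot t 3 (by omega)
  have c7 := cast_quot t 7 (by omega)
  unfold Lam F
  rw [Fin.sum_univ_four]
  simp only [uA, vA, bA, Matrix.cons_val]
  rw [c8, c5, c3, c7]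
  push_cast
  ring

theorem abs_b0 (t : ℕ) (ht : 10 ^ 5 ≤ t) (e : ℤ) (he : |e| ≤ 60000) (s : ℤ)
    (hs : s = 1001 ∨ s = -1001) :
    ((max (s * (t:ℤ) ^ 2 + e).natAbs 1 : ℕ) : ℝ) ≤ 1100 * (t:ℝ) ^ 2 := by
  have h := tsqZ t ht
  rw [abs_le] at he
  have h1 : (max (s * (t:ℤ) ^ 2 + e).natAbs 1 : ℕ) ≤ 1100 * t ^ 2 := by
    have h2 : ((t ^ 2 : ℕ) : ℤ) = (t:ℤ) ^ 2 := by push_cast; rfl
    generalize hq : t ^ 2 = q at *
    rw [← h2] at h ⊢
    rcases hs with rfl | rfl <;> omega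
  exact_mod_cast h1

theorem sq_bound (t s : ℕ) (hs : s ≤ 8) (ht : 10 ^ 5 ≤ t) :
    ((max (t + s) (t - s) : ℕ) : ℝ) ^ 2 ≤ 4 * (t:ℝ) ^ 2 := by
  have h : (10:ℕ) ^ 5 = 100000 := by norm_num
  have h1 : max (t + s) (t - s) ≤ 2 * t := by omega
  calc ((max (t + s) (t - s) : ℕ) : ℝ) ^ 2 ≤ ((2 * t : ℕ) : ℝ) ^ 2 := by gcongr
    _ = 4 * (t:ℝ) ^ 2 := by push_cast; ring

theorem size_A (t : ℕ) (ht : 10 ^ 5 ≤ t) :
    size (fun j => (uA t j : ℚ) / (vA t j : ℚ)) (bA t) ≤ 10 ^ 16 * (t:ℝ) ^ 14 := by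
  have h := size_le (uA t) (vA t) (uA_pos t) (vA_pos t ht) (bA t)
    ![1100 * (t:ℝ) ^ 2, 1100 * (t:ℝ) ^ 2, 1100 * (t:ℝ) ^ 2, 22880]
    ![4 * (t:ℝ) ^ 2, 4 * (t:ℝ) ^ 2, 4 * (t:ℝ) ^ 2, 4 * (t:ℝ) ^ 2]
    (by
      intro j
      fin_cases j
      · exact abs_b0 t ht (-59584) (by norm_num) 1001 (Or.inl rfl)
      · exact abs_b0 t ht 40425 (by norm_num) (-1001) (Or.inr rfl)
      · exact abs_b0 t ht (-1911) (by norm_num) (-1001) (Or.inr rfl)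
      · simp [bA])
    (by
      intro j
      fin_cases j
      · exact sq_bound t 8 (by norm_num) ht
      · exact sq_bound t 5 (by norm_num) ht
      · exact sq_bound t 3 (by norm_num) ht
      · exact sq_bound t 7 (by norm_num) ht)
  refine h.trans ?_
  rw [Fin.prod_univ_four, Fin.prod_univ_four]
  simp only [Matrix.cons_val]
  have h14 : 0 ≤ (t:ℝ) ^ 14 := by positivity
  nlinarith [h14]

theorem maxB_ge {n : ℕ} (b : Fin n → ℤ) (j : Fin n) (t : ℕ) (ht : 10 ^ 5 ≤ t)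
    (h : b j = 1001 * (t:ℤ) ^ 2 - 59584) : (t:ℝ) ^ 2 ≤ maxB b := by
  have h1 : max (b j).natAbs 1 ≤ Finset.univ.sup fun j => max (b j).natAbs 1 :=
    Finset.le_sup (f := fun j => max (b j).natAbs 1) (Finset.mem_univ j)
  have h2 : t ^ 2 ≤ max (b j).natAbs 1 := by
    have h3 := tsqZ t ht
    have h4 : ((t ^ 2 : ℕ) : ℤ) = (t:ℤ) ^ 2 := by push_cast; rfl
    rw [← h4] at h3 h
    generalize t ^ 2 = q at *
    omega
  unfold maxB
  exact_mod_cast h2.trans h1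

/-! ## The family with a Pell equation -/

/-- solutions of `M ^ 2 = 2 * N ^ 2 + 14` -/
def pell : ℕ → ℕ × ℕ
  | 0 => (4, 1)
  | k + 1 => (3 * (pell k).1 + 4 * (pell k).2, 2 * (pell k).1 + 3 * (pell k).2)

theorem pell_eq (k : ℕ) : (pell k).1 ^ 2 = 2 * (pell k).2 ^ 2 + 14 := by
  induction k with
  | zero => rfl
  | succ k ih =>
    show (3 * (pell k).1 + 4 * (pell k).2) ^ 2 = 2 * (2 * (pell k).1 + 3 * (pell k).2) ^ 2 + 14
    nlinarith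

theorem pell_lt (k : ℕ) : (pell k).1 < (pell (k + 1)).1 := by
  show (pell k).1 < 3 * (pell k).1 + 4 * (pell k).2
  have h : 0 < (pell k).1 := by
    by_contra h0
    have h1 := pell_eq k
    have h2 : (pell k).1 = 0 := by omega
    rw [h2] at h1
    omega
  omega

theorem pell_mono : StrictMono fun k => (pell k).1 := strictMono_nat_of_lt_succ pell_lt

theorem pell_ge (k : ℕ) : k ≤ (pell k).1 := pell_mono.le_apply

theorem pell_snd_pos (k : ℕ) : 0 < (pell k).2 := by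
  induction k with
  | zero => decide
  | succ k ih =>
    show 0 < 2 * (pell k).1 + 3 * (pell k).2
    omega

/-- the parameter `t` -/
def tB (k : ℕ) : ℕ := (pell k).1 ^ 2 - 7

theorem tB_add (k : ℕ) : tB k + 7 = (pell k).1 ^ 2 := by
  have := pell_eq k
  unfold tB
  omega

theorem tB_sub (k : ℕ) : tB k - 7 = 2 * (pell k).2 ^ 2 := by
  have := pell_eq k
  unfold tB
  omega

theorem tB_inj : StrictMono tB := by
  intro i j h
  have h1 := pell_mono h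
  have h2 : (pell i).1 ^ 2 < (pell j).1 ^ 2 := Nat.pow_lt_pow_left h1 (by norm_num)
  have := tB_add i
  have := tB_add j
  omega

theorem tB_ge (k : ℕ) : k ≤ tB k := tB_inj.le_apply

/-- numerators -/
def uB (k m : ℕ) : Fin (5 + m) → ℕ :=
  Fin.append ![tB k + 8, tB k + 5, tB k + 3, (pell k).1, 2] fun _ => 2
/-- denominators -/
def vB (k m : ℕ) : Fin (5 + m) → ℕ :=
  Fin.append ![tB k - 8, tB k - 5, tB k - 3, (pell k).2, 1] fun _ => 1
/-- coefficients -/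
def bB (k m : ℕ) : Fin (5 + m) → ℤ :=
  Fin.append ![1001 * (tB k:ℤ)^2 - 59584, -1001 * (tB k:ℤ)^2 + 40425,
    -1001 * (tB k:ℤ)^2 - 1911, 45760, -22880 - m] fun _ => 1

theorem all_append {m n : ℕ} {α : Type*} (f : Fin m → α) (g : Fin n → α) (P : α → Prop)
    (h1 : ∀ j, P (f j)) (h2 : ∀ j, P (g j)) (j : Fin (m + n)) : P (Fin.append f g j) := by
  induction j using Fin.addCases with
  | left i => rw [Fin.append_left]; exact h1 i
  | right i => rw [Fin.append_right]; exact h2 i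

theorem uB_pos (k m : ℕ) (hk : 10 ^ 5 ≤ tB k) (j : Fin (5 + m)) : 0 < uB k m j := by
  have h := pell_ge k
  refine all_append _ _ (fun x => 0 < x) (fun i => ?_) (fun i => by norm_num) j
  have h0 : 0 < (pell k).1 := by
    by_contra h0
    have h1 := pell_eq k
    have h2 : (pell k).1 = 0 := by omega
    rw [h2] at h1
    omega
  fin_cases i <;> simp <;> omega

theorem vB_pos (k m : ℕ) (hk : 10 ^ 5 ≤ tB k) (j : Fin (5 + m)) : 0 < vB k m j := by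
  have h : (10:ℕ) ^ 5 = 100000 := by norm_num
  have h1 := pell_snd_pos k
  refine all_append _ _ (fun x => 0 < x) (fun i => ?_) (fun i => by norm_num) j
  fin_cases i <;> simp <;> omega

theorem bB_ne (k m : ℕ) (hk : 10 ^ 5 ≤ tB k) (j : Fin (5 + m)) : bB k m j ≠ 0 := by
  have h := tsqZ _ hk
  refine all_append _ _ (fun x => x ≠ 0) (fun i => ?_) (fun i => by norm_num) j
  fin_cases i <;> simp <;> omega

theorem log_pell (k : ℕ) (hk : 10 ^ 5 ≤ tB k) :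
    Real.log (((tB k:ℝ) + 7) / ((tB k:ℝ) - 7)) =
      2 * Real.log ((pell k).1 / (pell k).2 : ℝ) - Real.log 2 := by
  have h : (10:ℕ) ^ 5 = 100000 := by norm_num
  have hM : (0:ℝ) < (pell k).1 := by
    have h1 := tB_add k
    have : 0 < (pell k).1 := by
      by_contra h0
      have h2 : (pell k).1 = 0 := by omega
      rw [h2] at h1
      omega
    exact_mod_cast this
  have hN : (0:ℝ) < (pell k).2 := by exact_mod_cast pell_snd_pos k
  have e1 : (tB k:ℝ) + 7 = ((pell k).1 : ℝ) ^ 2 := by exact_mod_cast tB_add k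
  have e2 : (tB k:ℝ) - 7 = 2 * ((pell k).2 : ℝ) ^ 2 := by
    have h1 := tB_sub k
    have h2 : tB k = 2 * (pell k).2 ^ 2 + 7 := by omega
    have h3 : (tB k:ℝ) = 2 * ((pell k).2 : ℝ) ^ 2 + 7 := by exact_mod_cast h2
    linarith
  rw [e1, e2, Real.log_div (by positivity) (by positivity), Real.log_mul (by norm_num) (by positivity),
    Real.log_pow, Real.log_pow, Real.log_div hM.ne' hN.ne']
  push_cast
  ring

theorem Lam_B (k m : ℕ) (hk : 10 ^ 5 ≤ tB k) :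
    Lam (fun j => (uB k m j : ℚ) / (vB k m j : ℚ)) (bB k m) = F (tB k) := by
  have h : (10:ℕ) ^ 5 = 100000 := by norm_num
  have c8 := cast_quot (tB k) 8 (by omega)
  have c5 := cast_quot (tB k) 5 (by omega)
  have c3 := cast_quot (tB k) 3 (by omega)
  have hl := log_pell k hk
  unfold Lam
  rw [Fin.sum_univ_add]
  have e1 : ∀ i : Fin 5, ((bB k m (Fin.castAdd m i) : ℤ) : ℝ) *
      Real.log (((uB k m (Fin.castAdd m i) : ℚ) / (vB k m (Fin.castAdd m i) : ℚ) : ℚ) : ℝ)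
      = (((![1001 * (tB k:ℤ)^2 - 59584, -1001 * (tB k:ℤ)^2 + 40425,
    -1001 * (tB k:ℤ)^2 - 1911, 45760, -22880 - m] : Fin 5 → ℤ) i : ℤ) : ℝ) *
      Real.log ((((![tB k + 8, tB k + 5, tB k + 3, (pell k).1, 2] : Fin 5 → ℕ) i : ℕ) : ℚ) /
        (((![tB k - 8, tB k - 5, tB k - 3, (pell k).2, 1] : Fin 5 → ℕ) i : ℕ) : ℚ) : ℚ) := by
    intro i
    simp only [bB, uB, vB, Fin.append_left]
  have e2 : ∀ i : Fin m, ((bB k m (Fin.natAdd 5 i) : ℤ) : ℝ) *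
      Real.log (((uB k m (Fin.natAdd 5 i) : ℚ) / (vB k m (Fin.natAdd 5 i) : ℚ) : ℚ) : ℝ)
      = Real.log 2 := by
    intro i
    simp only [bB, uB, vB, Fin.append_right]
    norm_num
  rw [Finset.sum_congr rfl fun i _ => e1 i, Finset.sum_congr rfl fun i _ => e2 i]
  rw [Fin.sum_univ_five]
  simp only [Matrix.cons_val, Finset.sum_const, Finset.card_univ, Fintype.card_fin, nsmul_eq_mul]
  rw [c8, c5, c3]
  have e3 : (((((pell k).1 : ℕ) : ℚ) / (((pell k).2 : ℕ) : ℚ) : ℚ) : ℝ)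
      = ((pell k).1 : ℝ) / ((pell k).2 : ℝ) := by push_cast; rfl
  have e4 : ((((2:ℕ) : ℚ) / ((1:ℕ) : ℚ) : ℚ) : ℝ) = 2 := by norm_num
  rw [e3, e4]
  unfold F
  rw [hl]
  push_cast
  ring

end Pool.Agent.H455.LG
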