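import Pool.Agent.H455.LG2

/-!
# Assembly: five rationals (Pell equation) and four multiplicatively independent rationals
-/

set_option autoImplicit false

open Finset Filter

namespace Pool.Agent.H455.LG

/-- `(a, b)` violates the inequality with `B ^ θ` and the exponent `1 + ε` -/
def Violates {n : ℕ} (C θ ε : ℝ) (a : Fin n → ℚ) (b : Fin n → ℤ) : Prop :=
  (∀ j, 0 < a j ∧ a j ≠ 1) ∧ (∀ j, b j ≠ 0) ∧ Lam a b ≠ 0 ∧
    |Lam a b| < C * maxB b ^ θ / size a b ^ (1 + ε)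

/-- multiplicative independence -/
def MultIndep {n : ℕ} (a : Fin n → ℚ) : Prop :=
  ∀ k : Fin n → ℤ, ∏ j, a j ^ k j = 1 → k = 0

theorem size_B (k m : ℕ) (hk : 10 ^ 5 ≤ tB k) :
    size (fun j => (uB k m j : ℚ) / (vB k m j : ℚ)) (bB k m)
      ≤ (10 ^ 20 * (22880 + m) * 4 ^ m) * (tB k : ℝ) ^ 13 := by
  have h5 : (10:ℕ) ^ 5 = 100000 := by norm_num
  have hM := tB_add k
  have hN := tB_sub k
  have hMN : max (pell k).1 (pell k).2 ^ 2 ≤ 2 * tB k := by
    have h1 : (pell k).2 ≤ (pell k).1 := by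
      by_contra hc
      have h2 : (pell k).1 ^ 2 < (pell k).2 ^ 2 := Nat.pow_lt_pow_left (by omega) (by norm_num)
      omega
    rw [max_eq_left h1]
    omega
  have h := size_le (uB k m) (vB k m) (uB_pos k m hk) (vB_pos k m hk) (bB k m)
    (Fin.append ![1100 * (tB k:ℝ) ^ 2, 1100 * (tB k:ℝ) ^ 2, 1100 * (tB k:ℝ) ^ 2, 45760,
      22880 + (m:ℝ)] fun _ => 1)
    (Fin.append ![4 * (tB k:ℝ) ^ 2, 4 * (tB k:ℝ) ^ 2, 4 * (tB k:ℝ) ^ 2, 2 * (tB k:ℝ), 4]
      fun _ => 4)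
    (by
      intro j
      induction j using Fin.addCases with
      | left i =>
        simp only [bB, Fin.append_left]
        fin_cases i
        · have h0 := abs_b0 (tB k) hk (-59584) (by norm_num) 1001 (Or.inl rfl)
          rw [← sub_eq_add_neg] at h0
          simp only [Fin.reduceFinMk, Matrix.cons_val]
          exact h0
        · have h0 := abs_b0 (tB k) hk 40425 (by norm_num) (-1001) (Or.inr rfl)
          simp only [Fin.reduceFinMk, Matrix.cons_val]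
          exact h0
        · have h0 := abs_b0 (tB k) hk (-1911) (by norm_num) (-1001) (Or.inr rfl)
          rw [← sub_eq_add_neg] at h0
          simp only [Fin.reduceFinMk, Matrix.cons_val]
          exact h0
        · simp
        · have : (max ((-22880 - (m:ℤ)) : ℤ).natAbs 1 : ℕ) = 22880 + m := by omega
          show ((max ((-22880 - (m:ℤ)) : ℤ).natAbs 1 : ℕ) : ℝ) ≤ 22880 + (m:ℝ)
          rw [this]
          push_cast
          exact le_refl _
      | right i =>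
        simp only [bB, Fin.append_right]
        norm_num)
    (by
      intro j
      induction j using Fin.addCases with
      | left i =>
        simp only [uB, vB, Fin.append_left]
        fin_cases i
        · have h0 := sq_bound (tB k) 8 (by norm_num) hk
          simp only [Fin.reduceFinMk, Matrix.cons_val]
          exact h0
        · have h0 := sq_bound (tB k) 5 (by norm_num) hk
          simp only [Fin.reduceFinMk, Matrix.cons_val]
          exact h0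
        · have h0 := sq_bound (tB k) 3 (by norm_num) hk
          simp only [Fin.reduceFinMk, Matrix.cons_val]
          exact h0
        · show ((max (pell k).1 (pell k).2 : ℕ) : ℝ) ^ 2 ≤ 2 * (tB k : ℝ)
          exact_mod_cast hMN
        · norm_num
      | right i =>
        simp only [uB, vB, Fin.append_right]
        norm_num)
  refine h.trans ?_
  rw [Fin.prod_univ_add, Fin.prod_univ_add, Fin.prod_univ_five, Fin.prod_univ_five]
  simp only [Fin.append_left, Fin.append_right, Matrix.cons_val, Finset.prod_const,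
    Finset.card_univ, Fintype.card_fin, one_pow, mul_one]
  have e : 1100 * (tB k:ℝ) ^ 2 * (1100 * (tB k:ℝ) ^ 2) * (1100 * (tB k:ℝ) ^ 2) * 45760 *
      (22880 + (m:ℝ)) * (4 * (tB k:ℝ) ^ 2 * (4 * (tB k:ℝ) ^ 2) * (4 * (tB k:ℝ) ^ 2) *
        (2 * (tB k:ℝ)) * 4 * 4 ^ m)
      = (1100 ^ 3 * 45760 * 512 * (22880 + m) * 4 ^ m) * (tB k : ℝ) ^ 13 := by ring
  rw [e]
  gcongr
  norm_num

theorem five (n : ℕ) (hn : 5 ≤ n) (θ ε C : ℝ) (hθ : 0 ≤ θ) (hε : 0 ≤ ε) (h : 13 * ε < 2 * θ)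
    (hC : 0 < C) :
    {p : (Fin n → ℚ) × (Fin n → ℤ) | Violates C θ ε p.1 p.2}.Infinite := by
  obtain ⟨m, rfl⟩ : ∃ m, n = 5 + m := ⟨n - 5, by omega⟩
  have h5 : (10:ℕ) ^ 5 = 100000 := by norm_num
  obtain ⟨T, hT5, hT⟩ := fin_ineq 13 (10 ^ 20 * (22880 + m) * 4 ^ m) C θ ε
    (by
      have h1 : (1:ℝ) ≤ 4 ^ m := one_le_pow₀ (by norm_num)
      have h2 : (0:ℝ) ≤ m := Nat.cast_nonneg m
      nlinarith) hC hθ hε (by push_cast; linarith)
  refine Set.infinite_of_injective_forall_mem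
    (f := fun k : ℕ => ((fun j => (uB (T + k) m j : ℚ) / (vB (T + k) m j : ℚ)), bB (T + k) m)) ?_ ?_
  · intro k k' hkk
    have h1 : bB (T + k) m = bB (T + k') m := congrArg Prod.snd hkk
    have h2 := congrFun h1 (Fin.castAdd m 0)
    simp only [bB, Fin.append_left, Matrix.cons_val] at h2
    have h3 : ((tB (T + k) ^ 2 : ℕ) : ℤ) = ((tB (T + k') ^ 2 : ℕ) : ℤ) := by
      push_cast
      linarith
    have h4 : tB (T + k) ^ 2 = tB (T + k') ^ 2 := by exact_mod_cast h3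
    have h6 : tB (T + k) = tB (T + k') := Nat.pow_left_injective (by norm_num : (2:ℕ) ≠ 0) h4
    have h7 := tB_inj.injective h6
    omega
  · intro k
    have ht : T ≤ tB (T + k) := le_trans (by omega) (tB_ge (T + k))
    have ht5 : 10 ^ 5 ≤ tB (T + k) := hT5.trans ht
    have hF := F_pos (tB (T + k) : ℝ) (by exact_mod_cast ht5)
    have hL := Lam_B (T + k) m ht5
    have hM := tB_add (T + k)
    have hN := tB_sub (T + k)
    show Violates C θ ε (fun j => (uB (T + k) m j : ℚ) / (vB (T + k) m j : ℚ)) (bB (T + k) m)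
    refine ⟨?_, bB_ne _ m ht5, ?_, ?_⟩
    · intro j
      have hu := uB_pos (T + k) m ht5 j
      have hv := vB_pos (T + k) m ht5 j
      have hu' : (0:ℚ) < uB (T + k) m j := by exact_mod_cast hu
      have hv' : (0:ℚ) < vB (T + k) m j := by exact_mod_cast hv
      refine ⟨by positivity, ?_⟩
      intro h1
      rw [div_eq_one_iff_eq hv'.ne'] at h1
      have h2 : uB (T + k) m j = vB (T + k) m j := by exact_mod_cast h1
      have h3 : (pell (T + k)).1 ≠ (pell (T + k)).2 := by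
        intro hc
        rw [hc] at hM
        omega
      induction j using Fin.addCases with
      | left i =>
        simp only [uB, vB, Fin.append_left] at h2
        fin_cases i
        · have h4 : tB (T + k) + 8 = tB (T + k) - 8 := h2
          omega
        · have h4 : tB (T + k) + 5 = tB (T + k) - 5 := h2
          omega
        · have h4 : tB (T + k) + 3 = tB (T + k) - 3 := h2
          omega
        · simp only [Fin.reduceFinMk, Matrix.cons_val] at h2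
          exact h3 h2
        · have h4 : (2:ℕ) = 1 := h2
          omega
      | right i =>
        simp only [uB, vB, Fin.append_right] at h2
        omega
    · rw [hL]
      exact hF.1.ne'
    · refine hT _ ht _ _ _ ?_ ?_ (size_B _ m ht5) ?_
      · rw [hL, abs_of_pos hF.1]
        exact hF.2
      · exact lt_of_lt_of_le one_pos (one_le_size _ _)
      · refine maxB_ge _ (Fin.castAdd m 0) _ ht5 ?_
        simp only [bB, Fin.append_left, Matrix.cons_val]

/-! ## Four rationals -/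

/-- the parameters `t` of the second family -/
def tA (k : ℕ) : ℕ := 61821 + 215441 * k

theorem val_zero (p : ℕ) [Fact p.Prime] (u v : ℕ) (hu : ¬ p ∣ u) (hv : ¬ p ∣ v) :
    padicValRat p ((u:ℚ) / (v:ℚ)) = 0 := by
  have hu0 : (u:ℚ) ≠ 0 := by
    intro h
    have : u = 0 := by exact_mod_cast h
    rw [this] at hu
    exact hu (dvd_zero p)
  have hv0 : (v:ℚ) ≠ 0 := by
    intro h
    have : v = 0 := by exact_mod_cast h
    rw [this] at hv
    exact hv (dvd_zero p)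
  rw [padicValRat.div hu0 hv0, padicValRat.of_nat, padicValRat.of_nat,
    padicValNat.eq_zero_of_not_dvd hu, padicValNat.eq_zero_of_not_dvd hv]
  simp

theorem val_pos (p : ℕ) [Fact p.Prime] (u v : ℕ) (hu0 : u ≠ 0) (hu : p ∣ u) (hv : ¬ p ∣ v) :
    padicValRat p ((u:ℚ) / (v:ℚ)) ≠ 0 := by
  have hu1 : (u:ℚ) ≠ 0 := by exact_mod_cast hu0
  have hv0 : (v:ℚ) ≠ 0 := by
    intro h
    have : v = 0 := by exact_mod_cast h
    rw [this] at hv
    exact hv (dvd_zero p)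
  rw [padicValRat.div hu1 hv0, padicValRat.of_nat, padicValRat.of_nat,
    padicValNat.eq_zero_of_not_dvd hv]
  have h1 : 1 ≤ padicValNat p u := one_le_padicValNat_of_dvd hu0 hu
  intro h
  rw [Nat.cast_zero, sub_zero] at h
  have h2 : padicValNat p u = 0 := by exact_mod_cast h
  omega

theorem val_prod (p : ℕ) [Fact p.Prime] (a : Fin 4 → ℚ) (ha : ∀ j, a j ≠ 0) (k : Fin 4 → ℤ)
    (h : ∏ j, a j ^ k j = 1) : ∑ j, k j * padicValRat p (a j) = 0 := by
  have h1 : padicValRat p (∏ j, a j ^ k j) = ∑ j, k j * padicValRat p (a j) := by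
    rw [Fin.prod_univ_four, Fin.sum_univ_four]
    have hz : ∀ j, a j ^ k j ≠ 0 := fun j => zpow_ne_zero _ (ha j)
    rw [padicValRat.mul (mul_ne_zero (mul_ne_zero (hz 0) (hz 1)) (hz 2)) (hz 3),
      padicValRat.mul (mul_ne_zero (hz 0) (hz 1)) (hz 2), padicValRat.mul (hz 0) (hz 1)]
    simp only [padicValRat.zpow]
  rw [← h1, h]
  simp

theorem nd17 (t : ℕ) (ht : 8 ≤ t) (h : t % 17 = 9) : (17 ∣ t + 8 ∧ ¬ 17 ∣ t - 8) ∧
    (¬ 17 ∣ t + 5 ∧ ¬ 17 ∣ t - 5) ∧ (¬ 17 ∣ t + 3 ∧ ¬ 17 ∣ t - 3) ∧ ¬ 17 ∣ t + 7 ∧ ¬ 17 ∣ t - 7 := by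
  refine ⟨⟨?_, ?_⟩, ⟨?_, ?_⟩, ⟨?_, ?_⟩, ?_, ?_⟩ <;> omega

theorem nd19 (t : ℕ) (ht : 8 ≤ t) (h : t % 19 = 14) : (19 ∣ t + 5 ∧ ¬ 19 ∣ t - 5) ∧
    (¬ 19 ∣ t + 8 ∧ ¬ 19 ∣ t - 8) ∧ (¬ 19 ∣ t + 3 ∧ ¬ 19 ∣ t - 3) ∧ ¬ 19 ∣ t + 7 ∧ ¬ 19 ∣ t - 7 := by
  refine ⟨⟨?_, ?_⟩, ⟨?_, ?_⟩, ⟨?_, ?_⟩, ?_, ?_⟩ <;> omega

theorem nd23 (t : ℕ) (ht : 8 ≤ t) (h : t % 23 = 20) : (23 ∣ t + 3 ∧ ¬ 23 ∣ t - 3) ∧
    (¬ 23 ∣ t + 8 ∧ ¬ 23 ∣ t - 8) ∧ (¬ 23 ∣ t + 5 ∧ ¬ 23 ∣ t - 5) ∧ ¬ 23 ∣ t + 7 ∧ ¬ 23 ∣ t - 7 := by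
  refine ⟨⟨?_, ?_⟩, ⟨?_, ?_⟩, ⟨?_, ?_⟩, ?_, ?_⟩ <;> omega

theorem nd29 (t : ℕ) (ht : 8 ≤ t) (h : t % 29 = 22) : (29 ∣ t + 7 ∧ ¬ 29 ∣ t - 7) ∧
    (¬ 29 ∣ t + 8 ∧ ¬ 29 ∣ t - 8) ∧ (¬ 29 ∣ t + 5 ∧ ¬ 29 ∣ t - 5) ∧ ¬ 29 ∣ t + 3 ∧ ¬ 29 ∣ t - 3 := by
  refine ⟨⟨?_, ?_⟩, ⟨?_, ?_⟩, ⟨?_, ?_⟩, ?_, ?_⟩ <;> omega

theorem indep_aux (t : ℕ) (ht : 10 ^ 5 ≤ t) (h17 : t % 17 = 9) (h19 : t % 19 = 14)
    (h23 : t % 23 = 20) (h29 : t % 29 = 22) :
    MultIndep fun j => (uA t j : ℚ) / (vA t j : ℚ) := by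
  have h5 : (10:ℕ) ^ 5 = 100000 := by norm_num
  intro e he
  have ha : ∀ j, (uA t j : ℚ) / (vA t j : ℚ) ≠ 0 := by
    intro j
    have hu : (0:ℚ) < uA t j := by exact_mod_cast uA_pos t j
    have hv : (0:ℚ) < vA t j := by exact_mod_cast vA_pos t ht j
    positivity
  have key : ∀ (p : ℕ) (_ : p.Prime) (i : Fin 4), p ∣ uA t i → ¬ p ∣ vA t i →
      (∀ j, j ≠ i → ¬ p ∣ uA t j ∧ ¬ p ∣ vA t j) → e i = 0 := by
    intro p hp i h1 h2 h3
    have : Fact p.Prime := ⟨hp⟩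
    have h4 := val_prod p _ ha e he
    rw [Finset.sum_eq_single i] at h4
    · have h6 := val_pos p _ _ (uA_pos t i).ne' h1 h2
      rcases mul_eq_zero.1 h4 with h | h
      · exact h
      · exact absurd h h6
    · intro j _ hj
      rw [val_zero p _ _ (h3 j hj).1 (h3 j hj).2, mul_zero]
    · intro h
      exact absurd (Finset.mem_univ i) h
  have ht8 : 8 ≤ t := by omega
  have e0 : e 0 = 0 := by
    obtain ⟨⟨g1, g2⟩, g3, g4, g5⟩ := nd17 t ht8 h17
    refine key 17 (by norm_num) 0 (by simp only [uA, Matrix.cons_val]; exact g1)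
      (by simp only [vA, Matrix.cons_val]; exact g2) ?_
    intro j hj
    fin_cases j
    · exact absurd rfl hj
    · simp only [uA, vA, Fin.reduceFinMk, Matrix.cons_val]
      exact g3
    · simp only [uA, vA, Fin.reduceFinMk, Matrix.cons_val]
      exact g4
    · simp only [uA, vA, Fin.reduceFinMk, Matrix.cons_val]
      exact g5
  have e1 : e 1 = 0 := by
    obtain ⟨⟨g1, g2⟩, g3, g4, g5⟩ := nd19 t ht8 h19
    refine key 19 (by norm_num) 1 (by simp only [uA, Matrix.cons_val]; exact g1)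
      (by simp only [vA, Matrix.cons_val]; exact g2) ?_
    intro j hj
    fin_cases j
    · simp only [uA, vA, Fin.reduceFinMk, Matrix.cons_val]
      exact g3
    · exact absurd rfl hj
    · simp only [uA, vA, Fin.reduceFinMk, Matrix.cons_val]
      exact g4
    · simp only [uA, vA, Fin.reduceFinMk, Matrix.cons_val]
      exact g5
  have e2 : e 2 = 0 := by
    obtain ⟨⟨g1, g2⟩, g3, g4, g5⟩ := nd23 t ht8 h23
    refine key 23 (by norm_num) 2 (by simp only [uA, Matrix.cons_val]; exact g1)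
      (by simp only [vA, Matrix.cons_val]; exact g2) ?_
    intro j hj
    fin_cases j
    · simp only [uA, vA, Fin.reduceFinMk, Matrix.cons_val]
      exact g3
    · simp only [uA, vA, Fin.reduceFinMk, Matrix.cons_val]
      exact g4
    · exact absurd rfl hj
    · simp only [uA, vA, Fin.reduceFinMk, Matrix.cons_val]
      exact g5
  have e3 : e 3 = 0 := by
    obtain ⟨⟨g1, g2⟩, g3, g4, g5⟩ := nd29 t ht8 h29
    refine key 29 (by norm_num) 3 (by simp only [uA, Matrix.cons_val]; exact g1)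
      (by simp only [vA, Matrix.cons_val]; exact g2) ?_
    intro j hj
    fin_cases j
    · simp only [uA, vA, Fin.reduceFinMk, Matrix.cons_val]
      exact g3
    · simp only [uA, vA, Fin.reduceFinMk, Matrix.cons_val]
      exact g4
    · simp only [uA, vA, Fin.reduceFinMk, Matrix.cons_val]
      exact g5
    · exact absurd rfl hj
  funext j
  fin_cases j
  · exact e0
  · exact e1
  · exact e2
  · exact e3

theorem tA_mod (k : ℕ) : tA k % 17 = 9 ∧ tA k % 19 = 14 ∧ tA k % 23 = 20 ∧ tA k % 29 = 22 := by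
  unfold tA
  refine ⟨?_, ?_, ?_, ?_⟩
  · rw [show 215441 * k = 17 * (12673 * k) by ring, Nat.add_mul_mod_self_left]
  · rw [show 215441 * k = 19 * (11339 * k) by ring, Nat.add_mul_mod_self_left]
  · rw [show 215441 * k = 23 * (9367 * k) by ring, Nat.add_mul_mod_self_left]
  · rw [show 215441 * k = 29 * (7429 * k) by ring, Nat.add_mul_mod_self_left]

theorem indep_A (k : ℕ) (hk : 1 ≤ k) :
    MultIndep fun j => (uA (tA k) j : ℚ) / (vA (tA k) j : ℚ) := by
  have h5 : (10:ℕ) ^ 5 = 100000 := by norm_num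
  obtain ⟨h1, h2, h3, h4⟩ := tA_mod k
  exact indep_aux (tA k) (by unfold tA; omega) h1 h2 h3 h4

theorem four (θ ε C : ℝ) (hθ : 0 ≤ θ) (hε : 0 ≤ ε) (h : 14 * ε < 2 * θ - 1) (hC : 0 < C) :
    ∃ c : ℝ, 0 < c ∧ ∀ᶠ Y : ℝ in atTop, ∃ S : Finset ((Fin 4 → ℚ) × (Fin 4 → ℤ)),
      c * Y ^ (1 / 14 : ℝ) ≤ (S.card : ℝ) ∧
      ∀ p ∈ S, Violates C θ ε p.1 p.2 ∧ MultIndep p.1 ∧ size p.1 p.2 ≤ Y := by
  have h5 : (10:ℕ) ^ 5 = 100000 := by norm_num
  obtain ⟨T, hT5, hT⟩ := fin_ineq 14 (10 ^ 16) C θ ε (by norm_num) hC hθ hε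
    (by push_cast; linarith)
  have hK : (0:ℝ) < ((10:ℝ) ^ 16) ^ (1 / 14 : ℝ) := by positivity
  refine ⟨1 / (430882 * ((10:ℝ) ^ 16) ^ (1 / 14 : ℝ)), by positivity, ?_⟩
  have hlim := (tendsto_rpow_atTop (show (0:ℝ) < 1 / 14 by norm_num))
  filter_upwards [hlim.eventually_ge_atTop
    (2 * (61821 + 215441 * (T + 1)) * ((10:ℝ) ^ 16) ^ (1 / 14 : ℝ)),
    eventually_ge_atTop (0:ℝ)] with Y hY hY0
  obtain ⟨y, hy⟩ : ∃ y : ℝ, y = Y ^ (1 / 14 : ℝ) / ((10:ℝ) ^ 16) ^ (1 / 14 : ℝ) := ⟨_, rfl⟩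
  have hy1 : 2 * (61821 + 215441 * ((T:ℝ) + 1)) ≤ y := by
    rw [hy, le_div_iff₀ hK]
    exact hY
  have hyY : 10 ^ 16 * y ^ 14 = Y := by
    rw [hy, div_pow, ← Real.rpow_natCast (Y ^ (1 / 14 : ℝ)) 14,
      ← Real.rpow_natCast (((10:ℝ) ^ 16) ^ (1 / 14 : ℝ)) 14, ← Real.rpow_mul hY0,
      ← Real.rpow_mul (by positivity)]
    norm_num
    field_simp
  have hy0 : 0 ≤ y := by
    have : (0:ℝ) ≤ T := Nat.cast_nonneg T
    linarith
  have hinj : Function.Injective fun k : ℕ =>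
      (((fun j => (uA (tA (T + 1 + k)) j : ℚ) / (vA (tA (T + 1 + k)) j : ℚ)),
        bA (tA (T + 1 + k))) : (Fin 4 → ℚ) × (Fin 4 → ℤ)) := by
    intro k k' hkk
    have h1 : bA (tA (T + 1 + k)) = bA (tA (T + 1 + k')) := congrArg Prod.snd hkk
    have h2 := congrFun h1 0
    simp only [bA, Matrix.cons_val] at h2
    have h3 : ((tA (T + 1 + k) ^ 2 : ℕ) : ℤ) = ((tA (T + 1 + k') ^ 2 : ℕ) : ℤ) := by
      push_cast
      linarith
    have h4 : tA (T + 1 + k) ^ 2 = tA (T + 1 + k') ^ 2 := by exact_mod_cast h3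
    have h6 := Nat.pow_left_injective (by norm_num : (2:ℕ) ≠ 0) h4
    unfold tA at h6
    omega
  refine ⟨(Finset.range ⌈y / 430882⌉₊).image fun k : ℕ =>
      (((fun j => (uA (tA (T + 1 + k)) j : ℚ) / (vA (tA (T + 1 + k)) j : ℚ)),
        bA (tA (T + 1 + k))) : (Fin 4 → ℚ) × (Fin 4 → ℤ)), ?_, ?_⟩
  · rw [Finset.card_image_of_injective _ hinj, Finset.card_range]
    refine le_trans (le_of_eq ?_) (Nat.le_ceil _)
    rw [hy]
    field_simp
  · intro p hp
    rw [Finset.mem_image] at hp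
    obtain ⟨k, hk, rfl⟩ := hp
    rw [Finset.mem_range, Nat.lt_ceil, lt_div_iff₀ (by norm_num)] at hk
    have ht : T ≤ tA (T + 1 + k) := by unfold tA; omega
    have ht5 : 10 ^ 5 ≤ tA (T + 1 + k) := hT5.trans ht
    have hty : (tA (T + 1 + k) : ℝ) ≤ y := by
      unfold tA
      push_cast
      linarith
    have hF := F_pos (tA (T + 1 + k) : ℝ) (by exact_mod_cast ht5)
    have hL := Lam_A _ ht5
    have hS := size_A _ ht5
    refine ⟨⟨?_, bA_ne _ ht5, ?_, ?_⟩, indep_A _ (by omega), ?_⟩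
    · intro j
      have hu := uA_pos (tA (T + 1 + k)) j
      have hv := vA_pos _ ht5 j
      have hu' : (0:ℚ) < uA (tA (T + 1 + k)) j := by exact_mod_cast hu
      have hv' : (0:ℚ) < vA (tA (T + 1 + k)) j := by exact_mod_cast hv
      refine ⟨by positivity, ?_⟩
      intro h1
      have h1' : (uA (tA (T + 1 + k)) j : ℚ) / (vA (tA (T + 1 + k)) j : ℚ) = 1 := h1
      rw [div_eq_one_iff_eq hv'.ne'] at h1'
      have h2 : uA (tA (T + 1 + k)) j = vA (tA (T + 1 + k)) j := by exact_mod_cast h1'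
      fin_cases j <;> simp [uA, vA] at h2 <;> omega
    · show Lam _ _ ≠ 0
      rw [hL]
      exact hF.1.ne'
    · refine hT _ ht _ _ _ ?_ ?_ hS ?_
      · show |Lam _ _| ≤ _
        rw [hL, abs_of_pos hF.1]
        exact hF.2
      · exact lt_of_lt_of_le one_pos (one_le_size _ _)
      · refine maxB_ge _ 0 _ ht5 ?_
        simp only [bA, Matrix.cons_val]
    · refine hS.trans ?_
      rw [← hyY]
      gcongr

end Pool.Agent.H455.LG
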