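import Mathlib
import Pool.Graph.R_seed8.R343.LP4
import Pool.Graph.R_pool_sql_team_seeded_2aa45f1a.Q158.LucB

set_option autoImplicit false

/-! # Words of bounded Lempel-Ziv complexity and plane curves without rational parametrisation -/

namespace Pool.Agent.H455.LZP

open Finset Height Height.AdmissibleAbsValues Pool.Agent.H533R3.SL NumberField
  Pool.Agent.TH409.SH Pool.Agent.TH409.FB
open Pool.Agent.R343.LP

/-- the absolute logarithmic height -/
noncomputable def absH (K : Type) [Field K] [NumberField K] {ι : Type} (x : ι → K) : ℝ :=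
  logHeight x / Module.finrank ℚ K

theorem plane_lz (K : Type) [Field K] [NumberField K] (F : MvPolynomial (Fin 2) ℤ)
    (hyp : Pool.Agent.Q158.Luc.NoRat F) (d : ℕ)
    (hd : 1 ≤ d) (hF : F.totalDegree ≤ d) (A : ℝ) (hA : 1 ≤ A)
    (hFA : ∑ α ∈ F.support, |((MvPolynomial.coeff α F : ℤ) : ℝ)| ≤ A) (t : K)
    (ht : ∀ p, 0 < p → t ^ p ≠ 1) (L z : ℕ) (a : ℕ → Fin 3 → K) (hLZ : LZ a L z)
    (x y w : K) (hxy : MvPolynomial.aeval ![x, y] F = 0)
    (hw : w ≠ 0) (h0 : w = ∑ j ∈ range L, t ^ (L - 1 - j) * a j 0)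
    (h1 : w * x = ∑ j ∈ range L, t ^ (L - 1 - j) * a j 1)
    (h2 : w * y = ∑ j ∈ range L, t ^ (L - 1 - j) * a j 2) :
    absH K ![1, x, y] ≤ (1 + 8 * (4 * d) ^ (6 ^ z)) *
      (d * wordHeight K a L + Real.log (A * 6 ^ (z * d))) := by
  have hx : Represents t a L (fun i => w * (![1, x, y] : Fin 3 → K) i) := by
    refine ⟨?_, ?_⟩
    · intro h
      have := congrFun h 0
      simp at this
      exact hw this
    · intro i
      fin_cases i
      · simpa using h0
      · simpa using h1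
      · simpa using h2
  obtain ⟨D, hD, l, v, hv, hs⟩ := onSparse_of_lz t ht a L z _ hLZ hx
  have e0 := hs.2 0
  have e1 := hs.2 1
  have e2 := hs.2 2
  simp only [Matrix.cons_val_zero, mul_one] at e0
  simp only [Matrix.cons_val_one, Matrix.cons_val_zero] at e1
  simp only [Matrix.cons_val] at e2
  rw [← mul_assoc] at e1 e2
  have hr : 1 ≤ 6 ^ z := Nat.one_le_pow _ _ (by norm_num)
  have h := Pool.Agent.Q158.Luc.plane_main K F d hd hF A hA hFA hyp hr t l v ![x, y] hxy (D * w)
    (mul_ne_zero hD hw) e0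
    (by
      intro i
      fin_cases i
      · exact e1
      · exact e2)
  have h3 := Pool.Agent.TH409.SH.log_bound d A hA hr (1 + 8 * (4 * d) ^ (6 ^ z)) v _ h
  have hDK : (0 : ℝ) < Module.finrank ℚ K := by
    exact_mod_cast Module.finrank_pos
  have h4 : (Fin.cons 1 ![x, y] : Fin 3 → K) = ![1, x, y] := by
    funext i
    fin_cases i <;> rfl
  rw [h4] at h3
  have h5 : absH K ![1, x, y] ≤ (1 + 8 * (4 * d) ^ (6 ^ z)) *
      (d * absH K (fun q : Fin (6 ^ z) × Fin 3 => v q.1 q.2) +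
        Real.log (A * ((6 ^ z : ℕ) : ℝ) ^ d)) := by
    unfold absH
    rw [div_le_iff₀ hDK]
    refine h3.trans (le_of_eq ?_)
    push_cast
    field_simp
  refine h5.trans ?_
  have h6 := digs_height K a L (6 ^ z) v hv
  have h7 : ((6 ^ z : ℕ) : ℝ) ^ d = 6 ^ (z * d) := by
    push_cast
    rw [← pow_mul]
  rw [h7]
  have h8 : absH K (fun q : Fin (6 ^ z) × Fin 3 => v q.1 q.2) ≤ wordHeight K a L := h6
  gcongr

theorem plane_digits (F : MvPolynomial (Fin 2) ℤ)
    (hyp : Pool.Agent.Q158.Luc.NoRat F) (d : ℕ)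
    (hd : 1 ≤ d) (hF : F.totalDegree ≤ d) (A : ℝ) (hA : 1 ≤ A)
    (hFA : ∑ α ∈ F.support, |((MvPolynomial.coeff α F : ℤ) : ℝ)| ≤ A) (x y : ℤ)
    (hxy : MvPolynomial.eval ![x, y] F = 0) (b : ℤ)
    (hb : 2 ≤ |b|) (L z : ℕ) (B : ℝ) (hB : 1 ≤ B) (a a' : ℕ → ℤ) (ha : ∀ j < L, |(a j : ℝ)| ≤ B)
    (ha' : ∀ j < L, |(a' j : ℝ)| ≤ B) (hLZ : LZ (fun j => (a j, a' j)) L z)
    (hx : x = ∑ j ∈ range L, b ^ (L - 1 - j) * a j)
    (hy : y = ∑ j ∈ range L, b ^ (L - 1 - j) * a' j) :
    max |(x : ℝ)| |(y : ℝ)| ≤ (A * (6 ^ (z + 1) * B) ^ d) ^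
      (1 + 8 * (4 * d) ^ (6 ^ (z + 1))) := by
  have hE1 : (1 : ℝ) ≤ A * (6 ^ (z + 1) * B) ^ d := by
    have h1 : (1 : ℝ) ≤ 6 ^ (z + 1) := one_le_pow₀ (by norm_num)
    have h2 : (1 : ℝ) ≤ (6 ^ (z + 1) * B) ^ d := one_le_pow₀ (by nlinarith)
    nlinarith
  rcases Nat.eq_zero_or_pos L with hL | hL
  · have hx0 : x = 0 := by rw [hx, hL]; simp
    have hy0 : y = 0 := by rw [hy, hL]; simp
    rw [hx0, hy0]
    simp only [Int.cast_zero, abs_zero, max_self]
    exact le_trans zero_le_one (one_le_pow₀ hE1)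
  · set c : ℕ → Fin 3 → ℚ := fun j => ![if j = L - 1 then 1 else 0, (a j : ℚ), (a' j : ℚ)] with hc
    have hLZc : LZ c L (z + 1) := by
      refine lz_mark _ c L z hL hLZ ?_
      intro i j hi hj hij
      simp only [Prod.mk.injEq] at hij
      have e1 : i ≠ L - 1 := by omega
      have e2 : j ≠ L - 1 := by omega
      simp only [hc, e1, e2, if_false, hij.1, hij.2]
    have ht : ∀ p, 0 < p → ((b : ℚ)) ^ p ≠ 1 := by
      intro p hp h
      have h1 : b ^ p = 1 := by exact_mod_cast h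
      have h2 : |b| ^ p = 1 := by rw [← abs_pow, h1, abs_one]
      have h3 : (1 : ℤ) < |b| ^ p := one_lt_pow₀ (by omega) hp.ne'
      omega
    have h0 : (1 : ℚ) = ∑ j ∈ range L, (b : ℚ) ^ (L - 1 - j) * c j 0 := by
      have : ∀ j ∈ range L, (b : ℚ) ^ (L - 1 - j) * c j 0 = if j = L - 1 then 1 else 0 := by
        intro j hj
        simp only [hc, Matrix.cons_val_zero]
        split_ifs with h
        · rw [h]; simp
        · simp
      rw [Finset.sum_congr rfl this, Finset.sum_ite_eq' (range L) (L - 1)]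
      rw [if_pos (Finset.mem_range.2 (by omega))]
    have h1 : (1 : ℚ) * (x : ℚ) = ∑ j ∈ range L, (b : ℚ) ^ (L - 1 - j) * c j 1 := by
      rw [one_mul, hx]
      push_cast
      refine Finset.sum_congr rfl fun j _ => ?_
      simp [hc]
    have h2 : (1 : ℚ) * (y : ℚ) = ∑ j ∈ range L, (b : ℚ) ^ (L - 1 - j) * c j 2 := by
      rw [one_mul, hy]
      push_cast
      refine Finset.sum_congr rfl fun j _ => ?_
      simp [hc]
    have hxyQ : MvPolynomial.aeval ![(x : ℚ), (y : ℚ)] F = 0 := by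
      have h3 := congrArg (algebraMap ℤ ℚ) hxy
      rw [map_zero] at h3
      have h4 : MvPolynomial.eval ![x, y] F = MvPolynomial.aeval ![x, y] F := by
        rw [MvPolynomial.aeval_eq_eval]
      rw [h4, ← MvPolynomial.aeval_algebraMap_apply] at h3
      have h5 : (algebraMap ℤ ℚ ∘ ![x, y] : Fin 2 → ℚ) = ![(x : ℚ), (y : ℚ)] := by
        funext i
        fin_cases i <;> simp
      rwa [h5] at h3
    have hmain := plane_lz ℚ F hyp d hd hF A hA hFA (b : ℚ) ht L (z + 1) c hLZc x y 1 hxyQ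
      one_ne_zero h0 h1 h2
    have hH : mulHeight (fun q : Fin L × Fin 3 => c q.1 q.2) ≤ B ^ totalWeight ℚ := by
      have hints := height_ints (K := ℚ) (fun q : Fin L × Fin 3 =>
        (![if (q.1 : ℕ) = L - 1 then 1 else 0, a q.1, a' q.1] : Fin 3 → ℤ) q.2) B hB (by
          rintro ⟨j, g⟩
          fin_cases g
          · simp only
            split_ifs with h
            · simpa using hB
            · simpa using le_trans zero_le_one hB
          · simpa using ha j j.2
          · simpa using ha' j j.2)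
      refine le_trans (le_of_eq ?_) hints
      congr 1
      funext q
      obtain ⟨j, g⟩ := q
      fin_cases g
      · simp only [hc]
        by_cases h : (j : ℕ) = L - 1
        · simp [h]
        · simp [h]
      · simp [hc]
      · simp [hc]
    have hW : wordHeight ℚ c L ≤ Real.log B := by
      unfold wordHeight ah
      rw [Module.finrank_self]
      simp only [Nat.cast_one, div_one]
      rw [logHeight_eq_log_mulHeight]
      refine (Real.log_le_log (mulHeight_pos _) hH).trans ?_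
      rw [Real.log_pow, totalWeight_eq_finrank, Module.finrank_self]
      simp
    have hlogB : 0 ≤ Real.log B := Real.log_nonneg hB
    have hfin : absH ℚ ![1, (x : ℚ), (y : ℚ)] ≤ (1 + 8 * (4 * d) ^ (6 ^ (z + 1))) *
        Real.log (A * (6 ^ (z + 1) * B) ^ d) := by
      refine hmain.trans ?_
      have hB0 : 0 < B := by linarith
      have e : Real.log (A * (6 ^ (z + 1) * B) ^ d) =
          d * Real.log B + Real.log (A * 6 ^ ((z + 1) * d)) := by
        rw [mul_pow, ← pow_mul, ← mul_assoc, Real.log_mul, Real.log_pow]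
        · ring
        · positivity
        · positivity
      rw [e]
      gcongr
    have hint : ∀ i : Fin 2, max |((![x, y] i : ℤ) : ℝ)| 1 ≤ mulHeight ![1, (x : ℚ), (y : ℚ)] := by
      intro i
      have h3 := Pool.Agent.Q158.Luc.int_le ℚ ![x, y] i
      rw [totalWeight_eq_finrank, Module.finrank_self, pow_one] at h3
      refine h3.trans (le_of_eq ?_)
      congr 1
      funext j
      fin_cases j <;> rfl
    have hlog : absH ℚ ![1, (x : ℚ), (y : ℚ)] = Real.log (mulHeight ![1, (x : ℚ), (y : ℚ)]) := by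
      unfold absH
      rw [Module.finrank_self, Nat.cast_one, div_one, logHeight_eq_log_mulHeight]
    rw [hlog] at hfin
    have hle : mulHeight ![1, (x : ℚ), (y : ℚ)] ≤ (A * (6 ^ (z + 1) * B) ^ d) ^
        (1 + 8 * (4 * d) ^ (6 ^ (z + 1))) := by
      rw [← Real.log_le_log_iff (mulHeight_pos _) (by positivity), Real.log_pow]
      refine hfin.trans (le_of_eq ?_)
      push_cast
      ring
    refine max_le ?_ ?_
    · exact (le_max_left _ _).trans ((hint 0).trans hle)
    · exact (le_max_left _ _).trans ((hint 1).trans hle)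

/-- the digits of a natural number -/
theorem nat_digits (b : ℕ) (hb : 0 < b) : ∀ (L n : ℕ), n < b ^ L →
    n = ∑ j ∈ range L, b ^ (L - 1 - j) * (n / b ^ (L - 1 - j) % b) := by
  intro L
  induction L with
  | zero =>
    intro n hn
    rw [pow_zero] at hn
    simp
    omega
  | succ L ih =>
    intro n hn
    have h1 : n / b < b ^ L := by
      rw [Nat.div_lt_iff_lt_mul hb, ← pow_succ]
      exact hn
    have h2 := ih (n / b) h1
    rw [Finset.sum_range_succ]
    have h3 : L + 1 - 1 - L = 0 := by omega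
    rw [h3, pow_zero, one_mul, Nat.div_one]
    have h4 : ∑ j ∈ range L, b ^ (L + 1 - 1 - j) * (n / b ^ (L + 1 - 1 - j) % b) =
        b * ∑ j ∈ range L, b ^ (L - 1 - j) * (n / b / b ^ (L - 1 - j) % b) := by
      rw [Finset.mul_sum]
      refine Finset.sum_congr rfl fun j hj => ?_
      have hj' := Finset.mem_range.1 hj
      have e1 : L + 1 - 1 - j = (L - 1 - j) + 1 := by omega
      rw [e1, pow_succ', Nat.div_div_eq_div_mul, mul_assoc]
    rw [h4, ← h2]
    have h5 := Nat.div_add_mod n b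
    omega

/-- the signed digits of an integer -/
theorem int_digits (b : ℕ) (hb : 0 < b) (L : ℕ) (x : ℤ) (hx : x.natAbs < b ^ L) :
    x = ∑ j ∈ range L, (b : ℤ) ^ (L - 1 - j) *
      (x.sign * ((x.natAbs / b ^ (L - 1 - j) % b : ℕ) : ℤ)) := by
  have h1 := nat_digits b hb L x.natAbs hx
  have h2 : ∑ j ∈ range L, (b : ℤ) ^ (L - 1 - j) *
      (x.sign * ((x.natAbs / b ^ (L - 1 - j) % b : ℕ) : ℤ)) =
      x.sign * ((∑ j ∈ range L, b ^ (L - 1 - j) * (x.natAbs / b ^ (L - 1 - j) % b) : ℕ) : ℤ) := by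
    rw [Nat.cast_sum, Finset.mul_sum]
    refine Finset.sum_congr rfl fun j _ => ?_
    push_cast
    ring
  rw [h2, ← h1]
  exact (Int.sign_mul_natAbs x).symm

theorem digit_le (b : ℕ) (hb : 2 ≤ b) (x : ℤ) (n : ℕ) :
    |((x.sign * ((x.natAbs / n % b : ℕ) : ℤ) : ℤ) : ℝ)| ≤ (b : ℝ) - 1 := by
  have h1 : x.natAbs / n % b < b := Nat.mod_lt _ (by omega)
  have h2 : |x.sign * ((x.natAbs / n % b : ℕ) : ℤ)| ≤ (b : ℤ) - 1 := by
    rw [abs_mul]
    have h3 : |x.sign| ≤ 1 := by
      rcases Int.sign_trichotomy x with h | h | h <;> rw [h] <;> norm_num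
    have h4 : |((x.natAbs / n % b : ℕ) : ℤ)| ≤ (b : ℤ) - 1 := by
      rw [abs_of_nonneg (by positivity)]
      omega
    calc |x.sign| * |((x.natAbs / n % b : ℕ) : ℤ)| ≤ 1 * ((b : ℤ) - 1) :=
          mul_le_mul h3 h4 (abs_nonneg _) (by norm_num)
      _ = (b : ℤ) - 1 := one_mul _
  have h5 : (((|x.sign * ((x.natAbs / n % b : ℕ) : ℤ)| : ℤ)) : ℝ) ≤ (((b : ℤ) - 1 : ℤ) : ℝ) := by
    exact_mod_cast h2
  rw [Int.cast_abs] at h5
  push_cast at h5 ⊢
  exact h5

end Pool.Agent.H455.LZP
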