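import Mathlib

set_option autoImplicit false

/-!
# Wronskians in unique factorization domains
-/

open Finset

namespace Pool.Agent.H455.NT

section der
variable {R : Type*} [CommRing R] (D : Derivation ℤ R R)

theorem dpow (π x : R) (e : ℕ) (h : π ^ e ∣ x) : π ^ (e - 1) ∣ D x := by
  obtain ⟨y, rfl⟩ := h
  rw [D.leibniz, D.leibniz_pow]
  simp only [smul_eq_mul, nsmul_eq_mul]
  refine dvd_add ?_ ?_
  · exact (pow_dvd_pow π (Nat.sub_le _ _)).mul_right _
  · exact Dvd.dvd.mul_left (Dvd.dvd.mul_left (dvd_mul_right _ _) _) _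

theorem dpow_iter (π x : R) (e a : ℕ) (h : π ^ e ∣ x) : π ^ (e - a) ∣ (D^[a]) x := by
  induction a with
  | zero => simpa using h
  | succ a ih =>
    rw [Function.iterate_succ_apply', ← Nat.sub_sub]
    exact dpow D π _ _ ih

/-- the Wronskian -/
noncomputable def Wr {a : ℕ} (f : Fin a → R) : R :=
  (Matrix.of fun c i : Fin a => (D^[(i : ℕ)]) (f c)).det

theorem det_dvd {a : ℕ} (f : Fin a → R) (e : Fin a → ℕ) (π : R) (h : ∀ c, π ^ e c ∣ f c) (n : ℕ)
    (hn : ∀ σ : Equiv.Perm (Fin a), n ≤ ∑ i, (e (σ i) - (i : ℕ))) : π ^ n ∣ Wr D f := by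
  unfold Wr
  rw [Matrix.det_apply']
  refine Finset.dvd_sum fun σ _ => Dvd.dvd.mul_left ?_ _
  refine (pow_dvd_pow π (hn σ)).trans ?_
  rw [← Finset.prod_pow_eq_pow_sum]
  exact Finset.prod_dvd_prod_of_dvd _ _ fun i _ => dpow_iter D π _ _ _ (h _)

/-- the sum of the numbers below `a` -/
def tri (a : ℕ) : ℕ := ∑ i : Fin a, (i : ℕ)

theorem tri_eq (a : ℕ) : tri a = a * (a - 1) / 2 := by
  unfold tri
  rw [Fin.sum_univ_eq_sum_range (fun i => i) a, Finset.sum_range_id]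

theorem sub_tri_le {a : ℕ} (e : Fin a → ℕ) (σ : Equiv.Perm (Fin a)) :
    ∑ c, e c - tri a ≤ ∑ i, (e (σ i) - (i : ℕ)) := by
  have h1 : ∑ c, e c = ∑ i, e (σ i) := (Equiv.sum_comp σ e).symm
  have h2 : ∑ i, e (σ i) ≤ ∑ i : Fin a, (e (σ i) - (i : ℕ)) + tri a := by
    unfold tri
    rw [← Finset.sum_add_distrib]
    exact Finset.sum_le_sum fun i _ => by omega
  omega

theorem sub_one_le {a : ℕ} (e : Fin a → ℕ) (h : ∀ c c', 0 < e c → 0 < e c' → c = c')
    (σ : Equiv.Perm (Fin a)) : ∑ c, e c - (a - 1) ≤ ∑ i, (e (σ i) - (i : ℕ)) := by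
  classical
  by_cases h0 : ∃ c, 0 < e c
  · obtain ⟨c0, hc0⟩ := h0
    have h1 : ∑ c, e c = e c0 := by
      refine Finset.sum_eq_single c0 (fun c _ hc => ?_) fun h2 => absurd (Finset.mem_univ _) h2
      by_contra h3
      exact hc (h c c0 (Nat.pos_of_ne_zero h3) hc0)
    have h2 : e (σ (σ.symm c0)) - ((σ.symm c0 : Fin a) : ℕ) ≤ ∑ i, (e (σ i) - (i : ℕ)) :=
      Finset.single_le_sum (f := fun i : Fin a => e (σ i) - (i : ℕ)) (fun _ _ => Nat.zero_le _)
        (Finset.mem_univ _)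
    rw [Equiv.apply_symm_apply] at h2
    have h3 : ((σ.symm c0 : Fin a) : ℕ) < a := Fin.is_lt _
    omega
  · push Not at h0
    have h1 : ∑ c, e c = 0 := Finset.sum_eq_zero fun c _ => by have := h0 c; omega
    omega

theorem Wr_update {a : ℕ} (f : Fin a → R) (κ : Fin a → R) (hκ : ∀ c, D (κ c) = 0) (c0 : Fin a) :
    Wr D (Function.update f c0 (∑ c, κ c * f c)) = κ c0 * Wr D f := by
  classical
  have hk : ∀ (i : ℕ) (c : Fin a) (x : R), (D^[i]) (κ c * x) = κ c * (D^[i]) x := by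
    intro i c x
    induction i with
    | zero => rfl
    | succ i ih =>
      rw [Function.iterate_succ_apply', Function.iterate_succ_apply', ih, D.leibniz, hκ c]
      simp only [smul_eq_mul, mul_zero, add_zero]
  have hs : ∀ i : ℕ, (D^[i]) (∑ c, κ c * f c) = ∑ c, κ c * (D^[i]) (f c) := by
    intro i
    have h1 : ∀ (s : Finset (Fin a)), (D^[i]) (∑ c ∈ s, κ c * f c) =
        ∑ c ∈ s, κ c * (D^[i]) (f c) := by
      intro s
      have hadd : ∀ x y : R, (D^[i]) (x + y) = (D^[i]) x + (D^[i]) y := by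
        intro x y
        clear hk
        induction i with
        | zero => rfl
        | succ i ih =>
          rw [Function.iterate_succ_apply', Function.iterate_succ_apply',
            Function.iterate_succ_apply', ih, map_add]
      have h0 : (D^[i]) (0 : R) = 0 := by
        have := hadd 0 0
        rw [add_zero] at this
        exact left_eq_add.1 this
      induction s using Finset.induction_on with
      | empty => simpa using h0
      | insert c s hc ih => rw [Finset.sum_insert hc, Finset.sum_insert hc, hadd, ih, hk]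
    exact h1 _
  unfold Wr
  have h2 := Matrix.det_updateRow_sum (Matrix.of fun c i : Fin a => (D^[(i : ℕ)]) (f c)) c0 κ
  rw [← smul_eq_mul, ← h2]
  congr 1
  ext c i
  rw [Matrix.updateRow_apply, Matrix.of_apply]
  by_cases h : c = c0
  · rw [if_pos h, h, Function.update_self, hs, Finset.sum_apply]
    rfl
  · rw [if_neg h, Function.update_of_ne h]
    rfl

end der

section ufd
variable {R : Type*} [CommRing R] [IsDomain R] [UniqueFactorizationMonoid R]

theorem pow_le_of_dvd {π y : R} (hπ : Prime π) (hy : ¬ π ∣ y) {n k : ℕ}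
    (h : π ^ n ∣ π ^ k * y) : n ≤ k := by
  by_contra hcon
  push Not at hcon
  apply hy
  have h1 : π ^ k * π ∣ π ^ k * y := by
    rw [← pow_succ]
    exact (pow_dvd_pow π hcon).trans h
  exact (mul_dvd_mul_iff_left (pow_ne_zero k hπ.ne_zero)).1 h1

/-- divisibility can be checked at the powers of primes -/
theorem dvd_of_pow {a : R} (ha : a ≠ 0) :
    ∀ b : R, (∀ π : R, Prime π → ∀ n : ℕ, π ^ n ∣ a → π ^ n ∣ b) → a ∣ b := by
  induction a using UniqueFactorizationMonoid.induction_on_prime with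
  | h₁ => exact absurd rfl ha
  | h₂ x hx => exact fun b _ => hx.dvd
  | h₃ a p ha0 hp ih =>
    intro b h
    obtain ⟨b', rfl⟩ : p ∣ b := by
      have := h p hp 1 (by rw [pow_one]; exact dvd_mul_right _ _)
      rwa [pow_one] at this
    refine mul_dvd_mul_left p (ih ha0 b' fun q hq n hn => ?_)
    by_cases hqp : q ∣ p
    · have has : Associated q p := hq.associated_of_dvd hp hqp
      have h1 : q ^ (n + 1) ∣ p * a := by
        rw [pow_succ, mul_comm]
        exact mul_dvd_mul hqp hn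
      have h2 := h q hq (n + 1) h1
      rw [pow_succ, mul_comm] at h2
      have h3 : q * q ^ n ∣ q * b' := h2.trans (mul_dvd_mul_right has.symm.dvd _)
      exact (mul_dvd_mul_iff_left hq.ne_zero).1 h3
    · have h2 := h q hq n (hn.mul_left _)
      exact hq.pow_dvd_of_dvd_mul_left n hqp h2

variable (D : Derivation ℤ R R)

/-- the estimate at one prime -/
theorem local_dvd {a : ℕ} (f : Fin a → R) (hf : ∀ c, f c ≠ 0) {ι : Type*} (T : Finset ι)
    (hT : T.Nonempty) (g : ι → R) (hg : ∀ τ ∈ T, g τ ≠ 0) (κ : Fin a → R) (lam : ι → R)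
    (hκ : ∀ c, IsUnit (κ c)) (hDκ : ∀ c, D (κ c) = 0)
    (hv : ∑ c, κ c * f c = ∑ τ ∈ T, lam τ * g τ) (GT GTI : R)
    (hGT : ∀ x, x ∣ GT ↔ ∀ τ ∈ T, x ∣ g τ)
    (hGTI : ∀ x, x ∣ GTI ↔ (∀ τ ∈ T, x ∣ g τ) ∧ ∀ c, x ∣ f c) (ρ : R) (e : ℕ)
    (π : R) (he : tri a ≤ e ∨ (a ≤ e + 1 ∧ (∀ c c', π ∣ f c → π ∣ f c' → c = c') ∧
      ∀ c, ∀ τ ∈ T, π ∣ f c → ¬ π ∣ g τ)) (hπ : Prime π) (hρf : ∀ c, π ∣ f c → π ∣ ρ)
    (hρg : ∀ τ ∈ T, π ∣ g τ → π ∣ ρ) (n : ℕ) (hn : π ^ n ∣ (∏ c, f c) * GT) :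
    π ^ n ∣ Wr D f * GTI * ρ ^ e := by
  classical
  obtain ⟨τ0, hτ0⟩ := hT
  have hGT0 : GT ≠ 0 := by
    intro h0
    have h1 := (hGT 0).1 (by rw [h0]) τ0 hτ0
    exact hg τ0 hτ0 (zero_dvd_iff.1 h1)
  choose E f' hf' hfe using fun c => WfDvdMonoid.max_power_factor (hf c) hπ.irreducible
  obtain ⟨mT, G', hG', hGe⟩ := WfDvdMonoid.max_power_factor hGT0 hπ.irreducible
  have hn' : n ≤ ∑ c, E c + mT := by
    have h1 : (∏ c, f c) * GT = π ^ (∑ c, E c + mT) * ((∏ c, f' c) * G') := by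
      have h2 : ∏ c, f c = (∏ c, π ^ E c) * ∏ c, f' c := by
        rw [← Finset.prod_mul_distrib]
        exact Finset.prod_congr rfl fun c _ => hfe c
      rw [h2, hGe, Finset.prod_pow_eq_pow_sum, pow_add]
      ring
    rw [h1] at hn
    refine pow_le_of_dvd hπ ?_ hn
    intro h3
    rcases hπ.dvd_or_dvd h3 with h4 | h4
    · obtain ⟨c, -, hc⟩ := (hπ.dvd_finsetProd_iff f').1 h4
      exact hf' c hc
    · exact hG' h4
  have hgm : ∀ τ ∈ T, π ^ mT ∣ g τ := (hGT _).1 (by rw [hGe]; exact dvd_mul_right _ _)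
  rcases Nat.eq_zero_or_pos (∑ c, E c + mT) with h0 | hpos
  · have : n = 0 := by omega
    rw [this, pow_zero]
    exact one_dvd _
  have hρ : π ∣ ρ := by
    rcases Nat.eq_zero_or_pos mT with h0 | h1
    · have h2 : 0 < ∑ c, E c := by omega
      obtain ⟨c, hc⟩ : ∃ c, 0 < E c := by
        by_contra hcon
        push Not at hcon
        have : ∑ c, E c = 0 := Finset.sum_eq_zero fun c _ => by have := hcon c; omega
        omega
      refine hρf c ?_
      rw [hfe c]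
      exact (dvd_pow_self π (by omega)).mul_right _
    · exact hρg τ0 hτ0 ((dvd_pow_self π (by omega)).trans (hgm τ0 hτ0))
  refine (pow_dvd_pow π hn').trans ?_
  by_cases hcase : ∀ c, mT ≤ E c
  · have h1 : π ^ mT ∣ GTI := (hGTI _).2 ⟨hgm, fun c => by
      rw [hfe c]
      exact (pow_dvd_pow π (hcase c)).mul_right _⟩
    have hloss : ∀ σ : Equiv.Perm (Fin a), ∑ c, E c - e ≤ ∑ i, (E (σ i) - (i : ℕ)) := by
      intro σ
      rcases he with he | ⟨he, he2, he3⟩
      · have := sub_tri_le E σ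
        omega
      · have := sub_one_le E (fun c c' hc hc' => he2 c c'
          (by rw [hfe c]; exact (dvd_pow_self π (by omega)).mul_right _)
          (by rw [hfe c']; exact (dvd_pow_self π (by omega)).mul_right _)) σ
        omega
    have h2 : π ^ (∑ c, E c - e) ∣ Wr D f := det_dvd D f E π
      (fun c => by
        have := hfe c
        exact ⟨f' c, this⟩) _ hloss
    have h3 : π ^ ((∑ c, E c - e) + mT + e) ∣ Wr D f * GTI * ρ ^ e := by
      rw [pow_add, pow_add]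
      exact mul_dvd_mul (mul_dvd_mul h2 h1) (pow_dvd_pow_of_dvd hρ e)
    exact (pow_dvd_pow π (by omega)).trans h3
  · push Not at hcase
    obtain ⟨c1, hc1⟩ := hcase
    obtain ⟨c0, -, hc0⟩ := Finset.exists_min_image (Finset.univ : Finset (Fin a)) E
      ⟨c1, Finset.mem_univ _⟩
    have hlt : E c0 < mT := (hc0 c1 (Finset.mem_univ _)).trans_lt hc1
    have h1 : π ^ E c0 ∣ GTI := (hGTI _).2 ⟨fun τ hτ => (pow_dvd_pow π hlt.le).trans (hgm τ hτ),
      fun c => by
        rw [hfe c]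
        exact (pow_dvd_pow π (hc0 c (Finset.mem_univ _))).mul_right _⟩
    have hvd : π ^ mT ∣ ∑ c, κ c * f c := by
      rw [hv]
      exact Finset.dvd_sum fun τ hτ => (hgm τ hτ).mul_left _
    have hsum : ∑ c, Function.update E c0 mT c = ∑ c, E c - E c0 + mT := by
      rw [Finset.sum_update_of_mem (Finset.mem_univ _)]
      have h4 := Finset.add_sum_erase Finset.univ E (Finset.mem_univ c0)
      rw [Finset.sdiff_singleton_eq_erase]
      omega
    have hloss : ∀ σ : Equiv.Perm (Fin a), ∑ c, Function.update E c0 mT c - e ≤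
        ∑ i, (Function.update E c0 mT (σ i) - (i : ℕ)) := by
      intro σ
      rcases he with he | ⟨he, he2, he3⟩
      · have := sub_tri_le (Function.update E c0 mT) σ
        omega
      · have hE0 : ∀ c, c ≠ c0 → Function.update E c0 mT c = 0 := by
          intro c hc
          rw [Function.update_of_ne hc]
          by_contra h5
          refine he3 c τ0 hτ0 ?_ ((dvd_pow_self π (by omega)).trans (hgm τ0 hτ0))
          rw [hfe c]
          exact (dvd_pow_self π h5).mul_right _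
        have := sub_one_le (Function.update E c0 mT) (fun c c' hc hc' => by
          have h6 : c = c0 := by
            by_contra h7
            rw [hE0 c h7] at hc
            omega
          have h8 : c' = c0 := by
            by_contra h7
            rw [hE0 c' h7] at hc'
            omega
          rw [h6, h8]) σ
        omega
    have h2 : π ^ (∑ c, Function.update E c0 mT c - e) ∣
        Wr D (Function.update f c0 (∑ c, κ c * f c)) := by
      refine det_dvd D _ _ π (fun c => ?_) _ hloss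
      by_cases h : c = c0
      · rw [h, Function.update_self, Function.update_self]
        exact hvd
      · rw [Function.update_of_ne h, Function.update_of_ne h]
        exact ⟨f' c, hfe c⟩
    rw [Wr_update D f κ hDκ c0, (hκ c0).dvd_mul_left, hsum] at h2
    have h3 : π ^ ((∑ c, E c - E c0 + mT - e) + E c0 + e) ∣ Wr D f * GTI * ρ ^ e := by
      rw [pow_add, pow_add]
      exact mul_dvd_mul (mul_dvd_mul h2 h1) (pow_dvd_pow_of_dvd hρ e)
    have h4 : E c0 ≤ ∑ c, E c := Finset.single_le_sum (fun _ _ => Nat.zero_le _)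
      (Finset.mem_univ c0)
    exact (pow_dvd_pow π (by omega)).trans h3

/-- the divisibility -/
theorem step_dvd {a : ℕ} (f : Fin a → R) (hf : ∀ c, f c ≠ 0) {ι : Type*} (T : Finset ι)
    (hT : T.Nonempty) (g : ι → R) (hg : ∀ τ ∈ T, g τ ≠ 0) (κ : Fin a → R) (lam : ι → R)
    (hκ : ∀ c, IsUnit (κ c)) (hDκ : ∀ c, D (κ c) = 0)
    (hv : ∑ c, κ c * f c = ∑ τ ∈ T, lam τ * g τ) (GT GTI : R)
    (hGT : ∀ x, x ∣ GT ↔ ∀ τ ∈ T, x ∣ g τ)
    (hGTI : ∀ x, x ∣ GTI ↔ (∀ τ ∈ T, x ∣ g τ) ∧ ∀ c, x ∣ f c) (ρ : R) (e : ℕ)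
    (he : tri a ≤ e) (hρf : ∀ π : R, Prime π → ∀ c, π ∣ f c → π ∣ ρ)
    (hρg : ∀ π : R, Prime π → ∀ τ ∈ T, π ∣ g τ → π ∣ ρ) :
    (∏ c, f c) * GT ∣ Wr D f * GTI * ρ ^ e := by
  have hGT0 : GT ≠ 0 := by
    obtain ⟨τ0, hτ0⟩ := hT
    intro h0
    have h1 := (hGT 0).1 (by rw [h0]) τ0 hτ0
    exact hg τ0 hτ0 (zero_dvd_iff.1 h1)
  exact dvd_of_pow (mul_ne_zero (Finset.prod_ne_zero_iff.2 fun c _ => hf c) hGT0) _
    fun π hπ n hn => local_dvd D f hf T hT g hg κ lam hκ hDκ hv GT GTI hGT hGTI ρ e π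
      (Or.inl he) hπ (hρf π hπ) (hρg π hπ) n hn

/-- the divisibility for coprime elements, `δ` is divisible by the common factors -/
theorem step_dvd' {a : ℕ} (f : Fin a → R) (hf : ∀ c, f c ≠ 0) {ι : Type*} (T : Finset ι)
    (hT : T.Nonempty) (g : ι → R) (hg : ∀ τ ∈ T, g τ ≠ 0) (κ : Fin a → R) (lam : ι → R)
    (hκ : ∀ c, IsUnit (κ c)) (hDκ : ∀ c, D (κ c) = 0)
    (hv : ∑ c, κ c * f c = ∑ τ ∈ T, lam τ * g τ) (GT GTI : R)
    (hGT : ∀ x, x ∣ GT ↔ ∀ τ ∈ T, x ∣ g τ)
    (hGTI : ∀ x, x ∣ GTI ↔ (∀ τ ∈ T, x ∣ g τ) ∧ ∀ c, x ∣ f c) (ρ δ : R) (e : ℕ)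
    (he : a ≤ e + 1) (hρf : ∀ π : R, Prime π → ∀ c, π ∣ f c → π ∣ ρ)
    (hρg : ∀ π : R, Prime π → ∀ τ ∈ T, π ∣ g τ → π ∣ ρ)
    (hδ1 : ∀ π : R, Prime π → ∀ c c', c ≠ c' → π ∣ f c → π ∣ f c' → π ∣ δ)
    (hδ2 : ∀ π : R, Prime π → ∀ c, ∀ τ ∈ T, π ∣ f c → π ∣ g τ → π ∣ δ) :
    (∏ c, f c) * GT ∣ Wr D f * GTI * ρ ^ e * δ ^ tri a := by
  have hGT0 : GT ≠ 0 := by
    obtain ⟨τ0, hτ0⟩ := hT
    intro h0
    have h1 := (hGT 0).1 (by rw [h0]) τ0 hτ0
    exact hg τ0 hτ0 (zero_dvd_iff.1 h1)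
  refine dvd_of_pow (mul_ne_zero (Finset.prod_ne_zero_iff.2 fun c _ => hf c) hGT0) _
    fun π hπ n hn => ?_
  by_cases hδ : π ∣ δ
  · -- the element `δ` takes the loss
    have h2 := local_dvd D f hf T hT g hg κ lam hκ hDκ hv GT GTI hGT hGTI δ (tri a) π
      (Or.inl le_rfl) hπ (fun c hc => hδ) (fun τ hτ h => hδ) n hn
    refine h2.trans ⟨ρ ^ e, by ring⟩
  · have h1 := local_dvd D f hf T hT g hg κ lam hκ hDκ hv GT GTI hGT hGTI ρ e π
      (Or.inr ⟨he, fun c c' h2 h3 => by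
        by_contra h4
        exact hδ (hδ1 π hπ c c' h4 h2 h3), fun c τ hτ h2 h3 => hδ (hδ2 π hπ c τ hτ h2 h3)⟩) hπ
      (hρf π hπ) (hρg π hπ) n hn
    exact h1.mul_right _

/-- greatest common divisors -/
theorem exists_gcd {ι : Type*} (g : ι → R) (T : Finset ι) :
    ∃ G : R, ∀ x, x ∣ G ↔ ∀ τ ∈ T, x ∣ g τ := by
  classical
  let _ : GCDMonoid R := UniqueFactorizationMonoid.toGCDMonoid R
  induction T using Finset.induction_on with
  | empty => exact ⟨0, fun x => by simp⟩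
  | insert τ T hτ ih =>
    obtain ⟨G, hG⟩ := ih
    refine ⟨GCDMonoid.gcd (g τ) G, fun x => ?_⟩
    rw [_root_.dvd_gcd_iff, hG, Finset.forall_mem_insert]

end ufd

end Pool.Agent.H455.NT
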