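import Mathlib
import Pool.Agent.H455.NT0
import Pool.Graph.R_seed8.TH551.HA.Wr
import Pool.Graph.R_seed8.TH551.HA.Fin
import Pool.Graph.R_seed8.TH551.HA.Basic2
import Pool.Graph.R_seed8.Y724.Vj.Grp

set_option autoImplicit false

/-!
# Polynomials in independent S-unit germs and their Wronskians
-/

open Finset Filter Topology MvPolynomial

namespace Pool.Agent.H455.NT

open Pool.Agent.TH932.Germs Pool.Agent.TH551.SU Pool.Agent.TH551.HA

/-- weights which separate finitely many exponents -/
theorem exists_weight {m : ℕ} (F : Finset (Fin m →₀ ℕ)) : ∃ w : Fin m → ℕ,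
    ∀ α ∈ F, ∀ β ∈ F, ∑ k, α k * w k = ∑ k, β k * w k → α = β := by
  obtain ⟨B, hB⟩ : ∃ B : ℕ, ∀ α ∈ F, ∀ k, α k < B := by
    refine ⟨1 + ∑ α ∈ F, ∑ k, α k, fun α hα k => ?_⟩
    have h1 := Finset.single_le_sum (f := fun k => α k) (fun _ _ => Nat.zero_le _)
      (Finset.mem_univ k)
    have h2 := Finset.single_le_sum (f := fun α : Fin m →₀ ℕ => ∑ k, α k)
      (fun _ _ => Nat.zero_le _) hα
    beta_reduce at h1 h2
    omega
  refine ⟨fun k => B ^ (k : ℕ), fun α hα β hβ h => ?_⟩
  have h1 : (finFunctionFinEquiv (fun k => (⟨α k, hB α hα k⟩ : Fin B)) : Fin (B ^ m)) =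
      finFunctionFinEquiv (fun k => ⟨β k, hB β hβ k⟩) := by
    apply Fin.ext
    rw [finFunctionFinEquiv_apply, finFunctionFinEquiv_apply]
    exact h
  have h2 := finFunctionFinEquiv.injective h1
  ext k
  exact congrArg Fin.val (congrFun h2 k)

section der
variable {K : Type*} [Field K] {m : ℕ}

/-- derivations of a ring -/
abbrev DZ (R : Type*) [CommRing R] := Derivation ℤ R R

/-- the derivation with weights `w` -/
noncomputable def DW (w : Fin m → ℕ) : DZ (MvPolynomial (Fin m) K) :=
  Derivation.mk' (AddMonoidHom.toIntLinearMap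
    (mkDerivation K (fun k => C (w k : K) * X k)).toLinearMap.toAddMonoidHom)
    (fun a b => Derivation.leibniz (mkDerivation K (fun k => C (w k : K) * X k)) a b)

theorem DW_monomial (w : Fin m → ℕ) (α : Fin m →₀ ℕ) (c : K) :
    DW w (monomial α c) = monomial α (((∑ k, α k * w k : ℕ) : K) * c) := by
  have h0 : DW w (monomial α c) = mkDerivation K (fun k => C (w k : K) * X k) (monomial α c) := rfl
  rw [h0, mkDerivation_monomial, Finsupp.sum_fintype _ _ (fun i => by simp)]
  have h1 : ∀ i : Fin m, monomial (α - Finsupp.single i 1) ((α i : ℕ) : K) •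
      ((C (w i : K) : MvPolynomial (Fin m) K) * X i) =
      (monomial α ((α i : K) * w i) : MvPolynomial (Fin m) K) := by
    intro i
    by_cases hi : α i = 0
    · rw [hi]
      simp
    · rw [C_mul_X_eq_monomial, smul_eq_mul, monomial_mul]
      have h2 : α - Finsupp.single i 1 + Finsupp.single i 1 = α := by
        ext j
        rw [Finsupp.add_apply, Finsupp.tsub_apply, Finsupp.single_apply]
        split_ifs with h
        · rw [← h]
          omega
        · omega
      rw [h2]
  rw [Finset.sum_congr rfl fun i _ => h1 i, ← map_sum, smul_monomial, smul_eq_mul]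
  congr 1
  push_cast
  ring

theorem coeff_DW (w : Fin m → ℕ) (p : MvPolynomial (Fin m) K) (α : Fin m →₀ ℕ) :
    coeff α (DW w p) = ((∑ k, α k * w k : ℕ) : K) * coeff α p := by
  induction p using MvPolynomial.induction_on' with
  | monomial β c =>
    rw [DW_monomial, coeff_monomial, coeff_monomial]
    split_ifs with h
    · rw [h]
    · rw [mul_zero]
  | add p q hp hq => rw [map_add, coeff_add, coeff_add, hp, hq, mul_add]

theorem coeff_DW_iter (w : Fin m → ℕ) (p : MvPolynomial (Fin m) K) (α : Fin m →₀ ℕ) (i : ℕ) :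
    coeff α ((DW w)^[i] p) = ((∑ k, α k * w k : ℕ) : K) ^ i * coeff α p := by
  induction i with
  | zero => simp
  | succ i ih => rw [Function.iterate_succ_apply', coeff_DW, ih, pow_succ]; ring

end der

section wr
variable {L : ℕ → ℝ} {hL : Tendsto L atTop atTop} {m : ℕ}

/-- independent polynomials have a nonzero Wronskian -/
theorem exists_Wr_ne {a : ℕ} (f : Fin a → MvPolynomial (Fin m) (KK L hL))
    (hf : LinearIndependent (KK L hL) f) : ∃ w : Fin m → ℕ, Wr (DW w) f ≠ 0 := by
  classical
  obtain ⟨w, hw⟩ := exists_weight (Finset.univ.biUnion fun c => (f c).support)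
  refine ⟨w, fun h0 => ?_⟩
  obtain ⟨Φ, hΦ⟩ : ∃ Φ : MvPolynomial (Fin m) (KK L hL) →ₐ[KK L hL] Polynomial GG,
    Φ = aeval (fun k => (Polynomial.X : Polynomial GG) ^ w k) := ⟨_, rfl⟩
  have hmon : ∀ (α : Fin m →₀ ℕ) (c : KK L hL), Φ (monomial α c) =
      Polynomial.C (c : GG) * Polynomial.X ^ (∑ k, α k * w k) := by
    intro α c
    rw [hΦ, aeval_monomial, Finsupp.prod_fintype _ _ (fun i => by simp)]
    congr 1
    rw [← Finset.prod_pow_eq_pow_sum]
    refine Finset.prod_congr rfl fun k _ => ?_
    rw [← pow_mul, mul_comm]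
  have hthadd : ∀ p q : Polynomial GG, th (p + q) = th p + th q := fun p q => by
    rw [← thD_eq]
    exact map_add thD p q
  have hcomm : ∀ p, Φ (DW w p) = th (Φ p) := by
    intro p
    induction p using MvPolynomial.induction_on' with
    | monomial β c =>
      rw [DW_monomial, hmon, hmon]
      unfold th
      rw [Polynomial.derivative_C_mul_X_pow]
      rcases Nat.eq_zero_or_pos (∑ k, β k * w k) with h | h
      · rw [h]
        simp
      · have h1 : (Polynomial.X : Polynomial GG) ^ (∑ k, β k * w k) =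
            Polynomial.X * Polynomial.X ^ (∑ k, β k * w k - 1) := by
          rw [← pow_succ', Nat.sub_add_cancel h]
        rw [h1, MulMemClass.coe_mul, Polynomial.C_mul]
        have h2 : (((∑ k, β k * w k : ℕ) : KK L hL) : GG) = ((∑ k, β k * w k : ℕ) : GG) :=
          SubringClass.coe_natCast _ _
        rw [h2, Polynomial.C_mul]
        ring
    | add p q hp hq => rw [map_add, map_add, map_add, hp, hq, hthadd]
  have hiter : ∀ (i : ℕ) p, Φ ((DW w)^[i] p) = th^[i] (Φ p) := by
    intro i p
    induction i with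
    | zero => rfl
    | succ i ih => rw [Function.iterate_succ_apply', Function.iterate_succ_apply', hcomm, ih]
  have hdet : (Matrix.of fun b l : Fin a => (th^[(l : ℕ)]) (Φ (f b))).det = 0 := by
    have h1 := congrArg Φ h0
    rw [map_zero] at h1
    unfold Wr at h1
    have h3 : Φ (Matrix.of fun c i : Fin a => ((DW w)^[(i : ℕ)]) (f c)).det =
        (Φ.toRingHom.mapMatrix (Matrix.of fun c i : Fin a => ((DW w)^[(i : ℕ)]) (f c))).det :=
      RingHom.map_det Φ.toRingHom _
    rw [h3] at h1
    rw [← h1]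
    congr 1
    ext b l : 2
    rw [RingHom.mapMatrix_apply, Matrix.map_apply, Matrix.of_apply, Matrix.of_apply, ← hiter]
    rfl
  obtain ⟨c, hc, hs⟩ := wr_dep a (fun b => Φ (f b)) hdet
  -- coefficients
  have hΦc : ∀ b, ∀ α ∈ (Finset.univ.biUnion fun c => (f c).support),
      (Φ (f b)).coeff (∑ k, α k * w k) = ((coeff α (f b) : KK L hL) : GG) := by
    intro b α hα
    have h1 : Φ (f b) = ∑ β ∈ (f b).support,
        Polynomial.C ((coeff β (f b) : KK L hL) : GG) * Polynomial.X ^ (∑ k, β k * w k) := by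
      conv_lhs => rw [(f b).as_sum, map_sum]
      exact Finset.sum_congr rfl fun β _ => hmon _ _
    rw [h1, Polynomial.finsetSum_coeff]
    simp only [Polynomial.coeff_C_mul_X_pow]
    by_cases hαb : α ∈ (f b).support
    · rw [Finset.sum_eq_single α]
      · rw [if_pos rfl]
      · intro β hβ hne
        rw [if_neg]
        intro h
        exact hne (hw β (Finset.mem_biUnion.2 ⟨b, Finset.mem_univ _, hβ⟩) α hα h.symm)
      · intro h
        exact absurd hαb h
    · rw [notMem_support_iff.1 hαb, ZeroMemClass.coe_zero]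
      refine Finset.sum_eq_zero fun β hβ => ?_
      rw [if_neg]
      intro h
      apply hαb
      have h2 := hw β (Finset.mem_biUnion.2 ⟨b, Finset.mem_univ _, hβ⟩) α hα h.symm
      rwa [← h2]
  have hrel : ∀ α : Fin m →₀ ℕ, ∑ b, c b * ((coeff α (f b) : KK L hL) : GG) = 0 := by
    intro α
    by_cases hα : α ∈ (Finset.univ.biUnion fun c => (f c).support)
    · have h1 := congrArg (fun q : Polynomial GG => q.coeff (∑ k, α k * w k)) hs
      simp only [Polynomial.finsetSum_coeff, Polynomial.coeff_C_mul, Polynomial.coeff_zero] at h1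
      rw [← h1]
      exact Finset.sum_congr rfl fun b _ => by rw [hΦc b α hα]
    · refine Finset.sum_eq_zero fun b _ => ?_
      have h1 : α ∉ (f b).support := fun h =>
        hα (Finset.mem_biUnion.2 ⟨b, Finset.mem_univ _, h⟩)
      rw [notMem_support_iff.1 h1, ZeroMemClass.coe_zero, mul_zero]
  obtain ⟨b0, hb0⟩ := Function.ne_iff.1 hc
  obtain ⟨ℓ, hℓ⟩ : ∃ ℓ : Module.Dual (KK L hL) GG, ℓ (c b0) ≠ 0 := by
    by_contra hcon
    push Not at hcon
    exact hb0 ((Module.forall_dual_apply_eq_zero_iff (KK L hL) (c b0)).1 hcon)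
  rw [Fintype.linearIndependent_iff] at hf
  apply hℓ
  refine hf (fun b => ℓ (c b)) ?_ b0
  ext α
  rw [coeff_sum, coeff_zero]
  congr 1
  have h1 := congrArg ℓ (hrel α)
  rw [map_sum, map_zero] at h1
  rw [← h1]
  refine Finset.sum_congr rfl fun b _ => ?_
  rw [coeff_smul, smul_eq_mul]
  have h2 : c b * ((coeff α (f b) : KK L hL) : GG) = (coeff α (f b)) • c b := by
    rw [Subfield.smul_def, smul_eq_mul, mul_comm]
  rw [h2, map_smul, smul_eq_mul, mul_comm]

end wr

end Pool.Agent.H455.NT
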