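import Mathlib
import Pool.Agent.H455.NT1

set_option autoImplicit false

/-!
# Sizes of polynomials in independent S-unit germs
-/

open Finset Filter Topology MvPolynomial

namespace Pool.Agent.H455.NT

open Pool.Agent.TH932.Germs Pool.Agent.TH551.SU Pool.Agent.TH551.HA

/-- independent S-unit germs of moderate size -/
structure Gens {s : ℕ} (b : Fin s → ℕ) {L : ℕ → ℝ} (hL : Tendsto L atTop atTop) {m : ℕ}
    (T : Fin m → GG) : Prop where
  gsu : ∀ k, GSU b (T k)
  mod : ∀ k, Mod b L (T k)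
  ind : ∀ p : MvPolynomial (Fin m) (KK L hL), aeval T p = 0 → p = 0

variable {s : ℕ} {b : Fin s → ℕ} {L : ℕ → ℝ} {hL : Tendsto L atTop atTop} {m : ℕ}
  {T : Fin m → GG}

theorem ev_eq (p : MvPolynomial (Fin m) (KK L hL)) :
    aeval T p = ∑ α ∈ p.support, ((coeff α p : KK L hL) : GG) * ∏ k, T k ^ α k := by
  rw [aeval_def, eval₂_eq']
  rfl

theorem Gens.inj (G : Gens b hL T) {p q : MvPolynomial (Fin m) (KK L hL)}
    (h : aeval T p = aeval T q) : p = q := by
  have h1 := G.ind (p - q) (by rw [map_sub, h, sub_self])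
  exact sub_eq_zero.1 h1

theorem Gens.ne (G : Gens b hL T) {p : MvPolynomial (Fin m) (KK L hL)} (hp : p ≠ 0) :
    aeval T p ≠ 0 := fun h => hp (G.ind p h)

section
variable (hb : ∀ v, (b v).Prime) (hbi : Function.Injective b)
include hb

theorem gsu_mon (G : Gens b hL T) (α : Fin m → ℕ) : GSU b (∏ k, T k ^ α k) :=
  CRV.GSU.prod hb _ _ fun k _ => CRV.GSU.pow hb (G.gsu k) _

theorem mod_mon (G : Gens b hL T) (α : Fin m → ℕ) : Mod b L (∏ k, T k ^ α k) :=
  Mod.prod hb hL _ _ fun k _ => Mod.pow hb hL (G.mod k) _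

theorem mon_ne (G : Gens b hL T) (α : Fin m → ℕ) : ∏ k, T k ^ α k ≠ 0 :=
  nc_gsu_ne hb (gsu_mon hb G α)

theorem mon_dist (G : Gens b hL T) (α β : Fin m →₀ ℕ)
    (h : (∏ k, T k ^ α k) / (∏ k, T k ^ β k) ∈ KK L hL) : α = β := by
  classical
  have h1 : aeval T (monomial α (1 : KK L hL)) =
      aeval T (monomial β (⟨_, h⟩ : KK L hL)) := by
    rw [aeval_monomial, aeval_monomial, Finsupp.prod_fintype _ _ (fun i => by simp),
      Finsupp.prod_fintype _ _ (fun i => by simp), map_one, one_mul]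
    have h2 : (algebraMap (KK L hL) GG) ⟨_, h⟩ = (∏ k, T k ^ α k) / (∏ k, T k ^ β k) := rfl
    rw [h2, div_mul_cancel₀ _ (mon_ne hb G β)]
  have h2 := congrArg (coeff α) (G.inj h1)
  rw [coeff_monomial, coeff_monomial, if_pos rfl] at h2
  by_contra hne
  rw [if_neg (Ne.symm hne)] at h2
  exact one_ne_zero h2

include hbi

theorem term_dom (G : Gens b hL T) (p : MvPolynomial (Fin m) (KK L hL)) (α : Fin m →₀ ℕ)
    (v : Option (Fin s)) :
    Dom b L v (((coeff α p : KK L hL) : GG) * ∏ k, T k ^ α k) (aeval T p) := by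
  classical
  by_cases hα : α ∈ p.support
  · have h1 := ncF s b hb hbi L hL (Fin m →₀ ℕ) p.support (fun α => coeff α p)
      (fun α => ∏ k, T k ^ α k) (fun β => if β = α then 1 else 0)
      (fun β _ => gsu_mon hb G β) (fun β _ => mod_mon hb G β)
      (fun β _ γ _ h => by rw [mon_dist hb G β γ h]) v 1
    rw [← ev_eq] at h1
    have h2 : (p.support.filter fun β => (if β = α then 1 else 0) = 1) = {α} := by
      ext β
      rw [Finset.mem_filter, Finset.mem_singleton]
      constructor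
      · rintro ⟨-, h⟩
        by_contra hne
        rw [if_neg hne] at h
        exact zero_ne_one h
      · rintro rfl
        exact ⟨hα, if_pos rfl⟩
    rw [h2, Finset.sum_singleton] at h1
    exact h1
  · rw [notMem_support_iff.1 hα, ZeroMemClass.coe_zero, zero_mul]
    exact Dom.zero hb hL v _

theorem dom_of_coeff (G : Gens b hL T) (p q : MvPolynomial (Fin m) (KK L hL))
    (h : ∀ α, ∃ c : KK L hL, coeff α q = c * coeff α p) (v : Option (Fin s)) :
    Dom b L v (aeval T q) (aeval T p) := by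
  rw [ev_eq q]
  refine Dom.sum hb hL _ _ _ fun α _ => ?_
  obtain ⟨c, hc⟩ := h α
  rw [hc, MulMemClass.coe_mul, mul_assoc]
  exact Dom.smul hb hbi hL c.2 (term_dom hb hbi G p α v)

omit hbi in
theorem ev_QI (G : Gens b hL T) (p : MvPolynomial (Fin m) (KK L hL)) : QI b L (aeval T p) := by
  rw [ev_eq]
  exact QI.sum hb hL _ _ fun α _ =>
    QI.mul hb (QI.of_KK hb hL (coeff α p).2) (QI.of_GSU hb hL (gsu_mon hb G α))

omit hbi in
theorem Dom.prod {ι : Type} (A : Finset ι) (f g : ι → GG) (v : Option (Fin s))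
    (h : ∀ i ∈ A, Dom b L v (f i) (g i)) (hL : Tendsto L atTop atTop) :
    Dom b L v (∏ i ∈ A, f i) (∏ i ∈ A, g i) := by
  classical
  induction A using Finset.induction_on with
  | empty =>
    rw [Finset.prod_empty, Finset.prod_empty]
    exact Dom.refl hb hL v 1
  | insert a A ha ih =>
    rw [Finset.prod_insert ha, Finset.prod_insert ha]
    exact Dom.mul hb (h a (Finset.mem_insert_self _ _))
      (ih fun i hi => h i (Finset.mem_insert_of_mem hi))

theorem wr_dom (G : Gens b hL T) (w : Fin m → ℕ) {a : ℕ}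
    (f : Fin a → MvPolynomial (Fin m) (KK L hL)) (v : Option (Fin s)) :
    Dom b L v (aeval T (Wr (DW w) f)) (∏ c, aeval T (f c)) := by
  classical
  unfold Wr
  rw [Matrix.det_apply', map_sum]
  refine Dom.sum hb hL _ _ _ fun σ _ => ?_
  rw [map_mul, map_prod]
  have h1 : aeval T (((Equiv.Perm.sign σ : ℤ) : MvPolynomial (Fin m) (KK L hL))) =
      ((((Equiv.Perm.sign σ : ℤ) : KK L hL)) : GG) := by
    rw [map_intCast, SubringClass.coe_intCast]
  rw [h1]
  refine Dom.smul hb hbi hL (Subtype.mem _) ?_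
  rw [← Equiv.prod_comp σ (fun c => aeval T (f c))]
  refine Dom.prod hb _ _ _ v (fun i _ => ?_) hL
  rw [Matrix.of_apply]
  exact dom_of_coeff hb hbi G _ _ (fun α => ⟨_, coeff_DW_iter w _ α _⟩) v

omit hbi

/-- the size of a germ at all places -/
noncomputable def nS (b : Fin s → ℕ) (f : GG) (n : ℕ) : ℝ := ∏ v, av b v (rep f n)

omit hb in
theorem nS_mul (hb : ∀ v, (b v).Prime) (f g : GG) :
    ∀ᶠ n in (UU : Filter ℕ), nS b (f * g) n = nS b f n * nS b g n := by
  filter_upwards [rep_mul f g] with n h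
  unfold nS
  rw [h, ← Finset.prod_mul_distrib]
  exact Finset.prod_congr rfl fun v _ => av_mul hb v _ _

theorem nS_one : ∀ᶠ n in (UU : Filter ℕ), nS b 1 n = 1 := by
  filter_upwards [rep_one] with n h
  unfold nS
  rw [h]
  exact Finset.prod_eq_one fun v _ => av_one hb v

theorem nS_pow (f : GG) (k : ℕ) : ∀ᶠ n in (UU : Filter ℕ), nS b (f ^ k) n = nS b f n ^ k := by
  filter_upwards [rep_pow f k] with n h
  unfold nS
  rw [h, ← Finset.prod_pow]
  exact Finset.prod_congr rfl fun v _ => av_pow hb v _ _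

theorem nS_prod {ι : Type} (A : Finset ι) (f : ι → GG) : ∀ᶠ n in (UU : Filter ℕ),
    nS b (∏ i ∈ A, f i) n = ∏ i ∈ A, nS b (f i) n := by
  classical
  induction A using Finset.induction_on with
  | empty =>
    filter_upwards [nS_one hb] with n h
    rw [Finset.prod_empty, Finset.prod_empty, h]
  | insert a A ha ih =>
    rw [Finset.prod_insert ha]
    filter_upwards [ih, nS_mul hb (f a) (∏ i ∈ A, f i)] with n h1 h2
    rw [Finset.prod_insert ha, h2, h1]

theorem nS_pos {f : GG} (hf : f ≠ 0) : ∀ᶠ n in (UU : Filter ℕ), 0 < nS b f n := by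
  filter_upwards [rep_ne_zero hf] with n h
  exact Finset.prod_pos fun v _ => av_pos hb v h

theorem nS_gsu (hbi : Function.Injective b) {f : GG} (hf : GSU b f) :
    ∀ᶠ n in (UU : Filter ℕ), nS b f n = 1 := by
  obtain ⟨a, rfl, ha⟩ := hf
  filter_upwards [rep_gm a] with n h
  unfold nS
  rw [h]
  exact prod_av_unit hb hbi (ha n)

end

end Pool.Agent.H455.NT
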