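import Mathlib
import Pool.Agent.H455.NT2

set_option autoImplicit false

/-!
# One step of the n-term inequality
-/

open Finset Filter Topology MvPolynomial

namespace Pool.Agent.H455.NT

open Pool.Agent.TH932.Germs Pool.Agent.TH551.SU Pool.Agent.TH551.HA

variable {s : ℕ} {b : Fin s → ℕ} {L : ℕ → ℝ} {hL : Tendsto L atTop atTop} {m : ℕ}
  {T : Fin m → GG} {ι : Type}

theorem const_le_exp (hL : Tendsto L atTop atTop) (C : ℝ) {ε : ℝ} (hε : 0 < ε) :
    ∀ᶠ n in (UU : Filter ℕ), C ≤ Real.exp (ε * L n) := by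
  apply ev_of_atTop
  filter_upwards [hL.eventually_ge_atTop (C / ε)] with n hn
  have h1 : C ≤ ε * L n := by
    rw [div_le_iff₀ hε] at hn
    linarith
  linarith [Real.add_one_le_exp (ε * L n)]

/-- the sum of the sizes at one place -/
noncomputable def Sz (b : Fin s → ℕ) (A : ι → GG) (TT : Finset ι) (v : Option (Fin s)) (n : ℕ) :
    ℝ := ∑ σ ∈ TT, av b v (rep (A σ) n)

/-- the product over all places -/
noncomputable def Hs (b : Fin s → ℕ) (A : ι → GG) (TT : Finset ι) (n : ℕ) : ℝ :=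
  ∏ v, Sz b A TT v n

section
variable (hb : ∀ v, (b v).Prime) (hbi : Function.Injective b)
include hb

theorem Sz_nonneg (A : ι → GG) (TT : Finset ι) (v : Option (Fin s)) (n : ℕ) :
    0 ≤ Sz b A TT v n := Finset.sum_nonneg fun _ _ => av_nonneg hb _ _

theorem le_Sz (A : ι → GG) {TT : Finset ι} {σ : ι} (h : σ ∈ TT) (v : Option (Fin s)) (n : ℕ) :
    av b v (rep (A σ) n) ≤ Sz b A TT v n :=
  Finset.single_le_sum (f := fun σ => av b v (rep (A σ) n)) (fun _ _ => av_nonneg hb _ _) h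

theorem Hs_nonneg (A : ι → GG) (TT : Finset ι) (n : ℕ) : 0 ≤ Hs b A TT n :=
  Finset.prod_nonneg fun v _ => Sz_nonneg hb A TT v n

include hbi

theorem comb_le (lam : ι → KK L hL) (A : ι → GG) (v : Option (Fin s)) {ε : ℝ} (hε : 0 < ε)
    (TT : Finset ι) : ∀ᶠ n in (UU : Filter ℕ),
    av b v (rep (∑ τ ∈ TT, (lam τ : GG) * A τ) n) ≤ Real.exp (ε * L n) * Sz b A TT v n := by
  classical
  induction TT using Finset.induction_on with
  | empty =>
    filter_upwards [rep_zero] with n h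
    rw [Finset.sum_empty, h, av_zero hb]
    exact mul_nonneg (Real.exp_pos _).le (Sz_nonneg hb _ _ _ _)
  | insert τ TT hτ ih =>
    rw [Finset.sum_insert hτ]
    have h1 : Dom b L v ((lam τ : GG) * A τ) (A τ) :=
      Dom.smul hb hbi hL (lam τ).2 (Dom.refl hb hL v _)
    filter_upwards [ih, h1 ε hε, rep_add ((lam τ : GG) * A τ) (∑ τ ∈ TT, (lam τ : GG) * A τ)]
      with n h2 h3 h4
    rw [h4]
    refine (av_add hb v _ _).trans ((add_le_add h3 h2).trans ?_)
    unfold Sz
    rw [Finset.sum_insert hτ, mul_add]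

/-- the estimate of the Wronskian at one place -/
theorem place_bound [DecidableEq ι] (G : Gens b hL T)
    (p : ι → MvPolynomial (Fin m) (KK L hL)) (TT : Finset ι) {a : ℕ} (c : Fin a → ι)
    (κ : Fin a → KK L hL) (lam : ι → KK L hL) (hκ : ∀ i, κ i ≠ 0)
    (hv : ∑ i, C (κ i) * p (c i) = ∑ τ ∈ TT, C (lam τ) * p τ) (w : Fin m → ℕ)
    (v : Option (Fin s)) {ε : ℝ} (hε : 0 < ε) : ∀ᶠ n in (UU : Filter ℕ),
    av b v (rep (aeval T (Wr (DW w) fun i => p (c i))) n) *
        Sz b (fun σ => aeval T (p σ)) (TT ∪ Finset.univ.image c) v n ≤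
      Real.exp (ε * L n) * ((∏ i, av b v (rep (aeval T (p (c i))) n)) *
        Sz b (fun σ => aeval T (p σ)) TT v n) := by
  classical
  obtain ⟨A, hA⟩ : ∃ A : ι → GG, A = fun σ => aeval T (p σ) := ⟨_, rfl⟩
  have hAe : ∀ σ, aeval T (p σ) = A σ := fun σ => by rw [hA]
  obtain ⟨W, hW⟩ : ∃ W : GG, W = aeval T (Wr (DW w) fun i => p (c i)) := ⟨_, rfl⟩
  rw [← hA, ← hW]
  have h1 : Dom b L v W (∏ i, A (c i)) := by
    rw [hW, hA]
    exact wr_dom hb hbi G w _ v
  have hVe : (aeval T (∑ i, C (κ i) * p (c i)) : GG) = ∑ τ ∈ TT, (lam τ : GG) * A τ := by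
    rw [hv, map_sum]
    refine Finset.sum_congr rfl fun τ _ => ?_
    rw [map_mul, hAe, aeval_C]
    rfl
  have h2 : ∀ c0 : Fin a, Dom b L v W
      ((∑ τ ∈ TT, (lam τ : GG) * A τ) * ∏ i ∈ Finset.univ.erase c0, A (c i)) := by
    intro c0
    have hDκ : ∀ i, DW w (C (κ i) : MvPolynomial (Fin m) (KK L hL)) = 0 := by
      intro i
      have h3 : (C (κ i) : MvPolynomial (Fin m) (KK L hL)) = monomial 0 (κ i) := rfl
      rw [h3, DW_monomial]
      simp
    have h3 := Wr_update (DW w) (fun i => p (c i)) (fun i => C (κ i)) hDκ c0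
    have h4 := wr_dom hb hbi G w (Function.update (fun i => p (c i)) c0
      (∑ i, C (κ i) * p (c i))) v
    rw [h3, map_mul, ← Finset.mul_prod_erase _ _ (Finset.mem_univ c0), Function.update_self,
      hVe] at h4
    have h5 : ∏ i ∈ Finset.univ.erase c0, (aeval T (Function.update (fun i => p (c i)) c0
        (∑ i, C (κ i) * p (c i)) i) : GG) = ∏ i ∈ Finset.univ.erase c0, A (c i) := by
      refine Finset.prod_congr rfl fun i hi => ?_
      rw [Function.update_of_ne (Finset.mem_erase.1 hi).1, hAe]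
    rw [h5, ← hW] at h4
    have h6 : (aeval T (C (κ c0) : MvPolynomial (Fin m) (KK L hL)) : GG) = (κ c0 : GG) := by
      rw [aeval_C]
      rfl
    rw [h6] at h4
    have h7 : W = ((κ c0)⁻¹ : KK L hL) * (((κ c0 : KK L hL) : GG) * W) := by
      rw [← mul_assoc, ← MulMemClass.coe_mul, inv_mul_cancel₀ (hκ c0), OneMemClass.coe_one, one_mul]
    rw [h7]
    exact Dom.smul hb hbi hL (Subtype.mem _) h4
  have hε3 : 0 < ε / 3 := by positivity
  have h2' : ∀ᶠ n in (UU : Filter ℕ), ∀ c0 : Fin a, av b v (rep W n) ≤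
      Real.exp (ε / 3 * L n) * (av b v (rep (∑ τ ∈ TT, (lam τ : GG) * A τ) n) *
        ∏ i ∈ Finset.univ.erase c0, av b v (rep (A (c i)) n)) := by
    rw [eventually_all]
    intro c0
    have h5 : ∀ᶠ n in (UU : Filter ℕ), rep (∏ i ∈ Finset.univ.erase c0, A (c i)) n =
        ∏ i ∈ Finset.univ.erase c0, rep (A (c i)) n := by
      generalize Finset.univ.erase c0 = F
      induction F using Finset.induction_on with
      | empty => simpa using rep_one
      | insert i F hi ih =>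
        filter_upwards [ih, rep_mul (A (c i)) (∏ i ∈ F, A (c i))] with n h6 h7
        rw [Finset.prod_insert hi, Finset.prod_insert hi, h7, h6]
    filter_upwards [h2 c0 _ hε3, rep_mul (∑ τ ∈ TT, (lam τ : GG) * A τ)
      (∏ i ∈ Finset.univ.erase c0, A (c i)), h5] with n h6 h7 h8
    rw [h7, av_mul hb, h8, av_prod hb] at h6
    exact h6
  have h1' : ∀ᶠ n in (UU : Filter ℕ), av b v (rep W n) ≤
      Real.exp (ε / 3 * L n) * ∏ i, av b v (rep (A (c i)) n) := by
    have h5 : ∀ᶠ n in (UU : Filter ℕ), rep (∏ i, A (c i)) n = ∏ i, rep (A (c i)) n := by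
      generalize (Finset.univ : Finset (Fin a)) = F
      induction F using Finset.induction_on with
      | empty => simpa using rep_one
      | insert i F hi ih =>
        filter_upwards [ih, rep_mul (A (c i)) (∏ i ∈ F, A (c i))] with n h6 h7
        rw [Finset.prod_insert hi, Finset.prod_insert hi, h7, h6]
    filter_upwards [h1 _ hε3, h5] with n h6 h7
    rw [h7, av_prod hb] at h6
    exact h6
  filter_upwards [h1', h2', comb_le hb hbi lam A v hε3 TT,
    const_le_exp hL ((TT ∪ Finset.univ.image c).card : ℝ) hε3, L_nonneg hL] with n k1 k2 k3 k4 k5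
  obtain ⟨Pr, hPr⟩ : ∃ Pr : ℝ, Pr = ∏ i, av b v (rep (A (c i)) n) := ⟨_, rfl⟩
  have hPr0 : 0 ≤ Pr := by
    rw [hPr]
    exact Finset.prod_nonneg fun i _ => av_nonneg hb _ _
  have hSz := Sz_nonneg hb A TT v n
  have he1 : 1 ≤ Real.exp (ε / 3 * L n) := Real.one_le_exp (by positivity)
  have hPr' : ∏ i, av b v (rep (aeval T (p (c i))) n) = Pr := by
    rw [hPr]
    exact Finset.prod_congr rfl fun i _ => by rw [hAe]
  rw [hPr']
  rw [← hPr] at k1
  have hterm : ∀ σ ∈ TT ∪ Finset.univ.image c, av b v (rep W n) * av b v (rep (A σ) n) ≤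
      Real.exp (ε / 3 * L n) * Real.exp (ε / 3 * L n) * (Pr * Sz b A TT v n) := by
    intro σ hσ
    rcases Finset.mem_union.1 hσ with h | h
    · have h6 := le_Sz hb A h v n
      calc av b v (rep W n) * av b v (rep (A σ) n) ≤
            (Real.exp (ε / 3 * L n) * Pr) * Sz b A TT v n :=
              mul_le_mul k1 h6 (av_nonneg hb _ _) (by positivity)
        _ = 1 * Real.exp (ε / 3 * L n) * (Pr * Sz b A TT v n) := by ring
        _ ≤ _ := by
            refine mul_le_mul_of_nonneg_right ?_ (mul_nonneg hPr0 hSz)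
            exact mul_le_mul_of_nonneg_right he1 (Real.exp_pos _).le
    · obtain ⟨c0, -, rfl⟩ := Finset.mem_image.1 h
      have h6 : Pr = av b v (rep (A (c c0)) n) *
          ∏ i ∈ Finset.univ.erase c0, av b v (rep (A (c i)) n) := by
        rw [hPr]
        exact (Finset.mul_prod_erase Finset.univ (fun i => av b v (rep (A (c i)) n))
          (Finset.mem_univ c0)).symm
      have h7 : 0 ≤ ∏ i ∈ Finset.univ.erase c0, av b v (rep (A (c i)) n) :=
        Finset.prod_nonneg fun i _ => av_nonneg hb _ _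
      calc av b v (rep W n) * av b v (rep (A (c c0)) n) ≤
            (Real.exp (ε / 3 * L n) * (av b v (rep (∑ τ ∈ TT, (lam τ : GG) * A τ) n) *
              ∏ i ∈ Finset.univ.erase c0, av b v (rep (A (c i)) n))) *
              av b v (rep (A (c c0)) n) :=
              mul_le_mul_of_nonneg_right (k2 c0) (av_nonneg hb _ _)
        _ = Real.exp (ε / 3 * L n) * Pr * av b v (rep (∑ τ ∈ TT, (lam τ : GG) * A τ) n) := by
            rw [h6]
            ring
        _ ≤ Real.exp (ε / 3 * L n) * Pr * (Real.exp (ε / 3 * L n) * Sz b A TT v n) :=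
            mul_le_mul_of_nonneg_left k3 (by positivity)
        _ = _ := by ring
  have hsum : av b v (rep W n) * Sz b A (TT ∪ Finset.univ.image c) v n ≤
      ((TT ∪ Finset.univ.image c).card : ℝ) *
        (Real.exp (ε / 3 * L n) * Real.exp (ε / 3 * L n) * (Pr * Sz b A TT v n)) := by
    unfold Sz at hterm ⊢
    rw [Finset.mul_sum]
    refine (Finset.sum_le_sum hterm).trans ?_
    rw [Finset.sum_const, nsmul_eq_mul]
  refine hsum.trans ?_
  have h8 : Real.exp (ε * L n) = Real.exp (ε / 3 * L n) *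
      (Real.exp (ε / 3 * L n) * Real.exp (ε / 3 * L n)) := by
    rw [← Real.exp_add, ← Real.exp_add]
    ring_nf
  rw [h8]
  calc ((TT ∪ Finset.univ.image c).card : ℝ) *
        (Real.exp (ε / 3 * L n) * Real.exp (ε / 3 * L n) * (Pr * Sz b A TT v n)) ≤
        Real.exp (ε / 3 * L n) *
        (Real.exp (ε / 3 * L n) * Real.exp (ε / 3 * L n) * (Pr * Sz b A TT v n)) :=
        mul_le_mul_of_nonneg_right k4 (by positivity)
    _ = _ := by ring

/-- a germ of size at most 1 -/
def Small (b : Fin s → ℕ) (L : ℕ → ℝ) (f : GG) : Prop :=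
  ∀ ε : ℝ, 0 < ε → ∀ᶠ n in (UU : Filter ℕ), nS b f n ≤ Real.exp (ε * L n)

/-- **One step.** -/
theorem step [DecidableEq ι] (G : Gens b hL T)
    (p : ι → MvPolynomial (Fin m) (KK L hL)) (hp : ∀ σ, p σ ≠ 0) (TT : Finset ι) {a : ℕ}
    (c : Fin a → ι)
    (κ : Fin a → KK L hL) (lam : ι → KK L hL) (hκ : ∀ i, κ i ≠ 0)
    (hv : ∑ i, C (κ i) * p (c i) = ∑ τ ∈ TT, C (lam τ) * p τ) (w : Fin m → ℕ)
    (hW : Wr (DW w) (fun i => p (c i)) ≠ 0) (GT GTI ρ δ : MvPolynomial (Fin m) (KK L hL))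
    (hGT : GT ≠ 0) (hGTI : GTI ≠ 0) (hρ : ρ ≠ 0) (hδ : δ ≠ 0) (e : ℕ)
    (hdvd : (∏ i, p (c i)) * GT ∣ Wr (DW w) (fun i => p (c i)) * GTI * ρ ^ e * δ)
    (hδs : Small b L (aeval T δ)) {ε : ℝ} (hε : 0 < ε) : ∀ᶠ n in (UU : Filter ℕ),
    nS b (aeval T GT) n * Hs b (fun σ => aeval T (p σ)) (TT ∪ Finset.univ.image c) n ≤
      Real.exp (ε * L n) * (Hs b (fun σ => aeval T (p σ)) TT n * nS b (aeval T GTI) n *
        nS b (aeval T ρ) n ^ e) := by
  classical
  obtain ⟨A, hA⟩ : ∃ A : ι → GG, A = fun σ => aeval T (p σ) := ⟨_, rfl⟩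
  have hAe : ∀ σ, aeval T (p σ) = A σ := fun σ => by rw [hA]
  obtain ⟨W, hWe⟩ : ∃ W, W = Wr (DW w) (fun i => p (c i)) := ⟨_, rfl⟩
  obtain ⟨Q, hQ⟩ := hdvd
  have hQ0 : Q ≠ 0 := by
    rintro rfl
    rw [mul_zero] at hQ
    exact mul_ne_zero (mul_ne_zero (mul_ne_zero hW hGTI) (pow_ne_zero e hρ)) hδ hQ
  obtain ⟨ε1, hε1⟩ : ∃ ε1 : ℝ, ε1 = ε / (s + 3) := ⟨_, rfl⟩
  have hε10 : 0 < ε1 := by rw [hε1]; positivity
  have hpl : ∀ᶠ n in (UU : Filter ℕ), ∀ v : Option (Fin s),
      av b v (rep (aeval T W) n) * Sz b A (TT ∪ Finset.univ.image c) v n ≤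
      Real.exp (ε1 * L n) * ((∏ i, av b v (rep (A (c i)) n)) * Sz b A TT v n) := by
    rw [eventually_all]
    intro v
    have h1 := place_bound hb hbi G p TT c κ lam hκ hv w v hε10
    rw [← hWe] at h1
    filter_upwards [h1] with n h2
    rw [hA]
    exact h2
  have hev := congrArg (aeval T : MvPolynomial (Fin m) (KK L hL) → GG) hQ
  rw [map_mul, map_mul, map_mul, map_pow, map_mul, map_mul, map_prod, ← hWe] at hev
  have hlow := QI.lower hb hbi hL (ev_QI hb G Q) (G.ne hQ0) ε1 hε10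
  filter_upwards [hpl, hlow, hδs ε1 hε10, nS_pos hb (G.ne hGT), nS_pos hb (G.ne hGTI),
    nS_pos hb (G.ne hρ), nS_pos hb (G.ne hδ),
    nS_pos hb (f := ∏ i, (aeval T (p (c i)) : GG)) (Finset.prod_ne_zero_iff.2 fun i _ =>
      G.ne (hp (c i))),
    nS_mul hb (aeval T W * aeval T GTI * aeval T ρ ^ e) (aeval T δ),
    nS_mul hb (aeval T W * aeval T GTI) (aeval T ρ ^ e),
    nS_mul hb (aeval T W) (aeval T GTI), nS_pow hb (aeval T ρ) e,
    nS_mul hb ((∏ i, (aeval T (p (c i)) : GG)) * aeval T GT) (aeval T Q),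
    nS_mul hb (∏ i, (aeval T (p (c i)) : GG)) (aeval T GT),
    nS_prod hb Finset.univ (fun i => (aeval T (p (c i)) : GG))]
    with n k1 k2 k3 k4 k5 k6 k7 k8 k9 k10 k11 k12 k13 k14 k15
  -- the product over the places
  have hprod : nS b (aeval T W) n * Hs b A (TT ∪ Finset.univ.image c) n ≤
      Real.exp (ε1 * L n) ^ (s + 1) * (nS b (∏ i, (aeval T (p (c i)) : GG)) n * Hs b A TT n) := by
    have h1 : nS b (aeval T W) n * Hs b A (TT ∪ Finset.univ.image c) n =
        ∏ v, (av b v (rep (aeval T W) n) * Sz b A (TT ∪ Finset.univ.image c) v n) := by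
      unfold nS Hs
      rw [Finset.prod_mul_distrib]
    rw [h1]
    refine (Finset.prod_le_prod (fun v _ => mul_nonneg (av_nonneg hb _ _)
      (Sz_nonneg hb _ _ _ _)) fun v _ => k1 v).trans (le_of_eq ?_)
    rw [Finset.prod_mul_distrib, Finset.prod_const, Finset.card_univ, Fintype.card_option,
      Fintype.card_fin, Finset.prod_mul_distrib, Finset.prod_comm]
    congr 2
    rw [k15]
    exact Finset.prod_congr rfl fun i _ => by rw [hAe]; rfl
  have heq : nS b (aeval T W) n * nS b (aeval T GTI) n * nS b (aeval T ρ) n ^ e *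
      nS b (aeval T δ) n = nS b (∏ i, (aeval T (p (c i)) : GG)) n * nS b (aeval T GT) n *
        nS b (aeval T Q) n := by
    rw [← k14, ← k13, ← hev, k9, k10, k11, k12]
  obtain ⟨P, hP⟩ : ∃ P : ℝ, P = nS b (∏ i, (aeval T (p (c i)) : GG)) n := ⟨_, rfl⟩
  rw [← hP] at hprod heq k8
  have hH0 := Hs_nonneg hb A TT n
  have hH1 := Hs_nonneg hb A (TT ∪ Finset.univ.image c) n
  obtain ⟨E, hE⟩ : ∃ E : ℝ, E = Real.exp (ε1 * L n) := ⟨_, rfl⟩
  have hE0 : 0 < E := by rw [hE]; exact Real.exp_pos _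
  have hEi : Real.exp (-(ε1 * L n)) = E⁻¹ := by rw [Real.exp_neg, hE]
  rw [hEi] at k2
  rw [← hE] at k3 hprod
  have hQE : 1 ≤ E * nS b (aeval T Q) n := by
    have h1 : E⁻¹ ≤ nS b (aeval T Q) n := k2
    rwa [inv_le_iff_one_le_mul₀' hE0] at h1
  have hQ1 : 0 < nS b (aeval T Q) n := pos_of_mul_pos_right (by linarith) hE0.le
  rw [← hA]
  have key : P * (nS b (aeval T GT) n * Hs b A (TT ∪ Finset.univ.image c) n) ≤
      P * (E ^ (s + 3) * (Hs b A TT n * nS b (aeval T GTI) n * nS b (aeval T ρ) n ^ e)) := by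
    calc P * (nS b (aeval T GT) n * Hs b A (TT ∪ Finset.univ.image c) n) ≤
          (E * nS b (aeval T Q) n) *
            (P * (nS b (aeval T GT) n * Hs b A (TT ∪ Finset.univ.image c) n)) :=
            le_mul_of_one_le_left (by positivity) hQE
      _ = E * (P * nS b (aeval T GT) n * nS b (aeval T Q) n) *
            Hs b A (TT ∪ Finset.univ.image c) n := by ring
      _ = E * (nS b (aeval T GTI) n * nS b (aeval T ρ) n ^ e * nS b (aeval T δ) n) *
            (nS b (aeval T W) n * Hs b A (TT ∪ Finset.univ.image c) n) := by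
            rw [← heq]
            ring
      _ ≤ E * (nS b (aeval T GTI) n * nS b (aeval T ρ) n ^ e * E) *
            (E ^ (s + 1) * (P * Hs b A TT n)) := by
            refine mul_le_mul ?_ hprod (mul_nonneg ?_ hH1) (by positivity)
            · refine mul_le_mul_of_nonneg_left ?_ hE0.le
              exact mul_le_mul_of_nonneg_left k3 (by positivity)
            · exact Finset.prod_nonneg fun v _ => av_nonneg hb _ _
      _ = _ := by ring
  have hfin := le_of_mul_le_mul_left key k8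
  have hEe : E ^ (s + 3) = Real.exp (ε * L n) := by
    rw [hE, ← Real.exp_nat_mul, hε1]
    congr 1
    push_cast
    field_simp
  rwa [hEe] at hfin

end

end Pool.Agent.H455.NT
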