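import Mathlib
import Pool.Agent.H455.NT3

set_option autoImplicit false

/-!
# The chain of steps of the n-term inequality
-/

open Finset Filter Topology MvPolynomial

namespace Pool.Agent.H455.NT

open Pool.Agent.TH932.Germs Pool.Agent.TH551.SU Pool.Agent.TH551.HA

section rel

/-- the property of the relations -/
def RelP {K V ι : Type*} [Field K] [AddCommGroup V] [Module K V] (p : ι → V) (TT : Finset ι)
    (a : ℕ) (c : Fin a → ι) (κ : Fin a → K) (lam : ι → K) : Prop :=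
  Function.Injective c ∧ (∀ i, c i ∉ TT) ∧ ∑ i, κ i • p (c i) = ∑ τ ∈ TT, lam τ • p τ ∧
    ∑ i, κ i • p (c i) ≠ 0

theorem exists_rel {K V ι : Type*} [Field K] [AddCommGroup V] [Module K V] [Fintype ι]
    [DecidableEq ι] (p : ι → V) (TT : Finset ι) (hsum : ∑ σ, p σ = 0)
    (hne : ∑ σ ∈ TT, p σ ≠ 0) :
    ∃ (a : ℕ) (c : Fin a → ι) (κ : Fin a → K) (lam : ι → K), Function.Injective c ∧
      (∀ i, c i ∉ TT) ∧ (∀ i, κ i ≠ 0) ∧ 0 < a ∧
      ∑ i, κ i • p (c i) = ∑ τ ∈ TT, lam τ • p τ ∧ LinearIndependent K (fun i => p (c i)) := by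
  classical
  have hex : ∃ a, ∃ (c : Fin a → ι) (κ : Fin a → K) (lam : ι → K), RelP p TT a c κ lam := by
    have h1 : ∑ σ ∈ TTᶜ, p σ = -∑ σ ∈ TT, p σ := by
      rw [← Finset.sum_add_sum_compl TT] at hsum
      rw [eq_neg_iff_add_eq_zero, add_comm]
      exact hsum
    have h2 : ∑ i, (1 : K) • p ((TTᶜ).equivFin.symm i : ι) = ∑ σ ∈ TTᶜ, p σ := by
      simp only [one_smul]
      rw [Equiv.sum_comp (TTᶜ).equivFin.symm (fun x : ↥(TTᶜ) => p x), Finset.sum_coe_sort]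
    refine ⟨(TTᶜ).card, fun i => (TTᶜ).equivFin.symm i, fun _ => 1, fun _ => -1, ?_, ?_, ?_, ?_⟩
    · intro i j hij
      exact (TTᶜ).equivFin.symm.injective (Subtype.ext hij)
    · intro i
      have := ((TTᶜ).equivFin.symm i).2
      rwa [Finset.mem_compl] at this
    · rw [h2, h1, ← Finset.sum_neg_distrib]
      exact Finset.sum_congr rfl fun τ _ => by rw [neg_smul, one_smul]
    · rw [h2, h1]
      exact neg_ne_zero.2 hne
  obtain ⟨c, κ, lam, hc⟩ := Nat.find_spec hex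
  obtain ⟨a, ha⟩ : ∃ a, a = Nat.find hex := ⟨_, rfl⟩
  have hmin : ∀ a' < a, ¬ ∃ (c : Fin a' → ι) (κ : Fin a' → K) (lam : ι → K),
      RelP p TT a' c κ lam := fun a' h => Nat.find_min hex (by rwa [← ha])
  revert c κ lam
  rw [← ha]
  clear ha
  intro c κ lam hc
  -- no coefficient vanishes
  have hnz : ∀ (κ' : Fin a → K) (lam' : ι → K), RelP p TT a c κ' lam' → ∀ i, κ' i ≠ 0 := by
    intro κ' lam' h i hi
    cases a with
    | zero => exact i.elim0
    | succ a =>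
      obtain ⟨h1, h2, h3, h4⟩ := h
      rw [Fin.sum_univ_succAbove _ i, hi, zero_smul, zero_add] at h3 h4
      exact hmin a (Nat.lt_succ_self a) ⟨fun k => c (i.succAbove k), fun k => κ' (i.succAbove k),
        lam', h1.comp Fin.succAbove_right_injective, fun k => h2 _, h3, h4⟩
  refine ⟨a, c, κ, lam, hc.1, hc.2.1, hnz κ lam hc, ?_, hc.2.2.1, ?_⟩
  · rcases Nat.eq_zero_or_pos a with h | h
    · subst h
      exact absurd (by simp) hc.2.2.2
    · exact h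
  · rw [Fintype.linearIndependent_iff]
    intro μ hμ i1
    by_contra hne1
    refine hnz (fun i => κ i - κ i1 / μ i1 * μ i) lam ⟨hc.1, hc.2.1, ?_, ?_⟩ i1 ?_
    · have h1 : ∑ i, (κ i - κ i1 / μ i1 * μ i) • p (c i) = ∑ i, κ i • p (c i) := by
        simp only [sub_smul, mul_smul]
        rw [Finset.sum_sub_distrib, ← Finset.smul_sum, hμ, smul_zero, sub_zero]
      rw [h1]
      exact hc.2.2.1
    · have h1 : ∑ i, (κ i - κ i1 / μ i1 * μ i) • p (c i) = ∑ i, κ i • p (c i) := by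
        simp only [sub_smul, mul_smul]
        rw [Finset.sum_sub_distrib, ← Finset.smul_sum, hμ, smul_zero, sub_zero]
      rw [h1]
      exact hc.2.2.2
    · field_simp
      ring

end rel

variable {s : ℕ} {b : Fin s → ℕ} {L : ℕ → ℝ} {hL : Tendsto L atTop atTop} {m : ℕ}
  {T : Fin m → GG} {ι : Type}

/-- the bound for a set of terms -/
def Ok (b : Fin s → ℕ) {L : ℕ → ℝ} {hL : Tendsto L atTop atTop} (T : Fin m → GG)
    (p : ι → MvPolynomial (Fin m) (KK L hL)) (ρ : MvPolynomial (Fin m) (KK L hL))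
    (TT : Finset ι) (e : ℕ) : Prop :=
  ∀ G : MvPolynomial (Fin m) (KK L hL), (∀ x, x ∣ G ↔ ∀ τ ∈ TT, x ∣ p τ) → ∀ ε : ℝ, 0 < ε →
    ∀ᶠ n in (UU : Filter ℕ), Hs b (fun σ => aeval T (p σ)) TT n ≤
      Real.exp (ε * L n) * (nS b (aeval T G) n * nS b (aeval T ρ) n ^ e)

theorem gcd_ne {R : Type*} [CommRing R] {p : ι → R} (hp : ∀ σ, p σ ≠ 0) {TT : Finset ι}
    (hTT : TT.Nonempty) {G : R} (hG : ∀ x, x ∣ G ↔ ∀ τ ∈ TT, x ∣ p τ) : G ≠ 0 := by
  obtain ⟨τ, hτ⟩ := hTT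
  intro h0
  have h1 := (hG 0).1 (by rw [h0]) τ hτ
  exact hp τ (zero_dvd_iff.1 h1)

section
variable (hb : ∀ v, (b v).Prime) (hbi : Function.Injective b)
include hb hbi

theorem nS_low (G : Gens b hL T) {p : MvPolynomial (Fin m) (KK L hL)} (hp : p ≠ 0) {ε : ℝ}
    (hε : 0 < ε) : ∀ᶠ n in (UU : Filter ℕ), Real.exp (-(ε * L n)) ≤ nS b (aeval T p) n :=
  QI.lower hb hbi hL (ev_QI hb G p) (G.ne hp) ε hε

theorem ok_start (G : Gens b hL T) (p : ι → MvPolynomial (Fin m) (KK L hL))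
    (hp : ∀ σ, p σ ≠ 0) (ρ : MvPolynomial (Fin m) (KK L hL)) (j : ι) : Ok b T p ρ {j} 0 := by
  intro GT hGT ε hε
  have hGT0 := gcd_ne hp (Finset.singleton_nonempty j) hGT
  obtain ⟨q, hq⟩ : p j ∣ GT := (hGT _).2 fun τ hτ => by
    rw [Finset.mem_singleton] at hτ
    rw [hτ]
  have hq0 : q ≠ 0 := by
    rintro rfl
    exact hGT0 (by rw [hq, mul_zero])
  filter_upwards [nS_low hb hbi G hq0 hε, nS_mul hb (aeval T (p j)) (aeval T q),
    nS_pos hb (G.ne (hp j))] with n h1 h2 h3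
  have h4 : Hs b (fun σ => aeval T (p σ)) {j} n = nS b (aeval T (p j)) n := by
    unfold Hs nS Sz
    exact Finset.prod_congr rfl fun v _ => Finset.sum_singleton _ _
  rw [h4, hq, map_mul, h2, pow_zero, mul_one]
  have h5 : 1 ≤ Real.exp (ε * L n) * nS b (aeval T q) n := by
    rw [Real.exp_neg] at h1
    rwa [inv_le_iff_one_le_mul₀' (Real.exp_pos _)] at h1
  calc nS b (aeval T (p j)) n ≤ nS b (aeval T (p j)) n *
        (Real.exp (ε * L n) * nS b (aeval T q) n) := le_mul_of_one_le_right h3.le h5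
    _ = _ := by ring

theorem ok_step [DecidableEq ι] (G : Gens b hL T) (p : ι → MvPolynomial (Fin m) (KK L hL))
    (hp : ∀ σ, p σ ≠ 0) (ρ : MvPolynomial (Fin m) (KK L hL)) (hρ : ρ ≠ 0) (TT : Finset ι)
    (hTT : TT.Nonempty) {a : ℕ} (c : Fin a → ι)
    (κ : Fin a → KK L hL) (lam : ι → KK L hL) (hκ : ∀ i, κ i ≠ 0)
    (hv : ∑ i, C (κ i) * p (c i) = ∑ τ ∈ TT, C (lam τ) * p τ) (w : Fin m → ℕ)
    (hW : Wr (DW w) (fun i => p (c i)) ≠ 0) (δ : MvPolynomial (Fin m) (KK L hL)) (hδ : δ ≠ 0)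
    (hδs : Small b L (aeval T δ)) (l : ℕ)
    (hdvd : ∀ GT GTI : MvPolynomial (Fin m) (KK L hL), (∀ x, x ∣ GT ↔ ∀ τ ∈ TT, x ∣ p τ) →
      (∀ x, x ∣ GTI ↔ (∀ τ ∈ TT, x ∣ p τ) ∧ ∀ i, x ∣ p (c i)) →
      (∏ i, p (c i)) * GT ∣ Wr (DW w) (fun i => p (c i)) * GTI * ρ ^ l * δ)
    (e : ℕ) (hok : Ok b T p ρ TT e) : Ok b T p ρ (TT ∪ Finset.univ.image c) (e + l) := by
  intro GTI hGTI ε hε
  obtain ⟨GT, hGT⟩ := exists_gcd p TT
  have hGT0 := gcd_ne hp hTT hGT
  have hGTI0 := gcd_ne hp (hTT.mono Finset.subset_union_left) hGTI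
  have hGTI' : ∀ x, x ∣ GTI ↔ (∀ τ ∈ TT, x ∣ p τ) ∧ ∀ i, x ∣ p (c i) := by
    intro x
    rw [hGTI]
    constructor
    · intro h
      exact ⟨fun τ hτ => h τ (Finset.mem_union_left _ hτ), fun i =>
        h _ (Finset.mem_union_right _ (Finset.mem_image_of_mem c (Finset.mem_univ i)))⟩
    · rintro ⟨h1, h2⟩ τ hτ
      rcases Finset.mem_union.1 hτ with h | h
      · exact h1 τ h
      · obtain ⟨i, -, rfl⟩ := Finset.mem_image.1 h
        exact h2 i
  have hε2 : 0 < ε / 2 := by positivity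
  filter_upwards [step hb hbi G p hp TT c κ lam hκ hv w hW GT GTI ρ δ hGT0 hGTI0 hρ hδ l
    (hdvd GT GTI hGT hGTI') hδs hε2, hok GT hGT _ hε2, nS_pos hb (G.ne hGT0),
    nS_pos hb (G.ne hGTI0), nS_pos hb (G.ne hρ)] with n h1 h2 h3 h4 h5
  have h6 : nS b (aeval T GT) n * Hs b (fun σ => aeval T (p σ)) (TT ∪ Finset.univ.image c) n ≤
      nS b (aeval T GT) n * (Real.exp (ε * L n) * (nS b (aeval T GTI) n *
        nS b (aeval T ρ) n ^ (e + l))) := by
    refine h1.trans ?_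
    calc Real.exp (ε / 2 * L n) * (Hs b (fun σ => aeval T (p σ)) TT n * nS b (aeval T GTI) n *
          nS b (aeval T ρ) n ^ l) ≤ Real.exp (ε / 2 * L n) *
          ((Real.exp (ε / 2 * L n) * (nS b (aeval T GT) n * nS b (aeval T ρ) n ^ e)) *
            nS b (aeval T GTI) n * nS b (aeval T ρ) n ^ l) := by gcongr
      _ = _ := by
        have h7 : Real.exp (ε * L n) = Real.exp (ε / 2 * L n) * Real.exp (ε / 2 * L n) := by
          rw [← Real.exp_add]
          ring_nf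
        rw [h7, pow_add]
        ring
  exact le_of_mul_le_mul_left h6 h3

/-- **The chain.** -/
theorem chain [Fintype ι] [DecidableEq ι] (G : Gens b hL T)
    (p : ι → MvPolynomial (Fin m) (KK L hL))
    (hp : ∀ σ, p σ ≠ 0) (ρ : MvPolynomial (Fin m) (KK L hL)) (hρ : ρ ≠ 0)
    (hsum : ∑ σ, p σ = 0)
    (hsub : ∀ TT : Finset ι, TT.Nonempty → TT ≠ Finset.univ → ∑ σ ∈ TT, p σ ≠ 0)
    (l B : ℕ → ℕ) (hB : ∀ a k, 0 < a → l a + B k ≤ B (a + k))
    (δ : ℕ → MvPolynomial (Fin m) (KK L hL)) (hδ : ∀ a, δ a ≠ 0)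
    (hδs : ∀ a, Small b L (aeval T (δ a)))
    (hdvd : ∀ (TT : Finset ι), TT.Nonempty → ∀ (a : ℕ) (c : Fin a → ι) (κ : Fin a → KK L hL)
      (lam : ι → KK L hL), Function.Injective c → (∀ i, c i ∉ TT) → (∀ i, κ i ≠ 0) →
      ∑ i, C (κ i) * p (c i) = ∑ τ ∈ TT, C (lam τ) * p τ → ∀ (w : Fin m → ℕ)
      (GT GTI : MvPolynomial (Fin m) (KK L hL)), (∀ x, x ∣ GT ↔ ∀ τ ∈ TT, x ∣ p τ) →
      (∀ x, x ∣ GTI ↔ (∀ τ ∈ TT, x ∣ p τ) ∧ ∀ i, x ∣ p (c i)) →
      (∏ i, p (c i)) * GT ∣ Wr (DW w) (fun i => p (c i)) * GTI * ρ ^ (l a) * δ a) :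
    ∀ (k : ℕ) (TT : Finset ι), TT.Nonempty → (TTᶜ).card = k → ∀ e, Ok b T p ρ TT e →
      ∃ e', e' ≤ e + B k ∧ Ok b T p ρ Finset.univ e' := by
  intro k
  induction k using Nat.strong_induction_on with
  | _ k ih =>
    intro TT hTT hk e hok
    by_cases hu : TT = Finset.univ
    · exact ⟨e, Nat.le_add_right _ _, hu ▸ hok⟩
    obtain ⟨a, c, κ, lam, h1, h2, h3, h4, h5, h6⟩ := exists_rel (K := KK L hL) p TT hsum
      (hsub TT hTT hu)
    obtain ⟨w, hw⟩ := exists_Wr_ne (fun i => p (c i)) h6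
    simp only [smul_eq_C_mul] at h5
    have hok' := ok_step hb hbi G p hp ρ hρ TT hTT c κ lam h3 h5 w hw (δ a) (hδ a) (hδs a) (l a)
      (fun GT GTI hGT hGTI => hdvd TT hTT a c κ lam h1 h2 h3 h5 w GT GTI hGT hGTI) e hok
    have hcard : (TT ∪ Finset.univ.image c)ᶜ.card + a = k := by
      rw [← hk, Finset.card_compl, Finset.card_compl, Finset.card_union_of_disjoint,
        Finset.card_image_of_injective _ h1, Finset.card_univ, Fintype.card_fin]
      · have h7 : (TT ∪ Finset.univ.image c).card ≤ Fintype.card ι := Finset.card_le_univ _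
        rw [Finset.card_union_of_disjoint, Finset.card_image_of_injective _ h1, Finset.card_univ,
          Fintype.card_fin] at h7
        · omega
        · rw [Finset.disjoint_right]
          intro x hx
          obtain ⟨i, -, rfl⟩ := Finset.mem_image.1 hx
          exact h2 i
      · rw [Finset.disjoint_right]
        intro x hx
        obtain ⟨i, -, rfl⟩ := Finset.mem_image.1 hx
        exact h2 i
    obtain ⟨e', he', hok''⟩ := ih _ (by omega) (TT ∪ Finset.univ.image c)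
      (hTT.mono Finset.subset_union_left) rfl (e + l a) hok'
    refine ⟨e', he'.trans ?_, hok''⟩
    have h7 := hB a (TT ∪ Finset.univ.image c)ᶜ.card h4
    rw [add_comm a, hcard] at h7
    omega

end

end Pool.Agent.H455.NT
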