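import Mathlib
import Pool.Agent.H455.NT4
import Pool.Agent.H455.AD1

set_option autoImplicit false

/-!
# The n-term inequality for germs
-/

open Finset Filter Topology MvPolynomial

namespace Pool.Agent.H455.NT

open Pool.Agent.TH932.Germs Pool.Agent.TH551.SU Pool.Agent.TH551.HA Pool.Agent.TH551.ZP
open Pool.Agent.TH551.ZP.GT

variable {s : ℕ} {b : Fin s → ℕ} {L : ℕ → ℝ} {hL : Tendsto L atTop atTop} {m : ℕ}
  {T : Fin m → GG} {ι : Type}

theorem gsum {κ : Type} (A : Finset κ) (f : κ → ℕ → ℚ) :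
    ∑ i ∈ A, gm (f i) = gm (fun n => ∑ i ∈ A, f i n) := by
  classical
  induction A using Finset.induction_on with
  | empty =>
    rw [Finset.sum_empty, ← gm_zero]
    congr 1
  | insert a A ha ih =>
    rw [Finset.sum_insert ha, ih, gm_add]
    congr 1
    funext n
    rw [Finset.sum_insert ha]

/-- integers without a common prime divisor -/
theorem bezout' {κ : Type} [Fintype κ] (z : κ → ℤ)
    (hz : ∀ q : ℕ, q.Prime → ∃ i, ¬ (q : ℤ) ∣ z i) : ∃ c : κ → ℤ, ∑ i, c i * z i = 1 := by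
  let e := (Fintype.equivFin κ).symm
  obtain ⟨c, hc⟩ := AD.bezout (fun i => z (e i)) fun q hq => by
    obtain ⟨i, hi⟩ := hz q hq
    exact ⟨e.symm i, by rwa [Equiv.apply_symm_apply]⟩
  refine ⟨fun i => c (e.symm i), ?_⟩
  rw [← hc, ← Equiv.sum_comp e]
  refine Finset.sum_congr rfl fun i _ => ?_
  beta_reduce
  rw [Equiv.symm_apply_apply]

theorem tri_add (a k : ℕ) : tri a + tri k ≤ tri (a + k) := by
  unfold tri
  rw [Fin.sum_univ_eq_sum_range (fun i => i) a, Fin.sum_univ_eq_sum_range (fun i => i) k,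
    Fin.sum_univ_eq_sum_range (fun i => i) (a + k), Finset.sum_range_add]
  refine Nat.add_le_add_left (Finset.sum_le_sum fun i _ => ?_) _
  omega

section
variable (hb : ∀ v, (b v).Prime) (hbi : Function.Injective b)
include hb

theorem QI.int (hL : Tendsto L atTop atTop) (z : ℕ → ℤ) : QI b L (gm fun n => (z n : ℚ)) := by
  refine ⟨fun _ => 1, Negl.one hL, by simp, ?_⟩
  filter_upwards [rep_gm (fun n => (z n : ℚ))] with n h1
  rw [h1, Int.cast_one, one_mul]
  exact IntS.int b _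

include hbi

/-- common factors of coprime integers are small -/
theorem unit_small {κ : Type} [Fintype κ] (G : Gens b hL T)
    (p : κ → MvPolynomial (Fin m) (KK L hL)) (x : κ → ℕ → ℤ)
    (hcop : ∀ n, ∀ q : ℕ, q.Prime → ∃ i, ¬ (q : ℤ) ∣ x i n) (M : GG) (hM : GSU b M)
    (hx : ∀ i, aeval T (p i) = M * gm fun n => (x i n : ℚ))
    (g : MvPolynomial (Fin m) (KK L hL)) (hg : ∀ i, g ∣ p i) : Small b L (aeval T g) := by
  classical
  choose q hq using hg
  choose c hc using fun n => bezout' (fun i => x i n) (hcop n)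
  obtain ⟨F, hF⟩ : ∃ F : GG, F = ∑ i, (gm fun n => (c n i : ℚ)) * aeval T (q i) := ⟨_, rfl⟩
  have hGF : aeval T g * F = M := by
    rw [hF, Finset.mul_sum]
    have h1 : ∀ i, aeval T g * ((gm fun n => (c n i : ℚ)) * aeval T (q i)) =
        M * gm (fun n => (c n i : ℚ) * x i n) := by
      intro i
      have h2 : aeval T g * ((gm fun n => (c n i : ℚ)) * aeval T (q i)) =
          (gm fun n => (c n i : ℚ)) * aeval T (p i) := by
        rw [hq i, map_mul]
        ring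
      rw [h2, hx, mul_left_comm, gm_mul]
    rw [Finset.sum_congr rfl fun i _ => h1 i, ← Finset.mul_sum, gsum]
    have h3 : (fun n => ∑ i, (c n i : ℚ) * x i n) = fun _ => 1 := by
      funext n
      exact_mod_cast hc n
    rw [h3, gm_one, mul_one]
  have hM0 := nc_gsu_ne hb hM
  have hF0 : F ≠ 0 := by
    intro h0
    rw [h0, mul_zero] at hGF
    exact hM0 hGF.symm
  have hFQ : QI b L F := by
    rw [hF]
    exact QI.sum hb hL _ _ fun i _ => QI.mul hb (QI.int hb hL _) (ev_QI hb G _)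
  intro ε hε
  filter_upwards [QI.lower hb hbi hL hFQ hF0 ε hε, nS_mul hb (aeval T g) F, nS_gsu hb hbi hM]
    with n h1 h2 h3
  have h1' : Real.exp (-(ε * L n)) ≤ nS b F n := h1
  rw [← hGF, h2] at h3
  rw [Real.exp_neg, inv_le_iff_one_le_mul₀' (Real.exp_pos _)] at h1'
  have h4 : 0 ≤ nS b (aeval T g) n := Finset.prod_nonneg fun v _ => av_nonneg hb _ _
  calc nS b (aeval T g) n ≤ nS b (aeval T g) n * (Real.exp (ε * L n) * nS b F n) :=
        le_mul_of_one_le_right h4 h1'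
    _ = Real.exp (ε * L n) * (nS b (aeval T g) n * nS b F n) := by ring
    _ = Real.exp (ε * L n) := by rw [h3, mul_one]

/-- the product of the sizes bounds the integers -/
theorem le_Hs [Fintype ι] (p : ι → MvPolynomial (Fin m) (KK L hL)) (x : ι → ℕ → ℤ)
    (hcop : ∀ n, ∀ q : ℕ, q.Prime → ∃ i, ¬ (q : ℤ) ∣ x i n) (M : GG) (hM : GSU b M)
    (hx : ∀ i, aeval T (p i) = M * gm fun n => (x i n : ℚ)) :
    ∀ᶠ n in (UU : Filter ℕ), ∀ j, |(x j n : ℝ)| ≤
      Hs b (fun σ => aeval T (p σ)) Finset.univ n := by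
  classical
  have h0 : ∀ᶠ n in (UU : Filter ℕ), ∀ i, rep (aeval T (p i)) n = rep M n * x i n := by
    rw [eventually_all]
    intro i
    rw [hx i]
    filter_upwards [rep_mul M (gm fun n => (x i n : ℚ)), rep_gm (fun n => (x i n : ℚ))]
      with n h1 h2
    rw [h1, h2]
  filter_upwards [h0, nS_gsu hb hbi hM] with n h1 h2 j
  have h3 : Hs b (fun σ => aeval T (p σ)) Finset.univ n =
      nS b M n * ∏ v, ∑ σ, av b v (x σ n : ℚ) := by
    unfold Hs nS Sz
    rw [← Finset.prod_mul_distrib]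
    refine Finset.prod_congr rfl fun v _ => ?_
    rw [Finset.mul_sum]
    refine Finset.sum_congr rfl fun σ _ => ?_
    rw [h1, av_mul hb]
  rw [h3, h2, one_mul, Fintype.prod_option]
  have h4 : |(x j n : ℝ)| ≤ ∑ σ, av b none (x σ n : ℚ) := by
    have h5 : av b none (x j n : ℚ) = |(x j n : ℝ)| := by
      simp only [av]
      push_cast
      rfl
    rw [← h5]
    exact Finset.single_le_sum (f := fun σ => av b none (x σ n : ℚ))
      (fun _ _ => av_nonneg hb _ _) (Finset.mem_univ j)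
  have h5 : 1 ≤ ∏ v : Fin s, ∑ σ, av b (some v) (x σ n : ℚ) := by
    have h6 : ∀ v ∈ (Finset.univ : Finset (Fin s)), (1 : ℝ) ≤ ∑ σ, av b (some v) (x σ n : ℚ) := by
      intro v _
      obtain ⟨i, hi⟩ := hcop n (b v) (hb v)
      have h6 : av b (some v) (x i n : ℚ) = 1 := by
        have := Fact.mk (hb v)
        have h7 : padicNorm (b v) (x i n : ℚ) = 1 := (padicNorm.int_eq_one_iff (x i n)).2 hi
        simp only [av]
        rw [h7, Rat.cast_one]
      rw [← h6]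
      exact Finset.single_le_sum (f := fun σ => av b (some v) (x σ n : ℚ))
        (fun _ _ => av_nonneg hb _ _) (Finset.mem_univ i)
    calc (1 : ℝ) = ∏ v : Fin s, (1 : ℝ) := Finset.prod_const_one.symm
      _ ≤ _ := Finset.prod_le_prod (fun _ _ => zero_le_one) h6
  exact h4.trans (le_mul_of_one_le_right ((abs_nonneg _).trans h4) h5)

/-- **The inequality for germs**, general form. -/
theorem germ_core [Fintype ι] [DecidableEq ι] (G : Gens b hL T)
    (p : ι → MvPolynomial (Fin m) (KK L hL)) (x : ι → ℕ → ℤ)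
    (hx0 : ∀ n i, x i n ≠ 0) (hsum : ∀ n, ∑ i, x i n = 0)
    (hsub : ∀ n, ∀ TT : Finset ι, TT.Nonempty → TT ≠ Finset.univ → ∑ i ∈ TT, x i n ≠ 0)
    (hcop : ∀ n, ∀ q : ℕ, q.Prime → ∃ i, ¬ (q : ℤ) ∣ x i n) (M : GG) (hM : GSU b M)
    (hx : ∀ i, aeval T (p i) = M * gm fun n => (x i n : ℚ))
    (ρ' : MvPolynomial (Fin m) (KK L hL)) (ρ : ℕ → ℕ) (hρ0 : ∀ n, 0 < ρ n) (M' : GG)
    (hM' : GSU b M') (hρ : aeval T ρ' = M' * gm fun n => (ρ n : ℚ))
    (l B : ℕ → ℕ) (hB : ∀ a k, 0 < a → l a + B k ≤ B (a + k))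
    (δ : ℕ → MvPolynomial (Fin m) (KK L hL)) (hδ : ∀ a, δ a ≠ 0)
    (hδs : ∀ a, Small b L (aeval T (δ a)))
    (hdvd : ∀ (TT : Finset ι), TT.Nonempty → ∀ (a : ℕ) (c : Fin a → ι) (κ : Fin a → KK L hL)
      (lam : ι → KK L hL), Function.Injective c → (∀ i, c i ∉ TT) → (∀ i, κ i ≠ 0) →
      ∑ i, C (κ i) * p (c i) = ∑ τ ∈ TT, C (lam τ) * p τ → ∀ (w : Fin m → ℕ)
      (GT GTI : MvPolynomial (Fin m) (KK L hL)), (∀ x, x ∣ GT ↔ ∀ τ ∈ TT, x ∣ p τ) →
      (∀ x, x ∣ GTI ↔ (∀ τ ∈ TT, x ∣ p τ) ∧ ∀ i, x ∣ p (c i)) →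
      (∏ i, p (c i)) * GT ∣ Wr (DW w) (fun i => p (c i)) * GTI * ρ' ^ (l a) * δ a)
    (j0 : ι) {ε : ℝ} (hε : 0 < ε) :
    ∀ᶠ n in (UU : Filter ℕ), ∀ j, |(x j n : ℝ)| ≤
      Real.exp (ε * L n) * (ρ n : ℝ) ^ (B (Fintype.card ι - 1)) := by
  classical
  have hM0 := nc_gsu_ne hb hM
  have hp : ∀ i, p i ≠ 0 := by
    intro i h0
    have h1 := hx i
    rw [h0, map_zero] at h1
    refine mul_ne_zero hM0 (gm_ne_zero.2 (Eventually.of_forall fun n => ?_)) h1.symm
    exact Int.cast_ne_zero.2 (hx0 n i)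
  have hev : ∀ TT : Finset ι, aeval T (∑ i ∈ TT, p i) =
      M * gm (fun n => ((∑ i ∈ TT, x i n : ℤ) : ℚ)) := by
    intro TT
    rw [map_sum, Finset.sum_congr rfl fun i _ => hx i, ← Finset.mul_sum, gsum]
    congr 2
    funext n
    push_cast
    rfl
  have hpsum : ∑ i, p i = 0 := by
    refine G.ind _ ?_
    rw [hev]
    have h1 : (fun n => ((∑ i, x i n : ℤ) : ℚ)) = fun _ => 0 := by
      funext n
      rw [hsum n, Int.cast_zero]
    rw [h1, gm_zero, mul_zero]
  have hpsub : ∀ TT : Finset ι, TT.Nonempty → TT ≠ Finset.univ → ∑ σ ∈ TT, p σ ≠ 0 := by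
    intro TT h1 h2 h3
    have h4 := hev TT
    rw [h3, map_zero] at h4
    refine mul_ne_zero hM0 (gm_ne_zero.2 (Eventually.of_forall fun n => ?_)) h4.symm
    exact Int.cast_ne_zero.2 (hsub n TT h1 h2)
  have hρ'0 : ρ' ≠ 0 := by
    intro h0
    rw [h0, map_zero] at hρ
    refine mul_ne_zero (nc_gsu_ne hb hM') (gm_ne_zero.2 (Eventually.of_forall fun n => ?_)) hρ.symm
    exact Nat.cast_ne_zero.2 (hρ0 n).ne'
  obtain ⟨e, he, hok⟩ := chain hb hbi G p hp ρ' hρ'0 hpsum hpsub l B hB δ hδ hδs hdvd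
    (Fintype.card ι - 1) {j0} (Finset.singleton_nonempty j0) (by
      rw [Finset.card_compl, Finset.card_singleton]) 0 (ok_start hb hbi G p hp ρ' j0)
  rw [zero_add] at he
  obtain ⟨g, hg⟩ := exists_gcd p Finset.univ
  have hgs : Small b L (aeval T g) := unit_small hb hbi G p x hcop M hM hx g
    fun i => (hg g).1 dvd_rfl i (Finset.mem_univ i)
  have hε2 : 0 < ε / 2 := by positivity
  filter_upwards [le_Hs hb hbi p x hcop M hM hx, hok g hg _ hε2, hgs _ hε2,
    nS_mul hb M' (gm fun n => (ρ n : ℚ)), nS_gsu hb hbi hM', rep_gm (fun n => (ρ n : ℚ)),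
    nS_pos hb (G.ne (gcd_ne hp ⟨j0, Finset.mem_univ _⟩ hg))]
    with n k1 k2 k3 k4 k5 k6 k7 j
  refine (k1 j).trans (k2.trans ?_)
  have hρn : nS b (aeval T ρ') n ≤ ρ n := by
    rw [hρ, k4, k5, one_mul]
    unfold nS
    rw [k6, Fintype.prod_option]
    have h1 : av b none (ρ n : ℚ) = ρ n := by
      simp only [av]
      push_cast
      exact Nat.abs_cast _
    have h2 : ∏ v : Fin s, av b (some v) (ρ n : ℚ) ≤ 1 := by
      refine Finset.prod_le_one (fun v _ => av_nonneg hb _ _) fun v _ => ?_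
      have := Fact.mk (hb v)
      have h3 : padicNorm (b v) ((ρ n : ℤ) : ℚ) ≤ 1 := padicNorm.of_int _
      rw [Int.cast_natCast] at h3
      simp only [av]
      exact_mod_cast h3
    rw [h1]
    exact mul_le_of_le_one_right (Nat.cast_nonneg _) h2
  have hρ1 : (1 : ℝ) ≤ ρ n := by exact_mod_cast hρ0 n
  have h0 : 0 ≤ nS b (aeval T ρ') n := Finset.prod_nonneg fun v _ => av_nonneg hb _ _
  calc Real.exp (ε / 2 * L n) * (nS b (aeval T g) n * nS b (aeval T ρ') n ^ e) ≤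
        Real.exp (ε / 2 * L n) * (Real.exp (ε / 2 * L n) *
          (ρ n : ℝ) ^ (B (Fintype.card ι - 1))) := by
        refine mul_le_mul_of_nonneg_left ?_ (Real.exp_pos _).le
        refine mul_le_mul k3 ?_ (pow_nonneg h0 _) (Real.exp_pos _).le
        exact (pow_le_pow_left₀ h0 hρn e).trans (pow_le_pow_right₀ hρ1 he)
    _ = _ := by
      rw [← mul_assoc, ← Real.exp_add]
      ring_nf

/-- **The inequality for germs** with greatest common divisor one. -/
theorem germ_gcd [Fintype ι] [DecidableEq ι] (G : Gens b hL T)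
    (p : ι → MvPolynomial (Fin m) (KK L hL)) (x : ι → ℕ → ℤ)
    (hx0 : ∀ n i, x i n ≠ 0) (hsum : ∀ n, ∑ i, x i n = 0)
    (hsub : ∀ n, ∀ TT : Finset ι, TT.Nonempty → TT ≠ Finset.univ → ∑ i ∈ TT, x i n ≠ 0)
    (hcop : ∀ n, ∀ q : ℕ, q.Prime → ∃ i, ¬ (q : ℤ) ∣ x i n) (M : GG) (hM : GSU b M)
    (hx : ∀ i, aeval T (p i) = M * gm fun n => (x i n : ℚ))
    (ρ' : MvPolynomial (Fin m) (KK L hL)) (ρ : ℕ → ℕ) (hρ0 : ∀ n, 0 < ρ n) (M' : GG)
    (hM' : GSU b M') (hρ : aeval T ρ' = M' * gm fun n => (ρ n : ℚ))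
    (hπ : ∀ π : MvPolynomial (Fin m) (KK L hL), Prime π → ∀ i, π ∣ p i → π ∣ ρ')
    (j0 : ι) {ε : ℝ} (hε : 0 < ε) :
    ∀ᶠ n in (UU : Filter ℕ), ∀ j, |(x j n : ℝ)| ≤
      Real.exp (ε * L n) * (ρ n : ℝ) ^ (tri (Fintype.card ι - 1)) := by
  classical
  have hM0 := nc_gsu_ne hb hM
  have hp : ∀ i, p i ≠ 0 := by
    intro i h0
    have h1 := hx i
    rw [h0, map_zero] at h1
    refine mul_ne_zero hM0 (gm_ne_zero.2 (Eventually.of_forall fun n => ?_)) h1.symm
    exact Int.cast_ne_zero.2 (hx0 n i)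
  refine germ_core hb hbi G p x hx0 hsum hsub hcop M hM hx ρ' ρ hρ0 M' hM' hρ tri tri
    (fun a k _ => tri_add a k) (fun _ => 1) (fun _ => one_ne_zero) (fun a ε hε => ?_) ?_ j0 hε
  · rw [map_one]
    filter_upwards [nS_one hb, L_nonneg hL] with n h1 h2
    rw [h1]
    exact Real.one_le_exp (by positivity)
  · intro TT hTT a c κ lam _ _ hκ hv w GT GTI hGT hGTI
    rw [mul_one]
    refine step_dvd (DW w) (fun i => p (c i)) (fun i => hp _) TT hTT p (fun τ _ => hp τ)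
      (fun i => C (κ i)) (fun τ => C (lam τ)) (fun i => ?_) (fun i => ?_) hv GT GTI hGT hGTI ρ'
      (tri a) le_rfl (fun π hπ' i => hπ π hπ' _) (fun π hπ' τ _ => hπ π hπ' τ)
    · exact (isUnit_iff_ne_zero.2 (hκ i)).map C
    · have h3 : (C (κ i) : MvPolynomial (Fin m) (KK L hL)) = monomial 0 (κ i) := rfl
      rw [h3, DW_monomial]
      simp

theorem Small.mul {f g : GG} (hf : Small b L f) (hg : Small b L g) : Small b L (f * g) := by
  intro ε hε
  have hε2 : 0 < ε / 2 := by positivity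
  filter_upwards [hf _ hε2, hg _ hε2, nS_mul hb f g] with n h1 h2 h3
  rw [h3]
  calc nS b f n * nS b g n ≤ Real.exp (ε / 2 * L n) * Real.exp (ε / 2 * L n) :=
        mul_le_mul h1 h2 (Finset.prod_nonneg fun v _ => av_nonneg hb _ _) (Real.exp_pos _).le
    _ = Real.exp (ε * L n) := by
      rw [← Real.exp_add]
      ring_nf

theorem Small.one (hL : Tendsto L atTop atTop) : Small b L 1 := by
  intro ε hε
  filter_upwards [nS_one hb, L_nonneg hL] with n h1 h2
  rw [h1]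
  exact Real.one_le_exp (by positivity)

theorem Small.pow (hL : Tendsto L atTop atTop) {f : GG} (hf : Small b L f) (k : ℕ) :
    Small b L (f ^ k) := by
  induction k with
  | zero =>
    rw [pow_zero]
    exact Small.one hb hbi hL
  | succ k ih =>
    rw [pow_succ]
    exact Small.mul hb hbi ih hf

theorem Small.prod (hL : Tendsto L atTop atTop) {κ : Type} (A : Finset κ) (f : κ → GG)
    (hf : ∀ i ∈ A, Small b L (f i)) : Small b L (∏ i ∈ A, f i) := by
  classical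
  induction A using Finset.induction_on with
  | empty =>
    rw [Finset.prod_empty]
    exact Small.one hb hbi hL
  | insert a A ha ih =>
    rw [Finset.prod_insert ha]
    exact Small.mul hb hbi (hf a (Finset.mem_insert_self _ _))
      (ih fun i hi => hf i (Finset.mem_insert_of_mem hi))

/-- **The inequality for germs** of pairwise coprime integers. -/
theorem germ_cop [Fintype ι] [DecidableEq ι] (G : Gens b hL T)
    (p : ι → MvPolynomial (Fin m) (KK L hL)) (x : ι → ℕ → ℤ)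
    (hx0 : ∀ n i, x i n ≠ 0) (hsum : ∀ n, ∑ i, x i n = 0)
    (hsub : ∀ n, ∀ TT : Finset ι, TT.Nonempty → TT ≠ Finset.univ → ∑ i ∈ TT, x i n ≠ 0)
    (hcop : ∀ n, ∀ q : ℕ, q.Prime → ∀ i j, i ≠ j → (q : ℤ) ∣ x i n → ¬ (q : ℤ) ∣ x j n)
    (hcard : 2 ≤ Fintype.card ι) (M : GG) (hM : GSU b M)
    (hx : ∀ i, aeval T (p i) = M * gm fun n => (x i n : ℚ))
    (ρ' : MvPolynomial (Fin m) (KK L hL)) (ρ : ℕ → ℕ) (hρ0 : ∀ n, 0 < ρ n) (M' : GG)
    (hM' : GSU b M') (hρ : aeval T ρ' = M' * gm fun n => (ρ n : ℚ))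
    (hπ : ∀ π : MvPolynomial (Fin m) (KK L hL), Prime π → ∀ i, π ∣ p i → π ∣ ρ')
    (j0 : ι) {ε : ℝ} (hε : 0 < ε) :
    ∀ᶠ n in (UU : Filter ℕ), ∀ j, |(x j n : ℝ)| ≤
      Real.exp (ε * L n) * (ρ n : ℝ) ^ (Fintype.card ι - 2) := by
  classical
  have hM0 := nc_gsu_ne hb hM
  have hp : ∀ i, p i ≠ 0 := by
    intro i h0
    have h1 := hx i
    rw [h0, map_zero] at h1
    refine mul_ne_zero hM0 (gm_ne_zero.2 (Eventually.of_forall fun n => ?_)) h1.symm
    exact Int.cast_ne_zero.2 (hx0 n i)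
  -- the common factors
  choose D hD using fun q : ι × ι => exists_gcd p {q.1, q.2}
  have hD0 : ∀ q, D q ≠ 0 := fun q => gcd_ne hp ⟨q.1, by simp⟩ (hD q)
  have hDs : ∀ q : ι × ι, q.1 ≠ q.2 → Small b L (aeval T (D q)) := by
    intro q hq
    refine unit_small hb hbi G (κ := Fin 2) (fun i => p (![q.1, q.2] i))
      (fun i n => x (![q.1, q.2] i) n) (fun n r hr => ?_) M hM (fun i => hx _) (D q) (fun i => ?_)
    · by_contra hcon
      push Not at hcon
      exact hcop n r hr q.1 q.2 hq (hcon 0) (hcon 1)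
    · refine (hD q (D q)).1 dvd_rfl _ ?_
      refine Fin.cases ?_ (fun i => ?_) i
      · simp
      · simp
  obtain ⟨F, hF⟩ : ∃ F : Finset (ι × ι), F = Finset.univ.filter fun q => q.1 ≠ q.2 := ⟨_, rfl⟩
  obtain ⟨δ, hδ⟩ : ∃ δ, δ = ∏ q ∈ F, D q := ⟨_, rfl⟩
  have hδ0 : δ ≠ 0 := by
    rw [hδ]
    exact Finset.prod_ne_zero_iff.2 fun q _ => hD0 q
  have hδs : Small b L (aeval T δ) := by
    rw [hδ, map_prod]
    refine Small.prod hb hbi hL _ _ fun q hq => hDs q ?_
    rw [hF] at hq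
    exact (Finset.mem_filter.1 hq).2
  have hδd : ∀ π : MvPolynomial (Fin m) (KK L hL), ∀ i j, i ≠ j → π ∣ p i → π ∣ p j → π ∣ δ := by
    intro π i j hij h1 h2
    have h3 : π ∣ D (i, j) := (hD (i, j) π).2 fun τ hτ => by
      rw [Finset.mem_insert, Finset.mem_singleton] at hτ
      rcases hτ with rfl | rfl
      · exact h1
      · exact h2
    refine h3.trans ?_
    rw [hδ]
    exact Finset.dvd_prod_of_mem D (by rw [hF]; exact Finset.mem_filter.2 ⟨Finset.mem_univ _, hij⟩)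
  have hcop' : ∀ n, ∀ q : ℕ, q.Prime → ∃ i, ¬ (q : ℤ) ∣ x i n := by
    intro n q hq
    obtain ⟨i, j, hij⟩ : ∃ i j : ι, i ≠ j := by
      have : 1 < Fintype.card ι := by omega
      exact Fintype.exists_pair_of_one_lt_card this
    by_cases h : (q : ℤ) ∣ x i n
    · exact ⟨j, hcop n q hq i j hij h⟩
    · exact ⟨i, h⟩
  have h2 : Fintype.card ι - 1 - 1 = Fintype.card ι - 2 := by omega
  have hmain := germ_core hb hbi G p x hx0 hsum hsub hcop' M hM hx ρ' ρ hρ0 M' hM' hρ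
    (fun a => a - 1) (fun k => k - 1)
    (fun a k h => by omega) (fun a => δ ^ tri a) (fun a => pow_ne_zero _ hδ0)
    (fun a => by
      rw [map_pow]
      exact Small.pow hb hbi hL hδs _) ?_ j0 hε
  · rw [h2] at hmain
    exact hmain
  · intro TT hTT a c κ lam hc hcT hκ hv w GT GTI hGT hGTI
    refine step_dvd' (DW w) (fun i => p (c i)) (fun i => hp _) TT hTT p (fun τ _ => hp τ)
      (fun i => C (κ i)) (fun τ => C (lam τ)) (fun i => ?_) (fun i => ?_) hv GT GTI hGT hGTI ρ' δ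
      (a - 1) (by omega) (fun π hπ' i => hπ π hπ' _) (fun π hπ' τ _ => hπ π hπ' τ)
      (fun π _ i j hij h1 h2 => hδd π _ _ (fun h => hij (hc h)) h1 h2)
      (fun π _ i τ hτ h1 h2 => hδd π _ _ (fun h => hcT i (by rw [h]; exact hτ)) h1 h2)
    · exact (isUnit_iff_ne_zero.2 (hκ i)).map C
    · have h3 : (C (κ i) : MvPolynomial (Fin m) (KK L hL)) = monomial 0 (κ i) := rfl
      rw [h3, DW_monomial]
      simp

end

end Pool.Agent.H455.NT
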