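import Mathlib
import Pool.Agent.H455.NT5
import Pool.Agent.H455.VO1

set_option autoImplicit false

/-!
# From sequences of sums of almost units to polynomials in germs
-/

open Finset Filter Topology MvPolynomial

namespace Pool.Agent.H455.NT

open Pool.Agent.TH932.Germs Pool.Agent.TH551.SU Pool.Agent.TH551.HA Pool.Agent.TH551.ZP
open Pool.Agent.TH551.SU.SUI
open Pool.Agent.TH419.HX Pool.Agent.H455.RT Pool.Agent.H455.AB
open Pool.Agent.Results.MP_821da1_nt.LaurentDichotomy (UnitOf)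
open Pool.Agent.Y724.Vj (gsu_zpow gsu_prod gsu_inv abs_basis)

section basis
variable {s : ℕ} {b : Fin s → ℕ} {L : ℕ → ℝ} {hL : Tendsto L atTop atTop}

theorem Mod.inv (hb : ∀ v, (b v).Prime) {f : GG} (hf : f ≠ 0) (h : Mod b L f) :
    Mod b L f⁻¹ := by
  obtain ⟨K, hK⟩ := h
  have h1 : gm (fun n => (rep f n)⁻¹) = f⁻¹ := by rw [← gm_inv, gm_rep]
  refine ⟨K, ?_⟩
  rw [← h1]
  filter_upwards [hK, rep_gm (fun n => (rep f n)⁻¹), rep_ne_zero hf] with n h2 h3 h4 v
  rw [h3, av_inv hb]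
  obtain ⟨h5, h6⟩ := h2 v
  have h7 := av_pos hb v h4
  constructor
  · rw [Real.exp_neg]
    exact inv_anti₀ h7 h6
  · rw [inv_le_comm₀ h7 (Real.exp_pos _), ← Real.exp_neg]
    exact h5

theorem Mod.zpow (hb : ∀ v, (b v).Prime) (hL : Tendsto L atTop atTop) {f : GG} (hf : f ≠ 0)
    (h : Mod b L f) (k : ℤ) : Mod b L (f ^ k) := by
  obtain ⟨n, rfl | rfl⟩ := Int.eq_nat_or_neg k
  · rw [zpow_natCast]
    exact Mod.pow hb hL h n
  · rw [zpow_neg, zpow_natCast]
    exact Mod.inv hb (pow_ne_zero _ hf) (Mod.pow hb hL h n)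

/-- independent generators -/
theorem exists_basis (hb : ∀ v, (b v).Prime) (hbi : Function.Injective b)
    (hL : Tendsto L atTop atTop) {r : ℕ} (u : Fin r → GG)
    (hu : ∀ j, GSU b (u j)) (hB : ∀ j, Mod b L (u j)) :
    ∃ (m : ℕ) (T : Fin m → GG), Gens b hL T ∧
      ∀ j, ∃ (κ : KK L hL) (a : Fin m → ℤ), u j = (κ : GG) * ∏ k, T k ^ a k := by
  classical
  have hu0 : ∀ j, u j ≠ 0 := fun j => nc_gsu_ne hb (hu j)
  obtain ⟨m, c, hc1, hc2⟩ := abs_basis (KK L hL)
    (fun g n hn h => WT.root_mem hL g n hn h) u hu0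
  obtain ⟨T, hT⟩ : ∃ T : Fin m → GG, T = fun k => ∏ j, u j ^ c k j := ⟨_, rfl⟩
  have hTe : ∀ k, T k = ∏ j, u j ^ c k j := fun k => by rw [hT]
  have hTS : ∀ k, GSU b (T k) := fun k => by
    rw [hTe]
    exact gsu_prod hb _ _ fun j _ => gsu_zpow hb (hu j) _
  have hTM : ∀ k, Mod b L (T k) := fun k => by
    rw [hTe]
    exact Mod.prod hb hL _ _ fun j _ => Mod.zpow hb hL (hu0 j) (hB j) _
  refine ⟨m, T, ⟨hTS, hTM, ?_⟩, ?_⟩
  · -- algebraic independence
    intro p hp
    have hTne : ∀ k, T k ≠ 0 := fun k => nc_gsu_ne hb (hTS k)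
    have hdis : ∀ d d' : Fin m →₀ ℕ, (∏ k, T k ^ d k) / (∏ k, T k ^ d' k) ∈ KK L hL →
        d = d' := by
      intro d d' h
      have h1 : (∏ k, T k ^ d k) / (∏ k, T k ^ d' k) =
          ∏ k, (∏ j, u j ^ c k j) ^ ((d k : ℤ) - d' k) := by
        rw [← Finset.prod_div_distrib]
        refine Finset.prod_congr rfl fun k _ => ?_
        rw [← hTe, zpow_sub₀ (hTne k), zpow_natCast, zpow_natCast]
      rw [h1] at h
      have h2 := hc1 _ h
      ext k
      have h5 := congrFun h2 k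
      simp only [Pi.zero_apply] at h5
      omega
    have hgS : ∀ d : Fin m →₀ ℕ, GSU b (∏ k, T k ^ d k) := fun d =>
      gsu_prod hb _ _ fun k _ => CRV.GSU.pow hb (hTS k) _
    rw [aeval_def, eval₂_eq'] at hp
    ext d0
    rw [coeff_zero]
    by_cases hd0 : d0 ∈ p.support
    · have h1 := CS.cs SUI.sui s b hb hbi L hL (Fin m →₀ ℕ) p.support (fun d => coeff d p)
        (fun d => ∏ k, T k ^ d k) (fun d => if d = d0 then 1 else 0) (fun d _ => hgS d)
        (fun i _ j _ hij => by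
          have := hdis i j hij
          rw [this]) hp
      have h3 := congrArg (fun p => Polynomial.coeff p 1) h1
      simp only [Polynomial.finsetSum_coeff, Polynomial.coeff_zero,
        Polynomial.coeff_C_mul_X_pow] at h3
      rw [Finset.sum_eq_single d0 (fun d _ hd => by rw [if_neg hd, if_neg one_ne_zero])
        (fun h => absurd hd0 h), if_pos rfl, if_pos rfl] at h3
      have h4 := (mul_eq_zero.1 h3).resolve_right (nc_gsu_ne hb (hgS d0))
      rw [h4]
      rfl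
    · rw [notMem_support_iff.1 hd0]
  · intro j
    obtain ⟨κ, a, h⟩ := hc2 j
    refine ⟨κ, a, ?_⟩
    rw [h]
    congr 1
    exact Finset.prod_congr rfl fun k _ => by rw [hTe]

/-- polynomials for finitely many germs -/
theorem exists_poly (hb : ∀ v, (b v).Prime) (hbi : Function.Injective b)
    (hL : Tendsto L atTop atTop) {κ : Type} [Fintype κ] (g : κ → GG)
    (hg : ∀ i, ∃ (r : ℕ) (u : Fin r → GG) (c : Fin r → KK L hL), (∀ j, GSU b (u j)) ∧
      (∀ j, Mod b L (u j)) ∧ ∑ j, (c j : GG) * u j = g i) :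
    ∃ (m : ℕ) (T : Fin m → GG) (MM : MvPolynomial (Fin m) (KK L hL))
      (P : κ → MvPolynomial (Fin m) (KK L hL)), Gens b hL T ∧ GSU b (aeval T MM) ∧
      ∀ i, aeval T (P i) = aeval T MM * g i := by
  classical
  choose r u c hu1 hu2 hu3 using hg
  let I : Type := Σ i, Fin (r i)
  let e : I ≃ Fin (Fintype.card I) := Fintype.equivFin I
  obtain ⟨f, hf⟩ : ∃ f : I → GG, f = fun q => u q.1 q.2 := ⟨_, rfl⟩
  obtain ⟨m, T, G, hT⟩ := exists_basis hb hbi hL (fun j => f (e.symm j))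
    (fun j => by rw [hf]; exact hu1 _ _) (fun j => by rw [hf]; exact hu2 _ _)
  choose κ' a ha using hT
  have ha' : ∀ i (j : Fin (r i)), u i j = (κ' (e ⟨i, j⟩) : GG) * ∏ k, T k ^ a (e ⟨i, j⟩) k := by
    intro i j
    have h1 := ha (e ⟨i, j⟩)
    rw [Equiv.symm_apply_apply, hf] at h1
    exact h1
  obtain ⟨N, hN⟩ : ∃ N : ℕ, ∀ j k, 0 ≤ a j k + N := by
    refine ⟨∑ j, ∑ k, (a j k).natAbs, fun j k => ?_⟩
    have h1 := Finset.single_le_sum (f := fun j => ∑ k, (a j k).natAbs)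
      (fun _ _ => Nat.zero_le _) (Finset.mem_univ j)
    have h2 := Finset.single_le_sum (f := fun k => (a j k).natAbs) (fun _ _ => Nat.zero_le _)
      (Finset.mem_univ k)
    beta_reduce at h1 h2
    omega
  have hTne : ∀ k, T k ≠ 0 := fun k => nc_gsu_ne hb (G.gsu k)
  have hmon : ∀ (α : Fin m → ℕ) (c : KK L hL),
      (aeval T (monomial (Finsupp.equivFunOnFinite.symm α) c) : GG) =
        (c : GG) * ∏ k, T k ^ α k := by
    intro α c
    rw [aeval_monomial, Finsupp.prod_fintype _ _ (fun i => by simp)]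
    rfl
  refine ⟨m, T, monomial (Finsupp.equivFunOnFinite.symm fun _ => N) 1, fun i =>
    ∑ j, monomial (Finsupp.equivFunOnFinite.symm fun k => (a (e ⟨i, j⟩) k + N).toNat)
      (c i j * κ' (e ⟨i, j⟩)), G, ?_, fun i => ?_⟩
  · rw [hmon, OneMemClass.coe_one, one_mul]
    exact gsu_prod hb _ _ fun k _ => CRV.GSU.pow hb (G.gsu k) _
  · rw [map_sum, hmon, OneMemClass.coe_one, one_mul, ← hu3, Finset.mul_sum]
    refine Finset.sum_congr rfl fun j _ => ?_
    rw [hmon, ha', MulMemClass.coe_mul]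
    have h1 : ∏ k, T k ^ (a (e ⟨i, j⟩) k + N).toNat =
        (∏ k, T k ^ N) * ∏ k, T k ^ a (e ⟨i, j⟩) k := by
      rw [← Finset.prod_mul_distrib]
      refine Finset.prod_congr rfl fun k _ => ?_
      rw [← zpow_natCast, Int.toNat_of_nonneg (hN _ _), zpow_add₀ (hTne k), zpow_natCast, mul_comm]
    rw [h1]
    ring

end basis

section sseq
variable {S : Finset ℕ} {L : ℕ → ℝ}

/-- an enumeration of `S` -/
noncomputable def bS (S : Finset ℕ) : Fin S.card → ℕ := fun i => (S.equivFin.symm i : ℕ)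

theorem bS_prime (hS : ∀ p ∈ S, p.Prime) (v : Fin S.card) : (bS S v).Prime :=
  hS _ (S.equivFin.symm v).2

theorem bS_inj : Function.Injective (bS S) := fun _ _ hij =>
  S.equivFin.symm.injective (Subtype.ext hij)

theorem isSU_of {u : ℚ} (h : UnitOf S u) : IsSU (bS S) u := by
  obtain ⟨e, he⟩ := h
  have h1 : ∏ v, (bS S v : ℚ) ^ (e (bS S v)) = ∏ p ∈ S, (p : ℚ) ^ e p := by
    unfold bS
    rw [Equiv.prod_comp S.equivFin.symm (fun x : ↥S => ((x : ℕ) : ℚ) ^ e (x : ℕ)),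
      Finset.prod_coe_sort S (fun p => (p : ℚ) ^ e p)]
  rcases abs_choice u with h2 | h2
  · refine ⟨1, fun v => e (bS S v), Or.inl rfl, ?_⟩
    rw [h1, ← he, h2, Int.cast_one, one_mul]
  · refine ⟨-1, fun v => e (bS S v), Or.inr rfl, ?_⟩
    rw [h1, ← he, h2]
    push_cast
    ring

theorem slow_mem (hL : Tendsto L atTop atTop) {c : ℕ → ℚ} (h : SlowQ L c) :
    gm c ∈ KK L hL := by
  obtain ⟨N, D, h1, h2, h3⟩ := h
  refine ⟨N, D, fun ε hε => ev_of_atTop (h1 ε hε), fun ε hε => ev_of_atTop (h2 ε hε),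
    Eventually.of_forall fun t => (h3 t).1, ?_⟩
  congr 1
  funext t
  exact (h3 t).2

/-- the germ of a sequence of sums of almost units -/
theorem relQ_mod (hS : ∀ p ∈ S, p.Prime) (hL : Tendsto L atTop atTop) {y : ℕ → ℚ}
    (h : RelQ S L y) (K : ℝ) (hK : ∀ t v, av (bS S) v (y t) ≤ Real.exp (K * L t)) :
    ∃ (r : ℕ) (u : Fin r → GG) (c : Fin r → KK L hL), (∀ j, GSU (bS S) (u j)) ∧
      (∀ j, Mod (bS S) L (u j)) ∧ ∑ j, (c j : GG) * u j = gm y := by
  obtain ⟨N, v, c, h1, h2, h3⟩ := h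
  have hsum : ∑ j, ((⟨gm fun t => c t j, slow_mem hL (h2 j)⟩ : KK L hL) : GG) *
      gm (fun t => v t j) = gm y := by
    have h4 : ∀ j, ((⟨gm fun t => c t j, slow_mem hL (h2 j)⟩ : KK L hL) : GG) *
        gm (fun t => v t j) = gm (fun t => c t j * v t j) := fun j => gm_mul _ _
    rw [Finset.sum_congr rfl fun j _ => h4 j, gsum]
    congr 1
    funext t
    exact (h3 t).symm
  obtain ⟨m', u', c', h4, h5, h6⟩ := hbF S.card (bS S) (bS_prime hS) bS_inj L hL N
    (fun j => gm fun t => v t j) (fun j => ⟨_, rfl, fun t => isSU_of (h1 t j)⟩)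
    (fun j => ⟨gm fun t => c t j, slow_mem hL (h2 j)⟩) K (by
      rw [hsum]
      filter_upwards [rep_gm y] with n hn w
      rw [hn]
      exact hK n w)
  exact ⟨m', u', c', h4, h5, h6.trans hsum⟩

theorem av_int_le_one' (hS : ∀ p ∈ S, p.Prime) (v : Fin S.card) (z : ℤ) :
    av (bS S) (some v) (z : ℚ) ≤ 1 := by
  have := Fact.mk (bS_prime hS v)
  have h3 : padicNorm (bS S v) (z : ℚ) ≤ 1 := padicNorm.of_int _
  simp only [av]
  exact_mod_cast h3

/-- the inverse of the size of an integer -/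
theorem av_inv_le (hS : ∀ p ∈ S, p.Prime) (v : Fin S.card) (z : ℤ) (hz : z ≠ 0) :
    (av (bS S) (some v) (z : ℚ))⁻¹ ≤ |(z : ℝ)| := by
  classical
  have h8 := one_le_prod_int (bS_prime hS) bS_inj z hz
  rw [Fintype.prod_option] at h8
  have h9 : ∏ v : Fin S.card, av (bS S) (some v) (z : ℚ) ≤ av (bS S) (some v) (z : ℚ) := by
    rw [← Finset.mul_prod_erase _ _ (Finset.mem_univ v)]
    refine mul_le_of_le_one_right (av_nonneg (bS_prime hS) _ _) ?_
    exact Finset.prod_le_one (fun v _ => av_nonneg (bS_prime hS) _ _)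
      fun v _ => av_int_le_one' hS v z
  have h10 : av (bS S) none (z : ℚ) = |(z : ℝ)| := by
    simp only [av]
    push_cast
    rfl
  rw [h10] at h8
  have h11 : 0 < av (bS S) (some v) (z : ℚ) := av_pos (bS_prime hS) _ (by exact_mod_cast hz)
  rw [inv_le_iff_one_le_mul₀ h11]
  exact h8.trans (mul_le_mul_of_nonneg_left h9 (abs_nonneg _))

/-- **Polynomials for the integers, the radical and the cofactors.** -/
theorem seq_data {ι : Type} [Fintype ι] (hS : ∀ p ∈ S, p.Prime) (hL : Tendsto L atTop atTop)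
    (hLnn : ∀ t, 0 ≤ L t) (x : ι → ℕ → ℤ) (ρ : ℕ → ℕ) (y : ι → ℕ → ℚ) (m' : ℕ)
    (hx0 : ∀ i t, x i t ≠ 0) (hrel : ∀ i t, (ρ t : ℚ) ^ m' = x i t * y i t)
    (Rx : ∀ i, RelQ S L fun t => (x i t : ℚ)) (Ry : ∀ i, RelQ S L (y i))
    (Rρ : RelQ S L fun t => (ρ t : ℚ)) (C : ℝ) (hC : 0 ≤ C)
    (hxC : ∀ i t, |(x i t : ℝ)| ≤ Real.exp (C * L t)) (hρC : ∀ t, (ρ t : ℝ) ≤ Real.exp (C * L t)) :
    ∃ (m : ℕ) (T : Fin m → GG) (p : ι → MvPolynomial (Fin m) (KK L hL))
      (ρ' : MvPolynomial (Fin m) (KK L hL)) (M M' : GG), Gens (bS S) hL T ∧ GSU (bS S) M ∧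
      GSU (bS S) M' ∧ (∀ i, aeval T (p i) = M * gm fun n => (x i n : ℚ)) ∧
      (aeval T ρ' = M' * gm fun n => (ρ n : ℚ)) ∧
      ∀ π : MvPolynomial (Fin m) (KK L hL), Prime π → ∀ i, π ∣ p i → π ∣ ρ' := by
  classical
  have hb := bS_prime hS
  have hbn : ∀ z : ℤ, av (bS S) none (z : ℚ) = |(z : ℝ)| := fun z => by
    simp only [av]
    push_cast
    rfl
  have hC1 : ∀ t, 1 ≤ Real.exp (C * L t) := fun t =>
    Real.one_le_exp (mul_nonneg hC (hLnn t))
  obtain ⟨C2, hC2⟩ : ∃ C2 : ℝ, C2 = ((m' : ℝ) + 1) * C := ⟨_, rfl⟩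
  have hexp2 : ∀ t, Real.exp (C2 * L t) = Real.exp (C * L t) ^ m' * Real.exp (C * L t) := by
    intro t
    rw [hC2, ← Real.exp_nat_mul, ← Real.exp_add]
    congr 1
    ring
  have hle2 : ∀ t, Real.exp (C * L t) ≤ Real.exp (C2 * L t) := fun t => by
    rw [hexp2]
    exact le_mul_of_one_le_left (Real.exp_pos _).le (one_le_pow₀ (hC1 t))
  obtain ⟨m, T, MM, P, G, hMM, hP⟩ := exists_poly hb bS_inj hL
    (κ := ι ⊕ (ι ⊕ Unit)) (Sum.elim (fun i => gm fun t => (x i t : ℚ))
      (Sum.elim (fun i => gm (y i)) fun _ => gm fun t => (ρ t : ℚ))) (fun i => by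
      rcases i with i | i | i
      · refine relQ_mod hS hL (Rx i) C2 fun t v => ?_
        refine le_trans ?_ (hle2 t)
        rcases v with _ | v
        · rw [hbn]
          exact hxC i t
        · exact (av_int_le_one' hS v _).trans (hC1 t)
      · refine relQ_mod hS hL (Ry i) C2 fun t v => ?_
        have h0 : (x i t : ℚ) ≠ 0 := by exact_mod_cast hx0 i t
        have h1 : av (bS S) v (x i t : ℚ) * av (bS S) v (y i t) =
            av (bS S) v (ρ t : ℚ) ^ m' := by
          rw [← av_mul hb, ← hrel, av_pow hb]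
        have h2 : av (bS S) v (y i t) = av (bS S) v (ρ t : ℚ) ^ m' *
            (av (bS S) v (x i t : ℚ))⁻¹ := by
          rw [← h1]
          field_simp [(av_pos hb v h0).ne']
        rw [h2, hexp2]
        have h3 : av (bS S) v (ρ t : ℚ) ≤ Real.exp (C * L t) := by
          have h4 : ((ρ t : ℕ) : ℚ) = (((ρ t : ℕ) : ℤ) : ℚ) := by push_cast; rfl
          rw [h4]
          rcases v with _ | v
          · rw [hbn]
            push_cast
            rw [Nat.abs_cast]
            exact hρC t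
          · exact (av_int_le_one' hS v _).trans (hC1 t)
        have h4 : (av (bS S) v (x i t : ℚ))⁻¹ ≤ Real.exp (C * L t) := by
          rcases v with _ | v
          · rw [hbn]
            refine (inv_le_one_of_one_le₀ ?_).trans (hC1 t)
            exact_mod_cast Int.one_le_abs (hx0 i t)
          · exact (av_inv_le hS v _ (hx0 i t)).trans (hxC i t)
        exact mul_le_mul (pow_le_pow_left₀ (av_nonneg hb _ _) h3 _) h4
          (inv_nonneg.2 (av_nonneg hb _ _)) (pow_nonneg (Real.exp_pos _).le _)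
      · refine relQ_mod hS hL Rρ C2 fun t v => ?_
        refine le_trans ?_ (hle2 t)
        have h4 : ((ρ t : ℕ) : ℚ) = (((ρ t : ℕ) : ℤ) : ℚ) := by push_cast; rfl
        rw [h4]
        rcases v with _ | v
        · rw [hbn]
          push_cast
          rw [Nat.abs_cast]
          exact hρC t
        · exact (av_int_le_one' hS v _).trans (hC1 t))
  have hPx : ∀ i, aeval T (P (Sum.inl i)) = aeval T MM * gm fun t => (x i t : ℚ) :=
    fun i => hP (Sum.inl i)
  have hPy : ∀ i, aeval T (P (Sum.inr (Sum.inl i))) = aeval T MM * gm (y i) :=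
    fun i => hP (Sum.inr (Sum.inl i))
  have hPρ : aeval T (P (Sum.inr (Sum.inr ()))) = aeval T MM * gm fun t => (ρ t : ℚ) :=
    hP (Sum.inr (Sum.inr ()))
  refine ⟨m, T, fun i => P (Sum.inl i), P (Sum.inr (Sum.inr ())) * MM, aeval T MM,
    aeval T MM * aeval T MM, G, hMM, CRV.GSU.mul hb hMM hMM, hPx, ?_, fun π hπ i hi => ?_⟩
  · rw [map_mul, hPρ]
    ring
  · have h1 : P (Sum.inr (Sum.inr ())) ^ m' * MM ^ 2 =
        P (Sum.inl i) * (P (Sum.inr (Sum.inl i)) * MM ^ m') := by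
      apply G.inj
      rw [map_mul, map_pow, hPρ, map_pow, map_mul, map_mul, hPx, hPy, map_pow, mul_pow]
      have h2 : (gm fun t => (ρ t : ℚ)) ^ m' = (gm fun t => (x i t : ℚ)) * gm (y i) := by
        rw [gm_pow, gm_mul]
        congr 1
        funext t
        exact hrel i t
      rw [h2]
      ring
    have h2 : π ∣ P (Sum.inr (Sum.inr ())) ^ m' * MM ^ 2 := by
      rw [h1]
      exact hi.mul_right _
    rcases hπ.dvd_or_dvd h2 with h3 | h3
    · exact (hπ.dvd_of_dvd_pow h3).mul_right _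
    · exact (hπ.dvd_of_dvd_pow h3).mul_left _

end sseq

end Pool.Agent.H455.NT
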