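import Mathlib
import Pool.Agent.H455.NT6
import Pool.Agent.H455.AD2

set_option autoImplicit false

/-!
# The n-term inequality for compressible integers
-/

open Finset Filter Topology MvPolynomial

namespace Pool.Agent.H455.NT

open Pool.Agent.TH419.WI Pool.Agent.TH419.HX Pool.Agent.H455.VC Pool.Agent.H455.RT
open Pool.Agent.H455.CB Pool.Agent.H455.AB Pool.Agent.H455.SZ
open Pool.Agent.H455.VO Pool.Agent.H455.TR Pool.Agent.H455.AD
open Pool.Agent.R343.LT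
open Pool.Agent.TH932.Germs (UU GG gm KK)
open Pool.Agent.Results.MP_821da1_nt.LaurentDichotomy (UnitOf)

variable {S : Finset ℕ} {N : ℕ}

/-- a point -/
structure NPt (S : Finset ℕ) (N m : ℕ) (alt : Prop) (Q : (Fin (N + 1) → ℤ) → Prop) where
  x : Fin (N + 1) → ℤ
  Z : ℤ
  M : ℝ
  hx : ∀ i, x i ≠ 0
  hsum : ∑ i, x i = 0
  hQ : Q x
  hm : ∀ p : ℕ, p.Prime → p ∉ S → ∀ i, (x i).natAbs.factorization p ≤ m
  hZ : (alt ∧ Z = rd S (∏ i, x i).natAbs) ∨
    (¬ alt ∧ Z * rd S (∏ i, x i).natAbs = prt S (∏ i, x i).natAbs)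
  hM : 1 ≤ M

variable {m : ℕ} {alt : Prop} {Q : (Fin (N + 1) → ℤ) → Prop}

/-- the maximum -/
def NPt.Y (P : NPt S N m alt Q) : ℕ := Finset.univ.sup fun i => (P.x i).natAbs

/-- its logarithm -/
noncomputable def NPt.H (P : NPt S N m alt Q) : ℝ := Real.log P.Y

/-- the radical -/
def NPt.ρ (P : NPt S N m alt Q) : ℕ := rd S (∏ i, P.x i).natAbs

/-- the compressible numbers -/
def NPt.z (P : NPt S N m alt Q) : Fin (N + 1) ⊕ Unit → ℤ := Sum.elim P.x fun _ => P.Z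

theorem NPt.x_le (P : NPt S N m alt Q) (i : Fin (N + 1)) : (P.x i).natAbs ≤ P.Y :=
  Finset.le_sup (f := fun i => (P.x i).natAbs) (Finset.mem_univ i)

theorem NPt.exists_Y (P : NPt S N m alt Q) : ∃ i, (P.x i).natAbs = P.Y := by
  obtain ⟨i, -, hi⟩ := Finset.exists_mem_eq_sup (Finset.univ : Finset (Fin (N + 1)))
    ⟨0, Finset.mem_univ 0⟩ fun i => (P.x i).natAbs
  exact ⟨i, hi.symm⟩

theorem NPt.one_le_Y (P : NPt S N m alt Q) : 1 ≤ P.Y :=
  (Int.natAbs_pos.2 (P.hx _)).trans_le (P.x_le 0)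

theorem NPt.H_nonneg (P : NPt S N m alt Q) : 0 ≤ P.H := Real.log_natCast_nonneg _

theorem NPt.prod_ne (P : NPt S N m alt Q) : (∏ i, P.x i).natAbs ≠ 0 :=
  Int.natAbs_ne_zero.2 (Finset.prod_ne_zero_iff.2 fun i _ => P.hx i)

theorem NPt.prod_le (P : NPt S N m alt Q) : (∏ i, P.x i).natAbs ≤ P.Y ^ (N + 1) := by
  have h2 : (∏ i, P.x i).natAbs = ∏ i, (P.x i).natAbs := by
    rw [← Int.natAbsHom_apply, map_prod]
    rfl
  rw [h2]
  refine (Finset.prod_le_prod' fun i _ => P.x_le i).trans ?_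
  rw [Finset.prod_const, Finset.card_univ, Fintype.card_fin]

theorem NPt.Z_ne (P : NPt S N m alt Q) : P.Z ≠ 0 := by
  intro h0
  rcases P.hZ with ⟨-, h1⟩ | ⟨-, h1⟩
  · rw [h0] at h1
    have := rd_pos (S := S) (∏ i, P.x i).natAbs
    omega
  · rw [h0, zero_mul] at h1
    have := prt_pos (S := S) (∏ i, P.x i).natAbs
    omega

theorem NPt.Z_le (P : NPt S N m alt Q) : P.Z.natAbs ≤ (∏ i, P.x i).natAbs := by
  have h3 : prt S (∏ i, P.x i).natAbs ≤ (∏ i, P.x i).natAbs := prt_le P.prod_ne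
  have h4 : rd S (∏ i, P.x i).natAbs ≤ prt S (∏ i, P.x i).natAbs :=
    Nat.le_of_dvd (prt_pos _) (rd_dvd_prt _)
  rcases P.hZ with ⟨-, h1⟩ | ⟨-, h1⟩
  · rw [h1, Int.natAbs_natCast]
    exact h4.trans h3
  · have h2 := congrArg Int.natAbs h1
    rw [Int.natAbs_mul, Int.natAbs_natCast, Int.natAbs_natCast] at h2
    calc P.Z.natAbs ≤ P.Z.natAbs * rd S (∏ i, P.x i).natAbs :=
          Nat.le_mul_of_pos_right _ (rd_pos _)
      _ = prt S (∏ i, P.x i).natAbs := h2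
      _ ≤ _ := h3

theorem NPt.log_bound (P : NPt S N m alt Q) {n : ℕ} (hn : n ≤ P.Y ^ (N + 1)) :
    Real.log (max 1 (n : ℝ)) ≤ (N + 1) * P.H := by
  have hY1 : (1 : ℝ) ≤ P.Y := by exact_mod_cast P.one_le_Y
  have h1 : max 1 (n : ℝ) ≤ (P.Y : ℝ) ^ (N + 1) :=
    max_le (one_le_pow₀ hY1) (by exact_mod_cast hn)
  have h2 := Real.log_le_log (by positivity) h1
  rw [Real.log_pow] at h2
  refine h2.trans (le_of_eq ?_)
  push_cast
  rfl

theorem NPt.x_le' (P : NPt S N m alt Q) (i : Fin (N + 1)) : (P.x i).natAbs ≤ P.Y ^ (N + 1) :=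
  (P.x_le i).trans (Nat.le_self_pow (by omega) _)

theorem NPt.z_bound (P : NPt S N m alt Q) (i : Fin (N + 1) ⊕ Unit) :
    Real.log (max 1 |(P.z i : ℝ)|) ≤ (N + 1) * P.H := by
  have h4 : |(P.z i : ℝ)| = (((P.z i).natAbs : ℕ) : ℝ) := by
    rw [Nat.cast_natAbs, Int.cast_abs]
  rw [h4]
  refine P.log_bound ?_
  rcases i with i | i
  · exact P.x_le' i
  · exact P.Z_le.trans P.prod_le

/-- **Preparation of a sequence.** -/
theorem prep (hS : ∀ p ∈ S, p.Prime) (b : Fin (N + 1) ⊕ Unit → ℕ) (hb : ∀ i, 2 ≤ b i)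
    (hbS : ∀ i, (b i).primeFactors ⊆ S) (P : ℕ → NPt S N m alt Q)
    (hHt : Tendsto (fun t => (P t).H) atTop atTop)
    (hsp : ∀ i, Spr (b i) (fun t => (P t).H) fun t => (P t).z i) :
    ∃ ψ : ℕ → ℕ, StrictMono ψ ∧ ∃ (y : Fin (N + 1) → ℕ → ℚ) (C : ℝ), 0 ≤ C ∧
      (∀ i t, ((P (ψ t)).ρ : ℚ) ^ m = (P (ψ t)).x i * y i t) ∧
      (∀ i, RelQ S ((fun t => (P t).H) ∘ ψ) fun t => ((P (ψ t)).x i : ℚ)) ∧
      (∀ i, RelQ S ((fun t => (P t).H) ∘ ψ) (y i)) ∧
      RelQ S ((fun t => (P t).H) ∘ ψ) (fun t => ((P (ψ t)).ρ : ℚ)) ∧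
      (∀ i t, |((P (ψ t)).x i : ℝ)| ≤ Real.exp (C * ((fun t => (P t).H) ∘ ψ) t)) ∧
      ∀ t, ((P (ψ t)).ρ : ℝ) ≤ Real.exp (C * ((fun t => (P t).H) ∘ ψ) t) := by
  classical
  obtain ⟨C, hC⟩ : ∃ C : ℝ, C = (N : ℝ) + 1 := ⟨_, rfl⟩
  have hC0 : 0 ≤ C := by rw [hC]; positivity
  have hexp : ∀ t (n : ℕ), n ≤ (P t).Y ^ (N + 1) → (n : ℝ) ≤ Real.exp (C * (P t).H) :=
    fun t n hn => by
      have h1 := (P t).log_bound hn
      have h2 : (0 : ℝ) < max 1 (n : ℝ) := lt_max_of_lt_left one_pos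
      rw [hC]
      calc (n : ℝ) ≤ max 1 (n : ℝ) := le_max_right _ _
        _ = Real.exp (Real.log (max 1 (n : ℝ))) := (Real.exp_log h2).symm
        _ ≤ _ := Real.exp_le_exp.2 h1
  have habs : ∀ z : ℤ, |(z : ℝ)| = ((z.natAbs : ℕ) : ℝ) := fun z => by
    rw [Nat.cast_natAbs, Int.cast_abs]
  -- dominant terms
  obtain ⟨ψ, hψ, hld⟩ := ld_ft (S := S) (L := fun t => (P t).H) hHt (fun t => (P t).H_nonneg) b
    hb hbS (fun i t => (P t).z i) hsp C hC0 (fun i t => by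
      rw [habs]
      apply hexp
      rcases i with i | i
      · exact (P t).x_le' i
      · exact (P t).Z_le.trans (P t).prod_le)
  have hψt := hψ.tendsto_atTop
  obtain ⟨L, hL⟩ : ∃ L : ℕ → ℝ, L = (fun t => (P t).H) ∘ ψ := ⟨_, rfl⟩
  rw [← hL] at hld
  have hLt : Tendsto L atTop atTop := by rw [hL]; exact hHt.comp hψt
  have hLnn : ∀ t, 0 ≤ L t := fun t => by rw [hL]; exact (P _).H_nonneg
  have hLe : ∀ t, L t = (P (ψ t)).H := fun t => by rw [hL]; rfl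
  have Lx : ∀ i, Ld S L fun t => ((P (ψ t)).x i : ℚ) := fun i => hld (Sum.inl i)
  have LZ : Ld S L fun t => ((P (ψ t)).Z : ℚ) := hld (Sum.inr ())
  have hle : ∀ t (n : ℕ), n ≤ (P (ψ t)).Y ^ (N + 1) → (n : ℝ) ≤ Real.exp (C * L t) :=
    fun t n hn => by
      rw [hLe]
      exact hexp _ n hn
  have Lprod : Ld S L fun t => ((∏ i, (P (ψ t)).x i).natAbs : ℚ) := by
    refine Ld.natAbs hLt hLnn (x := fun t => ∏ i, (P (ψ t)).x i) ?_
    refine (Ld.prod hLt hLnn Finset.univ Lx).congr fun t => ?_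
    push_cast
    rfl
  have Lρ : Ld S L fun t => ((P (ψ t)).ρ : ℚ) := by
    have h0 : ∀ t, alt ∧ (P t).Z = (P t).ρ ∨
        ¬ alt ∧ (P t).Z * (P t).ρ = prt S (∏ i, (P t).x i).natAbs := fun t => (P t).hZ
    by_cases ha : alt
    · refine LZ.congr fun t => ?_
      rcases h0 (ψ t) with ⟨-, h1⟩ | ⟨h1, -⟩
      · rw [h1, Int.cast_natCast]
      · exact absurd ha h1
    · have h3 : Ld S L fun t => (prt S (∏ i, (P (ψ t)).x i).natAbs : ℚ) := by
        refine (Lprod.div hLt hLnn (Ld.smooth hLt hLnn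
          (w := fun t => spt S (∏ i, (P (ψ t)).x i).natAbs) (fun t => spt_smooth _) hC0
          fun t => hle t _ ((spt_le (P _).prod_ne).trans (P _).prod_le))).congr fun t => ?_
        have h2 := spt_mul_prt (S := S) (P (ψ t)).prod_ne
        have h3 : ((spt S (∏ i, (P (ψ t)).x i).natAbs : ℕ) : ℚ) ≠ 0 :=
          Nat.cast_ne_zero.2 (spt_pos _).ne'
        rw [eq_div_iff h3, mul_comm]
        exact_mod_cast h2.symm
      refine (h3.div hLt hLnn LZ).congr fun t => ?_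
      have h4 : ((P (ψ t)).Z : ℚ) ≠ 0 := by exact_mod_cast (P (ψ t)).Z_ne
      rw [eq_div_iff h4, mul_comm]
      rcases h0 (ψ t) with ⟨h1, -⟩ | ⟨-, h1⟩
      · exact absurd h1 ha
      · exact_mod_cast h1
  have hρle : ∀ t, (P t).ρ ≤ (P t).Y ^ (N + 1) := fun t =>
    ((Nat.le_of_dvd (prt_pos _) (rd_dvd_prt _)).trans (prt_le (P t).prod_ne)).trans (P t).prod_le
  -- cofactors
  choose y u Ly hu hyu using fun i => cofactor hS hLt hLnn m (fun t => (P (ψ t)).x i)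
    (fun t => (P (ψ t)).ρ) (fun t => spt S (∏ i, (P (ψ t)).x i).natAbs)
    (fun t => (P (ψ t)).hx i) (fun t => spt_smooth _) (fun t => by
      refine dvd_rd (P _).prod_ne ?_ fun p hp hpS => (P _).hm p hp hpS i
      exact Int.natAbs_dvd_natAbs.2 (Finset.dvd_prod_of_mem _ (Finset.mem_univ i))) C hC0
    (fun t => by
      rw [habs]
      exact hle t _ ((P _).x_le' i)) (Lx i) Lρ
  -- relations
  obtain ⟨χ, hχ, hrel⟩ := rel_ft (ι := Fin (N + 1) ⊕ (Fin (N + 1) ⊕ Unit)) hS hLt hLnn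
    (Sum.elim (fun i t => (P (ψ t)).x i) (Sum.elim y fun _ t => ((P (ψ t)).ρ : ℤ))) (fun i => by
      rcases i with i | i | i
      · exact Lx i
      · exact Ly i
      · show Ld S L fun t => ((((P (ψ t)).ρ : ℕ) : ℤ) : ℚ)
        refine Lρ.congr fun t => ?_
        rw [Int.cast_natCast])
  have hLχ : L ∘ χ = (fun t => (P t).H) ∘ (ψ ∘ χ) := by
    rw [hL]
    rfl
  rw [hLχ] at hrel
  have hχt := hχ.tendsto_atTop
  refine ⟨ψ ∘ χ, hψ.comp hχ, fun i t => (y i (χ t) : ℚ) * u i (χ t), C, hC0,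
    fun i t => hyu i (χ t), fun i => hrel (Sum.inl i), fun i => ?_, ?_, fun i t => ?_,
    fun t => ?_⟩
  · have h1 : RelQ S ((fun t => (P t).H) ∘ (ψ ∘ χ)) fun t => (y i (χ t) : ℚ) :=
      hrel (Sum.inr (Sum.inl i))
    exact h1.mul hS (RelQ.unit (hHt.comp (hψ.comp hχ).tendsto_atTop) fun t => hu i _)
  · have h1 : RelQ S ((fun t => (P t).H) ∘ (ψ ∘ χ)) fun t => ((((P (ψ (χ t))).ρ : ℕ) : ℤ) : ℚ) :=
      hrel (Sum.inr (Sum.inr ()))
    refine h1.congr fun t => ?_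
    rw [Int.cast_natCast]
    rfl
  · rw [habs]
    exact hexp _ _ ((P _).x_le' i)
  · exact hexp _ _ (hρle _)

/-- greatest common divisor one, no vanishing subsums -/
def QG (N : ℕ) (x : Fin (N + 1) → ℤ) : Prop :=
  (∀ q : ℕ, q.Prime → ∃ i, ¬ (q : ℤ) ∣ x i) ∧
    ∀ TT : Finset (Fin (N + 1)), TT.Nonempty → TT ≠ Finset.univ → ∑ i ∈ TT, x i ≠ 0

/-- pairwise coprime -/
def QC (N : ℕ) (x : Fin (N + 1) → ℤ) : Prop :=
  ∀ q : ℕ, q.Prime → ∀ i j, i ≠ j → (q : ℤ) ∣ x i → ¬ (q : ℤ) ∣ x j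

theorem final {L : ℕ → ℝ} {E : ℕ} (hE : 1 ≤ E) {ε : ℝ} (hε : 0 < ε) {ρ : ℕ → ℕ} {n : ℕ}
    (hρ : 0 < ρ n) (h : Real.exp (L n) ≤ Real.exp (ε / (E + ε) * L n) * (ρ n : ℝ) ^ E) :
    L n ≤ (E + ε) * Real.log (ρ n) := by
  have hE' : (1 : ℝ) ≤ E := by exact_mod_cast hE
  have hρ' : (0 : ℝ) < ρ n := by exact_mod_cast hρ
  have h1 := Real.log_le_log (Real.exp_pos _) h
  rw [Real.log_exp, Real.log_mul (Real.exp_pos _).ne' (pow_pos hρ' _).ne', Real.log_exp,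
    Real.log_pow] at h1
  have h2 : (E + ε : ℝ) ≠ 0 := by positivity
  have h3 : (1 - ε / (E + ε)) * L n = E / (E + ε) * L n := by
    field_simp
    ring
  have h4 : E / (E + ε) * L n ≤ E * Real.log (ρ n) := by
    rw [← h3]
    linarith
  have h5 : (E : ℝ) * L n ≤ E * ((E + ε) * Real.log (ρ n)) := by
    have h6 := mul_le_mul_of_nonneg_left h4 (by positivity : (0 : ℝ) ≤ E + ε)
    calc (E : ℝ) * L n = (E + ε) * (E / (E + ε) * L n) := by field_simp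
      _ ≤ (E + ε) * (E * Real.log (ρ n)) := h6
      _ = _ := by ring
  exact le_of_mul_le_mul_left h5 (by linarith)

/-- **There are no bad sequences**, first case. -/
theorem seq_gcd (hS : ∀ p ∈ S, p.Prime) (hN : 2 ≤ N) (b : Fin (N + 1) ⊕ Unit → ℕ)
    (hb : ∀ i, 2 ≤ b i) (hbS : ∀ i, (b i).primeFactors ⊆ S) {ε : ℝ} (hε : 0 < ε)
    (P : ℕ → NPt S N m alt (QG N))
    (hHt : Tendsto (fun t => (P t).H) atTop atTop)
    (hsp : ∀ i, Spr (b i) (fun t => (P t).H) fun t => (P t).z i)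
    (hbad : ∀ᶠ t in atTop, ((tri N : ℝ) + ε) * Real.log (P t).ρ < (P t).H) : False := by
  classical
  obtain ⟨ψ, hψ, y, C, hC, h1, h2, h3, h4, h5, h6⟩ := prep hS b hb hbS P hHt hsp
  have hψt := hψ.tendsto_atTop
  obtain ⟨L, hL⟩ : ∃ L : ℕ → ℝ, L = (fun t => (P t).H) ∘ ψ := ⟨_, rfl⟩
  rw [← hL] at h2 h3 h4 h5 h6
  have hLt : Tendsto L atTop atTop := by rw [hL]; exact hHt.comp hψt
  have hLnn : ∀ t, 0 ≤ L t := fun t => by rw [hL]; exact (P _).H_nonneg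
  have hLe : ∀ t, L t = (P (ψ t)).H := fun t => by rw [hL]; rfl
  obtain ⟨r, T, p, ρ', M, M', G, hM, hM', hp, hρ', hπ⟩ := seq_data hS hLt hLnn
    (fun i t => (P (ψ t)).x i) (fun t => (P (ψ t)).ρ) y m (fun i t => (P _).hx i) h1 h2 h3 h4 C hC
    h5 h6
  have hE : 1 ≤ tri N := by
    unfold tri
    exact Finset.single_le_sum (f := fun i : Fin N => (i : ℕ)) (fun _ _ => Nat.zero_le _)
      (Finset.mem_univ (⟨1, by omega⟩ : Fin N))
  have hε0 : 0 < ε / ((tri N : ℝ) + ε) := by positivity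
  have hmain := germ_gcd (bS_prime hS) bS_inj G p (fun i t => (P (ψ t)).x i)
    (fun t i => (P _).hx i) (fun t => (P _).hsum) (fun t => (P _).hQ.2) (fun t => (P _).hQ.1)
    M hM hp ρ' (fun t => (P (ψ t)).ρ) (fun t => rd_pos _) M' hM' hρ' hπ 0 hε0
  rw [Fintype.card_fin, Nat.add_sub_cancel] at hmain
  have hev : ∀ᶠ t in (UU : Filter ℕ), False := by
    filter_upwards [hmain, Pool.Agent.TH932.Germs.ev_of_atTop (hψt.eventually hbad)] with t k1 k2
    obtain ⟨i, hi⟩ := (P (ψ t)).exists_Y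
    have h7 := k1 i
    have h8 : |((P (ψ t)).x i : ℝ)| = Real.exp (L t) := by
      have h9 : |((P (ψ t)).x i : ℝ)| = (((P (ψ t)).x i).natAbs : ℝ) := by
        rw [Nat.cast_natAbs, Int.cast_abs]
      rw [h9, hi, hLe]
      exact (Real.exp_log (by exact_mod_cast (P (ψ t)).one_le_Y)).symm
    rw [h8] at h7
    have h9 := final hE hε (ρ := fun t => (P (ψ t)).ρ) (rd_pos _) h7
    rw [hLe] at h9
    linarith
  exact hev.exists.choose_spec

/-- a minimal vanishing subsum -/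
theorem exists_min {n : ℕ} (x : Fin n → ℤ) (hsum : ∑ i, x i = 0) (i0 : Fin n) :
    ∃ J : Finset (Fin n), i0 ∈ J ∧ ∑ i ∈ J, x i = 0 ∧
      ∀ TT ⊆ J, TT.Nonempty → TT ≠ J → ∑ i ∈ TT, x i ≠ 0 := by
  classical
  obtain ⟨J, hJ, hmin⟩ := Finset.exists_min_image
    (Finset.univ.filter fun J : Finset (Fin n) => i0 ∈ J ∧ ∑ i ∈ J, x i = 0) Finset.card
    ⟨Finset.univ, Finset.mem_filter.2 ⟨Finset.mem_univ _, Finset.mem_univ _, hsum⟩⟩
  rw [Finset.mem_filter] at hJ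
  refine ⟨J, hJ.2.1, hJ.2.2, fun TT hTT hne hTJ h0 => ?_⟩
  have hss : TT ⊂ J := Finset.ssubset_iff_subset_ne.2 ⟨hTT, hTJ⟩
  by_cases h : i0 ∈ TT
  · have h1 := hmin TT (Finset.mem_filter.2 ⟨Finset.mem_univ _, h, h0⟩)
    have h2 := Finset.card_lt_card hss
    omega
  · have h3 : ∑ i ∈ J \ TT, x i = 0 := by
      have h4 := Finset.sum_sdiff (f := x) hTT
      rw [h0, add_zero] at h4
      rw [h4]
      exact hJ.2.2
    have h1 := hmin (J \ TT) (Finset.mem_filter.2 ⟨Finset.mem_univ _,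
      Finset.mem_sdiff.2 ⟨hJ.2.1, h⟩, h3⟩)
    rw [Finset.card_sdiff_of_subset hTT] at h1
    have h2 := Finset.card_le_card hTT
    have h5 := Finset.card_pos.2 hne
    omega

/-- **There are no bad sequences**, second case. -/
theorem seq_cop (hS : ∀ p ∈ S, p.Prime) (hN : 2 ≤ N) (b : Fin (N + 1) ⊕ Unit → ℕ)
    (hb : ∀ i, 2 ≤ b i) (hbS : ∀ i, (b i).primeFactors ⊆ S) {ε : ℝ} (hε : 0 < ε)
    (P : ℕ → NPt S N m alt (QC N))
    (hHt : Tendsto (fun t => (P t).H) atTop atTop)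
    (hsp : ∀ i, Spr (b i) (fun t => (P t).H) fun t => (P t).z i)
    (hbad : ∀ᶠ t in atTop, (((N - 1 : ℕ) : ℝ) + ε) * Real.log (P t).ρ < (P t).H) : False := by
  classical
  -- a constant pair
  choose i0 hi0 using fun t => (P t).exists_Y
  choose J hJ1 hJ2 hJ3 using fun t => exists_min (P t).x (P t).hsum (i0 t)
  obtain ⟨⟨i, J0⟩, hfr⟩ : ∃ q : Fin (N + 1) × Finset (Fin (N + 1)),
      ∃ᶠ t in atTop, (i0 t, J t) = q := by
    by_contra hcon
    push Not at hcon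
    have h1 : ∀ᶠ t in atTop, ∀ q, ¬ (i0 t, J t) = q := by
      rw [eventually_all]
      intro q
      exact hcon q
    obtain ⟨t, ht⟩ := h1.exists
    exact ht _ rfl
  obtain ⟨χ, hχ, hχ'⟩ := Filter.extraction_of_frequently_atTop hfr
  have hi : ∀ t, i0 (χ t) = i := fun t => congrArg Prod.fst (hχ' t)
  have hJ : ∀ t, J (χ t) = J0 := fun t => congrArg Prod.snd (hχ' t)
  have hχt := hχ.tendsto_atTop
  obtain ⟨P', hP'⟩ : ∃ P' : ℕ → NPt S N m alt (QC N), P' = fun t => P (χ t) := ⟨_, rfl⟩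
  have hHt' : Tendsto (fun t => (P' t).H) atTop atTop := by
    rw [hP']
    exact hHt.comp hχt
  obtain ⟨ψ, hψ, y, C, hC, h1, h2, h3, h4, h5, h6⟩ := prep hS b hb hbS P' hHt' (fun j => by
    rw [hP']
    exact (hsp j).comp hχt)
  have hψt := hψ.tendsto_atTop
  obtain ⟨L, hL⟩ : ∃ L : ℕ → ℝ, L = (fun t => (P' t).H) ∘ ψ := ⟨_, rfl⟩
  rw [← hL] at h2 h3 h4 h5 h6
  have hLt : Tendsto L atTop atTop := by rw [hL]; exact hHt'.comp hψt
  have hLnn : ∀ t, 0 ≤ L t := fun t => by rw [hL]; exact (P' _).H_nonneg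
  have hLe : ∀ t, L t = (P' (ψ t)).H := fun t => by rw [hL]; rfl
  have hPe : ∀ t, P' t = P (χ t) := fun t => by rw [hP']
  obtain ⟨r, T, p, ρ', M, M', G, hM, hM', hp, hρ', hπ⟩ := seq_data (ι := ↥J0) hS hLt hLnn
    (fun j t => (P' (ψ t)).x j) (fun t => (P' (ψ t)).ρ) (fun j => y j) m
    (fun j t => (P' _).hx j) (fun j => h1 j) (fun j => h2 j) (fun j => h3 j) h4 C hC
    (fun j => h5 j) h6
  have hij : i ∈ J0 := by
    have h7 := hJ1 (χ 0)
    rwa [hi, hJ] at h7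
  have hs0 : ∀ t, ∑ j ∈ J0, (P' t).x j = 0 := fun t => by
    rw [hPe, ← hJ t]
    exact hJ2 _
  have hsub : ∀ t, ∀ TT : Finset ↥J0, TT.Nonempty → TT ≠ Finset.univ →
      ∑ j ∈ TT, (P' t).x (j : Fin (N + 1)) ≠ 0 := by
    intro t TT hTT hne
    have h7 := hJ3 (χ t) (TT.map (Function.Embedding.subtype _)) (by
      rw [hJ]
      intro j hj
      obtain ⟨k, -, rfl⟩ := Finset.mem_map.1 hj
      exact k.2) (hTT.map) (by
      rw [hJ]
      intro h
      apply hne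
      rw [Finset.eq_univ_iff_forall]
      intro k
      have hk : (k : Fin (N + 1)) ∈ TT.map (Function.Embedding.subtype _) := by
        rw [h]
        exact k.2
      obtain ⟨k', hk', hkk⟩ := Finset.mem_map.1 hk
      have : k' = k := Subtype.ext hkk
      rwa [← this])
    rw [Finset.sum_map] at h7
    rw [hPe]
    exact h7
  have hcard : 2 ≤ Fintype.card ↥J0 := by
    rw [Fintype.card_coe]
    by_contra hcon
    have h8 : J0 = {i} := by
      have h9 : J0.card = 1 := by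
        have := Finset.card_pos.2 ⟨i, hij⟩
        omega
      obtain ⟨k, hk⟩ := Finset.card_eq_one.1 h9
      rw [hk] at hij ⊢
      rw [Finset.mem_singleton.1 hij]
    have h9 := hs0 0
    rw [h8, Finset.sum_singleton] at h9
    exact (P' 0).hx i h9
  have hcardle : Fintype.card ↥J0 ≤ N + 1 := by
    rw [Fintype.card_coe]
    have := Finset.card_le_univ J0
    rwa [Fintype.card_fin] at this
  have hE : 1 ≤ N - 1 := by omega
  have hε0 : 0 < ε / (((N - 1 : ℕ) : ℝ) + ε) := by positivity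
  have hmain := germ_cop (bS_prime hS) bS_inj G p (fun j t => (P' (ψ t)).x (j : Fin (N + 1)))
    (fun t j => (P' _).hx j) (fun t => by
      rw [Finset.sum_coe_sort J0 (fun j => (P' (ψ t)).x j)]
      exact hs0 _) (fun t => hsub _) (fun t q hq j k hjk =>
      (P' _).hQ q hq j k fun h => hjk (Subtype.ext h)) hcard
    M hM hp ρ' (fun t => (P' (ψ t)).ρ) (fun t => rd_pos _) M' hM' hρ' hπ ⟨i, hij⟩ hε0
  have hev : ∀ᶠ t in (UU : Filter ℕ), False := by
    filter_upwards [hmain, Pool.Agent.TH932.Germs.ev_of_atTop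
      ((hχt.comp hψt).eventually hbad)] with t k1 k2
    have h7 := k1 ⟨i, hij⟩
    have h8 : |((P' (ψ t)).x i : ℝ)| = Real.exp (L t) := by
      have h9 : |((P' (ψ t)).x i : ℝ)| = (((P' (ψ t)).x i).natAbs : ℝ) := by
        rw [Nat.cast_natAbs, Int.cast_abs]
      rw [h9, hLe]
      have h10 : ((P' (ψ t)).x i).natAbs = (P' (ψ t)).Y := by
        have h11 := hi0 (χ (ψ t))
        rw [hi] at h11
        rw [hPe]
        exact h11
      rw [h10]
      exact (Real.exp_log (by exact_mod_cast (P' (ψ t)).one_le_Y)).symm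
    have h7' : |((P' (ψ t)).x i : ℝ)| ≤ Real.exp (ε / (((N - 1 : ℕ) : ℝ) + ε) * L t) *
        ((P' (ψ t)).ρ : ℝ) ^ (Fintype.card ↥J0 - 2) := h7
    rw [h8] at h7'
    have hρ1 : (1 : ℝ) ≤ ((P' (ψ t)).ρ : ℝ) := by exact_mod_cast rd_pos (S := S) _
    have h9 := final hE hε (ρ := fun t => (P' (ψ t)).ρ) (L := L) (rd_pos _)
      (h7'.trans (mul_le_mul_of_nonneg_left (pow_le_pow_right₀ hρ1
        (by omega : Fintype.card ↥J0 - 2 ≤ N - 1)) (Real.exp_pos _).le))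
    rw [hLe] at h9
    have k3 : (((N - 1 : ℕ) : ℝ) + ε) * Real.log ((P' (ψ t)).ρ : ℝ) < (P' (ψ t)).H := by
      rw [hPe]
      exact k2
    linarith
  exact hev.exists.choose_spec

/-- **The uniform bound.** -/
theorem main_of (z0 : ℕ) (E : ℝ) (hE : 0 ≤ E)
    (b : Fin (N + 1) ⊕ Unit → ℕ) (hb : ∀ i, 2 ≤ b i)
    (hno : ∀ P : ℕ → NPt S N m alt Q, Tendsto (fun t => (P t).H) atTop atTop →
      (∀ i, Spr (b i) (fun t => (P t).H) fun t => (P t).z i) →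
      (∀ᶠ t in atTop, E * Real.log (P t).ρ < (P t).H) → False) :
    ∃ C : ℝ, ∀ P : NPt S N m alt Q,
      (∀ i, LZDigits (b i) z0 (P.z i) ∨ Rep (b i) z0 P.M (P.z i)) →
      P.H ≤ E * Real.log P.ρ + C * (1 + Real.log P.M) := by
  classical
  refine transfer_seq (X := NPt S N m alt Q) b hb z0
    (fun C P => P.H ≤ E * Real.log P.ρ + C * (1 + Real.log P.M))
    (fun C C' P hCC h1 => ?_)
    (fun P => P.H) (fun P => P.H_nonneg) (fun P => P.M) (fun P => P.hM) (fun P => P.z)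
    (N + 1) (by positivity) (fun P i => ?_) (fun T K P B hlt hB hBl hrep => ?_)
  · refine h1.trans (add_le_add le_rfl (mul_le_mul_of_nonneg_right hCC ?_))
    have := Real.log_nonneg P.hM
    linarith
  · refine (P.z_bound i).trans ?_
    refine mul_le_mul_of_nonneg_left ?_ (by positivity)
    linarith
  · have hlM : ∀ n, 0 ≤ Real.log (P n).M := fun n => Real.log_nonneg (P n).hM
    have hlρ : ∀ n, 0 ≤ Real.log (P n).ρ := fun n => Real.log_natCast_nonneg _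
    push Not at hlt
    have hbad : ∀ n : ℕ, (n : ℝ) * (1 + Real.log (P n).M) < (P n).H := fun n => by
      have h1 := hlt n
      have h2 := mul_nonneg hE (hlρ n)
      linarith
    have hsub : Sub (fun n => (P n).H) B :=
      sub_of_bad K (fun n => (P n).H_nonneg) hlM hbad hB hBl
    have hn0 : ∀ n : ℕ, (n : ℝ) < (P n).H := fun n => by
      refine lt_of_le_of_lt ?_ (hbad n)
      have := hlM n
      have h0 : (0 : ℝ) ≤ n := Nat.cast_nonneg n
      nlinarith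
    have hHt : Tendsto (fun n => (P n).H) atTop atTop :=
      tendsto_atTop_mono (fun n => (hn0 n).le) tendsto_natCast_atTop_atTop
    refine hno P hHt (fun i => Rep.spr (fun n => hrep n i) hsub)
      (Eventually.of_forall fun n => ?_)
    have h1 := hlt n
    have h2 : 0 ≤ (n : ℝ) * (1 + Real.log (P n).M) :=
      mul_nonneg (Nat.cast_nonneg _) (by linarith [hlM n])
    linarith

/-- **Greatest common divisor one.** -/
theorem main_gcd (hS : ∀ p ∈ S, p.Prime) (hN : 2 ≤ N) (m z0 : ℕ) (alt : Prop) (ε : ℝ)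
    (hε : 0 < ε) (b : Fin (N + 1) ⊕ Unit → ℕ) (hb : ∀ i, 2 ≤ b i)
    (hbS : ∀ i, (b i).primeFactors ⊆ S) :
    ∃ C : ℝ, ∀ P : NPt S N m alt (QG N),
      (∀ i, LZDigits (b i) z0 (P.z i) ∨ Rep (b i) z0 P.M (P.z i)) →
      P.H ≤ ((tri N : ℝ) + ε) * Real.log P.ρ + C * (1 + Real.log P.M) :=
  main_of z0 _ (by positivity) b hb fun P h1 h2 h3 => seq_gcd hS hN b hb hbS hε P h1 h2 h3

/-- **Pairwise coprime.** -/
theorem main_cop (hS : ∀ p ∈ S, p.Prime) (hN : 2 ≤ N) (m z0 : ℕ) (alt : Prop) (ε : ℝ)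
    (hε : 0 < ε) (b : Fin (N + 1) ⊕ Unit → ℕ) (hb : ∀ i, 2 ≤ b i)
    (hbS : ∀ i, (b i).primeFactors ⊆ S) :
    ∃ C : ℝ, ∀ P : NPt S N m alt (QC N),
      (∀ i, LZDigits (b i) z0 (P.z i) ∨ Rep (b i) z0 P.M (P.z i)) →
      P.H ≤ (((N - 1 : ℕ) : ℝ) + ε) * Real.log P.ρ + C * (1 + Real.log P.M) :=
  main_of z0 _ (by positivity) b hb fun P h1 h2 h3 => seq_cop hS hN b hb hbS hε P h1 h2 h3

end Pool.Agent.H455.NT
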