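import Mathlib
import Pool.Agent.H455.AD2

set_option autoImplicit false

/-!
# The truncated Vojta inequality on `ℙ¹ × ℙ¹` at compressible points: definitions and statements
-/

open Finset Filter Topology MvPolynomial

namespace Pool.Agent.H455.PP

open Pool.Agent.H455.CB Pool.Agent.H455.AB Pool.Agent.Y724.T4 Pool.Agent.H455.SZ
open Pool.Agent.H455.VO Pool.Agent.H455.TR Pool.Agent.K3h2.LA
open Pool.Agent.R343.LT
open Pool.Agent.TH419.WI Pool.Agent.TH419.HX Pool.Agent.H455.VC Pool.Agent.H455.RT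

/-- the Segre quadric `x_0 x_3 = x_1 x_2` in `ℙ³` -/
noncomputable def Gq : Fin 1 → MvPolynomial (Fin (2 + 1 + 1)) ℤ :=
  fun _ => X 0 * X 3 - X 1 * X 2

/-- the first index of the coordinate `x_j = a_s b_t`, `j = 2 s + t` -/
def row : Fin (2 + 1 + 1) → Fin 2 := ![0, 0, 1, 1]

/-- the second index -/
def col : Fin (2 + 1 + 1) → Fin 2 := ![0, 1, 0, 1]

/-- the Segre embedding -/
def seg {R : Type} [Mul R] (a b : Fin 2 → R) : Fin (2 + 1 + 1) → R :=
  fun j => a (row j) * b (col j)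

/-- `F` is bihomogeneous of bidegree `(q, r)` -/
def Bihom (q r : ℕ) (F : MvPolynomial (Fin 2 ⊕ Fin 2) ℤ) : Prop :=
  ∀ m ∈ F.support, m (Sum.inl 0) + m (Sum.inl 1) = q ∧ m (Sum.inr 0) + m (Sum.inr 1) = r

/-- strict normal crossings: at every point of `ℙ¹ × ℙ¹` the gradients of the forms which vanish there
are linearly independent -/
def SNC {k : ℕ} (F : Fin k → MvPolynomial (Fin 2 ⊕ Fin 2) ℤ) : Prop :=
  ∀ a b : Fin 2 → ℂ, a ≠ 0 → b ≠ 0 →
    LinearIndependent ℂ (fun i : {i : Fin k // aeval (Sum.elim a b) (F i) = 0} =>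
      fun y : Fin 2 ⊕ Fin 2 => aeval (Sum.elim a b) (pderiv y (F i.1)))

/-- the forms `Q i j` of degree `d` in the coordinates `x_j` with
`Q i j (x) = F i (a, b) a_s ^ (d - q i) b_t ^ (d - r i)`, `j = 2 s + t` -/
def IsLift {k : ℕ} (d : ℕ) (q r : Fin k → ℕ) (F : Fin k → MvPolynomial (Fin 2 ⊕ Fin 2) ℤ)
    (Q : Fin k → Fin (2 + 1 + 1) → MvPolynomial (Fin (2 + 1 + 1)) ℤ) : Prop :=
  (∀ i j, (Q i j).IsHomogeneous d) ∧ ∀ i j,
    aeval (seg (fun s : Fin 2 => (X (Sum.inl s) : MvPolynomial (Fin 2 ⊕ Fin 2) ℤ))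
      (fun t : Fin 2 => X (Sum.inr t))) (Q i j) =
      F i * X (Sum.inl (row j)) ^ (d - q i) * X (Sum.inr (col j)) ^ (d - r i)

/-- a tangent basis at the point `seg a b`, `v` with `a_0 v_1 - a_1 v_0 = 1` -/
def tan (a v b : Fin 2 → ℚ) : Matrix (Fin (2 + 1 + 1)) (Fin (2 + 1)) ℚ :=
  fun j c => if c = 0 then (if col j = 0 then a (row j) else 0) else
    if c = 1 then (if col j = 1 then a (row j) else 0) else v (row j) * b (col j)

/-- `max (|a_0|, |a_1|)` -/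
def mx (a : Fin 2 → ℤ) : ℕ := max (a 0).natAbs (a 1).natAbs

/-- the rational coordinates of `seg a b` -/
def sq (a b : Fin 2 → ℤ) : Fin (2 + 1 + 1) → ℚ := fun j => ((seg a b j : ℤ) : ℚ)

/-- LIFT. A monomial of bidegree `(d, d)`, `a_0^m₀ a_1^(d-m₀) b_0^n₀ b_1^(d-n₀)`, is the value at
`seg a b` of a monomial of degree `d`: for `m₀ ≤ n₀` it is `x_0^m₀ x_2^(n₀-m₀) x_3^(d-n₀)`, for
`n₀ ≤ m₀` it is `x_0^n₀ x_1^(m₀-n₀) x_3^(d-m₀)` (`x_0 = a_0 b_0`, `x_1 = a_0 b_1`, `x_2 = a_1 b_0`,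
`x_3 = a_1 b_1`). So every form of bidegree `(d, d)` is the value of a form of degree `d`
(sum over the support); apply this to `F i a_s^(d - q i) b_t^(d - r i)`, whose monomials have bidegree
`(d, d)` (or work directly monomial by monomial of `F i`). -/
def S_LIFT : Prop := ∀ (k d : ℕ) (q r : Fin k → ℕ) (F : Fin k → MvPolynomial (Fin 2 ⊕ Fin 2) ℤ),
  (∀ i, q i ≤ d ∧ r i ≤ d) → (∀ i, Bihom (q i) (r i) (F i)) → ∃ Q, IsLift d q r F Q

/-- SMOOTH. Let `z ≠ 0` with `z_0 z_3 = z_1 z_2`; then `z = seg a b` for some complex `a, b ≠ 0`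
(if `z_0 ≠ 0`: `a = (z_0, z_2)`, `b = (1, z_1 / z_0)`; similarly in the other cases). Take `K = 0` and
for all `i` the same `J i = j` with `a (row j) ≠ 0` and `b (col j) ≠ 0`. Suppose
`c₀ ∇ Gq (z) + ∑ c_i ∇ (Q i j) (z) = 0`, the sum over the `i` with all `Q i j' (z) = 0`, that is
`F i (a, b) = 0` (apply the identity of `IsLift` at `(a, b)`: `aeval z (Q i j) =
F i (a, b) a_s^(d - q i) b_t^(d - r i)`). Take the derivative of the identities
`Gq ∘ seg = 0` and of `IsLift` with respect to each of the 4 variables `a_s`, `b_t` (chain rule for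
`aeval` and `pderiv`, e.g. by `MvPolynomial.pderiv` of an `aeval`/`bind₁`, or prove the chain rule by
induction on polynomials): since `F i (a, b) = 0`, the derivative of the right hand side at `(a, b)` is
`a_s^(d - q i) b_t^(d - r i) ∇ F i (a, b)`. So `∑ c_i a_s^(..) b_t^(..) ∇ F i (a, b) = 0` and all
`c_i = 0` by `SNC`; then `c₀ = 0` as `∇ Gq (z) = (z_3, -z_2, -z_1, z_0) ≠ 0`. -/
def S_SMOOTH : Prop := ∀ (k d : ℕ) (q r : Fin k → ℕ) (F : Fin k → MvPolynomial (Fin 2 ⊕ Fin 2) ℤ)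
  (Q : Fin k → Fin (2 + 1 + 1) → MvPolynomial (Fin (2 + 1 + 1)) ℤ),
  SNC F → IsLift d q r F Q → R7.SmoothPair 1 Gq Q

/-- DIM. With `J = (0, 1, 2)`: a polynomial `P` in three variables with `P (z_0, z_1, z_2) = 0` for all
`z` on the quadric is zero: for `z_0 ≠ 0` and all `z_1`, `z_2` the point
`(z_0, z_1, z_2, z_1 z_2 / z_0)` is on the quadric, so `P X_0` vanishes on `ℂ³`
(`MvPolynomial.funext`), and `P = 0`. Compare `dimN` in Pool/Agent/H455/AD1.lean. -/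
def S_DIM : Prop := R7.DimGE 2 Gq

/-- IRR. `Good Gq Φ` means that the form `Φ` does not vanish identically on the quadric; by the
parametrisation `seg` (every point `z` of the quadric is `seg a b`) this means that the polynomial
`Φ (seg (X (inl s)) (X (inr t)))` in the four variables is not zero; the product of two nonzero
polynomials is nonzero, and it has a value `≠ 0` at some complex point. -/
def S_IRR : Prop := Irr Gq

/-- TAN. `tan a v b` has the columns `α ⊗ e_0`, `α ⊗ e_1`, `v ⊗ β`, orthogonal to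
`∇ Gq = (x_3, -x_2, -x_1, x_0)`. With `a_0 v_1 - a_1 v_0 = 1` its `3 × 3` minors (omitting one row) are
`± x_j`: so the columns are linearly independent (`x ≠ 0`), and the height of the vector of all minors
is at least the height of `x` (each `|x_j|_v` is the absolute value of one of the minors), which gives
`canonicalHeight ≥ (1 - 3) height x`. The heights are Mathlib's `Height.logHeight` of tuples; use a
comparison of the suprema at each place or `Height.logHeight_comp_le`/the library lemmas used in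
`canonical` in Pool/Agent/H455/AD1.lean (e.g. restrict the tuple of minors to four indices `J` for which
the minors are `± x_j`; signs do not change the height). -/
def S_TAN : Prop := ∀ a b v : Fin 2 → ℤ, a 0 * v 1 - a 1 * v 0 = 1 → b ≠ 0 →
  R7.IsTangentBasis Gq (sq a b) (tan (fun i => (a i : ℚ)) (fun i => (v i : ℚ)) fun i => (b i : ℚ)) ∧
    -2 * R7.height (sq a b) ≤ R7.canonicalHeight (sq a b)
      (tan (fun i => (a i : ℚ)) (fun i => (v i : ℚ)) fun i => (b i : ℚ))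

/-- HGT. The height of the point `seg a b` with coprime `a_0, a_1` and coprime `b_0, b_1` is
`log max |a_s| + log max |b_t|` (`log_le_height` in AD1.lean gives `≥`; the upper bound is similar:
all finite absolute values of the integers `x_j` are `≤ 1` and one of the `x_j` is a unit at each
prime). -/
def S_HGT : Prop := ∀ a b : Fin 2 → ℤ, IsCoprime (a 0) (a 1) → IsCoprime (b 0) (b 1) →
  R7.height (sq a b) = Real.log (mx a) + Real.log (mx b)

/-- DIV. For each place `v`: `max_j |Q i j (x)|_v = |F i (a, b)|_v max_s |a_s|_v^(d - q i)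
max_t |b_t|_v^(d - r i)` and `max_j |x_j|_v = max_s |a_s|_v max_t |b_t|_v`, so that
`localHeight = q i log max_s |a_s|_v + r i log max_t |b_t|_v - log |F i (a, b)|_v`. At the finite places
the maxima are `1` and `-log |F i (a,b)|_v ≥ 0`; the sum over all places of `log |F i (a, b)|_v` is `0`
(product formula, `prod_formula` as in `div_height` in VO0.lean). Hence equality holds; we need `≤`. -/
def S_DIV : Prop := ∀ (k d : ℕ) (q r : Fin k → ℕ) (F : Fin k → MvPolynomial (Fin 2 ⊕ Fin 2) ℤ)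
  (Q : Fin k → Fin (2 + 1 + 1) → MvPolynomial (Fin (2 + 1 + 1)) ℤ),
  (∀ i, q i ≤ d ∧ r i ≤ d) → IsLift d q r F Q → ∀ a b : Fin 2 → ℤ,
  IsCoprime (a 0) (a 1) → IsCoprime (b 0) (b 1) → (∀ i, aeval (Sum.elim a b) (F i) ≠ 0) →
  (∑ i, (q i : ℝ)) * Real.log (mx a) + (∑ i, (r i : ℝ)) * Real.log (mx b) ≤
    R7.divisorHeight Q (fun _ _ => d) (sq a b)

/-- DEN. This is `vojta_den` of Pool/Agent/H455/VO0.lean (copy its proof) with components with several
equations of the same degree `d`: `R7.main7` is applied with `w` and with the exponent `a = d` instead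
of `w = 1` and `a = 0`, to the point `x' = Δ² x`, the numbers `b' = Δ (Δ^(2m-1) b)` and `ρ' = Δ² ρ`
(`ρ'^m x'_y^d = Δ^(2m) Δ^(2d) ρ^m x_y^d = ∑_j Δ^(2d) F_ij(x) Δ^(2m) b_iyj`); the additional exponent
`exv` is `2 m - 2` for the numbers `b`. The bound for the size of the data (`hsize`) follows from the
hypothesis on the numerators and denominators of the `b i y j` (in `vojta_den` it was derived).
`divisorHeight` is invariant under scaling of `x` (all `Q i j` have the same degree `d`: both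
`v (F_ij (x'))` and `(⨆ v x')^d` are multiplied by `v(Δ²)^d`), so `div_height` is not needed. -/
def S_DEN : Prop := ∀ (N s g q w : ℕ) (G : Fin g → MvPolynomial (Fin (N + s + 1)) ℤ) (e : Fin g → ℕ),
  (∀ k, (G k).IsHomogeneous (e k)) → ∀ (F : Fin q → Fin w → MvPolynomial (Fin (N + s + 1)) ℤ)
  (d : ℕ), (∀ i j, (F i j).IsHomogeneous d) → R7.DimGE N G → R7.SmoothPair s G F →
  ∀ (S : Finset ℕ), (∀ p ∈ S, p.Prime) → ∀ (l m c A : ℕ), 1 ≤ m → 1 ≤ c → ∀ ε : ℝ, 0 < ε →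
  ∃ (δ : ℝ) (Φ : MvPolynomial (Fin (N + s + 1)) ℚ) (k : ℕ) (C : ℝ), 0 < δ ∧ 0 ≤ C ∧
    Φ.IsHomogeneous k ∧ (∃ z : Fin (N + s + 1) → ℂ, (∀ k, aeval z (G k) = 0) ∧ aeval z Φ ≠ 0) ∧
    ∀ (x : Fin (N + s + 1) → ℤ) (ρ X : ℕ) (b : Fin q → Fin (N + s + 1) → Fin w → ℚ) (Δ : ℕ) (M : ℝ),
      (∀ k, aeval x (G k) = 0) → 0 < ρ →
      (∀ i y, (ρ : ℚ) ^ m * (x y : ℚ) ^ d = ∑ j, ((aeval x (F i j) : ℤ) : ℚ) * b i y j) →
      (∀ i y j, ∃ n D : ℤ, D ≠ 0 ∧ b i y j = n / D ∧ n.natAbs ≤ ρ ^ m * (c * X ^ A) ∧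
        D.natAbs ≤ ρ ^ m * (c * X ^ A)) →
      (∀ i, (x i).natAbs ≤ X) → (∃ i, (x i).natAbs = X) → 1 ≤ X → 0 < Δ → (Δ : ℝ) ≤ M →
      Real.log M ≤ δ * (1 + Real.log X) → (∀ i, Sh S l M ((Δ : ℚ) * x i)) →
      (∀ i y j, Sh S l M ((Δ : ℚ) * b i y j)) → Sh S l M ((Δ : ℚ) * ρ) → Sh S l M (Δ : ℚ) →
      aeval (fun i => (x i : ℚ)) Φ ≠ 0 →
      ∀ T : Matrix (Fin (N + s + 1)) (Fin (N + 1)) ℚ,
        R7.IsTangentBasis G (fun i => (x i : ℚ)) T →
        R7.canonicalHeight (fun i => (x i : ℚ)) T +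
          R7.divisorHeight F (fun _ _ => d) (fun i => (x i : ℚ)) ≤
          Real.log ρ + ε * (Real.log X + Real.log ρ) + C

/-- VOS. The analogue of `vo_seq` in Pool/Agent/H455/VO1.lean (copy its proof). `cofactor` gives
`ρ^m' = f_i (y_i u_i)`, `f_i = F i (a, b)`, with `Ld` sequences `y_i` and `S`-units `u_i` (`m' = m + 1`).
Apply `rel_ft` to the integral sequences `a_s`, `b_t`, `y_i`, `ρ` and `0`. Then `x_j = a_s b_t` and
`b_{i,y,j} = a_(row y)^(q i) b_(col y)^(r i) (y_i u_i)` for `j = y` and `0` for `j ≠ y` are `RelQ`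
(`RelQ.mul`), and
`ρ^m' x_y^d = Q i y (x) b_{i,y,y}`, as `Q i y (x) = f_i a_s^(d - q i) b_t^(d - r i)` and
`a_s^(d - q i) a_s^(q i) = a_s^d`. Numerators and denominators: `b_{i,y,y} = a_s^(q i) b_t^(r i) ρ^m' / f_i`
with `|a_s|, |b_t| ≤ X`, `|f_i| ≤ c X^A` (`X = mx a * mx b`; bound the form `F i` as in `form_le` with
`A = 2 d`). `clear`, then `S_DEN` with `ε' = ε / (1 + C)` as in `vo_seq`. -/
def S_VOS : Prop := ∀ (S : Finset ℕ), (∀ p ∈ S, p.Prime) → ∀ (k d : ℕ) (q r : Fin k → ℕ)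
  (F : Fin k → MvPolynomial (Fin 2 ⊕ Fin 2) ℤ)
  (Q : Fin k → Fin (2 + 1 + 1) → MvPolynomial (Fin (2 + 1 + 1)) ℤ),
  (∀ i, q i ≤ d ∧ r i ≤ d) → (∀ i, Bihom (q i) (r i) (F i)) → IsLift d q r F Q →
  R7.SmoothPair 1 Gq Q → ∀ (m : ℕ) (ε : ℝ), 0 < ε → ∀ (L : ℕ → ℝ) (a b : ℕ → Fin 2 → ℤ)
  (ρ w : ℕ → ℕ), (∀ t, a t ≠ 0) → (∀ t, b t ≠ 0) →
  (∀ t, L t = Real.log ((mx (a t) * mx (b t) : ℕ) : ℝ)) → Tendsto L atTop atTop →
  (∀ t i, aeval (Sum.elim (a t) (b t)) (F i) ≠ 0) → (∀ t, 0 < ρ t) → (∀ t, Smooth S (w t)) →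
  (∀ t i, (aeval (Sum.elim (a t) (b t)) (F i)).natAbs ∣ w t * ρ t ^ m) →
  ∀ (C : ℝ), 0 ≤ C →
  (∀ i t, |((aeval (Sum.elim (a t) (b t)) (F i) : ℤ) : ℝ)| ≤ Real.exp (C * L t)) →
  (∀ t, Real.log (ρ t) ≤ C * L t) → (∀ s, Ld S L fun t => (a t s : ℚ)) →
  (∀ s, Ld S L fun t => (b t s : ℚ)) →
  (∀ i, Ld S L fun t => ((aeval (Sum.elim (a t) (b t)) (F i) : ℤ) : ℚ)) →
  (Ld S L fun t => (ρ t : ℚ)) →
  (∀ Φ, Good Gq Φ → ∀ᶠ t in atTop, aeval (sq (a t) (b t)) Φ ≠ 0) →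
  ∀ (T : ℕ → Matrix (Fin (2 + 1 + 1)) (Fin (2 + 1)) ℚ),
  (∀ t, R7.IsTangentBasis Gq (sq (a t) (b t)) (T t)) →
  (∀ K : ℝ, ∀ᶠ t in atTop, Real.log (ρ t) + ε * L t + K <
    R7.canonicalHeight (sq (a t) (b t)) (T t) +
      R7.divisorHeight Q (fun _ _ => d) (sq (a t) (b t))) → False

/-- the product of the primes outside `S` which divide `n` -/
def rd (S : Finset ℕ) (n : ℕ) : ℕ := ∏ p ∈ n.primeFactors with p ∉ S, p

/-- a point -/
structure Pt (S : Finset ℕ) {k : ℕ} (F : Fin k → MvPolynomial (Fin 2 ⊕ Fin 2) ℤ) (m : ℕ)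
    (alt : Prop) where
  a : Fin 2 → ℤ
  b : Fin 2 → ℤ
  Z : ℤ
  M : ℝ
  ha : IsCoprime (a 0) (a 1)
  hb : IsCoprime (b 0) (b 1)
  hF : ∀ i, aeval (Sum.elim a b) (F i) ≠ 0
  hm : ∀ p : ℕ, p.Prime → p ∉ S → ∀ i,
    (aeval (Sum.elim a b) (F i)).natAbs.factorization p ≤ m
  hZ : (alt ∧ Z = rd S (∏ i, aeval (Sum.elim a b) (F i)).natAbs) ∨
    (¬ alt ∧ Z * rd S (∏ i, aeval (Sum.elim a b) (F i)).natAbs =
      prt S (∏ i, aeval (Sum.elim a b) (F i)).natAbs)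
  hM : 1 ≤ M

section
variable {S : Finset ℕ} {k : ℕ} {F : Fin k → MvPolynomial (Fin 2 ⊕ Fin 2) ℤ} {m : ℕ} {alt : Prop}

/-- the logarithm of `max |a_s| max |b_t|` -/
noncomputable def Pt.H (P : Pt S F m alt) : ℝ := Real.log ((mx P.a * mx P.b : ℕ) : ℝ)

/-- the radical -/
noncomputable def Pt.ρ (P : Pt S F m alt) : ℕ := rd S (∏ i, aeval (Sum.elim P.a P.b) (F i)).natAbs

/-- the compressible numbers `a_0, a_1, b_0, b_1, Z` -/
def Pt.z (P : Pt S F m alt) : (Fin 2 ⊕ Fin 2) ⊕ Unit → ℤ := Sum.elim (Sum.elim P.a P.b) fun _ => P.Z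

end

/-- SEQ. The analogue of `ad_seq` in Pool/Agent/H455/AD2.lean (copy its proof and the lemmas on `APt`
before it: `rd_pos`, `rd_dvd_prt`, `dvd_rd`, `prod_ne`, `Z_ne`, `Z_le`, ...), from `S_VOS`, `S_TAN`,
`S_HGT`, `S_DIV`, `S_LIFT`, `S_SMOOTH`. The values `f_i = F i (a, b)` are `Spr g` (polynomials in the
`a_s`, `b_t`, by `Spr.add`, `Spr.mul`, `Spr.const`, induction on the polynomial), `Z` is `Spr h`; apply
`ld_ft` to the family `a_s, b_t, f_i` (base `g`), `Z` (base `h`), index type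
`((Fin 2 ⊕ Fin 2) ⊕ Fin k) ⊕ Unit`; bounds: `|a_s|, |b_t| ≤ exp H`, `|f_i| ≤ c exp (2 d H)` (d the
maximum of all `q i`, `r i`), `|Z|, ρ ≤ ∏ |f_i|`. `v` with `a_0 v_1 - a_1 v_0 = 1` exists as
`a_0, a_1` are coprime. The hypothesis `hbad` of `S_VOS` follows from `hbad` below by `S_TAN`, `S_HGT`,
`S_DIV`: `canonicalHeight + divisorHeight ≥ -2 (log mx a + log mx b) + (∑ q i) log mx a +
(∑ r i) log mx b`. -/
def S_SEQ : Prop := ∀ (S : Finset ℕ), (∀ p ∈ S, p.Prime) → ∀ (k : ℕ) (q r : Fin k → ℕ)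
  (F : Fin k → MvPolynomial (Fin 2 ⊕ Fin 2) ℤ), (∀ i, Bihom (q i) (r i) (F i)) → SNC F →
  ∀ (m : ℕ) (alt : Prop) (ε : ℝ), 0 < ε → ∀ g h : ℕ, 2 ≤ g → g.primeFactors ⊆ S → 2 ≤ h →
  h.primeFactors ⊆ S → ∀ P : ℕ → Pt S F m alt, (∀ t, 1 ≤ (P t).H) →
  Tendsto (fun t => (P t).H) atTop atTop →
  (∀ i, Spr (Sum.elim (fun _ => g) (fun _ => h) i) (fun t => (P t).H) fun t => (P t).z i) →
  (∀ Φ, Good Gq Φ → ∀ᶠ t in atTop, aeval (sq (P t).a (P t).b) Φ ≠ 0) →
  (∀ K : ℝ, ∀ᶠ t in atTop, Real.log (P t).ρ + ε * (P t).H + K <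
    ((∑ i, (q i : ℝ)) - 2) * Real.log (mx (P t).a) +
      ((∑ i, (r i : ℝ)) - 2) * Real.log (mx (P t).b)) → False

/-- MAIN. The analogue of `main` in Pool/Agent/H455/AD2.lean (copy its proof), from `S_SEQ` and
`S_IRR`. The inequality is `LHS ≤ log ρ + ε H + C (1 + log M)`; if it fails for `C = n` then
`n (1 + log M) < LHS ≤ D H`, `D = ∑ q i + ∑ r i` (`log mx a, log mx b ≥ 0`, both `≤ H`). So for `H`
use `(D + 1) (1 + H)`-type bounds where `ad` used `H` alone, or apply `transfer_seq` as in `main` and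
`sub_of_bad` with `H' = (D + 1) H`, which changes `Sub` only by a constant factor in the exponent; if
convenient assume `H P` replaced by `(D + 1) H P` in the call of `transfer_seq`, and then use that
`Spr` and `Sub` for `(D + 1) H` and for `H` agree (`Sub L B` means `|B| ≤ exp (δ L)` eventually for all
`δ > 0`). The bound for the compressible numbers: `|z i| ≤ c exp (C H)`. -/
def S_MAIN : Prop := ∀ (S : Finset ℕ), (∀ p ∈ S, p.Prime) → ∀ (k : ℕ) (q r : Fin k → ℕ)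
  (F : Fin k → MvPolynomial (Fin 2 ⊕ Fin 2) ℤ), (∀ i, Bihom (q i) (r i) (F i)) → SNC F →
  ∀ (m z0 : ℕ) (alt : Prop) (ε : ℝ), 0 < ε → ∀ g h : ℕ, 2 ≤ g → g.primeFactors ⊆ S → 2 ≤ h →
  h.primeFactors ⊆ S → ∃ (Φ : MvPolynomial (Fin (2 + 1 + 1)) ℚ) (C : ℝ), Good Gq Φ ∧
  ∀ P : Pt S F m alt,
    (∀ i, LZDigits (Sum.elim (fun _ => g) (fun _ => h) i) z0 (P.z i) ∨
      Rep (Sum.elim (fun _ => g) (fun _ => h) i) z0 P.M (P.z i)) →
    aeval (sq P.a P.b) Φ ≠ 0 →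
    ((∑ i, (q i : ℝ)) - 2) * Real.log (mx P.a) + ((∑ i, (r i : ℝ)) - 2) * Real.log (mx P.b) ≤
      Real.log P.ρ + ε * P.H + C * (1 + Real.log P.M)

end Pool.Agent.H455.PP
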