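import Mathlib
import Pool.Agent.H455.PP

set_option autoImplicit false

/-!
# Vojta's inequality with small denominators, components with several equations
-/

open Finset NumberField MvPolynomial

namespace Pool.Agent.H455.PP_DEN

open Pool.Agent.Y724.T4 Pool.Agent.K3h2.LA Pool.Agent.H455.AB Pool.Agent.H455.VO

/-- the height of a divisor is invariant under scaling -/
theorem div_scale {M q w : ℕ} (F : Fin q → Fin w → MvPolynomial (Fin M) ℤ) (d : ℕ)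
    (hF : ∀ i j, (F i j).IsHomogeneous d) (c : ℚ) (hc : c ≠ 0) (x : Fin M → ℚ) :
    R7.divisorHeight F (fun _ _ => d) (fun i => c * x i) =
      R7.divisorHeight F (fun _ _ => d) x := by
  have hloc : ∀ (i : Fin q) (v : AbsoluteValue ℚ ℝ),
      R7.localHeight (F i) (fun _ => d) (fun i => c * x i) v =
        R7.localHeight (F i) (fun _ => d) x v := by
    intro i v
    unfold R7.localHeight
    have hv : (v c) ^ d ≠ 0 := pow_ne_zero _ (v.pos hc).ne'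
    have h1 : (⨆ i, v (c * x i)) = v c * ⨆ i, v (x i) := by
      rw [Real.mul_iSup_of_nonneg (v.nonneg c)]
      simp only [map_mul]
    have h2 : ∀ j, v (aeval (fun i => c * x i) (F i j)) / (⨆ i, v (c * x i)) ^ d =
        v (aeval x (F i j)) / (⨆ i, v (x i)) ^ d := by
      intro j
      rw [h1, aeval_scale (hF i j), map_mul, map_pow, mul_pow, mul_div_mul_left _ _ hv]
    have h3 : (⨆ j, v (aeval (fun i => c * x i) (F i j)) / (⨆ i, v (c * x i)) ^ d) =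
        ⨆ j, v (aeval x (F i j)) / (⨆ i, v (x i)) ^ d := iSup_congr h2
    rw [h3]
  unfold R7.divisorHeight
  simp only [hloc]

/-- the additional exponent -/
def exw {M q w : ℕ} (m : ℕ) :
    (Fin 1 × Fin 1 × Fin 1) ⊕ ((Fin M ⊕ (Fin q × Fin M × Fin w) ⊕ Unit) × Fin 1) → ℕ :=
  Sum.elim (fun _ => 0) (fun s => Sum.elim (fun _ => 0) (Sum.elim (fun _ => 2 * m - 2)
    (fun _ => 0)) s.1)

theorem exw_le {M q w : ℕ} (m : ℕ)
    (s : (Fin 1 × Fin 1 × Fin 1) ⊕ ((Fin M ⊕ (Fin q × Fin M × Fin w) ⊕ Unit) × Fin 1)) :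
    exw m s ≤ 2 * m := by
  rcases s with s | ⟨s | s | s, k⟩
  · exact Nat.zero_le _
  · exact Nat.zero_le _
  · show 2 * m - 2 ≤ 2 * m
    omega
  · exact Nat.zero_le _

theorem params_scale_w {M q w : ℕ} (ω : Module.Basis (Fin 1) ℚ ℚ) (D : ℕ) (hD : 0 < D) (m : ℕ)
    (hm : 1 ≤ m) (a : Fin M → ℚ) (t : Fin q → Fin M → Fin w → ℚ) (ρ : ℚ)
    (s : (Fin 1 × Fin 1 × Fin 1) ⊕ ((Fin M ⊕ (Fin q × Fin M × Fin w) ⊕ Unit) × Fin 1)) :
    R7.params (scale ω D hD) (R7.data (fun i => (D : ℚ) * ((D : ℚ) * a i))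
      (fun i y j => (D : ℚ) * (((D ^ (2 * m - 1) : ℕ) : ℚ) * t i y j))
      ((D : ℚ) * ((D : ℚ) * ρ))) s =
      (((D ^ exw m s : ℕ) : ℤ) : ℚ) * (D * R7.params ω (R7.data a t ρ) s) := by
  rcases s with ⟨i, j, k⟩ | ⟨i | ⟨i, y, j⟩ | u, k⟩
  · change (scale ω D hD).repr (scale ω D hD i * scale ω D hD j) k = (((D ^ 0 : ℕ) : ℤ) : ℚ) *
      (D * ω.repr (ω i * ω j) k)
    rw [scale_repr_struct]
    simp
  · change (scale ω D hD).repr ((D : ℚ) * ((D : ℚ) * a i)) k = (((D ^ 0 : ℕ) : ℤ) : ℚ) *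
      (D * ω.repr (a i) k)
    rw [scale_repr_mul]
    simp
  · change (scale ω D hD).repr ((D : ℚ) * (((D ^ (2 * m - 1) : ℕ) : ℚ) * t i y j)) k =
      (((D ^ (2 * m - 2) : ℕ) : ℤ) : ℚ) * (D * ω.repr (t i y j) k)
    rw [scale_repr_mul]
    have h : 2 * m - 1 = 2 * m - 2 + 1 := by omega
    rw [h, pow_succ]
    push_cast
    ring
  · change (scale ω D hD).repr ((D : ℚ) * ((D : ℚ) * ρ)) k = (((D ^ 0 : ℕ) : ℤ) : ℚ) *
      (D * ω.repr ρ k)
    rw [scale_repr_mul]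
    simp

/-- **Vojta's inequality with small denominators.** -/
theorem main : Pool.Agent.H455.PP.S_DEN := by
  classical
  intro N s g q w G e hG F d hF hdim hsm S hS l m c A hm hc1 ε hε
  have hf1 : Module.finrank ℚ ℚ = 1 := Module.finrank_self ℚ
  have hcR : (1 : ℝ) ≤ c := by exact_mod_cast hc1
  have hlc : 0 ≤ Real.log c := Real.log_nonneg hcR
  obtain ⟨ε0, hε0⟩ : ∃ ε0 : ℝ, ε0 = ε / (2 * ((m : ℝ) + A + 1)) := ⟨_, rfl⟩
  have hmD : (0 : ℝ) < (m : ℝ) + A + 1 := by positivity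
  have hε00 : 0 < ε0 := by rw [hε0]; positivity
  have hε0e : ε0 * ((m : ℝ) + A + 1) = ε / 2 := by
    rw [hε0]
    field_simp
  obtain ⟨δ0, Φ, k, C0, hδ0, hΦ, hΦz, hcore⟩ := R7.main7 N s g q w G e hG F
    (fun _ _ => d) hF hdim hsm S hS 1
    (Fintype.card (((Fin 1 × Fin 1 × Fin 1) ⊕
      ((Fin (N + s + 1) ⊕ (Fin q × Fin (N + s + 1) × Fin w) ⊕ Unit) × Fin 1)) × Fin l)) m d
    (fun _ _ => le_rfl) 1 (Real.exp 1) ε0 hε00
  obtain ⟨μ, hμ⟩ : ∃ μ : ℝ, μ = ((2 * m + 1 : ℕ) : ℝ) := ⟨_, rfl⟩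
  have hμ1 : 1 ≤ μ := by
    rw [hμ]
    have : 1 ≤ 2 * m + 1 := by omega
    exact_mod_cast this
  have hμ0 : 0 < μ := by linarith
  obtain ⟨ν, hν⟩ : ∃ ν : ℝ, ν = 4 + ε0 * μ := ⟨_, rfl⟩
  have hν0 : 0 < ν := by rw [hν]; positivity
  obtain ⟨δ, hδ⟩ : ∃ δ : ℝ, δ = min (1 / μ) (min (δ0 / μ) (ε / (2 * ν))) := ⟨_, rfl⟩
  have hδ00 : 0 < δ := by
    rw [hδ]
    exact lt_min (by positivity) (lt_min (by positivity) (by positivity))
  have hδ1 : μ * δ ≤ 1 := by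
    have h1 : δ ≤ 1 / μ := by
      rw [hδ]
      exact min_le_left _ _
    calc μ * δ ≤ μ * (1 / μ) := mul_le_mul_of_nonneg_left h1 hμ0.le
      _ = 1 := by field_simp
  have hδ2 : μ * δ ≤ δ0 := by
    have h1 : δ ≤ δ0 / μ := by
      rw [hδ]
      exact (min_le_right _ _).trans (min_le_left _ _)
    calc μ * δ ≤ μ * (δ0 / μ) := mul_le_mul_of_nonneg_left h1 hμ0.le
      _ = δ0 := by field_simp
  have hδ3 : ν * δ ≤ ε / 2 := by
    have h1 : δ ≤ ε / (2 * ν) := by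
      rw [hδ]
      exact (min_le_right _ _).trans (min_le_right _ _)
    calc ν * δ ≤ ν * (ε / (2 * ν)) := mul_le_mul_of_nonneg_left h1 hν0.le
      _ = ε / 2 := by field_simp
  refine ⟨δ, Φ, k, ε / 2 + ε0 * Real.log c + |C0|, hδ00, by positivity, hΦ, hΦz, ?_⟩
  intro x ρ X b Δ M hxG hρ hb hnd hX hX' hX1 hΔ hΔM hlM h1 h2 h3 h4 hxΦ T hT
  obtain ⟨i0, hi0⟩ := hX'
  have hXR : (1 : ℝ) ≤ X := by exact_mod_cast hX1
  obtain ⟨H, hH⟩ : ∃ H : ℝ, H = Real.log X := ⟨_, rfl⟩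
  have hH0 : 0 ≤ H := by rw [hH]; exact Real.log_nonneg hXR
  have hρR : (1 : ℝ) ≤ ρ := by exact_mod_cast hρ
  have hlρ : 0 ≤ Real.log ρ := Real.log_nonneg hρR
  rw [← hH] at hlM ⊢
  have hΔ1 : (1 : ℝ) ≤ Δ := by exact_mod_cast hΔ
  have hM1 : 1 ≤ M := hΔ1.trans hΔM
  have hM0 : (0 : ℝ) < M := by linarith
  have hΔQ : (Δ : ℚ) ≠ 0 := by exact_mod_cast hΔ.ne'
  have hρQ : (ρ : ℚ) ≠ 0 := by exact_mod_cast hρ.ne'
  -- the data
  obtain ⟨ω, hω⟩ : ∃ ω : Module.Basis (Fin 1) ℚ ℚ, ω = omK hf1 := ⟨_, rfl⟩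
  obtain ⟨α, hα⟩ : ∃ α : Fin (N + s + 1) → ℚ, α = fun i => (x i : ℚ) := ⟨_, rfl⟩
  rw [← hα] at hxΦ hT ⊢
  obtain ⟨P, hP⟩ : ∃ P : (Fin 1 × Fin 1 × Fin 1) ⊕
      ((Fin (N + s + 1) ⊕ (Fin q × Fin (N + s + 1) × Fin w) ⊕ Unit) × Fin 1) → ℚ,
      P = R7.params ω (R7.data α b (ρ : ℚ)) := ⟨_, rfl⟩
  obtain ⟨P', hP'⟩ : ∃ P' : (Fin 1 × Fin 1 × Fin 1) ⊕
      ((Fin (N + s + 1) ⊕ (Fin q × Fin (N + s + 1) × Fin w) ⊕ Unit) × Fin 1) → ℚ,
      P' = R7.params (scale ω Δ hΔ) (R7.data (fun i => (Δ : ℚ) * ((Δ : ℚ) * α i))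
      (fun i y j => (Δ : ℚ) * (((Δ ^ (2 * m - 1) : ℕ) : ℚ) * b i y j))
      ((Δ : ℚ) * ((Δ : ℚ) * (ρ : ℚ)))) := ⟨_, rfl⟩
  have hPP : ∀ s, P' s = (((Δ ^ exw m s : ℕ) : ℤ) : ℚ) * (Δ * P s) := by
    intro s
    rw [hP', hP]
    exact params_scale_w ω Δ hΔ m hm α b (ρ : ℚ) s
  have hrep : ∀ (q : ℚ) (i : Fin 1), ω.repr q i = q := by
    intro q i
    rw [hω]
    have := omK_repr hf1 q i
    simpa using this
  have hωa : ∀ i, ω i = 1 := fun i => by rw [hω]; exact omK_apply hf1 i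
  have hPs : ∀ s, (P s = 1 ∨ (∃ i, P s = α i) ∨ (∃ i y j, P s = b i y j) ∨ P s = ρ) := by
    intro s
    rw [hP]
    rcases s with ⟨i, j, k⟩ | ⟨i | ⟨i, y, j⟩ | u, k⟩
    · left
      change ω.repr (ω i * ω j) k = 1
      rw [hωa, hωa, hrep, mul_one]
    · right; left
      exact ⟨i, hrep _ _⟩
    · right; right; left
      exact ⟨i, y, j, hrep _ _⟩
    · right; right; right
      exact hrep _ _
  have hPsh : ∀ s, Sh S l M (Δ * P s) := by
    intro s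
    rcases hPs s with h | ⟨i, h⟩ | ⟨i, y, j, h⟩ | h
    · rw [h, mul_one]; exact h4
    · rw [h, hα]; exact h1 i
    · rw [h]; exact h2 i y j
    · rw [h]; exact h3
  -- the upper bound for the size
  obtain ⟨E, hE⟩ : ∃ E : ℕ, E = ρ ^ m * (c * X ^ (A + 1)) := ⟨_, rfl⟩
  have hρm : 1 ≤ ρ ^ m := pow_pos hρ m
  have hcX : 1 ≤ c * X ^ (A + 1) := Nat.mul_pos hc1 (pow_pos hX1 _)
  have hE1 : 1 ≤ E := by rw [hE]; exact Nat.mul_pos hρm hcX
  have hXE : X ≤ E := by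
    rw [hE]
    calc X = X ^ 1 := (pow_one X).symm
      _ ≤ X ^ (A + 1) := Nat.pow_le_pow_right hX1 (by omega)
      _ ≤ c * X ^ (A + 1) := Nat.le_mul_of_pos_left _ hc1
      _ ≤ _ := Nat.le_mul_of_pos_left _ hρm
  have hρE : ρ ^ m ≤ E := by
    rw [hE]
    exact Nat.le_mul_of_pos_right _ hcX
  have hAE : ρ ^ m * (c * X ^ A) ≤ E := by
    rw [hE]
    exact Nat.mul_le_mul_left _ (Nat.mul_le_mul_left _ (Nat.pow_le_pow_right hX1 (by omega)))
  have hsize : R7.size P ≤ E := by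
    refine size_le_quot P _ fun s => ?_
    rcases hPs s with h | ⟨i, h⟩ | ⟨i, y, j, h⟩ | h
    · exact ⟨1, 1, one_ne_zero, by rw [h]; simp, hE1, hE1⟩
    · refine ⟨x i, 1, one_ne_zero, by rw [h, hα]; simp, ?_, hE1⟩
      exact (hX i).trans hXE
    · obtain ⟨n, D, hD0, hbe, hn, hDE⟩ := hnd i y j
      exact ⟨n, D, hD0, by rw [h]; exact hbe, hn.trans hAE, hDE.trans hAE⟩
    · refine ⟨ρ, 1, one_ne_zero, by rw [h]; simp, ?_, hE1⟩
      rw [Int.natAbs_natCast]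
      calc ρ = ρ ^ 1 := (pow_one ρ).symm
        _ ≤ ρ ^ m := Nat.pow_le_pow_right hρ hm
        _ ≤ _ := hρE
  have hsize' : R7.size P' ≤ Δ ^ (2 * m + 1) * R7.size P := by
    refine sz_mul_le P P' (fun s => Δ ^ (exw m s + 1)) (Δ ^ (2 * m + 1))
      (fun s => Nat.pow_le_pow_right hΔ ?_) (Nat.one_le_pow _ _ hΔ) (fun s => ?_)
    · have := exw_le m s
      omega
    · rw [hPP s]
      push_cast
      rw [pow_succ]
      ring
  have hlow : X ≤ R7.size P' := by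
    have h5 : P' (Sum.inr (Sum.inl i0, 0)) = ((Δ * x i0 : ℤ) : ℚ) := by
      rw [hPP]
      have h6 : P (Sum.inr (Sum.inl i0, 0)) = α i0 := by
        rw [hP]
        exact hrep _ _
      rw [h6, hα]
      change (((Δ ^ 0 : ℕ) : ℤ) : ℚ) * _ = _
      push_cast
      ring
    have h6 : max (P' (Sum.inr (Sum.inl i0, 0))).num.natAbs (P' (Sum.inr (Sum.inl i0, 0))).den ≤
        R7.size P' := Finset.le_sup (f := fun i => max (P' i).num.natAbs (P' i).den)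
          (Finset.mem_univ _)
    rw [h5, Rat.num_intCast] at h6
    refine le_trans ?_ ((le_max_left _ _).trans h6)
    rw [Int.natAbs_mul, Int.natAbs_natCast, hi0]
    exact Nat.le_mul_of_pos_left _ hΔ
  -- the short sum
  have hMpow : M ^ (2 * m + 1) ≤ Real.exp 1 * (R7.size P' : ℝ) ^ δ0 := by
    have h5 : M ^ (2 * m + 1) = Real.exp (μ * Real.log M) := by
      rw [hμ, Real.exp_nat_mul, Real.exp_log hM0]
    have h6 : (X : ℝ) ^ δ0 ≤ (R7.size P' : ℝ) ^ δ0 :=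
      Real.rpow_le_rpow (by linarith) (by exact_mod_cast hlow) hδ0.le
    have h7 : (X : ℝ) ^ δ0 = Real.exp (δ0 * H) := by
      rw [hH, Real.rpow_def_of_pos (by linarith), mul_comm]
    calc M ^ (2 * m + 1) = Real.exp (μ * Real.log M) := h5
      _ ≤ Real.exp (1 + δ0 * H) := by
          apply Real.exp_le_exp.2
          have h8 := mul_le_mul_of_nonneg_left hlM hμ0.le
          nlinarith
      _ = Real.exp 1 * (X : ℝ) ^ δ0 := by rw [Real.exp_add, h7]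
      _ ≤ _ := mul_le_mul_of_nonneg_left h6 (Real.exp_pos _).le
  have hshort : R7.IsShortSum S (Fintype.card (((Fin 1 × Fin 1 × Fin 1) ⊕
      ((Fin (N + s + 1) ⊕ (Fin q × Fin (N + s + 1) × Fin w) ⊕ Unit) × Fin 1)) × Fin l))
      (Real.exp 1) δ0 P' := by
    refine short_of_sh S l P' (fun s => Δ * P s) (fun s => ((Δ ^ exw m s : ℕ) : ℤ)) M
      (M ^ (2 * m)) _ _ hM0.le hPsh hPP (fun s => ?_) ?_
    · push_cast
      rw [abs_of_nonneg (by positivity)]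
      calc (Δ : ℝ) ^ exw m s ≤ (Δ : ℝ) ^ (2 * m) := pow_le_pow_right₀ hΔ1 (exw_le m s)
        _ ≤ M ^ (2 * m) := pow_le_pow_left₀ (by linarith) hΔM _
    · rw [← pow_succ]
      exact hMpow
  -- the relation
  obtain ⟨a', ha'⟩ : ∃ a' : Fin (N + s + 1) → ℚ, a' = fun i => (Δ : ℚ) * ((Δ : ℚ) * α i) :=
    ⟨_, rfl⟩
  have hsm' : a' = ((Δ : ℚ) * (Δ : ℚ)) • α := by
    rw [ha']
    funext i
    rw [Pi.smul_apply, smul_eq_mul]
    ring
  have hsc' : a' = fun i => ((Δ : ℚ) * (Δ : ℚ)) * α i := by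
    rw [ha']
    funext i
    ring
  have hDD : (Δ : ℚ) * (Δ : ℚ) ≠ 0 := mul_ne_zero hΔQ hΔQ
  have hlogh : Height.logHeight a' = Height.logHeight α := by
    rw [hsm', Height.logHeight_smul_eq_logHeight _ hDD]
  have hcan : R7.canonicalHeight a' T = R7.canonicalHeight α T := by
    unfold R7.canonicalHeight
    rw [hlogh]
  have hFα : ∀ i j, aeval α (F i j) = ((aeval x (F i j) : ℤ) : ℚ) := fun i j => by
    rw [hα]; exact aeval_int (F i j) x
  have hFa : ∀ i j, aeval a' (F i j) = ((Δ : ℚ) * Δ) ^ d * ((aeval x (F i j) : ℤ) : ℚ) :=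
    fun i j => by
      rw [hsc', aeval_scale (hF i j), hFα]
  have hdiv : R7.divisorHeight F (fun _ _ => d) a' = R7.divisorHeight F (fun _ _ => d) α := by
    rw [hsc']
    exact div_scale F d hF _ hDD α
  have key := hcore 1 le_rfl ℚ (scale ω Δ hΔ) a'
    (fun i y j => (Δ : ℚ) * (((Δ ^ (2 * m - 1) : ℕ) : ℚ) * b i y j))
    ((Δ : ℚ) * ((Δ : ℚ) * (ρ : ℚ)))
    (fun k => by
      rw [hsc', aeval_scale (hG k)]
      have h5 : aeval α (G k) = 0 := by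
        rw [hα, aeval_int, hxG k, Int.cast_zero]
      rw [h5, mul_zero])
    (mul_ne_zero hΔQ (mul_ne_zero hΔQ hρQ))
    (by
      intro i y
      have h5 : (Δ : ℚ) * ((Δ ^ (2 * m - 1) : ℕ) : ℚ) = (Δ : ℚ) ^ (2 * m) := by
        push_cast
        rw [← pow_succ']
        congr 1
        omega
      have h6 : ((Δ : ℚ) * ((Δ : ℚ) * (ρ : ℚ))) ^ m = (Δ : ℚ) ^ (2 * m) * (ρ : ℚ) ^ m := by
        rw [← mul_assoc, mul_pow, ← pow_two, ← pow_mul]
      have h7 : a' y ^ d = ((Δ : ℚ) * Δ) ^ d * (x y : ℚ) ^ d := by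
        rw [hsc', hα, mul_pow]
      have h8 : ∀ j, aeval a' (F i j) * ((Δ : ℚ) * (((Δ ^ (2 * m - 1) : ℕ) : ℚ) * b i y j)) =
          (((Δ : ℚ) * Δ) ^ d * (Δ : ℚ) ^ (2 * m)) * (((aeval x (F i j) : ℤ) : ℚ) * b i y j) := by
        intro j
        rw [hFa i j, ← h5]
        ring
      show ((Δ : ℚ) * ((Δ : ℚ) * (ρ : ℚ))) ^ m * a' y ^ d =
        ∑ j, aeval a' (F i j) * ((Δ : ℚ) * (((Δ ^ (2 * m - 1) : ℕ) : ℚ) * b i y j))
      rw [Finset.sum_congr rfl fun j _ => h8 j, ← Finset.mul_sum, ← hb i y, h6, h7]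
      ring)
    (by rw [ha', ← hP']; exact hshort)
    (by
      rw [aeval_inst _ (Algebra.id ℚ), hsc', aeval_scaleQ hΦ]
      exact mul_ne_zero (pow_ne_zero _ hDD) hxΦ)
    T ⟨hT.1, fun k c => by
      have h5 : ∀ j, aeval a' (pderiv j (G k)) = ((Δ : ℚ) * Δ) ^ (e k - 1) *
          aeval α (pderiv j (G k)) := fun j => by
        rw [hsc', aeval_scale (hG k).pderiv]
      simp only [h5]
      have h6 := hT.2 k c
      simp only [mul_assoc]
      rw [← Finset.mul_sum, h6, mul_zero]⟩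
  obtain ⟨key1, -⟩ := key
  rw [hcan, hdiv, ha', ← hP'] at key1
  have k1 : R7.counting S ((Δ : ℚ) * ((Δ : ℚ) * (ρ : ℚ))) ≤ Real.log ρ + 2 * Real.log Δ := by
    have h5 := counting_natMul S Δ hΔ ((Δ : ℚ) * (ρ : ℚ)) (mul_ne_zero hΔQ hρQ)
    have h6 := counting_natMul S Δ hΔ (ρ : ℚ) hρQ
    have h7 := counting_le (K := ℚ) hf1 S ρ hρ
    linarith
  have k2 : R7.logDiscBasis S (scale ω Δ hΔ) ≤ 2 * Real.log Δ := by
    have h5 := logDiscBasis_scale S hS ω Δ hΔ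
    have h6 : R7.logDiscBasis S ω = 0 := by rw [hω]; exact omK_logDisc hf1 S
    linarith
  have k3 : Real.log (R7.size P') ≤ μ * Real.log Δ + (m * Real.log ρ +
      (Real.log c + (A + 1) * H)) := by
    have h5 : (R7.size P' : ℝ) ≤ (Δ : ℝ) ^ (2 * m + 1) * ((ρ : ℝ) ^ m * (c * X ^ (A + 1))) := by
      have h6 : R7.size P' ≤ Δ ^ (2 * m + 1) * (ρ ^ m * (c * X ^ (A + 1))) := by
        rw [← hE]
        exact hsize'.trans (Nat.mul_le_mul_left _ hsize)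
      exact_mod_cast h6
    have hs0 : (1 : ℝ) ≤ R7.size P' := by exact_mod_cast hX1.trans hlow
    have h6 := Real.log_le_log (by linarith) h5
    rw [Real.log_mul (by positivity) (by positivity), Real.log_mul (by positivity)
      (by positivity), Real.log_mul (by positivity) (by positivity), Real.log_pow, Real.log_pow,
      Real.log_pow, ← hμ, ← hH] at h6
    push_cast at h6
    exact h6
  have hlΔ : Real.log Δ ≤ δ * (1 + H) := (Real.log_le_log (by linarith) hΔM).trans hlM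
  have k4 : ν * Real.log Δ ≤ ε / 2 * (1 + H) := by
    calc ν * Real.log Δ ≤ ν * (δ * (1 + H)) := mul_le_mul_of_nonneg_left hlΔ hν0.le
      _ = ν * δ * (1 + H) := by ring
      _ ≤ ε / 2 * (1 + H) := mul_le_mul_of_nonneg_right hδ3 (by linarith)
  have k5 : ε0 * Real.log (R7.size P') ≤ ε0 * μ * Real.log Δ + (ε0 * m * Real.log ρ +
      (ε0 * Real.log c + ε0 * (A + 1) * H)) := by
    have h5 := mul_le_mul_of_nonneg_left k3 hε00.le
    linarith
  have k6 : ε0 * m ≤ ε / 2 := by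
    have h5 : 0 ≤ ε0 * ((A : ℝ) + 1) := by positivity
    linarith
  have k7 : ε0 * ((A : ℝ) + 1) ≤ ε / 2 := by
    have h5 : 0 ≤ ε0 * (m : ℝ) := by positivity
    linarith
  have k8 : ε0 * m * Real.log ρ ≤ ε / 2 * Real.log ρ := mul_le_mul_of_nonneg_right k6 hlρ
  have k9 : ε0 * ((A : ℝ) + 1) * H ≤ ε / 2 * H := mul_le_mul_of_nonneg_right k7 hH0
  have k10 : C0 ≤ |C0| := le_abs_self _
  have k11 : ν * Real.log Δ = 4 * Real.log Δ + ε0 * μ * Real.log Δ := by rw [hν]; ring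
  have k12 : 0 ≤ ε / 2 * Real.log ρ := by positivity
  have k13 : R7.counting S ((Δ : ℚ) * ((Δ : ℚ) * (ρ : ℚ))) +
      R7.logDiscBasis S (scale ω Δ hΔ) ≤ Real.log ρ + 4 * Real.log Δ := by linarith
  nlinarith

end Pool.Agent.H455.PP_DEN
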