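import Mathlib
import Pool.Agent.H455.PP

set_option autoImplicit false

open MvPolynomial

namespace Pool.Agent.H455.PP_DIM

open Pool.Agent.H455.PP Pool.Agent.Y724.T4

theorem main : Pool.Agent.H455.PP.S_DIM := by
  refine ⟨![0, 1, 2], fun P hP => ?_⟩
  have hX : P * X (0 : Fin (2 + 1)) = 0 := by
    apply MvPolynomial.funext
    intro w
    rw [map_zero, map_mul, eval_X]
    by_cases h0 : w 0 = 0
    · rw [h0, mul_zero]
    have h2 := hP (![algebraMap ℚ ℂ (w 0), algebraMap ℚ ℂ (w 1), algebraMap ℚ ℂ (w 2),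
      algebraMap ℚ ℂ (w 1 * w 2 / w 0)] : Fin (2 + 1 + 1) → ℂ) (fun k => by
        unfold Gq
        rw [map_sub, map_mul, map_mul, aeval_X, aeval_X, aeval_X, aeval_X]
        have e0 : (![algebraMap ℚ ℂ (w 0), algebraMap ℚ ℂ (w 1), algebraMap ℚ ℂ (w 2),
          algebraMap ℚ ℂ (w 1 * w 2 / w 0)] : Fin (2 + 1 + 1) → ℂ) 0 = algebraMap ℚ ℂ (w 0) := rfl
        have e1 : (![algebraMap ℚ ℂ (w 0), algebraMap ℚ ℂ (w 1), algebraMap ℚ ℂ (w 2),
          algebraMap ℚ ℂ (w 1 * w 2 / w 0)] : Fin (2 + 1 + 1) → ℂ) 1 = algebraMap ℚ ℂ (w 1) := rfl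
        have e2 : (![algebraMap ℚ ℂ (w 0), algebraMap ℚ ℂ (w 1), algebraMap ℚ ℂ (w 2),
          algebraMap ℚ ℂ (w 1 * w 2 / w 0)] : Fin (2 + 1 + 1) → ℂ) 2 = algebraMap ℚ ℂ (w 2) := rfl
        have e3 : (![algebraMap ℚ ℂ (w 0), algebraMap ℚ ℂ (w 1), algebraMap ℚ ℂ (w 2),
          algebraMap ℚ ℂ (w 1 * w 2 / w 0)] : Fin (2 + 1 + 1) → ℂ) 3 =
            algebraMap ℚ ℂ (w 1 * w 2 / w 0) := rfl
        rw [e0, e1, e2, e3, ← map_mul, ← map_mul, ← map_sub]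
        have h3 : w 0 * (w 1 * w 2 / w 0) - w 1 * w 2 = 0 := by
          field_simp
          ring
        rw [h3, map_zero])
    have h3 : (fun i : Fin (2 + 1) => (![algebraMap ℚ ℂ (w 0), algebraMap ℚ ℂ (w 1),
        algebraMap ℚ ℂ (w 2), algebraMap ℚ ℂ (w 1 * w 2 / w 0)] : Fin (2 + 1 + 1) → ℂ)
          ((![0, 1, 2] : Fin (2 + 1) → Fin (2 + 1 + 1)) i)) = fun i => algebraMap ℚ ℂ (w i) := by
      funext i
      fin_cases i <;> rfl
    have h4 : aeval (fun i : Fin (2 + 1) => algebraMap ℚ ℂ (w i)) P = 0 := by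
      rw [← h3]
      exact h2
    have h5 := aeval_algebraMap_apply ℂ w P
    have h6 : algebraMap ℚ ℂ (aeval w P) = 0 := by
      rw [← h5]
      exact h4
    have h7 : aeval w P = 0 := (map_eq_zero _).1 h6
    rw [aeval_eq_eval] at h7
    have h8 : eval w P = 0 := h7
    rw [h8, zero_mul]
  rcases mul_eq_zero.1 hX with h | h
  · exact h
  · exact absurd h (X_ne_zero _)

end Pool.Agent.H455.PP_DIM
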