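import Mathlib
import Pool.Agent.H455.PP

set_option autoImplicit false

/-!
# The height of a divisor of bidegree `(q, r)` on the Segre quadric
-/

open Finset Filter Topology MvPolynomial NumberField

namespace Pool.Agent.H455.PP_DIV

open Pool.Agent.H455.PP Pool.Agent.H455.CB Pool.Agent.H455.AB Pool.Agent.Y724.T4 Pool.Agent.H455.SZ
open Pool.Agent.H455.VO Pool.Agent.K3h2.LA

theorem exists_sup (v : AbsoluteValue ℚ ℝ) (a : Fin 2 → ℚ) :
    ∃ s, (⨆ s, v (a s)) = v (a s) ∧ ∀ s', v (a s') ≤ v (a s) := by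
  obtain ⟨s, hs⟩ := exists_eq_ciSup_of_finite (f := fun s => v (a s))
  refine ⟨s, hs.symm, fun s' => ?_⟩
  have h : v (a s') ≤ ⨆ s, v (a s) :=
    le_ciSup (f := fun s => v (a s)) (Set.finite_range _).bddAbove s'
  exact h.trans (le_of_eq hs.symm)

theorem idx (s t : Fin 2) : ∃ j, row j = s ∧ col j = t := by
  fin_cases s <;> fin_cases t
  · exact ⟨0, rfl, rfl⟩
  · exact ⟨1, rfl, rfl⟩
  · exact ⟨2, rfl, rfl⟩
  · exact ⟨3, rfl, rfl⟩

theorem local_eq (v : AbsoluteValue ℚ ℝ) (f : ℚ) (hf : f ≠ 0) (q r d : ℕ) (hq : q ≤ d) (hr : r ≤ d)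
    (a b : Fin 2 → ℚ) (ha : a ≠ 0) (hb : b ≠ 0) :
    -Real.log (⨆ j : Fin (2 + 1 + 1), v (f * a (row j) ^ (d - q) * b (col j) ^ (d - r)) /
      (⨆ i, v (a (row i) * b (col i))) ^ d) =
      q * Real.log (⨆ s, v (a s)) + r * Real.log (⨆ t, v (b t)) - Real.log (v f) := by
  obtain ⟨s, hs, hs'⟩ := exists_sup v a
  obtain ⟨t, ht, ht'⟩ := exists_sup v b
  obtain ⟨j₀, hj1, hj2⟩ := idx s t
  have hA : 0 < v (a s) := by rw [← hs]; exact sup_pos ha v
  have hB : 0 < v (b t) := by rw [← ht]; exact sup_pos hb v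
  have hF : 0 < v f := v.pos hf
  have h1 : (⨆ i : Fin (2 + 1 + 1), v (a (row i) * b (col i))) = v (a s) * v (b t) := by
    apply le_antisymm
    · refine ciSup_le fun i => ?_
      rw [map_mul]
      exact mul_le_mul (hs' _) (ht' _) (v.nonneg _) (v.nonneg _)
    · refine le_trans (le_of_eq ?_) (le_ciSup (f := fun i : Fin (2 + 1 + 1) =>
        v (a (row i) * b (col i))) (Set.finite_range _).bddAbove j₀)
      show _ = v (a (row j₀) * b (col j₀))
      rw [map_mul, hj1, hj2]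
  have hAB : 0 < (v (a s) * v (b t)) ^ d := pow_pos (mul_pos hA hB) _
  have h2 : (⨆ j : Fin (2 + 1 + 1), v (f * a (row j) ^ (d - q) * b (col j) ^ (d - r)) /
      (v (a s) * v (b t)) ^ d) =
      v f * v (a s) ^ (d - q) * v (b t) ^ (d - r) / (v (a s) * v (b t)) ^ d := by
    apply le_antisymm
    · refine ciSup_le fun i => ?_
      rw [map_mul, map_mul, map_pow, map_pow]
      refine div_le_div_of_nonneg_right ?_ hAB.le
      refine mul_le_mul (mul_le_mul_of_nonneg_left ?_ hF.le) ?_ (pow_nonneg (v.nonneg _) _)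
        (mul_nonneg hF.le (pow_nonneg (v.nonneg _) _))
      · exact pow_le_pow_left₀ (v.nonneg _) (hs' _) _
      · exact pow_le_pow_left₀ (v.nonneg _) (ht' _) _
    · refine le_trans (le_of_eq ?_) (le_ciSup (f := fun j : Fin (2 + 1 + 1) =>
        v (f * a (row j) ^ (d - q) * b (col j) ^ (d - r)) / (v (a s) * v (b t)) ^ d)
        (Set.finite_range _).bddAbove j₀)
      show _ = v (f * a (row j₀) ^ (d - q) * b (col j₀) ^ (d - r)) / (v (a s) * v (b t)) ^ d
      rw [map_mul, map_mul, map_pow, map_pow, hj1, hj2]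
  rw [h1, h2, hs, ht, Real.log_div (by positivity) hAB.ne', Real.log_mul (by positivity) (by positivity),
    Real.log_mul (by positivity) (by positivity), Real.log_pow, Real.log_pow, Real.log_pow,
    Real.log_mul hA.ne' hB.ne', Nat.cast_sub hq, Nat.cast_sub hr]
  ring

theorem value {k d : ℕ} {q r : Fin k → ℕ} {F : Fin k → MvPolynomial (Fin 2 ⊕ Fin 2) ℤ}
    {Q : Fin k → Fin (2 + 1 + 1) → MvPolynomial (Fin (2 + 1 + 1)) ℤ} (hQ : IsLift d q r F Q)
    (a b : Fin 2 → ℤ) (i : Fin k) (j : Fin (2 + 1 + 1)) :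
    aeval (sq a b) (Q i j) = ((aeval (Sum.elim a b) (F i) : ℤ) : ℚ) *
      (a (row j) : ℚ) ^ (d - q i) * (b (col j) : ℚ) ^ (d - r i) := by
  have h1 := congrArg (aeval (Sum.elim a b) : MvPolynomial (Fin 2 ⊕ Fin 2) ℤ →ₐ[ℤ] ℤ) (hQ.2 i j)
  rw [comp_aeval_apply] at h1
  have h2 : (fun j => (aeval (Sum.elim a b) : MvPolynomial (Fin 2 ⊕ Fin 2) ℤ →ₐ[ℤ] ℤ)
      (seg (fun s : Fin 2 => (X (Sum.inl s) : MvPolynomial (Fin 2 ⊕ Fin 2) ℤ))
      (fun t : Fin 2 => X (Sum.inr t)) j)) = seg a b := by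
    funext j
    unfold seg
    rw [map_mul, aeval_X, aeval_X]
    rfl
  rw [h2, map_mul, map_mul, map_pow, map_pow, aeval_X, aeval_X] at h1
  have h3 : aeval (sq a b) (Q i j) = ((aeval (seg a b) (Q i j) : ℤ) : ℚ) := aeval_int _ _
  rw [h3, h1]
  push_cast
  rfl

theorem ne_zero_of_coprime {a : Fin 2 → ℤ} (ha : IsCoprime (a 0) (a 1)) :
    (fun s => (a s : ℚ)) ≠ 0 := by
  intro h
  have h0 : a 0 = 0 := by
    have := congrFun h 0
    simpa using this
  have h1 : a 1 = 0 := by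
    have := congrFun h 1
    simpa using this
  rw [h0, h1] at ha
  exact not_isCoprime_zero_zero ha

theorem log_mx_le {a : Fin 2 → ℤ} (ha : IsCoprime (a 0) (a 1)) :
    Real.log (mx a) ≤ R7.height (fun s => (a s : ℚ)) := by
  have hp : ∀ p : ℕ, p.Prime → ∃ i, ¬ (p : ℤ) ∣ a i := by
    intro p hp
    by_contra hcon
    push Not at hcon
    have h1 : IsUnit (p : ℤ) := ha.isUnit_of_dvd' (hcon 0) (hcon 1)
    rw [Int.isUnit_iff] at h1
    have := hp.two_le
    omega
  have hex : ∃ i, mx a = (a i).natAbs ∧ a i ≠ 0 := by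
    have hne : ¬ (a 0 = 0 ∧ a 1 = 0) := by
      rintro ⟨h0, h1⟩
      rw [h0, h1] at ha
      exact not_isCoprime_zero_zero ha
    rcases le_total (a 0).natAbs (a 1).natAbs with h | h
    · refine ⟨1, ?_, ?_⟩
      · unfold mx
        exact max_eq_right h
      · intro h1
        rw [h1] at h
        simp only [Int.natAbs_zero] at h
        exact hne ⟨by omega, h1⟩
    · refine ⟨0, ?_, ?_⟩
      · unfold mx
        exact max_eq_left h
      · intro h1
        rw [h1] at h
        simp only [Int.natAbs_zero] at h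
        exact hne ⟨h1, by omega⟩
  obtain ⟨i, hi, hi0⟩ := hex
  have h2 := Pool.Agent.H455.AD.log_le_height a hp i hi0
  rw [hi, Nat.cast_natAbs, Int.cast_abs]
  exact h2

theorem main : S_DIV := by
  intro k d q r F Q hqr hQ a b ha hb hF
  have ha0 := ne_zero_of_coprime ha
  have hb0 := ne_zero_of_coprime hb
  have hloc : ∀ (i : Fin k) (v : AbsoluteValue ℚ ℝ),
      R7.localHeight (Q i) (fun _ => d) (sq a b) v =
        q i * Real.log (⨆ s, v ((a s : ℚ))) + r i * Real.log (⨆ t, v ((b t : ℚ))) -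
          Real.log (v ((aeval (Sum.elim a b) (F i) : ℤ) : ℚ)) := by
    intro i v
    have hf : ((aeval (Sum.elim a b) (F i) : ℤ) : ℚ) ≠ 0 := by exact_mod_cast hF i
    rw [← local_eq v _ hf (q i) (r i) d (hqr i).1 (hqr i).2 _ _ ha0 hb0]
    unfold R7.localHeight
    have h1 : ∀ j, aeval (sq a b) (Q i j) = ((aeval (Sum.elim a b) (F i) : ℤ) : ℚ) *
      (a (row j) : ℚ) ^ (d - q i) * (b (col j) : ℚ) ^ (d - r i) := value hQ a b i
    have h2 : ∀ j, sq a b j = (a (row j) : ℚ) * (b (col j) : ℚ) := by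
      intro j
      unfold PP.sq seg
      push_cast
      rfl
    simp only [h1, h2]
  have hdiv : R7.divisorHeight Q (fun _ _ => d) (sq a b) =
      (∑ i, (q i : ℝ)) * R7.height (fun s => (a s : ℚ)) +
        (∑ i, (r i : ℝ)) * R7.height (fun s => (b s : ℚ)) := by
    unfold R7.divisorHeight R7.height
    rw [← mul_div_assoc, ← mul_div_assoc, ← add_div, Finset.sum_mul, Finset.sum_mul,
      ← Finset.sum_add_distrib]
    congr 1
    refine Finset.sum_congr rfl fun i _ => ?_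
    have hf : ((aeval (Sum.elim a b) (F i) : ℤ) : ℚ) ≠ 0 := by exact_mod_cast hF i
    have h1 := logHeight_sum ha0
    have h1' := logHeight_sum hb0
    have h2 := prod_formula hf
    have hs : (Function.support fun v : FinitePlace ℚ =>
        Real.log (⨆ s, v ((a s : ℚ)))).Finite := by
      refine (sup_fin ha0).subset fun v hv h => hv ?_
      change Real.log (⨆ i, v ((a i : ℚ))) = 0
      rw [h, Real.log_one]
    have hs' : (Function.support fun v : FinitePlace ℚ =>
        Real.log (⨆ s, v ((b s : ℚ)))).Finite := by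
      refine (sup_fin hb0).subset fun v hv h => hv ?_
      change Real.log (⨆ i, v ((b i : ℚ))) = 0
      rw [h, Real.log_one]
    have hs'' : (Function.support fun v : FinitePlace ℚ =>
        Real.log (v ((aeval (Sum.elim a b) (F i) : ℤ) : ℚ))).Finite := by
      refine (fin_ne_one hf).subset fun v hv h => hv ?_
      change Real.log (v ((aeval (Sum.elim a b) (F i) : ℤ) : ℚ)) = 0
      rw [h, Real.log_one]
    have hm : (Function.support fun v : FinitePlace ℚ =>
        (q i : ℝ) * Real.log (⨆ s, v ((a s : ℚ)))).Finite :=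
      hs.subset fun v hv h => hv (by
        have h' : Real.log (⨆ s, v ((a s : ℚ))) = 0 := h
        change (q i : ℝ) * Real.log (⨆ s, v ((a s : ℚ))) = 0
        rw [h', mul_zero])
    have hm' : (Function.support fun v : FinitePlace ℚ =>
        (r i : ℝ) * Real.log (⨆ s, v ((b s : ℚ)))).Finite :=
      hs'.subset fun v hv h => hv (by
        have h' : Real.log (⨆ s, v ((b s : ℚ))) = 0 := h
        change (r i : ℝ) * Real.log (⨆ s, v ((b s : ℚ))) = 0
        rw [h', mul_zero])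
    have hmm : (Function.support fun v : FinitePlace ℚ =>
        (q i : ℝ) * Real.log (⨆ s, v ((a s : ℚ))) +
        (r i : ℝ) * Real.log (⨆ s, v ((b s : ℚ)))).Finite :=
      (hm.union hm').subset (Function.support_add _ _)
    have h3 : ∑ᶠ v : FinitePlace ℚ, R7.localHeight (Q i) (fun _ => d) (sq a b) v.1 =
        q i * ∑ᶠ v : FinitePlace ℚ, Real.log (⨆ s, v ((a s : ℚ))) +
        r i * ∑ᶠ v : FinitePlace ℚ, Real.log (⨆ s, v ((b s : ℚ))) -
          ∑ᶠ v : FinitePlace ℚ, Real.log (v ((aeval (Sum.elim a b) (F i) : ℤ) : ℚ)) := by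
      rw [mul_finsum, mul_finsum, ← finsum_add_distrib hm hm',
        ← finsum_sub_distrib hmm hs'']
      exact finsum_congr fun v => hloc i v.1
    have h4 : ∑ v : InfinitePlace ℚ, v.mult * R7.localHeight (Q i) (fun _ => d) (sq a b) v.1 =
        q i * ∑ v : InfinitePlace ℚ, v.mult * Real.log (⨆ s, v ((a s : ℚ))) +
        r i * ∑ v : InfinitePlace ℚ, v.mult * Real.log (⨆ s, v ((b s : ℚ))) -
        ∑ v : InfinitePlace ℚ, v.mult * Real.log (v ((aeval (Sum.elim a b) (F i) : ℤ) : ℚ)) := by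
      rw [Finset.mul_sum, Finset.mul_sum, ← Finset.sum_add_distrib, ← Finset.sum_sub_distrib]
      refine Finset.sum_congr rfl fun v _ => ?_
      rw [hloc i v.1]
      have e1 : (v.1 ((aeval (Sum.elim a b) (F i) : ℤ) : ℚ)) =
        v ((aeval (Sum.elim a b) (F i) : ℤ) : ℚ) := rfl
      have e2 : (⨆ j, v.1 ((a j : ℚ))) = ⨆ j, v ((a j : ℚ)) := rfl
      have e3 : (⨆ j, v.1 ((b j : ℚ))) = ⨆ j, v ((b j : ℚ)) := rfl
      rw [e1, e2, e3]
      ring
    rw [h3, h4, h1, h1']
    linear_combination -h2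
  rw [hdiv]
  have hq0 : 0 ≤ ∑ i, (q i : ℝ) := Finset.sum_nonneg fun i _ => Nat.cast_nonneg _
  have hr0 : 0 ≤ ∑ i, (r i : ℝ) := Finset.sum_nonneg fun i _ => Nat.cast_nonneg _
  exact add_le_add (mul_le_mul_of_nonneg_left (log_mx_le ha) hq0)
    (mul_le_mul_of_nonneg_left (log_mx_le hb) hr0)

end Pool.Agent.H455.PP_DIV
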