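import Mathlib
import Pool.Agent.H455.PP

set_option autoImplicit false

/-!
# The height of a point on the Segre quadric
-/

open Finset Filter Topology MvPolynomial NumberField

namespace Pool.Agent.H455.PP_HGT

open Pool.Agent.H455.VO Pool.Agent.H455.TR Pool.Agent.Y724.T4 Pool.Agent.H455.AD
open Pool.Agent.H455.PP

/-- upper bound for the height of an integral vector -/
theorem height_le {n : ℕ} (z : Fin n → ℤ) (i : Fin n) (hi : z i ≠ 0) (B : ℝ)
    (hB : ∀ j, |(z j : ℝ)| ≤ B) : R7.height (fun j => (z j : ℚ)) ≤ Real.log B := by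
  have h1 : Module.finrank ℚ ℚ = 1 := Module.finrank_self ℚ
  unfold R7.height
  rw [h1, Nat.cast_one, div_one]
  have : Nonempty (Fin n) := ⟨i⟩
  have hx : (fun j => (z j : ℚ)) ≠ 0 := by
    intro h
    have h3 := congrFun h i
    simp only [Pi.zero_apply, Int.cast_eq_zero] at h3
    exact hi h3
  have hle : ∀ (v : AbsoluteValue ℚ ℝ) (j : Fin n), v ((z j : ℚ)) ≤ ⨆ j, v ((z j : ℚ)) :=
    fun v j => le_ciSup (f := fun j => v ((z j : ℚ))) (Finite.bddAbove_range _) j
  rw [logHeight_sum hx]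
  have hmult : ∑ v : InfinitePlace ℚ, (v.mult : ℝ) = 1 := by
    rw [← Nat.cast_one, ← h1, ← InfinitePlace.sum_mult_eq]
    push_cast
    rfl
  have hz0 : (0 : ℝ) < |(z i : ℝ)| := by
    have : (z i : ℝ) ≠ 0 := by exact_mod_cast hi
    positivity
  have h3 : ∑ v : InfinitePlace ℚ, (v.mult : ℝ) * Real.log (⨆ j, v ((z j : ℚ))) ≤
      Real.log B := by
    have h4 : ∑ v : InfinitePlace ℚ, (v.mult : ℝ) * Real.log (⨆ j, v ((z j : ℚ))) ≤
        ∑ v : InfinitePlace ℚ, (v.mult : ℝ) * Real.log B := by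
      refine Finset.sum_le_sum fun v _ => mul_le_mul_of_nonneg_left ?_ (Nat.cast_nonneg _)
      refine Real.log_le_log ?_ ?_
      · have h5 := hle v.1 i
        have h6 := RTHaux.inf_int v (z i)
        rw [← h6] at hz0
        exact lt_of_lt_of_le hz0 h5
      · refine ciSup_le fun j => ?_
        have h6 := RTHaux.inf_int v (z j)
        rw [h6]
        exact hB j
    rwa [← Finset.sum_mul, hmult, one_mul] at h4
  have h4 : ∑ᶠ v : FinitePlace ℚ, Real.log (⨆ j, v ((z j : ℚ))) ≤ 0 := by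
    have h5 : 0 ≤ ∑ᶠ v : FinitePlace ℚ, -Real.log (⨆ j, v ((z j : ℚ))) := by
      refine finsum_nonneg fun v => ?_
      rw [Left.nonneg_neg_iff]
      refine Real.log_nonpos ((apply_nonneg v.1 _).trans (hle v.1 i)) ?_
      exact ciSup_le fun j => PLCaux.int_le_one v (z j)
    rw [finsum_neg_distrib] at h5
    linarith
  linarith

theorem mx_attained (a : Fin 2 → ℤ) : ∃ s, (a s).natAbs = mx a := by
  unfold mx
  rcases le_total (a 0).natAbs (a 1).natAbs with h | h
  · exact ⟨1, by rw [max_eq_right h]⟩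
  · exact ⟨0, by rw [max_eq_left h]⟩

theorem le_mx (a : Fin 2 → ℤ) (s : Fin 2) : (a s).natAbs ≤ mx a := by
  unfold mx
  fin_cases s
  · exact le_max_left _ _
  · exact le_max_right _ _

theorem mx_pos (a : Fin 2 → ℤ) (ha : IsCoprime (a 0) (a 1)) : 0 < mx a := by
  rw [Nat.pos_iff_ne_zero]
  intro h
  have h0 : a 0 = 0 := by
    have := le_mx a 0
    omega
  have h1 : a 1 = 0 := by
    have := le_mx a 1
    omega
  rw [h0, h1] at ha
  exact not_isCoprime_zero_zero ha

theorem exists_not_dvd (a : Fin 2 → ℤ) (ha : IsCoprime (a 0) (a 1)) (p : ℕ) (hp : p.Prime) :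
    ∃ s, ¬ (p : ℤ) ∣ a s := by
  by_contra hcon
  push Not at hcon
  have h1 : (p : ℤ) ∣ 1 := by
    obtain ⟨u, v, huv⟩ := ha
    rw [← huv]
    exact dvd_add ((hcon 0).mul_left _) ((hcon 1).mul_left _)
  have h2 := Int.natAbs_dvd_natAbs.2 h1
  simp only [Int.natAbs_natCast, Int.natAbs_one, Nat.dvd_one] at h2
  exact hp.one_lt.ne' h2

/-- the index of the product -/
theorem exists_index (s t : Fin 2) : ∃ j : Fin (2 + 1 + 1), row j = s ∧ col j = t := by
  fin_cases s <;> fin_cases t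
  · exact ⟨0, rfl, rfl⟩
  · exact ⟨1, rfl, rfl⟩
  · exact ⟨2, rfl, rfl⟩
  · exact ⟨3, rfl, rfl⟩

theorem main : Pool.Agent.H455.PP.S_HGT := by
  intro a b ha hb
  have hpa := mx_pos a ha
  have hpb := mx_pos b hb
  have hlog : Real.log (mx a) + Real.log (mx b) = Real.log ((mx a : ℝ) * (mx b : ℝ)) := by
    rw [Real.log_mul]
    · exact_mod_cast hpa.ne'
    · exact_mod_cast hpb.ne'
  have habs : ∀ j, |((seg a b j : ℤ) : ℝ)| = ((a (row j)).natAbs : ℝ) * ((b (col j)).natAbs : ℝ) := by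
    intro j
    unfold seg
    push_cast
    rw [abs_mul, Nat.cast_natAbs, Nat.cast_natAbs]
    push_cast
    rfl
  obtain ⟨s, hs⟩ := mx_attained a
  obtain ⟨t, ht⟩ := mx_attained b
  obtain ⟨j, hj1, hj2⟩ := exists_index s t
  have hjv : |((seg a b j : ℤ) : ℝ)| = (mx a : ℝ) * (mx b : ℝ) := by
    rw [habs, hj1, hj2, hs, ht]
  have hjne : seg a b j ≠ 0 := by
    intro h
    rw [h, Int.cast_zero, abs_zero] at hjv
    have : (0 : ℝ) < (mx a : ℝ) * (mx b : ℝ) := by
      have h1 : (0 : ℝ) < (mx a : ℝ) := by exact_mod_cast hpa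
      have h2 : (0 : ℝ) < (mx b : ℝ) := by exact_mod_cast hpb
      positivity
    linarith
  rw [hlog]
  apply le_antisymm
  · refine height_le (seg a b) j hjne _ fun i => ?_
    rw [habs]
    have h1 : ((a (row i)).natAbs : ℝ) ≤ (mx a : ℝ) := by exact_mod_cast le_mx a (row i)
    have h2 : ((b (col i)).natAbs : ℝ) ≤ (mx b : ℝ) := by exact_mod_cast le_mx b (col i)
    exact mul_le_mul h1 h2 (Nat.cast_nonneg _) (Nat.cast_nonneg _)
  · rw [← hjv]
    refine log_le_height (seg a b) (fun p hp => ?_) j hjne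
    obtain ⟨s', hs'⟩ := exists_not_dvd a ha p hp
    obtain ⟨t', ht'⟩ := exists_not_dvd b hb p hp
    obtain ⟨i, hi1, hi2⟩ := exists_index s' t'
    refine ⟨i, ?_⟩
    unfold seg
    rw [hi1, hi2]
    intro h
    rcases (Nat.prime_iff_prime_int.1 hp).dvd_or_dvd h with h1 | h1
    · exact hs' h1
    · exact ht' h1

end Pool.Agent.H455.PP_HGT
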