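import Mathlib
import Pool.Agent.H455.PP

/-!
# PP, IRR: the Segre quadric is irreducible
-/

set_option autoImplicit false

open Finset Filter Topology MvPolynomial

namespace Pool.Agent.H455.PP_IRR

open Pool.Agent.H455.PP Pool.Agent.H455.TR

/-- every point of the quadric is in the image of the Segre map -/
theorem par (z : Fin (2 + 1 + 1) → ℂ) (h : z 0 * z 3 = z 1 * z 2) :
    ∃ a b : Fin 2 → ℂ, ∀ j, z j = a (row j) * b (col j) := by
  by_cases h0 : z 0 = 0
  · by_cases h1 : z 1 = 0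
    · refine ⟨![0, 1], ![z 2, z 3], fun j => ?_⟩
      fin_cases j
      · show z 0 = 0 * z 2
        rw [h0, zero_mul]
      · show z 1 = 0 * z 3
        rw [h1, zero_mul]
      · show z 2 = 1 * z 2
        rw [one_mul]
      · show z 3 = 1 * z 3
        rw [one_mul]
    · have h2 : z 2 = 0 := by
        rw [h0, zero_mul] at h
        exact (mul_eq_zero.1 h.symm).resolve_left h1
      refine ⟨![z 1, z 3], ![0, 1], fun j => ?_⟩
      fin_cases j
      · show z 0 = z 1 * 0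
        rw [h0, mul_zero]
      · show z 1 = z 1 * 1
        rw [mul_one]
      · show z 2 = z 3 * 0
        rw [h2, mul_zero]
      · show z 3 = z 3 * 1
        rw [mul_one]
  · refine ⟨![z 0, z 2], ![1, z 1 / z 0], fun j => ?_⟩
    fin_cases j
    · show z 0 = z 0 * 1
      rw [mul_one]
    · show z 1 = z 0 * (z 1 / z 0)
      rw [mul_div_cancel₀ _ h0]
    · show z 2 = z 2 * 1
      rw [mul_one]
    · show z 3 = z 2 * (z 1 / z 0)
      rw [← mul_div_assoc, eq_div_iff h0, mul_comm (z 3), h, mul_comm]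

/-- a form on the quadric as a polynomial in four variables -/
noncomputable def pb (Φ : MvPolynomial (Fin (2 + 1 + 1)) ℚ) : MvPolynomial (Fin 2 ⊕ Fin 2) ℚ :=
  aeval (fun j => (X (Sum.inl (row j)) : MvPolynomial (Fin 2 ⊕ Fin 2) ℚ) * X (Sum.inr (col j))) Φ

theorem aeval_pb (w : Fin 2 ⊕ Fin 2 → ℂ) (Φ : MvPolynomial (Fin (2 + 1 + 1)) ℚ) :
    aeval w (pb Φ) = aeval (fun j => w (Sum.inl (row j)) * w (Sum.inr (col j))) Φ := by
  have h : (aeval w : MvPolynomial (Fin 2 ⊕ Fin 2) ℚ →ₐ[ℚ] ℂ).comp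
      (aeval (fun j => (X (Sum.inl (row j)) : MvPolynomial (Fin 2 ⊕ Fin 2) ℚ) *
        X (Sum.inr (col j)))) =
      aeval (fun j => w (Sum.inl (row j)) * w (Sum.inr (col j))) := by
    refine MvPolynomial.algHom_ext fun j => ?_
    rw [AlgHom.comp_apply, aeval_X, map_mul, aeval_X, aeval_X, aeval_X]
  exact congrArg (fun φ => φ Φ) h

theorem exists_ne {P : MvPolynomial (Fin 2 ⊕ Fin 2) ℚ} (hP : P ≠ 0) :
    ∃ w : Fin 2 ⊕ Fin 2 → ℂ, aeval w P ≠ 0 := by
  by_contra hcon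
  push Not at hcon
  apply hP
  have h1 : MvPolynomial.map (algebraMap ℚ ℂ) P = 0 := by
    refine MvPolynomial.funext fun w => ?_
    rw [map_zero, MvPolynomial.eval_map]
    exact hcon w
  exact (MvPolynomial.map_injective _ (algebraMap ℚ ℂ).injective) (h1.trans (map_zero _).symm)

theorem on_quadric (z : Fin (2 + 1 + 1) → ℂ) :
    (∀ k, aeval z (Gq k) = 0) ↔ z 0 * z 3 = z 1 * z 2 := by
  have e : ∀ k, aeval z (Gq k) = z 0 * z 3 - z 1 * z 2 := fun k => by
    show aeval z (X 0 * X 3 - X 1 * X 2 : MvPolynomial (Fin (2 + 1 + 1)) ℤ) = _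
    rw [map_sub, map_mul, map_mul, aeval_X, aeval_X, aeval_X, aeval_X]
  refine ⟨fun h => ?_, fun h k => ?_⟩
  · have h1 := h 0
    rw [e] at h1
    exact sub_eq_zero.1 h1
  · rw [e, h, sub_self]

theorem pb_ne {Φ : MvPolynomial (Fin (2 + 1 + 1)) ℚ} (h : Good Gq Φ) : pb Φ ≠ 0 := by
  obtain ⟨-, z, hz, hne⟩ := h
  obtain ⟨a, b, hab⟩ := par z ((on_quadric z).1 hz)
  intro h0
  apply hne
  have h1 := aeval_pb (Sum.elim a b) Φ
  rw [h0, map_zero] at h1
  have h2 : z = fun j => Sum.elim a b (Sum.inl (row j)) * Sum.elim a b (Sum.inr (col j)) :=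
    funext fun j => hab j
  rw [h2]
  exact h1.symm

theorem main : Pool.Agent.H455.PP.S_IRR := by
  intro Φ Ψ h1 h2
  obtain ⟨w, hw⟩ := exists_ne (mul_ne_zero (pb_ne h1) (pb_ne h2))
  rw [map_mul, aeval_pb, aeval_pb] at hw
  refine ⟨fun j => w (Sum.inl (row j)) * w (Sum.inr (col j)), (on_quadric _).2 ?_,
    left_ne_zero_of_mul hw, right_ne_zero_of_mul hw⟩
  show w (Sum.inl 0) * w (Sum.inr 0) * (w (Sum.inl 1) * w (Sum.inr 1)) =
    w (Sum.inl 0) * w (Sum.inr 1) * (w (Sum.inl 1) * w (Sum.inr 0))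
  ring

end Pool.Agent.H455.PP_IRR
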