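import Mathlib
import Pool.Agent.H455.PP

set_option autoImplicit false

open Finset MvPolynomial

namespace Pool.Agent.H455.PP_LIFT

open Pool.Agent.H455.PP

theorem mono (d : ℕ) (m : (Fin 2 ⊕ Fin 2) →₀ ℕ) (c : ℤ)
    (h1 : m (Sum.inl 0) + m (Sum.inl 1) = d) (h2 : m (Sum.inr 0) + m (Sum.inr 1) = d) :
    ∃ P : MvPolynomial (Fin (2 + 1 + 1)) ℤ, P.IsHomogeneous d ∧
      aeval (seg (fun s : Fin 2 => (X (Sum.inl s) : MvPolynomial (Fin 2 ⊕ Fin 2) ℤ))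
        (fun t : Fin 2 => X (Sum.inr t))) P = monomial m c := by
  have hm : (monomial m c : MvPolynomial (Fin 2 ⊕ Fin 2) ℤ) =
      C c * ((X (Sum.inl 0) ^ m (Sum.inl 0) * X (Sum.inl 1) ^ m (Sum.inl 1)) *
        (X (Sum.inr 0) ^ m (Sum.inr 0) * X (Sum.inr 1) ^ m (Sum.inr 1))) := by
    rw [monomial_eq, Finsupp.prod_fintype _ _ (fun i => pow_zero _), Fintype.prod_sum_type,
      Fin.prod_univ_two, Fin.prod_univ_two]
  rw [hm]
  obtain ⟨a0, ha0⟩ : ∃ n, n = m (Sum.inl 0) := ⟨_, rfl⟩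
  obtain ⟨a1, ha1⟩ : ∃ n, n = m (Sum.inl 1) := ⟨_, rfl⟩
  obtain ⟨b0, hb0⟩ : ∃ n, n = m (Sum.inr 0) := ⟨_, rfl⟩
  obtain ⟨b1, hb1⟩ : ∃ n, n = m (Sum.inr 1) := ⟨_, rfl⟩
  rw [← ha0, ← ha1] at h1
  rw [← hb0, ← hb1] at h2
  rw [← ha0, ← ha1, ← hb0, ← hb1]
  have e0 : seg (fun s : Fin 2 => (X (Sum.inl s) : MvPolynomial (Fin 2 ⊕ Fin 2) ℤ))
      (fun t : Fin 2 => X (Sum.inr t)) 0 = X (Sum.inl 0) * X (Sum.inr 0) := rfl
  have e1 : seg (fun s : Fin 2 => (X (Sum.inl s) : MvPolynomial (Fin 2 ⊕ Fin 2) ℤ))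
      (fun t : Fin 2 => X (Sum.inr t)) 1 = X (Sum.inl 0) * X (Sum.inr 1) := rfl
  have e2 : seg (fun s : Fin 2 => (X (Sum.inl s) : MvPolynomial (Fin 2 ⊕ Fin 2) ℤ))
      (fun t : Fin 2 => X (Sum.inr t)) 2 = X (Sum.inl 1) * X (Sum.inr 0) := rfl
  have e3 : seg (fun s : Fin 2 => (X (Sum.inl s) : MvPolynomial (Fin 2 ⊕ Fin 2) ℤ))
      (fun t : Fin 2 => X (Sum.inr t)) 3 = X (Sum.inl 1) * X (Sum.inr 1) := rfl
  rcases Nat.le_total a0 b0 with h | h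
  · obtain ⟨u, rfl⟩ := Nat.exists_eq_add_of_le h
    have ha : a1 = u + b1 := by omega
    subst ha
    refine ⟨C c * X 0 ^ a0 * X 2 ^ u * X 3 ^ b1, ?_, ?_⟩
    · have h3 : (C c * X 0 ^ a0 * X 2 ^ u * X 3 ^ b1 :
          MvPolynomial (Fin (2 + 1 + 1)) ℤ).IsHomogeneous (0 + 1 * a0 + 1 * u + 1 * b1) :=
        (((isHomogeneous_C _ c).mul ((isHomogeneous_X _ _).pow a0)).mul
          ((isHomogeneous_X _ _).pow u)).mul ((isHomogeneous_X _ _).pow b1)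
      rw [show 0 + 1 * a0 + 1 * u + 1 * b1 = d by omega] at h3
      exact h3
    · rw [map_mul, map_mul, map_mul, map_pow, map_pow, map_pow, aeval_X, aeval_X, aeval_X,
        e0, e2, e3, aeval_C]
      rw [show (algebraMap ℤ (MvPolynomial (Fin 2 ⊕ Fin 2) ℤ)) c = C c from rfl]
      ring
  · obtain ⟨u, rfl⟩ := Nat.exists_eq_add_of_le h
    have ha : b1 = u + a1 := by omega
    subst ha
    refine ⟨C c * X 0 ^ b0 * X 1 ^ u * X 3 ^ a1, ?_, ?_⟩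
    · have h3 : (C c * X 0 ^ b0 * X 1 ^ u * X 3 ^ a1 :
          MvPolynomial (Fin (2 + 1 + 1)) ℤ).IsHomogeneous (0 + 1 * b0 + 1 * u + 1 * a1) :=
        (((isHomogeneous_C _ c).mul ((isHomogeneous_X _ _).pow b0)).mul
          ((isHomogeneous_X _ _).pow u)).mul ((isHomogeneous_X _ _).pow a1)
      rw [show 0 + 1 * b0 + 1 * u + 1 * a1 = d by omega] at h3
      exact h3
    · rw [map_mul, map_mul, map_mul, map_pow, map_pow, map_pow, aeval_X, aeval_X, aeval_X,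
        e0, e1, e3, aeval_C]
      rw [show (algebraMap ℤ (MvPolynomial (Fin 2 ⊕ Fin 2) ℤ)) c = C c from rfl]
      ring

theorem one (d q r : ℕ) (F : MvPolynomial (Fin 2 ⊕ Fin 2) ℤ) (hq : q ≤ d) (hr : r ≤ d)
    (hF : Bihom q r F) (s t : Fin 2) :
    ∃ P : MvPolynomial (Fin (2 + 1 + 1)) ℤ, P.IsHomogeneous d ∧
      aeval (seg (fun s : Fin 2 => (X (Sum.inl s) : MvPolynomial (Fin 2 ⊕ Fin 2) ℤ))
        (fun t : Fin 2 => X (Sum.inr t))) P =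
        F * X (Sum.inl s) ^ (d - q) * X (Sum.inr t) ^ (d - r) := by
  classical
  have hm : ∀ m : (Fin 2 ⊕ Fin 2) →₀ ℕ, ∃ P : MvPolynomial (Fin (2 + 1 + 1)) ℤ,
      m ∈ F.support → P.IsHomogeneous d ∧
      aeval (seg (fun s : Fin 2 => (X (Sum.inl s) : MvPolynomial (Fin 2 ⊕ Fin 2) ℤ))
        (fun t : Fin 2 => X (Sum.inr t))) P =
        monomial m (coeff m F) * X (Sum.inl s) ^ (d - q) * X (Sum.inr t) ^ (d - r) := by
    intro m
    by_cases hmF : m ∈ F.support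
    · obtain ⟨h1, h2⟩ := hF m hmF
      obtain ⟨P, hP, hP2⟩ := mono d (m + Finsupp.single (Sum.inl s) (d - q) +
        Finsupp.single (Sum.inr t) (d - r)) (coeff m F) (by
          fin_cases s <;> simp <;> omega) (by
          fin_cases t <;> simp <;> omega)
      refine ⟨P, fun _ => ⟨hP, ?_⟩⟩
      rw [hP2, X_pow_eq_monomial, X_pow_eq_monomial, monomial_mul, monomial_mul, mul_one, mul_one]
    · exact ⟨0, fun h => absurd h hmF⟩
  choose P hP using hm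
  refine ⟨∑ m ∈ F.support, P m, ?_, ?_⟩
  · exact IsHomogeneous.sum _ _ _ fun m hm => (hP m hm).1
  · rw [map_sum, Finset.sum_congr rfl fun m hm => (hP m hm).2, ← Finset.sum_mul, ← Finset.sum_mul,
      support_sum_monomial_coeff]

theorem main : Pool.Agent.H455.PP.S_LIFT := by
  intro k d q r F hqr hF
  choose Q hQ using fun (i : Fin k) (j : Fin (2 + 1 + 1)) =>
    one d (q i) (r i) (F i) (hqr i).1 (hqr i).2 (hF i) (row j) (col j)
  exact ⟨Q, fun i j => (hQ i j).1, fun i j => (hQ i j).2⟩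

end Pool.Agent.H455.PP_LIFT

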