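import Mathlib
import Pool.Agent.H455.PP

set_option autoImplicit false

/-!
# The uniform bound on the product of two projective lines (helper736, for helper455)
-/

open Finset Filter Topology MvPolynomial

namespace Pool.Agent.H455.PP_MAIN

open Pool.Agent.H455.PP
open Pool.Agent.H455.CB Pool.Agent.H455.AB Pool.Agent.Y724.T4 Pool.Agent.H455.SZ
open Pool.Agent.H455.VO Pool.Agent.H455.TR Pool.Agent.K3h2.LA
open Pool.Agent.R343.LT
open Pool.Agent.TH419.WI Pool.Agent.TH419.HX Pool.Agent.H455.VC Pool.Agent.H455.RT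

variable {S : Finset ℕ}

theorem rd_pos (n : ℕ) : 0 < PP.rd S n :=
  Finset.prod_pos fun _ hp => (Nat.prime_of_mem_primeFactors (Finset.mem_filter.1 hp).1).pos

theorem rd_dvd_prt (n : ℕ) : PP.rd S n ∣ prt S n := by
  unfold PP.rd prt
  refine Finset.prod_dvd_prod_of_dvd _ _ fun p hp => ?_
  have h1 := (Finset.mem_filter.1 hp).1
  have h2 := Nat.prime_of_mem_primeFactors h1
  refine dvd_pow_self p ?_
  rw [Nat.mem_primeFactors] at h1
  exact (h2.factorization_pos_of_dvd h1.2.2 h1.2.1).ne'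

theorem mx_pos {a : Fin 2 → ℤ} (h : IsCoprime (a 0) (a 1)) : 1 ≤ mx a := by
  by_contra hcon
  have h0 : mx a = 0 := by omega
  unfold mx at h0
  have h1 : a 0 = 0 := by omega
  have h2 : a 1 = 0 := by omega
  rw [h1, h2] at h
  exact not_isCoprime_zero_zero h

theorem le_mx (a : Fin 2 → ℤ) (s : Fin 2) : (a s).natAbs ≤ mx a := by
  unfold mx
  fin_cases s
  · exact le_max_left _ _
  · exact le_max_right _ _

/-- the values of a bihomogeneous form -/
theorem poly_le {q r : ℕ} {F : MvPolynomial (Fin 2 ⊕ Fin 2) ℤ} (hF : PP.Bihom q r F) :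
    ∃ c : ℕ, 1 ≤ c ∧ ∀ (x : Fin 2 ⊕ Fin 2 → ℤ) (X : ℕ), (∀ i, (x i).natAbs ≤ X) →
      (aeval x F).natAbs ≤ c * X ^ (q + r) := by
  classical
  refine ⟨1 + ∑ m ∈ F.support, (F.coeff m).natAbs, by omega, fun x X hX => ?_⟩
  have h1 : aeval x F = ∑ m ∈ F.support, F.coeff m * ∏ i, x i ^ m i := by
    rw [aeval_def, eval₂_eq']
    rfl
  rw [h1]
  refine (Int.natAbs_sum_le _ _).trans ?_
  rw [add_mul, Finset.sum_mul]
  refine le_trans ?_ (Nat.le_add_left _ _)
  refine Finset.sum_le_sum fun m hm => ?_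
  rw [Int.natAbs_mul]
  refine Nat.mul_le_mul_left _ ?_
  have h2 : (∏ i, x i ^ m i).natAbs = ∏ i, (x i).natAbs ^ m i := by
    rw [← Int.natAbsHom_apply, map_prod]
    refine Finset.prod_congr rfl fun i _ => ?_
    rw [map_pow, Int.natAbsHom_apply]
  have h3 : ∑ i, m i = q + r := by
    obtain ⟨h4, h5⟩ := hF m hm
    rw [Fintype.sum_sum_type, Fin.sum_univ_two, Fin.sum_univ_two, h4, h5]
  rw [h2, ← h3, ← Finset.prod_pow_eq_pow_sum]
  exact Finset.prod_le_prod' fun i _ => Nat.pow_le_pow_left (hX i) _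

theorem log_aux {n C X A : ℕ} (hC : 1 ≤ C) (hX : 1 ≤ X) (h : n ≤ C * X ^ A) :
    Real.log (max 1 (n : ℝ)) ≤ (Real.log C + A) * (1 + Real.log X) := by
  have hC0 : (0 : ℝ) < C := by exact_mod_cast hC
  have hX0 : (0 : ℝ) < X := by exact_mod_cast hX
  have h1 : max 1 (n : ℝ) ≤ (C : ℝ) * (X : ℝ) ^ A := by
    refine max_le ?_ (by exact_mod_cast h)
    have h2 : 1 ≤ C * X ^ A := Nat.mul_pos hC (pow_pos hX A)
    exact_mod_cast h2
  have h2 := Real.log_le_log (lt_max_of_lt_left one_pos) h1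
  rw [Real.log_mul hC0.ne' (pow_pos hX0 A).ne', Real.log_pow] at h2
  have h3 : 0 ≤ Real.log (C : ℝ) := Real.log_natCast_nonneg _
  have h4 : 0 ≤ Real.log (X : ℝ) := Real.log_natCast_nonneg _
  have h5 : (0 : ℝ) ≤ A := Nat.cast_nonneg _
  nlinarith [mul_nonneg h3 h4]

section
variable {k : ℕ} {F : Fin k → MvPolynomial (Fin 2 ⊕ Fin 2) ℤ} {m : ℕ} {alt : Prop}

theorem H_eq (P : Pt S F m alt) : P.H = Real.log (mx P.a) + Real.log (mx P.b) := by
  have h1 : (0 : ℝ) < mx P.a := by exact_mod_cast mx_pos P.ha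
  have h2 : (0 : ℝ) < mx P.b := by exact_mod_cast mx_pos P.hb
  unfold Pt.H
  rw [Nat.cast_mul, Real.log_mul h1.ne' h2.ne']

theorem H_nonneg (P : Pt S F m alt) : 0 ≤ P.H := Real.log_natCast_nonneg _

theorem prod_ne (P : Pt S F m alt) : (∏ i, aeval (Sum.elim P.a P.b) (F i)).natAbs ≠ 0 :=
  Int.natAbs_ne_zero.2 (Finset.prod_ne_zero_iff.2 fun i _ => P.hF i)

theorem Z_le (P : Pt S F m alt) :
    P.Z.natAbs ≤ (∏ i, aeval (Sum.elim P.a P.b) (F i)).natAbs := by
  have h3 : prt S (∏ i, aeval (Sum.elim P.a P.b) (F i)).natAbs ≤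
      (∏ i, aeval (Sum.elim P.a P.b) (F i)).natAbs := prt_le (prod_ne P)
  have h4 : PP.rd S (∏ i, aeval (Sum.elim P.a P.b) (F i)).natAbs ≤
      prt S (∏ i, aeval (Sum.elim P.a P.b) (F i)).natAbs :=
    Nat.le_of_dvd (prt_pos _) (rd_dvd_prt _)
  rcases P.hZ with ⟨-, h1⟩ | ⟨-, h1⟩
  · rw [h1, Int.natAbs_natCast]
    exact h4.trans h3
  · have h2 := congrArg Int.natAbs h1
    rw [Int.natAbs_mul, Int.natAbs_natCast, Int.natAbs_natCast] at h2
    calc P.Z.natAbs ≤ P.Z.natAbs * PP.rd S (∏ i, aeval (Sum.elim P.a P.b) (F i)).natAbs :=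
          Nat.le_mul_of_pos_right _ (rd_pos _)
      _ = prt S (∏ i, aeval (Sum.elim P.a P.b) (F i)).natAbs := h2
      _ ≤ _ := h3

theorem z_bound {q r : Fin k → ℕ} (hF : ∀ i, PP.Bihom (q i) (r i) (F i)) :
    ∃ A : ℝ, 0 ≤ A ∧ ∀ (P : Pt S F m alt) (i : (Fin 2 ⊕ Fin 2) ⊕ Unit),
      Real.log (max 1 |(P.z i : ℝ)|) ≤ A * (1 + P.H) := by
  classical
  choose c hc1 hc using fun i => poly_le (hF i)
  have hC : 1 ≤ ∏ i, c i := Finset.one_le_prod' fun i _ => hc1 i
  refine ⟨Real.log ((∏ i, c i : ℕ) : ℝ) + ((∑ i, (q i + r i) + 1 : ℕ) : ℝ),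
    add_nonneg (Real.log_natCast_nonneg _) (Nat.cast_nonneg _), fun P i => ?_⟩
  have hX : 1 ≤ mx P.a * mx P.b := Nat.mul_pos (mx_pos P.ha) (mx_pos P.hb)
  have hy : ∀ y : Fin 2 ⊕ Fin 2, (Sum.elim P.a P.b y).natAbs ≤ mx P.a * mx P.b := by
    intro y
    rcases y with y | y
    · exact (le_mx P.a y).trans (Nat.le_mul_of_pos_right _ (mx_pos P.hb))
    · exact (le_mx P.b y).trans (Nat.le_mul_of_pos_left _ (mx_pos P.ha))
  have habs : |(P.z i : ℝ)| = (((P.z i).natAbs : ℕ) : ℝ) := by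
    rw [Nat.cast_natAbs, Int.cast_abs]
  rw [habs]
  refine log_aux hC hX ?_
  rcases i with y | y
  · refine (hy y).trans ?_
    calc mx P.a * mx P.b ≤ (mx P.a * mx P.b) ^ (∑ i, (q i + r i) + 1) :=
          Nat.le_self_pow (by omega) _
      _ ≤ _ := Nat.le_mul_of_pos_left _ hC
  · refine (Z_le P).trans ?_
    have h2 : (∏ i, aeval (Sum.elim P.a P.b) (F i)).natAbs =
        ∏ i, (aeval (Sum.elim P.a P.b) (F i)).natAbs := by
      rw [← Int.natAbsHom_apply, map_prod]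
      rfl
    rw [h2]
    calc ∏ i, (aeval (Sum.elim P.a P.b) (F i)).natAbs
        ≤ ∏ i, (c i * (mx P.a * mx P.b) ^ (q i + r i)) :=
          Finset.prod_le_prod' fun i _ => hc i _ _ hy
      _ = (∏ i, c i) * (mx P.a * mx P.b) ^ (∑ i, (q i + r i)) := by
          rw [Finset.prod_mul_distrib, Finset.prod_pow_eq_pow_sum]
      _ ≤ _ := Nat.mul_le_mul_left _ (Nat.pow_le_pow_right hX (Nat.le_succ _))

end

theorem main : Pool.Agent.H455.PP.S_SEQ → Pool.Agent.H455.PP.S_IRR → Pool.Agent.H455.PP.S_MAIN := by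
  classical
  intro hSeq hIrr S hS k q r F hF hSNC m z0 alt ε hε g h hg hgS hh hhS
  obtain ⟨E, hE1, hE2, hE3⟩ := exists_family (G := Gq) hIrr ⟨fun _ => 0, fun k => by
    unfold Gq
    simp⟩
  obtain ⟨A, hA, hz⟩ := z_bound (S := S) (m := m) (alt := alt) hF
  obtain ⟨D, hD⟩ : ∃ D : ℕ, D = (∑ i, q i) + (∑ i, r i) + 1 := ⟨_, rfl⟩
  have hD1 : (1 : ℝ) ≤ D := by
    rw [hD]
    push_cast
    have h1 : (0 : ℝ) ≤ ∑ i, (q i : ℝ) := Finset.sum_nonneg fun _ _ => Nat.cast_nonneg _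
    have h2 : (0 : ℝ) ≤ ∑ i, (r i : ℝ) := Finset.sum_nonneg fun _ _ => Nat.cast_nonneg _
    linarith
  have hLHS : ∀ P : Pt S F m alt, ((∑ i, (q i : ℝ)) - 2) * Real.log (mx P.a) +
      ((∑ i, (r i : ℝ)) - 2) * Real.log (mx P.b) ≤ D * P.H := by
    intro P
    have h1 : (0 : ℝ) ≤ ∑ i, (q i : ℝ) := Finset.sum_nonneg fun _ _ => Nat.cast_nonneg _
    have h2 : (0 : ℝ) ≤ ∑ i, (r i : ℝ) := Finset.sum_nonneg fun _ _ => Nat.cast_nonneg _
    have h3 : 0 ≤ Real.log (mx P.a : ℝ) := Real.log_natCast_nonneg _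
    have h4 : 0 ≤ Real.log (mx P.b : ℝ) := Real.log_natCast_nonneg _
    rw [H_eq, hD]
    push_cast
    nlinarith [mul_nonneg h1 h4, mul_nonneg h2 h3]
  obtain ⟨C, hC⟩ := transfer_seq (X := Pt S F m alt)
    (Sum.elim (fun _ : Fin 2 ⊕ Fin 2 => g) (fun _ : Unit => h))
    (by
      intro i
      rcases i with i | i
      · exact hg
      · exact hh) z0
    (fun C P => aeval (sq P.a P.b) (E ⌊C⌋₊) ≠ 0 →
      ((∑ i, (q i : ℝ)) - 2) * Real.log (mx P.a) + ((∑ i, (r i : ℝ)) - 2) * Real.log (mx P.b) ≤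
        Real.log P.ρ + ε * P.H + C * (1 + Real.log P.M))
    (by
      intro C C' P hCC h1 h2
      have h3 := h1 (fun h0 => h2 ?_)
      · refine h3.trans (add_le_add le_rfl (mul_le_mul_of_nonneg_right hCC ?_))
        have := Real.log_nonneg P.hM
        linarith
      · obtain ⟨Q, hQ⟩ := hE2 _ _ (Nat.floor_le_floor hCC)
        rw [hQ, map_mul, h0, zero_mul])
    (fun P => D * P.H) (fun P => mul_nonneg (by linarith) (H_nonneg P)) (fun P => P.M)
    (fun P => P.hM) (fun P => P.z) A hA (fun P i => by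
      refine (hz P i).trans ?_
      refine mul_le_mul_of_nonneg_left ?_ hA
      have := H_nonneg P
      nlinarith)
    (by
      intro T K P B hlt hB hBl hrep
      have hlM : ∀ n, 0 ≤ Real.log (P n).M := fun n => Real.log_nonneg (P n).hM
      have hlρ : ∀ n, 0 ≤ Real.log ((P n).ρ : ℝ) := fun n => Real.log_natCast_nonneg _
      push Not at hlt
      have hbad : ∀ n : ℕ, (n : ℝ) * (1 + Real.log (P n).M) < D * (P n).H := fun n => by
        have h1 := (hlt n).2
        have h2 := mul_nonneg hε.le (H_nonneg (P n))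
        have h3 := hLHS (P n)
        have h4 := hlρ n
        linarith
      have hsub : Sub (fun n => D * (P n).H) B :=
        sub_of_bad K (fun n => mul_nonneg (by linarith) (H_nonneg (P n))) hlM hbad hB hBl
      have hn0 : ∀ n : ℕ, (n : ℝ) < D * (P n).H := fun n => by
        refine lt_of_le_of_lt ?_ (hbad n)
        have := hlM n
        have h0 : (0 : ℝ) ≤ n := Nat.cast_nonneg n
        nlinarith
      have hHt' : Tendsto (fun n => D * (P n).H) atTop atTop :=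
        tendsto_atTop_mono (fun n => (hn0 n).le) tendsto_natCast_atTop_atTop
      have hHt : Tendsto (fun n => (P n).H) atTop atTop :=
        (tendsto_const_mul_atTop_of_pos (by linarith : (0 : ℝ) < D)).1 hHt'
      have hψ : StrictMono fun t : ℕ => t + D := fun a b hab => by simpa using hab
      have hψt := hψ.tendsto_atTop
      refine hSeq S hS k q r F hF hSNC m alt ε hε g h hg hgS hh hhS (fun t => P (t + D))
        (fun t => ?_) (hHt.comp hψt) (fun i => ?_) (fun Φ hΦ => ?_) (fun K => ?_)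
      · have h1 := hn0 (t + D)
        push_cast at h1
        have h0 : (0 : ℝ) ≤ t := Nat.cast_nonneg t
        by_contra hcon
        push Not at hcon
        nlinarith
      · have h1 := (Rep.spr (fun n => hrep n i) hsub).comp hψt
        exact Spr.scale (K := D) (by linarith) (fun t => le_rfl) h1
      · obtain ⟨n0, hn0'⟩ := hE3 Φ hΦ
        filter_upwards [eventually_ge_atTop n0] with t ht h0
        have h1 := (hlt (t + D)).1
        rw [Nat.floor_natCast] at h1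
        apply h1
        obtain ⟨Q, hQ⟩ := hn0'.trans (hE2 n0 (t + D) (by omega))
        rw [hQ, map_mul, h0, zero_mul]
      · filter_upwards [tendsto_natCast_atTop_atTop.eventually_ge_atTop (α := ℕ) K] with t ht
        have h1 := (hlt (t + D)).2
        have h2 := hlM (t + D)
        have h3 : (0 : ℝ) ≤ t := Nat.cast_nonneg t
        push_cast at h1
        have h4 : (t : ℝ) ≤ ((t : ℝ) + D) * (1 + Real.log (P (t + D)).M) := by nlinarith
        linarith)
  exact ⟨E ⌊C⌋₊, C, hE1 _, fun P h1 h2 => hC P h1 h2⟩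

end Pool.Agent.H455.PP_MAIN
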