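import Mathlib
import Pool.Agent.H455.PP

set_option autoImplicit false

/-! No bad sequences on the product of two lines. -/

open Finset Filter Topology MvPolynomial

namespace Pool.Agent.H455.PP_SEQ

open Pool.Agent.H455.PP
open Pool.Agent.TH419.WI Pool.Agent.TH419.HX Pool.Agent.H455.VC Pool.Agent.H455.RT
open Pool.Agent.H455.CB Pool.Agent.H455.AB Pool.Agent.Y724.T4 Pool.Agent.H455.SZ
open Pool.Agent.H455.VO Pool.Agent.H455.TR Pool.Agent.K3h2.LA
open Pool.Agent.R343.LT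

variable {S : Finset ℕ}

theorem rd_pos (n : ℕ) : 0 < rd S n := Pool.Agent.H455.AD.rd_pos (S := S) n

theorem rd_dvd_prt (n : ℕ) : rd S n ∣ prt S n := Pool.Agent.H455.AD.rd_dvd_prt (S := S) n

theorem dvd_rd {P a m : ℕ} (hP : P ≠ 0) (haP : a ∣ P)
    (hm : ∀ p : ℕ, p.Prime → p ∉ S → a.factorization p ≤ m) :
    a ∣ spt S P * rd S P ^ m := Pool.Agent.H455.AD.dvd_rd hP haP hm

theorem poly_bd {σ : Type} (G : MvPolynomial σ ℤ) : ∃ c A : ℕ, ∀ (v : σ → ℤ) (X : ℕ), 1 ≤ X →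
    (∀ j, (v j).natAbs ≤ X) → (aeval v G : ℤ).natAbs ≤ c * X ^ A := by
  induction G using MvPolynomial.induction_on with
  | C a => exact ⟨a.natAbs, 0, fun v X _ _ => by simp⟩
  | add p q hp hq =>
    obtain ⟨c1, A1, h1⟩ := hp
    obtain ⟨c2, A2, h2⟩ := hq
    refine ⟨c1 + c2, A1 + A2, fun v X hX hv => ?_⟩
    rw [map_add]
    refine (Int.natAbs_add_le _ _).trans ?_
    have e1 : X ^ A1 ≤ X ^ (A1 + A2) := Nat.pow_le_pow_right hX (by omega)
    have e2 : X ^ A2 ≤ X ^ (A1 + A2) := Nat.pow_le_pow_right hX (by omega)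
    calc _ ≤ c1 * X ^ A1 + c2 * X ^ A2 := add_le_add (h1 v X hX hv) (h2 v X hX hv)
      _ ≤ c1 * X ^ (A1 + A2) + c2 * X ^ (A1 + A2) := by gcongr
      _ = _ := by ring
  | mul_X p j hp =>
    obtain ⟨c, A, h⟩ := hp
    refine ⟨c, A + 1, fun v X hX hv => ?_⟩
    rw [map_mul, aeval_X, Int.natAbs_mul]
    calc _ ≤ (c * X ^ A) * X := Nat.mul_le_mul (h v X hX hv) (hv j)
      _ = _ := by ring

theorem poly_spr {σ : Type} {g : ℕ} {L : ℕ → ℝ} (hL : Tendsto L atTop atTop) (v : ℕ → σ → ℤ)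
    (hv : ∀ j, Spr g L fun t => v t j) (G : MvPolynomial σ ℤ) :
    Spr g L fun t => (aeval (v t) G : ℤ) := by
  induction G using MvPolynomial.induction_on with
  | C a =>
    have h1 : (fun t => (aeval (v t) (C a : MvPolynomial σ ℤ) : ℤ)) = fun _ => a := by
      funext t
      simp
    rw [h1]
    exact Spr.const hL a
  | add p q hp hq =>
    simp only [map_add]
    exact hp.add hq
  | mul_X p j hp =>
    simp only [map_mul, aeval_X]
    exact hp.mul (hv j)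

theorem le_mx (a : Fin 2 → ℤ) (s : Fin 2) : (a s).natAbs ≤ mx a := by
  unfold mx
  fin_cases s
  · exact le_max_left _ _
  · exact le_max_right _ _

theorem mx_pos {a : Fin 2 → ℤ} (ha : IsCoprime (a 0) (a 1)) : 1 ≤ mx a := by
  by_contra hcon
  have h0 : mx a = 0 := by omega
  have h1 := le_mx a 0
  have h2 := le_mx a 1
  have h3 : a 0 = 0 := by omega
  have h4 : a 1 = 0 := by omega
  obtain ⟨u, v, huv⟩ := ha
  rw [h3, h4] at huv
  omega

theorem ne_zero_of {a : Fin 2 → ℤ} (ha : IsCoprime (a 0) (a 1)) : a ≠ 0 := by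
  intro h
  have h1 := mx_pos ha
  rw [h] at h1
  unfold mx at h1
  simp at h1

section
variable {k m : ℕ} {F : Fin k → MvPolynomial (Fin 2 ⊕ Fin 2) ℤ} {alt : Prop}

theorem prod_ne (P : Pt S F m alt) : (∏ i, aeval (Sum.elim P.a P.b) (F i) : ℤ).natAbs ≠ 0 :=
  Int.natAbs_ne_zero.2 (Finset.prod_ne_zero_iff.2 fun i _ => P.hF i)

theorem Z_ne (P : Pt S F m alt) : P.Z ≠ 0 := by
  intro h0
  rcases P.hZ with ⟨-, h1⟩ | ⟨-, h1⟩
  · rw [h0] at h1
    have := rd_pos (S := S) (∏ i, aeval (Sum.elim P.a P.b) (F i) : ℤ).natAbs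
    omega
  · rw [h0, zero_mul] at h1
    have := prt_pos (S := S) (∏ i, aeval (Sum.elim P.a P.b) (F i) : ℤ).natAbs
    omega

theorem Z_le (P : Pt S F m alt) :
    P.Z.natAbs ≤ (∏ i, aeval (Sum.elim P.a P.b) (F i) : ℤ).natAbs := by
  have h3 : prt S (∏ i, aeval (Sum.elim P.a P.b) (F i) : ℤ).natAbs ≤
    (∏ i, aeval (Sum.elim P.a P.b) (F i) : ℤ).natAbs := prt_le (prod_ne P)
  have h4 : rd S (∏ i, aeval (Sum.elim P.a P.b) (F i) : ℤ).natAbs ≤
      prt S (∏ i, aeval (Sum.elim P.a P.b) (F i) : ℤ).natAbs :=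
    Nat.le_of_dvd (prt_pos _) (rd_dvd_prt _)
  rcases P.hZ with ⟨-, h1⟩ | ⟨-, h1⟩
  · rw [h1, Int.natAbs_natCast]
    exact h4.trans h3
  · have h2 := congrArg Int.natAbs h1
    rw [Int.natAbs_mul, Int.natAbs_natCast, Int.natAbs_natCast] at h2
    calc P.Z.natAbs ≤ P.Z.natAbs * rd S (∏ i, aeval (Sum.elim P.a P.b) (F i) : ℤ).natAbs :=
          Nat.le_mul_of_pos_right _ (rd_pos _)
      _ = prt S (∏ i, aeval (Sum.elim P.a P.b) (F i) : ℤ).natAbs := h2
      _ ≤ _ := h3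

theorem X_pos (P : Pt S F m alt) : 1 ≤ mx P.a * mx P.b :=
  Nat.mul_le_mul (mx_pos P.ha) (mx_pos P.hb)

theorem v_le (P : Pt S F m alt) (j : Fin 2 ⊕ Fin 2) :
    (Sum.elim P.a P.b j).natAbs ≤ mx P.a * mx P.b := by
  rcases j with j | j
  · exact (le_mx P.a j).trans (Nat.le_mul_of_pos_right _ (mx_pos P.hb))
  · exact (le_mx P.b j).trans (Nat.le_mul_of_pos_left _ (mx_pos P.ha))

theorem exp_H (P : Pt S F m alt) : Real.exp P.H = ((mx P.a * mx P.b : ℕ) : ℝ) := by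
  unfold Pt.H
  exact Real.exp_log (by exact_mod_cast X_pos P)

theorem H_nonneg (P : Pt S F m alt) : 0 ≤ P.H := Real.log_natCast_nonneg _

/-- the bound for the forms -/
theorem F_bd (F : Fin k → MvPolynomial (Fin 2 ⊕ Fin 2) ℤ) (i : Fin k) : ∃ C : ℝ, 0 ≤ C ∧
    ∀ P : Pt S F m alt, 1 ≤ P.H →
    |((aeval (Sum.elim P.a P.b) (F i) : ℤ) : ℝ)| ≤ Real.exp (C * P.H) := by
  obtain ⟨c, A, h⟩ := poly_bd (F i)
  refine ⟨c + A, by positivity, fun P hP => ?_⟩
  have h1 := h (Sum.elim P.a P.b) (mx P.a * mx P.b) (X_pos P) (v_le P)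
  have h2 : |((aeval (Sum.elim P.a P.b) (F i) : ℤ) : ℝ)| ≤ c * ((mx P.a * mx P.b : ℕ) : ℝ) ^ A := by
    rw [← Int.cast_abs, Int.abs_eq_natAbs, Int.cast_natCast]
    exact_mod_cast h1
  rw [← exp_H P, ← Real.exp_nat_mul] at h2
  refine h2.trans ?_
  rw [add_mul, Real.exp_add]
  refine mul_le_mul_of_nonneg_right ?_ (Real.exp_pos _).le
  have h3 : (c : ℝ) ≤ c * P.H := le_mul_of_one_le_right (Nat.cast_nonneg _) hP
  have h4 := Real.add_one_le_exp ((c : ℝ) * P.H)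
  linarith

end

theorem main : Pool.Agent.H455.PP.S_VOS → Pool.Agent.H455.PP.S_TAN → Pool.Agent.H455.PP.S_HGT →
    Pool.Agent.H455.PP.S_DIV → Pool.Agent.H455.PP.S_LIFT → Pool.Agent.H455.PP.S_SMOOTH →
    Pool.Agent.H455.PP.S_SEQ := by
  intro hVOS hTAN hHGT hDIV hLIFT hSMOOTH S hS k q r F hbi hsnc m alt ε hε g h hg hgS hh hhS P
    hH1 hHt hsp hgen hbad
  classical
  obtain ⟨d, hd⟩ : ∃ d : ℕ, d = ∑ i, (q i + r i) := ⟨_, rfl⟩
  have hqr : ∀ i, q i ≤ d ∧ r i ≤ d := fun i => by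
    have h1 := Finset.single_le_sum (f := fun i => q i + r i) (fun j _ => Nat.zero_le _)
      (Finset.mem_univ i)
    rw [← hd] at h1
    constructor <;> omega
  obtain ⟨Q, hQ⟩ := hLIFT k d q r F hqr hbi
  have hSm := hSMOOTH k d q r F Q hsnc hQ
  have hFb := fun i => F_bd (S := S) (m := m) (alt := alt) F i
  choose Cf hCf0 hCf using hFb
  obtain ⟨C, hC⟩ : ∃ C : ℝ, C = 1 + ∑ i, Cf i := ⟨_, rfl⟩
  have hsum0 : 0 ≤ ∑ i, Cf i := Finset.sum_nonneg fun i _ => hCf0 i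
  have hC0 : 0 ≤ C := by rw [hC]; linarith
  have hHnn : ∀ t, 0 ≤ (P t).H := fun t => H_nonneg _
  have habs : ∀ z : ℤ, |(z : ℝ)| = ((z.natAbs : ℕ) : ℝ) := fun z => by
    rw [Nat.cast_natAbs, Int.cast_abs]
  have hprodle : ∀ t, (((∏ i, aeval (Sum.elim (P t).a (P t).b) (F i) : ℤ).natAbs : ℕ) : ℝ) ≤
      Real.exp (C * (P t).H) := fun t => by
    rw [← habs, Int.cast_prod, Finset.abs_prod]
    refine (Finset.prod_le_prod (fun i _ => abs_nonneg _) fun i _ => hCf i (P t) (hH1 t)).trans ?_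
    rw [← Real.exp_sum, ← Finset.sum_mul]
    refine Real.exp_le_exp.2 ?_
    refine mul_le_mul_of_nonneg_right ?_ (hHnn t)
    rw [hC]
    linarith
  have hexp : ∀ t (n : ℕ), n ≤ (∏ i, aeval (Sum.elim (P t).a (P t).b) (F i) : ℤ).natAbs →
      (n : ℝ) ≤ Real.exp (C * (P t).H) := fun t n hn =>
    (Nat.cast_le.2 hn).trans (hprodle t)
  have hvle : ∀ t j, |((Sum.elim (P t).a (P t).b j : ℤ) : ℝ)| ≤ Real.exp (C * (P t).H) := by
    intro t j
    rw [habs]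
    have h1 : (((Sum.elim (P t).a (P t).b j).natAbs : ℕ) : ℝ) ≤ Real.exp (P t).H := by
      rw [exp_H]
      exact_mod_cast v_le (P t) j
    refine h1.trans (Real.exp_le_exp.2 ?_)
    refine le_mul_of_one_le_left (hHnn t) ?_
    rw [hC]
    linarith
  have hfle : ∀ t i, |((aeval (Sum.elim (P t).a (P t).b) (F i) : ℤ) : ℝ)| ≤
      Real.exp (C * (P t).H) := by
    intro t i
    refine (hCf i (P t) (hH1 t)).trans (Real.exp_le_exp.2 ?_)
    refine mul_le_mul_of_nonneg_right ?_ (hHnn t)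
    have h1 := Finset.single_le_sum (f := Cf) (fun j _ => hCf0 j) (Finset.mem_univ i)
    rw [hC]
    linarith
  -- the sparse numbers
  have spv : ∀ j, Spr g (fun t => (P t).H) fun t => Sum.elim (P t).a (P t).b j := fun j =>
    hsp (Sum.inl j)
  have spZ : Spr h (fun t => (P t).H) fun t => (P t).Z := hsp (Sum.inr ())
  have spf : ∀ i, Spr g (fun t => (P t).H) fun t =>
      (aeval (Sum.elim (P t).a (P t).b) (F i) : ℤ) := fun i =>
    poly_spr hHt (fun t => Sum.elim (P t).a (P t).b) spv (F i)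
  obtain ⟨ψ, hψ, hld⟩ := ld_ft (S := S) (L := fun t => (P t).H)
    (ι := ((Fin 2 ⊕ Fin 2) ⊕ Fin k) ⊕ Unit) hHt hHnn
    (Sum.elim (fun _ => g) fun _ => h)
    (fun i => by rcases i with i | i; exacts [hg, hh])
    (fun i => by rcases i with i | i; exacts [hgS, hhS])
    (fun i t => Sum.elim (Sum.elim (Sum.elim (P t).a (P t).b)
      fun i => (aeval (Sum.elim (P t).a (P t).b) (F i) : ℤ)) (fun _ => (P t).Z) i)
    (fun i => by
      rcases i with (i | i) | i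
      · exact spv i
      · exact spf i
      · exact spZ) C hC0
    (fun i t => by
      rcases i with (i | i) | i
      · exact hvle t i
      · exact hfle t i
      · show |((P t).Z : ℝ)| ≤ _
        rw [habs]
        exact hexp t _ (Z_le (P t)))
  have hψt := hψ.tendsto_atTop
  obtain ⟨L, hL⟩ : ∃ L : ℕ → ℝ, L = (fun t => (P t).H) ∘ ψ := ⟨_, rfl⟩
  rw [← hL] at hld
  have hLt : Tendsto L atTop atTop := by rw [hL]; exact hHt.comp hψt
  have hLnn : ∀ t, 0 ≤ L t := fun t => by rw [hL]; exact hHnn _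
  have hLe : ∀ t, L t = (P (ψ t)).H := fun t => by rw [hL]; rfl
  have La : ∀ s, Ld S L fun t => ((P (ψ t)).a s : ℚ) := fun s => hld (Sum.inl (Sum.inl (Sum.inl s)))
  have Lb : ∀ s, Ld S L fun t => ((P (ψ t)).b s : ℚ) := fun s => hld (Sum.inl (Sum.inl (Sum.inr s)))
  have Lf : ∀ i, Ld S L fun t => ((aeval (Sum.elim (P (ψ t)).a (P (ψ t)).b) (F i) : ℤ) : ℚ) :=
    fun i => hld (Sum.inl (Sum.inr i))
  have LZ : Ld S L fun t => ((P (ψ t)).Z : ℚ) := hld (Sum.inr ())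
  have hle : ∀ t (n : ℕ), n ≤ (∏ i, aeval (Sum.elim (P (ψ t)).a (P (ψ t)).b) (F i) : ℤ).natAbs →
      (n : ℝ) ≤ Real.exp (C * L t) :=
    fun t n hn => by
      rw [hLe]
      exact hexp _ n hn
  have Lprod : Ld S L fun t =>
      ((∏ i, aeval (Sum.elim (P (ψ t)).a (P (ψ t)).b) (F i) : ℤ).natAbs : ℚ) := by
    refine Ld.natAbs hLt hLnn (x := fun t => ∏ i, aeval (Sum.elim (P (ψ t)).a (P (ψ t)).b) (F i)) ?_
    refine (Pool.Agent.H455.AD.Ld.prod hLt hLnn Finset.univ Lf).congr fun t => ?_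
    push_cast
    rfl
  have Lρ : Ld S L fun t => ((P (ψ t)).ρ : ℚ) := by
    have h0 : ∀ t, alt ∧ (P t).Z = (P t).ρ ∨
        ¬ alt ∧ (P t).Z * (P t).ρ =
          prt S (∏ i, aeval (Sum.elim (P t).a (P t).b) (F i) : ℤ).natAbs := fun t => (P t).hZ
    by_cases ha : alt
    · refine LZ.congr fun t => ?_
      rcases h0 (ψ t) with ⟨-, h1⟩ | ⟨h1, -⟩
      · rw [h1, Int.cast_natCast]
      · exact absurd ha h1
    · have h3 : Ld S L fun t =>
          (prt S (∏ i, aeval (Sum.elim (P (ψ t)).a (P (ψ t)).b) (F i) : ℤ).natAbs : ℚ) := by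
        refine (Lprod.div hLt hLnn (Ld.smooth hLt hLnn
          (w := fun t => spt S (∏ i, aeval (Sum.elim (P (ψ t)).a (P (ψ t)).b) (F i) : ℤ).natAbs)
          (fun t => spt_smooth _) hC0
          fun t => hle t _ (spt_le (prod_ne _)))).congr fun t => ?_
        have h2 := spt_mul_prt (S := S) (prod_ne (P (ψ t)))
        have h3 : ((spt S (∏ i, aeval (Sum.elim (P (ψ t)).a (P (ψ t)).b) (F i) : ℤ).natAbs : ℕ) :
            ℚ) ≠ 0 := Nat.cast_ne_zero.2 (spt_pos _).ne'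
        rw [eq_div_iff h3, mul_comm]
        exact_mod_cast h2.symm
      refine (h3.div hLt hLnn LZ).congr fun t => ?_
      have h4 : ((P (ψ t)).Z : ℚ) ≠ 0 := by exact_mod_cast Z_ne (P (ψ t))
      rw [eq_div_iff h4, mul_comm]
      rcases h0 (ψ t) with ⟨h1, -⟩ | ⟨-, h1⟩
      · exact absurd h1 ha
      · exact_mod_cast h1
  have hρle : ∀ t, (P t).ρ ≤ (∏ i, aeval (Sum.elim (P t).a (P t).b) (F i) : ℤ).natAbs := fun t =>
    (Nat.le_of_dvd (prt_pos _) (rd_dvd_prt _)).trans (prt_le (prod_ne (P t)))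
  have hρpos : ∀ t, 0 < (P t).ρ := fun t => rd_pos _
  -- the vectors `v`
  have hv : ∀ t, ∃ v : Fin 2 → ℤ, (P (ψ t)).a 0 * v 1 - (P (ψ t)).a 1 * v 0 = 1 := by
    intro t
    obtain ⟨u, w, huw⟩ := (P (ψ t)).ha
    refine ⟨![-w, u], ?_⟩
    simp only [Matrix.cons_val_zero, Matrix.cons_val_one]
    linarith
  choose v hv using hv
  refine hVOS S hS k d q r F Q hqr hbi hQ hSm m ε hε L (fun t => (P (ψ t)).a)
    (fun t => (P (ψ t)).b) (fun t => (P (ψ t)).ρ)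
    (fun t => spt S (∏ i, aeval (Sum.elim (P (ψ t)).a (P (ψ t)).b) (F i) : ℤ).natAbs)
    (fun t => ne_zero_of (P (ψ t)).ha) (fun t => ne_zero_of (P (ψ t)).hb) hLe hLt
    (fun t i => (P (ψ t)).hF i) (fun t => hρpos _) (fun t => spt_smooth _) (fun t i => ?_)
    C hC0 (fun i t => ?_) (fun t => ?_) La Lb Lf Lρ (fun Φ hΦ => hψt.eventually (hgen Φ hΦ))
    (fun t => tan (fun i => ((P (ψ t)).a i : ℚ)) (fun i => (v t i : ℚ))
      fun i => ((P (ψ t)).b i : ℚ))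
    (fun t => (hTAN _ _ _ (hv t) (ne_zero_of (P (ψ t)).hb)).1) (fun K => ?_)
  · refine dvd_rd (prod_ne _) ?_ fun p hp hpS => (P _).hm p hp hpS i
    exact Int.natAbs_dvd_natAbs.2 (Finset.dvd_prod_of_mem _ (Finset.mem_univ i))
  · rw [hLe]
    exact hfle _ i
  · have h1 := hle t _ (hρle (ψ t))
    have h2 : (0 : ℝ) < ((P (ψ t)).ρ : ℝ) := by exact_mod_cast hρpos (ψ t)
    have h3 := Real.log_le_log h2 h1
    rwa [Real.log_exp] at h3
  · filter_upwards [hψt.eventually (hbad K)] with t ht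
    have h1 := (hTAN _ _ _ (hv t) (ne_zero_of (P (ψ t)).hb)).2
    have h2 := hHGT _ _ (P (ψ t)).ha (P (ψ t)).hb
    have h3 := hDIV k d q r F Q hqr hQ _ _ (P (ψ t)).ha (P (ψ t)).hb (P (ψ t)).hF
    rw [h2] at h1
    rw [← hLe t] at ht
    linarith

end Pool.Agent.H455.PP_SEQ
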