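import Mathlib
import Pool.Agent.H455.PP

set_option autoImplicit false

/-!
# Normal crossings on the Segre quadric (`S_SMOOTH`)
-/

open Finset MvPolynomial

namespace Pool.Agent.H455.PP_SMOOTH

open Pool.Agent.H455.PP Pool.Agent.Y724.T4

/-- the chain rule -/
theorem chain {σ τ : Type} [Fintype σ] [DecidableEq σ] (g : σ → MvPolynomial τ ℤ) (y : τ)
    (P : MvPolynomial σ ℤ) :
    pderiv y (aeval g P) = ∑ j, aeval g (pderiv j P) * pderiv y (g j) := by
  induction P using MvPolynomial.induction_on with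
  | C c => simp
  | add p q hp hq => simp only [map_add, hp, hq, add_mul, sum_add_distrib]
  | mul_X p i hp =>
    rw [map_mul, aeval_X, Derivation.leibniz, hp, smul_eq_mul, smul_eq_mul]
    have h : ∀ j, aeval g (pderiv j (p * X i)) * pderiv y (g j) =
        g i * (aeval g (pderiv j p) * pderiv y (g j)) +
          (if j = i then aeval g p * pderiv y (g i) else 0) := by
      intro j
      rw [Derivation.leibniz, smul_eq_mul, smul_eq_mul, map_add, map_mul, map_mul, aeval_X]
      by_cases hj : j = i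
      · subst hj
        rw [pderiv_X_self, map_one, if_pos rfl]
        ring
      · rw [pderiv_X_of_ne (Ne.symm hj), map_zero, if_neg hj]
        ring
    rw [sum_congr rfl fun j _ => h j, sum_add_distrib, ← mul_sum, sum_ite_eq' univ i,
      if_pos (mem_univ i)]
    ring

/-- the parametrisation of the quadric -/
theorem param (z : Fin (2 + 1 + 1) → ℂ) (h : z 0 * z 3 = z 1 * z 2) :
    ∃ a b : Fin 2 → ℂ, z = seg a b := by
  by_cases h0 : z 0 = 0
  · rw [h0, zero_mul] at h
    rcases mul_eq_zero.1 h.symm with h1 | h1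
    · refine ⟨![0, 1], ![z 2, z 3], ?_⟩
      funext j
      fin_cases j
      · simpa [seg, row, col] using h0
      · simpa [seg, row, col] using h1
      · simp [seg, row, col]
      · simp [seg, row, col]
    · refine ⟨![z 1, z 3], ![0, 1], ?_⟩
      funext j
      fin_cases j
      · simpa [seg, row, col] using h0
      · simp [seg, row, col]
      · simpa [seg, row, col] using h1
      · simp [seg, row, col]
  · refine ⟨![z 0, z 2], ![1, z 1 / z 0], ?_⟩
    funext j
    fin_cases j
    · simp [seg, row, col]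
    · simp [seg, row, col]
      field_simp
    · simp [seg, row, col]
    · simp [seg, row, col]
      field_simp
      linear_combination h

/-- the substitution -/
noncomputable def gg : Fin (2 + 1 + 1) → MvPolynomial (Fin 2 ⊕ Fin 2) ℤ :=
  seg (fun s : Fin 2 => (X (Sum.inl s) : MvPolynomial (Fin 2 ⊕ Fin 2) ℤ))
    (fun t : Fin 2 => X (Sum.inr t))

theorem ev (a b : Fin 2 → ℂ) (P : MvPolynomial (Fin (2 + 1 + 1)) ℤ) :
    aeval (Sum.elim a b) (aeval gg P) = aeval (seg a b) P := by
  have h : (aeval (Sum.elim a b)).comp (aeval gg : MvPolynomial (Fin (2 + 1 + 1)) ℤ →ₐ[ℤ] _) =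
      (aeval (seg a b) : MvPolynomial (Fin (2 + 1 + 1)) ℤ →ₐ[ℤ] ℂ) := by
    apply MvPolynomial.algHom_ext
    intro j
    simp [gg, seg]
  exact DFunLike.congr_fun h P

theorem gg_Gq (k : Fin 1) : aeval gg (Gq k) = 0 := by
  unfold Gq gg
  simp only [map_sub, map_mul, aeval_X, seg, row, col]
  simp
  ring

theorem main : Pool.Agent.H455.PP.S_SMOOTH := by
  classical
  intro k d q r F Q hF hQ z hz hzG
  have hz0 : z 0 * z 3 = z 1 * z 2 := by
    have h := hzG 0
    unfold Gq at h
    simp only [map_sub, map_mul, aeval_X] at h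
    exact sub_eq_zero.1 h
  obtain ⟨a, b, rfl⟩ := param z hz0
  obtain ⟨j, hj⟩ := Function.ne_iff.1 hz
  have haj : a (row j) ≠ 0 := fun h => hj (by unfold seg; rw [h, zero_mul]; rfl)
  have hbj : b (col j) ≠ 0 := fun h => hj (by unfold seg; rw [h, mul_zero]; rfl)
  have ha : a ≠ 0 := fun h => haj (by rw [h]; rfl)
  have hb : b ≠ 0 := fun h => hbj (by rw [h]; rfl)
  refine ⟨fun _ => 0, fun _ => j, ?_⟩
  have hval : ∀ i, aeval (seg a b) (Q i j) =
      aeval (Sum.elim a b) (F i) * a (row j) ^ (d - q i) * b (col j) ^ (d - r i) := by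
    intro i
    rw [← ev, gg, hQ.2 i j]
    simp
  have hsub : ∀ i, (∀ j, aeval (seg a b) (Q i j) = 0) → aeval (Sum.elim a b) (F i) = 0 := by
    intro i h
    have h1 := hval i
    rw [h j] at h1
    rcases mul_eq_zero.1 h1.symm with h2 | h2
    · rcases mul_eq_zero.1 h2 with h3 | h3
      · exact h3
      · exact absurd h3 (pow_ne_zero _ haj)
    · exact absurd h2 (pow_ne_zero _ hbj)
  have hlin := (hF a b ha hb).comp
    (fun i : {i : Fin k // ∀ j, aeval (seg a b) (Q i j) = 0} =>
      (⟨i.1, hsub i.1 i.2⟩ : {i : Fin k // aeval (Sum.elim a b) (F i) = 0}))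
    (fun i i' h => Subtype.ext (congrArg (fun x => x.1) h))
  rw [Fintype.linearIndependent_iff] at hlin ⊢
  intro c hc
  have hy : ∀ y : Fin (2 + 1 + 1), c (Sum.inl 0) * aeval (seg a b) (pderiv y (Gq 0)) +
      ∑ i : {i : Fin k // ∀ j, aeval (seg a b) (Q i j) = 0},
        c (Sum.inr i) * aeval (seg a b) (pderiv y (Q i.1 j)) = 0 := by
    intro y
    have h1 := congrFun hc y
    rw [Fintype.sum_sum_type, Fin.sum_univ_one, Pi.add_apply, Finset.sum_apply] at h1
    exact h1
  have hch : ∀ (P : MvPolynomial (Fin (2 + 1 + 1)) ℤ) (x : Fin 2 ⊕ Fin 2),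
      ∑ y, aeval (seg a b) (pderiv y P) * aeval (Sum.elim a b) (pderiv x (gg y)) =
        aeval (Sum.elim a b) (pderiv x (aeval gg P)) := by
    intro P x
    rw [chain, map_sum]
    refine sum_congr rfl fun y _ => ?_
    rw [map_mul, ev]
  have hder : ∀ (i : {i : Fin k // ∀ j, aeval (seg a b) (Q i j) = 0}) (x : Fin 2 ⊕ Fin 2),
      aeval (Sum.elim a b) (pderiv x (aeval gg (Q i.1 j))) =
        (a (row j) ^ (d - q i.1) * b (col j) ^ (d - r i.1)) *
          aeval (Sum.elim a b) (pderiv x (F i.1)) := by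
    intro i x
    have hM : ∀ M : MvPolynomial (Fin 2 ⊕ Fin 2) ℤ,
        aeval (Sum.elim a b) (pderiv x (F i.1 * M)) =
          aeval (Sum.elim a b) M * aeval (Sum.elim a b) (pderiv x (F i.1)) := by
      intro M
      have h0 := hsub i.1 i.2
      rw [Derivation.leibniz, smul_eq_mul, smul_eq_mul, map_add]
      rw [map_mul (aeval (Sum.elim a b)) (F i.1) (pderiv x M),
        map_mul (aeval (Sum.elim a b)) M (pderiv x (F i.1)), h0, zero_mul, zero_add]
    rw [gg, hQ.2 i.1 j, mul_assoc, hM]
    simp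
  have hx : ∀ x : Fin 2 ⊕ Fin 2, ∑ i : {i : Fin k // ∀ j, aeval (seg a b) (Q i j) = 0},
      (c (Sum.inr i) * (a (row j) ^ (d - q i.1) * b (col j) ^ (d - r i.1))) *
        aeval (Sum.elim a b) (pderiv x (F i.1)) = 0 := by
    intro x
    have h1 : ∑ y, (c (Sum.inl 0) * aeval (seg a b) (pderiv y (Gq 0)) +
        ∑ i : {i : Fin k // ∀ j, aeval (seg a b) (Q i j) = 0},
          c (Sum.inr i) * aeval (seg a b) (pderiv y (Q i.1 j))) *
        aeval (Sum.elim a b) (pderiv x (gg y)) = 0 :=
      sum_eq_zero fun y _ => by rw [hy y, zero_mul]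
    simp_rw [add_mul] at h1
    rw [sum_add_distrib] at h1
    have h2 : ∑ y, c (Sum.inl 0) * aeval (seg a b) (pderiv y (Gq 0)) *
        aeval (Sum.elim a b) (pderiv x (gg y)) = 0 := by
      simp_rw [mul_assoc]
      rw [← mul_sum, hch, gg_Gq]
      simp
    rw [h2, zero_add] at h1
    simp_rw [sum_mul] at h1
    rw [sum_comm] at h1
    refine Eq.trans (sum_congr rfl fun i _ => ?_) h1
    simp_rw [mul_assoc]
    rw [← mul_sum, hch, hder]
    ring
  have hci : ∀ i, c (Sum.inr i) = 0 := by
    intro i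
    have h1 := hlin (fun i => c (Sum.inr i) *
      (a (row j) ^ (d - q i.1) * b (col j) ^ (d - r i.1))) (by
        funext x
        rw [Finset.sum_apply]
        exact hx x) i
    rcases mul_eq_zero.1 h1 with h2 | h2
    · exact h2
    · exact absurd h2 (mul_ne_zero (pow_ne_zero _ haj) (pow_ne_zero _ hbj))
  have hc0 : c (Sum.inl 0) = 0 := by
    by_contra hne
    have h1 : ∀ y : Fin (2 + 1 + 1), aeval (seg a b) (pderiv y (Gq 0)) = 0 := by
      intro y
      have h2 := hy y
      rw [sum_eq_zero fun i _ => by rw [hci i, zero_mul], add_zero] at h2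
      exact (mul_eq_zero.1 h2).resolve_left hne
    apply hz
    have e0 := h1 0
    have e1 := h1 1
    have e2 := h1 2
    have e3 := h1 3
    unfold Gq at e0 e1 e2 e3
    simp [pderiv_X] at e0 e1 e2 e3
    funext i
    fin_cases i
    · simpa using e3
    · simpa using e2
    · simpa using e1
    · simpa using e0
  intro i
  rcases i with i | i
  · rw [Subsingleton.elim i 0]
    exact hc0
  · exact hci i

end Pool.Agent.H455.PP_SMOOTH
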