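import Mathlib
import Pool.Agent.H455.PP

set_option autoImplicit false

open Finset MvPolynomial

namespace Pool.Agent.H455.PP_TAN

open Pool.Agent.H455.PP Pool.Agent.Y724.T4

theorem sgn (x y : Fin (2 + 1 + 1) → ℚ) (hy : ∀ j, y j = x j ∨ y j = - x j) :
    Height.logHeight y = Height.logHeight x := by
  by_cases hx : x = 0
  · have hy0 : y = 0 := by
      funext j
      rcases hy j with h | h
      · rw [h, hx]
      · rw [h, hx]
        simp
    rw [hx, hy0]
  · have hy0 : y ≠ 0 := by
      intro h
      apply hx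
      funext j
      rcases hy j with h1 | h1
      · rw [← h1, h]
      · have h2 : x j = - y j := by rw [h1, neg_neg]
        rw [h2, h]
        simp
    have H : ∀ (v : AbsoluteValue ℚ ℝ) j, v (y j) = v (x j) := by
      intro v j
      rcases hy j with h | h
      · rw [h]
      · rw [h, AbsoluteValue.map_neg]
    rw [Height.logHeight_eq_log_mulHeight, Height.logHeight_eq_log_mulHeight,
      Height.mulHeight_eq hx, Height.mulHeight_eq hy0]
    simp only [H]

def JJ : Fin (2 + 1 + 1) → (Fin (2 + 1) → Fin (2 + 1 + 1)) :=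
  ![![0, 1, 2], ![0, 1, 3], ![0, 2, 3], ![1, 2, 3]]

theorem minors (a v b : Fin 2 → ℚ) (h : a 0 * v 1 - a 1 * v 0 = 1) (j : Fin (2 + 1 + 1)) :
    ((tan a v b).submatrix (JJ j) id).det = a (row j) * b (col j) ∨
      ((tan a v b).submatrix (JJ j) id).det = -(a (row j) * b (col j)) := by
  fin_cases j
  · left
    simp only [Nat.reduceAdd]
    rw [Matrix.det_fin_three]
    simp [tan, row, col, JJ]
    linear_combination (a 0 * b 0) * h
  · left
    simp only [Nat.reduceAdd]
    rw [Matrix.det_fin_three]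
    simp [tan, row, col, JJ]
    linear_combination (a 0 * b 1) * h
  · right
    simp only [Nat.reduceAdd]
    rw [Matrix.det_fin_three]
    simp [tan, row, col, JJ]
    linear_combination -(a 1 * b 0) * h
  · right
    simp only [Nat.reduceAdd]
    rw [Matrix.det_fin_three]
    simp [tan, row, col, JJ]
    linear_combination -(a 1 * b 1) * h

theorem indep (a v b : Fin 2 → ℚ) (h : a 0 * v 1 - a 1 * v 0 = 1) (hb : b ≠ 0) :
    LinearIndependent ℚ (fun c : Fin (2 + 1) => fun j : Fin (2 + 1 + 1) => tan a v b j c) := by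
  rw [Fintype.linearIndependent_iff]
  intro g hg
  have e0 := congrFun hg 0
  have e1 := congrFun hg 1
  have e2 := congrFun hg 2
  have e3 := congrFun hg 3
  simp [Fin.sum_univ_succ, tan, row, col] at e0 e1 e2 e3
  have g0 : g 0 = 0 := by linear_combination v 1 * e0 - v 0 * e2 - (g 0) * h
  have g1 : g 1 = 0 := by linear_combination v 1 * e1 - v 0 * e3 - (g 1) * h
  have g2 : g 2 = 0 := by
    have f0 : g 2 * b 0 = 0 := by linear_combination a 0 * e2 - a 1 * e0 - (g 2 * b 0) * h
    have f1 : g 2 * b 1 = 0 := by linear_combination a 0 * e3 - a 1 * e1 - (g 2 * b 1) * h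
    by_contra hne
    apply hb
    funext i
    fin_cases i
    · exact (mul_eq_zero.1 f0).resolve_left hne
    · exact (mul_eq_zero.1 f1).resolve_left hne
  intro i
  fin_cases i
  · exact g0
  · exact g1
  · exact g2

theorem orth (a b : Fin 2 → ℤ) (v : Fin 2 → ℚ) (k : Fin 1) (c : Fin (2 + 1)) :
    ∑ j, aeval (Pool.Agent.H455.PP.sq a b) (pderiv j (Gq k)) *
      tan (fun i => (a i : ℚ)) v (fun i => (b i : ℚ)) j c = 0 := by
  fin_cases c <;>
  · simp [Fin.sum_univ_succ, Gq, tan, row, col, Pool.Agent.H455.PP.sq, seg, pderiv_X, Pi.single_apply]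
    ring

theorem main : S_TAN := by
  intro a b v h hb
  have h' : (a 0 : ℚ) * (v 1 : ℚ) - (a 1 : ℚ) * (v 0 : ℚ) = 1 := by exact_mod_cast h
  have hb' : (fun i => (b i : ℚ)) ≠ 0 := by
    intro h0
    apply hb
    funext i
    have h1 := congrFun h0 i
    simpa using h1
  refine ⟨⟨indep _ _ _ h' hb', fun k c => orth a b _ k c⟩, ?_⟩
  set T := tan (fun i => (a i : ℚ)) (fun i => (v i : ℚ)) (fun i => (b i : ℚ)) with hT
  have h1 : Height.logHeight (Pool.Agent.H455.PP.sq a b) ≤
      Height.logHeight (fun J : Fin (2 + 1) → Fin (2 + 1 + 1) => (T.submatrix J id).det) := by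
    have h2 := Height.logHeight_comp_le JJ
      (fun J : Fin (2 + 1) → Fin (2 + 1 + 1) => (T.submatrix J id).det)
    have h3 : Height.logHeight ((fun J : Fin (2 + 1) → Fin (2 + 1 + 1) =>
        (T.submatrix J id).det) ∘ JJ) = Height.logHeight (Pool.Agent.H455.PP.sq a b) := by
      apply sgn
      intro j
      have h4 := minors (fun i => (a i : ℚ)) (fun i => (v i : ℚ)) (fun i => (b i : ℚ)) h' j
      have h5 : Pool.Agent.H455.PP.sq a b j = (a (row j) : ℚ) * (b (col j) : ℚ) := by
        unfold Pool.Agent.H455.PP.sq seg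
        push_cast
        ring
      rw [h5]
      exact h4
    rw [h3] at h2
    exact h2
  unfold R7.canonicalHeight R7.height
  have h6 : (Module.finrank ℚ ℚ : ℝ) = 1 := by
    rw [Module.finrank_self]
    norm_num
  rw [h6]
  push_cast
  linarith

end Pool.Agent.H455.PP_TAN
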