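import Mathlib
import Pool.Agent.H455.PP

set_option autoImplicit false

/-!
# Vojta's inequality for sequences of points of the product of two projective lines
-/

open Finset Filter Topology MvPolynomial

namespace Pool.Agent.H455.PP_VOS

open Pool.Agent.H455.CB Pool.Agent.H455.AB Pool.Agent.Y724.T4 Pool.Agent.H455.SZ
open Pool.Agent.H455.VO Pool.Agent.H455.TR Pool.Agent.K3h2.LA
open Pool.Agent.R343.LT
open Pool.Agent.TH419.WI Pool.Agent.TH419.HX Pool.Agent.H455.VC Pool.Agent.H455.RT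
open Pool.Agent.Results.MP_821da1_nt.LaurentDichotomy (UnitOf NoLaurentCurve Qbar)
open Pool.Agent.H455.PP

theorem lift_val {k d : ℕ} {q r : Fin k → ℕ} {F : Fin k → MvPolynomial (Fin 2 ⊕ Fin 2) ℤ}
    {Q : Fin k → Fin (2 + 1 + 1) → MvPolynomial (Fin (2 + 1 + 1)) ℤ} (h : IsLift d q r F Q)
    (a b : Fin 2 → ℤ) (i : Fin k) (j : Fin (2 + 1 + 1)) :
    aeval (seg a b) (Q i j) = aeval (Sum.elim a b) (F i) * a (row j) ^ (d - q i) *
      b (col j) ^ (d - r i) := by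
  have h1 := congrArg (fun p => aeval (R := ℤ) (Sum.elim a b) p) (h.2 i j)
  beta_reduce at h1
  rw [comp_aeval_apply, map_mul, map_mul, map_pow, map_pow, aeval_X, aeval_X, Sum.elim_inl,
    Sum.elim_inr] at h1
  rw [← h1]
  have h2 : (fun i => aeval (R := ℤ) (Sum.elim a b)
      (seg (fun s : Fin 2 => (X (Sum.inl s) : MvPolynomial (Fin 2 ⊕ Fin 2) ℤ))
        (fun t : Fin 2 => X (Sum.inr t)) i)) = seg a b := by
    funext j
    unfold seg
    rw [map_mul, aeval_X, aeval_X, Sum.elim_inl, Sum.elim_inr]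
  rw [h2]

theorem le_mx (a : Fin 2 → ℤ) (s : Fin 2) : (a s).natAbs ≤ mx a := by
  unfold mx
  fin_cases s
  · exact le_max_left _ _
  · exact le_max_right _ _

theorem mx_at (a : Fin 2 → ℤ) : ∃ s, (a s).natAbs = mx a := by
  unfold mx
  rcases le_total (a 0).natAbs (a 1).natAbs with h | h
  · exact ⟨1, (max_eq_right h).symm⟩
  · exact ⟨0, (max_eq_left h).symm⟩

theorem mx_pos {a : Fin 2 → ℤ} (h : a ≠ 0) : 1 ≤ mx a := by
  by_contra h1
  have h2 : mx a = 0 := by omega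
  refine h (funext fun s => ?_)
  have h3 := le_mx a s
  rw [h2] at h3
  simpa using h3

theorem bih_le {q r : ℕ} {F : MvPolynomial (Fin 2 ⊕ Fin 2) ℤ} (hF : Pool.Agent.H455.PP.Bihom q r F) :
    ∃ c : ℕ, 1 ≤ c ∧ ∀ a b : Fin 2 → ℤ,
      (aeval (Sum.elim a b) F).natAbs ≤ c * (mx a ^ q * mx b ^ r) := by
  classical
  refine ⟨1 + ∑ m ∈ F.support, (F.coeff m).natAbs, by omega, fun a b => ?_⟩
  have h1 : aeval (Sum.elim a b) F = ∑ m ∈ F.support, F.coeff m * ∏ i, (Sum.elim a b) i ^ m i := by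
    rw [aeval_def, eval₂_eq']
    rfl
  rw [h1]
  refine (Int.natAbs_sum_le _ _).trans ?_
  rw [add_mul, Finset.sum_mul]
  refine le_trans ?_ (Nat.le_add_left _ _)
  refine Finset.sum_le_sum fun m hm => ?_
  rw [Int.natAbs_mul]
  refine Nat.mul_le_mul_left _ ?_
  obtain ⟨h2, h3⟩ := hF m hm
  rw [Fintype.prod_sum_type, Fin.prod_univ_two, Fin.prod_univ_two]
  simp only [Sum.elim_inl, Sum.elim_inr]
  rw [Int.natAbs_mul, Int.natAbs_mul, Int.natAbs_mul, Int.natAbs_pow, Int.natAbs_pow,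
    Int.natAbs_pow, Int.natAbs_pow, ← h2, ← h3, pow_add, pow_add]
  exact Nat.mul_le_mul (Nat.mul_le_mul (Nat.pow_le_pow_left (le_mx a 0) _)
    (Nat.pow_le_pow_left (le_mx a 1) _)) (Nat.mul_le_mul (Nat.pow_le_pow_left (le_mx b 0) _)
    (Nat.pow_le_pow_left (le_mx b 1) _))

theorem relQ_pow {S : Finset ℕ} {L : ℕ → ℝ} (hS : ∀ p ∈ S, p.Prime)
    (hL : Tendsto L atTop atTop) {x : ℕ → ℚ} (hx : RelQ S L x) (n : ℕ) :
    RelQ S L fun t => x t ^ n := by
  induction n with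
  | zero =>
    have h1 : RelQ S L fun _ => (1 : ℚ) := RelQ.unit hL fun t => unitOf_one S
    exact h1.congr fun t => pow_zero _
  | succ n ih => exact (ih.mul hS hx).congr fun t => pow_succ _ _

theorem relQ_zero {S : Finset ℕ} {L : ℕ → ℝ} (hL : Tendsto L atTop atTop) :
    RelQ S L fun _ => (0 : ℚ) :=
  RelQ.of (ι := Unit) (fun _ _ => 1) (fun _ _ => 0) (fun _ _ => unitOf_one S)
    (fun _ => SlowQ.const hL 0) (fun t => by simp)

theorem gq_hom (k : Fin 1) : (Gq k).IsHomogeneous 2 := by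
  unfold Gq
  have h1 : ∀ i j : Fin (2 + 1 + 1), (X i * X j : MvPolynomial (Fin (2 + 1 + 1)) ℤ).IsHomogeneous 2 :=
    fun i j => (isHomogeneous_X ℤ i).mul (isHomogeneous_X ℤ j)
  exact (h1 0 3).sub (h1 1 2)

theorem gq_seg (a b : Fin 2 → ℤ) (k : Fin 1) : aeval (seg a b) (Gq k) = 0 := by
  unfold Gq
  rw [map_sub, map_mul, map_mul, aeval_X, aeval_X, aeval_X, aeval_X]
  unfold seg
  have h0 : row 0 = 0 := rfl
  have h1 : row 1 = 0 := rfl
  have h2 : row 2 = 1 := rfl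
  have h3 : row 3 = 1 := rfl
  have k0 : col 0 = 0 := rfl
  have k1 : col 1 = 1 := rfl
  have k2 : col 2 = 0 := rfl
  have k3 : col 3 = 1 := rfl
  rw [h0, h1, h2, h3, k0, k1, k2, k3]
  ring

theorem seg_le (a b : Fin 2 → ℤ) (j : Fin (2 + 1 + 1)) : (seg a b j).natAbs ≤ mx a * mx b := by
  unfold seg
  rw [Int.natAbs_mul]
  exact Nat.mul_le_mul (le_mx _ _) (le_mx _ _)

theorem row_col (s t : Fin 2) : ∃ j : Fin (2 + 1 + 1), row j = s ∧ col j = t := by
  fin_cases s <;> fin_cases t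
  · exact ⟨0, rfl, rfl⟩
  · exact ⟨1, rfl, rfl⟩
  · exact ⟨2, rfl, rfl⟩
  · exact ⟨3, rfl, rfl⟩

theorem seg_at (a b : Fin 2 → ℤ) : ∃ j : Fin (2 + 1 + 1), (seg a b j).natAbs = mx a * mx b := by
  obtain ⟨s, hs⟩ := mx_at a
  obtain ⟨t, ht⟩ := mx_at b
  obtain ⟨j, h1, h2⟩ := row_col s t
  refine ⟨j, ?_⟩
  unfold seg
  rw [Int.natAbs_mul, h1, h2, hs, ht]

theorem main : Pool.Agent.H455.PP.S_DEN → Pool.Agent.H455.PP.S_DIM → Pool.Agent.H455.PP.S_VOS := by
  intro hDEN hDIM S hS k d q r F Q hqr hbi hlift hsm m ε hε L a b ρ w ha0 hb0 hLX hL hF0 hρ hw hdvd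
    C hC hFC hρC La Lb LF Lρ hgen T hT hbad
  classical
  have hma : ∀ t, 1 ≤ mx (a t) := fun t => mx_pos (ha0 t)
  have hmb : ∀ t, 1 ≤ mx (b t) := fun t => mx_pos (hb0 t)
  have hX1 : ∀ t, 1 ≤ mx (a t) * mx (b t) := fun t => Nat.mul_pos (hma t) (hmb t)
  have hLnn : ∀ t, 0 ≤ L t := fun t => by
    rw [hLX]
    exact Real.log_nonneg (by exact_mod_cast hX1 t)
  obtain ⟨m', hm'⟩ : ∃ m' : ℕ, m' = m + 1 := ⟨_, rfl⟩
  have hdvd' : ∀ i t, (aeval (Sum.elim (a t) (b t)) (F i)).natAbs ∣ w t * ρ t ^ m' := fun i t => by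
    rw [hm', pow_succ, ← mul_assoc]
    exact (hdvd t i).mul_right _
  choose y u Ly hu hyu using fun i => cofactor hS hL hLnn m'
    (fun t => aeval (Sum.elim (a t) (b t)) (F i)) ρ w
    (fun t => hF0 t i) hw (hdvd' i) C hC (hFC i) (LF i) Lρ
  -- the relations
  obtain ⟨ψ, hψ, hrel⟩ := rel_ft (ι := (Fin 2 ⊕ Fin 2) ⊕ (Fin k ⊕ Unit)) hS hL hLnn
    (Sum.elim (Sum.elim (fun s t => a t s) (fun s t => b t s))
      (Sum.elim y fun _ t => (ρ t : ℤ))) (fun i => by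
      rcases i with (i | i) | i | i
      · exact La i
      · exact Lb i
      · exact Ly i
      · show Ld S L fun t => (((ρ t : ℕ) : ℤ) : ℚ)
        refine Lρ.congr fun t => ?_
        rw [Int.cast_natCast])
  have hψt := hψ.tendsto_atTop
  obtain ⟨L', hL'⟩ : ∃ L' : ℕ → ℝ, L' = L ∘ ψ := ⟨_, rfl⟩
  rw [← hL'] at hrel
  have hLt : Tendsto L' atTop atTop := by rw [hL']; exact hL.comp hψt
  have Ra : ∀ s, RelQ S L' fun t => (a (ψ t) s : ℚ) := fun s => hrel (Sum.inl (Sum.inl s))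
  have Rb : ∀ s, RelQ S L' fun t => (b (ψ t) s : ℚ) := fun s => hrel (Sum.inl (Sum.inr s))
  have Ry : ∀ i, RelQ S L' fun t => (y i (ψ t) : ℚ) * u i (ψ t) := fun i => by
    have h1 : RelQ S L' fun t => (y i (ψ t) : ℚ) := hrel (Sum.inr (Sum.inl i))
    exact h1.mul hS (RelQ.unit hLt fun t => hu i _)
  have Rρ : RelQ S L' fun t => (ρ (ψ t) : ℚ) := by
    have h1 : RelQ S L' fun t => (((ρ (ψ t) : ℕ) : ℤ) : ℚ) := hrel (Sum.inr (Sum.inr ()))
    refine h1.congr fun t => ?_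
    rw [Int.cast_natCast]
  have R1 : RelQ S L' fun _ => (1 : ℚ) := RelQ.unit hLt fun t => unitOf_one S
  have Rx : ∀ j, RelQ S L' fun t => ((seg (a (ψ t)) (b (ψ t)) j : ℤ) : ℚ) := fun j =>
    ((Ra (row j)).mul hS (Rb (col j))).congr fun t => by
      unfold seg
      push_cast
      rfl
  -- the numbers b
  obtain ⟨B, hB⟩ : ∃ B : ℕ → Fin k → Fin (2 + 1 + 1) → Fin (2 + 1 + 1) → ℚ,
      B = fun t i j j' => if j' = j then (a t (row j) : ℚ) ^ q i * (b t (col j) : ℚ) ^ r i *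
        ((y i t : ℚ) * u i t) else 0 := ⟨_, rfl⟩
  have RB : ∀ i j j', RelQ S L' fun t => B (ψ t) i j j' := fun i j j' => by
    by_cases hj : j' = j
    · refine (((relQ_pow hS hLt (Ra (row j)) (q i)).mul hS
        (relQ_pow hS hLt (Rb (col j)) (r i))).mul hS (Ry i)).congr fun t => ?_
      rw [hB]
      beta_reduce
      rw [if_pos hj]
    · refine (relQ_zero hLt).congr fun t => ?_
      rw [hB]
      beta_reduce
      rw [if_neg hj]
  obtain ⟨l, Δ, M, hΔ, hΔM, hMS, hsh⟩ := clear hLt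
    (κ := Fin (2 + 1 + 1) ⊕ ((Fin k × Fin (2 + 1 + 1) × Fin (2 + 1 + 1)) ⊕ (Unit ⊕ Unit)))
    (Sum.elim (fun j t => ((seg (a (ψ t)) (b (ψ t)) j : ℤ) : ℚ))
      (Sum.elim (fun p t => B (ψ t) p.1 p.2.1 p.2.2)
      (Sum.elim (fun _ t => (ρ (ψ t) : ℚ)) fun _ _ => 1))) (fun i => by
      rcases i with i | i | i | i
      · exact Rx i
      · exact RB i.1 i.2.1 i.2.2
      · exact Rρ
      · exact R1)
  -- the size
  choose c hc1 hc using fun i => bih_le (hbi i)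
  obtain ⟨c0, hc0⟩ : ∃ c0 : ℕ, c0 = 1 + ∑ i, c i := ⟨_, rfl⟩
  have hcc : ∀ i, c i ≤ c0 := fun i => by
    have := Finset.single_le_sum (f := c) (fun _ _ => Nat.zero_le _) (Finset.mem_univ i)
    omega
  have hc01 : 1 ≤ c0 := by omega
  have hpw : ∀ t i, mx (a t) ^ q i * mx (b t) ^ r i ≤ (mx (a t) * mx (b t)) ^ (2 * d) := fun t i => by
    have h1 : mx (a t) ^ q i ≤ (mx (a t) * mx (b t)) ^ d :=
      (Nat.pow_le_pow_right (hma t) (hqr i).1).trans
        (Nat.pow_le_pow_left (Nat.le_mul_of_pos_right _ (hmb t)) _)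
    have h2 : mx (b t) ^ r i ≤ (mx (a t) * mx (b t)) ^ d :=
      (Nat.pow_le_pow_right (hmb t) (hqr i).2).trans
        (Nat.pow_le_pow_left (Nat.le_mul_of_pos_left _ (hma t)) _)
    calc mx (a t) ^ q i * mx (b t) ^ r i
        ≤ (mx (a t) * mx (b t)) ^ d * (mx (a t) * mx (b t)) ^ d := Nat.mul_le_mul h1 h2
      _ = (mx (a t) * mx (b t)) ^ (2 * d) := by rw [← pow_add]; congr 1; omega
  have hsize : ∀ t i j j', ∃ n D : ℤ, D ≠ 0 ∧ B t i j j' = n / D ∧
      n.natAbs ≤ ρ t ^ m' * (c0 * (mx (a t) * mx (b t)) ^ (2 * d)) ∧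
      D.natAbs ≤ ρ t ^ m' * (c0 * (mx (a t) * mx (b t)) ^ (2 * d)) := fun t i j j' => by
    have hρ1 : 1 ≤ ρ t ^ m' := Nat.one_le_pow _ _ (hρ t)
    have hXp : 1 ≤ (mx (a t) * mx (b t)) ^ (2 * d) := Nat.one_le_pow _ _ (hX1 t)
    by_cases hj : j' = j
    · refine ⟨a t (row j) ^ q i * b t (col j) ^ r i * (ρ t : ℤ) ^ m',
        aeval (Sum.elim (a t) (b t)) (F i), hF0 t i, ?_, ?_, ?_⟩
      · rw [hB]
        beta_reduce
        rw [if_pos hj]
        have h1 := hyu i t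
        beta_reduce at h1
        have h2 : ((aeval (Sum.elim (a t) (b t)) (F i) : ℤ) : ℚ) ≠ 0 := by
          exact_mod_cast hF0 t i
        rw [eq_div_iff h2]
        push_cast
        rw [h1]
        ring
      · rw [Int.natAbs_mul, Int.natAbs_mul, Int.natAbs_pow, Int.natAbs_pow, Int.natAbs_pow,
          Int.natAbs_natCast, mul_comm]
        refine Nat.mul_le_mul_left _ ?_
        refine le_trans (Nat.mul_le_mul (Nat.pow_le_pow_left (le_mx _ _) _)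
          (Nat.pow_le_pow_left (le_mx _ _) _)) ((hpw t i).trans (Nat.le_mul_of_pos_left _ hc01))
      · refine (hc i (a t) (b t)).trans ?_
        refine (Nat.mul_le_mul (hcc i) (hpw t i)).trans (Nat.le_mul_of_pos_left _ hρ1)
    · refine ⟨0, 1, one_ne_zero, ?_, ?_, ?_⟩
      · rw [hB]
        beta_reduce
        rw [if_neg hj]
        simp
      · simp
      · exact Nat.mul_pos hρ1 (Nat.mul_pos hc01 hXp)
  have hid : ∀ t i j, (ρ t : ℚ) ^ m' * ((seg (a t) (b t) j : ℤ) : ℚ) ^ d =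
      ∑ j', ((aeval (seg (a t) (b t)) (Q i j') : ℤ) : ℚ) * B t i j j' := fun t i j => by
    rw [Finset.sum_eq_single j]
    · rw [lift_val hlift, hB]
      beta_reduce
      rw [if_pos rfl]
      have h1 := hyu i t
      beta_reduce at h1
      have h2 : (a t (row j) : ℚ) ^ (d - q i) * (a t (row j) : ℚ) ^ q i = (a t (row j) : ℚ) ^ d := by
        rw [← pow_add, Nat.sub_add_cancel (hqr i).1]
      have h3 : (b t (col j) : ℚ) ^ (d - r i) * (b t (col j) : ℚ) ^ r i = (b t (col j) : ℚ) ^ d := by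
        rw [← pow_add, Nat.sub_add_cancel (hqr i).2]
      unfold seg
      push_cast
      rw [mul_pow, ← h2, ← h3, h1]
      ring
    · intro j' _ hj'
      rw [hB]
      beta_reduce
      rw [if_neg hj', mul_zero]
    · intro h
      exact absurd (Finset.mem_univ j) h
  -- the inequality
  obtain ⟨ε', hε'⟩ : ∃ ε' : ℝ, ε' = ε / (1 + C) := ⟨_, rfl⟩
  have hε'0 : 0 < ε' := by rw [hε']; positivity
  have hε'e : ε' * (1 + C) = ε := by
    rw [hε']
    field_simp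
  obtain ⟨δ, Φ, k', C0, hδ, hC0, hΦ, hΦz, hmain⟩ := hDEN 2 1 1 k (2 + 1 + 1) Gq (fun _ => 2) gq_hom
    Q d hlift.1 hDIM hsm S hS l m' c0 (2 * d) (by omega) hc01 ε' hε'0
  have hev : ∀ᶠ _t : ℕ in atTop, False := by
    filter_upwards [hψt.eventually (hbad C0), hψt.eventually (hgen Φ ⟨⟨k', hΦ⟩, hΦz⟩), hMS δ hδ]
      with t h1 h2 h3
    have hM1 : (1 : ℝ) ≤ M t := by
      have h4 : (1 : ℝ) ≤ Δ t := by exact_mod_cast hΔ t
      exact h4.trans (hΔM t)
    have h4 : Real.log (M t) ≤ δ * (1 + Real.log ((mx (a (ψ t)) * mx (b (ψ t)) : ℕ) : ℝ)) := by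
      have h5 := Real.log_le_log (by linarith) ((le_abs_self _).trans h3)
      rw [Real.log_exp, hL'] at h5
      have h6 : (L ∘ ψ) t = Real.log ((mx (a (ψ t)) * mx (b (ψ t)) : ℕ) : ℝ) := hLX _
      rw [h6] at h5
      linarith
    have h5 := hmain (seg (a (ψ t)) (b (ψ t))) (ρ (ψ t)) (mx (a (ψ t)) * mx (b (ψ t)))
      (B (ψ t)) (Δ t)
      (M t) (gq_seg _ _) (hρ _) (hid (ψ t)) (hsize (ψ t)) (seg_le _ _) (seg_at _ _) (hX1 _)
      (hΔ t) (hΔM t) h4
      (fun i => hsh t (Sum.inl i)) (fun i j j' => hsh t (Sum.inr (Sum.inl (i, j, j'))))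
      (hsh t (Sum.inr (Sum.inr (Sum.inl ())))) (by
        have h6 := hsh t (Sum.inr (Sum.inr (Sum.inr ())))
        simpa using h6) h2 (T (ψ t)) (hT _)
    have h6 := hρC (ψ t)
    have h7 : Real.log ((mx (a (ψ t)) * mx (b (ψ t)) : ℕ) : ℝ) = L (ψ t) := (hLX _).symm
    rw [h7] at h5
    have h8 : ε' * (L (ψ t) + Real.log (ρ (ψ t))) ≤ ε * L (ψ t) := by
      calc ε' * (L (ψ t) + Real.log (ρ (ψ t))) ≤ ε' * (L (ψ t) + C * L (ψ t)) :=
            mul_le_mul_of_nonneg_left (by linarith) hε'0.le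
        _ = ε' * (1 + C) * L (ψ t) := by ring
        _ = ε * L (ψ t) := by rw [hε'e]
    have h9 : R7.canonicalHeight (sq (a (ψ t)) (b (ψ t))) (T (ψ t)) +
        R7.divisorHeight Q (fun _ _ => d) (sq (a (ψ t)) (b (ψ t))) ≤
        Real.log (ρ (ψ t)) + ε' * (L (ψ t) + Real.log (ρ (ψ t))) + C0 := h5
    linarith
  obtain ⟨t, ht⟩ := hev.exists
  exact ht

end Pool.Agent.H455.PP_VOS
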