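import Mathlib
import Pool.Graph.R_pool_sql_team_seeded_3997aac3.Q194.UG.Pts
import Pool.Graph.R_pool_sql_team_seeded_3997aac3.Q204.UF.Aff
import Pool.Graph.R_pool_sql_team_seeded_3997aac3.Q204.UF.IntH

set_option autoImplicit false

/-!
# Points on plane curves whose coordinates are quotients of sums of elements of a group of finite rank
-/

namespace Pool.Agent.H455.QP

open MvPolynomial
open Pool.Agent.Helper259.AbsHt Pool.Agent.H533R3.SL Pool.Agent.Y215.SP Pool.Agent.Y215.SK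
open Pool.Agent.Y215.AF (hA hA_nonneg)
open Pool.Agent.W235.RM
open Pool.Agent.Q51.UF Pool.Agent.Q51.HG Pool.Agent.Q204.UF
open Pool.Agent.Q194.UG (IsQ hD hD_nonneg VV hV_VV UU SS UU_hull psum_eq SS_height ne_of_sum)

variable {r : ℕ}

/-- `(x, y)` lies on a rational curve of degree at most `E` on `F = 0` -/
def OnRatCurve (E : ℕ) (F : MvPolynomial (Fin 2) Qbar) (x y : Qbar) : Prop :=
  ∃ P Q R : Polynomial Qbar, P.natDegree ≤ E ∧ Q.natDegree ≤ E ∧ R.natDegree ≤ E ∧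
    R.eval 1 ≠ 0 ∧ P.eval 1 = x * R.eval 1 ∧ Q.eval 1 = y * R.eval 1 ∧
    (∀ t, R.eval t ≠ 0 → aeval ![P.eval t / R.eval t, Q.eval t / R.eval t] F = 0) ∧
    (P ≠ Polynomial.C x * R ∨ Q ≠ Polynomial.C y * R)

theorem onRatCurve_of {s : ℕ} (D : ℕ) (F : MvPolynomial (Fin 2) Qbar) (hF : F.totalDegree ≤ D)
    (W : Fin s → Fin 3 → Qbar) (l : Fin s → ℕ) (E : ℕ) (hl : ∀ j, l j ≤ E)
    (h : CurveOn (n := 2) (fun _ : Fin 1 => hmg D F) W l) (x y c : Qbar) (hc : c ≠ 0)
    (hs : ∀ i, ∑ j, W j i = c * (![1, x, y] : Fin 3 → Qbar) i) : OnRatCurve E F x y := by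
  obtain ⟨h1, i, i', h2⟩ := h
  have hev : ∀ i, (cur W l i).eval 1 = c * (![1, x, y] : Fin 3 → Qbar) i := by
    intro i
    rw [cur_eval_one, hs]
  have e0 := hev 0
  have e1 := hev 1
  have e2 := hev 2
  simp only [Matrix.cons_val_zero, Matrix.cons_val_one, Matrix.cons_val, mul_one] at e0 e1 e2
  have hdeg : ∀ i, (cur W l i).natDegree ≤ E := by
    intro i
    unfold cur
    refine Polynomial.natDegree_sum_le_of_forall_le _ _ fun j _ => ?_
    refine (Polynomial.natDegree_C_mul_X_pow_le _ _).trans (hl j)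
  refine ⟨cur W l 1, cur W l 2, cur W l 0, hdeg 1, hdeg 2, hdeg 0, by rw [e0]; exact hc,
    by rw [e1, e0]; ring, by rw [e2, e0]; ring, ?_, ?_⟩
  · intro t ht
    have h3 := congrArg (fun p : Polynomial Qbar => p.eval t) (h1 0)
    simp only [Polynomial.eval_zero] at h3
    rw [Pool.Agent.Y215.AF.aeval_eval] at h3
    obtain ⟨v, hv⟩ : ∃ v : Fin 2 → Qbar, v = ![(cur W l 1).eval t / (cur W l 0).eval t,
      (cur W l 2).eval t / (cur W l 0).eval t] := ⟨_, rfl⟩
    rw [← hv]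
    have h4 : (fun i => (cur W l i).eval t) = (Fin.cons ((cur W l 0).eval t)
        (fun i => (cur W l 0).eval t * v i) : Fin 3 → Qbar) := by
      funext i
      refine Fin.cases ?_ (fun i => ?_) i
      · rfl
      · rw [Fin.cons_succ, hv]
        fin_cases i
        · show (cur W l 1).eval t = (cur W l 0).eval t * ((cur W l 1).eval t / (cur W l 0).eval t)
          field_simp
        · show (cur W l 2).eval t = (cur W l 0).eval t * ((cur W l 2).eval t / (cur W l 0).eval t)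
          field_simp
    have h5 : aeval (fun i => (cur W l i).eval t) (hmg D F) = 0 := h3
    rw [h4] at h5
    have h6 := hmg_eval (algebraMap Qbar Qbar) D F hF ((cur W l 0).eval t) v
    rw [← aeval_def, ← aeval_def, h5] at h6
    exact (mul_eq_zero.1 h6.symm).resolve_left (pow_ne_zero _ ht)
  · by_contra hcon
    push Not at hcon
    obtain ⟨hP, hQ⟩ := hcon
    apply h2
    have key : ∀ i : Fin 3, cur W l i = Polynomial.C ((![1, x, y] : Fin 3 → Qbar) i) * cur W l 0 := by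
      intro i
      fin_cases i
      · simp
      · exact hP
      · exact hQ
    rw [hs, hs, key i, key i', Polynomial.C_mul, Polynomial.C_mul]
    ring

/-- the height of the coefficients -/
noncomputable def hF (D : ℕ) (F : MvPolynomial (Fin 2) Qbar) : ℝ :=
  hFc D (fun _ : Fin 1 => F)

theorem hF_nonneg (D : ℕ) (F : MvPolynomial (Fin 2) Qbar) : 0 ≤ hF D F := hFc_nonneg _ _

theorem point_zero (D : ℕ) (F : MvPolynomial (Fin 2) Qbar) (hFD : F.totalDegree ≤ D) (x y c : Qbar)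
    (hxy : aeval ![x, y] F = 0) : aeval (c • (![1, x, y] : Fin 3 → Qbar)) (hmg D F) = 0 := by
  have h1 := hmg_eval (algebraMap Qbar Qbar) D F hFD c ![x, y]
  rw [← aeval_def, ← aeval_def, hxy, mul_zero] at h1
  have h2 : (Fin.cons c (fun i => c * (![x, y] : Fin 2 → Qbar) i) : Fin 3 → Qbar) =
      c • (![1, x, y] : Fin 3 → Qbar) := by
    funext i
    refine Fin.cases ?_ (fun i => ?_) i
    · simp
    · rw [Fin.cons_succ, Pi.smul_apply, smul_eq_mul]
      fin_cases i <;> rfl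
  rw [← h2]
  exact h1

theorem smul_ne (x y c : Qbar) (hc : c ≠ 0) : c • (![1, x, y] : Fin 3 → Qbar) ≠ 0 := by
  intro h
  have := congrFun h 0
  simp at this
  exact hc this

theorem quot_heights (D : ℕ) (hD1 : 1 ≤ D) (r : ℕ) (Γ : Subgroup Qbarˣ) (hΓ : Γ.FG) (ε : ℝ)
    (hε : 0 < ε) : ∃ A : ℝ, 0 ≤ A ∧ ∀ F : MvPolynomial (Fin 2) Qbar, F.totalDegree ≤ D →
      ∀ (a b : Fin 2 → Fin r → Qbar) (x y : Qbar), aeval ![x, y] F = 0 → IsQ Γ ε a x → IsQ Γ ε b y →
        absLogHeight ![1, x, y] ≤ A * (1 + hF D F + hD a + hD b) ∨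
          OnRatCurve (expB D (r * r)) F x y := by
  classical
  obtain ⟨C, hC0, hC⟩ := gen_heights (n := 2) (r := r * r) (fun _ : Fin 1 => D) D hD1
    (fun _ => le_rfl) Γ hΓ
  refine ⟨C * (1 + 2 * ε), by positivity, ?_⟩
  rintro F hFD a b x y hxy ⟨u, s, hu, hs, hW, hx⟩ ⟨v, t, hv, ht, hZ, hy⟩
  by_cases hcur : OnRatCurve (expB D (r * r)) F x y
  · exact Or.inr hcur
  refine Or.inl ?_
  obtain ⟨c, hc⟩ : ∃ c : Qbar, c = (∑ j, (u j : Qbar) * s j * a 1 j) *
    ∑ j, (v j : Qbar) * t j * b 1 j := ⟨_, rfl⟩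
  have hc0 : c ≠ 0 := by rw [hc]; exact mul_ne_zero hW hZ
  have hpt := psum_eq u v s t a b x y hW hx hZ hy
  rw [← hc] at hpt
  have h1 := hC (fun _ => hmg D F) (UU u v) (fun J i => SS s t J * VV a b J i)
    (fun _ => hmg_homog D F hFD) (UU_hull Γ u v hu hv) (by rw [hpt]; exact smul_ne x y c hc0)
    (fun _ => by rw [hpt]; exact point_zero D F hFD x y c hxy) (fun l hl hcv => by
      apply hcur
      refine onRatCurve_of D F hFD _ l _ hl hcv x y c hc0 fun i => ?_
      have := congrFun hpt i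
      rw [Pi.smul_apply, smul_eq_mul] at this
      exact this)
  rw [hpt, absLogHeight_smul _ hc0] at h1
  have hs0 : s ≠ 0 := ne_of_sum hW
  have ht0 : t ≠ 0 := ne_of_sum hZ
  have hS := SS_height s t hs0 ht0
  have hVs : hV (n := 2) (fun J i => SS s t J * VV a b J i) ≤ 2 * ε + (hD a + hD b) := by
    have hne := smul_ne x y c hc0
    have hSne : SS s t ≠ 0 := by
      intro h
      apply hne
      rw [← hpt]
      funext i
      unfold Pool.Agent.Y215.SK.psum
      simp [h]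
    have hVne : (fun p : Fin (r * r) × Fin 3 => VV a b p.1 p.2) ≠ 0 := by
      intro h
      apply hne
      rw [← hpt]
      funext i
      refine Finset.sum_eq_zero fun J _ => ?_
      have h2 : VV a b J i = 0 := congrFun h (J, i)
      show _ * (_ * VV a b J i) = 0
      rw [h2, mul_zero, mul_zero]
    have h2 := height_mul_le (SS s t) (fun p : Fin (r * r) × Fin 3 => VV a b p.1 p.2) hSne hVne
      (τ := Fin (r * r) × Fin 3) (fun p => p.1) (fun p => p)
    have h4 := hV_VV a b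
    unfold hV at h4 ⊢
    refine h2.trans ?_
    linarith
  have hFe := cof_hmg_le (n := 2) D (fun _ : Fin 1 => F)
  have ha0 := hD_nonneg a
  have hb0 := hD_nonneg b
  have hf0 := hF_nonneg D F
  refine h1.trans ?_
  have h5 : 1 + hA (cof (n := 2) (fun _ : Fin 1 => D) (fun _ => hmg D F)) +
      hV (n := 2) (fun J i => SS s t J * VV a b J i) ≤
      (1 + 2 * ε) * (1 + hF D F + hD a + hD b) := by
    have h6 : hA (cof (n := 2) (fun _ : Fin 1 => D) (fun _ => hmg D F)) ≤ hF D F := hFe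
    have h7 : 0 ≤ ε * (hF D F + hD a + hD b) := by positivity
    nlinarith
  rw [mul_assoc]
  exact mul_le_mul_of_nonneg_left h5 hC0

/-- the points -/
def Pts (D : ℕ) (F : MvPolynomial (Fin 2) Qbar) (Γ : Subgroup Qbarˣ) (ε : ℝ)
    (a b : Fin 2 → Fin r → Qbar) : Set (Qbar × Qbar) :=
  {q | aeval ![q.1, q.2] F = 0 ∧ IsQ Γ ε a q.1 ∧ IsQ Γ ε b q.2 ∧
    ¬ OnRatCurve (expB D (r * r)) F q.1 q.2}

theorem quot_near (D : ℕ) (hD1 : 1 ≤ D) (r : ℕ) (Γ : Subgroup Qbarˣ) (hΓ : Γ.FG) :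
    ∃ (B : ℝ) (e : ℕ), 0 ≤ B ∧ ∀ F : MvPolynomial (Fin 2) Qbar, F.totalDegree ≤ D →
      ∀ (a b : Fin 2 → Fin r → Qbar),
        (Pts D F Γ (epsn ((D + 1) ^ (r * r)) / D / 2 / 2) a b).Finite ∧
        ((Pts D F Γ (epsn ((D + 1) ^ (r * r)) / D / 2 / 2) a b).ncard : ℝ) ≤
          B * (1 + hF D F + hD a + hD b) ^ e := by
  classical
  obtain ⟨B, e, hB0, hB⟩ := gen_near (n := 2) (r := r * r) (fun _ : Fin 1 => D) D hD1
    (fun _ => le_rfl) Γ hΓ
  refine ⟨B, e, hB0, ?_⟩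
  intro F hFD a b
  obtain ⟨hfin, hcard⟩ := hB (fun _ => hmg D F) (VV a b) (fun _ => hmg_homog D F hFD)
  have hne1 : ∀ x y : Qbar, ![1, x, y] ≠ (0 : Fin 3 → Qbar) := by
    intro x y h
    have := congrFun h 0
    simp at this
  let θ : Qbar × Qbar → Projectivization Qbar (Fin (2 + 1) → Qbar) := fun q =>
    Projectivization.mk Qbar ![1, q.1, q.2] (hne1 q.1 q.2)
  have hmaps : ∀ q ∈ Pts D F Γ (epsn ((D + 1) ^ (r * r)) / D / 2 / 2) a b,
      θ q ∈ nearP (fun _ : Fin 1 => hmg D F) Γ (epsn ((D + 1) ^ (r * r)) / D / 2) (VV a b) := by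
    rintro ⟨x, y⟩ ⟨hxy, ⟨u, s, hu, hs, hW, hx⟩, ⟨v, t, hv, ht, hZ, hy⟩, hno⟩
    simp only at hxy hx hy hno
    obtain ⟨c, hc⟩ : ∃ c : Qbar, c = (∑ j, (u j : Qbar) * s j * a 1 j) *
      ∑ j, (v j : Qbar) * t j * b 1 j := ⟨_, rfl⟩
    have hc0 : c ≠ 0 := by rw [hc]; exact mul_ne_zero hW hZ
    have hpt := psum_eq u v s t a b x y hW hx hZ hy
    rw [← hc] at hpt
    have hS := SS_height s t (ne_of_sum hW) (ne_of_sum hZ)
    refine ⟨UU u v, SS s t, UU_hull Γ u v hu hv, by linarith, fun _ => ?_, ?_, ?_, ?_⟩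
    · rw [hpt]
      exact point_zero D F hFD x y c hxy
    · refine noCur_of_bounded _ D hD1 (fun _ => ⟨D, le_rfl, hmg_homog D F hFD⟩) _
        fun J l hl hJ hcv => ?_
      obtain ⟨c', hc'0, hc'⟩ := hJ
      apply hno
      refine onRatCurve_of D F hFD _ l _ hl hcv x y (c' * c) (mul_ne_zero hc'0 hc0) fun i => ?_
      have h8 := hc' i
      have h9 : ∑ j, tw (UU u v) (fun j a' => SS s t j * VV a b j a') j i =
          c * (![1, x, y] : Fin 3 → Qbar) i := by
        have := congrFun hpt i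
        rw [Pi.smul_apply, smul_eq_mul] at this
        exact this
      rw [h9] at h8
      rw [Finset.sum_ite_mem, Finset.univ_inter, h8]
      ring
    · rw [hpt]
      exact smul_ne x y c hc0
    · show Projectivization.mk Qbar ![1, x, y] (hne1 x y) = _
      rw [Projectivization.mk_eq_mk_iff']
      refine ⟨c⁻¹, ?_⟩
      rw [hpt, smul_smul, inv_mul_cancel₀ hc0, one_smul]
  have hinj : Set.InjOn θ (Pts D F Γ (epsn ((D + 1) ^ (r * r)) / D / 2 / 2) a b) := by
    rintro ⟨x, y⟩ _ ⟨x', y'⟩ _ h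
    obtain ⟨c, hc⟩ := (Projectivization.mk_eq_mk_iff' Qbar _ _ (hne1 x y) (hne1 x' y')).1 h
    have h0 := congrFun hc 0
    have h1 := congrFun hc 1
    have h2 := congrFun hc 2
    simp only [Pi.smul_apply, smul_eq_mul, Matrix.cons_val_zero, Matrix.cons_val_one,
      Matrix.cons_val, mul_one] at h0 h1 h2
    rw [h0, one_mul] at h1 h2
    rw [h1, h2]
  have hfin' : (Pts D F Γ (epsn ((D + 1) ^ (r * r)) / D / 2 / 2) a b).Finite :=
    Set.Finite.of_injOn hmaps hinj hfin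
  refine ⟨hfin', ?_⟩
  have h1 := Set.ncard_le_ncard_of_injOn θ hmaps hinj hfin
  refine (le_trans (by exact_mod_cast h1) hcard).trans ?_
  have h3 : 0 ≤ hV (n := 2) (VV a b) := absLogHeight_nonneg _
  have h4 := hV_VV a b
  have h5 : hA (cof (n := 2) (fun _ : Fin 1 => D) (fun _ => hmg D F)) ≤ hF D F :=
    cof_hmg_le (n := 2) D (fun _ : Fin 1 => F)
  have h6 : 0 ≤ hA (cof (n := 2) (fun _ : Fin 1 => D) (fun _ => hmg D F)) := hA_nonneg _
  exact mul_le_mul_of_nonneg_left (pow_le_pow_left₀ (by linarith) (by linarith) _) hB0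

end Pool.Agent.H455.QP
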