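import Mathlib
import Pool.Agent.H455.QP
import Pool.Graph.R_pool_sql_team_seeded_3997aac3.Q194.UG.Int
import Pool.Graph.R_seed8.R343.LP1

set_option autoImplicit false

/-!
# Integral points whose coordinates are quotients of sums of units
-/

namespace Pool.Agent.H455.QP

open MvPolynomial
open Pool.Agent.Helper259.AbsHt Pool.Agent.H533R3.SL Pool.Agent.Y215.SP Pool.Agent.Y215.SK
open Pool.Agent.Y215.AF (hA hA_nonneg)
open Pool.Agent.W235.RM
open Pool.Agent.Q51.UF Pool.Agent.Q51.HG Pool.Agent.Q204.UF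
open Pool.Agent.Q194.UG (IsQ hD hD_nonneg log_le_height)

/-- no rational parametrisation over `ℂ` -/
def NoRat (F : MvPolynomial (Fin 2) ℤ) : Prop :=
  ∀ p : Fin 2 → RatFunc ℂ, MvPolynomial.aeval p F = 0 → ∀ i, ∃ c : ℂ, p i = RatFunc.C c

theorem noRat_of (F : MvPolynomial (Fin 2) ℤ) (h : NoRat F) (E : ℕ) (x y : Qbar) :
    ¬ OnRatCurve E (map (algebraMap ℤ Qbar) F) x y := by
  classical
  rintro ⟨P, Q, R, -, -, -, hR1, hP1, hQ1, hvan, hne⟩
  obtain ⟨D, hD⟩ : ∃ D : ℕ, F.totalDegree ≤ D := ⟨_, le_rfl⟩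
  -- the polynomial identity
  obtain ⟨G, hG⟩ : ∃ G : Polynomial Qbar, G = eval₂ (algebraMap ℤ (Polynomial Qbar))
    (Fin.cons R (![P, Q] : Fin 2 → Polynomial Qbar) : Fin 3 → Polynomial Qbar) (hmg D F) := ⟨_, rfl⟩
  have hGt : ∀ t : Qbar, R.eval t ≠ 0 → G.eval t = 0 := by
    intro t ht
    have h1 : G.eval t = eval₂ (algebraMap ℤ Qbar)
        (Fin.cons (R.eval t) (fun i => R.eval t *
          (![P.eval t / R.eval t, Q.eval t / R.eval t] : Fin 2 → Qbar) i) : Fin 3 → Qbar)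
        (hmg D F) := by
      rw [hG, ← Polynomial.coe_evalRingHom, eval₂_comp_left]
      congr 1
      · exact RingHom.ext_int _ _
      · funext i
        refine Fin.cases ?_ (fun i => ?_) i
        · rfl
        · fin_cases i
          · show P.eval t = R.eval t * (P.eval t / R.eval t)
            field_simp
          · show Q.eval t = R.eval t * (Q.eval t / R.eval t)
            field_simp
    rw [h1, hmg_eval _ D F hD]
    have h2 := hvan t ht
    rw [aeval_map_algebraMap, aeval_def] at h2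
    rw [h2, mul_zero]
  have hR0 : R ≠ 0 := by
    rintro rfl
    simp at hR1
  have hG0 : G = 0 := by
    have h1 : G * R = 0 := by
      refine Polynomial.funext fun t => ?_
      rw [Polynomial.eval_mul, Polynomial.eval_zero]
      by_cases ht : R.eval t = 0
      · rw [ht, mul_zero]
      · rw [hGt t ht, zero_mul]
    exact (mul_eq_zero.1 h1).resolve_right hR0
  -- pass to the complex numbers
  let σ : Qbar →+* ℂ := (@IsAlgClosed.lift ℂ _ _ ℚ _ _ (AlgebraicClosure ℚ) _ _ _ _ _ _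
    (AlgebraicClosure.isAlgebraic ℚ)).toRingHom
  let ψ : Polynomial Qbar →+* RatFunc ℂ :=
    (algebraMap (Polynomial ℂ) (RatFunc ℂ)).comp (Polynomial.mapRingHom σ)
  have hψ : Function.Injective ψ := by
    have h1 : Function.Injective (algebraMap (Polynomial ℂ) (RatFunc ℂ)) :=
      RatFunc.algebraMap_injective ℂ
    exact h1.comp (Polynomial.map_injective σ σ.injective)
  have hψR : ψ R ≠ 0 := by
    intro h1
    exact hR0 (hψ (by rw [h1, map_zero]))
  obtain ⟨p, hp⟩ : ∃ p : Fin 2 → RatFunc ℂ, p = ![ψ P / ψ R, ψ Q / ψ R] := ⟨_, rfl⟩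
  have hzero : aeval p F = 0 := by
    have h1 : eval₂ (algebraMap ℤ (RatFunc ℂ)) (Fin.cons (ψ R) (fun i => ψ R * p i) :
        Fin 3 → RatFunc ℂ) (hmg D F) = ψ G := by
      rw [hG, eval₂_comp_left]
      congr 1
      · exact RingHom.ext_int _ _
      · funext i
        refine Fin.cases ?_ (fun i => ?_) i
        · rfl
        · rw [Fin.cons_succ, hp]
          fin_cases i
          · show ψ R * (ψ P / ψ R) = ψ P
            field_simp
          · show ψ R * (ψ Q / ψ R) = ψ Q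
            field_simp
    rw [hmg_eval _ D F hD, hG0, map_zero] at h1
    exact (mul_eq_zero.1 h1).resolve_left (pow_ne_zero _ hψR)
  have hconst := h p hzero
  have key : ∀ (T : Polynomial Qbar) (w : Qbar), T.eval 1 = w * R.eval 1 →
      (∃ c : ℂ, ψ T / ψ R = RatFunc.C c) → T = Polynomial.C w * R := by
    rintro T w hT ⟨c, hc⟩
    rw [div_eq_iff hψR] at hc
    have h1 : T.map σ = Polynomial.C c * R.map σ := by
      apply RatFunc.algebraMap_injective ℂ
      rw [map_mul, RatFunc.algebraMap_C]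
      exact hc
    have h2 := congrArg (fun q : Polynomial ℂ => q.eval 1) h1
    simp only [Polynomial.eval_mul, Polynomial.eval_C, Polynomial.eval_one_map] at h2
    rw [hT, map_mul] at h2
    have h3 : σ (R.eval 1) ≠ 0 := (map_ne_zero σ).2 hR1
    have h4 : σ w = c := mul_right_cancel₀ h3 h2
    apply Polynomial.map_injective σ σ.injective
    rw [h1, Polynomial.map_mul, Polynomial.map_C, h4]
  have hPx := key P x hP1 (by
    have := hconst 0
    rw [hp] at this
    exact this)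
  have hQy := key Q y hQ1 (by
    have := hconst 1
    rw [hp] at this
    exact this)
  rcases hne with h1 | h1
  · exact h1 hPx
  · exact h1 hQy

theorem int_zero (F : MvPolynomial (Fin 2) ℤ) (x y : ℤ) (hxy : eval ![x, y] F = 0) :
    aeval ![(x : Qbar), (y : Qbar)] (map (algebraMap ℤ Qbar) F) = 0 := by
  rw [aeval_map_algebraMap]
  have h3 := congrArg (algebraMap ℤ Qbar) hxy
  rw [map_zero] at h3
  have h4 : MvPolynomial.eval ![x, y] F = MvPolynomial.aeval ![x, y] F := by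
    rw [MvPolynomial.aeval_eq_eval]
  rw [h4, ← MvPolynomial.aeval_algebraMap_apply] at h3
  have h5 : (algebraMap ℤ Qbar ∘ ![x, y] : Fin 2 → Qbar) = ![(x : Qbar), (y : Qbar)] := by
    funext i
    fin_cases i <;> simp
  rwa [h5] at h3

theorem hF_int (D : ℕ) (F : MvPolynomial (Fin 2) ℤ) (M : ℕ) (hM : 1 ≤ M)
    (h : ∀ α, |coeff α F| ≤ M) : hF D (map (algebraMap ℤ Qbar) F) ≤ Real.log M := by
  have h1 := hA_int_le (fun x : Fin 1 × AI 2 D => coeff x.2.1 F) M hM (fun x => h _)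
  refine le_trans (le_of_eq ?_) h1
  unfold hF hFc hA
  refine congrArg absLogHeight (funext fun o => ?_)
  cases o with
  | none => rfl
  | some α =>
    show coeff α.2.1 (map (algebraMap ℤ Qbar) F) = ((coeff α.2.1 F : ℤ) : Qbar)
    rw [coeff_map]
    simp

theorem hD_int {r : ℕ} (a : Fin 2 → Fin r → ℤ) (H : ℕ) (hH : 1 ≤ H) (h : ∀ i j, |a i j| ≤ H) :
    hD (fun i j => ((a i j : ℤ) : Qbar)) ≤ Real.log H := by
  have h1 := hA_int_le (fun p : Fin 2 × Fin r => a p.1 p.2) H hH (fun p => h _ _)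
  refine le_trans ?_ h1
  unfold hD hA
  have h2 := absLogHeight_comp_le (fun p : Fin 2 × Fin r => some p)
    (fun o : Option (Fin 2 × Fin r) => o.elim (1 : Qbar) (fun p => ((a p.1 p.2 : ℤ) : Qbar)))
  exact h2

theorem height_one {r : ℕ} : absLogHeight (fun _ : Fin r => (1 : Qbar)) = 0 := by
  rcases Nat.eq_zero_or_pos r with rfl | hr
  · have : (fun _ : Fin 0 => (1 : Qbar)) = 0 := by
      funext i
      exact i.elim0
    rw [this, absLogHeight_zero]
  · refine le_antisymm ?_ (absLogHeight_nonneg _)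
    have h1 := hA_int_le (fun _ : Fin r => (1 : ℤ)) 1 le_rfl (fun _ => by simp)
    rw [Nat.cast_one, Real.log_one] at h1
    refine le_trans ?_ h1
    unfold hA
    have h2 := absLogHeight_comp_le (fun j : Fin r => some j)
      (fun o : Option (Fin r) => o.elim (1 : Qbar) (fun _ => ((1 : ℤ) : Qbar)))
    refine le_trans (le_of_eq ?_) h2
    congr 1

/-- the form of the bound -/
theorem final_bound (A : ℝ) (hA0 : 0 ≤ A) (M H : ℕ) (hM : 1 ≤ M) (hH : 1 ≤ H) (x y : ℤ)
    (h : Real.log (max (max |(x : ℝ)| |(y : ℝ)|) 1) ≤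
      A * (1 + Real.log M + Real.log H + Real.log H)) :
    |x| ≤ (3 * M * H) ^ ⌈2 * A⌉₊ ∧ |y| ≤ (3 * M * H) ^ ⌈2 * A⌉₊ := by
  have h1 : (1 : ℝ) ≤ M := by exact_mod_cast hM
  have h2 : (1 : ℝ) ≤ H := by exact_mod_cast hH
  have hMH : (1 : ℝ) ≤ 3 * M * H := by nlinarith
  have hl3 : (1 : ℝ) ≤ Real.log 3 := by
    rw [Real.le_log_iff_exp_le (by norm_num)]
    exact Real.exp_one_lt_d9.le.trans (by norm_num)
  have hlM : 0 ≤ Real.log M := Real.log_nonneg h1
  have hlH : 0 ≤ Real.log H := Real.log_nonneg h2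
  have hlog : Real.log (3 * M * H) = Real.log 3 + Real.log M + Real.log H := by
    rw [Real.log_mul (by positivity) (by positivity), Real.log_mul (by norm_num) (by positivity)]
  have h3 : 1 + Real.log M + Real.log H + Real.log H ≤ 2 * Real.log (3 * M * H) := by
    rw [hlog]
    linarith
  have h4 : Real.log (max (max |(x : ℝ)| |(y : ℝ)|) 1) ≤ ⌈2 * A⌉₊ * Real.log (3 * M * H) := by
    refine h.trans ((mul_le_mul_of_nonneg_left h3 hA0).trans ?_)
    have h5 : A * (2 * Real.log (3 * M * H)) = 2 * A * Real.log (3 * M * H) := by ring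
    rw [h5]
    exact mul_le_mul_of_nonneg_right (Nat.le_ceil _) (Real.log_nonneg hMH)
  have h6 : max (max |(x : ℝ)| |(y : ℝ)|) 1 ≤ (3 * M * H : ℝ) ^ ⌈2 * A⌉₊ := by
    rw [← Real.log_le_log_iff (by positivity) (by positivity), Real.log_pow]
    exact h4
  constructor
  · have h7 : |(x : ℝ)| ≤ (3 * M * H : ℝ) ^ ⌈2 * A⌉₊ :=
      (le_max_left _ _).trans ((le_max_left _ _).trans h6)
    exact_mod_cast h7
  · have h7 : |(y : ℝ)| ≤ (3 * M * H : ℝ) ^ ⌈2 * A⌉₊ :=
      (le_max_right _ _).trans ((le_max_left _ _).trans h6)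
    exact_mod_cast h7

/-- integral points with sparse quotient coordinates -/
theorem int_quot (D : ℕ) (hD1 : 1 ≤ D) (r : ℕ) (Γ : Subgroup Qbarˣ) (hΓ : Γ.FG) :
    ∃ C : ℕ, ∀ F : MvPolynomial (Fin 2) ℤ, F.totalDegree ≤ D → NoRat F →
      ∀ M H : ℕ, 1 ≤ M → 1 ≤ H → (∀ α, |coeff α F| ≤ M) →
      ∀ (a b : Fin 2 → Fin r → ℤ) (u v : Fin r → Qbarˣ), (∀ i j, |a i j| ≤ H) →
      (∀ i j, |b i j| ≤ H) → (∀ j, ∃ m : ℕ, 0 < m ∧ u j ^ m ∈ Γ) →
      (∀ j, ∃ m : ℕ, 0 < m ∧ v j ^ m ∈ Γ) → ∀ x y : ℤ, eval ![x, y] F = 0 →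
      ∑ j, (u j : Qbar) * (a 1 j : Qbar) ≠ 0 →
      (x : Qbar) * ∑ j, (u j : Qbar) * (a 1 j : Qbar) = ∑ j, (u j : Qbar) * (a 0 j : Qbar) →
      ∑ j, (v j : Qbar) * (b 1 j : Qbar) ≠ 0 →
      (y : Qbar) * ∑ j, (v j : Qbar) * (b 1 j : Qbar) = ∑ j, (v j : Qbar) * (b 0 j : Qbar) →
      |x| ≤ (3 * M * H) ^ C ∧ |y| ≤ (3 * M * H) ^ C := by
  obtain ⟨A, hA0, hA⟩ := quot_heights D hD1 r Γ hΓ 1 one_pos
  refine ⟨⌈2 * A⌉₊, ?_⟩
  intro F hFD hno M H hM hH hFM a b u v ha hb hu hv x y hxy ha0 hax hb0 hby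
  have h1 := hA (map (algebraMap ℤ Qbar) F) ((Finset.sup_mono (support_map_subset _ _)).trans hFD)
    (fun i j => ((a i j : ℤ) : Qbar)) (fun i j => ((b i j : ℤ) : Qbar)) x y (int_zero F x y hxy)
    ⟨u, fun _ => 1, hu, by rw [height_one]; exact one_pos, by simpa using ha0, by
      rw [eq_div_iff (by simpa using ha0)]
      simpa using hax⟩
    ⟨v, fun _ => 1, hv, by rw [height_one]; exact one_pos, by simpa using hb0, by
      rw [eq_div_iff (by simpa using hb0)]
      simpa using hby⟩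
  rcases h1 with h1 | h1
  swap
  · exact absurd h1 (noRat_of F hno _ _ _)
  refine final_bound A hA0 M H hM hH x y ((log_le_height x y).trans (h1.trans ?_))
  have h2 := hF_int D F M hM hFM
  have h3 := hD_int a H hH ha
  have h4 := hD_int b H hH hb
  exact mul_le_mul_of_nonneg_left (by linarith) hA0

end Pool.Agent.H455.QP
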