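import Mathlib
import Pool.Agent.H455.QP2

set_option autoImplicit false

/-!
# Integral points whose coordinates have compressible digits, in two different bases
-/

namespace Pool.Agent.H455.QP

open Finset
open Pool.Agent.R343.LP
open Pool.Agent.Helper259.AbsHt

/-- a number with compressible digits is a quotient of sums of few powers of the base -/
theorem lz_quot (b : ℤ) (hb : 2 ≤ |b|) (B L z : ℕ) (hB : 1 ≤ B) (a : ℕ → ℤ)
    (ha : ∀ j < L, |a j| ≤ B) (hLZ : LZ a L z) (x : ℤ)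
    (hx : x = ∑ j ∈ range L, b ^ (L - 1 - j) * a j) (β : Qbarˣ) (hβ : (β : Qbar) = (b : ℤ)) :
    ∃ (l : Fin (2 ^ z + 6 ^ z) → ℕ) (v : Fin 2 → Fin (2 ^ z + 6 ^ z) → ℤ),
      (∀ i j, |v i j| ≤ B) ∧
      ∑ j, (((β ^ l j : Qbarˣ)) : Qbar) * (v 1 j : Qbar) ≠ 0 ∧
      (x : Qbar) * ∑ j, (((β ^ l j : Qbarˣ)) : Qbar) * (v 1 j : Qbar) =
        ∑ j, (((β ^ l j : Qbarˣ)) : Qbar) * (v 0 j : Qbar) := by
  classical
  obtain ⟨c, hc0, hcz, hph⟩ := hLZ
  have hcmono : ∀ i < z, c i ≤ c (i + 1) := by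
    intro i hi
    rcases hph i hi with h | ⟨h, _⟩
    · omega
    · exact h
  have hcL : ∀ i ≤ z, c i ≤ L := by
    intro i hi
    rw [← hcz]
    have : ∀ j, i + j ≤ z → c i ≤ c (i + j) := by
      intro j
      induction j with
      | zero => intro _; exact le_rfl
      | succ j ih =>
        intro hj
        exact (ih (by omega)).trans (hcmono (i + j) (by omega))
    have h1 := this (z - i) (by omega)
    have h2 : i + (z - i) = z := by omega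
    rwa [h2] at h1
  let A : Set Qbar := {w | ∃ n : ℤ, |n| ≤ B ∧ w = (n : Qbar)}
  have hA0 : (0 : Qbar) ∈ A := ⟨0, by simp, by simp⟩
  have hA1 : (1 : Qbar) ∈ A := ⟨1, by simpa using hB, by simp⟩
  have hAn : ∀ w ∈ A, -w ∈ A := by
    rintro w ⟨n, hn, rfl⟩
    exact ⟨-n, by rwa [abs_neg], by push_cast; rfl⟩
  have ht : ∀ p, 0 < p → ((β : Qbar)) ^ p ≠ 1 := by
    intro p hp h
    rw [hβ] at h
    have h1 : b ^ p = 1 := by exact_mod_cast h
    have h2 : |b| ^ p = 1 := by rw [← abs_pow, h1, abs_one]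
    have h3 : (1 : ℤ) < |b| ^ p := one_lt_pow₀ (by omega) hp.ne'
    omega
  have hph' : ∀ i < z, Phrase (fun j => ((a j : ℤ) : Qbar)) (c i) (c (i + 1)) := by
    intro i hi
    rcases hph i hi with h | ⟨h, p, hp, hpn, hcopy⟩
    · exact Or.inl h
    · refine Or.inr ⟨h, p, hp, hpn, fun j h1 h2 => ?_⟩
      show ((a j : ℤ) : Qbar) = ((a (j - p) : ℤ) : Qbar)
      rw [hcopy j h1 h2]
  obtain ⟨D, hD, hw, hm⟩ := lz_sparse (K := Qbar) (V := Qbar) (β : Qbar)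
    (fun j => ((a j : ℤ) : Qbar)) A hA0 hAn ht c hc0 z L
    (fun j hj => ⟨a j, ha j hj, rfl⟩) hcL hph' z le_rfl
  obtain ⟨l1, v1, hv1, he1⟩ := hw 1 hA1
  obtain ⟨l2, v2, hv2, he2⟩ := hm L (by rw [hcz])
  choose n1 hn1 hn1' using hv1
  choose n2 hn2 hn2' using hv2
  have hPL : P (β : Qbar) (fun j => ((a j : ℤ) : Qbar)) L = (x : Qbar) := by
    rw [P_eq, hx]
    push_cast
    refine Finset.sum_congr rfl fun j _ => ?_
    rw [smul_eq_mul, hβ]
  rw [hPL] at he2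
  have hs1 : ∀ w : Fin 2, ∀ α : Fin (2 ^ z) → ℤ, ∀ α' : Fin (6 ^ z) → ℤ,
      ∑ j, (((β ^ (Fin.append l1 l2 j) : Qbarˣ)) : Qbar) * ((Fin.append α α' j : ℤ) : Qbar) =
      ∑ j, (β : Qbar) ^ l1 j * (α j : Qbar) + ∑ j, (β : Qbar) ^ l2 j * (α' j : Qbar) := by
    intro w α α'
    rw [Fin.sum_univ_add]
    simp only [Fin.append_left, Fin.append_right, Units.val_pow_eq_pow_val]
  have hd : ∑ j, (β : Qbar) ^ l1 j * (n1 j : Qbar) = D := by
    rw [smul_eq_mul, mul_one] at he1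
    rw [he1]
    refine Finset.sum_congr rfl fun j _ => ?_
    rw [smul_eq_mul, hn1' j]
  have hn : ∑ j, (β : Qbar) ^ l2 j * (n2 j : Qbar) = D * x := by
    rw [smul_eq_mul] at he2
    rw [he2]
    refine Finset.sum_congr rfl fun j _ => ?_
    rw [smul_eq_mul, hn2' j]
  refine ⟨Fin.append l1 l2, ![Fin.append (fun _ => 0) n2, Fin.append n1 (fun _ => 0)], ?_, ?_, ?_⟩
  · intro i j
    fin_cases i
    · refine Fin.addCases (fun k => ?_) (fun k => ?_) j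
      · show |Fin.append (fun _ => 0) n2 (Fin.castAdd (6 ^ z) k)| ≤ _
        rw [Fin.append_left]
        simp
      · show |Fin.append (fun _ => 0) n2 (Fin.natAdd (2 ^ z) k)| ≤ _
        rw [Fin.append_right]
        exact hn2 k
    · refine Fin.addCases (fun k => ?_) (fun k => ?_) j
      · show |Fin.append n1 (fun _ => 0) (Fin.castAdd (6 ^ z) k)| ≤ _
        rw [Fin.append_left]
        exact hn1 k
      · show |Fin.append n1 (fun _ => 0) (Fin.natAdd (2 ^ z) k)| ≤ _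
        rw [Fin.append_right]
        simp
  · show ∑ j, (((β ^ (Fin.append l1 l2 j) : Qbarˣ)) : Qbar) *
      ((Fin.append n1 (fun _ => 0) j : ℤ) : Qbar) ≠ 0
    rw [hs1 0 n1 (fun _ => 0), hd]
    simpa using hD
  · show (x : Qbar) * ∑ j, (((β ^ (Fin.append l1 l2 j) : Qbarˣ)) : Qbar) *
      ((Fin.append n1 (fun _ => 0) j : ℤ) : Qbar) =
      ∑ j, (((β ^ (Fin.append l1 l2 j) : Qbarˣ)) : Qbar) *
      ((Fin.append (fun _ => 0) n2 j : ℤ) : Qbar)
    rw [hs1 0 n1 (fun _ => 0), hs1 0 (fun _ => 0) n2, hd, hn]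
    simp
    ring

/-- **Two bases.** -/
theorem two_bases (D : ℕ) (hD1 : 1 ≤ D) (z : ℕ) (b b' : ℤ) (hb : 2 ≤ |b|) (hb' : 2 ≤ |b'|) :
    ∃ C : ℕ, ∀ F : MvPolynomial (Fin 2) ℤ, F.totalDegree ≤ D → NoRat F →
      ∀ M B : ℕ, 1 ≤ M → 1 ≤ B → (∀ α, |MvPolynomial.coeff α F| ≤ M) →
      ∀ (L L' : ℕ) (a a' : ℕ → ℤ), (∀ j < L, |a j| ≤ B) → (∀ j < L', |a' j| ≤ B) →
      LZ a L z → LZ a' L' z → ∀ x y : ℤ, MvPolynomial.eval ![x, y] F = 0 →
      x = ∑ j ∈ range L, b ^ (L - 1 - j) * a j → y = ∑ j ∈ range L', b' ^ (L' - 1 - j) * a' j →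
      |x| ≤ (3 * M * B) ^ C ∧ |y| ≤ (3 * M * B) ^ C := by
  have hb0 : ((b : ℤ) : Qbar) ≠ 0 := by
    intro h
    have h1 : b = 0 := by exact_mod_cast h
    rw [h1] at hb
    simp at hb
  have hb0' : ((b' : ℤ) : Qbar) ≠ 0 := by
    intro h
    have h1 : b' = 0 := by exact_mod_cast h
    rw [h1] at hb'
    simp at hb'
  let β : Qbarˣ := Units.mk0 _ hb0
  let β' : Qbarˣ := Units.mk0 _ hb0'
  obtain ⟨C, hC⟩ := int_quot D hD1 (2 ^ z + 6 ^ z) (Subgroup.closure {β, β'})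
    ((Subgroup.fg_iff _).2 ⟨_, rfl, by simp⟩)
  refine ⟨C, ?_⟩
  intro F hF hno M B hM hB hFM L L' a a' ha ha' hLZ hLZ' x y hxy hx hy
  obtain ⟨l, v, hv, h0, h1⟩ := lz_quot b hb B L z hB a ha hLZ x hx β rfl
  obtain ⟨l', v', hv', h0', h1'⟩ := lz_quot b' hb' B L' z hB a' ha' hLZ' y hy β' rfl
  refine hC F hF hno M B hM hB hFM v v' (fun j => β ^ l j) (fun j => β' ^ l' j) hv hv'
    (fun j => ⟨1, one_pos, ?_⟩) (fun j => ⟨1, one_pos, ?_⟩) x y hxy h0 h1 h0' h1'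
  · rw [pow_one]
    exact Subgroup.pow_mem _ (Subgroup.subset_closure (by simp)) _
  · rw [pow_one]
    exact Subgroup.pow_mem _ (Subgroup.subset_closure (by simp)) _

end Pool.Agent.H455.QP
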