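import Mathlib
import Pool.Agent.H455.RT2

set_option autoImplicit false

/-!
# Polynomials at sparse points: the expansion
-/

open Finset Filter Topology

namespace Pool.Agent.H455.RT

open Pool.Agent.TH419.WI Pool.Agent.TH419.HX Pool.Agent.H455.VC
open Pool.Agent.Results.MP_821da1_nt.LaurentDichotomy (UnitOf NoLaurentCurve Qbar)

variable {n r : ℕ}

/-- the degree in the variables `x` -/
def sx (m : Option (Fin n) →₀ ℕ) : ℕ := ∑ k, m (some k)

/-- the weight of a monomial -/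
def wtx (p q : ℕ) (m : Option (Fin n) →₀ ℕ) : ℕ := p * (∑ k, m (some k)) + q * m none

/-- the highest weight of a monomial of `F` -/
def topx (p q : ℕ) (F : MvPolynomial (Option (Fin n)) ℤ) : ℕ := F.support.sup (wtx p q)

/-- the value at `(ρ, τ T)` of the part of `F` of highest weight -/
noncomputable def edgex (p q : ℕ) (F : MvPolynomial (Option (Fin n)) ℤ) (ρ : Fin n → ℚ) (τ : ℚ) :
    Polynomial ℚ :=
  ∑ m ∈ F.support with wtx p q m = topx p q F,
    Polynomial.C (((F.coeff m : ℤ) : ℚ) * (∏ k, ρ k ^ m (some k)) * τ ^ m none) *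
      Polynomial.X ^ m none

/-- the condition on the parts of highest weight -/
def Tamex (F : MvPolynomial (Option (Fin n)) ℤ) (H : ℕ) (M : ℝ) (ρ : Fin n → ℚ) : Prop :=
  ∀ p q : ℕ, 1 ≤ p → 1 ≤ q → ∃ (g h : ℤ) (c : ℚ) (l : ℕ) (E : Polynomial ℤ),
    g ≠ 0 ∧ h ≠ 0 ∧ c ≠ 0 ∧ |(g : ℝ)| ≤ M ∧ |(h : ℝ)| ≤ M ∧
    Squarefree (E.map (Int.castRingHom ℚ)) ∧ (∀ i, |E.coeff i| ≤ H) ∧
    edgex p q F ρ (h / g) = Polynomial.C c * Polynomial.X ^ l * E.map (Int.castRingHom ℚ)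

/-- the factors of a monomial -/
abbrev Idx (m : Option (Fin n) →₀ ℕ) : Type := Σ k : Fin n, Fin (m (some k))

/-- the terms of the expansion -/
abbrev Lam (r : ℕ) (supp : Finset (Option (Fin n) →₀ ℕ)) : Type :=
  Σ m : supp, (Idx (m : Option (Fin n) →₀ ℕ) → Fin (r + 1))

theorem card_idx (m : Option (Fin n) →₀ ℕ) : Fintype.card (Idx m) = sx m := by
  rw [Fintype.card_sigma]
  simp [sx]

variable {supp : Finset (Option (Fin n) →₀ ℕ)}

/-- the coefficients of the expansion -/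
noncomputable def cc (F : MvPolynomial (Option (Fin n)) ℤ) (V : Fin (r + 1) → Fin n → ℤ) (b : ℤ)
    (i : Lam r supp) : ℚ :=
  ((F.coeff (i.1 : Option (Fin n) →₀ ℕ) : ℤ) : ℚ) * ∏ j, (((V (i.2 j) j.1 : ℤ) : ℚ) / (b : ℚ))

/-- the units of the expansion -/
def ww (u : Fin (r + 1) → ℕ) (i : Lam r supp) : ℕ := ∏ j, u (i.2 j)

/-- the value at the point `(x, Y)` -/
noncomputable def val (F : MvPolynomial (Option (Fin n)) ℤ) (x : Fin n → ℤ) (Y : ℝ) : ℝ :=
  MvPolynomial.eval₂ (Int.castRingHom ℝ) (fun o : Option (Fin n) => o.elim Y fun k => (x k : ℝ)) F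

theorem prod_pow_idx {A : Type} [CommMonoid A] (m : Option (Fin n) →₀ ℕ) (f : Fin n → A) :
    ∏ k, f k ^ m (some k) = ∏ j : Idx m, f j.1 := by
  rw [Fintype.prod_sigma]
  refine Finset.prod_congr rfl fun k _ => ?_
  simp

theorem val_expand (F : MvPolynomial (Option (Fin n)) ℤ) (hsupp : F.support = supp)
    (V : Fin (r + 1) → Fin n → ℤ) (b : ℤ) (u : Fin (r + 1) → ℕ) (x : Fin n → ℤ) (hb : b ≠ 0)
    (hx : ∀ k, b * x k = ∑ i, V i k * (u i : ℤ)) (Y : ℝ) :
    val F x Y = ∑ i : Lam r supp, (cc F V b i : ℝ) * (ww u i : ℝ) *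
      Y ^ (i.1 : Option (Fin n) →₀ ℕ) none := by
  have hb' : (b : ℝ) ≠ 0 := by exact_mod_cast hb
  have hxk : ∀ k, (x k : ℝ) = ∑ i, ((V i k : ℝ) / (b : ℝ)) * (u i : ℝ) := by
    intro k
    have h1 : (b : ℝ) * (x k : ℝ) = ∑ i, (V i k : ℝ) * (u i : ℝ) := by exact_mod_cast hx k
    have h2 : ∑ i, ((V i k : ℝ) / (b : ℝ)) * (u i : ℝ) =
        (∑ i, (V i k : ℝ) * (u i : ℝ)) / b := by
      rw [Finset.sum_div]
      exact Finset.sum_congr rfl fun i _ => by ring
    rw [h2, ← h1]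
    field_simp
  rw [val, MvPolynomial.eval₂_eq', hsupp, ← Finset.sum_coe_sort, Fintype.sum_sigma]
  refine Finset.sum_congr rfl fun m _ => ?_
  rw [Fintype.prod_option]
  simp only [Option.elim_none, Option.elim_some, eq_intCast]
  have h1 : ∏ k, (x k : ℝ) ^ (m : Option (Fin n) →₀ ℕ) (some k) =
      ∑ f : Idx (m : Option (Fin n) →₀ ℕ) → Fin (r + 1),
        ∏ j, (((V (f j) j.1 : ℝ) / (b : ℝ)) * (u (f j) : ℝ)) := by
    rw [prod_pow_idx (m : Option (Fin n) →₀ ℕ) (fun k => (x k : ℝ))]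
    have h2 : ∏ j : Idx (m : Option (Fin n) →₀ ℕ), (x j.1 : ℝ) =
        ∏ j : Idx (m : Option (Fin n) →₀ ℕ), ∑ i, ((V i j.1 : ℝ) / (b : ℝ)) * (u i : ℝ) :=
      Finset.prod_congr rfl fun j _ => hxk j.1
    rw [h2, Finset.prod_univ_sum, Fintype.piFinset_univ]
  rw [h1, Finset.mul_sum, Finset.mul_sum]
  refine Finset.sum_congr rfl fun f _ => ?_
  unfold cc ww
  push_cast
  rw [Finset.prod_mul_distrib]
  ring

/-- the sizes of the units of the expansion -/
theorem ww_le (u : Fin (r + 1) → ℕ) {η L : ℝ} (hL : ∀ i, (u i : ℝ) ≤ Real.exp L)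
    (hdom : ∀ i, i ≠ 0 → (u i : ℝ) ≤ Real.exp ((1 - η) * L)) (i : Lam r supp) :
    (ww u i : ℝ) ≤ Real.exp ((sx (i.1 : Option (Fin n) →₀ ℕ) : ℝ) * L) ∧
    (i.2 ≠ (fun _ => 0) →
      (ww u i : ℝ) ≤ Real.exp (((sx (i.1 : Option (Fin n) →₀ ℕ) : ℝ) - η) * L)) := by
  classical
  have hcard := card_idx (i.1 : Option (Fin n) →₀ ℕ)
  constructor
  · unfold ww
    push_cast
    calc ∏ j, (u (i.2 j) : ℝ) ≤ ∏ _j : Idx (i.1 : Option (Fin n) →₀ ℕ), Real.exp L :=
          Finset.prod_le_prod (fun _ _ => by positivity) fun j _ => hL _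
      _ = Real.exp ((sx (i.1 : Option (Fin n) →₀ ℕ) : ℝ) * L) := by
          rw [Finset.prod_const, Finset.card_univ, hcard, ← Real.exp_nat_mul]
  · intro hne
    obtain ⟨j0, hj0⟩ : ∃ j0, i.2 j0 ≠ 0 := by
      by_contra hcon
      push Not at hcon
      exact hne (funext hcon)
    unfold ww
    push_cast
    rw [← Finset.mul_prod_erase _ _ (Finset.mem_univ j0)]
    have h1 : ∏ j ∈ Finset.univ.erase j0, (u (i.2 j) : ℝ) ≤
        Real.exp (((Finset.univ.erase j0).card : ℝ) * L) := by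
      calc ∏ j ∈ Finset.univ.erase j0, (u (i.2 j) : ℝ) ≤
            ∏ _j ∈ Finset.univ.erase j0, Real.exp L :=
            Finset.prod_le_prod (fun _ _ => by positivity) fun j _ => hL _
        _ = Real.exp (((Finset.univ.erase j0).card : ℝ) * L) := by
            rw [Finset.prod_const, ← Real.exp_nat_mul]
    have h2 : ((Finset.univ.erase j0).card : ℝ) = (sx (i.1 : Option (Fin n) →₀ ℕ) : ℝ) - 1 := by
      have h3 : (Finset.univ.erase j0).card + 1 = sx (i.1 : Option (Fin n) →₀ ℕ) := by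
        rw [Finset.card_erase_add_one (Finset.mem_univ j0), Finset.card_univ, hcard]
      have h4 : (((Finset.univ.erase j0).card : ℕ) : ℝ) + 1 =
          ((sx (i.1 : Option (Fin n) →₀ ℕ) : ℕ) : ℝ) := by exact_mod_cast h3
      linarith
    calc (u (i.2 j0) : ℝ) * ∏ j ∈ Finset.univ.erase j0, (u (i.2 j) : ℝ)
        ≤ Real.exp ((1 - η) * L) * Real.exp (((Finset.univ.erase j0).card : ℝ) * L) :=
          mul_le_mul (hdom _ hj0) h1 (by positivity) (by positivity)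
      _ = Real.exp (((sx (i.1 : Option (Fin n) →₀ ℕ) : ℝ) - η) * L) := by
          rw [← Real.exp_add, h2]
          congr 1
          ring

theorem ww_zero (u : Fin (r + 1) → ℕ) (m : supp) :
    ww u (⟨m, fun _ => 0⟩ : Lam r supp) = u 0 ^ sx (m : Option (Fin n) →₀ ℕ) := by
  show ∏ _j : Idx (m : Option (Fin n) →₀ ℕ), u 0 = _
  rw [Finset.prod_const, Finset.card_univ, card_idx]

theorem cc_zero (F : MvPolynomial (Option (Fin n)) ℤ) (V : Fin (r + 1) → Fin n → ℤ) (b : ℤ)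
    (m : supp) : cc F V b (⟨m, fun _ => 0⟩ : Lam r supp) =
      ((F.coeff (m : Option (Fin n) →₀ ℕ) : ℤ) : ℚ) *
        ∏ k, ((V 0 k : ℚ) / (b : ℚ)) ^ (m : Option (Fin n) →₀ ℕ) (some k) := by
  unfold cc
  rw [prod_pow_idx (m : Option (Fin n) →₀ ℕ) (fun k => (V 0 k : ℚ) / (b : ℚ))]

theorem ww_smooth {S : Finset ℕ} (u : Fin (r + 1) → ℕ) (hu : ∀ i, Smooth S (u i))
    (i : Lam r supp) : Smooth S (ww u i) := smooth_prod _ fun _ _ => hu _

/-- a sum over the terms of the expansion, the leading terms apart -/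
theorem sum_lead {A : Type} [AddCommMonoid A] (Pr : supp → Prop) [DecidablePred Pr]
    (f : Lam r supp → A) :
    ∑ i : Lam r supp, (if i.2 = (fun _ => 0) ∧ Pr i.1 then f i else 0) =
      ∑ m : supp, if Pr m then f ⟨m, fun _ => 0⟩ else 0 := by
  classical
  rw [Fintype.sum_sigma]
  refine Finset.sum_congr rfl fun m _ => ?_
  rw [Finset.sum_eq_single (fun _ => 0)]
  · by_cases h : Pr m
    · simp [h]
    · simp [h]
  · intro g _ hg
    exact if_neg fun h => hg h.1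
  · intro h
    exact absurd (Finset.mem_univ _) h

end Pool.Agent.H455.RT
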