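import Mathlib
import Pool.Agent.H455.RT3

set_option autoImplicit false

/-!
# Polynomials at sparse points: the slope of a root
-/

open Finset Filter Topology

namespace Pool.Agent.H455.RT

open Pool.Agent.TH419.WI Pool.Agent.TH419.HX Pool.Agent.H455.VC
open Pool.Agent.Results.MP_821da1_nt.LaurentDichotomy (UnitOf NoLaurentCurve Qbar)

theorem dec_of_exp {L f : ℕ → ℝ} (hL : Tendsto L atTop atTop) (a : ℝ)
    (h : ∀ᶠ t in atTop, |f t| ≤ Real.exp (a * L t)) : Dec L (-a) f := by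
  refine (dec_exp hL (-a)).mono ?_
  filter_upwards [h] with t ht
  rw [abs_of_pos (Real.exp_pos _), neg_mul, neg_neg]
  exact ht

theorem Dec.pow {L f : ℕ → ℝ} (hL : Tendsto L atTop atTop) {a : ℝ} (h : Dec L a f) (k : ℕ) :
    Dec L (k * a) fun t => f t ^ k := by
  induction k with
  | zero =>
    rw [Nat.cast_zero, zero_mul]
    simp only [pow_zero]
    exact dec_zero_iff.2 (Sub.const hL 1)
  | succ k ih =>
    have h1 := Dec.mul ih h
    have h2 : ((k + 1 : ℕ) : ℝ) * a = k * a + a := by push_cast; ring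
    rw [h2]
    simpa only [← pow_succ] using h1

/-- sequences of a given exponential growth -/
theorem dec_of_log {L Y : ℕ → ℝ} (hL : Tendsto L atTop atTop) (hY : ∀ t, Y t ≠ 0) {σ : ℝ}
    (h : Tendsto (fun t => Real.log |Y t| / L t) atTop (𝓝 σ)) :
    Dec L (-σ) Y ∧ Dec L σ fun t => (Y t)⁻¹ := by
  constructor
  · intro δ' hδ'
    filter_upwards [h.eventually_lt_const (by linarith : σ < -δ'),
      hL.eventually_gt_atTop 0] with t h1 h2
    rw [div_lt_iff₀ h2] at h1
    have h3 : 0 < |Y t| := abs_pos.2 (hY t)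
    rw [← Real.exp_log h3]
    exact Real.exp_le_exp.2 (by linarith)
  · intro δ' hδ'
    filter_upwards [h.eventually_const_lt hδ', hL.eventually_gt_atTop 0] with t h1 h2
    rw [lt_div_iff₀ h2] at h1
    have h3 : 0 < |Y t| := abs_pos.2 (hY t)
    rw [abs_inv, Real.exp_neg, ← Real.exp_log h3]
    apply inv_anti₀ (Real.exp_pos _)
    rw [Real.exp_log h3, ← Real.exp_log h3]
    exact Real.exp_le_exp.2 h1.le

/-- sparse points, polynomials, and integral roots -/
structure Pt (n d r H : ℕ) (S : Finset ℕ) (η : ℝ) where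
  M : ℝ
  V : Fin (r + 1) → Fin n → ℤ
  b : ℤ
  u : Fin (r + 1) → ℕ
  x : Fin n → ℤ
  F : MvPolynomial (Option (Fin n)) ℤ
  y : ℤ
  hM : 1 ≤ M
  hu : ∀ i, Smooth S (u i)
  hdom : ∀ i, i ≠ 0 → (u i : ℝ) ≤ (u 0 : ℝ) ^ (1 - η)
  hV : ∀ i k, |(V i k : ℝ)| ≤ M
  hb : |(b : ℝ)| ≤ M
  hb0 : b ≠ 0
  hx : ∀ k, b * x k = ∑ i, V i k * (u i : ℤ)
  hF : F.totalDegree ≤ d
  hcoef : ∀ m, |((F.coeff m : ℤ) : ℝ)| ≤ M
  hxy : val F x y = 0
  hne : ∃ Y : ℝ, val F x Y ≠ 0
  tame : Tamex F H M fun k => (V 0 k : ℚ) / b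

variable {n d r H : ℕ} {S : Finset ℕ} {η : ℝ} {supp : Finset (Option (Fin n) →₀ ℕ)}

theorem exp_le_deg {F : MvPolynomial (Option (Fin n)) ℤ} {d : ℕ} (hF : F.totalDegree ≤ d)
    {m : Option (Fin n) →₀ ℕ} (hm : m ∈ F.support) : sx m + m none ≤ d := by
  have h1 := (MvPolynomial.le_totalDegree hm).trans hF
  have h2 : (m.sum fun _ e => e) = ∑ o, m o := by
    rw [Finsupp.sum_fintype _ _ fun _ => rfl]
  rw [h2, Fintype.sum_option] at h1
  unfold sx
  omega

section seq
variable (D : ℕ → Pt n d r H S η) (hη : 0 < η)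
  (hL : Tendsto (fun t => Real.log ((D t).u 0)) atTop atTop)
  (hMS : Sub (fun t => Real.log ((D t).u 0)) fun t => (D t).M)

theorem u_pos (P : Pt n d r H S η) (i : Fin (r + 1)) : (1 : ℝ) ≤ P.u i := by
  have : 1 ≤ P.u i := Nat.one_le_iff_ne_zero.2 (P.hu i).1
  exact_mod_cast this

theorem u0_exp (P : Pt n d r H S η) : (P.u 0 : ℝ) = Real.exp (Real.log (P.u 0)) := by
  rw [Real.exp_log]
  have := u_pos P 0
  linarith

theorem L_nonneg (P : Pt n d r H S η) : 0 ≤ Real.log (P.u 0) := Real.log_nonneg (u_pos P 0)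

theorem ui_dom (P : Pt n d r H S η) (i : Fin (r + 1)) (hi : i ≠ 0) :
    (P.u i : ℝ) ≤ Real.exp ((1 - η) * Real.log (P.u 0)) := by
  refine (P.hdom i hi).trans (le_of_eq ?_)
  rw [Real.rpow_def_of_pos (by have := u_pos P 0; linarith), mul_comm]

include hη in
theorem ui_le (P : Pt n d r H S η) (i : Fin (r + 1)) :
    (P.u i : ℝ) ≤ Real.exp (Real.log (P.u 0)) := by
  by_cases hi : i = 0
  · rw [hi, ← u0_exp]
  · refine (ui_dom P i hi).trans (Real.exp_le_exp.2 ?_)
    have := L_nonneg P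
    nlinarith

include hL hMS in
theorem bd_int (f : ℕ → ℤ) (hf : ∀ t, |(f t : ℝ)| ≤ (D t).M) :
    SlowQ (fun t => Real.log ((D t).u 0)) fun t => (f t : ℚ) := by
  refine SlowQ.int hL (hMS.mono (Eventually.of_forall fun t => ?_))
  have := (D t).hM
  rw [abs_of_nonneg (by linarith : (0 : ℝ) ≤ (D t).M)]
  exact hf t

include hL hMS in
theorem slow_ρ (i : Fin (r + 1)) (k : Fin n) :
    SlowQ (fun t => Real.log ((D t).u 0)) fun t => ((D t).V i k : ℚ) / (D t).b :=
  (bd_int D hL hMS _ fun t => (D t).hV i k).div hL (bd_int D hL hMS _ fun t => (D t).hb)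

include hL hMS in
theorem slow_coeff (m : Option (Fin n) →₀ ℕ) :
    SlowQ (fun t => Real.log ((D t).u 0)) fun t => (((D t).F.coeff m : ℤ) : ℚ) :=
  bd_int D hL hMS (fun t => (D t).F.coeff m) fun t => (D t).hcoef m

include hL hMS in
theorem slow_cc (i : Lam r supp) :
    SlowQ (fun t => Real.log ((D t).u 0)) fun t => cc (D t).F (D t).V (D t).b i := by
  unfold cc
  exact (slow_coeff D hL hMS _).mul (SlowQ.prod hL _ fun j _ => slow_ρ D hL hMS _ _)

include hη hL in
theorem dec_ww (i : Lam r supp) :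
    Dec (fun t => Real.log ((D t).u 0)) (-(sx (i.1 : Option (Fin n) →₀ ℕ) : ℝ))
      (fun t => (ww (D t).u i : ℝ)) ∧ (i.2 ≠ (fun _ => 0) →
      Dec (fun t => Real.log ((D t).u 0)) (-((sx (i.1 : Option (Fin n) →₀ ℕ) : ℝ) - η))
      (fun t => (ww (D t).u i : ℝ))) := by
  constructor
  · refine dec_of_exp hL _ (Eventually.of_forall fun t => ?_)
    rw [abs_of_nonneg (Nat.cast_nonneg _)]
    exact (ww_le (D t).u (fun j => ui_le hη (D t) j) (fun j hj => ui_dom (D t) j hj) i).1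
  · intro hi
    refine dec_of_exp hL _ (Eventually.of_forall fun t => ?_)
    rw [abs_of_nonneg (Nat.cast_nonneg _)]
    exact (ww_le (D t).u (fun j => ui_le hη (D t) j) (fun j hj => ui_dom (D t) j hj) i).2 hi

/-- the number `v(m)`: the exponent of the monomial -/
noncomputable def vv (σ : ℝ) (m : Option (Fin n) →₀ ℕ) : ℝ := (sx m : ℝ) + σ * (m none : ℝ)

include hη hL hMS in
/-- **Roots of exponential growth have the slope of an edge.** -/
theorem edge_slope (hsupp : ∀ t, (D t).F.support = supp) (Y : ℕ → ℝ) (hY0 : ∀ t, Y t ≠ 0)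
    (hY : ∀ t, val (D t).F (D t).x (Y t) = 0) {σ : ℝ} (hσ : 0 < σ)
    (hlim : Tendsto (fun t => Real.log |Y t| / Real.log ((D t).u 0)) atTop (𝓝 σ)) :
    ∃ p q : ℕ, 1 ≤ p ∧ 1 ≤ q ∧ (p : ℝ) * σ = q := by
  classical
  by_contra hcon
  obtain ⟨L, hLd⟩ : ∃ L : ℕ → ℝ, L = fun t => Real.log ((D t).u 0) := ⟨_, rfl⟩
  -- different monomials have different exponents
  have hinj : ∀ m ∈ supp, ∀ m' ∈ supp, vv σ m = vv σ m' →
      sx m = sx m' ∧ m none = m' none := by
    intro m _ m' _ h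
    unfold vv at h
    by_cases h0 : m none = m' none
    · rw [h0] at h
      refine ⟨?_, h0⟩
      have : (sx m : ℝ) = (sx m' : ℝ) := by linarith
      exact_mod_cast this
    · exfalso
      apply hcon
      rcases Nat.lt_or_gt_of_ne h0 with hlt | hlt
      · refine ⟨m' none - m none, sx m - sx m', by omega, ?_, ?_⟩
        · have h1 : (m none : ℝ) < (m' none : ℝ) := by exact_mod_cast hlt
          have h2 : (sx m' : ℝ) < (sx m : ℝ) := by nlinarith
          have : sx m' < sx m := by exact_mod_cast h2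
          omega
        · have h1 : (m none : ℝ) < (m' none : ℝ) := by exact_mod_cast hlt
          have h2 : (sx m' : ℝ) < (sx m : ℝ) := by nlinarith
          have h3 : sx m' < sx m := by exact_mod_cast h2
          rw [Nat.cast_sub hlt.le, Nat.cast_sub h3.le]
          linarith
      · refine ⟨m none - m' none, sx m' - sx m, by omega, ?_, ?_⟩
        · have h1 : (m' none : ℝ) < (m none : ℝ) := by exact_mod_cast hlt
          have h2 : (sx m : ℝ) < (sx m' : ℝ) := by nlinarith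
          have : sx m < sx m' := by exact_mod_cast h2
          omega
        · have h1 : (m' none : ℝ) < (m none : ℝ) := by exact_mod_cast hlt
          have h2 : (sx m : ℝ) < (sx m' : ℝ) := by nlinarith
          have h3 : sx m < sx m' := by exact_mod_cast h2
          rw [Nat.cast_sub hlt.le, Nat.cast_sub h3.le]
          linarith
  -- the support is nonempty
  have hne : supp.Nonempty := by
    rw [Finset.nonempty_iff_ne_empty]
    intro h0
    obtain ⟨Z, hZ⟩ := (D 0).hne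
    apply hZ
    have h1 : (D 0).F = 0 := MvPolynomial.support_eq_empty.1 ((hsupp 0).trans h0)
    rw [h1, val, MvPolynomial.eval₂_zero]
  obtain ⟨ms, hms, hmax⟩ := Finset.exists_max_image supp (vv σ) hne
  obtain ⟨A, hA⟩ : ∃ A : Finset (Option (Fin n) →₀ ℕ), A = supp.filter
    (fun m => ¬ (sx m = sx ms ∧ m none = ms none)) := ⟨_, rfl⟩
  obtain ⟨γ, hγ, hgap⟩ : ∃ γ : ℝ, 0 < γ ∧ ∀ m ∈ A, vv σ m + γ ≤ vv σ ms := by
    by_cases hAe : A.Nonempty
    · obtain ⟨m1, hm1, hm1max⟩ := Finset.exists_max_image A (vv σ) hAe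
      refine ⟨vv σ ms - vv σ m1, ?_, fun m hm => ?_⟩
      · have h1 := Finset.mem_filter.1 (hA ▸ hm1)
        have h2 := hmax m1 h1.1
        rcases lt_or_eq_of_le h2 with h | h
        · linarith
        · exact absurd (hinj m1 h1.1 ms hms h) h1.2
      · have := hm1max m hm
        linarith
    · refine ⟨1, one_pos, fun m hm => absurd ⟨m, hm⟩ hAe⟩
  -- a rational slope nearby
  obtain ⟨p, q, hp, hq, hpq⟩ : ∃ p q : ℕ, 1 ≤ p ∧ 1 ≤ q ∧ ∀ m ∈ A,
      wtx p q m < wtx p q ms := by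
    obtain ⟨κ, hκ1, hκ2⟩ := exists_rat_btwn (show max (σ / 2) (σ - γ / (2 * (d + 1))) < σ by
      apply max_lt
      · linarith
      · have : 0 < γ / (2 * ((d : ℝ) + 1)) := by positivity
        linarith)
    have hκpos : (0 : ℝ) < (κ : ℝ) := by
      have := (le_max_left (σ / 2) (σ - γ / (2 * ((d : ℝ) + 1)))).trans_lt hκ1
      linarith
    have hκpos' : (0 : ℚ) < κ := by exact_mod_cast hκpos
    have hnum : 0 < κ.num := Rat.num_pos.2 hκpos'
    refine ⟨κ.den, κ.num.natAbs, κ.den_pos, by omega, fun m hm => ?_⟩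
    have h1 := hgap m hm
    have hmS := (Finset.mem_filter.1 (hA ▸ hm)).1
    have h2 : (κ.den : ℝ) * κ = κ.num.natAbs := by
      have h3 : ((κ.num.natAbs : ℕ) : ℤ) = κ.num := Int.natAbs_of_nonneg hnum.le
      have h4 : (κ : ℚ) * κ.den = κ.num := Rat.mul_den_eq_num κ
      have h5 : (κ : ℝ) * (κ.den : ℝ) = (κ.num : ℝ) := by exact_mod_cast h4
      rw [mul_comm, h5]
      have h6 : (((κ.num.natAbs : ℕ) : ℤ) : ℝ) = (κ.num : ℝ) := by rw [h3]
      rw [← h6, Int.cast_natCast]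
    have hdm : (m none : ℝ) ≤ d := by
      have := exp_le_deg (D 0).hF (m := m) (by rw [hsupp]; exact hmS)
      exact_mod_cast (by omega : m none ≤ d)
    have hdms : (ms none : ℝ) ≤ d := by
      have := exp_le_deg (D 0).hF (m := ms) (by rw [hsupp]; exact hms)
      exact_mod_cast (by omega : ms none ≤ d)
    have hκl : σ - γ / (2 * ((d : ℝ) + 1)) < κ :=
      (le_max_right (σ / 2) (σ - γ / (2 * ((d : ℝ) + 1)))).trans_lt hκ1
    have h7 : (sx m : ℝ) + κ * (m none : ℝ) < (sx ms : ℝ) + κ * (ms none : ℝ) := by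
      unfold vv at h1
      have h8 : (σ - κ) * (d : ℝ) < γ := by
        have h9 : σ - κ < γ / (2 * ((d : ℝ) + 1)) := by linarith
        have h10 : (σ - κ) * (d : ℝ) ≤ γ / (2 * ((d : ℝ) + 1)) * d :=
          mul_le_mul_of_nonneg_right h9.le (Nat.cast_nonneg _)
        have h11 : γ / (2 * ((d : ℝ) + 1)) * d < γ := by
          rw [div_mul_eq_mul_div, div_lt_iff₀ (by positivity)]
          nlinarith
        linarith
      have h12 : 0 ≤ σ - κ := by linarith
      have h13 : 0 ≤ (m none : ℝ) := Nat.cast_nonneg _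
      have h14 : (σ - κ) * ((ms none : ℝ) - m none) ≤ (σ - κ) * d :=
        mul_le_mul_of_nonneg_left (by linarith) h12
      nlinarith
    have h15 : (κ.den : ℝ) * (sx m : ℝ) + κ.num.natAbs * (m none : ℝ) <
        (κ.den : ℝ) * (sx ms : ℝ) + κ.num.natAbs * (ms none : ℝ) := by
      have hden : (0 : ℝ) < κ.den := by exact_mod_cast κ.den_pos
      rw [← h2]
      nlinarith
    show κ.den * sx m + κ.num.natAbs * m none < κ.den * sx ms + κ.num.natAbs * ms none
    exact_mod_cast h15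
  obtain ⟨B, hB⟩ : ∃ B : Finset (Option (Fin n) →₀ ℕ), B = supp.filter
    (fun m => sx m = sx ms ∧ m none = ms none) := ⟨_, rfl⟩
  have hwB : ∀ m ∈ B, wtx p q m = wtx p q ms := by
    intro m hm
    obtain ⟨-, h1, h2⟩ := Finset.mem_filter.1 (hB ▸ hm)
    show p * sx m + q * m none = p * sx ms + q * ms none
    rw [h1, h2]
  have htop : supp.sup (wtx p q) = wtx p q ms := by
    apply le_antisymm
    · refine Finset.sup_le fun m hm => ?_
      by_cases h : sx m = sx ms ∧ m none = ms none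
      · exact (hwB m (hB ▸ Finset.mem_filter.2 ⟨hm, h⟩)).le
      · exact (hpq m (hA ▸ Finset.mem_filter.2 ⟨hm, h⟩)).le
    · exact Finset.le_sup hms
  have hfil : supp.filter (fun m => wtx p q m = wtx p q ms) = B := by
    rw [hB]
    refine Finset.filter_congr fun m hm => ?_
    constructor
    · intro h
      by_contra h'
      exact (hpq m (hA ▸ Finset.mem_filter.2 ⟨hm, h'⟩)).ne h
    · intro h
      exact hwB m (hB ▸ Finset.mem_filter.2 ⟨hm, h⟩)
  -- the leading coefficient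
  obtain ⟨a, ha⟩ : ∃ a : ℕ → ℚ, a = fun t => ∑ m ∈ B, (((D t).F.coeff m : ℤ) : ℚ) *
    ∏ k, (((D t).V 0 k : ℚ) / (D t).b) ^ m (some k) := ⟨_, rfl⟩
  have haS : SlowQ (fun t => Real.log ((D t).u 0)) a := by
    rw [ha]
    exact SlowQ.sum hL _ fun m _ => (slow_coeff D hL hMS m).mul
      (SlowQ.prod hL _ fun k _ => (slow_ρ D hL hMS 0 k).pow hL _)
  have ha0 : ∀ t, a t ≠ 0 := by
    intro t h0
    obtain ⟨g, h, c, l, E, hg, hh, hc, -, -, hsq, -, he⟩ := (D t).tame p q hp hq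
    have h1 : edgex p q (D t).F (fun k => ((D t).V 0 k : ℚ) / (D t).b) (h / g) = 0 := by
      unfold edgex
      rw [topx, hsupp, htop, hfil]
      have h2 : ∀ m ∈ B, Polynomial.C ((((D t).F.coeff m : ℤ) : ℚ) *
          (∏ k, (((D t).V 0 k : ℚ) / (D t).b) ^ m (some k)) * ((h : ℚ) / g) ^ m none) *
            (Polynomial.X : Polynomial ℚ) ^ m none =
          Polynomial.C (((((D t).F.coeff m : ℤ) : ℚ) *
          (∏ k, (((D t).V 0 k : ℚ) / (D t).b) ^ m (some k)))) *
          (Polynomial.C (((h : ℚ) / g) ^ ms none) * (Polynomial.X : Polynomial ℚ) ^ ms none) := by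
        intro m hm
        obtain ⟨-, -, h3⟩ := Finset.mem_filter.1 (hB ▸ hm)
        rw [h3, Polynomial.C_mul (a := _ * _), mul_assoc]
      rw [Finset.sum_congr rfl h2, ← Finset.sum_mul, ← map_sum]
      have h3 : ∑ m ∈ B, (((D t).F.coeff m : ℤ) : ℚ) *
          (∏ k, (((D t).V 0 k : ℚ) / (D t).b) ^ m (some k)) = a t := by rw [ha]
      rw [h3, h0, Polynomial.C_0, zero_mul]
    rw [he] at h1
    rcases mul_eq_zero.1 h1 with h2 | h2
    · rcases mul_eq_zero.1 h2 with h3 | h3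
      · exact hc (Polynomial.C_eq_zero.1 h3)
      · exact pow_ne_zero _ Polynomial.X_ne_zero h3
    · exact hsq.ne_zero h2
  obtain ⟨hYd, hYi⟩ := dec_of_log hL hY0 hlim
  obtain ⟨δ', hδ'd⟩ : ∃ δ' : ℝ, δ' = min γ η := ⟨_, rfl⟩
  have hδ' : 0 < δ' := by rw [hδ'd]; exact lt_min hγ hη
  -- the terms
  obtain ⟨T, hT⟩ : ∃ T : ℕ → Lam r supp → ℝ, T = fun t i =>
    (cc (D t).F (D t).V (D t).b i : ℝ) * (ww (D t).u i : ℝ) *
      Y t ^ (i.1 : Option (Fin n) →₀ ℕ) none := ⟨_, rfl⟩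
  have hTsum : ∀ t, ∑ i, T t i = 0 := by
    intro t
    rw [hT, ← hY t, val_expand (D t).F (hsupp t) (D t).V (D t).b (D t).u (D t).x (D t).hb0
      (D t).hx]
  have hTdec : ∀ i : Lam r supp, ¬ (i.2 = (fun _ => 0) ∧
      (sx (i.1 : Option (Fin n) →₀ ℕ) = sx ms ∧
        (i.1 : Option (Fin n) →₀ ℕ) none = ms none)) →
      Dec (fun t => Real.log ((D t).u 0)) (-(vv σ ms - δ')) fun t => T t i := by
    intro i hi
    have h1 : Sub (fun t => Real.log ((D t).u 0)) fun t =>
      ((cc (D t).F (D t).V (D t).b i : ℚ) : ℝ) := (slow_cc D hL hMS i).sub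
    have h2 := Dec.pow hL hYd ((i.1 : Option (Fin n) →₀ ℕ) none)
    have hv : (sx (i.1 : Option (Fin n) →₀ ℕ) : ℝ) + σ * ((i.1 : Option (Fin n) →₀ ℕ) none : ℝ) =
        vv σ (i.1 : Option (Fin n) →₀ ℕ) := rfl
    by_cases h0 : i.2 = (fun _ => 0)
    · have h3 := Dec.mul (Dec.mul (dec_zero_iff.2 h1) (dec_ww D hη hL i).1) h2
      have h4 := hgap (i.1 : Option (Fin n) →₀ ℕ) (hA ▸ Finset.mem_filter.2 ⟨i.1.2,
        fun h => hi ⟨h0, h⟩⟩)
      have h5 : δ' ≤ γ := by rw [hδ'd]; exact min_le_left _ _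
      rw [hT]
      refine Dec.mono_exp h3 ?_
      nlinarith
    · have h3 := Dec.mul (Dec.mul (dec_zero_iff.2 h1) ((dec_ww D hη hL i).2 h0)) h2
      have h4 := hmax (i.1 : Option (Fin n) →₀ ℕ) i.1.2
      have h5 : δ' ≤ η := by rw [hδ'd]; exact min_le_right _ _
      rw [hT]
      refine Dec.mono_exp h3 ?_
      nlinarith
  have hsplit : ∀ t, (a t : ℝ) * ((D t).u 0 : ℝ) ^ sx ms * Y t ^ ms none =
      -∑ i, (if i.2 = (fun _ => 0) ∧ (sx (i.1 : Option (Fin n) →₀ ℕ) = sx ms ∧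
        (i.1 : Option (Fin n) →₀ ℕ) none = ms none) then 0 else T t i) := by
    intro t
    have h1 : ∑ i, T t i = (∑ i, (if i.2 = (fun _ => 0) ∧
        (sx (i.1 : Option (Fin n) →₀ ℕ) = sx ms ∧
        (i.1 : Option (Fin n) →₀ ℕ) none = ms none) then T t i else 0)) +
        ∑ i, (if i.2 = (fun _ => 0) ∧ (sx (i.1 : Option (Fin n) →₀ ℕ) = sx ms ∧
        (i.1 : Option (Fin n) →₀ ℕ) none = ms none) then 0 else T t i) := by
      rw [← Finset.sum_add_distrib]
      refine Finset.sum_congr rfl fun i _ => ?_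
      split_ifs
      · rw [add_zero]
      · rw [zero_add]
    rw [hTsum, sum_lead (fun m : supp => sx (m : Option (Fin n) →₀ ℕ) = sx ms ∧
        (m : Option (Fin n) →₀ ℕ) none = ms none) (T t)] at h1
    have h2 : (∑ m : supp, if (sx (m : Option (Fin n) →₀ ℕ) = sx ms ∧
        (m : Option (Fin n) →₀ ℕ) none = ms none) then T t ⟨m, fun _ => 0⟩ else 0) =
        (a t : ℝ) * ((D t).u 0 : ℝ) ^ sx ms * Y t ^ ms none := by
      have e1 := Finset.sum_coe_sort supp (fun m => if (sx m = sx ms ∧ m none = ms none) then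
        (((((D t).F.coeff m : ℤ) : ℚ) * ∏ k, (((D t).V 0 k : ℚ) / (D t).b) ^ m (some k) : ℚ) : ℝ) *
        ((D t).u 0 : ℝ) ^ sx ms * Y t ^ ms none else 0)
      have e2 : (∑ m : supp, if (sx (m : Option (Fin n) →₀ ℕ) = sx ms ∧
        (m : Option (Fin n) →₀ ℕ) none = ms none) then T t ⟨m, fun _ => 0⟩ else 0) =
        ∑ m : supp, (fun m => if (sx m = sx ms ∧ m none = ms none) then
        (((((D t).F.coeff m : ℤ) : ℚ) * ∏ k, (((D t).V 0 k : ℚ) / (D t).b) ^ m (some k) : ℚ) : ℝ) *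
        ((D t).u 0 : ℝ) ^ sx ms * Y t ^ ms none else 0) (m : Option (Fin n) →₀ ℕ) := by
        refine Finset.sum_congr rfl fun m _ => ?_
        simp only
        split_ifs with h
        · rw [hT]
          simp only
          rw [cc_zero, ww_zero]
          simp only [h.1, h.2]
          push_cast
          rfl
        · rfl
      rw [e2, e1, ← Finset.sum_filter, ← hB, ha]
      push_cast
      rw [Finset.sum_mul, Finset.sum_mul]
    rw [h2] at h1
    linarith
  have hdecS : Dec (fun t => Real.log ((D t).u 0)) (-(vv σ ms - δ'))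
      fun t => (a t : ℝ) * ((D t).u 0 : ℝ) ^ sx ms * Y t ^ ms none := by
    have h1 : Dec (fun t => Real.log ((D t).u 0)) (-(vv σ ms - δ'))
        fun t => -∑ i, (if i.2 = (fun _ => 0) ∧ (sx (i.1 : Option (Fin n) →₀ ℕ) = sx ms ∧
        (i.1 : Option (Fin n) →₀ ℕ) none = ms none) then 0 else T t i) := by
      refine Dec.neg (Dec.sum hL _ fun i _ => ?_)
      by_cases h : i.2 = (fun _ => 0) ∧ (sx (i.1 : Option (Fin n) →₀ ℕ) = sx ms ∧
        (i.1 : Option (Fin n) →₀ ℕ) none = ms none)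
      · simp only [if_pos h]
        intro δ'' _
        refine Eventually.of_forall fun t => ?_
        rw [abs_zero]
        exact (Real.exp_pos _).le
      · simp only [if_neg h]
        exact hTdec i h
    refine h1.mono (Eventually.of_forall fun t => ?_)
    rw [hsplit t]
  have hinvu : Dec (fun t => Real.log ((D t).u 0)) (sx ms : ℝ)
      fun t => (((D t).u 0 : ℝ) ^ sx ms)⁻¹ := by
    refine (dec_exp hL (sx ms : ℝ)).mono (Eventually.of_forall fun t => ?_)
    have h1 : ((D t).u 0 : ℝ) ^ sx ms = Real.exp ((sx ms : ℝ) * Real.log ((D t).u 0)) := by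
      conv_lhs => rw [u0_exp (D t)]
      rw [← Real.exp_nat_mul]
    rw [h1, Real.exp_neg]
  have hfin := Dec.mul (Dec.mul (Dec.mul (dec_zero_iff.2 (haS.inv hL).sub) hdecS) hinvu)
    (Dec.pow hL hYi (ms none))
  have h1 : (fun t => (((a t)⁻¹ : ℚ) : ℝ) * ((a t : ℝ) * ((D t).u 0 : ℝ) ^ sx ms *
      Y t ^ ms none) * (((D t).u 0 : ℝ) ^ sx ms)⁻¹ * (Y t)⁻¹ ^ ms none) = fun _ => (1 : ℝ) := by
    funext t
    have e1 : (a t : ℝ) ≠ 0 := by exact_mod_cast ha0 t
    have e2 : ((D t).u 0 : ℝ) ^ sx ms ≠ 0 := pow_ne_zero _ (by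
      have := u_pos (D t) 0
      linarith)
    have e3 : Y t ^ ms none ≠ 0 := pow_ne_zero _ (hY0 t)
    push_cast
    rw [inv_pow]
    field_simp
  rw [h1] at hfin
  have h2 : 0 + -(vv σ ms - δ') + (sx ms : ℝ) + (ms none : ℝ) * σ = δ' := by
    unfold vv
    ring
  rw [h2] at hfin
  exact one_ne_zero (dec_const_eq_zero hL hδ' hfin)

end seq

end Pool.Agent.H455.RT
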