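import Mathlib
import Pool.Agent.H455.RT4
import Pool.Agent.H455.VC10

set_option autoImplicit false

/-!
# Polynomials at sparse points: integral roots are sums of almost units
-/

open Finset Filter Topology

namespace Pool.Agent.H455.RT

open Pool.Agent.TH419.WI Pool.Agent.TH419.HX Pool.Agent.H455.VC
open Pool.Agent.Results.MP_821da1_nt.LaurentDichotomy (UnitOf NoLaurentCurve Qbar)

variable {n d r H : ℕ} {S : Finset ℕ} {η : ℝ} {supp : Finset (Option (Fin n) →₀ ℕ)}

/-- the equation for the last coordinate -/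
noncomputable def rootPoly (F : MvPolynomial (Option (Fin n)) ℤ) (x : Fin n → ℤ) : Polynomial ℤ :=
  ∑ m ∈ F.support, Polynomial.C (F.coeff m * ∏ k, x k ^ m (some k)) * Polynomial.X ^ m none

theorem val_root (F : MvPolynomial (Option (Fin n)) ℤ) (x : Fin n → ℤ) (Y : ℝ) :
    val F x Y = (rootPoly F x).eval₂ (Int.castRingHom ℝ) Y := by
  rw [val, rootPoly, MvPolynomial.eval₂_eq', Polynomial.eval₂_finsetSum]
  refine Finset.sum_congr rfl fun m _ => ?_
  rw [Polynomial.eval₂_mul, Polynomial.eval₂_C, Polynomial.eval₂_pow, Polynomial.eval₂_X,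
    Fintype.prod_option]
  simp only [Option.elim_none, Option.elim_some, eq_intCast]
  push_cast
  ring

theorem y_bound (P : Pt n d r H S η) : |(P.y : ℝ)| ≤ ∑ m ∈ P.F.support,
    |((P.F.coeff m : ℤ) : ℝ)| * ∏ k, |(P.x k : ℝ)| ^ m (some k) := by
  have hnn : 0 ≤ ∑ m ∈ P.F.support,
      |((P.F.coeff m : ℤ) : ℝ)| * ∏ k, |(P.x k : ℝ)| ^ m (some k) :=
    Finset.sum_nonneg fun m _ => by positivity
  by_cases h0 : P.y = 0
  · rw [h0, Int.cast_zero, abs_zero]
    exact hnn
  have h1 : (rootPoly P.F P.x).eval P.y = 0 := by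
    have h2 := P.hxy
    rw [val_root] at h2
    have h3 : (rootPoly P.F P.x).eval₂ (Int.castRingHom ℝ) ((P.y : ℤ) : ℝ) =
        (((rootPoly P.F P.x).eval P.y : ℤ) : ℝ) := by
      have h4 := Polynomial.eval₂_at_apply (p := rootPoly P.F P.x) (Int.castRingHom ℝ) P.y
      exact h4
    rw [h3] at h2
    exact_mod_cast h2
  have h2 : rootPoly P.F P.x ≠ 0 := by
    intro h3
    obtain ⟨Y, hY⟩ := P.hne
    rw [val_root, h3, Polynomial.eval₂_zero] at hY
    exact hY rfl
  obtain ⟨j, hj1, hj2⟩ := int_root_dvd P.y h0 _ _ le_rfl h2 h1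
  have hk3 : |(P.y : ℝ)| ≤ |((rootPoly P.F P.x).coeff j : ℝ)| := by
    have h5 : |P.y| ≤ |(rootPoly P.F P.x).coeff j| :=
      Int.le_of_dvd (abs_pos.2 hj1) (abs_dvd_abs _ _ |>.2 hj2)
    exact_mod_cast h5
  refine hk3.trans ?_
  rw [rootPoly, Polynomial.finsetSum_coeff]
  push_cast
  refine (Finset.abs_sum_le_sum_abs _ _).trans (Finset.sum_le_sum fun m _ => ?_)
  rw [Polynomial.coeff_C_mul, Polynomial.coeff_X_pow]
  split_ifs with h
  · rw [mul_one]
    push_cast
    rw [abs_mul, Finset.abs_prod]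
    simp only [abs_pow]
    exact le_rfl
  · rw [mul_zero, Int.cast_zero, abs_zero]
    positivity

section seq
variable (D : ℕ → Pt n d r H S η) (hη : 0 < η)
  (hL : Tendsto (fun t => Real.log ((D t).u 0)) atTop atTop)
  (hMS : Sub (fun t => Real.log ((D t).u 0)) fun t => (D t).M)

include hη hL hMS in
theorem x_dec (k : Fin n) : Dec (fun t => Real.log ((D t).u 0)) (-1) fun t => ((D t).x k : ℝ) := by
  have h1 : ∀ i, Dec (fun t => Real.log ((D t).u 0)) (-1) fun t =>
      ((((D t).V i k : ℚ) / (D t).b : ℚ) : ℝ) * ((D t).u i : ℝ) := by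
    intro i
    have h2 := Dec.mul (dec_zero_iff.2 (slow_ρ D hL hMS i k).sub)
      (dec_of_exp hL 1 (f := fun t => ((D t).u i : ℝ)) (Eventually.of_forall fun t => by
        rw [abs_of_nonneg (Nat.cast_nonneg _), one_mul]
        exact ui_le hη (D t) i))
    rwa [zero_add] at h2
  refine (Dec.sum hL Finset.univ fun i _ => h1 i).mono (Eventually.of_forall fun t => ?_)
  have hb' : ((D t).b : ℝ) ≠ 0 := by exact_mod_cast (D t).hb0
  have h2 : ((D t).b : ℝ) * ((D t).x k : ℝ) = ∑ i, ((D t).V i k : ℝ) * ((D t).u i : ℝ) := by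
    exact_mod_cast (D t).hx k
  have h3 : ((D t).x k : ℝ) = ∑ i, ((((D t).V i k : ℚ) / (D t).b : ℚ) : ℝ) * ((D t).u i : ℝ) := by
    have h4 : ∑ i, ((((D t).V i k : ℚ) / (D t).b : ℚ) : ℝ) * ((D t).u i : ℝ) =
        (∑ i, ((D t).V i k : ℝ) * ((D t).u i : ℝ)) / (D t).b := by
      rw [Finset.sum_div]
      refine Finset.sum_congr rfl fun i _ => ?_
      push_cast
      ring
    rw [h4, ← h2]
    field_simp
  rw [← h3]

include hη hL hMS in
theorem y_dec (hsupp : ∀ t, (D t).F.support = supp) :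
    Dec (fun t => Real.log ((D t).u 0)) (-(d : ℝ)) fun t => ((D t).y : ℝ) := by
  have h1 : Dec (fun t => Real.log ((D t).u 0)) (-(d : ℝ)) fun t => ∑ m ∈ supp,
      |(((D t).F.coeff m : ℤ) : ℝ)| * ∏ k, |((D t).x k : ℝ)| ^ m (some k) := by
    refine Dec.sum hL _ fun m hm => ?_
    have h2 : Sub (fun t => Real.log ((D t).u 0)) fun t => |(((D t).F.coeff m : ℤ) : ℝ)| := by
      have h3 := (slow_coeff D hL hMS m).sub
      refine h3.mono (Eventually.of_forall fun t => ?_)
      rw [abs_abs]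
      push_cast
      exact le_rfl
    have h3 : ∀ s : Finset (Fin n), Dec (fun t => Real.log ((D t).u 0))
        (-((∑ k ∈ s, m (some k) : ℕ) : ℝ)) fun t => ∏ k ∈ s, |((D t).x k : ℝ)| ^ m (some k) := by
      intro s
      classical
      induction s using Finset.induction_on with
      | empty =>
        simp only [Finset.sum_empty, Nat.cast_zero, neg_zero, Finset.prod_empty]
        exact dec_zero_iff.2 (Sub.const hL 1)
      | insert k s hk ih =>
        have h4 : Dec (fun t => Real.log ((D t).u 0)) ((m (some k) : ℝ) * (-1)) fun t =>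
            |((D t).x k : ℝ)| ^ m (some k) := by
          refine Dec.pow hL ?_ _
          refine (x_dec D hη hL hMS k).mono (Eventually.of_forall fun t => ?_)
          rw [abs_abs]
        have h5 := Dec.mul h4 ih
        have h6 : (m (some k) : ℝ) * (-1) + -((∑ k ∈ s, m (some k) : ℕ) : ℝ) =
            -((∑ k ∈ insert k s, m (some k) : ℕ) : ℝ) := by
          rw [Finset.sum_insert hk]
          push_cast
          ring
        rw [h6] at h5
        simpa only [Finset.prod_insert hk] using h5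
    have h4 := Dec.mul (dec_zero_iff.2 h2) (h3 Finset.univ)
    refine Dec.mono_exp h4 ?_
    rw [zero_add]
    have h5 : (∑ k, m (some k)) + m none ≤ d := exp_le_deg (D 0).hF (by rw [hsupp]; exact hm)
    have h6 : ((∑ k, m (some k) : ℕ) : ℝ) ≤ (d : ℝ) := by exact_mod_cast (by omega : ∑ k, m (some k) ≤ d)
    linarith
  refine h1.mono (Eventually.of_forall fun t => ?_)
  have h2 := y_bound (D t)
  rw [hsupp] at h2
  exact h2.trans (le_abs_self _)

end seq

/-- the coefficients of the edge polynomial -/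
theorem coeff_edgex (p q : ℕ) (F : MvPolynomial (Option (Fin n)) ℤ) (ρ : Fin n → ℚ) (τ : ℚ)
    (k : ℕ) : (edgex p q F ρ τ).coeff k = ∑ m ∈ F.support with wtx p q m = topx p q F,
      if m none = k then ((F.coeff m : ℤ) : ℚ) * (∏ k, ρ k ^ m (some k)) * τ ^ m none else 0 := by
  rw [edgex, Polynomial.finsetSum_coeff]
  refine Finset.sum_congr rfl fun m _ => ?_
  rw [Polynomial.coeff_C_mul, Polynomial.coeff_X_pow]
  by_cases h : k = m none
  · rw [if_pos h, if_pos h.symm, mul_one]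
  · rw [if_neg h, if_neg (Ne.symm h), mul_zero]

theorem natDegree_edgex {p q : ℕ} (F : MvPolynomial (Option (Fin n)) ℤ) (hF : F.totalDegree ≤ d)
    (ρ : Fin n → ℚ) (τ : ℚ) : (edgex p q F ρ τ).natDegree ≤ d := by
  rw [Polynomial.natDegree_le_iff_coeff_eq_zero]
  intro k hk
  rw [coeff_edgex]
  refine Finset.sum_eq_zero fun m hm => ?_
  rw [if_neg]
  have := exp_le_deg hF (Finset.mem_filter.1 hm).1
  omega

theorem finite_supports (n d : ℕ) :
    {s : Finset (Option (Fin n) →₀ ℕ) | s ⊆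
      (Finsupp.finite_of_degree_le (σ := Option (Fin n)) d).toFinset}.Finite :=
  (Finset.powerset (Finsupp.finite_of_degree_le
    (σ := Option (Fin n)) d).toFinset).finite_toSet.subset fun _ hs =>
      Finset.mem_coe.2 (Finset.mem_powerset.2 hs)

theorem alg1 (c U A B w Q X : ℝ) (hc : c ≠ 0) (hU : U ≠ 0) :
    c * U * (A * B / c * (w * Q / U) * X) = A * w * (B * Q * X) := by
  field_simp

/-- **Roots on an edge.** -/
theorem edge_case (hη : 0 < η) (hS : ∀ p ∈ S, p.Prime) (D : ℕ → Pt n d r H S η)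
    (hL : Tendsto (fun t => Real.log ((D t).u 0)) atTop atTop)
    (hMS : Sub (fun t => Real.log ((D t).u 0)) fun t => (D t).M)
    (hsupp : ∀ t, (D t).F.support = supp) (hy0 : ∀ t, (D t).y ≠ 0) {σ : ℝ}
    (hlim : Tendsto (fun t => Real.log |((D t).y : ℝ)| / Real.log ((D t).u 0)) atTop (𝓝 σ))
    {p q : ℕ} (hp : 1 ≤ p) (hq : 1 ≤ q) (hpq : (p : ℝ) * σ = q) :
    ∃ ψ : ℕ → ℕ, StrictMono ψ ∧ Rel S (fun t => Real.log ((D (ψ t)).u 0))
      (fun t => (D (ψ t)).y) := by
  classical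
  choose g h c l E hg hh hc hgM hhM hsq hE hedge using fun t => (D t).tame p q hp hq
  obtain ⟨B, hB⟩ := smooth_root S hS p hp
  choose α δ hα hαδ hδB hδ1 hαu using fun t => hB ((D t).u 0) ((D t).hu 0)
  have hdeg : ∀ t, l t + (E t).natDegree ≤ d := by
    intro t
    have h1 := natDegree_edgex (p := p) (q := q) (D t).F (D t).hF
      (fun k => ((D t).V 0 k : ℚ) / (D t).b) (h t / g t)
    rw [hedge t, Polynomial.natDegree_mul (mul_ne_zero (Polynomial.C_ne_zero.2 (hc t))
      (pow_ne_zero _ Polynomial.X_ne_zero)) (hsq t).ne_zero, Polynomial.natDegree_C_mul (hc t),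
      Polynomial.natDegree_X_pow, Polynomial.natDegree_map_eq_of_injective
        (by exact (Int.castRingHom ℚ).injective_int)] at h1
    exact h1
  -- the finite data are constant on a subsequence
  have hfin : (Set.Iic B ×ˢ (Set.Iic d ×ˢ
      {E : Polynomial ℤ | E.natDegree ≤ d ∧ ∀ i, |E.coeff i| ≤ H})).Finite :=
    (Set.finite_Iic _).prod ((Set.finite_Iic _).prod (finite_polys d H))
  obtain ⟨⟨δc, lc, Ec⟩, -, hfr⟩ := freq_exists hfin
    (fun t a => δ t = a.1 ∧ l t = a.2.1 ∧ E t = a.2.2)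
    (Eventually.of_forall fun t => ⟨(δ t, l t, E t), by
      refine ⟨hδB t, ?_, ?_, hE t⟩
      · show l t ≤ d
        have := hdeg t
        omega
      · show (E t).natDegree ≤ d
        have := hdeg t
        omega, rfl, rfl, rfl⟩)
  obtain ⟨φ, hφ, hφc⟩ := Filter.extraction_of_frequently_atTop hfr
  simp only at hφc
  have hφt := hφ.tendsto_atTop
  obtain ⟨D', hD'⟩ : ∃ D' : ℕ → Pt n d r H S η, D' = fun t => D (φ t) := ⟨_, rfl⟩
  obtain ⟨L, hLd⟩ : ∃ L : ℕ → ℝ, L = fun t => Real.log ((D' t).u 0) := ⟨_, rfl⟩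
  have hLt : ∀ t, Real.log ((D' t).u 0) = L t := fun t => by rw [hLd]
  have hL' : Tendsto (fun t => Real.log ((D' t).u 0)) atTop atTop := by
    rw [hD']; exact hL.comp hφt
  have hMS' : Sub (fun t => Real.log ((D' t).u 0)) fun t => (D' t).M := by
    rw [hD']; exact hMS.comp hφt
  have hL2 : Tendsto L atTop atTop := by rw [hLd]; exact hL'
  have hlim' : Tendsto (fun t => Real.log |((D' t).y : ℝ)| / L t) atTop (𝓝 σ) := by
    rw [hLd, hD']; exact hlim.comp hφt
  have hsupp' : ∀ t, (D' t).F.support = supp := fun t => by rw [hD']; exact hsupp _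
  have hδpos : 0 < δc := by rw [← (hφc 0).1]; exact hδ1 _
  have hθ := θ_pos p hδpos
  -- the data on the subsequence
  obtain ⟨g', hg'⟩ : ∃ g' : ℕ → ℤ, g' = fun t => g (φ t) := ⟨_, rfl⟩
  obtain ⟨h', hh'⟩ : ∃ h' : ℕ → ℤ, h' = fun t => h (φ t) := ⟨_, rfl⟩
  obtain ⟨c', hc'⟩ : ∃ c' : ℕ → ℚ, c' = fun t => c (φ t) := ⟨_, rfl⟩
  obtain ⟨α', hα'⟩ : ∃ α' : ℕ → ℕ, α' = fun t => α (φ t) := ⟨_, rfl⟩
  have hg0 : ∀ t, g' t ≠ 0 := fun t => by rw [hg']; exact hg _
  have hh0 : ∀ t, h' t ≠ 0 := fun t => by rw [hh']; exact hh _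
  have hc0 : ∀ t, c' t ≠ 0 := fun t => by rw [hc']; exact hc _
  have hαS : ∀ t, Smooth S (α' t) := fun t => by rw [hα']; exact hα _
  have hgS : SlowQ L fun t => (g' t : ℚ) := by
    rw [hLd]
    refine bd_int D' hL' hMS' g' fun t => ?_
    rw [hg', hD']; exact hgM _
  have hhS : SlowQ L fun t => (h' t : ℚ) := by
    rw [hLd]
    refine bd_int D' hL' hMS' h' fun t => ?_
    rw [hh', hD']; exact hhM _
  have hα1 : ∀ t, (1 : ℝ) ≤ α' t := fun t => by
    have : 1 ≤ α' t := Nat.one_le_iff_ne_zero.2 (hαS t).1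
    exact_mod_cast this
  have hu0 : ∀ t, ((D' t).u 0 : ℝ) = Real.exp (L t) := fun t => by
    rw [hLd]; exact u0_exp _
  have hLnn : ∀ t, 0 ≤ L t := fun t => by rw [hLd]; exact L_nonneg _
  have hU : ∀ t, (θ p δc * (α' t : ℝ)) ^ p = Real.exp (L t) := by
    intro t
    rw [← hu0, mul_pow, θ_pow hp]
    have h1 : (D' t).u 0 = δc * α' t ^ p := by
      rw [hD', hα', ← (hφc t).1]
      exact hαδ _
    rw [h1]
    push_cast
    rfl
  have hUpos : ∀ t, 0 < θ p δc * (α' t : ℝ) := fun t =>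
    mul_pos hθ (by have := hα1 t; linarith)
  have hpR : (0 : ℝ) < p := by exact_mod_cast (by omega : 0 < p)
  have hUexp : ∀ t, θ p δc * (α' t : ℝ) = Real.exp (1 / p * L t) := by
    intro t
    have h1 := congrArg Real.log (hU t)
    rw [Real.log_pow, Real.log_exp] at h1
    rw [← Real.exp_log (hUpos t)]
    congr 1
    field_simp
    linarith
  have hUpow : ∀ t (k : ℕ), (θ p δc * (α' t : ℝ)) ^ k = Real.exp (k / p * L t) := by
    intro t k
    rw [hUexp, ← Real.exp_nat_mul]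
    congr 1
    ring
  have hUq : ∀ t, (θ p δc * (α' t : ℝ)) ^ q = Real.exp (σ * L t) := by
    intro t
    rw [hUpow]
    congr 2
    rw [div_eq_iff hpR.ne']
    linarith
  have hαu' : ∀ t, (α' t : ℝ) ≤ Real.exp (L t) := by
    intro t
    rw [← hu0, hα', hD']
    exact_mod_cast hαu (φ t)
  obtain ⟨Dw, hDw⟩ : ∃ Dw : ℕ, Dw = supp.sup (wtx p q) := ⟨_, rfl⟩
  have hDwle : ∀ m ∈ supp, wtx p q m ≤ Dw := fun m hm => by rw [hDw]; exact Finset.le_sup hm
  have htop : ∀ t, topx p q (D' t).F = Dw := fun t => by rw [topx, hsupp', hDw]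
  obtain ⟨ρ, hρ⟩ : ∃ ρ : ℕ → Fin n → ℚ, ρ = fun t k => ((D' t).V 0 k : ℚ) / (D' t).b := ⟨_, rfl⟩
  have hed : ∀ t, edgex p q (D' t).F (ρ t) (h' t / g' t) =
      Polynomial.C (c' t) * Polynomial.X ^ lc * Ec.map (Int.castRingHom ℚ) := by
    intro t
    have h1 := hedge (φ t)
    rw [(hφc t).2.1, (hφc t).2.2] at h1
    rw [hD', hρ, hh', hg', hc', hD']
    exact h1
  have hsqc : Squarefree (Ec.map (Int.castRingHom ℚ)) := by
    have := hsq (φ 0)
    rwa [(hφc 0).2.2] at this
  -- the numbers `c`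
  have hcS : SlowQ L c' := by
    have hne : (Polynomial.X ^ lc * Ec.map (Int.castRingHom ℚ) : Polynomial ℚ) ≠ 0 :=
      mul_ne_zero (pow_ne_zero _ Polynomial.X_ne_zero) hsqc.ne_zero
    obtain ⟨k, hk⟩ : ∃ k, (Polynomial.X ^ lc * Ec.map (Int.castRingHom ℚ) : Polynomial ℚ).coeff k ≠
        0 := by
      by_contra hcon
      push Not at hcon
      exact hne (Polynomial.ext fun j => by rw [hcon j, Polynomial.coeff_zero])
    have h1 : SlowQ L fun t => (∑ m ∈ supp with wtx p q m = Dw, if m none = k then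
        (((D' t).F.coeff m : ℤ) : ℚ) * (∏ k, ρ t k ^ m (some k)) * ((h' t : ℚ) / g' t) ^ m none
        else 0) / (Polynomial.X ^ lc * Ec.map (Int.castRingHom ℚ) : Polynomial ℚ).coeff k := by
      refine SlowQ.div hL2 (SlowQ.sum hL2 _ fun m _ => ?_) (SlowQ.const hL2 _)
      by_cases h2 : m none = k
      · simp only [if_pos h2]
        refine ((?_ : SlowQ L _).mul (SlowQ.prod hL2 _ fun j _ => ?_)).mul
          ((hhS.div hL2 hgS).pow hL2 _)
        · rw [hLd]; exact slow_coeff D' hL' hMS' m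
        · rw [hLd, hρ]; exact (slow_ρ D' hL' hMS' 0 j).pow hL' _
      · simp only [if_neg h2]
        exact SlowQ.const hL2 0
    refine h1.congr fun t => ?_
    rw [eq_div_iff hk]
    have h2 := congrArg (fun P => Polynomial.coeff P k) (hed t)
    rw [coeff_edgex, htop, hsupp', mul_assoc, Polynomial.coeff_C_mul] at h2
    exact h2.symm
  -- the reduced root
  obtain ⟨W, hW⟩ : ∃ W : ℕ → ℝ, W = fun t => (g' t : ℝ) * (D' t).y /
    (h' t * (θ p δc * (α' t : ℝ)) ^ q) := ⟨_, rfl⟩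
  have hgR : ∀ t, (g' t : ℝ) ≠ 0 := fun t => by exact_mod_cast hg0 t
  have hhR : ∀ t, (h' t : ℝ) ≠ 0 := fun t => by exact_mod_cast hh0 t
  have hcR : ∀ t, (c' t : ℝ) ≠ 0 := fun t => by exact_mod_cast hc0 t
  have hyR : ∀ t, ((D' t).y : ℝ) ≠ 0 := fun t => by
    rw [hD']; exact_mod_cast hy0 (φ t)
  have hUq0 : ∀ t, (θ p δc * (α' t : ℝ)) ^ q ≠ 0 := fun t => pow_ne_zero _ (hUpos t).ne'
  have hyW : ∀ t, ((D' t).y : ℝ) = (h' t : ℝ) / g' t * (θ p δc * (α' t : ℝ)) ^ q * W t := by
    intro t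
    rw [hW]
    have h1 := hgR t
    have h2 := hhR t
    have h3 := hUq0 t
    field_simp
  obtain ⟨hYd, hYi⟩ := dec_of_log hL2 hyR hlim'
  have hW0 : ∀ t, W t ≠ 0 := by
    intro t
    rw [hW]
    exact div_ne_zero (mul_ne_zero (hgR t) (hyR t)) (mul_ne_zero (hhR t) (hUq0 t))
  have hW1 : Sub L W := by
    have h1 := Dec.mul (Dec.mul (dec_zero_iff.2 (hgS.div hL2 hhS).sub) hYd) (dec_exp hL2 σ)
    have h2 : (0 : ℝ) + -σ + σ = 0 := by ring
    rw [h2] at h1
    refine (dec_zero_iff.1 h1).mono (Eventually.of_forall fun t => le_of_eq ?_)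
    congr 1
    have h3 : W t = (g' t : ℝ) * (D' t).y / (h' t * (θ p δc * (α' t : ℝ)) ^ q) := by rw [hW]
    rw [h3, hUq, Real.exp_neg]
    push_cast
    have := hhR t
    field_simp
  have hW2 : Sub L fun t => (W t)⁻¹ := by
    have h1 := Dec.mul (Dec.mul (dec_zero_iff.2 (hhS.div hL2 hgS).sub) hYi)
      (dec_exp hL2 (-σ))
    have h2 : (0 : ℝ) + σ + -σ = 0 := by ring
    rw [h2] at h1
    refine (dec_zero_iff.1 h1).mono (Eventually.of_forall fun t => le_of_eq ?_)
    congr 1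
    have h3 : W t = (g' t : ℝ) * (D' t).y / (h' t * (θ p δc * (α' t : ℝ)) ^ q) := by rw [hW]
    rw [h3, hUq, neg_mul, neg_neg]
    push_cast
    have e1 := hhR t
    have e2 := hgR t
    have e3 := hyR t
    field_simp
  -- the perturbation
  obtain ⟨κ, hκ⟩ : ∃ κ : ℕ → Lam r supp → ℚ, κ = fun t i =>
    if i.2 = (fun _ => 0) ∧ wtx p q (i.1 : Option (Fin n) →₀ ℕ) = Dw then 0 else
      cc (D' t).F (D' t).V (D' t).b i * ((h' t : ℚ) / g' t) ^ (i.1 : Option (Fin n) →₀ ℕ) none /
        c' t := ⟨_, rfl⟩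
  have hκS : ∀ i, SlowQ L fun t => κ t i := by
    intro i
    rw [hκ]
    by_cases h1 : i.2 = (fun _ => 0) ∧ wtx p q (i.1 : Option (Fin n) →₀ ℕ) = Dw
    · simp only [if_pos h1]
      exact SlowQ.const hL2 0
    · simp only [if_neg h1]
      refine SlowQ.div hL2 (SlowQ.mul ?_ ((hhS.div hL2 hgS).pow hL2 _)) hcS
      rw [hLd]
      exact slow_cc D' hL' hMS' i
  obtain ⟨ξ, hξ⟩ : ∃ ξ : Lam r supp → ℝ, ξ = fun i =>
    θ p δc ^ (q * (i.1 : Option (Fin n) →₀ ℕ) none) / θ p δc ^ Dw := ⟨_, rfl⟩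
  obtain ⟨R, hR⟩ : ∃ R : ℕ → Lam r supp → ℕ, R = fun t i =>
    ww (D' t).u i * α' t ^ (q * (i.1 : Option (Fin n) →₀ ℕ) none) := ⟨_, rfl⟩
  have hz : ∀ t i, ξ i * (κ t i : ℝ) * ((R t i : ℝ) / ((α' t ^ Dw : ℕ) : ℝ)) =
      (κ t i : ℝ) * ((ww (D' t).u i : ℝ) *
        (θ p δc * (α' t : ℝ)) ^ (q * (i.1 : Option (Fin n) →₀ ℕ) none) /
          (θ p δc * (α' t : ℝ)) ^ Dw) := by
    intro t i
    rw [hξ, hR]
    simp only
    push_cast
    rw [mul_pow, mul_pow]
    have h1 : (α' t : ℝ) ^ Dw ≠ 0 := pow_ne_zero _ (by have := hα1 t; linarith)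
    have h2 : θ p δc ^ Dw ≠ 0 := pow_ne_zero _ hθ.ne'
    field_simp
  have hwR : ∀ i : Lam r supp, (p : ℝ) * (sx (i.1 : Option (Fin n) →₀ ℕ) : ℝ) +
      q * ((i.1 : Option (Fin n) →₀ ℕ) none : ℝ) =
      (wtx p q (i.1 : Option (Fin n) →₀ ℕ) : ℝ) := by
    intro i
    unfold wtx sx
    push_cast
    ring
  obtain ⟨δ0, hδ0d⟩ : ∃ δ0 : ℝ, δ0 = min η (1 / p) := ⟨_, rfl⟩
  have hδ0 : 0 < δ0 := by rw [hδ0d]; exact lt_min hη (by positivity)
  have hdec : ∀ i, Dec L δ0 fun t => ξ i * (κ t i : ℝ) * ((R t i : ℝ) / ((α' t ^ Dw : ℕ) : ℝ)) := by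
    intro i
    simp only [hz]
    by_cases h1 : i.2 = (fun _ => 0) ∧ wtx p q (i.1 : Option (Fin n) →₀ ℕ) = Dw
    · intro δ' _
      refine Eventually.of_forall fun t => ?_
      have h2 : κ t i = 0 := by rw [hκ]; exact if_pos h1
      simp only [h2, Rat.cast_zero, zero_mul, abs_zero]
      exact (Real.exp_pos _).le
    · have h3 : Dec L δ0 fun t => (ww (D' t).u i : ℝ) *
          (θ p δc * (α' t : ℝ)) ^ (q * (i.1 : Option (Fin n) →₀ ℕ) none) /
          (θ p δc * (α' t : ℝ)) ^ Dw := by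
        have h4 := dec_of_exp hL2 (-δ0) (f := fun t => (ww (D' t).u i : ℝ) *
          (θ p δc * (α' t : ℝ)) ^ (q * (i.1 : Option (Fin n) →₀ ℕ) none) /
          (θ p δc * (α' t : ℝ)) ^ Dw) (Eventually.of_forall fun t => by
            have hw := ww_le (supp := supp) (D' t).u (fun j => ui_le hη (D' t) j)
              (fun j hj => ui_dom (D' t) j hj) i
            rw [hLt] at hw
            rw [abs_of_nonneg (by have := hUpos t; positivity), hUpow, hUpow, mul_div_assoc,
              ← Real.exp_sub]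
            have e1 : ((q * (i.1 : Option (Fin n) →₀ ℕ) none : ℕ) : ℝ) / p * L t -
                (Dw : ℝ) / p * L t = ((wtx p q (i.1 : Option (Fin n) →₀ ℕ) : ℝ) / p -
                  (sx (i.1 : Option (Fin n) →₀ ℕ) : ℝ) - (Dw : ℝ) / p) * L t := by
              rw [← hwR i]
              push_cast
              field_simp
              ring
            rw [e1]
            have hwle : (wtx p q (i.1 : Option (Fin n) →₀ ℕ) : ℝ) ≤ Dw := by
              exact_mod_cast hDwle _ i.1.2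
            have hLn := hLnn t
            by_cases h0 : i.2 = (fun _ => 0)
            · have h5 : wtx p q (i.1 : Option (Fin n) →₀ ℕ) + 1 ≤ Dw := by
                have h6 := hDwle _ i.1.2
                have h7 : wtx p q (i.1 : Option (Fin n) →₀ ℕ) ≠ Dw := fun h => h1 ⟨h0, h⟩
                omega
              have h6 : (wtx p q (i.1 : Option (Fin n) →₀ ℕ) : ℝ) + 1 ≤ Dw := by
                exact_mod_cast h5
              have h7 : (wtx p q (i.1 : Option (Fin n) →₀ ℕ) : ℝ) / p - (Dw : ℝ) / p ≤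
                  -(1 / p) := by
                rw [← sub_div, ← neg_div]
                exact div_le_div_of_nonneg_right (by linarith) hpR.le
              calc (ww (D' t).u i : ℝ) * Real.exp _ ≤
                    Real.exp ((sx (i.1 : Option (Fin n) →₀ ℕ) : ℝ) * L t) * Real.exp _ :=
                    mul_le_mul_of_nonneg_right hw.1 (Real.exp_pos _).le
                _ ≤ Real.exp (-δ0 * L t) := by
                    rw [← Real.exp_add]
                    apply Real.exp_le_exp.2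
                    have h8 : δ0 ≤ 1 / p := by rw [hδ0d]; exact min_le_right _ _
                    nlinarith
            · have h7 : (wtx p q (i.1 : Option (Fin n) →₀ ℕ) : ℝ) / p - (Dw : ℝ) / p ≤ 0 := by
                rw [← sub_div]
                exact div_nonpos_of_nonpos_of_nonneg (by linarith) hpR.le
              calc (ww (D' t).u i : ℝ) * Real.exp _ ≤
                    Real.exp (((sx (i.1 : Option (Fin n) →₀ ℕ) : ℝ) - η) * L t) * Real.exp _ :=
                    mul_le_mul_of_nonneg_right (hw.2 h0) (Real.exp_pos _).le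
                _ ≤ Real.exp (-δ0 * L t) := by
                    rw [← Real.exp_add]
                    apply Real.exp_le_exp.2
                    have h8 : δ0 ≤ η := by rw [hδ0d]; exact min_le_left _ _
                    nlinarith)
        rwa [neg_neg] at h4
      have h5 := Dec.mul (dec_zero_iff.2 (hκS i).sub) h3
      rwa [zero_add] at h5
  -- the equation
  have heq : ∀ t, W t ^ lc * (Polynomial.aeval (W t) Ec : ℝ) +
      ∑ i, (ξ i * (κ t i : ℝ) * ((R t i : ℝ) / ((α' t ^ Dw : ℕ) : ℝ))) *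
        W t ^ (i.1 : Option (Fin n) →₀ ℕ) none = 0 := by
    intro t
    have hUD : (θ p δc * (α' t : ℝ)) ^ Dw ≠ 0 := pow_ne_zero _ (hUpos t).ne'
    have hcU : (c' t : ℝ) * (θ p δc * (α' t : ℝ)) ^ Dw ≠ 0 := mul_ne_zero (hcR t) hUD
    apply mul_left_cancel₀ hcU
    rw [mul_zero, mul_add]
    obtain ⟨T, hT⟩ : ∃ T : Lam r supp → ℝ, T = fun i =>
      (cc (D' t).F (D' t).V (D' t).b i : ℝ) * (ww (D' t).u i : ℝ) *
        ((D' t).y : ℝ) ^ (i.1 : Option (Fin n) →₀ ℕ) none := ⟨_, rfl⟩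
    have hTsum : ∑ i, T i = 0 := by
      rw [hT, ← (D' t).hxy, val_expand (D' t).F (hsupp' t) (D' t).V (D' t).b (D' t).u (D' t).x
        (D' t).hb0 (D' t).hx]
    have hsplit : ∑ i, T i = (∑ i, (if i.2 = (fun _ => 0) ∧
        wtx p q (i.1 : Option (Fin n) →₀ ℕ) = Dw then T i else 0)) +
        ∑ i, (if i.2 = (fun _ => 0) ∧ wtx p q (i.1 : Option (Fin n) →₀ ℕ) = Dw then 0
          else T i) := by
      rw [← Finset.sum_add_distrib]
      refine Finset.sum_congr rfl fun i _ => ?_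
      split_ifs
      · rw [add_zero]
      · rw [zero_add]
    rw [← hTsum, hsplit, sum_lead (fun m : supp => wtx p q (m : Option (Fin n) →₀ ℕ) = Dw) T]
    congr 1
    · -- the leading terms
      have e1 : (c' t : ℝ) * (W t ^ lc * (Polynomial.aeval (W t) Ec : ℝ)) =
          Polynomial.aeval (W t) (edgex p q (D' t).F (ρ t) (h' t / g' t)) := by
        rw [hed t, map_mul, map_mul, map_pow, Polynomial.aeval_X, Polynomial.aeval_C]
        have e2 : (Polynomial.aeval (W t) (Ec.map (Int.castRingHom ℚ)) : ℝ) =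
            Polynomial.aeval (W t) Ec := Polynomial.aeval_map_algebraMap ℚ (W t) Ec
        rw [e2]
        have e3 : (algebraMap ℚ ℝ) (c' t) = (c' t : ℝ) := rfl
        rw [e3]
        ring
      have e2 : (c' t : ℝ) * (θ p δc * (α' t : ℝ)) ^ Dw *
          (W t ^ lc * (Polynomial.aeval (W t) Ec : ℝ)) = (θ p δc * (α' t : ℝ)) ^ Dw *
          ((c' t : ℝ) * (W t ^ lc * (Polynomial.aeval (W t) Ec : ℝ))) := by ring
      rw [e2, e1, edgex, htop, hsupp', map_sum, Finset.mul_sum]
      have e3 := Finset.sum_coe_sort supp (fun m => if wtx p q m = Dw then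
        (θ p δc * (α' t : ℝ)) ^ Dw * (Polynomial.aeval (W t) (Polynomial.C
          ((((D' t).F.coeff m : ℤ) : ℚ) * (∏ k, ρ t k ^ m (some k)) *
            ((h' t : ℚ) / g' t) ^ m none) * Polynomial.X ^ m none) : ℝ) else 0)
      rw [Finset.sum_filter, ← e3]
      refine Finset.sum_congr rfl fun m _ => ?_
      by_cases hm : wtx p q (m : Option (Fin n) →₀ ℕ) = Dw
      · rw [if_pos hm, if_pos hm, hT]
        simp only
        rw [cc_zero, ww_zero, map_mul, map_pow, Polynomial.aeval_X, Polynomial.aeval_C, hyW t]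
        have e4 : (θ p δc * (α' t : ℝ)) ^ Dw = (((D' t).u 0 : ℕ) : ℝ) ^
            sx (m : Option (Fin n) →₀ ℕ) *
            ((θ p δc * (α' t : ℝ)) ^ q) ^ (m : Option (Fin n) →₀ ℕ) none := by
          rw [hu0, ← hU, ← pow_mul, ← pow_mul, ← pow_add]
          congr 1
          exact hm.symm
        rw [e4, mul_pow, mul_pow]
        have e5 : (algebraMap ℚ ℝ) ((((D' t).F.coeff (m : Option (Fin n) →₀ ℕ) : ℤ) : ℚ) *
            (∏ k, ρ t k ^ (m : Option (Fin n) →₀ ℕ) (some k)) *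
            ((h' t : ℚ) / g' t) ^ (m : Option (Fin n) →₀ ℕ) none) =
            (((((D' t).F.coeff (m : Option (Fin n) →₀ ℕ) : ℤ) : ℚ) *
            (∏ k, ρ t k ^ (m : Option (Fin n) →₀ ℕ) (some k)) : ℚ) : ℝ) *
            ((h' t : ℝ) / g' t) ^ (m : Option (Fin n) →₀ ℕ) none := by
          rw [eq_ratCast]
          push_cast
          ring
        rw [e5, hρ]
        push_cast
        ring
      · rw [if_neg hm, if_neg hm]
    · rw [Finset.mul_sum]
      refine Finset.sum_congr rfl fun i _ => ?_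
      rw [hz]
      by_cases h1 : i.2 = (fun _ => 0) ∧ wtx p q (i.1 : Option (Fin n) →₀ ℕ) = Dw
      · have h2 : κ t i = 0 := by rw [hκ]; exact if_pos h1
        rw [if_pos h1, h2, Rat.cast_zero, zero_mul, zero_mul, mul_zero]
      · have h2 : κ t i = cc (D' t).F (D' t).V (D' t).b i *
            ((h' t : ℚ) / g' t) ^ (i.1 : Option (Fin n) →₀ ℕ) none / c' t := by
          rw [hκ]; exact if_neg h1
        have e1 : ((h' t : ℝ) / g' t * (θ p δc * (α' t : ℝ)) ^ q * W t) ^
            (i.1 : Option (Fin n) →₀ ℕ) none = ((h' t : ℝ) / g' t) ^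
            (i.1 : Option (Fin n) →₀ ℕ) none * (θ p δc * (α' t : ℝ)) ^
            (q * (i.1 : Option (Fin n) →₀ ℕ) none) * W t ^
            (i.1 : Option (Fin n) →₀ ℕ) none := by
          rw [mul_pow, mul_pow, ← pow_mul]
        rw [if_neg h1, h2, hT]
        simp only
        rw [hyW t, e1]
        push_cast
        exact alg1 _ _ _ _ _ _ _ (hcR t) hUD
  -- the sizes
  obtain ⟨C, hC⟩ : ∃ C : ℝ, C = (d : ℝ) + q * d + Dw + q := ⟨_, rfl⟩
  have hC0 : 0 ≤ C := by rw [hC]; positivity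
  have hαk : ∀ t (k : ℕ), ((α' t : ℝ)) ^ k ≤ Real.exp (k * L t) := by
    intro t k
    calc ((α' t : ℝ)) ^ k ≤ Real.exp (L t) ^ k :=
          pow_le_pow_left₀ (by positivity) (hαu' t) _
      _ = Real.exp (k * L t) := by rw [← Real.exp_nat_mul]
  obtain ⟨ψ, hψ, hrel⟩ := rel_of_root (Λ := Lam r supp) hS hL2 hLnn lc Ec hsqc W hW0 hW1 hW2
    (fun i => (i.1 : Option (Fin n) →₀ ℕ) none) ξ
    (by
      intro i
      rw [hξ]
      exact ((θ_alg hp δc).pow _).mul ((θ_alg hp δc).pow _).inv)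
    κ hκS R (fun t _ => α' t ^ Dw)
    (by
      intro t i
      rw [hR]
      exact smooth_mul (ww_smooth _ (D' t).hu i) (smooth_pow (hαS t) _))
    (fun t i => smooth_pow (hαS t) _) C hC0
    (by
      intro t i
      rw [hR]
      have hw := (ww_le (supp := supp) (D' t).u (fun j => ui_le hη (D' t) j)
        (fun j hj => ui_dom (D' t) j hj) i).1
      rw [hLt] at hw
      push_cast
      have hd1 : sx (i.1 : Option (Fin n) →₀ ℕ) + (i.1 : Option (Fin n) →₀ ℕ) none ≤ d :=
        exp_le_deg (D' t).hF (by rw [hsupp']; exact i.1.2)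
      have hd2 : (sx (i.1 : Option (Fin n) →₀ ℕ) : ℝ) ≤ d := by
        exact_mod_cast (by omega : sx (i.1 : Option (Fin n) →₀ ℕ) ≤ d)
      have hd3 : ((i.1 : Option (Fin n) →₀ ℕ) none : ℝ) ≤ d := by
        exact_mod_cast (by omega : (i.1 : Option (Fin n) →₀ ℕ) none ≤ d)
      calc (ww (D' t).u i : ℝ) * (α' t : ℝ) ^ (q * (i.1 : Option (Fin n) →₀ ℕ) none)
          ≤ Real.exp ((sx (i.1 : Option (Fin n) →₀ ℕ) : ℝ) * L t) *
            Real.exp (((q * (i.1 : Option (Fin n) →₀ ℕ) none : ℕ) : ℝ) * L t) :=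
            mul_le_mul hw (hαk t _) (by positivity) (Real.exp_pos _).le
        _ ≤ Real.exp (C * L t) := by
            rw [← Real.exp_add]
            apply Real.exp_le_exp.2
            rw [← add_mul]
            apply mul_le_mul_of_nonneg_right _ (hLnn t)
            push_cast
            rw [hC]
            have e1 : (q : ℝ) * ((i.1 : Option (Fin n) →₀ ℕ) none : ℝ) ≤ q * d :=
              mul_le_mul_of_nonneg_left hd3 (Nat.cast_nonneg _)
            have e2 : (0 : ℝ) ≤ (Dw : ℝ) := Nat.cast_nonneg _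
            have e3 : (0 : ℝ) ≤ (q : ℝ) := Nat.cast_nonneg _
            linarith)
    (by
      intro t i
      push_cast
      refine (hαk t Dw).trans (Real.exp_le_exp.2 (mul_le_mul_of_nonneg_right ?_ (hLnn t)))
      rw [hC]
      have e1 : (0 : ℝ) ≤ (q : ℝ) * d := by positivity
      have e2 : (0 : ℝ) ≤ (d : ℝ) := Nat.cast_nonneg _
      have e3 : (0 : ℝ) ≤ (q : ℝ) := Nat.cast_nonneg _
      linarith)
    hδ0 hdec heq (θ p δc ^ q) ((θ_alg hp δc).pow _) (fun t => (h' t : ℚ) / g' t)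
    (hhS.div hL2 hgS) (fun t => α' t ^ q) (fun _ => 1) (fun t => smooth_pow (hαS t) _)
    (fun _ => smooth_one S)
    (by
      intro t
      push_cast
      refine (hαk t q).trans (Real.exp_le_exp.2 (mul_le_mul_of_nonneg_right ?_ (hLnn t)))
      rw [hC]
      have e1 : (0 : ℝ) ≤ (q : ℝ) * d := by positivity
      have e2 : (0 : ℝ) ≤ (d : ℝ) := Nat.cast_nonneg _
      have e3 : (0 : ℝ) ≤ (Dw : ℝ) := Nat.cast_nonneg _
      linarith)
    (fun t => (D' t).y)
    (by
      intro t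
      rw [hyW t, mul_pow]
      push_cast
      ring)
  refine ⟨φ ∘ ψ, hφ.comp hψ, ?_⟩
  rw [hLd, hD'] at hrel
  exact hrel

end Pool.Agent.H455.RT
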