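import Mathlib
import Pool.Agent.H455.RT5

set_option autoImplicit false

/-!
# Polynomials at sparse points: the last coordinate, and several of them
-/

open Finset Filter Topology

namespace Pool.Agent.H455.RT

open Pool.Agent.TH419.WI Pool.Agent.TH419.HX Pool.Agent.H455.VC
open Pool.Agent.Results.MP_821da1_nt.LaurentDichotomy (UnitOf NoLaurentCurve Qbar)

variable {n d r H : ℕ} {S : Finset ℕ} {η : ℝ}

/-- **Integral roots of tame polynomials at sparse points are sums of almost units**, on a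
subsequence. -/
theorem root_rel (hη : 0 < η) (hS : ∀ p ∈ S, p.Prime) (D : ℕ → Pt n d r H S η)
    (hL : Tendsto (fun t => Real.log ((D t).u 0)) atTop atTop)
    (hMS : Sub (fun t => Real.log ((D t).u 0)) fun t => (D t).M) :
    ∃ ψ : ℕ → ℕ, StrictMono ψ ∧ Rel S (fun t => Real.log ((D (ψ t)).u 0))
      (fun t => (D (ψ t)).y) := by
  classical
  obtain ⟨supp, -, hfr⟩ := freq_exists (finite_supports n d)
    (fun t a => (D t).F.support = a) (Eventually.of_forall fun t => ⟨(D t).F.support, by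
      intro m hm
      rw [Set.Finite.mem_toFinset]
      have h1 : m.degree ≤ (D t).F.totalDegree := MvPolynomial.le_totalDegree hm
      exact h1.trans (D t).hF, rfl⟩)
  obtain ⟨ψ1, hψ1, hψ1'⟩ := Filter.extraction_of_frequently_atTop hfr
  have hψ1t := hψ1.tendsto_atTop
  have hL1 : Tendsto (fun t => Real.log ((D (ψ1 t)).u 0)) atTop atTop := hL.comp hψ1t
  have hMS1 : Sub (fun t => Real.log ((D (ψ1 t)).u 0)) fun t => (D (ψ1 t)).M := hMS.comp hψ1t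
  have hyd := y_dec (fun t => D (ψ1 t)) hη hL1 hMS1 hψ1'
  obtain ⟨σs, hσs⟩ : ∃ σs : ℕ → ℝ, σs = fun t =>
    Real.log |((D (ψ1 t)).y : ℝ)| / Real.log ((D (ψ1 t)).u 0) := ⟨_, rfl⟩
  have hnn : ∀ t, 0 ≤ Real.log |((D (ψ1 t)).y : ℝ)| := by
    intro t
    by_cases h0 : (D (ψ1 t)).y = 0
    · rw [h0, Int.cast_zero, abs_zero, Real.log_zero]
    · apply Real.log_nonneg
      have : 1 ≤ |(D (ψ1 t)).y| := Int.one_le_abs h0
      exact_mod_cast this
  have hmem : ∀ᶠ t in atTop, σs t ∈ Set.Icc (0 : ℝ) (d + 1) := by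
    filter_upwards [hyd (-((d : ℝ) + 1)) (by linarith), hL1.eventually_gt_atTop 0] with t h1 h2
    rw [hσs]
    refine ⟨div_nonneg (hnn t) h2.le, ?_⟩
    simp only
    rw [div_le_iff₀ h2]
    rw [neg_mul, neg_neg] at h1
    by_cases h0 : |((D (ψ1 t)).y : ℝ)| = 0
    · rw [h0, Real.log_zero]
      positivity
    · have h3 := Real.log_le_log (lt_of_le_of_ne (abs_nonneg _) (Ne.symm h0)) h1
      rwa [Real.log_exp] at h3
  obtain ⟨σ, hσm, φ, hφ, hφσ⟩ := isCompact_Icc.tendsto_subseq' hmem.frequently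
  have hφt := hφ.tendsto_atTop
  have hL2 : Tendsto (fun t => Real.log ((D (ψ1 (φ t))).u 0)) atTop atTop := hL1.comp hφt
  have hMS2 : Sub (fun t => Real.log ((D (ψ1 (φ t))).u 0)) fun t => (D (ψ1 (φ t))).M :=
    hMS1.comp hφt
  have hlim : Tendsto (fun t => Real.log |((D (ψ1 (φ t))).y : ℝ)| /
      Real.log ((D (ψ1 (φ t))).u 0)) atTop (𝓝 σ) := by
    rw [hσs] at hφσ
    exact hφσ
  rcases eq_or_lt_of_le hσm.1 with h0 | hpos
  · refine ⟨ψ1 ∘ φ, hψ1.comp hφ, Rel.of_sub hL2 ?_⟩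
    intro ε hε
    rw [← h0] at hlim
    filter_upwards [hlim.eventually_lt_const hε, hL2.eventually_gt_atTop 0] with t h1 h2
    rw [div_lt_iff₀ h2] at h1
    show |((D (ψ1 (φ t))).y : ℝ)| ≤ _
    by_cases h3 : |((D (ψ1 (φ t))).y : ℝ)| = 0
    · rw [h3]
      exact (Real.exp_pos _).le
    · rw [← Real.exp_log (lt_of_le_of_ne (abs_nonneg _) (Ne.symm h3))]
      exact Real.exp_le_exp.2 h1.le
  · have hev : ∀ᶠ t in atTop, (D (ψ1 (φ t))).y ≠ 0 := by
      filter_upwards [hlim.eventually_const_lt hpos] with t h1 h2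
      rw [h2, Int.cast_zero, abs_zero, Real.log_zero, zero_div] at h1
      exact lt_irrefl _ h1
    obtain ⟨t0, ht0⟩ := eventually_atTop.1 hev
    obtain ⟨ψ3, hψ3⟩ : ∃ ψ3 : ℕ → ℕ, ψ3 = fun t => t + t0 := ⟨_, rfl⟩
    have hψ3m : StrictMono ψ3 := by
      rw [hψ3]
      intro a b hab
      simpa using hab
    have hψ3t := hψ3m.tendsto_atTop
    have hy0 : ∀ t, (D (ψ1 (φ (ψ3 t)))).y ≠ 0 := fun t => ht0 _ (by rw [hψ3]; simp)
    have hL3 : Tendsto (fun t => Real.log ((D (ψ1 (φ (ψ3 t)))).u 0)) atTop atTop :=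
      hL2.comp hψ3t
    have hMS3 : Sub (fun t => Real.log ((D (ψ1 (φ (ψ3 t)))).u 0))
        fun t => (D (ψ1 (φ (ψ3 t)))).M := hMS2.comp hψ3t
    have hlim3 : Tendsto (fun t => Real.log |((D (ψ1 (φ (ψ3 t)))).y : ℝ)| /
      Real.log ((D (ψ1 (φ (ψ3 t)))).u 0)) atTop (𝓝 σ) := hlim.comp hψ3t
    obtain ⟨p, q, hp, hq, hpq⟩ := edge_slope (fun t => D (ψ1 (φ (ψ3 t)))) hη hL3 hMS3
      (fun t => hψ1' _) (fun t => ((D (ψ1 (φ (ψ3 t)))).y : ℝ))
      (fun t => by exact_mod_cast hy0 t) (fun t => (D (ψ1 (φ (ψ3 t)))).hxy) hpos hlim3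
    obtain ⟨ψ4, hψ4, hrel⟩ := edge_case hη hS (fun t => D (ψ1 (φ (ψ3 t)))) hL3 hMS3
      (fun t => hψ1' _) hy0 hlim3 hp hq hpq
    exact ⟨fun t => ψ1 (φ (ψ3 (ψ4 t))), hψ1.comp (hφ.comp (hψ3m.comp hψ4)), hrel⟩

/-- sparse points and the integral points above them -/
structure Big (n m d r H : ℕ) (S : Finset ℕ) (η : ℝ) where
  M : ℝ
  V : Fin (r + 1) → Fin n → ℤ
  b : ℤ
  u : Fin (r + 1) → ℕ
  x : Fin n → ℤ
  F : Fin m → MvPolynomial (Option (Fin n)) ℤ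
  y : Fin m → ℤ
  hM : 1 ≤ M
  hu : ∀ i, Smooth S (u i)
  hdom : ∀ i, i ≠ 0 → (u i : ℝ) ≤ (u 0 : ℝ) ^ (1 - η)
  hV : ∀ i k, |(V i k : ℝ)| ≤ M
  hb : |(b : ℝ)| ≤ M
  hb0 : b ≠ 0
  hx : ∀ k, b * x k = ∑ i, V i k * (u i : ℤ)
  hF : ∀ j, (F j).totalDegree ≤ d
  hcoef : ∀ j m, |(((F j).coeff m : ℤ) : ℝ)| ≤ M
  hxy : ∀ j, val (F j) x (y j) = 0
  hne : ∀ j, ∃ Y : ℝ, val (F j) x Y ≠ 0
  tame : ∀ j, Tamex (F j) H M fun k => (V 0 k : ℚ) / b

variable {m : ℕ}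

/-- one of the coordinates -/
def Big.pt (P : Big n m d r H S η) (j : Fin m) : Pt n d r H S η where
  M := P.M
  V := P.V
  b := P.b
  u := P.u
  x := P.x
  F := P.F j
  y := P.y j
  hM := P.hM
  hu := P.hu
  hdom := P.hdom
  hV := P.hV
  hb := P.hb
  hb0 := P.hb0
  hx := P.hx
  hF := P.hF j
  hcoef := P.hcoef j
  hxy := P.hxy j
  hne := P.hne j
  tame := P.tame j

theorem all_rel (hη : 0 < η) (hS : ∀ p ∈ S, p.Prime) (D : ℕ → Big n m d r H S η)
    (hL : Tendsto (fun t => Real.log ((D t).u 0)) atTop atTop)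
    (hMS : Sub (fun t => Real.log ((D t).u 0)) fun t => (D t).M) :
    ∃ ψ : ℕ → ℕ, StrictMono ψ ∧ ∀ j, Rel S (fun t => Real.log ((D (ψ t)).u 0))
      (fun t => (D (ψ t)).y j) := by
  classical
  have key : ∀ s : Finset (Fin m), ∃ ψ : ℕ → ℕ, StrictMono ψ ∧ ∀ j ∈ s,
      Rel S (fun t => Real.log ((D (ψ t)).u 0)) (fun t => (D (ψ t)).y j) := by
    intro s
    induction s using Finset.induction_on with
    | empty => exact ⟨id, strictMono_id, by simp⟩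
    | insert j s hj ih =>
      obtain ⟨ψ, hψ, hrel⟩ := ih
      have hψt := hψ.tendsto_atTop
      obtain ⟨ψ', hψ', hrel'⟩ := root_rel hη hS (fun t => (D (ψ t)).pt j) (hL.comp hψt)
        (hMS.comp hψt)
      refine ⟨ψ ∘ ψ', hψ.comp hψ', fun i hi => ?_⟩
      rcases Finset.mem_insert.1 hi with h | h
      · rw [h]
        exact hrel'
      · exact (hrel i h).comp hψ'.tendsto_atTop
  obtain ⟨ψ, hψ, hrel⟩ := key Finset.univ
  exact ⟨ψ, hψ, fun j => hrel j (Finset.mem_univ j)⟩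

end Pool.Agent.H455.RT
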