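import Mathlib
import Pool.Agent.H455.RT6

set_option autoImplicit false

/-!
# Integral points above sparse points: heights
-/

open Finset Filter Topology

namespace Pool.Agent.H455.RT

open Pool.Agent.TH419.WI Pool.Agent.TH419.HX Pool.Agent.H455.VC
open Pool.Agent.Results.MP_821da1_nt.LaurentDichotomy (UnitOf)
open Pool.Agent.Q204.UF Pool.Agent.Y215.AF Pool.Agent.Helper259.AbsHt

/-- the heights of rational vectors of slow growth -/
theorem slow_height {L : ℕ → ℝ} (hL : Tendsto L atTop atTop) {τ : Type} [Fintype τ]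
    (q : ℕ → τ → ℚ) (hq : ∀ i, SlowQ L fun t => q t i) (ε : ℝ) (hε : 0 < ε) :
    ∀ᶠ t in atTop, hA (fun i => algebraMap ℚ Qbar (q t i)) ≤ ε * L t := by
  classical
  choose N D hN hD hq' using hq
  have hDp : Sub L fun t => ((∏ i, D i t : ℤ) : ℝ) := by
    refine (Sub.prod hL Finset.univ fun i _ => hD i).mono (Eventually.of_forall fun t => ?_)
    push_cast
    exact le_rfl
  have hAp : ∀ i, Sub L fun t => ((N i t * ∏ j ∈ Finset.univ.erase i, D j t : ℤ) : ℝ) := by
    intro i
    refine ((hN i).mul (Sub.prod hL (Finset.univ.erase i) fun j _ => hD j)).mono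
      (Eventually.of_forall fun t => ?_)
    push_cast
    exact le_rfl
  have hall : ∀ᶠ t in atTop, ∀ i, |((N i t * ∏ j ∈ Finset.univ.erase i, D j t : ℤ) : ℝ)| ≤
      Real.exp (ε / 2 * L t) := Filter.eventually_all.2 fun i => hAp i (ε / 2) (by positivity)
  filter_upwards [hDp (ε / 2) (by positivity), hall, ev_const_le hL 2 (ε / 2) (by positivity),
    hL.eventually_ge_atTop 0] with t h1 h2 h3 h4
  obtain ⟨P, hP⟩ : ∃ P : ℤ, P = ∏ i, D i t := ⟨_, rfl⟩
  obtain ⟨A, hA'⟩ : ∃ A : τ → ℤ, A = fun i => N i t * ∏ j ∈ Finset.univ.erase i, D j t :=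
    ⟨_, rfl⟩
  have hP0 : (P : Qbar) ≠ 0 := by
    have : P ≠ 0 := by rw [hP]; exact Finset.prod_ne_zero_iff.2 fun j _ => (hq' j t).1
    exact_mod_cast this
  have hqA : ∀ i, (P : Qbar) * algebraMap ℚ Qbar (q t i) = (A i : Qbar) := by
    intro i
    have e1 : (P : ℚ) * q t i = (A i : ℚ) := by
      have e0 : q t i = (N i t : ℚ) / (D i t : ℚ) := (hq' i t).2
      rw [e0, hP, hA', ← Finset.mul_prod_erase _ _ (Finset.mem_univ i)]
      have : (D i t : ℚ) ≠ 0 := by exact_mod_cast (hq' i t).1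
      push_cast
      field_simp
    have e2 := congrArg (algebraMap ℚ Qbar) e1
    rw [map_mul, map_intCast, map_intCast] at e2
    exact e2
  obtain ⟨M', hM'⟩ : ∃ M' : ℕ, M' = ⌈Real.exp (ε / 2 * L t)⌉₊ := ⟨_, rfl⟩
  have he1 : 1 ≤ Real.exp (ε / 2 * L t) := Real.one_le_exp (by positivity)
  have hM1 : 1 ≤ M' := by
    rw [hM']
    exact Nat.one_le_ceil_iff.2 (by positivity)
  have hint : ∀ z : ℤ, |(z : ℝ)| ≤ Real.exp (ε / 2 * L t) → |z| ≤ (M' : ℤ) := by
    intro z hz
    have : |(z : ℝ)| ≤ (M' : ℝ) := by rw [hM']; exact hz.trans (Nat.le_ceil _)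
    exact_mod_cast this
  have hb := hA_int_le (τ := Option τ) (fun o => o.elim P A) M' hM1 (by
    intro o
    cases o with
    | none => exact hint _ (by rw [hP]; exact h1)
    | some i => exact hint _ (by rw [hA']; exact h2 i))
  have hcmp : hA (fun i => algebraMap ℚ Qbar (q t i)) ≤
      hA (fun o : Option τ => ((o.elim P A : ℤ) : Qbar)) := by
    have e1 : hA (fun i => algebraMap ℚ Qbar (q t i)) =
        absLogHeight (fun o : Option τ => ((o.elim P A : ℤ) : Qbar)) := by
      unfold hA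
      rw [← absLogHeight_smul _ hP0]
      congr 1
      funext o
      cases o with
      | none => simp
      | some i => exact hqA i
    rw [e1]
    unfold hA
    exact absLogHeight_comp_le (fun o : Option τ => (some o : Option (Option τ)))
      (fun o : Option (Option τ) => o.elim (1 : Qbar) fun o => ((o.elim P A : ℤ) : Qbar))
  refine hcmp.trans (hb.trans ?_)
  have hM2 : (M' : ℝ) ≤ Real.exp (ε * L t) := by
    have h5 := Nat.ceil_lt_add_one (by linarith : 0 ≤ Real.exp (ε / 2 * L t))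
    rw [← hM'] at h5
    have h6 : Real.exp (ε * L t) = Real.exp (ε / 2 * L t) * Real.exp (ε / 2 * L t) := by
      rw [← Real.exp_add]; congr 1; ring
    rw [h6]
    nlinarith
  have hMpos : (0 : ℝ) < M' := by exact_mod_cast (by omega : 0 < M')
  have := Real.log_le_log hMpos hM2
  rwa [Real.log_exp] at this

/-- the point with the parameter `t` of a Laurent curve -/
noncomputable def curvePt {N : ℕ} (E : ℕ) (c : ℤ → Fin N → ℚ) (t : ℚ) : Fin N → ℚ :=
  fun a => ∑ k ∈ Finset.Icc (-(E : ℤ)) E, t ^ k * c k a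

/-- the point is on a nonconstant Laurent curve on `Φ = 0` -/
def OnCurve {N e : ℕ} (Φ : Fin e → MvPolynomial (Fin N) ℤ) (E : ℕ) (z : Fin N → ℤ) : Prop :=
  ∃ c : ℤ → Fin N → ℚ,
    (∀ t : ℚ, t ≠ 0 → ∀ i, MvPolynomial.aeval (curvePt E c t) (Φ i) = 0) ∧
    (∀ a, curvePt E c 1 a = z a) ∧ ∃ k ∈ Finset.Icc (-(E : ℤ)) E, k ≠ 0 ∧ c k ≠ 0

theorem onCurve_of {N e R : ℕ} (Φ : Fin e → MvPolynomial (Fin N) ℤ) (E : ℕ) (z : Fin N → ℤ)
    (w : Fin R → Fin N → ℚ) (hw : ∀ a, ∑ j, w j a = z a) (m : Fin R → ℤ) (hm : ∀ j, |m j| ≤ E)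
    (h : LCurve (fun i => MvPolynomial.map (algebraMap ℤ Qbar) (Φ i))
      (fun j a => algebraMap ℚ Qbar (w j a)) m) : OnCurve Φ E z := by
  classical
  obtain ⟨c, hc⟩ : ∃ c : ℤ → Fin N → ℚ, c = fun k a =>
    ∑ j ∈ Finset.univ.filter (fun j => m j = k), w j a := ⟨_, rfl⟩
  have hsum : ∀ (t : Qbar) (a : Fin N), ∑ k ∈ Finset.Icc (-(E : ℤ)) E,
      t ^ k * algebraMap ℚ Qbar (c k a) = ∑ j, t ^ m j * algebraMap ℚ Qbar (w j a) := by
    intro t a
    rw [← Finset.sum_fiberwise_of_maps_to (s := Finset.univ) (t := Finset.Icc (-(E : ℤ)) E)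
      (g := m) (fun j _ => Finset.mem_Icc.2 (abs_le.1 (hm j)))]
    refine Finset.sum_congr rfl fun k _ => ?_
    rw [hc, map_sum, Finset.mul_sum]
    refine Finset.sum_congr rfl fun j hj => ?_
    rw [(Finset.mem_filter.1 hj).2]
  have hmapc : ∀ (t : ℚ) (a : Fin N), algebraMap ℚ Qbar (curvePt E c t a) =
      ∑ k ∈ Finset.Icc (-(E : ℤ)) E, (algebraMap ℚ Qbar t) ^ k * algebraMap ℚ Qbar (c k a) := by
    intro t a
    rw [curvePt, map_sum]
    refine Finset.sum_congr rfl fun k _ => ?_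
    rw [map_mul, map_zpow₀]
  refine ⟨c, fun t ht i => ?_, fun a => ?_, ?_⟩
  · have h1 := h.1 (algebraMap ℚ Qbar t) ((map_ne_zero _).2 ht) i
    rw [MvPolynomial.aeval_map_algebraMap] at h1
    have h2 : (fun a => ∑ j, (algebraMap ℚ Qbar t) ^ m j * algebraMap ℚ Qbar (w j a)) =
        fun a => algebraMap ℚ Qbar (curvePt E c t a) := by
      funext a
      rw [hmapc, hsum]
    rw [h2] at h1
    have h3 := MvPolynomial.aeval_algebraMap_apply Qbar (curvePt E c t) (Φ i)
    have h4 : algebraMap ℚ Qbar (MvPolynomial.aeval (curvePt E c t) (Φ i)) = 0 := by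
      rw [← h3]
      exact h1
    exact (map_eq_zero _).1 h4
  · have h1 := hsum 1 a
    simp only [one_zpow, one_mul] at h1
    have h2 := hmapc 1 a
    simp only [map_one, one_zpow, one_mul] at h2
    rw [h1, ← map_sum, hw] at h2
    exact (algebraMap ℚ Qbar).injective h2
  · by_contra hcon
    push Not at hcon
    obtain ⟨t, ht, hne⟩ := h.2
    apply hne
    funext a
    have h1 : ∀ s : Qbar, s ≠ 0 → ∑ k ∈ Finset.Icc (-(E : ℤ)) E,
        s ^ k * algebraMap ℚ Qbar (c k a) = algebraMap ℚ Qbar (c 0 a) := by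
      intro s _
      rw [Finset.sum_eq_single 0]
      · rw [zpow_zero, one_mul]
      · intro k hk hk0
        rw [hcon k hk hk0, Pi.zero_apply, map_zero, mul_zero]
      · intro h0
        exact absurd (Finset.mem_Icc.2 ⟨by omega, by omega⟩) h0
    have h2 := hsum 1 a
    simp only [one_zpow, one_mul] at h2
    have h3 := h1 1 one_ne_zero
    simp only [one_zpow, one_mul] at h3
    rw [← hsum t a, h1 t ht, ← h2, h3]

variable {n m d r H : ℕ} {S : Finset ℕ} {η : ℝ}

/-- the point -/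
def Big.z (P : Big n m d r H S η) : Fin (n + m) → ℤ := Fin.append P.x P.y

/-- **No sequences of large points above sparse points.** -/
theorem noseq_big (hη : 0 < η) (hS : ∀ p ∈ S, p.Prime) {e : ℕ} (D : ℕ → Big n m d r H S η)
    (Φ : ℕ → Fin e → MvPolynomial (Fin (n + m)) ℤ) (hΦd : ∀ t i, (Φ t i).totalDegree ≤ d)
    (hΦc : ∀ t i α, |(((Φ t i).coeff α : ℤ) : ℝ)| ≤ (D t).M)
    (hΦ0 : ∀ t i, MvPolynomial.aeval (D t).z (Φ t i) = 0) (hV0 : ∀ t, (D t).V 0 ≠ 0)
    (hL : Tendsto (fun t => Real.log ((D t).u 0)) atTop atTop)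
    (hMS : Sub (fun t => Real.log ((D t).u 0)) fun t => (D t).M)
    (hno : ∀ t, ¬ OnCurve (Φ t) t (D t).z) : False := by
  classical
  obtain ⟨ψ, hψ, hrel⟩ := all_rel hη hS D hL hMS
  have hψt := hψ.tendsto_atTop
  obtain ⟨L, hLd⟩ : ∃ L : ℕ → ℝ, L = fun t => Real.log ((D (ψ t)).u 0) := ⟨_, rfl⟩
  have hL1 : Tendsto (fun t => Real.log ((D (ψ t)).u 0)) atTop atTop := hL.comp hψt
  have hM1 : Sub (fun t => Real.log ((D (ψ t)).u 0)) fun t => (D (ψ t)).M := hMS.comp hψt
  choose Nf v c hv hc hy using hrel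
  let J : Type := Fin (r + 1) ⊕ (Σ j : Fin m, Fin (Nf j))
  let eJ : Fin (Fintype.card J) ≃ J := (Fintype.equivFin J).symm
  let u' : ℕ → J → ℚ := fun t => Sum.elim (fun i => ((D (ψ t)).u i : ℚ)) fun js => v js.1 t js.2
  let V' : ℕ → J → Fin (n + m) → ℚ := fun t => Sum.elim
    (fun i => Fin.append (fun k => ((D (ψ t)).V i k : ℚ) / (D (ψ t)).b) (fun _ => 0))
    (fun js => Fin.append (fun _ => 0) (fun j => if j = js.1 then c js.1 t js.2 else 0))
  have hsum : ∀ t a, ∑ j : J, u' t j * V' t j a = ((D (ψ t)).z a : ℚ) := by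
    intro t a
    have hb : ((D (ψ t)).b : ℚ) ≠ 0 := by exact_mod_cast (D (ψ t)).hb0
    refine Fin.addCases (fun k => ?_) (fun j => ?_) a
    · show ∑ j : Fin (r + 1) ⊕ (Σ j : Fin m, Fin (Nf j)), u' t j * V' t j (Fin.castAdd m k) = _
      rw [Fintype.sum_sum_type]
      simp only [u', V', Sum.elim_inl, Sum.elim_inr, Fin.append_left, mul_zero,
        Finset.sum_const_zero, add_zero, Big.z]
      have h1 : ((D (ψ t)).b : ℚ) * ((D (ψ t)).x k : ℚ) = ∑ i, ((D (ψ t)).V i k : ℚ) *
          ((D (ψ t)).u i : ℚ) := by exact_mod_cast (D (ψ t)).hx k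
      have h2 : ∑ i, ((D (ψ t)).u i : ℚ) * (((D (ψ t)).V i k : ℚ) / (D (ψ t)).b) =
          (∑ i, ((D (ψ t)).V i k : ℚ) * ((D (ψ t)).u i : ℚ)) / (D (ψ t)).b := by
        rw [Finset.sum_div]
        exact Finset.sum_congr rfl fun i _ => by ring
      rw [h2, ← h1]
      field_simp
    · show ∑ j' : Fin (r + 1) ⊕ (Σ j : Fin m, Fin (Nf j)), u' t j' * V' t j' (Fin.natAdd n j) = _
      rw [Fintype.sum_sum_type]
      simp only [u', V', Sum.elim_inl, Sum.elim_inr, Fin.append_right, mul_zero,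
        Finset.sum_const_zero, zero_add, Big.z]
      rw [Fintype.sum_sigma, Finset.sum_eq_single j]
      · simp only [if_true]
        rw [hy j t]
        exact Finset.sum_congr rfl fun i _ => mul_comm _ _
      · intro j' _ hj'
        simp [Ne.symm hj']
      · intro h
        exact absurd (Finset.mem_univ _) h
  have hu'U : ∀ t j, UnitOf S (u' t j) := by
    intro t j
    rcases j with i | js
    · exact unitOf_smooth ((D (ψ t)).hu i)
    · exact hv js.1 t js.2
  have hSne : ∀ p ∈ S, p ≠ 0 := fun p hp => (hS p hp).ne_zero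
  have hu'0 : ∀ t j, u' t j ≠ 0 := by
    intro t j h0
    obtain ⟨ex, hex⟩ := hu'U t j
    rw [h0, abs_zero] at hex
    exact (Finset.prod_ne_zero_iff.2 fun p hp => zpow_ne_zero _
      (Nat.cast_ne_zero.2 (hSne p hp))) hex.symm
  have hV'S : ∀ (p : Fin (Fintype.card J) × Fin (n + m)), SlowQ
      (fun t => Real.log ((D (ψ t)).u 0)) fun t => V' t (eJ p.1) p.2 := by
    rintro ⟨j0, a⟩
    show SlowQ _ fun t => V' t (eJ j0) a
    generalize eJ j0 = j
    rcases j with i | js
    · refine Fin.addCases (fun k => ?_) (fun j => ?_) a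
      · simp only [V', Sum.elim_inl, Fin.append_left]
        exact (SlowQ.int hL1 (hM1.mono (Eventually.of_forall fun t => by
          rw [abs_of_nonneg (by have := (D (ψ t)).hM; linarith : (0 : ℝ) ≤ (D (ψ t)).M)]
          exact (D (ψ t)).hV i k))).div hL1
          (SlowQ.int hL1 (hM1.mono (Eventually.of_forall fun t => by
          rw [abs_of_nonneg (by have := (D (ψ t)).hM; linarith : (0 : ℝ) ≤ (D (ψ t)).M)]
          exact (D (ψ t)).hb)))
      · simp only [V', Sum.elim_inl, Fin.append_right]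
        exact SlowQ.const hL1 0
    · refine Fin.addCases (fun k => ?_) (fun j => ?_) a
      · simp only [V', Sum.elim_inr, Fin.append_left]
        exact SlowQ.const hL1 0
      · simp only [V', Sum.elim_inr, Fin.append_right]
        by_cases hj : j = js.1
        · simp only [if_pos hj]
          exact hc js.1 js.2
        · simp only [if_neg hj]
          exact SlowQ.const hL1 0
  obtain ⟨C, hC0, hC⟩ := aff_heights (n := n + m) (q := e) (r := Fintype.card J) (d + 1)
    (by omega) (grpS S) (grpS_fg S)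
  -- the heights of the points grow slowly
  have hht : ∀ ε : ℝ, 0 < ε → ∀ᶠ t in atTop,
      hA (fun a => (((D (ψ t)).z a : ℤ) : Qbar)) ≤ ε * Real.log ((D (ψ t)).u 0) := by
    intro ε hε
    obtain ⟨ε', hε'⟩ : ∃ ε' : ℝ, ε' = ε / (4 * (C + 1)) := ⟨_, rfl⟩
    have hε'pos : 0 < ε' := by rw [hε']; positivity
    filter_upwards [slow_height hL1 (fun t (p : Fin (Fintype.card J) × Fin (n + m)) =>
      V' t (eJ p.1) p.2) hV'S ε' hε'pos, hM1 ε' hε'pos, ev_const_le hL1 2 ε' hε'pos,
      hψt.eventually_ge_atTop (expB (d + 1) (Fintype.card J + 1)),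
      (hL1.const_mul_atTop hε'pos).eventually_ge_atTop 1] with t h1 h2 h3 h4 h5
    have hM := (D (ψ t)).hM
    rw [abs_of_nonneg (by linarith : (0 : ℝ) ≤ (D (ψ t)).M)] at h2
    have huQ : ∀ j, algebraMap ℚ Qbar (u' t (eJ j)) ≠ 0 := fun j =>
      (map_ne_zero _).2 (hu'0 t _)
    obtain ⟨U, hU⟩ : ∃ U : Fin (Fintype.card J) → Qbarˣ, ∀ j, (U j : Qbar) =
      algebraMap ℚ Qbar (u' t (eJ j)) := ⟨fun j => Units.mk0 _ (huQ j), fun j => rfl⟩
    have hpt : (fun a => ∑ j, (U j : Qbar) * algebraMap ℚ Qbar (V' t (eJ j) a)) =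
        fun a => (((D (ψ t)).z a : ℤ) : Qbar) := by
      funext a
      have e1 : ∑ j, (U j : Qbar) * algebraMap ℚ Qbar (V' t (eJ j) a) =
          algebraMap ℚ Qbar (∑ j : J, u' t j * V' t j a) := by
        rw [map_sum, ← Equiv.sum_comp eJ]
        refine Finset.sum_congr rfl fun j _ => ?_
        rw [hU, map_mul]
      rw [e1, hsum, map_intCast]
    have hmain := hC (fun i => MvPolynomial.map (algebraMap ℤ Qbar) (Φ (ψ t) i)) U
      (fun j a => algebraMap ℚ Qbar (V' t (eJ j) a))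
      (fun i => (Finset.sup_mono (MvPolynomial.support_map_subset _ _)).trans
        ((hΦd (ψ t) i).trans (by omega)))
      (fun j => ⟨1, one_pos, by
        rw [pow_one]
        obtain ⟨ex, hex⟩ := hu'U t (eJ j)
        exact mem_grpS S hSne _ _ (hU j) ex hex⟩)
      (fun i => by
        rw [hpt, MvPolynomial.aeval_map_algebraMap]
        have e1 := congrArg (algebraMap ℤ Qbar) (hΦ0 (ψ t) i)
        rw [map_zero, ← MvPolynomial.aeval_algebraMap_apply] at e1
        have e2 : (fun a => (((D (ψ t)).z a : ℤ) : Qbar)) = algebraMap ℤ Qbar ∘ (D (ψ t)).z := by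
          funext a
          simp
        rw [e2]
        exact e1)
      (fun mm hmm hcur => by
        refine hno (ψ t) (onCurve_of (Φ (ψ t)) (ψ t) (D (ψ t)).z
          (fun j a => u' t (eJ j) * V' t (eJ j) a) (fun a => ?_) mm (fun j => ?_) ?_)
        · rw [← hsum t a, ← Equiv.sum_comp eJ]
        · refine (hmm j).trans ?_
          exact_mod_cast h4
        · have e3 : (fun j a => (U j : Qbar) * algebraMap ℚ Qbar (V' t (eJ j) a)) =
              fun j a => algebraMap ℚ Qbar (u' t (eJ j) * V' t (eJ j) a) := by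
            funext j a
            rw [map_mul, hU]
          rw [e3] at hcur
          exact hcur)
    rw [hpt] at hmain
    have hF : hFc (d + 1) (fun i => MvPolynomial.map (algebraMap ℤ Qbar) (Φ (ψ t) i)) ≤
        2 * (ε' * Real.log ((D (ψ t)).u 0)) := by
      obtain ⟨M', hM'⟩ : ∃ M' : ℕ, M' = ⌈(D (ψ t)).M⌉₊ := ⟨_, rfl⟩
      have hM'1 : 1 ≤ M' := by rw [hM']; exact Nat.one_le_ceil_iff.2 (by linarith)
      have e1 := hA_int_le (τ := Fin e × AI (n + m) (d + 1))
        (fun x => (Φ (ψ t) x.1).coeff x.2.1) M' hM'1 (by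
          intro x
          have e2 := hΦc (ψ t) x.1 x.2.1
          have e3 : |(((Φ (ψ t) x.1).coeff x.2.1 : ℤ) : ℝ)| ≤ (M' : ℝ) := by
            rw [hM']; exact e2.trans (Nat.le_ceil _)
          exact_mod_cast e3)
      have e2 : hFc (d + 1) (fun i => MvPolynomial.map (algebraMap ℤ Qbar) (Φ (ψ t) i)) =
          hA (fun x : Fin e × AI (n + m) (d + 1) => (((Φ (ψ t) x.1).coeff x.2.1 : ℤ) : Qbar)) := by
        unfold hFc
        congr 1
      rw [e2]
      refine e1.trans ?_
      have e3 : (M' : ℝ) ≤ 2 * (D (ψ t)).M := by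
        have := Nat.ceil_lt_add_one (by linarith : 0 ≤ (D (ψ t)).M)
        rw [← hM'] at this
        linarith
      have e4 : (M' : ℝ) ≤ Real.exp (2 * (ε' * Real.log ((D (ψ t)).u 0))) := by
        rw [two_mul, Real.exp_add]
        refine e3.trans (mul_le_mul h3 h2 (by linarith) (Real.exp_pos _).le)
      have hpos : (0 : ℝ) < M' := by exact_mod_cast (by omega : 0 < M')
      have e5 := Real.log_le_log hpos e4
      rwa [Real.log_exp] at e5
    have hV : hAV (fun j a => algebraMap ℚ Qbar (V' t (eJ j) a)) ≤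
        ε' * Real.log ((D (ψ t)).u 0) := h1
    refine hmain.trans ?_
    have e6 : 1 + hFc (d + 1) (fun i => MvPolynomial.map (algebraMap ℤ Qbar) (Φ (ψ t) i)) +
        hAV (fun j a => algebraMap ℚ Qbar (V' t (eJ j) a)) ≤
        4 * (ε' * Real.log ((D (ψ t)).u 0)) := by linarith
    have e7 : 0 ≤ ε' * Real.log ((D (ψ t)).u 0) := by linarith
    calc C * _ ≤ C * (4 * (ε' * Real.log ((D (ψ t)).u 0))) :=
          mul_le_mul_of_nonneg_left e6 hC0
      _ ≤ (C + 1) * (4 * (ε' * Real.log ((D (ψ t)).u 0))) :=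
          mul_le_mul_of_nonneg_right (by linarith) (by linarith)
      _ = ε * Real.log ((D (ψ t)).u 0) := by
          rw [hε']
          field_simp
  have hxS : ∀ k, Sub (fun t => Real.log ((D (ψ t)).u 0)) fun t => ((D (ψ t)).x k : ℝ) := by
    intro k ε hε
    filter_upwards [hht ε hε] with t ht
    have h1 := le_hA_int (fun a => (D (ψ t)).z a) (Fin.castAdd m k)
    have h2 : (D (ψ t)).z (Fin.castAdd m k) = (D (ψ t)).x k := by
      simp [Big.z]
    rw [h2] at h1
    exact h1.trans (Real.exp_le_exp.2 ht)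
  -- the first vector is small
  obtain ⟨η', hη'd⟩ : ∃ η' : ℝ, η' = min η 1 := ⟨_, rfl⟩
  have hη' : 0 < η' := by rw [hη'd]; exact lt_min hη one_pos
  have hη'1 : η' ≤ 1 := by rw [hη'd]; exact min_le_right _ _
  have hη'η : η' ≤ η := by rw [hη'd]; exact min_le_left _ _
  have hVk : ∀ k, Dec (fun t => Real.log ((D (ψ t)).u 0)) η'
      fun t => ((D (ψ t)).V 0 k : ℝ) := by
    intro k
    have hVS : ∀ i, Sub (fun t => Real.log ((D (ψ t)).u 0)) fun t => ((D (ψ t)).V i k : ℝ) :=
      fun i => hM1.mono (Eventually.of_forall fun t => by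
        rw [abs_of_nonneg (by have := (D (ψ t)).hM; linarith : (0 : ℝ) ≤ (D (ψ t)).M)]
        exact (D (ψ t)).hV i k)
    have hbS : Sub (fun t => Real.log ((D (ψ t)).u 0)) fun t => ((D (ψ t)).b : ℝ) :=
      hM1.mono (Eventually.of_forall fun t => by
        rw [abs_of_nonneg (by have := (D (ψ t)).hM; linarith : (0 : ℝ) ≤ (D (ψ t)).M)]
        exact (D (ψ t)).hb)
    have h1 : Dec (fun t => Real.log ((D (ψ t)).u 0)) (-(1 - η')) fun t =>
        ((D (ψ t)).b : ℝ) * (D (ψ t)).x k := by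
      have h2 := Dec.mul (dec_zero_iff.2 hbS) (dec_zero_iff.2 (hxS k))
      exact h2.mono_exp (by linarith)
    have h2 : Dec (fun t => Real.log ((D (ψ t)).u 0)) (-(1 - η')) fun t =>
        ∑ i ∈ Finset.univ.erase (0 : Fin (r + 1)), ((D (ψ t)).V i k : ℝ) * (D (ψ t)).u i := by
      refine Dec.sum hL1 _ fun i hi => ?_
      have h3 := Dec.mul (dec_zero_iff.2 (hVS i)) (dec_of_exp hL1 (1 - η)
        (f := fun t => ((D (ψ t)).u i : ℝ)) (Eventually.of_forall fun t => by
          rw [abs_of_nonneg (Nat.cast_nonneg _)]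
          have h4 := (D (ψ t)).hdom i (Finset.ne_of_mem_erase hi)
          refine h4.trans (le_of_eq ?_)
          have h5 : (1 : ℝ) ≤ (D (ψ t)).u 0 := by
            have : 1 ≤ (D (ψ t)).u 0 := Nat.one_le_iff_ne_zero.2 ((D (ψ t)).hu 0).1
            exact_mod_cast this
          rw [Real.rpow_def_of_pos (by linarith), mul_comm]))
      exact h3.mono_exp (by linarith)
    have h3 := Dec.mul (Dec.add hL1 h1 h2.neg) (dec_exp hL1 1)
    refine (h3.mono_exp (by linarith)).mono (Eventually.of_forall fun t => le_of_eq ?_)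
    congr 1
    have h5 : (1 : ℝ) ≤ (D (ψ t)).u 0 := by
      have : 1 ≤ (D (ψ t)).u 0 := Nat.one_le_iff_ne_zero.2 ((D (ψ t)).hu 0).1
      exact_mod_cast this
    have h6 : ((D (ψ t)).b : ℝ) * (D (ψ t)).x k = ∑ i, ((D (ψ t)).V i k : ℝ) * (D (ψ t)).u i := by
      exact_mod_cast (D (ψ t)).hx k
    rw [h6, ← Finset.add_sum_erase _ _ (Finset.mem_univ (0 : Fin (r + 1))), one_mul,
      Real.exp_neg, Real.exp_log (by linarith)]
    field_simp
    ring
  have hone : Dec (fun t => Real.log ((D (ψ t)).u 0)) η'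
      fun t => ∑ k, |((D (ψ t)).V 0 k : ℝ)| := by
    refine Dec.sum hL1 _ fun k _ => (hVk k).mono (Eventually.of_forall fun t => ?_)
    rw [abs_abs]
  have h0 := hone.tendsto hL1 hη'
  have h1 : ∀ t, (1 : ℝ) ≤ ∑ k, |((D (ψ t)).V 0 k : ℝ)| := by
    intro t
    obtain ⟨k, hk⟩ : ∃ k, (D (ψ t)).V 0 k ≠ 0 := by
      by_contra hcon
      push Not at hcon
      exact hV0 (ψ t) (funext hcon)
    have h2 : (1 : ℝ) ≤ |((D (ψ t)).V 0 k : ℝ)| := by
      have : 1 ≤ |(D (ψ t)).V 0 k| := Int.one_le_abs hk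
      exact_mod_cast this
    exact h2.trans (Finset.single_le_sum (f := fun k => |((D (ψ t)).V 0 k : ℝ)|)
      (fun _ _ => abs_nonneg _) (Finset.mem_univ k))
  exact absurd (ge_of_tendsto' h0 h1) (by norm_num)

end Pool.Agent.H455.RT
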