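import Mathlib
import Pool.Agent.H455.RT7

set_option autoImplicit false

/-!
# Integral points above sparse points: sizes, bounded leading forms
-/

open Finset Filter Topology

namespace Pool.Agent.H455.RT

open Pool.Agent.TH419.WI Pool.Agent.TH419.HX Pool.Agent.H455.VC

variable {n m d r H : ℕ} {S : Finset ℕ} {η : ℝ}

/-- the number of the monomials of degree at most `d` -/
noncomputable def nmx (n d : ℕ) : ℕ :=
  (Finsupp.finite_of_degree_le (σ := Option (Fin n)) d).toFinset.card

theorem card_supp_le {F : MvPolynomial (Option (Fin n)) ℤ} (hF : F.totalDegree ≤ d) :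
    F.support.card ≤ nmx n d := by
  refine Finset.card_le_card fun m hm => ?_
  rw [Set.Finite.mem_toFinset]
  have h1 : m.degree ≤ F.totalDegree := MvPolynomial.le_totalDegree hm
  exact h1.trans hF

theorem nmx_pos (n d : ℕ) : (1 : ℝ) ≤ nmx n d := by
  have : 0 < nmx n d := Finset.card_pos.2 ⟨0, by
    rw [Set.Finite.mem_toFinset]
    show (0 : Option (Fin n) →₀ ℕ).degree ≤ d
    simp⟩
  exact_mod_cast this

theorem x_le_big (hη : 0 < η) (P : Big n m d r H S η) (k : Fin n) :
    |(P.x k : ℝ)| ≤ ((r : ℝ) + 1) * P.M * P.u 0 := by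
  have hb1 : (1 : ℝ) ≤ |(P.b : ℝ)| := by
    have : 1 ≤ |P.b| := Int.one_le_abs P.hb0
    exact_mod_cast this
  have hu1 : (1 : ℝ) ≤ P.u 0 := by
    have : 1 ≤ P.u 0 := Nat.one_le_iff_ne_zero.2 (P.hu 0).1
    exact_mod_cast this
  have hui : ∀ i, (P.u i : ℝ) ≤ P.u 0 := by
    intro i
    by_cases hi : i = 0
    · rw [hi]
    · refine (P.hdom i hi).trans ?_
      calc (P.u 0 : ℝ) ^ (1 - η) ≤ (P.u 0 : ℝ) ^ (1 : ℝ) :=
            Real.rpow_le_rpow_of_exponent_le hu1 (by linarith)
        _ = P.u 0 := Real.rpow_one _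
  have h1 : (P.b : ℝ) * (P.x k : ℝ) = ∑ i, (P.V i k : ℝ) * (P.u i : ℝ) := by
    exact_mod_cast P.hx k
  have hM := P.hM
  calc |(P.x k : ℝ)| ≤ |(P.b : ℝ)| * |(P.x k : ℝ)| :=
        le_mul_of_one_le_left (abs_nonneg _) hb1
    _ = |∑ i, (P.V i k : ℝ) * (P.u i : ℝ)| := by rw [← abs_mul, h1]
    _ ≤ ∑ i, |(P.V i k : ℝ) * (P.u i : ℝ)| := Finset.abs_sum_le_sum_abs _ _
    _ ≤ ∑ _i : Fin (r + 1), P.M * P.u 0 := by
        refine Finset.sum_le_sum fun i _ => ?_
        rw [abs_mul, abs_of_nonneg (Nat.cast_nonneg _ : (0:ℝ) ≤ (P.u i : ℝ))]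
        exact mul_le_mul (P.hV i k) (hui i) (Nat.cast_nonneg _) (by linarith)
    _ = ((r : ℝ) + 1) * P.M * P.u 0 := by
        rw [Finset.sum_const, Finset.card_univ, Fintype.card_fin, nsmul_eq_mul]
        push_cast
        ring

theorem z_le_big (hη : 0 < η) (P : Big n m d r H S η) (a : Fin (n + m)) :
    |(P.z a : ℝ)| ≤ nmx n d * P.M * (((r : ℝ) + 1) * P.M * P.u 0) ^ (d + 1) := by
  have hn := nmx_pos n d
  have hM := P.hM
  have hu1 : (1 : ℝ) ≤ P.u 0 := by
    have : 1 ≤ P.u 0 := Nat.one_le_iff_ne_zero.2 (P.hu 0).1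
    exact_mod_cast this
  have hX : 1 ≤ ((r : ℝ) + 1) * P.M * P.u 0 := by
    have hr : (1 : ℝ) ≤ (r : ℝ) + 1 := by
      have : (0 : ℝ) ≤ r := Nat.cast_nonneg _
      linarith
    exact one_le_mul_of_one_le_of_one_le (one_le_mul_of_one_le_of_one_le hr hM) hu1
  refine Fin.addCases (fun k => ?_) (fun j => ?_) a
  · have h1 : P.z (Fin.castAdd m k) = P.x k := by simp [Big.z]
    rw [h1]
    calc |(P.x k : ℝ)| ≤ ((r : ℝ) + 1) * P.M * P.u 0 := x_le_big hη P k
      _ ≤ (((r : ℝ) + 1) * P.M * P.u 0) ^ (d + 1) := le_self_pow₀ hX (by omega)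
      _ ≤ nmx n d * P.M * (((r : ℝ) + 1) * P.M * P.u 0) ^ (d + 1) :=
          le_mul_of_one_le_left (by positivity) (one_le_mul_of_one_le_of_one_le hn hM)
  · have h1 : P.z (Fin.natAdd n j) = P.y j := by simp [Big.z]
    rw [h1]
    have h2 := y_bound (P.pt j)
    have h3 : |((P.pt j).y : ℝ)| = |(P.y j : ℝ)| := rfl
    rw [h3] at h2
    refine h2.trans ?_
    calc ∑ m ∈ (P.F j).support, |(((P.F j).coeff m : ℤ) : ℝ)| *
          ∏ k, |(P.x k : ℝ)| ^ m (some k)
        ≤ ∑ _m ∈ (P.F j).support, P.M * (((r : ℝ) + 1) * P.M * P.u 0) ^ (d + 1) := by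
          refine Finset.sum_le_sum fun m hm => ?_
          refine mul_le_mul (P.hcoef j m) ?_ (by positivity) (by linarith)
          calc ∏ k, |(P.x k : ℝ)| ^ m (some k)
              ≤ ∏ k, (((r : ℝ) + 1) * P.M * P.u 0) ^ m (some k) :=
                Finset.prod_le_prod (fun _ _ => by positivity) fun k _ =>
                  pow_le_pow_left₀ (abs_nonneg _) (x_le_big hη P k) _
            _ = (((r : ℝ) + 1) * P.M * P.u 0) ^ (∑ k, m (some k)) :=
                Finset.prod_pow_eq_pow_sum _ _ _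
            _ ≤ (((r : ℝ) + 1) * P.M * P.u 0) ^ (d + 1) := by
                refine pow_le_pow_right₀ hX ?_
                have h5 : (∑ k, m (some k)) + m none ≤ d := exp_le_deg (P.hF j) hm
                omega
      _ = (P.F j).support.card * (P.M * (((r : ℝ) + 1) * P.M * P.u 0) ^ (d + 1)) := by
          rw [Finset.sum_const, nsmul_eq_mul]
      _ ≤ nmx n d * (P.M * (((r : ℝ) + 1) * P.M * P.u 0) ^ (d + 1)) := by
          refine mul_le_mul_of_nonneg_right ?_ (by positivity)
          exact_mod_cast card_supp_le (P.hF j)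
      _ = nmx n d * P.M * (((r : ℝ) + 1) * P.M * P.u 0) ^ (d + 1) := by ring

/-- the sizes -/
theorem sizes_big (hη : 0 < η) (D : ℕ → Big n m d r H S η)
    (hbig : ∀ t, ∃ a, (2 * (D t).M) ^ t < |((D t).z a : ℝ)|) :
    Tendsto (fun t => Real.log ((D t).u 0)) atTop atTop ∧
      Sub (fun t => Real.log ((D t).u 0)) fun t => (D t).M := by
  obtain ⟨K, hK⟩ : ∃ K : ℝ, K = nmx n d * ((r : ℝ) + 1) ^ (d + 1) := ⟨_, rfl⟩
  have hn := nmx_pos n d
  have hr : (1 : ℝ) ≤ (r : ℝ) + 1 := by
    have : (0 : ℝ) ≤ r := Nat.cast_nonneg _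
    linarith
  have hK1 : 1 ≤ K := by
    rw [hK]; exact one_le_mul_of_one_le_of_one_le hn (one_le_pow₀ hr)
  have hl2 : 0 < Real.log 2 := Real.log_pos (by norm_num)
  have hlM : ∀ t, 0 ≤ Real.log (D t).M := fun t => Real.log_nonneg (D t).hM
  have key : ∀ t : ℕ, (t : ℝ) * Real.log 2 - Real.log K + ((t : ℝ) - d - 2) * Real.log (D t).M ≤
      (d + 1) * Real.log ((D t).u 0) := by
    intro t
    obtain ⟨a, ha⟩ := hbig t
    have h1 := ha.le.trans (z_le_big hη (D t) a)
    have hM := (D t).hM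
    have hu1 : (1 : ℝ) ≤ (D t).u 0 := by
      have : 1 ≤ (D t).u 0 := Nat.one_le_iff_ne_zero.2 ((D t).hu 0).1
      exact_mod_cast this
    have h2 : nmx n d * (D t).M * (((r : ℝ) + 1) * (D t).M * (D t).u 0) ^ (d + 1) =
        K * (D t).M ^ (d + 2) * ((D t).u 0 : ℝ) ^ (d + 1) := by
      rw [hK, mul_pow, mul_pow]
      ring
    rw [h2] at h1
    have h3 := Real.log_le_log (by positivity) h1
    rw [Real.log_pow, Real.log_mul (by norm_num) (by linarith), Real.log_mul (by positivity)
      (by positivity), Real.log_mul (by positivity) (by positivity), Real.log_pow,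
      Real.log_pow] at h3
    push_cast at h3
    linarith
  constructor
  · have h1 : Tendsto (fun t : ℕ => ((t : ℝ) * Real.log 2 - Real.log K) / ((d : ℝ) + 1))
        atTop atTop := by
      refine Tendsto.atTop_div_const (by positivity) ?_
      exact tendsto_atTop_add_const_right atTop (-Real.log K)
        (tendsto_natCast_atTop_atTop.atTop_mul_const hl2)
    refine tendsto_atTop_mono' atTop ?_ h1
    filter_upwards [eventually_ge_atTop (d + 2)] with t ht
    rw [div_le_iff₀ (by positivity)]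
    have h2 := key t
    have h3 : (0 : ℝ) ≤ (t : ℝ) - d - 2 := by
      have : ((d + 2 : ℕ) : ℝ) ≤ t := by exact_mod_cast ht
      push_cast at this
      linarith
    have h4 := mul_nonneg h3 (hlM t)
    linarith
  · intro ε hε
    obtain ⟨t1, ht1⟩ := exists_nat_ge (((d : ℝ) + 1) / ε + d + 2 + Real.log K / Real.log 2)
    filter_upwards [eventually_ge_atTop t1] with t ht
    have h0 : (t1 : ℝ) ≤ t := by exact_mod_cast ht
    have hKl : 0 ≤ Real.log K := Real.log_nonneg hK1
    have hd1 : 0 ≤ ((d : ℝ) + 1) / ε := by positivity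
    have hd2 : 0 ≤ Real.log K / Real.log 2 := by positivity
    have h1 : Real.log K ≤ t * Real.log 2 := by
      have : Real.log K / Real.log 2 ≤ t := by
        have : (0 : ℝ) ≤ d := Nat.cast_nonneg _
        linarith
      rwa [div_le_iff₀ hl2] at this
    have h2 : ((d : ℝ) + 1) / ε ≤ (t : ℝ) - d - 2 := by linarith
    have h3 := key t
    have h4 : ((d : ℝ) + 1) / ε * Real.log (D t).M ≤ ((t : ℝ) - d - 2) * Real.log (D t).M :=
      mul_le_mul_of_nonneg_right h2 (hlM t)
    have h5 : ((d : ℝ) + 1) / ε * Real.log (D t).M ≤ (d + 1) * Real.log ((D t).u 0) := by linarith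
    have h6 : Real.log (D t).M ≤ ε * Real.log ((D t).u 0) := by
      have h7 : ((d : ℝ) + 1) * Real.log (D t).M ≤ ε * ((d + 1) * Real.log ((D t).u 0)) := by
        have h8 := mul_le_mul_of_nonneg_left h5 hε.le
        have h9 : ε * (((d : ℝ) + 1) / ε * Real.log (D t).M) = ((d : ℝ) + 1) * Real.log (D t).M := by
          field_simp
        linarith
      have hd3 : (0 : ℝ) < (d : ℝ) + 1 := by positivity
      nlinarith
    have hM := (D t).hM
    rw [abs_of_nonneg (by linarith : (0 : ℝ) ≤ (D t).M), ← Real.exp_log (by linarith : 0 < (D t).M)]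
    exact Real.exp_le_exp.2 h6

/-- bounded leading forms without multiple roots -/
theorem tamex_of_bounded (F : MvPolynomial (Option (Fin n)) ℤ) (hF : F.totalDegree ≤ d)
    (a : Fin n → ℤ) (b : ℤ) (hH : 1 ≤ H) (hb0 : b ≠ 0) (ha : ∀ k, |a k| ≤ H) (hb : |b| ≤ H)
    (M : ℝ) (hM : 1 ≤ M)
    (hbd : ∀ p q : ℕ, 1 ≤ p → 1 ≤ q →
      (∀ m ∈ F.support, wtx p q m = topx p q F → |F.coeff m| ≤ H) ∧
        ∃ (l : ℕ) (G : Polynomial ℚ), Squarefree G ∧
          edgex p q F (fun k => (a k : ℚ) / b) 1 = Polynomial.X ^ l * G) :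
    Tamex F (nmx n d * H ^ (d + 1)) M fun k => (a k : ℚ) / b := by
  classical
  intro p q hp hq
  obtain ⟨hcf, l, G, hG, hGe⟩ := hbd p q hp hq
  have hb' : (b : ℚ) ≠ 0 := by exact_mod_cast hb0
  obtain ⟨E1, hE1⟩ : ∃ E1 : Polynomial ℤ, E1 = ∑ m ∈ F.support with wtx p q m = topx p q F,
      Polynomial.C (F.coeff m * (∏ k, a k ^ m (some k)) * b ^ (d - sx m)) *
        Polynomial.X ^ m none := ⟨_, rfl⟩
  have hmain : E1.map (Int.castRingHom ℚ) = Polynomial.C ((b : ℚ) ^ d) *
      edgex p q F (fun k => (a k : ℚ) / b) 1 := by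
    rw [edgex, hE1, Polynomial.map_sum, Finset.mul_sum]
    refine Finset.sum_congr rfl fun m hm => ?_
    rw [Polynomial.map_mul, Polynomial.map_C, Polynomial.map_pow, Polynomial.map_X, ← mul_assoc,
      ← Polynomial.C_mul]
    congr 2
    have hms := (Finset.mem_filter.1 hm).1
    have h2 : (b : ℚ) ^ d = (b : ℚ) ^ (d - sx m) * (b : ℚ) ^ sx m := by
      rw [← pow_add]; congr 1
      have := exp_le_deg hF hms
      omega
    have h3 : ∏ k, ((a k : ℚ) / b) ^ m (some k) = (∏ k, (a k : ℚ) ^ m (some k)) / (b : ℚ) ^ sx m := by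
      simp only [div_pow]
      rw [Finset.prod_div_distrib, Finset.prod_pow_eq_pow_sum]
      rfl
    rw [h3, h2, one_pow, mul_one, eq_intCast]
    push_cast
    have h4 : (b : ℚ) ^ sx m ≠ 0 := pow_ne_zero _ hb'
    field_simp
  have hdiv : ∀ i, i < l → E1.coeff i = 0 := by
    intro i hi
    have h1 := congrArg (fun P => Polynomial.coeff P i) hmain
    rw [Polynomial.coeff_map, hGe, Polynomial.coeff_C_mul, Polynomial.coeff_X_pow_mul',
      if_neg (by omega), mul_zero, eq_intCast] at h1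
    exact_mod_cast h1
  obtain ⟨E, hE⟩ : ∃ E : Polynomial ℤ, E1 = Polynomial.X ^ l * E :=
    Polynomial.X_pow_dvd_iff.2 hdiv
  have hEG : E.map (Int.castRingHom ℚ) = Polynomial.C ((b : ℚ) ^ d) * G := by
    have h1 := hmain
    rw [hE, hGe, Polynomial.map_mul, Polynomial.map_pow, Polynomial.map_X] at h1
    have h2 : Polynomial.X ^ l * E.map (Int.castRingHom ℚ) = Polynomial.X ^ l *
        (Polynomial.C ((b : ℚ) ^ d) * G) := by rw [h1]; ring
    exact mul_left_cancel₀ (pow_ne_zero l Polynomial.X_ne_zero) h2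
  refine ⟨1, 1, 1 / (b : ℚ) ^ d, l, E, one_ne_zero, one_ne_zero,
    div_ne_zero one_ne_zero (pow_ne_zero _ hb'), by simpa using hM, by simpa using hM, ?_, ?_, ?_⟩
  · rw [hEG]
    have hu : IsUnit (Polynomial.C ((b : ℚ) ^ d)) :=
      Polynomial.isUnit_C.2 (isUnit_iff_ne_zero.2 (pow_ne_zero _ hb'))
    exact (Associated.squarefree_iff (associated_unit_mul_left G _ hu)).2 hG
  · intro i
    have h1 : E.coeff i = E1.coeff (i + l) := by rw [hE, Polynomial.coeff_X_pow_mul]
    rw [h1, hE1, Polynomial.finsetSum_coeff]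
    have hHz : (1 : ℤ) ≤ H := by exact_mod_cast hH
    calc |∑ m ∈ F.support with wtx p q m = topx p q F, (Polynomial.C (F.coeff m *
          (∏ k, a k ^ m (some k)) * b ^ (d - sx m)) * Polynomial.X ^ m none).coeff (i + l)|
        ≤ ∑ m ∈ F.support with wtx p q m = topx p q F, |(Polynomial.C (F.coeff m *
          (∏ k, a k ^ m (some k)) * b ^ (d - sx m)) * Polynomial.X ^ m none).coeff (i + l)| :=
          Finset.abs_sum_le_sum_abs _ _
      _ ≤ ∑ _m ∈ F.support with wtx p q _m = topx p q F, (H : ℤ) ^ (d + 1) := by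
          refine Finset.sum_le_sum fun m hm => ?_
          obtain ⟨hms, hmw⟩ := Finset.mem_filter.1 hm
          rw [Polynomial.coeff_C_mul, Polynomial.coeff_X_pow]
          split_ifs with h
          · rw [mul_one, abs_mul, abs_mul, abs_pow, Finset.abs_prod]
            simp only [abs_pow]
            have e1 : ∏ k, |a k| ^ m (some k) ≤ (H : ℤ) ^ sx m := by
              calc ∏ k, |a k| ^ m (some k) ≤ ∏ k, (H : ℤ) ^ m (some k) :=
                    Finset.prod_le_prod (fun _ _ => by positivity) fun k _ =>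
                      pow_le_pow_left₀ (abs_nonneg _) (ha k) _
                _ = (H : ℤ) ^ sx m := Finset.prod_pow_eq_pow_sum _ _ _
            have e2 : |b| ^ (d - sx m) ≤ (H : ℤ) ^ (d - sx m) :=
              pow_le_pow_left₀ (abs_nonneg _) hb _
            calc |F.coeff m| * (∏ k, |a k| ^ m (some k)) * |b| ^ (d - sx m) ≤
                  (H : ℤ) * (H : ℤ) ^ sx m * (H : ℤ) ^ (d - sx m) :=
                  mul_le_mul (mul_le_mul (hcf m hms hmw) e1 (by positivity) (by positivity)) e2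
                    (by positivity) (by positivity)
              _ = (H : ℤ) ^ (d + 1) := by
                  rw [mul_assoc, ← pow_add, ← pow_succ']
                  congr 1
                  have := exp_le_deg hF hms
                  omega
          · rw [mul_zero, abs_zero]
            positivity
      _ = ((F.support.filter fun m => wtx p q m = topx p q F).card : ℤ) * (H : ℤ) ^ (d + 1) := by
          rw [Finset.sum_const, nsmul_eq_mul]
      _ ≤ (nmx n d : ℤ) * (H : ℤ) ^ (d + 1) := by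
          refine mul_le_mul_of_nonneg_right ?_ (by positivity)
          exact_mod_cast (Finset.card_le_card (Finset.filter_subset _ _)).trans (card_supp_le hF)
      _ = ((nmx n d * H ^ (d + 1) : ℕ) : ℤ) := by push_cast; rfl
  · rw [Int.cast_one, div_one, hEG, hGe, one_div]
    have h1 : Polynomial.C (((b : ℚ) ^ d)⁻¹) * Polynomial.C ((b : ℚ) ^ d) = 1 := by
      rw [← Polynomial.C_mul, inv_mul_cancel₀ (pow_ne_zero _ hb'), Polynomial.C_1]
    linear_combination (-(Polynomial.X ^ l * G)) * h1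

end Pool.Agent.H455.RT
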