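import Mathlib
import Pool.Agent.H455.RT8

set_option autoImplicit false

/-!
# Rational points above sparse points: projective heights
-/

open Finset Filter Topology

namespace Pool.Agent.H455.RP

open Pool.Agent.TH419.WI Pool.Agent.TH419.HX Pool.Agent.H455.VC Pool.Agent.H455.RT
open Pool.Agent.Results.MP_821da1_nt.LaurentDichotomy (UnitOf)
open Pool.Agent.Q204.UF Pool.Agent.Y215.AF Pool.Agent.Helper259.AbsHt Pool.Agent.Y215.SK
open Pool.Agent.Q51.UF Pool.Agent.Q51.HG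
open Pool.Agent.H533R3.SL (cur)
open Pool.Agent.TH182.VD (CI)

/-- the point with the parameter `t` of a rational curve -/
noncomputable def ratPt {ι : Type} (E : ℕ) (c : ℕ → ι → ℚ) (t : ℚ) : ι → ℚ :=
  fun a => ∑ k ∈ Finset.range (E + 1), t ^ k * c k a

/-- the point is on a nonconstant rational curve on `Φ = 0` -/
def OnRat {ι : Type} {e : ℕ} (Φ : Fin e → MvPolynomial ι ℤ) (E : ℕ) (z : ι → ℚ) : Prop :=
  ∃ c : ℕ → ι → ℚ,
    (∀ t : ℚ, ∀ i, MvPolynomial.aeval (ratPt E c t) (Φ i) = 0) ∧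
    ratPt E c 1 = z ∧ ∃ t : ℚ, ∀ s : ℚ, ratPt E c t ≠ fun a => s * z a

theorem onRat_of {N e R : ℕ} (Φ : Fin e → MvPolynomial (Fin (N + 1)) ℤ) (E : ℕ)
    (z : Fin (N + 1) → ℚ) (W : Fin R → Fin (N + 1) → ℚ) (hW : ∀ a, ∑ j, W j a = z a)
    (l : Fin R → ℕ) (hl : ∀ j, l j ≤ E)
    (h : CurveOn (fun i => MvPolynomial.map (algebraMap ℤ Qbar) (Φ i))
      (fun j a => algebraMap ℚ Qbar (W j a)) l) : OnRat Φ E z := by
  classical
  obtain ⟨c, hc⟩ : ∃ c : ℕ → Fin (N + 1) → ℚ, c = fun k a =>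
    ∑ j ∈ Finset.univ.filter (fun j => l j = k), W j a := ⟨_, rfl⟩
  have hsum : ∀ (t : ℚ) (a : Fin (N + 1)), ratPt E c t a = ∑ j, t ^ l j * W j a := by
    intro t a
    rw [ratPt, ← Finset.sum_fiberwise_of_maps_to (s := Finset.univ) (t := Finset.range (E + 1))
      (g := l) (fun j _ => Finset.mem_range.2 (Nat.lt_succ_of_le (hl j)))]
    refine Finset.sum_congr rfl fun k _ => ?_
    rw [hc, Finset.mul_sum]
    refine Finset.sum_congr rfl fun j hj => ?_
    rw [(Finset.mem_filter.1 hj).2]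
  have hsumQ : ∀ (t : ℚ) (a : Fin (N + 1)), algebraMap ℚ Qbar (ratPt E c t a) =
      ∑ j, (algebraMap ℚ Qbar t) ^ l j * algebraMap ℚ Qbar (W j a) := by
    intro t a
    rw [hsum, map_sum]
    refine Finset.sum_congr rfl fun j _ => ?_
    rw [map_mul, map_pow]
  have hrc := ratCurve_of _ _ _ h
  refine ⟨c, fun t i => ?_, ?_, ?_⟩
  · have h1 := hrc.1 (algebraMap ℚ Qbar t) i
    rw [MvPolynomial.aeval_map_algebraMap] at h1
    have h2 : (fun a => ∑ j, (algebraMap ℚ Qbar t) ^ l j * algebraMap ℚ Qbar (W j a)) =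
        fun a => algebraMap ℚ Qbar (ratPt E c t a) := by
      funext a
      rw [hsumQ]
    rw [h2] at h1
    have h3 := MvPolynomial.aeval_algebraMap_apply Qbar (ratPt E c t) (Φ i)
    have h4 : algebraMap ℚ Qbar (MvPolynomial.aeval (ratPt E c t) (Φ i)) = 0 := by
      rw [← h3]
      exact h1
    exact (map_eq_zero _).1 h4
  · funext a
    rw [hsum]
    simp only [one_pow, one_mul]
    exact hW a
  · obtain ⟨-, i, i', hne⟩ := h
    obtain ⟨P, hP⟩ : ∃ P : Polynomial Qbar,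
      P = cur (fun j a => algebraMap ℚ Qbar (W j a)) l i *
          Polynomial.C (∑ j, algebraMap ℚ Qbar (W j i')) -
        cur (fun j a => algebraMap ℚ Qbar (W j a)) l i' *
          Polynomial.C (∑ j, algebraMap ℚ Qbar (W j i)) := ⟨_, rfl⟩
    have hP0 : P ≠ 0 := by rw [hP]; exact sub_ne_zero.2 hne
    obtain ⟨t, ht⟩ : ∃ t : ℚ, P.eval (algebraMap ℚ Qbar t) ≠ 0 := by
      by_contra hcon
      push Not at hcon
      refine hP0 (Polynomial.eq_zero_of_infinite_isRoot P ?_)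
      exact (Set.infinite_range_of_injective (algebraMap ℚ Qbar).injective).mono (by
        rintro _ ⟨t, rfl⟩
        exact hcon t)
    refine ⟨t, fun s hs => ht ?_⟩
    have h5 : ∀ a, ∑ j, (algebraMap ℚ Qbar t) ^ l j * algebraMap ℚ Qbar (W j a) =
        algebraMap ℚ Qbar s * ∑ j, algebraMap ℚ Qbar (W j a) := by
      intro a
      rw [← hsumQ, hs, map_mul, ← hW a, map_sum]
    rw [hP, Polynomial.eval_sub, Polynomial.eval_mul, Polynomial.eval_mul, Polynomial.eval_C,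
      Polynomial.eval_C, cur_eval_t, cur_eval_t, h5, h5]
    ring

/-- **Projective heights grow slowly unless there are rational curves.** -/
theorem proj_slow {S : Finset ℕ} (hS : ∀ p ∈ S, p.Prime) {N e d : ℕ} (hd : 1 ≤ d) {J : Type}
    [Fintype J] {L : ℕ → ℝ} (hL : Tendsto L atTop atTop)
    (Φ : ℕ → Fin e → MvPolynomial (Fin (N + 1)) ℤ)
    (hΦh : ∀ t i, ∃ k, k ≤ d ∧ (Φ t i).IsHomogeneous k)
    (M : ℕ → ℝ) (hM1 : ∀ t, 1 ≤ M t) (hM : Sub L M)
    (hΦc : ∀ t i α, |(((Φ t i).coeff α : ℤ) : ℝ)| ≤ M t)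
    (u : ℕ → J → ℚ) (hu : ∀ t j, UnitOf S (u t j)) (V : ℕ → J → Fin (N + 1) → ℚ)
    (hV : ∀ j a, SlowQ L fun t => V t j a)
    (z : ℕ → Fin (N + 1) → ℚ) (hz : ∀ t a, z t a = ∑ j, u t j * V t j a) (hz0 : ∀ t, z t ≠ 0)
    (hΦz : ∀ t i, MvPolynomial.aeval (z t) (Φ t i) = 0)
    (E : ℕ → ℕ) (hE : Tendsto E atTop atTop) (hno : ∀ t, ¬ OnRat (Φ t) (E t) (z t))
    (ε : ℝ) (hε : 0 < ε) :
    ∀ᶠ t in atTop, absLogHeight (fun a => algebraMap ℚ Qbar (z t a)) ≤ ε * L t := by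
  classical
  choose δ hδd hδ using hΦh
  have hgen := fun δ' : Fin e → Fin (d + 1) => gen_heights (n := N) (q := e)
    (r := Fintype.card J) (fun i => (δ' i : ℕ)) d hd (fun i => Nat.lt_succ_iff.1 (δ' i).2)
    (grpS S) (grpS_fg S)
  choose C' hC'0 hC' using hgen
  obtain ⟨C, hCdef⟩ : ∃ C : ℝ, C = ∑ δ', C' δ' := ⟨_, rfl⟩
  have hC0 : 0 ≤ C := by rw [hCdef]; exact Finset.sum_nonneg fun δ' _ => hC'0 δ'
  have hCle : ∀ δ', C' δ' ≤ C := fun δ' => by
    rw [hCdef]
    exact Finset.single_le_sum (f := C') (fun i _ => hC'0 i) (Finset.mem_univ δ')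
  let eJ : Fin (Fintype.card J) ≃ J := (Fintype.equivFin J).symm
  have hSne : ∀ p ∈ S, p ≠ 0 := fun p hp => (hS p hp).ne_zero
  have hu0 : ∀ t j, u t j ≠ 0 := by
    intro t j h0
    obtain ⟨ex, hex⟩ := hu t j
    rw [h0, abs_zero] at hex
    exact (Finset.prod_ne_zero_iff.2 fun p hp => zpow_ne_zero _
      (Nat.cast_ne_zero.2 (hSne p hp))) hex.symm
  obtain ⟨ε', hε'⟩ : ∃ ε' : ℝ, ε' = ε / (4 * (C + 1)) := ⟨_, rfl⟩
  have hε'pos : 0 < ε' := by rw [hε']; positivity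
  filter_upwards [slow_height hL (fun t (p : Fin (Fintype.card J) × Fin (N + 1)) =>
      V t (eJ p.1) p.2) (fun p => hV (eJ p.1) p.2) ε' hε'pos, hM ε' hε'pos,
      ev_const_le hL 2 ε' hε'pos, hE.eventually_ge_atTop (expB d (Fintype.card J)),
      (hL.const_mul_atTop hε'pos).eventually_ge_atTop 1] with t h1 h2 h3 h4 h5
  have hMt := hM1 t
  rw [abs_of_nonneg (by linarith : (0 : ℝ) ≤ M t)] at h2
  have huQ : ∀ j, algebraMap ℚ Qbar (u t (eJ j)) ≠ 0 := fun j =>
    (map_ne_zero _).2 (hu0 t _)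
  obtain ⟨U, hU⟩ : ∃ U : Fin (Fintype.card J) → Qbarˣ, ∀ j, (U j : Qbar) =
    algebraMap ℚ Qbar (u t (eJ j)) := ⟨fun j => Units.mk0 _ (huQ j), fun j => rfl⟩
  obtain ⟨δ', hδ'⟩ : ∃ δ' : Fin e → Fin (d + 1), ∀ i, (δ' i : ℕ) = δ t i :=
    ⟨fun i => ⟨δ t i, Nat.lt_succ_of_le (hδd t i)⟩, fun i => rfl⟩
  have hpt : psum Finset.univ U (fun j a => algebraMap ℚ Qbar (V t (eJ j) a)) =
      fun a => algebraMap ℚ Qbar (z t a) := by
    funext a
    rw [psum, hz, map_sum, ← Equiv.sum_comp eJ]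
    refine Finset.sum_congr rfl fun j _ => ?_
    rw [hU, map_mul]
  have hmain := hC' δ' (fun i => MvPolynomial.map (algebraMap ℤ Qbar) (Φ t i)) U
    (fun j a => algebraMap ℚ Qbar (V t (eJ j) a))
    (fun i => by
      have := (hδ t i).map (algebraMap ℤ Qbar)
      rw [← hδ' i] at this
      exact this)
    (fun j => ⟨1, one_pos, by
      rw [pow_one]
      obtain ⟨ex, hex⟩ := hu t (eJ j)
      exact mem_grpS S hSne _ _ (hU j) ex hex⟩)
    (by
      rw [hpt]
      intro h0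
      refine hz0 t (funext fun a => ?_)
      have := congrFun h0 a
      exact (map_eq_zero _).1 this)
    (fun i => by
      rw [hpt, MvPolynomial.aeval_map_algebraMap]
      have e1 := MvPolynomial.aeval_algebraMap_apply Qbar (z t) (Φ t i)
      rw [hΦz t i, map_zero] at e1
      exact e1)
    (fun l hl hcur => by
      refine hno t (onRat_of (Φ t) (E t) (z t) (fun j a => u t (eJ j) * V t (eJ j) a)
        (fun a => ?_) l (fun j => (hl j).trans h4) ?_)
      · rw [hz t a, ← Equiv.sum_comp eJ]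
      · have e3 : (fun j a => algebraMap ℚ Qbar (u t (eJ j) * V t (eJ j) a)) =
            tw U (fun j a => algebraMap ℚ Qbar (V t (eJ j) a)) := by
          funext j a
          rw [tw, map_mul, hU]
        rw [e3]
        exact hcur)
  rw [hpt] at hmain
  have hF : hA (cof (fun i => (δ' i : ℕ)) (fun i => MvPolynomial.map (algebraMap ℤ Qbar) (Φ t i))) ≤
      2 * (ε' * L t) := by
    obtain ⟨M', hM'⟩ : ∃ M' : ℕ, M' = ⌈M t⌉₊ := ⟨_, rfl⟩
    have hM'1 : 1 ≤ M' := by rw [hM']; exact Nat.one_le_ceil_iff.2 (by linarith)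
    have e1 := hA_int_le (τ := CI N (fun i => (δ' i : ℕ)))
      (fun x => (Φ t x.1).coeff x.2.1) M' hM'1 (by
        intro x
        have e2 := hΦc t x.1 x.2.1
        have e3 : |(((Φ t x.1).coeff x.2.1 : ℤ) : ℝ)| ≤ (M' : ℝ) := by
          rw [hM']; exact e2.trans (Nat.le_ceil _)
        exact_mod_cast e3)
    have e2 : hA (cof (fun i => (δ' i : ℕ)) (fun i => MvPolynomial.map (algebraMap ℤ Qbar) (Φ t i))) =
        hA (fun x : CI N (fun i => (δ' i : ℕ)) => (((Φ t x.1).coeff x.2.1 : ℤ) : Qbar)) := by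
      congr 1
    rw [e2]
    refine e1.trans ?_
    have e3 : (M' : ℝ) ≤ 2 * M t := by
      have := Nat.ceil_lt_add_one (by linarith : 0 ≤ M t)
      rw [← hM'] at this
      linarith
    have e4 : (M' : ℝ) ≤ Real.exp (2 * (ε' * L t)) := by
      rw [two_mul, Real.exp_add]
      refine e3.trans (mul_le_mul h3 h2 (by linarith) (Real.exp_pos _).le)
    have hpos : (0 : ℝ) < M' := by exact_mod_cast (by omega : 0 < M')
    have e5 := Real.log_le_log hpos e4
    rwa [Real.log_exp] at e5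
  have hVt : Pool.Agent.Y215.SK.hV (fun j a => algebraMap ℚ Qbar (V t (eJ j) a)) ≤ ε' * L t := by
    refine le_trans ?_ h1
    unfold Pool.Agent.Y215.SK.hV hA
    exact absLogHeight_comp_le (fun p : Fin (Fintype.card J) × Fin (N + 1) => some p)
      (fun o : Option (Fin (Fintype.card J) × Fin (N + 1)) => o.elim (1 : Qbar)
        fun p => algebraMap ℚ Qbar (V t (eJ p.1) p.2))
  refine hmain.trans ?_
  have e6 : 1 + hA (cof (fun i => (δ' i : ℕ))
      (fun i => MvPolynomial.map (algebraMap ℤ Qbar) (Φ t i))) +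
      Pool.Agent.Y215.SK.hV (fun j a => algebraMap ℚ Qbar (V t (eJ j) a)) ≤ 4 * (ε' * L t) := by linarith
  have e7 : 0 ≤ ε' * L t := by linarith
  calc C' δ' * _ ≤ C' δ' * (4 * (ε' * L t)) := mul_le_mul_of_nonneg_left e6 (hC'0 δ')
    _ ≤ (C + 1) * (4 * (ε' * L t)) :=
        mul_le_mul_of_nonneg_right (by linarith [hCle δ']) (by linarith)
    _ = ε * L t := by
        rw [hε']
        field_simp

theorem onRat_rename {ι κ : Type} (f : ι ≃ κ) {e : ℕ} (Φ : Fin e → MvPolynomial ι ℤ) (E : ℕ)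
    (z : ι → ℚ) (h : OnRat (fun i => MvPolynomial.rename f (Φ i)) E (z ∘ f.symm)) :
    OnRat Φ E z := by
  obtain ⟨c, h1, h2, t, h3⟩ := h
  have hpt : ∀ s, ratPt E (fun k a => c k (f a)) s = ratPt E c s ∘ f := fun s => rfl
  refine ⟨fun k a => c k (f a), fun s i => ?_, ?_, t, fun s hs => h3 s ?_⟩
  · rw [hpt, ← MvPolynomial.aeval_rename]
    exact h1 s i
  · rw [hpt, h2]
    funext a
    simp
  · rw [hpt] at hs
    funext b
    have h4 := congrFun hs (f.symm b)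
    simpa using h4

/-- **Projective heights grow slowly unless there are rational curves.** -/
theorem proj_slow' {S : Finset ℕ} (hS : ∀ p ∈ S, p.Prime) {e d : ℕ} (hd : 1 ≤ d)
    {ι : Type} [Fintype ι] [Nonempty ι] {J : Type}
    [Fintype J] {L : ℕ → ℝ} (hL : Tendsto L atTop atTop)
    (Φ : ℕ → Fin e → MvPolynomial ι ℤ)
    (hΦh : ∀ t i, ∃ k, k ≤ d ∧ (Φ t i).IsHomogeneous k)
    (M : ℕ → ℝ) (hM1 : ∀ t, 1 ≤ M t) (hM : Sub L M)
    (hΦc : ∀ t i α, |(((Φ t i).coeff α : ℤ) : ℝ)| ≤ M t)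
    (u : ℕ → J → ℚ) (hu : ∀ t j, UnitOf S (u t j)) (V : ℕ → J → ι → ℚ)
    (hV : ∀ j a, SlowQ L fun t => V t j a)
    (z : ℕ → ι → ℚ) (hz : ∀ t a, z t a = ∑ j, u t j * V t j a) (hz0 : ∀ t, z t ≠ 0)
    (hΦz : ∀ t i, MvPolynomial.aeval (z t) (Φ t i) = 0)
    (E : ℕ → ℕ) (hE : Tendsto E atTop atTop) (hno : ∀ t, ¬ OnRat (Φ t) (E t) (z t))
    (ε : ℝ) (hε : 0 < ε) :
    ∀ᶠ t in atTop, absLogHeight (fun a => algebraMap ℚ Qbar (z t a)) ≤ ε * L t := by
  classical
  obtain ⟨N, hN⟩ : ∃ N, Fintype.card ι = N + 1 :=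
    ⟨Fintype.card ι - 1, by have := Fintype.card_pos (α := ι); omega⟩
  obtain ⟨f⟩ : Nonempty (ι ≃ Fin (N + 1)) := ⟨Fintype.equivFinOfCardEq hN⟩
  have h := proj_slow hS hd hL (fun t i => MvPolynomial.rename f (Φ t i))
    (fun t i => by
      obtain ⟨k, hk, hh⟩ := hΦh t i
      exact ⟨k, hk, hh.rename_isHomogeneous⟩) M hM1 hM
    (fun t i α => by
      have h1 : α = Finsupp.mapDomain f (Finsupp.mapDomain f.symm α) := by
        rw [← Finsupp.mapDomain_comp]
        simp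
      rw [h1, MvPolynomial.coeff_rename_mapDomain f f.injective]
      exact hΦc t i _) u hu (fun t j a => V t j (f.symm a)) (fun j a => hV j (f.symm a))
    (fun t => z t ∘ f.symm) (fun t a => hz t (f.symm a))
    (fun t h0 => hz0 t (by
      funext a
      have := congrFun h0 (f a)
      simpa using this))
    (fun t i => by
      rw [MvPolynomial.aeval_rename]
      have h1 : (z t ∘ ⇑f.symm) ∘ ⇑f = z t := by
        funext a
        simp
      rw [h1]
      exact hΦz t i) E hE (fun t h1 => hno t (onRat_rename f (Φ t) (E t) (z t) h1)) ε hε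
  filter_upwards [h] with t ht
  refine le_trans ?_ ht
  have h1 := absLogHeight_comp_le f (fun a => algebraMap ℚ Qbar ((z t ∘ f.symm) a))
  have h2 : (fun a => algebraMap ℚ Qbar ((z t ∘ f.symm) a)) ∘ f =
      fun a => algebraMap ℚ Qbar (z t a) := by
    funext a
    simp
  rw [h2] at h1
  exact h1

end Pool.Agent.H455.RP
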