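import Mathlib
import Pool.Agent.H455.RP1

set_option autoImplicit false

/-!
# Rational points above sparse points: homogeneous equations of finite morphisms
-/

open Finset Filter Topology

namespace Pool.Agent.H455.RP

open Pool.Agent.TH419.WI Pool.Agent.TH419.HX Pool.Agent.H455.VC Pool.Agent.H455.RT

variable {n D : ℕ}

/-- the polynomial `F (ρ, T)` -/
noncomputable def fib (F : MvPolynomial (Option (Fin n)) ℤ) (ρ : Fin n → ℚ) : Polynomial ℚ :=
  MvPolynomial.aeval (fun o : Option (Fin n) => o.elim Polynomial.X fun k => Polynomial.C (ρ k)) F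

theorem fib_sum (F : MvPolynomial (Option (Fin n)) ℤ) (ρ : Fin n → ℚ) :
    fib F ρ = ∑ m ∈ F.support, Polynomial.C (((F.coeff m : ℤ) : ℚ) * ∏ k, ρ k ^ m (some k)) *
      Polynomial.X ^ m none := by
  rw [fib, MvPolynomial.aeval_def, MvPolynomial.eval₂_eq']
  refine Finset.sum_congr rfl fun m _ => ?_
  rw [Fintype.prod_option]
  simp only [Option.elim_none, Option.elim_some]
  have h1 : (algebraMap ℤ (Polynomial ℚ)) (F.coeff m) = Polynomial.C ((F.coeff m : ℤ) : ℚ) := by
    simp
  have h2 : ∏ k, Polynomial.C (ρ k) ^ m (some k) = Polynomial.C (∏ k, ρ k ^ m (some k)) := by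
    rw [map_prod]
    simp only [map_pow]
  rw [h1, h2, Polynomial.C_mul]
  ring

theorem fib_eval (F : MvPolynomial (Option (Fin n)) ℤ) (ρ : Fin n → ℚ) (y : ℚ) :
    (fib F ρ).eval y = MvPolynomial.aeval (fun o : Option (Fin n) => o.elim y ρ) F := by
  have h1 := MvPolynomial.comp_aeval_apply
    (f := fun o : Option (Fin n) => o.elim Polynomial.X fun k => Polynomial.C (ρ k))
    ((Polynomial.evalRingHom y).toIntAlgHom) F
  have h2 : (fib F ρ).eval y = ((Polynomial.evalRingHom y).toIntAlgHom)
      (MvPolynomial.aeval (fun o : Option (Fin n) => o.elim Polynomial.X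
        fun k => Polynomial.C (ρ k)) F) := rfl
  refine h2.trans (h1.trans ?_)
  congr 2
  funext o
  cases o <;> simp

theorem coeff_fib (F : MvPolynomial (Option (Fin n)) ℤ) (ρ : Fin n → ℚ) (i : ℕ) :
    (fib F ρ).coeff i = ∑ m ∈ F.support,
      if m none = i then ((F.coeff m : ℤ) : ℚ) * ∏ k, ρ k ^ m (some k) else 0 := by
  rw [fib_sum, Polynomial.finsetSum_coeff]
  refine Finset.sum_congr rfl fun m _ => ?_
  rw [Polynomial.coeff_C_mul, Polynomial.coeff_X_pow]
  by_cases h : i = m none
  · rw [if_pos h, if_pos h.symm, mul_one]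
  · rw [if_neg h, if_neg (Ne.symm h), mul_zero]

/-- a linear change of the coordinates -/
noncomputable def sbs (F : MvPolynomial (Option (Fin n)) ℤ) (a c : ℤ) (k : Fin n) :
    MvPolynomial (Option (Fin n)) ℤ :=
  MvPolynomial.aeval (fun o : Option (Fin n) => o.elim
    (MvPolynomial.X none - MvPolynomial.C c * MvPolynomial.X (some k))
    fun i => MvPolynomial.C a * MvPolynomial.X (some i)) F

theorem aeval_sbs {A : Type} [CommRing A] (F : MvPolynomial (Option (Fin n)) ℤ) (a c : ℤ)
    (k : Fin n) (g : Option (Fin n) → A) :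
    MvPolynomial.aeval g (sbs F a c k) = MvPolynomial.aeval (fun o : Option (Fin n) =>
      o.elim (g none - (c : A) * g (some k)) fun i => (a : A) * g (some i)) F := by
  rw [sbs, MvPolynomial.comp_aeval_apply]
  congr 2
  funext o
  cases o <;> simp

theorem hom_exp {F : MvPolynomial (Option (Fin n)) ℤ} (hF : F.IsHomogeneous D)
    {m : Option (Fin n) →₀ ℕ} (hm : m ∈ F.support) : (∑ k, m (some k)) + m none = D := by
  have h1 : m.degree = D := by
    by_contra h
    exact MvPolynomial.mem_support_iff.1 hm (hF.coeff_eq_zero h)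
  rw [Finsupp.degree_eq_sum, Fintype.sum_option] at h1
  omega

theorem hom_scale {A : Type} [CommRing A] {F : MvPolynomial (Option (Fin n)) ℤ}
    (hF : F.IsHomogeneous D) (a : A) (g : Option (Fin n) → A) :
    MvPolynomial.aeval (fun o => a * g o) F = a ^ D * MvPolynomial.aeval g F := by
  rw [MvPolynomial.aeval_def, MvPolynomial.aeval_def, MvPolynomial.eval₂_eq',
    MvPolynomial.eval₂_eq', Finset.mul_sum]
  refine Finset.sum_congr rfl fun m hm => ?_
  have h1 : ∏ i, (a * g i) ^ m i = a ^ D * ∏ i, g i ^ m i := by
    simp only [mul_pow]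
    rw [Finset.prod_mul_distrib, Finset.prod_pow_eq_pow_sum, Fintype.sum_option, add_comm (m none),
      hom_exp hF hm]
  rw [h1]
  ring

theorem sbs_hom {F : MvPolynomial (Option (Fin n)) ℤ} (hF : F.IsHomogeneous D) (a c : ℤ)
    (k : Fin n) : (sbs F a c k).IsHomogeneous D := by
  have h1 := hF.aeval (fun o : Option (Fin n) => o.elim
    (MvPolynomial.X none - MvPolynomial.C c * MvPolynomial.X (some k))
    fun i => MvPolynomial.C a * MvPolynomial.X (some i) : Option (Fin n) →
      MvPolynomial (Option (Fin n)) ℤ) (n := 1) (by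
    intro o
    cases o with
    | none =>
      exact (MvPolynomial.isHomogeneous_X _ _).sub ((MvPolynomial.isHomogeneous_X _ _).C_mul _)
    | some i => exact (MvPolynomial.isHomogeneous_X _ _).C_mul _)
  rw [one_mul] at h1
  exact h1

/-- the fibre of the new polynomial -/
theorem fib_sbs {F : MvPolynomial (Option (Fin n)) ℤ} (hF : F.IsHomogeneous D) (a c : ℤ)
    (ha : a ≠ 0) (k : Fin n) (ρ : Fin n → ℚ) :
    fib (sbs F a c k) ρ = Polynomial.C ((a : ℚ) ^ D) *
      (fib F ρ).comp (Polynomial.C ((a : ℚ)⁻¹) * (Polynomial.X - Polynomial.C (c * ρ k))) := by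
  have ha' : (a : ℚ) ≠ 0 := by exact_mod_cast ha
  refine Polynomial.funext fun y => ?_
  rw [fib_eval, aeval_sbs, Polynomial.eval_mul, Polynomial.eval_C, Polynomial.eval_comp, fib_eval,
    ← hom_scale hF]
  congr 2
  funext o
  cases o with
  | none =>
    simp only [Option.elim_none, Option.elim_some, Polynomial.eval_mul, Polynomial.eval_C,
      Polynomial.eval_sub, Polynomial.eval_X]
    field_simp
  | some i => simp

/-- the coefficient of `T ^ D` -/
theorem coeff_fib_top {F : MvPolynomial (Option (Fin n)) ℤ} (hF : F.IsHomogeneous D)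
    (ρ : Fin n → ℚ) : (fib F ρ).coeff D = ((F.coeff (Finsupp.single none D) : ℤ) : ℚ) := by
  classical
  rw [coeff_fib]
  have h1 : ∀ m ∈ F.support, m none = D → m = Finsupp.single none D := by
    intro m hm h
    have h2 := hom_exp hF hm
    have h3 : ∑ k, m (some k) = 0 := by omega
    rw [Finset.sum_eq_zero_iff] at h3
    ext o
    cases o with
    | none => simpa using h
    | some k => simpa using h3 k (Finset.mem_univ k)
  rw [Finset.sum_eq_single (Finsupp.single none D)]
  · rw [if_pos (by simp)]
    simp
  · intro m hm hne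
    rw [if_neg fun h => hne (h1 m hm h)]
  · intro h
    rw [MvPolynomial.notMem_support_iff.1 h]
    simp

theorem natDegree_fib {F : MvPolynomial (Option (Fin n)) ℤ} (hF : F.IsHomogeneous D)
    (ρ : Fin n → ℚ) : (fib F ρ).natDegree ≤ D := by
  rw [Polynomial.natDegree_le_iff_coeff_eq_zero]
  intro i hi
  rw [coeff_fib]
  refine Finset.sum_eq_zero fun m hm => ?_
  rw [if_neg]
  have := hom_exp hF hm
  omega

/-- **The parts of highest weight of a form which is unramified at `ρ`.** -/
theorem edge_hom {G : MvPolynomial (Option (Fin n)) ℤ} (hG : G.IsHomogeneous D)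
    (ha : G.coeff (Finsupp.single none D) ≠ 0) (ρ : Fin n → ℚ) (hsq : Squarefree (fib G ρ))
    (h0 : (fib G ρ).coeff 0 ≠ 0) (p q : ℕ) :
    ∃ (l : ℕ) (G' : Polynomial ℚ), Squarefree G' ∧ edgex p q G ρ 1 = Polynomial.X ^ l * G' := by
  classical
  have hwt : ∀ m ∈ G.support, wtx p q m = p * (D - m none) + q * m none := by
    intro m hm
    have := hom_exp hG hm
    rw [wtx]
    congr 2
    omega
  have hle : ∀ m ∈ G.support, m none ≤ D := fun m hm => by
    have := hom_exp hG hm
    omega
  have hDm : Finsupp.single none D ∈ G.support := MvPolynomial.mem_support_iff.2 ha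
  rcases lt_trichotomy p q with hpq | hpq | hpq
  · -- the weight `q D`
    have htop : topx p q G = q * D := by
      refine le_antisymm (Finset.sup_le fun m hm => ?_) ?_
      · rw [hwt m hm]
        have h1 := hle m hm
        calc p * (D - m none) + q * m none ≤ q * (D - m none) + q * m none :=
              Nat.add_le_add_right (Nat.mul_le_mul_right _ hpq.le) _
          _ = q * D := by rw [← Nat.mul_add]; congr 1; omega
      · have h1 := Finset.le_sup (f := wtx p q) hDm
        rw [hwt _ hDm] at h1
        unfold topx
        simpa using h1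
    refine ⟨D, Polynomial.C ((G.coeff (Finsupp.single none D) : ℤ) : ℚ), ?_, ?_⟩
    · exact (Polynomial.isUnit_C.2 (isUnit_iff_ne_zero.2 (by exact_mod_cast ha))).squarefree
    · ext i
      rw [coeff_edgex, htop, mul_comm (Polynomial.X ^ D), Polynomial.coeff_C_mul,
        Polynomial.coeff_X_pow]
      have h1 : ∀ m ∈ G.support, wtx p q m = q * D → m none = D := by
        intro m hm h
        rw [hwt m hm] at h
        have h2 := hle m hm
        by_contra hne
        have h3 : 0 < D - m none := by omega
        have h4 : p * (D - m none) < q * (D - m none) := Nat.mul_lt_mul_of_pos_right hpq h3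
        have h5 : q * (D - m none) + q * m none = q * D := by
          rw [← Nat.mul_add]; congr 1; omega
        omega
      by_cases hi : i = D
      · rw [if_pos hi, mul_one, ← coeff_fib_top hG ρ, coeff_fib, hi, Finset.sum_filter]
        refine Finset.sum_congr rfl fun m hm => ?_
        by_cases hmD : m none = D
        · have h6 : wtx p q m = q * D := by
            rw [hwt m hm, hmD]; simp
          rw [if_pos h6, if_pos hmD, if_pos hmD]
          ring
        · rw [if_neg hmD, if_neg fun h => hmD (h1 m hm h), if_neg hmD]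
      · rw [if_neg hi, mul_zero]
        refine Finset.sum_eq_zero fun m hm => ?_
        obtain ⟨hm1, hm2⟩ := Finset.mem_filter.1 hm
        rw [if_neg]
        rw [h1 m hm1 hm2]
        exact Ne.symm hi
  · -- all monomials
    have hall : ∀ m ∈ G.support, wtx p q m = p * D := by
      intro m hm
      rw [hwt m hm, ← hpq, ← Nat.mul_add]
      congr 1
      have := hle m hm
      omega
    have htop : topx p q G = p * D := by
      refine le_antisymm (Finset.sup_le fun m hm => (hall m hm).le) ?_
      have h1 := Finset.le_sup (f := wtx p q) hDm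
      rw [hall _ hDm] at h1
      exact h1
    refine ⟨0, fib G ρ, hsq, ?_⟩
    rw [pow_zero, one_mul]
    ext i
    rw [coeff_edgex, coeff_fib, Finset.sum_filter]
    refine Finset.sum_congr rfl fun m hm => ?_
    rw [if_pos (by rw [hall m hm, htop]), one_pow, mul_one]
  · -- the terms without `T`
    obtain ⟨m0, hm0, hm00⟩ : ∃ m ∈ G.support, m none = 0 := by
      by_contra hcon
      push Not at hcon
      refine h0 ?_
      rw [coeff_fib]
      exact Finset.sum_eq_zero fun m hm => if_neg (hcon m hm)
    have htop : topx p q G = p * D := by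
      refine le_antisymm (Finset.sup_le fun m hm => ?_) ?_
      · rw [hwt m hm]
        have h1 := hle m hm
        calc p * (D - m none) + q * m none ≤ p * (D - m none) + p * m none :=
              Nat.add_le_add_left (Nat.mul_le_mul_right _ hpq.le) _
          _ = p * D := by rw [← Nat.mul_add]; congr 1; omega
      · have h1 := Finset.le_sup (f := wtx p q) hm0
        rw [hwt _ hm0, hm00] at h1
        unfold topx
        simpa using h1
    refine ⟨0, Polynomial.C ((fib G ρ).coeff 0), ?_, ?_⟩
    · exact (Polynomial.isUnit_C.2 (isUnit_iff_ne_zero.2 h0)).squarefree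
    · have h1 : ∀ m ∈ G.support, wtx p q m = p * D → m none = 0 := by
        intro m hm h
        rw [hwt m hm] at h
        have h2 := hle m hm
        by_contra hne
        have h3 : 0 < m none := by omega
        have h4 : q * m none < p * m none := Nat.mul_lt_mul_of_pos_right hpq h3
        have h5 : p * (D - m none) + p * m none = p * D := by
          rw [← Nat.mul_add]; congr 1; omega
        omega
      rw [pow_zero, one_mul]
      ext i
      rw [coeff_edgex, htop, Polynomial.coeff_C]
      by_cases hi : i = 0
      · rw [if_pos hi, hi, coeff_fib, Finset.sum_filter]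
        refine Finset.sum_congr rfl fun m hm => ?_
        by_cases hmD : m none = 0
        · have h6 : wtx p q m = p * D := by
            rw [hwt m hm, hmD]; simp
          rw [if_pos h6, if_pos hmD, if_pos hmD]
          ring
        · rw [if_neg hmD, if_neg fun h => hmD (h1 m hm h), if_neg hmD]
      · rw [if_neg hi]
        refine Finset.sum_eq_zero fun m hm => ?_
        obtain ⟨hm1, hm2⟩ := Finset.mem_filter.1 hm
        rw [if_neg]
        rw [h1 m hm1 hm2]
        exact Ne.symm hi

end Pool.Agent.H455.RP
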