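import Mathlib
import Pool.Agent.H455.RP2

set_option autoImplicit false

/-!
# Rational points above sparse points: primitive vectors, integrality
-/

open Finset Filter Topology

namespace Pool.Agent.H455.RP

open Pool.Agent.TH419.WI Pool.Agent.TH419.HX Pool.Agent.H455.VC Pool.Agent.H455.RT
open Pool.Agent.Helper259.AbsHt

theorem squarefree_comp {K : Type} [Field K] (P L L' : Polynomial K)
    (h1 : L.comp L' = Polynomial.X) (h2 : L'.comp L = Polynomial.X) (hP : Squarefree P) :
    Squarefree (P.comp L) := by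
  intro Q hQ
  have h3 : Q.comp L' * Q.comp L' ∣ P := by
    have h4 := map_dvd (Polynomial.compRingHom L') hQ
    rw [map_mul, Polynomial.coe_compRingHom_apply, Polynomial.coe_compRingHom_apply,
      Polynomial.comp_assoc, h1, Polynomial.comp_X] at h4
    exact h4
  have h5 := (hP _ h3).map (Polynomial.compRingHom L)
  rw [Polynomial.coe_compRingHom_apply, Polynomial.comp_assoc, h2, Polynomial.comp_X] at h5
  exact h5

theorem squarefree_lin (P : Polynomial ℚ) (a s : ℚ) (ha : a ≠ 0) (hP : Squarefree P) :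
    Squarefree (P.comp (Polynomial.C a⁻¹ * (Polynomial.X - Polynomial.C s))) := by
  refine squarefree_comp P _ (Polynomial.C a * Polynomial.X + Polynomial.C s) ?_ ?_ hP
  · rw [Polynomial.mul_comp, Polynomial.C_comp, Polynomial.sub_comp, Polynomial.X_comp,
      Polynomial.C_comp, add_sub_cancel_right, ← mul_assoc, ← Polynomial.C_mul,
      inv_mul_cancel₀ ha, Polynomial.C_1, one_mul]
  · rw [Polynomial.add_comp, Polynomial.mul_comp, Polynomial.C_comp, Polynomial.X_comp,
      Polynomial.C_comp, ← mul_assoc, ← Polynomial.C_mul, mul_inv_cancel₀ ha, Polynomial.C_1,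
      one_mul, sub_add_cancel]

variable {ι : Type}

/-- the projective height is at most `log B` -/
def HeightLE (B : ℝ) (z : ι → ℚ) : Prop :=
  ∃ s : ℚ, s ≠ 0 ∧ ∀ a, ∃ k : ℤ, s * z a = k ∧ |(k : ℝ)| ≤ B

theorem HeightLE.mono {B B' : ℝ} (h : B ≤ B') {z : ι → ℚ} (hz : HeightLE B z) : HeightLE B' z := by
  obtain ⟨s, hs, hk⟩ := hz
  exact ⟨s, hs, fun a => by
    obtain ⟨k, h1, h2⟩ := hk a
    exact ⟨k, h1, h2.trans h⟩⟩

theorem HeightLE.scale {B : ℝ} {z : ι → ℚ} (hz : HeightLE B z) (l : ℚ) (hl : l ≠ 0) :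
    HeightLE B fun a => l * z a := by
  obtain ⟨s, hs, hk⟩ := hz
  refine ⟨s / l, div_ne_zero hs hl, fun a => ?_⟩
  obtain ⟨k, h1, h2⟩ := hk a
  refine ⟨k, ?_, h2⟩
  rw [← h1]
  field_simp

theorem heightLE_exists [Finite ι] (z : ι → ℚ) : ∃ B, HeightLE B z := by
  classical
  have := Fintype.ofFinite ι
  refine ⟨∑ a, |(((∏ b, (z b).den : ℕ) : ℚ) * z a : ℚ)|, ((∏ b, (z b).den : ℕ) : ℚ), ?_,
    fun a => ?_⟩
  · exact_mod_cast (Finset.prod_pos fun b _ => (z b).den_pos).ne'
  · refine ⟨(∏ b ∈ Finset.univ.erase a, ((z b).den : ℤ)) * (z a).num, ?_, ?_⟩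
    · rw [← Finset.mul_prod_erase _ _ (Finset.mem_univ a)]
      have h1 := Rat.den_mul_eq_num (z a)
      push_cast
      rw [← h1]
      ring
    · have h2 : (((∏ b ∈ Finset.univ.erase a, ((z b).den : ℤ)) * (z a).num : ℤ) : ℝ) =
          (((((∏ b, (z b).den : ℕ) : ℚ) * z a : ℚ)) : ℝ) := by
        have h3 : (((∏ b ∈ Finset.univ.erase a, ((z b).den : ℤ)) * (z a).num : ℤ) : ℚ) =
            ((∏ b, (z b).den : ℕ) : ℚ) * z a := by
          rw [← Finset.mul_prod_erase _ _ (Finset.mem_univ a)]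
          have h1 := Rat.den_mul_eq_num (z a)
          push_cast
          rw [← h1]
          ring
        rw [← h3]
        push_cast
        rfl
      rw [h2]
      push_cast
      exact Finset.single_le_sum (f := fun a => |(∏ b, ((z b).den : ℝ)) * (z a : ℝ)|)
        (fun _ _ => abs_nonneg _) (Finset.mem_univ a)

theorem heightLE_finite [Finite ι] (R : Set (ι → ℚ)) (hR : R.Finite) :
    ∃ B, ∀ z ∈ R, HeightLE B z := by
  classical
  choose B hB using fun z : ι → ℚ => heightLE_exists z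
  refine ⟨∑ z ∈ hR.toFinset, |B z|, fun z hz => (hB z).mono ?_⟩
  refine (le_abs_self _).trans ?_
  exact Finset.single_le_sum (f := fun z => |B z|) (fun _ _ => abs_nonneg _)
    (hR.mem_toFinset.2 hz)

/-- primitive vectors and the height -/
theorem exists_prim [Fintype ι] [Nonempty ι] (Z : ι → ℤ) (hZ : Z ≠ 0) :
    ∃ (g : ℤ) (Z' : ι → ℤ), g ≠ 0 ∧ (∀ a, Z a = g * Z' a) ∧
      ∀ a, |(Z' a : ℝ)| ≤ Real.exp (absLogHeight (fun a => (Z a : Qbar))) := by
  classical
  obtain ⟨Z', h1, h2⟩ := Finset.extract_gcd Z (Finset.univ_nonempty (α := ι))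
  have hg : Finset.univ.gcd Z ≠ 0 := by
    intro h0
    rw [Finset.gcd_eq_zero_iff] at h0
    exact hZ (funext fun a => h0 a (Finset.mem_univ a))
  refine ⟨Finset.univ.gcd Z, Z', hg, fun a => h1 a (Finset.mem_univ a), fun a => ?_⟩
  have h3 : (fun a => (Z a : Qbar)) = ((Finset.univ.gcd Z : ℤ) : Qbar) • fun a => (Z' a : Qbar) := by
    funext a
    rw [Pi.smul_apply, smul_eq_mul, h1 a (Finset.mem_univ a)]
    push_cast
    rfl
  rw [h3, absLogHeight_smul _ (by exact_mod_cast hg), absLogHeight_int Z' h2]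
  have h4 : |Z' a| ≤ ⨆ i, |Z' i| := le_ciSup (f := fun i => |Z' i|)
    (Set.finite_range _).bddAbove a
  have h5 : (0 : ℤ) < ⨆ i, |Z' i| := by
    by_contra hcon
    have h6 : ∀ i, Z' i = 0 := by
      intro i
      have h7 : |Z' i| ≤ ⨆ i, |Z' i| := le_ciSup (f := fun i => |Z' i|)
        (Set.finite_range _).bddAbove i
      have h8 := abs_nonneg (Z' i)
      exact abs_eq_zero.1 (by omega)
    have h7 : Finset.univ.gcd Z' = 0 := Finset.gcd_eq_zero_iff.2 fun i _ => h6 i
    rw [h7] at h2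
    exact zero_ne_one h2
  rw [Real.exp_log (by exact_mod_cast h5)]
  exact_mod_cast h4

variable {n D : ℕ}

/-- the roots become integers -/
theorem root_integral {F : MvPolynomial (Option (Fin n)) ℤ} (hF : F.IsHomogeneous D)
    (ha : F.coeff (Finsupp.single none D) ≠ 0) (x : Fin n → ℤ) (y : ℚ)
    (hxy : MvPolynomial.aeval (fun o : Option (Fin n) => o.elim y fun k => (x k : ℚ)) F = 0) :
    ∃ Y : ℤ, ((F.coeff (Finsupp.single none D) : ℤ) : ℚ) * y = Y := by
  classical
  obtain ⟨P, hP⟩ : ∃ P : Polynomial ℤ, P = rootPoly F x := ⟨_, rfl⟩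
  have hmap : P.map (Int.castRingHom ℚ) = fib F fun k => (x k : ℚ) := by
    rw [hP, rootPoly, fib_sum, Polynomial.map_sum]
    refine Finset.sum_congr rfl fun m _ => ?_
    rw [Polynomial.map_mul, Polynomial.map_C, Polynomial.map_pow, Polynomial.map_X, eq_intCast]
    push_cast
    rfl
  have htop : P.coeff D = F.coeff (Finsupp.single none D) := by
    have h1 := coeff_fib_top hF fun k => (x k : ℚ)
    rw [← hmap, Polynomial.coeff_map, eq_intCast] at h1
    exact_mod_cast h1
  have hdeg : P.natDegree ≤ D := by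
    have h1 := natDegree_fib hF fun k => (x k : ℚ)
    rw [← hmap, Polynomial.natDegree_map_eq_of_injective (Int.cast_injective (α := ℚ))] at h1
    exact h1
  have hdeg2 : P.natDegree = D := le_antisymm hdeg
    (Polynomial.le_natDegree_of_ne_zero (by rw [htop]; exact ha))
  have hlead : P.leadingCoeff = F.coeff (Finsupp.single none D) := by
    rw [Polynomial.leadingCoeff, hdeg2, htop]
  have hroot : Polynomial.aeval y P = 0 := by
    rw [Polynomial.aeval_def, ← Polynomial.eval_map]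
    have h1 : (algebraMap ℤ ℚ) = Int.castRingHom ℚ := rfl
    rw [h1, hmap, fib_eval]
    exact hxy
  have h2 := den_dvd_of_is_root hroot
  rw [hlead] at h2
  obtain ⟨w, hw⟩ := h2
  refine ⟨w * IsFractionRing.num ℤ y, ?_⟩
  rw [hw]
  have h3 := IsFractionRing.mk'_num_den ℤ y
  rw [IsLocalization.mk'_eq_iff_eq_mul] at h3
  have h4 : y * ((IsFractionRing.den ℤ y : ℤ) : ℚ) = ((IsFractionRing.num ℤ y : ℤ) : ℚ) := by
    exact h3.symm
  push_cast
  rw [← h4]
  ring

end Pool.Agent.H455.RP
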