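import Mathlib
import Pool.Agent.H455.RP3

set_option autoImplicit false

/-!
# Rational points above sparse points: the main theorem
-/

open Finset Filter Topology

namespace Pool.Agent.H455.RP

open Pool.Agent.TH419.WI Pool.Agent.TH419.HX Pool.Agent.H455.VC Pool.Agent.H455.RT
open Pool.Agent.Results.MP_821da1_nt.LaurentDichotomy (UnitOf)
open Pool.Agent.Helper259.AbsHt

variable {n m e d r : ℕ} {S : Finset ℕ} {η : ℝ}

/-- sparse points and the rational points above them -/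
structure RPt (n m e d r : ℕ) (S : Finset ℕ) (η : ℝ)
    (F : Fin m → MvPolynomial (Option (Fin (n + 1))) ℤ) (V0 : Fin (n + 1) → ℤ) where
  M : ℝ
  hM : 1 ≤ M
  Φ : Fin e → MvPolynomial (Fin (n + 1) ⊕ Fin m) ℤ
  hΦh : ∀ i, ∃ k, k ≤ d ∧ (Φ i).IsHomogeneous k
  hΦc : ∀ i α, |(((Φ i).coeff α : ℤ) : ℝ)| ≤ M
  V : Fin (r + 1) → Fin (n + 1) → ℤ
  hV0 : V 0 = V0
  hV : ∀ i, i ≠ 0 → ∀ k, |(V i k : ℝ)| ≤ M
  u : Fin (r + 1) → ℕ
  hu : ∀ i, Smooth S (u i)
  hdom : ∀ i, i ≠ 0 → (u i : ℝ) ≤ (u 0 : ℝ) ^ (1 - η)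
  x : Fin (n + 1) → ℤ
  hx : ∀ k, x k = ∑ i, V i k * (u i : ℤ)
  y : Fin m → ℚ
  hxy : ∀ j, MvPolynomial.aeval (fun o : Option (Fin (n + 1)) => o.elim (y j)
    fun k => (x k : ℚ)) (F j) = 0
  hΦz : ∀ i, MvPolynomial.aeval (Sum.elim (fun k => (x k : ℚ)) y) (Φ i) = 0

variable {F : Fin m → MvPolynomial (Option (Fin (n + 1))) ℤ} {V0 : Fin (n + 1) → ℤ}

/-- the point -/
def RPt.z (P : RPt n m e d r S η F V0) : Fin (n + 1) ⊕ Fin m → ℚ :=
  Sum.elim (fun k => (P.x k : ℚ)) P.y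

/-- the data of the change of coordinates -/
structure Chg (F : Fin m → MvPolynomial (Option (Fin (n + 1))) ℤ) (V0 : Fin (n + 1) → ℤ) where
  D : Fin m → ℕ
  hF : ∀ j, (F j).IsHomogeneous (D j)
  ha : ∀ j, (F j).coeff (Finsupp.single none (D j)) ≠ 0
  k0 : Fin (n + 1)
  hk0 : V0 k0 ≠ 0
  c : Fin m → ℤ
  a : Fin m → ℤ
  haa : ∀ j, a j = (F j).coeff (Finsupp.single none (D j))
  G : Fin m → MvPolynomial (Option (Fin (n + 1))) ℤ
  hG : ∀ j, G j = sbs (F j) (a j) (c j) k0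
  hGa : ∀ j, (G j).coeff (Finsupp.single none (D j)) ≠ 0
  hGs : ∀ j, Squarefree (fib (G j) fun k => (V0 k : ℚ))
  hG0 : ∀ j, (fib (G j) fun k => (V0 k : ℚ)).coeff 0 ≠ 0
  H0 : ℕ
  hH0 : 1 ≤ H0
  hHV : ∀ k, |V0 k| ≤ H0
  hHG : ∀ j m, |(G j).coeff m| ≤ H0

theorem chg_exists (D : Fin m → ℕ) (hF : ∀ j, (F j).IsHomogeneous (D j))
    (ha : ∀ j, (F j).coeff (Finsupp.single none (D j)) ≠ 0) (hV0 : V0 ≠ 0)
    (hsq : ∀ j, Squarefree (fib (F j) fun k => (V0 k : ℚ))) : Nonempty (Chg F V0) := by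
  classical
  obtain ⟨k0, hk0⟩ : ∃ k0, V0 k0 ≠ 0 := Function.ne_iff.1 hV0
  have hk0' : (V0 k0 : ℚ) ≠ 0 := by exact_mod_cast hk0
  have hc : ∀ j, ∃ c : ℤ, (fib (F j) fun k => (V0 k : ℚ)).eval
      ((((F j).coeff (Finsupp.single none (D j)) : ℤ) : ℚ)⁻¹ * (0 - c * (V0 k0 : ℚ))) ≠ 0 := by
    intro j
    by_contra hcon
    push Not at hcon
    have ha' : (((F j).coeff (Finsupp.single none (D j)) : ℤ) : ℚ) ≠ 0 := by
      exact_mod_cast ha j
    refine (hsq j).ne_zero (Polynomial.eq_zero_of_infinite_isRoot _ ?_)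
    refine (Set.infinite_range_of_injective (f := fun c : ℤ =>
      ((((F j).coeff (Finsupp.single none (D j)) : ℤ) : ℚ)⁻¹ * (0 - c * (V0 k0 : ℚ)))) ?_).mono ?_
    · intro c c' h
      have h1 := mul_left_cancel₀ (inv_ne_zero ha') h
      have h2 : (c : ℚ) * V0 k0 = c' * V0 k0 := by linarith
      exact_mod_cast mul_right_cancel₀ hk0' h2
    · rintro _ ⟨c, rfl⟩
      exact hcon c
  choose c hc using hc
  obtain ⟨a, haa⟩ : ∃ a : Fin m → ℤ, ∀ j, a j = (F j).coeff (Finsupp.single none (D j)) :=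
    ⟨_, fun _ => rfl⟩
  obtain ⟨G, hG⟩ : ∃ G : Fin m → MvPolynomial (Option (Fin (n + 1))) ℤ,
    ∀ j, G j = sbs (F j) (a j) (c j) k0 := ⟨_, fun _ => rfl⟩
  have ha0 : ∀ j, a j ≠ 0 := fun j => by rw [haa]; exact ha j
  have ha0' : ∀ j, (a j : ℚ) ≠ 0 := fun j => by exact_mod_cast ha0 j
  have hfib : ∀ j, fib (G j) (fun k => (V0 k : ℚ)) = Polynomial.C ((a j : ℚ) ^ D j) *
      (fib (F j) fun k => (V0 k : ℚ)).comp (Polynomial.C ((a j : ℚ)⁻¹) *
        (Polynomial.X - Polynomial.C (c j * (V0 k0 : ℚ)))) := by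
    intro j
    rw [hG]
    exact fib_sbs (hF j) (a j) (c j) (ha0 j) k0 _
  have hu : ∀ j, IsUnit (Polynomial.C ((a j : ℚ) ^ D j)) := fun j =>
    Polynomial.isUnit_C.2 (isUnit_iff_ne_zero.2 (pow_ne_zero _ (ha0' j)))
  have hGs : ∀ j, Squarefree (fib (G j) fun k => (V0 k : ℚ)) := by
    intro j
    rw [hfib]
    exact (Associated.squarefree_iff (associated_unit_mul_left _ _ (hu j))).2
      (squarefree_lin _ _ _ (ha0' j) (hsq j))
  have hG0 : ∀ j, (fib (G j) fun k => (V0 k : ℚ)).coeff 0 ≠ 0 := by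
    intro j
    rw [Polynomial.coeff_zero_eq_eval_zero, hfib, Polynomial.eval_mul, Polynomial.eval_C,
      Polynomial.eval_comp, Polynomial.eval_mul, Polynomial.eval_C, Polynomial.eval_sub,
      Polynomial.eval_X, Polynomial.eval_C, haa]
    have h1 := hc j
    exact mul_ne_zero (pow_ne_zero _ (by exact_mod_cast ha j)) h1
  have hGa : ∀ j, (G j).coeff (Finsupp.single none (D j)) ≠ 0 := by
    intro j h0
    have hGh : (G j).IsHomogeneous (D j) := by rw [hG]; exact sbs_hom (hF j) _ _ _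
    have h1 := coeff_fib_top hGh fun k => (V0 k : ℚ)
    rw [h0, Int.cast_zero] at h1
    have h2 := coeff_fib_top (hF j) fun k => (V0 k : ℚ)
    have h3 : (fib (F j) fun k => (V0 k : ℚ)).natDegree = D j :=
      le_antisymm (natDegree_fib (hF j) _) (Polynomial.le_natDegree_of_ne_zero (by
        rw [h2]; exact_mod_cast ha j))
    have h4 : (fib (G j) fun k => (V0 k : ℚ)).natDegree = D j := by
      rw [hfib, Polynomial.natDegree_C_mul (pow_ne_zero _ (ha0' j)), Polynomial.natDegree_comp, h3,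
        Polynomial.natDegree_C_mul (inv_ne_zero (ha0' j)), Polynomial.natDegree_X_sub_C, mul_one]
    have h5 : (fib (G j) fun k => (V0 k : ℚ)).leadingCoeff = 0 := by
      rw [Polynomial.leadingCoeff, h4, h1]
    exact (hGs j).ne_zero (Polynomial.leadingCoeff_eq_zero.1 h5)
  refine ⟨{ D := D, hF := hF, ha := ha, k0 := k0, hk0 := hk0, c := c, a := a, haa := haa, G := G,
            hG := hG, hGa := hGa, hGs := hGs, hG0 := hG0,
            H0 := 1 + ∑ k, (V0 k).natAbs + ∑ j, ∑ m ∈ (G j).support, ((G j).coeff m).natAbs,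
            hH0 := by omega, hHV := fun k => ?_, hHG := fun j mm => ?_ }⟩
  · have h1 : (V0 k).natAbs ≤ ∑ k, (V0 k).natAbs :=
      Finset.single_le_sum (f := fun k => (V0 k).natAbs) (fun _ _ => Nat.zero_le _)
        (Finset.mem_univ k)
    rw [Int.abs_eq_natAbs]
    exact_mod_cast (by omega : (V0 k).natAbs ≤ 1 + ∑ k, (V0 k).natAbs +
      ∑ j, ∑ m ∈ (G j).support, ((G j).coeff m).natAbs)
  · by_cases hmm : mm ∈ (G j).support
    · have h1 : ((G j).coeff mm).natAbs ≤ ∑ m ∈ (G j).support, ((G j).coeff m).natAbs :=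
        Finset.single_le_sum (f := fun m => ((G j).coeff m).natAbs) (fun _ _ => Nat.zero_le _) hmm
      have h2 : ∑ m ∈ (G j).support, ((G j).coeff m).natAbs ≤
          ∑ j, ∑ m ∈ (G j).support, ((G j).coeff m).natAbs :=
        Finset.single_le_sum (f := fun j => ∑ m ∈ (G j).support, ((G j).coeff m).natAbs)
          (fun _ _ => Nat.zero_le _) (Finset.mem_univ j)
      rw [Int.abs_eq_natAbs]
      exact_mod_cast (by omega : ((G j).coeff mm).natAbs ≤ 1 + ∑ k, (V0 k).natAbs +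
        ∑ j, ∑ m ∈ (G j).support, ((G j).coeff m).natAbs)
    · rw [MvPolynomial.notMem_support_iff.1 hmm, abs_zero]
      positivity

section
variable (X : Chg F V0)

theorem Chg.ha0 (j : Fin m) : X.a j ≠ 0 := by rw [X.haa]; exact X.ha j

theorem Chg.hGh (j : Fin m) : (X.G j).IsHomogeneous (X.D j) := by
  rw [X.hG]; exact sbs_hom (X.hF j) _ _ _

/-- the sum of the degrees -/
def Chg.dF : ℕ := ∑ j, X.D j

theorem Chg.deg (j : Fin m) : (X.G j).totalDegree ≤ X.dF :=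
  (X.hGh j).totalDegree_le.trans (Finset.single_le_sum (f := X.D) (fun _ _ => Nat.zero_le _)
    (Finset.mem_univ j))

theorem new_root (P : RPt n m e d r S η F V0) (j : Fin m) :
    ∃ Y : ℤ, (X.a j : ℚ) * P.y j = Y ∧ val (X.G j) P.x ((Y + X.c j * P.x X.k0 : ℤ) : ℝ) = 0 := by
  obtain ⟨Y, hY⟩ := root_integral (X.hF j) (X.ha j) P.x (P.y j) (P.hxy j)
  rw [← X.haa] at hY
  refine ⟨Y, hY, ?_⟩
  have h1 : val (X.G j) P.x ((Y + X.c j * P.x X.k0 : ℤ) : ℝ) =
      MvPolynomial.aeval (fun o : Option (Fin (n + 1)) =>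
        o.elim ((Y + X.c j * P.x X.k0 : ℤ) : ℝ) fun k => (P.x k : ℝ)) (X.G j) := rfl
  rw [h1, X.hG, aeval_sbs]
  have h2 : (fun o : Option (Fin (n + 1)) => o.elim
      (((none : Option (Fin (n + 1))).elim ((Y + X.c j * P.x X.k0 : ℤ) : ℝ)
        fun k => (P.x k : ℝ)) - ((X.c j : ℤ) : ℝ) * ((some X.k0).elim
        ((Y + X.c j * P.x X.k0 : ℤ) : ℝ) fun k => (P.x k : ℝ))) fun i =>
      ((X.a j : ℤ) : ℝ) * ((some i).elim
        ((Y + X.c j * P.x X.k0 : ℤ) : ℝ) fun k => (P.x k : ℝ))) =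
      fun o => ((X.a j : ℤ) : ℝ) * algebraMap ℚ ℝ (o.elim (P.y j) fun k => (P.x k : ℚ)) := by
    funext o
    cases o with
    | none =>
      simp only [Option.elim_none, Option.elim_some]
      have h3 : ((Y : ℤ) : ℝ) = (X.a j : ℝ) * ((P.y j : ℚ) : ℝ) := by
        have h4 := congrArg (fun q : ℚ => (q : ℝ)) hY
        push_cast at h4
        exact h4.symm
      push_cast
      rw [h3]
      simp
    | some i => simp
  rw [h2, hom_scale (X.hF j)]
  have h3 := MvPolynomial.aeval_algebraMap_apply ℝ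
    (fun o : Option (Fin (n + 1)) => o.elim (P.y j) fun k => (P.x k : ℚ)) (F j)
  rw [P.hxy j, map_zero] at h3
  have h4 : (fun o : Option (Fin (n + 1)) => algebraMap ℚ ℝ (o.elim (P.y j)
      fun k => (P.x k : ℚ))) = (algebraMap ℚ ℝ) ∘ (fun o : Option (Fin (n + 1)) =>
        o.elim (P.y j) fun k => (P.x k : ℚ)) := rfl
  rw [h4, h3, mul_zero]

theorem new_ne (P : RPt n m e d r S η F V0) (j : Fin m) : ∃ Y : ℝ, val (X.G j) P.x Y ≠ 0 := by
  have h1 : fib (X.G j) (fun k => (P.x k : ℚ)) ≠ 0 := by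
    intro h0
    have h2 := coeff_fib_top (X.hGh j) fun k => (P.x k : ℚ)
    rw [h0, Polynomial.coeff_zero] at h2
    exact X.hGa j (by exact_mod_cast h2.symm)
  obtain ⟨q, hq⟩ : ∃ q : ℚ, (fib (X.G j) (fun k => (P.x k : ℚ))).eval q ≠ 0 := by
    by_contra hcon
    push Not at hcon
    exact h1 (Polynomial.funext fun q => by rw [hcon q, Polynomial.eval_zero])
  refine ⟨(q : ℝ), ?_⟩
  rw [fib_eval] at hq
  have h3 := MvPolynomial.aeval_algebraMap_apply ℝ
    (fun o : Option (Fin (n + 1)) => o.elim q fun k => (P.x k : ℚ)) (X.G j)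
  have h4 : val (X.G j) P.x (q : ℝ) = MvPolynomial.aeval ((algebraMap ℚ ℝ) ∘
      fun o : Option (Fin (n + 1)) => o.elim q fun k => (P.x k : ℚ)) (X.G j) := by
    unfold Pool.Agent.H455.RT.val
    rw [MvPolynomial.aeval_def]
    congr 1
    funext o
    cases o <;> simp
  rw [h4, h3]
  exact (map_ne_zero _).2 hq

/-- the new datum -/
noncomputable def toBig (P : RPt n m e d r S η F V0) : Big (n + 1) m X.dF r
    (nmx (n + 1) X.dF * X.H0 ^ (X.dF + 1)) S η where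
  M := X.H0 * P.M
  V := P.V
  b := 1
  u := P.u
  x := P.x
  F := X.G
  y := fun j => Classical.choose (new_root X P j) + X.c j * P.x X.k0
  hM := one_le_mul_of_one_le_of_one_le (by exact_mod_cast X.hH0) P.hM
  hu := P.hu
  hdom := P.hdom
  hV := fun i k => by
    have hH : (1 : ℝ) ≤ X.H0 := by exact_mod_cast X.hH0
    by_cases hi : i = 0
    · rw [hi, P.hV0]
      have h1 : |(V0 k : ℝ)| ≤ X.H0 := by exact_mod_cast X.hHV k
      exact h1.trans (le_mul_of_one_le_right (by linarith) P.hM)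
    · exact (P.hV i hi k).trans (le_mul_of_one_le_left (by linarith [P.hM]) hH)
  hb := by
    rw [Int.cast_one, abs_one]
    exact one_le_mul_of_one_le_of_one_le (by exact_mod_cast X.hH0) P.hM
  hb0 := one_ne_zero
  hx := fun k => by rw [one_mul]; exact P.hx k
  hF := X.deg
  hcoef := fun j mm => by
    have h1 : |(((X.G j).coeff mm : ℤ) : ℝ)| ≤ X.H0 := by exact_mod_cast X.hHG j mm
    exact h1.trans (le_mul_of_one_le_right (by positivity) P.hM)
  hxy := fun j => (Classical.choose_spec (new_root X P j)).2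
  hne := new_ne X P
  tame := fun j => by
    have hρ : (fun k => ((P.V 0 k : ℤ) : ℚ) / ((1 : ℤ) : ℚ)) =
        fun k => ((V0 k : ℤ) : ℚ) / ((1 : ℤ) : ℚ) := by rw [P.hV0]
    rw [hρ]
    refine tamex_of_bounded (X.G j) (X.deg j) V0 1 X.hH0 one_ne_zero X.hHV
      (by rw [abs_one]; exact_mod_cast X.hH0) _
      (one_le_mul_of_one_le_of_one_le (by exact_mod_cast X.hH0) P.hM) fun p q _ _ =>
      ⟨fun mm _ _ => X.hHG j mm, ?_⟩
    have h2 : (fun k => ((V0 k : ℤ) : ℚ) / ((1 : ℤ) : ℚ)) = fun k => ((V0 k : ℤ) : ℚ) := by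
      funext k
      simp
    rw [h2]
    exact edge_hom (X.hGh j) (X.hGa j) _ (X.hGs j) (X.hG0 j) p q

end

end Pool.Agent.H455.RP
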