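import Mathlib
import Pool.Agent.H455.RP4

set_option autoImplicit false

/-!
# Rational points above sparse points: the main theorem
-/

open Finset Filter Topology

namespace Pool.Agent.H455.RP

open Pool.Agent.TH419.WI Pool.Agent.TH419.HX Pool.Agent.H455.VC Pool.Agent.H455.RT
open Pool.Agent.Results.MP_821da1_nt.LaurentDichotomy (UnitOf)
open Pool.Agent.Helper259.AbsHt

variable {n m e d r : ℕ} {S : Finset ℕ} {η : ℝ}
  {F : Fin m → MvPolynomial (Option (Fin (n + 1))) ℤ} {V0 : Fin (n + 1) → ℤ}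

theorem finite_fibre (F : Fin m → MvPolynomial (Option (Fin (n + 1))) ℤ) (V0 : Fin (n + 1) → ℤ)
    (hne : ∀ j, fib (F j) (fun k => (V0 k : ℚ)) ≠ 0) :
    {w : Fin (n + 1) ⊕ Fin m → ℚ | (∀ k, w (Sum.inl k) = V0 k) ∧
      ∀ j, (fib (F j) fun k => (V0 k : ℚ)).eval (w (Sum.inr j)) = 0}.Finite := by
  classical
  have h1 : (Set.pi Set.univ fun j : Fin m =>
      {q : ℚ | (fib (F j) fun k => (V0 k : ℚ)).IsRoot q}).Finite :=
    Set.Finite.pi fun j => Polynomial.finite_setOfPred_isRoot (hne j)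
  refine (h1.image fun f => Sum.elim (fun k => (V0 k : ℚ)) f).subset ?_
  rintro w ⟨hw1, hw2⟩
  refine ⟨fun j => w (Sum.inr j), fun j _ => hw2 j, ?_⟩
  funext a
  rcases a with k | j
  · exact (hw1 k).symm
  · rfl

theorem pow_ineq (M : ℝ) (hM : 1 ≤ M) (H0 K s : ℕ) (hH0 : 1 ≤ H0) :
    (K : ℝ) * (2 * ((H0 : ℝ) * M)) ^ s ≤ (2 * M) ^ ((H0 + 1) * s + K) := by
  have h2M : (1 : ℝ) ≤ 2 * M := by linarith
  have h1 : 2 * ((H0 : ℝ) * M) ≤ (2 * M) ^ (H0 + 1) := by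
    rw [pow_succ]
    have h3 : (H0 : ℝ) ≤ (2 * M) ^ H0 := by
      calc (H0 : ℝ) ≤ 2 ^ H0 := by exact_mod_cast (Nat.lt_two_pow_self).le
        _ ≤ (2 * M) ^ H0 := pow_le_pow_left₀ (by norm_num) (by linarith) _
    nlinarith
  have h2 : (K : ℝ) ≤ (2 * M) ^ K := by
    calc (K : ℝ) ≤ 2 ^ K := by exact_mod_cast (Nat.lt_two_pow_self).le
      _ ≤ (2 * M) ^ K := pow_le_pow_left₀ (by norm_num) (by linarith) _
  have hH : (0 : ℝ) ≤ H0 := Nat.cast_nonneg _
  rw [pow_add, pow_mul, mul_comm]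
  exact mul_le_mul (pow_le_pow_left₀ (by positivity) h1 _) h2 (Nat.cast_nonneg _) (by positivity)

/-- **Rational points above sparse points.** -/
theorem rat_main (hη : 0 < η) (hS : ∀ p ∈ S, p.Prime) (X : Chg F V0)
    (hne : ∀ j, fib (F j) (fun k => (V0 k : ℚ)) ≠ 0) :
    ∃ C : ℕ, ∀ P : RPt n m e d r S η F V0, HeightLE ((2 * P.M) ^ C) P.z ∨ OnRat P.Φ C P.z := by
  classical
  by_contra hcon
  push Not at hcon
  obtain ⟨A, hA⟩ : ∃ A : ℤ, A = ∏ j, X.a j := ⟨_, rfl⟩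
  have hA0 : A ≠ 0 := by rw [hA]; exact Finset.prod_ne_zero_iff.2 fun j _ => X.ha0 j
  have hAj : ∀ j, A = X.a j * ∏ i ∈ Finset.univ.erase j, X.a i := fun j => by
    rw [hA, Finset.mul_prod_erase _ _ (Finset.mem_univ j)]
  obtain ⟨K, hK⟩ : ∃ K : ℕ, K = A.natAbs * (1 + ∑ j, (X.c j).natAbs) := ⟨_, rfl⟩
  have hKc : ∀ j, A.natAbs * (1 + (X.c j).natAbs) ≤ K := by
    intro j
    rw [hK]
    refine Nat.mul_le_mul_left _ (Nat.add_le_add_left ?_ _)
    exact Finset.single_le_sum (f := fun j => (X.c j).natAbs) (fun _ _ => Nat.zero_le _)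
      (Finset.mem_univ j)
  have hKA : A.natAbs ≤ K := by
    rw [hK]
    exact Nat.le_mul_of_pos_right _ (by omega)
  have hcon' : ∀ s : ℕ, ∃ P : RPt n m e d r S η F V0,
      ¬ HeightLE ((2 * P.M) ^ ((X.H0 + 1) * s + K)) P.z ∧
        ¬ OnRat P.Φ ((X.H0 + 1) * s + K) P.z := fun s => hcon _
  choose P hP1 hP2 using hcon'
  have hYex : ∀ s j, ∃ Y : ℤ, (X.a j : ℚ) * (P s).y j = Y ∧
      (toBig X (P s)).y j = Y + X.c j * (P s).x X.k0 := fun s j =>
    ⟨_, (Classical.choose_spec (new_root X (P s) j)).1, rfl⟩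
  choose Y hY1 hY2 using hYex
  have hAabs : ∀ z : ℤ, |(z : ℝ)| = ((z.natAbs : ℕ) : ℝ) := fun z => by
    rw [Nat.cast_natAbs, Int.cast_abs]
  -- the integral multiples
  obtain ⟨Z, hZ⟩ : ∃ Z : ℕ → Fin (n + 1) ⊕ Fin m → ℤ, Z = fun s => Sum.elim
    (fun k => A * (P s).x k) (fun j => (∏ i ∈ Finset.univ.erase j, X.a i) * Y s j) := ⟨_, rfl⟩
  have hZz : ∀ s a, (A : ℚ) * (P s).z a = (Z s a : ℚ) := by
    intro s a
    rcases a with k | j
    · rw [hZ]
      simp [RPt.z]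
    · rw [hZ]
      simp only [RPt.z, Sum.elim_inr]
      rw [hAj j]
      push_cast
      rw [← hY1 s j]
      ring
  have hbig : ∀ s, ∃ a, (2 * (toBig X (P s)).M) ^ s < |((toBig X (P s)).z a : ℝ)| := by
    intro s
    by_contra hc
    push Not at hc
    have hMs := (P s).hM
    have hMB : (toBig X (P s)).M = X.H0 * (P s).M := rfl
    rw [hMB] at hc
    obtain ⟨B, hB⟩ : ∃ B : ℝ, B = (2 * ((X.H0 : ℝ) * (P s).M)) ^ s := ⟨_, rfl⟩
    have hB0 : 0 ≤ B := by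
      rw [hB]; positivity
    have hfin := pow_ineq (P s).M hMs X.H0 K s X.hH0
    rw [← hB] at hfin
    have hx : ∀ k, |((P s).x k : ℝ)| ≤ B := by
      intro k
      have h1 := hc (Fin.castAdd m k)
      have h2 : (toBig X (P s)).z (Fin.castAdd m k) = (P s).x k := by
        simp [Big.z, toBig]
      rw [h2, ← hB] at h1
      exact h1
    have hy : ∀ j, |((toBig X (P s)).y j : ℝ)| ≤ B := by
      intro j
      have h1 := hc (Fin.natAdd (n + 1) j)
      have h2 : (toBig X (P s)).z (Fin.natAdd (n + 1) j) = (toBig X (P s)).y j := by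
        simp [Big.z]
      rw [h2, ← hB] at h1
      exact h1
    refine hP1 s ⟨(A : ℚ), by exact_mod_cast hA0, fun a => ⟨Z s a, hZz s a, ?_⟩⟩
    refine le_trans ?_ hfin
    rcases a with k | j
    · have h1 : Z s (Sum.inl k) = A * (P s).x k := by rw [hZ]; rfl
      rw [h1]
      push_cast
      rw [abs_mul, hAabs]
      exact mul_le_mul (by exact_mod_cast hKA) (hx k) (abs_nonneg _) (Nat.cast_nonneg _)
    · have h1 : Z s (Sum.inr j) = (∏ i ∈ Finset.univ.erase j, X.a i) * Y s j := by rw [hZ]; rfl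
      have h2 : ((∏ i ∈ Finset.univ.erase j, X.a i : ℤ)).natAbs ≤ A.natAbs := by
        rw [hAj j, Int.natAbs_mul]
        exact Nat.le_mul_of_pos_left _ (Int.natAbs_pos.2 (X.ha0 j))
      have h3 : |((Y s j : ℤ) : ℝ)| ≤ (1 + ((X.c j).natAbs : ℝ)) * B := by
        have h4 : ((Y s j : ℤ) : ℝ) = ((toBig X (P s)).y j : ℝ) -
            ((X.c j : ℤ) : ℝ) * ((P s).x X.k0 : ℝ) := by
          rw [hY2 s j]
          push_cast
          ring
        rw [h4]
        calc |((toBig X (P s)).y j : ℝ) - ((X.c j : ℤ) : ℝ) * ((P s).x X.k0 : ℝ)|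
            ≤ |((toBig X (P s)).y j : ℝ)| + |((X.c j : ℤ) : ℝ) * ((P s).x X.k0 : ℝ)| :=
              abs_sub _ _
          _ ≤ B + ((X.c j).natAbs : ℝ) * B := by
              rw [abs_mul, hAabs (X.c j)]
              exact add_le_add (hy j) (mul_le_mul_of_nonneg_left (hx _) (Nat.cast_nonneg _))
          _ = (1 + ((X.c j).natAbs : ℝ)) * B := by ring
      rw [h1]
      push_cast
      rw [abs_mul]
      have h5 : |∏ i ∈ Finset.univ.erase j, ((X.a i : ℤ) : ℝ)| ≤ (A.natAbs : ℝ) := by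
        have h6 := hAabs (∏ i ∈ Finset.univ.erase j, X.a i)
        push_cast at h6
        rw [h6]
        have h7 : ((∏ i ∈ Finset.univ.erase j, X.a i : ℤ)).natAbs =
          (∏ i ∈ Finset.univ.erase j, X.a i).natAbs := rfl
        exact_mod_cast h2
      calc |∏ i ∈ Finset.univ.erase j, ((X.a i : ℤ) : ℝ)| * |((Y s j : ℤ) : ℝ)|
          ≤ (A.natAbs : ℝ) * ((1 + ((X.c j).natAbs : ℝ)) * B) :=
            mul_le_mul h5 h3 (abs_nonneg _) (Nat.cast_nonneg _)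
        _ = ((A.natAbs * (1 + (X.c j).natAbs) : ℕ) : ℝ) * B := by push_cast; ring
        _ ≤ K * B := mul_le_mul_of_nonneg_right (by exact_mod_cast hKc j) hB0
  obtain ⟨hL, hMS⟩ := sizes_big hη (fun s => toBig X (P s)) hbig
  obtain ⟨ψ, hψ, hrel⟩ := all_rel hη hS (fun s => toBig X (P s)) hL hMS
  have hψt := hψ.tendsto_atTop
  have hL1 : Tendsto (fun t => Real.log ((P (ψ t)).u 0)) atTop atTop := hL.comp hψt
  have hM1 : Sub (fun t => Real.log ((P (ψ t)).u 0)) fun t => (P (ψ t)).M := by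
    refine Sub.mono (hMS.comp hψt) (Eventually.of_forall fun t => ?_)
    have h1 := (P (ψ t)).hM
    have h2 : (1 : ℝ) ≤ X.H0 := by exact_mod_cast X.hH0
    show |(P (ψ t)).M| ≤ |(X.H0 : ℝ) * (P (ψ t)).M|
    rw [abs_of_nonneg (by linarith), abs_of_nonneg (by positivity)]
    exact le_mul_of_one_le_left (by linarith) h2
  choose Nf v cf hv hcf hy using hrel
  have hSne : ∀ p ∈ S, p ≠ 0 := fun p hp => (hS p hp).ne_zero
  have ha' : ∀ j, (X.a j : ℚ) ≠ 0 := fun j => by exact_mod_cast X.ha0 j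
  have hVslow : ∀ i k, SlowQ (fun t => Real.log ((P (ψ t)).u 0)) fun t => ((P (ψ t)).V i k : ℚ) := by
    intro i k
    by_cases hi : i = 0
    · rw [hi]
      have h1 : (fun t => (((P (ψ t)).V 0 k : ℤ) : ℚ)) = fun _ => ((V0 k : ℤ) : ℚ) := by
        funext t
        rw [(P (ψ t)).hV0]
      rw [h1]
      exact SlowQ.const hL1 _
    · refine SlowQ.int hL1 (hM1.mono (Eventually.of_forall fun t => ?_))
      rw [abs_of_nonneg (by have := (P (ψ t)).hM; linarith : (0 : ℝ) ≤ (P (ψ t)).M)]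
      exact (P (ψ t)).hV i hi k
  obtain ⟨B0, hB0⟩ := heightLE_finite _ (finite_fibre F V0 hne)
  have hht : ∀ ε : ℝ, 0 < ε → (∀ t, (P (ψ t)).z ≠ 0) → ∀ᶠ t in atTop,
      absLogHeight (fun a => algebraMap ℚ Qbar ((P (ψ t)).z a)) ≤
        ε * Real.log ((P (ψ t)).u 0) := by
    intro ε hε hz0
    let J : Type := Fin (r + 1) ⊕ (Σ j : Fin m, Fin (Nf j))
    let u' : ℕ → J → ℚ := fun t => Sum.elim (fun i => ((P (ψ t)).u i : ℚ)) fun js => v js.1 t js.2
    let V' : ℕ → J → Fin (n + 1) ⊕ Fin m → ℚ := fun t => Sum.elim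
      (fun i => Sum.elim (fun k => ((P (ψ t)).V i k : ℚ))
        (fun j => -((X.c j : ℚ) * ((P (ψ t)).V i X.k0 : ℚ)) / (X.a j : ℚ)))
      (fun js => Sum.elim (fun _ => 0) (fun j => if j = js.1 then cf js.1 t js.2 / (X.a j : ℚ)
        else 0))
    refine proj_slow' hS (d := d + 1) (by omega) (J := J) hL1 (fun t => (P (ψ t)).Φ)
      (fun t i => by
        obtain ⟨k, hk, hh⟩ := (P (ψ t)).hΦh i
        exact ⟨k, by omega, hh⟩) (fun t => (P (ψ t)).M) (fun t => (P (ψ t)).hM) hM1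
      (fun t i α => (P (ψ t)).hΦc i α) u' (fun t j => ?_) V' (fun j a => ?_)
      (fun t => (P (ψ t)).z) (fun t a => ?_) hz0 (fun t i => (P (ψ t)).hΦz i)
      (fun t => (X.H0 + 1) * ψ t + K) ?_ (fun t => hP2 (ψ t)) ε hε
    · rcases j with i | js
      · exact unitOf_smooth ((P (ψ t)).hu i)
      · exact hv js.1 t js.2
    · rcases j with i | js <;> rcases a with k | j
      · exact hVslow i k
      · show SlowQ _ fun t => -((X.c j : ℚ) * ((P (ψ t)).V i X.k0 : ℚ)) / (X.a j : ℚ)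
        refine ((((SlowQ.const hL1 (-(X.c j : ℚ))).mul (hVslow i X.k0)).div hL1
          (SlowQ.const hL1 (X.a j : ℚ)))).congr fun t => ?_
        ring
      · exact SlowQ.const hL1 0
      · show SlowQ _ fun t => if j = js.1 then cf js.1 t js.2 / (X.a j : ℚ) else 0
        by_cases hj : j = js.1
        · simp only [if_pos hj]
          exact (hcf js.1 js.2).div hL1 (SlowQ.const hL1 _)
        · simp only [if_neg hj]
          exact SlowQ.const hL1 0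
    · show (P (ψ t)).z a = ∑ j : Fin (r + 1) ⊕ (Σ j : Fin m, Fin (Nf j)), u' t j * V' t j a
      rw [Fintype.sum_sum_type]
      have hxk : ∀ k, ((P (ψ t)).x k : ℚ) = ∑ i, ((P (ψ t)).V i k : ℚ) * ((P (ψ t)).u i : ℚ) := by
        intro k
        exact_mod_cast (P (ψ t)).hx k
      rcases a with k | j
      · simp only [u', V', Sum.elim_inl, Sum.elim_inr, mul_zero, Finset.sum_const_zero, add_zero,
          RPt.z]
        rw [hxk k]
        exact Finset.sum_congr rfl fun i _ => mul_comm _ _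
      · simp only [u', V', Sum.elim_inl, Sum.elim_inr, RPt.z]
        have h1 : ∑ i, ((P (ψ t)).u i : ℚ) *
            (-((X.c j : ℚ) * ((P (ψ t)).V i X.k0 : ℚ)) / (X.a j : ℚ)) =
            -(X.c j : ℚ) * ((P (ψ t)).x X.k0 : ℚ) / (X.a j : ℚ) := by
          rw [hxk X.k0, Finset.mul_sum, Finset.sum_div]
          exact Finset.sum_congr rfl fun i _ => by ring
        have h2 : ∑ js : Σ j : Fin m, Fin (Nf j), v js.1 t js.2 *
            (if j = js.1 then cf js.1 t js.2 / (X.a j : ℚ) else 0) =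
            (((toBig X (P (ψ t))).y j : ℤ) : ℚ) / (X.a j : ℚ) := by
          rw [Fintype.sum_sigma, Finset.sum_eq_single j]
          · simp only [if_true]
            rw [hy j t, Finset.sum_div]
            exact Finset.sum_congr rfl fun i _ => by ring
          · intro j' _ hj'
            simp [Ne.symm hj']
          · intro h
            exact absurd (Finset.mem_univ _) h
        rw [h1, h2, hY2 (ψ t) j]
        push_cast
        rw [← hY1 (ψ t) j]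
        have haj := ha' j
        field_simp
        ring
    · refine tendsto_atTop_mono (fun t => ?_) hψt
      nlinarith [Nat.zero_le (ψ t), Nat.zero_le X.H0, Nat.zero_le K]
  -- sizes
  obtain ⟨Cr, hCr⟩ : ∃ Cr : ℝ, Cr = ((r : ℝ) + 1) * (2 * X.H0 + 1) := ⟨_, rfl⟩
  have hH1 : (1 : ℝ) ≤ X.H0 := by exact_mod_cast X.hH0
  have hr0 : (0 : ℝ) ≤ r := Nat.cast_nonneg r
  have hbase : ∀ᶠ t in atTop, Cr * Real.exp ((1 - η / 2) * Real.log ((P (ψ t)).u 0)) <
      ((P (ψ t)).u 0 : ℝ) ∧ (P (ψ t)).M ≤ Real.exp (η / 4 * Real.log ((P (ψ t)).u 0)) ∧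
      1 ≤ ((P (ψ t)).u 0 : ℝ) ∧ 0 ≤ Real.log ((P (ψ t)).u 0) := by
    filter_upwards [hM1 (η / 4) (by positivity),
      (hL1.const_mul_atTop (by positivity : 0 < η / 2)).eventually_gt_atTop (Real.log Cr)] with t h1 h2
    have hu1 : (1 : ℝ) ≤ (P (ψ t)).u 0 := by
      have : 1 ≤ (P (ψ t)).u 0 := Nat.one_le_iff_ne_zero.2 ((P (ψ t)).hu 0).1
      exact_mod_cast this
    have hCr0 : 0 < Cr := by rw [hCr]; positivity
    refine ⟨?_, ?_, hu1, Real.log_nonneg hu1⟩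
    · calc Cr * Real.exp ((1 - η / 2) * Real.log ((P (ψ t)).u 0)) <
          Real.exp (η / 2 * Real.log ((P (ψ t)).u 0)) *
            Real.exp ((1 - η / 2) * Real.log ((P (ψ t)).u 0)) := by
            refine mul_lt_mul_of_pos_right ?_ (Real.exp_pos _)
            rw [← Real.exp_log hCr0]
            exact Real.exp_lt_exp.2 h2
        _ = ((P (ψ t)).u 0 : ℝ) := by
            rw [← Real.exp_add]
            have : η / 2 * Real.log ((P (ψ t)).u 0) + (1 - η / 2) * Real.log ((P (ψ t)).u 0) =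
              Real.log ((P (ψ t)).u 0) := by ring
            rw [this, Real.exp_log (by linarith)]
    · rwa [abs_of_nonneg (by have := (P (ψ t)).hM; linarith : (0 : ℝ) ≤ (P (ψ t)).M)] at h1
  -- the tail of the sum
  have htail : ∀ t, 1 ≤ ((P (ψ t)).u 0 : ℝ) → ∀ (f : Fin (r + 1) → ℝ) (B : ℝ), 0 ≤ B →
      (∀ i, i ≠ 0 → |f i| ≤ B) →
      |∑ i ∈ Finset.univ.erase (0 : Fin (r + 1)), f i * ((P (ψ t)).u i : ℝ)| ≤
        ((r : ℝ) + 1) * B * Real.exp ((1 - η) * Real.log ((P (ψ t)).u 0)) := by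
    intro t hu1 f B hB hf
    calc |∑ i ∈ Finset.univ.erase (0 : Fin (r + 1)), f i * ((P (ψ t)).u i : ℝ)|
        ≤ ∑ i ∈ Finset.univ.erase (0 : Fin (r + 1)), |f i * ((P (ψ t)).u i : ℝ)| :=
          Finset.abs_sum_le_sum_abs _ _
      _ ≤ ∑ _i ∈ Finset.univ.erase (0 : Fin (r + 1)),
          B * Real.exp ((1 - η) * Real.log ((P (ψ t)).u 0)) := by
          refine Finset.sum_le_sum fun i hi => ?_
          have hi0 := Finset.ne_of_mem_erase hi
          rw [abs_mul, abs_of_nonneg (Nat.cast_nonneg _ : (0 : ℝ) ≤ ((P (ψ t)).u i : ℝ))]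
          refine mul_le_mul (hf i hi0) ?_ (Nat.cast_nonneg _) hB
          refine ((P (ψ t)).hdom i hi0).trans (le_of_eq ?_)
          rw [Real.rpow_def_of_pos (by linarith), mul_comm]
      _ ≤ ∑ _i : Fin (r + 1), B * Real.exp ((1 - η) * Real.log ((P (ψ t)).u 0)) :=
          Finset.sum_le_sum_of_subset_of_nonneg (Finset.erase_subset _ _)
            fun _ _ _ => by positivity
      _ = ((r : ℝ) + 1) * B * Real.exp ((1 - η) * Real.log ((P (ψ t)).u 0)) := by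
          rw [Finset.sum_const, Finset.card_univ, Fintype.card_fin, nsmul_eq_mul]
          push_cast
          ring
  have hz0 : ∀ s, (P s).z ≠ 0 := by
    intro s h0
    refine hP1 s ⟨1, one_ne_zero, fun a => ⟨0, by rw [h0]; simp, ?_⟩⟩
    have := (P s).hM
    rw [Int.cast_zero, abs_zero]
    positivity
  obtain ⟨N0, hN0⟩ := exists_nat_ge B0
  obtain ⟨t, h1, ⟨hU, hMe, hu1, hL0⟩, ht⟩ := ((hht (η / 4) (by positivity) fun t => hz0 _).and
    (hbase.and (eventually_ge_atTop N0))).exists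
  obtain ⟨L, hLd⟩ : ∃ L : ℝ, L = Real.log ((P (ψ t)).u 0) := ⟨_, rfl⟩
  rw [← hLd] at h1 hU hMe hL0
  have hMt := (P (ψ t)).hM
  obtain ⟨e1, he1⟩ : ∃ e1 : ℝ, e1 = Real.exp ((1 - η) * L) := ⟨_, rfl⟩
  obtain ⟨e4, he4⟩ : ∃ e4 : ℝ, e4 = Real.exp (η / 4 * L) := ⟨_, rfl⟩
  have he1p : 0 < e1 := by rw [he1]; exact Real.exp_pos _
  have he4p : 1 ≤ e4 := by rw [he4]; exact Real.one_le_exp (by positivity)
  have hee : Real.exp ((1 - η / 2) * L) = e4 * e4 * e1 := by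
    rw [he1, he4, ← Real.exp_add, ← Real.exp_add]
    congr 1
    ring
  rw [hee] at hU
  rw [← he4] at hMe
  have hV0k : (1 : ℝ) ≤ |((V0 X.k0 : ℤ) : ℝ)| := by
    have : 1 ≤ |V0 X.k0| := Int.one_le_abs X.hk0
    exact_mod_cast this
  have hxreal : ∀ k, (((P (ψ t)).x k : ℤ) : ℝ) = (V0 k : ℝ) * ((P (ψ t)).u 0 : ℝ) +
      ∑ i ∈ Finset.univ.erase (0 : Fin (r + 1)), ((P (ψ t)).V i k : ℝ) * ((P (ψ t)).u i : ℝ) := by
    intro k
    have h2 : (((P (ψ t)).x k : ℤ) : ℝ) = ∑ i, ((P (ψ t)).V i k : ℝ) * ((P (ψ t)).u i : ℝ) := by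
      exact_mod_cast (P (ψ t)).hx k
    rw [h2, ← Finset.add_sum_erase _ _ (Finset.mem_univ (0 : Fin (r + 1))), (P (ψ t)).hV0]
  have htl : ∀ k, |∑ i ∈ Finset.univ.erase (0 : Fin (r + 1)), ((P (ψ t)).V i k : ℝ) *
      ((P (ψ t)).u i : ℝ)| ≤ ((r : ℝ) + 1) * e4 * e1 := by
    intro k
    have h2 := htail t hu1 (fun i => ((P (ψ t)).V i k : ℝ)) (P (ψ t)).M (by linarith)
      (fun i hi => (P (ψ t)).hV i hi k)
    rw [← hLd, ← he1] at h2
    refine h2.trans ?_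
    exact mul_le_mul_of_nonneg_right (mul_le_mul_of_nonneg_left hMe (by positivity)) he1p.le
  have hxk0 : ((P (ψ t)).u 0 : ℝ) - ((r : ℝ) + 1) * e4 * e1 ≤ |(((P (ψ t)).x X.k0 : ℤ) : ℝ)| := by
    rw [hxreal]
    have h2 := abs_sub_abs_le_abs_sub ((V0 X.k0 : ℝ) * ((P (ψ t)).u 0 : ℝ))
      (-∑ i ∈ Finset.univ.erase (0 : Fin (r + 1)), ((P (ψ t)).V i X.k0 : ℝ) *
      ((P (ψ t)).u i : ℝ))
    rw [sub_neg_eq_add, abs_neg] at h2
    have h3 : ((P (ψ t)).u 0 : ℝ) ≤ |(V0 X.k0 : ℝ) * ((P (ψ t)).u 0 : ℝ)| := by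
      rw [abs_mul, abs_of_nonneg (Nat.cast_nonneg _ : (0 : ℝ) ≤ ((P (ψ t)).u 0 : ℝ))]
      exact le_mul_of_one_le_left (Nat.cast_nonneg _) hV0k
    have h4 := htl X.k0
    linarith
  have hcr1 : ((r : ℝ) + 1) * e4 * e1 ≤ ((r : ℝ) + 1) * (e4 * e4 * e1) := by
    have h2 : e4 * e1 ≤ e4 * e4 * e1 := by
      have : e4 * e1 ≤ e4 * (e4 * e1) := le_mul_of_one_le_left (by positivity) he4p
      linarith
    calc ((r : ℝ) + 1) * e4 * e1 = ((r : ℝ) + 1) * (e4 * e1) := by ring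
      _ ≤ ((r : ℝ) + 1) * (e4 * e4 * e1) := mul_le_mul_of_nonneg_left h2 (by positivity)
  have hxne : (P (ψ t)).x X.k0 ≠ 0 := by
    intro h0
    rw [h0, Int.cast_zero, abs_zero] at hxk0
    have h3 : ((r : ℝ) + 1) * (e4 * e4 * e1) ≤ Cr * (e4 * e4 * e1) := by
      refine mul_le_mul_of_nonneg_right ?_ (by positivity)
      rw [hCr]
      nlinarith
    linarith
  -- the primitive vector
  have hZne : Z (ψ t) ≠ 0 := by
    intro h0
    refine hz0 (ψ t) (funext fun a => ?_)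
    have h2 := hZz (ψ t) a
    rw [h0, Pi.zero_apply, Int.cast_zero] at h2
    exact (mul_eq_zero.1 h2).resolve_left (by exact_mod_cast hA0)
  obtain ⟨g, Z', hg, hgZ, hZ'⟩ := exists_prim (Z (ψ t)) hZne
  have hheq : absLogHeight (fun a => ((Z (ψ t) a : ℤ) : Qbar)) =
      absLogHeight (fun a => algebraMap ℚ Qbar ((P (ψ t)).z a)) := by
    have h2 : (fun a => ((Z (ψ t) a : ℤ) : Qbar)) =
        ((A : ℤ) : Qbar) • fun a => algebraMap ℚ Qbar ((P (ψ t)).z a) := by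
      funext a
      have h3 := congrArg (algebraMap ℚ Qbar) (hZz (ψ t) a)
      rw [map_mul, map_intCast, map_intCast] at h3
      rw [Pi.smul_apply, smul_eq_mul]
      exact h3.symm
    rw [h2, absLogHeight_smul _ (by exact_mod_cast hA0)]
  rw [hheq] at hZ'
  have hZ'e : ∀ a, |(Z' a : ℝ)| ≤ e4 := fun a => by
    refine (hZ' a).trans ?_
    rw [he4]
    exact Real.exp_le_exp.2 h1
  have hAp : (0 : ℝ) < |((A : ℤ) : ℝ)| := abs_pos.2 (by exact_mod_cast hA0)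
  have hprop : ∀ k l, (P (ψ t)).x k * V0 l = (P (ψ t)).x l * V0 k := by
    intro k l
    by_contra hne'
    obtain ⟨w, hw⟩ : ∃ w : ℤ, w = Z' (Sum.inl k) * V0 l - Z' (Sum.inl l) * V0 k := ⟨_, rfl⟩
    have hgw : g * w = A * ((P (ψ t)).x k * V0 l - (P (ψ t)).x l * V0 k) := by
      have h2 : Z (ψ t) (Sum.inl k) = A * (P (ψ t)).x k := by rw [hZ]; rfl
      have h3 : Z (ψ t) (Sum.inl l) = A * (P (ψ t)).x l := by rw [hZ]; rfl
      rw [hw, mul_sub, ← mul_assoc, ← mul_assoc, ← hgZ, ← hgZ, h2, h3]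
      ring
    have hw0 : w ≠ 0 := by
      intro h0
      rw [h0, mul_zero] at hgw
      exact hne' (sub_eq_zero.1 ((mul_eq_zero.1 hgw.symm).resolve_left hA0))
    have h2 : |(g : ℝ)| ≤ |((g * w : ℤ) : ℝ)| := by
      push_cast
      rw [abs_mul]
      refine le_mul_of_one_le_right (abs_nonneg _) ?_
      have : 1 ≤ |w| := Int.one_le_abs hw0
      exact_mod_cast this
    have h3 : (((P (ψ t)).x k * V0 l - (P (ψ t)).x l * V0 k : ℤ) : ℝ) =
        ∑ i ∈ Finset.univ.erase (0 : Fin (r + 1)), (((P (ψ t)).V i k : ℝ) * (V0 l : ℝ) -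
          ((P (ψ t)).V i l : ℝ) * (V0 k : ℝ)) * ((P (ψ t)).u i : ℝ) := by
      push_cast
      rw [hxreal k, hxreal l, add_mul, add_mul, Finset.sum_mul, Finset.sum_mul]
      have h4 : ∑ i ∈ Finset.univ.erase (0 : Fin (r + 1)), (((P (ψ t)).V i k : ℝ) * (V0 l : ℝ) -
          ((P (ψ t)).V i l : ℝ) * (V0 k : ℝ)) * ((P (ψ t)).u i : ℝ) =
          ∑ i ∈ Finset.univ.erase (0 : Fin (r + 1)), ((P (ψ t)).V i k : ℝ) *
            ((P (ψ t)).u i : ℝ) * (V0 l : ℝ) -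
          ∑ i ∈ Finset.univ.erase (0 : Fin (r + 1)), ((P (ψ t)).V i l : ℝ) *
            ((P (ψ t)).u i : ℝ) * (V0 k : ℝ) := by
        rw [← Finset.sum_sub_distrib]
        exact Finset.sum_congr rfl fun i _ => by ring
      rw [h4]
      ring
    have h4 : |(((P (ψ t)).x k * V0 l - (P (ψ t)).x l * V0 k : ℤ) : ℝ)| ≤
        ((r : ℝ) + 1) * (2 * X.H0 * e4) * e1 := by
      rw [h3]
      have h5 := htail t hu1 (fun i => ((P (ψ t)).V i k : ℝ) * (V0 l : ℝ) -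
          ((P (ψ t)).V i l : ℝ) * (V0 k : ℝ)) (2 * X.H0 * e4) (by positivity) (fun i hi => by
        have h6 : ∀ k, |((V0 k : ℤ) : ℝ)| ≤ X.H0 := fun k => by exact_mod_cast X.hHV k
        have h7 : ∀ k, |((P (ψ t)).V i k : ℝ)| ≤ e4 := fun k => ((P (ψ t)).hV i hi k).trans hMe
        calc |((P (ψ t)).V i k : ℝ) * (V0 l : ℝ) - ((P (ψ t)).V i l : ℝ) * (V0 k : ℝ)|
            ≤ |((P (ψ t)).V i k : ℝ) * (V0 l : ℝ)| + |((P (ψ t)).V i l : ℝ) * (V0 k : ℝ)| :=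
              abs_sub _ _
          _ ≤ e4 * X.H0 + e4 * X.H0 := by
              rw [abs_mul, abs_mul]
              exact add_le_add (mul_le_mul (h7 k) (h6 l) (abs_nonneg _) (by linarith))
                (mul_le_mul (h7 l) (h6 k) (abs_nonneg _) (by linarith))
          _ = 2 * X.H0 * e4 := by ring)
      rw [← hLd, ← he1] at h5
      exact h5
    have h5 : |((A : ℤ) : ℝ)| * |(((P (ψ t)).x X.k0 : ℤ) : ℝ)| ≤ |(g : ℝ)| * e4 := by
      have h6 : A * (P (ψ t)).x X.k0 = g * Z' (Sum.inl X.k0) := by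
        rw [← hgZ, hZ]
        rfl
      have h7 : |((A : ℤ) : ℝ)| * |(((P (ψ t)).x X.k0 : ℤ) : ℝ)| =
          |(g : ℝ)| * |(Z' (Sum.inl X.k0) : ℝ)| := by
        rw [← abs_mul, ← abs_mul]
        exact_mod_cast congrArg (fun z : ℤ => |(z : ℝ)|) h6
      rw [h7]
      exact mul_le_mul_of_nonneg_left (hZ'e _) (abs_nonneg _)
    have h6 : |((g * w : ℤ) : ℝ)| ≤ |((A : ℤ) : ℝ)| * (((r : ℝ) + 1) * (2 * X.H0 * e4) * e1) := by
      rw [hgw]
      have h7 : ((A * ((P (ψ t)).x k * V0 l - (P (ψ t)).x l * V0 k) : ℤ) : ℝ) =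
        ((A : ℤ) : ℝ) * (((P (ψ t)).x k * V0 l - (P (ψ t)).x l * V0 k : ℤ) : ℝ) := by
        push_cast
        ring
      rw [h7, abs_mul]
      exact mul_le_mul_of_nonneg_left h4 (abs_nonneg _)
    have h7 : |((A : ℤ) : ℝ)| * (((P (ψ t)).u 0 : ℝ) - ((r : ℝ) + 1) * e4 * e1) ≤
        |((A : ℤ) : ℝ)| * (((r : ℝ) + 1) * (2 * X.H0 * e4) * e1) * e4 := by
      calc |((A : ℤ) : ℝ)| * (((P (ψ t)).u 0 : ℝ) - ((r : ℝ) + 1) * e4 * e1)
          ≤ |((A : ℤ) : ℝ)| * |(((P (ψ t)).x X.k0 : ℤ) : ℝ)| :=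
            mul_le_mul_of_nonneg_left hxk0 (abs_nonneg _)
        _ ≤ |(g : ℝ)| * e4 := h5
        _ ≤ |((A : ℤ) : ℝ)| * (((r : ℝ) + 1) * (2 * X.H0 * e4) * e1) * e4 :=
            mul_le_mul_of_nonneg_right (h2.trans h6) (by linarith)
    have h8 : ((P (ψ t)).u 0 : ℝ) - ((r : ℝ) + 1) * e4 * e1 ≤
        ((r : ℝ) + 1) * (2 * X.H0 * e4) * e1 * e4 := by
      rw [mul_assoc |((A : ℤ) : ℝ)|] at h7
      exact le_of_mul_le_mul_left h7 hAp
    have h9 : ((P (ψ t)).u 0 : ℝ) ≤ Cr * (e4 * e4 * e1) := by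
      calc ((P (ψ t)).u 0 : ℝ) ≤ ((r : ℝ) + 1) * e4 * e1 +
            ((r : ℝ) + 1) * (2 * X.H0 * e4) * e1 * e4 := by linarith
        _ ≤ ((r : ℝ) + 1) * (e4 * e4 * e1) + ((r : ℝ) + 1) * (2 * X.H0 * e4) * e1 * e4 := by
            linarith
        _ = Cr * (e4 * e4 * e1) := by rw [hCr]; ring
    linarith
  -- the point is in the fibre
  have hV0' : ((V0 X.k0 : ℤ) : ℚ) ≠ 0 := by exact_mod_cast X.hk0
  obtain ⟨lam, hlam⟩ : ∃ lam : ℚ, lam = ((P (ψ t)).x X.k0 : ℚ) / (V0 X.k0 : ℚ) := ⟨_, rfl⟩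
  have hlam0 : lam ≠ 0 := by
    rw [hlam]
    exact div_ne_zero (by exact_mod_cast hxne) hV0'
  have hxl : ∀ k, ((P (ψ t)).x k : ℚ) = lam * (V0 k : ℚ) := by
    intro k
    rw [hlam, div_mul_eq_mul_div, eq_div_iff hV0']
    exact_mod_cast hprop k X.k0
  have hmem := hB0 (fun a => lam⁻¹ * (P (ψ t)).z a) ⟨fun k => by
    show lam⁻¹ * ((P (ψ t)).x k : ℚ) = _
    rw [hxl, ← mul_assoc, inv_mul_cancel₀ hlam0, one_mul], fun j => by
    show (fib (F j) fun k => (V0 k : ℚ)).eval (lam⁻¹ * (P (ψ t)).y j) = 0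
    rw [fib_eval]
    have h2 : (fun o : Option (Fin (n + 1)) => o.elim (lam⁻¹ * (P (ψ t)).y j)
        fun k => (V0 k : ℚ)) = fun o => lam⁻¹ * o.elim ((P (ψ t)).y j)
          fun k => ((P (ψ t)).x k : ℚ) := by
      funext o
      cases o with
      | none => rfl
      | some k =>
        show (V0 k : ℚ) = lam⁻¹ * ((P (ψ t)).x k : ℚ)
        rw [hxl, ← mul_assoc, inv_mul_cancel₀ hlam0, one_mul]
    rw [h2, hom_scale (X.hF j), (P (ψ t)).hxy j, mul_zero]⟩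
  have hfinal := hmem.scale lam hlam0
  have h2 : (fun a => lam * (lam⁻¹ * (P (ψ t)).z a)) = (P (ψ t)).z := by
    funext a
    rw [← mul_assoc, mul_inv_cancel₀ hlam0, one_mul]
  rw [h2] at hfinal
  refine hP1 (ψ t) (hfinal.mono (hN0.trans ?_))
  have h2M : (1 : ℝ) ≤ 2 * (P (ψ t)).M := by linarith
  calc (N0 : ℝ) ≤ 2 ^ N0 := by exact_mod_cast (Nat.lt_two_pow_self).le
    _ ≤ (2 * (P (ψ t)).M) ^ N0 := pow_le_pow_left₀ (by norm_num) (by linarith) _
    _ ≤ (2 * (P (ψ t)).M) ^ ((X.H0 + 1) * ψ t + K) := by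
        refine pow_le_pow_right₀ h2M ?_
        have h3 : t ≤ ψ t := hψ.le_apply
        nlinarith [Nat.zero_le (ψ t), Nat.zero_le X.H0, Nat.zero_le K]

end Pool.Agent.H455.RP
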