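import Mathlib
import Pool.Agent.H455.SZ3

set_option autoImplicit false

/-!
# Szpiro's inequality for compressible pairs
-/

open Finset Filter Topology

namespace Pool.Agent.H455.SZ

open Pool.Agent.TH419.WI Pool.Agent.TH419.HX Pool.Agent.H455.VC Pool.Agent.H455.RT
open Pool.Agent.H455.CB Pool.Agent.H455.AB
open Pool.Agent.R343.LT
open Pool.Agent.V11288.SZ (N6 N6_pos)

variable {S : Finset ℕ} {G m : ℕ} {c1 c2 : ℤ} {alt : Prop}

theorem N6_dvd (x y : ℤ) : N6 x y ∣ (x ^ 3 - y ^ 2).natAbs ^ 2 := by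
  unfold N6
  have h2 : (∏ p ∈ (x ^ 3 - y ^ 2).natAbs.primeFactors.filter (fun p => 5 ≤ p),
      if (p : ℤ) ∣ x then p ^ 2 else p) ∣
      ∏ p ∈ (x ^ 3 - y ^ 2).natAbs.primeFactors.filter (fun p => 5 ≤ p), p ^ 2 := by
    refine Finset.prod_dvd_prod_of_dvd _ _ fun p _ => ?_
    split_ifs
    · exact dvd_rfl
    · exact dvd_pow_self p (by norm_num)
  refine h2.trans ?_
  rw [Finset.prod_pow]
  refine pow_dvd_pow_of_dvd ?_ 2
  exact (Finset.prod_dvd_prod_of_subset _ _ _ (Finset.filter_subset _ _)).trans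
    (Nat.prod_primeFactors_dvd _)

theorem Cur.z_le (P : Cur S G m c1 c2 alt) (i : Fin 4) : (P.z i).natAbs ≤ 4 * P.Y ^ 4 := by
  obtain ⟨x, hx⟩ : ∃ x : ℤ, x = c1 * P.a := ⟨_, rfl⟩
  obtain ⟨y, hy⟩ : ∃ y : ℤ, y = c2 * P.b := ⟨_, rfl⟩
  have hY1 := P.one_le_Y
  have hYY : P.Y = max (x.natAbs ^ 3) (y.natAbs ^ 2) := by rw [hx, hy]; rfl
  have hP := P.P
  rw [← hx, ← hy] at hP
  obtain ⟨Y, hY⟩ : ∃ Y : ℕ, Y = P.Y := ⟨_, rfl⟩
  rw [← hY] at hY1 hYY ⊢
  have h4 : Y ≤ 4 * Y ^ 4 := (Nat.le_self_pow (by norm_num) Y).trans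
    (Nat.le_mul_of_pos_left _ (by norm_num))
  have hxY : x.natAbs ^ 3 ≤ Y := by rw [hYY]; exact le_max_left _ _
  have hyY : y.natAbs ^ 2 ≤ Y := by rw [hYY]; exact le_max_right _ _
  have hxY1 : x.natAbs ≤ Y := (Nat.le_self_pow (by norm_num) _).trans hxY
  have hyY1 : y.natAbs ≤ Y := (Nat.le_self_pow (by norm_num) _).trans hyY
  have hc1 : c1 ≠ 0 := by
    rintro rfl
    apply hP.hx
    rw [hx, zero_mul]
  have hc2 : c2 ≠ 0 := by
    rintro rfl
    apply hP.hy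
    rw [hy, zero_mul]
  have hn0 : (x ^ 3 - y ^ 2).natAbs ≠ 0 := by simpa using hP.hn
  have hnY : (x ^ 3 - y ^ 2).natAbs ≤ 2 * Y := by
    have h1 : (x ^ 3 - y ^ 2).natAbs ≤ (x ^ 3).natAbs + (y ^ 2).natAbs :=
      Int.natAbs_sub_le _ _
    rw [Int.natAbs_pow, Int.natAbs_pow] at h1
    omega
  have hnY2 : (x ^ 3 - y ^ 2).natAbs ^ 2 ≤ 4 * Y ^ 4 := by
    calc (x ^ 3 - y ^ 2).natAbs ^ 2 ≤ (2 * Y) ^ 2 := Nat.pow_le_pow_left hnY 2
      _ = 4 * Y ^ 2 := by ring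
      _ ≤ 4 * Y ^ 4 := Nat.mul_le_mul_left _ (Nat.pow_le_pow_right hY1 (by norm_num))
  fin_cases i
  · show P.a.natAbs ≤ _
    refine le_trans ?_ (hxY1.trans h4)
    rw [hx, Int.natAbs_mul]
    exact Nat.le_mul_of_pos_left _ (Int.natAbs_pos.2 hc1)
  · show P.b.natAbs ≤ _
    refine le_trans ?_ (hyY1.trans h4)
    rw [hy, Int.natAbs_mul]
    exact Nat.le_mul_of_pos_left _ (Int.natAbs_pos.2 hc2)
  · show ((prt S (((c1 * P.a) ^ 3).gcd ((c2 * P.b) ^ 2)) : ℕ) : ℤ).natAbs ≤ _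
    rw [← hx, ← hy, Int.natAbs_natCast]
    have hg : 0 < (x ^ 3).gcd (y ^ 2) := Int.gcd_pos_iff.2 (Or.inl (pow_ne_zero _ hP.hx))
    refine (prt_le hg.ne').trans (le_trans ?_ (hxY.trans h4))
    have h1 : (x ^ 3).gcd (y ^ 2) ∣ (x ^ 3).natAbs := by
      rw [Int.gcd_eq_natAbs]
      exact Nat.gcd_dvd_left _ _
    rw [Int.natAbs_pow] at h1
    exact Nat.le_of_dvd (pow_pos (Int.natAbs_pos.2 hP.hx) 3) h1
  · show P.Z.natAbs ≤ _
    rcases P.hZ with ⟨-, h1⟩ | ⟨-, h1⟩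
    · rw [h1, ← hx, ← hy, Int.natAbs_natCast]
      refine (prt_le (N6_pos x y).ne').trans (le_trans ?_ hnY2)
      exact Nat.le_of_dvd (pow_pos (Nat.pos_of_ne_zero hn0) 2) (N6_dvd x y)
    · rw [← hx, ← hy] at h1
      have h3 := congrArg Int.natAbs h1
      rw [Int.natAbs_mul, Int.natAbs_natCast, Int.natAbs_natCast] at h3
      calc P.Z.natAbs ≤ P.Z.natAbs * prt S (N6 x y) := Nat.le_mul_of_pos_right _ (prt_pos _)
        _ = prt S (x ^ 3 - y ^ 2).natAbs := h3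
        _ ≤ (x ^ 3 - y ^ 2).natAbs := prt_le hn0
        _ ≤ (x ^ 3 - y ^ 2).natAbs ^ 2 := Nat.le_self_pow (by norm_num) _
        _ ≤ _ := hnY2

theorem Cur.log_z_le (P : Cur S G m c1 c2 alt) (i : Fin 4) :
    Real.log (max 1 |(P.z i : ℝ)|) ≤ 2 + 4 * P.H := by
  have h1 := P.z_le i
  have h2 : (0 : ℝ) < P.Y := by exact_mod_cast P.one_le_Y
  have h3 : max 1 |(P.z i : ℝ)| ≤ 4 * (P.Y : ℝ) ^ 4 := by
    refine max_le ?_ ?_
    · have h4 : (1 : ℝ) ≤ (P.Y : ℝ) ^ 4 := one_le_pow₀ (by exact_mod_cast P.one_le_Y)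
      linarith
    · have h4 : |(P.z i : ℝ)| = (((P.z i).natAbs : ℕ) : ℝ) := by
        rw [Nat.cast_natAbs, Int.cast_abs]
      rw [h4]
      exact_mod_cast h1
  have h4 := Real.log_le_log (by positivity) h3
  rw [Real.log_mul (by norm_num) (by positivity), Real.log_pow] at h4
  have h5 : Real.log 4 ≤ 2 := by
    have h6 : (4 : ℝ) = 2 ^ 2 := by norm_num
    rw [h6, Real.log_pow]
    have := Real.log_two_lt_d9
    push_cast
    linarith
  have h6 : Real.log (P.Y : ℝ) = P.H := rfl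
  rw [h6] at h4
  push_cast at h4
  linarith

/-- **The uniform bound.** -/
theorem main (hS : ∀ p ∈ S, p.Prime) (G m z : ℕ) (c1 c2 : ℤ) (alt : Prop) (ε : ℝ) (hε : 0 < ε)
    {g h : ℕ} (hg : 2 ≤ g) (hgS : g.primeFactors ⊆ S) (hh : 2 ≤ h) (hhS : h.primeFactors ⊆ S) :
    ∃ C : ℝ, ∀ P : Cur S G m c1 c2 alt,
      (∀ i, LZDigits ((![g, g, g, h] : Fin 4 → ℕ) i) z (P.z i) ∨
        Rep ((![g, g, g, h] : Fin 4 → ℕ) i) z P.M (P.z i)) →
      P.H ≤ (6 + ε) * Real.log P.N + C * (1 + Real.log P.M) := by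
  classical
  obtain ⟨b, hbd⟩ : ∃ b : Fin 4 → ℕ, b = ![g, g, g, h] := ⟨_, rfl⟩
  have hb : ∀ i, 2 ≤ b i := by
    rw [hbd]
    intro i
    fin_cases i
    · exact hg
    · exact hg
    · exact hg
    · exact hh
  have hbgh : ∀ i, b i ≤ g + h := by
    rw [hbd]
    intro i
    fin_cases i
    · exact Nat.le_add_right _ _
    · exact Nat.le_add_right _ _
    · exact Nat.le_add_right _ _
    · exact Nat.le_add_left _ _
  rw [← hbd]
  let 𝒳 : Type := {P : Cur S G m c1 c2 alt × (Fin 4 → Prop) //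
    ∀ i, ¬ P.2 i → Rep (b i) z P.1.M (P.1.z i)}
  have hlgh : 0 ≤ Real.log ((g + h : ℕ) : ℝ) := Real.log_natCast_nonneg _
  obtain ⟨C1, hC1⟩ := transferQ (ι := Fin 4) (X := 𝒳) b hb z ((g + h : ℕ) : ℤ)
    (Int.natCast_nonneg _) (6 + (z + 1) * Real.log ((g + h : ℕ) : ℝ)) (by positivity)
    (fun C P => P.1.1.H ≤ (6 + ε) * Real.log P.1.1.N + C * (1 + Real.log P.1.1.M))
    (by
      intro C C' P hCC h1
      refine h1.trans (add_le_add le_rfl (mul_le_mul_of_nonneg_right hCC ?_))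
      have := Real.log_nonneg P.1.1.hM
      linarith) (fun P => P.1.1.H) (fun P => P.1.1.H_nonneg)
    (fun P i => if P.1.2 i then P.1.1.z i else 0)
    (by
      intro T
      obtain ⟨δ, hδ, C, hC⟩ := unif (S := S) hS G m (T + 1 + z) c1 c2 alt ε hε hg hgS hh hhS
        (Real.log (((T : ℝ) + 1) * ((g + h : ℕ) : ℝ)))
      refine ⟨δ, hδ, C, fun P D hD hDl hsp => ?_⟩
      have hlM : 0 ≤ Real.log P.1.1.M := Real.log_nonneg P.1.1.hM
      have hM1 := P.1.1.hM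
      have hs := P.1.1.H_nonneg
      have hgh : (1 : ℝ) ≤ ((g + h : ℕ) : ℝ) := by exact_mod_cast (by omega : 1 ≤ g + h)
      have hTb : (1 : ℝ) ≤ ((T : ℝ) + 1) * ((g + h : ℕ) : ℝ) := by
        have h2 : (0 : ℝ) ≤ T := Nat.cast_nonneg T
        nlinarith
      have he1 : 1 ≤ Real.exp (δ * (1 + P.1.1.H)) := Real.one_le_exp (by positivity)
      obtain ⟨R, hR⟩ : ∃ R : ℝ, R = ((T : ℝ) + 1) * ((g + h : ℕ) : ℝ) *
        Real.exp (δ * (1 + P.1.1.H)) * P.1.1.M := ⟨_, rfl⟩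
      have hTe : 1 ≤ ((T : ℝ) + 1) * ((g + h : ℕ) : ℝ) * Real.exp (δ * (1 + P.1.1.H)) :=
        one_le_mul_of_one_le_of_one_le hTb he1
      have k1 : Real.exp (δ * (1 + P.1.1.H)) ≤ R := by
        rw [hR]
        calc Real.exp (δ * (1 + P.1.1.H)) ≤ ((T : ℝ) + 1) * ((g + h : ℕ) : ℝ) *
              Real.exp (δ * (1 + P.1.1.H)) := le_mul_of_one_le_left (by linarith) hTb
          _ ≤ _ := le_mul_of_one_le_right (by linarith) hM1
      have k2 : ((T : ℝ) + 1) * ((g + h : ℕ) : ℝ) ≤ R := by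
        rw [hR]
        calc ((T : ℝ) + 1) * ((g + h : ℕ) : ℝ) ≤ ((T : ℝ) + 1) * ((g + h : ℕ) : ℝ) *
              Real.exp (δ * (1 + P.1.1.H)) := le_mul_of_one_le_right (by linarith) he1
          _ ≤ _ := le_mul_of_one_le_right (by linarith) hM1
      have k3 : P.1.1.M ≤ R := by
        rw [hR]
        exact le_mul_of_one_le_left (by linarith) hTe
      refine hC P.1.1 R (hM1.trans k3) ?_ ?_
      · rw [hR, Real.log_mul (by positivity) (by linarith), Real.log_mul (by positivity)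
          (Real.exp_pos _).ne', Real.log_exp]
      · rw [← hbd]
        intro i
        by_cases hi : P.1.2 i
        · have h1 := hsp i
          simp only [hi, if_true] at h1
          obtain ⟨l, v, hv, hlv⟩ := spq_nat (hb i) (Int.natCast_nonneg _) h1
          refine Rep.mono (T := T + 1) (by omega) le_rfl ⟨D i, l, v, hD i, ?_, fun j => ?_, hlv⟩
          · refine le_trans ?_ k1
            have h2 : (0 : ℝ) < D i := by exact_mod_cast hD i
            rw [← Real.log_le_iff_le_exp h2]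
            exact hDl i
          · refine le_trans ?_ k2
            have h2 := hv j
            exact_mod_cast h2
        · exact (P.2 i hi).mono (by omega) k3)
  refine ⟨C1, fun P h1 => ?_⟩
  refine hC1 ⟨(P, fun i => LZDigits (b i) z (P.z i)), fun i hi => (h1 i).resolve_left hi⟩
    fun i => ?_
  simp only
  have hHn := P.H_nonneg
  have hbi : Real.log (b i) ≤ Real.log ((g + h : ℕ) : ℝ) :=
    Real.log_le_log (by have := hb i; exact_mod_cast (by omega : 0 < b i))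
      (by exact_mod_cast hbgh i)
  have key : ∀ x : ℤ, LZDigits (b i) z x → places (b i) x * Real.log (b i) ≤
      (6 + (z + 1) * Real.log ((g + h : ℕ) : ℝ)) * (1 + P.H) →
      LZWd (b i) z ((g + h : ℕ) : ℤ) ((6 + (z + 1) * Real.log ((g + h : ℕ) : ℝ)) * (1 + P.H))
        x := by
    intro x hx hpl
    obtain ⟨a, N, k1, k2, k3, k4⟩ := hx.toWd (hb i) hpl
    refine ⟨a, N, k1, fun j hj => (k2 j hj).trans ?_, k3, k4⟩
    exact_mod_cast hbgh i
  have hz0 : (0 : ℝ) ≤ z := Nat.cast_nonneg z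
  have hzl : 0 ≤ (z : ℝ) * Real.log ((g + h : ℕ) : ℝ) := mul_nonneg hz0 hlgh
  have hzH : 0 ≤ ((z : ℝ) + 1) * Real.log ((g + h : ℕ) : ℝ) * P.H := by positivity
  split_ifs with hi
  · refine key _ hi ((places_le (hb i) _).trans ?_)
    have h2 := P.log_z_le i
    nlinarith
  · refine ⟨fun _ => 0, z, ⟨fun k => k, rfl, rfl, fun k _ => Or.inl rfl⟩, fun j _ => ?_, ?_,
      Or.inl (by simp)⟩
    · rw [abs_zero]
      exact Int.natCast_nonneg _
    · have h2 : (z : ℝ) * Real.log (b i) ≤ z * Real.log ((g + h : ℕ) : ℝ) :=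
        mul_le_mul_of_nonneg_left hbi hz0
      nlinarith

end Pool.Agent.H455.SZ
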