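import Mathlib
import Pool.Agent.H455.WP4

/-!
# The failure over every number field
-/

set_option autoImplicit false

namespace Pool.Agent.H455.WP

open NumberField Real Polynomial Module Filter
open Pool.Agent.H505.VL Pool.Agent.H505.VL.Pt
open Pool.Agent.Results.MP_e44225_nt

theorem mainAll (hALG : S_ALG) (hDQ : S_DQ) (hPROX : S_PROX) (hHT : S_HT) (hBC : S_BC)
    (hIOTA : S_IOTA) (hSPLIT : S_SPLIT)
    (k : Type) [Field k] [NumberField k] (f : k[X]) (hf : f.Separable) (hd : 3 ≤ f.natDegree) :
    ∃ r : ℕ, ∀ T : Finset ℕ, (∀ p ∈ T, p.Prime) → ∀ C b : ℝ, 0 < C →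
      C < (finrank ℚ k : ℝ) / 2 * ((T.card : ℝ) - 1) → ∀ g w : ℝ, 1 ≤ g →
      g - 1 + w = ((f.natDegree : ℝ) - 2) / 2 →
      {P : AlgebraicClosure k × AlgebraicClosure k | P.2 ^ 2 = aeval P.1 f ∧
        finrank k (resField k P) ≤ r ∧
        C * log⁺ (heightA k P) + logDisc k P + b ≤
          (g - 1) * heightA k P + w * prox k T {none} P}.Infinite := by
  obtain ⟨K, _, _, _, α, β, t₀, F, hα, ht₀, hdeg, hfK⟩ := hSPLIT k f hf hd
  obtain ⟨ι, hι⟩ := hIOTA k K
  have hιinj : Function.Injective ι := ι.injective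
  refine ⟨finrank k K * 2, ?_⟩
  intro T hT C b hC hCT g w hg hgw
  haveI : FiniteDimensional k K := by
    haveI : IsScalarTower ℚ k K := IsScalarTower.of_algebraMap_eq' (Subsingleton.elim _ _)
    exact FiniteDimensional.right ℚ k K
  have he0 : (0 : ℝ) < finrank k K := by exact_mod_cast finrank_pos
  have he1 : (1 : ℝ) ≤ finrank k K := by
    exact_mod_cast (Nat.succ_le_of_lt finrank_pos)
  have hmul : (finrank ℚ K : ℝ) = finrank ℚ k * finrank k K := by
    haveI : IsScalarTower ℚ k K := IsScalarTower.of_algebraMap_eq' (Subsingleton.elim _ _)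
    exact_mod_cast (finrank_mul_finrank ℚ k K).symm
  have hfK0 : f.map (algebraMap k K) ≠ 0 := by
    rw [Polynomial.map_ne_zero_iff (algebraMap k K).injective]
    exact hf.ne_zero
  have hinf := mainK hALG hDQ hPROX hHT K α β t₀ F (f.map (algebraMap k K)) hα ht₀ hfK hfK0 T hT
    (C * finrank k K) (by positivity) (by
      rw [hmul]
      have := mul_lt_mul_of_pos_right hCT he0
      calc C * (finrank k K : ℝ) < _ := this
        _ = _ := by ring) (b * finrank k K)
  refine (hinf.image (f := fun P : AlgebraicClosure K × AlgebraicClosure K =>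
    ((ι P.1, ι P.2) : AlgebraicClosure k × AlgebraicClosure k)) ?_).mono ?_
  · rintro ⟨x, y⟩ _ ⟨x', y'⟩ _ h
    have h1 := congrArg Prod.fst h
    have h2 := congrArg Prod.snd h
    exact Prod.ext (hιinj h1) (hιinj h2)
  · rintro _ ⟨P, ⟨hP1, hP2, hP3, hP4⟩, rfl⟩
    obtain ⟨b1, b2, b3, b4⟩ := hBC k K ι hι T hT P
    refine ⟨?_, b1.trans (Nat.mul_le_mul_left _ hP2), ?_⟩
    · change (ι P.2) ^ 2 = aeval (ι P.1) f
      have h1 : (ι.comp ((algebraMap K (AlgebraicClosure K)).comp (algebraMap k K))) =
          algebraMap k (AlgebraicClosure k) := RingHom.ext hι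
      rw [← map_pow, hP1, aeval_def, eval₂_map, hom_eval₂, h1, aeval_def]
    · have hh0 : 0 ≤ heightA K P := by
        unfold heightA
        exact div_nonneg (Height.zero_le_logHeight₁ _) (Nat.cast_nonneg _)
      have q1 : log⁺ (heightA k (ι P.1, ι P.2)) ≤ log⁺ (heightA K P) := by
        rw [b2]
        exact Real.posLog_le_posLog (by positivity) (div_le_self hh0 he1)
      have q2 : prox k T {none} (ι P.1, ι P.2) ≤ heightA k (ι P.1, ι P.2) := by
        rw [b2, b3]
        exact div_le_div_of_nonneg_right hP4 he0.le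
      have q3 : (C * finrank k K) * log⁺ (heightA K P) + logDisc K P + b * finrank k K ≤
          ((f.natDegree : ℝ) - 2) / 2 * prox K T {none} P := by
        refine hP3.trans (le_of_eq ?_)
        congr 2
        rw [← hdeg]
        push_cast
        ring
      have q4 : C * log⁺ (heightA K P) + logDisc K P / finrank k K + b ≤
          ((f.natDegree : ℝ) - 2) / 2 * (prox K T {none} P / finrank k K) := by
        have h1 := div_le_div_of_nonneg_right q3 he0.le
        have h2 : ((C * finrank k K) * log⁺ (heightA K P) + logDisc K P + b * finrank k K) /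
            (finrank k K : ℝ) = C * log⁺ (heightA K P) + logDisc K P / finrank k K + b := by
          field_simp
        have h3 : ((f.natDegree : ℝ) - 2) / 2 * prox K T {none} P / (finrank k K : ℝ) =
            ((f.natDegree : ℝ) - 2) / 2 * (prox K T {none} P / finrank k K) := by ring
        rw [h2, h3] at h1
        exact h1
      rw [← b3, ← hgw] at q4
      have q5 := mul_le_mul_of_nonneg_left q1 hC.le
      have q6 := mul_le_mul_of_nonneg_left q2 (by linarith : (0 : ℝ) ≤ g - 1)
      have q7 : (g - 1 + w) * prox k T {none} (ι P.1, ι P.2) =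
        (g - 1) * prox k T {none} (ι P.1, ι P.2) + w * prox k T {none} (ι P.1, ι P.2) := by ring
      rw [q7] at q4
      linarith

end Pool.Agent.H455.WP
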