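import Mathlib
import Pool.Agent.H455.WPS

/-!
# Interfaces: the logarithmic error term on elliptic curves, every divisor `D ≠ 0`
-/

set_option autoImplicit false

namespace Pool.Agent.H455.WP

open NumberField Real Polynomial Module
open Pool.Agent.H505.VL Pool.Agent.H505.VL.Pt
open scoped Classical

/-- The points of the elliptic curve `W` over the algebraic closure of `k`. -/
abbrev Pts (k : Type) [Field k] (W : WeierstrassCurve k) : Type :=
  WeierstrassCurve.Affine.Point (W.baseChange (AlgebraicClosure k))

/-- The affine coordinates `(x, y)` of a point; `(0, 0)` for the point at infinity. -/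
noncomputable def crd {k : Type} [Field k] {W : WeierstrassCurve k} :
    Pts k W → AlgebraicClosure k × AlgebraicClosure k
  | .zero => (0, 0)
  | .some x y _ => (x, y)

/-- The inclusion `W(k) → W(kbar)`. -/
noncomputable def incl {k : Type} [Field k] (W : WeierstrassCurve k) :
    WeierstrassCurve.Affine.Point (W.baseChange k) →+ Pts k W :=
  WeierstrassCurve.Affine.Point.map (Algebra.ofId k (AlgebraicClosure k))

/-- The proximity function `m_S(D, P) = ∑_{Q ∈ D} m_S(O, P - Q)` of a finite set `D` of points of
`W(kbar)` (stable under the Galois group), where `S` consists of the infinite places of `k` and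
the places above the primes in `T`, and `m_S(O, ·) = m_S(x^* ∞, ·) / 2`. -/
noncomputable def mS (k : Type) [Field k] [NumberField k] (W : WeierstrassCurve k) (T : Finset ℕ)
    (D : Finset (Pts k W)) (P : Pts k W) : ℝ :=
  ∑ Q ∈ D, prox k T {none} (crd (P - Q)) / 2

/-- EF: the equation in the form `(2 y + a₁ x + a₃)² = f(x)` with a separable cubic `f`.
PROOF. `f = C 4 * X ^ 3 + C b₂ * X ^ 2 + C (2 b₄) * X + C b₆ = W.twoTorsionPolynomial.toPoly`,
discriminant `16 Δ ≠ 0` (`WeierstrassCurve.twoTorsionPolynomial_discr`,
`twoTorsionPolynomial_isUnit_discr` or `_disc`; `Cubic.discr_ne_zero_iff_roots_nodup` over the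
algebraic closure, `Polynomial.nodup_roots_iff_of_splits`, `Polynomial.separable_map`).
The identity: `(2y + a₁x + a₃)² - f(x) = 4 (y² + a₁xy + a₃y - x³ - a₂x² - a₄x - a₆)`. A point of
`(2 y + a₁ x + a₃)² = f(x)` is nonsingular as `Δ ≠ 0`
(`WeierstrassCurve.Affine.equation_iff_nonsingular` for `W.IsElliptic`). -/
def S_EF : Prop :=
  ∀ (k : Type) [Field k] [NumberField k] (W : WeierstrassCurve k) [W.IsElliptic],
    ∃ f : k[X], f.Separable ∧ f.natDegree = 3 ∧
      ∀ x y : AlgebraicClosure k,
        (2 * y + algebraMap k (AlgebraicClosure k) W.a₁ * x +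
          algebraMap k (AlgebraicClosure k) W.a₃) ^ 2 = aeval x f ↔
        (W.baseChange (AlgebraicClosure k)).toAffine.Nonsingular x y

/-- FLD: translation by a rational point does not change the residue field.
PROOF. Let `L = resField k (crd R)`. `R` is the image of a point `R'` of `W` over `L`
(`WeierstrassCurve.Affine.Point.map` for `L.val : L →ₐ[k] kbar`, which is a group homomorphism
and injective), `incl W Q` is the image of a point over `L` (`Point.map_map`). So `R + incl W Q`
is the image of `R' + Q'` and has coordinates in `L`: `resField k (crd (R + incl W Q)) ≤ L`.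
The other inclusion: the same for `R + incl W Q` and `-Q`. -/
def S_FLD : Prop :=
  ∀ (k : Type) [Field k] [NumberField k] (W : WeierstrassCurve k) [W.IsElliptic]
    (Q : WeierstrassCurve.Affine.Point (W.baseChange k)) (R : Pts k W),
    resField k (crd (R + incl W Q)) = resField k (crd R)

/-- HTR: the height of a translated point.
PROOF. Let `L = resField k (crd R)`; the coordinates of `R = (x, y)` and the coordinate `x'` of
`R + incl W Q` are in `L` (`S_FLD`), and `heightA k (crd R) = logHeight₁ x / [L : k]`,
`heightA k (crd (R + incl W Q)) = logHeight₁ x' / [L : k]`, heights in `L`.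
If `Q = 0`, `R = 0` or `x = x₀` for `Q = (x₀, y₀)`, there are finitely many such `R` for `Q ≠ 0`
(`R = 0, ± Q`), take the maximum. Otherwise `x' = λ² + a₁ λ - a₂ - x - x₀` with
`λ = (y - y₀) / (x - x₀)` (`WeierstrassCurve.Affine.Point.add_some`, `addX`, `slope_of_X_ne`).
Use `Height.logHeight₁_add_le`, `logHeight₁_mul_le`, `logHeight₁_inv`, `logHeight₁_pow` in `L`; for
`a ∈ k`, `logHeight₁ (a : L) = [L : k] logHeight₁ a` (see `Pool.Agent.H505.VL.Pt.heightA_pt`), and
the constants `log 2` come with a factor `[L : ℚ] = [L : k] [k : ℚ]`. The height of `y`: with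
`y₁ = 2 y + a₁ x + a₃`, `y₁² = 4x³ + b₂x² + 2b₄x + b₆`, so
`2 logHeight₁ y₁ ≤ 3 logHeight₁ x + c [L : k]` (or any constant in place of `3`) and
`y = (y₁ - a₁ x - a₃) / 2`. Altogether `logHeight₁ x' ≤ c (logHeight₁ x + [L : k])`. -/
def S_HTR : Prop :=
  ∀ (k : Type) [Field k] [NumberField k] (W : WeierstrassCurve k) [W.IsElliptic]
    (Q : WeierstrassCurve.Affine.Point (W.baseChange k)),
    ∃ c : ℝ, 0 < c ∧ ∀ R : Pts k W,
      heightA k (crd (R + incl W Q)) ≤ c * (1 + heightA k (crd R))

/-- BCE: a point of `W(kbar)` is rational over a number field `K`, and base change.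
PROOF. `K = resField k (crd Q)` (an intermediate field of `kbar / k`, so `kbar` is an algebraic
closure of `K`: `IsAlgClosed.lift : AlgebraicClosure K →ₐ[K] kbar` gives `ι`, it is the inclusion
on `K`), `W' = W.baseChange K`. `Ψ` is `(x, y) ↦ (ι x, ι y)`, that is
`WeierstrassCurve.Affine.Point.map` for `ι` as a `k`-algebra homomorphism after the identification
`(W.baseChange K).baseChange (AlgebraicClosure K) = W.baseChange (AlgebraicClosure K)`
(`WeierstrassCurve.map_map`); or define `Ψ` by cases and prove `map_add` as Mathlib does for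
`Point.map`. `Q` has coordinates in `K`, so it is the image of `Q' ∈ W'(K)`. -/
def S_BCE : Prop :=
  ∀ (k : Type) [Field k] [NumberField k] (W : WeierstrassCurve k) [W.IsElliptic] (Q : Pts k W),
    ∃ (K : Type) (_ : Field K) (_ : NumberField K) (_ : Algebra k K)
      (ι : AlgebraicClosure K →+* AlgebraicClosure k)
      (Ψ : Pts K (W.baseChange K) →+ Pts k W)
      (Q' : WeierstrassCurve.Affine.Point ((W.baseChange K).baseChange K)),
      (∀ z : k, ι (algebraMap K (AlgebraicClosure K) (algebraMap k K z)) =
        algebraMap k (AlgebraicClosure k) z) ∧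
      Function.Injective Ψ ∧ (∀ P, crd (Ψ P) = (ι (crd P).1, ι (crd P).2)) ∧
      Ψ (incl (W.baseChange K) Q') = Q

end Pool.Agent.H455.WP
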