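import Mathlib
import Pool.Agent.H455.WPE

/-!
# Interface: Northcott's theorem for points of bounded degree
-/

set_option autoImplicit false

namespace Pool.Agent.H455.WP

open NumberField Real Polynomial Module
open Pool.Agent.H505.VL Pool.Agent.H505.VL.Pt
open scoped Classical

/-- NOR: Northcott's theorem for numbers of bounded degree over `k`.
PROOF. Let `L = resField k (x, y)`, `[L : k] ≤ r`, so `[L : ℚ] ≤ r [k : ℚ]`, and the height of
`x` in `L` is `logHeight₁ x = [L : k] heightA k (x, y) ≤ r |B|`, so `mulHeight₁ x ≤ exp (r |B|)`.
By `NumberField.exists_nat_le_mulHeight₁` there is `n ≥ 1`, `n ≤ mulHeight₁ x`, with `n x`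
integral; its absolute values at the infinite places are at most `n mulHeight₁ x`. So
(an embedding `AlgebraicClosure k → ℂ`, which exists by `IsAlgClosed.lift`, being fixed) the image
of `n x` in `ℂ` is in the finite set `smallInts` of the library module
`Pool/Graph/R_pool_sql_team_seeded_b3bd081e/H533R3/SL/Northcott.lean` (theorem
`smallInts_finite`; or use `Polynomial.bUnion_roots_finite` and
`NumberField.Embeddings.coeff_bdd_of_norm_le` directly), so `x` is in a finite set. -/
def S_NOR : Prop :=
  ∀ (k : Type) [Field k] [NumberField k] (r : ℕ) (B : ℝ),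
    {x : AlgebraicClosure k | ∃ y, finrank k (resField k (x, y)) ≤ r ∧
      heightA k (x, y) ≤ B}.Finite

/-- NORE: only finitely many points of bounded degree and height on `W`.
PROOF. By `S_NOR` the coordinates `x` of the points `≠ 0` of the set are in a finite set; for given
`x` there are at most two `y` (zeros of a monic quadratic polynomial). -/
def S_NORE : Prop :=
  ∀ (k : Type) [Field k] [NumberField k] (W : WeierstrassCurve k) [W.IsElliptic] (r : ℕ) (B : ℝ),
    {P : Pts k W | finrank k (resField k (crd P)) ≤ r ∧ heightA k (crd P) ≤ B}.Finite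

end Pool.Agent.H455.WP
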