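import Pool.Agent.H455.WPS

/-!
# ALG: `f(x)` is a square times an integral element which is small at the infinite places
-/

set_option autoImplicit false

namespace Pool.Agent.H455.WP_ALG

open NumberField Polynomial
open Pool.Agent.H455.WP

section

variable {K : Type} [Field K]

/-- the numerator of `x` -/
def Wn (α β t₀ : K) (a b : ℕ) : K := β * t₀ * (a * b) + α * t₀ ^ 2 * a ^ 2 + α * b ^ 2

/-- the denominator of `x` -/
def Zn (t₀ : K) (a b : ℕ) : K := t₀ * (a * b)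

/-- the numerator of `F(x)` -/
noncomputable def Ph (F : K[X]) (α β t₀ : K) (a b : ℕ) : K :=
  ∑ i ∈ Finset.range (F.natDegree + 1),
    F.coeff i * Wn α β t₀ a b ^ i * Zn t₀ a b ^ (F.natDegree - i)

/-- the polynomial `P` -/
noncomputable def Pp (F : K[X]) (α β t₀ : K) (a b : ℕ) : K :=
  α / t₀ ^ (F.natDegree + 1) * (t₀ ^ 2 * a - b) * Ph F α β t₀ a b

theorem eval_div (F : K[X]) (W Z : K) (hZ : Z ≠ 0) :
    F.eval (W / Z) * Z ^ F.natDegree =
      ∑ i ∈ Finset.range (F.natDegree + 1), F.coeff i * W ^ i * Z ^ (F.natDegree - i) := by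
  rw [eval_eq_sum_range, Finset.sum_mul]
  refine Finset.sum_congr rfl fun i hi => ?_
  have hi' : i ≤ F.natDegree := by
    rw [Finset.mem_range] at hi
    omega
  have h1 : Z ^ F.natDegree = Z ^ i * Z ^ (F.natDegree - i) := by
    rw [← pow_add]
    congr 1
    omega
  rw [h1, div_pow]
  have h2 : Z ^ i ≠ 0 := pow_ne_zero i hZ
  field_simp

theorem fx [CharZero K] {α β t₀ : K} (ht : t₀ ≠ 0) {F f : K[X]}
    (hf : f = (X - C (β + 2 * α)) * (X - C (β - 2 * α)) * (X - C (β + α * (t₀ + t₀⁻¹))) * F)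
    {a b : ℕ} (ha : 0 < a) (hb : 0 < b) :
    f.eval (xx α β t₀ a b) * ((a : K) * b) ^ (F.natDegree + 1) =
      (α * ((t₀ * a / b) ^ 2 - 1) / (t₀ * a / b)) ^ 2 * ((a : K) - b) * Pp F α β t₀ a b := by
  have ha' : (a : K) ≠ 0 := by exact_mod_cast ha.ne'
  have hb' : (b : K) ≠ 0 := by exact_mod_cast hb.ne'
  set t : K := t₀ * a / b with hT
  have ht' : t ≠ 0 := by
    rw [hT]
    exact div_ne_zero (mul_ne_zero ht ha') hb'
  have hx : xx α β t₀ a b = β + α * (t + t⁻¹) := rfl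
  have hZ : Zn t₀ a b ≠ 0 := by
    unfold Zn
    exact mul_ne_zero ht (mul_ne_zero ha' hb')
  have e1 : (xx α β t₀ a b - (β + 2 * α)) * (xx α β t₀ a b - (β - 2 * α)) =
      (α * (t ^ 2 - 1) / t) ^ 2 := by
    rw [hx]
    field_simp
    ring
  have e2 : (xx α β t₀ a b - (β + α * (t₀ + t₀⁻¹))) * Zn t₀ a b =
      α * ((a : K) - b) * (t₀ ^ 2 * a - b) := by
    rw [hx, hT]
    unfold Zn
    field_simp
    ring
  have e3 : xx α β t₀ a b = Wn α β t₀ a b / Zn t₀ a b := by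
    rw [hx, hT]
    unfold Zn Wn
    field_simp
    ring
  have e4 : F.eval (xx α β t₀ a b) * Zn t₀ a b ^ F.natDegree = Ph F α β t₀ a b := by
    rw [e3]
    exact eval_div F _ _ hZ
  have e5 : f.eval (xx α β t₀ a b) * Zn t₀ a b ^ (F.natDegree + 1) =
      (α * (t ^ 2 - 1) / t) ^ 2 * (α * ((a : K) - b) * (t₀ ^ 2 * a - b)) * Ph F α β t₀ a b := by
    rw [hf, ← e1, ← e2, ← e4]
    simp only [eval_mul, eval_sub, eval_X, eval_C]
    ring
  have e6 : Zn t₀ a b ^ (F.natDegree + 1) =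
      t₀ ^ (F.natDegree + 1) * ((a : K) * b) ^ (F.natDegree + 1) := by
    unfold Zn
    rw [mul_pow]
  have h7 : t₀ ^ (F.natDegree + 1) ≠ 0 := pow_ne_zero _ ht
  refine mul_left_cancel₀ h7 ?_
  have e8 : t₀ ^ (F.natDegree + 1) * (f.eval (xx α β t₀ a b) * ((a : K) * b) ^ (F.natDegree + 1)) =
      f.eval (xx α β t₀ a b) * Zn t₀ a b ^ (F.natDegree + 1) := by
    rw [e6]
    ring
  rw [e8, e5]
  unfold Pp
  field_simp

/-- the size of `P` -/
theorem size (φ : K →+* ℂ) (F : K[X]) (α β t₀ : K) {a b : ℕ} (hba : b ≤ a) :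
    ‖φ (Pp F α β t₀ a b)‖ ≤ ‖φ (α / t₀ ^ (F.natDegree + 1))‖ * (‖φ t₀‖ ^ 2 + 1) *
      (∑ i ∈ Finset.range (F.natDegree + 1), ‖φ (F.coeff i)‖) *
      (‖φ (β * t₀)‖ + ‖φ (α * t₀ ^ 2)‖ + ‖φ α‖ + ‖φ t₀‖) ^ F.natDegree *
      (a : ℝ) ^ (2 * F.natDegree + 1) := by
  set B1 : ℝ := ‖φ (β * t₀)‖ + ‖φ (α * t₀ ^ 2)‖ + ‖φ α‖ + ‖φ t₀‖ with hB1
  have hB10 : 0 ≤ B1 := by positivity
  have ha0 : (0 : ℝ) ≤ a := Nat.cast_nonneg a
  have hb0 : (0 : ℝ) ≤ b := Nat.cast_nonneg b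
  have hba' : (b : ℝ) ≤ a := by exact_mod_cast hba
  have hab : (a : ℝ) * b ≤ (a : ℝ) ^ 2 := by nlinarith
  have hbb : (b : ℝ) ^ 2 ≤ (a : ℝ) ^ 2 := pow_le_pow_left₀ hb0 hba' 2
  have hW : ‖φ (Wn α β t₀ a b)‖ ≤ B1 * (a : ℝ) ^ 2 := by
    unfold Wn
    rw [map_add, map_add]
    refine (norm_add_le _ _).trans ?_
    have h1 := norm_add_le (φ (β * t₀ * (a * b))) (φ (α * t₀ ^ 2 * a ^ 2))
    have h2 : ‖φ (β * t₀ * (a * b))‖ = ‖φ (β * t₀)‖ * (a * b) := by
      rw [map_mul, norm_mul, map_mul φ (a : K), map_natCast, map_natCast, norm_mul,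
        Complex.norm_natCast, Complex.norm_natCast]
    have h3 : ‖φ (α * t₀ ^ 2 * a ^ 2)‖ = ‖φ (α * t₀ ^ 2)‖ * (a : ℝ) ^ 2 := by
      rw [map_mul, norm_mul, map_pow φ (a : K), map_natCast, norm_pow, Complex.norm_natCast]
    have h4 : ‖φ (α * b ^ 2)‖ = ‖φ α‖ * (b : ℝ) ^ 2 := by
      rw [map_mul, norm_mul, map_pow, map_natCast, norm_pow, Complex.norm_natCast]
    rw [h2, h3] at h1
    rw [h4]
    have h5 : ‖φ (β * t₀)‖ * (a * b) ≤ ‖φ (β * t₀)‖ * (a : ℝ) ^ 2 :=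
      mul_le_mul_of_nonneg_left hab (norm_nonneg _)
    have h6 : ‖φ α‖ * (b : ℝ) ^ 2 ≤ ‖φ α‖ * (a : ℝ) ^ 2 :=
      mul_le_mul_of_nonneg_left hbb (norm_nonneg _)
    have h7 : 0 ≤ ‖φ t₀‖ * (a : ℝ) ^ 2 := by positivity
    rw [hB1]
    linarith
  have hZ : ‖φ (Zn t₀ a b)‖ ≤ B1 * (a : ℝ) ^ 2 := by
    unfold Zn
    have h2 : ‖φ (t₀ * (a * b))‖ = ‖φ t₀‖ * (a * b) := by
      rw [map_mul, norm_mul, map_mul φ (a : K), map_natCast, map_natCast, norm_mul,
        Complex.norm_natCast, Complex.norm_natCast]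
    rw [h2]
    have h5 : ‖φ t₀‖ * (a * b) ≤ ‖φ t₀‖ * (a : ℝ) ^ 2 :=
      mul_le_mul_of_nonneg_left hab (norm_nonneg _)
    have h6 : ‖φ t₀‖ ≤ B1 := by
      rw [hB1]
      have := norm_nonneg (φ (β * t₀))
      have := norm_nonneg (φ (α * t₀ ^ 2))
      have := norm_nonneg (φ α)
      linarith
    exact h5.trans (mul_le_mul_of_nonneg_right h6 (by positivity))
  have hPh : ‖φ (Ph F α β t₀ a b)‖ ≤
      (∑ i ∈ Finset.range (F.natDegree + 1), ‖φ (F.coeff i)‖) *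
        (B1 * (a : ℝ) ^ 2) ^ F.natDegree := by
    unfold Ph
    rw [map_sum, Finset.sum_mul]
    refine (norm_sum_le _ _).trans (Finset.sum_le_sum fun i hi => ?_)
    have hi' : i ≤ F.natDegree := by
      rw [Finset.mem_range] at hi
      omega
    rw [map_mul, map_mul, norm_mul, norm_mul, map_pow, map_pow, norm_pow, norm_pow, mul_assoc]
    refine mul_le_mul_of_nonneg_left ?_ (norm_nonneg _)
    have h1 : (B1 * (a : ℝ) ^ 2) ^ F.natDegree =
        (B1 * (a : ℝ) ^ 2) ^ i * (B1 * (a : ℝ) ^ 2) ^ (F.natDegree - i) := by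
      rw [← pow_add]
      congr 1
      omega
    rw [h1]
    exact mul_le_mul (pow_le_pow_left₀ (norm_nonneg _) hW i)
      (pow_le_pow_left₀ (norm_nonneg _) hZ _) (by positivity) (by positivity)
  have hlin : ‖φ (t₀ ^ 2 * a - b)‖ ≤ (‖φ t₀‖ ^ 2 + 1) * a := by
    rw [map_sub]
    refine (norm_sub_le _ _).trans ?_
    rw [map_mul, norm_mul, map_pow, norm_pow, map_natCast, map_natCast, Complex.norm_natCast,
      Complex.norm_natCast]
    linarith
  unfold Pp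
  rw [map_mul, map_mul, norm_mul, norm_mul]
  calc ‖φ (α / t₀ ^ (F.natDegree + 1))‖ * ‖φ (t₀ ^ 2 * a - b)‖ * ‖φ (Ph F α β t₀ a b)‖
      ≤ ‖φ (α / t₀ ^ (F.natDegree + 1))‖ * ((‖φ t₀‖ ^ 2 + 1) * a) *
        ((∑ i ∈ Finset.range (F.natDegree + 1), ‖φ (F.coeff i)‖) *
          (B1 * (a : ℝ) ^ 2) ^ F.natDegree) := by
        refine mul_le_mul (mul_le_mul_of_nonneg_left hlin (norm_nonneg _)) hPh (norm_nonneg _)
          (by positivity)
    _ = _ := by
        rw [mul_pow, ← pow_mul, pow_succ]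
        ring

end

theorem main : S_ALG := by
  intro K _ _ α β t₀ F f hα ht hf T hT
  classical
  obtain ⟨N, hN⟩ : ∃ N, N = F.natDegree := ⟨_, rfl⟩
  -- the common denominator
  obtain ⟨c0, hc0⟩ := IsLocalization.exist_integer_multiples_of_finset (nonZeroDivisors (𝓞 K))
    (S := K) (({β * t₀, α * t₀ ^ 2, α, t₀, t₀ ^ 2, 1, α / t₀ ^ (N + 1)} : Finset K) ∪
      (Finset.range (N + 1)).image F.coeff)
  obtain ⟨c, hcdef⟩ : ∃ c : K, c = algebraMap (𝓞 K) K c0 := ⟨_, rfl⟩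
  have hc : c ≠ 0 := by
    rw [hcdef]
    intro h
    have h1 : (c0 : 𝓞 K) = 0 := by
      apply RingOfIntegers.coe_injective
      rw [map_zero]
      exact h
    exact nonZeroDivisors.coe_ne_zero c0 h1
  have hint : ∀ z ∈ (({β * t₀, α * t₀ ^ 2, α, t₀, t₀ ^ 2, 1, α / t₀ ^ (N + 1)} : Finset K) ∪
      (Finset.range (N + 1)).image F.coeff), IsIntegral ℤ (c * z) := by
    intro z hz
    obtain ⟨y, hy⟩ := hc0 z hz
    rw [Algebra.smul_def, ← hcdef] at hy
    rw [← hy]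
    exact RingOfIntegers.isIntegral_coe y
  have i1 : IsIntegral ℤ (c * (β * t₀)) := hint _ (by simp)
  have i2 : IsIntegral ℤ (c * (α * t₀ ^ 2)) := hint _ (by simp)
  have i3 : IsIntegral ℤ (c * α) := hint _ (by simp)
  have i4 : IsIntegral ℤ (c * t₀) := hint _ (by simp)
  have i5 : IsIntegral ℤ (c * t₀ ^ 2) := hint _ (by simp)
  have i6 : IsIntegral ℤ (c * 1) := hint _ (by simp)
  have i7 : IsIntegral ℤ (c * (α / t₀ ^ (N + 1))) := hint _ (by simp)
  have i8 : ∀ i ∈ Finset.range (N + 1), IsIntegral ℤ (c * F.coeff i) := fun i hi =>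
    hint _ (Finset.mem_union_right _ (Finset.mem_image_of_mem _ hi))
  have inat : ∀ n : ℕ, IsIntegral ℤ (n : K) := fun n => by
    simpa using isIntegral_algebraMap (R := ℤ) (A := K) (x := (n : ℤ))
  rw [mul_one] at i6
  have iP : ∀ a b : ℕ, IsIntegral ℤ (c ^ (N + 3) * Pp F α β t₀ a b) := by
    intro a b
    have jW : IsIntegral ℤ (c * Wn α β t₀ a b) := by
      have e : c * Wn α β t₀ a b = c * (β * t₀) * (a * b) + c * (α * t₀ ^ 2) * a ^ 2 +
          c * α * b ^ 2 := by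
        unfold Wn
        ring
      rw [e]
      exact ((i1.mul ((inat a).mul (inat b))).add (i2.mul ((inat a).pow 2))).add
        (i3.mul ((inat b).pow 2))
    have jZ : IsIntegral ℤ (c * Zn t₀ a b) := by
      have e : c * Zn t₀ a b = c * t₀ * (a * b) := by
        unfold Zn
        ring
      rw [e]
      exact i4.mul ((inat a).mul (inat b))
    have jPh : IsIntegral ℤ (c ^ (N + 1) * Ph F α β t₀ a b) := by
      have e : c ^ (N + 1) * Ph F α β t₀ a b = ∑ i ∈ Finset.range (N + 1),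
          (c * F.coeff i) * (c * Wn α β t₀ a b) ^ i * (c * Zn t₀ a b) ^ (N - i) := by
        unfold Ph
        rw [Finset.mul_sum, ← hN]
        refine Finset.sum_congr rfl fun i hi => ?_
        have hi' : i ≤ N := by
          rw [Finset.mem_range] at hi
          omega
        have h1 : c ^ (N + 1) = c * c ^ i * c ^ (N - i) := by
          rw [← pow_succ', ← pow_add]
          congr 1
          omega
        rw [h1, mul_pow, mul_pow]
        ring
      rw [e]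
      exact IsIntegral.sum _ fun i hi => ((i8 i hi).mul (jW.pow i)).mul (jZ.pow _)
    have jl : IsIntegral ℤ (c * (t₀ ^ 2 * a - b)) := by
      have e : c * (t₀ ^ 2 * a - b) = c * t₀ ^ 2 * a - c * b := by ring
      rw [e]
      exact (i5.mul (inat a)).sub (i6.mul (inat b))
    have e : c ^ (N + 3) * Pp F α β t₀ a b = c * (α / t₀ ^ (N + 1)) * (c * (t₀ ^ 2 * a - b)) *
        (c ^ (N + 1) * Ph F α β t₀ a b) := by
      unfold Pp
      rw [← hN]
      ring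
    rw [e]
    exact (i7.mul jl).mul jPh
  -- the constants
  obtain ⟨d, hd⟩ : ∃ d : K, d = c ^ (N + 3) := ⟨_, rfl⟩
  have hd0 : d ≠ 0 := by
    rw [hd]
    exact pow_ne_zero _ hc
  have id' : IsIntegral ℤ d := by
    rw [hd]
    exact i6.pow _
  obtain ⟨Q, hQ⟩ : ∃ Q : ℕ, Q = ∏ p ∈ T, p := ⟨_, rfl⟩
  have hQ0 : 0 < Q := by
    rw [hQ]
    exact Finset.prod_pos fun p hp => (hT p hp).pos
  obtain ⟨Bv, hBv⟩ : ∃ Bv : InfinitePlace K → ℝ, ∀ v, Bv v = ‖v.embedding d‖ ^ 2 * Q *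
      (‖v.embedding (α / t₀ ^ (N + 1))‖ * (‖v.embedding t₀‖ ^ 2 + 1) *
      (∑ i ∈ Finset.range (N + 1), ‖v.embedding (F.coeff i)‖) *
      (‖v.embedding (β * t₀)‖ + ‖v.embedding (α * t₀ ^ 2)‖ + ‖v.embedding α‖ +
        ‖v.embedding t₀‖) ^ N) := ⟨_, fun _ => rfl⟩
  have hBv0 : ∀ v, 0 ≤ Bv v := fun v => by
    rw [hBv]
    positivity
  refine ⟨∑ v, Bv v + 1, ?_, ?_⟩
  · have : 0 ≤ ∑ v, Bv v := Finset.sum_nonneg fun v _ => hBv0 v
    linarith
  intro a b hb hab haT hbT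
  have ha : 0 < a := by omega
  have ha' : (a : K) ≠ 0 := by exact_mod_cast ha.ne'
  have hb' : (b : K) ≠ 0 := by exact_mod_cast hb.ne'
  obtain ⟨s, r, hrs, hsq⟩ := Nat.sq_mul_squarefree ((a * b) ^ (N + 1))
  have hab0 : (a * b) ^ (N + 1) ≠ 0 := pow_ne_zero _ (mul_ne_zero ha.ne' hb.ne')
  have hs0 : s ≠ 0 := by
    intro h
    rw [h, mul_zero] at hrs
    exact hab0 hrs.symm
  have hr0 : r ≠ 0 := by
    intro h
    rw [h] at hrs
    apply hab0
    rw [← hrs]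
    simp
  have hsQ : s ≤ Q := by
    have h1 : s.primeFactors ⊆ T := by
      intro p hp
      have hpp := Nat.prime_of_mem_primeFactors hp
      have h2 : p ∣ (a * b) ^ (N + 1) :=
        (Nat.dvd_of_mem_primeFactors hp).trans (Dvd.intro_left _ hrs)
      rcases (hpp.dvd_mul).1 (hpp.dvd_of_dvd_pow h2) with h3 | h3
      · exact haT (Nat.mem_primeFactors.2 ⟨hpp, h3, ha.ne'⟩)
      · exact hbT (Nat.mem_primeFactors.2 ⟨hpp, h3, hb.ne'⟩)
    have h4 : s ∣ Q := by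
      rw [← Nat.prod_primeFactors_of_squarefree hsq, hQ]
      exact Finset.prod_dvd_prod_of_subset _ _ _ h1
    exact Nat.le_of_dvd hQ0 h4
  have hsK : (s : K) ≠ 0 := by exact_mod_cast hs0
  have hrK : (r : K) ≠ 0 := by exact_mod_cast hr0
  have hrsK : ((a : K) * b) ^ (N + 1) = (r : K) ^ 2 * s := by
    have := congrArg (fun n : ℕ => (n : K)) hrs
    push_cast at this
    exact this.symm
  obtain ⟨t, hT'⟩ : ∃ t : K, t = t₀ * a / b := ⟨_, rfl⟩
  have ht' : t ≠ 0 := by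
    rw [hT']
    exact div_ne_zero (mul_ne_zero ht ha') hb'
  have hfx := fx (K := K) ht hf ha hb
  rw [← hT', ← hN, hrsK] at hfx
  have hsub : ((a - b : ℕ) : K) = (a : K) - b := by
    rw [Nat.cast_sub hab.le]
  have hmi : IsIntegral ℤ (d * s * ((a - b : ℕ) : K) * (d * Pp F α β t₀ a b)) := by
    have h1 := iP a b
    rw [← hd] at h1
    exact ((id'.mul (inat s)).mul (inat (a - b))).mul h1
  refine ⟨α * (t ^ 2 - 1) / (t * r * s * d), ⟨_, hmi⟩, ?_, ?_⟩
  · change f.eval (xx α β t₀ a b) = (α * (t ^ 2 - 1) / (t * r * s * d)) ^ 2 *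
      (d * s * ((a - b : ℕ) : K) * (d * Pp F α β t₀ a b))
    rw [hsub]
    have h1 : (r : K) ^ 2 * s ≠ 0 := mul_ne_zero (pow_ne_zero 2 hrK) hsK
    refine mul_right_cancel₀ h1 ?_
    rw [hfx]
    field_simp
  · intro v
    change v (d * s * ((a - b : ℕ) : K) * (d * Pp F α β t₀ a b)) ≤ _
    rw [← InfinitePlace.norm_embedding_eq]
    have h1 := size v.embedding F α β t₀ hab.le
    rw [← hN] at h1
    rw [map_mul, map_mul, map_mul, map_mul, map_natCast, map_natCast, norm_mul, norm_mul,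
      norm_mul, norm_mul, Complex.norm_natCast, Complex.norm_natCast]
    have h2 : (0 : ℝ) ≤ (a : ℝ) - b := by
      have : (b : ℝ) ≤ a := by exact_mod_cast hab.le
      linarith
    have h3 : ((a - b : ℕ) : ℝ) = (a : ℝ) - b := by rw [Nat.cast_sub hab.le]
    rw [h3, ← hN]
    have hsQ' : (s : ℝ) ≤ Q := by exact_mod_cast hsQ
    have h4 : ‖v.embedding d‖ * (s : ℝ) ≤ ‖v.embedding d‖ * Q :=
      mul_le_mul_of_nonneg_left hsQ' (norm_nonneg _)
    have h5 : ‖v.embedding d‖ * (s : ℝ) * ((a : ℝ) - b) *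
        (‖v.embedding d‖ * ‖v.embedding (Pp F α β t₀ a b)‖) ≤
        ‖v.embedding d‖ * Q * ((a : ℝ) - b) * (‖v.embedding d‖ *
        (‖v.embedding (α / t₀ ^ (N + 1))‖ * (‖v.embedding t₀‖ ^ 2 + 1) *
      (∑ i ∈ Finset.range (N + 1), ‖v.embedding (F.coeff i)‖) *
      (‖v.embedding (β * t₀)‖ + ‖v.embedding (α * t₀ ^ 2)‖ + ‖v.embedding α‖ +
        ‖v.embedding t₀‖) ^ N * (a : ℝ) ^ (2 * N + 1))) := by
      refine mul_le_mul (mul_le_mul_of_nonneg_right h4 h2)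
        (mul_le_mul_of_nonneg_left h1 (norm_nonneg _)) (by positivity) ?_
      exact mul_nonneg (by positivity) h2
    refine h5.trans ?_
    have h6 : ‖v.embedding d‖ * Q * ((a : ℝ) - b) * (‖v.embedding d‖ *
        (‖v.embedding (α / t₀ ^ (N + 1))‖ * (‖v.embedding t₀‖ ^ 2 + 1) *
      (∑ i ∈ Finset.range (N + 1), ‖v.embedding (F.coeff i)‖) *
      (‖v.embedding (β * t₀)‖ + ‖v.embedding (α * t₀ ^ 2)‖ + ‖v.embedding α‖ +
        ‖v.embedding t₀‖) ^ N * (a : ℝ) ^ (2 * N + 1))) =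
        Bv v * (((a : ℝ) - b) * (a : ℝ) ^ (2 * N + 1)) := by
      rw [hBv]
      ring
    rw [h6]
    have h7 : Bv v ≤ ∑ v, Bv v + 1 := by
      have := Finset.single_le_sum (f := Bv) (fun u _ => hBv0 u) (Finset.mem_univ v)
      linarith
    exact mul_le_mul_of_nonneg_right h7 (mul_nonneg h2 (by positivity))

end Pool.Agent.H455.WP_ALG
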