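import Pool.Agent.H455.WPS
import Pool.Graph.R_seed8.Helper259.HtExt

/-!
# Base change of height, proximity function and logarithmic discriminant
-/

set_option autoImplicit false

namespace Pool.Agent.H455.WP_BC

open NumberField Real Polynomial Module
open Pool.Agent.H505.VL Pool.Agent.H505.VL.Pt
open Pool.Agent.Results.MP_e44225_nt

/-- the discriminants in an extension of number fields -/
theorem disc_le (A B : Type) [Field A] [NumberField A] [Field B] [NumberField B] [Algebra A B] :
    (finrank A B : ℝ) * log |(discr A : ℝ)| ≤ log |(discr B : ℝ)| := by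
  have h := natAbs_discr_eq_absNorm_differentIdeal_mul_natAbs_discr_pow A (𝓞 A) B (𝓞 B)
  obtain ⟨m, hm⟩ : ∃ m : ℕ, m = Ideal.absNorm (differentIdeal (𝓞 A) (𝓞 B)) := ⟨_, rfl⟩
  rw [← hm] at h
  have hB : (discr B).natAbs ≠ 0 := Int.natAbs_ne_zero.mpr (discr_ne_zero B)
  have hA : (discr A).natAbs ≠ 0 := Int.natAbs_ne_zero.mpr (discr_ne_zero A)
  have hm0 : m ≠ 0 := by
    rintro rfl
    rw [zero_mul] at h
    exact hB h
  have e1 : ∀ z : ℤ, |(z : ℝ)| = ((z.natAbs : ℕ) : ℝ) := by
    intro z
    rw [Nat.cast_natAbs, Int.cast_abs]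
  rw [e1, e1, h, Nat.cast_mul, Nat.cast_pow, Real.log_mul (by exact_mod_cast hm0)
    (pow_ne_zero _ (by exact_mod_cast hA)), Real.log_pow]
  have h2 : 0 ≤ log (m : ℝ) := Real.log_natCast_nonneg m
  linarith

/-- all the comparisons in an extension of number fields -/
theorem core (A B : Type) [Field A] [NumberField A] [Field B] [NumberField B] (j : A →+* B)
    (T : Finset ℕ) (hT : ∀ p ∈ T, p.Prime) :
    ∃ e : ℕ, 0 < e ∧ finrank ℚ B = e * finrank ℚ A ∧
      (∀ x : A, Height.logHeight₁ (j x) = e * Height.logHeight₁ x) ∧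
      (∀ x : A, (∑ w : InfinitePlace B, (w.mult : ℝ) * weil w none (j x)) +
          ∑ w ∈ placesOver B T, weil w none (j x) =
        e * ((∑ w : InfinitePlace A, (w.mult : ℝ) * weil w none x) +
          ∑ w ∈ placesOver A T, weil w none x)) ∧
      (e : ℝ) * log |(discr A : ℝ)| ≤ log |(discr B : ℝ)| := by
  letI : Algebra A B := j.toAlgebra
  refine ⟨finrank A B, finrank_pos, ?_, ?_, ?_, disc_le A B⟩
  · rw [mul_comm]
    exact (Module.finrank_mul_finrank ℚ A B).symm
  · intro x
    change Height.logHeight₁ (algebraMap A B x) = _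
    rw [Height.logHeight₁_eq_logHeight, Height.logHeight₁_eq_logHeight,
      ← Pool.Agent.Helper259.HtExt.logHeight_ext (L := B)]
    congr 1
    funext i
    fin_cases i
    · rfl
    · simp
  · intro x
    have h1 := Pool.Agent.H505.VL.PRF.main A B T hT none x (by simp)
    have h2 := Pool.Agent.H505.VL.PRI.main A B none x (by simp)
    rw [mul_add, ← h1, ← h2]
    rfl

theorem main : Pool.Agent.H455.WP.S_BC := by
  intro k _ _ K _ _ _ ι hι T hT P
  set L := resField K P with hL
  set L' := resField k (ι P.1, ι P.2) with hL'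
  -- the embedding of L' into L
  have hex : ∀ z : L', ∃ w : L, ι (w : AlgebraicClosure K) = (z : AlgebraicClosure k) := by
    obtain ⟨M, hM⟩ : ∃ M : IntermediateField k (AlgebraicClosure k),
        ∀ z, z ∈ M ↔ ∃ w : L, ι (w : AlgebraicClosure K) = z := by
      refine ⟨{ (L.toSubfield.map ι) with algebraMap_mem' := ?_ }, ?_⟩
      · intro r
        refine ⟨algebraMap K (AlgebraicClosure K) (algebraMap k K r), ?_, hι r⟩
        exact L.algebraMap_mem _
      · intro z
        constructor
        · rintro ⟨w, hw, hwz⟩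
          exact ⟨⟨w, hw⟩, hwz⟩
        · rintro ⟨w, hw⟩
          exact ⟨w.1, w.2, hw⟩
    have hle : L' ≤ M := by
      rw [hL', IntermediateField.adjoin_le_iff]
      rintro z (rfl | rfl)
      · exact (hM _).mpr ⟨⟨P.1, IntermediateField.subset_adjoin K _ (by simp)⟩, rfl⟩
      · exact (hM _).mpr ⟨⟨P.2, IntermediateField.subset_adjoin K _ (by simp)⟩, rfl⟩
    intro z
    exact (hM _).mp (hle z.2)
  choose f hf using hex
  have hinj : ∀ a b : L, ι (a : AlgebraicClosure K) = ι (b : AlgebraicClosure K) → a = b :=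
    fun a b h => Subtype.ext (ι.injective h)
  obtain ⟨j, hj⟩ : ∃ j : L' →+* L, ∀ z, ι ((j z : L) : AlgebraicClosure K) = (z : AlgebraicClosure k) := by
    refine ⟨{ toFun := f, map_one' := ?_, map_mul' := ?_, map_zero' := ?_, map_add' := ?_ }, hf⟩
    · apply hinj
      rw [hf]
      simp
    · intro x y
      apply hinj
      rw [hf, MulMemClass.coe_mul, MulMemClass.coe_mul, map_mul, hf, hf]
    · apply hinj
      rw [hf]
      simp
    · intro x y
      apply hinj
      rw [hf, AddMemClass.coe_add, AddMemClass.coe_add, map_add, hf, hf]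
  have hjx : j (coordX k (ι P.1, ι P.2)) = coordX K P := by
    apply hinj
    rw [hj]
    rfl
  obtain ⟨e, he0, hdeg, hht, hpr, hdi⟩ := core L' L j T hT
  -- the degrees
  have g1 : finrank ℚ k * finrank k K = finrank ℚ K := Module.finrank_mul_finrank ℚ k K
  have g2 : finrank ℚ K * finrank K L = finrank ℚ L := Module.finrank_mul_finrank ℚ K L
  have g3 : finrank ℚ k * finrank k L' = finrank ℚ L' := Module.finrank_mul_finrank ℚ k L'
  have g0 : 0 < finrank ℚ k := finrank_pos
  have gd : finrank k K * finrank K L = e * finrank k L' := by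
    have h1 : finrank ℚ k * (finrank k K * finrank K L) = finrank ℚ k * (e * finrank k L') := by
      rw [← mul_assoc, g1, g2, hdeg, ← g3]
      ring
    exact Nat.eq_of_mul_eq_mul_left g0 h1
  have p1 : 0 < finrank k K := finrank_pos
  have p2 : 0 < finrank K L := finrank_pos
  have p3 : 0 < finrank k L' := finrank_pos
  have q1 : (0 : ℝ) < finrank k K := by exact_mod_cast p1
  have q2 : (0 : ℝ) < finrank K L := by exact_mod_cast p2
  have q3 : (0 : ℝ) < finrank k L' := by exact_mod_cast p3
  have q4 : (0 : ℝ) < e := by exact_mod_cast he0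
  have gd' : (finrank k K : ℝ) * finrank K L = e * finrank k L' := by exact_mod_cast gd
  have key : ∀ s t : ℝ, t = e * s → s / finrank k L' = t / finrank K L / finrank k K := by
    intro s t hst
    rw [hst, div_div, mul_comm (finrank K L : ℝ), gd', mul_div_mul_left _ _ q4.ne']
  refine ⟨?_, ?_, ?_, ?_⟩
  · rw [gd]
    exact Nat.le_mul_of_pos_left _ he0
  · have h1 := hht (coordX k (ι P.1, ι P.2))
    rw [hjx] at h1
    exact key _ _ h1
  · have h1 := hpr (coordX k (ι P.1, ι P.2))
    rw [hjx] at h1
    unfold prox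
    rw [Finset.sum_singleton, Finset.sum_singleton]
    exact key _ _ h1
  · have h1 : logDisc k (ι P.1, ι P.2) = log |(discr L' : ℝ)| / finrank k L' := rfl
    have h2 : logDisc K P = log |(discr L : ℝ)| / finrank K L := rfl
    rw [h1, h2, key _ _ rfl]
    gcongr

end Pool.Agent.H455.WP_BC
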