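import Pool.Agent.H455.WPS

/-!
# DQ: the discriminant of `K(√m)`
-/

set_option autoImplicit false

namespace Pool.Agent.H455.WP_DQ

open NumberField Real Polynomial Module
open Pool.Agent.H505.VL Pool.Agent.H505.VL.Pt

/-- the degree -/
theorem rank_le {K : Type} [Field K] [NumberField K] (x : K) (y : AlgebraicClosure K) (d : K)
    (h : y ^ 2 = algebraMap K (AlgebraicClosure K) d) :
    finrank K (resField K (pt x y)) ≤ 2 := by
  rw [resField_pt, IntermediateField.adjoin.finrank (Algebra.IsIntegral.isIntegral y)]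
  have h1 : aeval y (X ^ 2 - C d : K[X]) = 0 := by
    rw [map_sub, map_pow, aeval_X, aeval_C, h, sub_self]
  calc (minpoly K y).natDegree ≤ (X ^ 2 - C d : K[X]).natDegree :=
        Polynomial.natDegree_le_of_dvd (minpoly.dvd K y h1)
          (X_pow_sub_C_ne_zero (by norm_num) d)
    _ = 2 := natDegree_X_pow_sub_C

/-- the discriminant -/
theorem disc_le {K : Type} [Field K] [NumberField K] (x : K) (y : AlgebraicClosure K) (ρ : K)
    (m : 𝓞 K) (hy : y ≠ 0)
    (h : y ^ 2 = algebraMap K (AlgebraicClosure K) (ρ ^ 2 * (m : K)))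
    (B : ℝ) (hB : 0 < B) (hmB : ∀ v : InfinitePlace K, v (m : K) ≤ B) :
    logDisc K (pt x y) ≤ log |(discr K : ℝ)| +
        (finrank ℚ K : ℝ) / 2 * log B + (finrank ℚ K : ℝ) * (4 * log 2) := by
  have hρm : ρ ^ 2 * (m : K) ≠ 0 := by
    intro h0
    apply hy
    rw [h0, map_zero] at h
    exact (pow_eq_zero_iff (by norm_num)).1 h
  have hρ : ρ ≠ 0 := by
    rintro rfl
    apply hρm
    rw [zero_pow (by norm_num), zero_mul]
  have hm : (m : K) ≠ 0 := right_ne_zero_of_mul hρm
  set L := resField K (pt x y) with hL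
  set y' : L := ⟨y, IntermediateField.subset_adjoin K _ (by simp)⟩ with hy'
  have hy2 : y' ^ 2 = algebraMap K L (ρ ^ 2 * (m : K)) := Subtype.ext h
  set β' : L := algebraMap K L ρ⁻¹ * y' with hβ'
  have hβ2 : β' ^ 2 = algebraMap K L (m : K) := by
    rw [hβ', mul_pow, hy2, ← map_pow, ← map_mul, ← mul_assoc, ← mul_pow, inv_mul_cancel₀ hρ,
      one_pow, one_mul]
  obtain ⟨g, hg⟩ : ∃ g : (𝓞 K)[X], g = X ^ 2 - C m := ⟨_, rfl⟩
  have hgm : g.Monic := by
    rw [hg]
    exact monic_X_pow_sub_C m (by norm_num)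
  have hgd : g.natDegree = 2 := by
    rw [hg]
    exact natDegree_X_pow_sub_C
  have hint : IsIntegral (𝓞 K) β' := by
    refine ⟨g, hgm, ?_⟩
    rw [hg, eval₂_sub, eval₂_X_pow, eval₂_C, hβ2]
    exact sub_self _
  have hintZ : IsIntegral ℤ β' := by
    haveI : IsScalarTower ℤ (𝓞 K) L := IsScalarTower.of_algebraMap_eq' (Subsingleton.elim _ _)
    exact isIntegral_trans (A := 𝓞 K) β' hint
  set β : 𝓞 L := ⟨β', hintZ⟩ with hβ
  have hcoe : (β : L) = β' := rfl
  have hsq : β ^ 2 = algebraMap (𝓞 K) (𝓞 L) m := by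
    apply RingOfIntegers.ext
    exact hβ2
  have hadj : IntermediateField.adjoin K {(β : L)} = ⊤ := by
    have hy2 : y' ∈ IntermediateField.adjoin K {(β : L)} := by
      have h1 : y' = algebraMap K L ρ * β' := by
        rw [hβ', ← mul_assoc, ← map_mul, mul_inv_cancel₀ hρ, map_one, one_mul]
      rw [h1]
      exact mul_mem (IntermediateField.algebraMap_mem _ _)
        (IntermediateField.mem_adjoin_simple_self K _)
    have h5 : IntermediateField.adjoin K {y'} = (⊤ : IntermediateField K L) := by
      apply IntermediateField.map_injective L.val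
      rw [IntermediateField.adjoin_map, Set.image_singleton, ← AlgHom.fieldRange_eq_map,
        IntermediateField.fieldRange_val]
      exact (resField_pt x y).symm
    rw [eq_top_iff, ← h5, IntermediateField.adjoin_le_iff]
    rintro z rfl
    exact hy2
  have hroot : aeval β g = 0 := by
    rw [hg, map_sub, map_pow, aeval_X, aeval_C, hsq, sub_self]
  have hβ0 : β ≠ 0 := by
    intro h0
    apply hm
    have h1 : β' = 0 := by
      rw [← hcoe, h0]
      rfl
    rw [h1, zero_pow (by norm_num)] at hβ2
    exact ((map_eq_zero _).1 hβ2.symm)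
  have hder : aeval β (derivative g) ≠ 0 := by
    have h1 : derivative g = C 2 * X := by
      rw [hg, derivative_sub, derivative_X_pow, derivative_C, sub_zero]
      norm_num
    rw [h1, map_mul, aeval_C, aeval_X]
    have h2 : (algebraMap (𝓞 K) (𝓞 L)) 2 = 2 := map_ofNat _ 2
    rw [h2]
    exact mul_ne_zero two_ne_zero hβ0
  have key := NRM.main K L 2 (by norm_num) β hadj g hgm hgd hroot hder
    (fun _ => Real.sqrt B) (fun _ => Real.sqrt_pos.2 hB) (by
      intro v i hi
      have h0 : v ((0 : 𝓞 K) : K) = 0 := by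
        have : ((0 : 𝓞 K) : K) = 0 := rfl
        rw [this]
        exact map_zero v
      interval_cases i
      · have h1 : g.coeff (2 - 0) = 1 := by
          rw [Nat.sub_zero, ← hgd]
          exact hgm.coeff_natDegree
        have h2 : ((1 : 𝓞 K) : K) = 1 := rfl
        rw [h1, h2, map_one, pow_zero]
      · have h1 : g.coeff (2 - 1) = 0 := by
          rw [hg, coeff_sub, coeff_X_pow, coeff_C]
          norm_num
        rw [h1, h0]
        positivity
      · have h1 : g.coeff (2 - 2) = -m := by
          rw [hg, coeff_sub, coeff_X_pow, coeff_C]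
          norm_num
        have h2 : ((-m : 𝓞 K) : K) = -(m : K) := rfl
        rw [h1, h2, Real.sq_sqrt hB.le]
        have h3 : v (-(m : K)) = v (m : K) := map_neg_eq_map v.1 _
        rw [h3]
        exact hmB v)
  have hsum : ∑ v : InfinitePlace K, (v.mult : ℝ) * log (Real.sqrt B) =
      (finrank ℚ K : ℝ) * (log B / 2) := by
    rw [← Finset.sum_mul, Real.log_sqrt hB.le]
    congr 1
    exact_mod_cast InfinitePlace.sum_mult_eq (K := K)
  rw [hsum] at key
  have h8 : logDisc K (pt x y) = log |(NumberField.discr L : ℝ)| / finrank K L := rfl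
  rw [h8]
  refine key.trans (le_of_eq ?_)
  push_cast
  ring

theorem main : Pool.Agent.H455.WP.S_DQ := by
  intro K _ _ x y ρ m hy h
  exact ⟨rank_le x y _ h, fun B hB hmB => disc_le x y ρ m hy h B hB hmB⟩

end Pool.Agent.H455.WP_DQ
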