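import Pool.Agent.H455.WPS

/-!
# HT: upper bound for the height of `x` (helper980)
-/

set_option autoImplicit false

namespace Pool.Agent.H455.WP_HT

open NumberField Real Polynomial Module
open Pool.Agent.H455.WP
open Pool.Agent.Results.MP_e44225_nt

variable {K : Type} [Field K] [NumberField K]

theorem fin_nat (v : FinitePlace K) (n : ℕ) : v (n : K) ≤ 1 := by
  induction n with
  | zero => simp
  | succ n ih =>
    push_cast
    refine (FinitePlace.add_le v _ _).trans ?_
    rw [map_one]
    exact max_le ih le_rfl

theorem inf_nat (v : InfinitePlace K) (n : ℕ) : v (n : K) = n :=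
  InfinitePlace.map_natCast v n

theorem ht_nat (n : ℕ) (hn : 1 ≤ n) :
    Height.logHeight₁ (n : K) = (finrank ℚ K : ℝ) * log n := by
  rw [NumberField.logHeight₁_eq]
  have h1 : ∀ v : FinitePlace K, log⁺ (v (n : K)) = 0 := by
    intro v
    rw [posLog_eq_zero_iff, abs_of_nonneg (apply_nonneg v _)]
    exact fin_nat v n
  have h2 : ∀ v : InfinitePlace K, log⁺ (v (n : K)) = log n := by
    intro v
    rw [inf_nat, posLog_eq_log]
    rw [Nat.abs_cast]
    exact_mod_cast hn
  simp only [h1, h2, finsum_zero, add_zero]
  rw [← Finset.sum_mul]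
  congr 1
  exact_mod_cast InfinitePlace.sum_mult_eq (K := K)

theorem main : Pool.Agent.H455.WP.S_HT := by
  refine ⟨?_, ?_⟩
  · intro K _ _ α β t₀
    refine ⟨Height.totalWeight K * log 2 + Height.totalWeight K * log 2 +
      Height.logHeight₁ β + Height.logHeight₁ α + 2 * Height.logHeight₁ t₀ +
      4 * (finrank ℚ K : ℝ) + 1, ?_, ?_⟩
    · have h1 := Height.zero_le_logHeight₁ β
      have h2 := Height.zero_le_logHeight₁ α
      have h3 := Height.zero_le_logHeight₁ t₀
      have h4 : 0 ≤ log 2 := log_nonneg (by norm_num)
      positivity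
    · intro a b hb hab
      have ha : 1 ≤ a := by omega
      have hla : 0 ≤ log a := log_natCast_nonneg a
      have hlb : log b ≤ log a := log_le_log (by exact_mod_cast hb) (by exact_mod_cast hab.le)
      have e1 := Height.logHeight₁_add_le β (α * (t₀ * a / b + (t₀ * a / b)⁻¹))
      have e2 := Height.logHeight₁_mul_le α (t₀ * a / b + (t₀ * a / b)⁻¹)
      have e3 := Height.logHeight₁_add_le (t₀ * a / b) (t₀ * a / b)⁻¹
      rw [Height.logHeight₁_inv] at e3
      have e4 : Height.logHeight₁ (t₀ * (a : K) / b) ≤
          Height.logHeight₁ t₀ + 2 * ((finrank ℚ K : ℝ) * log a) := by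
        rw [div_eq_mul_inv]
        refine (Height.logHeight₁_mul_le _ _).trans ?_
        rw [Height.logHeight₁_inv, ht_nat b hb]
        have e5 := Height.logHeight₁_mul_le t₀ (a : K)
        rw [ht_nat a ha] at e5
        have e6 : (finrank ℚ K : ℝ) * log b ≤ (finrank ℚ K : ℝ) * log a :=
          mul_le_mul_of_nonneg_left hlb (Nat.cast_nonneg _)
        linarith
      have h1 := Height.zero_le_logHeight₁ β
      have h2 := Height.zero_le_logHeight₁ α
      have h3 := Height.zero_le_logHeight₁ t₀
      have h4 : 0 ≤ log 2 := log_nonneg (by norm_num)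
      have h5 : (0 : ℝ) ≤ Height.totalWeight K * log 2 := by positivity
      have h6 : (0 : ℝ) ≤ finrank ℚ K := Nat.cast_nonneg _
      unfold xx
      have e7 : Height.logHeight₁ (β + α * (t₀ * a / b + (t₀ * a / b)⁻¹)) ≤
          (Height.totalWeight K * log 2 + Height.totalWeight K * log 2 +
            Height.logHeight₁ β + Height.logHeight₁ α + 2 * Height.logHeight₁ t₀) +
            4 * (finrank ℚ K : ℝ) * log a := by
        linarith
      refine e7.trans ?_
      nlinarith [mul_nonneg h5 hla, mul_nonneg h1 hla, mul_nonneg h2 hla, mul_nonneg h3 hla,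
        mul_nonneg h6 hla]
  · intro K _ _ T x
    unfold LogTermDependsOnS.proximity
    rw [Finset.sum_singleton, NumberField.logHeight₁_eq]
    refine add_le_add (le_of_eq ?_) ?_
    · refine Finset.sum_congr rfl fun v _ => ?_
      simp only [LogTermDependsOnS.weil]
      rw [LogTermDependsOnS.log_max_eq _ (apply_nonneg v x)]
    · have h1 : ∀ v ∈ LogTermDependsOnS.placesOver K T, LogTermDependsOnS.weil v none x =
          log⁺ (v x) := by
        intro v _
        simp only [LogTermDependsOnS.weil]
        rw [LogTermDependsOnS.log_max_eq _ (apply_nonneg v x)]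
      rw [Finset.sum_congr rfl h1]
      have hfin : (Function.support fun v : FinitePlace K => log⁺ (v x)).Finite := by
        by_cases hx : x = 0
        · have : (Function.support fun v : FinitePlace K => log⁺ (v x)) = ∅ := by
            ext v
            simp [hx]
          rw [this]
          exact Set.finite_empty
        · refine (FinitePlace.hasFiniteMulSupport hx).subset ?_
          intro v hv hv1
          apply hv
          have hv2 : v x = 1 := hv1
          show log⁺ (v x) = 0
          rw [hv2]
          simp
      classical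
      have h2 : ∑ᶠ v : FinitePlace K, log⁺ (v x) =
          ∑ v ∈ LogTermDependsOnS.placesOver K T ∪ hfin.toFinset, log⁺ (v x) := by
        apply finsum_eq_sum_of_support_subset
        intro v hv
        rw [Finset.coe_union, Set.Finite.coe_toFinset]
        exact Or.inr hv
      rw [h2]
      exact Finset.sum_le_sum_of_subset_of_nonneg Finset.subset_union_left
        fun v _ _ => posLog_nonneg

end Pool.Agent.H455.WP_HT
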