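import Mathlib
import Pool.Agent.H455.WPS

/-!
# WP-PROX: lower bound for the proximity function
-/

set_option autoImplicit false

namespace Pool.Agent.H455.WP_PROX

open NumberField Real Module
open Pool.Agent.H455.WP
open Pool.Agent.Results.MP_e44225_nt

variable {K : Type} [Field K] [NumberField K]

theorem fin_nat_le (v : FinitePlace K) (n : ℕ) : v (n : K) ≤ 1 := by
  induction n with
  | zero => rw [Nat.cast_zero, map_zero]; exact zero_le_one
  | succ n ih =>
    rw [Nat.cast_succ]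
    refine (FinitePlace.add_le v _ _).trans (max_le ih ?_)
    rw [map_one]

theorem fin_neg (v : FinitePlace K) (x : K) : v (-x) = v x := map_neg_eq_map v x

theorem fin_int_le (v : FinitePlace K) (n : ℤ) : v (n : K) ≤ 1 := by
  obtain ⟨m, rfl | rfl⟩ := n.eq_nat_or_neg
  · rw [Int.cast_natCast]; exact fin_nat_le v m
  · rw [Int.cast_neg, Int.cast_natCast, fin_neg]; exact fin_nat_le v m

theorem fin_coprime (v : FinitePlace K) {a b : ℕ} (h : Nat.Coprime a b) :
    v (a : K) = 1 ∨ v (b : K) = 1 := by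
  by_contra hc
  push Not at hc
  have ha : v (a : K) < 1 := lt_of_le_of_ne (fin_nat_le v a) hc.1
  have hb : v (b : K) < 1 := lt_of_le_of_ne (fin_nat_le v b) hc.2
  obtain ⟨x, y, hxy⟩ := Nat.isCoprime_iff_coprime.2 h
  have h1 : ((x : K) * a + y * b) = 1 := by
    exact_mod_cast congrArg (Int.cast : ℤ → K) hxy
  have h2 := FinitePlace.add_le v ((x : K) * a) (y * b)
  rw [h1, map_one, map_mul, map_mul] at h2
  have h3 : v (x : K) * v (a : K) ≤ v (a : K) :=
    mul_le_of_le_one_left (apply_nonneg v _) (fin_int_le v x)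
  have h4 : v (y : K) * v (b : K) ≤ v (b : K) :=
    mul_le_of_le_one_left (apply_nonneg v _) (fin_int_le v y)
  rcases le_max_iff.1 h2 with h5 | h5 <;> linarith

/-- the constant at a finite place -/
noncomputable def cv (α β t₀ : K) (v : FinitePlace K) : ℝ :=
  log (max (v t₀) (v t₀)⁻¹ * ((1 + v β) / v α + 1))

theorem loc (v : FinitePlace K) {α β t₀ : K} (hα : α ≠ 0) (ht : t₀ ≠ 0) {a b : ℕ} (ha : 0 < a)
    (hb : 0 < b) (hc : Nat.Coprime a b) :
    -log (v (a : K)) - log (v (b : K)) - cv α β t₀ v ≤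
      LogTermDependsOnS.weil v none (xx α β t₀ a b) := by
  have haK : (a : K) ≠ 0 := by exact_mod_cast ha.ne'
  have hbK : (b : K) ≠ 0 := by exact_mod_cast hb.ne'
  have hva : 0 < v (a : K) := FinitePlace.pos_iff.2 haK
  have hvb : 0 < v (b : K) := FinitePlace.pos_iff.2 hbK
  have hvt : 0 < v t₀ := FinitePlace.pos_iff.2 ht
  have hvα : 0 < v α := FinitePlace.pos_iff.2 hα
  have hvβ : 0 ≤ v β := apply_nonneg v _
  set x := xx α β t₀ a b with hx
  set t : K := t₀ * a / b with htd
  have ht0 : t ≠ 0 := div_ne_zero (mul_ne_zero ht haK) hbK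
  have hvt0 : 0 < v t := FinitePlace.pos_iff.2 ht0
  have hx1 : x = β + α * (t + t⁻¹) := rfl
  have hx2 : α * (t + t⁻¹) = x + -β := by rw [hx1]; ring
  have hvx : 0 ≤ v x := apply_nonneg v _
  have hE0 : 0 ≤ v (t + t⁻¹) := apply_nonneg v _
  -- the bound of `v (t + 1/t)`
  have h1 : v α * v (t + t⁻¹) ≤ max (v x) (v β) := by
    rw [← map_mul, hx2]
    have := FinitePlace.add_le v x (-β)
    rwa [fin_neg] at this
  have h2 : v (t + t⁻¹) + 1 ≤ ((1 + v β) / v α + 1) * max (v x) 1 := by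
    have h3 : max (v x) (v β) ≤ (1 + v β) * max (v x) 1 := by
      have hm1 : v x ≤ max (v x) 1 := le_max_left _ _
      have hm2 : 1 ≤ max (v x) 1 := le_max_right _ _
      refine max_le ?_ ?_
      · nlinarith
      · nlinarith
    have h4 : v (t + t⁻¹) ≤ (1 + v β) / v α * max (v x) 1 := by
      rw [div_mul_eq_mul_div, le_div_iff₀ hvα, mul_comm]
      exact h1.trans h3
    have hm2 : 1 ≤ max (v x) 1 := le_max_right _ _
    rw [add_mul, one_mul]
    exact add_le_add h4 hm2
  -- the bounds of `v t` and its inverse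
  have h5 : v t ≤ v (t + t⁻¹) + 1 := by
    rcases le_or_gt (v t) 1 with h | h
    · linarith
    · have h6 := FinitePlace.add_le v (t + t⁻¹) (-t⁻¹)
      rw [fin_neg, add_neg_cancel_right, map_inv₀] at h6
      have h7 : (v t)⁻¹ ≤ 1 := inv_le_one_of_one_le₀ h.le
      rcases le_max_iff.1 h6 with h8 | h8 <;> linarith
  have h6 : (v t)⁻¹ ≤ v (t + t⁻¹) + 1 := by
    rcases le_or_gt 1 (v t) with h | h
    · have h7 : (v t)⁻¹ ≤ 1 := inv_le_one_of_one_le₀ h
      linarith
    · have h7 := FinitePlace.add_le v (t + t⁻¹) (-t)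
      have e : t + t⁻¹ + -t = t⁻¹ := by ring
      rw [fin_neg, e, map_inv₀] at h7
      rcases le_max_iff.1 h7 with h8 | h8 <;> linarith
  -- the bound of `1 / (v a * v b)`
  have h7 : (v (a : K))⁻¹ * (v (b : K))⁻¹ ≤ max (v t₀) (v t₀)⁻¹ * (v (t + t⁻¹) + 1) := by
    have hM : 0 < max (v t₀) (v t₀)⁻¹ := hvt.trans_le (le_max_left _ _)
    rcases fin_coprime v hc with h | h
    · have e : (v (a : K))⁻¹ * (v (b : K))⁻¹ = (v t₀)⁻¹ * v t := by
        rw [htd, map_div₀, map_mul, h]
        field_simp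
      rw [e]
      exact mul_le_mul (le_max_right _ _) h5 hvt0.le hM.le
    · have e : (v (a : K))⁻¹ * (v (b : K))⁻¹ = v t₀ * (v t)⁻¹ := by
        rw [htd, map_div₀, map_mul, h]
        field_simp
      rw [e]
      exact mul_le_mul (le_max_left _ _) h6 (inv_nonneg.2 hvt0.le) hM.le
  have hM : 0 < max (v t₀) (v t₀)⁻¹ := hvt.trans_le (le_max_left _ _)
  have hC : 0 < (1 + v β) / v α + 1 := by positivity
  have hX : 0 < max (v x) 1 := lt_of_lt_of_le one_pos (le_max_right _ _)
  have h8 : (v (a : K))⁻¹ * (v (b : K))⁻¹ ≤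
      max (v t₀) (v t₀)⁻¹ * ((1 + v β) / v α + 1) * max (v x) 1 := by
    refine h7.trans ?_
    rw [mul_assoc]
    exact mul_le_mul_of_nonneg_left h2 hM.le
  have h9 := Real.log_le_log (by positivity) h8
  rw [Real.log_mul (inv_ne_zero hva.ne') (inv_ne_zero hvb.ne'), Real.log_inv, Real.log_inv,
    Real.log_mul (mul_pos hM hC).ne' hX.ne'] at h9
  unfold cv LogTermDependsOnS.weil
  linarith

theorem unit_out {T : Finset ℕ} {a : ℕ} (ha : a ≠ 0) (hT : ∀ p ∈ T, p.Prime)
    (h : a.primeFactors ⊆ T) (v : FinitePlace K) (hv : v ∉ LogTermDependsOnS.placesOver K T) :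
    v (a : K) = 1 := by
  have h1 : a = ∏ p ∈ a.primeFactors, p ^ a.factorization p :=
    (Nat.prod_factorization_pow_eq_self ha).symm
  rw [h1]
  push_cast
  rw [map_prod]
  refine Finset.prod_eq_one fun p hp => ?_
  rw [map_pow]
  have : v (p : K) = 1 := by
    by_contra h2
    exact hv (LogTermDependsOnS.mem_placesOver.mpr ⟨p, h hp, (hT p (h hp)).ne_zero, h2⟩)
  rw [this, one_pow]

theorem sum_log {T : Finset ℕ} {a : ℕ} (ha : a ≠ 0) (hT : ∀ p ∈ T, p.Prime)
    (h : a.primeFactors ⊆ T) :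
    ∑ v ∈ LogTermDependsOnS.placesOver K T, -log (v (a : K)) = (finrank ℚ K : ℝ) * log a := by
  have haK : (a : K) ≠ 0 := by exact_mod_cast ha
  have h1 := LogTermDependsOnS.product_formula_log (LogTermDependsOnS.placesOver K T) (a : K) haK
    (fun v hv => unit_out ha hT h v hv)
  have h2 : ∑ v : InfinitePlace K, (v.mult : ℝ) * log (v (a : K)) =
      (finrank ℚ K : ℝ) * log a := by
    rw [← InfinitePlace.sum_mult_eq (K := K)]
    push_cast
    rw [Finset.sum_mul]
    refine Finset.sum_congr rfl fun v _ => ?_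
    rw [InfinitePlace.map_natCast]
  rw [Finset.sum_neg_distrib]
  linarith

theorem main : Pool.Agent.H455.WP.S_PROX := by
  intro K _ _ α β t₀ hα ht T hT
  refine ⟨(finrank ℚ K : ℝ) * log 3 + ∑ v ∈ LogTermDependsOnS.placesOver K T, cv α β t₀ v, ?_⟩
  intro a b hb hab hab3 hc hTa hTb
  have ha : 0 < a := hb.trans hab
  have h1 : ∑ v ∈ LogTermDependsOnS.placesOver K T,
      (-log (v (a : K)) - log (v (b : K)) - cv α β t₀ v) ≤
      ∑ v ∈ LogTermDependsOnS.placesOver K T,
        LogTermDependsOnS.weil v none (xx α β t₀ a b) :=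
    Finset.sum_le_sum fun v _ => loc v hα ht ha hb hc
  have h2 : 0 ≤ ∑ v : InfinitePlace K,
      (v.mult : ℝ) * LogTermDependsOnS.weil v none (xx α β t₀ a b) := by
    refine Finset.sum_nonneg fun v _ => mul_nonneg (Nat.cast_nonneg _) ?_
    unfold LogTermDependsOnS.weil
    exact Real.log_nonneg (le_max_right _ _)
  have h3 := sum_log (K := K) ha.ne' hT hTa
  have h4 := sum_log (K := K) hb.ne' hT hTb
  have h5 : ∑ v ∈ LogTermDependsOnS.placesOver K T,
      (-log (v (a : K)) - log (v (b : K)) - cv α β t₀ v) =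
      (finrank ℚ K : ℝ) * log a + (finrank ℚ K : ℝ) * log b -
        ∑ v ∈ LogTermDependsOnS.placesOver K T, cv α β t₀ v := by
    rw [← h3, ← h4, ← Finset.sum_add_distrib, ← Finset.sum_sub_distrib]
    refine Finset.sum_congr rfl fun v _ => ?_
    ring
  have h6 : log a ≤ log 3 + log b := by
    rw [← Real.log_mul (by norm_num) (by exact_mod_cast hb.ne')]
    exact Real.log_le_log (by exact_mod_cast ha) (by exact_mod_cast hab3)
  have h7 : (finrank ℚ K : ℝ) * log a ≤ (finrank ℚ K : ℝ) * (log 3 + log b) :=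
    mul_le_mul_of_nonneg_left h6 (Nat.cast_nonneg _)
  unfold LogTermDependsOnS.proximity
  rw [Finset.sum_singleton]
  linarith

end Pool.Agent.H455.WP_PROX
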