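import Pool.Agent.H455.WPS

/-!
# SPLIT and IOTA: a number field which contains three zeros of `f`; algebraic closures
-/

set_option autoImplicit false

namespace Pool.Agent.H455.WP_SPLIT

open NumberField Polynomial Module

/-- The embedding of the algebraic closures. -/
theorem iota : Pool.Agent.H455.WP.S_IOTA := by
  intro k _ _ K _ _ _
  have : Module.Finite k K := Module.Finite.of_restrictScalars_finite ℚ k K
  have : Algebra.IsAlgebraic k K := Algebra.IsAlgebraic.of_finite k K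
  have : Algebra.IsAlgebraic k (AlgebraicClosure K) := Algebra.IsAlgebraic.trans k K (AlgebraicClosure K)
  let ι : AlgebraicClosure K →ₐ[k] AlgebraicClosure k := IsAlgClosed.lift
  refine ⟨ι.toRingHom, fun z => ?_⟩
  rw [← IsScalarTower.algebraMap_apply k K (AlgebraicClosure K)]
  exact ι.commutes z

lemma alg1 {L : Type} [Field L] [CharZero L] {c d : L} (hd : d ^ 2 = c ^ 2 - 4) :
    ((c + d) / 2) ^ 2 - c * ((c + d) / 2) + 1 = 0 := by
  field_simp
  linear_combination hd

lemma alg2 {L : Type} [Field L] {t c : L} (ht0 : t ≠ 0) (ht : t ^ 2 - c * t + 1 = 0) :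
    t + t⁻¹ = c := by
  field_simp
  linear_combination ht

lemma alg3 {L : Type} [Field L] {β α e : L} (hα : α ≠ 0) : β + α * ((e - β) / α) = e := by
  field_simp
  ring

lemma alg4 {L : Type} [Field L] [CharZero L] (a b : L) : (a + b) / 2 + 2 * ((a - b) / 4) = a := by
  field_simp
  ring

lemma alg5 {L : Type} [Field L] [CharZero L] (a b : L) : (a + b) / 2 - 2 * ((a - b) / 4) = b := by
  field_simp
  ring

/-- Three different zeros give three linear factors. -/
lemma three {K : Type} [Field K] {g : K[X]} (hg : g ≠ 0) {a b c : K} (hab : a ≠ b) (hac : a ≠ c)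
    (hbc : b ≠ c) (ha : g.eval a = 0) (hb : g.eval b = 0) (hc : g.eval c = 0) :
    ∃ F : K[X], F.natDegree + 3 = g.natDegree ∧ g = (X - C a) * (X - C b) * (X - C c) * F := by
  obtain ⟨g1, h1⟩ := dvd_iff_isRoot.2 ha
  have hb1 : g1.eval b = 0 := by
    rw [h1, eval_mul, eval_sub, eval_X, eval_C] at hb
    exact (mul_eq_zero.1 hb).resolve_left (sub_ne_zero.2 hab.symm)
  have hc1 : g1.eval c = 0 := by
    rw [h1, eval_mul, eval_sub, eval_X, eval_C] at hc
    exact (mul_eq_zero.1 hc).resolve_left (sub_ne_zero.2 hac.symm)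
  obtain ⟨g2, h2⟩ := dvd_iff_isRoot.2 hb1
  have hc2 : g2.eval c = 0 := by
    rw [h2, eval_mul, eval_sub, eval_X, eval_C] at hc1
    exact (mul_eq_zero.1 hc1).resolve_left (sub_ne_zero.2 hbc.symm)
  obtain ⟨g3, h3⟩ := dvd_iff_isRoot.2 hc2
  have h4 : g = (X - C a) * (X - C b) * (X - C c) * g3 := by
    rw [h1, h2, h3]; ring
  have hg3 : g3 ≠ 0 := by
    rintro rfl
    rw [mul_zero] at h4
    exact hg h4
  refine ⟨g3, ?_, h4⟩
  conv_rhs => rw [h4]
  rw [natDegree_mul (mul_ne_zero (mul_ne_zero (X_sub_C_ne_zero a) (X_sub_C_ne_zero b))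
      (X_sub_C_ne_zero c)) hg3, natDegree_mul (mul_ne_zero (X_sub_C_ne_zero a) (X_sub_C_ne_zero b))
      (X_sub_C_ne_zero c), natDegree_mul (X_sub_C_ne_zero a) (X_sub_C_ne_zero b), natDegree_X_sub_C,
    natDegree_X_sub_C, natDegree_X_sub_C]
  omega

/-- The number field. -/
theorem main : Pool.Agent.H455.WP.S_SPLIT := by
  classical
  intro k _ _ f hf hdeg
  set Ω := AlgebraicClosure k with hΩ
  have hfm : (f.map (algebraMap k Ω)).Separable := hf.map
  have hcard : 2 < (f.map (algebraMap k Ω)).roots.toFinset.card := by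
    rw [Multiset.toFinset_card_of_nodup (nodup_roots hfm),
      ← (IsAlgClosed.splits (f.map (algebraMap k Ω))).natDegree_eq_card_roots, natDegree_map]
    omega
  obtain ⟨e₁, h₁, e₂, h₂, e₃, h₃, h₁₂, h₁₃, h₂₃⟩ := Finset.two_lt_card.1 hcard
  have hroot : ∀ e ∈ (f.map (algebraMap k Ω)).roots.toFinset, aeval e f = 0 := by
    intro e he
    rw [Multiset.mem_toFinset] at he
    have := isRoot_of_mem_roots he
    rwa [IsRoot.def, eval_map_algebraMap] at this
  set α' : Ω := (e₁ - e₂) / 4 with hα'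
  set β' : Ω := (e₁ + e₂) / 2 with hβ'
  have hα0 : α' ≠ 0 := div_ne_zero (sub_ne_zero.2 h₁₂) (by norm_num)
  set c' : Ω := (e₃ - β') / α' with hc'
  obtain ⟨d, hd⟩ := IsAlgClosed.exists_pow_nat_eq (c' ^ 2 - 4) (n := 2) (by norm_num)
  set t' : Ω := (c' + d) / 2 with ht'
  have ht : t' ^ 2 - c' * t' + 1 = 0 := alg1 hd
  have ht0 : t' ≠ 0 := by
    intro h
    rw [h] at ht
    norm_num at ht
  have htc : t' + t'⁻¹ = c' := alg2 ht0 ht
  set K := IntermediateField.adjoin k ({e₁, e₂, e₃, t'} : Set Ω) with hK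
  have hfin : FiniteDimensional k K :=
    IntermediateField.finiteDimensional_adjoin (fun x _ => Algebra.IsIntegral.isIntegral x)
  have hnf : NumberField K := NumberField.of_module_finite k K
  have m₁ : e₁ ∈ K := IntermediateField.subset_adjoin k _ (by simp)
  have m₂ : e₂ ∈ K := IntermediateField.subset_adjoin k _ (by simp)
  have m₃ : e₃ ∈ K := IntermediateField.subset_adjoin k _ (by simp)
  have mt : t' ∈ K := IntermediateField.subset_adjoin k _ (by simp)
  set f₁ : K := ⟨e₁, m₁⟩ with hf₁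
  set f₂ : K := ⟨e₂, m₂⟩ with hf₂
  set f₃ : K := ⟨e₃, m₃⟩ with hf₃
  set t₀ : K := ⟨t', mt⟩ with ht₀
  set α : K := (f₁ - f₂) / 4 with hα
  set β : K := (f₁ + f₂) / 2 with hβ
  have hval : ∀ a : K, aeval (algebraMap K Ω a) f = 0 → (f.map (algebraMap k K)).eval a = 0 := by
    intro a ha
    rw [eval_map_algebraMap]
    exact (aeval_algebraMap_eq_zero_iff Ω a f).1 ha
  have n₁₂ : f₁ ≠ f₂ := fun h => h₁₂ (congrArg Subtype.val h)
  have n₁₃ : f₁ ≠ f₃ := fun h => h₁₃ (congrArg Subtype.val h)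
  have n₂₃ : f₂ ≠ f₃ := fun h => h₂₃ (congrArg Subtype.val h)
  have hne : f.map (algebraMap k K) ≠ 0 := by
    rw [Ne, Polynomial.map_eq_zero]
    rintro rfl
    simp at hdeg
  obtain ⟨F, hF1, hF2⟩ := three hne n₁₂ n₁₃ n₂₃ (hval f₁ (hroot e₁ h₁)) (hval f₂ (hroot e₂ h₂))
    (hval f₃ (hroot e₃ h₃))
  have q1 : β + 2 * α = f₁ := alg4 f₁ f₂
  have q2 : β - 2 * α = f₂ := alg5 f₁ f₂
  have q3 : β + α * (t₀ + t₀⁻¹) = f₃ := by
    apply Subtype.val_injective
    show β' + α' * (t' + t'⁻¹) = e₃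
    rw [htc]
    exact alg3 hα0
  refine ⟨K, inferInstance, hnf, inferInstance, α, β, t₀, F, ?_, ?_, ?_, ?_⟩
  · exact div_ne_zero (sub_ne_zero.2 n₁₂) (by norm_num)
  · intro h
    exact ht0 (congrArg Subtype.val h)
  · rw [hF1, natDegree_map]
  · rw [q1, q2, q3]
    exact hF2

end Pool.Agent.H455.WP_SPLIT
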