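import Mathlib
import Pool.Agent.H455.WP5
import Pool.Agent.H455.WPN
import Pool.Agent.H455.WP_ALG
import Pool.Agent.H455.WP_DQ
import Pool.Agent.H455.WP_PROX
import Pool.Agent.H455.WP_HT
import Pool.Agent.H455.WP_BC
import Pool.Agent.H455.WP_SPLIT

/-!
# Elliptic curves: every divisor `D ≠ 0`
-/

set_option autoImplicit false

namespace Pool.Agent.H455.WP

open NumberField Real Polynomial Module Filter
open Pool.Agent.H505.VL Pool.Agent.H505.VL.Pt
open scoped Classical

theorem main_hyper (k : Type) [Field k] [NumberField k] (f : k[X]) (hf : f.Separable)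
    (hd : 3 ≤ f.natDegree) :
    ∃ r : ℕ, ∀ T : Finset ℕ, (∀ p ∈ T, p.Prime) → ∀ C b : ℝ, 0 < C →
      C < (finrank ℚ k : ℝ) / 2 * ((T.card : ℝ) - 1) → ∀ g w : ℝ, 1 ≤ g →
      g - 1 + w = ((f.natDegree : ℝ) - 2) / 2 →
      {P : AlgebraicClosure k × AlgebraicClosure k | P.2 ^ 2 = aeval P.1 f ∧
        finrank k (resField k P) ≤ r ∧
        C * log⁺ (heightA k P) + logDisc k P + b ≤
          (g - 1) * heightA k P + w * prox k T {none} P}.Infinite :=
  mainAll WP_ALG.main WP_DQ.main WP_PROX.main WP_HT.main WP_BC.main WP_SPLIT.iota WP_SPLIT.main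
    k f hf hd

section inv
variable {k : Type} [Field k] [NumberField k]

theorem inv_logHeight {L L' : IntermediateField k (AlgebraicClosure k)} [NumberField L]
    [NumberField L'] (h : L = L') (x : L) (x' : L')
    (hx : (x : AlgebraicClosure k) = (x' : AlgebraicClosure k)) :
    Height.logHeight₁ x = Height.logHeight₁ x' := by
  subst h
  have h1 : x = x' := Subtype.ext hx
  subst h1
  rfl

theorem inv_disc {L L' : IntermediateField k (AlgebraicClosure k)} [NumberField L]
    [NumberField L'] (h : L = L') : (discr L : ℝ) = discr L' := by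
  subst h
  rfl

theorem inv_prox {L L' : IntermediateField k (AlgebraicClosure k)} [NumberField L]
    [NumberField L'] (h : L = L') (T : Finset ℕ) (x : L) (x' : L')
    (hx : (x : AlgebraicClosure k) = (x' : AlgebraicClosure k)) :
    (∑ w : InfinitePlace L, (w.mult : ℝ) * weil w none x) + ∑ w ∈ placesOver L T, weil w none x =
    (∑ w : InfinitePlace L', (w.mult : ℝ) * weil w none x') +
      ∑ w ∈ placesOver L' T, weil w none x' := by
  subst h
  have h1 : x = x' := Subtype.ext hx
  subst h1
  rfl

theorem logDisc_inv {P P' : AlgebraicClosure k × AlgebraicClosure k}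
    (h : resField k P = resField k P') : logDisc k P = logDisc k P' := by
  unfold logDisc
  rw [inv_disc h, h]

theorem heightA_inv {P P' : AlgebraicClosure k × AlgebraicClosure k}
    (h : resField k P = resField k P') (h1 : P.1 = P'.1) : heightA k P = heightA k P' := by
  unfold heightA
  rw [inv_logHeight h (coordX k P) (coordX k P') h1, h]

theorem prox_inv {P P' : AlgebraicClosure k × AlgebraicClosure k} (T : Finset ℕ)
    (h : resField k P = resField k P') (h1 : P.1 = P'.1) :
    prox k T {none} P = prox k T {none} P' := by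
  unfold prox
  rw [Finset.sum_singleton, Finset.sum_singleton]
  have h2 := inv_prox h T (coordX k P) (coordX k P') h1
  simp only [Option.map_none]
  rw [h2, h]

theorem prox_nonneg (T : Finset ℕ) (P : AlgebraicClosure k × AlgebraicClosure k) :
    0 ≤ prox k T {none} P := by
  unfold prox
  rw [Finset.sum_singleton]
  refine div_nonneg (add_nonneg (Finset.sum_nonneg fun w _ => mul_nonneg (Nat.cast_nonneg _) ?_)
    (Finset.sum_nonneg fun w _ => ?_)) (Nat.cast_nonneg _)
  · simp only [Option.map_none, weil]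
    exact Real.log_nonneg (le_max_right _ _)
  · simp only [Option.map_none, weil]
    exact Real.log_nonneg (le_max_right _ _)

theorem resField_eq (a₁ a₃ : k) (x y : AlgebraicClosure k) :
    resField k (x, y) = resField k (x, 2 * y + algebraMap k (AlgebraicClosure k) a₁ * x +
      algebraMap k (AlgebraicClosure k) a₃) := by
  apply le_antisymm
  · rw [IntermediateField.adjoin_le_iff]
    have hx : x ∈ resField k (x, 2 * y + algebraMap k (AlgebraicClosure k) a₁ * x +
      algebraMap k (AlgebraicClosure k) a₃) := IntermediateField.subset_adjoin k _ (by simp)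
    have hy : 2 * y + algebraMap k (AlgebraicClosure k) a₁ * x +
      algebraMap k (AlgebraicClosure k) a₃ ∈ resField k (x, 2 * y +
        algebraMap k (AlgebraicClosure k) a₁ * x + algebraMap k (AlgebraicClosure k) a₃) :=
      IntermediateField.subset_adjoin k _ (by simp)
    rintro z (hz | hz)
    · have hz' : z = x := hz
      rw [hz']
      exact hx
    · have hz' : z = y := hz
      rw [hz']
      have h2 : y = (2 * y + algebraMap k (AlgebraicClosure k) a₁ * x +
        algebraMap k (AlgebraicClosure k) a₃ - algebraMap k (AlgebraicClosure k) a₁ * x -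
        algebraMap k (AlgebraicClosure k) a₃) * algebraMap k (AlgebraicClosure k) (1 / 2) := by
        rw [map_div₀, map_one, map_ofNat]
        ring
      have h3 := mul_mem (sub_mem (sub_mem hy (mul_mem
        (IntermediateField.algebraMap_mem _ a₁) hx))
        (IntermediateField.algebraMap_mem _ a₃)) (IntermediateField.algebraMap_mem _ (1 / 2))
      rw [← h2] at h3
      exact h3
  · rw [IntermediateField.adjoin_le_iff]
    have hx : x ∈ resField k (x, y) := IntermediateField.subset_adjoin k _ (by simp)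
    have hy : y ∈ resField k (x, y) := IntermediateField.subset_adjoin k _ (by simp)
    rintro z (hz | hz)
    · have hz' : z = x := hz
      rw [hz']
      exact hx
    · have hz' : z = 2 * y + algebraMap k (AlgebraicClosure k) a₁ * x +
        algebraMap k (AlgebraicClosure k) a₃ := hz
      rw [hz']
      have h2 : (2 : AlgebraicClosure k) ∈ resField k (x, y) := by
        have := IntermediateField.algebraMap_mem (resField k (x, y)) (2 : k)
        rwa [map_ofNat] at this
      exact add_mem (add_mem (mul_mem h2 hy) (mul_mem (IntermediateField.algebraMap_mem _ _) hx))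
        (IntermediateField.algebraMap_mem _ _)

end inv

/-- `D = Q` is a rational point -/
theorem rational_point (hEF : S_EF) (hFLD : S_FLD) (hHTR : S_HTR)
    (k : Type) [Field k] [NumberField k] (W : WeierstrassCurve k) [W.IsElliptic]
    (Q : WeierstrassCurve.Affine.Point (W.baseChange k)) :
    ∃ r : ℕ, ∀ T : Finset ℕ, (∀ p ∈ T, p.Prime) → ∀ C b : ℝ, 0 < C →
      C < (finrank ℚ k : ℝ) / 2 * ((T.card : ℝ) - 1) →
      {P : Pts k W | finrank k (resField k (crd P)) ≤ r ∧
        C * log⁺ (heightA k (crd P)) + logDisc k (crd P) + b ≤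
          prox k T {none} (crd (P - incl W Q)) / 2}.Infinite := by
  obtain ⟨f, hfs, hfd, hfW⟩ := hEF k W
  obtain ⟨r, hr⟩ := main_hyper k f hfs (by omega)
  obtain ⟨c, hc0, hc⟩ := hHTR k W Q
  refine ⟨r, ?_⟩
  intro T hT C b hC hCT
  have hinf := hr T hT C (b + C * (log⁺ c + log 2)) hC hCT 1 (1 / 2) le_rfl (by
    rw [hfd]; norm_num)
  set a₁ := algebraMap k (AlgebraicClosure k) W.a₁ with ha₁
  set a₃ := algebraMap k (AlgebraicClosure k) W.a₃ with ha₃
  -- the map to `W`
  set φ : AlgebraicClosure k × AlgebraicClosure k → Pts k W := fun P =>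
    if h : (W.baseChange (AlgebraicClosure k)).toAffine.Nonsingular P.1
      ((P.2 - a₁ * P.1 - a₃) / 2) then
      WeierstrassCurve.Affine.Point.some P.1 ((P.2 - a₁ * P.1 - a₃) / 2) h + incl W Q
    else 0 with hφ
  have h2 : (2 : AlgebraicClosure k) ≠ 0 := two_ne_zero
  have hback : ∀ P : AlgebraicClosure k × AlgebraicClosure k,
      2 * ((P.2 - a₁ * P.1 - a₃) / 2) + a₁ * P.1 + a₃ = P.2 := by
    intro P
    field_simp
    ring
  have hns : ∀ P : AlgebraicClosure k × AlgebraicClosure k, P.2 ^ 2 = aeval P.1 f →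
      (W.baseChange (AlgebraicClosure k)).toAffine.Nonsingular P.1
        ((P.2 - a₁ * P.1 - a₃) / 2) := by
    intro P hP
    rw [← hfW, hback, hP]
  have hφe : ∀ P : AlgebraicClosure k × AlgebraicClosure k, ∀ hP : P.2 ^ 2 = aeval P.1 f,
      φ P = WeierstrassCurve.Affine.Point.some P.1 ((P.2 - a₁ * P.1 - a₃) / 2) (hns P hP) +
        incl W Q := fun P hP => dif_pos (hns P hP)
  refine (hinf.image (f := φ) ?_).mono ?_
  · rintro P ⟨hP, _⟩ P' ⟨hP', _⟩ h
    rw [hφe P hP, hφe P' hP', add_left_inj] at h
    simp only [WeierstrassCurve.Affine.Point.some.injEq] at h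
    obtain ⟨h3, h4⟩ := h
    refine Prod.ext h3 ?_
    rw [← hback P, ← hback P', h4, h3]
  · rintro _ ⟨P, ⟨hP, hP1, hP2⟩, rfl⟩
    rw [hφe P hP]
    set R : Pts k W := WeierstrassCurve.Affine.Point.some P.1 ((P.2 - a₁ * P.1 - a₃) / 2)
      (hns P hP) with hR
    have hcrd : crd R = (P.1, (P.2 - a₁ * P.1 - a₃) / 2) := rfl
    have hres : resField k (crd R) = resField k P := by
      rw [hcrd, resField_eq W.a₁ W.a₃, ← ha₁, ← ha₃, hback P]
    have hres2 : resField k (crd (R + incl W Q)) = resField k P := (hFLD k W Q R).trans hres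
    refine ⟨?_, ?_⟩
    · change finrank k (resField k (crd (R + incl W Q))) ≤ r
      rw [hres2]
      exact hP1
    · change C * log⁺ (heightA k (crd (R + incl W Q))) + logDisc k (crd (R + incl W Q)) + b ≤
          prox k T {none} (crd (R + incl W Q - incl W Q)) / 2
      rw [add_sub_cancel_right, logDisc_inv hres2, prox_inv T hres (by rw [hcrd])]
      have q1 := hc R
      rw [heightA_inv hres (by rw [hcrd])] at q1
      have q0 : 0 ≤ heightA k (crd (R + incl W Q)) := by
        unfold heightA
        exact div_nonneg (Height.zero_le_logHeight₁ _) (Nat.cast_nonneg _)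
      have q2 : log⁺ (heightA k (crd (R + incl W Q))) ≤
          log⁺ c + (log 2 + log⁺ (heightA k P)) := by
        calc log⁺ (heightA k (crd (R + incl W Q))) ≤ log⁺ (c * (1 + heightA k P)) :=
              Real.posLog_le_posLog q0 q1
          _ ≤ log⁺ c + log⁺ (1 + heightA k P) := Real.posLog_mul
          _ ≤ log⁺ c + (log 2 + log⁺ (1 : ℝ) + log⁺ (heightA k P)) := by
              have := Real.posLog_add (x := (1 : ℝ)) (y := heightA k P)
              linarith
          _ = log⁺ c + (log 2 + log⁺ (heightA k P)) := by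
              rw [Real.posLog_one]; ring
      have q3 := mul_le_mul_of_nonneg_left q2 hC.le
      have q4 : C * log⁺ (heightA k P) + logDisc k P + (b + C * (log⁺ c + log 2)) ≤
          (1 - 1) * heightA k P + 1 / 2 * prox k T {none} P := hP2
      have q5 : C * (log⁺ c + (log 2 + log⁺ (heightA k P))) =
        C * (log⁺ c + log 2) + C * log⁺ (heightA k P) := by ring
      rw [q5] at q3
      linarith

/-- every `D ≠ 0` -/
theorem elliptic (hEF : S_EF) (hFLD : S_FLD) (hHTR : S_HTR) (hBCE : S_BCE)
    (k : Type) [Field k] [NumberField k] (W : WeierstrassCurve k) [W.IsElliptic]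
    (D : Finset (Pts k W)) (hD : D.Nonempty) :
    ∃ r : ℕ, ∀ T : Finset ℕ, (∀ p ∈ T, p.Prime) → ∀ C b : ℝ, 0 < C →
      C < (finrank ℚ k : ℝ) / 2 * ((T.card : ℝ) - 1) →
      {P : Pts k W | P ∉ D ∧ finrank k (resField k (crd P)) ≤ r ∧
        C * log⁺ (heightA k (crd P)) + logDisc k (crd P) + b ≤ mS k W T D P}.Infinite := by
  obtain ⟨Q, hQ⟩ := hD
  obtain ⟨K, _, _, _, ι, Ψ, Q', hι, hΨ, hcrd, hΨQ⟩ := hBCE k W Q
  haveI : (W.baseChange K).IsElliptic :=
    inferInstanceAs (W.map (algebraMap k K)).IsElliptic
  obtain ⟨r, hr⟩ := rational_point hEF hFLD hHTR K (W.baseChange K) Q'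
  refine ⟨finrank k K * r, ?_⟩
  intro T hT C b hC hCT
  haveI : IsScalarTower ℚ k K := IsScalarTower.of_algebraMap_eq' (Subsingleton.elim _ _)
  haveI : FiniteDimensional k K := FiniteDimensional.right ℚ k K
  have he0 : (0 : ℝ) < finrank k K := by exact_mod_cast finrank_pos
  have he1 : (1 : ℝ) ≤ finrank k K := by
    exact_mod_cast (Nat.succ_le_of_lt finrank_pos)
  have hmul : (finrank ℚ K : ℝ) = finrank ℚ k * finrank k K := by
    exact_mod_cast (finrank_mul_finrank ℚ k K).symm
  have hinf := hr T hT (C * finrank k K) (b * finrank k K) (by positivity) (by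
    rw [hmul]
    have := mul_lt_mul_of_pos_right hCT he0
    calc C * (finrank k K : ℝ) < _ := this
      _ = _ := by ring)
  refine ((hinf.image (f := Ψ) (fun _ _ _ _ h => hΨ h)).diff D.finite_toSet).mono ?_
  rintro _ ⟨⟨P, ⟨hP1, hP2⟩, rfl⟩, hPD⟩
  refine ⟨hPD, ?_, ?_⟩
  · rw [hcrd]
    exact (WP_BC.main k K ι hι T hT (crd P)).1.trans (Nat.mul_le_mul_left _ hP1)
  · obtain ⟨_, b2, _, b4⟩ := WP_BC.main k K ι hι T hT (crd P)
    obtain ⟨_, _, d3, _⟩ := WP_BC.main k K ι hι T hT (crd (P - incl (W.baseChange K) Q'))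
    have e1 : crd (Ψ P - Q) = (ι (crd (P - incl (W.baseChange K) Q')).1,
        ι (crd (P - incl (W.baseChange K) Q')).2) := by
      rw [← hcrd, map_sub, hΨQ]
    have e2 : prox k T {none} (crd (Ψ P - Q)) / 2 ≤ mS k W T D (Ψ P) := by
      unfold mS
      exact Finset.single_le_sum (f := fun Q => prox k T {none} (crd (Ψ P - Q)) / 2)
        (fun Q _ => div_nonneg (prox_nonneg T _) (by norm_num)) hQ
    refine le_trans ?_ e2
    rw [e1, d3, hcrd]
    have hh0 : 0 ≤ heightA K (crd P) := by
      unfold heightA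
      exact div_nonneg (Height.zero_le_logHeight₁ _) (Nat.cast_nonneg _)
    have q1 : log⁺ (heightA k (ι (crd P).1, ι (crd P).2)) ≤ log⁺ (heightA K (crd P)) := by
      rw [b2]
      exact Real.posLog_le_posLog (by positivity) (div_le_self hh0 he1)
    have q5 := mul_le_mul_of_nonneg_left q1 hC.le
    have h1 := div_le_div_of_nonneg_right hP2 he0.le
    have h2 : (C * finrank k K * log⁺ (heightA K (crd P)) + logDisc K (crd P) +
        b * finrank k K) / (finrank k K : ℝ) =
        C * log⁺ (heightA K (crd P)) + logDisc K (crd P) / finrank k K + b := by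
      field_simp
    have h3 : prox K T {none} (crd (P - incl (W.baseChange K) Q')) / 2 / (finrank k K : ℝ) =
        prox K T {none} (crd (P - incl (W.baseChange K) Q')) / finrank k K / 2 := by ring
    rw [h2, h3] at h1
    linarith

/-- `D = 0` -/
theorem zero_divisor (hNORE : S_NORE)
    (k : Type) [Field k] [NumberField k] (W : WeierstrassCurve k) [W.IsElliptic]
    (r : ℕ) (C b : ℝ) (hC : 0 < C) :
    {P : Pts k W | finrank k (resField k (crd P)) ≤ r ∧
        C * log⁺ (heightA k (crd P)) + logDisc k (crd P) ≤ b}.Finite := by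
  refine (hNORE k W r (Real.exp (b / C))).subset ?_
  rintro P ⟨hP1, hP2⟩
  refine ⟨hP1, ?_⟩
  have h1 : 0 ≤ logDisc k (crd P) := by
    unfold logDisc
    refine div_nonneg (Real.log_nonneg ?_) (Nat.cast_nonneg _)
    have h2 : (1 : ℤ) ≤ |discr (resField k (crd P))| :=
      Int.one_le_abs (NumberField.discr_ne_zero _)
    exact_mod_cast h2
  have h2 : log⁺ (heightA k (crd P)) ≤ b / C := by
    rw [le_div_iff₀ hC]
    linarith
  by_contra h3
  rw [not_le] at h3
  have h4 : b / C < log (heightA k (crd P)) := by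
    rw [Real.lt_log_iff_exp_lt (lt_trans (Real.exp_pos _) h3)]
    exact h3
  have h5 : log (heightA k (crd P)) ≤ log⁺ (heightA k (crd P)) := le_max_right _ _
  linarith

end Pool.Agent.H455.WP
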