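import Pool.Agent.H455.WPE

/-!
# Base change of the points of an elliptic curve (`S_BCE` of helper455)
-/

set_option autoImplicit false

namespace Pool.Agent.H455.WPE_BCE

open NumberField Real Polynomial Module
open Pool.Agent.H505.VL Pool.Agent.H505.VL.Pt Pool.Agent.H455.WP
open scoped Classical

/-- points of equal curves -/
noncomputable def ptCast {F : Type} [Field F] {W₁ W₂ : WeierstrassCurve F} (h : W₁ = W₂) :
    WeierstrassCurve.Affine.Point W₁ ≃+ WeierstrassCurve.Affine.Point W₂ := by
  subst h
  exact AddEquiv.refl _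

theorem ptCast_some {F : Type} [Field F] {W₁ W₂ : WeierstrassCurve F} (h : W₁ = W₂) {x y : F}
    (hn : WeierstrassCurve.Affine.Nonsingular W₁ x y)
    (hn' : WeierstrassCurve.Affine.Nonsingular W₂ x y) :
    ptCast h (WeierstrassCurve.Affine.Point.some x y hn) =
      WeierstrassCurve.Affine.Point.some x y hn' := by
  subst h
  rfl

theorem some_congr {F : Type} [Field F] {W : WeierstrassCurve F} {x y x' y' : F}
    (hn : WeierstrassCurve.Affine.Nonsingular W x y)
    (hn' : WeierstrassCurve.Affine.Nonsingular W x' y') (hx : x = x') (hy : y = y') :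
    WeierstrassCurve.Affine.Point.some x y hn = WeierstrassCurve.Affine.Point.some x' y' hn' := by
  subst hx hy
  rfl

theorem curve_eq {k : Type} [Field k] (W : WeierstrassCurve k)
    (K : IntermediateField k (AlgebraicClosure k)) :
    (W.baseChange K).baseChange (AlgebraicClosure k) = W.baseChange (AlgebraicClosure k) := by
  unfold WeierstrassCurve.baseChange
  rw [WeierstrassCurve.map_map]
  rfl

/-- the map of points -/
noncomputable def psi {k : Type} [Field k] (W : WeierstrassCurve k)
    (K : IntermediateField k (AlgebraicClosure k))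
    (ι : AlgebraicClosure K →ₐ[K] AlgebraicClosure k) : Pts K (W.baseChange K) →+ Pts k W :=
  (ptCast (curve_eq W K)).toAddMonoidHom.comp
    (WeierstrassCurve.Affine.Point.map (W' := W.baseChange K) ι)

theorem psi_injective {k : Type} [Field k] (W : WeierstrassCurve k)
    (K : IntermediateField k (AlgebraicClosure k))
    (ι : AlgebraicClosure K →ₐ[K] AlgebraicClosure k) : Function.Injective (psi W K ι) := by
  intro P P' h
  exact WeierstrassCurve.Affine.Point.map_injective (W' := W.baseChange K) ι
    ((ptCast (curve_eq W K)).injective h)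

theorem nonsing {k : Type} [Field k] (W : WeierstrassCurve k)
    (K : IntermediateField k (AlgebraicClosure k))
    (ι : AlgebraicClosure K →ₐ[K] AlgebraicClosure k) {x y : AlgebraicClosure K}
    (h : WeierstrassCurve.Affine.Nonsingular ((W.baseChange K).baseChange (AlgebraicClosure K)) x y) :
    WeierstrassCurve.Affine.Nonsingular (W.baseChange (AlgebraicClosure k)) (ι x) (ι y) := by
  have h1 : WeierstrassCurve.Affine.Nonsingular
      ((W.baseChange K).baseChange (AlgebraicClosure k)) (ι x) (ι y) :=
    (WeierstrassCurve.Affine.baseChange_nonsingular (W.baseChange K) ι.injective x y).mpr h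
  rwa [curve_eq] at h1

theorem psi_some {k : Type} [Field k] (W : WeierstrassCurve k)
    (K : IntermediateField k (AlgebraicClosure k))
    (ι : AlgebraicClosure K →ₐ[K] AlgebraicClosure k) {x y : AlgebraicClosure K}
    (h : WeierstrassCurve.Affine.Nonsingular ((W.baseChange K).baseChange (AlgebraicClosure K)) x y) :
    psi W K ι (WeierstrassCurve.Affine.Point.some x y h) =
      WeierstrassCurve.Affine.Point.some (ι x) (ι y) (nonsing W K ι h) :=
  ptCast_some (curve_eq W K) _ _

theorem exists_iota {k : Type} [Field k] (K : IntermediateField k (AlgebraicClosure k)) :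
    Nonempty (AlgebraicClosure K →ₐ[K] AlgebraicClosure k) :=
  ⟨IsAlgClosed.lift⟩

theorem exists_pt {k : Type} [Field k] (W : WeierstrassCurve k)
    (K : IntermediateField k (AlgebraicClosure k))
    (ι : AlgebraicClosure K →ₐ[K] AlgebraicClosure k) (Q : Pts k W)
    (hx : (crd Q).1 ∈ K) (hy : (crd Q).2 ∈ K) :
    ∃ Q' : WeierstrassCurve.Affine.Point ((W.baseChange K).baseChange K),
      psi W K ι (incl (W.baseChange K) Q') = Q := by
  cases Q with
  | zero => exact ⟨0, by rw [map_zero, map_zero]; rfl⟩
  | some x y h =>
    replace hx : x ∈ K := hx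
    replace hy : y ∈ K := hy
    have h1 : WeierstrassCurve.Affine.Nonsingular
        ((W.baseChange K).baseChange (AlgebraicClosure k)) x y := by
      rw [curve_eq]
      exact h
    have h2 : WeierstrassCurve.Affine.Nonsingular ((W.baseChange K).baseChange K)
        (⟨x, hx⟩ : K) (⟨y, hy⟩ : K) :=
      (WeierstrassCurve.Affine.baseChange_nonsingular (W.baseChange K)
        (f := Algebra.ofId K (AlgebraicClosure k)) (Algebra.ofId K (AlgebraicClosure k)).injective
        ⟨x, hx⟩ ⟨y, hy⟩).mp h1
    refine ⟨WeierstrassCurve.Affine.Point.some _ _ h2, ?_⟩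
    have h3 : incl (W.baseChange K) (WeierstrassCurve.Affine.Point.some _ _ h2) =
        WeierstrassCurve.Affine.Point.some (algebraMap K (AlgebraicClosure K) ⟨x, hx⟩)
          (algebraMap K (AlgebraicClosure K) ⟨y, hy⟩)
          ((WeierstrassCurve.Affine.baseChange_nonsingular (W.baseChange K)
            (f := Algebra.ofId K (AlgebraicClosure K))
            (Algebra.ofId K (AlgebraicClosure K)).injective ⟨x, hx⟩ ⟨y, hy⟩).mpr h2) := rfl
    rw [h3]
    refine (psi_some W K ι _).trans ?_
    exact some_congr _ _ (ι.commutes _) (ι.commutes _)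

theorem base_change {k : Type} [Field k] [NumberField k] (W : WeierstrassCurve k)
    (K : IntermediateField k (AlgebraicClosure k)) [NumberField K] (Q : Pts k W)
    (hx : (crd Q).1 ∈ K) (hy : (crd Q).2 ∈ K) :
    ∃ (K : Type) (_ : Field K) (_ : NumberField K) (_ : Algebra k K)
      (ι : AlgebraicClosure K →+* AlgebraicClosure k)
      (Ψ : Pts K (W.baseChange K) →+ Pts k W)
      (Q' : WeierstrassCurve.Affine.Point ((W.baseChange K).baseChange K)),
      (∀ z : k, ι (algebraMap K (AlgebraicClosure K) (algebraMap k K z)) =
        algebraMap k (AlgebraicClosure k) z) ∧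
      Function.Injective Ψ ∧ (∀ P, crd (Ψ P) = (ι (crd P).1, ι (crd P).2)) ∧
      Ψ (incl (W.baseChange K) Q') = Q := by
  obtain ⟨ι⟩ := exists_iota K
  obtain ⟨Q', hQ'⟩ := exists_pt W K ι Q hx hy
  refine ⟨K, inferInstance, inferInstance, inferInstance, ι.toRingHom, psi W K ι, Q', ?_,
    psi_injective W K ι, ?_, hQ'⟩
  · intro z
    exact ι.commutes _
  · intro P
    cases P with
    | zero =>
      have h1 : psi W K ι WeierstrassCurve.Affine.Point.zero = 0 := map_zero (psi W K ι)
      rw [h1]
      change ((0 : AlgebraicClosure k), (0 : AlgebraicClosure k)) = (ι 0, ι 0)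
      rw [map_zero]
    | some x y h =>
      rw [psi_some]
      rfl

theorem main : Pool.Agent.H455.WP.S_BCE := by
  intro k _ _ W _ Q
  exact base_change W (resField k (crd Q)) Q
    (IntermediateField.subset_adjoin k _ (by simp)) (IntermediateField.subset_adjoin k _ (by simp))

end Pool.Agent.H455.WPE_BCE
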