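import Mathlib
import Pool.Agent.H455.WPE

/-!
# EF: the separable cubic (helper825, for helper455)
-/

set_option autoImplicit false

namespace Pool.Agent.H455.WPE_EF

open NumberField Real Polynomial Module
open Pool.Agent.H455.WP
open scoped Classical

theorem main : S_EF := by
  intro k _ _ W _
  have h4 : (4 : k) ≠ 0 := by norm_num
  have ha : W.twoTorsionPolynomial.a ≠ 0 := h4
  have hΔ : W.Δ ≠ 0 := (W.coe_Δ' ▸ W.Δ'.ne_zero)
  have hdisc : W.twoTorsionPolynomial.discr ≠ 0 := by
    rw [WeierstrassCurve.twoTorsionPolynomial_discr]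
    exact mul_ne_zero (by norm_num) hΔ
  refine ⟨W.twoTorsionPolynomial.toPoly, ?_, Cubic.natDegree_of_a_ne_zero ha, ?_⟩
  · have hsp : (W.twoTorsionPolynomial.toPoly.map (algebraMap k (AlgebraicClosure k))).Splits :=
      IsAlgClosed.splits _
    have hnd := (Cubic.discr_ne_zero_iff_roots_nodup ha hsp).mp hdisc
    rw [Cubic.map_roots] at hnd
    have h0 : W.twoTorsionPolynomial.toPoly.map (algebraMap k (AlgebraicClosure k)) ≠ 0 :=
      (Polynomial.map_ne_zero_iff (algebraMap k (AlgebraicClosure k)).injective).mpr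
        (Cubic.ne_zero_of_a_ne_zero ha)
    rw [← Polynomial.separable_map (algebraMap k (AlgebraicClosure k))]
    exact (nodup_roots_iff_of_splits h0 hsp).mp hnd
  · intro x y
    have h2e : algebraMap k (AlgebraicClosure k) 2 = 2 := map_ofNat _ 2
    have h4e : algebraMap k (AlgebraicClosure k) 4 = 4 := map_ofNat _ 4
    have hΔ' : (W.baseChange (AlgebraicClosure k)).toAffine.Δ ≠ 0 := by
      have h1 : (W.baseChange (AlgebraicClosure k)).Δ = algebraMap k (AlgebraicClosure k) W.Δ :=
        WeierstrassCurve.map_Δ W _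
      change (W.baseChange (AlgebraicClosure k)).Δ ≠ 0
      rw [h1]
      exact (_root_.map_ne_zero _).mpr hΔ
    rw [← WeierstrassCurve.Affine.equation_iff_nonsingular_of_Δ_ne_zero hΔ',
      WeierstrassCurve.Affine.equation_iff]
    have h5 : aeval x W.twoTorsionPolynomial.toPoly =
        4 * x ^ 3 + algebraMap k (AlgebraicClosure k) W.b₂ * x ^ 2 +
          2 * algebraMap k (AlgebraicClosure k) W.b₄ * x + algebraMap k (AlgebraicClosure k) W.b₆ := by
      unfold WeierstrassCurve.twoTorsionPolynomial Cubic.toPoly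
      simp [h2e, h4e]
    rw [h5]
    have hb2 : algebraMap k (AlgebraicClosure k) W.b₂ = algebraMap k (AlgebraicClosure k) W.a₁ ^ 2 +
        4 * algebraMap k (AlgebraicClosure k) W.a₂ := by
      unfold WeierstrassCurve.b₂
      simp [h2e, h4e]
    have hb4 : algebraMap k (AlgebraicClosure k) W.b₄ = 2 * algebraMap k (AlgebraicClosure k) W.a₄ +
        algebraMap k (AlgebraicClosure k) W.a₁ * algebraMap k (AlgebraicClosure k) W.a₃ := by
      unfold WeierstrassCurve.b₄
      simp [h2e, h4e]
    have hb6 : algebraMap k (AlgebraicClosure k) W.b₆ = algebraMap k (AlgebraicClosure k) W.a₃ ^ 2 +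
        4 * algebraMap k (AlgebraicClosure k) W.a₆ := by
      unfold WeierstrassCurve.b₆
      simp [h2e, h4e]
    rw [hb2, hb4, hb6]
    change _ ↔ y ^ 2 + algebraMap k (AlgebraicClosure k) W.a₁ * x * y +
      algebraMap k (AlgebraicClosure k) W.a₃ * y = x ^ 3 + algebraMap k (AlgebraicClosure k) W.a₂ * x ^ 2 +
      algebraMap k (AlgebraicClosure k) W.a₄ * x + algebraMap k (AlgebraicClosure k) W.a₆
    have h4' : (4 : AlgebraicClosure k) ≠ 0 := by
      have : CharZero (AlgebraicClosure k) :=
        charZero_of_injective_algebraMap (algebraMap k (AlgebraicClosure k)).injective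
      norm_num
    constructor
    · intro h
      refine mul_left_cancel₀ h4' ?_
      linear_combination h
    · intro h
      linear_combination 4 * h

end Pool.Agent.H455.WPE_EF
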