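import Pool.Agent.H455.WPE

/-!
# Translation by a rational point keeps the residue field
-/

set_option autoImplicit false
set_option linter.unusedSectionVars false

namespace Pool.Agent.H455.WPE_FLD

open NumberField Module
open Pool.Agent.H505.VL Pool.Agent.H455.WP
open scoped Classical

variable {k : Type} [Field k] [NumberField k] {W : WeierstrassCurve k}

/-- the map on points of the inclusion of an intermediate field -/
noncomputable def up (W : WeierstrassCurve k) (L : IntermediateField k (AlgebraicClosure k)) :
    WeierstrassCurve.Affine.Point (W.baseChange L) →+ Pts k W :=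
  WeierstrassCurve.Affine.Point.map L.val

theorem crd_up (L : IntermediateField k (AlgebraicClosure k))
    (P : WeierstrassCurve.Affine.Point (W.baseChange L)) :
    (crd (up W L P)).1 ∈ L ∧ (crd (up W L P)).2 ∈ L := by
  cases P with
  | zero => exact ⟨L.zero_mem, L.zero_mem⟩
  | some x y h => exact ⟨x.2, y.2⟩

theorem exists_up (L : IntermediateField k (AlgebraicClosure k)) (P : Pts k W)
    (h1 : (crd P).1 ∈ L) (h2 : (crd P).2 ∈ L) :
    ∃ P' : WeierstrassCurve.Affine.Point (W.baseChange L), up W L P' = P := by
  cases P with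
  | zero => exact ⟨0, rfl⟩
  | some x y h =>
    have h' : (W.baseChange L).toAffine.Nonsingular (⟨x, h1⟩ : L) (⟨y, h2⟩ : L) :=
      (WeierstrassCurve.Affine.baseChange_nonsingular W (f := L.val) L.val.injective
        (⟨x, h1⟩ : L) (⟨y, h2⟩ : L)).1 h
    exact ⟨.some _ _ h', rfl⟩

theorem incl_up (L : IntermediateField k (AlgebraicClosure k))
    (Q : WeierstrassCurve.Affine.Point (W.baseChange k)) :
    up W L (WeierstrassCurve.Affine.Point.map (Algebra.ofId k L) Q) = incl W Q := by
  unfold up incl
  rw [WeierstrassCurve.Affine.Point.map_map]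
  have : L.val.comp (Algebra.ofId k L) = Algebra.ofId k (AlgebraicClosure k) := by
    apply AlgHom.ext
    intro x
    rfl
  rw [this]

theorem le_aux (Q : WeierstrassCurve.Affine.Point (W.baseChange k)) (R : Pts k W) :
    resField k (crd (R + incl W Q)) ≤ resField k (crd R) := by
  obtain ⟨L, hL⟩ : ∃ L, L = resField k (crd R) := ⟨_, rfl⟩
  have h1 : (crd R).1 ∈ L := by
    rw [hL]
    exact IntermediateField.subset_adjoin k _ (by simp)
  have h2 : (crd R).2 ∈ L := by
    rw [hL]
    exact IntermediateField.subset_adjoin k _ (by simp)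
  obtain ⟨R', hR'⟩ := exists_up L R h1 h2
  have h3 : R + incl W Q = up W L (R' + WeierstrassCurve.Affine.Point.map (Algebra.ofId k L) Q) := by
    rw [map_add, hR', incl_up]
  have h4 := crd_up L (R' + WeierstrassCurve.Affine.Point.map (Algebra.ofId k L) Q)
  rw [← h3] at h4
  rw [← hL]
  rw [IntermediateField.adjoin_le_iff]
  rintro z (rfl | rfl)
  · exact h4.1
  · exact h4.2

theorem main : Pool.Agent.H455.WP.S_FLD := by
  intro k _ _ W _ Q R
  refine le_antisymm (le_aux Q R) ?_
  have h := le_aux (-Q) (R + incl W Q)
  rwa [map_neg, add_neg_cancel_right] at h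

end Pool.Agent.H455.WPE_FLD
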