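import Mathlib
import Pool.Agent.H455.WPE

/-!
# The height of a translated point
-/

set_option autoImplicit false

namespace Pool.Agent.H455.WPE_HTR

open NumberField Real Polynomial Module
open Pool.Agent.H455.WP
open Pool.Agent.H505.VL Pool.Agent.H505.VL.Pt
open scoped Classical

section UB

variable {k : Type} [Field k] [NumberField k] {ι : Type} {L : ι → Type} [∀ i, Field (L i)]
  [∀ i, NumberField (L i)] [∀ i, Algebra k (L i)]

/-- The height of `z i` is at most a constant times the height of `X i` plus the degree. -/
def UB (k : Type) [Field k] [NumberField k] {ι : Type} {L : ι → Type} [∀ i, Field (L i)]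
    [∀ i, NumberField (L i)] [∀ i, Algebra k (L i)] (X z : ∀ i, L i) : Prop :=
  ∃ c : ℝ, 0 ≤ c ∧ ∀ i, Height.logHeight₁ (z i) ≤
    c * (Height.logHeight₁ (X i) + finrank k (L i))

theorem UB.self (X : ∀ i, L i) : UB k X X := by
  refine ⟨1, zero_le_one, fun i => ?_⟩
  rw [one_mul]
  have : (0 : ℝ) ≤ finrank k (L i) := Nat.cast_nonneg _
  linarith

theorem height_algebraMap (F : Type) [Field F] [NumberField F] [Algebra k F] (a : k) :
    Height.logHeight₁ (algebraMap k F a) = finrank k F * Height.logHeight₁ a := by
  rw [Height.logHeight₁_eq_logHeight, Height.logHeight₁_eq_logHeight,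
    ← Pool.Agent.Helper259.HtExt.logHeight_ext (L := F)]
  congr 1
  funext i
  fin_cases i
  · rfl
  · simp

theorem UB.const (X : ∀ i, L i) (a : k) : UB k X (fun i => algebraMap k (L i) a) := by
  refine ⟨Height.logHeight₁ a, Height.zero_le_logHeight₁ _, fun i => ?_⟩
  rw [height_algebraMap, mul_comm]
  refine mul_le_mul_of_nonneg_left ?_ (Height.zero_le_logHeight₁ _)
  have := Height.zero_le_logHeight₁ (X i)
  linarith

theorem weight (F : Type) [Field F] [NumberField F] [Algebra k F] :
    (Height.totalWeight F : ℝ) = finrank ℚ k * finrank k F := by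
  have h : Height.totalWeight F = finrank ℚ k * finrank k F := by
    rw [NumberField.totalWeight_eq_finrank]
    exact (Module.finrank_mul_finrank ℚ k F).symm
  rw [h]
  push_cast
  rfl

theorem UB.add {X z w : ∀ i, L i} (hz : UB k X z) (hw : UB k X w) :
    UB k X (fun i => z i + w i) := by
  obtain ⟨c, hc, hz⟩ := hz
  obtain ⟨d, hd, hw⟩ := hw
  have hlog : 0 ≤ Real.log 2 := Real.log_nonneg (by norm_num)
  have hK : (0 : ℝ) ≤ finrank ℚ k * Real.log 2 := mul_nonneg (Nat.cast_nonneg _) hlog
  refine ⟨finrank ℚ k * Real.log 2 + c + d, by positivity, fun i => ?_⟩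
  have h1 := Height.logHeight₁_add_le (z i) (w i)
  rw [weight (k := k) (L i)] at h1
  have h2 : (finrank ℚ k : ℝ) * finrank k (L i) * Real.log 2 ≤
      finrank ℚ k * Real.log 2 * (Height.logHeight₁ (X i) + finrank k (L i)) := by
    have := mul_nonneg hK (Height.zero_le_logHeight₁ (X i))
    nlinarith
  have h3 := hz i
  have h4 := hw i
  calc Height.logHeight₁ (z i + w i) ≤ _ := h1
    _ ≤ finrank ℚ k * Real.log 2 * (Height.logHeight₁ (X i) + finrank k (L i)) +
        c * (Height.logHeight₁ (X i) + finrank k (L i)) +
        d * (Height.logHeight₁ (X i) + finrank k (L i)) := by linarith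
    _ = _ := by ring

theorem UB.mul {X z w : ∀ i, L i} (hz : UB k X z) (hw : UB k X w) :
    UB k X (fun i => z i * w i) := by
  obtain ⟨c, hc, hz⟩ := hz
  obtain ⟨d, hd, hw⟩ := hw
  refine ⟨c + d, by positivity, fun i => ?_⟩
  have h1 := Height.logHeight₁_mul_le (z i) (w i)
  have h3 := hz i
  have h4 := hw i
  rw [add_mul]
  linarith

theorem UB.neg {X z : ∀ i, L i} (hz : UB k X z) : UB k X (fun i => -z i) := by
  obtain ⟨c, hc, hz⟩ := hz
  refine ⟨c, hc, fun i => ?_⟩
  rw [Height.logHeight₁_neg]
  exact hz i

theorem UB.inv {X z : ∀ i, L i} (hz : UB k X z) : UB k X (fun i => (z i)⁻¹) := by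
  obtain ⟨c, hc, hz⟩ := hz
  refine ⟨c, hc, fun i => ?_⟩
  rw [Height.logHeight₁_inv]
  exact hz i

theorem UB.sub {X z w : ∀ i, L i} (hz : UB k X z) (hw : UB k X w) :
    UB k X (fun i => z i - w i) := by
  simp_rw [sub_eq_add_neg]
  exact hz.add hw.neg

theorem UB.div {X z w : ∀ i, L i} (hz : UB k X z) (hw : UB k X w) :
    UB k X (fun i => z i / w i) := by
  simp_rw [div_eq_mul_inv]
  exact hz.mul hw.inv

theorem UB.pow {X z : ∀ i, L i} (hz : UB k X z) (n : ℕ) : UB k X (fun i => z i ^ n) := by
  obtain ⟨c, hc, hz⟩ := hz
  refine ⟨n * c, by positivity, fun i => ?_⟩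
  rw [Height.logHeight₁_pow, mul_assoc]
  exact mul_le_mul_of_nonneg_left (hz i) (Nat.cast_nonneg _)

theorem UB.sqrt {X z : ∀ i, L i} (hz : UB k X (fun i => z i ^ 2)) : UB k X z := by
  obtain ⟨c, hc, hz⟩ := hz
  refine ⟨c, hc, fun i => ?_⟩
  have h1 := hz i
  rw [Height.logHeight₁_pow] at h1
  have h2 := Height.zero_le_logHeight₁ (z i)
  push_cast at h1
  linarith

theorem UB.congr {X z w : ∀ i, L i} (hz : UB k X z) (h : ∀ i, z i = w i) : UB k X w := by
  have : z = w := funext h
  rwa [← this]

end UB

/-- The height of a point computed in a field which is equal to the residue field. -/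
theorem heightA_eq {k : Type} [Field k] [NumberField k]
    (P : AlgebraicClosure k × AlgebraicClosure k) (L : IntermediateField k (AlgebraicClosure k))
    [NumberField L] (hL : resField k P = L) (h : P.1 ∈ L) :
    heightA k P = Height.logHeight₁ (⟨P.1, h⟩ : L) / finrank k L := by
  subst hL
  rfl

section pts

variable {k : Type} [Field k] [NumberField k]

/-- the second coordinate of a point, in the residue field -/
noncomputable def coordY (P : AlgebraicClosure k × AlgebraicClosure k) : resField k P :=
  ⟨P.2, IntermediateField.subset_adjoin k _ (by simp)⟩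

/-- the affine points of the curve -/
def Idx (W : WeierstrassCurve k) : Type :=
  {P : AlgebraicClosure k × AlgebraicClosure k //
    (W.baseChange (AlgebraicClosure k)).toAffine.Equation P.1 P.2}

/-- the equation of the curve in the residue field -/
theorem eqn (W : WeierstrassCurve k) (P : Idx W) :
    (2 * coordY P.1 + algebraMap k (resField k P.1) W.a₁ * coordX k P.1 +
      algebraMap k (resField k P.1) W.a₃) ^ 2 =
    algebraMap k (resField k P.1) 4 * coordX k P.1 ^ 3 +
      algebraMap k (resField k P.1) W.b₂ * coordX k P.1 ^ 2 +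
      algebraMap k (resField k P.1) (2 * W.b₄) * coordX k P.1 +
      algebraMap k (resField k P.1) W.b₆ := by
  have h := P.2
  rw [WeierstrassCurve.Affine.equation_iff] at h
  apply Subtype.ext
  have h2 : (2 * P.1.2 + algebraMap k (AlgebraicClosure k) W.a₁ * P.1.1 +
      algebraMap k (AlgebraicClosure k) W.a₃) ^ 2 =
    algebraMap k (AlgebraicClosure k) 4 * P.1.1 ^ 3 +
      algebraMap k (AlgebraicClosure k) W.b₂ * P.1.1 ^ 2 +
      algebraMap k (AlgebraicClosure k) (2 * W.b₄) * P.1.1 +
      algebraMap k (AlgebraicClosure k) W.b₆ := by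
    simp only [WeierstrassCurve.map_a₁, WeierstrassCurve.map_a₂, WeierstrassCurve.map_a₃,
      WeierstrassCurve.map_a₄, WeierstrassCurve.map_a₆, WeierstrassCurve.baseChange] at h
    simp only [WeierstrassCurve.b₂, WeierstrassCurve.b₄, WeierstrassCurve.b₆, map_add, map_mul,
      map_pow, map_ofNat]
    linear_combination 4 * h
  exact h2

/-- the `x`-coordinate of the sum in the residue field -/
noncomputable def addC (W : WeierstrassCurve k) (x₀ y₀ : k) (P : Idx W) : resField k P.1 :=
  ((coordY P.1 - algebraMap k (resField k P.1) y₀) /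
      (coordX k P.1 - algebraMap k (resField k P.1) x₀)) ^ 2 +
    algebraMap k (resField k P.1) W.a₁ *
      ((coordY P.1 - algebraMap k (resField k P.1) y₀) /
        (coordX k P.1 - algebraMap k (resField k P.1) x₀)) -
    algebraMap k (resField k P.1) W.a₂ - coordX k P.1 - algebraMap k (resField k P.1) x₀

theorem addC_bound (W : WeierstrassCurve k) (x₀ y₀ : k) :
    UB k (fun P : Idx W => coordX k P.1) (addC W x₀ y₀) := by
  have hX : UB k (fun P : Idx W => coordX k P.1) (fun P : Idx W => coordX k P.1) := UB.self _
  have hc : ∀ a : k, UB k (fun P : Idx W => coordX k P.1)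
    (fun P : Idx W => algebraMap k (resField k P.1) a) := fun a => UB.const _ a
  have h1 : UB k (fun P : Idx W => coordX k P.1) (fun P : Idx W =>
      (2 * coordY P.1 + algebraMap k (resField k P.1) W.a₁ * coordX k P.1 +
      algebraMap k (resField k P.1) W.a₃) ^ 2) :=
    ((((hc 4).mul (hX.pow 3)).add ((hc W.b₂).mul (hX.pow 2))).add
      ((hc (2 * W.b₄)).mul hX)).add (hc W.b₆) |>.congr fun P => (eqn W P).symm
  have h2 := h1.sqrt
  have h3 : UB k (fun P : Idx W => coordX k P.1) (fun P : Idx W => coordY P.1) := by
    refine (((h2.sub (hc W.a₃)).sub ((hc W.a₁).mul hX)).mul (hc (1 / 2))).congr fun P => ?_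
    rw [map_div₀, map_one, map_ofNat]
    ring
  have h4 := (h3.sub (hc y₀)).div (hX.sub (hc x₀))
  exact ((((h4.pow 2).add ((hc W.a₁).mul h4)).sub (hc W.a₂)).sub hX).sub (hc x₀)

end pts

/-- The height of a translated point. -/
theorem main : S_FLD → S_HTR := by
  intro hF k _ _ W _ Q
  rcases Q with _ | ⟨x₀, y₀, h₀⟩
  · refine ⟨1, zero_lt_one, fun R => ?_⟩
    have h1 : incl W (WeierstrassCurve.Affine.Point.zero) = 0 := rfl
    rw [h1, add_zero]
    linarith
  · set Q : WeierstrassCurve.Affine.Point (W.baseChange k) :=
      WeierstrassCurve.Affine.Point.some x₀ y₀ h₀ with hQ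
    obtain ⟨c, hc, hb⟩ := addC_bound W x₀ y₀
    have hpos : ∀ P, 0 ≤ heightA k P := fun P =>
      div_nonneg (Height.zero_le_logHeight₁ _) (Nat.cast_nonneg _)
    refine ⟨1 + c + heightA k (crd (0 + incl W Q)) + heightA k (crd (incl W Q + incl W Q)) +
      heightA k (crd (-incl W Q + incl W Q)), ?_, fun R => ?_⟩
    · have h1 := hpos (crd (0 + incl W Q))
      have h2 := hpos (crd (incl W Q + incl W Q))
      have h3 := hpos (crd (-incl W Q + incl W Q))
      linarith
    have h1 := hpos (crd (0 + incl W Q))
    have h2 := hpos (crd (incl W Q + incl W Q))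
    have h3 := hpos (crd (-incl W Q + incl W Q))
    have hR := hpos (crd R)
    have key : ∀ e : ℝ, 0 ≤ e → e ≤ 1 + c + heightA k (crd (0 + incl W Q)) +
        heightA k (crd (incl W Q + incl W Q)) + heightA k (crd (-incl W Q + incl W Q)) →
        e * (1 + heightA k (crd R)) ≤ (1 + c + heightA k (crd (0 + incl W Q)) +
        heightA k (crd (incl W Q + incl W Q)) + heightA k (crd (-incl W Q + incl W Q))) *
        (1 + heightA k (crd R)) := fun e _ he => mul_le_mul_of_nonneg_right he (by linarith)
    rcases R with _ | ⟨x, y, h⟩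
    · have h4 := key (heightA k (crd (0 + incl W Q))) h1 (by linarith)
      refine le_trans ?_ h4
      change heightA k (crd (0 + incl W Q)) ≤ _
      have h5 := mul_nonneg h1 hR
      rw [mul_add, mul_one]
      linarith
    · obtain ⟨h', hh⟩ : ∃ h', incl W Q = WeierstrassCurve.Affine.Point.some
        (algebraMap k (AlgebraicClosure k) x₀) (algebraMap k (AlgebraicClosure k) y₀) h' :=
        ⟨_, rfl⟩
      by_cases hx : x = algebraMap k (AlgebraicClosure k) x₀
      · rcases WeierstrassCurve.Affine.Y_eq_of_X_eq h.1 h'.1 hx with hy | hy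
        · have hR2 : (WeierstrassCurve.Affine.Point.some x y h : Pts k W) = incl W Q := by
            rw [hh]
            subst hx hy
            rfl
          rw [hR2] at hR key ⊢
          refine le_trans ?_ (key (heightA k (crd (incl W Q + incl W Q))) h2 (by linarith))
          have h5 := mul_nonneg h2 hR
          rw [mul_add, mul_one]
          linarith
        · have hR2 : (WeierstrassCurve.Affine.Point.some x y h : Pts k W) = -incl W Q := by
            rw [hh, WeierstrassCurve.Affine.Point.neg_some]
            subst hx hy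
            rfl
          rw [hR2] at hR key ⊢
          refine le_trans ?_ (key (heightA k (crd (-incl W Q + incl W Q))) h3 (by linarith))
          have h5 := mul_nonneg h3 hR
          rw [mul_add, mul_one]
          linarith
      · refine le_trans ?_ (key c hc (by linarith))
        have hres := hF k W Q (WeierstrassCurve.Affine.Point.some x y h)
        have hmem : (crd (WeierstrassCurve.Affine.Point.some x y h + incl W Q)).1 ∈
            resField k (crd (WeierstrassCurve.Affine.Point.some x y h : Pts k W)) := by
          rw [← hres]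
          exact IntermediateField.subset_adjoin k _ (by simp)
        rw [heightA_eq _ _ hres hmem]
        have hval : (⟨(crd (WeierstrassCurve.Affine.Point.some x y h + incl W Q)).1, hmem⟩ :
            resField k (crd (WeierstrassCurve.Affine.Point.some x y h : Pts k W))) =
            addC W x₀ y₀ ⟨(x, y), h.1⟩ := by
          apply Subtype.ext
          change (crd (WeierstrassCurve.Affine.Point.some x y h + incl W Q)).1 = _
          rw [hh, WeierstrassCurve.Affine.Point.add_of_X_ne hx]
          change (W.baseChange (AlgebraicClosure k)).toAffine.addX x _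
            ((W.baseChange (AlgebraicClosure k)).toAffine.slope x _ y _) = _
          rw [WeierstrassCurve.Affine.slope_of_X_ne hx]
          rfl
        rw [hval]
        have h6 := hb ⟨(x, y), h.1⟩
        have hN : (0 : ℝ) < finrank k
            (resField k (crd (WeierstrassCurve.Affine.Point.some x y h : Pts k W))) := by
          exact_mod_cast finrank_pos
        rw [div_le_iff₀ hN]
        refine h6.trans (le_of_eq ?_)
        change c * (Height.logHeight₁ (coordX k (x, y)) + (finrank k (resField k (x, y)) : ℝ)) =
          c * (1 + Height.logHeight₁ (coordX k (x, y)) / (finrank k (resField k (x, y)) : ℝ)) *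
            (finrank k (resField k (x, y)) : ℝ)
        have hN' : (finrank k (resField k (x, y)) : ℝ) ≠ 0 := hN.ne'
        field_simp
        ring

end Pool.Agent.H455.WPE_HTR
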