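import Mathlib
import Pool.Agent.H455.WPN

/-!
# Northcott's theorem for points of bounded degree
-/

set_option autoImplicit false

namespace Pool.Agent.H455.WPE_NOR

open NumberField Real Polynomial Module
open Pool.Agent.H505.VL Pool.Agent.H505.VL.Pt Pool.Agent.H455.WP
open scoped Classical

/-- the images in `Ω` of the algebraic integers of degree at most `δ` and house at most `H` -/
def smallInts (Ω : Type) [Field Ω] (δ : ℕ) (H : ℝ) : Set Ω :=
  {z | ∃ (K : Type) (_ : Field K) (_ : NumberField K) (τ : K →+* Ω) (a : K),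
    IsIntegral ℤ a ∧ finrank ℚ K ≤ δ ∧ (∀ φ : K →+* ℂ, ‖φ a‖ ≤ H) ∧ z = τ a}

theorem smallInts_finite (Ω : Type) [Field Ω] [CharZero Ω] (δ : ℕ) (H : ℝ) :
    (smallInts Ω δ H).Finite := by
  let C : ℕ := ∑ D ∈ Finset.range (δ + 1), Nat.ceil (max H 1 ^ D * D.choose (D / 2))
  have := Polynomial.bUnion_roots_finite (algebraMap ℤ Ω) δ (Set.finite_Icc (-C : ℤ) C)
  refine this.subset ?_
  rintro z ⟨K, _, _, τ, x, hint, hδ, ha, rfl⟩
  simp_rw [Set.mem_iUnion]
  have h_map_ℚ_minpoly := minpoly.isIntegrallyClosed_eq_field_fractions' ℚ hint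
  refine ⟨minpoly ℤ x, ⟨?_, fun i => ?_⟩, ?_⟩
  · rw [← (minpoly.monic hint).natDegree_map (algebraMap ℤ ℚ), ← h_map_ℚ_minpoly]
    exact (minpoly.natDegree_le x).trans hδ
  · rw [Set.mem_Icc, ← abs_le, ← @Int.cast_le ℝ]
    have h1 := Embeddings.coeff_bdd_of_norm_le (K := K) (A := ℂ) (B := H) (x := x) ha i
    have h2 : ‖(minpoly ℚ x).coeff i‖ = ((|(minpoly ℤ x).coeff i| : ℤ) : ℝ) := by
      rw [h_map_ℚ_minpoly, Polynomial.coeff_map, eq_intCast, Int.norm_cast_rat, Int.norm_eq_abs,
        Int.cast_abs]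
    rw [h2] at h1
    refine h1.trans ?_
    refine (Nat.le_ceil _).trans ?_
    have h3 : Nat.ceil (max H 1 ^ Module.finrank ℚ K *
        (Module.finrank ℚ K).choose (Module.finrank ℚ K / 2)) ≤ C :=
      Finset.single_le_sum (f := fun D => Nat.ceil (max H 1 ^ D * D.choose (D / 2)))
        (fun _ _ => Nat.zero_le _) (Finset.mem_range.2 (by omega))
    exact_mod_cast h3
  · rw [Finset.mem_coe, Multiset.mem_toFinset, Polynomial.mem_roots_map_of_injective]
    · rw [← Polynomial.aeval_def]
      have h4 : Polynomial.aeval (τ x) (minpoly ℤ x) = τ (Polynomial.aeval x (minpoly ℤ x)) := by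
        rw [Polynomial.aeval_def, Polynomial.aeval_def, Polynomial.hom_eval₂]
        congr 1
        exact RingHom.ext_int _ _
      rw [h4, minpoly.aeval, map_zero]
    · exact (algebraMap ℤ Ω).injective_int
    · exact minpoly.ne_zero hint

/-- every archimedean absolute value is at most the height -/
theorem norm_le {L : Type} [Field L] [NumberField L] (x : L) (φ : L →+* ℂ) :
    ‖φ x‖ ≤ Real.exp (Height.logHeight₁ x) := by
  have h1 := NumberField.logHeight₁_eq x
  have h2 : 0 ≤ ∑ᶠ v : FinitePlace L, log⁺ (v x) := finsum_nonneg fun v => posLog_nonneg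
  have h3 : ((InfinitePlace.mk φ).mult : ℝ) * log⁺ ((InfinitePlace.mk φ) x) ≤
      ∑ v : InfinitePlace L, (v.mult : ℝ) * log⁺ (v x) :=
    Finset.single_le_sum (f := fun v : InfinitePlace L => (v.mult : ℝ) * log⁺ (v x))
      (fun v _ => mul_nonneg (Nat.cast_nonneg _) posLog_nonneg) (Finset.mem_univ _)
  have h4 : (1 : ℝ) ≤ ((InfinitePlace.mk φ).mult : ℝ) := by
    exact_mod_cast (InfinitePlace.mk φ).one_le_mult
  have h5 : 0 ≤ log⁺ ((InfinitePlace.mk φ) x) := posLog_nonneg
  have h6 : log⁺ ((InfinitePlace.mk φ) x) ≤ Height.logHeight₁ x := by nlinarith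
  have h7 : log ((InfinitePlace.mk φ) x) ≤ log⁺ ((InfinitePlace.mk φ) x) := le_max_right _ _
  rw [InfinitePlace.apply] at h7 h6
  rcases eq_or_lt_of_le (norm_nonneg (φ x)) with h8 | h8
  · rw [← h8]
    exact (Real.exp_pos _).le
  · rw [← Real.log_le_iff_le_exp h8]
    exact h7.trans h6

theorem main : S_NOR := by
  intro k _ _ r B
  set M : ℝ := Real.exp (r * |B|) with hM
  have hM1 : 1 ≤ M := Real.one_le_exp (by positivity)
  have hfin : (⋃ n ∈ Finset.range (⌊M⌋₊ + 1),
      (fun z : AlgebraicClosure k => z / (n : AlgebraicClosure k)) ''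
        smallInts (AlgebraicClosure k) (finrank ℚ k * r) (M * M)).Finite :=
    Set.Finite.biUnion (Finset.finite_toSet _) fun n _ => (smallInts_finite _ _ _).image _
  refine hfin.subset ?_
  rintro x ⟨y, hr, hB⟩
  have hpos : (0 : ℝ) < finrank k (resField k (x, y)) := by exact_mod_cast finrank_pos
  have h1 : Height.logHeight₁ (coordX k (x, y)) ≤ r * |B| := by
    unfold heightA at hB
    rw [div_le_iff₀ hpos] at hB
    refine hB.trans ?_
    have h2 : (finrank k (resField k (x, y)) : ℝ) ≤ r := by exact_mod_cast hr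
    calc B * finrank k (resField k (x, y)) ≤ |B| * finrank k (resField k (x, y)) :=
          mul_le_mul_of_nonneg_right (le_abs_self B) hpos.le
      _ ≤ |B| * r := mul_le_mul_of_nonneg_left h2 (abs_nonneg B)
      _ = r * |B| := mul_comm _ _
  obtain ⟨n, hn0, hn1, hn2⟩ := NumberField.exists_nat_le_mulHeight₁ (coordX k (x, y))
  have h3 : Height.mulHeight₁ (coordX k (x, y)) ≤ M := by
    rw [Height.logHeight₁_eq_log_mulHeight₁,
      Real.log_le_iff_le_exp (Height.mulHeight₁_pos _)] at h1
    exact h1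
  have hnM : (n : ℝ) ≤ M := hn1.trans h3
  rw [Set.mem_iUnion₂]
  refine ⟨n, ?_, ?_⟩
  · rw [Finset.mem_range, Nat.lt_succ_iff]
    exact Nat.le_floor hnM
  · refine ⟨(n : AlgebraicClosure k) * x, ?_, ?_⟩
    · refine ⟨resField k (x, y), inferInstance, inferInstance,
        algebraMap (resField k (x, y)) (AlgebraicClosure k),
        (n : resField k (x, y)) * coordX k (x, y), hn2, ?_, ?_, ?_⟩
      · rw [← finrank_mul_finrank ℚ k (resField k (x, y))]
        exact Nat.mul_le_mul_left _ hr
      · intro φ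
        rw [map_mul, norm_mul, map_natCast, Complex.norm_natCast]
        refine mul_le_mul hnM ?_ (norm_nonneg _) (by linarith)
        exact (norm_le _ φ).trans (Real.exp_le_exp.2 h1)
      · rw [map_mul, map_natCast]
        rfl
    · show (n : AlgebraicClosure k) * x / (n : AlgebraicClosure k) = x
      have hn' : (n : AlgebraicClosure k) ≠ 0 := Nat.cast_ne_zero.2 hn0
      rw [mul_div_cancel_left₀ _ hn']

theorem quad_ne_zero {F : Type} [Field F] (b c : F) :
    (Polynomial.X ^ 2 + (C b * Polynomial.X + C c) : F[X]) ≠ 0 := by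
  intro h0
  have h1 := congrArg (fun p : F[X] => p.coeff 2) h0
  simp at h1

theorem main2 : S_NORE := by
  intro k _ _ W _ r B
  let A := AlgebraicClosure k
  let f : Pts k W → Option (A × A) := fun P => match P with
    | .zero => none
    | .some x y _ => some (x, y)
  have hf : Function.Injective f := by
    rintro (_ | ⟨x, y, h⟩) (_ | ⟨x', y', h'⟩) he
    · rfl
    · exact absurd he (by simp [f])
    · exact absurd he (by simp [f])
    · have h1 : (some (x, y) : Option (A × A)) = some (x', y') := he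
      rw [Option.some.injEq, Prod.mk.injEq] at h1
      obtain ⟨rfl, rfl⟩ := h1
      rfl
  let q : A → A[X] := fun x => Polynomial.X ^ 2 +
    (C ((W.baseChange A).a₁ * x + (W.baseChange A).a₃) * Polynomial.X +
      C (-(x ^ 3 + (W.baseChange A).a₂ * x ^ 2 + (W.baseChange A).a₄ * x + (W.baseChange A).a₆)))
  have hq : ∀ x, q x ≠ 0 := fun x => quad_ne_zero _ _
  have hT : (⋃ x ∈ {x : A | ∃ y, finrank k (resField k (x, y)) ≤ r ∧ heightA k (x, y) ≤ B},
      (fun y => (some (x, y) : Option (A × A))) '' (↑(q x).roots.toFinset : Set A)).Finite :=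
    Set.Finite.biUnion (main k r B) fun x _ => (Finset.finite_toSet _).image _
  refine ((hT.insert none).preimage hf.injOn).subset ?_
  rintro (_ | ⟨x, y, h⟩) hP
  · exact Or.inl rfl
  · refine Or.inr ?_
    rw [Set.mem_iUnion₂]
    refine ⟨x, ⟨y, hP.1, hP.2⟩, y, ?_, rfl⟩
    rw [Finset.mem_coe, Multiset.mem_toFinset, mem_roots (hq x)]
    have h1 := (WeierstrassCurve.Affine.equation_iff _ _).1 h.1
    show (q x).eval y = 0
    simp only [q, eval_add, eval_mul, eval_pow, eval_X, eval_C]
    linear_combination h1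

end Pool.Agent.H455.WPE_NOR
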