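import Mathlib
import Pool.Agent.H455.WPC

/-!
# Interfaces: the logarithmic error term on the curves `y ^ n = f(x)`, `D` the fibre over `∞`

`n ≥ 3`, `f` separable of degree `≥ 2` over a number field. Over a number field `K` which contains
two of its zeros, `f = (X - e₁) (X - e₂) F`, and a zero `w₀` of `(w + 1)^(n-1) - w^(n-1)`, that is
a critical point of `U(w) = (w + 1)^n - w^n`, we use the points with
`x = (e₂ (w + 1)^n - e₁ w^n) / U(w)`, where `U(w) = U(w₀) (a / b)^(n-1)` for coprime natural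
numbers `a > b` composed of the primes in `T`, `a / b` near `1`, and `y ^ n = f(x)`.
(The covering `z = 1 + 1 / w`, `z ^ n = (x - e₁) / (x - e₂)`, is unramified above the curve.)
-/

set_option autoImplicit false

namespace Pool.Agent.H455.WP

open NumberField Real Polynomial Module
open Pool.Agent.H505.VL Pool.Agent.H505.VL.Pt

/-- `U(w) = (w + 1) ^ n - w ^ n` -/
def UU {R : Type} [CommRing R] (n : ℕ) (w : R) : R := (w + 1) ^ n - w ^ n

/-- `x = (e₂ (w + 1) ^ n - e₁ w ^ n) / U(w)` -/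
noncomputable def xw {K : Type} [Field K] (n : ℕ) (e₁ e₂ : K) (w : AlgebraicClosure K) :
    AlgebraicClosure K :=
  (algebraMap K (AlgebraicClosure K) e₂ * (w + 1) ^ n -
    algebraMap K (AlgebraicClosure K) e₁ * w ^ n) / UU n w

/-- the equation for `w`: `U(w) = u₀ (a / b) ^ (n - 1)` -/
def Eqw {K : Type} [Field K] (n : ℕ) (u₀ : K) (a b : ℕ) (w : AlgebraicClosure K) : Prop :=
  UU n w = algebraMap K (AlgebraicClosure K) u₀ *
    ((a : AlgebraicClosure K) / (b : AlgebraicClosure K)) ^ (n - 1)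

/-- FI: field invariance.
PROOF. For (1) put `L = resField K P ≤ L' = resField K P'` and make `L'` an `L`-algebra by
`IntermediateField.inclusion`; `discr L ^ [L' : L] ∣ discr L'`; see the proof of
`Pool.Agent.H455.WP_BC.main` (fourth part). For (2), (3) let `L'' = K(x, y, y')` and compare both
with `L''`: `Pool.Agent.Helper259.HtExt.logHeight_ext` (see `Pool.Agent.H505.VL.Pt.heightA_pt`) and
`Pool.Agent.H505.VL.PRF.main`, `Pool.Agent.H505.VL.PRI.main`, see `WP_BC.lean`. (4): all terms of the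
height are `≥ 0` (`NumberField.logHeight₁_eq`), see `WP_HT.lean`; here in the field
`resField K P`. -/
def S_FI : Prop :=
  ∀ (K : Type) [Field K] [NumberField K],
    (∀ P P' : AlgebraicClosure K × AlgebraicClosure K, resField K P ≤ resField K P' →
      logDisc K P ≤ logDisc K P' ∧ finrank K (resField K P) ≤ finrank K (resField K P')) ∧
    (∀ x y y' : AlgebraicClosure K, heightA K (x, y) = heightA K (x, y')) ∧
    (∀ (T : Finset ℕ), (∀ p ∈ T, p.Prime) → ∀ x y y' : AlgebraicClosure K,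
      prox K T {none} (x, y) = prox K T {none} (x, y')) ∧
    (∀ (T : Finset ℕ) (P : AlgebraicClosure K × AlgebraicClosure K),
      prox K T {none} P ≤ heightA K P)

/-- ROOT: a zero `w` of the equation near `w₀`.
PROOF. `Q(Y) = (Y + 1)^n - Y^n - s`, `s = u₀ (a/b)^(n-1)`, has degree `n - 1 ≥ 2` and leading
coefficient `n`; over the algebraically closed field `Kbar` it is `n ∏ (Y - w_i)`, so
`n ∏ (w₀ - w_i) = U(w₀) - s = u₀ (1 - (a/b)^(n-1))`. Take complex absolute values after `σ`: the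
smallest of the `n - 1` numbers `‖σ w_i - σ w₀‖` has `(n-1)`-th power at most their product
`‖σ u₀‖ ((a/b)^(n-1) - 1) / n ≤ c (a - b) / a` (`1 < a/b ≤ 3`). -/
def S_ROOT : Prop :=
  ∀ (K : Type) [Field K] [NumberField K] (n : ℕ) (w₀ : K) (σ : AlgebraicClosure K →+* ℂ), 3 ≤ n →
    ∃ c : ℝ, 0 < c ∧ ∀ a b : ℕ, 0 < b → b < a → a ≤ 3 * b →
      ∃ w : AlgebraicClosure K, Eqw n (UU n w₀) a b w ∧
        ‖σ w - σ (algebraMap K (AlgebraicClosure K) w₀)‖ ^ (n - 1) ≤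
          c * (((a : ℝ) - b) / a)

/-- the equation for `w` in an extension `L` of `K`: `U(w) = u₀ (a / b) ^ (n - 1)` -/
def EqL {K L : Type} [Field K] [Field L] [Algebra K L] (n : ℕ) (u₀ : K) (a b : ℕ) (w : L) : Prop :=
  UU n w = algebraMap K L u₀ * ((a : L) / (b : L)) ^ (n - 1)

/-- the value `x` in an extension `L` of `K` -/
noncomputable def xL {K L : Type} [Field K] [Field L] [Algebra K L] (n : ℕ) (e₁ e₂ : K) (w : L) : L :=
  (algebraMap K L e₂ * (w + 1) ^ n - algebraMap K L e₁ * w ^ n) / UU n w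

/-- BDW: `w` is bounded at the infinite places.
PROOF. For an infinite place `v` of `L`: `v(U(w)) = v(u₀) (a/b)^(n-1) ≤ 3^(n-1) v(u₀)`, and `v(u₀)` is
at most the maximum `M` over the infinite places of `K`. If `v(w) ≥ 1` then, with
`U(w) = n w^(n-1) + (n choose 2) w^(n-2) + ⋯ + 1`, `n v(w)^(n-1) ≤ v(U(w)) + 2^n v(w)^(n-2)`
(`n ≥ 3`), so `v(w) ≤ 3^(n-1) M + 2^n`. -/
def S_BDW : Prop :=
  ∀ (K : Type) [Field K] [NumberField K] (n : ℕ) (u₀ : K), 3 ≤ n →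
    ∃ R : ℝ, 0 < R ∧ ∀ (L : Type) [Field L] [NumberField L] [Algebra K L] (a b : ℕ) (w : L),
      0 < b → b < a → a ≤ 3 * b → EqL n u₀ a b w → ∀ v : InfinitePlace L, v w ≤ R

/-- INTW: `c b w` is integral.
PROOF. Put `ω = b w`: it is a zero of
`G₁(Y) = ((Y + b)^n - Y^n) / b - u₀ a^(n-1) = ∑_{i=1}^n (n choose i) b^(i-1) Y^(n-i) - u₀ a^(n-1)`.
Choose a natural number `c = n c' > 0` with `c' u₀` integral. Then `β = c ω` is a zero of the monic
polynomial `G(Y) = (c^(n-1) / n) G₁(Y / c)` of degree `n - 1`, whose coefficients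
`((n choose i) / n) c^(i-1) b^(i-1)` (`2 ≤ i ≤ n`) are integral as `n ∣ c`, and the constant
coefficient has the further term `- (c^(n-1) / n) u₀ a^(n-1) = - n^(n-2) c'^(n-1) u₀ a^(n-1)`, which
is integral. `G'(β) = (c^(n-2) / n) G₁'(ω)` and `G₁'(ω) = (n / b) ((ω + b)^(n-1) - ω^(n-1))
= n b^(n-2) ((w + 1)^(n-1) - w^(n-1))`. -/
def S_INTW : Prop :=
  ∀ (K : Type) [Field K] [NumberField K] (n : ℕ) (u₀ : K), 3 ≤ n →
    ∃ c : ℕ, 0 < c ∧ ∀ (L : Type) [Field L] [NumberField L] [Algebra K L] (a b : ℕ) (w : L),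
      0 < b → EqL n u₀ a b w → ∃ G : (𝓞 K)[X], G.Monic ∧ G.natDegree = n - 1 ∧
        (G.map (algebraMap (𝓞 K) K)).aeval ((c : L) * b * w) = 0 ∧
        (derivative (G.map (algebraMap (𝓞 K) K))).aeval ((c : L) * b * w) =
          ((c : L) * b) ^ (n - 2) * ((w + 1) ^ (n - 1) - w ^ (n - 1))

/-- D1: the discriminant of `K(w)`.
PROOF. (`S_BDW` and `S_INTW` may be assumed.) Let `L = resField K (w, 0) = K(w)`, `u₀ = U(w₀)`,
`β = c b w ∈ 𝓞 L` and `G` from `S_INTW`; `L = K(β)`, `[L : K] ≤ n - 1`,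
`G'(β) = (c b)^(n-2) ((w + 1)^(n-1) - w^(n-1)) ≠ 0`.
`Pool.Agent.Y733.VR.ld_le` gives
`log |disc L| / [L : ℚ] ≤ log |disc K| / [K : ℚ] + log |N_{L/ℚ} G'(β)| / [L : ℚ]`, and
`|N_{L/ℚ} γ| = ∏_{v | ∞} v(γ)^mult v` (`Pool.Agent.H505.VL.NRM.main` is a model for all this). At
every infinite place `v(w) ≤ R`, so `v(G'(β)) ≤ C b^(n-2)` with `C ≥ 1`. At the place `v₀` of `L`
defined by the restriction of `σ` to `L`, moreover, as `w₀` is a zero of `(Y + 1)^(n-1) - Y^(n-1)`,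
`v₀((w + 1)^(n-1) - w^(n-1)) ≤ C' ‖σ w - σ w₀‖`, so `v₀(G'(β)) ≤ C b^(n-2) ‖σ w - σ w₀‖`. So
`log |N G'(β)| ≤ [L : ℚ] ((n-2) log b + log C) + mult(v₀) log ‖σ w - σ w₀‖`, where the last term
is `≤ log ‖σ w - σ w₀‖ ≤ 0`. Multiply by `[K : ℚ]`; `[L : ℚ] = [L : K] [K : ℚ]`, `[L : K] ≤ n - 1`. -/
def S_D1 : Prop :=
  ∀ (K : Type) [Field K] [NumberField K] (n : ℕ) (w₀ : K) (σ : AlgebraicClosure K →+* ℂ), 3 ≤ n →
    (w₀ + 1) ^ (n - 1) = w₀ ^ (n - 1) →
    ∃ c : ℝ, ∀ (a b : ℕ) (w : AlgebraicClosure K), 0 < b → b < a → a ≤ 3 * b →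
      Eqw n (UU n w₀) a b w → (w + 1) ^ (n - 1) ≠ w ^ (n - 1) →
      ‖σ w - σ (algebraMap K (AlgebraicClosure K) w₀)‖ ≤ 1 →
      logDisc K (w, 0) ≤ c + (finrank ℚ K : ℝ) * ((n : ℝ) - 2) * log b +
        1 / ((n : ℝ) - 1) * log ‖σ w - σ (algebraMap K (AlgebraicClosure K) w₀)‖

/-- D2A: `f(x)` is an `n`-th power times a small integral element of `L`.
PROOF. (`S_BDW` and `S_INTW` may be assumed.) Let `N = F.natDegree`, `u = U(w) = u₀ (a/b)^(n-1)`,
`V = e₂ (w+1)^n - e₁ w^n`, `x = V / u`. Then `x - e₁ = (e₂ - e₁) (w+1)^n / u`,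
`x - e₂ = (e₂ - e₁) w^n / u`, `F(x) = Φ / u^N`, `Φ = ∑_{i ≤ N} F_i V^i u^(N-i)`, so
`f(x) = (e₂ - e₁)² (w (w+1))^n Φ / u^(N+2)`. `Φ_b = b^(n N) Φ = ∑ F_i (b^n V)^i (b^n u)^(N-i)`
with `b^n V = e₂ (ω + b)^n - e₁ ω^n`, `b^n u = (ω + b)^n - ω^n`, `ω = b w`. By `S_INTW` `c ω` is
integral for a natural number `c > 0` not depending on `a, b, w, L`; so there is a natural number
`c₂ > 0` not depending on `a, b, w, L` such that `c₂ (e₂ - e₁)² u₀^(-(N+2)) Φ_b` is integral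
(product of a power of `c` and of a common denominator of the finitely many elements
`(e₂ - e₁)² u₀^(-(N+2)) F_i`, `e₁`, `e₂` to the power `N + 1`).
`(b a^(n-1))^((n-1)(N+2)) = s₁ r^n` with natural numbers `r`, `s₁`, where the exponents of the
primes in `s₁` are `< n`; so `s₁ ≤ ∏_{p ∈ T} p^n`. Now
`u^(-(N+2)) = u₀^(-(N+2)) (b/a)^((n-1)(N+2)) = u₀^(-(N+2)) s₁ (r / a^((n-1)(N+2)))^n`. So
`f(x) = ρ^n m` with `ρ = w (w+1) r / (a^((n-1)(N+2)) b^N c₂)`,
`m = c₂^n (e₂ - e₁)² u₀^(-(N+2)) s₁ Φ_b ∈ 𝓞 L`.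
At the infinite places of `L`, `v(w) ≤ R` by `S_BDW`, `v(u) ≤ 3^(n-1) v(u₀)`, and the values of
`e₁, e₂, F_i, u₀` at `v` are bounded by their maximum over the infinite places of `K`, so
`v(m) ≤ B b^(n N)`. (If `e₁ = e₂` is not excluded nothing changes.) -/
def S_D2A : Prop :=
  ∀ (K : Type) [Field K] [NumberField K] (n : ℕ) (e₁ e₂ u₀ : K) (F f : K[X]), 3 ≤ n →
    u₀ ≠ 0 → f = (X - C e₁) * (X - C e₂) * F → ∀ T : Finset ℕ, (∀ p ∈ T, p.Prime) →
    ∃ B : ℝ, 0 < B ∧ ∀ (L : Type) [Field L] [NumberField L] [Algebra K L] (a b : ℕ) (w : L),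
      0 < b → b < a → a ≤ 3 * b → a.primeFactors ⊆ T → b.primeFactors ⊆ T → EqL n u₀ a b w →
      ∃ (ρ : L) (m : 𝓞 L), aeval (xL n e₁ e₂ w) f = ρ ^ n * (m : L) ∧
        ∀ v : InfinitePlace L, v (m : L) ≤ B * (b : ℝ) ^ (n * F.natDegree)

/-- D2B: the discriminant of `K'(m^(1/n))`, `K' = K(w)`.
PROOF. Apply `Pool.Agent.H505.VL.NRM.main : S_NRM` to `K' = resField K (w, 0)`,
`L = resField K (w, y)` as an algebra over `K'` (`IntermediateField.inclusion`), `β = ρ⁻¹ y ∈ 𝓞 L`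
(`ρ ≠ 0`, `β ^ n = m`, `β ≠ 0`), `g = X ^ n - C m`, `A v = B^(1/n)` (`L = K'(y) = K'(β)`):
`log |disc L| / [L : K'] ≤ log |disc K'| + ((n-1) / n) [K' : ℚ] log B +
[K' : ℚ] (2 log n + n log 2)`. Divide by `[K' : K]`, `[K' : ℚ] = [K' : K] [K : ℚ]`,
`[L : K] = [L : K'] [K' : K]`. (`Pool.Agent.H505.VL.Pt.disc_bound` is a model.) -/
def S_D2B : Prop :=
  ∀ (K : Type) [Field K] [NumberField K] (n : ℕ) (w y : AlgebraicClosure K)
    (ρ : resField K (w, 0)) (m : 𝓞 (resField K (w, 0))), 1 ≤ n → y ≠ 0 →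
    y ^ n = ((ρ ^ n * (m : resField K (w, 0)) : resField K (w, 0)) : AlgebraicClosure K) →
    ∀ B : ℝ, 0 < B → (∀ v : InfinitePlace (resField K (w, 0)), v (m : resField K (w, 0)) ≤ B) →
      logDisc K (w, y) ≤ logDisc K (w, 0) + (finrank ℚ K : ℝ) *
        (((n : ℝ) - 1) / n * log B + (2 * log n + n * log 2))

/-- P2A: lower bound for the proximity function of `∞` at `x`, in an extension `L` of `K`.
PROOF. For every absolute value `v` of `L`, with `u = U(w)`, `V = e₂ (w+1)^n - e₁ w^n`: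
`V - e₁ u = (e₂ - e₁) (w+1)^n`, `V - e₂ u = (e₂ - e₁) w^n`, and at a FINITE place
`max(1, v w)^n ≤ max(v w, v (w+1))^n ≤ C_v max(v V, v u)`, `C_v = max(1, v e₁, v e₂) / v(e₂ - e₁)`,
and as `x = V / u`:
`log max(v x, 1) ≥ n log max(1, v w) - log (v u) - log⁺ C_v`. Moreover
`v u ≤ max(1, v w)^(n-1)` (integral coefficients) and `u = u₀ (a/b)^(n-1)`. At a finite place `v`:
if `v b < 1` then `v a = 1` (`a, b` coprime) and
`(n-1) log max(1, v w) ≥ log (v u₀) - (n-1) log (v b)`, so in any case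
`log max(1, v w) ≥ - log (v b) - log⁺ (1 / v u₀)`. Sum over the finite places of `L` above
`T` (`LogTermDependsOnS.product_formula_log` for `a` and `b`, see `WP_PROX.lean`):
`∑ - log (v b) = [L : ℚ] log b`, `∑ - log (v (a/b)) = [L : ℚ] log (a/b) ≥ 0`. The constants are sums
over the places of `L` above `T` of `log⁺` of the values of fixed elements of `K`
(`u₀, u₀⁻¹, e₁, e₂, (e₂ - e₁)⁻¹`), which are `[L : K]` times the sums for `K`
(`Pool.Agent.H505.VL.PRF.main : S_PRF` with `b = none`; `weil v none z = log max(v z, 1)`). -/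
def S_P2A : Prop :=
  ∀ (K : Type) [Field K] [NumberField K] (n : ℕ) (e₁ e₂ u₀ : K), 3 ≤ n → e₁ ≠ e₂ → u₀ ≠ 0 →
    ∀ T : Finset ℕ, (∀ p ∈ T, p.Prime) →
    ∃ c : ℝ, ∀ (L : Type) [Field L] [NumberField L] [Algebra K L] (a b : ℕ) (w : L), 0 < b →
      b < a → a ≤ 3 * b → Nat.Coprime a b → a.primeFactors ⊆ T → b.primeFactors ⊆ T →
      EqL n u₀ a b w →
      (n : ℝ) * (finrank ℚ L : ℝ) * log b - c * (finrank K L : ℝ) ≤
        ∑ v ∈ placesOver L T, weil v none (xL n e₁ e₂ w)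

/-- H2A: upper bound for the height of `x`, in an extension `L` of `K`.
PROOF. (`S_BDW` and `S_INTW` may be assumed.) `c b w` is integral for a natural number `c > 0` and
`v(w) ≤ R` at the infinite places; so `logHeight₁ (c b w) ≤ [L : ℚ] (log b + log⁺ (c R))`
(`NumberField.logHeight₁_eq`; finite places contribute `0`), and
`logHeight₁ w ≤ logHeight₁ (c b w) + logHeight₁ (c b)`,
`logHeight₁ (c b) = [L : ℚ] log (c b)` (see `WP_HT.lean`). `x` is a fixed rational function of `w` and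
`e₁`, `e₂`: use `Height.logHeight₁_add_le`, `Height.logHeight₁_sub_le`, `Height.logHeight₁_mul_le`,
`Height.logHeight₁_inv`, `Height.logHeight₁_pow` in `L` (see `WPE_HTR.lean`); for `e ∈ K`,
`logHeight₁ (e : L) = [L : K] logHeight₁ e` and `[L : ℚ] = [L : K] [K : ℚ]`. -/
def S_H2A : Prop :=
  ∀ (K : Type) [Field K] [NumberField K] (n : ℕ) (e₁ e₂ u₀ : K), 3 ≤ n → u₀ ≠ 0 →
    ∃ c : ℝ, 0 < c ∧ ∀ (L : Type) [Field L] [NumberField L] [Algebra K L] (a b : ℕ) (w : L),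
      0 < b → b < a → a ≤ 3 * b → EqL n u₀ a b w →
      Height.logHeight₁ (xL n e₁ e₂ w) ≤ c * (finrank K L : ℝ) * (1 + log b)

/-- DEG: the degree.
PROOF. `w` is a zero of the polynomial `(Y+1)^n - Y^n - u₀ (a/b)^(n-1)` of degree `n - 1` over `K`
(or use `S_INTW`), and `y` is a zero of `Y ^ n - f(x)`, `x = xw n e₁ e₂ w ∈ K(w)`, over `K(w)`. -/
def S_DEG : Prop :=
  ∀ (K : Type) [Field K] [NumberField K] (n : ℕ) (e₁ e₂ u₀ : K) (f : K[X]), 3 ≤ n →
    ∀ (a b : ℕ) (w y : AlgebraicClosure K), Eqw n u₀ a b w →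
      y ^ n = aeval (xw n e₁ e₂ w) f → finrank K (resField K (w, y)) ≤ n * n

/-- SPL2: the number field `K`.
PROOF. Like `Pool.Agent.H455.WP_SPLIT`: `f` has at least two different zeros in `AlgebraicClosure k`,
and `(Y + 1)^(n-1) - Y^(n-1)` has degree `n - 2 ≥ 1`, so it has a zero `w₀`. Then
`U(w₀) = w₀^(n-1) ((w₀ + 1) - w₀) = w₀^(n-1) ≠ 0`, as `w₀ = 0` is not a zero. -/
def S_SPL2 : Prop :=
  ∀ (k : Type) [Field k] [NumberField k] (n : ℕ) (f : k[X]), 3 ≤ n → f.Separable →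
    2 ≤ f.natDegree →
    ∃ (K : Type) (_ : Field K) (_ : NumberField K) (_ : Algebra k K) (e₁ e₂ w₀ : K) (F : K[X]),
      e₁ ≠ e₂ ∧ (w₀ + 1) ^ (n - 1) = w₀ ^ (n - 1) ∧ UU n w₀ ≠ 0 ∧
      F.natDegree + 2 = f.natDegree ∧
      f.map (algebraMap k K) = (X - C e₁) * (X - C e₂) * F

end Pool.Agent.H455.WP
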