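import Mathlib
import Pool.Agent.H455.WPX

/-!
# BDW: the solutions `w` of the equation are bounded at the infinite places
-/

set_option autoImplicit false

namespace Pool.Agent.H455.WPX_BDW

open NumberField Module Finset

/-- the terms of `(z + 1) ^ (m + 2)` except the first two -/
theorem expand (m : ℕ) (z : ℂ) :
    (z + 1) ^ (m + 2) - z ^ (m + 2) =
      ((m : ℂ) + 2) * z ^ (m + 1) + ∑ k ∈ range (m + 1), z ^ k * ((m + 2).choose k : ℂ) := by
  have h1 : (z + 1) ^ (m + 2) =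
      ∑ k ∈ range (m + 2 + 1), z ^ k * 1 ^ (m + 2 - k) * ((m + 2).choose k : ℂ) :=
    add_pow z 1 (m + 2)
  simp only [one_pow, mul_one] at h1
  rw [h1, sum_range_succ, sum_range_succ, Nat.choose_self, Nat.choose_succ_self_right]
  push_cast
  ring

/-- bound for `z` -/
theorem bound (m : ℕ) (z : ℂ) (S : ℝ) (hS : ‖(z + 1) ^ (m + 2) - z ^ (m + 2)‖ ≤ S) :
    ‖z‖ ≤ S + 2 ^ (m + 2) := by
  have hS0 : 0 ≤ S := le_trans (norm_nonneg _) hS
  have h2 : (1 : ℝ) ≤ 2 ^ (m + 2) := one_le_pow₀ (by norm_num)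
  rcases le_total ‖z‖ 1 with hz | hz
  · linarith
  have hz0 : 0 < ‖z‖ := by linarith
  -- the sum of the small terms
  have h3 : ‖∑ k ∈ range (m + 1), z ^ k * ((m + 2).choose k : ℂ)‖ ≤ ‖z‖ ^ m * 2 ^ (m + 2) := by
    calc ‖∑ k ∈ range (m + 1), z ^ k * ((m + 2).choose k : ℂ)‖
        ≤ ∑ k ∈ range (m + 1), ‖z ^ k * ((m + 2).choose k : ℂ)‖ := norm_sum_le _ _
      _ ≤ ∑ k ∈ range (m + 1), ‖z‖ ^ m * ((m + 2).choose k : ℝ) := by
          refine sum_le_sum (fun k hk => ?_)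
          rw [norm_mul, norm_pow, Complex.norm_natCast]
          have hk' : k ≤ m := Nat.lt_succ_iff.1 (mem_range.1 hk)
          exact mul_le_mul_of_nonneg_right (pow_le_pow_right₀ hz hk') (Nat.cast_nonneg _)
      _ = ‖z‖ ^ m * ∑ k ∈ range (m + 1), ((m + 2).choose k : ℝ) := by rw [mul_sum]
      _ ≤ ‖z‖ ^ m * 2 ^ (m + 2) := by
          refine mul_le_mul_of_nonneg_left ?_ (by positivity)
          have h4 : ∑ k ∈ range (m + 1), ((m + 2).choose k : ℝ) ≤
              ∑ k ∈ range (m + 2 + 1), ((m + 2).choose k : ℝ) := by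
            refine sum_le_sum_of_subset_of_nonneg ?_ (fun _ _ _ => Nat.cast_nonneg _)
            intro k hk
            rw [mem_range] at hk ⊢
            omega
          have h5 : ∑ k ∈ range (m + 2 + 1), ((m + 2).choose k : ℝ) = 2 ^ (m + 2) := by
            have h6 := Nat.sum_range_choose (m + 2)
            exact_mod_cast h6
          linarith
  have h7 : ‖((m : ℂ) + 2) * z ^ (m + 1)‖ ≤ S + ‖z‖ ^ m * 2 ^ (m + 2) := by
    have h8 : ((m : ℂ) + 2) * z ^ (m + 1) = ((z + 1) ^ (m + 2) - z ^ (m + 2)) -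
        ∑ k ∈ range (m + 1), z ^ k * ((m + 2).choose k : ℂ) := by
      rw [expand]
      ring
    rw [h8]
    exact le_trans (norm_sub_le _ _) (add_le_add hS h3)
  have h9 : ‖((m : ℂ) + 2)‖ = (m : ℝ) + 2 := by
    have h10 : ((m : ℂ) + 2) = ((m + 2 : ℕ) : ℂ) := by push_cast; ring
    rw [h10, Complex.norm_natCast]
    push_cast
    ring
  rw [norm_mul, norm_pow, h9, pow_succ] at h7
  have hpm : 1 ≤ ‖z‖ ^ m := one_le_pow₀ hz
  have h11 : ‖z‖ ^ m * ‖z‖ ≤ ‖z‖ ^ m * (S + 2 ^ (m + 2)) := by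
    have h12 : ‖z‖ ^ m * ‖z‖ ≤ ((m : ℝ) + 2) * (‖z‖ ^ m * ‖z‖) := by
      refine le_mul_of_one_le_left (by positivity) ?_
      have : (0 : ℝ) ≤ m := Nat.cast_nonneg m
      linarith
    have h13 : S ≤ ‖z‖ ^ m * S := le_mul_of_one_le_left hS0 hpm
    rw [mul_add]
    linarith
  exact le_of_mul_le_mul_left h11 (by positivity)

theorem main : Pool.Agent.H455.WP.S_BDW := by
  intro K _ _ n u₀ hn
  obtain ⟨m, rfl⟩ : ∃ m, n = m + 2 := ⟨n - 2, by omega⟩
  -- the sum of the values of `u₀` at the infinite places of `K`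
  have hM0 : 0 ≤ ∑ v : InfinitePlace K, v u₀ := sum_nonneg (fun v _ => apply_nonneg v u₀)
  refine ⟨(∑ v : InfinitePlace K, v u₀) * 3 ^ (m + 1) + 2 ^ (m + 2), by positivity, ?_⟩
  intro L _ _ _ a b w hb hab hab3 hw v
  have hbR : (0 : ℝ) < (b : ℝ) := by exact_mod_cast hb
  have hM : ‖v.embedding (algebraMap K L u₀)‖ ≤ ∑ v : InfinitePlace K, v u₀ := by
    rw [InfinitePlace.norm_embedding_eq]
    have h1 : v (algebraMap K L u₀) = (v.comap (algebraMap K L)) u₀ := rfl
    rw [h1]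
    exact single_le_sum (f := fun v : InfinitePlace K => v u₀)
      (fun v _ => apply_nonneg v u₀) (mem_univ (v.comap (algebraMap K L)))
  have h2 : (v.embedding w + 1) ^ (m + 2) - (v.embedding w) ^ (m + 2) =
      v.embedding (algebraMap K L u₀) * ((a : ℂ) / (b : ℂ)) ^ (m + 1) := by
    have h3 := congrArg v.embedding hw
    unfold Pool.Agent.H455.WP.UU at h3
    rw [map_sub, map_pow, map_pow, map_add, map_one, map_mul, map_pow, map_div₀, map_natCast,
      map_natCast] at h3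
    exact h3
  have h4 : ‖((a : ℂ) / (b : ℂ)) ^ (m + 1)‖ ≤ 3 ^ (m + 1) := by
    rw [norm_pow, norm_div, Complex.norm_natCast, Complex.norm_natCast]
    refine pow_le_pow_left₀ (by positivity) ?_ _
    rw [div_le_iff₀ hbR]
    exact_mod_cast hab3
  rw [← InfinitePlace.norm_embedding_eq]
  refine bound m _ _ ?_
  rw [h2, norm_mul]
  exact mul_le_mul hM h4 (norm_nonneg _) hM0

end Pool.Agent.H455.WPX_BDW
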