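import Pool.Agent.H455.WPX
import Pool.Graph.R_seed8.Y733.VR.Disc

/-!
# The discriminant of `K(w)` (D1)
-/

set_option autoImplicit false

namespace Pool.Agent.H455.WPX_D1

open NumberField Real Polynomial Module

/-- the discriminant of `K(β)`, with a gain at one infinite place -/
theorem disc_le (K L : Type) [Field K] [NumberField K] [Field L] [NumberField L] [Algebra K L]
    (G : (𝓞 K)[X]) (N : ℕ) (hG : G.Monic) (hd : G.natDegree = N) (β' : L)
    (hroot : (G.map (algebraMap (𝓞 K) K)).aeval β' = 0)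
    (hadj : IntermediateField.adjoin K {β'} = ⊤) (A δ : ℝ) (γ : L)
    (hγ : (derivative (G.map (algebraMap (𝓞 K) K))).aeval β' = γ) (hγ0 : γ ≠ 0)
    (hA : 0 < A) (hδ0 : 0 < δ) (hδ1 : δ ≤ 1)
    (hv : ∀ v : InfinitePlace L, v γ ≤ A) (v₀ : InfinitePlace L) (hv0 : v₀ γ ≤ A * δ) :
    Real.log |(discr L : ℝ)| / finrank K L ≤ Real.log |(discr K : ℝ)| +
      (finrank ℚ K : ℝ) * Real.log A + 1 / (N : ℝ) * Real.log δ := by
  classical
  have hK : (0 : ℝ) < finrank ℚ K := by exact_mod_cast finrank_pos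
  have hKL : (0 : ℝ) < finrank K L := by exact_mod_cast finrank_pos
  have hLk := Pool.Agent.Y733.VR.finrank_tower K L
  have hint : IsIntegral (𝓞 K) β' := by
    refine ⟨G, hG, ?_⟩
    have h1 := hroot
    rw [aeval_def, eval₂_map] at h1
    rw [← h1]
    rfl
  have hintZ : IsIntegral ℤ β' := by
    haveI : IsScalarTower ℤ (𝓞 K) L := IsScalarTower.of_algebraMap_eq' (Subsingleton.elim _ _)
    exact isIntegral_trans (A := 𝓞 K) β' hint
  set β : 𝓞 L := ⟨β', hintZ⟩ with hβ
  have hco : ∀ p : (𝓞 K)[X], ((aeval β p : 𝓞 L) : L) = aeval β' (p.map (algebraMap (𝓞 K) K)) := by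
    intro p
    change algebraMap (𝓞 L) L _ = _
    rw [aeval_def, aeval_def, eval₂_map, hom_eval₂]
    rfl
  have hroot' : aeval β G = 0 := by
    apply RingOfIntegers.ext
    exact (hco G).trans hroot
  have hder : ((aeval β (derivative G) : 𝓞 L) : L) = γ := by
    rw [hco, ← derivative_map, hγ]
  have hder' : aeval β (derivative G) ≠ 0 := by
    intro h0
    apply hγ0
    rw [← hder, h0]
    rfl
  have hld := Pool.Agent.Y733.VR.ld_le K L β hadj G hroot' hder'
  rw [hder] at hld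
  -- the degree
  have hdeg : (finrank K L : ℝ) ≤ N := by
    have hi : IsIntegral K β' := Algebra.IsIntegral.isIntegral β'
    have h1 := IntermediateField.adjoin.finrank hi
    rw [hadj, IntermediateField.finrank_top'] at h1
    have hGm : (G.map (algebraMap (𝓞 K) K)).Monic := hG.map _
    have h2 : (minpoly K β').natDegree ≤ (G.map (algebraMap (𝓞 K) K)).natDegree :=
      natDegree_le_of_dvd (minpoly.dvd K β' hroot) hGm.ne_zero
    rw [hG.natDegree_map, hd] at h2
    rw [h1]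
    exact_mod_cast h2
  have hN : (0 : ℝ) < N := lt_of_lt_of_le hKL hdeg
  -- the norm
  have hnorm : Real.log |(Algebra.norm ℚ γ : ℝ)| =
      ∑ w : InfinitePlace L, (w.mult : ℝ) * Real.log (w γ) := by
    have h2 := InfinitePlace.prod_eq_abs_norm (K := L) γ
    have h3 : |(Algebra.norm ℚ γ : ℝ)| = ∏ w : InfinitePlace L, w γ ^ w.mult := by
      rw [h2]
      push_cast
      rfl
    rw [h3, Real.log_prod]
    · refine Finset.sum_congr rfl fun w _ => ?_
      rw [Real.log_pow]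
    · intro w _
      exact pow_ne_zero _ ((map_ne_zero w).2 hγ0)
  have hmult : ∑ w : InfinitePlace L, (w.mult : ℝ) = finrank ℚ K * finrank K L := by
    rw [← hLk]
    exact_mod_cast InfinitePlace.sum_mult_eq (K := L)
  have hlδ : Real.log δ ≤ 0 := Real.log_nonpos hδ0.le hδ1
  have hsum : ∑ w : InfinitePlace L, (w.mult : ℝ) * Real.log (w γ) ≤
      (finrank ℚ K * finrank K L) * Real.log A + Real.log δ := by
    have h1 : ∀ w : InfinitePlace L, (w.mult : ℝ) * Real.log (w γ) ≤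
        (w.mult : ℝ) * Real.log A + (if w = v₀ then Real.log δ else 0) := by
      intro w
      have hpos : 0 < w γ := InfinitePlace.pos_iff.2 hγ0
      split_ifs with h
      · subst h
        have h2 := Real.log_le_log hpos hv0
        rw [Real.log_mul hA.ne' hδ0.ne'] at h2
        have h3 : (1 : ℝ) ≤ (w.mult : ℝ) := InfinitePlace.one_le_mult
        have h4 := mul_le_mul_of_nonneg_left h2 (Nat.cast_nonneg (α := ℝ) w.mult)
        nlinarith
      · rw [add_zero]
        exact mul_le_mul_of_nonneg_left (Real.log_le_log hpos (hv w)) (Nat.cast_nonneg _)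
    refine (Finset.sum_le_sum fun w _ => h1 w).trans ?_
    rw [Finset.sum_add_distrib, ← Finset.sum_mul, hmult, Finset.sum_ite_eq' Finset.univ v₀]
    simp
  unfold Pool.Agent.Y733.VR.ld at hld
  rw [hnorm] at hld
  rw [hLk] at hld
  have h6 := mul_le_mul_of_nonneg_left hld hK.le
  have e1 : (finrank ℚ K : ℝ) * (Real.log |(discr L : ℝ)| / (finrank ℚ K * finrank K L)) =
      Real.log |(discr L : ℝ)| / finrank K L := by
    field_simp
  have e2 : (finrank ℚ K : ℝ) * (Real.log |(discr K : ℝ)| / finrank ℚ K +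
      (∑ w : InfinitePlace L, (w.mult : ℝ) * Real.log (w γ)) / (finrank ℚ K * finrank K L)) =
      Real.log |(discr K : ℝ)| +
        (∑ w : InfinitePlace L, (w.mult : ℝ) * Real.log (w γ)) / finrank K L := by
    field_simp
  rw [e1, e2] at h6
  have h7 : (∑ w : InfinitePlace L, (w.mult : ℝ) * Real.log (w γ)) / finrank K L ≤
      (finrank ℚ K : ℝ) * Real.log A + 1 / (N : ℝ) * Real.log δ := by
    rw [div_le_iff₀ hKL]
    refine hsum.trans ?_
    have h8 : Real.log δ ≤ 1 / (N : ℝ) * Real.log δ * finrank K L := by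
      have h9 : 1 / (N : ℝ) * finrank K L ≤ 1 := by
        rw [one_div, ← div_eq_inv_mul, div_le_one hN]
        exact hdeg
      nlinarith
    linarith
  linarith

theorem pow_sub_le (x y : ℂ) (M : ℝ) (hM : 0 ≤ M) (hx : ‖x‖ ≤ M) (hy : ‖y‖ ≤ M) (k : ℕ) :
    ‖x ^ k - y ^ k‖ ≤ k * M ^ (k - 1) * ‖x - y‖ := by
  rw [← geom_sum₂_mul x y k, norm_mul]
  refine mul_le_mul_of_nonneg_right ?_ (norm_nonneg _)
  refine (norm_sum_le _ _).trans ?_
  calc ∑ i ∈ Finset.range k, ‖x ^ i * y ^ (k - 1 - i)‖ ≤ ∑ i ∈ Finset.range k, M ^ (k - 1) := by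
        refine Finset.sum_le_sum fun i hi => ?_
        rw [Finset.mem_range] at hi
        rw [norm_mul, norm_pow, norm_pow]
        have e : M ^ (k - 1) = M ^ i * M ^ (k - 1 - i) := by
          rw [← pow_add]
          congr 1
          omega
        rw [e]
        gcongr
    _ = k * M ^ (k - 1) := by rw [Finset.sum_const, Finset.card_range, nsmul_eq_mul]

theorem norm_gam_le (c b n : ℕ) (z : ℂ) (R : ℝ) (hz : ‖z‖ ≤ R) :
    ‖((c : ℂ) * b) ^ (n - 2) * ((z + 1) ^ (n - 1) - z ^ (n - 1))‖ ≤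
      ((c : ℝ) * b) ^ (n - 2) * ((R + 1) ^ (n - 1) + R ^ (n - 1)) := by
  rw [norm_mul, norm_pow, norm_mul, Complex.norm_natCast, Complex.norm_natCast]
  have h1 : ‖z + 1‖ ≤ R + 1 := (norm_add_le _ _).trans (by rw [norm_one]; linarith)
  refine mul_le_mul_of_nonneg_left ?_ (by positivity)
  refine (norm_sub_le _ _).trans ?_
  rw [norm_pow, norm_pow]
  gcongr

theorem norm_gam_le' (c b n : ℕ) (z z₀ : ℂ) (h0 : (z₀ + 1) ^ (n - 1) = z₀ ^ (n - 1))
    (hz : ‖z - z₀‖ ≤ 1) :
    ‖((c : ℂ) * b) ^ (n - 2) * ((z + 1) ^ (n - 1) - z ^ (n - 1))‖ ≤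
      ((c : ℝ) * b) ^ (n - 2) * (2 * (((n - 1 : ℕ) : ℝ) * (‖z₀‖ + 2) ^ (n - 2)) * ‖z - z₀‖) := by
  rw [norm_mul, norm_pow, norm_mul, Complex.norm_natCast, Complex.norm_natCast]
  refine mul_le_mul_of_nonneg_left ?_ (by positivity)
  have hM : 0 ≤ ‖z₀‖ + 2 := by positivity
  have e : (z + 1) ^ (n - 1) - z ^ (n - 1) =
      ((z + 1) ^ (n - 1) - (z₀ + 1) ^ (n - 1)) - (z ^ (n - 1) - z₀ ^ (n - 1)) := by
    rw [h0]
    ring
  have hzn : ‖z‖ ≤ ‖z₀‖ + 1 := by
    calc ‖z‖ = ‖z₀ + (z - z₀)‖ := by congr 1; ring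
      _ ≤ ‖z₀‖ + ‖z - z₀‖ := norm_add_le _ _
      _ ≤ ‖z₀‖ + 1 := by linarith
  have h1 := pow_sub_le (z + 1) (z₀ + 1) (‖z₀‖ + 2) hM
    ((norm_add_le _ _).trans (by rw [norm_one]; linarith))
    ((norm_add_le _ _).trans (by rw [norm_one]; linarith)) (n - 1)
  have h2 := pow_sub_le z z₀ (‖z₀‖ + 2) hM (by linarith) (by linarith) (n - 1)
  have e1 : z + 1 - (z₀ + 1) = z - z₀ := by ring
  rw [e1] at h1
  have e2 : n - 1 - 1 = n - 2 := by omega
  rw [e2] at h1 h2
  rw [e]
  refine (norm_sub_le _ _).trans ?_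
  linarith

open Pool.Agent.H455.WP Pool.Agent.H505.VL in
theorem main : Pool.Agent.H455.WP.S_BDW → Pool.Agent.H455.WP.S_INTW → Pool.Agent.H455.WP.S_D1 := by
  intro hBDW hINTW K _ _ n w₀ σ hn hw₀
  obtain ⟨R, hR, hBD⟩ := hBDW K n (UU n w₀) hn
  obtain ⟨c₀, hc₀, hIN⟩ := hINTW K n (UU n w₀) hn
  have hz0 : (σ (algebraMap K (AlgebraicClosure K) w₀) + 1) ^ (n - 1) =
      σ (algebraMap K (AlgebraicClosure K) w₀) ^ (n - 1) := by
    have h1 := congrArg (fun x => σ (algebraMap K (AlgebraicClosure K) x)) hw₀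
    simpa using h1
  have hc₀' : (0 : ℝ) < c₀ := by exact_mod_cast hc₀
  have hn1 : (0 : ℝ) < ((n - 1 : ℕ) : ℝ) := by exact_mod_cast (show 0 < n - 1 by omega)
  obtain ⟨C, hC⟩ : ∃ C : ℝ, C = (c₀ : ℝ) ^ (n - 2) * ((R + 1) ^ (n - 1) + R ^ (n - 1)) +
    (c₀ : ℝ) ^ (n - 2) * (2 * (((n - 1 : ℕ) : ℝ) *
      (‖σ (algebraMap K (AlgebraicClosure K) w₀)‖ + 2) ^ (n - 2))) := ⟨_, rfl⟩
  have hC1 : 0 ≤ (c₀ : ℝ) ^ (n - 2) * ((R + 1) ^ (n - 1) + R ^ (n - 1)) := by positivity
  have hC2 : 0 < (c₀ : ℝ) ^ (n - 2) * (2 * (((n - 1 : ℕ) : ℝ) *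
      (‖σ (algebraMap K (AlgebraicClosure K) w₀)‖ + 2) ^ (n - 2))) := by positivity
  have hC0 : 0 < C := by rw [hC]; linarith
  refine ⟨Real.log |(discr K : ℝ)| + (finrank ℚ K : ℝ) * Real.log C, ?_⟩
  intro a b w hb hba hab hEq hne hδ1
  have hb' : (0 : ℝ) < b := by exact_mod_cast hb
  have hδ0 : 0 < ‖σ w - σ (algebraMap K (AlgebraicClosure K) w₀)‖ := by
    refine norm_pos_iff.2 (sub_ne_zero.2 fun h => hne ?_)
    rw [σ.injective h]
    have h1 := congrArg (algebraMap K (AlgebraicClosure K)) hw₀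
    simpa using h1
  obtain ⟨w', hw'⟩ : ∃ w' : resField K (w, 0), (w' : AlgebraicClosure K) = w :=
    ⟨⟨w, IntermediateField.subset_adjoin K _ (by simp)⟩, rfl⟩
  have hEqL : EqL n (UU n w₀) a b w' := by
    have h1 : ((UU n w' : resField K (w, 0)) : AlgebraicClosure K) =
        ((algebraMap K (resField K (w, 0)) (UU n w₀) * ((a : resField K (w, 0)) /
          (b : resField K (w, 0))) ^ (n - 1) : resField K (w, 0)) : AlgebraicClosure K) := by
      unfold UU
      unfold Eqw UU at hEq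
      push_cast
      rw [hw', hEq]
      simp
    exact Subtype.ext h1
  obtain ⟨G, hGm, hGd, hG0, hG1⟩ := hIN (resField K (w, 0)) a b w' hb hEqL
  have hbd := hBD (resField K (w, 0)) a b w' hb hba hab hEqL
  have hcb : ((c₀ : resField K (w, 0)) * b) ≠ 0 := by
    refine mul_ne_zero ?_ ?_
    · exact_mod_cast hc₀.ne'
    · exact_mod_cast hb.ne'
  have hγ0 : ((c₀ : resField K (w, 0)) * b) ^ (n - 2) * ((w' + 1) ^ (n - 1) - w' ^ (n - 1)) ≠ 0 := by
    refine mul_ne_zero (pow_ne_zero _ hcb) (sub_ne_zero.2 fun h => hne ?_)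
    have h1 := congrArg (fun x : resField K (w, 0) => (x : AlgebraicClosure K)) h
    push_cast at h1
    rw [hw'] at h1
    exact h1
  have hadj : IntermediateField.adjoin K {(c₀ : resField K (w, 0)) * b * w'} = ⊤ := by
    have h1 : w' ∈ IntermediateField.adjoin K {(c₀ : resField K (w, 0)) * b * w'} := by
      have h2 : w' = ((c₀ : resField K (w, 0)) * b)⁻¹ * ((c₀ : resField K (w, 0)) * b * w') := by
        rw [← mul_assoc, inv_mul_cancel₀ hcb, one_mul]
      have h3 : ((c₀ : resField K (w, 0)) * b) ∈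
          IntermediateField.adjoin K {(c₀ : resField K (w, 0)) * b * w'} :=
        mul_mem (natCast_mem _ _) (natCast_mem _ _)
      have h4 := mul_mem (inv_mem h3) (IntermediateField.mem_adjoin_simple_self K
        ((c₀ : resField K (w, 0)) * b * w'))
      rw [← h2] at h4
      exact h4
    have h5 : IntermediateField.adjoin K {w'} = (⊤ : IntermediateField K (resField K (w, 0))) := by
      apply IntermediateField.map_injective (resField K (w, 0)).val
      rw [IntermediateField.adjoin_map, Set.image_singleton, ← AlgHom.fieldRange_eq_map,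
        IntermediateField.fieldRange_val]
      have h6 : (resField K (w, 0)).val w' = w := hw'
      rw [h6]
      apply le_antisymm
      · rw [IntermediateField.adjoin_le_iff]
        rintro z rfl
        exact IntermediateField.subset_adjoin K _ (by simp)
      · rw [IntermediateField.adjoin_le_iff]
        rintro z (hz | hz)
        · have hz' : z = w := hz
          rw [hz']
          exact IntermediateField.mem_adjoin_simple_self K w
        · have hz' : z = 0 := hz
          rw [hz']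
          exact zero_mem _
    rw [eq_top_iff, ← h5, IntermediateField.adjoin_le_iff]
    rintro z rfl
    exact h1
  have hA : 0 < C * (b : ℝ) ^ (n - 2) := by positivity
  have hmap : ∀ τ : resField K (w, 0) →+* ℂ,
      τ (((c₀ : resField K (w, 0)) * b) ^ (n - 2) * ((w' + 1) ^ (n - 1) - w' ^ (n - 1))) =
      ((c₀ : ℂ) * b) ^ (n - 2) * ((τ w' + 1) ^ (n - 1) - τ w' ^ (n - 1)) := by
    intro τ
    simp
  have hv : ∀ v : InfinitePlace (resField K (w, 0)),
      v (((c₀ : resField K (w, 0)) * b) ^ (n - 2) * ((w' + 1) ^ (n - 1) - w' ^ (n - 1))) ≤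
        C * (b : ℝ) ^ (n - 2) := by
    intro v
    have h1 := hbd v
    rw [← InfinitePlace.norm_embedding_eq] at h1
    rw [← InfinitePlace.norm_embedding_eq, hmap]
    refine (norm_gam_le c₀ b n _ R h1).trans ?_
    rw [hC, mul_pow]
    have h2 : (0 : ℝ) ≤ (b : ℝ) ^ (n - 2) := by positivity
    nlinarith [mul_nonneg hC2.le h2]
  have hv0 : InfinitePlace.mk (σ.comp (algebraMap (resField K (w, 0)) (AlgebraicClosure K)))
      (((c₀ : resField K (w, 0)) * b) ^ (n - 2) * ((w' + 1) ^ (n - 1) - w' ^ (n - 1))) ≤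
        C * (b : ℝ) ^ (n - 2) * ‖σ w - σ (algebraMap K (AlgebraicClosure K) w₀)‖ := by
    rw [InfinitePlace.apply, hmap]
    have h1 : (σ.comp (algebraMap (resField K (w, 0)) (AlgebraicClosure K))) w' = σ w := by
      rw [RingHom.comp_apply]
      exact congrArg σ hw'
    rw [h1]
    refine (norm_gam_le' c₀ b n _ _ hz0 hδ1).trans ?_
    rw [hC, mul_pow]
    have h2 : (0 : ℝ) ≤ (b : ℝ) ^ (n - 2) := by positivity
    nlinarith [mul_nonneg (mul_nonneg hC1 h2) hδ0.le]
  have key := disc_le K (resField K (w, 0)) G (n - 1) hGm hGd _ hG0 hadj (C * (b : ℝ) ^ (n - 2))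
    _ _ hG1 hγ0 hA hδ0 hδ1 hv _ hv0
  rw [Real.log_mul hC0.ne' (by positivity), Real.log_pow] at key
  have c1 : ((n - 1 : ℕ) : ℝ) = (n : ℝ) - 1 := by
    rw [Nat.cast_sub (by omega)]
    norm_num
  have c2 : ((n - 2 : ℕ) : ℝ) = (n : ℝ) - 2 := by
    rw [Nat.cast_sub (by omega)]
    norm_num
  rw [c1, c2] at key
  have h8 : logDisc K (w, 0) = Real.log |(discr (resField K (w, 0)) : ℝ)| /
    finrank K (resField K (w, 0)) := rfl
  rw [h8]
  refine key.trans (le_of_eq ?_)
  ring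

end Pool.Agent.H455.WPX_D1
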