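import Pool.Agent.H455.WPX

/-!
# D2A: `f(x)` is an `n`-th power times a small integral element
-/

set_option autoImplicit false

namespace Pool.Agent.H455.WPX_D2A

open NumberField Real Polynomial Module
open Pool.Agent.H455.WP

/-- the decomposition of a natural number with prime factors in `T` -/
theorem decomp (T : Finset ℕ) (hT : ∀ p ∈ T, p.Prime) {n : ℕ} (hn : n ≠ 0) {A : ℕ} (hA : A ≠ 0)
    (hAT : A.primeFactors ⊆ T) : ∃ r s : ℕ, r ^ n * s = A ∧ 0 < s ∧ 0 < r ∧ s ≤ ∏ p ∈ T, p ^ n := by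
  have h1 : ∏ p ∈ T, p ^ (A.factorization p) = A := by
    conv_rhs => rw [← Nat.prod_factorization_pow_eq_self hA]
    rw [Finsupp.prod_of_support_subset _ (by simpa using hAT)]
    intro p _
    simp
  refine ⟨∏ p ∈ T, p ^ (A.factorization p / n), ∏ p ∈ T, p ^ (A.factorization p % n), ?_, ?_, ?_, ?_⟩
  · rw [← Finset.prod_pow, ← Finset.prod_mul_distrib]
    conv_rhs => rw [← h1]
    refine Finset.prod_congr rfl fun p _ => ?_
    rw [← pow_mul, ← pow_add]
    congr 1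
    rw [mul_comm]
    exact Nat.div_add_mod _ _
  · exact Finset.prod_pos fun p hp => pow_pos (hT p hp).pos _
  · exact Finset.prod_pos fun p hp => pow_pos (hT p hp).pos _
  · exact Finset.prod_le_prod' fun p hp =>
      Nat.pow_le_pow_right (hT p hp).pos (Nat.mod_lt _ (Nat.pos_of_ne_zero hn)).le

theorem key {L : Type} [Field L] {k N : ℕ} {P u u0 a b r s D W E Φ : L}
    (ha : a ≠ 0) (hb : b ≠ 0) (hu0 : u0 ≠ 0) (hD : D ≠ 0)
    (hu : u = u0 * (a / b) ^ k)
    (hrs : r ^ (k + 1) * s = (b * a ^ k) ^ (k * (N + 2)))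
    (hP : P * u ^ (N + 2) * b ^ ((k + 1) * N) = E * W ^ (k + 1) * Φ) :
    P = (W * r / (a ^ (k * (N + 2)) * b ^ N * D)) ^ (k + 1) *
      (D ^ (k + 1) * (E * (u0 ^ (N + 2))⁻¹) * s * Φ) := by
  obtain ⟨M, hM⟩ : ∃ M, M = k * (N + 2) := ⟨_, rfl⟩
  rw [← hM] at hrs ⊢
  have h1 : r ^ (k + 1) * s * (a / b) ^ M = (a ^ M) ^ (k + 1) := by
    rw [hrs, ← mul_pow]
    have e : b * a ^ k * (a / b) = a ^ (k + 1) := by
      rw [pow_succ]
      field_simp
    rw [e, ← pow_mul, ← pow_mul, mul_comm]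
  have hu' : u ^ (N + 2) = u0 ^ (N + 2) * (a / b) ^ M := by
    rw [hu, mul_pow, ← pow_mul, hM]
  have hab : (a / b) ^ M ≠ 0 := pow_ne_zero _ (div_ne_zero ha hb)
  have h2 : u ^ (N + 2) * b ^ ((k + 1) * N) ≠ 0 := by
    rw [hu']
    exact mul_ne_zero (mul_ne_zero (pow_ne_zero _ hu0) hab) (pow_ne_zero _ hb)
  refine mul_right_cancel₀ h2 ?_
  rw [← mul_assoc, hP]
  have h3 : (W * r / (a ^ M * b ^ N * D)) ^ (k + 1) *
      (D ^ (k + 1) * (E * (u0 ^ (N + 2))⁻¹) * s * Φ) * (u ^ (N + 2) * b ^ ((k + 1) * N)) =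
      E * W ^ (k + 1) * Φ * ((r ^ (k + 1) * s * (a / b) ^ M) / (a ^ M) ^ (k + 1)) *
      (u0 ^ (N + 2) * (u0 ^ (N + 2))⁻¹) * (D ^ (k + 1) / D ^ (k + 1)) *
      (b ^ ((k + 1) * N) / (b ^ N) ^ (k + 1)) := by
    rw [hu', div_pow, mul_pow, mul_pow, mul_pow]
    ring
  rw [h3, h1, div_self (pow_ne_zero _ (pow_ne_zero _ ha)), mul_inv_cancel₀ (pow_ne_zero _ hu0),
    div_self (pow_ne_zero _ hD), ← pow_mul, mul_comm N (k + 1), div_self (pow_ne_zero _ hb)]
  ring

/-- the numerator of `F(x)` -/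
noncomputable def Ph {K L : Type} [Field K] [Field L] [Algebra K L] (F : K[X]) (V Z : L) : L :=
  ∑ i ∈ Finset.range (F.natDegree + 1), algebraMap K L (F.coeff i) * V ^ i * Z ^ (F.natDegree - i)

theorem aeval_div {K L : Type} [Field K] [Field L] [Algebra K L] (F : K[X]) (V Z : L)
    (hZ : Z ≠ 0) : aeval (V / Z) F * Z ^ F.natDegree = Ph F V Z := by
  unfold Ph
  rw [aeval_eq_sum_range, Finset.sum_mul]
  refine Finset.sum_congr rfl fun i hi => ?_
  have hi' : i ≤ F.natDegree := by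
    rw [Finset.mem_range] at hi
    omega
  have h1 : Z ^ F.natDegree = Z ^ i * Z ^ (F.natDegree - i) := by
    rw [← pow_add]
    congr 1
    omega
  rw [h1, div_pow, Algebra.smul_def]
  have h2 : Z ^ i ≠ 0 := pow_ne_zero i hZ
  field_simp

/-- the value of `f` -/
theorem fx {K L : Type} [Field K] [Field L] [Algebra K L] {n : ℕ} {e₁ e₂ : K} {F f : K[X]}
    (hf : f = (X - C e₁) * (X - C e₂) * F) {b w : L} (hb : b ≠ 0) (hu : UU n w ≠ 0) :
    aeval (xL n e₁ e₂ w) f * UU n w ^ (F.natDegree + 2) * b ^ (n * F.natDegree) =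
      (algebraMap K L e₂ - algebraMap K L e₁) ^ 2 * (w * (w + 1)) ^ n *
        Ph F (algebraMap K L e₂ * (b * w + b) ^ n - algebraMap K L e₁ * (b * w) ^ n)
          ((b * w + b) ^ n - (b * w) ^ n) := by
  have hbn : b ^ n ≠ 0 := pow_ne_zero _ hb
  have e0 : (b * w + b) ^ n - (b * w) ^ n = b ^ n * UU n w := by
    unfold UU
    have : b * w + b = b * (w + 1) := by ring
    rw [this, mul_pow, mul_pow]
    ring
  have e1 : algebraMap K L e₂ * (b * w + b) ^ n - algebraMap K L e₁ * (b * w) ^ n =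
      b ^ n * (algebraMap K L e₂ * (w + 1) ^ n - algebraMap K L e₁ * w ^ n) := by
    have : b * w + b = b * (w + 1) := by ring
    rw [this, mul_pow, mul_pow]
    ring
  have hx : xL n e₁ e₂ w = (b ^ n * (algebraMap K L e₂ * (w + 1) ^ n - algebraMap K L e₁ * w ^ n)) /
      (b ^ n * UU n w) := by
    unfold xL
    rw [mul_div_mul_left _ _ hbn]
  have h1 := aeval_div F (b ^ n * (algebraMap K L e₂ * (w + 1) ^ n - algebraMap K L e₁ * w ^ n))
    (b ^ n * UU n w) (mul_ne_zero hbn hu)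
  rw [← hx] at h1
  rw [e0, e1, ← h1]
  have h2 : (xL n e₁ e₂ w - algebraMap K L e₁) * UU n w =
      (algebraMap K L e₂ - algebraMap K L e₁) * (w + 1) ^ n := by
    unfold xL
    rw [sub_mul, div_mul_cancel₀ _ hu]
    unfold UU
    ring
  have h3 : (xL n e₁ e₂ w - algebraMap K L e₂) * UU n w =
      (algebraMap K L e₂ - algebraMap K L e₁) * w ^ n := by
    unfold xL
    rw [sub_mul, div_mul_cancel₀ _ hu]
    unfold UU
    ring
  have h4 : aeval (xL n e₁ e₂ w) f = (xL n e₁ e₂ w - algebraMap K L e₁) *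
      (xL n e₁ e₂ w - algebraMap K L e₂) * aeval (xL n e₁ e₂ w) F := by
    rw [hf]
    simp only [map_mul, map_sub, aeval_X, aeval_C]
  rw [h4]
  have h5 : (algebraMap K L e₂ - algebraMap K L e₁) ^ 2 * (w * (w + 1)) ^ n =
      ((xL n e₁ e₂ w - algebraMap K L e₁) * UU n w) *
      ((xL n e₁ e₂ w - algebraMap K L e₂) * UU n w) := by
    rw [h2, h3, mul_pow]
    ring
  rw [h5, mul_pow, pow_add, pow_mul]
  ring

/-- integrality -/
theorem integral_Ph {K L : Type} [Field K] [Field L] [Algebra K L] (F : K[X]) {d q : K} {V Z : L}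
    (hF : ∀ i ∈ Finset.range (F.natDegree + 1), IsIntegral ℤ (d * F.coeff i))
    (hV : IsIntegral ℤ (algebraMap K L q * V)) (hZ : IsIntegral ℤ (algebraMap K L q * Z)) :
    IsIntegral ℤ (algebraMap K L (d * q ^ F.natDegree) * Ph F V Z) := by
  have e : algebraMap K L (d * q ^ F.natDegree) * Ph F V Z =
      ∑ i ∈ Finset.range (F.natDegree + 1), algebraMap K L (d * F.coeff i) *
        (algebraMap K L q * V) ^ i * (algebraMap K L q * Z) ^ (F.natDegree - i) := by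
    unfold Ph
    rw [Finset.mul_sum]
    refine Finset.sum_congr rfl fun i hi => ?_
    have hi' : i ≤ F.natDegree := by
      rw [Finset.mem_range] at hi
      omega
    have h1 : q ^ F.natDegree = q ^ i * q ^ (F.natDegree - i) := by
      rw [← pow_add]
      congr 1
      omega
    rw [h1, mul_pow, mul_pow]
    simp only [map_mul, map_pow]
    ring
  rw [e]
  exact IsIntegral.sum _ fun i hi => (((hF i hi).algebraMap).mul (hV.pow _)).mul (hZ.pow _)

/-- the size -/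
theorem size_Ph {K L : Type} [Field K] [Field L] [Algebra K L] (F : K[X]) (v : AbsoluteValue L ℝ)
    {V Z : L} {E : ℝ} (hE : 0 ≤ E) (hV : v V ≤ E) (hZ : v Z ≤ E) :
    v (Ph F V Z) ≤ (∑ i ∈ Finset.range (F.natDegree + 1), v (algebraMap K L (F.coeff i))) *
      E ^ F.natDegree := by
  unfold Ph
  rw [Finset.sum_mul]
  refine (v.sum_le _ _).trans (Finset.sum_le_sum fun i hi => ?_)
  have hi' : i ≤ F.natDegree := by
    rw [Finset.mem_range] at hi
    omega
  rw [map_mul, map_mul, map_pow, map_pow, mul_assoc]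
  refine mul_le_mul_of_nonneg_left ?_ (v.nonneg _)
  have h1 : E ^ F.natDegree = E ^ i * E ^ (F.natDegree - i) := by
    rw [← pow_add]
    congr 1
    omega
  rw [h1]
  exact mul_le_mul (pow_le_pow_left₀ (v.nonneg _) hV _) (pow_le_pow_left₀ (v.nonneg _) hZ _)
    (pow_nonneg (v.nonneg _) _) (pow_nonneg hE _)

theorem main : Pool.Agent.H455.WP.S_BDW → Pool.Agent.H455.WP.S_INTW →
    Pool.Agent.H455.WP.S_D2A := by
  intro hB hI K _ _ n e₁ e₂ u₀ F f hn hu₀ hf T hT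
  classical
  obtain ⟨R, hR0, hR⟩ := hB K n u₀ hn
  obtain ⟨cw, hcw0, hcw⟩ := hI K n u₀ hn
  obtain ⟨k, rfl⟩ : ∃ k, n = k + 1 := ⟨n - 1, by omega⟩
  obtain ⟨N, hN⟩ : ∃ N, N = F.natDegree := ⟨_, rfl⟩
  obtain ⟨E₀, hE₀⟩ : ∃ E₀ : K, E₀ = (e₂ - e₁) ^ 2 * (u₀ ^ (N + 2))⁻¹ := ⟨_, rfl⟩
  -- the common denominator
  obtain ⟨c0, hc0⟩ := IsLocalization.exist_integer_multiples_of_finset (nonZeroDivisors (𝓞 K))
    (S := K) (({1, e₁, e₂, E₀} : Finset K) ∪ (Finset.range (N + 1)).image F.coeff)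
  obtain ⟨d, hddef⟩ : ∃ d : K, d = algebraMap (𝓞 K) K c0 := ⟨_, rfl⟩
  have hd : d ≠ 0 := by
    rw [hddef]
    intro h
    have h1 : (c0 : 𝓞 K) = 0 := by
      apply RingOfIntegers.coe_injective
      rw [map_zero]
      exact h
    exact nonZeroDivisors.coe_ne_zero c0 h1
  have hint : ∀ z ∈ (({1, e₁, e₂, E₀} : Finset K) ∪ (Finset.range (N + 1)).image F.coeff),
      IsIntegral ℤ (d * z) := by
    intro z hz
    obtain ⟨y, hy⟩ := hc0 z hz
    rw [Algebra.smul_def, ← hddef] at hy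
    rw [← hy]
    exact RingOfIntegers.isIntegral_coe y
  have i1 : IsIntegral ℤ (d * 1) := hint _ (by simp)
  have i2 : IsIntegral ℤ (d * e₁) := hint _ (by simp)
  have i3 : IsIntegral ℤ (d * e₂) := hint _ (by simp)
  have i4 : IsIntegral ℤ (d * E₀) := hint _ (by simp)
  have i5 : ∀ i ∈ Finset.range (F.natDegree + 1), IsIntegral ℤ (d * F.coeff i) := fun i hi =>
    hint _ (Finset.mem_union_right _ (Finset.mem_image_of_mem _ (by rw [hN]; exact hi)))
  rw [mul_one] at i1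
  obtain ⟨q, hq⟩ : ∃ q : K, q = d * (cw : K) ^ (k + 1) := ⟨_, rfl⟩
  have hcwK : (cw : K) ≠ 0 := by exact_mod_cast hcw0.ne'
  have hq0 : q ≠ 0 := by
    rw [hq]
    exact mul_ne_zero hd (pow_ne_zero _ hcwK)
  have inatK : ∀ j : ℕ, IsIntegral ℤ (j : K) := fun j => by
    simpa using isIntegral_algebraMap (R := ℤ) (A := K) (x := (j : ℤ))
  have iq : IsIntegral ℤ q := by
    rw [hq]
    exact i1.mul ((inatK cw).pow _)
  obtain ⟨D, hD⟩ : ∃ D : K, D = d * (d * q ^ N) := ⟨_, rfl⟩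
  have hD0 : D ≠ 0 := by
    rw [hD]
    exact mul_ne_zero hd (mul_ne_zero hd (pow_ne_zero _ hq0))
  have iD : IsIntegral ℤ D := by
    rw [hD]
    exact i1.mul (i1.mul (iq.pow _))
  obtain ⟨Q, hQ⟩ : ∃ Q : ℕ, Q = ∏ p ∈ T, p ^ (k + 1) := ⟨_, rfl⟩
  obtain ⟨Bv, hBv⟩ : ∃ Bv : InfinitePlace K → ℝ, ∀ v, Bv v = v D ^ (k + 1) * v E₀ * Q *
      ((∑ i ∈ Finset.range (N + 1), v (F.coeff i)) *
        ((v e₁ + v e₂ + 2) * (R + 1) ^ (k + 1)) ^ N) := ⟨_, fun _ => rfl⟩
  have hv0 : ∀ (v : InfinitePlace K) (x : K), 0 ≤ v x := fun v x => apply_nonneg v x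
  have hBv0 : ∀ v, 0 ≤ Bv v := fun v => by
    rw [hBv]
    have h1 := hv0 v D
    have h2 := hv0 v E₀
    have h3 := hv0 v e₁
    have h4 := hv0 v e₂
    have h5 : 0 ≤ ∑ i ∈ Finset.range (N + 1), v (F.coeff i) :=
      Finset.sum_nonneg fun i _ => hv0 v _
    positivity
  refine ⟨∑ v, Bv v + 1, ?_, ?_⟩
  · have : 0 ≤ ∑ v, Bv v := Finset.sum_nonneg fun v _ => hBv0 v
    linarith
  intro L _ _ _ a b w hb hab ha3 haT hbT hEq
  have ha : 0 < a := by omega
  have ha' : (a : L) ≠ 0 := by exact_mod_cast ha.ne'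
  have hb' : (b : L) ≠ 0 := by exact_mod_cast hb.ne'
  have hu0L : algebraMap K L u₀ ≠ 0 := (_root_.map_ne_zero _).2 hu₀
  have hEq' : UU (k + 1) w = algebraMap K L u₀ * ((a : L) / (b : L)) ^ k := hEq
  have hU0 : UU (k + 1) w ≠ 0 := by
    rw [hEq']
    exact mul_ne_zero hu0L (pow_ne_zero _ (div_ne_zero ha' hb'))
  -- the decomposition
  have hA0 : (b * a ^ k) ^ (k * (N + 2)) ≠ 0 :=
    pow_ne_zero _ (mul_ne_zero hb.ne' (pow_ne_zero _ ha.ne'))
  have hAT : ((b * a ^ k) ^ (k * (N + 2))).primeFactors ⊆ T := by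
    intro p hp
    have hpp := Nat.prime_of_mem_primeFactors hp
    have h2 := hpp.dvd_of_dvd_pow (Nat.dvd_of_mem_primeFactors hp)
    rcases (hpp.dvd_mul).1 h2 with h3 | h3
    · exact hbT (Nat.mem_primeFactors.2 ⟨hpp, h3, hb.ne'⟩)
    · exact haT (Nat.mem_primeFactors.2 ⟨hpp, hpp.dvd_of_dvd_pow h3, ha.ne'⟩)
  obtain ⟨r, s, hrs, hs0, hr0, hsQ⟩ := decomp T hT (Nat.succ_ne_zero k) hA0 hAT
  rw [← hQ] at hsQ
  have hrsL : (r : L) ^ (k + 1) * s = ((b : L) * (a : L) ^ k) ^ (k * (N + 2)) := by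
    have := congrArg (fun j : ℕ => (j : L)) hrs
    push_cast at this
    exact this
  -- the identity
  obtain ⟨V, hV⟩ : ∃ V : L, V = algebraMap K L e₂ * ((b : L) * w + b) ^ (k + 1) -
    algebraMap K L e₁ * ((b : L) * w) ^ (k + 1) := ⟨_, rfl⟩
  obtain ⟨Z, hZ⟩ : ∃ Z : L, Z = ((b : L) * w + b) ^ (k + 1) - ((b : L) * w) ^ (k + 1) := ⟨_, rfl⟩
  have hfx := fx hf hb' hU0
  rw [← hV, ← hZ, ← hN] at hfx
  have hDL : algebraMap K L D ≠ 0 := (_root_.map_ne_zero _).2 hD0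
  have hkey := key ha' hb' hu0L hDL hEq' hrsL hfx
  have hE₀L : (algebraMap K L e₂ - algebraMap K L e₁) ^ 2 * (algebraMap K L u₀ ^ (N + 2))⁻¹ =
      algebraMap K L E₀ := by
    rw [hE₀, map_mul, map_pow, map_sub, map_inv₀, map_pow]
  rw [hE₀L] at hkey
  -- integrality
  have inat : ∀ j : ℕ, IsIntegral ℤ (j : L) := fun j => by
    simpa using isIntegral_algebraMap (R := ℤ) (A := L) (x := (j : ℤ))
  have hw : IsIntegral ℤ ((cw : L) * b * w) := by
    obtain ⟨G, hG1, -, hG2, -⟩ := hcw L a b w hb hEq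
    have h1 : IsIntegral (𝓞 K) ((cw : L) * b * w) := by
      refine ⟨G, hG1, ?_⟩
      rw [← aeval_def]
      rw [aeval_map_algebraMap] at hG2
      exact hG2
    exact isIntegral_trans (R := ℤ) (A := 𝓞 K) _ h1
  have hqL : algebraMap K L q = algebraMap K L d * (cw : L) ^ (k + 1) := by
    rw [hq, map_mul, map_pow, map_natCast]
  have jV : IsIntegral ℤ (algebraMap K L q * V) := by
    have e : algebraMap K L q * V =
        algebraMap K L (d * e₂) * ((cw : L) * b * w + cw * b) ^ (k + 1) -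
        algebraMap K L (d * e₁) * ((cw : L) * b * w) ^ (k + 1) := by
      have e1 : (cw : L) * b * w + cw * b = cw * (b * w + b) := by ring
      have e2 : (cw : L) * b * w = cw * (b * w) := by ring
      rw [hqL, hV, e1, e2, mul_pow (cw : L), mul_pow (cw : L), map_mul, map_mul]
      ring
    rw [e]
    exact ((i3.algebraMap).mul ((hw.add ((inat cw).mul (inat b))).pow _)).sub
      ((i2.algebraMap).mul (hw.pow _))
  have jZ : IsIntegral ℤ (algebraMap K L q * Z) := by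
    have e : algebraMap K L q * Z =
        algebraMap K L d * (((cw : L) * b * w + cw * b) ^ (k + 1) -
        ((cw : L) * b * w) ^ (k + 1)) := by
      have e1 : (cw : L) * b * w + cw * b = cw * (b * w + b) := by ring
      have e2 : (cw : L) * b * w = cw * (b * w) := by ring
      rw [hqL, hZ, e1, e2, mul_pow (cw : L), mul_pow (cw : L)]
      ring
    rw [e]
    exact (i1.algebraMap).mul (((hw.add ((inat cw).mul (inat b))).pow _).sub (hw.pow _))
  have jP := integral_Ph F i5 jV jZ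
  rw [← hN] at jP
  have jm : IsIntegral ℤ (algebraMap K L D ^ (k + 1) * algebraMap K L E₀ * (s : L) * Ph F V Z) := by
    have e : algebraMap K L D ^ (k + 1) * algebraMap K L E₀ * (s : L) * Ph F V Z =
        algebraMap K L D ^ k * (s : L) * (algebraMap K L (d * E₀) *
          (algebraMap K L (d * q ^ N) * Ph F V Z)) := by
      have e1 : algebraMap K L D ^ (k + 1) = algebraMap K L D ^ k *
          (algebraMap K L d * algebraMap K L (d * q ^ N)) := by
        rw [pow_succ, ← map_mul, ← hD]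
      rw [e1, map_mul (algebraMap K L) d E₀]
      ring
    rw [e]
    exact (((iD.algebraMap).pow k).mul (inat s)).mul ((i4.algebraMap).mul jP)
  refine ⟨w * (w + 1) * r / ((a : L) ^ (k * (N + 2)) * (b : L) ^ N * algebraMap K L D), ⟨_, jm⟩,
    hkey, ?_⟩
  intro v
  change v (algebraMap K L D ^ (k + 1) * algebraMap K L E₀ * (s : L) * Ph F V Z) ≤ _
  obtain ⟨v₀, hv₀⟩ : ∃ v₀ : InfinitePlace K, ∀ x, v (algebraMap K L x) = v₀ x :=
    ⟨v.comap (algebraMap K L), fun x => rfl⟩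
  have hvb : v (b : L) = b := InfinitePlace.map_natCast v b
  have hvs : v (s : L) = s := InfinitePlace.map_natCast v s
  have hb0 : (0 : ℝ) ≤ b := Nat.cast_nonneg b
  have hwR : v w ≤ R := hR L a b w hb hab ha3 hEq v
  have hvw0 : 0 ≤ v w := apply_nonneg v w
  have hbw : v ((b : L) * w) ≤ b * (R + 1) := by
    rw [map_mul, hvb]
    exact mul_le_mul_of_nonneg_left (by linarith) hb0
  have hbw1 : v ((b : L) * w + b) ≤ b * (R + 1) := by
    refine (v.1.add_le _ _).trans ?_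
    change v ((b : L) * w) + v (b : L) ≤ _
    rw [map_mul, hvb]
    nlinarith
  have hp1 : v (((b : L) * w) ^ (k + 1)) ≤ (b * (R + 1)) ^ (k + 1) := by
    rw [map_pow]
    exact pow_le_pow_left₀ (apply_nonneg v _) hbw _
  have hp2 : v (((b : L) * w + b) ^ (k + 1)) ≤ (b * (R + 1)) ^ (k + 1) := by
    rw [map_pow]
    exact pow_le_pow_left₀ (apply_nonneg v _) hbw1 _
  have hX0 : (0 : ℝ) ≤ (b * (R + 1)) ^ (k + 1) := by positivity
  have he1 := hv0 v₀ e₁
  have he2 := hv0 v₀ e₂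
  obtain ⟨E, hE⟩ : ∃ E : ℝ, E = (b : ℝ) ^ (k + 1) * ((v₀ e₁ + v₀ e₂ + 2) * (R + 1) ^ (k + 1)) :=
    ⟨_, rfl⟩
  have hE' : E = (v₀ e₁ + v₀ e₂ + 2) * (b * (R + 1)) ^ (k + 1) := by
    rw [hE, mul_pow]
    ring
  have hE0 : 0 ≤ E := by
    rw [hE']
    positivity
  have hVE : v.1 V ≤ E := by
    rw [hV, sub_eq_add_neg]
    refine (v.1.add_le _ _).trans ?_
    rw [AbsoluteValue.map_neg]
    change v (algebraMap K L e₂ * ((b : L) * w + b) ^ (k + 1)) +
      v (algebraMap K L e₁ * ((b : L) * w) ^ (k + 1)) ≤ E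
    rw [map_mul, map_mul, hv₀, hv₀, hE']
    have h1 := mul_le_mul_of_nonneg_left hp2 he2
    have h2 := mul_le_mul_of_nonneg_left hp1 he1
    nlinarith
  have hZE : v.1 Z ≤ E := by
    rw [hZ, sub_eq_add_neg]
    refine (v.1.add_le _ _).trans ?_
    rw [AbsoluteValue.map_neg]
    change v (((b : L) * w + b) ^ (k + 1)) + v (((b : L) * w) ^ (k + 1)) ≤ E
    rw [hE']
    nlinarith [mul_nonneg he1 hX0, mul_nonneg he2 hX0]
  have hsz := size_Ph F v.1 hE0 hVE hZE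
  rw [← hN] at hsz
  have hsz' : v (Ph F V Z) ≤ (∑ i ∈ Finset.range (N + 1), v₀ (F.coeff i)) * E ^ N := by
    refine le_trans hsz (le_of_eq ?_)
    congr 1
    exact Finset.sum_congr rfl fun i _ => hv₀ _
  rw [map_mul, map_mul, map_mul, map_pow, hv₀, hv₀, hvs]
  have hsQ' : (s : ℝ) ≤ Q := by exact_mod_cast hsQ
  have g1 : 0 ≤ v₀ D ^ (k + 1) * v₀ E₀ := mul_nonneg (pow_nonneg (hv0 _ _) _) (hv0 _ _)
  have hS0 : 0 ≤ ∑ i ∈ Finset.range (N + 1), v₀ (F.coeff i) :=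
    Finset.sum_nonneg fun i _ => hv0 v₀ _
  have g2 : v₀ D ^ (k + 1) * v₀ E₀ * (s : ℝ) * v (Ph F V Z) ≤
      v₀ D ^ (k + 1) * v₀ E₀ * Q * ((∑ i ∈ Finset.range (N + 1), v₀ (F.coeff i)) * E ^ N) :=
    mul_le_mul (mul_le_mul_of_nonneg_left hsQ' g1) hsz' (apply_nonneg v _)
      (mul_nonneg g1 (Nat.cast_nonneg _))
  refine g2.trans ?_
  have g3 : v₀ D ^ (k + 1) * v₀ E₀ * Q * ((∑ i ∈ Finset.range (N + 1), v₀ (F.coeff i)) * E ^ N) =
      Bv v₀ * (b : ℝ) ^ ((k + 1) * N) := by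
    rw [hBv, hE, mul_pow ((b : ℝ) ^ (k + 1)), ← pow_mul]
    ring
  rw [g3, ← hN]
  have h7 : Bv v₀ ≤ ∑ v, Bv v + 1 := by
    have := Finset.single_le_sum (f := Bv) (fun u _ => hBv0 u) (Finset.mem_univ v₀)
    linarith
  exact mul_le_mul_of_nonneg_right h7 (by positivity)

end Pool.Agent.H455.WPX_D2A
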