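import Pool.Agent.H455.WPX

/-!
# D2B: the discriminant of `K(w, y)`, `y ^ n = ρ ^ n m` (helper860, for helper455)
-/

set_option autoImplicit false

namespace Pool.Agent.H455.WPX_D2B

open NumberField Real Polynomial Module
open Pool.Agent.H505.VL Pool.Agent.H505.VL.Pt

/-- The bound for abstract number fields. -/
theorem abs_le (K L : Type) [Field K] [NumberField K] [Field L] [NumberField L] [Algebra K L]
    (n : ℕ) (hn : 1 ≤ n) (y : L) (hy : y ≠ 0) (ρ : K) (m : 𝓞 K)
    (h : y ^ n = algebraMap K L (ρ ^ n * (m : K)))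
    (hadj' : IntermediateField.adjoin K {y} = ⊤)
    (B : ℝ) (hB : 0 < B) (hmB : ∀ v : InfinitePlace K, v (m : K) ≤ B) :
    log |(discr L : ℝ)| / finrank K L ≤ log |(discr K : ℝ)| +
      (finrank ℚ K : ℝ) * (((n : ℝ) - 1) / n * log B + (2 * log n + n * log 2)) := by
  have hn0 : n ≠ 0 := by omega
  have hρm : ρ ^ n * (m : K) ≠ 0 := by
    intro h0
    apply hy
    rw [h0, map_zero] at h
    exact (pow_eq_zero_iff hn0).1 h
  have hρ : ρ ≠ 0 := by
    rintro rfl
    apply hρm
    rw [zero_pow hn0, zero_mul]
  have hm : (m : K) ≠ 0 := right_ne_zero_of_mul hρm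
  obtain ⟨β', hβ'⟩ : ∃ β' : L, β' = algebraMap K L ρ⁻¹ * y := ⟨_, rfl⟩
  have hβn : β' ^ n = algebraMap K L (m : K) := by
    rw [hβ', mul_pow, h, ← map_pow, ← map_mul, ← mul_assoc, ← mul_pow, inv_mul_cancel₀ hρ,
      one_pow, one_mul]
  obtain ⟨g, hg⟩ : ∃ g : (𝓞 K)[X], g = X ^ n - C m := ⟨_, rfl⟩
  have hgm : g.Monic := by
    rw [hg]
    exact monic_X_pow_sub_C m hn0
  have hgd : g.natDegree = n := by
    rw [hg]
    exact natDegree_X_pow_sub_C
  have hint : IsIntegral (𝓞 K) β' := by
    refine ⟨g, hgm, ?_⟩
    rw [hg, eval₂_sub, eval₂_X_pow, eval₂_C, hβn]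
    exact sub_self _
  have hintZ : IsIntegral ℤ β' := by
    have : IsScalarTower ℤ (𝓞 K) L := IsScalarTower.of_algebraMap_eq' (Subsingleton.elim _ _)
    exact isIntegral_trans (A := 𝓞 K) β' hint
  obtain ⟨β, hβ⟩ : ∃ β : 𝓞 L, (β : L) = β' := ⟨⟨β', hintZ⟩, rfl⟩
  have hpow : β ^ n = algebraMap (𝓞 K) (𝓞 L) m := by
    apply RingOfIntegers.ext
    have h1 : ((β ^ n : 𝓞 L) : L) = (β : L) ^ n := rfl
    rw [h1, hβ, hβn]
    rfl
  have hadj : IntermediateField.adjoin K {(β : L)} = ⊤ := by
    have hy2 : y ∈ IntermediateField.adjoin K {(β : L)} := by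
      have h1 : y = algebraMap K L ρ * (β : L) := by
        rw [hβ, hβ', ← mul_assoc, ← map_mul, mul_inv_cancel₀ hρ, map_one, one_mul]
      rw [h1]
      exact mul_mem (IntermediateField.algebraMap_mem _ _)
        (IntermediateField.mem_adjoin_simple_self K _)
    rw [eq_top_iff, ← hadj', IntermediateField.adjoin_le_iff]
    rintro z rfl
    exact hy2
  have hroot : aeval β g = 0 := by
    rw [hg, map_sub, map_pow, aeval_X, aeval_C, hpow, sub_self]
  have hβ0 : β ≠ 0 := by
    intro h0
    apply hm
    have h1 : β' = 0 := by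
      rw [← hβ, h0]
      rfl
    rw [h1, zero_pow hn0] at hβn
    exact ((map_eq_zero _).1 hβn.symm)
  have hder : aeval β (derivative g) ≠ 0 := by
    have h1 : derivative g = C (n : 𝓞 K) * X ^ (n - 1) := by
      rw [hg, derivative_sub, derivative_X_pow, derivative_C, sub_zero]
    rw [h1, map_mul, aeval_C, map_pow, aeval_X, map_natCast]
    exact mul_ne_zero (Nat.cast_ne_zero.2 hn0) (pow_ne_zero _ hβ0)
  have hA : 0 < B ^ ((1 : ℝ) / n) := Real.rpow_pos_of_pos hB _
  have hAn : (B ^ ((1 : ℝ) / n)) ^ n = B := by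
    rw [← Real.rpow_natCast, ← Real.rpow_mul hB.le, one_div, inv_mul_cancel₀ (by
      exact_mod_cast hn0), Real.rpow_one]
  have key := NRM.main K L n hn β hadj g hgm hgd hroot hder
    (fun _ => B ^ ((1 : ℝ) / n)) (fun _ => hA) (by
      intro v i hi
      have h0 : v ((0 : 𝓞 K) : K) = 0 := by
        have : ((0 : 𝓞 K) : K) = 0 := rfl
        rw [this]
        exact map_zero v
      rcases Nat.eq_zero_or_pos i with rfl | hi0
      · have h1 : g.coeff (n - 0) = 1 := by
          rw [Nat.sub_zero]
          have h3 := hgm.coeff_natDegree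
          rwa [hgd] at h3
        have h2 : ((1 : 𝓞 K) : K) = 1 := rfl
        rw [h1, h2, map_one, pow_zero]
      · rcases Nat.eq_or_lt_of_le hi with rfl | hlt
        · have h1 : g.coeff (i - i) = -m := by
            rw [hg, coeff_sub, coeff_X_pow, coeff_C, Nat.sub_self, if_neg (by omega), if_pos rfl,
              zero_sub]
          have h2 : ((-m : 𝓞 K) : K) = -(m : K) := rfl
          rw [h1, h2, hAn]
          have h3 : v (-(m : K)) = v (m : K) := map_neg_eq_map v.1 _
          rw [h3]
          exact hmB v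
        · have h1 : g.coeff (n - i) = 0 := by
            rw [hg, coeff_sub, coeff_X_pow, coeff_C, if_neg (by omega), if_neg (by omega),
              sub_zero]
          rw [h1, h0]
          positivity)
  have hsum : ∑ v : InfinitePlace K, (v.mult : ℝ) * log (B ^ ((1 : ℝ) / n)) =
      (finrank ℚ K : ℝ) * (1 / n * log B) := by
    rw [← Finset.sum_mul, Real.log_rpow hB]
    congr 1
    exact_mod_cast InfinitePlace.sum_mult_eq (K := K)
  rw [hsum] at key
  refine key.trans (le_of_eq ?_)
  ring

/-- The primitive element over the middle field. -/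
theorem adj_top {K K' L : Type} [Field K] [Field K'] [Field L] [Algebra K K'] [Algebra K' L]
    [Algebra K L] [IsScalarTower K K' L] (w : K') (y : L)
    (h : IntermediateField.adjoin K {algebraMap K' L w, y} = ⊤) :
    IntermediateField.adjoin K' {y} = ⊤ := by
  have h1 : IntermediateField.adjoin K {algebraMap K' L w, y} ≤
      (IntermediateField.adjoin K' {y}).restrictScalars K := by
    refine IntermediateField.adjoin_le_iff.2 ?_
    rintro z (hz | hz)
    · have hz' : z = algebraMap K' L w := hz
      rw [hz']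
      exact IntermediateField.algebraMap_mem (IntermediateField.adjoin K' {y}) w
    · have hz' : z = y := hz
      rw [hz']
      exact IntermediateField.mem_adjoin_simple_self K' y
  rw [h] at h1
  rw [eq_top_iff]
  intro z _
  exact h1 (show z ∈ (⊤ : IntermediateField K L) from trivial)

/-- The bound for a tower of abstract number fields. -/
theorem tower_le (K K' L : Type) [Field K] [NumberField K] [Field K'] [NumberField K'] [Field L]
    [NumberField L] [Algebra K K'] [Algebra K' L] [Algebra K L] [IsScalarTower K K' L]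
    (n : ℕ) (hn : 1 ≤ n) (w : K') (y : L) (hy : y ≠ 0) (ρ : K') (m : 𝓞 K')
    (h : y ^ n = algebraMap K' L (ρ ^ n * (m : K')))
    (hadj : IntermediateField.adjoin K {algebraMap K' L w, y} = ⊤)
    (B : ℝ) (hB : 0 < B) (hmB : ∀ v : InfinitePlace K', v (m : K') ≤ B) :
    log |(discr L : ℝ)| / finrank K L ≤ log |(discr K' : ℝ)| / finrank K K' +
      (finrank ℚ K : ℝ) * (((n : ℝ) - 1) / n * log B + (2 * log n + n * log 2)) := by
  have key := abs_le K' L n hn y hy ρ m h (adj_top w y hadj) B hB hmB
  have hd : finrank K K' * finrank K' L = finrank K L := finrank_mul_finrank _ _ _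
  have hd2 : finrank ℚ K * finrank K K' = finrank ℚ K' := by
    have : IsScalarTower ℚ K K' := IsScalarTower.of_algebraMap_eq' (Subsingleton.elim _ _)
    exact finrank_mul_finrank ℚ K K'
  have hfin : FiniteDimensional K K' := by
    have : IsScalarTower ℚ K K' := IsScalarTower.of_algebraMap_eq' (Subsingleton.elim _ _)
    exact FiniteDimensional.right ℚ K K'
  have hpos : (0 : ℝ) < finrank K K' := by exact_mod_cast finrank_pos
  have e1 : log |(discr L : ℝ)| / finrank K L =
      log |(discr L : ℝ)| / finrank K' L / finrank K K' := by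
    rw [← hd, Nat.cast_mul, div_div, mul_comm]
  rw [e1, div_le_iff₀ hpos, add_mul, div_mul_cancel₀ _ hpos.ne']
  refine key.trans (le_of_eq ?_)
  rw [← hd2, Nat.cast_mul]
  ring

theorem top_of {K E : Type} [Field K] [Field E] [Algebra K E] (w y : E)
    (w' y' : IntermediateField.adjoin K {w, y}) (hw : (w' : E) = w) (hy : (y' : E) = y) :
    IntermediateField.adjoin K {w', y'} =
      (⊤ : IntermediateField K (IntermediateField.adjoin K {w, y})) := by
  apply IntermediateField.map_injective (IntermediateField.adjoin K {w, y}).val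
  rw [IntermediateField.adjoin_map, Set.image_pair, ← AlgHom.fieldRange_eq_map,
    IntermediateField.fieldRange_val]
  have h1 : (IntermediateField.adjoin K {w, y}).val w' = w := hw
  have h2 : (IntermediateField.adjoin K {w, y}).val y' = y := hy
  rw [h1, h2]

theorem main : Pool.Agent.H455.WP.S_D2B := by
  intro K _ _ n w y ρ m hn hy h B hB hmB
  have hw0 : w ∈ resField K (w, 0) := IntermediateField.subset_adjoin K _ (by simp)
  have hwL : w ∈ resField K (w, y) := IntermediateField.subset_adjoin K _ (by simp)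
  have hyL : y ∈ resField K (w, y) := IntermediateField.subset_adjoin K _ (by simp)
  have hle : resField K (w, 0) ≤ resField K (w, y) := by
    refine IntermediateField.adjoin_le_iff.2 ?_
    rintro z (hz | hz)
    · have hz' : z = w := hz
      rw [hz']
      exact hwL
    · have hz' : z = 0 := hz
      rw [hz']
      exact zero_mem _
  let alg : Algebra (resField K (w, 0)) (resField K (w, y)) :=
    (IntermediateField.inclusion hle).toRingHom.toAlgebra
  have tow : IsScalarTower K (resField K (w, 0)) (resField K (w, y)) :=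
    IsScalarTower.of_algebraMap_eq' rfl
  exact tower_le K (resField K (w, 0)) (resField K (w, y)) n hn ⟨w, hw0⟩ ⟨y, hyL⟩
    (fun h0 => hy (congrArg Subtype.val h0)) ρ m (Subtype.ext h)
    (top_of w y _ _ rfl rfl) B hB hmB

end Pool.Agent.H455.WPX_D2B
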