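import Mathlib
import Pool.Agent.H455.WPX

/-!
# WPX-DEG: the degree
-/

set_option autoImplicit false

namespace Pool.Agent.H455.WPX_DEG

open NumberField Real Polynomial Module
open Pool.Agent.H505.VL Pool.Agent.H505.VL.Pt Pool.Agent.H455.WP

theorem finrank_le {K Ω : Type} [Field K] [Field Ω] [Algebra K Ω] (w y : Ω) (n m : ℕ)
    (hw : IsIntegral K w) (p : K[X]) (hp0 : p ≠ 0) (hp : aeval w p = 0) (hpn : p.natDegree ≤ n)
    (q : (IntermediateField.adjoin K {w})[X]) (hqm : q.Monic) (hq : aeval y q = 0)
    (hqn : q.natDegree ≤ m) :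
    finrank K (IntermediateField.adjoin K {w, y}) ≤ n * m := by
  have h1 : finrank K (IntermediateField.adjoin K {w}) ≤ n := by
    rw [IntermediateField.adjoin.finrank hw]
    exact (Polynomial.natDegree_le_natDegree (minpoly.degree_le_of_ne_zero K w hp0 hp)).trans hpn
  have hy : IsIntegral (IntermediateField.adjoin K {w}) y := ⟨q, hqm, hq⟩
  have h2 : finrank (IntermediateField.adjoin K {w})
      (IntermediateField.adjoin (IntermediateField.adjoin K {w}) {y}) ≤ m := by
    rw [IntermediateField.adjoin.finrank hy]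
    exact (Polynomial.natDegree_le_natDegree
      (minpoly.degree_le_of_ne_zero _ y hqm.ne_zero hq)).trans hqn
  have h3 := IntermediateField.adjoin_simple_adjoin_simple K w y
  have h4 : finrank K (IntermediateField.adjoin K {w}) *
      finrank (IntermediateField.adjoin K {w})
        (IntermediateField.adjoin (IntermediateField.adjoin K {w}) {y}) =
      finrank K (IntermediateField.adjoin (IntermediateField.adjoin K {w}) {y}) :=
    finrank_mul_finrank K _ _
  have h5 : finrank K (IntermediateField.adjoin K {w, y}) =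
      finrank K (IntermediateField.adjoin (IntermediateField.adjoin K {w}) {y}) := by
    rw [← h3]
    rfl
  rw [h5, ← h4]
  exact Nat.mul_le_mul h1 h2

theorem main : S_DEG := by
  intro K _ _ n e₁ e₂ u₀ f hn a b w y hw hy
  obtain ⟨s, hs⟩ : ∃ s : K, s = u₀ * ((a : K) / (b : K)) ^ (n - 1) := ⟨_, rfl⟩
  have hsw : algebraMap K (AlgebraicClosure K) s = (w + 1) ^ n - w ^ n := by
    unfold Eqw UU at hw
    rw [hw, hs, map_mul, map_pow, map_div₀, map_natCast, map_natCast]
  -- the polynomial of `w`
  have hp0 : ((X + 1) ^ n - X ^ n - C s : K[X]) ≠ 0 := by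
    intro h
    have h0 := congrArg (fun p => eval 0 p) h
    have h1 := congrArg (fun p => eval 1 p) h
    simp only [eval_sub, eval_pow, eval_add, eval_X, eval_one, eval_C, eval_zero] at h0 h1
    rw [zero_add, one_pow, zero_pow (by omega)] at h0
    rw [one_pow] at h1
    have h2 : ((2 : ℕ) : K) ^ n = ((2 : ℕ) : K) := by
      push_cast
      have h3 : (1 : K) + 1 = 2 := by norm_num
      rw [h3] at h1
      linear_combination h1 - h0
    rw [← Nat.cast_pow] at h2
    have h3 : 2 ^ n = 2 := Nat.cast_injective h2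
    have h4 : 2 ^ 3 ≤ 2 ^ n := Nat.pow_le_pow_right (by norm_num) hn
    omega
  have hpw : aeval w ((X + 1) ^ n - X ^ n - C s : K[X]) = 0 := by
    rw [map_sub, map_sub, map_pow, map_pow, map_add, aeval_X, map_one, aeval_C, hsw, sub_self]
  have hpn : ((X + 1) ^ n - X ^ n - C s : K[X]).natDegree ≤ n := by
    have h1 : ((X + 1) ^ n : K[X]).natDegree ≤ n := by
      refine natDegree_pow_le.trans ?_
      have h2 : (X + 1 : K[X]).natDegree ≤ 1 := by
        rw [← C_1]
        exact natDegree_X_add_C (1 : K) |>.le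
      calc n * (X + 1 : K[X]).natDegree ≤ n * 1 := Nat.mul_le_mul_left _ h2
        _ = n := mul_one n
    have h2 : (X ^ n : K[X]).natDegree ≤ n := natDegree_X_pow_le n
    have h3 : (C s : K[X]).natDegree ≤ n := by
      rw [natDegree_C]
      exact Nat.zero_le _
    exact (natDegree_sub_le _ _).trans (max_le ((natDegree_sub_le _ _).trans (max_le h1 h2)) h3)
  -- the polynomial of `y`
  have hwm : w ∈ IntermediateField.adjoin K ({w} : Set (AlgebraicClosure K)) :=
    IntermediateField.subset_adjoin K _ (Set.mem_singleton w)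
  have hxm : xw n e₁ e₂ w ∈ IntermediateField.adjoin K ({w} : Set (AlgebraicClosure K)) := by
    unfold xw UU
    exact div_mem (sub_mem (mul_mem (IntermediateField.algebraMap_mem _ _)
      (pow_mem (add_mem hwm (one_mem _)) _)) (mul_mem (IntermediateField.algebraMap_mem _ _)
      (pow_mem hwm _))) (sub_mem (pow_mem (add_mem hwm (one_mem _)) _) (pow_mem hwm _))
  obtain ⟨c, hc⟩ : ∃ c : IntermediateField.adjoin K ({w} : Set (AlgebraicClosure K)),
      (c : AlgebraicClosure K) = aeval (xw n e₁ e₂ w) f := by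
    refine ⟨aeval (⟨xw n e₁ e₂ w, hxm⟩ :
      IntermediateField.adjoin K ({w} : Set (AlgebraicClosure K))) f, ?_⟩
    exact (Polynomial.aeval_algebraMap_apply (AlgebraicClosure K)
      (⟨xw n e₁ e₂ w, hxm⟩ : IntermediateField.adjoin K ({w} : Set (AlgebraicClosure K))) f).symm
  have hn0 : n ≠ 0 := by omega
  exact finrank_le w y n n (Algebra.IsIntegral.isIntegral w) _ hp0 hpw hpn (X ^ n - C c)
    (monic_X_pow_sub_C c hn0)
    (by
      rw [map_sub, map_pow, aeval_X, aeval_C, hy, ← hc]
      exact sub_self _)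
    (natDegree_X_pow_sub_C).le

end Pool.Agent.H455.WPX_DEG
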