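import Pool.Agent.H455.WPX

/-!
# FI: heights, proximity functions and discriminants in larger fields (helper195)
-/

set_option autoImplicit false

namespace Pool.Agent.H455.WPX_FI

open NumberField Real Polynomial Module
open Pool.Agent.H505.VL Pool.Agent.H505.VL.Pt
open Pool.Agent.Results.MP_e44225_nt

variable {K : Type} [Field K] [NumberField K]

/-- all the comparisons for two residue fields -/
theorem cmp (P P' : AlgebraicClosure K × AlgebraicClosure K)
    (h : resField K P ≤ resField K P') (T : Finset ℕ) (hT : ∀ p ∈ T, p.Prime) :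
    ∃ (e : ℕ) (j : resField K P →+* resField K P'), 0 < e ∧
      finrank K (resField K P') = e * finrank K (resField K P) ∧
      (∀ z, ((j z : resField K P') : AlgebraicClosure K) = (z : AlgebraicClosure K)) ∧
      (∀ x : resField K P, Height.logHeight₁ (j x) = e * Height.logHeight₁ x) ∧
      (∀ x : resField K P, (∑ w : InfinitePlace (resField K P'), (w.mult : ℝ) * weil w none (j x)) +
          ∑ w ∈ placesOver (resField K P') T, weil w none (j x) =
        e * ((∑ w : InfinitePlace (resField K P), (w.mult : ℝ) * weil w none x) +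
          ∑ w ∈ placesOver (resField K P) T, weil w none x)) ∧
      (e : ℝ) * log |(discr (resField K P) : ℝ)| ≤ log |(discr (resField K P') : ℝ)| := by
  obtain ⟨e, he, h1, h2, h3, h4⟩ := Pool.Agent.H455.WP_BC.core (resField K P) (resField K P')
    (IntermediateField.inclusion h).toRingHom T hT
  refine ⟨e, (IntermediateField.inclusion h).toRingHom, he, ?_, fun z => rfl, h2, h3, h4⟩
  have g1 : finrank ℚ K * finrank K (resField K P) = finrank ℚ (resField K P) :=
    Module.finrank_mul_finrank ℚ K (resField K P)
  have g2 : finrank ℚ K * finrank K (resField K P') = finrank ℚ (resField K P') :=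
    Module.finrank_mul_finrank ℚ K (resField K P')
  have g0 : 0 < finrank ℚ K := finrank_pos
  have h5 : finrank ℚ K * finrank K (resField K P') =
      finrank ℚ K * (e * finrank K (resField K P)) := by
    rw [g2, h1, ← g1]
    ring
  exact Nat.eq_of_mul_eq_mul_left g0 h5

theorem quot_eq {e a b : ℕ} (he : 0 < e) (ha : 0 < a) (hb : b = e * a) {s t : ℝ}
    (hst : t = e * s) : t / b = s / a := by
  have he' : (e : ℝ) ≠ 0 := by exact_mod_cast he.ne'
  rw [hst, hb]
  push_cast
  exact mul_div_mul_left _ _ he'

theorem heightA_le (P P' : AlgebraicClosure K × AlgebraicClosure K)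
    (h : resField K P ≤ resField K P') (h1 : P.1 = P'.1) : heightA K P' = heightA K P := by
  obtain ⟨e, j, he, hd, hj, hh, -, -⟩ := cmp P P' h ∅ (by simp)
  have h2 : j (coordX K P) = coordX K P' := by
    apply Subtype.ext
    rw [hj]
    exact h1
  unfold heightA
  have h3 := hh (coordX K P)
  rw [h2] at h3
  exact quot_eq he finrank_pos hd h3

theorem prox_le (T : Finset ℕ) (hT : ∀ p ∈ T, p.Prime)
    (P P' : AlgebraicClosure K × AlgebraicClosure K)
    (h : resField K P ≤ resField K P') (h1 : P.1 = P'.1) :
    prox K T {none} P' = prox K T {none} P := by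
  obtain ⟨e, j, he, hd, hj, -, hh, -⟩ := cmp P P' h T hT
  have h2 : j (coordX K P) = coordX K P' := by
    apply Subtype.ext
    rw [hj]
    exact h1
  unfold prox
  rw [Finset.sum_singleton, Finset.sum_singleton]
  have h3 := hh (coordX K P)
  rw [h2] at h3
  exact quot_eq he finrank_pos hd h3

theorem le_res (x y : AlgebraicClosure K) : resField K (x, 0) ≤ resField K (x, y) := by
  rw [IntermediateField.adjoin_le_iff]
  rintro z (rfl | rfl)
  · exact IntermediateField.subset_adjoin K _ (by simp)
  · exact zero_mem _

theorem main : Pool.Agent.H455.WP.S_FI := by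
  intro K _ _
  refine ⟨?_, ?_, ?_, ?_⟩
  · intro P P' h
    obtain ⟨e, j, he, hd, hj, -, -, hh⟩ := cmp P P' h ∅ (by simp)
    have p1 : 0 < finrank K (resField K P) := finrank_pos
    have q1 : (0 : ℝ) < finrank K (resField K P) := by exact_mod_cast p1
    have he' : (0 : ℝ) < e := by exact_mod_cast he
    constructor
    · unfold logDisc
      have h1 : log |(discr (resField K P) : ℝ)| / (finrank K (resField K P) : ℝ) =
          (e : ℝ) * log |(discr (resField K P) : ℝ)| / (finrank K (resField K P') : ℝ) :=
        (quot_eq he p1 hd rfl).symm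
      rw [h1]
      exact div_le_div_of_nonneg_right hh (Nat.cast_nonneg _)
    · rw [hd]
      exact Nat.le_mul_of_pos_left _ he
  · intro x y y'
    rw [heightA_le (x, 0) (x, y) (le_res x y) rfl, heightA_le (x, 0) (x, y') (le_res x y') rfl]
  · intro T hT x y y'
    rw [prox_le T hT (x, 0) (x, y) (le_res x y) rfl,
      prox_le T hT (x, 0) (x, y') (le_res x y') rfl]
  · intro T P
    have h1 := Pool.Agent.H455.WP_HT.main.2 (resField K P) T (coordX K P)
    unfold prox heightA
    refine div_le_div_of_nonneg_right ?_ (Nat.cast_nonneg _)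
    exact h1

end Pool.Agent.H455.WPX_FI
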