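import Pool.Agent.H455.WPX
import Pool.Agent.H455.WP_HT
import Pool.Agent.H455.WPE_HTR

/-!
# H2A: upper bound for the height of `x` in an extension (helper271)
-/

set_option autoImplicit false

namespace Pool.Agent.H455.WPX_H2A

open NumberField Real Polynomial Module
open Pool.Agent.H455.WP

section ops

variable {K : Type} [Field K] [NumberField K] {L : Type} [Field L] [NumberField L] [Algebra K L]

theorem hb_add {A c d : ℝ} {z w : L} (hA : (finrank K L : ℝ) ≤ A)
    (hz : Height.logHeight₁ z ≤ c * A) (hw : Height.logHeight₁ w ≤ d * A) :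
    Height.logHeight₁ (z + w) ≤ ((finrank ℚ K : ℝ) * log 2 + c + d) * A := by
  have h1 := Height.logHeight₁_add_le z w
  rw [Pool.Agent.H455.WPE_HTR.weight (k := K) L] at h1
  have hlog : 0 ≤ Real.log 2 := Real.log_nonneg (by norm_num)
  have hK : (0 : ℝ) ≤ finrank ℚ K * Real.log 2 := mul_nonneg (Nat.cast_nonneg _) hlog
  have h2 := mul_le_mul_of_nonneg_left hA hK
  linarith

theorem hb_sub {A c d : ℝ} {z w : L} (hA : (finrank K L : ℝ) ≤ A)
    (hz : Height.logHeight₁ z ≤ c * A) (hw : Height.logHeight₁ w ≤ d * A) :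
    Height.logHeight₁ (z - w) ≤ ((finrank ℚ K : ℝ) * log 2 + c + d) * A := by
  rw [sub_eq_add_neg]
  refine hb_add hA hz ?_
  rw [Height.logHeight₁_neg]
  exact hw

theorem hb_mul {A c d : ℝ} {z w : L}
    (hz : Height.logHeight₁ z ≤ c * A) (hw : Height.logHeight₁ w ≤ d * A) :
    Height.logHeight₁ (z * w) ≤ (c + d) * A := by
  have h1 := Height.logHeight₁_mul_le z w
  linarith

theorem hb_div {A c d : ℝ} {z w : L}
    (hz : Height.logHeight₁ z ≤ c * A) (hw : Height.logHeight₁ w ≤ d * A) :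
    Height.logHeight₁ (z / w) ≤ (c + d) * A := by
  rw [div_eq_mul_inv]
  refine hb_mul hz ?_
  rw [Height.logHeight₁_inv]
  exact hw

theorem hb_pow {A c : ℝ} {z : L} (n : ℕ) (hz : Height.logHeight₁ z ≤ c * A) :
    Height.logHeight₁ (z ^ n) ≤ (n * c) * A := by
  rw [Height.logHeight₁_pow, mul_assoc]
  exact mul_le_mul_of_nonneg_left hz (Nat.cast_nonneg _)

theorem hb_const {A : ℝ} (hA : (finrank K L : ℝ) ≤ A) (e : K) :
    Height.logHeight₁ (algebraMap K L e) ≤ Height.logHeight₁ e * A := by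
  rw [Pool.Agent.H455.WPE_HTR.height_algebraMap, mul_comm]
  exact mul_le_mul_of_nonneg_left hA (Height.zero_le_logHeight₁ _)

/-- the height of the rational function -/
theorem hb_xL {A : ℝ} (n : ℕ) (e₁ e₂ : K) (w : L) (hA : (finrank K L : ℝ) ≤ A)
    (hw : Height.logHeight₁ w ≤ 1 * A) :
    Height.logHeight₁ (xL n e₁ e₂ w) ≤
      (((finrank ℚ K : ℝ) * log 2 +
        (Height.logHeight₁ e₂ + n * ((finrank ℚ K : ℝ) * log 2 + 1 + Height.logHeight₁ (1 : K))) +
        (Height.logHeight₁ e₁ + n * 1)) +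
      ((finrank ℚ K : ℝ) * log 2 +
        n * ((finrank ℚ K : ℝ) * log 2 + 1 + Height.logHeight₁ (1 : K)) + n * 1)) * A := by
  have h1 : Height.logHeight₁ (w + 1) ≤
      ((finrank ℚ K : ℝ) * log 2 + 1 + Height.logHeight₁ (1 : K)) * A := by
    refine hb_add hA hw ?_
    have := hb_const (L := L) hA (1 : K)
    rwa [map_one] at this
  have h2 := hb_pow n h1
  have h3 := hb_pow n hw
  have h4 := hb_sub hA (hb_mul (hb_const hA e₂) h2) (hb_mul (hb_const hA e₁) h3)
  have h5 := hb_sub hA h2 h3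
  exact hb_div h4 h5

theorem fin_int (v : FinitePlace L) {z : L} (hz : IsIntegral ℤ z) : v z ≤ 1 := by
  obtain ⟨z', rfl⟩ : ∃ z' : 𝓞 L, (z' : L) = z := ⟨⟨z, hz⟩, rfl⟩
  rw [← FinitePlace.norm_embedding_eq]
  exact FinitePlace.norm_le_one L v.maximalIdeal z'

/-- the height of an integral element which is bounded at the infinite places -/
theorem ht_int {z : L} (hz : IsIntegral ℤ z) {B : ℝ} (hB : ∀ v : InfinitePlace L, log⁺ (v z) ≤ B) :
    Height.logHeight₁ z ≤ (finrank ℚ L : ℝ) * B := by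
  rw [NumberField.logHeight₁_eq]
  have h1 : ∀ v : FinitePlace L, log⁺ (v z) = 0 := by
    intro v
    rw [posLog_eq_zero_iff, abs_of_nonneg (apply_nonneg v _)]
    exact fin_int v hz
  simp only [h1, finsum_zero, add_zero]
  have h2 : ∑ v : InfinitePlace L, (v.mult : ℝ) * log⁺ (v z) ≤
      ∑ v : InfinitePlace L, (v.mult : ℝ) * B :=
    Finset.sum_le_sum fun v _ => mul_le_mul_of_nonneg_left (hB v) (Nat.cast_nonneg _)
  refine h2.trans (le_of_eq ?_)
  rw [← Finset.sum_mul]
  congr 1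
  exact_mod_cast InfinitePlace.sum_mult_eq (K := L)

end ops

theorem main : Pool.Agent.H455.WP.S_BDW → Pool.Agent.H455.WP.S_INTW → Pool.Agent.H455.WP.S_H2A := by
  intro hB hI K _ _ n e₁ e₂ u₀ hn hu₀
  obtain ⟨R, hR, hBD⟩ := hB K n u₀ hn
  obtain ⟨c, hc, hINT⟩ := hI K n u₀ hn
  have hc1 : (1 : ℝ) ≤ c := by exact_mod_cast hc
  have hlc : 0 ≤ log (c : ℝ) := log_nonneg hc1
  have hlR : 0 ≤ log⁺ ((c : ℝ) * R) := posLog_nonneg
  have hl2 : 0 ≤ log (2 : ℝ) := log_nonneg (by norm_num)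
  have hK0 : (0 : ℝ) ≤ finrank ℚ K := Nat.cast_nonneg _
  set C₂ : ℝ := ((finrank ℚ K : ℝ) * log 2 +
        (Height.logHeight₁ e₂ + n * ((finrank ℚ K : ℝ) * log 2 + 1 + Height.logHeight₁ (1 : K))) +
        (Height.logHeight₁ e₁ + n * 1)) +
      ((finrank ℚ K : ℝ) * log 2 +
        n * ((finrank ℚ K : ℝ) * log 2 + 1 + Height.logHeight₁ (1 : K)) + n * 1) with hC₂
  have hC₂0 : 0 ≤ C₂ := by
    have h1 := Height.zero_le_logHeight₁ e₁
    have h2 := Height.zero_le_logHeight₁ e₂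
    have h3 := Height.zero_le_logHeight₁ (1 : K)
    rw [hC₂]
    positivity
  set C₁ : ℝ := (finrank ℚ K : ℝ) * (2 + log⁺ ((c : ℝ) * R) + log c) with hC₁
  have hC₁0 : 0 ≤ C₁ := by
    rw [hC₁]
    positivity
  refine ⟨C₂ * (C₁ + 1) + 1, by positivity, ?_⟩
  intro L _ _ _ a b w hb hba hab hw
  have hb1 : (1 : ℝ) ≤ b := by exact_mod_cast hb
  have hlb : 0 ≤ log (b : ℝ) := log_nonneg hb1
  have hLK0 : (0 : ℝ) ≤ finrank K L := Nat.cast_nonneg _
  have hdeg : (finrank ℚ L : ℝ) = finrank ℚ K * finrank K L := by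
    rw [← Module.finrank_mul_finrank ℚ K L]
    push_cast
    rfl
  -- the integral element
  have hint : IsIntegral ℤ ((c : L) * b * w) := by
    obtain ⟨G, hG, -, hroot, -⟩ := hINT L a b w hb hw
    have h1 : IsIntegral (𝓞 K) ((c : L) * b * w) := by
      refine ⟨G, hG, ?_⟩
      rw [aeval_map_algebraMap] at hroot
      exact hroot
    exact isIntegral_trans (R := ℤ) (A := 𝓞 K) _ h1
  have hcb : 1 ≤ c * b := Nat.mul_pos hc hb
  have hcbR : ((c * b : ℕ) : L) = (c : L) * b := by push_cast; rfl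
  have h1 : Height.logHeight₁ ((c : L) * b * w) ≤
      (finrank ℚ L : ℝ) * (log b + log⁺ ((c : ℝ) * R)) := by
    refine ht_int hint fun v => ?_
    rw [map_mul, map_mul, InfinitePlace.map_natCast, InfinitePlace.map_natCast]
    have h2 : (c : ℝ) * b * v w = b * (c * v w) := by ring
    rw [h2]
    refine posLog_nat_mul.trans ?_
    refine add_le_add le_rfl ?_
    have h3 : (c : ℝ) * v w ≤ c * R := mul_le_mul_of_nonneg_left
      (hBD L a b w hb hba hab hw v) (by positivity)
    have h4 : 0 ≤ (c : ℝ) * v w := mul_nonneg (by positivity) (apply_nonneg v w)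
    exact Real.posLog_le_posLog h4 h3
  have h2 : Height.logHeight₁ w ≤ Height.logHeight₁ ((c : L) * b * w) +
      (finrank ℚ L : ℝ) * log ((c * b : ℕ) : ℝ) := by
    have hne : ((c * b : ℕ) : L) ≠ 0 := by
      have : c * b ≠ 0 := by omega
      exact_mod_cast this
    have h3 : w = ((c : L) * b * w) * ((c * b : ℕ) : L)⁻¹ := by
      rw [← hcbR]
      field_simp
    have h4 := Height.logHeight₁_mul_le ((c : L) * b * w) ((c * b : ℕ) : L)⁻¹
    rw [← h3, Height.logHeight₁_inv, Pool.Agent.H455.WP_HT.ht_nat _ hcb] at h4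
    exact h4
  have h3 : log ((c * b : ℕ) : ℝ) = log c + log b := by
    push_cast
    rw [log_mul (by positivity) (by positivity)]
  have h4 : Height.logHeight₁ w ≤ C₁ * (finrank K L * (1 + log b)) := by
    refine h2.trans ?_
    rw [h3, hC₁]
    rw [hdeg] at h1 ⊢
    have h5 : (finrank ℚ K : ℝ) * finrank K L * (log b + log⁺ ((c : ℝ) * R)) +
        (finrank ℚ K : ℝ) * finrank K L * (log c + log b) ≤
        (finrank ℚ K : ℝ) * (2 + log⁺ ((c : ℝ) * R) + log c) * (finrank K L * (1 + log b)) := by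
      have e1 : (finrank ℚ K : ℝ) * (2 + log⁺ ((c : ℝ) * R) + log c) *
          (finrank K L * (1 + log b)) = (finrank ℚ K : ℝ) * finrank K L *
          ((log b + log⁺ ((c : ℝ) * R)) + (log c + log b) + (2 + log⁺ ((c : ℝ) * R) * log b +
            log c * log b)) := by ring
      rw [e1, ← mul_add]
      refine mul_le_mul_of_nonneg_left ?_ (mul_nonneg hK0 hLK0)
      have := mul_nonneg hlR hlb
      have := mul_nonneg hlc hlb
      linarith
    linarith
  set A : ℝ := (C₁ + 1) * (finrank K L * (1 + log b)) with hA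
  have hx0 : 0 ≤ (finrank K L : ℝ) * (1 + log b) := by positivity
  have hxK : (finrank K L : ℝ) ≤ finrank K L * (1 + log b) := by
    have := mul_nonneg hLK0 hlb
    linarith
  have hA1 : (finrank K L : ℝ) ≤ A := by
    rw [hA]
    have := mul_nonneg hC₁0 hx0
    linarith
  have hA2 : Height.logHeight₁ w ≤ 1 * A := by
    rw [hA]
    linarith
  have h6 := hb_xL n e₁ e₂ w hA1 hA2
  rw [← hC₂] at h6
  refine h6.trans ?_
  rw [hA]
  have e2 : (C₂ * (C₁ + 1) + 1) * (finrank K L : ℝ) * (1 + log b) =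
      C₂ * ((C₁ + 1) * (finrank K L * (1 + log b))) + finrank K L * (1 + log b) := by ring
  rw [e2]
  linarith

end Pool.Agent.H455.WPX_H2A
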