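import Mathlib
import Pool.Agent.H455.WPX

/-!
# `S_INTW` (helper80)
-/

set_option autoImplicit false
set_option linter.all false

namespace Pool.Agent.H455.WPX_INTW

open NumberField Polynomial
open Pool.Agent.H455.WP

/-- the lower part of the polynomial -/
noncomputable def low {R : Type} [CommRing R] (N t : ℕ) (κ : R) : R[X] :=
  ∑ i ∈ Finset.range (N + 1), C (((N + 2).choose (i + 2) * (N + 2) ^ i * t ^ (i + 1) : ℕ) : R) *
    X ^ (N - i) - C κ

theorem low_deg {R : Type} [CommRing R] (N t : ℕ) (κ : R) :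
    (low N t κ).degree < ((N + 1 : ℕ) : WithBot ℕ) := by
  have h1 : (low N t κ).degree ≤ ((N : ℕ) : WithBot ℕ) := by
    unfold low
    refine (degree_sub_le _ _).trans (max_le ?_ ?_)
    · refine (degree_sum_le _ _).trans (Finset.sup_le fun i hi => ?_)
      refine (degree_C_mul_X_pow_le _ _).trans ?_
      exact_mod_cast Nat.sub_le N i
    · refine degree_C_le.trans ?_
      exact_mod_cast Nat.zero_le N
  refine lt_of_le_of_lt h1 ?_
  exact_mod_cast Nat.lt_succ_self N

/-- the basic identity -/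
theorem iden {A : Type} [CommRing A] (N t : ℕ) (x : A) :
    (((N + 2) * ((N + 2) * t) : ℕ) : A) * (x ^ (N + 1) +
      ∑ i ∈ Finset.range (N + 1), (((N + 2).choose (i + 2) * (N + 2) ^ i * t ^ (i + 1) : ℕ) : A) *
        x ^ (N - i)) = (x + (((N + 2) * t : ℕ) : A)) ^ (N + 2) - x ^ (N + 2) := by
  have h := add_pow (((((N + 2) * t : ℕ) : ℕ) : A)) x (N + 2)
  rw [Finset.sum_range_succ', Finset.sum_range_succ'] at h
  have e1 : ∀ i ∈ Finset.range (N + 1), (((N + 2) * t : ℕ) : A) ^ (i + 1 + 1) *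
      x ^ (N + 2 - (i + 1 + 1)) * ((N + 2).choose (i + 1 + 1) : A) =
      (((N + 2) * ((N + 2) * t) : ℕ) : A) * ((((N + 2).choose (i + 2) * (N + 2) ^ i * t ^ (i + 1) : ℕ) : A) *
        x ^ (N - i)) := by
    intro i _
    have e2 : N + 2 - (i + 1 + 1) = N - i := by omega
    rw [e2]
    push_cast
    rw [mul_pow]
    ring
  rw [Finset.sum_congr rfl e1, ← Finset.mul_sum, zero_add, pow_zero, pow_one, Nat.choose_one_right,
    Nat.choose_zero_right] at h
  have e3 : N + 2 - 1 = N + 1 := by omega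
  rw [e3, Nat.sub_zero] at h
  rw [add_comm x, h]
  push_cast
  ring

theorem main : Pool.Agent.H455.WP.S_INTW := by
  intro K _ _ n u₀ hn
  obtain ⟨N, rfl⟩ : ∃ N, n = N + 2 := ⟨n - 2, by omega⟩
  obtain ⟨c', hc', κ, hκ⟩ : ∃ c' : ℕ, 0 < c' ∧ ∃ κ : 𝓞 K, algebraMap (𝓞 K) K κ = c' * u₀ := by
    have halg : IsAlgebraic ℤ u₀ :=
      (IsFractionRing.isAlgebraic_iff ℤ ℚ K).2 (Algebra.IsAlgebraic.isAlgebraic u₀)
    obtain ⟨y, hy, hint⟩ := halg.exists_integral_multiple
    rw [zsmul_eq_mul] at hint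
    obtain ⟨m, hm⟩ := Int.eq_nat_or_neg y
    have hm0 : 0 < m := by
      rcases Nat.eq_zero_or_pos m with h | h
      · exfalso
        rw [h] at hm
        apply hy
        rcases hm with hm | hm
        · exact hm
        · rw [hm]
          rfl
      · exact h
    have h1 : IsIntegral ℤ ((m : K) * u₀) := by
      rcases hm with h | h
      · rw [h, Int.cast_natCast] at hint
        exact hint
      · rw [h, Int.cast_neg, Int.cast_natCast] at hint
        have := hint.neg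
        rwa [neg_mul, neg_neg] at this
    exact ⟨m, hm0, ⟨_, h1⟩, rfl⟩
  refine ⟨(N + 2) * c', by positivity, ?_⟩
  intro L _ _ _ a b w hb hw
  have hb0 : (b : L) ≠ 0 := by exact_mod_cast hb.ne'
  have hc0 : (c' : L) ≠ 0 := by exact_mod_cast hc'.ne'
  have hN0 : ((N : L) + 2) ≠ 0 := by
    have : ((N + 2 : ℕ) : L) ≠ 0 := by exact_mod_cast (by omega : N + 2 ≠ 0)
    exact_mod_cast this
  obtain ⟨κ', hκ'⟩ : ∃ κ' : 𝓞 K, κ' = ((((N + 2) * c') ^ N * a ^ (N + 1) : ℕ) : 𝓞 K) * κ := ⟨_, rfl⟩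
  obtain ⟨t, ht⟩ : ∃ t : ℕ, t = c' * b := ⟨_, rfl⟩
  have hd := low_deg N t κ'
  refine ⟨X ^ (N + 1) + low N t κ', monic_X_pow_add hd, ?_, ?_⟩
  · refine natDegree_eq_of_degree_eq_some ?_
    rw [degree_add_eq_left_of_degree_lt (by rw [degree_X_pow]; exact hd), degree_X_pow]
    rfl
  -- the identity for polynomials
  have key : (((N + 2) * ((N + 2) * t) : ℕ) : K[X]) *
      ((X ^ (N + 1) + low N t κ').map (algebraMap (𝓞 K) K)) =
      (X + (((N + 2) * t : ℕ) : K[X])) ^ (N + 2) - X ^ (N + 2) -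
        (((N + 2) * ((N + 2) * t) : ℕ) : K[X]) * C (algebraMap (𝓞 K) K κ') := by
    rw [← iden N t (X : K[X]), ← mul_sub]
    congr 1
    unfold low
    rw [Polynomial.map_add, Polynomial.map_pow, Polynomial.map_X, Polynomial.map_sub,
      Polynomial.map_sum, Polynomial.map_C, add_sub_assoc]
    congr 2
    refine Finset.sum_congr rfl fun i _ => ?_
    rw [Polynomial.map_mul, Polynomial.map_pow, Polynomial.map_X, Polynomial.map_C, map_natCast,
      map_natCast]
  obtain ⟨G, hG⟩ : ∃ G : K[X], G = (X ^ (N + 1) + low N t κ').map (algebraMap (𝓞 K) K) := ⟨_, rfl⟩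
  rw [← hG] at key ⊢
  obtain ⟨β, hβ⟩ : ∃ β : L, β = (((N + 2) * c' : ℕ) : L) * b * w := ⟨_, rfl⟩
  have hβ2 : β = (((N + 2) * t : ℕ) : L) * w := by
    rw [hβ, ht]
    push_cast
    ring
  have ht0 : 0 < t := by
    rw [ht]
    positivity
  have hD0 : (((N + 2) * ((N + 2) * t) : ℕ) : L) ≠ 0 := by
    have : (N + 2) * ((N + 2) * t) ≠ 0 := by positivity
    exact_mod_cast this
  rw [← hβ]
  have hE : (w + 1) ^ (N + 2) - w ^ (N + 2) =
      algebraMap K L u₀ * ((a : L) / (b : L)) ^ (N + 1) := hw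
  -- the value
  have v1 := congrArg (fun P : K[X] => aeval β P) key
  simp only [map_mul, map_sub, map_pow, map_add, map_natCast, aeval_X, aeval_C] at v1
  have v2 : algebraMap K L (algebraMap (𝓞 K) K κ') =
      ((((N + 2) * c') ^ N * a ^ (N + 1) : ℕ) : L) * (c' * algebraMap K L u₀) := by
    rw [hκ', map_mul, map_mul, hκ, map_mul, map_natCast, map_natCast, map_natCast]
  have v3 : (β + (((N + 2) * t : ℕ) : L)) ^ (N + 2) - β ^ (N + 2) =
      (((N + 2) * ((N + 2) * t) : ℕ) : L) * algebraMap K L (algebraMap (𝓞 K) K κ') := by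
    have e1 : (β + (((N + 2) * t : ℕ) : L)) ^ (N + 2) - β ^ (N + 2) =
        (((N + 2) * t : ℕ) : L) ^ (N + 2) * ((w + 1) ^ (N + 2) - w ^ (N + 2)) := by
      rw [hβ2, mul_sub, ← mul_pow, ← mul_pow]
      ring
    obtain ⟨E, hEd⟩ : ∃ E : L, E = ((N : L) + 2) * c' := ⟨_, rfl⟩
    have e2 : (((N + 2) * t : ℕ) : L) = E * b := by
      rw [ht, hEd]
      push_cast
      ring
    have e3 : (((N + 2) * ((N + 2) * t) : ℕ) : L) = (N + 2) * (E * b) := by
      rw [Nat.cast_mul, e2]
      push_cast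
      ring
    have e4 : ((((N + 2) * c') ^ N * a ^ (N + 1) : ℕ) : L) = E ^ N * a ^ (N + 1) := by
      rw [hEd]
      push_cast
      ring
    rw [e1, hE, v2, e2, e3, e4, div_pow]
    calc (E * (b : L)) ^ (N + 2) * (algebraMap K L u₀ * ((a : L) ^ (N + 1) / (b : L) ^ (N + 1)))
        = E ^ (N + 1) * E * b * (algebraMap K L u₀ * (a : L) ^ (N + 1)) *
          ((b : L) ^ (N + 1) / (b : L) ^ (N + 1)) := by ring
      _ = E ^ (N + 1) * (((N : L) + 2) * c') * b * (algebraMap K L u₀ * (a : L) ^ (N + 1)) := by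
          rw [div_self (pow_ne_zero _ hb0), ← hEd, mul_one]
      _ = _ := by ring
  have v4 : aeval β G = 0 := by
    rw [v3, sub_self] at v1
    exact (mul_eq_zero.1 v1).resolve_left hD0
  -- the derivative
  have d1 := congrArg (fun P : K[X] => aeval β (derivative P)) key
  simp only [derivative_mul, derivative_natCast, zero_mul, zero_add, derivative_sub,
    derivative_pow, derivative_add, derivative_X, add_zero, mul_one, derivative_C, mul_zero,
    sub_zero, map_mul, map_sub, map_pow, map_add, map_natCast, aeval_X, aeval_C] at d1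
  refine ⟨v4, ?_⟩
  have d2 : (((N + 2) * ((N + 2) * t) : ℕ) : L) * aeval β (derivative G) =
      (((N + 2) * ((N + 2) * t) : ℕ) : L) * (((((N + 2) * c' : ℕ) : L) * b) ^ (N + 2 - 2) *
        ((w + 1) ^ (N + 2 - 1) - w ^ (N + 2 - 1))) := by
    rw [d1]
    have e1 : N + 2 - 1 = N + 1 := by omega
    have e2 : N + 2 - 2 = N := by omega
    have e3 : (((N + 2) * c' : ℕ) : L) * b = (((N + 2) * t : ℕ) : L) := by
      rw [ht]
      push_cast
      ring
    obtain ⟨D, hD⟩ : ∃ D : L, D = (((N + 2) * t : ℕ) : L) := ⟨_, rfl⟩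
    have e4 : (((N + 2) * ((N + 2) * t) : ℕ) : L) = ((N + 2 : ℕ) : L) * D := by
      rw [hD, Nat.cast_mul]
    have e5 : D * w + D = D * (w + 1) := by ring
    rw [e1, e2, e3, hβ2, e4, ← hD, e5, mul_pow, mul_pow]
    ring
  exact mul_left_cancel₀ hD0 d2

end Pool.Agent.H455.WPX_INTW
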