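import Mathlib
import Pool.Agent.H455.WPX

/-!
# WPX-P2A: lower bound for the proximity function in an extension
-/

set_option autoImplicit false

namespace Pool.Agent.H455.WPX_P2A

open NumberField Real Module
open Pool.Agent.H455.WP
open Pool.Agent.H505.VL

section
variable {L : Type} [Field L] [NumberField L]

theorem weil_eq (v : FinitePlace L) (z : L) : weil v none z = log (max (v z) 1) := rfl

theorem le_weil (v : FinitePlace L) {z : L} (hz : z ≠ 0) : log (v z) ≤ weil v none z := by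
  rw [weil_eq]
  exact Real.log_le_log (FinitePlace.pos_iff.2 hz) (le_max_left _ _)

theorem neg_le_weil (v : FinitePlace L) {z : L} (hz : z ≠ 0) : -log (v z) ≤ weil v none z⁻¹ := by
  have h := le_weil v (inv_ne_zero hz)
  rwa [map_inv₀, Real.log_inv] at h

theorem weil_nonneg (v : FinitePlace L) (z : L) : 0 ≤ weil v none z := by
  rw [weil_eq]
  exact Real.log_nonneg (le_max_right _ _)

theorem sum_le (v : FinitePlace L) (s : Finset ℕ) (f : ℕ → L) (C : ℝ) (hC : 0 ≤ C)
    (h : ∀ i ∈ s, v (f i) ≤ C) : v (∑ i ∈ s, f i) ≤ C := by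
  classical
  induction s using Finset.induction_on with
  | empty =>
    rw [Finset.sum_empty, map_zero]
    exact hC
  | insert i s hi ih =>
    rw [Finset.sum_insert hi]
    exact (FinitePlace.add_le v _ _).trans
      (max_le (h i (Finset.mem_insert_self i s)) (ih fun j hj => h j (Finset.mem_insert_of_mem hj)))

/-- `v (U(w)) ≤ max(1, v w)^(n-1)` -/
theorem UU_le (v : FinitePlace L) (n : ℕ) (w : L) : v (UU n w) ≤ (max (v w) 1) ^ (n - 1) := by
  have hM : (0 : ℝ) ≤ max (v w) 1 := zero_le_one.trans (le_max_right _ _)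
  have h1 : v (w + 1) ≤ max (v w) 1 := by
    have h := FinitePlace.add_le v w 1
    rwa [map_one] at h
  have h2 : UU n w = ∑ i ∈ Finset.range n, (w + 1) ^ i * w ^ (n - 1 - i) := by
    have h := geom_sum₂_mul (w + 1) w n
    rw [add_sub_cancel_left, mul_one] at h
    exact h.symm
  rw [h2]
  refine sum_le v _ _ _ (pow_nonneg hM _) fun i hi => ?_
  have hi' := Finset.mem_range.1 hi
  rw [map_mul, map_pow, map_pow]
  have e : (max (v w) 1) ^ (n - 1) = (max (v w) 1) ^ i * (max (v w) 1) ^ (n - 1 - i) := by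
    rw [← pow_add]
    congr 1
    omega
  rw [e]
  exact mul_le_mul (pow_le_pow_left₀ (apply_nonneg v _) h1 _)
    (pow_le_pow_left₀ (apply_nonneg v _) (le_max_left _ _) _) (pow_nonneg (apply_nonneg v _) _)
    (pow_nonneg hM _)

/-- the main inequality at a finite place -/
theorem key (v : FinitePlace L) (n : ℕ) (f₁ f₂ w : L) :
    v (f₂ - f₁) * (max (v w) 1) ^ n ≤ max (v f₁) 1 * max (v f₂) 1 *
      max (v (f₂ * (w + 1) ^ n - f₁ * w ^ n)) (v (UU n w)) := by
  set V := f₂ * (w + 1) ^ n - f₁ * w ^ n with hV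
  set u := UU n w with hu
  have hu1 : u = (w + 1) ^ n - w ^ n := rfl
  have hB : 0 ≤ max (v V) (v u) := (apply_nonneg v _).trans (le_max_left _ _)
  have hE1 : 1 ≤ max (v f₁) 1 := le_max_right _ _
  have hE2 : 1 ≤ max (v f₂) 1 := le_max_right _ _
  have hM : (0 : ℝ) ≤ max (v w) 1 := zero_le_one.trans (le_max_right _ _)
  have gen : ∀ g : L, v (V + -(g * u)) ≤ max (v g) 1 * max (v V) (v u) := by
    intro g
    refine (FinitePlace.add_le v _ _).trans (max_le ?_ ?_)
    · calc v V ≤ max (v V) (v u) := le_max_left _ _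
        _ = 1 * max (v V) (v u) := (one_mul _).symm
        _ ≤ _ := mul_le_mul_of_nonneg_right (le_max_right _ _) hB
    · rw [map_neg_eq_map, map_mul]
      exact mul_le_mul (le_max_left _ _) (le_max_right _ _) (apply_nonneg v _)
        (zero_le_one.trans (le_max_right _ _))
  have h2 : max (v w) 1 ≤ max (v w) (v (w + 1)) := by
    refine max_le (le_max_left _ _) ?_
    have h := FinitePlace.add_le v (w + 1) (-w)
    rw [map_neg_eq_map, add_neg_cancel_comm, map_one, max_comm] at h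
    exact h
  have hd : 0 ≤ v (f₂ - f₁) := apply_nonneg v _
  rcases le_max_iff.1 h2 with h | h
  · have e : (f₂ - f₁) * w ^ n = V + -(f₂ * u) := by
      rw [hV, hu1]
      ring
    have h3 : v (f₂ - f₁) * (max (v w) 1) ^ n ≤ v (V + -(f₂ * u)) := by
      rw [← e, map_mul, map_pow]
      exact mul_le_mul_of_nonneg_left (pow_le_pow_left₀ hM h _) hd
    refine h3.trans ((gen f₂).trans (mul_le_mul_of_nonneg_right ?_ hB))
    exact le_mul_of_one_le_left (zero_le_one.trans hE2) hE1
  · have e : (f₂ - f₁) * (w + 1) ^ n = V + -(f₁ * u) := by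
      rw [hV, hu1]
      ring
    have h3 : v (f₂ - f₁) * (max (v w) 1) ^ n ≤ v (V + -(f₁ * u)) := by
      rw [← e, map_mul, map_pow]
      exact mul_le_mul_of_nonneg_left (pow_le_pow_left₀ hM h _) hd
    refine h3.trans ((gen f₁).trans (mul_le_mul_of_nonneg_right ?_ hB))
    exact le_mul_of_one_le_right (zero_le_one.trans hE1) hE2

theorem loc (v : FinitePlace L) (n : ℕ) (hn : 3 ≤ n) {f₁ f₂ u₀ w : L} (hf : f₁ ≠ f₂)
    (hu₀ : u₀ ≠ 0) {a b : ℕ} (ha : 0 < a) (hb : 0 < b) (hc : Nat.Coprime a b)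
    (h : UU n w = u₀ * ((a : L) / (b : L)) ^ (n - 1)) :
    -log (v (b : L)) + ((n : ℝ) - 1) * -log (v (a : L)) -
      ((n : ℝ) * weil v none u₀⁻¹ + weil v none u₀ + weil v none f₁ + weil v none f₂ +
        weil v none (f₂ - f₁)⁻¹) ≤
      weil v none ((f₂ * (w + 1) ^ n - f₁ * w ^ n) / UU n w) := by
  have haK : (a : L) ≠ 0 := by exact_mod_cast ha.ne'
  have hbK : (b : L) ≠ 0 := by exact_mod_cast hb.ne'
  have hva : 0 < v (a : L) := FinitePlace.pos_iff.2 haK
  have hvb : 0 < v (b : L) := FinitePlace.pos_iff.2 hbK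
  have hvu₀ : 0 < v u₀ := FinitePlace.pos_iff.2 hu₀
  have hd : f₂ - f₁ ≠ 0 := sub_ne_zero.2 hf.symm
  have hvd : 0 < v (f₂ - f₁) := FinitePlace.pos_iff.2 hd
  have hu : UU n w ≠ 0 := by
    rw [h]
    exact mul_ne_zero hu₀ (pow_ne_zero _ (div_ne_zero haK hbK))
  have hvu : 0 < v (UU n w) := FinitePlace.pos_iff.2 hu
  have hM1 : 1 ≤ max (v w) 1 := le_max_right _ _
  have hM : (0 : ℝ) < max (v w) 1 := one_pos.trans_le hM1
  set x := (f₂ * (w + 1) ^ n - f₁ * w ^ n) / UU n w with hx
  have hX : (0 : ℝ) < max (v x) 1 := one_pos.trans_le (le_max_right _ _)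
  have hE1 : (0 : ℝ) < max (v f₁) 1 := one_pos.trans_le (le_max_right _ _)
  have hE2 : (0 : ℝ) < max (v f₂) 1 := one_pos.trans_le (le_max_right _ _)
  have h1 := key v n f₁ f₂ w
  have h2 : max (v (f₂ * (w + 1) ^ n - f₁ * w ^ n)) (v (UU n w)) =
      max (v x) 1 * v (UU n w) := by
    rw [max_mul_of_nonneg _ _ hvu.le, one_mul, ← map_mul, hx, div_mul_cancel₀ _ hu]
  rw [h2] at h1
  have h3 := Real.log_le_log (mul_pos hvd (pow_pos hM n)) h1
  rw [Real.log_mul hvd.ne' (pow_pos hM n).ne', Real.log_pow,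
    Real.log_mul (mul_pos hE1 hE2).ne' (mul_pos hX hvu).ne', Real.log_mul hE1.ne' hE2.ne',
    Real.log_mul hX.ne' hvu.ne'] at h3
  have h4 := Real.log_le_log hvu (UU_le v n w)
  rw [Real.log_pow] at h4
  have hn1 : ((n - 1 : ℕ) : ℝ) = (n : ℝ) - 1 := by
    rw [Nat.cast_sub (by omega), Nat.cast_one]
  have h5 : log (v (UU n w)) = log (v u₀) +
      ((n : ℝ) - 1) * (log (v (a : L)) - log (v (b : L))) := by
    rw [h, map_mul, map_pow, map_div₀, Real.log_mul hvu₀.ne' (pow_pos (div_pos hva hvb) _).ne',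
      Real.log_pow, Real.log_div hva.ne' hvb.ne', hn1]
  rw [hn1] at h4
  have hn3 : (3 : ℝ) ≤ n := by exact_mod_cast hn
  have h6 := le_weil v hu₀
  have h7 := neg_le_weil v hu₀
  have h8 := neg_le_weil v hd
  have h9 : 0 ≤ log (max (v w) 1) := Real.log_nonneg hM1
  have h10 := weil_nonneg v u₀⁻¹
  have hla : log (v (a : L)) ≤ 0 :=
    Real.log_nonpos hva.le (Pool.Agent.H455.WP_PROX.fin_nat_le v a)
  have hlb : log (v (b : L)) ≤ 0 :=
    Real.log_nonpos hvb.le (Pool.Agent.H455.WP_PROX.fin_nat_le v b)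
  have h11 : -log (v (b : L)) - weil v none u₀⁻¹ ≤ log (max (v w) 1) := by
    rcases Pool.Agent.H455.WP_PROX.fin_coprime v hc with hh | hh
    · rw [hh, Real.log_one] at h5
      rw [h5] at h4
      have h12 : -weil v none u₀⁻¹ ≤
          ((n : ℝ) - 1) * (log (max (v w) 1) + log (v (b : L))) := by
        have e : ((n : ℝ) - 1) * (log (max (v w) 1) + log (v (b : L))) =
          ((n : ℝ) - 1) * log (max (v w) 1) - ((n : ℝ) - 1) * (0 - log (v (b : L))) := by ring
        rw [e]
        linarith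
      rcases le_or_gt 0 (log (max (v w) 1) + log (v (b : L))) with h13 | h13
      · linarith
      · have h14 : ((n : ℝ) - 1) * (log (max (v w) 1) + log (v (b : L))) ≤
            1 * (log (max (v w) 1) + log (v (b : L))) :=
          mul_le_mul_of_nonpos_right (by linarith) h13.le
        linarith
    · rw [hh, Real.log_one]
      linarith
  have h12 : (n : ℝ) * (-log (v (b : L)) - weil v none u₀⁻¹) ≤ (n : ℝ) * log (max (v w) 1) :=
    mul_le_mul_of_nonneg_left h11 (Nat.cast_nonneg _)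
  rw [weil_eq v x, weil_eq v f₁, weil_eq v f₂]
  rw [h5] at h3
  have e1 : (n : ℝ) * (-log (v (b : L)) - weil v none u₀⁻¹) -
      ((n : ℝ) - 1) * (log (v (a : L)) - log (v (b : L))) =
      -log (v (b : L)) + ((n : ℝ) - 1) * -log (v (a : L)) - (n : ℝ) * weil v none u₀⁻¹ := by
    ring
  linarith

end

theorem main : Pool.Agent.H455.WP.S_P2A := by
  intro K _ _ n e₁ e₂ u₀ hn he hu₀ T hT
  refine ⟨∑ v ∈ placesOver K T, ((n : ℝ) * weil v none u₀⁻¹ + weil v none u₀ +
    weil v none e₁ + weil v none e₂ + weil v none (e₂ - e₁)⁻¹), ?_⟩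
  intro L _ _ _ a b w hb hab _ hc hTa hTb hw
  have ha : 0 < a := hb.trans hab
  have hmap : ∀ z : K, ∑ v ∈ placesOver L T, weil v none (algebraMap K L z) =
      (finrank K L : ℝ) * ∑ v ∈ placesOver K T, weil v none z := fun z =>
    Pool.Agent.H505.VL.PRF.main K L T hT none z (Option.some_ne_none z)
  have h1 : ∑ v ∈ placesOver L T, (-log (v (b : L)) + ((n : ℝ) - 1) * -log (v (a : L)) -
      ((n : ℝ) * weil v none (algebraMap K L u₀⁻¹) + weil v none (algebraMap K L u₀) +
        weil v none (algebraMap K L e₁) + weil v none (algebraMap K L e₂) +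
        weil v none (algebraMap K L (e₂ - e₁)⁻¹))) ≤
      ∑ v ∈ placesOver L T, weil v none (xL n e₁ e₂ w) := by
    refine Finset.sum_le_sum fun v _ => ?_
    have h2 := loc v n hn (f₁ := algebraMap K L e₁) (f₂ := algebraMap K L e₂)
      (u₀ := algebraMap K L u₀) (w := w) (fun h => he ((algebraMap K L).injective h))
      (fun h => hu₀ ((map_eq_zero (algebraMap K L)).1 h)) ha hb hc hw
    rw [map_inv₀, map_inv₀, map_sub]
    exact h2
  have h3 : ∑ v ∈ placesOver L T, -log (v (a : L)) = (finrank ℚ L : ℝ) * log a :=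
    Pool.Agent.H455.WP_PROX.sum_log ha.ne' hT hTa
  have h4 : ∑ v ∈ placesOver L T, -log (v (b : L)) = (finrank ℚ L : ℝ) * log b :=
    Pool.Agent.H455.WP_PROX.sum_log hb.ne' hT hTb
  rw [Finset.sum_sub_distrib, Finset.sum_add_distrib, ← Finset.mul_sum, h3, h4,
    Finset.sum_add_distrib, Finset.sum_add_distrib, Finset.sum_add_distrib,
    Finset.sum_add_distrib, ← Finset.mul_sum, hmap, hmap, hmap, hmap, hmap] at h1
  rw [Finset.sum_add_distrib, Finset.sum_add_distrib, Finset.sum_add_distrib,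
    Finset.sum_add_distrib, ← Finset.mul_sum]
  have h5 : log b ≤ log a :=
    Real.log_le_log (by exact_mod_cast hb) (by exact_mod_cast hab.le)
  have hn3 : (3 : ℝ) ≤ n := by exact_mod_cast hn
  have h6 : ((n : ℝ) - 1) * ((finrank ℚ L : ℝ) * log b) ≤
      ((n : ℝ) - 1) * ((finrank ℚ L : ℝ) * log a) :=
    mul_le_mul_of_nonneg_left (mul_le_mul_of_nonneg_left h5 (Nat.cast_nonneg _)) (by linarith)
  refine le_trans (le_of_eq_of_le ?_ (sub_le_sub_right (add_le_add_right h6 _) _)) h1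
  ring

end Pool.Agent.H455.WPX_P2A
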