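import Mathlib
import Pool.Agent.H455.WPX

/-!
# Task ROOT (helper640, for helper455): a root near a critical point
-/

set_option autoImplicit false

namespace Pool.Agent.H455.WPX_ROOT

open Polynomial
open Pool.Agent.H455.WP

theorem pow_card_le (m : ℝ) (hm : 0 ≤ m) (s : Multiset ℝ) :
    (∀ y ∈ s, m ≤ y) → m ^ (Multiset.card s) ≤ s.prod := by
  induction s using Multiset.induction_on with
  | empty => simp
  | cons a s ih =>
    intro h
    rw [Multiset.card_cons, Multiset.prod_cons, pow_succ, mul_comm]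
    have h1 : m ≤ a := h a (Multiset.mem_cons_self a s)
    have h2 := ih (fun y hy => h y (Multiset.mem_cons_of_mem hy))
    exact mul_le_mul h1 h2 (by positivity) (hm.trans h1)

/-- the absolute value after `σ` -/
noncomputable def nh {L : Type} [Field L] (σ : L →+* ℂ) : L →* ℝ where
  toFun z := ‖σ z‖
  map_one' := by simp
  map_mul' x y := by simp

variable {L : Type} [Field L] [CharZero L]

/-- the polynomial `(Y + 1) ^ n - Y ^ n - s` -/
noncomputable def QQ (n : ℕ) (s : L) : L[X] := (X + 1) ^ n - X ^ n - C s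

omit [CharZero L] in
theorem QQ_eval (n : ℕ) (s w : L) : (QQ n s).eval w = UU n w - s := by
  unfold QQ UU
  simp

omit [CharZero L] in
theorem QQ_coeff {n : ℕ} (hn : 3 ≤ n) (s : L) : (QQ n s).coeff (n - 1) = n := by
  unfold QQ
  rw [coeff_sub, coeff_sub, coeff_X_add_one_pow, coeff_X_pow, coeff_C,
    if_neg (by omega : ¬ n - 1 = n), if_neg (by omega : ¬ n - 1 = 0), sub_zero, sub_zero]
  have h : n.choose (n - 1) = n := by
    obtain ⟨m, rfl⟩ : ∃ m, n = m + 1 := ⟨n - 1, by omega⟩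
    rw [Nat.add_sub_cancel]
    exact Nat.choose_succ_self_right m
  rw [h]

theorem QQ_deg {n : ℕ} (hn : 3 ≤ n) (s : L) : (QQ n s).natDegree = n - 1 := by
  apply natDegree_eq_of_le_of_coeff_ne_zero
  · rw [natDegree_le_iff_coeff_eq_zero]
    intro N hN
    unfold QQ
    rw [coeff_sub, coeff_sub, coeff_X_add_one_pow, coeff_X_pow, coeff_C,
      if_neg (by omega : ¬ N = 0), sub_zero]
    rcases eq_or_ne N n with h | h
    · rw [if_pos h, h, Nat.choose_self, Nat.cast_one, sub_self]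
    · rw [if_neg h, Nat.choose_eq_zero_of_lt (by omega), Nat.cast_zero, sub_zero]
  · rw [QQ_coeff hn]
    exact_mod_cast (by omega : n ≠ 0)

theorem main : S_ROOT := by
  intro K _ _ n w₀ σ hn
  classical
  have hb0 : 0 ≤ ‖σ (algebraMap K (AlgebraicClosure K) (UU n w₀))‖ := norm_nonneg _
  refine ⟨‖σ (algebraMap K (AlgebraicClosure K) (UU n w₀))‖ * (3 ^ (n - 1) * n) + 1, by positivity,
    ?_⟩
  intro a b hb hab hab3
  set L := AlgebraicClosure K
  set w₁ : L := algebraMap K L w₀ with hw₁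
  set u₁ : L := algebraMap K L (UU n w₀) with hu₁
  have hu₁' : UU n w₁ = u₁ := by
    rw [hu₁, hw₁]
    unfold UU
    simp
  set s : L := u₁ * ((a : L) / (b : L)) ^ (n - 1) with hs
  set Q : L[X] := QQ n s with hQ
  have hQd : Q.natDegree = n - 1 := QQ_deg hn s
  have hQl : Q.leadingCoeff = n := by
    rw [leadingCoeff, hQd, QQ_coeff hn]
  have hcard : Multiset.card Q.roots = n - 1 := by
    rw [IsAlgClosed.card_roots_eq_natDegree, hQd]
  have hQ0 : Q ≠ 0 := by
    intro h
    rw [h, natDegree_zero] at hQd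
    omega
  have hne : Q.roots.toFinset.Nonempty := by
    rw [Finset.nonempty_iff_ne_empty]
    intro h
    rw [Multiset.toFinset_eq_empty] at h
    rw [h, Multiset.card_zero] at hcard
    omega
  obtain ⟨w, hw, hmin⟩ := Finset.exists_min_image Q.roots.toFinset (fun z => ‖σ z - σ w₁‖) hne
  rw [Multiset.mem_toFinset] at hw
  have hroot : Q.eval w = 0 := (mem_roots hQ0).1 hw
  refine ⟨w, ?_, ?_⟩
  · unfold Eqw
    rw [hQ, QQ_eval] at hroot
    exact sub_eq_zero.1 hroot
  · have hev := (IsAlgClosed.splits Q).eval_eq_prod_roots w₁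
    rw [hQl] at hev
    have h1 := congrArg (nh σ) hev
    rw [map_mul, map_multiset_prod, Multiset.map_map] at h1
    have h2 : ‖σ w - σ w₁‖ ^ (n - 1) ≤ (Q.roots.map ((nh σ) ∘ fun z => w₁ - z)).prod := by
      rw [← hcard, ← Multiset.card_map ((nh σ) ∘ fun z => w₁ - z) Q.roots]
      apply pow_card_le _ (norm_nonneg _)
      intro y hy
      obtain ⟨z, hz, rfl⟩ := Multiset.mem_map.1 hy
      have h3 := hmin z (Multiset.mem_toFinset.2 hz)
      refine h3.trans (le_of_eq ?_)
      simp only [nh, Function.comp_apply, MonoidHom.coe_mk, OneHom.coe_mk]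
      rw [map_sub, norm_sub_rev]
    have h4 : (nh σ) (Q.eval w₁) = ‖σ u₁‖ * (((a : ℝ) / b) ^ (n - 1) - 1) := by
      rw [hQ, QQ_eval, hu₁', hs]
      have e : u₁ - u₁ * ((a : L) / (b : L)) ^ (n - 1) = u₁ * (1 - ((a : L) / (b : L)) ^ (n - 1)) := by
        ring
      rw [e, map_mul]
      simp only [nh, MonoidHom.coe_mk, OneHom.coe_mk]
      have e2 : σ (1 - ((a : L) / (b : L)) ^ (n - 1)) =
          (((1 - ((a : ℝ) / b) ^ (n - 1) : ℝ)) : ℂ) := by
        simp
      rw [e2, Complex.norm_real, Real.norm_eq_abs, abs_sub_comm]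
      have h5 : (1 : ℝ) ≤ ((a : ℝ) / b) ^ (n - 1) := by
        apply one_le_pow₀
        rw [one_le_div (by exact_mod_cast hb)]
        exact_mod_cast hab.le
      rw [abs_of_nonneg (by linarith)]
    have h6 : (nh σ) (n : L) = n := by
      simp [nh]
    rw [h4, h6] at h1
    have hbR : (0 : ℝ) < b := by exact_mod_cast hb
    have haR : (0 : ℝ) < a := by exact_mod_cast (hb.trans hab)
    have hba : (b : ℝ) < a := by exact_mod_cast hab
    have hab3R : (a : ℝ) ≤ 3 * b := by exact_mod_cast hab3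
    -- (a / b) ^ (n - 1) - 1 ≤ 3 ^ (n - 1) * n * (a - b) / a
    have h7 : ((a : ℝ) / b) ^ (n - 1) - 1 ≤ 3 ^ (n - 1) * n * (((a : ℝ) - b) / a) := by
      have e : ((a : ℝ) / b) ^ (n - 1) - 1 =
          ((a : ℝ) / b) ^ (n - 1) * (1 - ((b : ℝ) / a) ^ (n - 1)) := by
        rw [mul_sub, mul_one, ← mul_pow]
        have : (a : ℝ) / b * (b / a) = 1 := by field_simp
        rw [this, one_pow]
      have h8 : 1 - ((b : ℝ) / a) ^ (n - 1) ≤ n * (((a : ℝ) - b) / a) := by
        have h9 := one_add_mul_le_pow (a := (b : ℝ) / a - 1)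
          (by have : 0 ≤ (b : ℝ) / a := by positivity
              linarith) (n - 1)
        rw [add_sub_cancel] at h9
        have h10 : ((n - 1 : ℕ) : ℝ) ≤ n := by exact_mod_cast Nat.sub_le n 1
        have h11 : 0 ≤ ((a : ℝ) - b) / a := div_nonneg (by linarith) haR.le
        have h12 : (b : ℝ) / a - 1 = -(((a : ℝ) - b) / a) := by
          field_simp
          ring
        rw [h12] at h9
        nlinarith
      have h13 : ((a : ℝ) / b) ^ (n - 1) ≤ 3 ^ (n - 1) := by
        apply pow_le_pow_left₀ (by positivity)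
        rw [div_le_iff₀ hbR]
        exact hab3R
      have h14 : 0 ≤ ((a : ℝ) - b) / a := div_nonneg (by linarith) haR.le
      rw [e]
      calc ((a : ℝ) / b) ^ (n - 1) * (1 - ((b : ℝ) / a) ^ (n - 1))
          ≤ ((a : ℝ) / b) ^ (n - 1) * (n * (((a : ℝ) - b) / a)) :=
            mul_le_mul_of_nonneg_left h8 (by positivity)
        _ ≤ 3 ^ (n - 1) * (n * (((a : ℝ) - b) / a)) :=
            mul_le_mul_of_nonneg_right h13 (by positivity)
        _ = _ := by ring
    have hP0 : 0 ≤ (Q.roots.map ((nh σ) ∘ fun z => w₁ - z)).prod :=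
      le_trans (by positivity) h2
    have hn1 : (1 : ℝ) ≤ n := by exact_mod_cast (by omega : 1 ≤ n)
    have h15 : (Q.roots.map ((nh σ) ∘ fun z => w₁ - z)).prod ≤
        n * (Q.roots.map ((nh σ) ∘ fun z => w₁ - z)).prod := by nlinarith
    have h16 : ‖σ u₁‖ * (((a : ℝ) / b) ^ (n - 1) - 1) ≤
        ‖σ u₁‖ * (3 ^ (n - 1) * n * (((a : ℝ) - b) / a)) :=
      mul_le_mul_of_nonneg_left h7 (norm_nonneg _)
    have h17 : 0 ≤ ((a : ℝ) - b) / a := div_nonneg (by linarith) haR.le
    calc ‖σ w - σ w₁‖ ^ (n - 1) ≤ _ := h2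
      _ ≤ _ := h15
      _ = ‖σ u₁‖ * (((a : ℝ) / b) ^ (n - 1) - 1) := h1.symm
      _ ≤ ‖σ u₁‖ * (3 ^ (n - 1) * n * (((a : ℝ) - b) / a)) := h16
      _ ≤ (‖σ u₁‖ * (3 ^ (n - 1) * n) + 1) * (((a : ℝ) - b) / a) := by
        nlinarith

end Pool.Agent.H455.WPX_ROOT
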