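import Pool.Agent.H455.WPX

/-!
# SPL2: a number field which contains two zeros of `f` and a critical point
-/

set_option autoImplicit false

namespace Pool.Agent.H455.WPX_SPL2

open NumberField Polynomial Module

/-- Two different zeros give two linear factors. -/
lemma two {K : Type} [Field K] {g : K[X]} (hg : g ≠ 0) {a b : K} (hab : a ≠ b)
    (ha : g.eval a = 0) (hb : g.eval b = 0) :
    ∃ F : K[X], F.natDegree + 2 = g.natDegree ∧ g = (X - C a) * (X - C b) * F := by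
  obtain ⟨g1, h1⟩ := dvd_iff_isRoot.2 ha
  have hb1 : g1.eval b = 0 := by
    rw [h1, eval_mul, eval_sub, eval_X, eval_C] at hb
    exact (mul_eq_zero.1 hb).resolve_left (sub_ne_zero.2 hab.symm)
  obtain ⟨g2, h2⟩ := dvd_iff_isRoot.2 hb1
  have h4 : g = (X - C a) * (X - C b) * g2 := by
    rw [h1, h2]; ring
  have hg2 : g2 ≠ 0 := by
    rintro rfl
    rw [mul_zero] at h4
    exact hg h4
  refine ⟨g2, ?_, h4⟩
  conv_rhs => rw [h4]
  rw [natDegree_mul (mul_ne_zero (X_sub_C_ne_zero a) (X_sub_C_ne_zero b)) hg2,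
    natDegree_mul (X_sub_C_ne_zero a) (X_sub_C_ne_zero b), natDegree_X_sub_C, natDegree_X_sub_C]
  omega

/-- A critical point. -/
lemma crit {L : Type} [Field L] [CharZero L] [IsAlgClosed L] (n : ℕ) (hn : 3 ≤ n) :
    ∃ w : L, w ≠ 0 ∧ (w + 1) ^ (n - 1) = w ^ (n - 1) := by
  have hm : ((n - 1 : ℕ) : L) ≠ 0 := by
    rw [Nat.cast_ne_zero]
    omega
  have : NeZero ((n - 1 : ℕ) : L) := ⟨hm⟩
  obtain ⟨ζ, hζ⟩ := HasEnoughRootsOfUnity.exists_primitiveRoot L (n - 1)
  have h1 : ζ ≠ 1 := hζ.ne_one (by omega)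
  have h2 : ζ - 1 ≠ 0 := sub_ne_zero.2 h1
  refine ⟨(ζ - 1)⁻¹, inv_ne_zero h2, ?_⟩
  have h3 : (ζ - 1)⁻¹ + 1 = ζ * (ζ - 1)⁻¹ := by
    field_simp
    ring
  rw [h3, mul_pow, hζ.pow_eq_one, one_mul]

/-- The number field. -/
theorem main : Pool.Agent.H455.WP.S_SPL2 := by
  classical
  intro k _ _ n f hn hf hdeg
  set Ω := AlgebraicClosure k with hΩ
  have hfm : (f.map (algebraMap k Ω)).Separable := hf.map
  have hcard : 1 < (f.map (algebraMap k Ω)).roots.toFinset.card := by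
    rw [Multiset.toFinset_card_of_nodup (nodup_roots hfm),
      ← (IsAlgClosed.splits (f.map (algebraMap k Ω))).natDegree_eq_card_roots, natDegree_map]
    omega
  obtain ⟨e₁, h₁, e₂, h₂, h₁₂⟩ := Finset.one_lt_card.1 hcard
  have hroot : ∀ e ∈ (f.map (algebraMap k Ω)).roots.toFinset, aeval e f = 0 := by
    intro e he
    rw [Multiset.mem_toFinset] at he
    have := isRoot_of_mem_roots he
    rwa [IsRoot.def, eval_map_algebraMap] at this
  obtain ⟨w', hw0, hw⟩ := crit (L := Ω) n hn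
  set K := IntermediateField.adjoin k ({e₁, e₂, w'} : Set Ω) with hK
  have hfin : FiniteDimensional k K :=
    IntermediateField.finiteDimensional_adjoin (fun x _ => Algebra.IsIntegral.isIntegral x)
  have hnf : NumberField K := NumberField.of_module_finite k K
  have m₁ : e₁ ∈ K := IntermediateField.subset_adjoin k _ (by simp)
  have m₂ : e₂ ∈ K := IntermediateField.subset_adjoin k _ (by simp)
  have mw : w' ∈ K := IntermediateField.subset_adjoin k _ (by simp)
  set f₁ : K := ⟨e₁, m₁⟩ with hf₁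
  set f₂ : K := ⟨e₂, m₂⟩ with hf₂
  set w₀ : K := ⟨w', mw⟩ with hw₀
  have hval : ∀ a : K, aeval (algebraMap K Ω a) f = 0 → (f.map (algebraMap k K)).eval a = 0 := by
    intro a ha
    rw [eval_map_algebraMap]
    exact (aeval_algebraMap_eq_zero_iff Ω a f).1 ha
  have n₁₂ : f₁ ≠ f₂ := fun h => h₁₂ (congrArg Subtype.val h)
  have hne : f.map (algebraMap k K) ≠ 0 := by
    rw [Ne, Polynomial.map_eq_zero]
    rintro rfl
    simp at hdeg
  obtain ⟨F, hF1, hF2⟩ := two hne n₁₂ (hval f₁ (hroot e₁ h₁)) (hval f₂ (hroot e₂ h₂))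
  have hw1 : (w₀ + 1) ^ (n - 1) = w₀ ^ (n - 1) := by
    apply Subtype.val_injective
    exact hw
  have hw2 : w₀ ≠ 0 := fun h => hw0 (congrArg Subtype.val h)
  refine ⟨K, inferInstance, hnf, inferInstance, f₁, f₂, w₀, F, n₁₂, hw1, ?_, ?_, hF2⟩
  · obtain ⟨m, rfl⟩ : ∃ m, n = m + 1 := ⟨n - 1, by omega⟩
    rw [Nat.add_sub_cancel] at hw1
    have : Pool.Agent.H455.WP.UU (m + 1) w₀ = w₀ ^ m := by
      unfold Pool.Agent.H455.WP.UU
      rw [pow_succ, pow_succ, hw1]
      ring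
    rw [this]
    exact pow_ne_zero m hw2
  · rw [hF1, natDegree_map]

end Pool.Agent.H455.WPX_SPL2
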