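import Mathlib
import Pool.Agent.H455.WPX

/-!
# The curves `y ^ n = f(x)`: the failure over `K`
-/

set_option autoImplicit false

namespace Pool.Agent.H455.WP

open NumberField Real Polynomial Module Filter
open Pool.Agent.H505.VL Pool.Agent.H505.VL.Pt

theorem map_UU {R S : Type} [CommRing R] [CommRing S] (g : R →+* S) (n : ℕ) (w : R) :
    g (UU n w) = UU n (g w) := by
  simp [UU]

section basics
variable {K : Type} [Field K] [NumberField K]

theorem mem_left (x y : AlgebraicClosure K) : x ∈ resField K (x, y) :=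
  IntermediateField.subset_adjoin K _ (by simp)

theorem mem_right (x y : AlgebraicClosure K) : y ∈ resField K (x, y) :=
  IntermediateField.subset_adjoin K _ (by simp)

theorem EqL_of_Eqw {n : ℕ} {u₀ : K} {a b : ℕ} {w : AlgebraicClosure K} (h : Eqw n u₀ a b w)
    (L : IntermediateField K (AlgebraicClosure K)) (hw : w ∈ L) :
    EqL n u₀ a b (⟨w, hw⟩ : L) := by
  unfold EqL
  apply Subtype.val_injective
  have h1 : ((UU n (⟨w, hw⟩ : L) : L) : AlgebraicClosure K) = UU n w :=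
    map_UU (algebraMap L (AlgebraicClosure K)) n _
  change ((UU n (⟨w, hw⟩ : L) : L) : AlgebraicClosure K) = _
  rw [h1, h]
  push_cast
  rfl

theorem coe_xL {n : ℕ} (e₁ e₂ : K) {w : AlgebraicClosure K}
    (L : IntermediateField K (AlgebraicClosure K)) (hw : w ∈ L) :
    ((xL n e₁ e₂ (⟨w, hw⟩ : L) : L) : AlgebraicClosure K) = xw n e₁ e₂ w := by
  have h1 : ((UU n (⟨w, hw⟩ : L) : L) : AlgebraicClosure K) = UU n w :=
    map_UU (algebraMap L (AlgebraicClosure K)) n _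
  unfold xL xw
  rw [← h1]
  push_cast
  rfl

theorem xw_mem {n : ℕ} (e₁ e₂ : K) {w : AlgebraicClosure K}
    (L : IntermediateField K (AlgebraicClosure K)) (hw : w ∈ L) : xw n e₁ e₂ w ∈ L := by
  rw [← coe_xL e₁ e₂ L hw]
  exact Subtype.property _

theorem finrank_pos' (L : IntermediateField K (AlgebraicClosure K)) [NumberField L]
    [FiniteDimensional K L] : (0 : ℝ) < finrank K L := by
  exact_mod_cast finrank_pos

end basics

/-- D2 from D2A and D2B -/
theorem D2 (hD2A : S_D2A) (hD2B : S_D2B) (K : Type) [Field K] [NumberField K] (n : ℕ)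
    (e₁ e₂ u₀ : K) (F f : K[X]) (hn : 3 ≤ n) (hu₀ : u₀ ≠ 0)
    (hf : f = (X - C e₁) * (X - C e₂) * F) (T : Finset ℕ) (hT : ∀ p ∈ T, p.Prime) :
    ∃ c : ℝ, ∀ (a b : ℕ) (w y : AlgebraicClosure K), 0 < b → b < a → a ≤ 3 * b →
      a.primeFactors ⊆ T → b.primeFactors ⊆ T → Eqw n u₀ a b w →
      y ≠ 0 → y ^ n = aeval (xw n e₁ e₂ w) f →
      logDisc K (w, y) ≤ logDisc K (w, 0) + c +
        (finrank ℚ K : ℝ) * ((n : ℝ) - 1) * F.natDegree * log b := by
  obtain ⟨B, hB0, hB⟩ := hD2A K n e₁ e₂ u₀ F f hn hu₀ hf T hT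
  refine ⟨(finrank ℚ K : ℝ) * (((n : ℝ) - 1) / n * log B + (2 * log n + n * log 2)), ?_⟩
  intro a b w y hb hab hab3 haT hbT hw hy hyf
  have hwL : w ∈ resField K (w, 0) := mem_left w 0
  obtain ⟨ρ, m, h1, h2⟩ := hB (resField K (w, 0)) a b ⟨w, hwL⟩ hb hab hab3 haT hbT
    (EqL_of_Eqw hw _ hwL)
  have hb0 : (0 : ℝ) < b := by exact_mod_cast hb
  have hn0 : (0 : ℝ) < n := by
    have : 0 < n := by omega
    exact_mod_cast this
  have h3 : y ^ n = ((ρ ^ n * (m : resField K (w, 0)) : resField K (w, 0)) :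
      AlgebraicClosure K) := by
    rw [hyf, ← h1, ← coe_xL e₁ e₂ (resField K (w, 0)) hwL]
    exact aeval_algebraMap_apply (AlgebraicClosure K) (xL n e₁ e₂ (⟨w, hwL⟩ : resField K (w, 0))) f
  have h4 := hD2B K n w y ρ m (by omega) hy h3 (B * (b : ℝ) ^ (n * F.natDegree)) (by positivity) h2
  rw [log_mul hB0.ne' (by positivity), log_pow] at h4
  push_cast at h4
  have h5 : (finrank ℚ K : ℝ) *
        (((n : ℝ) - 1) / n * (log B + (n : ℝ) * F.natDegree * log b) +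
          (2 * log n + n * log 2)) =
      (finrank ℚ K : ℝ) * (((n : ℝ) - 1) / n * log B + (2 * log n + n * log 2)) +
        (finrank ℚ K : ℝ) * ((n : ℝ) - 1) * F.natDegree * log b := by
    field_simp
    ring
  rw [h5] at h4
  linarith

/-- P2 from P2A -/
theorem P2 (hFI : S_FI) (hP2A : S_P2A) (K : Type) [Field K] [NumberField K] (n : ℕ)
    (e₁ e₂ u₀ : K) (hn : 3 ≤ n) (he : e₁ ≠ e₂) (hu₀ : u₀ ≠ 0) (T : Finset ℕ)
    (hT : ∀ p ∈ T, p.Prime) :
    ∃ c : ℝ, ∀ (a b : ℕ) (w y : AlgebraicClosure K), 0 < b → b < a → a ≤ 3 * b → Nat.Coprime a b →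
      a.primeFactors ⊆ T → b.primeFactors ⊆ T → Eqw n u₀ a b w →
      (n : ℝ) * (finrank ℚ K : ℝ) * log b - c ≤ prox K T {none} (xw n e₁ e₂ w, y) := by
  obtain ⟨c, hc⟩ := hP2A K n e₁ e₂ u₀ hn he hu₀ T hT
  refine ⟨c, ?_⟩
  intro a b w y hb hab hab3 hcop haT hbT hw
  rw [(hFI K).2.2.1 T hT (xw n e₁ e₂ w) y w]
  have hwL : w ∈ resField K (xw n e₁ e₂ w, w) := mem_right _ _
  have h1 := hc (resField K (xw n e₁ e₂ w, w)) a b ⟨w, hwL⟩ hb hab hab3 hcop haT hbT
    (EqL_of_Eqw hw _ hwL)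
  have hx : coordX K (xw n e₁ e₂ w, w) =
      xL n e₁ e₂ (⟨w, hwL⟩ : resField K (xw n e₁ e₂ w, w)) :=
    Subtype.ext (coe_xL e₁ e₂ _ hwL).symm
  have h0 : (0 : ℝ) < finrank K (resField K (xw n e₁ e₂ w, w)) := finrank_pos' _
  have hmul : (finrank ℚ (resField K (xw n e₁ e₂ w, w)) : ℝ) =
      finrank ℚ K * finrank K (resField K (xw n e₁ e₂ w, w)) := by
    haveI : IsScalarTower ℚ K (resField K (xw n e₁ e₂ w, w)) :=
      IsScalarTower.of_algebraMap_eq' (Subsingleton.elim _ _)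
    exact_mod_cast (finrank_mul_finrank ℚ K (resField K (xw n e₁ e₂ w, w))).symm
  unfold prox
  rw [Finset.sum_singleton, le_div_iff₀ h0]
  simp only [Option.map_none]
  rw [hx]
  have h2 : 0 ≤ ∑ v : InfinitePlace (resField K (xw n e₁ e₂ w, w)), (v.mult : ℝ) *
      weil v none (xL n e₁ e₂ (⟨w, hwL⟩ : resField K (xw n e₁ e₂ w, w))) := by
    refine Finset.sum_nonneg fun v _ => mul_nonneg (Nat.cast_nonneg _) ?_
    simp only [weil]
    exact Real.log_nonneg (le_max_right _ _)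
  rw [hmul] at h1
  have h3 : ((n : ℝ) * (finrank ℚ K : ℝ) * log b - c) *
      (finrank K (resField K (xw n e₁ e₂ w, w)) : ℝ) =
      (n : ℝ) * ((finrank ℚ K : ℝ) * (finrank K (resField K (xw n e₁ e₂ w, w)) : ℝ)) * log b -
        c * (finrank K (resField K (xw n e₁ e₂ w, w)) : ℝ) := by ring
  rw [h3]
  linarith

/-- H2 from H2A -/
theorem H2 (hFI : S_FI) (hH2A : S_H2A) (K : Type) [Field K] [NumberField K] (n : ℕ)
    (e₁ e₂ u₀ : K) (hn : 3 ≤ n) (hu₀ : u₀ ≠ 0) :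
    ∃ c : ℝ, 0 < c ∧ ∀ (a b : ℕ) (w y : AlgebraicClosure K), 0 < b → b < a → a ≤ 3 * b →
      Eqw n u₀ a b w → heightA K (xw n e₁ e₂ w, y) ≤ c * (1 + log b) := by
  obtain ⟨c, hc0, hc⟩ := hH2A K n e₁ e₂ u₀ hn hu₀
  refine ⟨c, hc0, ?_⟩
  intro a b w y hb hab hab3 hw
  rw [(hFI K).2.1 (xw n e₁ e₂ w) y w]
  have hwL : w ∈ resField K (xw n e₁ e₂ w, w) := mem_right _ _
  have h1 := hc (resField K (xw n e₁ e₂ w, w)) a b ⟨w, hwL⟩ hb hab hab3 (EqL_of_Eqw hw _ hwL)
  have hx : coordX K (xw n e₁ e₂ w, w) =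
      xL n e₁ e₂ (⟨w, hwL⟩ : resField K (xw n e₁ e₂ w, w)) :=
    Subtype.ext (coe_xL e₁ e₂ _ hwL).symm
  have h0 : (0 : ℝ) < finrank K (resField K (xw n e₁ e₂ w, w)) := finrank_pos' _
  unfold heightA
  rw [hx, div_le_iff₀ h0]
  calc _ ≤ _ := h1
    _ = _ := by ring

/-- the core inequality -/
theorem coreX (hFI : S_FI) (hD1 : S_D1) (hD2A : S_D2A) (hD2B : S_D2B) (hP2A : S_P2A)
    (hH2A : S_H2A) (hDEG : S_DEG) (K : Type) [Field K] [NumberField K] (n : ℕ)
    (e₁ e₂ w₀ : K) (F f : K[X]) (σ : AlgebraicClosure K →+* ℂ) (hn : 3 ≤ n) (he : e₁ ≠ e₂)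
    (hw₀ : (w₀ + 1) ^ (n - 1) = w₀ ^ (n - 1)) (hu₀ : UU n w₀ ≠ 0)
    (hf : f = (X - C e₁) * (X - C e₂) * F) (T : Finset ℕ) (hT : ∀ p ∈ T, p.Prime) :
    ∃ c : ℝ, 0 < c ∧ ∀ (a b : ℕ) (w y : AlgebraicClosure K), 0 < b → b < a → a ≤ 3 * b →
      Nat.Coprime a b → a.primeFactors ⊆ T → b.primeFactors ⊆ T → Eqw n (UU n w₀) a b w →
      (w + 1) ^ (n - 1) ≠ w ^ (n - 1) →
      ‖σ w - σ (algebraMap K (AlgebraicClosure K) w₀)‖ ≤ 1 →
      y ≠ 0 → y ^ n = aeval (xw n e₁ e₂ w) f →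
      finrank K (resField K (xw n e₁ e₂ w, y)) ≤ n * n ∧
      - (1 / ((n : ℝ) - 1) * log ‖σ w - σ (algebraMap K (AlgebraicClosure K) w₀)‖) - c ≤
        (((n : ℝ) - 1) * (F.natDegree + 2) / n - 1) * prox K T {none} (xw n e₁ e₂ w, y) -
          logDisc K (xw n e₁ e₂ w, y) ∧
      prox K T {none} (xw n e₁ e₂ w, y) ≤ heightA K (xw n e₁ e₂ w, y) ∧
      heightA K (xw n e₁ e₂ w, y) ≤ c * (1 + log a) := by
  obtain ⟨c1, hc1⟩ := hD1 K n w₀ σ hn hw₀
  obtain ⟨c2, hc2⟩ := D2 hD2A hD2B K n e₁ e₂ (UU n w₀) F f hn hu₀ hf T hT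
  obtain ⟨c3, hc3⟩ := P2 hFI hP2A K n e₁ e₂ (UU n w₀) hn he hu₀ T hT
  obtain ⟨c4, hc40, hc4⟩ := H2 hFI hH2A K n e₁ e₂ (UU n w₀) hn hu₀
  set κ : ℝ := ((n : ℝ) - 1) * (F.natDegree + 2) / n - 1 with hκ
  have hn3 : (3 : ℝ) ≤ n := by exact_mod_cast hn
  have hn0 : (0 : ℝ) < n := by linarith
  have hN0 : (0 : ℝ) ≤ F.natDegree := Nat.cast_nonneg _
  have hκ0 : 0 ≤ κ := by
    rw [hκ, sub_nonneg, le_div_iff₀ hn0]
    nlinarith
  refine ⟨|c1| + |c2| + |κ * c3| + c4, by positivity, ?_⟩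
  intro a b w y hb hab hab3 hcop haT hbT hw hcrit hs hy hyf
  have hd1 := hc1 a b w hb hab hab3 hw hcrit hs
  have hd2 := hc2 a b w y hb hab hab3 haT hbT hw hy hyf
  have hp := hc3 a b w y hb hab hab3 hcop haT hbT hw
  have hh := hc4 a b w y hb hab hab3 hw
  have hle : resField K (xw n e₁ e₂ w, y) ≤ resField K (w, y) := by
    rw [IntermediateField.adjoin_le_iff]
    rintro z (hz | hz)
    · have hz' : z = xw n e₁ e₂ w := hz
      rw [hz']
      exact xw_mem e₁ e₂ _ (mem_left w y)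
    · have hz' : z = y := hz
      rw [hz']
      exact mem_right w y
  obtain ⟨hm1, hm2⟩ := (hFI K).1 _ _ hle
  have hb1 : (1 : ℝ) ≤ b := by exact_mod_cast hb
  have hba : (b : ℝ) ≤ a := by exact_mod_cast hab.le
  have hlb : 0 ≤ log (b : ℝ) := Real.log_nonneg hb1
  have hla : log (b : ℝ) ≤ log a := Real.log_le_log (by linarith) hba
  refine ⟨hm2.trans (hDEG K n e₁ e₂ (UU n w₀) f hn a b w y hw hyf), ?_, (hFI K).2.2.2 T _, ?_⟩
  · have h1 := mul_le_mul_of_nonneg_left hp hκ0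
    have h2 : κ * ((n : ℝ) * (finrank ℚ K : ℝ) * log b - c3) =
        (finrank ℚ K : ℝ) * ((n : ℝ) - 2) * log b +
          (finrank ℚ K : ℝ) * ((n : ℝ) - 1) * F.natDegree * log b - κ * c3 := by
      rw [hκ]
      field_simp
      ring
    rw [h2] at h1
    have a1 := le_abs_self c1
    have a2 := le_abs_self c2
    have a3 := le_abs_self (κ * c3)
    linarith
  · have h0 : (0 : ℝ) ≤ |c1| + |c2| + |κ * c3| := by positivity
    calc heightA K (xw n e₁ e₂ w, y) ≤ c4 * (1 + log b) := hh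
      _ ≤ c4 * (1 + log a) := mul_le_mul_of_nonneg_left (by linarith) hc40.le
      _ ≤ (|c1| + |c2| + |κ * c3| + c4) * (1 + log a) :=
        mul_le_mul_of_nonneg_right (by linarith) (by linarith)

/-- finitely many rational numbers `q` for given `w` -/
theorem finite_q2 {K : Type} [Field K] [NumberField K] (n : ℕ) (hn : 3 ≤ n) (u₀ : K) (hu₀ : u₀ ≠ 0)
    (w : AlgebraicClosure K) :
    {q : ℚ | UU n w = algebraMap K (AlgebraicClosure K) u₀ *
      (q : AlgebraicClosure K) ^ (n - 1)}.Finite := by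
  set P : (AlgebraicClosure K)[X] := C (algebraMap K (AlgebraicClosure K) u₀) * X ^ (n - 1) -
    C (UU n w) with hP
  have hu : algebraMap K (AlgebraicClosure K) u₀ ≠ 0 := by
    rw [Ne, map_eq_zero]
    exact hu₀
  have hP0 : P ≠ 0 := by
    intro h
    have h1 := congrArg (fun p => p.coeff (n - 1)) h
    have h2 : ¬ (n - 1 = 0) := by omega
    simp [hP, coeff_C, h2] at h1
    exact hu₀ h1
  have h1 : {r : AlgebraicClosure K | P.IsRoot r}.Finite := Polynomial.finite_setOfPred_isRoot hP0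
  refine (h1.preimage (f := fun q : ℚ => (q : AlgebraicClosure K))
    (Rat.cast_injective.injOn)).subset ?_
  intro q hq
  have hq' : UU n w = algebraMap K (AlgebraicClosure K) u₀ *
      (q : AlgebraicClosure K) ^ (n - 1) := hq
  simp only [Set.mem_preimage, Set.mem_ofPred_eq, IsRoot.def, hP, eval_sub, eval_mul, eval_C,
    eval_pow, eval_X]
  rw [← hq', sub_self]

/-- finitely many `w` for given `x` -/
theorem finite_w {K : Type} [Field K] [NumberField K] (n : ℕ) (hn : 3 ≤ n) (e₁ e₂ : K)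
    (he : e₁ ≠ e₂) (z : AlgebraicClosure K) :
    {w : AlgebraicClosure K | (algebraMap K (AlgebraicClosure K) e₂ - z) * (w + 1) ^ n =
      (algebraMap K (AlgebraicClosure K) e₁ - z) * w ^ n}.Finite := by
  set P : (AlgebraicClosure K)[X] :=
    C (algebraMap K (AlgebraicClosure K) e₂ - z) * (X + C 1) ^ n -
    C (algebraMap K (AlgebraicClosure K) e₁ - z) * X ^ n with hP
  have hP0 : P ≠ 0 := by
    intro h
    have h1 := congrArg (fun p => p.coeff n) h
    have h3 : ((X + C (1 : AlgebraicClosure K)) ^ n).coeff n = 1 := by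
      rw [Polynomial.coeff_X_add_C_pow]
      simp
    simp only [hP, coeff_sub, coeff_C_mul, coeff_zero, h3, coeff_X_pow, if_true, mul_one] at h1
    have h4 : algebraMap K (AlgebraicClosure K) e₂ = algebraMap K (AlgebraicClosure K) e₁ := by
      linear_combination h1
    exact he ((algebraMap K (AlgebraicClosure K)).injective h4.symm)
  refine (Polynomial.finite_setOfPred_isRoot hP0).subset ?_
  intro w hw
  have hw' : (algebraMap K (AlgebraicClosure K) e₂ - z) * (w + 1) ^ n =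
      (algebraMap K (AlgebraicClosure K) e₁ - z) * w ^ n := hw
  simp only [Set.mem_ofPred_eq, IsRoot.def, hP, eval_sub, eval_mul, eval_C,
    eval_pow, eval_X, eval_add]
  rw [hw', sub_self]

/-- finitely many critical points -/
theorem finite_crit {K : Type} [Field K] [NumberField K] (n : ℕ) (hn : 3 ≤ n) :
    {w : AlgebraicClosure K | (w + 1) ^ (n - 1) = w ^ (n - 1)}.Finite := by
  set P : (AlgebraicClosure K)[X] := (X + C 1) ^ (n - 1) - X ^ (n - 1) with hP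
  have hP0 : P ≠ 0 := by
    intro h
    have h1 := congrArg (fun p => p.eval (0 : AlgebraicClosure K)) h
    have h2 : n - 1 ≠ 0 := by omega
    simp [hP, h2] at h1
  refine (Polynomial.finite_setOfPred_isRoot hP0).subset ?_
  intro w hw
  have hw' : (w + 1) ^ (n - 1) = w ^ (n - 1) := hw
  simp only [Set.mem_ofPred_eq, IsRoot.def, hP, eval_sub, eval_C,
    eval_pow, eval_X, eval_add]
  rw [hw', sub_self]

end Pool.Agent.H455.WP
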