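import Mathlib
import Pool.Agent.H455.WPY

/-!
# The curves `y ^ n = f(x)`: infinitely many points, and every number field
-/

set_option autoImplicit false

namespace Pool.Agent.H455.WP

open NumberField Real Polynomial Module Filter
open Pool.Agent.H505.VL Pool.Agent.H505.VL.Pt

/-- failure over `K` -/
theorem mainKX (hFI : S_FI) (hROOT : S_ROOT) (hD1 : S_D1) (hD2A : S_D2A) (hD2B : S_D2B)
    (hP2A : S_P2A) (hH2A : S_H2A) (hDEG : S_DEG) (K : Type) [Field K] [NumberField K] (n : ℕ)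
    (e₁ e₂ w₀ : K) (F f : K[X]) (hn : 3 ≤ n) (he : e₁ ≠ e₂)
    (hw₀ : (w₀ + 1) ^ (n - 1) = w₀ ^ (n - 1)) (hu₀ : UU n w₀ ≠ 0)
    (hf : f = (X - C e₁) * (X - C e₂) * F) (hf0 : f ≠ 0) (T : Finset ℕ)
    (hT : ∀ p ∈ T, p.Prime) (c₀ : ℝ) (hc₀ : 0 < c₀)
    (hc₀T : c₀ < 1 / ((n : ℝ) - 1) ^ 2 * ((T.card : ℝ) - 1)) (b₀ : ℝ) :
    {P : AlgebraicClosure K × AlgebraicClosure K | P.2 ^ n = aeval P.1 f ∧
      finrank K (resField K P) ≤ n * n ∧
      c₀ * log⁺ (heightA K P) + logDisc K P + b₀ ≤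
        (((n : ℝ) - 1) * (F.natDegree + 2) / n - 1) * prox K T {none} P ∧
      prox K T {none} P ≤ heightA K P}.Infinite := by
  obtain ⟨σ⟩ : Nonempty (AlgebraicClosure K →+* ℂ) := by
    let g : K →+* ℂ := (Classical.arbitrary (K →+* ℂ))
    letI : Algebra K ℂ := g.toAlgebra
    exact ⟨(IsAlgClosed.lift (R := K) (S := AlgebraicClosure K) (M := ℂ)).toRingHom⟩
  obtain ⟨c, hc0, hc⟩ := coreX hFI hD1 hD2A hD2B hP2A hH2A hDEG K n e₁ e₂ w₀ F f σ hn he hw₀ hu₀
    hf T hT
  obtain ⟨c1, hc10, hc1⟩ := hROOT K n w₀ σ hn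
  intro hfin
  have hn3 : (3 : ℝ) ≤ n := by exact_mod_cast hn
  have hn1 : (0 : ℝ) < (n : ℝ) - 1 := by linarith
  have hTc : 2 ≤ T.card := by
    by_contra h
    have h1 : (T.card : ℝ) ≤ 1 := by exact_mod_cast (by omega : T.card ≤ 1)
    have h2 : 1 / ((n : ℝ) - 1) ^ 2 * ((T.card : ℝ) - 1) ≤ 0 :=
      mul_nonpos_of_nonneg_of_nonpos (by positivity) (by linarith)
    linarith
  obtain ⟨s, hs⟩ : ∃ s, T.card = s + 2 := ⟨T.card - 2, by omega⟩
  have hs1 : T.card - 1 = s + 1 := by omega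
  set G : Set (AlgebraicClosure K × AlgebraicClosure K) :=
    {P : AlgebraicClosure K × AlgebraicClosure K | P.2 ^ n = aeval P.1 f ∧
      finrank K (resField K P) ≤ n * n ∧
      c₀ * log⁺ (heightA K P) + logDisc K P + b₀ ≤
        (((n : ℝ) - 1) * (F.natDegree + 2) / n - 1) * prox K T {none} P ∧
      prox K T {none} P ≤ heightA K P} with hG
  -- values of `x` to be avoided
  set Z : Set (AlgebraicClosure K) :=
    {x | (f.map (algebraMap K (AlgebraicClosure K))).IsRoot x} ∪ Prod.fst '' G with hZ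
  have hZf : Z.Finite := by
    refine (Polynomial.finite_setOfPred_isRoot ?_).union (hfin.image _)
    rw [Polynomial.map_ne_zero_iff (algebraMap K (AlgebraicClosure K)).injective]
    exact hf0
  -- values of `w` to be avoided
  set Wb : Set (AlgebraicClosure K) := {w | (w + 1) ^ (n - 1) = w ^ (n - 1)} ∪
    ⋃ z ∈ Z, {w : AlgebraicClosure K | (algebraMap K (AlgebraicClosure K) e₂ - z) * (w + 1) ^ n =
      (algebraMap K (AlgebraicClosure K) e₁ - z) * w ^ n} with hWb
  have hWbf : Wb.Finite :=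
    (finite_crit n hn).union (hZf.biUnion fun z _ => finite_w n hn e₁ e₂ he z)
  set M : ℝ := ∑ p ∈ T, Real.log p with hM
  have hM0 : 0 ≤ M := Finset.sum_nonneg fun p _ => Real.log_natCast_nonneg p
  have hav : ∀ᶠ A : ℕ in atTop, ∀ w ∈ Wb, ∀ a b : ℕ, 0 < b → b < a →
      (a : ℝ) - b ≤ 2 * ((M + 1) / (A : ℝ) ^ (s + 1)) * b → ¬ Eqw n (UU n w₀) a b w := by
    rw [Filter.eventually_all_finite hWbf]
    intro w _
    have h1 : ∀ᶠ A : ℕ in atTop, ∀ q ∈ {q : ℚ | UU n w =
        algebraMap K (AlgebraicClosure K) (UU n w₀) * (q : AlgebraicClosure K) ^ (n - 1)},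
        ∀ a b : ℕ, 0 < b → b < a →
        (a : ℝ) - b ≤ 2 * ((M + 1) / (A : ℝ) ^ (s + 1)) * b → (a : ℚ) / b ≠ q := by
      rw [Filter.eventually_all_finite (finite_q2 n hn (UU n w₀) hu₀ w)]
      intro q _
      exact avoid (M + 1) s q
    filter_upwards [h1] with A hA a b hb hab hd hx
    refine hA ((a : ℚ) / b) ?_ a b hb hab hd rfl
    change UU n w = algebraMap K (AlgebraicClosure K) (UU n w₀) *
      (((a : ℚ) / b : ℚ) : AlgebraicClosure K) ^ (n - 1)
    rw [hx]
    push_cast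
    rfl
  set κ : ℝ := 1 / ((n : ℝ) - 1) ^ 2 * ((T.card : ℝ) - 1) - c₀ with hκ
  have hκ0 : 0 < κ := by rw [hκ]; linarith
  set D : ℝ := c₀ * log⁺ (c * (1 + M)) + b₀ +
    1 / ((n : ℝ) - 1) ^ 2 * (log c1 + log (2 * (M + 1))) + c with hD
  have hlogA : ∀ᶠ A : ℕ in atTop, D ≤ κ * log (A : ℝ) := by
    have h1 : Tendsto (fun A : ℕ => κ * log (A : ℝ)) atTop atTop :=
      Tendsto.const_mul_atTop hκ0 (tendsto_log_atTop.comp tendsto_natCast_atTop_atTop)
    exact h1.eventually_ge_atTop D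
  have hAM : ∀ᶠ A : ℕ in atTop, M + 1 ≤ (A : ℝ) :=
    tendsto_natCast_atTop_atTop.eventually_ge_atTop (M + 1)
  have hsm : ∀ᶠ A : ℕ in atTop, c1 * (2 * (M + 1)) ≤ (A : ℝ) ^ (s + 1) :=
    ((tendsto_pow_atTop (by omega)).comp tendsto_natCast_atTop_atTop).eventually_ge_atTop _
  obtain ⟨A, hA1, hA2, hA3, hA4⟩ := (hav.and (hlogA.and (hAM.and hsm))).exists
  obtain ⟨a, b, hb, hab, hab3, hcop, haT, hbT, hdiff, hloga⟩ := exists_pair hT hTc hA3
  rw [← hM] at hdiff hloga
  rw [hs1] at hdiff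
  have hA1' : (1 : ℝ) ≤ A := by linarith
  have hA0 : (0 : ℝ) < A := by linarith
  have hb0 : (0 : ℝ) < b := by exact_mod_cast hb
  have hbar : (b : ℝ) < a := by exact_mod_cast hab
  have ha0 : (0 : ℝ) < a := by linarith
  have hAp : (0 : ℝ) < (A : ℝ) ^ (s + 1) := by positivity
  obtain ⟨w, hw, hwn⟩ := hc1 a b hb hab hab3
  have hwW : w ∉ Wb := fun h => hA1 w h a b hb hab hdiff hw
  have hcrit : (w + 1) ^ (n - 1) ≠ w ^ (n - 1) := fun h => hwW (Or.inl h)
  have hU0 : UU n w ≠ 0 := by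
    rw [hw]
    refine mul_ne_zero ?_ (pow_ne_zero _ (div_ne_zero ?_ ?_))
    · rw [Ne, map_eq_zero]; exact hu₀
    · have : a ≠ 0 := by omega
      exact_mod_cast this
    · have : b ≠ 0 := by omega
      exact_mod_cast this
  have hxZ : xw n e₁ e₂ w ∉ Z := by
    intro h
    apply hwW
    refine Or.inr ?_
    rw [Set.mem_iUnion₂]
    refine ⟨_, h, ?_⟩
    change (algebraMap K (AlgebraicClosure K) e₂ - xw n e₁ e₂ w) * (w + 1) ^ n =
      (algebraMap K (AlgebraicClosure K) e₁ - xw n e₁ e₂ w) * w ^ n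
    have h1 : xw n e₁ e₂ w * UU n w = algebraMap K (AlgebraicClosure K) e₂ * (w + 1) ^ n -
        algebraMap K (AlgebraicClosure K) e₁ * w ^ n := by
      unfold xw
      exact div_mul_cancel₀ _ hU0
    have h2 : UU n w = (w + 1) ^ n - w ^ n := rfl
    rw [h2] at h1
    linear_combination -h1
  have hfx : aeval (xw n e₁ e₂ w) f ≠ 0 := by
    intro h
    apply hxZ
    refine Or.inl ?_
    change (f.map (algebraMap K (AlgebraicClosure K))).IsRoot _
    rw [IsRoot.def, eval_map, ← aeval_def]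
    exact h
  obtain ⟨y, hy⟩ := IsAlgClosed.exists_pow_nat_eq (aeval (xw n e₁ e₂ w) f) (n := n) (by omega)
  have hy0 : y ≠ 0 := by
    rintro rfl
    rw [zero_pow (by omega)] at hy
    exact hfx hy.symm
  -- the distance
  set dst : ℝ := ‖σ w - σ (algebraMap K (AlgebraicClosure K) w₀)‖ with hdst
  have hdst0 : 0 < dst := by
    rw [hdst, norm_pos_iff, sub_ne_zero]
    intro h
    apply hcrit
    rw [σ.injective h, ← map_one (algebraMap K (AlgebraicClosure K)), ← map_add, ← map_pow, hw₀,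
      map_pow]
  have hfrac : ((a : ℝ) - b) / a ≤ 2 * (M + 1) / (A : ℝ) ^ (s + 1) := by
    rw [div_le_iff₀ ha0]
    calc (a : ℝ) - b ≤ 2 * ((M + 1) / (A : ℝ) ^ (s + 1)) * b := hdiff
      _ ≤ 2 * ((M + 1) / (A : ℝ) ^ (s + 1)) * a :=
        mul_le_mul_of_nonneg_left hbar.le (by positivity)
      _ = _ := by ring
  have hdn : dst ^ (n - 1) ≤ c1 * (2 * (M + 1)) / (A : ℝ) ^ (s + 1) := by
    calc dst ^ (n - 1) ≤ c1 * (((a : ℝ) - b) / a) := hwn
      _ ≤ c1 * (2 * (M + 1) / (A : ℝ) ^ (s + 1)) := mul_le_mul_of_nonneg_left hfrac hc10.le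
      _ = _ := by ring
  have hd1 : dst ≤ 1 := by
    have h1 : dst ^ (n - 1) ≤ 1 := hdn.trans ((div_le_one hAp).2 hA4)
    exact (pow_le_one_iff_of_nonneg hdst0.le (by omega)).1 h1
  have hlogd : ((n : ℝ) - 1) * log dst ≤ log c1 + log (2 * (M + 1)) - (s + 1) * log A := by
    have h1 := Real.log_le_log (by positivity) hdn
    rw [Real.log_pow, Real.log_div (by positivity) (by positivity),
      Real.log_mul hc10.ne' (by positivity), Real.log_pow] at h1
    have h2 : ((n - 1 : ℕ) : ℝ) = (n : ℝ) - 1 := by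
      rw [Nat.cast_sub (by omega)]; norm_num
    rw [h2] at h1
    push_cast at h1
    linarith
  obtain ⟨h1, h2, h3, h4⟩ := hc a b w y hb hab hab3 hcop haT hbT hw hcrit hd1 hy0 hy
  apply hxZ
  refine Or.inr ⟨(xw n e₁ e₂ w, y), ⟨hy, h1, ?_, h3⟩, rfl⟩
  · -- the height
    have e1 : log⁺ (heightA K (xw n e₁ e₂ w, y)) ≤ log⁺ (c * (1 + M)) + log (A : ℝ) := by
      have g0 : 0 ≤ heightA K (xw n e₁ e₂ w, y) := by
        unfold heightA
        exact div_nonneg (Height.zero_le_logHeight₁ _) (Nat.cast_nonneg _)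
      have g1 : heightA K (xw n e₁ e₂ w, y) ≤ (c * (1 + M)) * A := by
        refine h4.trans ?_
        have : 1 + log a ≤ (1 + M) * A := by nlinarith
        calc c * (1 + log a) ≤ c * ((1 + M) * A) := mul_le_mul_of_nonneg_left this hc0.le
          _ = (c * (1 + M)) * A := by ring
      calc log⁺ (heightA K (xw n e₁ e₂ w, y)) ≤ log⁺ ((c * (1 + M)) * A) :=
            Real.posLog_le_posLog g0 g1
        _ ≤ log⁺ (c * (1 + M)) + log⁺ (A : ℝ) := Real.posLog_mul
        _ = log⁺ (c * (1 + M)) + log (A : ℝ) := by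
            rw [Real.posLog_eq_log (x := (A : ℝ)) (by rw [abs_of_pos hA0]; exact hA1')]
    have e3 : ((T.card : ℝ) - 1) = s + 1 := by
      rw [hs]; push_cast; ring
    have e4 := mul_le_mul_of_nonneg_left e1 hc₀.le
    have e5 : 1 / ((n : ℝ) - 1) ^ 2 * ((s + 1) * log A - (log c1 + log (2 * (M + 1)))) ≤
        - (1 / ((n : ℝ) - 1) * log dst) := by
      have g1 := mul_le_mul_of_nonneg_left hlogd
        (by positivity : (0 : ℝ) ≤ 1 / ((n : ℝ) - 1) ^ 2)
      have g2 : 1 / ((n : ℝ) - 1) ^ 2 * (((n : ℝ) - 1) * log dst) =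
          1 / ((n : ℝ) - 1) * log dst := by
        field_simp
      rw [g2] at g1
      have g3 : 1 / ((n : ℝ) - 1) ^ 2 * (log c1 + log (2 * (M + 1)) - (s + 1) * log A) =
        - (1 / ((n : ℝ) - 1) ^ 2 * ((s + 1) * log A - (log c1 + log (2 * (M + 1))))) := by ring
      rw [g3] at g1
      linarith
    have e6 : κ * log (A : ℝ) = 1 / ((n : ℝ) - 1) ^ 2 * ((s + 1) * log A) - c₀ * log A := by
      rw [hκ, e3]; ring
    rw [e6, hD] at hA2
    have e7 : 1 / ((n : ℝ) - 1) ^ 2 * ((s + 1) * log A - (log c1 + log (2 * (M + 1)))) =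
      1 / ((n : ℝ) - 1) ^ 2 * ((s + 1) * log A) -
        1 / ((n : ℝ) - 1) ^ 2 * (log c1 + log (2 * (M + 1))) := by
      ring
    rw [e7] at e5
    have e8 : c₀ * (log⁺ (c * (1 + M)) + log (A : ℝ)) = c₀ * log⁺ (c * (1 + M)) + c₀ * log A := by
      ring
    rw [e8] at e4
    change c₀ * log⁺ (heightA K (xw n e₁ e₂ w, y)) + logDisc K (xw n e₁ e₂ w, y) + b₀ ≤
        (((n : ℝ) - 1) * (F.natDegree + 2) / n - 1) * prox K T {none} (xw n e₁ e₂ w, y)
    linarith

/-- failure over every number field -/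
theorem mainAllX (hFI : S_FI) (hROOT : S_ROOT) (hD1 : S_D1) (hD2A : S_D2A) (hD2B : S_D2B)
    (hP2A : S_P2A) (hH2A : S_H2A) (hDEG : S_DEG) (hSPL2 : S_SPL2)
    (k : Type) [Field k] [NumberField k] (n : ℕ) (hn : 3 ≤ n) (f : k[X]) (hf : f.Separable)
    (hd : 2 ≤ f.natDegree) :
    ∃ (r : ℕ) (c : ℝ), 0 < c ∧ ∀ T : Finset ℕ, (∀ p ∈ T, p.Prime) → ∀ C b : ℝ, 0 < C →
      C < c * ((T.card : ℝ) - 1) → ∀ g w : ℝ, 0 ≤ g →
      g + w = ((n : ℝ) - 1) * f.natDegree / n - 1 →
      {P : AlgebraicClosure k × AlgebraicClosure k | P.2 ^ n = aeval P.1 f ∧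
        finrank k (resField k P) ≤ r ∧
        C * log⁺ (heightA k P) + logDisc k P + b ≤
          g * heightA k P + w * prox k T {none} P}.Infinite := by
  obtain ⟨K, _, _, _, e₁, e₂, w₀, F, he, hw₀, hu₀, hdeg, hfK⟩ := hSPL2 k n f hn hf hd
  obtain ⟨ι, hι⟩ := WP_SPLIT.iota k K
  have hιinj : Function.Injective ι := ι.injective
  haveI : IsScalarTower ℚ k K := IsScalarTower.of_algebraMap_eq' (Subsingleton.elim _ _)
  haveI : FiniteDimensional k K := FiniteDimensional.right ℚ k K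
  have he0 : (0 : ℝ) < finrank k K := by exact_mod_cast finrank_pos
  have he1 : (1 : ℝ) ≤ finrank k K := by
    exact_mod_cast (Nat.succ_le_of_lt finrank_pos)
  have hn3 : (3 : ℝ) ≤ n := by exact_mod_cast hn
  have hn1 : (0 : ℝ) < (n : ℝ) - 1 := by linarith
  refine ⟨finrank k K * (n * n), 1 / ((n : ℝ) - 1) ^ 2 / finrank k K, by positivity, ?_⟩
  intro T hT C b hC hCT g w hg hgw
  have hfK0 : f.map (algebraMap k K) ≠ 0 := by
    rw [Polynomial.map_ne_zero_iff (algebraMap k K).injective]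
    exact hf.ne_zero
  have hinf := mainKX hFI hROOT hD1 hD2A hD2B hP2A hH2A hDEG K n e₁ e₂ w₀ F
    (f.map (algebraMap k K)) hn he hw₀ hu₀ hfK hfK0 T hT
    (C * finrank k K) (by positivity) (by
      have := mul_lt_mul_of_pos_right hCT he0
      calc C * (finrank k K : ℝ) < _ := this
        _ = _ := by field_simp) (b * finrank k K)
  refine (hinf.image (f := fun P : AlgebraicClosure K × AlgebraicClosure K =>
    ((ι P.1, ι P.2) : AlgebraicClosure k × AlgebraicClosure k)) ?_).mono ?_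
  · rintro ⟨x, y⟩ _ ⟨x', y'⟩ _ h
    have h1 := congrArg Prod.fst h
    have h2 := congrArg Prod.snd h
    exact Prod.ext (hιinj h1) (hιinj h2)
  · rintro _ ⟨P, ⟨hP1, hP2, hP3, hP4⟩, rfl⟩
    obtain ⟨b1, b2, b3, b4⟩ := WP_BC.main k K ι hι T hT P
    refine ⟨?_, b1.trans (Nat.mul_le_mul_left _ hP2), ?_⟩
    · change (ι P.2) ^ n = aeval (ι P.1) f
      have h1 : (ι.comp ((algebraMap K (AlgebraicClosure K)).comp (algebraMap k K))) =
          algebraMap k (AlgebraicClosure k) := RingHom.ext hι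
      rw [← map_pow, hP1, aeval_def, eval₂_map, hom_eval₂, h1, aeval_def]
    · have hh0 : 0 ≤ heightA K P := by
        unfold heightA
        exact div_nonneg (Height.zero_le_logHeight₁ _) (Nat.cast_nonneg _)
      have q1 : log⁺ (heightA k (ι P.1, ι P.2)) ≤ log⁺ (heightA K P) := by
        rw [b2]
        exact Real.posLog_le_posLog (by positivity) (div_le_self hh0 he1)
      have q2 : prox k T {none} (ι P.1, ι P.2) ≤ heightA k (ι P.1, ι P.2) := by
        rw [b2, b3]
        exact div_le_div_of_nonneg_right hP4 he0.le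
      have q3 : (C * finrank k K) * log⁺ (heightA K P) + logDisc K P + b * finrank k K ≤
          (((n : ℝ) - 1) * f.natDegree / n - 1) * prox K T {none} P := by
        refine hP3.trans (le_of_eq ?_)
        congr 2
        rw [← hdeg]
        push_cast
        ring
      have q4 : C * log⁺ (heightA K P) + logDisc K P / finrank k K + b ≤
          (((n : ℝ) - 1) * f.natDegree / n - 1) * (prox K T {none} P / finrank k K) := by
        have h1 := div_le_div_of_nonneg_right q3 he0.le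
        have h2 : ((C * finrank k K) * log⁺ (heightA K P) + logDisc K P + b * finrank k K) /
            (finrank k K : ℝ) = C * log⁺ (heightA K P) + logDisc K P / finrank k K + b := by
          field_simp
        have h3 : (((n : ℝ) - 1) * f.natDegree / n - 1) * prox K T {none} P / (finrank k K : ℝ) =
            (((n : ℝ) - 1) * f.natDegree / n - 1) * (prox K T {none} P / finrank k K) := by ring
        rw [h2, h3] at h1
        exact h1
      rw [← b3, ← hgw] at q4
      have q5 := mul_le_mul_of_nonneg_left q1 hC.le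
      have q6 := mul_le_mul_of_nonneg_left q2 hg
      have q7 : (g + w) * prox k T {none} (ι P.1, ι P.2) =
        g * prox k T {none} (ι P.1, ι P.2) + w * prox k T {none} (ι P.1, ι P.2) := by ring
      rw [q7] at q4
      linarith

/-- the degree of the canonical divisor is not negative -/
theorem gcd_bound (n d : ℕ) (hn : 3 ≤ n) (hd : 2 ≤ d) : n + Nat.gcd n d ≤ (n - 1) * d := by
  have h1 : Nat.gcd n d ≤ d := Nat.gcd_le_right n (by omega)
  have h2 : Nat.gcd n d ≤ n := Nat.gcd_le_left d (by omega)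
  obtain ⟨m, rfl⟩ : ∃ m, n = m + 3 := ⟨n - 3, by omega⟩
  have h3 : m + 3 - 1 = m + 2 := by omega
  rw [h3]
  rcases Nat.eq_zero_or_pos m with rfl | hm
  · rcases Nat.lt_or_ge d 3 with h | h
    · have : d = 2 := by omega
      subst this
      decide
    · omega
  · nlinarith

end Pool.Agent.H455.WP
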